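import Pool.Agent.RMP.LimDefs
import Pool.Agent.CRT.TKZ
import Pool.Agent.SIM.FinAllS
import Pool.Agent.NPR.All

/-!
# The renormalisation map in the scaling limit: if the laws converge (helper10)

* **`fam_q1`** : if the laws of the walks converge to `μ` then `Fam id (fun _ => μ) (fun x => x ^ (3 / 4))`; the sizes vary
  regularly (`CRT.regSz_w`);
* **`rm_q1`** : `RMLim` for such a limit.
-/

set_option autoImplicit false

open MeasureTheory Filter Topology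
open scoped Classical

namespace Pool.Agent.RMP

open Pool.Agent.NTS.Res

/-- **row Q1C** -/
theorem fam_q1 (μ : Measure C(unitInterval, ℂ)) (hμ : IsProbabilityMeasure μ) (hl : LawTo id μ) :
    Fam id (fun _ => μ) (fun x => x ^ (3 / 4 : ℝ)) := by
  have hl' : LawTo (fun n => n) μ := hl
  have hreg : CRT.RegSz :=
    CRT.regSz_w (fun φ ν hφ hν hl => HexObs.SIM.simple_final.2.2 φ ν hφ hν hl) HexObs.NPR.mainW
  refine ⟨tendsto_id, fun _ _ _ => hμ, fun x hx _ f => ?_, fun x hx _ => ?_⟩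
  · have ht : Tendsto (fun n : ℕ => ⌊x * n⌋₊) atTop atTop :=
      tendsto_nat_floor_atTop.comp (tendsto_natCast_atTop_atTop.const_mul_atTop hx)
    exact (hl' f).comp ht
  · exact hreg ⟨μ, hμ, hl'⟩ x hx

/-- **the renormalisation map, if the laws converge** -/
theorem rm_q1 (hR : RMLim) (μ : Measure C(unitInterval, ℂ)) (hμ : IsProbabilityMeasure μ) (hl : LawTo id μ) :
    ∀ ε : ℝ, 0 < ε → ∃ d0 : ℝ, 0 < d0 ∧ ∀ d : ℝ, 0 < d → d ≤ d0 → ∃ c C r0 : ℝ, 0 < c ∧ 0 < r0 ∧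
      ∀ r s : ℝ, 0 < r → r ≤ r0 → ε ≤ s → s ≤ 1 - ε →
        c * r ^ (59 / 24 : ℝ) ≤ rmap (fun _ => μ) (fun x => x ^ (3 / 4 : ℝ)) s d r (fun _ => 1) ∧
        rmap (fun _ => μ) (fun x => x ^ (3 / 4 : ℝ)) s d r (fun _ => 1) ≤ C * r ^ (59 / 24 : ℝ) ∧
        ∀ F : C(unitInterval, ℂ) → ℝ, (∀ γ, 0 ≤ F γ ∧ F γ ≤ 1) → LipschitzWith 1 F →
          |rmap (fun _ => μ) (fun x => x ^ (3 / 4 : ℝ)) s d r F /
            rmap (fun _ => μ) (fun x => x ^ (3 / 4 : ℝ)) s d r (fun _ => 1) - ∫ γ, F γ ∂μ| ≤ ε := by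
  intro ε hε
  obtain ⟨d0, hd0, h1⟩ := hR ε hε
  refine ⟨d0, hd0, fun d hd hdd => ?_⟩
  obtain ⟨c, C, r0, hc, hr0, h2⟩ := h1 d hd hdd
  exact ⟨c, C, r0, hc, hr0, h2 id (fun _ => μ) (fun x => x ^ (3 / 4 : ℝ)) (fam_q1 μ hμ hl)⟩

end Pool.Agent.RMP
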