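import Pool.Agent.RMP.PubG
import Pool.Agent.TSW.BC1F

/-!
# The renormalisation map, public part 2 (helper83): the modulus in words and the change of the number of letters

* **`osc_small`**: the displacement in `h ≤ δ n` steps is small;
* **`Eu_own`**: the mean of a function of the curve over the words with `i` letters, in the scaling of `n`, is close to the
  mean over the law with `n` steps, for `i` near `n`.
-/

set_option autoImplicit false

namespace Pool.Agent.RMP

open Finset MeasureTheory Filter Topology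

open HexObs hiding pos curve

open HexObs.TOG HexObs.OneS HexObs.SDN HexObs.TS HexObs.TIW HexObs.MCP HexObs.RMP

open Pool.Agent.NTS.Res

open Pool.Agent.IW.Res (mean)

open Pool.Agent.TSW.BP (rt3 cr cr_norm mean_rt curve_rt Eu_congr pos_rt3)

open NTSF NTSF.Mg

open NTF (sw JJ)

open scoped Classical

/-! ### 1. The modulus -/

lemma Eu_mono {n : ℕ} {f g : List Bool → ℝ} (h : ∀ t, t.length = n → f t ≤ g t) : Eu n f ≤ Eu n g := by
  unfold Eu
  refine div_le_div_of_nonneg_right (sum_le_sum fun t ht => h t ?_) (Nat.cast_nonneg _)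
  rw [EF.sawF_eq] at ht
  exact (mem_wdN.1 ht).1

/-- the fraction of the walks whose curve is not Hoelder -/
lemma mean_law {n : ℕ} (E : Set C(unitInterval, ℂ)) {ε : ℝ} (hε : 0 ≤ ε) (h : law n E ≤ ENNReal.ofReal ε) :
    mean n (fun s => if curve s ∈ E then 1 else 0) ≤ ε := by
  rw [law_apply] at h
  have h0 : ((saw n).card : ℝ) ≠ 0 := by
    have := (saw_nonempty n).card_pos
    exact_mod_cast this.ne'
  have h2 : mean n (fun s => if curve s ∈ E then (1 : ℝ) else 0) =
      ((saw n).card : ℝ)⁻¹ * (((saw n).filter fun s => curve s ∈ E).card : ℝ) := by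
    rw [Pool.Agent.TSW.mean_eq, sum_boole, div_eq_inv_mul]
  have h3 := ENNReal.toReal_mono ENNReal.ofReal_ne_top h
  rw [ENNReal.toReal_mul, ENNReal.toReal_inv, ENNReal.toReal_natCast, ENNReal.toReal_natCast, ENNReal.toReal_ofReal hε] at h3
  rw [h2]
  exact h3

/-- the displacement of a word and the modulus of its curve -/
lemma osd_curve {n : ℕ} (hn : 1 ≤ n) (a : Fin 3) {t : List Bool} (ht : t.length = n) {M η : ℝ} {α : NNReal} {M0 : NNReal}
    (hM : (M0 : ℝ) = M) {h : ℕ} (hh : M * ((h : ℝ) / n) ^ (α : ℝ) ≤ η) (hη : 0 ≤ η)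
    (hH : HolderWith M0 α (curve (rt3 a (sw n t)))) : osd h t ≤ η * size n := by
  have hs := size_pos hn
  have hn0 : (0 : ℝ) < n := by exact_mod_cast hn
  refine osd_le (by positivity) fun i j hij hji hj => ?_
  rw [ht] at hj
  -- the positions on the curve
  have key : ∀ k : ℕ, k ≤ n → ∀ hk : ((k : ℝ) / n) ∈ Set.Icc (0 : ℝ) 1,
      curve (rt3 a (sw n t)) ⟨(k : ℝ) / n, hk⟩ = cr a * JJ (vx oo up t k) / size n := by
    intro k hk hkI
    have h1 : curve (rt3 a (sw n t)) ⟨(k : ℝ) / n, hkI⟩ = pos (rt3 a (sw n t)) k / size n := by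
      rw [curve_eq]
      rcases Nat.lt_or_ge k n with h2 | h2
      · rw [Tight.poly_apply (i := k) h2]
        · show pos (rt3 a (sw n t)) k / size n + ((((k : ℝ) / n) * n - k : ℝ) : ℂ) * _ = _
          have : ((k : ℝ) / n) * n - k = 0 := by
            field_simp
            ring
          rw [this]
          simp
        · show (k : ℝ) ≤ (k : ℝ) / n * n
          rw [div_mul_cancel₀ _ hn0.ne']
        · show (k : ℝ) / n * n ≤ (k : ℝ) + 1
          rw [div_mul_cancel₀ _ hn0.ne']
          linarith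
      · have hkn : k = n := le_antisymm hk h2
        have e : (⟨(k : ℝ) / n, hkI⟩ : unitInterval) = 1 := by
          apply Subtype.ext
          show (k : ℝ) / n = 1
          rw [hkn, div_self hn0.ne']
        rw [e, Tight.poly_one, hkn]
    rw [h1, pos_rt3, pos_sw n t k hk]
  have hI : ∀ k : ℕ, k ≤ n → ((k : ℝ) / n) ∈ Set.Icc (0 : ℝ) 1 := fun k hk =>
    ⟨by positivity, by
      rw [div_le_one hn0]
      exact_mod_cast hk⟩
  have h1 := hH.dist_le ⟨(i : ℝ) / n, hI i (hij.trans hj)⟩ ⟨(j : ℝ) / n, hI j hj⟩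
  rw [key i (hij.trans hj), key j hj, dist_eq_norm, ← sub_div, ← mul_sub, norm_div, norm_mul, cr_norm, one_mul,
    Complex.norm_of_nonneg hs.le, hM] at h1
  have h2 : dist (⟨(i : ℝ) / n, hI i (hij.trans hj)⟩ : unitInterval) ⟨(j : ℝ) / n, hI j hj⟩ ≤ (h : ℝ) / n := by
    rw [Subtype.dist_eq, Real.dist_eq, ← sub_div, abs_div, abs_of_pos hn0]
    refine div_le_div_of_nonneg_right ?_ hn0.le
    have a1 : ((i : ℕ) : ℝ) ≤ j := by exact_mod_cast hij
    have a2 : ((j : ℕ) : ℝ) ≤ i + h := by exact_mod_cast hji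
    rw [abs_le]
    constructor <;> linarith
  have hM0 : 0 ≤ M := by
    rw [← hM]
    exact M0.2
  have h3 : M * dist (⟨(i : ℝ) / n, hI i (hij.trans hj)⟩ : unitInterval) ⟨(j : ℝ) / n, hI j hj⟩ ^ (α : ℝ) ≤ η :=
    (mul_le_mul_of_nonneg_left (Real.rpow_le_rpow dist_nonneg h2 α.2) hM0).trans hh
  have h4 := h1.trans h3
  rwa [div_le_iff₀ hs] at h4

/-- **the displacement in few steps is small** -/
theorem osc_small {η ε : ℝ} (hη : 0 < η) (hε : 0 < ε) : ∃ δ : ℝ, 0 < δ ∧ ∀ n h : ℕ, 1 ≤ n → (h : ℝ) ≤ δ * n →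
    Eu n (fun t => if η * size n < osd h t then 1 else 0) ≤ ε := by
  obtain ⟨α, hα⟩ : ∃ α : NNReal, α = 1 / 2 := ⟨_, rfl⟩
  have hα2 : (α : ℝ) = 1 / 2 := by
    rw [hα]
    norm_num
  obtain ⟨M, hM⟩ := (NTSF.conclE_false NTSF.finE).2.2.1 α (by rw [hα]; norm_num) (by rw [hα2]; norm_num) ε hε
  obtain ⟨δ, hδ⟩ : ∃ δ : ℝ, δ = (η / (M + 1)) ^ 2 := ⟨_, rfl⟩
  have hM0 : (0 : ℝ) ≤ M := M.2
  have hδ0 : 0 < δ := by
    rw [hδ]
    positivity
  refine ⟨δ, hδ0, fun n h hn hh => ?_⟩
  have hn0 : (0 : ℝ) < n := by exact_mod_cast hn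
  have h1 : (M : ℝ) * ((h : ℝ) / n) ^ (α : ℝ) ≤ η := by
    have h2 : (h : ℝ) / n ≤ δ := by
      rw [div_le_iff₀ hn0]
      exact hh
    have h3 : ((h : ℝ) / n) ^ (α : ℝ) ≤ η / (M + 1) := by
      rw [hα2, ← Real.sqrt_eq_rpow]
      refine (Real.sqrt_le_sqrt h2).trans ?_
      rw [hδ, Real.sqrt_sq (by positivity)]
    calc (M : ℝ) * ((h : ℝ) / n) ^ (α : ℝ) ≤ M * (η / (M + 1)) := mul_le_mul_of_nonneg_left h3 hM0
      _ = η * (M / (M + 1)) := by ring
      _ ≤ η * 1 := mul_le_mul_of_nonneg_left (by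
          rw [div_le_one (by linarith)]
          linarith) hη.le
      _ = η := mul_one _
  obtain ⟨E, hE⟩ : ∃ E : Set C(unitInterval, ℂ), E = {γ : C(unitInterval, ℂ) | ¬ HolderWith M α γ} := ⟨_, rfl⟩
  have h2 : mean n (fun s => if curve s ∈ E then 1 else 0) ≤ ε := mean_law E hε.le (by
    rw [hE]
    exact hM n hn)
  rw [mean_rt (by omega)] at h2
  have h3 : ∀ a : Fin 3, Eu n (fun t => if η * size n < osd h t then 1 else 0) ≤
      Eu n (fun t => if curve (rt3 a (sw n t)) ∈ E then 1 else 0) := by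
    intro a
    refine Eu_mono fun t ht => ?_
    by_cases h4 : curve (rt3 a (sw n t)) ∈ E
    · rw [if_pos h4]
      split_ifs
      · exact le_rfl
      · exact zero_le_one
    · have h5 : HolderWith M α (curve (rt3 a (sw n t))) := by
        rw [hE] at h4
        exact not_not.1 h4
      have h6 := osd_curve hn a ht rfl h1 hη.le h5
      rw [if_neg h4, if_neg (not_lt.2 h6)]
  rw [Fin.sum_univ_three] at h2
  have a0 := h3 0
  have a1 := h3 1
  have a2 := h3 2
  linarith

/-! ### 2. The change of the number of letters -/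

lemma own_eq {n i : ℕ} (hn : 1 ≤ n) (hi : 1 ≤ i) (a : Fin 3) {t : List Bool} (ht : t.length = i) :
    own (cr a) n t = (size i / size n : ℝ) • curve (rt3 a (sw i t)) := by
  have h1 := curve_rt hi a t
  have p1 := (nr_pos hi).ne'
  have p2 := (size_pos hn).ne'
  unfold own
  rw [ht]
  have h2 : Tight.poly (cz (cr a) t) i = size i • curve (rt3 a (sw i t)) := by
    have h3 : (nr i : ℝ) • (sg i • curve (rt3 a (sw i t))) = (nr i : ℝ) • pn (cz (cr a) t) i := by rw [h1]
    unfold pn sg at h3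
    rw [smul_smul, smul_smul, mul_inv_cancel₀ p1, one_smul] at h3
    rw [← h3]
    congr 1
    field_simp
  rw [h2, smul_smul]
  congr 1
  field_simp

/-- the curves are bounded -/
lemma curve_bdd {ε : ℝ} (hε : 0 < ε) : ∃ K : ℝ, 0 < K ∧ ∀ n : ℕ, 1 ≤ n →
    mean n (fun s => if K < ‖curve s‖ then 1 else 0) ≤ ε := by
  obtain ⟨α, hα⟩ : ∃ α : NNReal, α = 1 / 2 := ⟨_, rfl⟩
  have hα2 : (α : ℝ) = 1 / 2 := by
    rw [hα]
    norm_num
  obtain ⟨M, hM⟩ := (NTSF.conclE_false NTSF.finE).2.2.1 α (by rw [hα]; norm_num) (by rw [hα2]; norm_num) ε hε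
  refine ⟨M + 1, by positivity, fun n hn => ?_⟩
  refine le_trans ?_ (mean_law {γ : C(unitInterval, ℂ) | ¬ HolderWith M α γ} hε.le (hM n hn))
  rw [Pool.Agent.TSW.mean_eq, Pool.Agent.TSW.mean_eq]
  refine div_le_div_of_nonneg_right (sum_le_sum fun s _ => ?_) (Nat.cast_nonneg _)
  by_cases h : HolderWith M α (curve s)
  · have h1 : ‖curve s‖ ≤ M := by
      refine (ContinuousMap.norm_le (curve s) M.2).2 fun u => ?_
      have h2 := h.dist_le u 0
      have h3 : curve s 0 = 0 := by
        rw [curve_eq, Tight.poly_zero, pos_zero, zero_div]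
      rw [h3, dist_zero_right] at h2
      refine h2.trans ?_
      have h4 : dist u 0 ^ (α : ℝ) ≤ 1 := by
        refine Real.rpow_le_one dist_nonneg ?_ α.2
        rw [Subtype.dist_eq, Real.dist_eq]
        show |(u : ℝ) - 0| ≤ 1
        rw [sub_zero, abs_of_nonneg u.2.1]
        exact u.2.2
      calc (M : ℝ) * dist u 0 ^ (α : ℝ) ≤ M * 1 := mul_le_mul_of_nonneg_left h4 M.2
        _ = M := mul_one _
    rw [if_neg (by linarith)]
    split_ifs
    · exact zero_le_one
    · exact le_rfl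
  · have h1 : curve s ∈ {γ : C(unitInterval, ℂ) | ¬ HolderWith M α γ} := h
    rw [if_pos h1]
    split_ifs
    · exact le_rfl
    · exact zero_le_one

/-- the sizes -/
lemma size_near {ε : ℝ} (hε : 0 < ε) (hε1 : ε ≤ 1) : ∃ d : ℝ, 0 < d ∧ ∃ n0 : ℕ, ∀ n i : ℕ, n0 ≤ n → (1 - d) * n ≤ i →
    (i : ℝ) ≤ (1 + 2 * d) * n → |size i / size n - 1| ≤ ε := by
  obtain ⟨δ, hδ, h1⟩ := slow_curves.1 (ε / 2) (by positivity)
  obtain ⟨n1, hn1⟩ := exists_nat_ge (2 / δ)
  refine ⟨min (δ / 4) (1 / 2), lt_min (by positivity) (by norm_num), max n1 1, fun n i hn h2 h3 => ?_⟩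
  have g1 : n1 ≤ n := (le_max_left _ _).trans hn
  have g2 : 1 ≤ n := (le_max_right _ _).trans hn
  have hn0 : (0 : ℝ) < n := by exact_mod_cast g2
  have hd1 := min_le_left (δ / 4) (1 / 2)
  have hd2 := min_le_right (δ / 4) (1 / 2 : ℝ)
  obtain ⟨d, hd⟩ : ∃ d, d = min (δ / 4) (1 / 2 : ℝ) := ⟨_, rfl⟩
  rw [← hd] at h2 h3 hd1 hd2
  have g3 : 2 / δ ≤ n := hn1.trans (by exact_mod_cast g1)
  rw [div_le_iff₀ hδ] at g3
  have k1 : d * n ≤ δ / 4 * n := mul_le_mul_of_nonneg_right hd1 hn0.le
  have k2 : d * n ≤ 1 / 2 * n := mul_le_mul_of_nonneg_right hd2 hn0.le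
  have s1 := size_pos g2
  rcases le_total n i with h | h
  · obtain ⟨m, rfl⟩ := Nat.exists_eq_add_of_le h
    have h4 := (h1 n m (by
      rw [div_le_iff₀ hδ]
      linarith) (by
      push_cast at h3
      linarith)).1
    exact h4.trans (by linarith)
  · obtain ⟨m, rfl⟩ := Nat.exists_eq_add_of_le h
    push_cast at h2 h3 k1 k2 g3
    have hi0 : (0 : ℝ) < i := by
      have : (0 : ℝ) ≤ m := Nat.cast_nonneg m
      nlinarith
    have hi1 : 1 ≤ i := by exact_mod_cast hi0
    have s2 := size_pos hi1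
    have h4 := (h1 i m (by
      rw [div_le_iff₀ hδ]
      nlinarith) (by nlinarith)).1
    -- invert
    have h5 : size i / size (i + m) - 1 = -(size (i + m) / size i - 1) * (size i / size (i + m)) := by
      field_simp
      ring
    have h6 : size i / size (i + m) ≤ 2 := by
      rw [div_le_iff₀ s1]
      have := (abs_le.1 h4).1
      have h7 : 1 / 2 ≤ size (i + m) / size i := by linarith
      rw [le_div_iff₀ s2] at h7
      linarith
    rw [h5, abs_mul, abs_neg, abs_of_pos (div_pos s2 s1)]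
    calc |size (i + m) / size i - 1| * (size i / size (i + m)) ≤ (ε / 2) * 2 :=
          mul_le_mul h4 h6 (div_pos s2 s1).le (by positivity)
      _ = ε := by ring

/-- **the mean over `i` letters and the law with `n` steps** -/
theorem Eu_own {ε : ℝ} (hε : 0 < ε) : ∃ d : ℝ, 0 < d ∧ ∃ n0 : ℕ, ∀ n i : ℕ, n0 ≤ n → (1 - d) * n ≤ i →
    (i : ℝ) ≤ (1 + 2 * d) * n → ∀ f : C(unitInterval, ℂ) → ℝ, (∀ γ, |f γ| ≤ 1) → LipschitzWith 1 f →
      |(∑ a : Fin 3, Eu i (fun t => f (own (cr a) n t))) / 3 - ∫ γ, f γ ∂(law n)| ≤ ε := by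
  obtain ⟨e, he⟩ : ∃ e, e = min (ε / 4) 1 := ⟨_, rfl⟩
  have he0 : 0 < e := by
    rw [he]
    exact lt_min (by positivity) zero_lt_one
  have he1 : e ≤ 1 := by
    rw [he]
    exact min_le_right _ _
  have heε : 4 * e ≤ ε := by
    have : e ≤ ε / 4 := by
      rw [he]
      exact min_le_left _ _
    linarith
  obtain ⟨K, hK, h1⟩ := curve_bdd (ε := e / 2) (by positivity)
  obtain ⟨e', he'⟩ : ∃ e', e' = min (e / (K + 1)) 1 := ⟨_, rfl⟩
  have he0' : 0 < e' := by
    rw [he']
    exact lt_min (by positivity) zero_lt_one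
  obtain ⟨d1, hd1, n1, h2⟩ := size_near he0' (by rw [he']; exact min_le_right _ _)
  obtain ⟨δ, hδ, n2, h3⟩ := Pool.Agent.TSW.bc1 e he0
  obtain ⟨d, hd⟩ : ∃ d, d = min (min d1 (δ / 4)) (1 / 2) := ⟨_, rfl⟩
  have hd0 : 0 < d := by
    rw [hd]
    exact lt_min (lt_min hd1 (by positivity)) (by norm_num)
  have hdd1 : d ≤ d1 := by
    rw [hd]
    exact (min_le_left _ _).trans (min_le_left _ _)
  have hdδ : d ≤ δ / 4 := by
    rw [hd]
    exact (min_le_left _ _).trans (min_le_right _ _)
  have hdh : d ≤ 1 / 2 := by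
    rw [hd]
    exact min_le_right _ _
  refine ⟨d, hd0, max (max n1 (2 * n2)) 2, fun n i hn g1 g2 f hf hL => ?_⟩
  have b1 : n1 ≤ n := (le_max_left _ _).trans ((le_max_left _ _).trans hn)
  have b2 : 2 * n2 ≤ n := (le_max_right _ _).trans ((le_max_left _ _).trans hn)
  have b3 : 2 ≤ n := (le_max_right _ _).trans hn
  have hn0 : (0 : ℝ) < n := by exact_mod_cast (by omega : 0 < n)
  have k1 : d * n ≤ d1 * n := mul_le_mul_of_nonneg_right hdd1 hn0.le
  have k2 : d * n ≤ δ / 4 * n := mul_le_mul_of_nonneg_right hdδ hn0.le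
  have k3 : d * n ≤ 1 / 2 * n := mul_le_mul_of_nonneg_right hdh hn0.le
  have c1 : (n : ℝ) / 2 ≤ i := by linarith
  have c2 : n2 ≤ i := by
    have : ((2 * n2 : ℕ) : ℝ) ≤ n := by exact_mod_cast b2
    have h5 : ((n2 : ℕ) : ℝ) ≤ i := by
      push_cast at this
      linarith
    exact_mod_cast h5
  have c3 : 1 ≤ i := by
    have : ((2 : ℕ) : ℝ) ≤ n := by exact_mod_cast b3
    have h5 : ((1 : ℕ) : ℝ) ≤ i := by
      push_cast at this ⊢
      linarith
    exact_mod_cast h5
  have hlam := h2 n i b1 (by linarith) (by linarith)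
  -- the mean over the words as a mean over the walks
  have e1 : (∑ a : Fin 3, Eu i (fun t => f (own (cr a) n t))) / 3 =
      mean i (fun s => f ((size i / size n : ℝ) • curve s)) := by
    rw [mean_rt (by omega)]
    congr 1
    refine sum_congr rfl fun a _ => Eu_congr fun t ht => ?_
    rw [own_eq (by omega) c3 a ht]
  -- the scaling
  have e2 : |mean i (fun s => f ((size i / size n : ℝ) • curve s)) - mean i (fun s => f (curve s))| ≤ 2 * e := by
    have h5 : ∀ s : Fin i → Fin 3, |f ((size i / size n : ℝ) • curve s) - f (curve s)| ≤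
        e + 2 * (if K < ‖curve s‖ then 1 else 0) := by
      intro s
      by_cases h6 : K < ‖curve s‖
      · rw [if_pos h6]
        have a1 := abs_le.1 (hf ((size i / size n : ℝ) • curve s))
        have a2 := abs_le.1 (hf (curve s))
        rw [abs_le]
        constructor <;> linarith [a1.1, a1.2, a2.1, a2.2]
      · rw [if_neg h6]
        have h7 := hL.dist_le_mul ((size i / size n : ℝ) • curve s) (curve s)
        rw [Real.dist_eq, NNReal.coe_one, one_mul, dist_eq_norm] at h7
        have h8 : (size i / size n : ℝ) • curve s - curve s = (size i / size n - 1 : ℝ) • curve s := by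
          ext u
          show (size i / size n : ℝ) • curve s u - curve s u = (size i / size n - 1 : ℝ) • curve s u
          rw [Complex.real_smul, Complex.real_smul]
          push_cast
          ring
        rw [h8, norm_smul, Real.norm_eq_abs] at h7
        have h9 : |size i / size n - 1| * ‖curve s‖ ≤ e := by
          have hlam' : |size i / size n - 1| ≤ e / (K + 1) := hlam.trans (by
            rw [he']
            exact min_le_left _ _)
          calc |size i / size n - 1| * ‖curve s‖ ≤ e / (K + 1) * K :=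
                mul_le_mul hlam' (not_lt.1 h6) (norm_nonneg _) (by positivity)
            _ = e * (K / (K + 1)) := by ring
            _ ≤ e * 1 := mul_le_mul_of_nonneg_left (by
                rw [div_le_one (by linarith)]
                linarith) he0.le
            _ = e := mul_one _
        linarith
    have h6 : |mean i (fun s => f ((size i / size n : ℝ) • curve s)) - mean i (fun s => f (curve s))| ≤
        mean i (fun s => e + 2 * (if K < ‖curve s‖ then 1 else 0)) := by
      rw [Pool.Agent.TSW.mean_eq, Pool.Agent.TSW.mean_eq, Pool.Agent.TSW.mean_eq, ← sub_div, ← sum_sub_distrib, abs_div,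
        abs_of_nonneg (Nat.cast_nonneg ((saw i).card) : (0 : ℝ) ≤ ((saw i).card : ℝ))]
      exact div_le_div_of_nonneg_right ((abs_sum_le_sum_abs _ _).trans (sum_le_sum fun s _ => h5 s)) (Nat.cast_nonneg _)
    refine h6.trans ?_
    have h7 : mean i (fun s => e + 2 * (if K < ‖curve s‖ then 1 else 0)) =
        e + 2 * mean i (fun s => if K < ‖curve s‖ then 1 else 0) := by
      have h0 : ((saw i).card : ℝ) ≠ 0 := by
        have := (saw_nonempty i).card_pos
        exact_mod_cast this.ne'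
      rw [Pool.Agent.TSW.mean_eq, Pool.Agent.TSW.mean_eq, sum_add_distrib, sum_const, nsmul_eq_mul, ← mul_sum]
      field_simp
    rw [h7]
    have := h1 i c3
    linarith
  -- the number of steps
  have e3 : |mean i (fun s => f (curve s)) - mean n (fun s => f (curve s))| ≤ e := by
    have key : ∀ a h : ℕ, n2 ≤ a → (h : ℝ) ≤ δ * a →
        |mean (a + h) (fun s => f (curve s)) - mean a (fun s => f (curve s))| ≤ e := by
      intro a h ha hh
      have h5 := h3 a h 0 ha hh (by
        rw [Nat.cast_zero]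
        exact mul_nonneg (by linarith) (Nat.cast_nonneg a)) (fun _ => 1) (fun _ => by rw [abs_one]) f hf hL
      simp only [one_mul] at h5
      exact h5
    rcases le_total n i with h | h
    · obtain ⟨m, rfl⟩ := Nat.exists_eq_add_of_le h
      refine key n m (by omega) ?_
      push_cast at g2
      have : 0 ≤ δ * n := by positivity
      linarith
    · obtain ⟨m, rfl⟩ := Nat.exists_eq_add_of_le h
      rw [abs_sub_comm]
      refine key i m c2 ?_
      push_cast at g1 k2 c1
      have hi0 : (0 : ℝ) ≤ i := Nat.cast_nonneg i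
      have h5 : (m : ℝ) ≤ δ / 4 * (i + m) := by nlinarith
      have h6 : δ / 4 * ((i : ℝ) + m) ≤ δ / 4 * (2 * i) := mul_le_mul_of_nonneg_left (by linarith) (by positivity)
      have h7 : δ / 4 * (2 * (i : ℝ)) ≤ δ * i := by nlinarith
      linarith
  rw [e1, show ∫ γ, f γ ∂(law n) = mean n (fun s => f (curve s)) from integral_law f]
  have x2 := abs_le.1 e2
  have x3 := abs_le.1 e3
  rw [abs_le]
  constructor <;> linarith [x2.1, x2.2, x3.1, x3.2]

end Pool.Agent.RMP
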