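import Pool.Agent.RMP.LimSubA
import Pool.Agent.RMP.PubO

/-!
# The renormalisation map in the scaling limit, row SUB (helper65)

**`sub`** : every sequence has a subsequence along which the laws of the walks with `⌊x φ k⌋` steps and the ratios of the sizes
converge for all `x ∈ (0, 1]`. No hypothesis.
-/

set_option autoImplicit false

open MeasureTheory Filter Topology
open scoped Classical

namespace Pool.Agent.RMP

open Pool.Agent.NTS.Res

open Pool.Agent.IW.Res (mean)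

namespace LimSub

lemma law_near (ε : ℝ) (hε : 0 < ε) : ∃ δ : ℝ, 0 < δ ∧ ∃ n0 : ℕ, ∀ n h : ℕ, n0 ≤ n → (h : ℝ) ≤ δ * n →
    ∀ G : C(unitInterval, ℂ) → ℝ, (∀ γ, |G γ| ≤ 1) → LipschitzWith 1 G →
      |∫ γ, G γ ∂(law (n + h)) - ∫ γ, G γ ∂(law n)| ≤ ε := by
  obtain ⟨δ, hδ, n0, h1⟩ := Pool.Agent.TSW.bc1 (min ε 1) (lt_min hε zero_lt_one)
  refine ⟨δ, hδ, n0, fun n h hn hh G hG1 hG2 => ?_⟩
  have h2 := h1 n h 0 hn hh (by
    rw [Nat.cast_zero]
    exact mul_nonneg (sub_nonneg.2 (min_le_right _ _)) (Nat.cast_nonneg _)) (fun _ => 1) (fun _ => by rw [abs_one]) G hG1 hG2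
  simp only [one_mul] at h2
  have e : ∀ m : ℕ, ∫ γ, G γ ∂(law m) = mean m (fun s => G (curve s)) := fun m => NTSF.integral_law G
  rw [e, e]
  exact h2.trans (min_le_left _ _)

lemma ratio {c C : ℝ} (hc : 0 < c) (h : ∀ n : ℕ, 1 ≤ n → c * (n : ℝ) ^ (3 / 4 : ℝ) ≤ size n ∧
    size n ≤ C * (n : ℝ) ^ (3 / 4 : ℝ)) {i n : ℕ} (hi : 1 ≤ i) (hn : i ≤ n) :
    0 ≤ size i / size n ∧ size i / size n ≤ C / c := by
  have hi' : (1 : ℝ) ≤ i := by exact_mod_cast hi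
  have hn' : (i : ℝ) ≤ n := by exact_mod_cast hn
  have h1 := (h i hi).2
  have h2 := (h n (hi.trans hn)).1
  have h3 : (0 : ℝ) < (n : ℝ) ^ (3 / 4 : ℝ) := Real.rpow_pos_of_pos (by linarith) _
  have h4 : (i : ℝ) ^ (3 / 4 : ℝ) ≤ (n : ℝ) ^ (3 / 4 : ℝ) := Real.rpow_le_rpow (by linarith) hn' (by norm_num)
  have h5 : 0 < size n := lt_of_lt_of_le (by positivity) h2
  have h6 : 0 < size i := lt_of_lt_of_le (mul_pos hc (Real.rpow_pos_of_pos (by linarith) _)) (h i hi).1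
  have h7 : 0 ≤ C := by
    by_contra hcon
    have : C * (i : ℝ) ^ (3 / 4 : ℝ) ≤ 0 := mul_nonpos_of_nonpos_of_nonneg (by linarith) (Real.rpow_nonneg (by linarith) _)
    linarith
  refine ⟨(div_pos h6 h5).le, ?_⟩
  rw [div_le_div_iff₀ h5 hc]
  calc size i * c ≤ (C * (n : ℝ) ^ (3 / 4 : ℝ)) * c :=
        mul_le_mul_of_nonneg_right (h1.trans (mul_le_mul_of_nonneg_left h4 h7)) hc.le
    _ = C * (c * (n : ℝ) ^ (3 / 4 : ℝ)) := by ring
    _ ≤ C * size n := mul_le_mul_of_nonneg_left h2 h7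

lemma size_small (ε : ℝ) (hε : 0 < ε) : ∃ δ : ℝ, 0 < δ ∧ ∃ n0 : ℕ, ∀ n h : ℕ, n0 ≤ n → (h : ℝ) ≤ δ * n →
    |size (n + h) / size n - 1| ≤ ε := by
  obtain ⟨d, hd, n0, h1⟩ := size_near (lt_min hε zero_lt_one) (min_le_right ε 1)
  refine ⟨d, hd, n0, fun n h hn hh => ?_⟩
  have hn0 : (0 : ℝ) ≤ n := Nat.cast_nonneg n
  have hh0 : (0 : ℝ) ≤ h := Nat.cast_nonneg h
  have hdn : 0 ≤ d * n := by positivity
  refine (h1 n (n + h) hn ?_ ?_).trans (min_le_left _ _)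
  · push_cast
    linarith
  · push_cast
    linarith

end LimSub

/-- **row SUB** -/
theorem sub : SUB := by
  obtain ⟨⟨c, C, hc, h1⟩, h2, -, h4, -⟩ := NTSF.conclE_false NTSF.finE
  exact LimSub.sub_of h2 h4 (fun i n hi hn => LimSub.ratio hc h1 hi hn) LimSub.law_near LimSub.size_small

end Pool.Agent.RMP
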