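import Pool.Agent.NTS.ResDefs

/-!
# The renormalisation map: the definitions of the public statement (helper83)

Hexagonal lattice with unit edges, one vertex at `0`. `saw`, `pos`, `size`, `law` are those of `NTS.Res`.
-/

set_option autoImplicit false

open MeasureTheory Filter Topology
open scoped Classical

namespace Pool.Agent.RMP

open Pool.Agent.NTS.Res

/-- The point `x + y ω`, `ω = exp (2 π i / 3)`. -/
noncomputable def zv (p : ℤ × ℤ) : ℂ :=
  ((p.1 : ℤ) : ℂ) + ((p.2 : ℤ) : ℂ) * Complex.exp (2 * (Real.pi : ℂ) * Complex.I / 3)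

/-- The vertices of the hexagonal lattice. -/
def IsV (p : ℤ × ℤ) : Prop := (p.1 + p.2) % 3 = 0 ∨ (p.1 + p.2) % 3 = 1

/-- The sign of the sublattice of a vertex: the steps from `p` are `sgv p` times the first steps of the walks of `saw`. -/
def sgv (p : ℤ × ℤ) : ℂ := if (p.1 + p.2) % 3 = 0 then 1 else -1

/-- The positions of the walk with the steps `b` which starts at the vertex `p`. -/
noncomputable def bpos (p : ℤ × ℤ) {l : ℕ} (b : Fin l → Fin 3) (j : ℕ) : ℂ := zv p + sgv p * pos b j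

/-- The walk `a` from `0` and the walk `b` from the vertex `p` have no vertex in common, and the distance of their last vertices
is at most `R`. -/
def Nears {m l : ℕ} (a : Fin m → Fin 3) (b : Fin l → Fin 3) (p : ℤ × ℤ) (R : ℝ) : Prop :=
  IsV p ∧ ‖pos a m - bpos p b l‖ ≤ R ∧ ∀ i j : ℕ, i ≤ m → j ≤ l → pos a i ≠ bpos p b j

/-- The points of the walk `a` followed by those of the walk `b` from its last vertex backwards. -/
noncomputable def glue {m l : ℕ} (a : Fin m → Fin 3) (b : Fin l → Fin 3) (p : ℤ × ℤ) (k : ℕ) : ℂ :=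
  if k ≤ m then pos a k else bpos p b (m + l + 1 - k)

/-- The curve with these points at the times `k / (m + l + 1)`, divided by `size n`, and linear in between. -/
noncomputable def gcurve (n : ℕ) {m l : ℕ} (a : Fin m → Fin 3) (b : Fin l → Fin 3) (p : ℤ × ℤ) : C(unitInterval, ℂ) where
  toFun u := ∑ k ∈ Finset.range (m + l + 1),
    ((max 0 (min 1 ((u : ℝ) * ((m + l + 1 : ℕ) : ℝ) - k)) : ℝ) : ℂ) * ((glue a b p (k + 1) - glue a b p k) / size n)
  continuous_toFun := by fun_prop

/-- The natural numbers `m` with `k ≤ m ≤ (1 + d) k`. -/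
noncomputable def win (d : ℝ) (k : ℕ) : Finset ℕ := (Finset.range (⌊(1 + d) * k⌋₊ + 1)).filter fun m => k ≤ m

/-- The sum over the pairs of walks with `m ∈ [k, (1 + d) k]` and `l ∈ [n - k, (1 + d) (n - k)]` steps, without common vertex
and with last vertices at distance at most `R`, of the function `f` of the curve. The walks with `m` steps have the total
weight `1`, and so have the walks with `l` steps. -/
noncomputable def psum (n k : ℕ) (d R : ℝ) (f : C(unitInterval, ℂ) → ℝ) : ℝ :=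
  ∑ m ∈ win d k, ∑ l ∈ win d (n - k), (∑ a ∈ saw m, ∑ b ∈ saw l, ∑' p : ℤ × ℤ,
    if Nears a b p R then f (gcurve n a b p) else 0) / (((saw m).card : ℝ) * (saw l).card)

/-- **The public statement**: a long walk looks like two independent walks near each other, conditioned to be disjoint. -/
def RMPub : Prop := ∀ ε : ℝ, 0 < ε → ∃ d0 : ℝ, 0 < d0 ∧ ∀ d : ℝ, 0 < d → d ≤ d0 → ∃ r0 : ℝ, 0 < r0 ∧ ∀ r : ℝ, 0 < r →
  r ≤ r0 → ∃ n0 : ℕ, ∀ n k : ℕ, n0 ≤ n → ε * n ≤ k → (k : ℝ) ≤ (1 - ε) * n →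
    0 < psum n k d (r * (n : ℝ) ^ (3 / 4 : ℝ)) (fun _ => 1) ∧
    ∀ f : C(unitInterval, ℂ) → ℝ, (∀ γ, 0 ≤ f γ ∧ f γ ≤ 1) → LipschitzWith 1 f →
      |psum n k d (r * (n : ℝ) ^ (3 / 4 : ℝ)) f / psum n k d (r * (n : ℝ) ^ (3 / 4 : ℝ)) (fun _ => 1) -
        ∫ γ, f γ ∂(law n)| ≤ ε

end Pool.Agent.RMP
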