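import Pool.Agent.RMP.Defs
import Pool.Agent.RMP.PubDefs
import Pool.Agent.NTS.MergeC

/-!
# RMP, the dictionary of the sums (helper47), part 1: frames and vertices, words and walks

* `sum_frames` : the sum over the starts `p` and the rotations `om ^ s` of the second walk = the sum over the frames `Fr`;
* `sum_rotF` : rotation of the frames;
* `sum_words` : every walk is twice a rotated word;
* `sum_pairs` : the sum over two walks and a start as a sum over two words, a frame and three rotations.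
-/

set_option autoImplicit false

open Finset
open scoped Classical ENNReal

namespace Pool.Agent.RMP

namespace W

open HexObs hiding pos

open HexObs.SDN HexObs.RMP

open HexObs.TOG (wdN mem_wdN)

open Pool.Agent.NTS.Res

open NTF (sw JJ)

open NTSF (om om_cube om_ne om_norm rot pos_rot pos_sw)

/-! ### the plane -/

lemma om_re : om.re = -(1 / 2) := by
  unfold om
  rw [show 2 * (Real.pi : ℂ) * Complex.I / 3 = ((2 * Real.pi / 3 : ℝ) : ℂ) * Complex.I by
    push_cast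
    ring, Complex.exp_ofReal_mul_I_re, show 2 * Real.pi / 3 = Real.pi - Real.pi / 3 by ring, Real.cos_pi_sub,
    Real.cos_pi_div_three]

lemma om_im : om.im = Real.sqrt 3 / 2 := by
  unfold om
  rw [show 2 * (Real.pi : ℂ) * Complex.I / 3 = ((2 * Real.pi / 3 : ℝ) : ℂ) * Complex.I by
    push_cast
    ring, Complex.exp_ofReal_mul_I_im, show 2 * Real.pi / 3 = Real.pi - Real.pi / 3 by ring, Real.sin_pi_sub,
    Real.sin_pi_div_three]

lemma om_sq : om * om = -1 - om := by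
  have h : Real.sqrt 3 * Real.sqrt 3 = 3 := Real.mul_self_sqrt (by norm_num)
  apply Complex.ext
  · rw [Complex.mul_re, Complex.sub_re, Complex.neg_re, Complex.one_re, om_re, om_im]
    linear_combination (-1 / 4 : ℝ) * h
  · rw [Complex.mul_im, Complex.sub_im, Complex.neg_im, Complex.one_im, om_re, om_im]
    ring

lemma zv_om (p : ℤ × ℤ) : zv p = ((p.1 : ℤ) : ℂ) + ((p.2 : ℤ) : ℂ) * om := rfl

lemma JJ_om (v : Pt) : JJ v = ((v.2 : ℤ) : ℂ) - ((v.1 : ℤ) : ℂ) * om := by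
  apply Complex.ext
  · rw [NTF.JJ_re, Complex.sub_re, Complex.mul_re, om_re, om_im]
    simp
    ring
  · rw [NTF.JJ_im, Complex.sub_im, Complex.mul_im, om_re, om_im]
    simp
    ring

/-- the complex number of a rotation -/
noncomputable def UU (c : Pt) : ℂ := ((c.1 : ℤ) : ℂ) + ((c.2 : ℤ) : ℂ) + ((c.2 : ℤ) : ℂ) * om

lemma JJ_mulE (c w : Pt) : JJ (mulE c w) = UU c * JJ w := by
  rw [JJ_om, JJ_om]
  unfold UU mulE
  push_cast
  linear_combination (((c.2 : ℤ) : ℂ) * ((w.1 : ℤ) : ℂ)) * om_sq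

lemma UU_mulE (c d : Pt) : UU (mulE c d) = UU c * UU d := by
  unfold UU mulE
  push_cast
  linear_combination (-(((c.2 : ℤ) : ℂ) * ((d.2 : ℤ) : ℂ))) * om_sq

/-- the rotation by a third turn -/
def e3 : Pt := (-1, 1)

lemma UU_e3 : UU e3 = om := by
  unfold UU e3
  push_cast
  ring

/-- the rotation by `s` third turns -/
def eR (s : Fin 3) : Pt := if s = 0 then (1, 0) else if s = 1 then (-1, 1) else (0, -1)

lemma UU_eR (s : Fin 3) : UU (eR s) = om ^ (s : ℕ) := by
  fin_cases s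
  · show UU (1, 0) = om ^ 0
    unfold UU
    push_cast
    ring
  · show UU (-1, 1) = om ^ 1
    unfold UU
    push_cast
    ring
  · show UU (0, -1) = om ^ 2
    unfold UU
    rw [pow_two, om_sq]
    push_cast
    ring

lemma UU_neg (c : Pt) : UU (-c) = -UU c := by
  unfold UU
  rw [Prod.fst_neg, Prod.snd_neg]
  push_cast
  ring

lemma nrm_eR (s : Fin 3) : nrm (eR s) = 1 := by
  revert s
  decide

lemma cl_eR (s : Fin 3) : cl (eR s) = 1 := by
  revert s
  decide

lemma dirs_one : dirs.filter (fun c => cl c = 1) = univ.image eR := by decide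

lemma dirs_neg : dirs.filter (fun c => cl c = -1) = univ.image fun s => -eR s := by decide

lemma eR_inj : Function.Injective eR := by decide

lemma cl_up1 : cl up = -1 := by decide

/-! ### vertices and frames -/

/-- the vertex `v` of the words as a point of the public lattice -/
def pp (v : Pt) : ℤ × ℤ := (v.2, -v.1)

lemma zv_pp (v : Pt) : zv (pp v) = JJ v := by
  rw [zv_om, JJ_om]
  unfold pp
  push_cast
  ring

lemma cl_zero (v : Pt) : cl v = 0 ↔ ((pp v).1 + (pp v).2) % 3 = 0 := by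
  unfold cl pp
  rw [ZMod.intCast_zmod_eq_zero_iff_dvd]
  push_cast
  show (3 : ℤ) ∣ v.1 - v.2 ↔ (v.2 + -v.1) % 3 = 0
  omega

lemma cl_neg_one (v : Pt) : cl v = -1 ↔ ((pp v).1 + (pp v).2) % 3 = 1 := by
  have h : cl v = -1 ↔ ((v.1 - v.2 + 1 : ℤ) : ZMod 3) = 0 := by
    unfold cl
    push_cast
    constructor
    · intro h
      rw [h]
      ring
    · intro h
      linear_combination h
  rw [h, ZMod.intCast_zmod_eq_zero_iff_dvd]
  unfold pp
  push_cast
  show (3 : ℤ) ∣ v.1 - v.2 + 1 ↔ (v.2 + -v.1) % 3 = 1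
  omega

/-- the frames at a vertex -/
lemma tsum_fr (v : Pt) (H : ℂ → ℝ≥0∞) : ∑' c : Pt, (if Fr (v, c) then H (UU c) else 0) =
    ∑ s : Fin 3, if IsV (pp v) then H (sgv (pp v) * om ^ (s : ℕ)) else 0 := by
  have h1 : ∑' c : Pt, (if Fr (v, c) then H (UU c) else 0) = ∑ c ∈ dirs, if Fr (v, c) then H (UU c) else 0 := by
    refine tsum_eq_sum fun c hc => ?_
    rw [if_neg fun h => hc h.1]
  rw [h1]
  by_cases h0 : cl v = 0
  · have e1 : ∀ c ∈ dirs, (if Fr (v, c) then H (UU c) else 0) = if cl c = 1 then H (UU c) else 0 := by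
      intro c hc
      congr 1
      apply propext
      constructor
      · rintro ⟨-, h | h⟩
        · exact h.2
        · rw [h0, cl_up1] at h
          exact absurd h.1 (by decide)
      · intro h
        exact ⟨hc, Or.inl ⟨h0, h⟩⟩
    have hV := (cl_zero v).1 h0
    rw [sum_congr rfl e1, ← sum_filter, dirs_one, sum_image fun a _ b _ h => eR_inj h]
    refine sum_congr rfl fun s _ => ?_
    rw [if_pos (show IsV (pp v) from Or.inl hV), UU_eR]
    unfold sgv
    rw [if_pos hV, one_mul]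
  by_cases h1 : cl v = -1
  · have e1 : ∀ c ∈ dirs, (if Fr (v, c) then H (UU c) else 0) = if cl c = -1 then H (UU c) else 0 := by
      intro c hc
      congr 1
      apply propext
      constructor
      · rintro ⟨-, h | h⟩
        · exact absurd h.1 h0
        · exact h.2
      · intro h
        exact ⟨hc, Or.inr ⟨by rw [cl_up1]; exact h1, h⟩⟩
    have hV := (cl_neg_one v).1 h1
    have hV' : ¬ ((pp v).1 + (pp v).2) % 3 = 0 := by omega
    rw [sum_congr rfl e1, ← sum_filter, dirs_neg, sum_image fun a _ b _ h => eR_inj (neg_injective h)]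
    refine sum_congr rfl fun s _ => ?_
    rw [if_pos (show IsV (pp v) from Or.inr hV), UU_neg, UU_eR]
    unfold sgv
    rw [if_neg hV', neg_one_mul]
  · have e1 : ∀ c ∈ dirs, (if Fr (v, c) then H (UU c) else 0) = 0 := by
      intro c _
      rw [if_neg]
      rintro ⟨-, h | h⟩
      · exact h0 h.1
      · rw [cl_up1] at h
        exact h1 h.1
    have hV : ¬ IsV (pp v) := by
      rintro (h | h)
      · exact h0 ((cl_zero v).2 h)
      · exact h1 ((cl_neg_one v).2 h)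
    rw [sum_congr rfl e1]
    simp only [if_neg hV, sum_const_zero]

/-- vertices of the words and points of the public lattice -/
def ppE : Pt ≃ ℤ × ℤ where
  toFun := pp
  invFun p := (-p.2, p.1)
  left_inv v := by
    show ((-(-v.1), v.2) : Pt) = v
    rw [neg_neg]
  right_inv p := by
    show ((p.1, - -p.2) : ℤ × ℤ) = p
    rw [neg_neg]

/-- **starts and rotations of the second walk = frames** -/
theorem sum_frames (H : ℂ → ℂ → ℝ≥0∞) :
    ∑ s : Fin 3, ∑' p : ℤ × ℤ, (if IsV p then H (zv p) (sgv p * om ^ (s : ℕ)) else 0) =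
      ∑' g : Pt × Pt, if Fr g then H (JJ g.1) (UU g.2) else 0 := by
  rw [ENNReal.tsum_prod']
  have h1 : ∀ v : Pt, ∑' c : Pt, (if Fr (v, c) then H (JJ v) (UU c) else 0) =
      ∑ s : Fin 3, if IsV (ppE v) then H (zv (ppE v)) (sgv (ppE v) * om ^ (s : ℕ)) else 0 := by
    intro v
    rw [tsum_fr v (H (JJ v)), ← zv_pp]
    rfl
  calc ∑ s : Fin 3, ∑' p : ℤ × ℤ, (if IsV p then H (zv p) (sgv p * om ^ (s : ℕ)) else 0)
      = ∑' p : ℤ × ℤ, ∑ s : Fin 3, (if IsV p then H (zv p) (sgv p * om ^ (s : ℕ)) else 0) :=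
        (Summable.tsum_finsetSum fun s _ => ENNReal.summable).symm
    _ = ∑' v : Pt, ∑ s : Fin 3, (if IsV (ppE v) then H (zv (ppE v)) (sgv (ppE v) * om ^ (s : ℕ)) else 0) :=
        (ppE.tsum_eq fun p : ℤ × ℤ => ∑ s : Fin 3, (if IsV p then H (zv p) (sgv p * om ^ (s : ℕ)) else 0)).symm
    _ = _ := tsum_congr fun v => (h1 v).symm

/-- the rotation of the frames -/
def rF (ρ : Pt) (hρ : nrm ρ = 1) : Pt × Pt ≃ Pt × Pt where
  toFun g := (mulE ρ g.1, mulE ρ g.2)
  invFun g := (mulE (conjE ρ) g.1, mulE (conjE ρ) g.2)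
  left_inv g := by
    show (mulE (conjE ρ) (mulE ρ g.1), mulE (conjE ρ) (mulE ρ g.2)) = g
    rw [mulE_assoc, mulE_assoc, mulE_comm (conjE ρ) ρ, mulE_conjE, hρ, mulE_one, mulE_one]
  right_inv g := by
    show (mulE ρ (mulE (conjE ρ) g.1), mulE ρ (mulE (conjE ρ) g.2)) = g
    rw [mulE_assoc, mulE_assoc, mulE_conjE, hρ, mulE_one, mulE_one]

lemma Fr_rF {ρ : Pt} (hρ : nrm ρ = 1) (hc : cl ρ = 1) (g : Pt × Pt) : Fr (rF ρ hρ g) ↔ Fr g := by
  show (mulE ρ g.2 ∈ dirs ∧ ((cl (mulE ρ g.1) = 0 ∧ cl (mulE ρ g.2) = 1) ∨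
    (cl (mulE ρ g.1) = cl up ∧ cl (mulE ρ g.2) = -1))) ↔ _
  rw [mem_dirs, nrm_mulE, hρ, one_mul, cl_mulE, cl_mulE, hc, one_mul, one_mul, ← mem_dirs]
  exact Iff.rfl

lemma pv_rF {ρ : Pt} (hρ : nrm ρ = 1) (g : Pt × Pt) (B : List Bool) (j : ℕ) :
    JJ (pv (rF ρ hρ g) B j) = UU ρ * JJ (pv g B j) := by
  rw [← JJ_mulE]
  congr 1
  show mulE ρ g.1 + mulE (mulE ρ g.2) (vx oo up B j) = mulE ρ (g.1 + mulE g.2 (vx oo up B j))
  rw [mulE_add, mulE_assoc]

/-- **rotation of the frames** -/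
theorem sum_rotF {ρ : Pt} (hρ : nrm ρ = 1) (hc : cl ρ = 1) (B : List Bool) (F : (ℕ → ℂ) → ℝ≥0∞) :
    ∑' g : Pt × Pt, (if Fr g then F (fun j => UU ρ * JJ (pv g B j)) else 0) =
      ∑' g : Pt × Pt, if Fr g then F (fun j => JJ (pv g B j)) else 0 := by
  rw [← (rF ρ hρ).tsum_eq fun g : Pt × Pt => if Fr g then F (fun j => JJ (pv g B j)) else 0]
  refine tsum_congr fun g => ?_
  by_cases h : Fr g
  · rw [if_pos h, if_pos ((Fr_rF hρ hc g).2 h)]
    congr 1
    funext j
    exact (pv_rF hρ g B j).symm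
  · rw [if_neg h, if_neg fun h' => h ((Fr_rF hρ hc g).1 h')]

/-! ### words and walks -/

/-- the rotation by `r` third turns -/
def rr (r : Fin 3) {n : ℕ} (s : Fin n → Fin 3) : Fin n → Fin 3 := fun i => s i + r

lemma rr_zero {n : ℕ} (s : Fin n → Fin 3) : rr 0 s = s := by
  funext i
  show s i + 0 = s i
  rw [add_zero]

lemma rr_two {n : ℕ} (s : Fin n → Fin 3) : rr 2 s = rot (rot s) := by
  funext i
  show s i + 2 = s i + 1 + 1
  rw [add_assoc]
  rfl

lemma pos_rr (r : Fin 3) {n : ℕ} (s : Fin n → Fin 3) (k : ℕ) : pos (rr r s) k = om ^ (r : ℕ) * pos s k := by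
  fin_cases r
  · show pos (rr 0 s) k = om ^ 0 * pos s k
    rw [rr_zero, pow_zero, one_mul]
  · show pos (rot s) k = om ^ 1 * pos s k
    rw [pos_rot, pow_one]
  · show pos (rr 2 s) k = om ^ 2 * pos s k
    rw [rr_two, pos_rot, pos_rot, pow_two, mul_assoc]

lemma rr_mem (r : Fin 3) {n : ℕ} {s : Fin n → Fin 3} (h : s ∈ saw n) : rr r s ∈ saw n := by
  fin_cases r
  · show rr 0 s ∈ saw n
    rwa [rr_zero]
  · exact NTSF.rot_mem.2 h
  · show rr 2 s ∈ saw n
    rw [rr_two]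
    exact NTSF.rot_mem.2 (NTSF.rot_mem.2 h)

/-- every walk is twice a rotated word: real functions -/
lemma sum_words_real {n : ℕ} (hn : 0 < n) (g : (Fin n → Fin 3) → ℝ) :
    ∑ r : Fin 3, ∑ t ∈ wdN n, g (rr r (sw n t)) = 2 * ∑ s ∈ saw n, g s := by
  have h2 := NTSF.Mg.sum_first hn fun s => g s + g (rot s) + g (rot (rot s))
  rw [NTSF.Mg.sum_rot hn g, ← h2, Fin.sum_univ_three, ← sum_add_distrib, ← sum_add_distrib]
  refine sum_congr rfl fun t _ => ?_
  rw [rr_zero, rr_two]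
  rfl

lemma card_words2 {n : ℕ} (hn : 0 < n) {a : Fin n → Fin 3} (ha : a ∈ saw n) :
    ∑ r : Fin 3, ∑ t ∈ wdN n, (if rr r (sw n t) = a then (1 : ℝ≥0∞) else 0) = 2 := by
  have h := sum_words_real hn fun s => if s = a then (1 : ℝ) else 0
  rw [sum_ite_eq' (saw n) a, if_pos ha, mul_one] at h
  have h2 : ∑ r : Fin 3, ∑ t ∈ wdN n, (if rr r (sw n t) = a then 1 else 0 : ℕ) = 2 := by
    have h3 : ((∑ r : Fin 3, ∑ t ∈ wdN n, (if rr r (sw n t) = a then 1 else 0 : ℕ) : ℕ) : ℝ) = ((2 : ℕ) : ℝ) := by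
      push_cast
      exact h
    exact_mod_cast h3
  have h4 : ((∑ r : Fin 3, ∑ t ∈ wdN n, (if rr r (sw n t) = a then 1 else 0 : ℕ) : ℕ) : ℝ≥0∞) = ((2 : ℕ) : ℝ≥0∞) := by
    rw [h2]
  push_cast at h4
  exact h4

/-- **every walk is twice a rotated word** -/
theorem sum_words {n : ℕ} (hn : 0 < n) (F : (Fin n → Fin 3) → ℝ≥0∞) :
    ∑ r : Fin 3, ∑ t ∈ wdN n, F (rr r (sw n t)) = 2 * ∑ a ∈ saw n, F a := by
  have h1 : ∀ (r : Fin 3), ∀ t ∈ wdN n, F (rr r (sw n t)) = ∑ a ∈ saw n, (if rr r (sw n t) = a then (1 : ℝ≥0∞) else 0) * F a := by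
    intro r t ht
    have hm := rr_mem r (NTSF.sw_mem (mem_wdN.1 ht))
    have h2 : ∀ a ∈ saw n, (if rr r (sw n t) = a then (1 : ℝ≥0∞) else 0) * F a = if a = rr r (sw n t) then F a else 0 := by
      intro a _
      by_cases h : a = rr r (sw n t)
      · rw [if_pos h, if_pos h.symm, one_mul]
      · rw [if_neg h, if_neg fun h' => h h'.symm, zero_mul]
    rw [sum_congr rfl h2, sum_ite_eq' (saw n), if_pos hm]
  calc ∑ r : Fin 3, ∑ t ∈ wdN n, F (rr r (sw n t))
      = ∑ r : Fin 3, ∑ t ∈ wdN n, ∑ a ∈ saw n, (if rr r (sw n t) = a then (1 : ℝ≥0∞) else 0) * F a :=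
        sum_congr rfl fun r _ => sum_congr rfl fun t ht => h1 r t ht
    _ = ∑ r : Fin 3, ∑ a ∈ saw n, ∑ t ∈ wdN n, (if rr r (sw n t) = a then (1 : ℝ≥0∞) else 0) * F a :=
        sum_congr rfl fun r _ => sum_comm
    _ = ∑ a ∈ saw n, ∑ r : Fin 3, ∑ t ∈ wdN n, (if rr r (sw n t) = a then (1 : ℝ≥0∞) else 0) * F a := sum_comm
    _ = ∑ a ∈ saw n, 2 * F a := by
        refine sum_congr rfl fun a ha => ?_
        rw [← card_words2 hn ha, sum_mul]
        refine sum_congr rfl fun r _ => ?_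
        rw [sum_mul]
    _ = 2 * ∑ a ∈ saw n, F a := (mul_sum _ _ _).symm

/-! ### pairs -/

/-- **two walks and a start = two words, a frame and three rotations** -/
theorem sum_pairs {m l : ℕ} (hm : 0 < m) (hl : 0 < l) (K : (ℕ → ℂ) → (ℕ → ℂ) → ℝ≥0∞)
    (hK : ∀ x x' y y', (∀ i, i ≤ m → x i = x' i) → (∀ j, j ≤ l → y j = y' j) → K x y = K x' y') :
    4 * ∑ a ∈ saw m, ∑ b ∈ saw l, ∑' p : ℤ × ℤ, (if IsV p then K (pos a) (bpos p b) else 0) =
      ∑ r : Fin 3, ∑ A ∈ wdN m, ∑ B ∈ wdN l, ∑' g : Pt × Pt,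
        if Fr g then K (fun i => om ^ (r : ℕ) * JJ (vx oo up A i)) (fun j => om ^ (r : ℕ) * JJ (pv g B j)) else 0 := by
  -- the second walk
  have h2 : ∀ x : ℕ → ℂ, 2 * ∑ b ∈ saw l, ∑' p : ℤ × ℤ, (if IsV p then K x (bpos p b) else 0) =
      ∑ B ∈ wdN l, ∑' g : Pt × Pt, if Fr g then K x (fun j => JJ (pv g B j)) else 0 := by
    intro x
    rw [← sum_words hl, sum_comm]
    refine sum_congr rfl fun B _ => ?_
    have e1 : ∀ (s : Fin 3) (p : ℤ × ℤ), (if IsV p then K x (bpos p (rr s (sw l B))) else 0) =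
        if IsV p then (fun z u => K x (fun j => z + u * JJ (vx oo up B j))) (zv p) (sgv p * om ^ (s : ℕ)) else 0 := by
      intro s p
      congr 1
      refine hK _ _ _ _ (fun _ _ => rfl) fun j hj => ?_
      show zv p + sgv p * pos (rr s (sw l B)) j = zv p + sgv p * om ^ (s : ℕ) * JJ (vx oo up B j)
      rw [pos_rr, pos_sw l B j hj, mul_assoc]
    simp only [e1]
    rw [sum_frames fun z u => K x (fun j => z + u * JJ (vx oo up B j))]
    refine tsum_congr fun g => ?_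
    congr 1
    congr 1
    funext j
    show JJ g.1 + UU g.2 * JJ (vx oo up B j) = JJ (g.1 + mulE g.2 (vx oo up B j))
    rw [NTF.JJ_add, JJ_mulE]
  calc 4 * ∑ a ∈ saw m, ∑ b ∈ saw l, ∑' p : ℤ × ℤ, (if IsV p then K (pos a) (bpos p b) else 0)
      = 2 * ∑ a ∈ saw m, 2 * ∑ b ∈ saw l, ∑' p : ℤ × ℤ, (if IsV p then K (pos a) (bpos p b) else 0) := by
        rw [← mul_sum, ← mul_assoc]
        norm_num
    _ = 2 * ∑ a ∈ saw m, ∑ B ∈ wdN l, ∑' g : Pt × Pt, (if Fr g then K (pos a) (fun j => JJ (pv g B j)) else 0) := by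
        congr 1
        exact sum_congr rfl fun a _ => h2 (pos a)
    _ = ∑ r : Fin 3, ∑ A ∈ wdN m, ∑ B ∈ wdN l, ∑' g : Pt × Pt,
        (if Fr g then K (pos (rr r (sw m A))) (fun j => JJ (pv g B j)) else 0) := (sum_words hm _).symm
    _ = _ := by
        refine sum_congr rfl fun r _ => sum_congr rfl fun A _ => sum_congr rfl fun B _ => ?_
        rw [← sum_rotF (nrm_eR r) (cl_eR r) B fun y => K (pos (rr r (sw m A))) y]
        refine tsum_congr fun g => ?_
        congr 1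
        refine hK _ _ _ _ (fun i hi => ?_) fun j _ => ?_
        · rw [pos_rr, pos_sw m A i hi]
        · rw [UU_eR]

end W

end Pool.Agent.RMP
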