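import Pool.Agent.RMP.LimRows
import Pool.Agent.NTS.Law

/-!
# The renormalisation map in the scaling limit, assembly 1 (helper83): the curves

* `Pl s x` = the walk at the real time `x` (linear in between), 1-Lipschitz;
* **`gcurve_conc`**: the joined curve and `conc` of the two curves;
* **`mind_low`**: vertices at distance more than `q`, so `mind` is large.
-/

set_option autoImplicit false

open MeasureTheory Filter Topology Finset
open scoped Classical

namespace Pool.Agent.RMP

open Pool.Agent.NTS.Res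

open NTSF (size_pos integral_law)

/-! ### 1. The walk at real times -/

/-- the clamp -/
noncomputable def cl01 (x : ℝ) : ℝ := max 0 (min 1 x)

lemma cl01_nonneg (x : ℝ) : 0 ≤ cl01 x := le_max_left _ _

lemma cl01_le (x : ℝ) : cl01 x ≤ 1 := max_le zero_le_one (min_le_left _ _)

lemma cl01_mono {x y : ℝ} (h : x ≤ y) : cl01 x ≤ cl01 y := max_le_max le_rfl (min_le_min le_rfl h)

lemma cl01_zero {x : ℝ} (h : x ≤ 0) : cl01 x = 0 := by
  unfold cl01
  rw [min_eq_right (by linarith), max_eq_left h]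

lemma cl01_one {x : ℝ} (h : 1 ≤ x) : cl01 x = 1 := by
  unfold cl01
  rw [min_eq_left h, max_eq_right zero_le_one]

lemma cl01_id {x : ℝ} (h0 : 0 ≤ x) (h1 : x ≤ 1) : cl01 x = x := by
  unfold cl01
  rw [min_eq_right h1, max_eq_right h0]

/-- `1 - clamp` -/
lemma cl01_symm (x : ℝ) : cl01 (1 - x) = 1 - cl01 x := by
  rcases le_total x 0 with h | h
  · rw [cl01_zero h, cl01_one (by linarith), sub_zero]
  · rcases le_total x 1 with h1 | h1
    · rw [cl01_id h h1, cl01_id (by linarith) (by linarith)]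
    · rw [cl01_one h1, cl01_zero (by linarith), sub_self]

/-- the sum of the clamps -/
lemma sum_cl01 {x : ℝ} (hx : 0 ≤ x) (n : ℕ) : ∑ k ∈ range n, cl01 (x - k) = min x n := by
  induction n with
  | zero => rw [sum_range_zero, Nat.cast_zero, min_eq_right hx]
  | succ n ih =>
    rw [sum_range_succ, ih]
    push_cast
    rcases le_total x n with h | h
    · rw [min_eq_left h, cl01_zero (by linarith), add_zero, min_eq_left (by linarith)]
    · rw [min_eq_right h]
      rcases le_total x (n + 1) with h1 | h1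
      · rw [cl01_id (by linarith) (by linarith), min_eq_left h1]
        ring
      · rw [cl01_one (by linarith), min_eq_right h1]

/-- the walk at the real time `x` -/
noncomputable def Pl {n : ℕ} (s : Fin n → Fin 3) (x : ℝ) : ℂ :=
  ∑ k ∈ range n, ((cl01 (x - k) : ℝ) : ℂ) * (pos s (k + 1) - pos s k)

lemma step_norm (i : ℕ) (a : Fin 3) : ‖step i a‖ = 1 := by
  unfold step
  rw [norm_mul, norm_pow, norm_neg, norm_one, one_pow, one_mul, Complex.norm_exp]
  have : (2 * (Real.pi : ℂ) * Complex.I * ((a : ℕ) : ℂ) / 3).re = 0 := by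
    have e : (2 * (Real.pi : ℂ) * Complex.I * ((a : ℕ) : ℂ) / 3) = ((2 * Real.pi * (a : ℕ) / 3 : ℝ) : ℂ) * Complex.I := by
      push_cast
      ring
    rw [e]
    simp
  rw [this, Real.exp_zero]

lemma pos_succ_sub {n : ℕ} (s : Fin n → Fin 3) {k : ℕ} (hk : k < n) : pos s (k + 1) - pos s k = step k (s ⟨k, hk⟩) := by
  unfold pos
  have h : univ.filter (fun i : Fin n => (i : ℕ) < k + 1) = insert ⟨k, hk⟩ (univ.filter (fun i : Fin n => (i : ℕ) < k)) := by
    ext i
    simp only [mem_filter, mem_univ, true_and, mem_insert]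
    constructor
    · intro h
      rcases Nat.lt_succ_iff_lt_or_eq.1 h with h1 | h1
      · exact Or.inr h1
      · exact Or.inl (Fin.ext h1)
    · rintro (h | h)
      · rw [h]
        exact Nat.lt_succ_self k
      · exact Nat.lt_succ_of_lt h
  rw [h, sum_insert (by simp)]
  ring

lemma step_le_one {n : ℕ} (s : Fin n → Fin 3) {k : ℕ} (hk : k < n) : ‖pos s (k + 1) - pos s k‖ ≤ 1 := by
  rw [pos_succ_sub s hk, step_norm]

lemma pos0 {n : ℕ} (s : Fin n → Fin 3) : pos s 0 = 0 := by
  unfold pos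
  rw [filter_false_of_mem (fun i _ => Nat.not_lt_zero _), sum_empty]

lemma pos_eq_sum {n : ℕ} (s : Fin n → Fin 3) (k : ℕ) : ∑ i ∈ range k, (pos s (i + 1) - pos s i) = pos s k := by
  rw [sum_range_sub, pos0, sub_zero]

/-- at the integer times -/
lemma Pl_nat {n : ℕ} (s : Fin n → Fin 3) {k : ℕ} (hk : k ≤ n) : Pl s k = pos s k := by
  unfold Pl
  rw [← pos_eq_sum s k, ← sum_subset (range_subset_range.2 hk) (f := fun i : ℕ => ((cl01 ((k : ℝ) - i) : ℝ) : ℂ) * (pos s (i + 1) - pos s i))]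
  · refine sum_congr rfl fun i hi => ?_
    have : i + 1 ≤ k := mem_range.1 hi
    have h1 : ((i : ℝ) + 1) ≤ k := by exact_mod_cast this
    rw [cl01_one (by linarith), Complex.ofReal_one, one_mul]
  · intro i _ hi
    have : k ≤ i := not_lt.1 fun h => hi (mem_range.2 h)
    have h1 : (k : ℝ) ≤ i := by exact_mod_cast this
    rw [cl01_zero (by linarith), Complex.ofReal_zero, zero_mul]

/-- the walk at real times is 1-Lipschitz -/
lemma Pl_lip {n : ℕ} (s : Fin n → Fin 3) {x y : ℝ} (hx : 0 ≤ x) (hxy : x ≤ y) : ‖Pl s y - Pl s x‖ ≤ min y n - min x n := by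
  unfold Pl
  rw [← sum_sub_distrib, ← sum_cl01 (hx.trans hxy), ← sum_cl01 hx, ← sum_sub_distrib]
  refine (norm_sum_le _ _).trans (sum_le_sum fun k hk => ?_)
  rw [← sub_mul, norm_mul, ← Complex.ofReal_sub, Complex.norm_of_nonneg (sub_nonneg.2 (cl01_mono (by linarith)))]
  exact mul_le_of_le_one_right (sub_nonneg.2 (cl01_mono (by linarith))) (step_le_one s (mem_range.1 hk))

/-- two times -/
lemma Pl_close {n : ℕ} (s : Fin n → Fin 3) {x y W : ℝ} (hx : 0 ≤ x) (hy : 0 ≤ y) (h : |min x n - min y n| ≤ W) :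
    ‖Pl s x - Pl s y‖ ≤ W := by
  have h1 := abs_le.1 h
  rcases le_total x y with hxy | hxy
  · rw [norm_sub_rev]
    exact (Pl_lip s hx hxy).trans (by linarith)
  · exact (Pl_lip s hy hxy).trans (by linarith)

/-- the curve -/
lemma curve_Pl {n : ℕ} (s : Fin n → Fin 3) (u : unitInterval) : curve s u = Pl s (u * n) / size n := by
  show ∑ k ∈ range n, ((max 0 (min 1 ((u : ℝ) * n - k)) : ℝ) : ℂ) * ((pos s (k + 1) - pos s k) / size n) = _
  unfold Pl
  rw [sum_div]
  refine sum_congr rfl fun k _ => ?_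
  unfold cl01
  ring

lemma curve_one {n : ℕ} (s : Fin n → Fin 3) : curve s 1 = pos s n / size n := by
  rw [curve_Pl, show ((1 : unitInterval) : ℝ) * n = ((n : ℕ) : ℝ) by simp, Pl_nat s le_rfl]

/-! ### 2. The joined curve -/

/-- the joined curve, exactly -/
lemma gcurve_eq (n : ℕ) {m l : ℕ} (a : Fin m → Fin 3) (b : Fin l → Fin 3) (p : ℤ × ℤ) (u : unitInterval) :
    gcurve n a b p u = (Pl a (u * ((m + l + 1 : ℕ) : ℝ)) + ((cl01 (u * ((m + l + 1 : ℕ) : ℝ) - m) : ℝ) : ℂ) * (bpos p b l - pos a m) +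
      sgv p * (Pl b ((1 - u) * ((m + l + 1 : ℕ) : ℝ)) - pos b l)) / size n := by
  obtain ⟨N, hN⟩ : ∃ N, N = m + l + 1 := ⟨_, rfl⟩
  obtain ⟨x, hx⟩ : ∃ x : ℝ, x = (u : ℝ) * (N : ℝ) := ⟨_, rfl⟩
  have e0 : gcurve n a b p u = (∑ k ∈ range N, ((cl01 (x - k) : ℝ) : ℂ) * (glue a b p (k + 1) - glue a b p k)) / size n := by
    show ∑ k ∈ range (m + l + 1), ((max 0 (min 1 ((u : ℝ) * ((m + l + 1 : ℕ) : ℝ) - k)) : ℝ) : ℂ) *
      ((glue a b p (k + 1) - glue a b p k) / size n) = _
    rw [← hN, ← hx, sum_div]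
    refine sum_congr rfl fun k _ => ?_
    unfold cl01
    ring
  rw [e0, ← hN, ← hx]
  congr 1
  have e1 : ∑ k ∈ range N, ((cl01 (x - k) : ℝ) : ℂ) * (glue a b p (k + 1) - glue a b p k) =
      ∑ k ∈ range m, ((cl01 (x - k) : ℝ) : ℂ) * (glue a b p (k + 1) - glue a b p k) +
      ((cl01 (x - m) : ℝ) : ℂ) * (glue a b p (m + 1) - glue a b p m) +
      ∑ j ∈ range l, ((cl01 (x - ((m + 1 + j : ℕ) : ℝ)) : ℝ) : ℂ) * (glue a b p (m + 1 + j + 1) - glue a b p (m + 1 + j)) := by
    rw [hN, show m + l + 1 = (m + 1) + l by ring, sum_range_add, sum_range_succ]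
  rw [e1]
  congr 1
  · congr 1
    · unfold Pl
      refine sum_congr rfl fun k hk => ?_
      have hk' := mem_range.1 hk
      unfold glue
      rw [if_pos (by omega), if_pos (by omega)]
    · unfold glue
      rw [if_neg (by omega), if_pos le_rfl, show m + l + 1 - (m + 1) = l by omega]
  · rw [← sum_range_reflect]
    have e2 : (1 - (u : ℝ)) * (N : ℝ) = N - x := by
      rw [hx]
      ring
    rw [e2, ← pos_eq_sum b l]
    unfold Pl
    rw [← sum_sub_distrib, mul_sum]
    refine sum_congr rfl fun j hj => ?_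
    have hj' := mem_range.1 hj
    have g1 : glue a b p (m + 1 + (l - 1 - j) + 1) = bpos p b j := by
      unfold glue
      rw [if_neg (by omega), show m + l + 1 - (m + 1 + (l - 1 - j) + 1) = j by omega]
    have g2 : glue a b p (m + 1 + (l - 1 - j)) = bpos p b (j + 1) := by
      unfold glue
      rw [if_neg (by omega), show m + l + 1 - (m + 1 + (l - 1 - j)) = j + 1 by omega]
    rw [g1, g2]
    have h3 : ((m + 1 + (l - 1 - j) : ℕ) : ℝ) = N - 1 - j := by
      have : m + 1 + (l - 1 - j) + 1 + j = N := by omega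
      have h4 : ((m + 1 + (l - 1 - j) : ℕ) : ℝ) + 1 + j = N := by exact_mod_cast this
      linarith
    rw [h3, show x - ((N : ℝ) - 1 - j) = 1 - ((N : ℝ) - x - j) by ring, cl01_symm]
    unfold bpos
    push_cast
    ring

/-- the walk at real times depends on `min x n` only -/
lemma Pl_congr {n : ℕ} (s : Fin n → Fin 3) {x y : ℝ} (hx : 0 ≤ x) (hy : 0 ≤ y) (h : min x n = min y n) : Pl s x = Pl s y := by
  have := Pl_close s hx hy (W := 0) (by rw [h, sub_self, abs_zero])
  exact sub_eq_zero.1 (norm_le_zero_iff.1 this)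

/-- the scaled curve at a clipped time -/
lemma curve_clip {n m : ℕ} (hm : 1 ≤ m) (a : Fin m → Fin 3) {x y : ℝ} (hx : 0 ≤ x) (hy : y = x * m) :
    ((size m / size n : ℝ) : ℂ) * curve a (Set.projIcc 0 1 zero_le_one x) = Pl a y / size n := by
  have sm := size_pos hm
  rw [curve_Pl, Set.coe_projIcc]
  have e : Pl a (max 0 (min 1 x) * m) = Pl a y := by
    have h0 : (0 : ℝ) ≤ m := Nat.cast_nonneg _
    refine Pl_congr a (mul_nonneg (le_max_left _ _) h0) (hy ▸ mul_nonneg hx h0) ?_
    rw [max_eq_right (le_min zero_le_one hx), hy]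
    rcases le_total x 1 with h | h
    · rw [min_eq_right h]
    · rw [min_eq_left h, one_mul, min_self, min_eq_right (le_mul_of_one_le_left h0 h)]
  rw [e]
  push_cast
  have : ((size m : ℝ) : ℂ) ≠ 0 := by exact_mod_cast sm.ne'
  field_simp

/-- **the joined curve and `conc`** -/
theorem gcurve_conc {n m l : ℕ} (hn : 1 ≤ n) (hm : 1 ≤ m) (hl : 1 ≤ l) (a : Fin m → Fin 3) (b : Fin l → Fin 3) {p : ℤ × ℤ}
    {R σ : ℝ} (hR : ‖bpos p b l - pos a m‖ ≤ R) (hσ : sgv p = (σ : ℂ)) (hσ1 : |σ| = 1) :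
    ‖gcurve n a b p - conc ((m : ℝ) / ((m + l + 1 : ℕ) : ℝ)) (size m / size n) (size l / size n) (curve a) (σ • curve b)‖ ≤
      (R + 1) / size n := by
  have sn := size_pos hn
  have hR0 : 0 ≤ R := (norm_nonneg _).trans hR
  rw [ContinuousMap.norm_le _ (by positivity)]
  intro u
  obtain ⟨N, hN⟩ : ∃ N : ℝ, N = ((m + l + 1 : ℕ) : ℝ) := ⟨_, rfl⟩
  have hN' : N = m + l + 1 := by
    rw [hN]
    push_cast
    ring
  have m1 : (1 : ℝ) ≤ m := by exact_mod_cast hm
  have l1 : (1 : ℝ) ≤ l := by exact_mod_cast hl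
  have u0 := u.2.1
  have u1 := u.2.2
  have hNp : 0 < N := by linarith
  have c1 : ((size m / size n : ℝ) : ℂ) * curve a (Set.projIcc 0 1 zero_le_one ((u : ℝ) / (m / N))) =
      Pl a (u * N) / size n := by
    refine curve_clip hm a (by positivity) ?_
    field_simp
  have t1 : 1 - (m : ℝ) / N = (l + 1) / N := by
    rw [hN']
    field_simp
    ring
  obtain ⟨x, hx⟩ : ∃ x : ℝ, x = (1 - (u : ℝ)) * N := ⟨_, rfl⟩
  have hx0 : 0 ≤ x := by
    rw [hx]
    exact mul_nonneg (by linarith) hNp.le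
  have c2 : ((size l / size n : ℝ) : ℂ) * curve b (Set.projIcc 0 1 zero_le_one ((1 - (u : ℝ)) / (1 - m / N))) =
      Pl b (x / (l + 1) * l) / size n := by
    refine curve_clip hl b (div_nonneg (by linarith) (by rw [t1]; positivity)) ?_
    rw [t1, hx]
    field_simp
  have c3 : ((size l / size n : ℝ) : ℂ) * curve b 1 = pos b l / size n := by
    rw [curve_one]
    have sl := size_pos hl
    push_cast
    have : ((size l : ℝ) : ℂ) ≠ 0 := by exact_mod_cast sl.ne'
    field_simp
  have e1 : conc ((m : ℝ) / N) (size m / size n) (size l / size n) (curve a) (σ • curve b) u =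
      (Pl a (u * N) + σ * (Pl b (x / (l + 1) * l) - pos b l)) / size n := by
    show ((size m / size n : ℝ) : ℂ) * curve a (Set.projIcc 0 1 zero_le_one ((u : ℝ) / (m / N))) +
      ((size l / size n : ℝ) : ℂ) * ((σ : ℂ) * curve b (Set.projIcc 0 1 zero_le_one ((1 - (u : ℝ)) / (1 - m / N))) -
        (σ : ℂ) * curve b 1) = _
    rw [c1, show ((size l / size n : ℝ) : ℂ) * ((σ : ℂ) * curve b (Set.projIcc 0 1 zero_le_one ((1 - (u : ℝ)) / (1 - m / N))) -
        (σ : ℂ) * curve b 1) = (σ : ℂ) * (((size l / size n : ℝ) : ℂ) *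
          curve b (Set.projIcc 0 1 zero_le_one ((1 - (u : ℝ)) / (1 - m / N))) - ((size l / size n : ℝ) : ℂ) * curve b 1) by ring,
      c2, c3]
    ring
  rw [← hN, ContinuousMap.sub_apply, e1, gcurve_eq, ← hN, ← hx, hσ]
  have e2 : (Pl a (u * N) + ((cl01 (u * N - m) : ℝ) : ℂ) * (bpos p b l - pos a m) + σ * (Pl b x - pos b l)) / (size n : ℂ) -
      (Pl a (u * N) + σ * (Pl b (x / (l + 1) * l) - pos b l)) / size n =
      (((cl01 (u * N - m) : ℝ) : ℂ) * (bpos p b l - pos a m) + σ * (Pl b x - Pl b (x / (l + 1) * l))) / size n := by ring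
  rw [e2, norm_div, Complex.norm_of_nonneg sn.le]
  refine div_le_div_of_nonneg_right ((norm_add_le _ _).trans (add_le_add ?_ ?_)) sn.le
  · rw [norm_mul, Complex.norm_of_nonneg (cl01_nonneg _)]
    exact (mul_le_of_le_one_left (norm_nonneg _) (cl01_le _)).trans hR
  · rw [norm_mul, Complex.norm_real, Real.norm_eq_abs, hσ1, one_mul]
    have hl0 : (0 : ℝ) < l + 1 := by linarith
    have h1 : x / (l + 1) * l ≤ x := by
      rw [div_mul_eq_mul_div, div_le_iff₀ hl0]
      nlinarith
    have h2 : 0 ≤ x / (l + 1) * l := by positivity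
    refine Pl_close b hx0 h2 ?_
    rw [abs_le]
    rcases le_total x (l + 1) with h | h
    · have h3 : x - x / (l + 1) * l ≤ 1 := by
        rw [div_mul_eq_mul_div, sub_le_iff_le_add, ← sub_le_iff_le_add', le_div_iff₀ hl0]
        nlinarith
      have h4 : min (x / (l + 1) * l) (l : ℝ) ≤ min x l := min_le_min h1 le_rfl
      have h5 : min x (l : ℝ) ≤ min (x / (l + 1) * l) l + 1 := by
        rw [← min_add_add_right]
        exact min_le_min (by linarith) (by linarith)
      constructor <;> linarith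
    · have h3 : (l : ℝ) ≤ x / (l + 1) * l := by
        rw [div_mul_eq_mul_div, le_div_iff₀ hl0]
        nlinarith
      rw [min_eq_right (by linarith : (l : ℝ) ≤ x), min_eq_right h3, sub_self]
      constructor <;> norm_num

end Pool.Agent.RMP
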