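import Pool.Agent.RMP.LimGi
import Pool.Agent.RMP.LimA

/-!
# The renormalisation map in the scaling limit, row CNT (helper47): the lattice sum and the area integral

* `cell_vol` : the area of a cell of the lattice of one class;
* **`lat`** : sum over the vertices of one class against the integral, for a general function;
* **`cntR : CNT`**.
-/

set_option autoImplicit false

open MeasureTheory Filter Topology
open scoped Classical Pointwise

namespace Pool.Agent.RMP

open Pool.Agent.NTS.Res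

namespace Cn

/-! ### 1. Coordinates and cells -/

/-- first coordinate -/
noncomputable def X (z : ℂ) : ℝ := 2 / 3 * z.re

/-- second coordinate -/
noncomputable def Y (z : ℂ) : ℝ := 1 / 3 * z.re + 1 / Real.sqrt 3 * z.im

lemma s3_pos : 0 < Real.sqrt 3 := Real.sqrt_pos.2 (by norm_num)

lemma s3_sq : Real.sqrt 3 * Real.sqrt 3 = 3 := Real.mul_self_sqrt (by norm_num)

lemma X_cont : Continuous X := by
  unfold X
  fun_prop

lemma Y_cont : Continuous Y := by
  unfold Y
  fun_prop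

lemma X_add (z w : ℂ) : X (z + w) = X z + X w := by
  unfold X
  rw [Complex.add_re]
  ring

lemma Y_add (z w : ℂ) : Y (z + w) = Y z + Y w := by
  unfold Y
  rw [Complex.add_re, Complex.add_im]
  ring

lemma X_sub (z w : ℂ) : X (z - w) = X z - X w := by
  unfold X
  rw [Complex.sub_re]
  ring

lemma Y_sub (z w : ℂ) : Y (z - w) = Y z - Y w := by
  unfold Y
  rw [Complex.sub_re, Complex.sub_im]
  ring

/-- the norm from the coordinates -/
lemma norm_le_XY {z : ℂ} (hx0 : 0 ≤ X z) (hx1 : X z ≤ 1) (hy0 : 0 ≤ Y z) (hy1 : Y z ≤ 1) : ‖z‖ ≤ 4 := by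
  have h3 := s3_pos
  have h4 : Real.sqrt 3 ≤ 2 := by
    rw [Real.sqrt_le_left (by norm_num)]
    norm_num
  have e1 : z.re = 3 / 2 * X z := by
    unfold X
    ring
  have e2 : z.im = Real.sqrt 3 * (Y z - 1 / 2 * X z) := by
    unfold X Y
    field_simp
    ring
  have h5 : |z.re| ≤ 3 / 2 := by
    rw [e1, abs_le]
    constructor <;> linarith
  have h6 : |z.im| ≤ 2 := by
    rw [e2, abs_mul, abs_of_pos h3]
    have h7 : |Y z - 1 / 2 * X z| ≤ 1 := by
      rw [abs_le]
      constructor <;> linarith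
    calc Real.sqrt 3 * |Y z - 1 / 2 * X z| ≤ 2 * 1 := mul_le_mul h4 h7 (abs_nonneg _) zero_le_two
      _ = 2 := by norm_num
  exact (Complex.norm_le_abs_re_add_abs_im z).trans (by linarith)

lemma abs_X_le (z : ℂ) : |X z| ≤ ‖z‖ := by
  unfold X
  rw [abs_mul, abs_of_pos (by norm_num : (0 : ℝ) < 2 / 3)]
  have h1 := Complex.abs_re_le_norm z
  have h2 := norm_nonneg z
  linarith

lemma abs_Y_le (z : ℂ) : |Y z| ≤ ‖z‖ := by
  unfold Y
  have h3 := s3_pos
  have h1 := Complex.abs_re_le_norm z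
  have h2 := Complex.abs_im_le_norm z
  have h4 : (3 / 2 : ℝ) ≤ Real.sqrt 3 := by
    rw [Real.le_sqrt' (by norm_num)]
    norm_num
  have h5 : 1 / Real.sqrt 3 ≤ 2 / 3 := by
    rw [div_le_div_iff₀ h3 (by norm_num)]
    linarith
  refine (abs_add_le _ _).trans ?_
  rw [abs_mul, abs_mul, abs_of_pos (by norm_num : (0 : ℝ) < 1 / 3), abs_of_pos (by positivity : (0 : ℝ) < 1 / Real.sqrt 3)]
  have h6 : 1 / Real.sqrt 3 * |z.im| ≤ 2 / 3 * ‖z‖ := mul_le_mul h5 h2 (abs_nonneg _) (by norm_num)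
  linarith

/-- the cell of the coordinates `[x, x + 1) × [y, y + 1)` -/
def cell (x y : ℝ) : Set ℂ := {z | (x ≤ X z ∧ X z < x + 1) ∧ y ≤ Y z ∧ Y z < y + 1}

lemma cell_meas (x y : ℝ) : MeasurableSet (cell x y) := by
  have h1 : Measurable X := X_cont.measurable
  have h2 : Measurable Y := Y_cont.measurable
  have e : cell x y = X ⁻¹' (Set.Ico x (x + 1)) ∩ Y ⁻¹' (Set.Ico y (y + 1)) := by
    ext z
    rfl
  rw [e]
  exact (h1 measurableSet_Ico).inter (h2 measurableSet_Ico)

/-- the coordinates as a linear map -/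
noncomputable def LL : ℂ →ₗ[ℝ] ℂ where
  toFun z := ⟨X z, Y z⟩
  map_add' z w := by
    apply Complex.ext
    · exact X_add z w
    · exact Y_add z w
  map_smul' c z := by
    apply Complex.ext
    · show X (c • z) = (c • (⟨X z, Y z⟩ : ℂ)).re
      rw [Complex.smul_re]
      unfold X
      rw [Complex.smul_re]
      simp only [smul_eq_mul]
      ring
    · show Y (c • z) = (c • (⟨X z, Y z⟩ : ℂ)).im
      rw [Complex.smul_im]
      unfold Y
      rw [Complex.smul_re, Complex.smul_im]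
      simp only [smul_eq_mul]
      ring

lemma LL_det : LinearMap.det LL = dens := by
  rw [← LinearMap.det_toMatrix Complex.basisOneI, Matrix.det_fin_two]
  rw [LinearMap.toMatrix_apply, LinearMap.toMatrix_apply, LinearMap.toMatrix_apply, LinearMap.toMatrix_apply]
  have e1 : LL (Complex.basisOneI 0) = ⟨2 / 3, 1 / 3⟩ := by
    rw [show Complex.basisOneI 0 = 1 by simp [Complex.coe_basisOneI]]
    apply Complex.ext
    · show X 1 = 2 / 3
      unfold X
      rw [Complex.one_re]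
      ring
    · show Y 1 = 1 / 3
      unfold Y
      rw [Complex.one_re, Complex.one_im]
      ring
  have e2 : LL (Complex.basisOneI 1) = ⟨0, 1 / Real.sqrt 3⟩ := by
    rw [show Complex.basisOneI 1 = Complex.I by simp [Complex.coe_basisOneI]]
    apply Complex.ext
    · show X Complex.I = 0
      unfold X
      rw [Complex.I_re]
      ring
    · show Y Complex.I = 1 / Real.sqrt 3
      unfold Y
      rw [Complex.I_re, Complex.I_im]
      ring
  rw [e1, e2]
  simp only [Complex.coe_basisOneI_repr, Matrix.cons_val_zero, Matrix.cons_val_one]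
  unfold dens
  have h3 := s3_pos
  field_simp
  norm_num

lemma dens_pos : 0 < dens := by
  unfold dens
  have h3 := s3_pos
  positivity

lemma sq_vol (x y : ℝ) : volume ({z : ℂ | (x ≤ z.re ∧ z.re < x + 1) ∧ y ≤ z.im ∧ z.im < y + 1}) = 1 := by
  have e : {z : ℂ | (x ≤ z.re ∧ z.re < x + 1) ∧ y ≤ z.im ∧ z.im < y + 1} =
      Complex.measurableEquivRealProd ⁻¹' (Set.Ico x (x + 1) ×ˢ Set.Ico y (y + 1)) := by
    ext z
    rfl
  rw [e, Complex.volume_preserving_equiv_real_prod.measure_preimage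
    (measurableSet_Ico.prod measurableSet_Ico).nullMeasurableSet]
  rw [Measure.volume_eq_prod, Measure.prod_prod, Real.volume_Ico, Real.volume_Ico]
  simp

/-- **the area of a cell** -/
lemma cell_vol (x y : ℝ) : volume (cell x y) = ENNReal.ofReal (1 / dens) := by
  have e : cell x y = LL ⁻¹' {z : ℂ | (x ≤ z.re ∧ z.re < x + 1) ∧ y ≤ z.im ∧ z.im < y + 1} := by
    ext z
    rfl
  have hd : LinearMap.det LL ≠ 0 := by
    rw [LL_det]
    exact dens_pos.ne'
  rw [e, Measure.addHaar_preimage_linearMap volume hd, sq_vol, mul_one, LL_det, abs_of_pos (inv_pos.2 dens_pos), one_div]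

/-! ### 2. The lattice -/

/-- the vertices of the class `c` -/
def Pij (c : ℤ) (q : ℤ × ℤ) : ℤ × ℤ := (q.1 + q.2, 2 * q.2 - q.1 + c)

lemma Pij_inj (c : ℤ) : Function.Injective (Pij c) := by
  rintro ⟨i, j⟩ ⟨i', j'⟩ h
  unfold Pij at h
  have h1 := congrArg Prod.fst h
  have h2 := congrArg Prod.snd h
  simp only at h1 h2
  ext <;> simp only <;> omega

lemma Pij_mod {c : ℤ} (hc : c = 0 ∨ c = 1) (q : ℤ × ℤ) : ((Pij c q).1 + (Pij c q).2) % 3 = c := by
  unfold Pij
  simp only
  rcases hc with rfl | rfl <;> omega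

lemma Pij_sur {c : ℤ} {p : ℤ × ℤ} (h : (p.1 + p.2) % 3 = c) : p ∈ Set.range (Pij c) := by
  obtain ⟨p1, p2⟩ := p
  simp only at h
  refine ⟨(p1 - (p1 + p2 - c) / 3, (p1 + p2 - c) / 3), ?_⟩
  unfold Pij
  simp only
  ext <;> simp only <;> omega

lemma exp_re : (Complex.exp (2 * (Real.pi : ℂ) * Complex.I / 3)).re = -(1 / 2) ∧
    (Complex.exp (2 * (Real.pi : ℂ) * Complex.I / 3)).im = Real.sqrt 3 / 2 := by
  have e : 2 * (Real.pi : ℂ) * Complex.I / 3 = ((2 * Real.pi / 3 : ℝ) : ℂ) * Complex.I := by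
    push_cast
    ring
  have e2 : (2 * Real.pi / 3 : ℝ) = Real.pi - Real.pi / 3 := by ring
  rw [e, Complex.exp_ofReal_mul_I_re, Complex.exp_ofReal_mul_I_im, e2, Real.cos_pi_sub, Real.sin_pi_sub,
    Real.cos_pi_div_three, Real.sin_pi_div_three]
  exact ⟨rfl, rfl⟩

lemma X_zv (c : ℤ) (q : ℤ × ℤ) : X (zv (Pij c q)) = q.1 - (c : ℝ) / 3 := by
  obtain ⟨h1, h2⟩ := exp_re
  unfold X zv Pij
  simp only [Complex.add_re, Complex.mul_re, Complex.intCast_re, Complex.intCast_im, h1, h2]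
  push_cast
  ring

lemma Y_zv (c : ℤ) (q : ℤ × ℤ) : Y (zv (Pij c q)) = q.2 + (c : ℝ) / 3 := by
  obtain ⟨h1, h2⟩ := exp_re
  have h3 := s3_pos
  unfold Y zv Pij
  simp only [Complex.add_re, Complex.add_im, Complex.mul_re, Complex.mul_im, Complex.intCast_re, Complex.intCast_im, h1, h2]
  push_cast
  field_simp
  ring

/-- **the sum over the vertices of one class and the integral** -/
theorem lat {c : ℤ} (hc : c = 0 ∨ c = 1) (w : ℂ) {ψ Θ : ℂ → ℝ} {R : ℝ} (hψ0 : ∀ z, R < ‖z‖ → ψ z = 0)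
    (hψ : Integrable ψ) (hΘ : Integrable Θ) (h : ∀ z q : ℂ, ‖z - q‖ ≤ 4 → |ψ q - ψ z| ≤ Θ z) :
    |(∑' p : ℤ × ℤ, if (p.1 + p.2) % 3 = c then ψ (zv p + w) else 0) - dens * ∫ z, ψ z| ≤ dens * ∫ z, Θ z := by
  obtain ⟨x0, hx0⟩ : ∃ x0 : ℝ, x0 = X w - (c : ℝ) / 3 := ⟨_, rfl⟩
  obtain ⟨y0, hy0⟩ : ∃ y0 : ℝ, y0 = Y w + (c : ℝ) / 3 := ⟨_, rfl⟩
  obtain ⟨Q, hQ⟩ : ∃ Q : ℤ × ℤ → ℂ, Q = fun q => zv (Pij c q) + w := ⟨_, rfl⟩
  have hX : ∀ q, X (Q q) = q.1 + x0 := fun q => by
    rw [hQ]
    simp only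
    rw [X_add, X_zv, hx0]
    ring
  have hY : ∀ q, Y (Q q) = q.2 + y0 := fun q => by
    rw [hQ]
    simp only
    rw [Y_add, Y_zv, hy0]
    ring
  -- the sum
  have e1 : (∑' p : ℤ × ℤ, if (p.1 + p.2) % 3 = c then ψ (zv p + w) else 0) = ∑' q : ℤ × ℤ, ψ (Q q) := by
    rw [← (Pij_inj c).tsum_eq (f := fun p : ℤ × ℤ => if (p.1 + p.2) % 3 = c then ψ (zv p + w) else 0)]
    · refine tsum_congr fun q => ?_
      rw [if_pos (Pij_mod hc q), hQ]
    · intro p hp
      rw [Function.mem_support] at hp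
      refine Pij_sur ?_
      by_contra h1
      exact hp (if_neg h1)
  obtain ⟨N, hN⟩ := exists_nat_ge (R + |x0| + |y0|)
  obtain ⟨S, hS⟩ : ∃ S : Finset (ℤ × ℤ), S = Finset.Icc (-(N : ℤ)) N ×ˢ Finset.Icc (-(N : ℤ)) N := ⟨_, rfl⟩
  have hout : ∀ q, q ∉ S → ψ (Q q) = 0 := by
    intro q hq
    by_contra h1
    have h2 : ‖Q q‖ ≤ R := by
      by_contra h3
      exact h1 (hψ0 _ (not_le.1 h3))
    refine hq ?_
    have k1 := (abs_X_le (Q q)).trans h2
    have k2 := (abs_Y_le (Q q)).trans h2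
    rw [hX] at k1
    rw [hY] at k2
    have m1 := abs_le.1 k1
    have m2 := abs_le.1 k2
    have n1 := neg_abs_le x0
    have n2 := le_abs_self x0
    have n3 := neg_abs_le y0
    have n4 := le_abs_self y0
    have n5 := abs_nonneg x0
    have n6 := abs_nonneg y0
    rw [hS, Finset.mem_product, Finset.mem_Icc, Finset.mem_Icc]
    have r1 : -(N : ℝ) ≤ q.1 := by linarith [m1.1]
    have r2 : (q.1 : ℝ) ≤ N := by linarith [m1.2]
    have r3 : -(N : ℝ) ≤ q.2 := by linarith [m2.1]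
    have r4 : (q.2 : ℝ) ≤ N := by linarith [m2.2]
    exact ⟨⟨by exact_mod_cast r1, by exact_mod_cast r2⟩, by exact_mod_cast r3, by exact_mod_cast r4⟩
  rw [e1, tsum_eq_sum (s := S) hout]
  -- the step function
  obtain ⟨G, hG⟩ : ∃ G : ℂ → ℝ, G = fun z => ∑ q ∈ S, (cell (q.1 + x0) (q.2 + y0)).indicator (fun _ => ψ (Q q)) z := ⟨_, rfl⟩
  have hGi : ∀ q ∈ S, Integrable ((cell (q.1 + x0) (q.2 + y0)).indicator (fun _ => ψ (Q q))) := by
    intro q _
    refine (integrableOn_const ?_).integrable_indicator (cell_meas _ _)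
    rw [cell_vol]
    exact ENNReal.ofReal_ne_top
  have hGint : Integrable G := by
    rw [hG]
    exact integrable_finsetSum _ hGi
  have e2 : dens * ∫ z, G z = ∑ q ∈ S, ψ (Q q) := by
    rw [hG, integral_finsetSum _ hGi, Finset.mul_sum]
    refine Finset.sum_congr rfl fun q _ => ?_
    rw [integral_indicator (cell_meas _ _), setIntegral_const, Measure.real, cell_vol, ENNReal.toReal_ofReal
      (by have := dens_pos; positivity), smul_eq_mul]
    have := dens_pos.ne'
    field_simp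
  rw [← e2, ← mul_sub, abs_mul, abs_of_pos dens_pos, ← integral_sub hGint hψ]
  refine mul_le_mul_of_nonneg_left ?_ dens_pos.le
  refine (abs_integral_le_integral_abs).trans ?_
  refine integral_mono (hGint.sub hψ).abs hΘ fun z => ?_
  show |G z - ψ z| ≤ Θ z
  -- the cell of z
  obtain ⟨q, hq⟩ : ∃ q : ℤ × ℤ, q = (⌊X z - x0⌋, ⌊Y z - y0⌋) := ⟨_, rfl⟩
  have c1 : (q.1 : ℝ) ≤ X z - x0 ∧ X z - x0 < q.1 + 1 := by
    rw [hq]
    exact ⟨Int.floor_le _, Int.lt_floor_add_one _⟩
  have c2 : (q.2 : ℝ) ≤ Y z - y0 ∧ Y z - y0 < q.2 + 1 := by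
    rw [hq]
    exact ⟨Int.floor_le _, Int.lt_floor_add_one _⟩
  have hz : z ∈ cell (q.1 + x0) (q.2 + y0) :=
    ⟨⟨by linarith [c1.1], by linarith [c1.2]⟩, by linarith [c2.1], by linarith [c2.2]⟩
  have huniq : ∀ q' : ℤ × ℤ, z ∈ cell (q'.1 + x0) (q'.2 + y0) → q' = q := by
    rintro q' ⟨⟨a1, a2⟩, a3, a4⟩
    have b1 : (q'.1 : ℝ) < q.1 + 1 := by linarith [c1.2]
    have b2 : (q.1 : ℝ) < q'.1 + 1 := by linarith [c1.1]
    have b3 : (q'.2 : ℝ) < q.2 + 1 := by linarith [c2.2]
    have b4 : (q.2 : ℝ) < q'.2 + 1 := by linarith [c2.1]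
    have d1 : q'.1 < q.1 + 1 := by exact_mod_cast b1
    have d2 : q.1 < q'.1 + 1 := by exact_mod_cast b2
    have d3 : q'.2 < q.2 + 1 := by exact_mod_cast b3
    have d4 : q.2 < q'.2 + 1 := by exact_mod_cast b4
    ext <;> omega
  have hGz : G z = ψ (Q q) := by
    rw [hG]
    simp only
    by_cases hqS : q ∈ S
    · rw [Finset.sum_eq_single_of_mem q hqS fun q' _ hne => Set.indicator_of_notMem (fun h1 => hne (huniq q' h1)) _]
      exact Set.indicator_of_mem hz _
    · rw [hout q hqS]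
      refine Finset.sum_eq_zero fun q' hq' => Set.indicator_of_notMem (fun h1 => hqS ?_) _
      rw [← huniq q' h1]
      exact hq'
  rw [hGz]
  refine h z (Q q) (norm_le_XY ?_ ?_ ?_ ?_)
  · rw [X_sub, hX]
    linarith [c1.1]
  · rw [X_sub, hX]
    linarith [c1.2]
  · rw [Y_sub, hY]
    linarith [c2.1]
  · rw [Y_sub, hY]
    linarith [c2.2]

/-! ### 3. A function on a disc -/

/-- the area of a disc -/
lemma ball_r {r : ℝ} (hr : 0 ≤ r) : volume.real (Metric.closedBall (0 : ℂ) r) = Real.pi * r ^ 2 := Gi.ball_real hr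

/-- the comparison function -/
noncomputable def Th (R e : ℝ) (z : ℂ) : ℝ :=
  (Metric.closedBall (0 : ℂ) (R + 4)).indicator (fun _ => e) z +
    (Metric.closedBall (0 : ℂ) (R + 4) \ Metric.ball (0 : ℂ) (R - 4)).indicator (fun _ => 1) z

lemma Th_int (R e : ℝ) : Integrable (Th R e) := by
  unfold Th
  refine Integrable.add ((integrableOn_const measure_closedBall_lt_top.ne).integrable_indicator measurableSet_closedBall)
    ((integrableOn_const ?_).integrable_indicator (measurableSet_closedBall.diff measurableSet_ball))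
  exact ((measure_mono Set.sdiff_subset).trans_lt measure_closedBall_lt_top).ne

lemma ann_vol {R : ℝ} (hR : 0 ≤ R) :
    volume.real (Metric.closedBall (0 : ℂ) (R + 4) \ Metric.ball (0 : ℂ) (R - 4)) ≤ Real.pi * (16 * R + 64) := by
  have hfin : volume (Metric.closedBall (0 : ℂ) (R + 4)) ≠ ⊤ := measure_closedBall_lt_top.ne
  rcases lt_or_ge R 4 with h | h
  · refine (measureReal_mono Set.sdiff_subset hfin).trans ?_
    rw [ball_r (by linarith)]
    refine mul_le_mul_of_nonneg_left ?_ Real.pi_pos.le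
    nlinarith
  · have hsub : Metric.ball (0 : ℂ) (R - 4) ⊆ Metric.closedBall (0 : ℂ) (R + 4) :=
      Metric.ball_subset_closedBall.trans (Metric.closedBall_subset_closedBall (by linarith))
    rw [measureReal_sdiff hsub measurableSet_ball (h₁ := hfin), ball_r (by linarith)]
    have e : volume.real (Metric.ball (0 : ℂ) (R - 4)) = Real.pi * (R - 4) ^ 2 := by
      rw [Measure.real, Complex.volume_ball, ENNReal.toReal_mul, ENNReal.toReal_pow, ENNReal.toReal_ofReal (by linarith),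
        ENNReal.coe_toReal, NNReal.coe_real_pi, mul_comm]
    rw [e, ← mul_sub]
    refine mul_le_mul_of_nonneg_left ?_ Real.pi_pos.le
    nlinarith

lemma Th_le {R e : ℝ} (hR : 0 ≤ R) : ∫ z, Th R e z ≤ e * (Real.pi * (R + 4) ^ 2) + Real.pi * (16 * R + 64) := by
  have h1 : Integrable ((Metric.closedBall (0 : ℂ) (R + 4)).indicator fun _ => e) :=
    (integrableOn_const measure_closedBall_lt_top.ne).integrable_indicator measurableSet_closedBall
  have h2 : Integrable ((Metric.closedBall (0 : ℂ) (R + 4) \ Metric.ball (0 : ℂ) (R - 4)).indicator fun _ => (1 : ℝ)) :=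
    (integrableOn_const ((measure_mono Set.sdiff_subset).trans_lt measure_closedBall_lt_top).ne).integrable_indicator
      (measurableSet_closedBall.diff measurableSet_ball)
  unfold Th
  rw [integral_add h1 h2, integral_indicator measurableSet_closedBall,
    integral_indicator (measurableSet_closedBall.diff measurableSet_ball), setIntegral_const, setIntegral_const, smul_eq_mul,
    smul_eq_mul, mul_one, ball_r (by linarith), mul_comm e]
  exact add_le_add le_rfl (ann_vol hR)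

/-- **a Lipschitz function on a disc** -/
theorem lat_disc {c : ℤ} (hc : c = 0 ∨ c = 1) (w : ℂ) {f : ℂ → ℝ} {R K : ℝ} (hR : 0 ≤ R) (hK : 0 ≤ K)
    (hf : ∀ z, 0 ≤ f z ∧ f z ≤ 1) (hL : ∀ z q, |f q - f z| ≤ K * ‖z - q‖) (hc' : Continuous f) :
    |(∑' p : ℤ × ℤ, if (p.1 + p.2) % 3 = c then (if ‖zv p + w‖ ≤ R then f (zv p + w) else 0) else 0) -
      dens * ∫ z in Metric.closedBall (0 : ℂ) R, f z| ≤
      dens * (4 * K * (Real.pi * (R + 4) ^ 2) + Real.pi * (16 * R + 64)) := by
  obtain ⟨ψ, hψ⟩ : ∃ ψ : ℂ → ℝ, ψ = fun z => if ‖z‖ ≤ R then f z else 0 := ⟨_, rfl⟩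
  have e1 : ψ = (Metric.closedBall (0 : ℂ) R).indicator f := by
    rw [hψ]
    ext z
    by_cases h : ‖z‖ ≤ R
    · rw [if_pos h, Set.indicator_of_mem (by rw [Metric.mem_closedBall, dist_zero_right]; exact h)]
    · rw [if_neg h, Set.indicator_of_notMem (by rw [Metric.mem_closedBall, dist_zero_right]; exact h)]
  have hi : Integrable ψ := by
    rw [e1]
    exact (hc'.continuousOn.integrableOn_compact (isCompact_closedBall _ _)).integrable_indicator measurableSet_closedBall
  have e2 : ∫ z in Metric.closedBall (0 : ℂ) R, f z = ∫ z, ψ z := by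
    rw [e1, integral_indicator measurableSet_closedBall]
  have h := lat hc w (ψ := ψ) (Θ := Th R (4 * K)) (R := R) (fun z hz => by
    rw [hψ]
    exact if_neg (not_le.2 hz)) hi (Th_int _ _) (fun z q hzq => by
      have t1 : z ∈ Metric.closedBall (0 : ℂ) (R + 4) → (Metric.closedBall (0 : ℂ) (R + 4)).indicator (fun _ => 4 * K) z = 4 * K :=
        fun h => Set.indicator_of_mem h _
      have t0 : ∀ s : Set ℂ, 0 ≤ s.indicator (fun _ => (1 : ℝ)) z := fun s => Set.indicator_nonneg (fun _ _ => zero_le_one) _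
      have t2 : 0 ≤ (Metric.closedBall (0 : ℂ) (R + 4)).indicator (fun _ => 4 * K) z :=
        Set.indicator_nonneg (fun _ _ => by positivity) _
      have hzn : ‖z‖ ≤ ‖q‖ + 4 := by
        have := norm_sub_norm_le z q
        linarith
      have hqn : ‖q‖ ≤ ‖z‖ + 4 := by
        have := norm_sub_norm_le q z
        rw [norm_sub_rev] at this
        linarith
      have h4K : K * ‖z - q‖ ≤ 4 * K := by
        calc K * ‖z - q‖ ≤ K * 4 := mul_le_mul_of_nonneg_left hzq hK
          _ = 4 * K := mul_comm _ _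
      unfold Th
      rw [hψ]
      simp only
      by_cases h1 : ‖z‖ ≤ R
      · have hz : z ∈ Metric.closedBall (0 : ℂ) (R + 4) := by
          rw [Metric.mem_closedBall, dist_zero_right]
          linarith
        by_cases h2 : ‖q‖ ≤ R
        · rw [if_pos h1, if_pos h2, t1 hz]
          have := t0 (Metric.closedBall (0 : ℂ) (R + 4) \ Metric.ball (0 : ℂ) (R - 4))
          linarith [hL z q]
        · rw [if_pos h1, if_neg h2, zero_sub, abs_neg, abs_of_nonneg (hf z).1]
          have hm : z ∈ Metric.closedBall (0 : ℂ) (R + 4) \ Metric.ball (0 : ℂ) (R - 4) := by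
            refine ⟨hz, ?_⟩
            rw [Metric.mem_ball, dist_zero_right, not_lt]
            linarith [not_le.1 h2]
          rw [Set.indicator_of_mem hm]
          linarith [(hf z).2]
      · by_cases h2 : ‖q‖ ≤ R
        · rw [if_neg h1, if_pos h2, sub_zero, abs_of_nonneg (hf q).1]
          have hm : z ∈ Metric.closedBall (0 : ℂ) (R + 4) \ Metric.ball (0 : ℂ) (R - 4) := by
            refine ⟨?_, ?_⟩
            · rw [Metric.mem_closedBall, dist_zero_right]
              linarith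
            · rw [Metric.mem_ball, dist_zero_right, not_lt]
              linarith [not_le.1 h1]
          rw [Set.indicator_of_mem hm]
          linarith [(hf q).2]
        · rw [if_neg h1, if_neg h2, sub_self, abs_zero]
          have := t0 (Metric.closedBall (0 : ℂ) (R + 4) \ Metric.ball (0 : ℂ) (R - 4))
          linarith)
  have e3 : (∑' p : ℤ × ℤ, if (p.1 + p.2) % 3 = c then (if ‖zv p + w‖ ≤ R then f (zv p + w) else 0) else 0) =
      ∑' p : ℤ × ℤ, if (p.1 + p.2) % 3 = c then ψ (zv p + w) else 0 := by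
    rw [hψ]
  rw [e2, e3]
  exact h.trans (mul_le_mul_of_nonneg_left (Th_le hR) dens_pos.le)

/-! ### 4. The row -/

lemma sm_lip {δ : ℝ} (hδ : 0 < δ) (x y : ℝ) : |sm δ x - sm δ y| ≤ |x - y| / δ := by
  unfold sm
  have h1 := abs_max_sub_max_le_max (0 : ℝ) (min 1 (x / δ - 1)) 0 (min 1 (y / δ - 1))
  have h2 := abs_min_sub_min_le_max (1 : ℝ) (x / δ - 1) 1 (y / δ - 1)
  rw [sub_self, abs_zero] at h1 h2
  rw [max_eq_right (abs_nonneg (min 1 (x / δ - 1) - min 1 (y / δ - 1)))] at h1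
  rw [max_eq_right (abs_nonneg (x / δ - 1 - (y / δ - 1)))] at h2
  refine h1.trans (h2.trans (le_of_eq ?_))
  rw [show x / δ - 1 - (y / δ - 1) = (x - y) / δ by ring, abs_div, abs_of_pos hδ]

/-- the lattice of all `x + y ω` -/
noncomputable def Lam : AddSubgroup ℂ where
  carrier := Set.range zv
  add_mem' := by
    rintro _ _ ⟨v, rfl⟩ ⟨w, rfl⟩
    refine ⟨v + w, ?_⟩
    unfold zv
    simp only [Prod.fst_add, Prod.snd_add]
    push_cast
    ring
  zero_mem' := ⟨0, by
    unfold zv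
    simp⟩
  neg_mem' := by
    rintro _ ⟨v, rfl⟩
    refine ⟨-v, ?_⟩
    unfold zv
    simp only [Prod.fst_neg, Prod.snd_neg]
    push_cast
    ring

lemma zv_re (v : ℤ × ℤ) : (zv v).re = v.1 - (v.2 : ℝ) / 2 := by
  obtain ⟨h1, h2⟩ := exp_re
  unfold zv
  simp only [Complex.add_re, Complex.mul_re, Complex.intCast_re, Complex.intCast_im, h1, h2]
  ring

lemma zv_im (v : ℤ × ℤ) : (zv v).im = v.2 * (Real.sqrt 3 / 2) := by
  obtain ⟨h1, h2⟩ := exp_re
  unfold zv
  simp only [Complex.add_im, Complex.mul_im, Complex.intCast_re, Complex.intCast_im, h1, h2]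
  ring

lemma step_mem (i : ℕ) (a : Fin 3) : step i a ∈ Lam := by
  have key : Complex.exp (2 * (Real.pi : ℂ) * Complex.I * ((a : ℕ) : ℂ) / 3) ∈ Lam := by
    have e : 2 * (Real.pi : ℂ) * Complex.I * ((a : ℕ) : ℂ) / 3 = ((2 * Real.pi * (a : ℕ) / 3 : ℝ) : ℂ) * Complex.I := by
      push_cast
      ring
    rw [e]
    have hre := Complex.exp_ofReal_mul_I_re (2 * Real.pi * ((a : ℕ) : ℝ) / 3)
    have him := Complex.exp_ofReal_mul_I_im (2 * Real.pi * ((a : ℕ) : ℝ) / 3)
    have c3 : Real.cos (2 * Real.pi / 3) = -(1 / 2) := by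
      rw [show 2 * Real.pi / 3 = Real.pi - Real.pi / 3 by ring, Real.cos_pi_sub, Real.cos_pi_div_three]
    have s3 : Real.sin (2 * Real.pi / 3) = Real.sqrt 3 / 2 := by
      rw [show 2 * Real.pi / 3 = Real.pi - Real.pi / 3 by ring, Real.sin_pi_sub, Real.sin_pi_div_three]
    have c6 : Real.cos (4 * Real.pi / 3) = -(1 / 2) := by
      rw [show 4 * Real.pi / 3 = Real.pi / 3 + Real.pi by ring, Real.cos_add_pi, Real.cos_pi_div_three]
    have s6 : Real.sin (4 * Real.pi / 3) = -(Real.sqrt 3 / 2) := by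
      rw [show 4 * Real.pi / 3 = Real.pi / 3 + Real.pi by ring, Real.sin_add_pi, Real.sin_pi_div_three]
    fin_cases a
    · refine ⟨(1, 0), ?_⟩
      apply Complex.ext
      · rw [zv_re, hre]
        simp
      · rw [zv_im, him]
        simp
    · refine ⟨(0, 1), ?_⟩
      apply Complex.ext
      · rw [zv_re, hre]
        simp only [Nat.cast_one, mul_one, c3]
        norm_num
      · rw [zv_im, him]
        simp only [Nat.cast_one, mul_one, s3]
        norm_num
    · refine ⟨(-1, -1), ?_⟩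
      apply Complex.ext
      · rw [zv_re, hre]
        rw [show (2 * Real.pi * (((⟨2, by norm_num⟩ : Fin 3) : ℕ) : ℝ) / 3) = 4 * Real.pi / 3 by push_cast; ring, c6]
        norm_num
      · rw [zv_im, him]
        rw [show (2 * Real.pi * (((⟨2, by norm_num⟩ : Fin 3) : ℕ) : ℝ) / 3) = 4 * Real.pi / 3 by push_cast; ring, s6]
        norm_num
  unfold step
  rcases neg_one_pow_eq_or ℂ i with h | h
  · rw [h, one_mul]
    exact key
  · rw [h, neg_one_mul]
    exact Lam.neg_mem key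

lemma pos_mem {n : ℕ} (s : Fin n → Fin 3) (k : ℕ) : pos s k ∈ Lam := by
  unfold pos
  exact Lam.sum_mem fun i _ => step_mem _ _

lemma zv_norm {v : ℤ × ℤ} (h : zv v ≠ 0) : 1 ≤ ‖zv v‖ ^ 2 := by
  have e : ‖zv v‖ ^ 2 = ((v.1 ^ 2 - v.1 * v.2 + v.2 ^ 2 : ℤ) : ℝ) := by
    rw [← Complex.normSq_eq_norm_sq, Complex.normSq_apply, zv_re, zv_im]
    push_cast
    have := s3_sq
    nlinarith
  rw [e]
  have h1 : 0 < v.1 ^ 2 - v.1 * v.2 + v.2 ^ 2 := by
    by_contra h2
    rw [not_lt] at h2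
    have h3 : v.1 = 0 ∧ v.2 = 0 := by
      constructor <;> nlinarith [sq_nonneg (v.1 - v.2), sq_nonneg v.1, sq_nonneg v.2, sq_nonneg (2 * v.1 - v.2),
        sq_nonneg (2 * v.2 - v.1)]
    refine h ?_
    unfold zv
    rw [h3.1, h3.2]
    simp
  exact_mod_cast h1

/-- the size is at least `1` -/
lemma size_ge {n : ℕ} (hn : 1 ≤ n) : 1 ≤ size n := by
  have hne := NTSF.saw_nonempty n
  have hc : (0 : ℝ) < (saw n).card := by exact_mod_cast Finset.card_pos.2 hne
  unfold size
  rw [Real.one_le_sqrt, le_div_iff₀ hc, one_mul]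
  have h : ∀ s ∈ saw n, (1 : ℝ) ≤ ‖pos s n‖ ^ 2 := by
    intro s hs
    obtain ⟨v, hv⟩ := pos_mem s n
    rw [← hv]
    refine zv_norm fun h0 => ?_
    unfold saw at hs
    rw [Finset.mem_filter] at hs
    have h1 := hs.2 n 0 le_rfl (Nat.zero_le _) (by
      rw [← hv, h0]
      unfold pos
      simp)
    omega
  calc ((saw n).card : ℝ) = ∑ s ∈ saw n, (1 : ℝ) := by rw [Finset.sum_const, nsmul_eq_mul, mul_one]
    _ ≤ _ := Finset.sum_le_sum h

end Cn

open Cn

/-- **row CNT** -/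
theorem cntR : CNT := by
  intro δ M hδ hM
  refine ⟨dens * (4 / δ * (Real.pi * (M + 4) ^ 2) + Real.pi * (16 * M + 64)), by have := dens_pos; positivity,
    fun n m l a b R σ hn hR hRM hσ => ?_⟩
  have hs : 1 ≤ size n := size_ge hn
  have hs0 : 0 < size n := by linarith
  obtain ⟨s, hs'⟩ : ∃ s, s = size n := ⟨_, rfl⟩
  rw [← hs'] at hs hs0 hRM ⊢
  obtain ⟨c, hc, hcσ⟩ : ∃ c : ℤ, (c = 0 ∨ c = 1) ∧ ∀ p : ℤ × ℤ, (IsV p ∧ sgv p = (σ : ℂ)) ↔ (p.1 + p.2) % 3 = c := by
    rcases hσ with rfl | rfl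
    · refine ⟨0, Or.inl rfl, fun p => ⟨fun h => ?_, fun h => ⟨Or.inl h, ?_⟩⟩⟩
      · by_contra h1
        have h2 := h.2
        unfold sgv at h2
        rw [if_neg h1] at h2
        norm_num at h2
      · unfold sgv
        rw [if_pos h]
        norm_num
    · refine ⟨1, Or.inr rfl, fun p => ⟨fun h => ?_, fun h => ⟨Or.inr h, ?_⟩⟩⟩
      · rcases h.1 with h1 | h1
        · have h2 := h.2
          unfold sgv at h2
          rw [if_pos h1] at h2
          norm_num at h2
        · exact h1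
      · unfold sgv
        rw [if_neg (by omega)]
        norm_num
  obtain ⟨w, hw⟩ : ∃ w : ℂ, w = (σ : ℂ) * pos b l - pos a m := ⟨_, rfl⟩
  obtain ⟨g, hg⟩ : ∃ g : ℂ → ℝ, g = fun z => sm δ (mind (size m / s) (size l / s) (curve a) (σ • curve b) z) := ⟨_, rfl⟩
  have hgc : Continuous g := by
    rw [hg]
    exact (Gi.sm_cont δ).comp (Gi.mind_cont_z _ _ _ _)
  have hg01 : ∀ z, 0 ≤ g z ∧ g z ≤ 1 := fun z => by
    rw [hg]
    exact ⟨Gi.sm_nonneg _ _, Gi.sm_le _ _⟩
  have hgL : ∀ z q, |g q - g z| ≤ 1 / δ * ‖z - q‖ := by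
    intro z q
    rw [hg]
    simp only
    refine (sm_lip hδ _ _).trans ?_
    rw [one_div, inv_mul_eq_div]
    refine div_le_div_of_nonneg_right ?_ hδ.le
    have k1 := Gi.mind_add (size m / s) (size l / s) (curve a) (σ • curve b) (curve a) (σ • curve b) q z
    have k2 := Gi.mind_add (size m / s) (size l / s) (curve a) (σ • curve b) (curve a) (σ • curve b) z q
    rw [dist_self, dist_self, mul_zero, mul_zero, zero_add, zero_add, dist_eq_norm] at k1 k2
    rw [norm_sub_rev] at k1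
    rw [abs_le]
    constructor <;> linarith
  -- the sum
  have e1 : cnt δ n a b R σ = ∑' p : ℤ × ℤ, if (p.1 + p.2) % 3 = c then
      (if ‖zv p + w‖ ≤ R then g ((zv p + w) / s) else 0) else 0 := by
    unfold cnt
    refine tsum_congr fun p => ?_
    unfold term
    rw [← hs']
    by_cases h : (p.1 + p.2) % 3 = c
    · have h1 := (hcσ p).2 h
      have e2 : bpos p b l - pos a m = zv p + w := by
        unfold bpos
        rw [h1.2, hw]
        ring
      rw [if_pos h, e2, hg]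
      simp only [h1.1, h1.2, true_and]
    · rw [if_neg h, if_neg fun h1 => h ((hcσ p).1 ⟨h1.1, h1.2.1⟩)]
  -- the integral
  have e2 : ∫ z in Metric.closedBall (0 : ℂ) R, g (z / s) =
      s ^ 2 * gint δ (R / s) (size m / s) (size l / s) (curve a) (σ • curve b) := by
    have k1 := Measure.setIntegral_comp_smul_of_pos (volume : Measure ℂ) g (Metric.closedBall (0 : ℂ) R) (inv_pos.2 hs0)
    have k2 : (s⁻¹ : ℝ) • Metric.closedBall (0 : ℂ) R = Metric.closedBall (0 : ℂ) (R / s) := by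
      rw [smul_closedBall _ _ hR, smul_zero, norm_inv, Real.norm_eq_abs, abs_of_pos hs0, inv_mul_eq_div]
    have k3 : ∀ z : ℂ, (s⁻¹ : ℝ) • z = z / s := fun z => by
      rw [Complex.real_smul, Complex.ofReal_inv, inv_mul_eq_div]
    simp only [k3] at k1
    rw [k1, k2, Complex.finrank_real_complex]
    unfold gint
    rw [hg, smul_eq_mul, inv_pow, inv_inv]
  have h := lat_disc hc w (f := fun z => g (z / s)) (R := R) (K := 1 / (δ * s)) hR (by positivity)
    (fun z => hg01 _) (fun z q => by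
      refine (hgL (z / s) (q / s)).trans (le_of_eq ?_)
      rw [← sub_div, norm_div, Complex.norm_real, Real.norm_eq_abs, abs_of_pos hs0]
      field_simp) (by
      refine hgc.comp ?_
      fun_prop)
  rw [← e1, e2] at h
  have hfin : |cnt δ n a b R σ / s ^ 2 - dens * gint δ (R / s) (size m / s) (size l / s) (curve a) (σ • curve b)| =
      |cnt δ n a b R σ - dens * (s ^ 2 * gint δ (R / s) (size m / s) (size l / s) (curve a) (σ • curve b))| / s ^ 2 := by
    rw [← abs_of_pos (by positivity : (0 : ℝ) < s ^ 2), ← abs_div, abs_of_pos (by positivity : (0 : ℝ) < s ^ 2)]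
    congr 1
    field_simp
  rw [hfin, div_le_div_iff₀ (by positivity) hs0]
  have hR4 : R + 4 ≤ (M + 4) * s := by nlinarith
  have hR5 : (R + 4) ^ 2 ≤ ((M + 4) * s) ^ 2 := pow_le_pow_left₀ (by linarith) hR4 2
  have hd := dens_pos
  have k1 : 4 * (1 / (δ * s)) * (Real.pi * (R + 4) ^ 2) ≤ 4 / δ * (Real.pi * (M + 4) ^ 2) * s := by
    calc 4 * (1 / (δ * s)) * (Real.pi * (R + 4) ^ 2) ≤ 4 * (1 / (δ * s)) * (Real.pi * ((M + 4) * s) ^ 2) :=
          mul_le_mul_of_nonneg_left (mul_le_mul_of_nonneg_left hR5 Real.pi_pos.le) (by positivity)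
      _ = _ := by
        field_simp
  have k2 : Real.pi * (16 * R + 64) ≤ Real.pi * (16 * M + 64) * s := by
    rw [mul_assoc]
    refine mul_le_mul_of_nonneg_left ?_ Real.pi_pos.le
    nlinarith
  calc |cnt δ n a b R σ - dens * (s ^ 2 * gint δ (R / s) (size m / s) (size l / s) (curve a) (σ • curve b))| * s
      ≤ dens * (4 * (1 / (δ * s)) * (Real.pi * (R + 4) ^ 2) + Real.pi * (16 * R + 64)) * s :=
        mul_le_mul_of_nonneg_right h hs0.le
    _ ≤ dens * (4 / δ * (Real.pi * (M + 4) ^ 2) * s + Real.pi * (16 * M + 64) * s) * s :=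
        mul_le_mul_of_nonneg_right (mul_le_mul_of_nonneg_left (add_le_add k1 k2) hd.le) hs0.le
    _ = _ := by ring

end Pool.Agent.RMP
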