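import Pool.Agent.RMP.LimF

/-!
# The renormalisation map in the scaling limit, assembly 7 (helper83): **`rmLim_of`**
-/

set_option autoImplicit false

open MeasureTheory Filter Topology Finset
open scoped Classical

namespace Pool.Agent.RMP

open Pool.Agent.NTS.Res

open NTSF (size_pos integral_law)

/-- more near touches for a larger distance -/
lemma ntsum_mono (n k : ℕ) (d R : ℝ) {q q' : ℝ} (h : q ≤ q') : ntsum n k d R q ≤ ntsum n k d R q' := by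
  unfold ntsum
  refine sum_le_sum fun m _ => sum_le_sum fun l _ => ?_
  refine div_le_div_of_nonneg_right ?_ (by positivity)
  refine sum_le_sum fun a _ => sum_le_sum fun b _ => ?_
  have hN : ∀ p, Nears a b p R → ‖bpos p b l - pos a m‖ ≤ R := fun p h => by
    rw [norm_sub_rev]
    exact h.2.1
  have t : ∀ q : ℝ, ∑' p : ℤ × ℤ, (if Nears a b p R ∧ ∃ i j : ℕ, i ≤ m ∧ j ≤ l ∧ ‖pos a i - bpos p b j‖ ≤ q then (1 : ℝ) else 0) =
      ∑ p ∈ pls a b R, if Nears a b p R ∧ ∃ i j : ℕ, i ≤ m ∧ j ≤ l ∧ ‖pos a i - bpos p b j‖ ≤ q then (1 : ℝ) else 0 := fun q =>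
    tsum_pls a b R fun p h => hN p (by
      by_contra hcon
      exact h (if_neg fun h' => hcon h'.1))
  rw [t, t]
  refine sum_le_sum fun p _ => ?_
  by_cases h1 : Nears a b p R ∧ ∃ i j : ℕ, i ≤ m ∧ j ≤ l ∧ ‖pos a i - bpos p b j‖ ≤ q
  · obtain ⟨h2, i, j, hi, hj, h3⟩ := h1
    rw [if_pos ⟨h2, i, j, hi, hj, h3⟩, if_pos ⟨h2, i, j, hi, hj, h3.trans h⟩]
  · rw [if_neg h1]
    split_ifs
    · exact zero_le_one
    · exact le_rfl

/-- the normalised sum -/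
noncomputable def PP (φ k : ℕ → ℕ) (R : ℕ → ℝ) (d : ℝ) (F : C(unitInterval, ℂ) → ℝ) (i : ℕ) : ℝ :=
  psum (φ i) (k i) d (R i) F / ((φ i : ℝ) ^ 2 * size (φ i) ^ 2)

/-- **the sum against the limit, up to the Lipschitz term** -/
theorem PP_lim (hC : CNT) (hN : NTS) (hG : GI) (hW : WK) (hS : SI) (hE : NEG) {φ : ℕ → ℕ} {μ : ℝ → Measure C(unitInterval, ℂ)}
    {ρ : ℝ → ℝ} (hf : Fam φ μ ρ) {e s d r r' : ℝ} (he : 0 < e) (hes : e < s) (hes1 : s < 1 - e) (hd : 0 < d) (hd1 : d ≤ 1)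
    (hx1 : (1 + d) * s ≤ 1) (hy1 : (1 + d) * (1 - s) ≤ 1) (hr : 0 ≤ r) (hr' : 0 < r')
    (hRl : Tendsto (fun i => r' * (φ i : ℝ) ^ (3 / 4 : ℝ) / size (φ i)) atTop (𝓝 r))
    {F : C(unitInterval, ℂ) → ℝ} (h0 : ∀ γ, 0 ≤ F γ ∧ F γ ≤ 1) {L : NNReal} (hF : LipschitzWith L F) (hL : L ≤ 1) {η : ℝ}
    (hη : 0 < η) : ∀ᶠ i in atTop, |PP φ (fun i => ⌊s * φ i⌋₊) (fun i => r' * (φ i : ℝ) ^ (3 / 4 : ℝ)) d F i -
      2 * dens * rmap μ ρ s d r F| ≤ L * ((r' * (φ i : ℝ) ^ (3 / 4 : ℝ) + 1) / size (φ i)) *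
        PP φ (fun i => ⌊s * φ i⌋₊) (fun i => r' * (φ i : ℝ) ^ (3 / 4 : ℝ)) d (fun _ => 1) i + η := by
  obtain ⟨c0, C0, hc0, hcC, hsz⟩ := size_bds
  have hC0 : 0 < C0 := hc0.trans_le hcC
  have hs0 : 0 < s := he.trans hes
  have hs1 : s < 1 := by linarith
  have hF1 : LipschitzWith 1 F := hF.weaken hL
  -- near touches
  obtain ⟨e', he'⟩ : ∃ x, x = min e (η / 3 * c0 ^ 2) := ⟨_, rfl⟩
  have e'0 : 0 < e' := by
    rw [he']
    exact lt_min he (by positivity)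
  have e'1 : e' ≤ e := by
    rw [he']
    exact min_le_left _ _
  have e'2 : e' ≤ η / 3 * c0 ^ 2 := by
    rw [he']
    exact min_le_right _ _
  obtain ⟨q, n0, hq, hnt⟩ := hN e' r' e'0 hr'
  -- the cut-off
  have hlim := rmap_lim hC hG hW hE hf hs0 hs1 hd hx1 hy1 hr h0 hF1
  have hδ0 : Tendsto (fun j : ℕ => (1 : ℝ) / (j + 1)) atTop (𝓝 0) := tendsto_one_div_add_atTop_nhds_zero_nat
  obtain ⟨j, hj1, hj2⟩ : ∃ j : ℕ, (1 : ℝ) / (j + 1) ≤ q / (3 * C0) ∧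
      |(∫ x in s..(1 + d) * s, ∫ y in (1 - s)..(1 + d) * (1 - s), 2 * dens * BB μ ρ (1 / (j + 1)) r F x y) -
        2 * dens * rmap μ ρ s d r F| ≤ η / 3 := by
    have h1 : ∀ᶠ j : ℕ in atTop, (1 : ℝ) / (j + 1) ≤ q / (3 * C0) :=
      (hδ0.eventually (ge_mem_nhds (by positivity : (0 : ℝ) < q / (3 * C0))))
    have h2 := (Metric.tendsto_nhds.1 hlim) (η / 3) (by positivity)
    obtain ⟨j, hj⟩ := (h1.and h2).exists
    refine ⟨j, hj.1, ?_⟩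
    have := hj.2
    rw [Real.dist_eq] at this
    exact this.le
  obtain ⟨δ, hδ⟩ : ∃ δ : ℝ, δ = 1 / ((j : ℝ) + 1) := ⟨_, rfl⟩
  have hδp : 0 < δ := by
    rw [hδ]
    exact del_pos j
  rw [← hδ] at hj1 hj2
  have hφ := hf.top
  have hφR : Tendsto (fun i => ((φ i : ℕ) : ℝ)) atTop atTop := tendsto_natCast_atTop_atTop.comp hφ
  have hk : Tendsto (fun i => (⌊s * φ i⌋₊ : ℝ) / φ i) atTop (𝓝 s) := (tendsto_nat_floor_mul_div_atTop hs0.le).comp hφR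
  have hkφ : ∀ i, ⌊s * φ i⌋₊ ≤ φ i := fun i => by
    have h1 : s * (φ i : ℝ) ≤ 1 * φ i := mul_le_mul_of_nonneg_right hs1.le (Nat.cast_nonneg _)
    rw [one_mul] at h1
    exact (Nat.floor_le_floor h1).trans (Nat.floor_natCast _).le
  have hR0 : ∀ i, 0 ≤ r' * (φ i : ℝ) ^ (3 / 4 : ℝ) := fun i => by positivity
  have hRM : ∀ i, r' * (φ i : ℝ) ^ (3 / 4 : ℝ) ≤ r' / c0 * size (φ i) := fun i => by
    rcases Nat.eq_zero_or_pos (φ i) with h | h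
    · rw [h, Nat.cast_zero, Real.zero_rpow (by norm_num), mul_zero]
      exact mul_nonneg (by positivity) (NTSF.size_nonneg _)
    · have h1 := mul_le_mul_of_nonneg_left (hsz _ h).1 (by positivity : 0 ≤ r' / c0)
      have h2 : r' / c0 * (c0 * (φ i : ℝ) ^ (3 / 4 : ℝ)) = r' * (φ i : ℝ) ^ (3 / 4 : ℝ) := by
        field_simp
      linarith
  have hdel := lim_del hC hG hW hS hE hf hs0 hs1 hd hx1 hy1 hδp hr (by positivity : 0 < r' / c0) hR0 hRM hRl hk hkφ h0 hF1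
  have ev1 := (Metric.tendsto_nhds.1 hdel) (η / 3) (by positivity)
  have ev2 : ∀ᶠ i in atTop, 2 ≤ δ * size (φ i) :=
    ((size_top hφ).const_mul_atTop hδp).eventually_ge_atTop 2
  have ev3 : ∀ᶠ i in atTop, e < (⌊s * φ i⌋₊ : ℝ) / φ i := hk.eventually (lt_mem_nhds hes)
  have ev4 : ∀ᶠ i in atTop, (⌊s * φ i⌋₊ : ℝ) / φ i < 1 - e := hk.eventually (gt_mem_nhds hes1)
  obtain ⟨n1, hn1⟩ := exists_nat_ge (1 / e)
  filter_upwards [ev1, ev2, ev3, ev4, hφ.eventually_ge_atTop n0, hφ.eventually_ge_atTop 1, hφ.eventually_ge_atTop (n1 + 1)]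
    with i g1 g2 g3 g4 g5 g6 g7
  have sn := size_pos g6
  have nn : (0 : ℝ) < φ i := by exact_mod_cast g6
  rw [lt_div_iff₀ nn] at g3
  rw [div_lt_iff₀ nn] at g4
  have hen : 1 < e * φ i := by
    have h1 : (n1 : ℝ) + 1 ≤ φ i := by exact_mod_cast g7
    have h2 : 1 / e < φ i := by linarith
    rwa [div_lt_iff₀ he, mul_comm] at h2
  have k1 : 1 ≤ ⌊s * φ i⌋₊ := by
    have : (1 : ℝ) < ⌊s * φ i⌋₊ := by linarith
    have h2 : 1 < ⌊s * φ i⌋₊ := by exact_mod_cast this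
    exact h2.le
  have k2 : ⌊s * φ i⌋₊ + 1 ≤ φ i := by
    have : ((⌊s * φ i⌋₊ + 1 : ℕ) : ℝ) ≤ φ i := by
      push_cast
      linarith
    exact_mod_cast this
  obtain ⟨n, hn⟩ : ∃ n, n = φ i := ⟨_, rfl⟩
  obtain ⟨k, hk'⟩ : ∃ k, k = ⌊s * (n : ℝ)⌋₊ := ⟨_, rfl⟩
  obtain ⟨R, hR⟩ : ∃ R : ℝ, R = r' * (n : ℝ) ^ (3 / 4 : ℝ) := ⟨_, rfl⟩
  have hmain := psum_AA (n := n) (k := k) (by rw [hk', hn]; exact k1) (by rw [hk', hn]; exact k2) hd.le (δ := δ) (R := R) hδp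
    (by rw [hn]; exact g2) h0 hF
  have hnt1 : ntsum n k d R (3 * δ * size n) ≤ e' * (n : ℝ) ^ (7 / 2 : ℝ) := by
    refine (ntsum_mono n k d R (?_ : 3 * δ * size n ≤ q * (n : ℝ) ^ (3 / 4 : ℝ))).trans
      (hnt n k d R (hn ▸ g5) ?_ ?_ hd.le hd1 (by rw [hR, hn]; exact hR0 i) ?_)
    · have h1 := (hsz n (hn ▸ g6)).2
      have h2 : 3 * δ * size n ≤ 3 * δ * (C0 * (n : ℝ) ^ (3 / 4 : ℝ)) := mul_le_mul_of_nonneg_left h1 (by positivity)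
      have h3 : 3 * δ * C0 ≤ q := by
        rw [le_div_iff₀ (by positivity)] at hj1
        linarith
      have h4 := mul_le_mul_of_nonneg_right h3 (by positivity : 0 ≤ (n : ℝ) ^ (3 / 4 : ℝ))
      linarith
    · rw [hk', hn]
      have := mul_le_mul_of_nonneg_right e'1 nn.le
      linarith
    · rw [hk', hn]
      have := mul_le_mul_of_nonneg_right (by linarith : 1 - e ≤ 1 - e') nn.le
      linarith
    · rw [hR]
  -- divide
  have hD : 0 < (n : ℝ) ^ 2 * size n ^ 2 := by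
    rw [hn]
    positivity
  have hp : (n : ℝ) ^ (7 / 2 : ℝ) / ((n : ℝ) ^ 2 * size n ^ 2) ≤ 1 / c0 ^ 2 := by
    rw [div_le_div_iff₀ hD (by positivity), one_mul]
    have nn' : (0 : ℝ) < n := hn ▸ nn
    have h1 : (c0 * (n : ℝ) ^ (3 / 4 : ℝ)) ^ 2 ≤ size n ^ 2 := pow_le_pow_left₀ (by positivity) (hsz n (hn ▸ g6)).1 2
    have h2 : (n : ℝ) ^ (7 / 2 : ℝ) = (n : ℝ) ^ 2 * ((n : ℝ) ^ (3 / 4 : ℝ)) ^ 2 := by
      rw [← Real.rpow_natCast ((n : ℝ) ^ (3 / 4 : ℝ)) 2, ← Real.rpow_mul nn'.le, ← Real.rpow_natCast (n : ℝ) 2, ← Real.rpow_add nn']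
      norm_num
    rw [h2]
    have h3 := mul_le_mul_of_nonneg_left h1 (by positivity : 0 ≤ (n : ℝ) ^ 2)
    have h4 : (n : ℝ) ^ 2 * (c0 * (n : ℝ) ^ (3 / 4 : ℝ)) ^ 2 = (n : ℝ) ^ 2 * ((n : ℝ) ^ (3 / 4 : ℝ)) ^ 2 * c0 ^ 2 := by ring
    linarith
  have hnt2 : ntsum n k d R (3 * δ * size n) / ((n : ℝ) ^ 2 * size n ^ 2) ≤ η / 3 := by
    calc ntsum n k d R (3 * δ * size n) / ((n : ℝ) ^ 2 * size n ^ 2)
        ≤ e' * (n : ℝ) ^ (7 / 2 : ℝ) / ((n : ℝ) ^ 2 * size n ^ 2) := div_le_div_of_nonneg_right hnt1 hD.le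
      _ = e' * ((n : ℝ) ^ (7 / 2 : ℝ) / ((n : ℝ) ^ 2 * size n ^ 2)) := by ring
      _ ≤ e' * (1 / c0 ^ 2) := mul_le_mul_of_nonneg_left hp e'0.le
      _ ≤ η / 3 * c0 ^ 2 * (1 / c0 ^ 2) := mul_le_mul_of_nonneg_right e'2 (by positivity)
      _ = η / 3 := by field_simp
  rw [Real.dist_eq] at g1
  have e1 : (∑ m ∈ win d (⌊s * φ i⌋₊), ∑ l ∈ win d (φ i - ⌊s * φ i⌋₊), AA δ (φ i) (r' * (φ i : ℝ) ^ (3 / 4 : ℝ)) F m l / size (φ i) ^ 2) /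
      (φ i : ℝ) ^ 2 = (∑ m ∈ win d k, ∑ l ∈ win d (n - k), AA δ n R F m l) / ((n : ℝ) ^ 2 * size n ^ 2) := by
    rw [← hn, ← hk', ← hR]
    have h1 : ∑ m ∈ win d k, ∑ l ∈ win d (n - k), AA δ n R F m l / size n ^ 2 =
        (∑ m ∈ win d k, ∑ l ∈ win d (n - k), AA δ n R F m l) / size n ^ 2 := by
      rw [sum_div]
      refine sum_congr rfl fun m _ => ?_
      rw [sum_div]
    rw [h1, div_div, mul_comm (size n ^ 2)]
  rw [e1] at g1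
  have e2 : ∀ G : C(unitInterval, ℂ) → ℝ, PP φ (fun i => ⌊s * φ i⌋₊) (fun i => r' * (φ i : ℝ) ^ (3 / 4 : ℝ)) d G i =
      psum n k d R G / ((n : ℝ) ^ 2 * size n ^ 2) := fun G => by
    unfold PP
    show psum (φ i) ⌊s * φ i⌋₊ d (r' * (φ i : ℝ) ^ (3 / 4 : ℝ)) G / ((φ i : ℝ) ^ 2 * size (φ i) ^ 2) = _
    rw [← hn, ← hk', ← hR]
  rw [e2, e2, ← hn, ← hR]
  have hdiv : |psum n k d R F / ((n : ℝ) ^ 2 * size n ^ 2) - (∑ m ∈ win d k, ∑ l ∈ win d (n - k), AA δ n R F m l) /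
      ((n : ℝ) ^ 2 * size n ^ 2)| ≤ L * ((R + 1) / size n) * (psum n k d R (fun _ => 1) / ((n : ℝ) ^ 2 * size n ^ 2)) + η / 3 := by
    rw [← sub_div, abs_div, abs_of_pos hD]
    calc _ ≤ (L * ((R + 1) / size n) * psum n k d R (fun _ => 1) + ntsum n k d R (3 * δ * size n)) / ((n : ℝ) ^ 2 * size n ^ 2) :=
          div_le_div_of_nonneg_right hmain hD.le
      _ = L * ((R + 1) / size n) * (psum n k d R (fun _ => 1) / ((n : ℝ) ^ 2 * size n ^ 2)) +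
          ntsum n k d R (3 * δ * size n) / ((n : ℝ) ^ 2 * size n ^ 2) := by ring
      _ ≤ _ := add_le_add le_rfl hnt2
  have t1 := abs_le.1 hdiv
  have t2 := abs_lt.1 g1
  have t3 := abs_le.1 hj2
  rw [abs_le]
  constructor <;> linarith

/-- a subsequence of a family -/
lemma Fam.sub {φ : ℕ → ℕ} {μ : ℝ → Measure C(unitInterval, ℂ)} {ρ : ℝ → ℝ} (hf : Fam φ μ ρ) {ψ : ℕ → ℕ}
    (hψ : Tendsto ψ atTop atTop) : Fam (φ ∘ ψ) μ ρ :=
  ⟨hf.top.comp hψ, hf.prob, fun x h0 h1 f => (hf.law x h0 h1 f).comp hψ, fun x h0 h1 => (hf.size x h0 h1).comp hψ⟩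

/-- **the renormalisation map in the scaling limit, from the rows** -/
theorem rmLim_of (hP : RMPub) (hC : CNT) (hN : NTS) (hG : GI) (hW : WK) (hS : SI) (hE : NEG) (hL : LOW) (hU : UPP) : RMLim := by
  intro ε hε
  obtain ⟨c0, C0, hc0, hcC, hsz⟩ := size_bds
  have hC0 : 0 < C0 := hc0.trans_le hcC
  have hdens : 0 < dens := by
    unfold dens
    positivity
  obtain ⟨e, he⟩ : ∃ e, e = min ε 1 / 4 := ⟨_, rfl⟩
  have e0 : 0 < e := by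
    rw [he]
    positivity
  have e1 : e ≤ ε / 4 := by
    rw [he]
    exact div_le_div_of_nonneg_right (min_le_left _ _) (by norm_num)
  have e2 : e ≤ 1 / 4 := by
    rw [he]
    exact div_le_div_of_nonneg_right (min_le_right _ _) (by norm_num)
  obtain ⟨d0, hd0, h1⟩ := hP e e0
  obtain ⟨CU, hCU, hU1⟩ := hU e e0
  refine ⟨min d0 e, lt_min hd0 e0, fun d hd hdd => ?_⟩
  have hdd0 : d ≤ d0 := hdd.trans (min_le_left _ _)
  have hde : d ≤ e := hdd.trans (min_le_right _ _)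
  have hd1 : d ≤ 1 := by linarith
  obtain ⟨r1, hr1, h2⟩ := h1 d hd hdd0
  obtain ⟨cL, r2, hcL, hr2, hL1⟩ := hL e d e0 hd hd1
  obtain ⟨cc, hcc⟩ : ∃ cc, cc = cL * c0 ^ (59 / 24 : ℝ) / C0 ^ 2 / (2 * dens) := ⟨_, rfl⟩
  obtain ⟨CC, hCC⟩ : ∃ CC, CC = CU * C0 ^ (59 / 24 : ℝ) / c0 ^ 2 / (2 * dens) := ⟨_, rfl⟩
  refine ⟨cc, CC, min (min (r1 / C0) (r2 / C0)) (min (1 / C0) e), by rw [hcc]; positivity,
    lt_min (lt_min (by positivity) (by positivity)) (lt_min (by positivity) e0), fun φ0 μ ρ hf0 r s hr hrr hs hs1 => ?_⟩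
  have hrr1 : r * C0 ≤ r1 := by
    rw [← le_div_iff₀ hC0]
    exact hrr.trans ((min_le_left _ _).trans (min_le_left _ _))
  have hrr2 : r * C0 ≤ r2 := by
    rw [← le_div_iff₀ hC0]
    exact hrr.trans ((min_le_left _ _).trans (min_le_right _ _))
  have hrr3 : r * C0 ≤ 1 := by
    rw [← le_div_iff₀ hC0]
    exact hrr.trans ((min_le_right _ _).trans (min_le_left _ _))
  have hrr4 : r ≤ e := hrr.trans ((min_le_right _ _).trans (min_le_right _ _))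
  -- a subsequence with a limit of size n / n ^ (3 / 4)
  obtain ⟨κ, ψ, hψ, hκ, hκ0, hκ1⟩ : ∃ (κ : ℝ) (ψ : ℕ → ℕ), StrictMono ψ ∧
      Tendsto (fun i => size (φ0 (ψ i)) / (φ0 (ψ i) : ℝ) ^ (3 / 4 : ℝ)) atTop (𝓝 κ) ∧ c0 ≤ κ ∧ κ ≤ C0 := by
    have hmem : ∀ i, size (φ0 i) / (φ0 i : ℝ) ^ (3 / 4 : ℝ) ∈ Set.Icc 0 C0 := by
      intro i
      refine ⟨div_nonneg (NTSF.size_nonneg _) (by positivity), ?_⟩
      rcases Nat.eq_zero_or_pos (φ0 i) with h | h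
      · rw [h, Nat.cast_zero, Real.zero_rpow (by norm_num), div_zero]
        exact hC0.le
      · have : (0 : ℝ) < (φ0 i : ℝ) := by exact_mod_cast h
        rw [div_le_iff₀ (by positivity)]
        exact (hsz _ h).2
    obtain ⟨κ, hκm, ψ, hψ, hκ⟩ := isCompact_Icc.tendsto_subseq hmem
    refine ⟨κ, ψ, hψ, hκ, ge_of_tendsto hκ ?_, hκm.2⟩
    filter_upwards [(hf0.top.comp hψ.tendsto_atTop).eventually_ge_atTop 1] with i hi
    have : (0 : ℝ) < (φ0 (ψ i) : ℝ) := by exact_mod_cast hi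
    show c0 ≤ size (φ0 (ψ i)) / (φ0 (ψ i) : ℝ) ^ (3 / 4 : ℝ)
    rw [le_div_iff₀ (by positivity)]
    exact (hsz _ hi).1
  have hf := hf0.sub hψ.tendsto_atTop
  obtain ⟨φ, hφd⟩ : ∃ φ, φ = φ0 ∘ ψ := ⟨_, rfl⟩
  rw [← hφd] at hf
  have hκ' : Tendsto (fun i => size (φ i) / (φ i : ℝ) ^ (3 / 4 : ℝ)) atTop (𝓝 κ) := by
    rw [hφd]
    exact hκ
  have hκp : 0 < κ := hc0.trans_le hκ0
  obtain ⟨r', hr'⟩ : ∃ r', r' = r * κ := ⟨_, rfl⟩
  have hr'0 : 0 < r' := by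
    rw [hr']
    positivity
  have hr'C : r' ≤ r * C0 := by
    rw [hr']
    exact mul_le_mul_of_nonneg_left hκ1 hr.le
  have hr'c : r * c0 ≤ r' := by
    rw [hr']
    exact mul_le_mul_of_nonneg_left hκ0 hr.le
  have hRl : Tendsto (fun i => r' * (φ i : ℝ) ^ (3 / 4 : ℝ) / size (φ i)) atTop (𝓝 r) := by
    have h3 := (hκ'.inv₀ hκp.ne').const_mul r'
    have h4 : r' * κ⁻¹ = r := by
      rw [hr']
      field_simp
    rw [h4] at h3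
    refine h3.congr fun i => ?_
    rw [inv_div, mul_div_assoc]
  have hes : e < s := by linarith
  have hes1 : s < 1 - e := by linarith
  have hx1 : (1 + d) * s ≤ 1 := by nlinarith
  have hy1 : (1 + d) * (1 - s) ≤ 1 := by nlinarith
  have hφ := hf.top
  have hφR : Tendsto (fun i => ((φ i : ℕ) : ℝ)) atTop atTop := tendsto_natCast_atTop_atTop.comp hφ
  obtain ⟨n0, h3⟩ := h2 r' hr'0 (hr'C.trans hrr1)
  obtain ⟨n1, hL2⟩ := hL1 r' hr'0 (hr'C.trans hrr2)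
  obtain ⟨n2, hU2⟩ := hU1 r' hr'0 (hr'C.trans hrr3)
  -- notation
  obtain ⟨P, hPd⟩ : ∃ P : (C(unitInterval, ℂ) → ℝ) → ℕ → ℝ, P = PP φ (fun i => ⌊s * φ i⌋₊)
    (fun i => r' * (φ i : ℝ) ^ (3 / 4 : ℝ)) d := ⟨_, rfl⟩
  obtain ⟨X, hX⟩ : ∃ X : (C(unitInterval, ℂ) → ℝ) → ℝ, X = fun F => 2 * dens * rmap μ ρ s d r F := ⟨_, rfl⟩
  have hk : Tendsto (fun i => (⌊s * φ i⌋₊ : ℝ) / φ i) atTop (𝓝 s) :=
    (tendsto_nat_floor_mul_div_atTop (by linarith : (0 : ℝ) ≤ s)).comp hφR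
  have ev3 : ∀ᶠ i in atTop, e < (⌊s * φ i⌋₊ : ℝ) / φ i := hk.eventually (lt_mem_nhds hes)
  have ev4 : ∀ᶠ i in atTop, (⌊s * φ i⌋₊ : ℝ) / φ i < 1 - e := hk.eventually (gt_mem_nhds hes1)
  have ev5 : ∀ᶠ i in atTop, max n0 (max n1 n2) ≤ φ i := hφ.eventually_ge_atTop _
  have ev6 : ∀ᶠ i in atTop, 1 ≤ φ i := hφ.eventually_ge_atTop _
  -- the total mass
  have hX1 : Tendsto (P fun _ => 1) atTop (𝓝 (X fun _ => 1)) := by
    rw [Metric.tendsto_nhds]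
    intro η hη
    have := PP_lim hC hN hG hW hS hE hf e0 hes hes1 hd hd1 hx1 hy1 hr.le hr'0 hRl (F := fun _ => 1)
      (fun _ => ⟨zero_le_one, le_rfl⟩) (L := 0) (LipschitzWith.const 1) zero_le_one (half_pos hη)
    filter_upwards [this] with i hi
    rw [Real.dist_eq, hPd, hX]
    rw [NNReal.coe_zero, zero_mul, zero_mul, zero_add] at hi
    exact hi.trans_lt (half_lt_self hη)
  have hpow : ∀ n : ℕ, 1 ≤ n → (n : ℝ) ^ (7 / 2 : ℝ) = (n : ℝ) ^ 2 * ((n : ℝ) ^ (3 / 4 : ℝ)) ^ 2 := fun n hn => by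
    have nn' : (0 : ℝ) < n := by exact_mod_cast hn
    rw [← Real.rpow_natCast ((n : ℝ) ^ (3 / 4 : ℝ)) 2, ← Real.rpow_mul nn'.le, ← Real.rpow_natCast (n : ℝ) 2, ← Real.rpow_add nn']
    norm_num
  have hlow : cL * c0 ^ (59 / 24 : ℝ) / C0 ^ 2 * r ^ (59 / 24 : ℝ) ≤ X fun _ => 1 := by
    refine ge_of_tendsto hX1 ?_
    filter_upwards [ev3, ev4, ev5, ev6] with i g3 g4 g5 g6
    have sn := size_pos g6
    have nn : (0 : ℝ) < φ i := by exact_mod_cast g6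
    rw [lt_div_iff₀ nn] at g3
    rw [div_lt_iff₀ nn] at g4
    have h4 := hL2 (φ i) ⌊s * φ i⌋₊ ((le_max_left _ _).trans ((le_max_right _ _).trans g5)) g3.le g4.le
    rw [hPd]
    show _ ≤ psum (φ i) ⌊s * φ i⌋₊ d (r' * (φ i : ℝ) ^ (3 / 4 : ℝ)) (fun _ => 1) / ((φ i : ℝ) ^ 2 * size (φ i) ^ 2)
    have hD : 0 < (φ i : ℝ) ^ 2 * size (φ i) ^ 2 := by positivity
    rw [le_div_iff₀ hD]
    refine le_trans ?_ h4
    have h5 : size (φ i) ^ 2 ≤ (C0 * (φ i : ℝ) ^ (3 / 4 : ℝ)) ^ 2 := pow_le_pow_left₀ sn.le (hsz _ g6).2 2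
    have h6 : (r * c0) ^ (59 / 24 : ℝ) ≤ r' ^ (59 / 24 : ℝ) := Real.rpow_le_rpow (by positivity) hr'c (by norm_num)
    rw [Real.mul_rpow hr.le hc0.le] at h6
    calc cL * c0 ^ (59 / 24 : ℝ) / C0 ^ 2 * r ^ (59 / 24 : ℝ) * ((φ i : ℝ) ^ 2 * size (φ i) ^ 2)
        ≤ cL * c0 ^ (59 / 24 : ℝ) / C0 ^ 2 * r ^ (59 / 24 : ℝ) * ((φ i : ℝ) ^ 2 * (C0 * (φ i : ℝ) ^ (3 / 4 : ℝ)) ^ 2) :=
          mul_le_mul_of_nonneg_left (mul_le_mul_of_nonneg_left h5 (by positivity)) (by positivity)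
      _ = cL * (r ^ (59 / 24 : ℝ) * c0 ^ (59 / 24 : ℝ)) * ((φ i : ℝ) ^ 2 * ((φ i : ℝ) ^ (3 / 4 : ℝ)) ^ 2) := by
          field_simp
      _ ≤ cL * r' ^ (59 / 24 : ℝ) * ((φ i : ℝ) ^ 2 * ((φ i : ℝ) ^ (3 / 4 : ℝ)) ^ 2) :=
          mul_le_mul_of_nonneg_right (mul_le_mul_of_nonneg_left h6 hcL.le) (by positivity)
      _ = _ := by rw [hpow _ g6]
  have hupp : (X fun _ => 1) ≤ CU * C0 ^ (59 / 24 : ℝ) / c0 ^ 2 * r ^ (59 / 24 : ℝ) := by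
    refine le_of_tendsto hX1 ?_
    filter_upwards [ev3, ev4, ev5, ev6] with i g3 g4 g5 g6
    have sn := size_pos g6
    have nn : (0 : ℝ) < φ i := by exact_mod_cast g6
    rw [lt_div_iff₀ nn] at g3
    rw [div_lt_iff₀ nn] at g4
    have h4 := hU2 (φ i) ⌊s * φ i⌋₊ d ((le_max_right _ _).trans ((le_max_right _ _).trans g5)) g3.le g4.le hd.le hd1
    rw [hPd]
    show psum (φ i) ⌊s * φ i⌋₊ d (r' * (φ i : ℝ) ^ (3 / 4 : ℝ)) (fun _ => 1) / ((φ i : ℝ) ^ 2 * size (φ i) ^ 2) ≤ _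
    have hD : 0 < (φ i : ℝ) ^ 2 * size (φ i) ^ 2 := by positivity
    rw [div_le_iff₀ hD]
    refine h4.trans ?_
    have h5 : (c0 * (φ i : ℝ) ^ (3 / 4 : ℝ)) ^ 2 ≤ size (φ i) ^ 2 := pow_le_pow_left₀ (by positivity) (hsz _ g6).1 2
    have h6 : r' ^ (59 / 24 : ℝ) ≤ (r * C0) ^ (59 / 24 : ℝ) := Real.rpow_le_rpow hr'0.le hr'C (by norm_num)
    rw [Real.mul_rpow hr.le hC0.le] at h6
    calc CU * r' ^ (59 / 24 : ℝ) * (φ i : ℝ) ^ (7 / 2 : ℝ)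
        = CU * r' ^ (59 / 24 : ℝ) * ((φ i : ℝ) ^ 2 * ((φ i : ℝ) ^ (3 / 4 : ℝ)) ^ 2) := by rw [hpow _ g6]
      _ ≤ CU * (r ^ (59 / 24 : ℝ) * C0 ^ (59 / 24 : ℝ)) * ((φ i : ℝ) ^ 2 * ((φ i : ℝ) ^ (3 / 4 : ℝ)) ^ 2) :=
          mul_le_mul_of_nonneg_right (mul_le_mul_of_nonneg_left h6 hCU.le) (by positivity)
      _ = CU * C0 ^ (59 / 24 : ℝ) / c0 ^ 2 * r ^ (59 / 24 : ℝ) * ((φ i : ℝ) ^ 2 * (c0 * (φ i : ℝ) ^ (3 / 4 : ℝ)) ^ 2) := by
          field_simp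
      _ ≤ _ := mul_le_mul_of_nonneg_left (mul_le_mul_of_nonneg_left h5 (by positivity)) (by positivity)
  have hXp : 0 < X fun _ => 1 := lt_of_lt_of_le (by positivity) hlow
  have hXd : ∀ F, X F = 2 * dens * rmap μ ρ s d r F := fun F => by rw [hX]
  have hd2 : 0 < 2 * dens := by positivity
  refine ⟨?_, ?_, fun F hF0 hF1 => ?_⟩
  · rw [hXd] at hlow
    rw [hcc, div_mul_eq_mul_div, div_le_iff₀ hd2]
    linarith
  · rw [hXd] at hupp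
    rw [hCC, div_mul_eq_mul_div, le_div_iff₀ hd2]
    linarith
  · have e3 : rmap μ ρ s d r F / rmap μ ρ s d r (fun _ => 1) = X F / X fun _ => 1 := by
      rw [hXd, hXd, mul_div_mul_left _ _ hd2.ne']
    rw [e3]
    -- the pieces
    have hcF : Tendsto (fun i => ∫ γ, F γ ∂(law (φ i))) atTop (𝓝 (∫ γ, F γ ∂(μ 1))) := by
      have h4 := hf.law 1 one_pos le_rfl (bcf F hF1.continuous 1 fun γ => by
        rw [abs_of_nonneg (hF0 γ).1]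
        exact (hF0 γ).2)
      simp only [bcf_apply] at h4
      refine h4.congr fun i => ?_
      rw [one_mul, Nat.floor_natCast]
    have hei : Tendsto (fun i => (r' * (φ i : ℝ) ^ (3 / 4 : ℝ) + 1) / size (φ i)) atTop (𝓝 r) := by
      have h4 := hRl.add ((size_top hφ).const_div_atTop 1)
      rw [add_zero] at h4
      refine h4.congr fun i => ?_
      rw [add_div]
    have main : ∀ η : ℝ, 0 < η → |X F / (X fun _ => 1) - ∫ γ, F γ ∂(μ 1)| ≤ e + r + η / (X fun _ => 1) := by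
      intro η hη
      have t1 : Tendsto (fun i => |X F / P (fun _ => 1) i - ∫ γ, F γ ∂(law (φ i))|) atTop
          (𝓝 |X F / (X fun _ => 1) - ∫ γ, F γ ∂(μ 1)|) :=
        ((tendsto_const_nhds.div hX1 hXp.ne').sub hcF).abs
      have t2 : Tendsto (fun i => e + (r' * (φ i : ℝ) ^ (3 / 4 : ℝ) + 1) / size (φ i) + η / P (fun _ => 1) i) atTop
          (𝓝 (e + r + η / X fun _ => 1)) :=
        (tendsto_const_nhds.add hei).add (tendsto_const_nhds.div hX1 hXp.ne')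
      refine le_of_tendsto_of_tendsto t1 t2 ?_
      have ev7 := PP_lim hC hN hG hW hS hE hf e0 hes hes1 hd hd1 hx1 hy1 hr.le hr'0 hRl hF0 hF1 le_rfl hη
      have ev8 : ∀ᶠ i in atTop, 0 < P (fun _ => 1) i := hX1.eventually (lt_mem_nhds hXp)
      filter_upwards [ev3, ev4, ev5, ev6, ev7, ev8] with i g3 g4 g5 g6 g7 g8
      have sn := size_pos g6
      have nn : (0 : ℝ) < φ i := by exact_mod_cast g6
      rw [lt_div_iff₀ nn] at g3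
      rw [div_lt_iff₀ nn] at g4
      have h4 := (h3 (φ i) ⌊s * φ i⌋₊ ((le_max_left _ _).trans g5) g3.le g4.le).2 F hF0 hF1
      have hD : 0 < (φ i : ℝ) ^ 2 * size (φ i) ^ 2 := by positivity
      have h5 : psum (φ i) ⌊s * φ i⌋₊ d (r' * (φ i : ℝ) ^ (3 / 4 : ℝ)) F /
          psum (φ i) ⌊s * φ i⌋₊ d (r' * (φ i : ℝ) ^ (3 / 4 : ℝ)) (fun _ => 1) = P F i / P (fun _ => 1) i := by
        rw [hPd]
        show _ = psum (φ i) ⌊s * φ i⌋₊ d (r' * (φ i : ℝ) ^ (3 / 4 : ℝ)) F / ((φ i : ℝ) ^ 2 * size (φ i) ^ 2) /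
          (psum (φ i) ⌊s * φ i⌋₊ d (r' * (φ i : ℝ) ^ (3 / 4 : ℝ)) (fun _ => 1) / ((φ i : ℝ) ^ 2 * size (φ i) ^ 2))
        rw [div_div_div_cancel_right₀ hD.ne']
      rw [h5] at h4
      have h6 : |P F i - X F| ≤ (r' * (φ i : ℝ) ^ (3 / 4 : ℝ) + 1) / size (φ i) * P (fun _ => 1) i + η := by
        rw [hPd, hXd]
        rw [NNReal.coe_one, one_mul] at g7
        exact g7
      have h7 : X F / P (fun _ => 1) i - ∫ γ, F γ ∂(law (φ i)) = (P F i / P (fun _ => 1) i - ∫ γ, F γ ∂(law (φ i))) -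
          (P F i - X F) / P (fun _ => 1) i := by
        field_simp
        ring
      have h8 : |(P F i - X F) / P (fun _ => 1) i| ≤ (r' * (φ i : ℝ) ^ (3 / 4 : ℝ) + 1) / size (φ i) + η / P (fun _ => 1) i := by
        rw [abs_div, abs_of_pos g8, div_le_iff₀ g8, add_mul, div_mul_cancel₀ _ g8.ne']
        exact h6
      show |X F / P (fun _ => 1) i - ∫ γ, F γ ∂(law (φ i))| ≤ _
      rw [h7]
      refine (abs_sub _ _).trans ?_
      linarith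
    have m1 := main (e * X fun _ => 1) (mul_pos e0 hXp)
    rw [mul_div_assoc, div_self hXp.ne', mul_one] at m1
    linarith

end Pool.Agent.RMP
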