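import Pool.Agent.RMP.LimRows

/-!
# The renormalisation map in the scaling limit, row GI (helper44): the smooth area of the gaps

* `mind_lip` : the distance of the placed curves is a Lipschitz function of the curves and of the place;
* **`gi : GI`**.
-/

set_option autoImplicit false

open MeasureTheory Filter Topology
open scoped Classical

namespace Pool.Agent.RMP

open Pool.Agent.NTS.Res

namespace Gi

/-! ### the cut-off -/

lemma sm_nonneg (δ x : ℝ) : 0 ≤ sm δ x := le_max_left _ _

lemma sm_le (δ x : ℝ) : sm δ x ≤ 1 := max_le zero_le_one (min_le_left _ _)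

lemma sm_zero {δ x : ℝ} (hδ : 0 < δ) (h : x ≤ δ) : sm δ x = 0 := by
  unfold sm
  refine max_eq_left ((min_le_right _ _).trans ?_)
  rw [sub_nonpos, div_le_one hδ]
  exact h

lemma sm_one {δ x : ℝ} (hδ : 0 < δ) (h : 2 * δ ≤ x) : sm δ x = 1 := by
  unfold sm
  have h1 : 1 ≤ x / δ - 1 := by
    rw [le_sub_iff_add_le, le_div_iff₀ hδ]
    linarith
  rw [min_eq_left h1, max_eq_right zero_le_one]

lemma sm_cont (δ : ℝ) : Continuous (sm δ) := by
  unfold sm
  fun_prop

/-! ### the distance -/

/-- the difference of two places -/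
noncomputable def df (α β : ℝ) (a b : C(unitInterval, ℂ)) (z : ℂ) (p : unitInterval × unitInterval) : ℂ :=
  (α : ℂ) * (a p.1 - a 1) - (z + (β : ℂ) * (b p.2 - b 1))

lemma mind_eq (α β : ℝ) (a b : C(unitInterval, ℂ)) (z : ℂ) : mind α β a b z = ⨅ p, ‖df α β a b z p‖ := rfl

lemma df_cont (α β : ℝ) (a b : C(unitInterval, ℂ)) (z : ℂ) : Continuous (df α β a b z) := by
  unfold df
  fun_prop

lemma mind_le (α β : ℝ) (a b : C(unitInterval, ℂ)) (z : ℂ) (p : unitInterval × unitInterval) :
    mind α β a b z ≤ ‖df α β a b z p‖ := by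
  rw [mind_eq]
  exact ciInf_le ⟨0, by rintro _ ⟨q, rfl⟩; exact norm_nonneg _⟩ p

lemma mind_att (α β : ℝ) (a b : C(unitInterval, ℂ)) (z : ℂ) : ∃ p, mind α β a b z = ‖df α β a b z p‖ := by
  obtain ⟨p, -, hp⟩ := isCompact_univ.exists_isMinOn (Set.univ_nonempty) ((df_cont α β a b z).norm.continuousOn)
  refine ⟨p, le_antisymm (mind_le α β a b z p) ?_⟩
  rw [mind_eq]
  exact le_ciInf fun q => hp (Set.mem_univ q)

lemma mind_nonneg (α β : ℝ) (a b : C(unitInterval, ℂ)) (z : ℂ) : 0 ≤ mind α β a b z := by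
  obtain ⟨p, hp⟩ := mind_att α β a b z
  rw [hp]
  exact norm_nonneg _

lemma mind_add (α β : ℝ) (a b a' b' : C(unitInterval, ℂ)) (z z' : ℂ) :
    mind α β a b z ≤ mind α β a' b' z' + (2 * |α| * dist a a' + 2 * |β| * dist b b' + dist z z') := by
  obtain ⟨p, hp⟩ := mind_att α β a' b' z'
  refine (mind_le α β a b z p).trans ?_
  rw [hp]
  have e : df α β a b z p = df α β a' b' z' p + ((α : ℂ) * ((a p.1 - a' p.1) - (a 1 - a' 1)) -
      ((z - z') + (β : ℂ) * ((b p.2 - b' p.2) - (b 1 - b' 1)))) := by
    unfold df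
    ring
  rw [e]
  refine (norm_add_le _ _).trans (add_le_add le_rfl ?_)
  have h1 : ∀ (c c' : C(unitInterval, ℂ)) (x : unitInterval), ‖c x - c' x‖ ≤ dist c c' := by
    intro c c' x
    rw [← dist_eq_norm]
    exact ContinuousMap.dist_apply_le_dist x
  have h2 : ∀ (u : ℝ) (c c' : C(unitInterval, ℂ)) (x : unitInterval), ‖(u : ℂ) * ((c x - c' x) - (c 1 - c' 1))‖ ≤
      2 * |u| * dist c c' := by
    intro u c c' x
    rw [norm_mul, Complex.norm_real, Real.norm_eq_abs]
    have h3 : ‖(c x - c' x) - (c 1 - c' 1)‖ ≤ 2 * dist c c' := by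
      refine (norm_sub_le _ _).trans ?_
      linarith [h1 c c' x, h1 c c' 1]
    calc |u| * ‖(c x - c' x) - (c 1 - c' 1)‖ ≤ |u| * (2 * dist c c') := mul_le_mul_of_nonneg_left h3 (abs_nonneg _)
      _ = _ := by ring
  refine (norm_sub_le _ _).trans ?_
  have h4 := h2 α a a' p.1
  have h5 := h2 β b b' p.2
  have h6 := norm_add_le (z - z') ((β : ℂ) * ((b p.2 - b' p.2) - (b 1 - b' 1)))
  rw [dist_eq_norm z z']
  linarith

lemma cont_of {X : Type*} [PseudoMetricSpace X] {f : X → ℝ} {K : ℝ} (h : ∀ x y, f x ≤ f y + K * dist x y) :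
    Continuous f := by
  rw [continuous_iff_continuousAt]
  intro x
  have h1 : Tendsto (fun y : X => K * dist y x) (𝓝 x) (𝓝 0) := by
    have h2 : Continuous fun y : X => K * dist y x := by fun_prop
    have h3 := h2.tendsto x
    simpa using h3
  refine tendsto_iff_dist_tendsto_zero.2 (squeeze_zero (fun _ => dist_nonneg) (fun y => ?_) h1)
  rw [Real.dist_eq, abs_le]
  have h2 := h y x
  have h3 := h x y
  rw [dist_comm x y] at h3
  constructor <;> linarith

lemma mind_cont_z (α β : ℝ) (a b : C(unitInterval, ℂ)) : Continuous fun z : ℂ => mind α β a b z := by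
  refine cont_of (K := 1) fun z z' => ?_
  have h := mind_add α β a b a b z z'
  rw [dist_self, dist_self] at h
  linarith

lemma mind_cont_ab (α β : ℝ) (z : ℂ) : Continuous fun p : C(unitInterval, ℂ) × C(unitInterval, ℂ) => mind α β p.1 p.2 z := by
  refine cont_of (K := 2 * |α| + 2 * |β|) fun p p' => ?_
  have h := mind_add α β p.1 p.2 p'.1 p'.2 z z
  rw [dist_self] at h
  have h1 : dist p.1 p'.1 ≤ dist p p' := le_max_left _ _
  have h2 : dist p.2 p'.2 ≤ dist p p' := le_max_right _ _
  have h3 : 2 * |α| * dist p.1 p'.1 ≤ 2 * |α| * dist p p' := mul_le_mul_of_nonneg_left h1 (by positivity)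
  have h4 : 2 * |β| * dist p.2 p'.2 ≤ 2 * |β| * dist p p' := mul_le_mul_of_nonneg_left h2 (by positivity)
  show mind α β p.1 p.2 z ≤ mind α β p'.1 p'.2 z + (2 * |α| + 2 * |β|) * dist p p'
  linarith

/-- the gaps are the places with a positive distance -/
lemma gaps_eq (r α β : ℝ) (a b : C(unitInterval, ℂ)) :
    gaps r α β a b = Metric.closedBall (0 : ℂ) r ∩ {z | 0 < mind α β a b z} := by
  ext z
  constructor
  · rintro ⟨h1, h2⟩
    refine ⟨by rw [mem_closedBall_zero_iff]; exact h1, ?_⟩
    obtain ⟨p, hp⟩ := mind_att α β a b z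
    show 0 < mind α β a b z
    rw [hp, norm_pos_iff]
    unfold df
    rw [sub_ne_zero]
    exact h2 p.1 p.2
  · rintro ⟨h1, h2⟩
    refine ⟨by rwa [mem_closedBall_zero_iff] at h1, fun u v h => ?_⟩
    have h3 : 0 < mind α β a b z := h2
    have h4 := mind_le α β a b z (u, v)
    have h5 : df α β a b z (u, v) = 0 := by
      unfold df
      exact sub_eq_zero.2 h
    rw [h5, norm_zero] at h4
    linarith

lemma gaps_meas (r α β : ℝ) (a b : C(unitInterval, ℂ)) : MeasurableSet (gaps r α β a b) := by
  rw [gaps_eq]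
  exact Metric.isClosed_closedBall.measurableSet.inter
    (isOpen_lt continuous_const (mind_cont_z α β a b)).measurableSet

lemma gaps_sub (r α β : ℝ) (a b : C(unitInterval, ℂ)) : gaps r α β a b ⊆ Metric.closedBall (0 : ℂ) r := by
  rw [gaps_eq]
  exact Set.inter_subset_left

lemma ball_top (r : ℝ) : volume (Metric.closedBall (0 : ℂ) r) ≠ ⊤ := measure_closedBall_lt_top.ne

lemma ball_real {r : ℝ} (hr : 0 ≤ r) : (volume (Metric.closedBall (0 : ℂ) r)).toReal = Real.pi * r ^ 2 := by
  rw [Complex.volume_closedBall, ENNReal.toReal_mul, ENNReal.toReal_pow, ENNReal.toReal_ofReal hr, mul_comm]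
  rfl

lemma vol_int (r α β : ℝ) (a b : C(unitInterval, ℂ)) : (volume (gaps r α β a b)).toReal =
    ∫ z in Metric.closedBall (0 : ℂ) r, Set.indicator {z | 0 < mind α β a b z} (fun _ => (1 : ℝ)) z := by
  have h1 : MeasurableSet {z | 0 < mind α β a b z} := (isOpen_lt continuous_const (mind_cont_z α β a b)).measurableSet
  rw [integral_indicator h1, Measure.restrict_restrict h1, setIntegral_const, smul_eq_mul, mul_one, gaps_eq, Set.inter_comm]
  rfl

lemma sm_int (δ r α β : ℝ) (a b : C(unitInterval, ℂ)) :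
    IntegrableOn (fun z => sm δ (mind α β a b z)) (Metric.closedBall (0 : ℂ) r) :=
  (((sm_cont δ).comp (mind_cont_z α β a b)).continuousOn).integrableOn_compact (isCompact_closedBall _ _)

lemma ind_int (r α β : ℝ) (a b : C(unitInterval, ℂ)) :
    IntegrableOn (Set.indicator {z | 0 < mind α β a b z} (fun _ => (1 : ℝ))) (Metric.closedBall (0 : ℂ) r) := by
  have h1 : MeasurableSet {z | 0 < mind α β a b z} := (isOpen_lt continuous_const (mind_cont_z α β a b)).measurableSet
  have h2 : IntegrableOn (fun _ : ℂ => (1 : ℝ)) (Metric.closedBall (0 : ℂ) r) := integrableOn_const (ball_top r)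
  exact h2.indicator h1

lemma sm_le_ind {δ : ℝ} (hδ : 0 < δ) (x : ℝ) {S : Set ℂ} (z : ℂ) (h : z ∈ S ↔ 0 < x) :
    sm δ x ≤ Set.indicator S (fun _ => (1 : ℝ)) z := by
  by_cases hz : z ∈ S
  · rw [Set.indicator_of_mem hz]
    exact sm_le δ x
  · rw [Set.indicator_of_notMem hz]
    exact (sm_zero hδ ((not_lt.1 fun h1 => hz (h.2 h1)).trans hδ.le)).le

/-- the limit -/
lemma lim_g (r α β : ℝ) (a b : C(unitInterval, ℂ)) : Tendsto (fun j : ℕ => gint (1 / (j + 1)) r α β a b) atTop
    (𝓝 (volume (gaps r α β a b)).toReal) := by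
  rw [vol_int]
  refine tendsto_integral_of_dominated_convergence (fun _ => (1 : ℝ))
    (fun j => (((sm_cont _).comp (mind_cont_z α β a b)).aestronglyMeasurable)) ?_ (fun j => ?_) ?_
  · exact integrableOn_const (ball_top r)
  · refine Eventually.of_forall fun z => ?_
    rw [Real.norm_of_nonneg (sm_nonneg _ _)]
    exact sm_le _ _
  · refine Eventually.of_forall fun z => ?_
    by_cases hz : 0 < mind α β a b z
    · rw [Set.indicator_of_mem (show z ∈ {z | 0 < mind α β a b z} from hz)]
      refine tendsto_const_nhds.congr' ?_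
      obtain ⟨N, hN⟩ := exists_nat_one_div_lt (show (0 : ℝ) < mind α β a b z / 2 by positivity)
      filter_upwards [eventually_ge_atTop N] with j hj
      refine (sm_one (by positivity) ?_).symm
      have h1 : (1 : ℝ) / (j + 1) ≤ 1 / (N + 1) := by
        have : (N : ℝ) ≤ j := by exact_mod_cast hj
        exact one_div_le_one_div_of_le (by positivity) (by linarith)
      linarith
    · rw [Set.indicator_of_notMem (show z ∉ {z | 0 < mind α β a b z} from hz)]
      refine tendsto_const_nhds.congr' (Eventually.of_forall fun j => ?_)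
      exact (sm_zero (by positivity) ((not_lt.1 hz).trans (by positivity))).symm

/-- the smooth area is continuous -/
lemma cont_g (δ r α β : ℝ) : Continuous fun p : C(unitInterval, ℂ) × C(unitInterval, ℂ) => gint δ r α β p.1 p.2 := by
  refine continuous_of_dominated (bound := fun _ => (1 : ℝ))
    (fun p => (((sm_cont _).comp (mind_cont_z α β p.1 p.2)).aestronglyMeasurable)) (fun p => ?_) ?_ ?_
  · refine Eventually.of_forall fun z => ?_
    rw [Real.norm_of_nonneg (sm_nonneg _ _)]
    exact sm_le _ _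
  · exact integrableOn_const (ball_top r)
  · exact Eventually.of_forall fun z => (sm_cont δ).comp (mind_cont_ab α β z)

end Gi

open Gi

/-- **row GI** -/
theorem gi : GI := by
  refine ⟨fun δ r α β a b hδ hr => ⟨?_, ?_, ?_⟩, fun r α β a b hr => ?_, fun δ r α β hδ hr => ?_, fun r α β => ?_,
    fun δ r α β a b => ?_⟩
  · exact integral_nonneg fun z => sm_nonneg _ _
  · rw [vol_int]
    exact integral_mono (sm_int δ r α β a b) (ind_int r α β a b) fun z => sm_le_ind hδ _ z Iff.rfl
  · rw [← ball_real hr]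
    exact ENNReal.toReal_mono (ball_top r) (measure_mono (gaps_sub r α β a b))
  · exact lim_g r α β a b
  · exact cont_g δ r α β
  · by_cases hr : 0 ≤ r
    · refine measurable_of_tendsto_metrizable (f := fun (j : ℕ) (p : C(unitInterval, ℂ) × C(unitInterval, ℂ)) =>
        gint (1 / (j + 1)) r α β p.1 p.2) (fun j => ?_) ?_
      · exact (cont_g (1 / ((j : ℝ) + 1)) r α β).measurable
      · rw [tendsto_pi_nhds]
        intro p
        exact lim_g r α β p.1 p.2
    · have h1 : (fun p : C(unitInterval, ℂ) × C(unitInterval, ℂ) => (volume (gaps r α β p.1 p.2)).toReal) = fun _ => 0 := by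
        funext p
        have h2 : gaps r α β p.1 p.2 = ∅ := by
          rw [gaps_eq, Metric.closedBall_eq_empty.2 (not_le.1 hr), Set.empty_inter]
        rw [h2, measure_empty]
        rfl
      rw [h1]
      exact measurable_const
  · have h1 : ∀ z, mind α β a (-b) z = mind α (-β) a b z := by
      intro z
      unfold mind
      congr 1
      funext p
      congr 1
      push_cast
      simp only [ContinuousMap.neg_apply]
      ring
    unfold gint
    simp only [h1]

end Pool.Agent.RMP
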