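import Pool.Agent.RMP.Defs
import Pool.Agent.MC.Slow

/-!
# RMP, the kernel for pairs: literal of the finite form (row KA; helper83, version 3 after helper37)

`PR n k d S` = the pairs with the lengths in `[k, (1 + d) k]`, `[n - k, (1 + d) (n - k)]` and the difference of the tips in `S`.
`gE t` = the frame at the end of the word `t`, backwards. `Lnk`: the pair and the joined word `A ++ (Q ++ (rev B ++ [x]))`: the
placed word `B` has the vertex number `s` of `B` at the place of the vertex number `|H| - s` of `H`.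
-/

set_option autoImplicit false

namespace HexObs

namespace RMP

open Finset TS SDN HexObs.SIM NTA TIP ARM TIW MCP

open scoped ENNReal Classical

/-- the pairs of the theorem -/
def PR (n k : ℕ) (d : ℝ) (S : Set Pt) : Set PT :=
  {T | T.1 ∈ SA ∧ T.2.2 ∈ SA ∧ Fr T.2.1 ∧ Av (ob T.2.1 T.2.2) T.1 ∧ TIW.en T.1 - pe T.2.1 T.2.2 ∈ S ∧
    k ≤ T.1.length ∧ (T.1.length : ℝ) ≤ (1 + d) * k ∧ n ≤ T.2.2.length + k ∧
    (T.2.2.length : ℝ) ≤ (1 + d) * (n - k)}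

/-- the mean of a function over a set of pairs, not normalised -/
noncomputable def gpF (Φ : PT → ℝ) (S : Set PT) : ℝ≥0∞ :=
  ∑' T : S, wE (T : PT).1 * wE (T : PT).2.2 * ENNReal.ofReal (Φ T)

/-- the frame at the end of a word: its last vertex, and the rotation to the direction of the last step, backwards -/
def gE (t : List Bool) : Pt × Pt := (TIW.en t, rotTo up (-(dx up t (t.length - 1))))

/-- the word cut at the vertex number `k`: the first word has the vertices `0, ..., k`, the second one `n, ..., k + 1` -/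
def cutH (k : ℕ) (t : List Bool) : PT := (t.take k, (gE t, rev ((t.drop k).dropLast)))

/-- **the pair `T` and the joined word `H`**: the pair without two short ends at the gap, joined by a short word `Q` -/
def Lnk (ρ : ℝ) (n : ℕ) (T : PT) (H : List Bool) : Prop :=
  ∃ (A Y1 : List Bool) (g : Pt × Pt) (B Y2 Q : List Bool) (x : Bool), T = (A ++ Y1, (g, B ++ Y2)) ∧
    H = A ++ (Q ++ (rev B ++ [x])) ∧ g = gE H ∧ ((Y1.length + Y2.length + Q.length : ℕ) : ℝ) ≤ ρ * n ∧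
    (∀ i, i ≤ Y1.length → (TIW.hn (vx oo up Y1 i) : ℝ) < ρ * (n : ℝ) ^ (3 / 4 : ℝ)) ∧
    (∀ i, i ≤ Y2.length → (TIW.hn (vx oo up Y2 i) : ℝ) < ρ * (n : ℝ) ^ (3 / 4 : ℝ)) ∧
    ∀ i, i ≤ Q.length → (TIW.hn (vx oo up Q i) : ℝ) < ρ * (n : ℝ) ^ (3 / 4 : ℝ)

/-- **the finite form of the renormalisation map in words**: `u` = weights of the numbers of letters of the joined word -/
def RMW : Prop := ∀ ε d : ℝ, 0 < ε → 0 < d → d ≤ 1 → ∃ τ : ℝ, 0 < τ ∧ ∀ ρ : ℝ, 0 < ρ → ∃ r0 : ℝ, 0 < r0 ∧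
  ∀ r : ℝ, 0 < r → r ≤ r0 → ∃ n0 : ℕ, ∀ n k : ℕ, n0 ≤ n → ε * n ≤ k → (k : ℝ) ≤ (1 - ε) * n →
    ∀ S : Set Pt, (∀ p : Pt, (TIW.hn p : ℝ) ≤ r * (n : ℝ) ^ (3 / 4 : ℝ) → p ∈ S) →
      (∀ p ∈ S, (TIW.hn p : ℝ) ≤ 4 * r * (n : ℝ) ^ (3 / 4 : ℝ)) → (∀ v p : Pt, nrm v = 1 → p ∈ S → mulE v p ∈ S) →
        gp (PR n k d S) ≠ 0 ∧ gp (PR n k d S) ≠ ∞ ∧
        ∃ u : ℕ → ℝ, (∀ i, 0 ≤ u i) ∧ (∀ i, u i ≠ 0 → (1 - d) * n ≤ i ∧ (i : ℝ) ≤ (1 + 2 * d) * n) ∧
          ∑ i ∈ range (4 * n), u i = 1 ∧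
          ∀ (Φ : PT → ℝ) (G : List Bool → ℝ) (Bd : Set (List Bool)), (∀ T, 0 ≤ Φ T) → (∀ T, Φ T ≤ 1) → (∀ t, 0 ≤ G t) →
            (∀ t, G t ≤ 1) →
            (∀ i : ℕ, (1 - d) * n ≤ i → (i : ℝ) ≤ (1 + 2 * d) * n → Eu i (fun t => if t ∈ Bd then 1 else 0) ≤ τ) →
            (∀ T H, T ∈ PR n k d S → H ∈ SA → Lnk ρ n T H → H ∉ Bd → |Φ T - G H| ≤ ε / 16) →
              |(gpF Φ (PR n k d S)).toReal - (gp (PR n k d S)).toReal * ∑ i ∈ range (4 * n), u i * Eu i G| ≤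
                ε * (gp (PR n k d S)).toReal

end RMP

end HexObs
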