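import Pool.Agent.RMP.SepP
import Pool.Agent.RMP.DefsK

/-!
# RMP, rows h1 / h2 for pairs (helper15): the pairs of PR which are not good

* `Ctx t0 r n k j S` : the situation of `RMW` with the level j of the gap;
* `P9R` : lower bound of the mass of PR (row P9), `P11R` : the pairs of PR which are not in a large ball (row P11);
* **`sepR`** : gp (PR n k d S \ GP R j ..) ≤ ε gp (PR n k d S), R = Λ ⌈n ^ (3 / 4)⌉.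
-/

set_option autoImplicit false

namespace HexObs

namespace RMP

open Finset TS SDN NTA TIP ARM

open scoped ENNReal

/-- the situation of the theorem: the share t0, the gap r n ^ (3 / 4), the level j -/
structure Ctx (t0 r : ℝ) (n k j : ℕ) (S : Set Pt) : Prop where
  k1 : t0 * n ≤ k
  k2 : (k : ℝ) ≤ (1 - t0) * n
  s1 : ∀ p : Pt, (TIW.hn p : ℝ) ≤ r * (n : ℝ) ^ (3 / 4 : ℝ) → p ∈ S
  s2 : ∀ p ∈ S, (TIW.hn p : ℝ) ≤ 4 * r * (n : ℝ) ^ (3 / 4 : ℝ)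
  s3 : ∀ v p : Pt, nrm v = 1 → p ∈ S → mulE v p ∈ S
  j1 : 4 * r * (n : ℝ) ^ (3 / 4 : ℝ) ≤ 2 ^ j
  j2 : (2 : ℝ) ^ j ≤ 8 * r * (n : ℝ) ^ (3 / 4 : ℝ)

/-- the size of the whole walk -/
noncomputable def nZ (n : ℕ) : ℕ := ⌈(n : ℝ) ^ (3 / 4 : ℝ)⌉₊

/-- **row P9** -/
def P9R : Prop := ∀ t0 d : ℝ, 0 < t0 → 0 < d → ∃ c r0 : ℝ, 0 < c ∧ 0 < r0 ∧ ∀ r : ℝ, 0 < r → r ≤ r0 →
  ∃ n0 : ℕ, ∀ (n k j : ℕ) (S : Set Pt), n0 ≤ n → Ctx t0 r n k j S →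
    ENNReal.ofReal (c * pr3 (nZ n) j) ≤ gp (PR n k d S)

/-- **row P11** -/
def P11R : Prop := ∀ ε t0 d : ℝ, 0 < ε → 0 < t0 → 0 < d → ∃ (Λ : ℕ) (r0 : ℝ), 1 ≤ Λ ∧ 0 < r0 ∧ ∀ r : ℝ, 0 < r → r ≤ r0 →
  ∃ n0 : ℕ, ∀ (n k j : ℕ) (S : Set Pt), n0 ≤ n → Ctx t0 r n k j S →
    gp (PR n k d S \ P3 (Λ * nZ n) j) ≤ ENNReal.ofReal (ε * pr3 (nZ n) j)

/-- **the pairs which are not good** -/
def SepR : Prop := ∀ ε t0 d : ℝ, 0 < ε → 0 < t0 → 0 < d → ∃ (η κ : ℝ) (a m : ℕ), 0 < η ∧ 0 < κ ∧ ∀ k1 c0 : ℕ,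
  ∃ (c u e Λ : ℕ) (r0 : ℝ), c0 ≤ c ∧ m + 5 ≤ c ∧ c ≤ u ∧ k1 ≤ e ∧ 1 ≤ Λ ∧ 0 < r0 ∧ ∀ r : ℝ, 0 < r → r ≤ r0 →
    ∀ b : ℕ, ∃ n0 : ℕ, ∀ (n k j : ℕ) (S : Set Pt), n0 ≤ n → Ctx t0 r n k j S →
      b ≤ j ∧ gp (PR n k d S \ GP (Λ * nZ n) j η κ a m c u e k1) ≤ ENNReal.ofReal ε * gp (PR n k d S)

lemma nZ_ge (n : ℕ) : (n : ℝ) ^ (3 / 4 : ℝ) ≤ nZ n := Nat.le_ceil _

/-- the number pr3 for a larger ball -/
lemma pr3_mul {Λ : ℕ} (h : 1 ≤ Λ) (R j : ℕ) : pr3 (Λ * R) j ≤ (Λ : ℝ) ^ (25 / 8 : ℝ) * pr3 R j := by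
  unfold pr3
  have hΛ : (1 : ℝ) ≤ Λ := by exact_mod_cast h
  have hm : (0 : ℝ) < max (R : ℝ) (2 ^ j) := lt_max_of_lt_right (by positivity)
  have h1 : max (((Λ * R : ℕ) : ℝ)) (2 ^ j) ≤ Λ * max (R : ℝ) (2 ^ j) := by
    refine max_le ?_ ?_
    · push_cast
      exact mul_le_mul_of_nonneg_left (le_max_left _ _) (by linarith)
    · exact (le_max_right (R : ℝ) _).trans (le_mul_of_one_le_left hm.le hΛ)
  have h2 : (max (((Λ * R : ℕ) : ℝ)) (2 ^ j)) ^ (25 / 8 : ℝ) ≤ (Λ : ℝ) ^ (25 / 8 : ℝ) * (max (R : ℝ) (2 ^ j)) ^ (25 / 8 : ℝ) := by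
    rw [← Real.mul_rpow (by linarith) hm.le]
    exact Real.rpow_le_rpow (le_max_of_le_right (by positivity)) h1 (by norm_num)
  calc (2 : ℝ) ^ ((59 / 24 : ℝ) * (j : ℝ)) * (max (((Λ * R : ℕ) : ℝ)) (2 ^ j)) ^ (25 / 8 : ℝ)
      ≤ (2 : ℝ) ^ ((59 / 24 : ℝ) * (j : ℝ)) * ((Λ : ℝ) ^ (25 / 8 : ℝ) * (max (R : ℝ) (2 ^ j)) ^ (25 / 8 : ℝ)) :=
        mul_le_mul_of_nonneg_left h2 (by positivity)
    _ = _ := by ring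

/-- the level of the gap is large -/
lemma Ctx.big {r : ℝ} (hr : 0 < r) (b : ℕ) : ∃ n0 : ℕ, ∀ (t0 : ℝ) (n k j : ℕ) (S : Set Pt), n0 ≤ n → Ctx t0 r n k j S → b ≤ j := by
  have h1 : Filter.Tendsto (fun n : ℕ => 4 * r * (n : ℝ) ^ (3 / 4 : ℝ)) Filter.atTop Filter.atTop :=
    Filter.Tendsto.const_mul_atTop (by positivity) ((tendsto_rpow_atTop (by norm_num)).comp tendsto_natCast_atTop_atTop)
  obtain ⟨n0, h2⟩ := Filter.eventually_atTop.1 (h1.eventually_gt_atTop ((2 : ℝ) ^ b))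
  refine ⟨n0, fun t0 n k j S hn hC => ?_⟩
  have h3 : (2 : ℝ) ^ b < 2 ^ j := (h2 n hn).trans_le hC.j1
  exact (Nat.pow_lt_pow_iff_right (by norm_num : 1 < 2)).1 (by exact_mod_cast h3) |>.le

/-- **rows h1 / h2: the pairs of PR which are not good** -/
theorem sepR_of (hS : SepP) (h9 : P9R) (h11 : P11R) : SepR := by
  intro ε t0 d hε ht hd
  obtain ⟨c9, r9, hc9, hr9, h9⟩ := h9 t0 d ht hd
  obtain ⟨Λ, r11, hΛ, hr11, h11⟩ := h11 (ε * c9 / 2) t0 d (by positivity) ht hd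
  have hΛ0 : (0 : ℝ) < Λ := by exact_mod_cast hΛ
  obtain ⟨η, κ, a, m, hη, hκ, hS⟩ := hS (ε * c9 / 2 / (Λ : ℝ) ^ (25 / 8 : ℝ)) (by positivity)
  refine ⟨η, κ, a, m, hη, hκ, fun k1 c0 => ?_⟩
  obtain ⟨c, u, e, b0, h1, h2, h3, h4, -, -, hS⟩ := hS k1 c0
  obtain ⟨r0, hr0⟩ : ∃ r0 : ℝ, r0 = min (min r9 r11) (1 / (8 * 2 ^ b0)) := ⟨_, rfl⟩
  have hr0p : 0 < r0 := by rw [hr0]; positivity
  refine ⟨c, u, e, Λ, r0, h1, h2, h3, h4, hΛ, hr0p, fun r hr hrr b => ?_⟩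
  have q1 : r ≤ r9 := hrr.trans (hr0 ▸ (min_le_left _ _).trans (min_le_left _ _))
  have q2 : r ≤ r11 := hrr.trans (hr0 ▸ (min_le_left _ _).trans (min_le_right _ _))
  have q3 : r ≤ 1 / (8 * 2 ^ b0) := hrr.trans (hr0 ▸ min_le_right _ _)
  obtain ⟨n9, h9⟩ := h9 r hr q1
  obtain ⟨n11, h11⟩ := h11 r hr q2
  obtain ⟨nb, hb⟩ := Ctx.big hr (b0 + b)
  refine ⟨n9 + n11 + nb, fun n k j S hn hC => ?_⟩
  have hj : b0 + b ≤ j := hb t0 n k j S (by omega) hC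
  refine ⟨by omega, ?_⟩
  have h9 := h9 n k j S (by omega) hC
  have h11 := h11 n k j S (by omega) hC
  have hR : 2 ^ (b0 + j) ≤ Λ * nZ n := by
    have g1 : (2 : ℝ) ^ (b0 + j) ≤ (Λ : ℝ) * nZ n := by
      have g2 : (2 : ℝ) ^ j ≤ 8 * r * (n : ℝ) ^ (3 / 4 : ℝ) := hC.j2
      have g3 : (0 : ℝ) ≤ (n : ℝ) ^ (3 / 4 : ℝ) := by positivity
      have g4 : (2 : ℝ) ^ b0 * (8 * r) ≤ 1 := by
        rw [le_div_iff₀ (by positivity)] at q3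
        linarith
      calc (2 : ℝ) ^ (b0 + j) = 2 ^ b0 * 2 ^ j := pow_add _ _ _
        _ ≤ 2 ^ b0 * (8 * r * (n : ℝ) ^ (3 / 4 : ℝ)) := mul_le_mul_of_nonneg_left g2 (by positivity)
        _ = (2 ^ b0 * (8 * r)) * (n : ℝ) ^ (3 / 4 : ℝ) := by ring
        _ ≤ 1 * (n : ℝ) ^ (3 / 4 : ℝ) := mul_le_mul_of_nonneg_right g4 g3
        _ = (n : ℝ) ^ (3 / 4 : ℝ) := one_mul _
        _ ≤ nZ n := nZ_ge n
        _ ≤ (Λ : ℝ) * nZ n := le_mul_of_one_le_left (Nat.cast_nonneg _) (by exact_mod_cast hΛ)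
    exact_mod_cast g1
  have hS := hS (Λ * nZ n) j (by omega) hR
  have hp := pr3_pos (nZ n) j
  refine (gp_two (A := PR n k d S \ P3 (Λ * nZ n) j) (B := P3 (Λ * nZ n) j \ GP (Λ * nZ n) j η κ a m c u e k1)
    (x := ε * c9 / 2 * pr3 (nZ n) j) (y := ε * c9 / 2 * pr3 (nZ n) j) (z := ε * (c9 * pr3 (nZ n) j)) ?_ (by positivity)
    (by positivity) (le_of_eq (by ring)) h11 (hS.trans (ENNReal.ofReal_le_ofReal ?_))).trans ?_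
  · rintro T ⟨g1, g2⟩
    by_cases g3 : T ∈ P3 (Λ * nZ n) j
    · exact Or.inr ⟨g3, g2⟩
    · exact Or.inl ⟨g1, g3⟩
  · have g1 := pr3_mul hΛ (nZ n) j
    have g2 : (0 : ℝ) < (Λ : ℝ) ^ (25 / 8 : ℝ) := by positivity
    calc ε * c9 / 2 / (Λ : ℝ) ^ (25 / 8 : ℝ) * pr3 (Λ * nZ n) j
        ≤ ε * c9 / 2 / (Λ : ℝ) ^ (25 / 8 : ℝ) * ((Λ : ℝ) ^ (25 / 8 : ℝ) * pr3 (nZ n) j) :=
          mul_le_mul_of_nonneg_left g1 (by positivity)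
      _ = ε * c9 / 2 * pr3 (nZ n) j := by
        field_simp
  · rw [ENNReal.ofReal_mul hε.le]
    exact mul_le_mul_right h9 _

end RMP

end HexObs
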