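import Pool.Agent.RMP.UaO

/-!
RMP, row P1 (helper73), part 4: **uniform avoidance with a spectator** E: every point of E is close to the start of the words
(in units of r) or joined inside E to a point at a distance of the order of r. (For the outer end of a word.)
-/

set_option autoImplicit false

namespace HexObs

namespace RMP

open Finset TS SDN HexObs.SIM TIP EN EN.LB

open scoped ENNReal

/-- every point of E is close to the origin or joined inside E to a point at a distance of the order of r -/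
def ObN (r : ℤ) (E : Set Pt) : Prop := ∀ q ∈ E, 10 * TIW.hn q ≤ r ∨ ∃ (g : ℕ → Pt) (n : ℕ), Pth g n ∧ g 0 = q ∧
  (∀ k, k ≤ n → g k ∈ E) ∧ r < 60 * TIW.hn (g n - q)

/-- the past has a large extent in the direction of the levels -/
lemma hitVN {L : List Bool} {F : Set Pt} {P : ℕ → Pt} {n r w : ℕ} {y : Pt} (hP : ∀ k, k < n → HN (P k) (P (k + 1)))
    (hPA : ∀ k, k ≤ n → ∃ q ∈ F, P k = TIP.fr L q) (hball : ∀ k, k ≤ n → P k ∈ Bl y (20 * w + 1))
    (hlv : lv (P 0) + 20 * w ≤ lv (P n)) (hy1 : 5 * (r : ℤ) ≤ lv y) (hy2 : lv y ≤ 25 * r) (hy3 : 2 * |y.1| ≤ 9 * r)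
    (hw : 1 ≤ w) (h200 : 200 * w ≤ r) : HitCO r w L F := by
  have hb : ∀ k, k ≤ n → (y.1 - (20 * w + 1) ≤ (P k).1 ∧ (P k).1 ≤ y.1 + (20 * w + 1)) ∧
      (lv y - 3 * (20 * w + 1) ≤ lv (P k) ∧ lv (P k) ≤ lv y + 3 * (20 * w + 1)) := by
    intro k hk
    obtain ⟨⟨a1, a2⟩, a3, a4⟩ := mem_Bl.1 (hball k hk)
    unfold lv
    push_cast at a1 a2 a3 a4
    exact ⟨⟨a1, a2⟩, by linarith, by linarith⟩
  have hb0 := hb 0 (Nat.zero_le _)
  have hbn := hb n le_rfl
  obtain ⟨t1, ht1⟩ : ∃ t1 : ℕ, (t1 : ℤ) = (lv (P 0) + 5) / 3 := ⟨((lv (P 0) + 5) / 3).toNat, by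
    rw [Int.toNat_of_nonneg]
    omega⟩
  have hy3' : -(9 * (r : ℤ)) ≤ 2 * y.1 ∧ 2 * y.1 ≤ 9 * r := by
    have h1 := neg_abs_le y.1
    have h2 := le_abs_self y.1
    constructor <;> linarith
  obtain ⟨hy4, hy5⟩ := hy3'
  refine ⟨t1, w, y.1 - 40 * w, 80 * w, by omega, by omega, ?_, le_rfl, by omega, ?_, by omega, ?_⟩
  · rw [abs_le]
    constructor <;> omega
  · rw [abs_le]
    constructor <;> omega
  · intro V1 hV1 V2 hV2
    obtain ⟨b1, h11, h12, h13, h14⟩ := hV1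
    obtain ⟨b2, h21, h22, h23, h24⟩ := hV2
    rw [abs_le] at h13 h23
    have l1 := len_pos b1 (by omega)
    have l2 := len_pos b2 (by omega)
    have hn : 1 ≤ n := by
      by_contra hc
      have : n = 0 := by omega
      rw [this] at hlv
      omega
    obtain ⟨i, hi, j, hj, he⟩ := hex_cross (P := P) (Q := fun j => vx oo up (V1 ++ V2) (V1.length + j)) (n := n)
      (m := V2.length) hP (fun j _ => HN_vx upd (Or.inl ⟨by decide, by decide⟩) (V1 ++ V2) (V1.length + j)) hn l2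
      (fun j hj => by
        rw [(co2 b1 j).1]
        have := (lev_BU b2 hj).1
        omega)
      (fun j hj => by
        rw [(co2 b1 j).1]
        have := (lev_BU b2 hj).2
        omega)
      (fun i hi => by
        have h1 := (hb i hi).1.1
        show (vx oo up (V1 ++ V2) (V1.length + 0)).1 ≤ (P i).1
        rw [(co2 b1 0).2, lat_zero]
        omega)
      (fun i hi => by
        have h1 := (hb i hi).1.2
        show (P i).1 < (vx oo up (V1 ++ V2) (V1.length + V2.length)).1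
        rw [(co2 b1 V2.length).2]
        have : lat V2 V2.length = latE V2 := rfl
        rw [this]
        omega)
    obtain ⟨q, hq, he'⟩ := hPA i hi
    refine ⟨q, hq, V1.length + j, by omega, by rw [List.length_append]; omega, ?_⟩
    rw [← he', he]

/-- the past has a large lateral extent -/
lemma hitHN {L : List Bool} {F : Set Pt} {Q : ℕ → Pt} {m r w : ℕ} {y : Pt} (hQ : ∀ k, k < m → HN (Q k) (Q (k + 1)))
    (hQA : ∀ k, k ≤ m → ∃ q ∈ F, Q k = TIP.fr L q) (hball : ∀ k, k ≤ m → Q k ∈ Bl y (20 * w + 1))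
    (hlat : (Q 0).1 + 20 * w + 1 ≤ (Q m).1) (hy1 : 5 * (r : ℤ) ≤ lv y) (hy2 : lv y ≤ 25 * r) (hy3 : 2 * |y.1| ≤ 9 * r)
    (hw : 1 ≤ w) (h200 : 200 * w ≤ r) : HitCO r w L F := by
  have hb : ∀ k, k ≤ m → (y.1 - (20 * w + 1) ≤ (Q k).1 ∧ (Q k).1 ≤ y.1 + (20 * w + 1)) ∧
      (lv y - 3 * (20 * w + 1) ≤ lv (Q k) ∧ lv (Q k) ≤ lv y + 3 * (20 * w + 1)) := by
    intro k hk
    obtain ⟨⟨a1, a2⟩, a3, a4⟩ := mem_Bl.1 (hball k hk)
    unfold lv
    push_cast at a1 a2 a3 a4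
    exact ⟨⟨a1, a2⟩, by linarith, by linarith⟩
  have hb0 := hb 0 (Nat.zero_le _)
  obtain ⟨t1, ht1⟩ : ∃ t1 : ℕ, (t1 : ℤ) = lv y / 3 - 40 * w := ⟨(lv y / 3 - 40 * w).toNat, by
    rw [Int.toNat_of_nonneg]
    omega⟩
  have hy3' : -(9 * (r : ℤ)) ≤ 2 * y.1 ∧ 2 * y.1 ≤ 9 * r := by
    have h1 := neg_abs_le y.1
    have h2 := le_abs_self y.1
    constructor <;> linarith
  obtain ⟨hy4, hy5⟩ := hy3'
  refine ⟨t1, 80 * w, (Q 0).1 + 10 * w, 0, by omega, by omega, ?_, by omega, le_rfl, ?_, by omega, ?_⟩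
  · rw [abs_le]
    constructor <;> omega
  · rw [abs_zero]
    positivity
  · intro V1 hV1 V2 hV2
    obtain ⟨b1, h11, h12, h13, h14⟩ := hV1
    obtain ⟨b2, h21, h22, h23, h24⟩ := hV2
    rw [abs_le] at h13 h23
    have l1 := len_pos b1 (by omega)
    have l2 := len_pos b2 (by omega)
    have hm : 1 ≤ m := by
      by_contra hc
      have : m = 0 := by omega
      rw [this] at hlat
      omega
    obtain ⟨i, hi, j, hj, he⟩ := hex_cross (P := fun j => vx oo up (V1 ++ V2) (V1.length + j)) (Q := Q)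
      (n := V2.length) (m := m) (fun j _ => HN_vx upd (Or.inl ⟨by decide, by decide⟩) (V1 ++ V2) (V1.length + j)) hQ l2 hm
      (fun j hj => by
        have h1 := (hb j hj).2.1
        show lv (vx oo up (V1 ++ V2) (V1.length + 0)) + 3 ≤ lv (Q j)
        rw [(co2 b1 0).1]
        have e0 : lev V2 0 = 0 := by
          show ip oo up = 0
          decide
        rw [e0]
        omega)
      (fun j hj => by
        have h1 := (hb j hj).2.2
        show lv (Q j) + 3 ≤ lv (vx oo up (V1 ++ V2) (V1.length + V2.length))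
        rw [(co2 b1 V2.length).1, levE_BU b2]
        omega)
      (fun i hi => by
        show (Q 0).1 ≤ (vx oo up (V1 ++ V2) (V1.length + i)).1
        rw [(co2 b1 i).2]
        have := (h24 i hi).1
        rw [min_self] at this
        omega)
      (fun i hi => by
        show (vx oo up (V1 ++ V2) (V1.length + i)).1 < (Q m).1
        rw [(co2 b1 i).2]
        have := (h24 i hi).2
        rw [max_self] at this
        omega)
    obtain ⟨q, hq, he'⟩ := hQA j hj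
    refine ⟨q, hq, V1.length + i, by omega, by rw [List.length_append]; omega, ?_⟩
    rw [← he', ← he]

/-- **the hit** -/
theorem hit_detN {L : List Bool} {F : Set Pt} {g : ℕ → Pt} {M r w : ℕ} (hgs : ∀ k, k < M → HN (g k) (g (k + 1)))
    (hgF : ∀ k, k ≤ M → ∃ q ∈ F, g k = TIP.fr L q) (hy1 : 5 * (r : ℤ) ≤ lv (g 0))
    (hy2 : lv (g 0) ≤ 25 * r) (hy3 : 2 * |(g 0).1| ≤ 9 * r)
    (hout : g M ∉ Bl (g 0) (20 * w)) (hw : 1 ≤ w) (h200 : 200 * w ≤ r) : HitCO r w L F := by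
  classical
  have hex : ∃ k, g k ∉ Bl (g 0) (20 * w) := ⟨_, hout⟩
  obtain ⟨τ, hτ⟩ : ∃ τ, τ = Nat.find hex := ⟨_, rfl⟩
  have hτM : τ ≤ M := by
    rw [hτ]
    exact Nat.find_min' hex hout
  have hτs : g τ ∉ Bl (g 0) (20 * w) := by
    rw [hτ]
    exact Nat.find_spec hex
  have hτm : ∀ k, k < τ → g k ∈ Bl (g 0) (20 * w) := by
    intro k hk
    rw [hτ] at hk
    exact not_not.1 (Nat.find_min hex hk)
  have hτ0 : τ ≠ 0 := by
    intro h0
    rw [h0] at hτs
    exact hτs ⟨by simp, by simp⟩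
  have hball : ∀ k, k ≤ τ → g k ∈ Bl (g 0) (20 * w + 1) := by
    intro k hk
    rcases Nat.lt_or_ge k τ with h1 | h1
    · exact Bl_mono _ (by omega) (hτm k h1)
    · have e : k = (τ - 1) + 1 := by omega
      have h2 := HN_le (hgs (τ - 1) (by omega))
      obtain ⟨⟨a1, a2⟩, a3, a4⟩ := mem_Bl.1 (hτm (τ - 1) (by omega))
      rw [← e, abs_le, abs_le] at h2
      rw [mem_Bl]
      push_cast at a1 a2 a3 a4 ⊢
      refine ⟨⟨?_, ?_⟩, ?_, ?_⟩ <;> omega
  have hA : ∀ k, k ≤ τ → ∃ q ∈ F, g k = TIP.fr L q := fun k hk => hgF k (by omega)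
  have hA' : ∀ k, k ≤ τ → ∃ q ∈ F, g (τ - k) = TIP.fr L q := fun k _ => hA (τ - k) (by omega)
  have hrev : ∀ k, k < τ → HN (g (τ - k)) (g (τ - (k + 1))) := by
    intro k hk
    have := hgs (τ - (k + 1)) (by omega)
    rw [show τ - (k + 1) + 1 = τ - k by omega] at this
    exact this.symm
  have e0 : g (τ - τ) = g 0 := by rw [Nat.sub_self]
  rcases le_or_gt (20 * (w : ℤ)) (lv (g τ) - lv (g 0)) with hc | hc
  · exact hitVN (P := g) (n := τ) (y := g 0) (fun k hk => hgs k (by omega)) hA hball (by linarith) hy1 hy2 hy3 hw h200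
  rcases le_or_gt (20 * (w : ℤ)) (lv (g 0) - lv (g τ)) with hc2 | hc2
  · refine hitVN (P := fun k => g (τ - k)) (n := τ) (y := g 0) hrev hA' (fun k _ => hball _ (by omega)) ?_ hy1 hy2 hy3 hw
      h200
    show lv (g (τ - 0)) + 20 * w ≤ lv (g (τ - τ))
    rw [e0, Nat.sub_zero]
    linarith
  have hlat : (g 0).1 + 20 * w + 1 ≤ (g τ).1 ∨ (g τ).1 + 20 * w + 1 ≤ (g 0).1 := by
    by_contra hcon
    push Not at hcon
    apply hτs
    rw [mem_Bl]
    unfold lv at hc hc2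
    push_cast
    refine ⟨⟨?_, ?_⟩, ?_, ?_⟩ <;> omega
  rcases hlat with h1 | h1
  · exact hitHN (Q := g) (m := τ) (y := g 0) (fun k hk => hgs k (by omega)) hA hball h1 hy1 hy2 hy3 hw h200
  · refine hitHN (Q := fun k => g (τ - k)) (m := τ) (y := g 0) hrev hA' (fun k _ => hball _ (by omega)) ?_ hy1 hy2 hy3 hw
      h200
    show (g (τ - 0)).1 + 20 * w + 1 ≤ (g (τ - τ)).1
    rw [e0, Nat.sub_zero]
    exact h1

/-- **the forbidden blocks** -/
theorem forbN : ∃ (c κ : ℝ) (r0 : ℕ), 0 < c ∧ c ≤ 1 ∧ 0 < κ ∧ ∀ (E : Set Pt) (A Y : List Bool) (r H : ℕ), r0 ≤ r →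
    ObN r E → Y ∈ BU → ENNReal.ofReal c ≤ gf {B | B ∈ LB.Bk (10 * r) ∧ ∀ X ∈ BU, Y ++ (B ++ X) ∉ BadO κ E A r H} := by
  obtain ⟨c1, t0, hc1, hV⟩ := Vb_mass 80 80000
  obtain ⟨c2, κ, r1, hc2, hκ, hU⟩ := Um_mass
  obtain ⟨c, hc⟩ : ∃ c, c = min 1 (min (c1 * c1) (c1 * c2)) := ⟨_, rfl⟩
  have hc0 : 0 < c := by
    rw [hc]
    exact lt_min one_pos (lt_min (by positivity) (by positivity))
  have hcc1 : c ≤ c1 * c1 := by
    rw [hc]
    exact (min_le_right _ _).trans (min_le_left _ _)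
  have hcc2 : c ≤ c1 * c2 := by
    rw [hc]
    exact (min_le_right _ _).trans (min_le_right _ _)
  refine ⟨c, κ, 8000 * (t0 + 1) + r1, hc0, by rw [hc]; exact min_le_left _ _, hκ, fun E A Y r H hr hE hY => ?_⟩
  obtain ⟨w, hw⟩ : ∃ w, w = r / 4000 := ⟨_, rfl⟩
  have hw1 : 1 ≤ w := by omega
  have hwt : t0 ≤ w := by omega
  have h200 : 200 * w ≤ r := by omega
  have hr400 : r ≤ 8000 * w := by omega
  have h4000 : 4000 * w ≤ r := by omega
  by_cases hbox : ∃ q ∈ vs A ∪ E, 6 * (r : ℤ) ≤ lv (TIP.fr (A ++ Y) q) ∧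
      lv (TIP.fr (A ++ Y) q) ≤ 24 * r ∧ |(TIP.fr (A ++ Y) q).1| ≤ 4 * r
  · obtain ⟨q, hq, hy1, hy2, hy3⟩ := hbox
    have hpath : ∃ (g : ℕ → Pt) (M : ℕ), (∀ k, k < M → HN (g k) (g (k + 1))) ∧
        (∀ k, k ≤ M → ∃ q' ∈ vs A ∪ E, g k = TIP.fr (A ++ Y) q') ∧ (5 * (r : ℤ) ≤ lv (g 0) ∧ lv (g 0) ≤ 25 * r ∧
        2 * |(g 0).1| ≤ 9 * r) ∧ g M ∉ Bl (g 0) (20 * w) := by
      have hr0 : (0 : ℤ) ≤ r := by positivity
      have hpast : ∀ i, i ≤ A.length → 5 * (r : ℤ) ≤ lv (TIP.fr (A ++ Y) (vx oo up A i)) →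
          TIP.fr (A ++ Y) (vx oo up A (i + (A.length - i))) ∉ Bl (TIP.fr (A ++ Y) (vx oo up A i)) (20 * w) := by
        intro i hi hlow
        rw [show i + (A.length - i) = A.length by omega]
        intro hc
        have htip := lv_tip (A := A) hY
        obtain ⟨⟨a1, a2⟩, a3, a4⟩ := mem_Bl.1 hc
        unfold lv at htip hlow
        push_cast at a1 a2 a3 a4
        omega
      rcases hq with ⟨i, hi, rfl⟩ | hq
      · refine ⟨fun k => TIP.fr (A ++ Y) (vx oo up A (i + k)), A.length - i, fun k _ => fr_HN (A ++ Y) A (i + k),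
          fun k hk => ⟨_, Or.inl ⟨i + k, by omega, rfl⟩, rfl⟩, ⟨?_, ?_, ?_⟩, hpast i hi (by linarith)⟩
        · show 5 * (r : ℤ) ≤ lv (TIP.fr (A ++ Y) (vx oo up A i))
          linarith
        · show lv (TIP.fr (A ++ Y) (vx oo up A i)) ≤ 25 * r
          linarith
        · show 2 * |(TIP.fr (A ++ Y) (vx oo up A i)).1| ≤ 9 * r
          linarith
      · rcases hE q hq with h0 | ⟨g, M, g1, g2, g3, g4⟩
        · -- the point is close to the start of A
          have h1 : TIW.hn (TIP.fr (A ++ Y) q - TIP.fr (A ++ Y) (vx oo up A 0)) = TIW.hn q := by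
            rw [hn_fr]
            congr 1
            show q - oo = q
            rw [oo_zero, sub_zero]
          rw [← h1] at h0
          have h2 : 10 * |(TIP.fr (A ++ Y) q).1 - (TIP.fr (A ++ Y) (vx oo up A 0)).1| ≤ r ∧
              10 * |lv (TIP.fr (A ++ Y) q) - lv (TIP.fr (A ++ Y) (vx oo up A 0))| ≤ r := by
            clear h1 hy1 hy2 hy3
            generalize TIP.fr (A ++ Y) q = x at h0 ⊢
            generalize TIP.fr (A ++ Y) (vx oo up A 0) = y at h0 ⊢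
            unfold TIW.hn at h0
            unfold lv
            simp only [ip, up, rotL, rotR, Prod.fst_sub, Prod.snd_sub] at h0 ⊢
            have k1 := (mul_le_mul_of_nonneg_left (le_max_left _ _) (show (0 : ℤ) ≤ 10 by norm_num)).trans h0
            have k2 := (mul_le_mul_of_nonneg_left ((le_max_left _ _).trans (le_max_right _ _))
              (show (0 : ℤ) ≤ 10 by norm_num)).trans h0
            have k3 := (mul_le_mul_of_nonneg_left ((le_max_right _ _).trans (le_max_right _ _))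
              (show (0 : ℤ) ≤ 10 by norm_num)).trans h0
            clear h0
            rw [← abs_of_nonneg (show (0 : ℤ) ≤ 10 by norm_num), ← abs_mul, abs_le] at k1 k2 k3
            rw [← abs_of_nonneg (show (0 : ℤ) ≤ 10 by norm_num), ← abs_mul, ← abs_mul, abs_le, abs_le]
            refine ⟨⟨?_, ?_⟩, ?_, ?_⟩ <;> omega
          obtain ⟨h3, h4⟩ := h2
          have h5 : 5 * (r : ℤ) ≤ lv (TIP.fr (A ++ Y) (vx oo up A 0)) := by
            have := le_abs_self (lv (TIP.fr (A ++ Y) q) - lv (TIP.fr (A ++ Y) (vx oo up A 0)))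
            linarith
          refine ⟨fun k => TIP.fr (A ++ Y) (vx oo up A (0 + k)), A.length - 0, fun k _ => fr_HN (A ++ Y) A (0 + k),
            fun k hk => ⟨_, Or.inl ⟨0 + k, by omega, rfl⟩, rfl⟩, ⟨h5, ?_, ?_⟩, hpast 0 (Nat.zero_le _) h5⟩
          · show lv (TIP.fr (A ++ Y) (vx oo up A 0)) ≤ 25 * r
            have := neg_abs_le (lv (TIP.fr (A ++ Y) q) - lv (TIP.fr (A ++ Y) (vx oo up A 0)))
            linarith
          · show 2 * |(TIP.fr (A ++ Y) (vx oo up A 0)).1| ≤ 9 * r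
            have h6 : |(TIP.fr (A ++ Y) (vx oo up A 0)).1| ≤ |(TIP.fr (A ++ Y) q).1| +
                |(TIP.fr (A ++ Y) q).1 - (TIP.fr (A ++ Y) (vx oo up A 0)).1| := by
              have e : (TIP.fr (A ++ Y) (vx oo up A 0)).1 = (TIP.fr (A ++ Y) q).1 -
                ((TIP.fr (A ++ Y) q).1 - (TIP.fr (A ++ Y) (vx oo up A 0)).1) := by ring
              calc |(TIP.fr (A ++ Y) (vx oo up A 0)).1| = |(TIP.fr (A ++ Y) q).1 -
                    ((TIP.fr (A ++ Y) q).1 - (TIP.fr (A ++ Y) (vx oo up A 0)).1)| := by rw [← e]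
                _ ≤ _ := abs_sub _ _
            linarith
        · refine ⟨fun k => TIP.fr (A ++ Y) (g k), M, fun k hk => fr_step (A ++ Y) (g1 k hk),
            fun k hk => ⟨_, Or.inr (g3 k hk), rfl⟩, ⟨?_, ?_, ?_⟩, ?_⟩
          · show 5 * (r : ℤ) ≤ lv (TIP.fr (A ++ Y) (g 0))
            rw [g2]
            linarith
          · show lv (TIP.fr (A ++ Y) (g 0)) ≤ 25 * r
            rw [g2]
            linarith
          · show 2 * |(TIP.fr (A ++ Y) (g 0)).1| ≤ 9 * r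
            rw [g2]
            linarith
          · show TIP.fr (A ++ Y) (g M) ∉ Bl (TIP.fr (A ++ Y) (g 0)) (20 * w)
            intro hc
            have h1 : TIW.hn (TIP.fr (A ++ Y) (g M) - TIP.fr (A ++ Y) (g 0)) ≤ 3 * ((20 * w : ℕ) : ℤ) := by
              obtain ⟨⟨a1, a2⟩, a3, a4⟩ := mem_Bl.1 hc
              generalize TIP.fr (A ++ Y) (g M) = x at a1 a2 a3 a4 ⊢
              generalize TIP.fr (A ++ Y) (g 0) = y at a1 a2 a3 a4 ⊢
              unfold TIW.hn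
              simp only [ip, up, rotL, rotR, Prod.fst_sub, Prod.snd_sub] at a1 a2 a3 a4 ⊢
              refine max_le ?_ (max_le ?_ ?_) <;> rw [abs_le] <;> constructor <;> omega
            rw [hn_fr, g2] at h1
            push_cast at h1
            omega
    obtain ⟨g, M, g1, g2, ⟨hz1, hz2, hz3⟩, g4⟩ := hpath
    obtain ⟨t1, t2, x1, x2, a1, a2, a3, a4, a5, a6, a7, a8⟩ := hit_detN g1 g2 hz1 hz2 hz3 g4 hw1 h200
    have m1 := hV t1 w x1 (by omega) (by rw [abs_le] at a3 ⊢; omega) (by omega) (by omega)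
    have m2 := hV t2 w x2 (by omega) (by rw [abs_le] at a6 ⊢; omega) (by omega) (by omega)
    have m3 := blk_mass (S1 := Vb t1 x1 w) (S2 := Vb t2 x2 w) (N := 10 * r) (fun V h => h.1.1) (fun V h => h.1.1)
      (fun V h V' h' X hX X' hX' he => Vb_pf h h' hX hX' he) (fun V h V' h' X hX X' hX' he => Vb_pf h h' hX hX' he)
      (fun V1 h1 V2 h2 => by
        have := h1.1.2.2.1
        have := h2.1.2.2.1
        omega)
    calc ENNReal.ofReal c ≤ ENNReal.ofReal c1 * ENNReal.ofReal c1 := by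
          rw [← ENNReal.ofReal_mul hc1.le]
          exact ENNReal.ofReal_le_ofReal hcc1
      _ ≤ gf (Vb t1 x1 w) * gf (Vb t2 x2 w) := mul_le_mul' m1 m2
      _ ≤ _ := m3
      _ ≤ _ := by
          refine gf_mono ?_
          rintro B ⟨hB, V1, hV1, V2, hV2, X0, hX0, rfl⟩
          refine ⟨hB, fun X hX hbad => ?_⟩
          have h1 := hitO_not (X := X0 ++ X) (a8 V1 hV1.1 V2 hV2.1)
          apply h1
          have h2 := hbad.2.2.1
          simp only [List.append_assoc] at h2 ⊢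
          exact h2
  · push Not at hbox
    obtain ⟨m, hm⟩ : ∃ m : ℕ, m = ⌈κ * UU r⌉₊ := ⟨_, rfl⟩
    have hUr := Num2Aux.UU_pos r
    have hm1 : (m : ℝ) ≤ κ * UU r + 1 := by
      rw [hm]
      exact (Nat.ceil_lt_add_one (by positivity)).le
    have hm2 : κ * UU r ≤ m := by
      rw [hm]
      exact Nat.le_ceil _
    have m1 := hV (4 * r) w 0 (by omega) (by simp) (by omega) (by omega)
    have m2 := hU m r (by omega) hm1
    have m3 := blk_mass (S1 := Vb (4 * r) 0 w) (S2 := Um m r) (N := 10 * r) (fun V h => h.1.1) (fun V h => Ir_BU h.1)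
      (fun V h V' h' X hX X' hX' he => Vb_pf h h' hX hX' he) (fun V h V' h' X hX X' hX' he => Ir_pf h.1 h'.1 hX hX' he)
      (fun V1 h1 V2 h2 => by
        have := h1.1.2.2.1
        have := h2.2.1
        omega)
    calc ENNReal.ofReal c ≤ ENNReal.ofReal c1 * ENNReal.ofReal c2 := by
          rw [← ENNReal.ofReal_mul hc1.le]
          exact ENNReal.ofReal_le_ofReal hcc2
      _ ≤ gf (Vb (4 * r) 0 w) * gf (Um m r) := mul_le_mul' m1 m2
      _ ≤ _ := m3
      _ ≤ _ := by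
          refine gf_mono ?_
          rintro B ⟨hB, V1, hV1, V2, hV2, X0, hX0, rfl⟩
          refine ⟨hB, fun X hX hbad => ?_⟩
          have h1 := free_cutsO (X := X0 ++ X) (F := vs A ∪ E) hY (TIP.BU_app hX0 hX)
            (fun q hq e1 e2 e3 => absurd e3 (not_le.2 (hbox q hq e1 e2))) h200 hV1.1 hV2
          have h2 := hbad.2.2.2
          simp only [List.append_assoc] at h2 h1
          have h3 : ((m + 1 : ℕ) : ℝ) ≤ freeNO r (vs A ∪ E) A (Y ++ (V1 ++ (V2 ++ (X0 ++ X)))) := by exact_mod_cast h1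
          push_cast at h3
          linarith

/-- **(UA) with a spectator** -/
theorem uaEN : ∃ κ C : ℝ, ∃ r0 : ℕ, 0 < κ ∧ 0 < C ∧ ∀ (E : Set Pt) (A : List Bool) (r H : ℕ), r0 ≤ r → ObN r E →
    gf {Z | Z ∈ BU ∧ hgt Z ≤ H ∧ A ++ Z ∈ SAE E ∧ (freeNO r (vs A ∪ E) A Z : ℝ) < κ * UU r} ≤
      ENNReal.ofReal (C * UU r) := by
  obtain ⟨c, κ, r0, hc, hc1, hκ, hF⟩ := forbN
  refine ⟨κ, 16 / c, r0 + 1, hκ, by positivity, fun E A r H hr hE => ?_⟩
  obtain ⟨N, hN⟩ : ∃ N, N = 10 * r := ⟨_, rfl⟩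
  obtain ⟨S, hS⟩ : ∃ S : List Bool → Set (List Bool), S = fun Y => {Z | Z ∈ BU ∧ Y ++ Z ∈ BadO κ E A r H} := ⟨_, rfl⟩
  obtain ⟨Φ, hΦ⟩ : ∃ Φ : ℝ≥0∞, Φ = ⨆ Y : {Y : List Bool // Y ∈ BU}, gf (S Y.1) := ⟨_, rfl⟩
  have hSΦ : ∀ Y ∈ BU, gf (S Y) ≤ Φ := by
    intro Y hY
    rw [hΦ]
    exact le_iSup (fun Y : {Y : List Bool // Y ∈ BU} => gf (S Y.1)) ⟨Y, hY⟩
  have hUN := Num2Aux.UU_pos N
  have hstep : ∀ Y ∈ BU, gf (S Y) ≤ ENNReal.ofReal (UU N) + (1 - ENNReal.ofReal c) * Φ := by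
    intro Y hY
    obtain ⟨Al, hAl⟩ : ∃ Al : Set (List Bool), Al = {B | B ∈ LB.Bk N ∧ ∃ X ∈ BU, Y ++ (B ++ X) ∈ BadO κ E A r H} :=
      ⟨_, rfl⟩
    have h1 : gf Al ≤ 1 - ENNReal.ofReal c := by
      refine ENNReal.le_sub_of_add_le_right ENNReal.ofReal_ne_top ?_
      refine (add_le_add le_rfl (hF E A Y r H (by omega) hE hY)).trans ?_
      rw [← gf_union]
      · refine (gf_mono ?_).trans (gf_Bk N)
        rw [hAl, hN]
        rintro B (hB | hB)
        · exact hB.1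
        · exact hB.1
      · rw [Set.disjoint_left, hAl]
        rintro B ⟨-, X, hX, h2⟩ ⟨-, h3⟩
        exact h3 X hX h2
    have hsub : S Y ⊆ {Z | Z ∈ BU ∧ hgt Z ≤ N} ∪ {Z | ∃ B ∈ Al, ∃ Z' ∈ S (Y ++ B), Z = B ++ Z'} := by
      intro Z hZ
      rw [hS] at hZ
      rcases Nat.lt_or_ge N (hgt Z) with h2 | h2
      · obtain ⟨B, hB, X', hX', he⟩ := first_Bk (hgt Z) N Z (TIP.BU_hgt hZ.1) h2
        have h3 := hZ.2
        rw [he] at h3
        refine Or.inr ⟨B, ?_, X', ?_, he⟩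
        · rw [hAl]
          exact ⟨hB, X', hX', h3⟩
        · rw [hS]
          refine ⟨hX', ?_⟩
          show (Y ++ B) ++ X' ∈ BadO κ E A r H
          rw [List.append_assoc]
          exact h3
      · exact Or.inl ⟨hZ.1, h2⟩
    refine (gf_mono hsub).trans ((gf_union_le _ _).trans (add_le_add (gf_lowBU N) ?_))
    refine (gf_dep (A := Al) (Q := fun B => S (Y ++ B)) (c := Φ) (fun t ht => ht) fun B hB => ?_).trans
      (mul_le_mul_left h1 _)
    rw [hAl] at hB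
    exact hSΦ _ (TIP.BU_app hY (Bk_BU hB.1))
  have hfin : Φ ≤ ENNReal.ofReal (UU H) := by
    rw [hΦ]
    refine iSup_le fun Y => ?_
    refine (gf_mono ?_).trans (gf_lowBU H)
    intro Z hZ
    rw [hS] at hZ
    refine ⟨hZ.1, ?_⟩
    have h1 := hZ.2.2.1
    rw [hgt_app Y.2 hZ.1] at h1
    omega
  have hΦt : Φ ≠ ∞ := ne_top_of_le_ne_top ENNReal.ofReal_ne_top hfin
  have hrec : Φ ≤ ENNReal.ofReal (UU N) + (1 - ENNReal.ofReal c) * Φ := by
    conv_lhs => rw [hΦ]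
    exact iSup_le fun Y => hstep Y.1 Y.2
  obtain ⟨φ, hφ0, hφ⟩ : ∃ φ : ℝ, 0 ≤ φ ∧ Φ = ENNReal.ofReal φ := ⟨Φ.toReal, ENNReal.toReal_nonneg,
    (ENNReal.ofReal_toReal hΦt).symm⟩
  have hr2 : φ ≤ UU N + (1 - c) * φ := by
    rw [hφ, ← ENNReal.ofReal_one, ← ENNReal.ofReal_sub _ hc.le, ← ENNReal.ofReal_mul (by linarith),
      ← ENNReal.ofReal_add hUN.le (mul_nonneg (by linarith) hφ0),
      ENNReal.ofReal_le_ofReal_iff (add_nonneg hUN.le (mul_nonneg (by linarith) hφ0))] at hrec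
    exact hrec
  have hφ2 : φ ≤ UU N / c := by
    rw [le_div_iff₀ hc]
    nlinarith
  have hUN2 : UU N ≤ 16 * UU r := by
    have h1 := UU_double r
    have h2 := UU_double (2 * r)
    have h3 := UU_double (2 * (2 * r))
    have h4 := UU_double (2 * (2 * (2 * r)))
    have h5 := UU_mono (show N ≤ 2 * (2 * (2 * (2 * r))) by omega)
    linarith
  have hmain : gf (S []) ≤ ENNReal.ofReal (16 / c * UU r) := by
    refine (hSΦ [] nil_BU).trans ?_
    rw [hφ]
    refine ENNReal.ofReal_le_ofReal (hφ2.trans ?_)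
    rw [div_mul_eq_mul_div]
    exact div_le_div_of_nonneg_right hUN2 hc.le
  refine le_trans (gf_mono ?_) hmain
  intro Z hZ
  rw [hS]
  exact ⟨hZ.1, hZ⟩

/-! ### the hexagonal box -/

/-- **(UA) with a spectator close to the start of the word, and the hexagonal box** -/
theorem uaN : ∃ (C κ : ℝ) (r0 : ℕ), 0 < C ∧ 0 < κ ∧ ∀ r, r0 ≤ r → ∀ (E : Set Pt), ObN (3 * (r : ℤ) + 2) E →
    ∀ (H : ℕ) (A : List Bool), gf {Z | Z ∈ BU ∧ hgt Z ≤ H ∧ A ++ Z ∈ SAE E ∧ (frN (FarO E r) A Z : ℝ) < κ * UU r} ≤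
      ENNReal.ofReal (C * UU r) := by
  obtain ⟨κ, C, r0, hκ, hC, h⟩ := uaEN
  refine ⟨8 * C, κ, r0 + 1, by positivity, hκ, fun r hr E hE H A => ?_⟩
  have h1 := h E A (3 * r + 2) H (by omega) (by push_cast; exact hE)
  have hU := UU_mono (show r ≤ 3 * r + 2 by omega)
  refine (gf_mono ?_).trans (h1.trans (ENNReal.ofReal_le_ofReal ?_))
  · rintro Z ⟨a1, a2, a3, a4⟩
    refine ⟨a1, a2, a3, ?_⟩
    have h2 : (freeNO (3 * r + 2) (vs A ∪ E) A Z : ℝ) ≤ frN (FarO E r) A Z := by exact_mod_cast le_frNO E r A Z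
    have h3 : κ * UU r ≤ κ * UU (3 * r + 2) := mul_le_mul_of_nonneg_left hU hκ.le
    linarith
  · have h2 := UU_double r
    have h3 := UU_double (2 * r)
    have h4 := UU_double (2 * (2 * r))
    have h5 := UU_mono (show 3 * r + 2 ≤ 2 * (2 * (2 * r)) by omega)
    have h6 : UU (3 * r + 2) ≤ 8 * UU r := by linarith
    calc C * UU (3 * r + 2) ≤ C * (8 * UU r) := mul_le_mul_of_nonneg_left h6 hC.le
      _ = 8 * C * UU r := by ring

end RMP

end HexObs
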