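import Pool.Agent.RMP.TipR
import Pool.Agent.RMP.TipN
import Pool.Agent.JNT.JoB

/-!
RMP, row P1'' (helper73): **`tipPo : TipPo`**: a good OUTER end of the first word of a pair, after (T1P).
-/

set_option autoImplicit false

namespace HexObs

namespace RMP

open Finset TS SDN NTW NTA HexObs.SIM TIP ARM

open scoped ENNReal

/-- **row P1''** : good outer end of the first word, at a scale of at most the size of the words -/
def TipPo : Prop := T1P → ∀ η : ℝ, 0 < η → ∃ C : ℝ, 0 < C ∧ ∀ R j b : ℕ, 2 ^ b ≤ R + 2 ^ j →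
  gp {T | T ∈ P3 R j ∧ rev T.1 ∈ GT b η} * Xb b ≤ ENNReal.ofReal (C * pr3 R j)

/-! ### numbers -/

lemma pr3_low (R j : ℕ) : (4 : ℝ) ^ j * (max (R : ℝ) (2 ^ j)) ^ (43 / 24 : ℝ) * (2 : ℝ) ^ ((43 / 24 : ℝ) * (j : ℝ)) ≤
    pr3 R j := by
  unfold pr3
  obtain ⟨X, hX⟩ : ∃ X : ℝ, X = max (R : ℝ) (2 ^ j) := ⟨_, rfl⟩
  have hX2 : (2 : ℝ) ^ j ≤ X := by
    rw [hX]
    exact le_max_right _ _
  have hX0 : 0 < X := lt_of_lt_of_le (by positivity) hX2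
  rw [← hX]
  have e5 : (4 : ℝ) ^ j = (2 : ℝ) ^ ((2 : ℝ) * (j : ℝ)) := by
    rw [← two_pow_rpow, Real.rpow_two, ← pow_mul, mul_comm j 2, pow_mul]
    norm_num
  have e6 : X ^ (25 / 8 : ℝ) = X ^ (43 / 24 : ℝ) * X ^ (4 / 3 : ℝ) := by
    rw [← Real.rpow_add hX0]
    norm_num
  have e7 : (2 : ℝ) ^ ((4 / 3 : ℝ) * (j : ℝ)) ≤ X ^ (4 / 3 : ℝ) := by
    rw [← two_pow_rpow]
    exact Real.rpow_le_rpow (by positivity) hX2 (by norm_num)
  have e8 : (2 : ℝ) ^ ((2 : ℝ) * (j : ℝ)) * (2 : ℝ) ^ ((43 / 24 : ℝ) * (j : ℝ)) =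
      (2 : ℝ) ^ ((59 / 24 : ℝ) * (j : ℝ)) * (2 : ℝ) ^ ((4 / 3 : ℝ) * (j : ℝ)) := by
    rw [← Real.rpow_add (by norm_num), ← Real.rpow_add (by norm_num)]
    congr 1
    ring
  calc (4 : ℝ) ^ j * X ^ (43 / 24 : ℝ) * (2 : ℝ) ^ ((43 / 24 : ℝ) * (j : ℝ))
      = ((2 : ℝ) ^ ((2 : ℝ) * (j : ℝ)) * (2 : ℝ) ^ ((43 / 24 : ℝ) * (j : ℝ))) * X ^ (43 / 24 : ℝ) := by
        rw [e5]
        ring
    _ = (2 : ℝ) ^ ((59 / 24 : ℝ) * (j : ℝ)) * (2 : ℝ) ^ ((4 / 3 : ℝ) * (j : ℝ)) * X ^ (43 / 24 : ℝ) := by rw [e8]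
    _ ≤ (2 : ℝ) ^ ((59 / 24 : ℝ) * (j : ℝ)) * X ^ (4 / 3 : ℝ) * X ^ (43 / 24 : ℝ) := by gcongr
    _ = _ := by
        rw [e6]
        ring

/-- the size against the mass of the bridges and the half plane words -/
lemma UX_up : ∃ C : ℝ, 0 < C ∧ ∀ m : ℕ, ENNReal.ofReal (Ub m) * Xb m ≤ ENNReal.ofReal (C * (2 : ℝ) ^ ((4 / 3 : ℝ) * (m : ℝ))) := by
  obtain ⟨C1, hC1, h1⟩ := NPR.Fast.FK_up
  obtain ⟨c, C2, hc, hC2, h2⟩ := JNT.JoT.Ub_two
  refine ⟨C1 * C2 + 1, by positivity, fun m => ?_⟩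
  have hU := Ub_pos m
  obtain ⟨x, hx0, hx⟩ : ∃ x : ℝ, 0 ≤ x ∧ Xb m = ENNReal.ofReal x :=
    ⟨(Xb m).toReal, ENNReal.toReal_nonneg, (ENNReal.ofReal_toReal (Xb_ne_top m)).symm⟩
  have h3 : Ub m * x ^ 2 ≤ C1 * (2 : ℝ) ^ (43 / 24 * (m : ℝ)) := by
    have h4 : NPR.FK m ≤ ENNReal.ofReal (C1 * 2 ^ (43 / 24 * (m : ℝ))) := h1 m
    unfold NPR.FK at h4
    rw [hx, ← ENNReal.ofReal_pow hx0, ← ENNReal.ofReal_mul hU.le] at h4
    exact (ENNReal.ofReal_le_ofReal_iff (by positivity)).1 h4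
  rw [hx, ← ENNReal.ofReal_mul hU.le]
  refine ENNReal.ofReal_le_ofReal ?_
  obtain ⟨y, hy⟩ : ∃ y : ℝ, y = (2 : ℝ) ^ ((4 / 3 : ℝ) * (m : ℝ)) := ⟨_, rfl⟩
  have hy0 : 0 < y := by rw [hy]; positivity
  rw [← hy]
  have h5 : (2 : ℝ) ^ (3 / 4 * (m : ℝ)) * (2 : ℝ) ^ (43 / 24 * (m : ℝ)) ≤ y ^ 2 := by
    rw [hy, ← Real.rpow_add (by norm_num), ← Real.rpow_two, ← Real.rpow_mul (by norm_num)]
    refine Real.rpow_le_rpow_of_exponent_le (by norm_num) ?_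
    have : (0 : ℝ) ≤ m := Nat.cast_nonneg m
    linarith
  have h6 : (Ub m * x) ^ 2 ≤ ((C1 * C2 + 1) * y) ^ 2 := by
    calc (Ub m * x) ^ 2 = Ub m * (Ub m * x ^ 2) := by ring
      _ ≤ (C2 * (2 : ℝ) ^ (3 / 4 * (m : ℝ))) * (C1 * (2 : ℝ) ^ (43 / 24 * (m : ℝ))) :=
          mul_le_mul (h2 m).2 h3 (by positivity) (by positivity)
      _ = C1 * C2 * ((2 : ℝ) ^ (3 / 4 * (m : ℝ)) * (2 : ℝ) ^ (43 / 24 * (m : ℝ))) := by ring
      _ ≤ C1 * C2 * y ^ 2 := mul_le_mul_of_nonneg_left h5 (by positivity)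
      _ ≤ ((C1 * C2 + 1) * y) ^ 2 := by
          rw [mul_pow]
          have h7 : C1 * C2 ≤ (C1 * C2 + 1) ^ 2 := by
            have : 0 < C1 * C2 := by positivity
            nlinarith
          exact mul_le_mul_of_nonneg_right h7 (by positivity)
  exact (pow_le_pow_iff_left₀ (by positivity) (by positivity) (by norm_num)).1 h6

/-! ### the product bound with another reference point -/

open Classical in
lemma frames_leZ (i : ℕ) (z : Pt) (B : List Bool) :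
    ∑' g : Pt × Pt, (if Fr g ∧ TIW.hn (z - pe g B) ≤ 2 ^ i then (1 : ℝ≥0∞) else 0) ≤ ENNReal.ofReal (54 * 4 ^ i) := by
  obtain ⟨N, hN⟩ : ∃ N : ℕ, N = 2 ^ i := ⟨_, rfl⟩
  obtain ⟨F, hF⟩ : ∃ F : Finset (Pt × Pt), F = (Icc (-(N : ℤ)) N ×ˢ Icc (-(N : ℤ)) N) ×ˢ dirs := ⟨_, rfl⟩
  have h1 : ∑' g : Pt × Pt, (if Fr g ∧ TIW.hn (z - pe g B) ≤ 2 ^ i then (1 : ℝ≥0∞) else 0) =
      ∑' g : {g : Pt × Pt | Fr g ∧ TIW.hn (z - pe g B) ≤ 2 ^ i}, (1 : ℝ≥0∞) := by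
    rw [_root_.tsum_subtype {g : Pt × Pt | Fr g ∧ TIW.hn (z - pe g B) ≤ 2 ^ i} (fun _ => (1 : ℝ≥0∞))]
    refine tsum_congr fun g => ?_
    by_cases hg : Fr g ∧ TIW.hn (z - pe g B) ≤ 2 ^ i
    · rw [if_pos hg, Set.indicator_of_mem (show g ∈ {g : Pt × Pt | Fr g ∧ TIW.hn (z - pe g B) ≤ 2 ^ i} from hg)]
    · rw [if_neg hg, Set.indicator_of_notMem (show g ∉ {g : Pt × Pt | Fr g ∧ TIW.hn (z - pe g B) ≤ 2 ^ i} from hg)]
  have hmem : ∀ g : {g : Pt × Pt | Fr g ∧ TIW.hn (z - pe g B) ≤ 2 ^ i},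
      ((z - pe g.1 B, g.1.2) : Pt × Pt) ∈ F := by
    rintro ⟨g, hg1, hg2⟩
    obtain ⟨c1, c2⟩ := hn_coord hg2
    rw [abs_le] at c1 c2
    rw [hF, mem_product, mem_product, mem_Icc, mem_Icc, hN]
    push_cast
    exact ⟨⟨c1, c2⟩, hg1.1⟩
  obtain ⟨φ, hφ⟩ : ∃ φ : {g : Pt × Pt | Fr g ∧ TIW.hn (z - pe g B) ≤ 2 ^ i} → F,
      φ = fun g => ⟨(z - pe g.1 B, g.1.2), hmem g⟩ := ⟨_, rfl⟩
  have hinj : Function.Injective φ := by
    rintro ⟨⟨x, c⟩, hg⟩ ⟨⟨x', c'⟩, hg'⟩ he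
    rw [hφ] at he
    have h2 := congrArg Subtype.val he
    simp only [Prod.mk.injEq] at h2
    obtain ⟨h3, rfl⟩ := h2
    have h4 : pe (x, c) B = pe (x', c) B := sub_right_injective h3
    unfold pe pv at h4
    have h5 : x = x' := add_right_cancel h4
    subst h5
    rfl
  rw [h1]
  calc ∑' g : {g : Pt × Pt | Fr g ∧ TIW.hn (z - pe g B) ≤ 2 ^ i}, (1 : ℝ≥0∞)
      = ∑' g : {g : Pt × Pt | Fr g ∧ TIW.hn (z - pe g B) ≤ 2 ^ i}, (fun _ : F => (1 : ℝ≥0∞)) (φ g) := rfl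
    _ ≤ ∑' _x : F, (1 : ℝ≥0∞) := ENNReal.tsum_comp_le_tsum_of_injective hinj (fun _ : F => (1 : ℝ≥0∞))
    _ = (F.card : ℝ≥0∞) := by
        rw [tsum_fintype, sum_const, card_univ, Fintype.card_coe, nsmul_eq_mul, mul_one]
    _ ≤ ENNReal.ofReal (54 * 4 ^ i) := by
        rw [← ENNReal.ofReal_natCast]
        refine ENNReal.ofReal_le_ofReal ?_
        have hd : dirs.card = 6 := by decide
        have hc : (Icc (-(N : ℤ)) N).card = 2 * N + 1 := by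
          rw [Int.card_Icc]
          omega
        rw [hF, card_product, card_product, hd, hc]
        have h4 : (4 : ℝ) ^ i = (N : ℝ) * N := by
          rw [hN]
          push_cast
          rw [← mul_pow]
          norm_num
        have h5 : (1 : ℝ) ≤ N := by
          rw [hN]
          push_cast
          exact one_le_pow₀ (by norm_num)
        rw [h4]
        push_cast
        nlinarith

/-- **the product bound** with a reference point that depends on the first word -/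
theorem gp_prodZ (i : ℕ) (S1 S2 : Set (List Bool)) (z : List Bool → Pt) :
    gp {T | T.1 ∈ S1 ∧ T.2.2 ∈ S2 ∧ Fr T.2.1 ∧ TIW.hn (z T.1 - pe T.2.1 T.2.2) ≤ 2 ^ i} ≤
      ENNReal.ofReal (54 * 4 ^ i) * (gf S1 * gf S2) := by
  classical
  rw [gp_indicator, ENNReal.tsum_prod']
  have h1 : ∀ L : List Bool, ∑' G : (Pt × Pt) × List Bool,
      ({T : PT | T.1 ∈ S1 ∧ T.2.2 ∈ S2 ∧ Fr T.2.1 ∧ TIW.hn (z T.1 - pe T.2.1 T.2.2) ≤ 2 ^ i}).indicator
        (fun T : PT => wE T.1 * wE T.2.2) (L, G) ≤ (if L ∈ S1 then wE L else 0) * (ENNReal.ofReal (54 * 4 ^ i) * gf S2) := by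
    intro L
    by_cases hL : L ∈ S1
    · rw [if_pos hL, ENNReal.tsum_prod', ENNReal.tsum_comm]
      have h2 : ∀ B : List Bool, ∑' g : Pt × Pt,
          ({T : PT | T.1 ∈ S1 ∧ T.2.2 ∈ S2 ∧ Fr T.2.1 ∧ TIW.hn (z T.1 - pe T.2.1 T.2.2) ≤ 2 ^ i}).indicator
            (fun T : PT => wE T.1 * wE T.2.2) (L, (g, B)) ≤
            wE L * ((if B ∈ S2 then wE B else 0) * ENNReal.ofReal (54 * 4 ^ i)) := by
        intro B
        by_cases hB : B ∈ S2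
        · rw [if_pos hB, ← mul_assoc]
          refine le_trans (le_of_eq ?_) (mul_le_mul_right (frames_leZ i (z L) B) _)
          rw [← ENNReal.tsum_mul_left]
          refine tsum_congr fun g => ?_
          by_cases hg : Fr g ∧ TIW.hn (z L - pe g B) ≤ 2 ^ i
          · rw [if_pos hg, mul_one]
            exact Set.indicator_of_mem (show ((L, (g, B)) : PT) ∈ {T : PT | T.1 ∈ S1 ∧ T.2.2 ∈ S2 ∧ Fr T.2.1 ∧
              TIW.hn (z T.1 - pe T.2.1 T.2.2) ≤ 2 ^ i} from ⟨hL, hB, hg⟩) _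
          · rw [if_neg hg, mul_zero]
            exact Set.indicator_of_notMem (show ((L, (g, B)) : PT) ∉ {T : PT | T.1 ∈ S1 ∧ T.2.2 ∈ S2 ∧ Fr T.2.1 ∧
              TIW.hn (z T.1 - pe T.2.1 T.2.2) ≤ 2 ^ i} from fun h => hg h.2.2) _
        · rw [if_neg hB, zero_mul, mul_zero]
          refine le_of_eq (ENNReal.tsum_eq_zero.2 fun g => ?_)
          exact Set.indicator_of_notMem (show ((L, (g, B)) : PT) ∉ {T : PT | T.1 ∈ S1 ∧ T.2.2 ∈ S2 ∧ Fr T.2.1 ∧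
            TIW.hn (z T.1 - pe T.2.1 T.2.2) ≤ 2 ^ i} from fun h => hB h.2.1) _
      refine (ENNReal.tsum_le_tsum h2).trans (le_of_eq ?_)
      rw [ENNReal.tsum_mul_left, ENNReal.tsum_mul_right, ← gf_ite, mul_comm (gf S2)]
    · rw [if_neg hL, zero_mul]
      refine le_of_eq (ENNReal.tsum_eq_zero.2 fun G => ?_)
      exact Set.indicator_of_notMem (show ((L, G) : PT) ∉ {T : PT | T.1 ∈ S1 ∧ T.2.2 ∈ S2 ∧ Fr T.2.1 ∧
        TIW.hn (z T.1 - pe T.2.1 T.2.2) ≤ 2 ^ i} from fun h => hL h.1) _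
  refine (ENNReal.tsum_le_tsum h1).trans (le_of_eq ?_)
  rw [ENNReal.tsum_mul_right, ← gf_ite]
  ring

/-! ### the mass of the pairs with the first word from the gap -/

theorem massPO (hT : T1P) : ∃ C : ℝ, 0 < C ∧ ∀ N j : ℕ, 1 ≤ N → gp (PO N j) ≤ ENNReal.ofReal (C * pr3 N j) := by
  obtain ⟨D, hD, h⟩ := hT
  obtain ⟨C2, hC2, hB⟩ := conf_ball
  refine ⟨2 * D * 2 ^ 12 + 54 * C2, by positivity, fun N j hN => ?_⟩
  have hp := pr3_pos N j
  have hN' : (1 : ℝ) ≤ N := by exact_mod_cast hN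
  have hsub : PO N j ⊆ {T | T ∈ PO N j ∧ 1 ≤ T.1.length} ∪ {T | T.1 ∈ ({[]} : Set (List Bool)) ∧
      T.2.2 ∈ {L | L ∈ SA ∧ ∀ s, s ≤ L.length → dz L s ≤ (N : ℤ)} ∧ Fr T.2.1 ∧
      TIW.hn ((fun _ : List Bool => (0 : Pt)) T.1 - pe T.2.1 T.2.2) ≤ 2 ^ j} := by
    intro T hT
    rcases Nat.eq_zero_or_pos T.1.length with h0 | h0
    · right
      obtain ⟨h1, h2, h3, h4, h5, h6, h7⟩ := hT
      refine ⟨List.length_eq_zero_iff.1 h0, ⟨h2, h7⟩, h3, ?_⟩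
      show TIW.hn (0 - pe T.2.1 T.2.2) ≤ 2 ^ j
      rw [zero_sub, TIW.hn_neg]
      exact h5
    · exact Or.inl ⟨hT, h0⟩
  have h1 : gp {T | T ∈ PO N j ∧ 1 ≤ T.1.length} ≤ ENNReal.ofReal (2 * D * 2 ^ 12 * pr3 N j) := by
    refine (gp_rp (S' := P3 N (j + 2)) (fun T hT => hT.2) (fun T hT => rp_P3 hT.1 hT.2)).trans ?_
    refine (mul_le_mul_right (h N (j + 2)) _).trans ?_
    rw [show (2 : ℝ≥0∞) = ENNReal.ofReal 2 by simp, ← ENNReal.ofReal_mul (by norm_num)]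
    refine ENNReal.ofReal_le_ofReal ?_
    have h2 := pr3_up N j 2
    have h3 : (2 : ℝ) ^ ((67 / 12 : ℝ) * ((2 : ℕ) : ℝ)) ≤ 2 ^ 12 := by
      rw [← Real.rpow_natCast 2 12]
      refine Real.rpow_le_rpow_of_exponent_le (by norm_num) ?_
      push_cast
      norm_num
    calc 2 * (D * pr3 N (j + 2)) ≤ 2 * (D * (2 ^ 12 * pr3 N j)) := by
          have := h2.trans (mul_le_mul_of_nonneg_right h3 hp.le)
          gcongr
      _ = _ := by ring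
  have h2 := gp_prodZ j ({[]} : Set (List Bool)) {L | L ∈ SA ∧ ∀ s, s ≤ L.length → dz L s ≤ (N : ℤ)} (fun _ => (0 : Pt))
  have h3 : gf ({[]} : Set (List Bool)) ≤ 1 := by
    unfold gf
    rw [tsum_singleton ([] : List Bool) (fun L => wE L)]
    unfold wE
    simp
  have h4 : gp {T | T.1 ∈ ({[]} : Set (List Bool)) ∧
      T.2.2 ∈ {L | L ∈ SA ∧ ∀ s, s ≤ L.length → dz L s ≤ (N : ℤ)} ∧ Fr T.2.1 ∧
      TIW.hn ((fun _ : List Bool => (0 : Pt)) T.1 - pe T.2.1 T.2.2) ≤ 2 ^ j} ≤ ENNReal.ofReal (54 * C2 * pr3 N j) := by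
    refine h2.trans ?_
    calc ENNReal.ofReal (54 * 4 ^ j) * (gf ({[]} : Set (List Bool)) *
          gf {L | L ∈ SA ∧ ∀ s, s ≤ L.length → dz L s ≤ (N : ℤ)})
        ≤ ENNReal.ofReal (54 * 4 ^ j) * (1 * ENNReal.ofReal (C2 * (N : ℝ) ^ (43 / 24 : ℝ))) :=
          mul_le_mul_right (mul_le_mul' h3 (hB N hN)) _
      _ = ENNReal.ofReal (54 * C2 * (4 ^ j * (N : ℝ) ^ (43 / 24 : ℝ))) := by
          rw [one_mul, ← ENNReal.ofReal_mul (by positivity)]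
          congr 1
          ring
      _ ≤ _ := by
          refine ENNReal.ofReal_le_ofReal (mul_le_mul_of_nonneg_left ?_ (by positivity))
          refine le_trans ?_ (pr3_low N j)
          have h5 : (N : ℝ) ^ (43 / 24 : ℝ) ≤ (max (N : ℝ) (2 ^ j)) ^ (43 / 24 : ℝ) :=
            Real.rpow_le_rpow (by positivity) (le_max_left _ _) (by norm_num)
          have h6 : (1 : ℝ) ≤ (2 : ℝ) ^ ((43 / 24 : ℝ) * (j : ℝ)) := Real.one_le_rpow (by norm_num) (by positivity)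
          calc (4 : ℝ) ^ j * (N : ℝ) ^ (43 / 24 : ℝ) ≤ 4 ^ j * (max (N : ℝ) (2 ^ j)) ^ (43 / 24 : ℝ) :=
                mul_le_mul_of_nonneg_left h5 (by positivity)
            _ ≤ _ := le_mul_of_one_le_right (by positivity) h6
  calc gp (PO N j) ≤ _ := gp_mono hsub
    _ ≤ _ := gp_union_le _ _
    _ ≤ _ := add_le_add h1 h4
    _ = _ := by
        rw [← ENNReal.ofReal_add (by positivity) (by positivity)]
        congr 1
        ring

/-! ### the ensemble -/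

/-- weighted masses -/
noncomputable def MW (P : ℕ → Set (List Bool)) (c t : ℕ) : ℝ≥0∞ :=
  ∑' u : ℕ, ENNReal.ofReal (1 / ((u : ℝ) + 1) ^ 8) * gf (P (t + u + c))

lemma MW_ge (P : ℕ → Set (List Bool)) (c t : ℕ) : gf (P (t + c)) ≤ MW P c t := by
  unfold MW
  refine le_trans (le_of_eq ?_) (ENNReal.le_tsum 0)
  rw [Nat.cast_zero, zero_add, one_pow, div_one, ENNReal.ofReal_one, one_mul, Nat.add_zero]

lemma MW_grow (P : ℕ → Set (List Bool)) (c t s : ℕ) :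
    MW P c (t + 2 ^ s) ≤ ENNReal.ofReal (((2 : ℝ) ^ 8) ^ (s + 1)) * MW P c t := by
  unfold MW
  obtain ⟨f, hf⟩ : ∃ f : ℕ → ℝ≥0∞, f = fun u : ℕ => ENNReal.ofReal (1 / ((u : ℝ) + 1) ^ 8) * gf (P (t + u + c)) :=
    ⟨_, rfl⟩
  have h1 : ∀ u : ℕ, ENNReal.ofReal (1 / ((u : ℝ) + 1) ^ 8) * gf (P (t + 2 ^ s + u + c)) ≤
      ENNReal.ofReal (((2 : ℝ) ^ 8) ^ (s + 1)) * f (u + 2 ^ s) := by
    intro u
    rw [hf]
    show _ ≤ _ * (ENNReal.ofReal _ * gf _)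
    rw [← mul_assoc, ← ENNReal.ofReal_mul (by positivity), show t + 2 ^ s + u + c = t + (u + 2 ^ s) + c by ring]
    refine mul_le_mul_left (ENNReal.ofReal_le_ofReal ?_) _
    push_cast
    have hu : (0 : ℝ) ≤ u := Nat.cast_nonneg u
    have h2 : (1 : ℝ) ≤ 2 ^ s := one_le_pow₀ (by norm_num)
    have h3 : (u : ℝ) + 2 ^ s + 1 ≤ 2 ^ (s + 1) * (u + 1) := by
      rw [pow_succ]
      nlinarith
    have h4 : ((u : ℝ) + 2 ^ s + 1) ^ 8 ≤ ((2 : ℝ) ^ 8) ^ (s + 1) * (u + 1) ^ 8 := by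
      calc ((u : ℝ) + 2 ^ s + 1) ^ 8 ≤ (2 ^ (s + 1) * (u + 1)) ^ 8 := pow_le_pow_left₀ (by positivity) h3 _
        _ = ((2 : ℝ) ^ 8) ^ (s + 1) * (u + 1) ^ 8 := by
            rw [mul_pow ((2 : ℝ) ^ (s + 1)), ← pow_mul, ← pow_mul, mul_comm (s + 1) 8]
    rw [mul_one_div, div_le_div_iff₀ (by positivity) (by positivity), one_mul]
    exact h4
  refine (ENNReal.tsum_le_tsum h1).trans ?_
  rw [ENNReal.tsum_mul_left]
  refine mul_le_mul_right ?_ _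
  rw [hf]
  exact ENNReal.tsum_comp_le_tsum_of_injective (fun a b h => Nat.add_right_cancel h)
    (fun u : ℕ => ENNReal.ofReal (1 / ((u : ℝ) + 1) ^ 8) * gf (P (t + u + c)))

/-- the first words from the gap, for the spectator E -/
def QO (E : Set Pt) (m t : ℕ) : Set (List Bool) :=
  {W | W ∈ SAE E ∧ ∀ s, s ≤ W.length → TIW.hn (vx oo up W s) ≤ ((t : ℤ) + 1) * 2 ^ m}

lemma QO_mono (E : Set Pt) (m : ℕ) {t t' : ℕ} (h : t ≤ t') : QO E m t ⊆ QO E m t' := by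
  rintro L ⟨h1, h3⟩
  have ht : ((t : ℤ) + 1) * 2 ^ m ≤ ((t' : ℤ) + 1) * 2 ^ m :=
    mul_le_mul_of_nonneg_right (by exact_mod_cast Nat.succ_le_succ h) (by positivity)
  exact ⟨h1, fun s hs => (h3 s hs).trans ht⟩

lemma ensQO (E : Set Pt) (m : ℕ) : EnsO E (QO E m) (MW (QO E m) 10) m ((2 : ℝ) ^ 8) := by
  refine ⟨fun t L hL => hL.1, fun t s A Z hAZ hZ hZh hs => ?_, fun t => ?_, fun t k hk => ?_,
    fun t s => MW_grow (QO E m) 10 t s⟩
  · refine QO_mono E m (Nat.le_add_right t (2 ^ s)) ⟨SAE_pre hAZ.1, fun v hv => ?_⟩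
    have h5 := hAZ.2 v (by rw [List.length_append]; omega)
    rwa [vx_append (by omega)] at h5
  · exact (gf_mono (QO_mono E m (by omega))).trans (MW_ge (QO E m) 10 t)
  · refine (gf_mono ?_).trans (MW_ge (QO E m) 10 t)
    rintro T ⟨hT1, L, ⟨h1, h3⟩, e, he, rfl⟩
    have e1 : (((t + 10 : ℕ) : ℤ) + 1) * 2 ^ m = ((t : ℤ) + 1) * 2 ^ m + 10 * 2 ^ m := by
      push_cast
      ring
    have hp : (0 : ℤ) < 2 ^ m := by positivity
    refine ⟨hT1, fun v hv => ?_⟩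
    rw [e1]
    rcases Nat.lt_or_ge L.length v with h5 | h5
    · obtain ⟨j, rfl⟩ : ∃ j, v = L.length + j := ⟨v - L.length, by omega⟩
      rw [List.length_append] at hv
      rw [vx_general]
      refine (TIW.hn_add _ _).trans (add_le_add (h3 L.length le_rfl) ?_)
      rw [TIW.hn_mulE (nrm_rotTo upd (dx_mem upd L L.length))]
      exact shE_vx hk he (by omega)
    · rw [vx_append (by omega)]
      have := h3 v h5
      linarith

/-! ### large second words -/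

/-- a path along the placed word -/
lemma ob_path {g : Pt × Pt} (hg : Fr g) {B : List Bool} {v s' : ℕ} (hv : v ≤ B.length) (hs' : s' ≤ B.length) :
    ∃ (γ : ℕ → Pt) (n : ℕ), Pth γ n ∧ γ 0 = pv g B v ∧ (∀ k, k ≤ n → γ k ∈ ob g B) ∧ γ n = pv g B s' := by
  rcases le_total v s' with h1 | h1
  · refine ⟨fun k => pv g B (v + k), s' - v, fun k _ => pv_AdP hg B (v + k), rfl, fun k hk => ⟨v + k, by omega, rfl⟩, ?_⟩
    show pv g B (v + (s' - v)) = _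
    rw [show v + (s' - v) = s' by omega]
  · refine ⟨fun k => pv g B (v - k), v - s', fun k hk => ?_, rfl, fun k hk => ⟨v - k, by omega, rfl⟩, ?_⟩
    · have h2 := pv_AdP hg B (v - (k + 1))
      rw [show v - (k + 1) + 1 = v - k by omega] at h2
      exact AdP_symm h2
    · show pv g B (v - (v - s')) = _
      rw [show v - (v - s') = s' by omega]

/-- a word with a large extent in comparison with its distance from the origin -/
lemma obN_ob {g : Pt × Pt} (hg : Fr g) {B : List Bool} {j s : ℕ} (hs : s ≤ B.length) (hd : 2 ^ (j + 1) < dz B s)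
    (hp : TIW.hn (pe g B) ≤ 2 ^ j) (r : ℕ) : ObN (r : ℤ) (ob g B) := by
  -- the farthest vertex
  obtain ⟨v0, hv0, hmax⟩ := exists_max_image (range (B.length + 1)) (fun v => dz B v) ⟨0, by simp⟩
  rw [mem_range] at hv0
  have hmax' : ∀ v, v ≤ B.length → dz B v ≤ dz B v0 := fun v hv => hmax v (by rw [mem_range]; omega)
  have h1 : (2 : ℤ) ^ (j + 1) < dz B v0 := lt_of_lt_of_le hd (hmax' s hs)
  have e2 : (2 : ℤ) ^ (j + 1) = 2 * 2 ^ j := by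
    rw [pow_succ]
    ring
  have hj : (0 : ℤ) < 2 ^ j := by positivity
  rintro q ⟨v, hv, rfl⟩
  have h2 : TIW.hn (pv g B v) ≤ dz B v + 2 ^ j := by
    have e : pv g B v = (pv g B v - pv g B B.length) + pe g B := by
      unfold pe
      abel
    calc TIW.hn (pv g B v) = TIW.hn ((pv g B v - pv g B B.length) + pe g B) := by rw [← e]
      _ ≤ TIW.hn (pv g B v - pv g B B.length) + TIW.hn (pe g B) := TIW.hn_add _ _
      _ ≤ dz B v + 2 ^ j := by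
          refine add_le_add (le_of_eq ?_) hp
          rw [hn_pv_self hg]
          rfl
  have h3 := hmax' v hv
  rcases le_or_gt (15 * dz B v0) (r : ℤ) with h4 | h4
  · left
    linarith
  · right
    have h5 : dz B v0 ≤ TIW.hn (vx oo up B v0 - vx oo up B v) + TIW.hn (vx oo up B B.length - vx oo up B v) := by
      have e : vx oo up B v0 - TIW.en B = (vx oo up B v0 - vx oo up B v) - (vx oo up B B.length - vx oo up B v) := by
        unfold TIW.en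
        abel
      unfold dz
      rw [e]
      exact TIW.hn_sub _ _
    rcases le_total (TIW.hn (vx oo up B v0 - vx oo up B v)) (TIW.hn (vx oo up B B.length - vx oo up B v)) with h6 | h6
    · obtain ⟨γ, n, g1, g2, g3, g4⟩ := ob_path hg hv (le_refl B.length)
      refine ⟨γ, n, g1, g2, g3, ?_⟩
      rw [g4, hn_pv_self hg]
      linarith
    · obtain ⟨γ, n, g1, g2, g3, g4⟩ := ob_path hg hv (show v0 ≤ B.length by omega)
      refine ⟨γ, n, g1, g2, g3, ?_⟩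
      rw [g4, hn_pv_self hg]
      linarith

/-- **the good outer end, large second words** -/
theorem outCore {η : ℝ} (hη : 0 < η) : ∃ C : ℝ, 0 < C ∧ ∀ (m j b : ℕ) (K : ℝ≥0∞), b ≤ m →
    (∀ t : ℕ, gp (PO ((t + 1) * 2 ^ m) j) ≤ K * ENNReal.ofReal (((t : ℝ) + 1) ^ 4)) →
    gp {T | T ∈ PO (2 ^ m) j ∧ T.1 ∈ GT b η ∧ ∀ r : ℕ, ObN (r : ℤ) (ob T.2.1 T.2.2)} * Xb b ≤ ENNReal.ofReal C * K := by
  obtain ⟨C, hC, hT⟩ := tipN η ((2 : ℝ) ^ 8) hη (by norm_num)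
  have hsum : Summable fun u : ℕ => 1 / ((u : ℝ) + 1) ^ 2 := by
    have h1 : Summable fun n : ℕ => 1 / (n : ℝ) ^ 2 := Real.summable_one_div_nat_pow.2 (by norm_num)
    have h2 := (summable_nat_add_iff 1).2 h1
    refine h2.congr fun u => ?_
    push_cast
    rfl
  obtain ⟨Z, hZ⟩ : ∃ Z : ℝ, Z = ∑' u : ℕ, 1 / ((u : ℝ) + 1) ^ 2 := ⟨_, rfl⟩
  have hZ0 : 0 ≤ Z := by
    rw [hZ]
    exact tsum_nonneg fun u => by positivity
  refine ⟨C * (11 ^ 4 * Z) + 1, by positivity, fun m j b K hb hK => ?_⟩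
  obtain ⟨S0, hS0⟩ : ∃ S0 : Set PT, S0 = {T | T ∈ PO (2 ^ m) j ∧ T.1 ∈ GT b η ∧ ∀ r : ℕ, ObN (r : ℤ) (ob T.2.1 T.2.2)} :=
    ⟨_, rfl⟩
  obtain ⟨S, hS⟩ : ∃ S : ℕ → Set PT, S = fun u => {T | (T.2.2 ∈ SA ∧ Fr T.2.1 ∧ TIW.hn (pe T.2.1 T.2.2) ≤ 2 ^ j ∧
    ∀ s, s ≤ T.2.2.length → dz T.2.2 s ≤ ((2 ^ m : ℕ) : ℤ)) ∧ T.1 ∈ QO (ob T.2.1 T.2.2) m (u + 10)} := ⟨_, rfl⟩
  obtain ⟨w, hw⟩ : ∃ w : ℕ → ℝ≥0∞, w = fun u : ℕ => ENNReal.ofReal (1 / ((u : ℝ) + 1) ^ 8) := ⟨_, rfl⟩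
  -- the fibres
  have h1 : ∀ G : (Pt × Pt) × List Bool, gf {L | ((L, G) : PT) ∈ S0} * Xb b ≤
      ENNReal.ofReal C * ∑' u, w u * gf {L | ((L, G) : PT) ∈ S u} := by
    intro G
    by_cases hG : (G.2 ∈ SA ∧ Fr G.1 ∧ TIW.hn (pe G.1 G.2) ≤ 2 ^ j ∧ ∀ s, s ≤ G.2.length → dz G.2 s ≤ ((2 ^ m : ℕ) : ℤ)) ∧
        ∀ r : ℕ, ObN (r : ℤ) (ob G.1 G.2)
    · obtain ⟨hG1, hG2⟩ := hG
      refine (mul_le_mul_left (gf_mono ?_) _).trans ((hT (ob G.1 G.2) (QO (ob G.1 G.2) m) (MW (QO (ob G.1 G.2) m) 10) m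
        (ensQO (ob G.1 G.2) m) hG2 b 0 hb).trans (mul_le_mul_right ?_ _))
      · intro L hL
        have hL' : ((L, G) : PT) ∈ S0 := hL
        rw [hS0] at hL'
        obtain ⟨⟨g1, g2, g3, g4, g5, g6, g7⟩, g8, -⟩ := hL'
        refine ⟨⟨⟨g1, g4⟩, fun s hs => ?_⟩, g8⟩
        rw [Nat.cast_zero, zero_add, one_mul]
        have := g6 s hs
        push_cast at this
        exact this
      · unfold MW
        refine ENNReal.tsum_le_tsum fun u => ?_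
        rw [hw]
        refine mul_le_mul_right (gf_mono fun L hL => ?_) _
        show ((L, G) : PT) ∈ S u
        rw [hS]
        rw [zero_add] at hL
        exact ⟨hG1, hL⟩
    · have h2 : {L | ((L, G) : PT) ∈ S0} = ∅ := by
        ext L
        simp only [Set.mem_empty_iff_false, iff_false]
        intro hL
        have hL' : ((L, G) : PT) ∈ S0 := hL
        rw [hS0] at hL'
        obtain ⟨⟨g1, g2, g3, g4, g5, g6, g7⟩, g8, g9⟩ := hL'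
        exact hG ⟨⟨g2, g3, g5, g7⟩, g9⟩
      rw [h2]
      have h3 : gf (∅ : Set (List Bool)) = 0 := by
        unfold gf
        exact tsum_empty
      rw [h3, zero_mul]
      exact zero_le
  -- the sum
  have h2 : gp S0 * Xb b ≤ ENNReal.ofReal C * ∑' u, w u * gp (S u) := by
    rw [gp_fib, ← ENNReal.tsum_mul_right]
    calc ∑' G : (Pt × Pt) × List Bool, wE G.2 * gf {L | ((L, G) : PT) ∈ S0} * Xb b
        ≤ ∑' G : (Pt × Pt) × List Bool, ENNReal.ofReal C * ∑' u, w u * (wE G.2 * gf {L | ((L, G) : PT) ∈ S u}) := by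
          refine ENNReal.tsum_le_tsum fun G => ?_
          rw [mul_assoc]
          refine (mul_le_mul_right (h1 G) _).trans (le_of_eq ?_)
          rw [← mul_assoc, mul_comm (wE G.2), mul_assoc, ← ENNReal.tsum_mul_left]
          congr 1
          exact tsum_congr fun u => by ring
      _ = ENNReal.ofReal C * ∑' u, w u * gp (S u) := by
          rw [ENNReal.tsum_mul_left, ENNReal.tsum_comm]
          congr 1
          refine tsum_congr fun u => ?_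
          rw [ENNReal.tsum_mul_left, ← gp_fib]
  -- one term
  have h3 : ∀ u : ℕ, w u * gp (S u) ≤ K * ENNReal.ofReal (11 ^ 4 * (1 / ((u : ℝ) + 1) ^ 2)) := by
    intro u
    have hsub : S u ⊆ PO ((u + 10 + 1) * 2 ^ m) j := by
      rw [hS]
      rintro T ⟨⟨g1, g2, g3, g4⟩, g5, g7⟩
      have e1 : ((((u + 10 + 1) * 2 ^ m : ℕ)) : ℤ) = (((u + 10 : ℕ) : ℤ) + 1) * 2 ^ m := by
        push_cast
        ring
      have e2 : ((2 ^ m : ℕ) : ℤ) ≤ (((u + 10 : ℕ) : ℤ) + 1) * 2 ^ m := by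
        push_cast
        have hp : (0 : ℤ) < 2 ^ m := by positivity
        have hu : (0 : ℤ) ≤ (u : ℤ) := by positivity
        nlinarith
      exact ⟨g5.1, g1, g2, g5.2, g3, fun s hs => (g7 s hs).trans (le_of_eq e1.symm),
        fun s hs => (g4 s hs).trans (e2.trans (le_of_eq e1.symm))⟩
    have h4 := hK (u + 10)
    have h5 : ((((u + 10 : ℕ) : ℝ)) + 1) ^ 4 ≤ (11 * ((u : ℝ) + 1)) ^ 4 := by
      refine pow_le_pow_left₀ (by positivity) ?_ _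
      push_cast
      have h7 : (0 : ℝ) ≤ u := Nat.cast_nonneg u
      linarith
    calc w u * gp (S u) ≤ w u * (K * ENNReal.ofReal ((11 * ((u : ℝ) + 1)) ^ 4)) :=
          mul_le_mul_right ((gp_mono hsub).trans (h4.trans (mul_le_mul_right (ENNReal.ofReal_le_ofReal h5) _))) _
      _ = K * ENNReal.ofReal (11 ^ 4 * (1 / ((u : ℝ) + 1) ^ 4)) := by
          have hu : (0 : ℝ) < (u : ℝ) + 1 := by positivity
          rw [hw]
          simp only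
          have e : (11 : ℝ) ^ 4 * (1 / ((u : ℝ) + 1) ^ 4) = 1 / ((u : ℝ) + 1) ^ 8 * (11 * ((u : ℝ) + 1)) ^ 4 := by
            field_simp
          rw [e, ENNReal.ofReal_mul (show 0 ≤ 1 / ((u : ℝ) + 1) ^ 8 by positivity)]
          ring
      _ ≤ _ := by
          refine mul_le_mul_right (ENNReal.ofReal_le_ofReal (mul_le_mul_of_nonneg_left ?_ (by norm_num))) _
          have hu : (1 : ℝ) ≤ (u : ℝ) + 1 := by
            have h7 : (0 : ℝ) ≤ u := Nat.cast_nonneg u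
            linarith
          exact one_div_le_one_div_of_le (by positivity) (pow_le_pow_right₀ hu (by norm_num))
  rw [← hS0]
  refine h2.trans ((mul_le_mul_right (ENNReal.tsum_le_tsum h3) _).trans ?_)
  rw [ENNReal.tsum_mul_left]
  have h4 : ∑' u : ℕ, ENNReal.ofReal (11 ^ 4 * (1 / ((u : ℝ) + 1) ^ 2)) = ENNReal.ofReal (11 ^ 4 * Z) := by
    rw [hZ, ← tsum_mul_left, ENNReal.ofReal_tsum_of_nonneg (fun u => by positivity) (hsum.mul_left _)]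
  rw [h4]
  calc ENNReal.ofReal C * (K * ENNReal.ofReal (11 ^ 4 * Z)) = ENNReal.ofReal (C * (11 ^ 4 * Z)) * K := by
        rw [ENNReal.ofReal_mul hC.le]
        ring
    _ ≤ _ := mul_le_mul_left (ENNReal.ofReal_le_ofReal (by linarith)) _

/-- the height of the reversed word -/
lemma hgt_rev {N : ℕ} {Y : List Bool} (h1 : 1 ≤ N) (hY : ∀ s, s ≤ Y.length → dz Y s ≤ (N : ℤ)) (hB : rev Y ∈ BU) :
    hgt (rev Y) ≤ N := by
  rcases Nat.eq_zero_or_pos Y.length with h0 | h0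
  · have e : Y = [] := List.length_eq_zero_iff.1 h0
    have e2 : rev Y = [] := by
      rw [e]
      rfl
    rw [e2, hgt_nil]
    omega
  · obtain ⟨c, hc, hf⟩ := RevM.rev_frame Y
    have h2 := hf Y.length (by omega)
    rw [show Y.length + 1 - Y.length = 1 by omega] at h2
    have h3 : ip (vx oo up (rev Y) (rev Y).length) up = 3 * (hgt (rev Y) : ℤ) := levE_BU hB
    rw [rev_length] at h3
    have h4 : ip (vx oo up (rev Y) Y.length) up ≤ TIW.hn (vx oo up (rev Y) Y.length) := by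
      unfold TIW.hn
      exact (le_abs_self _).trans (le_max_left _ _)
    have h5 : TIW.hn (vx oo up (rev Y) Y.length) = TIW.hn (vx oo up Y 1 - vx oo up Y (Y.length + 1)) := by
      have e : vx oo up Y 1 - vx oo up Y (Y.length + 1) = mulE c (vx oo up (rev Y) Y.length) := by
        rw [h2]
        abel
      rw [e, hn_mulE' hc]
    have h6 : vx oo up Y (Y.length + 1) = TIW.en Y + dx up Y Y.length := rfl
    have h7 : TIW.hn (vx oo up Y 1 - vx oo up Y (Y.length + 1)) ≤ dz Y 1 + TIW.hn (dx up Y Y.length) := by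
      have e : vx oo up Y 1 - vx oo up Y (Y.length + 1) = (vx oo up Y 1 - TIW.en Y) - dx up Y Y.length := by
        rw [h6]
        abel
      rw [e]
      exact TIW.hn_sub _ _
    have h8 : TIW.hn (dx up Y Y.length) ≤ 2 := by
      have : ∀ d ∈ dirs, TIW.hn d ≤ 2 := by decide
      exact this _ (dx_mem upd Y Y.length)
    have h9 := hY 1 h0
    have h10 : (1 : ℤ) ≤ N := by exact_mod_cast h1
    have h11 : (hgt (rev Y) : ℤ) ≤ N := by linarith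
    exact_mod_cast h11

/-- **row P1''** -/
theorem tipPo : TipPo := by
  intro hT1 η hη
  obtain ⟨C, hC, hT⟩ := outCore hη
  obtain ⟨C0, hC0, hM⟩ := massPO hT1
  obtain ⟨C1, hC1, hD1⟩ := tipD hη
  obtain ⟨C2, hC2, hB⟩ := conf_ball
  obtain ⟨C3, hC3, hUX⟩ := UX_up
  refine ⟨2 * (C * (C0 * 256) + 54 * C1 * C2 * 256) + 54 * C3 * C2 * 256, by positivity, fun R j b hb => ?_⟩
  have hp := pr3_pos R j
  obtain ⟨X, hX⟩ : ∃ X : ℝ, X = max (R : ℝ) (2 ^ j) := ⟨_, rfl⟩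
  have hX2 : (2 : ℝ) ^ j ≤ X := by
    rw [hX]
    exact le_max_right _ _
  have hX3 : (R : ℝ) ≤ X := by
    rw [hX]
    exact le_max_left _ _
  have hX0 : 0 < X := lt_of_lt_of_le (by positivity) hX2
  -- the size
  have h1j : 1 ≤ 2 ^ j := Nat.one_le_two_pow
  obtain ⟨m, hm1, hm2⟩ := pow_near (R + 2 ^ j - 1)
  rw [show R + 2 ^ j - 1 + 1 = R + 2 ^ j by omega] at hm1 hm2
  have hbm : b ≤ m := (Nat.pow_le_pow_iff_right (by norm_num)).1 (hb.trans hm1)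
  have hm4 : ((2 ^ m : ℕ) : ℝ) ≤ 4 * X := by
    have h1 : ((2 ^ m : ℕ) : ℝ) ≤ 2 * ((R : ℝ) + 2 ^ j) := by exact_mod_cast hm2
    linarith
  have hm4' : (2 : ℝ) ^ m ≤ 4 * X := by
    push_cast at hm4
    exact hm4
  -- the masses
  have hK : ∀ t : ℕ, gp (PO ((t + 1) * 2 ^ m) j) ≤ ENNReal.ofReal (C0 * 256 * pr3 R j) * ENNReal.ofReal (((t : ℝ) + 1) ^ 4) := by
    intro t
    refine (hM ((t + 1) * 2 ^ m) j (by
      have : 1 ≤ 2 ^ m := Nat.one_le_two_pow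
      nlinarith)).trans ?_
    rw [← ENNReal.ofReal_mul (by positivity)]
    refine ENNReal.ofReal_le_ofReal ?_
    have ht : (1 : ℝ) ≤ (t : ℝ) + 1 := by
      have : (0 : ℝ) ≤ t := Nat.cast_nonneg t
      linarith
    have h1 : max ((((t + 1) * 2 ^ m : ℕ)) : ℝ) (2 ^ j) ≤ (4 * ((t : ℝ) + 1)) * X := by
      refine max_le ?_ ?_
      · push_cast
        calc ((t : ℝ) + 1) * 2 ^ m ≤ ((t : ℝ) + 1) * (4 * X) := mul_le_mul_of_nonneg_left hm4' (by positivity)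
          _ = _ := by ring
      · nlinarith
    have h2 : (max ((((t + 1) * 2 ^ m : ℕ)) : ℝ) (2 ^ j)) ^ (25 / 8 : ℝ) ≤ 256 * ((t : ℝ) + 1) ^ 4 * X ^ (25 / 8 : ℝ) := by
      have h3 : (4 * ((t : ℝ) + 1)) ^ (25 / 8 : ℝ) ≤ (4 * ((t : ℝ) + 1)) ^ 4 := by
        have : (4 * ((t : ℝ) + 1)) ^ (25 / 8 : ℝ) ≤ (4 * ((t : ℝ) + 1)) ^ ((4 : ℕ) : ℝ) :=
          Real.rpow_le_rpow_of_exponent_le (by linarith) (by norm_num)
        rwa [Real.rpow_natCast] at this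
      calc (max ((((t + 1) * 2 ^ m : ℕ)) : ℝ) (2 ^ j)) ^ (25 / 8 : ℝ) ≤ ((4 * ((t : ℝ) + 1)) * X) ^ (25 / 8 : ℝ) :=
            Real.rpow_le_rpow (le_max_of_le_left (Nat.cast_nonneg _)) h1 (by norm_num)
        _ = (4 * ((t : ℝ) + 1)) ^ (25 / 8 : ℝ) * X ^ (25 / 8 : ℝ) := Real.mul_rpow (by positivity) hX0.le
        _ ≤ (4 * ((t : ℝ) + 1)) ^ 4 * X ^ (25 / 8 : ℝ) := mul_le_mul_of_nonneg_right h3 (by positivity)
        _ = _ := by ring
    have h3 : pr3 ((t + 1) * 2 ^ m) j ≤ 256 * ((t : ℝ) + 1) ^ 4 * pr3 R j := by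
      unfold pr3
      rw [← hX]
      calc (2 : ℝ) ^ ((59 / 24 : ℝ) * (j : ℝ)) * (max ((((t + 1) * 2 ^ m : ℕ)) : ℝ) (2 ^ j)) ^ (25 / 8 : ℝ)
          ≤ (2 : ℝ) ^ ((59 / 24 : ℝ) * (j : ℝ)) * (256 * ((t : ℝ) + 1) ^ 4 * X ^ (25 / 8 : ℝ)) :=
            mul_le_mul_of_nonneg_left h2 (by positivity)
        _ = _ := by ring
    calc C0 * pr3 ((t + 1) * 2 ^ m) j ≤ C0 * (256 * ((t : ℝ) + 1) ^ 4 * pr3 R j) := mul_le_mul_of_nonneg_left h3 hC0.le
      _ = _ := by ring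
  -- large second words
  have k1 := hT m j b _ hbm hK
  -- the ball
  have hball : (((2 ^ m : ℕ) : ℝ)) ^ (43 / 24 : ℝ) ≤ 16 * X ^ (43 / 24 : ℝ) := by
    have h3 : (4 : ℝ) ^ (43 / 24 : ℝ) ≤ 16 := by
      calc (4 : ℝ) ^ (43 / 24 : ℝ) ≤ (4 : ℝ) ^ (2 : ℝ) := Real.rpow_le_rpow_of_exponent_le (by norm_num) (by norm_num)
        _ = 16 := by
            rw [Real.rpow_two]
            norm_num
    calc (((2 ^ m : ℕ) : ℝ)) ^ (43 / 24 : ℝ) ≤ (4 * X) ^ (43 / 24 : ℝ) := Real.rpow_le_rpow (by positivity) hm4 (by norm_num)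
      _ = (4 : ℝ) ^ (43 / 24 : ℝ) * X ^ (43 / 24 : ℝ) := Real.mul_rpow (by norm_num) hX0.le
      _ ≤ _ := mul_le_mul_of_nonneg_right h3 (by positivity)
  have hlow := pr3_low R j
  rw [← hX] at hlow
  -- the sets
  obtain ⟨S1, hS1⟩ : ∃ S1 : Set (List Bool), S1 = {L | (L ∈ SA ∧ ∀ s, s ≤ L.length → dz L s ≤ ((2 ^ m : ℕ) : ℤ) + 2 ^ m) ∧ L ∈ GT b η} := ⟨_, rfl⟩
  obtain ⟨S2, hS2⟩ : ∃ S2 : Set (List Bool), S2 = {L | L ∈ SA ∧ ∀ s, s ≤ L.length → dz L s ≤ ((2 ^ (j + 1) : ℕ) : ℤ)} := ⟨_, rfl⟩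
  obtain ⟨S3, hS3⟩ : ∃ S3 : Set (List Bool), S3 = {Y | rev Y ∈ {V | V ∈ BU ∧ hgt V ≤ 2 ^ m}} := ⟨_, rfl⟩
  obtain ⟨S4, hS4⟩ : ∃ S4 : Set (List Bool), S4 = {L | L ∈ SA ∧ ∀ s, s ≤ L.length → dz L s ≤ ((2 ^ m : ℕ) : ℤ)} := ⟨_, rfl⟩
  -- small second words
  have k2 : gp {T | T.1 ∈ S1 ∧
      T.2.2 ∈ S2 ∧ Fr T.2.1 ∧
      TIW.hn ((0 : Pt) - pe T.2.1 T.2.2) ≤ 2 ^ j} * Xb b ≤
      ENNReal.ofReal (54 * C1 * C2 * 256 * pr3 R j) := by
    refine (mul_le_mul_left (gp_prodZ j S1 S2 (fun _ => (0 : Pt))) _).trans ?_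
    have g1 := hD1 (2 ^ m) m b hbm
    have g2 := hB (2 ^ (j + 1)) Nat.one_le_two_pow
    rw [← hS1] at g1
    rw [← hS2] at g2
    calc ENNReal.ofReal (54 * 4 ^ j) * (gf S1 * gf S2) * Xb b
        = ENNReal.ofReal (54 * 4 ^ j) * ((gf S1 * Xb b) * gf S2) := by ring
      _ ≤ ENNReal.ofReal (54 * 4 ^ j) * (ENNReal.ofReal (C1 * (max (((2 ^ m : ℕ)) : ℝ) (2 ^ m)) ^ (43 / 24 : ℝ)) *
          ENNReal.ofReal (C2 * ((2 ^ (j + 1) : ℕ) : ℝ) ^ (43 / 24 : ℝ))) := mul_le_mul_right (mul_le_mul' g1 g2) _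
      _ = ENNReal.ofReal (54 * 4 ^ j * (C1 * ((2 ^ m : ℕ) : ℝ) ^ (43 / 24 : ℝ) *
          (C2 * ((2 ^ (j + 1) : ℕ) : ℝ) ^ (43 / 24 : ℝ)))) := by
          have e : max (((2 ^ m : ℕ)) : ℝ) (2 ^ m) = ((2 ^ m : ℕ) : ℝ) := by
            push_cast
            exact max_self _
          rw [e, ← ENNReal.ofReal_mul (by positivity), ← ENNReal.ofReal_mul (by positivity)]
      _ ≤ _ := by
          refine ENNReal.ofReal_le_ofReal ?_
          have e1 : ((2 ^ (j + 1) : ℕ) : ℝ) ^ (43 / 24 : ℝ) ≤ 4 * (2 : ℝ) ^ ((43 / 24 : ℝ) * (j : ℝ)) := by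
            push_cast
            have e3 : (2 : ℝ) ^ (43 / 24 : ℝ) ≤ 4 := by
              calc (2 : ℝ) ^ (43 / 24 : ℝ) ≤ (2 : ℝ) ^ (2 : ℝ) :=
                    Real.rpow_le_rpow_of_exponent_le (by norm_num) (by norm_num)
                _ = 4 := by
                    rw [show (2 : ℝ) = ((2 : ℕ) : ℝ) by norm_num, Real.rpow_natCast]
                    norm_num
            calc ((2 : ℝ) ^ (j + 1)) ^ (43 / 24 : ℝ) = (2 * 2 ^ j) ^ (43 / 24 : ℝ) := by rw [pow_succ, mul_comm]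
              _ = (2 : ℝ) ^ (43 / 24 : ℝ) * ((2 : ℝ) ^ j) ^ (43 / 24 : ℝ) := Real.mul_rpow (by norm_num) (by positivity)
              _ = (2 : ℝ) ^ (43 / 24 : ℝ) * (2 : ℝ) ^ ((43 / 24 : ℝ) * (j : ℝ)) := by rw [two_pow_rpow]
              _ ≤ _ := mul_le_mul_of_nonneg_right e3 (by positivity)
          calc 54 * 4 ^ j * (C1 * ((2 ^ m : ℕ) : ℝ) ^ (43 / 24 : ℝ) * (C2 * ((2 ^ (j + 1) : ℕ) : ℝ) ^ (43 / 24 : ℝ)))
              ≤ 54 * 4 ^ j * (C1 * (16 * X ^ (43 / 24 : ℝ)) * (C2 * (4 * (2 : ℝ) ^ ((43 / 24 : ℝ) * (j : ℝ))))) := by gcongr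
            _ = 54 * C1 * C2 * 64 * ((4 : ℝ) ^ j * X ^ (43 / 24 : ℝ) * (2 : ℝ) ^ ((43 / 24 : ℝ) * (j : ℝ))) := by ring
            _ ≤ 54 * C1 * C2 * 64 * pr3 R j := mul_le_mul_of_nonneg_left hlow (by positivity)
            _ ≤ 54 * C1 * C2 * 256 * pr3 R j := by
                have : 0 < 54 * C1 * C2 * pr3 R j := by positivity
                nlinarith
  -- reversed bridges
  have k3 : gp {T | T.1 ∈ S3 ∧
      T.2.2 ∈ S4 ∧ Fr T.2.1 ∧
      TIW.hn (TIW.en T.1 - pe T.2.1 T.2.2) ≤ 2 ^ j} * Xb b ≤ ENNReal.ofReal (54 * C3 * C2 * 256 * pr3 R j) := by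
    refine (mul_le_mul_left (gp_prod j S3 S4) _).trans ?_
    have g1 : gf S3 ≤ ENNReal.ofReal (Ub m) := by
      rw [hS3, TD.gf_rev_eq]
      exact gf_lowBU (2 ^ m)
    have g2 := hB (2 ^ m) Nat.one_le_two_pow
    rw [← hS4] at g2
    have g3 := hUX m
    calc ENNReal.ofReal (54 * 4 ^ j) * (gf S3 *
          gf S4) * Xb b
        = ENNReal.ofReal (54 * 4 ^ j) * ((gf S3 * Xb b) *
          gf S4) := by ring
      _ ≤ ENNReal.ofReal (54 * 4 ^ j) * (ENNReal.ofReal (C3 * (2 : ℝ) ^ ((4 / 3 : ℝ) * (m : ℝ))) *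
          ENNReal.ofReal (C2 * ((2 ^ m : ℕ) : ℝ) ^ (43 / 24 : ℝ))) :=
          mul_le_mul_right (mul_le_mul' ((mul_le_mul' g1 (NTA.Xb_mono hbm)).trans g3) g2) _
      _ = ENNReal.ofReal (54 * 4 ^ j * (C3 * (2 : ℝ) ^ ((4 / 3 : ℝ) * (m : ℝ)) *
          (C2 * ((2 ^ m : ℕ) : ℝ) ^ (43 / 24 : ℝ)))) := by
          rw [← ENNReal.ofReal_mul (by positivity), ← ENNReal.ofReal_mul (by positivity)]
      _ ≤ _ := by
          refine ENNReal.ofReal_le_ofReal ?_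
          have e1 : (2 : ℝ) ^ ((4 / 3 : ℝ) * (m : ℝ)) ≤ 16 * X ^ (4 / 3 : ℝ) := by
            have e3 : (4 : ℝ) ^ (4 / 3 : ℝ) ≤ 16 := by
              calc (4 : ℝ) ^ (4 / 3 : ℝ) ≤ (4 : ℝ) ^ (2 : ℝ) := Real.rpow_le_rpow_of_exponent_le (by norm_num) (by norm_num)
                _ = 16 := by
                    rw [Real.rpow_two]
                    norm_num
            rw [← two_pow_rpow]
            calc ((2 : ℝ) ^ m) ^ (4 / 3 : ℝ) ≤ (4 * X) ^ (4 / 3 : ℝ) := Real.rpow_le_rpow (by positivity) hm4' (by norm_num)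
              _ = (4 : ℝ) ^ (4 / 3 : ℝ) * X ^ (4 / 3 : ℝ) := Real.mul_rpow (by norm_num) hX0.le
              _ ≤ _ := mul_le_mul_of_nonneg_right e3 (by positivity)
          have e2 : (4 : ℝ) ^ j * (X ^ (4 / 3 : ℝ) * X ^ (43 / 24 : ℝ)) ≤ pr3 R j := by
            have e6 : X ^ (4 / 3 : ℝ) * X ^ (43 / 24 : ℝ) = X ^ (25 / 8 : ℝ) := by
              rw [← Real.rpow_add hX0]
              norm_num
            have e5 : (4 : ℝ) ^ j = (2 : ℝ) ^ ((2 : ℝ) * (j : ℝ)) := by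
              rw [← two_pow_rpow, Real.rpow_two, ← pow_mul, mul_comm j 2, pow_mul]
              norm_num
            unfold pr3
            rw [← hX, e6, e5]
            refine mul_le_mul_of_nonneg_right (Real.rpow_le_rpow_of_exponent_le (by norm_num) ?_) (by positivity)
            have : (0 : ℝ) ≤ j := Nat.cast_nonneg j
            linarith
          calc 54 * 4 ^ j * (C3 * (2 : ℝ) ^ ((4 / 3 : ℝ) * (m : ℝ)) * (C2 * ((2 ^ m : ℕ) : ℝ) ^ (43 / 24 : ℝ)))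
              ≤ 54 * 4 ^ j * (C3 * (16 * X ^ (4 / 3 : ℝ)) * (C2 * (16 * X ^ (43 / 24 : ℝ)))) := by gcongr
            _ = 54 * C3 * C2 * 256 * ((4 : ℝ) ^ j * (X ^ (4 / 3 : ℝ) * X ^ (43 / 24 : ℝ))) := by ring
            _ ≤ _ := mul_le_mul_of_nonneg_left e2 (by positivity)
  -- the pairs from the gap
  have k4 : gp {T | T ∈ PO (2 ^ m) j ∧ T.1 ∈ GT b η} * Xb b ≤
      ENNReal.ofReal ((C * (C0 * 256) + 54 * C1 * C2 * 256) * pr3 R j) := by
    have hsub : {T | T ∈ PO (2 ^ m) j ∧ T.1 ∈ GT b η} ⊆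
        {T | T ∈ PO (2 ^ m) j ∧ T.1 ∈ GT b η ∧ ∀ r : ℕ, ObN (r : ℤ) (ob T.2.1 T.2.2)} ∪
        {T | T.1 ∈ S1 ∧
          T.2.2 ∈ S2 ∧ Fr T.2.1 ∧
          TIW.hn ((0 : Pt) - pe T.2.1 T.2.2) ≤ 2 ^ j} := by
      rintro T ⟨hT1, hT2⟩
      obtain ⟨g1, g2, g3, g4, g5, g6, g7⟩ := id hT1
      by_cases h3 : ∀ s, s ≤ T.2.2.length → dz T.2.2 s ≤ ((2 ^ (j + 1) : ℕ) : ℤ)
      · right
        refine ⟨?_, ?_, g3, ?_⟩
        · rw [hS1]
          refine ⟨⟨g1, fun s hs => ?_⟩, hT2⟩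
          have h4 : dz T.1 s ≤ TIW.hn (vx oo up T.1 s) + TIW.hn (TIW.en T.1) := TIW.hn_sub _ _
          have h5 := g6 s hs
          have h6 : TIW.hn (TIW.en T.1) ≤ ((2 ^ m : ℕ) : ℤ) := g6 T.1.length le_rfl
          push_cast at h5 h6 ⊢
          linarith
        · rw [hS2]
          exact ⟨g2, h3⟩
        · rw [zero_sub, TIW.hn_neg]
          exact g5
      · left
        push Not at h3
        obtain ⟨s, hs, h4⟩ := h3
        refine ⟨hT1, hT2, fun r => obN_ob g3 hs ?_ g5 r⟩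
        push_cast at h4
        exact h4
    calc gp {T | T ∈ PO (2 ^ m) j ∧ T.1 ∈ GT b η} * Xb b ≤ (_ + _) * Xb b :=
          mul_le_mul_left ((gp_mono hsub).trans (gp_union_le _ _)) _
      _ ≤ ENNReal.ofReal C * ENNReal.ofReal (C0 * 256 * pr3 R j) + ENNReal.ofReal (54 * C1 * C2 * 256 * pr3 R j) := by
          rw [add_mul]
          exact add_le_add k1 k2
      _ = _ := by
          rw [← ENNReal.ofReal_mul hC.le, ← ENNReal.ofReal_add (by positivity) (by positivity)]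
          congr 1
          ring
  -- the two cases
  have hsub : {T | T ∈ P3 R j ∧ rev T.1 ∈ GT b η} ⊆ {T | T ∈ P3 R j ∧ 1 ≤ T.1.length ∧ rv T.1 ∈ GT b η} ∪
      {T | T.1 ∈ S3 ∧
        T.2.2 ∈ S4 ∧ Fr T.2.1 ∧
        TIW.hn (TIW.en T.1 - pe T.2.1 T.2.2) ≤ 2 ^ j} := by
    rintro T ⟨hT1, hT2⟩
    obtain ⟨g1, g2, g3, g4, g5, g6, g7⟩ := id hT1
    have hm1' : (R : ℤ) + 2 ^ j ≤ ((2 ^ m : ℕ) : ℤ) := by exact_mod_cast hm1
    by_cases hBU : rev T.1 ∈ BU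
    · refine Or.inr ⟨?_, ?_, g3, g5⟩
      · rw [hS3]
        exact ⟨hBU, hgt_rev Nat.one_le_two_pow (fun s hs => (g6 s hs).trans hm1') hBU⟩
      · rw [hS4]
        exact ⟨g2, fun s hs => (g7 s hs).trans hm1'⟩
    · refine Or.inl ⟨hT1, ?_, ?_⟩
      · by_contra hcon
        apply hBU
        have e : T.1 = [] := List.length_eq_zero_iff.1 (by omega)
        have e2 : rev T.1 = [] := by
          rw [e]
          rfl
        rw [e2]
        exact nil_BU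
      · have a6 : η * Ub b ≤ ((cs b (rev T.1)).card : ℝ) := hT2
        have a7 : ((cs b (rev T.1)).card : ℝ) ≤ ((cs b ((rev T.1).drop 1)).card : ℝ) := by
          exact_mod_cast RevM.cs_drop hBU
        exact a6.trans a7
  have k5 : gp {T | T ∈ P3 R j ∧ 1 ≤ T.1.length ∧ rv T.1 ∈ GT b η} ≤ 2 * gp {T | T ∈ PO (2 ^ m) j ∧ T.1 ∈ GT b η} :=
    gp_rp (fun T hT => hT.2.1) (fun T hT => ⟨rp_PO hT.1 hT.2.1 hm1, hT.2.2⟩)
  calc gp {T | T ∈ P3 R j ∧ rev T.1 ∈ GT b η} * Xb b ≤ (_ + _) * Xb b :=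
        mul_le_mul_left ((gp_mono hsub).trans (gp_union_le _ _)) _
    _ ≤ 2 * (gp {T | T ∈ PO (2 ^ m) j ∧ T.1 ∈ GT b η} * Xb b) + ENNReal.ofReal (54 * C3 * C2 * 256 * pr3 R j) := by
        rw [add_mul]
        refine add_le_add ?_ k3
        rw [← mul_assoc]
        exact mul_le_mul_left k5 _
    _ ≤ 2 * ENNReal.ofReal ((C * (C0 * 256) + 54 * C1 * C2 * 256) * pr3 R j) +
        ENNReal.ofReal (54 * C3 * C2 * 256 * pr3 R j) := add_le_add (mul_le_mul_right k4 _) le_rfl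
    _ = _ := by
        rw [show (2 : ℝ≥0∞) = ENNReal.ofReal 2 by simp, ← ENNReal.ofReal_mul (by norm_num),
          ← ENNReal.ofReal_add (by positivity) (by positivity)]
        congr 1
        ring

end RMP

end HexObs
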