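import Pool.Agent.RMP.FarP
import Pool.Agent.RMP.TipPo
import Pool.Agent.RMP.SepR

/-!
# RMP, row P11 (helper14), part 6: pairs of words of bounded length are in a ball

* `PL N j` : pairs with at most N letters in each word, gap at most `2 ^ j`; **`farE_of`** : `FarE`;
* **`p11R_of : T1P → P11R`**.
-/

set_option autoImplicit false

namespace HexObs

namespace RMP

open Finset TS SDN NTW NTA HexObs.SIM TIP TIP.Nf TIW ARM NPR

open scoped ENNReal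

/-- pairs with at most N letters in each word, gap at most 2 ^ j, no ball -/
def PL (N j : ℕ) : Set PT :=
  {T | T.1 ∈ SA ∧ T.2.2 ∈ SA ∧ Fr T.2.1 ∧ Av (ob T.2.1 T.2.2) T.1 ∧ TIW.hn (TIW.en T.1 - pe T.2.1 T.2.2) ≤ 2 ^ j ∧
    T.1.length ≤ N ∧ T.2.2.length ≤ N}

/-- **pairs of words of bounded length are in a ball** -/
def FarE : Prop := ∀ ε C0 : ℝ, 0 < ε → 0 < C0 → ∃ M : ℕ, ∀ K j N : ℕ, j ≤ K → (N : ℝ) ≤ C0 * ml K →
  gp (PL N j \ P3 (2 ^ (K + M)) j) ≤ ENNReal.ofReal (ε * pr3 (2 ^ K) j)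

lemma pr3_scale {K s j : ℕ} (h : j ≤ K) : pr3 (2 ^ (K + s)) j = (2 : ℝ) ^ ((25 / 8 : ℝ) * s) * pr3 (2 ^ K) j := by
  have h1 : 2 ^ j ≤ 2 ^ K := Nat.pow_le_pow_right (by norm_num) h
  have h2 : 2 ^ j ≤ 2 ^ (K + s) := Nat.pow_le_pow_right (by norm_num) (by omega)
  rw [pr3_eq h1, pr3_eq h2]
  push_cast
  rw [two_pow_rpow, two_pow_rpow]
  push_cast
  rw [show (25 / 8 : ℝ) * ((K : ℝ) + s) = (25 / 8 : ℝ) * s + 25 / 8 * K by ring, Real.rpow_add (by norm_num)]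
  ring

theorem farE_of (hF : FastP) : FarE := by
  classical
  intro ε C0 hε hC0
  obtain ⟨C, hC, hF⟩ := hF 4
  obtain ⟨C1, hC1⟩ : ∃ C1 : ℝ, C1 = 2 * (C * C0 ^ 4) := ⟨_, rfl⟩
  have hC10 : 0 < C1 := by rw [hC1]; positivity
  obtain ⟨M, hM⟩ : ∃ M : ℕ, C1 * (1 / 2) ^ M ≤ ε := by
    obtain ⟨M, hM⟩ := exists_pow_lt_of_lt_one (show 0 < ε / C1 by positivity) (by norm_num : (1 / 2 : ℝ) < 1)
    refine ⟨M, ?_⟩
    rw [lt_div_iff₀ hC10] at hM
    linarith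
  refine ⟨M, fun K j N hj hN => ?_⟩
  obtain ⟨Fa, hFa⟩ : ∃ Fa : ℕ → Set PT, Fa = fun r => {T | T ∈ P3 (2 ^ r) j ∧ (∃ s, s ≤ T.1.length ∧ 2 ^ r < 2 * dz T.1 s) ∧
    (T.1.length : ℝ) ≤ C0 * ml K / ml r * ml r} := ⟨_, rfl⟩
  have hcov : PL N j \ P3 (2 ^ (K + M)) j ⊆ ⋃ i : ℕ, Fa (K + M + 1 + i) ∪ {T | T ∈ P3 (2 ^ (K + M + 1 + i)) j ∧
      sw T ∈ Fa (K + M + 1 + i)} := by
    rintro T ⟨⟨a1, a2, a3, a4, a5, a6, a7⟩, hT⟩
    have hex : ∃ r : ℕ, (∀ s, s ≤ T.1.length → dz T.1 s ≤ 2 ^ r) ∧ ∀ s, s ≤ T.2.2.length → dz T.2.2 s ≤ 2 ^ r := by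
      refine ⟨2 * N, fun s hs => ?_, fun s hs => ?_⟩
      · have h1 := dz_len2 T.1 hs
        have h2 : ((2 * N : ℕ) : ℤ) < 2 ^ (2 * N) := by exact_mod_cast Nat.lt_two_pow_self
        push_cast at h2
        have h3 : (0 : ℤ) ≤ s := by positivity
        have h4 : (T.1.length : ℤ) ≤ N := by exact_mod_cast a6
        linarith
      · have h1 := dz_len2 T.2.2 hs
        have h2 : ((2 * N : ℕ) : ℤ) < 2 ^ (2 * N) := by exact_mod_cast Nat.lt_two_pow_self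
        push_cast at h2
        have h3 : (0 : ℤ) ≤ s := by positivity
        have h4 : (T.2.2.length : ℤ) ≤ N := by exact_mod_cast a7
        linarith
    obtain ⟨r, hr⟩ : ∃ r, r = Nat.find hex := ⟨_, rfl⟩
    obtain ⟨h1, h2⟩ := Nat.find_spec hex
    rw [← hr] at h1 h2
    have h2j : (0 : ℤ) < 2 ^ j := by positivity
    have hrK : K + M < r := by
      by_contra hc
      refine hT ⟨a1, a2, a3, a4, a5, fun s hs => ?_, fun s hs => ?_⟩
      · have := h1 s hs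
        have h3 : (2 : ℤ) ^ r ≤ 2 ^ (K + M) := pow_le_pow_right₀ (by norm_num) (by omega)
        push_cast
        linarith
      · have := h2 s hs
        have h3 : (2 : ℤ) ^ r ≤ 2 ^ (K + M) := pow_le_pow_right₀ (by norm_num) (by omega)
        push_cast
        linarith
    have hP : T ∈ P3 (2 ^ r) j := by
      refine ⟨a1, a2, a3, a4, a5, fun s hs => ?_, fun s hs => ?_⟩
      · have := h1 s hs
        push_cast
        linarith
      · have := h2 s hs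
        push_cast
        linarith
    have hml : 0 < ml r := ml_pos r
    have hlen : ∀ L : List Bool, L.length ≤ N → (L.length : ℝ) ≤ C0 * ml K / ml r * ml r := by
      intro L hL
      rw [div_mul_cancel₀ _ hml.ne']
      have : (L.length : ℝ) ≤ N := by exact_mod_cast hL
      linarith
    have hmin := Nat.find_min hex (m := r - 1) (by omega)
    have e2 : (2 : ℤ) ^ r = 2 * 2 ^ (r - 1) := by
      rw [← pow_succ']
      congr 1
      omega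
    refine Set.mem_iUnion.2 ⟨r - (K + M + 1), ?_⟩
    rw [show K + M + 1 + (r - (K + M + 1)) = r by omega]
    by_cases h3 : ∀ s, s ≤ T.1.length → dz T.1 s ≤ 2 ^ (r - 1)
    · right
      have h4 : ¬ ∀ s, s ≤ T.2.2.length → dz T.2.2 s ≤ 2 ^ (r - 1) := fun h4 => hmin ⟨h3, h4⟩
      push Not at h4
      obtain ⟨s, hs1, hs2⟩ := h4
      refine ⟨hP, ?_⟩
      rw [hFa]
      exact ⟨P3_sw hP, ⟨s, hs1, by rw [e2]; show 2 * 2 ^ (r - 1) < 2 * dz T.2.2 s; linarith⟩, hlen T.2.2 a7⟩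
    · left
      push Not at h3
      obtain ⟨s, hs1, hs2⟩ := h3
      rw [hFa]
      exact ⟨hP, ⟨s, hs1, by rw [e2]; linarith⟩, hlen T.1 a6⟩
  have hpr := pr3_pos (2 ^ K) j
  have hone : ∀ i : ℕ, gp (Fa (K + M + 1 + i)) ≤ ENNReal.ofReal (C * C0 ^ 4 * pr3 (2 ^ K) j * (1 / 2) ^ (M + 1 + i)) := by
    intro i
    obtain ⟨s, hs⟩ : ∃ s, s = M + 1 + i := ⟨_, rfl⟩
    rw [show K + M + 1 + i = K + s by omega, ← hs]
    have hmlr := ml_pos (K + s)
    have hmlK := ml_pos K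
    have h1 := hF (K + s) j (C0 * ml K / ml (K + s)) (by omega) (by positivity)
    rw [hFa]
    refine h1.trans (ENNReal.ofReal_le_ofReal ?_)
    rw [pr3_scale hj]
    have h2 : ml K / ml (K + s) = (2 : ℝ) ^ (-(4 / 3 : ℝ) * s) := by
      unfold ml
      rw [← Real.rpow_sub (by norm_num)]
      congr 1
      push_cast
      ring
    have h3 : C0 * ml K / ml (K + s) = C0 * (2 : ℝ) ^ (-(4 / 3 : ℝ) * s) := by rw [mul_div_assoc, h2]
    rw [h3, mul_pow]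
    have h4 : ((2 : ℝ) ^ (-(4 / 3 : ℝ) * s)) ^ 4 * (2 : ℝ) ^ ((25 / 8 : ℝ) * s) ≤ (1 / 2) ^ s := by
      rw [← Real.rpow_natCast, ← Real.rpow_mul (by norm_num), ← Real.rpow_add (by norm_num)]
      have e : (1 / 2 : ℝ) ^ s = (2 : ℝ) ^ (-(s : ℝ)) := by
        rw [Real.rpow_neg (by norm_num), Real.rpow_natCast, one_div, inv_pow]
      rw [e]
      apply Real.rpow_le_rpow_of_exponent_le (by norm_num)
      have : (0 : ℝ) ≤ s := Nat.cast_nonneg s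
      push_cast
      linarith
    calc C * (C0 ^ 4 * ((2 : ℝ) ^ (-(4 / 3 : ℝ) * s)) ^ 4) * ((2 : ℝ) ^ ((25 / 8 : ℝ) * s) * pr3 (2 ^ K) j)
        = C * C0 ^ 4 * pr3 (2 ^ K) j * (((2 : ℝ) ^ (-(4 / 3 : ℝ) * s)) ^ 4 * (2 : ℝ) ^ ((25 / 8 : ℝ) * s)) := by ring
      _ ≤ C * C0 ^ 4 * pr3 (2 ^ K) j * (1 / 2) ^ s := mul_le_mul_of_nonneg_left h4 (by positivity)
  have htwo : ∀ i : ℕ, gp (Fa (K + M + 1 + i) ∪ {T | T ∈ P3 (2 ^ (K + M + 1 + i)) j ∧ sw T ∈ Fa (K + M + 1 + i)}) ≤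
      ENNReal.ofReal (C1 * (1 / 2) ^ M * pr3 (2 ^ K) j * ((1 / 2) * (1 / 2) ^ i)) := by
    intro i
    refine (gp_union_le _ _).trans ?_
    have h1 : gp {T | T ∈ P3 (2 ^ (K + M + 1 + i)) j ∧ sw T ∈ Fa (K + M + 1 + i)} ≤ gp (Fa (K + M + 1 + i)) :=
      gp_sw (fun T hT => P3_fr hT.1) fun T hT => hT.2
    refine (add_le_add (hone i) (h1.trans (hone i))).trans (le_of_eq ?_)
    rw [← ENNReal.ofReal_add (by positivity) (by positivity)]
    congr 1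
    rw [hC1, pow_add, pow_succ]
    ring
  refine (gp_mono hcov).trans ((gp_iUnion_le _).trans ((ENNReal.tsum_le_tsum htwo).trans ?_))
  have hsum : HasSum (fun i : ℕ => C1 * (1 / 2) ^ M * pr3 (2 ^ K) j * ((1 / 2 : ℝ) * (1 / 2) ^ i))
      (C1 * (1 / 2) ^ M * pr3 (2 ^ K) j * ((1 / 2) * 2)) := (hasSum_geometric_two.mul_left _).mul_left _
  rw [← ENNReal.ofReal_tsum_of_nonneg (fun i => by positivity) hsum.summable, hsum.tsum_eq]
  refine ENNReal.ofReal_le_ofReal ?_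
  calc C1 * (1 / 2) ^ M * pr3 (2 ^ K) j * ((1 / 2) * 2) = (C1 * (1 / 2) ^ M) * pr3 (2 ^ K) j := by ring
    _ ≤ ε * pr3 (2 ^ K) j := mul_le_mul_of_nonneg_right hM hpr.le

/-- the tip lemma at the outer end -/
lemma tipOut (h : T1P) : TipOut := fun η hη => tipPo h η hη

theorem fastP (h : T1P) : FastP := fastP_of h (tipOut h)

theorem farE (h : T1P) : FarE := farE_of (fastP h)

lemma pr3_monoR {R R' j : ℕ} (h : R ≤ R') : pr3 R j ≤ pr3 R' j := by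
  unfold pr3
  have h1 : (R : ℝ) ≤ R' := by exact_mod_cast h
  exact mul_le_mul_of_nonneg_left (Real.rpow_le_rpow (le_max_of_le_right (by positivity)) (max_le_max h1 le_rfl) (by norm_num))
    (by positivity)

/-- **row P11** -/
theorem p11R_of (h : T1P) : P11R := by
  intro ε t0 d hε ht hd
  obtain ⟨M, hM⟩ := farE h ε (4 * (1 + d)) hε (by positivity)
  refine ⟨2 ^ M, 1 / 16, Nat.one_le_two_pow, by norm_num, fun r hr hrr => ⟨1, fun n k j S hn hC => ?_⟩⟩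
  have hn1 : (1 : ℝ) ≤ n := by exact_mod_cast hn
  obtain ⟨z, hz⟩ : ∃ z : ℝ, z = (n : ℝ) ^ (3 / 4 : ℝ) := ⟨_, rfl⟩
  have hz1 : 1 ≤ z := by rw [hz]; exact Real.one_le_rpow hn1 (by norm_num)
  have hZ : z ≤ nZ n := by rw [hz]; exact nZ_ge n
  have hZ0 : nZ n ≠ 0 := by
    intro h0
    rw [h0, Nat.cast_zero] at hZ
    linarith
  obtain ⟨K, hK⟩ : ∃ K, K = Nat.log 2 (nZ n) := ⟨_, rfl⟩
  have hK1 : 2 ^ K ≤ nZ n := by rw [hK]; exact Nat.pow_log_le_self 2 hZ0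
  have hK2 : nZ n < 2 ^ (K + 1) := by rw [hK]; exact Nat.lt_pow_succ_log_self (by norm_num) _
  have hK2' : (nZ n : ℝ) < 2 * 2 ^ K := by
    have : (nZ n : ℝ) < ((2 ^ (K + 1) : ℕ) : ℝ) := by exact_mod_cast hK2
    push_cast at this
    rw [pow_succ] at this
    linarith
  have hjK : j ≤ K := by
    have h1 : (2 : ℝ) ^ j ≤ 8 * r * z := by rw [hz]; exact hC.j2
    have h2 : (2 : ℝ) ^ j < 2 ^ K := by
      have h3 : 8 * r * z ≤ 8 * (1 / 16) * z := by gcongr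
      linarith
    have h3 : 2 ^ j < 2 ^ K := by exact_mod_cast h2
    exact ((Nat.pow_lt_pow_iff_right (by norm_num : 1 < 2)).1 h3).le
  -- the lengths
  have hnK : (n : ℝ) ≤ 4 * ml K := by
    have h1 : z ≤ 2 * 2 ^ K := by linarith
    have h2 : (n : ℝ) = z ^ (4 / 3 : ℝ) := by
      rw [hz, ← Real.rpow_mul (by positivity)]
      norm_num
    rw [h2]
    calc z ^ (4 / 3 : ℝ) ≤ (2 * 2 ^ K) ^ (4 / 3 : ℝ) := Real.rpow_le_rpow (by linarith) h1 (by norm_num)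
      _ = (2 : ℝ) ^ (4 / 3 : ℝ) * ml K := by
          rw [Real.mul_rpow (by norm_num) (by positivity), two_pow_rpow]
          rfl
      _ ≤ 4 * ml K := by
          have h3 : (2 : ℝ) ^ (4 / 3 : ℝ) ≤ (2 : ℝ) ^ (2 : ℝ) := Real.rpow_le_rpow_of_exponent_le (by norm_num) (by norm_num)
          have h4 : (2 : ℝ) ^ (2 : ℝ) = 4 := by norm_num
          rw [h4] at h3
          exact mul_le_mul_of_nonneg_right h3 (ml_pos K).le
  have ht1 : (k : ℝ) ≤ n := by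
    have := hC.k2
    nlinarith
  have hk0 : (0 : ℝ) ≤ k := Nat.cast_nonneg k
  have hN : ((⌊(1 + d) * n⌋₊ : ℕ) : ℝ) ≤ 4 * (1 + d) * ml K := by
    refine (Nat.floor_le (by positivity)).trans ?_
    calc (1 + d) * (n : ℝ) ≤ (1 + d) * (4 * ml K) := by gcongr
      _ = _ := by ring
  refine (gp_mono ?_).trans ((hM K j ⌊(1 + d) * n⌋₊ hjK hN).trans (ENNReal.ofReal_le_ofReal ?_))
  · rintro T ⟨⟨a1, a2, a3, a4, a5, a6, a7, a8, a9⟩, hT⟩
    refine ⟨⟨a1, a2, a3, a4, ?_, ?_, ?_⟩, fun hT2 => hT (P3_mono ?_ le_rfl hT2)⟩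
    · have h1 := hC.s2 _ a5
      have h2 : ((TIW.hn (TIW.en T.1 - pe T.2.1 T.2.2) : ℤ) : ℝ) ≤ ((2 ^ j : ℤ) : ℝ) := by
        push_cast
        exact h1.trans hC.j1
      exact_mod_cast h2
    · refine Nat.le_floor (a7.trans ?_)
      gcongr
    · refine Nat.le_floor (a9.trans ?_)
      have : (n : ℝ) - k ≤ n := by linarith
      gcongr
    · rw [pow_add, mul_comm]
      exact Nat.mul_le_mul_left _ hK1
  · exact mul_le_mul_of_nonneg_left (pr3_monoR hK1) hε.le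

end RMP

end HexObs
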