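import Pool.Agent.RMP.PolA
import Pool.Agent.PMA.ConfP

/-!
# (RM), row P9, L3 (helper65): the roots of the polygons are good marks

**`polG`**: row `PolG` (with `2 * w < N`): the closed words with too few pairs of good cuts at the root are rare: few good cuts
on one of the sides (`T2N`), a long confined start or end (`confC`) or a near touch (`T2Qc`).
-/

set_option autoImplicit false

namespace HexObs

namespace RMP

open Finset TS SDN HexObs.SIM NTA TIP ARM TIW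

open scoped ENNReal

namespace PG

lemma win_left {N w : ℕ} {K A Y : List Bool} (hl : K.length = N) (e : K = A ++ Y) (h : Y.length ≤ w) :
    ∃ A1, K.drop (N - w) = A1 ++ Y := by
  refine ⟨A.drop (N - w), ?_⟩
  have : A.length + Y.length = N := by rw [← hl, e, List.length_append]
  rw [e, List.drop_append_of_le_length (by omega)]

lemma win_right {N w : ℕ} {K L A Y : List Bool} {x : Bool} (hl : K.length = N) (eL : K = L ++ [x]) (e : rv L = A ++ Y)
    (h : Y.length + 1 ≤ w) (hw : w + 1 ≤ N) : ∃ B, rev ((K.take w).dropLast) = B ++ Y := by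
  have hL : L.length + 1 = N := by
    rw [← hl, eL, List.length_append]
    rfl
  have e0 : rv L = rev L.dropLast := by
    unfold ARM.rv rev
    rw [List.drop_one, List.tail_reverse, List.map_dropLast]
  have e1 : (K.take w).dropLast = L.dropLast.take (w - 1) := by
    rw [eL, List.take_append_of_le_length (by omega), List.dropLast_eq_take, List.dropLast_eq_take, List.take_take,
      List.take_take, List.length_take]
    congr 1
    omega
  have e2 : L.dropLast = L.dropLast.take (w - 1) ++ L.dropLast.drop (w - 1) := (List.take_append_drop _ _).symm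
  rw [e1]
  have e3 : rev (L.dropLast.drop (w - 1)) ++ rev (L.dropLast.take (w - 1)) = A ++ Y := by
    rw [← LowM.rev_append', ← e2, ← e0, e]
  have h1 : Y <:+ A ++ Y := List.suffix_append _ _
  have h2 : rev (L.dropLast.take (w - 1)) <:+ A ++ Y := by
    rw [← e3]
    exact List.suffix_append _ _
  have h3 : Y.length ≤ (rev (L.dropLast.take (w - 1))).length := by
    rw [rev_length, List.length_take, List.length_dropLast]
    have := congrArg List.length e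
    rw [e0, rev_length, List.length_dropLast, List.length_append] at this
    omega
  obtain ⟨B, hB⟩ := List.suffix_of_suffix_length_le h1 h2 h3
  exact ⟨B, hB.symm⟩

lemma gt_ne {j : ℕ} {η : ℝ} {Y : List Bool} (hη : 0 < η) (h : rev Y ∈ GT j η) : 1 ≤ Y.length := by
  obtain ⟨s, t, hs, ht, hst⟩ := GT_big hη h
  rw [rev_length] at hs ht
  by_contra hcon
  have h1 : s = t := by omega
  rw [h1, sub_self] at hst
  have h2 : hn (0 : Pt) = 0 := by decide
  rw [h2] at hst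
  have h3 : (0 : ℤ) < 2 ^ j := by positivity
  linarith

lemma in_last {D : ℕ} {Y : List Bool} (x : Bool) (h : In D Y) (hD : 4 ≤ D) : In (2 * D) (Y ++ [x]) := by
  have h1 : In 2 [x] := by
    intro i hi
    rw [List.length_singleton] at hi
    refine ARM.Bl_of_hn ?_
    rcases Nat.le_one_iff_eq_zero_or_eq_one.1 hi with h0 | h0 <;> subst h0 <;> revert x <;> decide
  have h2 := NPR.In_app h h1
  intro i hi
  exact Bl_mono _ (by omega) (h2 i hi)

/-- **one pair of cuts** -/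
lemma one_pair {j a a' m e w N T : ℕ} {η : ℝ} {K L Y Y2 : List Bool} {x : Bool} (hη : 0 < η) (hj : 2 ≤ j) (he : e ≤ j)
    (ha : a = a' + e + 3) (haj : a ≤ j) (hT : T + 2 ≤ w) (hK : K ∈ POL.Cy N) (hw : 2 * w < N) (eL : K = L ++ [x])
    (hC : hn (TIW.en L) ≤ 2)
    (h1 : ¬ ∀ i, i ≤ T → i ≤ L.length → dz L i ≤ 2 ^ (j + m + 4))
    (h2 : ¬ ∀ i, L.length < i + T → i ≤ L.length → dz L i ≤ 2 ^ (j + m + 4))
    (h3 : L ∉ NTc (j + (m + 4)) (j + (m + 4)) (2 ^ (j - e)) (2 ^ (j - 1)))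
    (hY : Y ∈ NCa j (j - a') (2 ^ (j + m)) η L) (hY2 : Y2 ∈ NCa j (j - a') (2 ^ (j + m)) η (rv L)) :
    ((Y ++ [x], Y2) : List Bool × List Bool) ∈ CPr j a (m + 1) w η (cutH w (rwin w K)) := by
  obtain ⟨g1, g2, A, g3, g4⟩ := hY
  obtain ⟨g5, g6, A2, g7, g8⟩ := hY2
  have hl := hK.1
  have hL : L.length + 1 = N := by
    rw [← hl, eL, List.length_append]
    rfl
  have l1 := congrArg List.length g3
  have l2 := congrArg List.length g7
  rw [List.length_append] at l1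
  rw [rv_length, List.length_append] at l2
  have hp : (1 : ℤ) ≤ 2 ^ (j + m) := one_le_pow₀ (by norm_num)
  have hp4 : (2 : ℤ) ^ (j + m + 4) = 16 * 2 ^ (j + m) := by rw [pow_add]; ring
  have d1 : ∀ i, A.length ≤ i → i ≤ L.length → dz L i ≤ 2 ^ (j + m + 4) := by
    intro i i1 i2
    have := dz_left g3 g2 i1 i2
    push_cast at this
    rw [hp4]
    linarith
  have d2 : ∀ i, i ≤ Y2.length + 1 → i ≤ L.length → dz L i ≤ 2 ^ (j + m + 4) := by
    intro i i1 i2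
    have := dz_right hC (by omega) g7 g6 i1 i2
    push_cast at this
    rw [hp4]
    linarith
  have t1 : Y.length < T := by
    by_contra hcon
    refine h2 fun i i1 i2 => d1 i (by omega) i2
  have t2 : Y2.length + 1 < T := by
    by_contra hcon
    exact h1 fun i i1 i2 => d2 i (by omega) i2
  have y2 : 1 ≤ Y2.length := gt_ne hη g5
  have eK : K = A ++ (Y ++ [x]) := by rw [eL, g3, List.append_assoc]
  have ly : (Y ++ [x]).length = Y.length + 1 := by
    rw [List.length_append]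
    rfl
  obtain ⟨A1, hA1⟩ := win_left (w := w) hl eK (by omega)
  obtain ⟨B1, hB1⟩ := win_right (w := w) hl eL g7 (by omega) (by omega)
  obtain ⟨t, ht⟩ : ∃ t, t = rwin w K := ⟨_, rfl⟩
  have c1 : (cutH w t).1 = A1 ++ (Y ++ [x]) := by
    rw [ht, ← hA1]
    show (rwin w K).take w = _
    unfold rwin
    rw [hl]
    exact List.take_left' (by rw [List.length_drop]; omega)
  have c2 : (cutH w t).2.2 = B1 ++ Y2 := by
    rw [ht, ← hB1]
    show rev (((rwin w K).drop w).dropLast) = _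
    unfold rwin
    rw [hl, List.drop_left' (by rw [List.length_drop]; omega)]
  refine ⟨?_, g5, ?_, ?_, by show (Y ++ [x]).length ≤ w; omega, by show Y2.length ≤ w; omega, A1, B1, by rw [← ht]; exact c1,
    by rw [← ht]; exact c2, ?_⟩
  · show rev (Y ++ [x]) ∈ GT j η
    rw [LowM.rev_append']
    exact TIP.Nf.gt_app g1
  · show In (2 ^ (j + (m + 1))) (Y ++ [x])
    rw [show 2 ^ (j + (m + 1)) = 2 * 2 ^ (j + m) by ring]
    refine in_last x g2 ?_
    calc 4 = 2 ^ 2 := by norm_num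
      _ ≤ 2 ^ (j + m) := Nat.pow_le_pow_right (by norm_num) (by omega)
  · show In (2 ^ (j + (m + 1))) Y2
    intro i hi
    exact Bl_mono _ (Nat.pow_le_pow_right (by norm_num) (by omega)) (g6 i hi)
  · have hr : 3 * 2 ^ (j - a) ≤ 2 ^ (j - a') := by
      calc 3 * 2 ^ (j - a) ≤ 2 ^ 2 * 2 ^ (j - a) := Nat.mul_le_mul_right _ (by norm_num)
        _ = 2 ^ (2 + (j - a)) := (pow_add 2 2 _).symm
        _ ≤ 2 ^ (j - a') := Nat.pow_le_pow_right (by norm_num) (by omega)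
    have e1 : N - (Y ++ [x]).length = A.length := by omega
    have hf : 8 * ((2 ^ (j - a) : ℕ) : ℤ) < hn (vx oo up K (N - (Y ++ [x]).length) - vx oo up K (Y2.length + 1)) := by
      have v1 : vx oo up K A.length = vx oo up L A.length := by rw [eL, vx_append (by omega)]
      have v2 : vx oo up K (Y2.length + 1) = vx oo up L (Y2.length + 1) := by rw [eL, vx_append (by omega)]
      rw [e1, v1, v2]
      by_contra hcon
      rw [not_lt] at hcon
      apply h3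
      obtain ⟨s, s1, s2, s3⟩ := exc hη hj g3 g1 (vx oo up L (Y2.length + 1))
      have hc : j + m + 4 = j + (m + 4) := by omega
      rw [hc] at d1 d2
      refine ⟨Y2.length + 1, A.length, by omega, by omega, d2 _ le_rfl (by omega), d1 _ le_rfl (by omega), ?_, Or.inr ⟨⟨by omega,
        fun s hs => d2 s hs (by omega)⟩, ⟨by omega, fun s hs hs' => d1 s hs hs'⟩, s, s2, Or.inr s1, s3⟩⟩
      rw [TIW.hn_sub_comm]
      refine hcon.trans ?_
      push_cast
      calc 8 * (2 : ℤ) ^ (j - a) = 2 ^ (3 + (j - a)) := by rw [pow_add]; norm_num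
        _ ≤ 2 ^ (j - e) := pow_le_pow_right₀ (by norm_num) (by omega)
    have f1 := fk_left (r := 2 ^ (j - a')) hl eK (by omega) g4
    have f2 := fk_right (r := 2 ^ (j - a')) hl eL g7 y2 g8
    have key := outF_cut hK hw hr hA1 hB1 (by omega) y2 f1 f2 hf
    exact key

/-- **good marks from the cuts on both sides** -/
lemma gm_of {j a a' m e w N T : ℕ} {η κ : ℝ} {K L : List Bool} {x : Bool} (hη : 0 < η) (hκ : 0 ≤ κ) (hj : 2 ≤ j)
    (he : e ≤ j) (ha : a = a' + e + 3) (haj : a ≤ j) (hT : T + 2 ≤ w) (hK : K ∈ POL.Cy N) (hw : 2 * w < N) (eL : K = L ++ [x])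
    (hC : hn (TIW.en L) ≤ 2)
    (h1 : ¬ ∀ i, i ≤ T → i ≤ L.length → dz L i ≤ 2 ^ (j + m + 4))
    (h2 : ¬ ∀ i, L.length < i + T → i ≤ L.length → dz L i ≤ 2 ^ (j + m + 4))
    (h3 : L ∉ NTc (j + (m + 4)) (j + (m + 4)) (2 ^ (j - e)) (2 ^ (j - 1)))
    (g1 : κ * Ub j ≤ gc j a' m η L) (g2 : κ * Ub j ≤ gc j a' m η (rv L)) :
    GM j a (m + 1) w η κ (cutH w (rwin w K)) := by
  have hU := Ub_pos j
  obtain ⟨S1, hS1⟩ : ∃ S1, S1 = NCa j (j - a') (2 ^ (j + m)) η L := ⟨_, rfl⟩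
  obtain ⟨S2, hS2⟩ : ∃ S2, S2 = NCa j (j - a') (2 ^ (j + m)) η (rv L) := ⟨_, rfl⟩
  have q1 : κ * Ub j ≤ (S1.ncard : ℝ) := by rw [hS1]; exact g1
  have q2 : κ * Ub j ≤ (S2.ncard : ℝ) := by rw [hS2]; exact g2
  have q0 : 0 ≤ κ * Ub j := mul_nonneg hκ hU.le
  have q3 : (S1 ×ˢ S2).ncard ≤ (CPr j a (m + 1) w η (cutH w (rwin w K))).ncard := by
    refine Set.ncard_le_ncard_of_injOn (fun p : List Bool × List Bool => (p.1 ++ [x], p.2)) ?_ ?_ (LowM.CPr_fin _ _ _ _ _ _)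
    · rintro ⟨Y, Y2⟩ ⟨hY, hY2⟩
      rw [hS1] at hY
      rw [hS2] at hY2
      exact one_pair hη hj he ha haj hT hK hw eL hC h1 h2 h3 hY hY2
    · rintro ⟨Y, Y2⟩ - ⟨Y', Y2'⟩ - he
      have e1 := congrArg Prod.fst he
      have e2 := congrArg Prod.snd he
      exact Prod.ext (List.append_cancel_right e1) e2
  rw [Set.ncard_prod] at q3
  show (κ * Ub j) ^ 2 ≤ _
  calc (κ * Ub j) ^ 2 = (κ * Ub j) * (κ * Ub j) := by ring
    _ ≤ (S1.ncard : ℝ) * (S2.ncard : ℝ) := mul_le_mul q1 q2 q0 (Nat.cast_nonneg _)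
    _ = ((S1.ncard * S2.ncard : ℕ) : ℝ) := by push_cast; ring
    _ ≤ _ := by exact_mod_cast q3

lemma ml_4 (j k : ℕ) : ml (j + k) ≤ 4 ^ k * ml j := by
  rw [ARM.ml_add]
  refine mul_le_mul_of_nonneg_right ?_ (ARM.ml_pos j).le
  calc (2 : ℝ) ^ ((4 / 3 : ℝ) * (k : ℝ)) ≤ (2 : ℝ) ^ ((2 : ℝ) * (k : ℝ)) := by
        refine Real.rpow_le_rpow_of_exponent_le (by norm_num) ?_
        have : (0 : ℝ) ≤ k := Nat.cast_nonneg k
        linarith
    _ = 4 ^ k := by
        rw [Real.rpow_mul (by norm_num), Real.rpow_natCast]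
        norm_num

end PG

open _root_.HexObs.RMP.PG in
/-- **row L3**: the roots of the polygons are good marks (`2 * w < N`: for `2 * w = N` the two words share their start) -/
theorem polG : ∀ ε : ℝ, 0 < ε → ∃ (η κ C : ℝ) (a m b0 : ℕ), 0 < η ∧ 0 < κ ∧ 0 < C ∧ ∀ j N w : ℕ, b0 ≤ j →
    2 ^ b0 * ml j ≤ N → C * ml j ≤ w → 2 * w < N →
    gf {K | K ∈ POL.Cy N ∧ ¬ GM j a m w η κ (cutH w (rwin w K))} ≤ ENNReal.ofReal (ε * (N : ℝ) ^ (-(3 / 2) : ℝ)) := by
  intro ε hε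
  obtain ⟨η, κ, a', m, b1, hη, hκ, -, H1⟩ := t2N_all t1 (ε / 24) (by positivity)
  obtain ⟨lam, b2, hlam, H2⟩ := PMA.confC (ε / 24) (by positivity)
  obtain ⟨e, b3, -, -, H3⟩ := t2Qc (m + 4) (m + 4) 1 (ε / 24) le_rfl (by positivity)
  refine ⟨η, κ, lam * 4 ^ (m + 3) + 3, a' + e + 3, m + 1, b1 + (b2 + 2 * (m + 3)) + b3 + (a' + e + 3) + 4, hη, hκ,
    by positivity, ?_⟩
  intro j N w hj hN hw hwN
  obtain ⟨b0, hb0⟩ : ∃ b0, b0 = b1 + (b2 + 2 * (m + 3)) + b3 + (a' + e + 3) + 4 := ⟨_, rfl⟩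
  rw [← hb0] at hj hN
  have hml := one_le_ml j
  -- the length
  have hN16 : (16 : ℝ) ≤ N := by
    refine le_trans ?_ hN
    calc (16 : ℝ) = 2 ^ 4 * 1 := by norm_num
      _ ≤ 2 ^ b0 * ml j := mul_le_mul (pow_le_pow_right₀ (by norm_num) (by omega)) hml (by norm_num) (by positivity)
  have hN16' : 16 ≤ N := by exact_mod_cast hN16
  obtain ⟨n, rfl⟩ : ∃ n, N = n + 1 := ⟨N - 1, by omega⟩
  have hn1 : ((n + 1 : ℕ) : ℝ) ≤ 2 * n := by
    have : 1 ≤ n := by omega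
    have : (1 : ℝ) ≤ n := by exact_mod_cast this
    push_cast
    linarith
  have hbn : ∀ b, b + 1 ≤ b0 → (2 : ℝ) ^ b * ml j ≤ n := by
    intro b hb
    have h1 : (2 : ℝ) ^ (b + 1) * ml j ≤ 2 ^ b0 * ml j :=
      mul_le_mul_of_nonneg_right (pow_le_pow_right₀ (by norm_num) hb) (by linarith)
    rw [pow_succ] at h1
    linarith
  -- the length of the window
  obtain ⟨T, hT⟩ : ∃ T, T = w - 2 := ⟨_, rfl⟩
  have hw3 : (3 : ℝ) ≤ w := by
    refine le_trans ?_ hw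
    have : 0 ≤ lam * 4 ^ (m + 3) := by positivity
    nlinarith
  have hw3' : 3 ≤ w := by exact_mod_cast hw3
  have hTw : (T : ℝ) = w - 2 := by
    rw [hT, Nat.cast_sub (by omega)]
    norm_num
  have hlT : lam * ml (j + (m + 3)) ≤ T := by
    have h1 := mul_le_mul_of_nonneg_left (ml_4 j (m + 3)) hlam.le
    rw [hTw]
    nlinarith
  have hbT : (2 : ℝ) ^ b2 * ml (j + (m + 3)) ≤ n := by
    have h1 := mul_le_mul_of_nonneg_left (ml_4 j (m + 3)) (show (0 : ℝ) ≤ 2 ^ b2 by positivity)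
    have h2 := hbn (b2 + 2 * (m + 3)) (by omega)
    refine (h1.trans (le_of_eq ?_)).trans h2
    have h3 : (2 : ℝ) ^ (b2 + 2 * (m + 3)) = 2 ^ b2 * 4 ^ (m + 3) := by
      rw [pow_add, pow_mul]
      norm_num
    rw [h3, mul_assoc]
  -- the three sets
  obtain ⟨S1, hS1⟩ : ∃ S1, S1 = {L | L ∈ C0 n ∧ (gc j a' m η L < κ * Ub j ∨ gc j a' m η (rv L) < κ * Ub j)} := ⟨_, rfl⟩
  obtain ⟨S2, hS2⟩ : ∃ S2, S2 = {L | L ∈ C0 n ∧ ((∀ i, i ≤ T → i ≤ n → dz L i ≤ 2 ^ (j + (m + 3) + 1)) ∨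
      ∀ i, n < i + T → i ≤ n → dz L i ≤ 2 ^ (j + (m + 3) + 1))} := ⟨_, rfl⟩
  obtain ⟨S3, hS3⟩ : ∃ S3, S3 = {L | L ∈ C0 n ∧ L ∈ NTc (j + (m + 4)) (j + (m + 4)) (2 ^ (j - e)) (2 ^ (j - 1))} := ⟨_, rfl⟩
  have G1 : gf S1 ≤ ENNReal.ofReal (ε / 24 * (n : ℝ) ^ (-(3 / 2) : ℝ)) := by
    rw [hS1]
    exact H1 n j (by omega) (hbn b1 (by omega))
  have G2 : gf S2 ≤ ENNReal.ofReal (ε / 24 * (n : ℝ) ^ (-(3 / 2) : ℝ)) := by
    rw [hS2]
    exact H2 (j + (m + 3)) n T (by omega) hbT hlT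
  have G3 : gf S3 ≤ ENNReal.ofReal (ε / 24 * (n : ℝ) ^ (-(3 / 2) : ℝ)) := by
    rw [hS3]
    exact H3 n j (by omega) (hbn b3 (by omega))
  have hx : 0 ≤ ε / 24 * (n : ℝ) ^ (-(3 / 2) : ℝ) := by positivity
  have G : gf (S1 ∪ (S2 ∪ S3)) ≤ ENNReal.ofReal (3 * (ε / 24 * (n : ℝ) ^ (-(3 / 2) : ℝ))) := by
    refine (gf_union_le _ _).trans ((add_le_add G1 ((gf_union_le _ _).trans (add_le_add G2 G3))).trans (le_of_eq ?_))
    rw [← ENNReal.ofReal_add hx hx, ← ENNReal.ofReal_add hx (by linarith)]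
    congr 1
    ring
  have hsub : gf {K | K ∈ POL.Cy (n + 1) ∧ ¬ GM j (a' + e + 3) (m + 1) w η κ (cutH w (rwin w K))} ≤
      2 * gf (S1 ∪ (S2 ∪ S3)) := by
    refine PMA.CP.gf_last (N := n + 1) (by omega) ?_
    rintro K ⟨hK, hG⟩
    refine ⟨hK.1, ?_⟩
    have hne : K ≠ [] := by
      rintro rfl
      have := hK.1
      simp at this
    obtain ⟨L, hL⟩ : ∃ L, L = K.dropLast := ⟨_, rfl⟩
    obtain ⟨x, hxx⟩ : ∃ x, x = K.getLast hne := ⟨_, rfl⟩
    have eL : K = L ++ [x] := by rw [hL, hxx, List.dropLast_append_getLast]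
    rw [← hL]
    have hC : L ∈ C0 n := ⟨x, by rw [← eL]; exact hK⟩
    obtain ⟨c1, c2, c3⟩ := C0_mem hC
    by_contra hcon
    apply hG
    rw [Set.mem_union, Set.mem_union, not_or, not_or] at hcon
    obtain ⟨n1, n2, n3⟩ := hcon
    have n1' : ¬ (gc j a' m η L < κ * Ub j ∨ gc j a' m η (rv L) < κ * Ub j) := fun h => n1 (by rw [hS1]; exact ⟨hC, h⟩)
    have n2' : ¬ ((∀ i, i ≤ T → i ≤ n → dz L i ≤ 2 ^ (j + (m + 3) + 1)) ∨
      ∀ i, n < i + T → i ≤ n → dz L i ≤ 2 ^ (j + (m + 3) + 1)) := fun h => n2 (by rw [hS2]; exact ⟨hC, h⟩)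
    have n3' : L ∉ NTc (j + (m + 4)) (j + (m + 4)) (2 ^ (j - e)) (2 ^ (j - 1)) := fun h => n3 (by rw [hS3]; exact ⟨hC, h⟩)
    rw [not_or, not_lt, not_lt] at n1'
    rw [not_or, ← c2, show j + (m + 3) + 1 = j + m + 4 by omega] at n2'
    exact gm_of hη hκ.le (by omega) (by omega) rfl (by omega) (by omega) hK hwN eL c3 n2'.1 n2'.2 n3' n1'.1 n1'.2
  refine hsub.trans ?_
  have h4 := PMA.CP.last_num (N := n + 1) (by omega)
  rw [show n + 1 - 1 = n by omega] at h4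
  calc 2 * gf (S1 ∪ (S2 ∪ S3)) ≤ ENNReal.ofReal 2 * ENNReal.ofReal (3 * (ε / 24 * (n : ℝ) ^ (-(3 / 2) : ℝ))) := by
        refine mul_le_mul' (le_of_eq ?_) G
        norm_num
    _ = ENNReal.ofReal (ε / 4 * (n : ℝ) ^ (-(3 / 2) : ℝ)) := by
        rw [← ENNReal.ofReal_mul (by norm_num)]
        congr 1
        ring
    _ ≤ _ := by
        refine ENNReal.ofReal_le_ofReal ?_
        have := mul_le_mul_of_nonneg_left h4 (show 0 ≤ ε / 4 by positivity)
        linarith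

end RMP

end HexObs
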