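import Pool.Agent.RMP.SepR

/-!
# RMP (helper15): row P9R from the literal of row P9 (helper10)

`p9R_of` : the lower bound of gp (PR n k d S) at the level j of `Ctx` from the bound at the level j - 3.
-/

set_option autoImplicit false

namespace HexObs

namespace RMP

open Finset TS SDN NTA TIP ARM

open scoped ENNReal

/-- the number pr3 of the size of the walk -/
lemma sra_pr3 {n j : ℕ} (hn : 1 ≤ n) (hj : 3 ≤ j) (h2 : (2 : ℝ) ^ j ≤ 8 * (n : ℝ) ^ (3 / 4 : ℝ)) :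
    pr3 (nZ n) j ≤ ((2 : ℝ) ^ (59 / 8 : ℝ) * (8 : ℝ) ^ (25 / 8 : ℝ)) *
      ((2 : ℝ) ^ ((59 / 24 : ℝ) * ((j - 3 : ℕ) : ℝ)) * (n : ℝ) ^ (75 / 32 : ℝ)) := by
  have hn0 : (0 : ℝ) ≤ n := Nat.cast_nonneg n
  have h1 : (1 : ℝ) ≤ (n : ℝ) ^ (3 / 4 : ℝ) := Real.one_le_rpow (by exact_mod_cast hn) (by norm_num)
  have h3 : max ((nZ n : ℕ) : ℝ) (2 ^ j) ≤ 8 * (n : ℝ) ^ (3 / 4 : ℝ) := by
    refine max_le ?_ h2
    have h4 : ((nZ n : ℕ) : ℝ) ≤ (n : ℝ) ^ (3 / 4 : ℝ) + 1 := (Nat.ceil_lt_add_one (by positivity)).le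
    linarith
  have h5 : (max ((nZ n : ℕ) : ℝ) (2 ^ j)) ^ (25 / 8 : ℝ) ≤ (8 : ℝ) ^ (25 / 8 : ℝ) * (n : ℝ) ^ (75 / 32 : ℝ) := by
    refine (Real.rpow_le_rpow (le_max_of_le_right (by positivity)) h3 (by norm_num)).trans (le_of_eq ?_)
    rw [Real.mul_rpow (by norm_num) (by positivity), ← Real.rpow_mul hn0]
    norm_num
  have h6 : (2 : ℝ) ^ ((59 / 24 : ℝ) * (j : ℝ)) = (2 : ℝ) ^ (59 / 8 : ℝ) * (2 : ℝ) ^ ((59 / 24 : ℝ) * ((j - 3 : ℕ) : ℝ)) := by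
    rw [← Real.rpow_add (by norm_num)]
    congr 1
    rw [Nat.cast_sub hj]
    push_cast
    ring
  unfold pr3
  rw [h6]
  calc (2 : ℝ) ^ (59 / 8 : ℝ) * (2 : ℝ) ^ ((59 / 24 : ℝ) * ((j - 3 : ℕ) : ℝ)) * (max ((nZ n : ℕ) : ℝ) (2 ^ j)) ^ (25 / 8 : ℝ)
      ≤ (2 : ℝ) ^ (59 / 8 : ℝ) * (2 : ℝ) ^ ((59 / 24 : ℝ) * ((j - 3 : ℕ) : ℝ)) *
        ((8 : ℝ) ^ (25 / 8 : ℝ) * (n : ℝ) ^ (75 / 32 : ℝ)) := mul_le_mul_of_nonneg_left h5 (by positivity)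
    _ = _ := by ring

/-- **row P9R** from 10's literal (`LowPR`) -/
theorem p9R_of (h : ∀ t0 d : ℝ, 0 < t0 → 0 < d → ∃ (c : ℝ) (b0 : ℕ), 0 < c ∧ ∀ n k j : ℕ, b0 ≤ j → 2 ^ b0 * ml j ≤ n →
    t0 * n ≤ k → (k : ℝ) ≤ (1 - t0) * n → ∀ S : Set Pt, (∀ p : Pt, TIW.hn p ≤ 2 ^ j → p ∈ S) →
      ENNReal.ofReal (c * ((2 : ℝ) ^ ((59 / 24 : ℝ) * j) * (n : ℝ) ^ (75 / 32 : ℝ))) ≤ gp (PR n k d S)) : P9R := by
  intro t0 d ht hd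
  obtain ⟨c, b0, hc, h⟩ := h t0 d ht hd
  obtain ⟨K, hK⟩ : ∃ K : ℝ, K = (2 : ℝ) ^ (59 / 8 : ℝ) * (8 : ℝ) ^ (25 / 8 : ℝ) := ⟨_, rfl⟩
  have hK0 : 0 < K := by rw [hK]; positivity
  refine ⟨c / K, 1 / 2 ^ b0, by positivity, by positivity, fun r hr hr0 => ?_⟩
  obtain ⟨n0, hb⟩ := Ctx.big hr (b0 + 3)
  refine ⟨n0 + 1, fun n k j S hn hC => ?_⟩
  have hj : b0 + 3 ≤ j := hb t0 n k j S (by omega) hC
  have hr1 : r ≤ 1 := hr0.trans (by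
    rw [div_le_one (by positivity)]
    exact one_le_pow₀ (by norm_num))
  have hn1 : 1 ≤ n := by omega
  have hnp : (0 : ℝ) ≤ (n : ℝ) ^ (3 / 4 : ℝ) := by positivity
  -- the level j - 3
  have e1 : (2 : ℝ) ^ j = 8 * 2 ^ (j - 3) := by
    conv_lhs => rw [show j = 3 + (j - 3) by omega, pow_add]
    norm_num
  have g1 : (2 : ℝ) ^ (j - 3) ≤ r * (n : ℝ) ^ (3 / 4 : ℝ) := by
    have := hC.j2
    rw [e1] at this
    linarith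
  have g2 : 2 ^ b0 * ml (j - 3) ≤ n := by
    have g3 : ml (j - 3) = ((2 : ℝ) ^ (j - 3)) ^ (4 / 3 : ℝ) := by
      rw [two_pow_rpow]
      rfl
    have g4 : ((2 : ℝ) ^ (j - 3)) ^ (4 / 3 : ℝ) ≤ (r * (n : ℝ) ^ (3 / 4 : ℝ)) ^ (4 / 3 : ℝ) :=
      Real.rpow_le_rpow (by positivity) g1 (by norm_num)
    have g5 : (r * (n : ℝ) ^ (3 / 4 : ℝ)) ^ (4 / 3 : ℝ) = r ^ (4 / 3 : ℝ) * n := by
      rw [Real.mul_rpow hr.le hnp, ← Real.rpow_mul (Nat.cast_nonneg n)]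
      norm_num
    have g6 : r ^ (4 / 3 : ℝ) ≤ r := by
      conv_rhs => rw [← Real.rpow_one r]
      exact Real.rpow_le_rpow_of_exponent_ge hr hr1 (by norm_num)
    have g7 : (2 : ℝ) ^ b0 * r ≤ 1 := by
      rw [le_div_iff₀ (by positivity)] at hr0
      linarith
    rw [g3]
    calc (2 : ℝ) ^ b0 * ((2 : ℝ) ^ (j - 3)) ^ (4 / 3 : ℝ) ≤ 2 ^ b0 * (r ^ (4 / 3 : ℝ) * n) :=
          mul_le_mul_of_nonneg_left (g4.trans g5.le) (by positivity)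
      _ ≤ 2 ^ b0 * (r * n) := mul_le_mul_of_nonneg_left (mul_le_mul_of_nonneg_right g6 (Nat.cast_nonneg n)) (by positivity)
      _ = (2 ^ b0 * r) * n := by ring
      _ ≤ 1 * n := mul_le_mul_of_nonneg_right g7 (Nat.cast_nonneg n)
      _ = n := one_mul _
  have g8 := h n k (j - 3) (by omega) g2 hC.k1 hC.k2 S (fun p hp => hC.s1 p ?_)
  · refine le_trans (ENNReal.ofReal_le_ofReal ?_) g8
    have g9 := sra_pr3 (n := n) (j := j) hn1 (by omega) (hC.j2.trans (by nlinarith))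
    rw [← hK] at g9
    rw [div_mul_eq_mul_div, div_le_iff₀ hK0]
    calc c * pr3 (nZ n) j ≤ c * (K * ((2 : ℝ) ^ ((59 / 24 : ℝ) * ((j - 3 : ℕ) : ℝ)) * (n : ℝ) ^ (75 / 32 : ℝ))) :=
          mul_le_mul_of_nonneg_left g9 hc.le
      _ = _ := by ring
  · have h1 : (TIW.hn p : ℝ) ≤ ((2 ^ (j - 3) : ℤ) : ℝ) := by exact_mod_cast hp
    refine h1.trans ?_
    push_cast
    exact g1

end RMP

end HexObs
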