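import Pool.Agent.RMP.LowP
import Pool.Agent.RMP.PolG
import Pool.Agent.RMP.SepRA

/-!
# (RM), row P9 (helper10): the theorems

* **`lowPR : LowPR`**, **`p9R : P9R`** : no hypothesis.
-/

set_option autoImplicit false

namespace HexObs

namespace RMP

/-- **the mass of the pairs from below** -/
theorem lowPR : LowPR := lowPR_pol polG

/-- **row P9** -/
theorem p9R : P9R := p9R_of lowPR

end RMP

end HexObs
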