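import Pool.Agent.RMP.Defs

/-!
# RMP, row P0 (helper15): numbers, the mass gp, fibres, the exchange of the two words

* `pr3_up`, `pr3_mono`, `pr3_eq` : the numbers; `HF3.mono`, `HF3.le`;
* `gp_mono`, `gp_union_le`, `gp_fib` (sum over the placed second word of the masses of the fibres), `gp_le_fib`, `gp_fib_mono`;
* `Fr_word`, `Fr_gi`, `pv_gi`, `hn_pv` : frames;
* `sw_sw`, `P3_sw`, `gp_sw`, `gp_sw_P3`, `NTx_sw` : the exchange; `P3_mono`, `Av_take`.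
-/

set_option autoImplicit false

namespace HexObs

namespace RMP

open Finset TS SDN SIM NTA TIP ARM

open scoped ENNReal

/-! ### numbers -/

lemma pr3_pos (R i : ℕ) : 0 < pr3 R i := by
  unfold pr3
  have : (0 : ℝ) < max (R : ℝ) (2 ^ i) := lt_max_of_lt_right (by positivity)
  positivity

lemma pr3_eq {R i : ℕ} (h : 2 ^ i ≤ R) : pr3 R i = (2 : ℝ) ^ ((59 / 24 : ℝ) * (i : ℝ)) * (R : ℝ) ^ (25 / 8 : ℝ) := by
  unfold pr3
  rw [max_eq_left (by exact_mod_cast h)]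

lemma two_pow_rpow (i : ℕ) (a : ℝ) : ((2 : ℝ) ^ i) ^ a = (2 : ℝ) ^ (a * (i : ℝ)) := by
  rw [← Real.rpow_natCast, ← Real.rpow_mul (by norm_num), mul_comm]

/-- the levels above the size: the product bound -/
lemma pr3_top {R i : ℕ} (h : R ≤ 2 ^ i) : pr3 R i = (2 : ℝ) ^ ((67 / 12 : ℝ) * (i : ℝ)) := by
  unfold pr3
  rw [max_eq_right (by exact_mod_cast h), two_pow_rpow, ← Real.rpow_add (by norm_num)]
  congr 1
  ring

lemma pr3_ge (R i : ℕ) : (2 : ℝ) ^ ((67 / 12 : ℝ) * (i : ℝ)) ≤ pr3 R i := by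
  unfold pr3
  have h : (2 : ℝ) ^ ((67 / 12 : ℝ) * (i : ℝ)) = (2 : ℝ) ^ ((59 / 24 : ℝ) * (i : ℝ)) * ((2 : ℝ) ^ i) ^ (25 / 8 : ℝ) := by
    rw [two_pow_rpow, ← Real.rpow_add (by norm_num)]
    congr 1
    ring
  rw [h]
  exact mul_le_mul_of_nonneg_left (Real.rpow_le_rpow (by positivity) (le_max_right _ _) (by norm_num)) (by positivity)

/-- **growth of the predicted mass** -/
lemma pr3_up (R i s : ℕ) : pr3 R (i + s) ≤ (2 : ℝ) ^ ((67 / 12 : ℝ) * (s : ℝ)) * pr3 R i := by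
  unfold pr3
  have h2 : (1 : ℝ) ≤ 2 ^ s := one_le_pow₀ (by norm_num)
  have h1 : max (R : ℝ) (2 ^ (i + s)) ≤ 2 ^ s * max (R : ℝ) (2 ^ i) := by
    refine max_le ?_ ?_
    · calc (R : ℝ) ≤ max (R : ℝ) (2 ^ i) := le_max_left _ _
        _ ≤ 2 ^ s * max (R : ℝ) (2 ^ i) := le_mul_of_one_le_left (le_max_of_le_left (Nat.cast_nonneg R)) h2
    · rw [pow_add, mul_comm]
      exact mul_le_mul_of_nonneg_left (le_max_right _ _) (by positivity)
  have h3 : max (R : ℝ) (2 ^ (i + s)) ^ (25 / 8 : ℝ) ≤ (2 : ℝ) ^ ((25 / 8 : ℝ) * (s : ℝ)) * max (R : ℝ) (2 ^ i) ^ (25 / 8 : ℝ) := by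
    rw [← two_pow_rpow, ← Real.mul_rpow (by positivity) (le_max_of_le_left (Nat.cast_nonneg R))]
    exact Real.rpow_le_rpow (le_max_of_le_left (Nat.cast_nonneg R)) h1 (by norm_num)
  have h4 : (2 : ℝ) ^ ((59 / 24 : ℝ) * ((i + s : ℕ) : ℝ)) = (2 : ℝ) ^ ((59 / 24 : ℝ) * (i : ℝ)) * (2 : ℝ) ^ ((59 / 24 : ℝ) * (s : ℝ)) := by
    rw [← Real.rpow_add (by norm_num)]
    congr 1
    push_cast
    ring
  rw [h4]
  calc (2 : ℝ) ^ ((59 / 24 : ℝ) * (i : ℝ)) * (2 : ℝ) ^ ((59 / 24 : ℝ) * (s : ℝ)) * max (R : ℝ) (2 ^ (i + s)) ^ (25 / 8 : ℝ)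
      ≤ (2 : ℝ) ^ ((59 / 24 : ℝ) * (i : ℝ)) * (2 : ℝ) ^ ((59 / 24 : ℝ) * (s : ℝ)) *
        ((2 : ℝ) ^ ((25 / 8 : ℝ) * (s : ℝ)) * max (R : ℝ) (2 ^ i) ^ (25 / 8 : ℝ)) :=
        mul_le_mul_of_nonneg_left h3 (by positivity)
    _ = ((2 : ℝ) ^ ((59 / 24 : ℝ) * (s : ℝ)) * (2 : ℝ) ^ ((25 / 8 : ℝ) * (s : ℝ))) *
        ((2 : ℝ) ^ ((59 / 24 : ℝ) * (i : ℝ)) * max (R : ℝ) (2 ^ i) ^ (25 / 8 : ℝ)) := by ring
    _ = (2 : ℝ) ^ ((67 / 12 : ℝ) * (s : ℝ)) * ((2 : ℝ) ^ ((59 / 24 : ℝ) * (i : ℝ)) * max (R : ℝ) (2 ^ i) ^ (25 / 8 : ℝ)) := by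
        congr 1
        rw [← Real.rpow_add (by norm_num)]
        congr 1
        ring

/-- a level below the size: only the exponent of the gap -/
lemma pr3_up' {R i s : ℕ} (h : 2 ^ (i + s) ≤ R) : pr3 R (i + s) = (2 : ℝ) ^ ((59 / 24 : ℝ) * (s : ℝ)) * pr3 R i := by
  rw [pr3_eq h, pr3_eq (le_trans (Nat.pow_le_pow_right (by norm_num) (by omega)) h)]
  have h4 : (2 : ℝ) ^ ((59 / 24 : ℝ) * ((i + s : ℕ) : ℝ)) = (2 : ℝ) ^ ((59 / 24 : ℝ) * (s : ℝ)) * (2 : ℝ) ^ ((59 / 24 : ℝ) * (i : ℝ)) := by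
    rw [← Real.rpow_add (by norm_num)]
    congr 1
    push_cast
    ring
  rw [h4]
  ring

lemma pr3_mono (R : ℕ) {i i' : ℕ} (h : i ≤ i') : pr3 R i ≤ pr3 R i' := by
  unfold pr3
  have hi : (i : ℝ) ≤ i' := by exact_mod_cast h
  have h1 : (2 : ℝ) ^ i ≤ 2 ^ i' := pow_le_pow_right₀ (by norm_num) h
  refine mul_le_mul (Real.rpow_le_rpow_of_exponent_le (by norm_num) (by linarith))
    (Real.rpow_le_rpow (le_max_of_le_left (Nat.cast_nonneg R)) (max_le_max le_rfl h1) (by norm_num)) (by positivity) (by positivity)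

lemma HF3.mono {D : ℝ} {R j j' : ℕ} (h : HF3 D R j) (hj : j ≤ j') : HF3 D R j' := fun i hi => h i (hj.trans hi)

lemma HF3.le {D D' : ℝ} {R j : ℕ} (h : HF3 D R j) (hD : D ≤ D') : HF3 D' R j := fun i hi =>
  (h i hi).trans (ENNReal.ofReal_le_ofReal (mul_le_mul_of_nonneg_right hD (pr3_pos R i).le))

/-! ### the mass -/

lemma gp_mono {S S' : Set PT} (h : S ⊆ S') : gp S ≤ gp S' := ENNReal.tsum_mono_subtype (fun T : PT => wE T.1 * wE T.2.2) h

lemma gp_union_le (S S' : Set PT) : gp (S ∪ S') ≤ gp S + gp S' := ENNReal.tsum_union_le (fun T : PT => wE T.1 * wE T.2.2) S S'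

lemma gp_iUnion_le {ι : Type*} (F : ι → Set PT) : gp (⋃ i, F i) ≤ ∑' i, gp (F i) :=
  ENNReal.tsum_iUnion_le_tsum (fun T : PT => wE T.1 * wE T.2.2) F

lemma gp_biUnion_le {ι : Type*} (s : Finset ι) (F : ι → Set PT) : gp (⋃ i ∈ s, F i) ≤ ∑ i ∈ s, gp (F i) :=
  ENNReal.tsum_biUnion_le (fun T : PT => wE T.1 * wE T.2.2) s F

lemma gp_empty : gp ∅ = 0 := by
  unfold gp
  exact tsum_empty

lemma gp_indicator (S : Set PT) : gp S = ∑' T : PT, S.indicator (fun T : PT => wE T.1 * wE T.2.2) T :=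
  tsum_subtype S (fun T : PT => wE T.1 * wE T.2.2)

/-- **the mass as a sum over the placed second word** -/
lemma gp_fib (S : Set PT) : gp S = ∑' G : (Pt × Pt) × List Bool, wE G.2 * gf {L | ((L, G) : PT) ∈ S} := by
  rw [gp_indicator, ENNReal.tsum_prod', ENNReal.tsum_comm]
  refine tsum_congr fun G => ?_
  have h : gf {L | ((L, G) : PT) ∈ S} = ∑' L : List Bool, ({L | ((L, G) : PT) ∈ S} : Set (List Bool)).indicator wE L :=
    tsum_subtype _ _
  rw [h, ← ENNReal.tsum_mul_left]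
  refine tsum_congr fun L => ?_
  by_cases hL : ((L, G) : PT) ∈ S
  · rw [Set.indicator_of_mem hL, Set.indicator_of_mem (show L ∈ {L | ((L, G) : PT) ∈ S} from hL), mul_comm]
  · rw [Set.indicator_of_notMem hL, Set.indicator_of_notMem (show L ∉ {L | ((L, G) : PT) ∈ S} from hL), mul_zero]

lemma gp_le_fib {S : Set PT} {f : (Pt × Pt) × List Bool → ℝ≥0∞} (h : ∀ G, gf {L | ((L, G) : PT) ∈ S} ≤ f G) :
    gp S ≤ ∑' G : (Pt × Pt) × List Bool, wE G.2 * f G := by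
  rw [gp_fib]
  exact ENNReal.tsum_le_tsum fun G => mul_le_mul_right (h G) _

/-- comparison fibre by fibre -/
lemma gp_fib_mono {S S' : Set PT} {x : ℝ≥0∞} (h : ∀ G, gf {L | ((L, G) : PT) ∈ S} ≤ x * gf {L | ((L, G) : PT) ∈ S'}) :
    gp S ≤ x * gp S' := by
  rw [gp_fib, gp_fib, ← ENNReal.tsum_mul_left]
  refine ENNReal.tsum_le_tsum fun G => ?_
  calc wE G.2 * gf {L | ((L, G) : PT) ∈ S} ≤ wE G.2 * (x * gf {L | ((L, G) : PT) ∈ S'}) := mul_le_mul_right (h G) _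
    _ = x * (wE G.2 * gf {L | ((L, G) : PT) ∈ S'}) := by ring

/-! ### frames -/

lemma cl_oo : cl oo = 0 := by decide

lemma cl_up' : cl up = -1 := by decide

/-- the end of a word is a frame of the lattice -/
lemma Fr_word (W : List Bool) : Fr (TIW.en W, TIW.rt W) := by
  have e1 : cl (TIW.de W) = cl (TIW.rt W) * cl up := by rw [← cl_mulE, TIW.rt_up]
  have e2 : cl (TIW.de W) = if Even W.length then cl up else - cl up := cl_dx up W W.length
  have e3 : cl (TIW.en W) = if Even W.length then cl oo else cl oo + cl up := cl_vx oo up W W.length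
  have e4 : cl (TIW.rt W) = if Even W.length then 1 else -1 := by
    rw [e2, cl_up'] at e1
    split_ifs at e1 ⊢ with h
    · have : cl (TIW.rt W) * -1 = -1 := e1.symm
      linear_combination (-1 : ZMod 3) * this
    · have : cl (TIW.rt W) * -1 = - -1 := e1.symm
      linear_combination (-1 : ZMod 3) * this
  refine ⟨mem_dirs.2 (TIW.nrm_rt W), ?_⟩
  show (cl (TIW.en W) = 0 ∧ cl (TIW.rt W) = 1) ∨ (cl (TIW.en W) = cl up ∧ cl (TIW.rt W) = -1)
  rw [e3, e4]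
  by_cases h : Even W.length
  · left; simp [h, cl_oo]
  · right; simp [h, cl_oo]

lemma Fr.nrm {g : Pt × Pt} (h : Fr g) : nrm g.2 = 1 := mem_dirs.1 h.1

lemma conj_mul {c : Pt} (h : nrm c = 1) (p : Pt) : mulE (conjE c) (mulE c p) = p := by
  rw [mulE_assoc, mulE_comm (conjE c) c, mulE_conjE, h, mulE_one]

lemma mul_conj {c : Pt} (h : nrm c = 1) (p : Pt) : mulE c (mulE (conjE c) p) = p := by
  rw [mulE_assoc, mulE_conjE, h, mulE_one]

lemma mulE_sub' (c p q : Pt) : mulE c (p - q) = mulE c p - mulE c q := by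
  rw [sub_eq_add_neg, mulE_add, mulE_neg, sub_eq_add_neg]

lemma Fr_gi {g : Pt × Pt} (h : Fr g) : Fr (gi g) := by
  have hn : nrm (conjE g.2) = 1 := by rw [nrm_conjE, h.nrm]
  refine ⟨mem_dirs.2 hn, ?_⟩
  have e1 : cl (gi g).1 = -(cl g.2 * cl g.1) := by
    unfold gi
    show cl (-(mulE (conjE g.2) g.1)) = _
    have : cl (-(mulE (conjE g.2) g.1)) = -cl (mulE (conjE g.2) g.1) := by
      have h2 := cl_add (mulE (conjE g.2) g.1) (-(mulE (conjE g.2) g.1))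
      rw [add_neg_cancel] at h2
      have h0 : cl (0 : Pt) = 0 := by decide
      rw [h0] at h2
      exact (neg_eq_of_add_eq_zero_right h2.symm).symm
    rw [this, cl_mulE, cl_conjE]
  have e2 : cl (gi g).2 = cl g.2 := cl_conjE g.2
  rw [e1, e2]
  rcases h.2 with ⟨h1, h2⟩ | ⟨h1, h2⟩
  · left
    rw [h1, h2]
    simp
  · right
    rw [h1, h2]
    simp

/-- the frame of the inverse frame -/
lemma gi_gi {g : Pt × Pt} (h : Fr g) : gi (gi g) = g := by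
  have h1 : conjE (conjE g.2) = g.2 := by
    unfold conjE
    ext <;> simp
  unfold gi
  show (-(mulE (conjE (conjE g.2)) (-(mulE (conjE g.2) g.1))), conjE (conjE g.2)) = g
  rw [h1, mulE_neg, mul_conj h.nrm, neg_neg]

/-- the vertices in the frame of the second word -/
lemma pv_gi {g : Pt × Pt} (h : Fr g) (A : List Bool) (t : ℕ) :
    vx oo up A t = g.1 + mulE g.2 (pv (gi g) A t) := by
  unfold pv gi
  show vx oo up A t = g.1 + mulE g.2 (-(mulE (conjE g.2) g.1) + mulE (conjE g.2) (vx oo up A t))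
  rw [mulE_add, mulE_neg, mul_conj h.nrm, mul_conj h.nrm]
  abel

/-- distances do not depend on the frame -/
lemma hn_pv {g : Pt × Pt} (h : Fr g) (B A : List Bool) (s t : ℕ) :
    TIW.hn (vx oo up B s - pv (gi g) A t) = TIW.hn (vx oo up A t - pv g B s) := by
  have e : vx oo up A t - pv g B s = mulE g.2 (pv (gi g) A t - vx oo up B s) := by
    rw [pv_gi h A t, mulE_sub']
    unfold pv
    abel
  rw [e, TIW.hn_mulE h.nrm, TIW.hn_sub_comm]

lemma hn_pv_self {g : Pt × Pt} (h : Fr g) (B : List Bool) (s t : ℕ) :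
    TIW.hn (pv g B s - pv g B t) = TIW.hn (vx oo up B s - vx oo up B t) := by
  have e : pv g B s - pv g B t = mulE g.2 (vx oo up B s - vx oo up B t) := by
    rw [mulE_sub']
    unfold pv
    abel
  rw [e, TIW.hn_mulE h.nrm]

/-! ### the exchange -/

lemma sw_sw {T : PT} (h : Fr T.2.1) : sw (sw T) = T := by
  obtain ⟨L, g, B⟩ := T
  show (L, (gi (gi g), B)) = (L, (g, B))
  rw [gi_gi h]

lemma Av_sw {g : Pt × Pt} (h : Fr g) {A B : List Bool} (hA : Av (ob g B) A) : Av (ob (gi g) A) B := by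
  rintro t ht ⟨s, hs, he⟩
  refine hA s hs ⟨t, ht, ?_⟩
  rw [pv_gi h A s, ← he]
  rfl

lemma P3_fr {R i : ℕ} {T : PT} (h : T ∈ P3 R i) : Fr T.2.1 := h.2.2.1

lemma P3_sw {R i : ℕ} {T : PT} (h : T ∈ P3 R i) : sw T ∈ P3 R i := by
  obtain ⟨h1, h2, h3, h4, h5, h6, h7⟩ := h
  refine ⟨h2, h1, Fr_gi h3, Av_sw h3 h4, ?_, h7, h6⟩
  have := hn_pv h3 T.2.2 T.1 T.2.2.length T.1.length
  exact this.le.trans h5

lemma P3_sw_iff {R i : ℕ} {T : PT} (h : Fr T.2.1) : sw T ∈ P3 R i ↔ T ∈ P3 R i := by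
  constructor
  · intro h1
    have := P3_sw h1
    rwa [sw_sw h] at this
  · exact P3_sw

/-- **the exchange keeps the mass** -/
lemma gp_sw {S S' : Set PT} (hS : ∀ T ∈ S, Fr T.2.1) (h : ∀ T ∈ S, sw T ∈ S') : gp S ≤ gp S' := by
  unfold gp
  have hinj : Function.Injective (fun T : S => (⟨sw T, h T T.2⟩ : S')) := by
    intro T T' hTT
    have h1 : sw (T : PT) = sw (T' : PT) := congrArg Subtype.val hTT
    apply Subtype.ext
    rw [← sw_sw (hS T T.2), ← sw_sw (hS T' T'.2), h1]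
  calc ∑' T : S, wE (T : PT).1 * wE (T : PT).2.2
      = ∑' T : S, (fun T' : S' => wE (T' : PT).1 * wE (T' : PT).2.2) ⟨sw T, h T T.2⟩ :=
        tsum_congr fun T => mul_comm _ _
    _ ≤ ∑' T' : S', wE (T' : PT).1 * wE (T' : PT).2.2 := ENNReal.tsum_comp_le_tsum_of_injective hinj _

/-- the mass of a property of the exchanged pair -/
lemma gp_sw_P3 {R i : ℕ} (Q : PT → Prop) : gp {T | T ∈ P3 R i ∧ Q (sw T)} = gp {T | T ∈ P3 R i ∧ Q T} := by
  refine le_antisymm (gp_sw (fun T hT => P3_fr hT.1) fun T hT => ⟨P3_sw hT.1, hT.2⟩)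
    (gp_sw (fun T hT => P3_fr hT.1) fun T hT => ⟨P3_sw hT.1, ?_⟩)
  show Q (sw (sw T))
  rw [sw_sw (P3_fr hT.1)]
  exact hT.2

/-- the touch of the arms is symmetric -/
lemma NTx_sw {c i : ℕ} {r : ℤ} {T : PT} (hg : Fr T.2.1) (h : T ∈ NTx c i r) : sw T ∈ NTx c i r := by
  obtain ⟨a, b, ha, hb, h1, h2, h3, h4, h5⟩ := h
  refine ⟨b, a, hb, ha, h2, h1, h4, h3, ?_⟩
  have := hn_pv hg T.2.2 T.1 b a
  exact this.le.trans h5

/-! ### inclusions -/

lemma P3_mono {R R' i i' : ℕ} (hR : R ≤ R') (hi : i ≤ i') : P3 R i ⊆ P3 R' i' := by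
  rintro T ⟨h1, h2, h3, h4, h5, h6, h7⟩
  have e1 : (2 : ℤ) ^ i ≤ 2 ^ i' := pow_le_pow_right₀ (by norm_num) hi
  have e2 : (R : ℤ) ≤ R' := by exact_mod_cast hR
  refine ⟨h1, h2, h3, h4, h5.trans e1, fun s hs => (h6 s hs).trans (by linarith), fun s hs => (h7 s hs).trans (by linarith)⟩

/-- a part removed at the tip of the first word -/
lemma Av_take {E : Set Pt} {A Y : List Bool} (h : Av E (A ++ Y)) : Av E A := by
  intro t ht
  have h1 := h t (by rw [List.length_append]; omega)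
  rwa [vx_append (by omega)] at h1

end RMP

end HexObs
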