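import Pool.Agent.RMP.PubWA
import Pool.Agent.RMP.DefsK
import Pool.Agent.RMP.Num
import Pool.Agent.SLW.PubY
import Pool.Agent.NTS.Fin

/-!
# RMP, the dictionary of the sums (helper47), part 2: `psum` and the mass of the pairs of words

* `wcv n r T` : the curve of a pair of words, rotated by `r` third turns;
* `PR_fin` : finitely many pairs; `gp_PR_ne`, `gpF_PR_ne`;
* `psum_gpF` : **psum = θ (1 ± ε) ∑ over the rotations of gpF**.
-/

set_option autoImplicit false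

open Finset
open scoped Classical ENNReal

namespace Pool.Agent.RMP

namespace W

open HexObs hiding pos

open HexObs.SDN HexObs.RMP

open HexObs.TOG (wdN mem_wdN)

open Pool.Agent.NTS.Res

open NTF (sw JJ)

open NTSF (om om_cube om_ne om_norm rot pos_rot pos_sw ww ww_pos)

/-! ### curves -/

/-- the sequence `x` followed by `y` backwards -/
noncomputable def gl (m l : ℕ) (x y : ℕ → ℂ) (k : ℕ) : ℂ := if k ≤ m then x k else y (m + l + 1 - k)

/-- its curve in the scaling of `n` -/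
noncomputable def cv (n m l : ℕ) (x y : ℕ → ℂ) : C(unitInterval, ℂ) where
  toFun u := ∑ k ∈ Finset.range (m + l + 1),
    ((max 0 (min 1 ((u : ℝ) * ((m + l + 1 : ℕ) : ℝ) - k)) : ℝ) : ℂ) * ((gl m l x y (k + 1) - gl m l x y k) / size n)
  continuous_toFun := by fun_prop

lemma gcurve_cv (n : ℕ) {m l : ℕ} (a : Fin m → Fin 3) (b : Fin l → Fin 3) (p : ℤ × ℤ) :
    gcurve n a b p = cv n m l (pos a) (bpos p b) := rfl

lemma gl_congr {m l : ℕ} {x x' y y' : ℕ → ℂ} (hx : ∀ i, i ≤ m → x i = x' i) (hy : ∀ j, j ≤ l → y j = y' j) {k : ℕ} :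
    gl m l x y k = gl m l x' y' k := by
  unfold gl
  by_cases h : k ≤ m
  · rw [if_pos h, if_pos h, hx k h]
  · rw [if_neg h, if_neg h, hy _ (by omega)]

lemma cv_congr (n : ℕ) {m l : ℕ} {x x' y y' : ℕ → ℂ} (hx : ∀ i, i ≤ m → x i = x' i) (hy : ∀ j, j ≤ l → y j = y' j) :
    cv n m l x y = cv n m l x' y' := by
  ext u
  show ∑ k ∈ Finset.range (m + l + 1), ((max 0 (min 1 ((u : ℝ) * ((m + l + 1 : ℕ) : ℝ) - k)) : ℝ) : ℂ) *
      ((gl m l x y (k + 1) - gl m l x y k) / size n) = ∑ k ∈ Finset.range (m + l + 1),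
      ((max 0 (min 1 ((u : ℝ) * ((m + l + 1 : ℕ) : ℝ) - k)) : ℝ) : ℂ) * ((gl m l x' y' (k + 1) - gl m l x' y' k) / size n)
  refine sum_congr rfl fun k _ => ?_
  rw [gl_congr hx hy, gl_congr (k := k) hx hy]

/-- **the curve of a pair of words, rotated by `r` third turns** -/
noncomputable def wcv (n : ℕ) (r : Fin 3) (T : PT) : C(unitInterval, ℂ) :=
  cv n T.1.length T.2.2.length (fun i => om ^ (r : ℕ) * JJ (vx oo up T.1 i))
    (fun j => om ^ (r : ℕ) * JJ (pv T.2.1 T.2.2 j))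

/-! ### finiteness -/

/-- the differences of length at most `R` -/
def SR (R : ℝ) : Set Pt := {v | ‖JJ v‖ ≤ R}

lemma SR_fin (R : ℝ) : (SR R).Finite := by
  obtain ⟨N, hN⟩ := exists_nat_ge (2 * R ^ 2)
  have h1 : SR R ⊆ ((Finset.Icc (-(N : ℤ)) N ×ˢ Finset.Icc (-(N : ℤ)) N : Finset (ℤ × ℤ)) : Set (ℤ × ℤ)) := by
    intro v hv
    have h2 : ‖JJ v‖ ^ 2 ≤ R ^ 2 := pow_le_pow_left₀ (norm_nonneg _) hv 2
    rw [NTF.JJ_norm] at h2
    have h3 : ((2 * nrm v : ℤ) : ℝ) ≤ ((N : ℤ) : ℝ) := by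
      push_cast
      linarith
    have h4 : 2 * nrm v ≤ N := by exact_mod_cast h3
    unfold nrm at h4
    have b1 : v.1 ^ 2 ≤ N := by nlinarith [sq_nonneg (v.1 + 2 * v.2)]
    have b2 : v.2 ^ 2 ≤ N := by nlinarith [sq_nonneg (v.2 + 2 * v.1)]
    have key : ∀ x : ℤ, x ^ 2 ≤ N → -(N : ℤ) ≤ x ∧ x ≤ N := by
      intro x hx
      constructor <;> nlinarith [sq_nonneg (x - 1), sq_nonneg (x + 1)]
    rw [Finset.mem_coe, Finset.mem_product, Finset.mem_Icc, Finset.mem_Icc]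
    exact ⟨key _ b1, key _ b2⟩
  exact (Finset.finite_toSet _).subset h1

/-- **finitely many pairs** -/
lemma PR_fin (n k : ℕ) (d : ℝ) {S : Set Pt} (hS : S.Finite) : (PR n k d S).Finite := by
  obtain ⟨L, hL⟩ := exists_nat_ge (max ((1 + d) * k) ((1 + d) * (n - k)))
  obtain ⟨φ, hφ⟩ : ∃ φ : (List Bool × List Bool) × (Pt × Pt) → PT, φ = fun q =>
    (q.1.1, ((TIW.en q.1.1 - q.2.2 - mulE q.2.1 (vx oo up q.1.2 q.1.2.length), q.2.1), q.1.2)) := ⟨_, rfl⟩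
  have hfin : (({t : List Bool | t.length ≤ L} ×ˢ {t : List Bool | t.length ≤ L}) ×ˢ
      ((dirs : Set Pt) ×ˢ S) : Set ((List Bool × List Bool) × (Pt × Pt))).Finite :=
    ((List.finite_length_le Bool L).prod (List.finite_length_le Bool L)).prod ((Finset.finite_toSet _).prod hS)
  refine (hfin.image φ).subset ?_
  rintro ⟨A, g, B⟩ ⟨h1, h2, h3, h4, h5, h6, h7, h8, h9⟩
  have l1 : A.length ≤ L := by
    have : (A.length : ℝ) ≤ L := h7.trans ((le_max_left _ _).trans hL)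
    exact_mod_cast this
  have l2 : B.length ≤ L := by
    have : (B.length : ℝ) ≤ L := h9.trans ((le_max_right _ _).trans hL)
    exact_mod_cast this
  refine ⟨((A, B), (g.2, TIW.en A - pe g B)), ⟨⟨l1, l2⟩, ⟨h3.1, h5⟩⟩, ?_⟩
  rw [hφ]
  show (A, ((TIW.en A - (TIW.en A - pe g B) - mulE g.2 (vx oo up B B.length), g.2), B)) = (A, (g, B))
  have e : TIW.en A - (TIW.en A - pe g B) - mulE g.2 (vx oo up B B.length) = g.1 := by
    unfold pe pv
    abel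
  rw [e]

lemma gp_fin {S : Set PT} (hS : S.Finite) : gp S ≠ ⊤ := by
  unfold gp
  have := hS.fintype
  rw [tsum_fintype]
  refine ENNReal.sum_ne_top.2 fun T _ => ?_
  exact ENNReal.mul_ne_top ENNReal.ofReal_ne_top ENNReal.ofReal_ne_top

lemma gp_PR_ne (n k : ℕ) (d : ℝ) {S : Set Pt} (hS : S.Finite) : gp (PR n k d S) ≠ ⊤ := gp_fin (PR_fin n k d hS)

lemma gpF_le {Φ : PT → ℝ} (h1 : ∀ T, Φ T ≤ 1) (S : Set PT) : gpF Φ S ≤ gp S := by
  unfold gpF gp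
  refine ENNReal.tsum_le_tsum fun T => ?_
  calc _ ≤ wE (T : PT).1 * wE (T : PT).2.2 * 1 := mul_le_mul_right (ENNReal.ofReal_le_one.2 (h1 T)) _
    _ = _ := mul_one _

lemma gpF_PR_ne {Φ : PT → ℝ} (h1 : ∀ T, Φ T ≤ 1) (n k : ℕ) (d : ℝ) {S : Set Pt} (hS : S.Finite) :
    gpF Φ (PR n k d S) ≠ ⊤ := ne_top_of_le_ne_top (gp_PR_ne n k d hS) (gpF_le h1 _)

/-! ### the mass of the pairs by the lengths -/

/-- the pairs of words with `m` and `l` letters, without weights -/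
noncomputable def YY (Φ : PT → ℝ) (S : Set Pt) (m l : ℕ) : ℝ≥0∞ :=
  ∑ A ∈ wdN m, ∑ B ∈ wdN l, ∑' g : Pt × Pt,
    if Fr g ∧ Av (ob g B) A ∧ TIW.en A - pe g B ∈ S then ENNReal.ofReal (Φ (A, (g, B))) else 0

lemma mem_win {d : ℝ} (hd : 0 ≤ d) {k m : ℕ} : m ∈ win d k ↔ k ≤ m ∧ (m : ℝ) ≤ (1 + d) * k := by
  unfold win
  rw [Finset.mem_filter, Finset.mem_range, Nat.lt_succ_iff, Nat.le_floor_iff (by positivity), and_comm]

lemma wdN_disj (W : Finset ℕ) : (W : Set ℕ).PairwiseDisjoint wdN := by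
  intro a _ b _ hab
  rw [Function.onFun, Finset.disjoint_left]
  intro t h1 h2
  exact hab ((mem_wdN.1 h1).1.symm.trans (mem_wdN.1 h2).1)

/-- **the mass by the lengths** -/
theorem gpF_eq (Φ : PT → ℝ) {n k : ℕ} (hkn : k ≤ n) {d : ℝ} (hd : 0 ≤ d) (S : Set Pt) :
    gpF Φ (PR n k d S) = ∑ m ∈ win d k, ∑ l ∈ win d (n - k), ENNReal.ofReal (xc ^ (m + l)) * YY Φ S m l := by
  have hx := xc_pos
  obtain ⟨w, hw⟩ : ∃ w : PT → ℝ≥0∞, w = fun T => wE T.1 * wE T.2.2 * ENNReal.ofReal (Φ T) := ⟨_, rfl⟩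
  have h0 : gpF Φ (PR n k d S) = ∑' T : PT, (PR n k d S).indicator w T := by
    rw [hw]
    exact tsum_subtype (PR n k d S) fun T : PT => wE T.1 * wE T.2.2 * ENNReal.ofReal (Φ T)
  have h1 : gpF Φ (PR n k d S) = ∑' A : List Bool, ∑' B : List Bool, ∑' g : Pt × Pt,
      (PR n k d S).indicator w (A, (g, B)) := by
    rw [h0, ENNReal.tsum_prod']
    refine tsum_congr fun A => ?_
    rw [ENNReal.tsum_prod', ENNReal.tsum_comm]
  have hA : ∀ A : List Bool, A ∉ (win d k).biUnion wdN → ∑' B : List Bool, ∑' g : Pt × Pt,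
      (PR n k d S).indicator w (A, (g, B)) = 0 := by
    intro A hA
    refine ENNReal.tsum_eq_zero.2 fun B => ENNReal.tsum_eq_zero.2 fun g => Set.indicator_of_notMem ?_ _
    rintro ⟨h1, h2, h3, h4, h5, h6, h7, h8, h9⟩
    exact hA (Finset.mem_biUnion.2 ⟨A.length, (mem_win hd).2 ⟨h6, h7⟩, mem_wdN.2 ⟨rfl, h1⟩⟩)
  have hB : ∀ A B : List Bool, B ∉ (win d (n - k)).biUnion wdN → ∑' g : Pt × Pt,
      (PR n k d S).indicator w (A, (g, B)) = 0 := by
    intro A B hB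
    refine ENNReal.tsum_eq_zero.2 fun g => Set.indicator_of_notMem ?_ _
    rintro ⟨h1, h2, h3, h4, h5, h6, h7, h8, h9⟩
    refine hB (Finset.mem_biUnion.2 ⟨B.length, (mem_win hd).2 ⟨?_, ?_⟩, mem_wdN.2 ⟨rfl, h2⟩⟩)
    · show n - k ≤ B.length
      have h8' : n ≤ B.length + k := h8
      omega
    · rw [Nat.cast_sub hkn]
      exact h9
  rw [h1, tsum_eq_sum hA, sum_biUnion (wdN_disj _)]
  refine sum_congr rfl fun m hm => ?_
  have e1 : ∀ A ∈ wdN m, ∑' B : List Bool, ∑' g : Pt × Pt, (PR n k d S).indicator w (A, (g, B)) =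
      ∑ l ∈ win d (n - k), ∑ B ∈ wdN l, ∑' g : Pt × Pt, (PR n k d S).indicator w (A, (g, B)) := by
    intro A _
    rw [tsum_eq_sum (hB A), sum_biUnion (wdN_disj _)]
  rw [sum_congr rfl e1, sum_comm]
  refine sum_congr rfl fun l hl => ?_
  unfold YY
  rw [mul_sum]
  refine sum_congr rfl fun A hA' => ?_
  rw [mul_sum]
  refine sum_congr rfl fun B hB' => ?_
  rw [← ENNReal.tsum_mul_left]
  refine tsum_congr fun g => ?_
  obtain ⟨lA, sA⟩ := mem_wdN.1 hA'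
  obtain ⟨lB, sB⟩ := mem_wdN.1 hB'
  obtain ⟨m1, m2⟩ := (mem_win hd).1 hm
  obtain ⟨l1, l2⟩ := (mem_win hd).1 hl
  rw [Nat.cast_sub hkn] at l2
  by_cases h : Fr g ∧ Av (ob g B) A ∧ TIW.en A - pe g B ∈ S
  · have hmem : ((A, (g, B)) : PT) ∈ PR n k d S :=
      ⟨sA, sB, h.1, h.2.1, h.2.2, by rw [lA]; exact m1, by rw [lA]; exact m2, by
        show n ≤ B.length + k
        rw [lB]
        omega, by rw [lB]; exact l2⟩
    rw [if_pos h, Set.indicator_of_mem hmem, hw]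
    show ENNReal.ofReal (xc ^ A.length) * ENNReal.ofReal (xc ^ B.length) * _ = _
    rw [← ENNReal.ofReal_mul (by positivity), ← pow_add, lA, lB]
  · rw [if_neg h, mul_zero, Set.indicator_of_notMem]
    rintro ⟨h1, h2, h3, h4, h5, h6⟩
    exact h ⟨h3, h4, h5⟩

lemma YY_ne {Φ : PT → ℝ} (h1 : ∀ T, Φ T ≤ 1) {n k : ℕ} (hkn : k ≤ n) {d : ℝ} (hd : 0 ≤ d) {S : Set Pt} (hS : S.Finite)
    {m l : ℕ} (hm : m ∈ win d k) (hl : l ∈ win d (n - k)) : YY Φ S m l ≠ ⊤ := by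
  intro h
  have hx := xc_pos
  have h2 := gpF_PR_ne h1 n k d hS
  rw [gpF_eq Φ hkn hd S] at h2
  have h3 := ENNReal.sum_ne_top.1 h2 m hm
  have h4 := ENNReal.sum_ne_top.1 h3 l hl
  rw [h, ENNReal.mul_top] at h4
  · exact h4 rfl
  · rw [ne_eq, ENNReal.ofReal_eq_zero, not_le]
    positivity

theorem gpF_real {Φ : PT → ℝ} (h1 : ∀ T, Φ T ≤ 1) {n k : ℕ} (hkn : k ≤ n) {d : ℝ} (hd : 0 ≤ d) {S : Set Pt}
    (hS : S.Finite) : (gpF Φ (PR n k d S)).toReal =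
      ∑ m ∈ win d k, ∑ l ∈ win d (n - k), xc ^ (m + l) * (YY Φ S m l).toReal := by
  have hx := xc_pos
  have h2 := gpF_PR_ne h1 n k d hS
  rw [gpF_eq Φ hkn hd S] at h2 ⊢
  have h3 := ENNReal.sum_ne_top.1 h2
  rw [ENNReal.toReal_sum h3]
  refine sum_congr rfl fun m hm => ?_
  rw [ENNReal.toReal_sum (ENNReal.sum_ne_top.1 (h3 m hm))]
  refine sum_congr rfl fun l _ => ?_
  rw [ENNReal.toReal_mul, ENNReal.toReal_ofReal (by positivity)]

/-! ### the public sum -/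

/-- the local function of the two sequences -/
noncomputable def KF (f : C(unitInterval, ℂ) → ℝ) (n : ℕ) (R : ℝ) (m l : ℕ) (x y : ℕ → ℂ) : ℝ≥0∞ :=
  if ‖x m - y l‖ ≤ R ∧ ∀ i j, i ≤ m → j ≤ l → x i ≠ y j then ENNReal.ofReal (f (cv n m l x y)) else 0

lemma KF_local (f : C(unitInterval, ℂ) → ℝ) (n : ℕ) (R : ℝ) (m l : ℕ) (x x' y y' : ℕ → ℂ)
    (hx : ∀ i, i ≤ m → x i = x' i) (hy : ∀ j, j ≤ l → y j = y' j) : KF f n R m l x y = KF f n R m l x' y' := by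
  unfold KF
  rw [cv_congr n hx hy, hx m le_rfl, hy l le_rfl]
  congr 1
  apply propext
  refine and_congr_right fun _ => ?_
  constructor
  · intro h i j hi hj
    rw [← hx i hi, ← hy j hj]
    exact h i j hi hj
  · intro h i j hi hj
    rw [hx i hi, hy j hj]
    exact h i j hi hj

/-- two walks and a start as words -/
lemma pairs_YY (f : C(unitInterval, ℂ) → ℝ) (n : ℕ) (R : ℝ) {m l : ℕ} (hm : 0 < m) (hl : 0 < l) :
    4 * ∑ a ∈ saw m, ∑ b ∈ saw l, ∑' p : ℤ × ℤ, (if IsV p then KF f n R m l (pos a) (bpos p b) else 0) =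
      ∑ r : Fin 3, YY (fun T => f (wcv n r T)) (SR R) m l := by
  rw [sum_pairs hm hl (KF f n R m l) (KF_local f n R m l)]
  refine sum_congr rfl fun r _ => sum_congr rfl fun A hA => sum_congr rfl fun B hB => tsum_congr fun g => ?_
  obtain ⟨lA, sA⟩ := mem_wdN.1 hA
  obtain ⟨lB, sB⟩ := mem_wdN.1 hB
  have hn : ‖(om ^ (r : ℕ) : ℂ)‖ = 1 := by rw [norm_pow, om_norm, one_pow]
  have hne : (om ^ (r : ℕ) : ℂ) ≠ 0 := pow_ne_zero _ om_ne
  by_cases hF : Fr g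
  · rw [if_pos hF]
    unfold KF
    have e1 : ‖(fun i => om ^ (r : ℕ) * JJ (vx oo up A i)) m - (fun j => om ^ (r : ℕ) * JJ (pv g B j)) l‖ ≤ R ↔
        TIW.en A - pe g B ∈ SR R := by
      show ‖om ^ (r : ℕ) * JJ (vx oo up A m) - om ^ (r : ℕ) * JJ (pv g B l)‖ ≤ R ↔ ‖JJ (TIW.en A - pe g B)‖ ≤ R
      rw [← mul_sub, norm_mul, hn, one_mul, ← NTF.JJ_sub]
      unfold TIW.en pe
      rw [lA, lB]
    have e2 : (∀ i j, i ≤ m → j ≤ l → (fun i => om ^ (r : ℕ) * JJ (vx oo up A i)) i ≠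
        (fun j => om ^ (r : ℕ) * JJ (pv g B j)) j) ↔ Av (ob g B) A := by
      constructor
      · rintro h i hi ⟨j, hj, he⟩
        refine h i j (by omega) (by omega) ?_
        show om ^ (r : ℕ) * JJ (vx oo up A i) = om ^ (r : ℕ) * JJ (pv g B j)
        rw [he]
      · intro h i j hi hj he
        have h2 : JJ (vx oo up A i) = JJ (pv g B j) := mul_left_cancel₀ hne he
        exact h i (by omega) ⟨j, by omega, NTF.JJ_inj h2⟩
    have e3 : cv n m l (fun i => om ^ (r : ℕ) * JJ (vx oo up A i)) (fun j => om ^ (r : ℕ) * JJ (pv g B j)) =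
        wcv n r (A, (g, B)) := by
      unfold wcv
      show cv n m l _ _ = cv n A.length B.length _ _
      rw [lA, lB]
    rw [e3]
    by_cases h : TIW.en A - pe g B ∈ SR R ∧ Av (ob g B) A
    · rw [if_pos ⟨e1.2 h.1, e2.2 h.2⟩, if_pos ⟨hF, h.2, h.1⟩]
    · rw [if_neg fun h' => h ⟨e1.1 h'.1, e2.1 h'.2⟩, if_neg fun h' => h ⟨h'.2.2, h'.2.1⟩]
  · rw [if_neg hF, if_neg fun h => hF h.1]

/-- the public sum over the walks with `m` and `l` steps -/
lemma inner_real {f : C(unitInterval, ℂ) → ℝ} (h0 : ∀ γ, 0 ≤ f γ) (h1 : ∀ γ, f γ ≤ 1) (n : ℕ) {n' k : ℕ} (R : ℝ)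
    (hkn : k ≤ n') {d : ℝ} (hd : 0 ≤ d) {m l : ℕ} (hm0 : 0 < m) (hl0 : 0 < l) (hm : m ∈ win d k)
    (hl : l ∈ win d (n' - k)) :
    ∑ a ∈ saw m, ∑ b ∈ saw l, ∑' p : ℤ × ℤ, (if Nears a b p R then f (gcurve n a b p) else 0) =
      (∑ r : Fin 3, (YY (fun T => f (wcv n r T)) (SR R) m l).toReal) / 4 := by
  have hE := pairs_YY f n R hm0 hl0
  have hY : ∀ r : Fin 3, YY (fun T => f (wcv n r T)) (SR R) m l ≠ ⊤ := fun r =>
    YY_ne (fun T => h1 _) hkn hd (SR_fin R) hm hl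
  have hfin : (4 : ℝ≥0∞) * ∑ a ∈ saw m, ∑ b ∈ saw l, ∑' p : ℤ × ℤ,
      (if IsV p then KF f n R m l (pos a) (bpos p b) else 0) ≠ ⊤ := by
    rw [hE]
    exact ENNReal.sum_ne_top.2 fun r _ => hY r
  have hfin2 : ∑ a ∈ saw m, ∑ b ∈ saw l, ∑' p : ℤ × ℤ,
      (if IsV p then KF f n R m l (pos a) (bpos p b) else 0) ≠ ⊤ := by
    intro h
    rw [h] at hfin
    exact hfin (ENNReal.mul_top (by norm_num))
  have h4 := congrArg ENNReal.toReal hE
  rw [ENNReal.toReal_mul, ENNReal.toReal_sum (fun r _ => hY r)] at h4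
  have h5 : ((4 : ℝ≥0∞)).toReal = 4 := by norm_num
  rw [h5] at h4
  rw [← h4, mul_div_cancel_left₀ _ (by norm_num : (4 : ℝ) ≠ 0)]
  have h6 := ENNReal.sum_ne_top.1 hfin2
  rw [ENNReal.toReal_sum h6]
  refine sum_congr rfl fun a ha => ?_
  have h7 := ENNReal.sum_ne_top.1 (h6 a ha)
  rw [ENNReal.toReal_sum h7]
  refine sum_congr rfl fun b _ => ?_
  have h8 : ∀ p : ℤ × ℤ, (if IsV p then KF f n R m l (pos a) (bpos p b) else 0) ≠ ⊤ := by
    intro p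
    unfold KF
    split_ifs <;> simp
  rw [ENNReal.tsum_toReal_eq h8]
  refine tsum_congr fun p => ?_
  by_cases hN : Nears a b p R
  · rw [if_pos hN, if_pos hN.1]
    unfold KF
    rw [if_pos ⟨hN.2.1, hN.2.2⟩, ENNReal.toReal_ofReal (h0 _), gcurve_cv]
  · rw [if_neg hN]
    by_cases hV : IsV p
    · rw [if_pos hV]
      unfold KF
      rw [if_neg fun h => hN ⟨hV, h.1, h.2⟩]
      rfl
    · rw [if_neg hV]
      rfl

/-- the weight of one pair of lengths -/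
noncomputable def th (n k : ℕ) : ℝ := 1 / (4 * (ww k * ww (n - k)))

lemma th_pos (n k : ℕ) : 0 < th n k := by
  have h1 := ww_pos k
  have h2 := ww_pos (n - k)
  unfold th
  positivity

/-- **the public sum by the lengths** -/
theorem psum_eq {f : C(unitInterval, ℂ) → ℝ} (h0 : ∀ γ, 0 ≤ f γ) (h1 : ∀ γ, f γ ≤ 1) {n k : ℕ} (R : ℝ) (hk : 0 < k)
    (hkn : k < n) {d : ℝ} (hd : 0 ≤ d) : psum n k d R f = ∑ m ∈ win d k, ∑ l ∈ win d (n - k),
      xc ^ (m + l) * (∑ r : Fin 3, (YY (fun T => f (wcv n r T)) (SR R) m l).toReal) / (4 * (ww m * ww l)) := by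
  have hx := xc_pos
  unfold psum
  refine sum_congr rfl fun m hm => sum_congr rfl fun l hl => ?_
  have m1 := ((mem_win hd).1 hm).1
  have l1 := ((mem_win hd).1 hl).1
  rw [inner_real h0 h1 n R hkn.le hd (by omega) (by omega) hm hl]
  have s1 : (0 : ℝ) < (saw m).card := NTSF.saw_card_pos m
  have s2 : (0 : ℝ) < (saw l).card := NTSF.saw_card_pos l
  unfold ww
  rw [NTSF.fug_eq, pow_add]
  have p1 : (xc : ℝ) ^ m ≠ 0 := (pow_pos hx m).ne'
  have p2 : (xc : ℝ) ^ l ≠ 0 := (pow_pos hx l).ne'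
  field_simp

/-- the weights change slowly -/
lemma ww_slow {e : ℝ} (he : 0 < e) : ∃ δ : ℝ, 0 < δ ∧ ∀ k m : ℕ, 1 / δ ≤ k → k ≤ m → (m : ℝ) ≤ (1 + δ) * k →
    |ww m / ww k - 1| ≤ e := by
  obtain ⟨δ, hδ, h⟩ := NTSF.Mg.slow_count e he
  refine ⟨δ, hδ, fun k m hk hkm hm => ?_⟩
  obtain ⟨h', rfl⟩ := Nat.exists_eq_add_of_le hkm
  have h2 := h k h' hk (by
    push_cast at hm
    linarith)
  have hf : fug = (Real.sqrt (2 + Real.sqrt 2))⁻¹ := rfl
  have hmu : 0 < Real.sqrt (2 + Real.sqrt 2) := Real.sqrt_pos.2 (by positivity)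
  have s1 : (0 : ℝ) < (saw k).card := NTSF.saw_card_pos k
  have e1 : ww (k + h') / ww k = ((saw (k + h')).card : ℝ) / (Real.sqrt (2 + Real.sqrt 2) ^ h' * (saw k).card) := by
    unfold ww
    rw [hf, pow_add, inv_pow, inv_pow]
    have p1 : (Real.sqrt (2 + Real.sqrt 2) : ℝ) ^ k ≠ 0 := (pow_pos hmu k).ne'
    have p2 : (Real.sqrt (2 + Real.sqrt 2) : ℝ) ^ h' ≠ 0 := (pow_pos hmu h').ne'
    field_simp
  rw [e1]
  exact h2

/-- **the public sum and the mass of the pairs of words** -/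
theorem psum_gpF {ε : ℝ} (hε : 0 < ε) : ∃ d0 : ℝ, 0 < d0 ∧ ∃ k0 : ℕ, ∀ d : ℝ, 0 ≤ d → d ≤ d0 → ∀ n k : ℕ, k0 ≤ k →
    k + k0 ≤ n → ∀ (R : ℝ) (f : C(unitInterval, ℂ) → ℝ), (∀ γ, 0 ≤ f γ) → (∀ γ, f γ ≤ 1) →
      |psum n k d R f - th n k * ∑ r : Fin 3, (gpF (fun T => f (wcv n r T)) (PR n k d (SR R))).toReal| ≤
        ε * (th n k * ∑ r : Fin 3, (gpF (fun T => f (wcv n r T)) (PR n k d (SR R))).toReal) := by
  obtain ⟨e, he⟩ : ∃ e : ℝ, e = min (ε / 8) (1 / 8) := ⟨_, rfl⟩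
  have he0 : 0 < e := by
    rw [he]
    exact lt_min (by positivity) (by norm_num)
  have he1 : e ≤ ε / 8 := he ▸ min_le_left _ _
  have he2 : e ≤ 1 / 8 := he ▸ min_le_right _ _
  obtain ⟨δ, hδ, hs⟩ := ww_slow he0
  obtain ⟨k1, hk1⟩ := exists_nat_ge (1 / δ)
  refine ⟨δ, hδ, k1 + 1, fun d hd hdδ n k hk hkn R f h0 h1 => ?_⟩
  have hx := xc_pos
  have hk' : 0 < k := by omega
  have hkn' : k < n := by omega
  rw [psum_eq h0 h1 R hk' hkn' hd]
  have e1 : ∀ r : Fin 3, (gpF (fun T => f (wcv n r T)) (PR n k d (SR R))).toReal =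
      ∑ m ∈ win d k, ∑ l ∈ win d (n - k), xc ^ (m + l) * (YY (fun T => f (wcv n r T)) (SR R) m l).toReal := fun r =>
    gpF_real (fun T => h1 _) hkn'.le hd (SR_fin R)
  have e2 : th n k * ∑ r : Fin 3, (gpF (fun T => f (wcv n r T)) (PR n k d (SR R))).toReal =
      ∑ m ∈ win d k, ∑ l ∈ win d (n - k), xc ^ (m + l) *
        (∑ r : Fin 3, (YY (fun T => f (wcv n r T)) (SR R) m l).toReal) / (4 * (ww k * ww (n - k))) := by
    rw [sum_congr rfl fun r _ => e1 r, sum_comm, mul_sum]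
    refine sum_congr rfl fun m _ => ?_
    rw [sum_comm, mul_sum]
    refine sum_congr rfl fun l _ => ?_
    rw [← mul_sum]
    unfold th
    ring
  rw [e2, ← sum_sub_distrib, mul_sum]
  refine (abs_sum_le_sum_abs _ _).trans (sum_le_sum fun m hm => ?_)
  rw [← sum_sub_distrib, mul_sum]
  refine (abs_sum_le_sum_abs _ _).trans (sum_le_sum fun l hl => ?_)
  obtain ⟨m1, m2⟩ := (mem_win hd).1 hm
  obtain ⟨l1, l2⟩ := (mem_win hd).1 hl
  obtain ⟨Y, hY⟩ : ∃ Y : ℝ, Y = ∑ r : Fin 3, (YY (fun T => f (wcv n r T)) (SR R) m l).toReal := ⟨_, rfl⟩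
  have hY0 : 0 ≤ Y := by
    rw [hY]
    exact sum_nonneg fun r _ => ENNReal.toReal_nonneg
  rw [← hY]
  have w1 := ww_pos k
  have w2 := ww_pos (n - k)
  have w3 := ww_pos m
  have w4 := ww_pos l
  have q1 := hs k m (hk1.trans (by exact_mod_cast (by omega : k1 ≤ k))) m1
    (m2.trans (mul_le_mul_of_nonneg_right (by linarith) (Nat.cast_nonneg k)))
  have q2 := hs (n - k) l (hk1.trans (by exact_mod_cast (by omega : k1 ≤ n - k))) l1
    (l2.trans (mul_le_mul_of_nonneg_right (by linarith) (Nat.cast_nonneg (n - k))))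
  obtain ⟨a, ha⟩ : ∃ a : ℝ, a = ww m / ww k := ⟨_, rfl⟩
  obtain ⟨b, hb⟩ : ∃ b : ℝ, b = ww l / ww (n - k) := ⟨_, rfl⟩
  rw [← ha] at q1
  rw [← hb] at q2
  obtain ⟨q3, q4⟩ := abs_le.1 q1
  obtain ⟨q5, q6⟩ := abs_le.1 q2
  have ha0 : 0 < a := by linarith
  have hb0 : 0 < b := by linarith
  have hm' : ww m = a * ww k := by
    rw [ha]
    field_simp
  have hl' : ww l = b * ww (n - k) := by
    rw [hb]
    field_simp
  obtain ⟨Z, hZ⟩ : ∃ Z : ℝ, Z = xc ^ (m + l) * Y / (4 * (ww k * ww (n - k))) := ⟨_, rfl⟩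
  have hZ0 : 0 ≤ Z := by
    rw [hZ]
    positivity
  have e3 : xc ^ (m + l) * Y / (4 * (ww m * ww l)) = Z / (a * b) := by
    rw [hZ, hm', hl']
    field_simp
  rw [e3, ← hZ]
  have hab : 0 < a * b := mul_pos ha0 hb0
  have e4 : Z / (a * b) - Z = Z * ((1 - a * b) / (a * b)) := by
    field_simp
  rw [e4, abs_mul, abs_of_nonneg hZ0, mul_comm ε Z]
  refine mul_le_mul_of_nonneg_left ?_ hZ0
  rw [abs_div, abs_of_pos hab, div_le_iff₀ hab, abs_le]
  have hab1 : (1 - e) * (1 - e) ≤ a * b := mul_le_mul (by linarith) (by linarith) (by linarith) ha0.le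
  have hab2 : a * b ≤ (1 + e) * (1 + e) := mul_le_mul (by linarith) (by linarith) hb0.le (by linarith)
  have hab3 : 49 / 64 ≤ a * b := by nlinarith
  have hab4 : 6 * e ≤ ε * (a * b) := by
    have h5 : ε * (49 / 64) ≤ ε * (a * b) := mul_le_mul_of_nonneg_left hab3 hε.le
    linarith
  constructor
  · nlinarith
  · nlinarith

end W

end Pool.Agent.RMP
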