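import Pool.Agent.RMP.Base

/-!
# RMP, row P0 (helper63): the product bound, the first word in its ball

* **`gp_P3_prod`** : as `P3_prod`, with the ball condition of the first word kept.
-/

set_option autoImplicit false

namespace HexObs

namespace RMP

open Finset TS SDN HexObs.SIM NTA TIP ARM

open scoped ENNReal

/-- **the second word is free** -/
theorem gp_P3_prod : ∃ C : ℝ, 0 < C ∧ ∀ (R j : ℕ) (S : Set (List Bool)),
    gp {T | T ∈ P3 R j ∧ T.1 ∈ S} ≤ ENNReal.ofReal (C * (4 ^ j * (max (R : ℝ) (2 ^ j)) ^ (43 / 24 : ℝ))) *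
      gf {L | L ∈ S ∧ L ∈ SA ∧ ∀ s, s ≤ L.length → dz L s ≤ R + 2 ^ j} := by
  obtain ⟨C, hC, hB⟩ := P3_prod
  refine ⟨C, hC, fun R j S => ?_⟩
  refine (gp_mono fun T hT => ?_).trans (hB R j {L | L ∈ S ∧ L ∈ SA ∧ ∀ s, s ≤ L.length → dz L s ≤ R + 2 ^ j})
  exact ⟨hT.1, hT.2, hT.1.1, hT.1.2.2.2.2.2.1⟩

end RMP

end HexObs
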