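import Pool.Agent.RMP.RetJ
import Pool.Agent.RMP.ProdB
import Pool.Agent.ARM.Rv

/-!
# RMP, row EaP (helper63): early strands

The largest distance from the tip comes after the visit of the small ball, so the reversed walk is a word of its own box which
comes back near its start (`retJ`, the level of the box of the whole word).

* `gf_rv_all` : the mass of the reversed walks; `rv_dz` : distances from the tip;
* `esa_one` : the words with an early strand, one arm; **`eaP : EaP`**.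
-/

set_option autoImplicit false

namespace HexObs

namespace RMP

open Finset TS SDN HexObs.SIM NTA TIP ARM

open scoped ENNReal

/-- **the mass of the reversed walks** -/
theorem gf_rv_all (X : Set (List Bool)) : gf {L | 1 ≤ L.length ∧ rv L ∈ X} ≤ 2 * gf X := by
  have hsub : {L : List Bool | 1 ≤ L.length ∧ rv L ∈ X} ⊆
      {L | (1 ≤ L.length ∧ rv L ∈ X) ∧ (rev L).headD true = true} ∪
      {L | (1 ≤ L.length ∧ rv L ∈ X) ∧ (rev L).headD true = false} := by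
    intro L hL
    cases hb : (rev L).headD true with
    | true => exact Or.inl ⟨hL, hb⟩
    | false => exact Or.inr ⟨hL, hb⟩
  have hb : ∀ b : Bool, gf {L : List Bool | (1 ≤ L.length ∧ rv L ∈ X) ∧ (rev L).headD true = b} ≤ gf X := by
    intro b
    have := gf_le_of_inj (P := {L : List Bool | (1 ≤ L.length ∧ rv L ∈ X) ∧ (rev L).headD true = b})
      (Q := X) rv (fun L hL => hL.1.2)
      (fun L hL L' hL' h => rv_inj hL.1.1 hL'.1.1 h (hL.2.trans hL'.2.symm)) 1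
      (fun L hL => by rw [one_mul]; exact wE_rv hL.1.1)
    rwa [one_mul] at this
  calc gf {L : List Bool | 1 ≤ L.length ∧ rv L ∈ X} ≤ _ := gf_mono hsub
    _ ≤ _ := gf_union_le _ _
    _ ≤ gf X + gf X := add_le_add (hb true) (hb false)
    _ = _ := (two_mul _).symm

/-- the distances from the tip in the reversed walk -/
lemma rv_dz (L : List Bool) {s : ℕ} (h : s ≤ L.length) : TIW.hn (vx oo up (rv L) (L.length - s)) = dz L s := by
  obtain ⟨c, hc, hf⟩ := rv_vx L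
  have h1 := hf (L.length - s) (by omega)
  rw [show L.length - (L.length - s) = s by omega] at h1
  unfold dz
  rw [h1, add_sub_cancel_left, hn_mulE' hc]

/-- the reversed walk of a word in a ball around its tip is in the box -/
lemma rv_WL {K : ℕ} {L : List Bool} (hL : L ∈ SA) (h : ∀ s, s ≤ L.length → dz L s ≤ 2 ^ K) : rv L ∈ WL K := by
  refine ⟨rv_SA hL, fun k hk dir => ?_⟩
  rw [rv_length] at hk
  have h1 := rv_dz L (s := L.length - k) (by omega)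
  rw [show L.length - (L.length - k) = k by omega] at h1
  have h2 := h (L.length - k) (by omega)
  have h0 : (0 : ℤ) < 2 ^ K := by positivity
  exact NPR.row_le_hn (D := 2 ^ K) (by rw [h1]; exact h2) (by linarith) dir

/-- **an early strand, in the reversed walk** -/
lemma esa_rt {l i K : ℕ} {L : List Bool} (hL : L ∈ SA) (hK : ∀ s, s ≤ L.length → dz L s ≤ 2 ^ K) (hli : l ≤ i)
    (h : L ∈ ESa l i) : ∃ i', l ≤ i' ∧ i' ≤ K ∧ 1 ≤ L.length ∧ rv L ∈ Rt l i' 0 := by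
  classical
  obtain ⟨t, a, b, hta, hab, hb, -, ha, hbd, hst⟩ := h
  have hex : ∃ i', ∀ s, s ≤ L.length → dz L s ≤ 2 ^ i' := ⟨K, hK⟩
  obtain ⟨i', hi'⟩ : ∃ i', i' = Nat.find hex := ⟨_, rfl⟩
  have h1 : ∀ s, s ≤ L.length → dz L s ≤ 2 ^ i' := by
    rw [hi']
    exact Nat.find_spec hex
  have h2 : i' ≤ K := by
    rw [hi']
    exact Nat.find_min' hex hK
  have h3 : i + 1 < i' := by
    by_contra hc
    have h4 : (2 : ℤ) ^ i' ≤ 2 ^ (i + 1) := pow_le_pow_right₀ (by norm_num) (by omega)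
    have := h1 b hb
    linarith
  obtain ⟨p, hp1, hp2⟩ : ∃ p, p ≤ L.length ∧ 2 ^ (i' - 1) < dz L p := by
    by_contra hc
    push Not at hc
    exact Nat.find_min hex (m := i' - 1) (by omega) hc
  have h4 : (2 : ℤ) ^ i ≤ 2 ^ (i' - 1) := pow_le_pow_right₀ (by norm_num) (by omega)
  have h5 : a < p := by
    by_contra hc
    have := hst p (by omega)
    linarith
  refine ⟨i', by omega, h2, by omega, rv_WL hL h1, L.length - p, L.length - a, by omega, ?_, ?_, ?_⟩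
  · rw [rv_length]
    omega
  · show 2 ^ i' < 4 * TIW.hn _
    rw [rv_dz L hp1]
    have e : (2 : ℤ) ^ i' = 2 * 2 ^ (i' - 1) := by
      rw [← pow_succ']
      congr 1
      omega
    have : (0 : ℤ) < 2 ^ (i' - 1) := by positivity
    rw [e]
    linarith
  · show TIW.hn _ ≤ 2 ^ (l + 1)
    rw [rv_dz L (by omega)]
    exact ha

/-- **the words with an early strand, one arm** -/
theorem esa_one {θ : ℝ} (hθ : 0 < θ) : ∃ (C : ℝ) (b0 : ℕ), 0 < C ∧ ∀ l K : ℕ, b0 ≤ l → l ≤ K →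
    gf {L | L ∈ SA ∧ (∀ s, s ≤ L.length → dz L s ≤ 2 ^ K) ∧ ∃ i, l ≤ i ∧ L ∈ ESa l i} ≤
      ENNReal.ofReal (C * (2 : ℝ) ^ ((θ - 2 / 3) * ((K : ℝ) - l) + 43 / 24 * (K : ℝ))) := by
  obtain ⟨A, b0, hA, hR⟩ := retJ θ hθ
  obtain ⟨C, hC, hF⟩ := NPR.Fast.FK_up
  refine ⟨4 * A * C, b0, by positivity, fun l K hl hlK => ?_⟩
  obtain ⟨x, hx⟩ : ∃ x : ℝ, x = 2 * A * C * (2 : ℝ) ^ ((θ - 2 / 3) * ((K : ℝ) - l) + 43 / 24 * (K : ℝ)) := ⟨_, rfl⟩
  have hx0 : 0 ≤ x := by rw [hx]; positivity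
  have hcov : {L : List Bool | L ∈ SA ∧ (∀ s, s ≤ L.length → dz L s ≤ 2 ^ K) ∧ ∃ i, l ≤ i ∧ L ∈ ESa l i} ⊆
      ⋃ r : ℕ, {L : List Bool | 1 ≤ L.length ∧ rv L ∈ {w | l + r ≤ K ∧ w ∈ Rt l (K - r) 0}} := by
    rintro L ⟨h1, h2, i, h3, h4⟩
    obtain ⟨i', g1, g2, g3, g4⟩ := esa_rt h1 h2 h3 h4
    refine Set.mem_iUnion.2 ⟨K - i', g3, by omega, ?_⟩
    rw [show K - (K - i') = i' by omega]
    exact g4
  have hr : ∀ r : ℕ, gf {L : List Bool | 1 ≤ L.length ∧ rv L ∈ {w | l + r ≤ K ∧ w ∈ Rt l (K - r) 0}} ≤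
      ENNReal.ofReal (x * (1 / 2) ^ r) := by
    intro r
    refine (gf_rv_all _).trans ?_
    by_cases h : l + r ≤ K
    · have h1 : gf {w | l + r ≤ K ∧ w ∈ Rt l (K - r) 0} ≤ gf (Rt l (K - r) 0) := gf_mono fun w hw => hw.2
      have h2 := (h1.trans (hR l (K - r) 0 hl (by omega))).trans (mul_le_mul_right (hF (K - r)) _)
      rw [← ENNReal.ofReal_mul (by positivity)] at h2
      refine (mul_le_mul_right h2 _).trans ?_
      rw [show (2 : ℝ≥0∞) = ENNReal.ofReal 2 by norm_num, ← ENNReal.ofReal_mul (by norm_num)]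
      refine ENNReal.ofReal_le_ofReal ?_
      have e1 : ((K - r : ℕ) : ℝ) = (K : ℝ) - r := Nat.cast_sub (by omega)
      have h3 : (2 : ℝ) ^ ((θ - 2 / 3) * (((K - r : ℕ) : ℝ) - l)) * (2 : ℝ) ^ (43 / 24 * ((K - r : ℕ) : ℝ)) ≤
          (2 : ℝ) ^ ((θ - 2 / 3) * ((K : ℝ) - l) + 43 / 24 * (K : ℝ)) * (1 / 2) ^ r := by
        have e2 : ((1 / 2 : ℝ)) ^ r = (2 : ℝ) ^ (-(r : ℝ)) := by
          rw [Real.rpow_neg (by norm_num), Real.rpow_natCast, one_div, inv_pow]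
        rw [e1, e2, ← Real.rpow_add (by norm_num), ← Real.rpow_add (by norm_num)]
        refine Real.rpow_le_rpow_of_exponent_le (by norm_num) ?_
        have : (0 : ℝ) ≤ r := Nat.cast_nonneg r
        nlinarith
      rw [zero_add, pow_one]
      calc 2 * (A * (2 : ℝ) ^ ((θ - 2 / 3) * (((K - r : ℕ) : ℝ) - l)) * (C * 2 ^ (43 / 24 * ((K - r : ℕ) : ℝ))))
          = 2 * A * C * ((2 : ℝ) ^ ((θ - 2 / 3) * (((K - r : ℕ) : ℝ) - l)) * (2 : ℝ) ^ (43 / 24 * ((K - r : ℕ) : ℝ))) := by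
            ring
        _ ≤ 2 * A * C * ((2 : ℝ) ^ ((θ - 2 / 3) * ((K : ℝ) - l) + 43 / 24 * (K : ℝ)) * (1 / 2) ^ r) := by
            have : 0 ≤ 2 * A * C := by positivity
            gcongr
        _ = x * (1 / 2) ^ r := by rw [hx]; ring
    · have h1 : {w : List Bool | l + r ≤ K ∧ w ∈ Rt l (K - r) 0} = ∅ := by
        ext w
        simp [h]
      rw [h1]
      have h2 : gf (∅ : Set (List Bool)) = 0 := by
        unfold gf
        exact tsum_empty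
      rw [h2, mul_zero]
      exact zero_le
  refine (gf_mono hcov).trans ((Crw.gf_iUnion_le _).trans ((ENNReal.tsum_le_tsum hr).trans ?_))
  have h1 : HasSum (fun J : ℕ => x * (1 / 2 : ℝ) ^ J) (x * 2) := (hasSum_geometric_two).mul_left x
  rw [← ENNReal.ofReal_tsum_of_nonneg (fun J => by positivity) h1.summable, h1.tsum_eq]
  refine ENNReal.ofReal_le_ofReal (le_of_eq ?_)
  rw [hx]
  ring

/-- **row P3'** : early strands -/
theorem eaP : EaP := by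
  intro c ε hε
  obtain ⟨C1, hC1, hP⟩ := gp_P3_prod
  obtain ⟨C2, b1, hC2, hE⟩ := esa_one (θ := 1 / 12) (by norm_num)
  obtain ⟨B, hB⟩ : ∃ B : ℝ, B = C1 * C2 * (2 : ℝ) ^ ((7 / 12 : ℝ) * (c : ℝ)) * 4 ^ (29 / 24 : ℝ) := ⟨_, rfl⟩
  have hB0 : 0 < B := by rw [hB]; positivity
  obtain ⟨b2, hb2⟩ : ∃ b2 : ℕ, B / ε < (2 : ℝ) ^ b2 := pow_unbounded_of_one_lt _ (by norm_num)
  refine ⟨8 * b2 + b1 + c + 1, fun R j hj hR => ?_⟩
  have hjR : 2 ^ j ≤ R := le_trans (Nat.pow_le_pow_right (by norm_num) (by omega)) hR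
  have hR1 : 1 ≤ R := le_trans (Nat.one_le_two_pow) hjR
  have hR0 : (0 : ℝ) < R := by exact_mod_cast hR1
  obtain ⟨K, hK⟩ : ∃ K, K = Nat.clog 2 (R + 2 ^ j) := ⟨_, rfl⟩
  have hK1 : R + 2 ^ j ≤ 2 ^ K := by
    rw [hK]
    exact Nat.le_pow_clog (by norm_num) _
  have hK2 : 2 ^ K ≤ 4 * R := by
    have h4 : 1 < R + 2 ^ j := by
      have : 1 ≤ 2 ^ j := Nat.one_le_two_pow
      omega
    have h3 := Nat.pow_pred_clog_lt_self (b := 2) (by norm_num) h4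
    rw [← hK] at h3
    have hK0 : 0 < K := by
      rcases Nat.eq_zero_or_pos K with h | h
      · rw [h, pow_zero] at hK1
        omega
      · exact h
    have h5 : 2 ^ K = 2 * 2 ^ (K - 1) := by
      rw [← pow_succ']
      congr 1
      omega
    have h6 : 2 ^ (K - 1) < R + 2 ^ j := h3
    omega
  have hjK : j + c ≤ K := by
    have h1 : 2 ^ (j + c) ≤ 2 ^ K := by
      refine le_trans (Nat.pow_le_pow_right (by norm_num) ?_) (hR.trans (le_trans (Nat.le_add_right _ _) hK1))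
      omega
    exact (Nat.pow_le_pow_iff_right (by norm_num)).1 h1
  have h1 := hP R j {L | ∃ i, j + c ≤ i ∧ L ∈ ESa (j + c) i}
  have h2 : gf {L | L ∈ {L : List Bool | ∃ i, j + c ≤ i ∧ L ∈ ESa (j + c) i} ∧ L ∈ SA ∧
      ∀ s, s ≤ L.length → dz L s ≤ R + 2 ^ j} ≤
      ENNReal.ofReal (C2 * (2 : ℝ) ^ ((1 / 12 - 2 / 3) * ((K : ℝ) - ((j + c : ℕ) : ℝ)) + 43 / 24 * (K : ℝ))) := by
    refine (gf_mono fun L hL => ?_).trans (hE (j + c) K (by omega) hjK)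
    refine ⟨hL.2.1, fun s hs => (hL.2.2 s hs).trans ?_, hL.1⟩
    exact_mod_cast hK1
  refine (gp_mono fun T hT => hT).trans (h1.trans ((mul_le_mul_right h2 _).trans ?_))
  rw [← ENNReal.ofReal_mul (by positivity)]
  refine ENNReal.ofReal_le_ofReal ?_
  rw [max_eq_left (by exact_mod_cast hjR), pr3_eq hjR]
  -- the powers
  obtain ⟨y, hy⟩ : ∃ y : ℝ, y = (2 : ℝ) ^ j := ⟨_, rfl⟩
  have hy0 : 0 < y := by rw [hy]; positivity
  have e0 : (2 : ℝ) ^ ((59 / 24 : ℝ) * (j : ℝ)) = y ^ (59 / 24 : ℝ) := by rw [hy, two_pow_rpow]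
  have e1 : (4 : ℝ) ^ j = y ^ (2 : ℝ) := by
    rw [hy, two_pow_rpow, four_pow_rpow]
  have e2 : (2 : ℝ) ^ ((1 / 12 - 2 / 3) * ((K : ℝ) - ((j + c : ℕ) : ℝ)) + 43 / 24 * (K : ℝ)) ≤
      (4 * R) ^ (29 / 24 : ℝ) * (y ^ (7 / 12 : ℝ) * (2 : ℝ) ^ ((7 / 12 : ℝ) * (c : ℝ))) := by
    have e3 : (2 : ℝ) ^ ((1 / 12 - 2 / 3) * ((K : ℝ) - ((j + c : ℕ) : ℝ)) + 43 / 24 * (K : ℝ)) =
        ((2 : ℝ) ^ K) ^ (29 / 24 : ℝ) * (y ^ (7 / 12 : ℝ) * (2 : ℝ) ^ ((7 / 12 : ℝ) * (c : ℝ))) := by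
      rw [hy, two_pow_rpow, two_pow_rpow, ← Real.rpow_add (by norm_num), ← Real.rpow_add (by norm_num)]
      congr 1
      push_cast
      ring
    rw [e3]
    refine mul_le_mul_of_nonneg_right (Real.rpow_le_rpow (by positivity) ?_ (by norm_num)) (by positivity)
    exact_mod_cast hK2
  have e4 : y ^ (1 / 8 : ℝ) * 2 ^ b2 ≤ (R : ℝ) ^ (1 / 8 : ℝ) := by
    have h3 : (2 : ℝ) ^ (8 * b2) * y ≤ R := by
      have h4 : 2 ^ (8 * b2 + j) ≤ R := le_trans (Nat.pow_le_pow_right (by norm_num) (by omega)) hR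
      have h5 : ((2 : ℝ) ^ (8 * b2 + j)) ≤ R := by exact_mod_cast h4
      rwa [pow_add, ← hy] at h5
    have h6 : ((2 : ℝ) ^ (8 * b2) * y) ^ (1 / 8 : ℝ) = y ^ (1 / 8 : ℝ) * 2 ^ b2 := by
      rw [Real.mul_rpow (by positivity) hy0.le, two_pow_rpow, mul_comm]
      congr 1
      rw [← Real.rpow_natCast]
      congr 1
      push_cast
      ring
    rw [← h6]
    exact Real.rpow_le_rpow (by positivity) h3 (by norm_num)
  have e5 : B ≤ ε * 2 ^ b2 := by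
    rw [div_lt_iff₀ hε] at hb2
    linarith
  have e6 : (4 * (R : ℝ)) ^ (29 / 24 : ℝ) = 4 ^ (29 / 24 : ℝ) * (R : ℝ) ^ (29 / 24 : ℝ) :=
    Real.mul_rpow (by norm_num) hR0.le
  have e7 : y ^ (2 : ℝ) * y ^ (7 / 12 : ℝ) = y ^ (59 / 24 : ℝ) * y ^ (1 / 8 : ℝ) := by
    rw [← Real.rpow_add hy0, ← Real.rpow_add hy0]
    norm_num
  have e8 : (R : ℝ) ^ (43 / 24 : ℝ) * (R : ℝ) ^ (29 / 24 : ℝ) * (R : ℝ) ^ (1 / 8 : ℝ) = (R : ℝ) ^ (25 / 8 : ℝ) := by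
    rw [← Real.rpow_add hR0, ← Real.rpow_add hR0]
    norm_num
  have hy8 : 0 < y ^ (59 / 24 : ℝ) := by positivity
  have hR8 : 0 < (R : ℝ) ^ (43 / 24 : ℝ) * (R : ℝ) ^ (29 / 24 : ℝ) := by positivity
  rw [e0, e1]
  calc C1 * (y ^ (2 : ℝ) * (R : ℝ) ^ (43 / 24 : ℝ)) *
        (C2 * (2 : ℝ) ^ ((1 / 12 - 2 / 3) * ((K : ℝ) - ((j + c : ℕ) : ℝ)) + 43 / 24 * (K : ℝ)))
      ≤ C1 * (y ^ (2 : ℝ) * (R : ℝ) ^ (43 / 24 : ℝ)) *
        (C2 * ((4 * R) ^ (29 / 24 : ℝ) * (y ^ (7 / 12 : ℝ) * (2 : ℝ) ^ ((7 / 12 : ℝ) * (c : ℝ))))) := by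
        gcongr
    _ = B * (y ^ (2 : ℝ) * y ^ (7 / 12 : ℝ)) * ((R : ℝ) ^ (43 / 24 : ℝ) * (R : ℝ) ^ (29 / 24 : ℝ)) := by
        rw [e6, hB]
        ring
    _ = y ^ (59 / 24 : ℝ) * ((R : ℝ) ^ (43 / 24 : ℝ) * (R : ℝ) ^ (29 / 24 : ℝ)) * (B * y ^ (1 / 8 : ℝ)) := by
        rw [e7]
        ring
    _ ≤ y ^ (59 / 24 : ℝ) * ((R : ℝ) ^ (43 / 24 : ℝ) * (R : ℝ) ^ (29 / 24 : ℝ)) * ((ε * 2 ^ b2) * y ^ (1 / 8 : ℝ)) := by
        gcongr
    _ = y ^ (59 / 24 : ℝ) * ((R : ℝ) ^ (43 / 24 : ℝ) * (R : ℝ) ^ (29 / 24 : ℝ)) * (ε * (y ^ (1 / 8 : ℝ) * 2 ^ b2)) := by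
        ring
    _ ≤ y ^ (59 / 24 : ℝ) * ((R : ℝ) ^ (43 / 24 : ℝ) * (R : ℝ) ^ (29 / 24 : ℝ)) * (ε * (R : ℝ) ^ (1 / 8 : ℝ)) := by
        gcongr
    _ = ε * (y ^ (59 / 24 : ℝ) * ((R : ℝ) ^ (43 / 24 : ℝ) * (R : ℝ) ^ (29 / 24 : ℝ) * (R : ℝ) ^ (1 / 8 : ℝ))) := by
        ring
    _ = ε * (y ^ (59 / 24 : ℝ) * (R : ℝ) ^ (25 / 8 : ℝ)) := by rw [e8]

end RMP

end HexObs
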