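import Pool.Agent.RMP.TipPA
import Pool.Agent.RMP.Num

/-!
RMP, row P1 (helper73): **`tipP : TipP`** (one good tip of a pair) and **`tipP2 : TipP2`** (two good tips).
-/

set_option autoImplicit false

namespace HexObs

namespace RMP

open Finset TS SDN NTW NTA HexObs.SIM TIP ARM

open scoped ENNReal

/-! ### the spectator -/

/-- the steps of a placed word -/
lemma pv_AdP {g : Pt × Pt} (hg : Fr g) (B : List Bool) (k : ℕ) : AdP (pv g B k) (pv g B (k + 1)) := by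
  have h0 : AdP (vx oo up B k) (vx oo up B (k + 1)) := pth_vx B (k + 1) k (by omega)
  have hdd : ∀ {u e : Pt}, u ∈ dirs → e ∈ dirs → mulE u e ∈ dirs := by
    intro u e hu he
    have : ∀ u ∈ dirs, ∀ e ∈ dirs, mulE u e ∈ dirs := by decide
    exact this _ hu _ he
  have key : ∀ x y : Pt, cl x = 0 → y - x ∈ dirs → cl (y - x) = 2 →
      AdP (g.1 + mulE g.2 x) (g.1 + mulE g.2 y) := by
    intro x y hx hd hc
    have e1 : g.1 + mulE g.2 y - (g.1 + mulE g.2 x) = mulE g.2 (y - x) := by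
      rw [mulE_sub']
      abel
    have e2 : g.1 + mulE g.2 x - (g.1 + mulE g.2 y) = mulE g.2 (-(y - x)) := by
      rw [mulE_neg, mulE_sub']
      abel
    have e3 : cl (-(y - x)) = - cl (y - x) := by
      have h2 := cl_add (y - x) (-(y - x))
      rw [add_neg_cancel] at h2
      have h0 : cl (0 : Pt) = 0 := by decide
      rw [h0] at h2
      exact (neg_eq_of_add_eq_zero_right h2.symm).symm
    rcases hg.2 with ⟨h1, h2⟩ | ⟨h1, h2⟩
    · left
      refine ⟨?_, ?_, ?_⟩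
      · rw [cl_add, cl_mulE, h1, hx, mul_zero, add_zero]
      · rw [e1]
        exact hdd hg.1 hd
      · rw [e1, cl_mulE, h2, hc, one_mul]
    · right
      have hy : cl y = 2 := by
        have : cl y = cl x + cl (y - x) := by rw [cl_sub]; ring
        rw [this, hx, hc, zero_add]
      refine ⟨?_, ?_, ?_⟩
      · rw [cl_add, cl_mulE, h1, h2, hy]
        decide
      · rw [e2]
        exact hdd hg.1 (neg_mem_dirs hd)
      · rw [e2, cl_mulE, h2, e3, hc]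
        decide
  rcases h0 with ⟨h1, h2, h3⟩ | ⟨h1, h2, h3⟩
  · exact key _ _ h1 h2 h3
  · exact AdP_symm (key _ _ h1 h2 h3)

/-- a large word is a spectator -/
lemma obs_ob {g : Pt × Pt} (hg : Fr g) {B : List Bool} {D : ℤ} {s t : ℕ} (hs : s ≤ B.length) (ht : t ≤ B.length)
    (h : 2 * D < TIW.hn (vx oo up B s - vx oo up B t)) : Obs D (ob g B) := by
  -- a path to the vertex number s'
  have key : ∀ v s' : ℕ, v ≤ B.length → s' ≤ B.length → D < TIW.hn (vx oo up B s' - vx oo up B v) →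
      ∃ (γ : ℕ → Pt) (n : ℕ), Pth γ n ∧ γ 0 = pv g B v ∧ (∀ k, k ≤ n → γ k ∈ ob g B) ∧ D < TIW.hn (γ n - pv g B v) := by
    intro v s' hv hs' hD
    rcases le_total v s' with h1 | h1
    · refine ⟨fun k => pv g B (v + k), s' - v, fun k _ => pv_AdP hg B (v + k), rfl, fun k hk => ⟨v + k, by omega, rfl⟩, ?_⟩
      show D < TIW.hn (pv g B (v + (s' - v)) - pv g B v)
      rw [show v + (s' - v) = s' by omega, hn_pv_self hg]
      exact hD
    · refine ⟨fun k => pv g B (v - k), v - s', fun k hk => ?_, rfl, fun k hk => ⟨v - k, by omega, rfl⟩, ?_⟩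
      · have h2 := pv_AdP hg B (v - (k + 1))
        rw [show v - (k + 1) + 1 = v - k by omega] at h2
        exact AdP_symm h2
      · show D < TIW.hn (pv g B (v - (v - s')) - pv g B v)
        rw [show v - (v - s') = s' by omega, hn_pv_self hg]
        exact hD
  rintro q ⟨v, hv, rfl⟩
  rcases lt_or_ge D (TIW.hn (vx oo up B s - vx oo up B v)) with h1 | h1
  · exact key v s hv hs h1
  · refine key v t hv ht ?_
    have h2 : TIW.hn (vx oo up B s - vx oo up B t) ≤ TIW.hn (vx oo up B s - vx oo up B v) +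
        TIW.hn (vx oo up B t - vx oo up B v) := by
      have e : vx oo up B s - vx oo up B t = (vx oo up B s - vx oo up B v) - (vx oo up B t - vx oo up B v) := by abel
      rw [e]
      exact TIW.hn_sub _ _
    omega

/-- a word with a good tip is large -/
lemma GT_big {b : ℕ} {η : ℝ} (hη : 0 < η) {B : List Bool} (h : B ∈ GT b η) :
    ∃ s t, s ≤ B.length ∧ t ≤ B.length ∧ 2 * (2 : ℤ) ^ b < TIW.hn (vx oo up B s - vx oo up B t) := by
  have h1 : η * Ub b ≤ ((cs b B).card : ℝ) := h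
  have h2 : 0 < η * Ub b := mul_pos hη (Ub_pos b)
  have h3 : 0 < (cs b B).card := by
    have : (0 : ℝ) < ((cs b B).card : ℝ) := lt_of_lt_of_le h2 h1
    exact_mod_cast this
  obtain ⟨j, hj⟩ := card_pos.1 h3
  obtain ⟨c1, -, -, A', V, hA, hV, hh⟩ := mem_cs.1 hj
  have hlen := congrArg List.length hA
  rw [List.length_take, List.length_append] at hlen
  have hB : B = (A' ++ V) ++ B.drop j := by rw [← hA, List.take_append_drop]
  have hjl : min j B.length = j := min_eq_left (by omega)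
  rw [hjl] at hlen
  refine ⟨A'.length + V.length, A'.length, by omega, by omega, ?_⟩
  have e1 : vx oo up B (A'.length + V.length) = vx oo up (A' ++ V) (A'.length + V.length) := by
    rw [hB, vx_append (by rw [List.length_append]; omega)]
  have e2 : vx oo up B A'.length = vx oo up A' A'.length := by
    rw [hB, List.append_assoc, vx_append (by omega)]
  rw [e1, e2, vx_general, add_sub_cancel_left]
  have h4 : TIW.hn (mulE (rotTo up (dx up A' A'.length)) (vx oo up V V.length)) = TIW.hn (vx oo up V V.length) :=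
    TIW.hn_mulE (nrm_rotTo upd (dx_mem upd A' A'.length)) _
  rw [h4]
  have h5 : ip (vx oo up V V.length) up = 3 * (hgt V : ℤ) := levE_BU hV
  have h6 : ip (vx oo up V V.length) up ≤ TIW.hn (vx oo up V V.length) := by
    unfold TIW.hn
    exact (le_abs_self _).trans (le_max_left _ _)
  have h7 : (2 : ℤ) ^ b ≤ (hgt V : ℤ) := by exact_mod_cast hh
  have h8 : (0 : ℤ) < 2 ^ b := by positivity
  rw [h5] at h6
  linarith

/-! ### the sum over the second words -/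

/-- **one good tip, large second words of a class X** -/
theorem tipCore {η : ℝ} (hη : 0 < η) : ∃ C : ℝ, 0 < C ∧ ∀ (R i b : ℕ) (X : Set (List Bool)) (K : ℝ≥0∞), b ≤ i →
    (∀ s, gp {T | T ∈ P3 R (i + s) ∧ T.2.2 ∈ X} ≤ K * ENNReal.ofReal (pr3 R (i + s))) →
    gp {T | T ∈ P3 R i ∧ T.1 ∈ GT b η ∧ T.2.2 ∈ X ∧ Obs (2 ^ b) (ob T.2.1 T.2.2)} * Xb b ≤
      ENNReal.ofReal C * (K * ENNReal.ofReal (pr3 R i)) := by
  obtain ⟨C, hC, hT⟩ := tipPE hη
  have hsum : Summable fun u : ℕ => 1 / ((u : ℝ) + 1) ^ 2 := by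
    have h1 : Summable fun n : ℕ => 1 / (n : ℝ) ^ 2 := Real.summable_one_div_nat_pow.2 (by norm_num)
    have h2 := (summable_nat_add_iff 1).2 h1
    refine h2.congr fun u => ?_
    push_cast
    rfl
  obtain ⟨Z, hZ⟩ : ∃ Z : ℝ, Z = ∑' u : ℕ, 1 / ((u : ℝ) + 1) ^ 2 := ⟨_, rfl⟩
  have hZ0 : 0 ≤ Z := by
    rw [hZ]
    exact tsum_nonneg fun u => by positivity
  refine ⟨C * (42 ^ 6 * Z) + 1, by positivity, fun R i b X K hb hK => ?_⟩
  have hp := pr3_pos R i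
  obtain ⟨S0, hS0⟩ : ∃ S0 : Set PT, S0 = {T | T ∈ P3 R i ∧ T.1 ∈ GT b η ∧ T.2.2 ∈ X ∧ Obs (2 ^ b) (ob T.2.1 T.2.2)} :=
    ⟨_, rfl⟩
  obtain ⟨S, hS⟩ : ∃ S : ℕ → Set PT, S = fun u => {T | (T.2.2 ∈ X ∧ Fr T.2.1 ∧ T.2.2 ∈ SA ∧
    ∀ s, s ≤ T.2.2.length → dz T.2.2 s ≤ R + 2 ^ i) ∧ T.1 ∈ PE R i (ob T.2.1 T.2.2) (pe T.2.1 T.2.2) (u + 20)} := ⟨_, rfl⟩
  obtain ⟨w, hw⟩ : ∃ w : ℕ → ℝ≥0∞, w = fun u : ℕ => ENNReal.ofReal (1 / ((u : ℝ) + 1) ^ 8) := ⟨_, rfl⟩
  -- the fibres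
  have h1 : ∀ G : (Pt × Pt) × List Bool, gf {L | ((L, G) : PT) ∈ S0} * Xb b ≤
      ENNReal.ofReal C * ∑' u, w u * gf {L | ((L, G) : PT) ∈ S u} := by
    intro G
    by_cases hG : (G.2 ∈ X ∧ Fr G.1 ∧ G.2 ∈ SA ∧ ∀ s, s ≤ G.2.length → dz G.2 s ≤ R + 2 ^ i) ∧ Obs (2 ^ b) (ob G.1 G.2)
    · obtain ⟨hG1, hG2⟩ := hG
      refine (mul_le_mul_left (gf_mono ?_) _).trans ((hT R i b (ob G.1 G.2) (pe G.1 G.2) hb hG2).trans
        (mul_le_mul_right ?_ _))
      · intro L hL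
        have hL' : ((L, G) : PT) ∈ S0 := hL
        rw [hS0] at hL'
        obtain ⟨⟨g1, g2, g3, g4, g5, g6, g7⟩, g8, -, -⟩ := hL'
        refine ⟨⟨⟨g1, g4⟩, ?_, fun s hs => ?_⟩, g8⟩
        · rw [Nat.cast_zero, zero_add, one_mul]
          exact g5
        · rw [Nat.cast_zero, zero_add, one_mul]
          exact g6 s hs
      · unfold ME
        refine ENNReal.tsum_le_tsum fun u => ?_
        rw [hw]
        refine mul_le_mul_right (gf_mono fun L hL => ?_) _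
        show ((L, G) : PT) ∈ S u
        rw [hS]
        rw [zero_add] at hL
        exact ⟨hG1, hL⟩
    · have h2 : {L | ((L, G) : PT) ∈ S0} = ∅ := by
        ext L
        simp only [Set.mem_empty_iff_false, iff_false]
        intro hL
        have hL' : ((L, G) : PT) ∈ S0 := hL
        rw [hS0] at hL'
        obtain ⟨⟨g1, g2, g3, g4, g5, g6, g7⟩, g8, g9, g10⟩ := hL'
        exact hG ⟨⟨g9, g3, g2, g7⟩, g10⟩
      rw [h2]
      have h3 : gf (∅ : Set (List Bool)) = 0 := by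
        unfold gf
        exact tsum_empty
      rw [h3, zero_mul]
      exact zero_le
  -- the sum
  have h2 : gp S0 * Xb b ≤ ENNReal.ofReal C * ∑' u, w u * gp (S u) := by
    rw [gp_fib, ← ENNReal.tsum_mul_right]
    calc ∑' G : (Pt × Pt) × List Bool, wE G.2 * gf {L | ((L, G) : PT) ∈ S0} * Xb b
        ≤ ∑' G : (Pt × Pt) × List Bool, ENNReal.ofReal C * ∑' u, w u * (wE G.2 * gf {L | ((L, G) : PT) ∈ S u}) := by
          refine ENNReal.tsum_le_tsum fun G => ?_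
          rw [mul_assoc]
          refine (mul_le_mul_right (h1 G) _).trans (le_of_eq ?_)
          rw [← mul_assoc, mul_comm (wE G.2), mul_assoc, ← ENNReal.tsum_mul_left]
          congr 1
          exact tsum_congr fun u => by ring
      _ = ENNReal.ofReal C * ∑' u, w u * gp (S u) := by
          rw [ENNReal.tsum_mul_left, ENNReal.tsum_comm]
          congr 1
          refine tsum_congr fun u => ?_
          rw [ENNReal.tsum_mul_left, ← gp_fib]
  -- one term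
  have h3 : ∀ u : ℕ, w u * gp (S u) ≤ K * ENNReal.ofReal (pr3 R i) * ENNReal.ofReal (42 ^ 6 * (1 / ((u : ℝ) + 1) ^ 2)) := by
    intro u
    obtain ⟨s, hs1, hs2⟩ := pow_near (u + 20)
    have hs1' : (((u + 20 : ℕ) : ℤ) + 1) ≤ 2 ^ s := by exact_mod_cast hs1
    have hsub : S u ⊆ {T | T ∈ P3 R (i + s) ∧ T.2.2 ∈ X} := by
      rw [hS]
      rintro T ⟨⟨g1, g2, g3, g4⟩, g5, g6, g7⟩
      have hi : (2 : ℤ) ^ i ≤ 2 ^ (i + s) := pow_le_pow_right₀ (by norm_num) (by omega)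
      have hi2 : (((u + 20 : ℕ) : ℤ) + 1) * 2 ^ i ≤ 2 ^ (i + s) := by
        rw [pow_add, mul_comm]
        exact mul_le_mul_of_nonneg_left hs1' (by positivity)
      exact ⟨⟨g5.1, g3, g2, g5.2, g6.trans hi2, fun v hv => (g7 v hv).trans (by linarith),
        fun v hv => (g4 v hv).trans (by linarith)⟩, g1⟩
    have h4 : pr3 R (i + s) ≤ (42 * ((u : ℝ) + 1)) ^ 6 * pr3 R i := by
      refine (pr3_up R i s).trans (mul_le_mul_of_nonneg_right ?_ hp.le)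
      have h5 : (2 : ℝ) ^ ((67 / 12 : ℝ) * (s : ℝ)) ≤ ((2 : ℝ) ^ s) ^ 6 := by
        rw [← pow_mul, ← Real.rpow_natCast]
        refine Real.rpow_le_rpow_of_exponent_le (by norm_num) ?_
        push_cast
        have : (0 : ℝ) ≤ s := Nat.cast_nonneg s
        linarith
      refine h5.trans (pow_le_pow_left₀ (by positivity) ?_ _)
      have h6 : (2 : ℝ) ^ s ≤ 2 * ((u : ℝ) + 20 + 1) := by exact_mod_cast hs2
      have h7 : (0 : ℝ) ≤ u := Nat.cast_nonneg u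
      linarith
    calc w u * gp (S u) ≤ w u * (K * ENNReal.ofReal ((42 * ((u : ℝ) + 1)) ^ 6 * pr3 R i)) :=
          mul_le_mul_right ((gp_mono hsub).trans ((hK s).trans (mul_le_mul_right (ENNReal.ofReal_le_ofReal h4) _))) _
      _ = K * ENNReal.ofReal (pr3 R i) * ENNReal.ofReal (42 ^ 6 * (1 / ((u : ℝ) + 1) ^ 2)) := by
          have hu : (0 : ℝ) < (u : ℝ) + 1 := by positivity
          rw [hw]
          simp only
          have e : (42 : ℝ) ^ 6 * (1 / ((u : ℝ) + 1) ^ 2) = 1 / ((u : ℝ) + 1) ^ 8 * (42 * ((u : ℝ) + 1)) ^ 6 := by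
            field_simp
          rw [e, ENNReal.ofReal_mul (show 0 ≤ 1 / ((u : ℝ) + 1) ^ 8 by positivity),
            ENNReal.ofReal_mul (show 0 ≤ (42 * ((u : ℝ) + 1)) ^ 6 by positivity)]
          ring
  rw [← hS0]
  refine h2.trans ((mul_le_mul_right (ENNReal.tsum_le_tsum h3) _).trans ?_)
  rw [ENNReal.tsum_mul_left]
  have h4 : ∑' u : ℕ, ENNReal.ofReal (42 ^ 6 * (1 / ((u : ℝ) + 1) ^ 2)) = ENNReal.ofReal (42 ^ 6 * Z) := by
    rw [hZ, ← tsum_mul_left, ENNReal.ofReal_tsum_of_nonneg (fun u => by positivity) (hsum.mul_left _)]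
  rw [h4]
  calc ENNReal.ofReal C * (K * ENNReal.ofReal (pr3 R i) * ENNReal.ofReal (42 ^ 6 * Z))
      = ENNReal.ofReal (C * (42 ^ 6 * Z)) * (K * ENNReal.ofReal (pr3 R i)) := by
        rw [ENNReal.ofReal_mul hC.le]
        ring
    _ ≤ _ := mul_le_mul_left (ENNReal.ofReal_le_ofReal (by linarith)) _

/-! ### the product bound -/

lemma hn_coord {p : Pt} {N : ℤ} (h : TIW.hn p ≤ N) : |p.1| ≤ N ∧ |p.2| ≤ N := by
  unfold TIW.hn at h
  obtain ⟨x, y⟩ := p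
  simp only [ip, up, rotL, rotR] at h ⊢
  have h1 := (le_max_left _ _).trans h
  have h2 := ((le_max_left _ _).trans (le_max_right _ _)).trans h
  have h3 := ((le_max_right _ _).trans (le_max_right _ _)).trans h
  rw [abs_le] at h1 h2 h3
  rw [abs_le, abs_le]
  omega

open Classical in
lemma gf_ite (S : Set (List Bool)) : gf S = ∑' t : List Bool, (if t ∈ S then wE t else 0) := by
  unfold gf
  rw [_root_.tsum_subtype S (fun t => wE t)]
  refine tsum_congr fun t => ?_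
  by_cases ht : t ∈ S
  · rw [if_pos ht, Set.indicator_of_mem ht]
  · rw [if_neg ht, Set.indicator_of_notMem ht]

open Classical in
/-- the frames with given words and a small gap -/
lemma frames_le (i : ℕ) (L B : List Bool) :
    ∑' g : Pt × Pt, (if Fr g ∧ TIW.hn (TIW.en L - pe g B) ≤ 2 ^ i then (1 : ℝ≥0∞) else 0) ≤ ENNReal.ofReal (54 * 4 ^ i) := by
  obtain ⟨N, hN⟩ : ∃ N : ℕ, N = 2 ^ i := ⟨_, rfl⟩
  obtain ⟨F, hF⟩ : ∃ F : Finset (Pt × Pt), F = (Icc (-(N : ℤ)) N ×ˢ Icc (-(N : ℤ)) N) ×ˢ dirs := ⟨_, rfl⟩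
  have h1 : ∑' g : Pt × Pt, (if Fr g ∧ TIW.hn (TIW.en L - pe g B) ≤ 2 ^ i then (1 : ℝ≥0∞) else 0) =
      ∑' g : {g : Pt × Pt | Fr g ∧ TIW.hn (TIW.en L - pe g B) ≤ 2 ^ i}, (1 : ℝ≥0∞) := by
    rw [_root_.tsum_subtype {g : Pt × Pt | Fr g ∧ TIW.hn (TIW.en L - pe g B) ≤ 2 ^ i} (fun _ => (1 : ℝ≥0∞))]
    refine tsum_congr fun g => ?_
    by_cases hg : Fr g ∧ TIW.hn (TIW.en L - pe g B) ≤ 2 ^ i
    · rw [if_pos hg, Set.indicator_of_mem (show g ∈ {g : Pt × Pt | Fr g ∧ TIW.hn (TIW.en L - pe g B) ≤ 2 ^ i} from hg)]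
    · rw [if_neg hg, Set.indicator_of_notMem (show g ∉ {g : Pt × Pt | Fr g ∧ TIW.hn (TIW.en L - pe g B) ≤ 2 ^ i} from hg)]
  have hmem : ∀ g : {g : Pt × Pt | Fr g ∧ TIW.hn (TIW.en L - pe g B) ≤ 2 ^ i},
      ((TIW.en L - pe g.1 B, g.1.2) : Pt × Pt) ∈ F := by
    rintro ⟨g, hg1, hg2⟩
    obtain ⟨c1, c2⟩ := hn_coord hg2
    rw [abs_le] at c1 c2
    rw [hF, mem_product, mem_product, mem_Icc, mem_Icc, hN]
    push_cast
    exact ⟨⟨c1, c2⟩, hg1.1⟩
  obtain ⟨φ, hφ⟩ : ∃ φ : {g : Pt × Pt | Fr g ∧ TIW.hn (TIW.en L - pe g B) ≤ 2 ^ i} → F,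
      φ = fun g => ⟨(TIW.en L - pe g.1 B, g.1.2), hmem g⟩ := ⟨_, rfl⟩
  have hinj : Function.Injective φ := by
    rintro ⟨⟨x, c⟩, hg⟩ ⟨⟨x', c'⟩, hg'⟩ he
    rw [hφ] at he
    have h2 := congrArg Subtype.val he
    simp only [Prod.mk.injEq] at h2
    obtain ⟨h3, rfl⟩ := h2
    have h4 : pe (x, c) B = pe (x', c) B := sub_right_injective h3
    unfold pe pv at h4
    have h5 : x = x' := add_right_cancel h4
    subst h5
    rfl
  rw [h1]
  calc ∑' g : {g : Pt × Pt | Fr g ∧ TIW.hn (TIW.en L - pe g B) ≤ 2 ^ i}, (1 : ℝ≥0∞)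
      = ∑' g : {g : Pt × Pt | Fr g ∧ TIW.hn (TIW.en L - pe g B) ≤ 2 ^ i}, (fun _ : F => (1 : ℝ≥0∞)) (φ g) := rfl
    _ ≤ ∑' _x : F, (1 : ℝ≥0∞) := ENNReal.tsum_comp_le_tsum_of_injective hinj (fun _ : F => (1 : ℝ≥0∞))
    _ = (F.card : ℝ≥0∞) := by
        rw [tsum_fintype, sum_const, card_univ, Fintype.card_coe, nsmul_eq_mul, mul_one]
    _ ≤ ENNReal.ofReal (54 * 4 ^ i) := by
        rw [← ENNReal.ofReal_natCast]
        refine ENNReal.ofReal_le_ofReal ?_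
        have hd : dirs.card = 6 := by decide
        have hc : (Icc (-(N : ℤ)) N).card = 2 * N + 1 := by
          rw [Int.card_Icc]
          omega
        rw [hF, card_product, card_product, hd, hc]
        have h4 : (4 : ℝ) ^ i = (N : ℝ) * N := by
          rw [hN]
          push_cast
          rw [← mul_pow]
          norm_num
        have h5 : (1 : ℝ) ≤ N := by
          rw [hN]
          push_cast
          exact one_le_pow₀ (by norm_num)
        rw [h4]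
        push_cast
        nlinarith

open Classical in
/-- **the product bound** -/
theorem gp_prod (i : ℕ) (S1 S2 : Set (List Bool)) :
    gp {T | T.1 ∈ S1 ∧ T.2.2 ∈ S2 ∧ Fr T.2.1 ∧ TIW.hn (TIW.en T.1 - pe T.2.1 T.2.2) ≤ 2 ^ i} ≤
      ENNReal.ofReal (54 * 4 ^ i) * (gf S1 * gf S2) := by
  rw [gp_indicator, ENNReal.tsum_prod']
  have h1 : ∀ L : List Bool, ∑' G : (Pt × Pt) × List Bool,
      ({T : PT | T.1 ∈ S1 ∧ T.2.2 ∈ S2 ∧ Fr T.2.1 ∧ TIW.hn (TIW.en T.1 - pe T.2.1 T.2.2) ≤ 2 ^ i}).indicator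
        (fun T : PT => wE T.1 * wE T.2.2) (L, G) ≤ (if L ∈ S1 then wE L else 0) * (ENNReal.ofReal (54 * 4 ^ i) * gf S2) := by
    intro L
    by_cases hL : L ∈ S1
    · rw [if_pos hL, ENNReal.tsum_prod', ENNReal.tsum_comm]
      have h2 : ∀ B : List Bool, ∑' g : Pt × Pt,
          ({T : PT | T.1 ∈ S1 ∧ T.2.2 ∈ S2 ∧ Fr T.2.1 ∧ TIW.hn (TIW.en T.1 - pe T.2.1 T.2.2) ≤ 2 ^ i}).indicator
            (fun T : PT => wE T.1 * wE T.2.2) (L, (g, B)) ≤
            wE L * ((if B ∈ S2 then wE B else 0) * ENNReal.ofReal (54 * 4 ^ i)) := by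
        intro B
        by_cases hB : B ∈ S2
        · rw [if_pos hB, ← mul_assoc]
          refine le_trans (le_of_eq ?_) (mul_le_mul_right (frames_le i L B) _)
          rw [← ENNReal.tsum_mul_left]
          refine tsum_congr fun g => ?_
          by_cases hg : Fr g ∧ TIW.hn (TIW.en L - pe g B) ≤ 2 ^ i
          · rw [if_pos hg, mul_one]
            exact Set.indicator_of_mem (show ((L, (g, B)) : PT) ∈ {T : PT | T.1 ∈ S1 ∧ T.2.2 ∈ S2 ∧ Fr T.2.1 ∧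
              TIW.hn (TIW.en T.1 - pe T.2.1 T.2.2) ≤ 2 ^ i} from ⟨hL, hB, hg⟩) _
          · rw [if_neg hg, mul_zero]
            exact Set.indicator_of_notMem (show ((L, (g, B)) : PT) ∉ {T : PT | T.1 ∈ S1 ∧ T.2.2 ∈ S2 ∧ Fr T.2.1 ∧
              TIW.hn (TIW.en T.1 - pe T.2.1 T.2.2) ≤ 2 ^ i} from fun h => hg h.2.2) _
        · rw [if_neg hB, zero_mul, mul_zero]
          refine le_of_eq (ENNReal.tsum_eq_zero.2 fun g => ?_)
          exact Set.indicator_of_notMem (show ((L, (g, B)) : PT) ∉ {T : PT | T.1 ∈ S1 ∧ T.2.2 ∈ S2 ∧ Fr T.2.1 ∧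
            TIW.hn (TIW.en T.1 - pe T.2.1 T.2.2) ≤ 2 ^ i} from fun h => hB h.2.1) _
      refine (ENNReal.tsum_le_tsum h2).trans (le_of_eq ?_)
      rw [ENNReal.tsum_mul_left, ENNReal.tsum_mul_right, ← gf_ite, mul_comm (gf S2)]
    · rw [if_neg hL, zero_mul]
      refine le_of_eq (ENNReal.tsum_eq_zero.2 fun G => ?_)
      exact Set.indicator_of_notMem (show ((L, G) : PT) ∉ {T : PT | T.1 ∈ S1 ∧ T.2.2 ∈ S2 ∧ Fr T.2.1 ∧
        TIW.hn (TIW.en T.1 - pe T.2.1 T.2.2) ≤ 2 ^ i} from fun h => hL h.1) _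
  refine (ENNReal.tsum_le_tsum h1).trans (le_of_eq ?_)
  rw [ENNReal.tsum_mul_right, ← gf_ite]
  ring

/-! ### the rows -/

/-- **row P1** -/
theorem tipP : TipP := by
  intro η hη
  obtain ⟨C, hC, hT⟩ := tipCore hη
  obtain ⟨C1, hC1, hD1⟩ := tipD hη
  obtain ⟨C2, hC2, hB⟩ := conf_ball
  refine ⟨C + 54 * C1 * C2 * 4, by positivity, fun D R i b hD hH hb => ?_⟩
  have hp := pr3_pos R i
  have hD0 : 0 ≤ D := by linarith
  -- large second words
  have h1 := hT R i b Set.univ (ENNReal.ofReal D) hb (fun s => by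
    refine (gp_mono fun T hT => hT.1).trans ((hH (i + s) (by omega)).trans (le_of_eq ?_))
    rw [ENNReal.ofReal_mul hD0])
  -- small second words
  have h2 : gp {T | T.1 ∈ {L | (L ∈ SA ∧ ∀ s, s ≤ L.length → dz L s ≤ R + 2 ^ i) ∧ L ∈ GT b η} ∧
      T.2.2 ∈ {L | L ∈ SA ∧ ∀ s, s ≤ L.length → dz L s ≤ ((2 ^ (b + 1) : ℕ) : ℤ)} ∧ Fr T.2.1 ∧
      TIW.hn (TIW.en T.1 - pe T.2.1 T.2.2) ≤ 2 ^ i} * Xb b ≤ ENNReal.ofReal (54 * C1 * C2 * 4 * D * pr3 R i) := by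
    refine (mul_le_mul_left (gp_prod i _ _) _).trans ?_
    have g1 := hD1 R i b hb
    have g2 := hB (2 ^ (b + 1)) Nat.one_le_two_pow
    calc ENNReal.ofReal (54 * 4 ^ i) * (gf {L | (L ∈ SA ∧ ∀ s, s ≤ L.length → dz L s ≤ R + 2 ^ i) ∧ L ∈ GT b η} *
          gf {L | L ∈ SA ∧ ∀ s, s ≤ L.length → dz L s ≤ ((2 ^ (b + 1) : ℕ) : ℤ)}) * Xb b
        = ENNReal.ofReal (54 * 4 ^ i) * ((gf {L | (L ∈ SA ∧ ∀ s, s ≤ L.length → dz L s ≤ R + 2 ^ i) ∧ L ∈ GT b η} * Xb b) *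
          gf {L | L ∈ SA ∧ ∀ s, s ≤ L.length → dz L s ≤ ((2 ^ (b + 1) : ℕ) : ℤ)}) := by ring
      _ ≤ ENNReal.ofReal (54 * 4 ^ i) * (ENNReal.ofReal (C1 * (max (R : ℝ) (2 ^ i)) ^ (43 / 24 : ℝ)) *
          ENNReal.ofReal (C2 * ((2 ^ (b + 1) : ℕ) : ℝ) ^ (43 / 24 : ℝ))) := mul_le_mul_right (mul_le_mul' g1 g2) _
      _ = ENNReal.ofReal (54 * 4 ^ i * (C1 * (max (R : ℝ) (2 ^ i)) ^ (43 / 24 : ℝ) *
          (C2 * ((2 ^ (b + 1) : ℕ) : ℝ) ^ (43 / 24 : ℝ)))) := by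
          have hm : (0 : ℝ) ≤ max (R : ℝ) (2 ^ i) := le_max_of_le_left (Nat.cast_nonneg R)
          rw [← ENNReal.ofReal_mul (by positivity), ← ENNReal.ofReal_mul (by positivity)]
      _ ≤ _ := by
          refine ENNReal.ofReal_le_ofReal ?_
          obtain ⟨X, hX⟩ : ∃ X : ℝ, X = max (R : ℝ) (2 ^ i) := ⟨_, rfl⟩
          have hX2 : (2 : ℝ) ^ i ≤ X := by
            rw [hX]
            exact le_max_right _ _
          have hX0 : 0 < X := lt_of_lt_of_le (by positivity) hX2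
          have e1 : ((2 ^ (b + 1) : ℕ) : ℝ) ^ (43 / 24 : ℝ) ≤ 4 * (2 : ℝ) ^ ((43 / 24 : ℝ) * (i : ℝ)) := by
            push_cast
            have e3 : (2 : ℝ) ^ (43 / 24 : ℝ) ≤ 4 := by
              calc (2 : ℝ) ^ (43 / 24 : ℝ) ≤ (2 : ℝ) ^ (2 : ℝ) :=
                    Real.rpow_le_rpow_of_exponent_le (by norm_num) (by norm_num)
                _ = 4 := by
                    rw [show (2 : ℝ) = ((2 : ℕ) : ℝ) by norm_num, Real.rpow_natCast]
                    norm_num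
            have e4 : (2 : ℝ) ^ (b + 1) ≤ 2 * 2 ^ i := by
              rw [pow_succ, mul_comm]
              exact mul_le_mul_of_nonneg_left (pow_le_pow_right₀ (by norm_num) hb) (by norm_num)
            calc ((2 : ℝ) ^ (b + 1)) ^ (43 / 24 : ℝ) ≤ (2 * 2 ^ i) ^ (43 / 24 : ℝ) :=
                  Real.rpow_le_rpow (by positivity) e4 (by norm_num)
              _ = (2 : ℝ) ^ (43 / 24 : ℝ) * ((2 : ℝ) ^ i) ^ (43 / 24 : ℝ) := Real.mul_rpow (by norm_num) (by positivity)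
              _ = (2 : ℝ) ^ (43 / 24 : ℝ) * (2 : ℝ) ^ ((43 / 24 : ℝ) * (i : ℝ)) := by rw [two_pow_rpow]
              _ ≤ _ := mul_le_mul_of_nonneg_right e3 (by positivity)
          have e2 : (4 : ℝ) ^ i * X ^ (43 / 24 : ℝ) * (2 : ℝ) ^ ((43 / 24 : ℝ) * (i : ℝ)) ≤ pr3 R i := by
            unfold pr3
            rw [← hX]
            have e5 : (4 : ℝ) ^ i = (2 : ℝ) ^ ((2 : ℝ) * (i : ℝ)) := by
              rw [← two_pow_rpow, Real.rpow_two, ← pow_mul, mul_comm i 2, pow_mul]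
              norm_num
            have e6 : X ^ (25 / 8 : ℝ) = X ^ (43 / 24 : ℝ) * X ^ (4 / 3 : ℝ) := by
              rw [← Real.rpow_add hX0]
              norm_num
            have e7 : (2 : ℝ) ^ ((4 / 3 : ℝ) * (i : ℝ)) ≤ X ^ (4 / 3 : ℝ) := by
              rw [← two_pow_rpow]
              exact Real.rpow_le_rpow (by positivity) hX2 (by norm_num)
            have e8 : (2 : ℝ) ^ ((2 : ℝ) * (i : ℝ)) * (2 : ℝ) ^ ((43 / 24 : ℝ) * (i : ℝ)) =
                (2 : ℝ) ^ ((59 / 24 : ℝ) * (i : ℝ)) * (2 : ℝ) ^ ((4 / 3 : ℝ) * (i : ℝ)) := by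
              rw [← Real.rpow_add (by norm_num), ← Real.rpow_add (by norm_num)]
              congr 1
              ring
            calc (4 : ℝ) ^ i * X ^ (43 / 24 : ℝ) * (2 : ℝ) ^ ((43 / 24 : ℝ) * (i : ℝ))
                = ((2 : ℝ) ^ ((2 : ℝ) * (i : ℝ)) * (2 : ℝ) ^ ((43 / 24 : ℝ) * (i : ℝ))) * X ^ (43 / 24 : ℝ) := by
                  rw [e5]
                  ring
              _ = (2 : ℝ) ^ ((59 / 24 : ℝ) * (i : ℝ)) * (2 : ℝ) ^ ((4 / 3 : ℝ) * (i : ℝ)) * X ^ (43 / 24 : ℝ) := by rw [e8]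
              _ ≤ (2 : ℝ) ^ ((59 / 24 : ℝ) * (i : ℝ)) * X ^ (4 / 3 : ℝ) * X ^ (43 / 24 : ℝ) := by gcongr
              _ = _ := by
                  rw [e6]
                  ring
          rw [← hX]
          calc 54 * 4 ^ i * (C1 * X ^ (43 / 24 : ℝ) * (C2 * ((2 ^ (b + 1) : ℕ) : ℝ) ^ (43 / 24 : ℝ)))
              ≤ 54 * 4 ^ i * (C1 * X ^ (43 / 24 : ℝ) * (C2 * (4 * (2 : ℝ) ^ ((43 / 24 : ℝ) * (i : ℝ))))) := by gcongr
            _ = 54 * C1 * C2 * 4 * ((4 : ℝ) ^ i * X ^ (43 / 24 : ℝ) * (2 : ℝ) ^ ((43 / 24 : ℝ) * (i : ℝ))) := by ring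
            _ ≤ 54 * C1 * C2 * 4 * pr3 R i := mul_le_mul_of_nonneg_left e2 (by positivity)
            _ ≤ 54 * C1 * C2 * 4 * D * pr3 R i := by
                have : 0 < 54 * C1 * C2 * 4 * pr3 R i := by positivity
                nlinarith
  have hsub : {T | T ∈ P3 R i ∧ T.1 ∈ GT b η} ⊆
      {T | T ∈ P3 R i ∧ T.1 ∈ GT b η ∧ T.2.2 ∈ Set.univ ∧ Obs (2 ^ b) (ob T.2.1 T.2.2)} ∪
      {T | T.1 ∈ {L | (L ∈ SA ∧ ∀ s, s ≤ L.length → dz L s ≤ R + 2 ^ i) ∧ L ∈ GT b η} ∧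
        T.2.2 ∈ {L | L ∈ SA ∧ ∀ s, s ≤ L.length → dz L s ≤ ((2 ^ (b + 1) : ℕ) : ℤ)} ∧ Fr T.2.1 ∧
        TIW.hn (TIW.en T.1 - pe T.2.1 T.2.2) ≤ 2 ^ i} := by
    rintro T ⟨hT1, hT2⟩
    obtain ⟨g1, g2, g3, g4, g5, g6, g7⟩ := id hT1
    by_cases h3 : ∀ s, s ≤ T.2.2.length → dz T.2.2 s ≤ ((2 ^ (b + 1) : ℕ) : ℤ)
    · exact Or.inr ⟨⟨⟨g1, g6⟩, hT2⟩, ⟨g2, h3⟩, g3, g5⟩
    · left
      push Not at h3
      obtain ⟨s, hs, h4⟩ := h3
      refine ⟨hT1, hT2, Set.mem_univ _, obs_ob g3 hs le_rfl (D := 2 ^ b) ?_⟩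
      push_cast at h4
      have e : (2 : ℤ) ^ (b + 1) = 2 * 2 ^ b := by
        rw [pow_succ]
        ring
      rw [e] at h4
      exact h4
  calc gp {T | T ∈ P3 R i ∧ T.1 ∈ GT b η} * Xb b ≤ (_ + _) * Xb b :=
        mul_le_mul_left ((gp_mono hsub).trans (gp_union_le _ _)) _
    _ ≤ ENNReal.ofReal C * (ENNReal.ofReal D * ENNReal.ofReal (pr3 R i)) +
        ENNReal.ofReal (54 * C1 * C2 * 4 * D * pr3 R i) := by
        rw [add_mul]
        exact add_le_add h1 h2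
    _ = _ := by
        rw [← ENNReal.ofReal_mul hD0, ← ENNReal.ofReal_mul hC.le, ← ENNReal.ofReal_add (by positivity) (by positivity)]
        congr 1
        ring

/-- **row P1'** -/
theorem tipP2 : TipP2 := by
  intro η hη
  obtain ⟨C, hC, hT⟩ := tipCore hη
  obtain ⟨C1, hC1, hP⟩ := tipP η hη
  refine ⟨C * C1, by positivity, fun D R i b hD hH hb => ?_⟩
  have hp := pr3_pos R i
  have hD0 : 0 ≤ D := by linarith
  have hXt := Xb_ne_top b
  have hX0b : Xb b ≠ 0 := by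
    intro h
    have := one_le_Xb b
    rw [h, mul_zero] at this
    simp at this
  have h1 := hT R i b (GT b η) (ENNReal.ofReal (C1 * D) * (Xb b)⁻¹) hb (fun s => by
    have g1 := hP D R (i + s) b hD (hH.mono (by omega)) (by omega)
    have g2 : gp {T | T ∈ P3 R (i + s) ∧ T.2.2 ∈ GT b η} = gp {T | T ∈ P3 R (i + s) ∧ T.1 ∈ GT b η} :=
      gp_sw_P3 (fun T => T.1 ∈ GT b η)
    rw [g2]
    calc gp {T | T ∈ P3 R (i + s) ∧ T.1 ∈ GT b η} = gp {T | T ∈ P3 R (i + s) ∧ T.1 ∈ GT b η} * Xb b * (Xb b)⁻¹ := by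
          rw [mul_assoc, ENNReal.mul_inv_cancel hX0b hXt, mul_one]
      _ ≤ ENNReal.ofReal (C1 * D * pr3 R (i + s)) * (Xb b)⁻¹ := mul_le_mul_left g1 _
      _ = _ := by
          rw [ENNReal.ofReal_mul (show 0 ≤ C1 * D by positivity)]
          ring)
  have hsub : {T | T ∈ P3 R i ∧ T.1 ∈ GT b η ∧ T.2.2 ∈ GT b η} ⊆
      {T | T ∈ P3 R i ∧ T.1 ∈ GT b η ∧ T.2.2 ∈ GT b η ∧ Obs (2 ^ b) (ob T.2.1 T.2.2)} := by
    rintro T ⟨g1, g2, g3⟩
    obtain ⟨s, t, hs, ht, h3⟩ := GT_big hη g3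
    exact ⟨g1, g2, g3, obs_ob (P3_fr g1) hs ht h3⟩
  calc gp {T | T ∈ P3 R i ∧ T.1 ∈ GT b η ∧ T.2.2 ∈ GT b η} * Xb b ^ 2
      = gp {T | T ∈ P3 R i ∧ T.1 ∈ GT b η ∧ T.2.2 ∈ GT b η} * Xb b * Xb b := by ring
    _ ≤ ENNReal.ofReal C * (ENNReal.ofReal (C1 * D) * (Xb b)⁻¹ * ENNReal.ofReal (pr3 R i)) * Xb b :=
        mul_le_mul_left ((mul_le_mul_left (gp_mono hsub) _).trans h1) _
    _ = ENNReal.ofReal C * ENNReal.ofReal (C1 * D) * ENNReal.ofReal (pr3 R i) * (Xb b * (Xb b)⁻¹) := by ring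
    _ = ENNReal.ofReal (C * C1 * D * pr3 R i) := by
        rw [ENNReal.mul_inv_cancel hX0b hXt, mul_one, ← ENNReal.ofReal_mul hC.le, ← ENNReal.ofReal_mul (by positivity)]
        congr 1
        ring

end RMP

end HexObs
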