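import Pool.Agent.RMP.EsPf
import Pool.Agent.RMP.TipP
import Pool.Agent.ARM.InPt
import Pool.Agent.ARM.SmL
import Pool.Agent.ARM.VisS
import Pool.Agent.ARM.LMass
import Pool.Agent.ARM.NoRich
import Pool.Agent.TIP.GeoZ
import Pool.Agent.TIP.YBad

/-!
# RMP (helper63): row EsP, no hypothesis
-/

set_option autoImplicit false

namespace HexObs

namespace RMP

open TIP ARM

/-- **row EsP**, no hypothesis -/
theorem esP : EsP := by
  obtain ⟨κ, hκ, C, -, hR⟩ := regZ_all
  exact esP_of hκ (exP_of tipP) (inStL_of (inPt_of smL retT yMassJ)) (yBad hR) (noRich hR confSt)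

end RMP

end HexObs
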