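import Pool.Agent.ARM.Conf
import Pool.Agent.ARM.GlueGB

/-!
# RMP, row P6a (helper51): the first moment of the length of the words in a small ball
-/

set_option autoImplicit false

namespace HexObs

namespace RMP

namespace G4

open Finset TS SDN SIM NTA TIP ARM

open scoped ENNReal

/-- a sum of inverse squares -/
lemma cm_sum {a : ℝ} (ha : 1 ≤ a) (N : ℕ) : ∑ n ∈ range N, a ^ 2 / ((n : ℝ) + a) ^ 2 ≤ 2 * a - a ^ 2 / ((N : ℝ) + a - 1 / 2) := by
  induction N with
  | zero =>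
    rw [range_zero, sum_empty, Nat.cast_zero, zero_add]
    have h1 : 0 < a - 1 / 2 := by linarith
    have h2 : a ^ 2 / (a - 1 / 2) ≤ 2 * a := by
      rw [div_le_iff₀ h1]
      nlinarith
    linarith
  | succ N ih =>
    rw [sum_range_succ]
    have hN : (0 : ℝ) ≤ N := Nat.cast_nonneg _
    have h1 : 0 < (N : ℝ) + a - 1 / 2 := by linarith
    have h2 : 0 < (N : ℝ) + a + 1 / 2 := by linarith
    have h3 : a ^ 2 / ((N : ℝ) + a) ^ 2 ≤ a ^ 2 / ((N : ℝ) + a - 1 / 2) - a ^ 2 / ((N : ℝ) + a + 1 / 2) := by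
      have e1 : a ^ 2 / ((N : ℝ) + a - 1 / 2) - a ^ 2 / ((N : ℝ) + a + 1 / 2) =
          a ^ 2 / (((N : ℝ) + a - 1 / 2) * ((N : ℝ) + a + 1 / 2)) := by
        rw [div_sub_div _ _ h1.ne' h2.ne']
        congr 1
        ring
      rw [e1]
      refine div_le_div_of_nonneg_left (by positivity) (by positivity) ?_
      nlinarith
    have e2 : ((N + 1 : ℕ) : ℝ) + a - 1 / 2 = (N : ℝ) + a + 1 / 2 := by
      push_cast
      ring
    rw [e2]
    linarith

lemma cm_tsum {a : ℝ} (ha : 1 ≤ a) : ∑' n : ℕ, ENNReal.ofReal ((a / max (n : ℝ) a) ^ 4) ≤ ENNReal.ofReal (8 * a) := by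
  refine ENNReal.tsum_le_of_sum_range_le fun N => ?_
  rw [← ENNReal.ofReal_sum_of_nonneg fun n _ => by positivity]
  refine ENNReal.ofReal_le_ofReal ?_
  have h1 : ∀ n ∈ range N, (a / max (n : ℝ) a) ^ 4 ≤ 4 * (a ^ 2 / ((n : ℝ) + a) ^ 2) := by
    intro n _
    have hn : (0 : ℝ) ≤ n := Nat.cast_nonneg _
    have hm : 0 < max (n : ℝ) a := lt_max_of_lt_right (by linarith)
    have h2 : a / max (n : ℝ) a ≤ 1 := by
      rw [div_le_one hm]
      exact le_max_right _ _
    have h3 : 0 ≤ a / max (n : ℝ) a := by positivity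
    have h4 : a / max (n : ℝ) a ≤ 2 * (a / ((n : ℝ) + a)) := by
      rw [← mul_div_assoc, div_le_div_iff₀ hm (by linarith)]
      have : (n : ℝ) + a ≤ 2 * max (n : ℝ) a := by
        have := le_max_left (n : ℝ) a
        have := le_max_right (n : ℝ) a
        linarith
      nlinarith
    calc (a / max (n : ℝ) a) ^ 4 ≤ (a / max (n : ℝ) a) ^ 2 := pow_le_pow_of_le_one h3 h2 (by norm_num)
      _ ≤ (2 * (a / ((n : ℝ) + a))) ^ 2 := pow_le_pow_left₀ h3 h4 2
      _ = _ := by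
        rw [mul_pow, div_pow]
        norm_num
  refine (sum_le_sum h1).trans ?_
  rw [← mul_sum]
  have h2 := cm_sum ha N
  have h3 : 0 ≤ a ^ 2 / ((N : ℝ) + a - 1 / 2) := by
    have : (0 : ℝ) ≤ N := Nat.cast_nonneg _
    have : 0 < (N : ℝ) + a - 1 / 2 := by linarith
    positivity
  linarith

/-- **the first moment** -/
theorem conf_mom : ∃ C : ℝ, 0 < C ∧ ∀ i : ℕ,
    ∑' L : {L : List Bool | L ∈ SA ∧ ∀ s, s ≤ L.length → dz L s ≤ 2 ^ i},
      wE (L : List Bool) * (((L : List Bool).length + 1 : ℕ) : ℝ≥0∞) ≤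
        ENNReal.ofReal (C * (ml i * (2 : ℝ) ^ ((43 / 24 : ℝ) * (i : ℝ)))) := by
  classical
  obtain ⟨C, hC, h⟩ := confSt
  refine ⟨8 * C, by positivity, fun i => ?_⟩
  obtain ⟨S, hS⟩ : ∃ S : Set (List Bool), S = {L : List Bool | L ∈ SA ∧ ∀ s, s ≤ L.length → dz L s ≤ 2 ^ i} := ⟨_, rfl⟩
  rw [← hS]
  have e1 : ∀ L : List Bool, wE L * ((L.length + 1 : ℕ) : ℝ≥0∞) = ∑' n : ℕ, if n ≤ L.length then wE L else 0 := by
    intro L
    rw [tsum_eq_sum (s := range (L.length + 1)) fun n hn => if_neg fun h => hn (mem_range.2 (by omega)),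
      sum_congr rfl fun n hn => if_pos (by
        have := mem_range.1 hn
        omega), sum_const, card_range, nsmul_eq_mul, mul_comm]
  have e2 : ∑' L : S, wE (L : List Bool) * (((L : List Bool).length + 1 : ℕ) : ℝ≥0∞) =
      ∑' n : ℕ, ∑' L : S, if n ≤ (L : List Bool).length then wE (L : List Bool) else 0 := by
    rw [← ENNReal.tsum_comm]
    exact tsum_congr fun L => e1 L
  rw [e2]
  have hm := G2.m_pos i
  have hm1 := G2.m_one i
  obtain ⟨K, hK⟩ : ∃ K : ℝ, K = C * (2 : ℝ) ^ ((43 / 24 : ℝ) * (i : ℝ)) := ⟨_, rfl⟩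
  have hK0 : 0 ≤ K := by
    rw [hK]
    positivity
  have e3 : ∀ n : ℕ, (∑' L : S, if n ≤ (L : List Bool).length then wE (L : List Bool) else 0) ≤
      ENNReal.ofReal K * ENNReal.ofReal ((ml i / max (n : ℝ) (ml i)) ^ 4) := by
    intro n
    have h1 := h n i
    have e4 : (∑' L : S, if n ≤ (L : List Bool).length then wE (L : List Bool) else 0) =
        gf {L | L ∈ SA ∧ n ≤ L.length ∧ ∀ s, s ≤ L.length → dz L s ≤ 2 ^ i} := by
      unfold gf
      rw [_root_.tsum_subtype S (fun L => if n ≤ L.length then wE L else 0),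
        _root_.tsum_subtype {L : List Bool | L ∈ SA ∧ n ≤ L.length ∧ ∀ s, s ≤ L.length → dz L s ≤ 2 ^ i} wE]
      refine tsum_congr fun L => ?_
      by_cases h2 : L ∈ S
      · rw [Set.indicator_of_mem h2]
        rw [hS] at h2
        by_cases h3 : n ≤ L.length
        · rw [if_pos h3, Set.indicator_of_mem (show L ∈ {L : List Bool | L ∈ SA ∧ n ≤ L.length ∧
            ∀ s, s ≤ L.length → dz L s ≤ 2 ^ i} from ⟨h2.1, h3, h2.2⟩)]
        · rw [if_neg h3, Set.indicator_of_notMem fun h4 => h3 h4.2.1]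
      · rw [Set.indicator_of_notMem h2, Set.indicator_of_notMem]
        intro h4
        rw [hS] at h2
        exact h2 ⟨h4.1, h4.2.2⟩
    rw [e4]
    refine h1.trans (le_of_eq ?_)
    rw [← ENNReal.ofReal_mul hK0, hK]
    congr 1
    ring
  refine (ENNReal.tsum_le_tsum e3).trans ?_
  rw [ENNReal.tsum_mul_left]
  refine (mul_le_mul_right (cm_tsum hm1) _).trans (le_of_eq ?_)
  rw [← ENNReal.ofReal_mul hK0, hK]
  congr 1
  ring

end G4

end RMP

end HexObs
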