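import Pool.Agent.RMP.PlPM
import Pool.Agent.RMP.ConfMom
import Pool.Agent.ARM2.TubeF

/-!
# RMP, row P6a (helper87): the mass of the joinable pairs
-/

set_option autoImplicit false

namespace HexObs

namespace RMP

open Finset TS SDN SIM NTA TIP TIW ARM

/-- **row P6a** -/
theorem jMassP : JMassP := G4.jMassP_of0 AR.tubeSt G4.conf_mom

end RMP

end HexObs
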