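import Pool.Agent.ARM.JoinR

/-!
# (RM), row P5, part JoinP (helper39): a corridor around a set of obstacles gives a path of the triangular lattice

`ARM.jn_of` for an arbitrary set `V` of obstacles (for a pair: the vertices of both words), the tube goes from the tip `t`
(direction of exit `dt`) to the origin (last direction `up`). `MidV` = what the corridor row gives, `JnV` = joinable.
-/

set_option autoImplicit false

namespace HexObs

namespace RMP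

open Finset TS SDN SIM NTA TIP TIW ARM

/-- **what the corridor row gives** for the set of obstacles `V`, the tip `t` with the direction of exit `dt` and the other
tip at the origin, with the direction of arrival `up` -/
structure MidV (a m c e j : ℕ) (V : Set Pt) (t dt : Pt) : Prop where
  zero : (0 : Pt) ∈ V
  tip : t ∈ V
  dir : dt ∈ dirs
  le : hn t ≤ 2 ^ (j + m + 3)
  far : 2 ^ (j - e) < hn t
  fe : ∀ p ∈ V, 0 < ip (p - t) dt → 2 ^ (j - a) ≤ hn (p - t) + 2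
  fr : ∀ p ∈ V, p ≠ 0 → ip (p - up) up < 0 → 2 ^ (j - a) ≤ hn p + 2
  chn : ∀ (h w : ℕ) (r : ℤ), 1 ≤ h → 0 ≤ r → 3 * (2 * r + 3) * h ≤ 2 ^ (j - e) → 2 ^ (j - a) ≤ 8 * w →
    8 * w ≤ 3 * 2 ^ (j - a) → Relation.ReflTransGen (fun f g => adj f g ∧ nr ((2 ^ (j + c - 1) / h : ℕ) : ℤ) 0 g ∧
      ∀ p ∈ V, ¬ nr r (cel h (p - t)) g) (cel h ((w : ℤ) • dt)) (cel h (-t - (w : ℤ) • up))

/-- **joinable**: the path `E` goes from `t` (first direction `dt`) to the origin (last direction `up`, checked outside) and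
keeps away from the obstacles (tolerance 2 ^ (k + 12)) -/
structure JnV (E : ℕ → Pt) (r : ℕ) (D : ℤ) (k : ℕ) (V : Set Pt) (t dt : Pt) : Prop where
  de : dt = E 0
  pos : hn (t - qv E D r 0) ≤ 2 ^ k
  mid : ∀ p ∈ V, ∀ j, 1 ≤ j → j + 1 < r → ¬ AR.NS (qv E D r j) (E j) D (2 ^ (k + 12)) p
  fst : ∀ p ∈ V, AR.NS (qv E D r 0) (E 0) D (2 ^ (k + 12)) p → ip (p - t) (E 0) ≤ 0
  lst : ∀ p ∈ V, p ≠ 0 → AR.NS (qv E D r (r - 1)) (E (r - 1)) D (2 ^ (k + 12)) p → 0 ≤ ip (p - up) up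

/-- **the corridor gives a path** -/
theorem jnV_of {a e : ℕ} (m c : ℕ) {H : ℕ} (hae : a + 6 ≤ e) (hH : 2 ^ 13 ≤ H) : ∃ Mx sx b0 : ℕ, ∀ j, b0 ≤ j →
    ∃ DD : Finset ℤ, DD.card ≤ Mx ∧ ∀ (V : Set Pt) (t dt : Pt), MidV a m c e j V t dt →
      ∃ (k' r : ℕ) (D : ℤ) (E : ℕ → Pt), D ∈ DD ∧ k' ≤ j ∧ j ≤ k' + sx ∧ 18 * (H * 2 ^ k') ≤ D ∧
        D ≤ 36 * (H * 2 ^ k') ∧ 4 ≤ r ∧ r ≤ Mx ∧ IPg E r ∧ E (r - 1) = up ∧ E (r - 2) = up ∧ JnV E r D k' V t dt := by
  set N : ℕ := 216 * H with hN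
  set T : ℕ := 2 ^ (m + e + 8) with hT
  set X : ℕ := N ^ 2 * (432 * H * (N ^ 2 * T + 3)) with hX
  set RB : ℕ := 2 * N ^ 2 * 2 ^ (c + e + 4) + (N ^ 2 * T + 1) + 2 * N ^ 2 * (3 * 2 ^ (e + 2)) + 4 with hRB
  have hH1 : 1 ≤ H := le_trans (by norm_num) hH
  refine ⟨(2 * RB + 1) ^ 2 + (N ^ 2 + 1), e + 5 + 72 * H * N ^ 2, e + 5 + X + c, fun j hj =>
    ⟨(range (N ^ 2 + 1)).image fun q : ℕ => (2 : ℤ) ^ (j - (e + 5)) / q, ?_, fun V t dt hM => ?_⟩⟩
  · refine card_image_le.trans ?_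
    rw [card_range]
    exact Nat.le_add_left _ _
  -- scales
  obtain ⟨s, rfl⟩ : ∃ s, j = e + 5 + s := ⟨j - (e + 5), by omega⟩
  have hsX : X ≤ s := by omega
  have hpow : (X : ℤ) ≤ 2 ^ s := by
    have h1 : X < 2 ^ X := Nat.lt_two_pow_self
    have h2 : 2 ^ X ≤ 2 ^ s := Nat.pow_le_pow_right (by norm_num) hsX
    exact_mod_cast h1.le.trans h2
  set D0 : ℤ := 2 ^ s with hD0
  have hD0p : 0 < D0 := by positivity
  have hje : e + 5 + s - e = s + 5 := by omega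
  have hja : ∃ v, e + 5 + s - a = s + 11 + v := ⟨e - a - 6, by omega⟩
  obtain ⟨v, hja⟩ := hja
  have hfar := hM.far
  have hle := hM.le
  rw [hje] at hfar
  have hle2 : hn t ≤ T * D0 := by
    rw [hT, hD0]
    push_cast
    rw [← pow_add, show m + e + 8 + s = e + 5 + s + m + 3 by ring]
    exact hle
  obtain ⟨c1, c2⟩ := hn_coord t
  obtain ⟨D, g, ⟨q0, hq0, hDq0⟩, hDp, hDle, hDge, hg1, hg2, hgn⟩ := mesh (H := H) (D0 := D0) (T := T) (t := t) hH1 hD0p (by positivity)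
    (by linarith [abs_nonneg t.1, hn_nonneg t]) (by linarith [abs_nonneg t.2, hn_nonneg t]) (by
      refine le_trans (le_of_eq ?_) hpow
      rw [hX, hN]
      push_cast
      ring)
  rw [← hN] at hDge hg1 hg2 hq0
  have hDD : D ∈ (range (N ^ 2 + 1)).image fun q : ℕ => (2 : ℤ) ^ (e + 5 + s - (e + 5)) / q := by
    rw [Nat.add_sub_cancel_left, mem_image]
    exact ⟨q0, mem_range.2 hq0, hDq0⟩
  -- the scale k'
  have hHz : (2 : ℤ) ^ 13 ≤ H := by exact_mod_cast hH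
  have hD18 : 18 * (H : ℤ) ≤ D := by
    have h1 : (2 : ℤ) * N ^ 2 * (18 * H) ≤ 2 * N ^ 2 * D := by
      refine le_trans ?_ hDge
      refine le_trans ?_ hpow
      rw [hX]
      push_cast
      have h2 : (0 : ℤ) ≤ (N : ℤ) ^ 2 * H := by positivity
      have h3 : (0 : ℤ) ≤ (N : ℤ) ^ 2 * T := by positivity
      nlinarith [mul_nonneg h2 h3]
    refine le_of_mul_le_mul_left h1 ?_
    have : (0 : ℤ) < N := by
      rw [hN]
      push_cast
      linarith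
    positivity
  obtain ⟨k, hk1, hk2⟩ := scale hH1 hD18
  set κ : ℤ := 2 ^ k with hκ
  have hκp : 0 < κ := by positivity
  have hκD : 72 * (2 ^ 11 * κ) ≤ D := by
    refine le_trans ?_ hk1
    have : (2 : ℤ) ^ 13 * κ ≤ H * κ := mul_le_mul_of_nonneg_right hHz hκp.le
    linarith
  have hgκ : hn (t - D • g) ≤ κ := by
    have h1 : 36 * (H : ℤ) * hn (t - D • g) ≤ 36 * H * κ := by
      rw [mul_assoc 36 (H : ℤ) κ]
      exact hgn.trans hk2.le
    refine le_of_mul_le_mul_left h1 (by linarith)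
  -- the vertices
  have h0V : (0 : Pt) ∈ V := hM.zero
  have htV : t ∈ V := hM.tip
  have hdt : dt ∈ dirs := hM.dir
  set ρ : ℤ := 2 ^ (s + 11 + v) - 2 with hρ
  have hV1 : ∀ p ∈ V, 0 < ip (p - t) dt → ρ ≤ hn (p - t) := by
    intro p hp h1
    have h2 := hM.fe p hp h1
    rw [hja] at h2
    linarith
  have hV2' : ∀ p ∈ V, p ≠ 0 → ip (p - up) up < 0 → ρ ≤ hn p := by
    intro p h1 h2 h3
    have h4 := hM.fr p h1 h2 h3
    rw [hja] at h4
    linarith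
  have hV2 : ∀ p ∈ V, ip p up < 0 → ρ ≤ hn p := by
    intro p hp h1
    refine hV2' p hp (fun h => ?_) ?_
    · subst h
      simp [ip] at h1
    · rw [ip_sub_left, ip_self_dir upd']
      linarith
  -- the chain
  obtain ⟨h, rfl⟩ : ∃ h : ℕ, D = h := ⟨D.toNat, by omega⟩
  have hh1 : 1 ≤ h := by exact_mod_cast hDp
  have hhge : 2 ^ s ≤ 2 * N ^ 2 * h := by
    have h1 : (2 : ℤ) ^ s ≤ 2 * (N : ℤ) ^ 2 * h := hDge
    exact_mod_cast h1
  have hcel : ∀ v : Pt, cel h v = ce (h : ℤ) v := fun v => rfl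
  set w : ℕ := 3 * 2 ^ (s + 8 + v) with hw
  have hc := hM.chn h w 3 hh1 (by norm_num) (by
      rw [hje, pow_add]
      have : (h : ℤ) ≤ 2 ^ s := hDle
      linarith) (by
      rw [hja, hw, show s + 11 + v = (s + 8 + v) + 3 by ring, pow_add _ _ 3]
      omega) (by
      rw [hja, hw, show s + 11 + v = (s + 8 + v) + 3 by ring, pow_add _ _ 3]
      omega)
  set R : ℕ := 2 ^ (e + 5 + s + c - 1) / h with hR
  have hRle : R ≤ 2 * N ^ 2 * 2 ^ (c + e + 4) := by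
    rw [hR]
    refine Nat.div_le_of_le_mul ?_
    rw [show e + 5 + s + c - 1 = (c + e + 4) + s by omega, pow_add]
    calc 2 ^ (c + e + 4) * 2 ^ s ≤ 2 ^ (c + e + 4) * (2 * N ^ 2 * h) := Nat.mul_le_mul_left _ hhge
      _ = h * (2 * N ^ 2 * 2 ^ (c + e + 4)) := by ring
  have hve : 8 + v ≤ e + 2 := by omega
  have hwle : w ≤ (3 * 2 ^ (e + 2)) * 2 ^ s := by
    rw [hw, show s + 8 + v = (8 + v) + s by ring, pow_add _ (8 + v), ← mul_assoc]
    exact Nat.mul_le_mul_right _ (Nat.mul_le_mul_left _ (Nat.pow_le_pow_right (by norm_num) hve))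
  have hKle : w / h ≤ 2 * N ^ 2 * (3 * 2 ^ (e + 2)) := by
    refine Nat.div_le_of_le_mul (hwle.trans ?_)
    calc (3 * 2 ^ (e + 2)) * 2 ^ s ≤ (3 * 2 ^ (e + 2)) * (2 * N ^ 2 * h) := Nat.mul_le_mul_left _ hhge
      _ = h * (2 * N ^ 2 * (3 * 2 ^ (e + 2))) := by ring
  have hs0 : (1 : ℤ) ≤ 2 ^ (s + 4 + v) := one_le_pow₀ (by norm_num)
  have hDs : (h : ℤ) ≤ 2 ^ (s + 4 + v) :=
    hDle.trans (pow_le_pow_right₀ (by norm_num) (by omega))
  have hwz : (w : ℤ) = 48 * 2 ^ (s + 4 + v) := by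
    rw [hw, show s + 8 + v = (s + 4 + v) + 4 by ring, pow_add _ _ 4]
    push_cast
    ring
  have hρz : ρ = 128 * 2 ^ (s + 4 + v) - 2 := by
    rw [hρ, show s + 11 + v = (s + 4 + v) + 7 by ring, pow_add _ _ 7]
    ring
  have hcV : Relation.ReflTransGen (fun f g => adj f g ∧ nr (R : ℤ) 0 g ∧ ∀ p ∈ V, ¬ nr 3 (ce (h : ℤ) (p - t)) g)
      (ce (h : ℤ) ((w : ℤ) • dt)) (ce (h : ℤ) (-t - (w : ℤ) • up)) := hc
  obtain ⟨n, f, n3, nle, f0, fn, f1, fl, fl2, fdir, ftur, find, fclr⟩ := exists_path (D := (h : ℤ)) (w := (w : ℤ)) (ρ := ρ)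
    (κ := κ) (N0 := (N : ℤ) ^ 2 * T + 1) (R := (R : ℤ)) (RB := (RB : ℤ)) (K := w / h) (V := V) (t := t) (dt := dt)
    (g0 := g) hDp hκp.le (by linarith) hdt h0V htV hgκ hV1 hV2 (by
      have : (10 : ℤ) * h ≤ 2 ^ (s + 5) := by
        rw [pow_add]
        linarith
      linarith) (by rw [hwz]; linarith) (by exact_mod_cast Nat.div_mul_le_self w h) (by
      have := Nat.lt_mul_div_succ w hh1
      rw [mul_comm] at this
      exact_mod_cast this) (by rw [hwz, hρz]; linarith) ⟨hg1, hg2⟩ (Int.natCast_nonneg _) (by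
      rw [hRB]
      have e1 : (R : ℤ) ≤ 2 * (N : ℤ) ^ 2 * 2 ^ (c + e + 4) := by exact_mod_cast hRle
      have e2 : ((w / h : ℕ) : ℤ) ≤ 2 * (N : ℤ) ^ 2 * (3 * 2 ^ (e + 2)) := by exact_mod_cast hKle
      push_cast at e1 e2 ⊢
      linarith) hcV
  have hps : ∀ i, AR.ps (fun i => f (i + 1) - f i) i = f i - f 0 := fun i => sum_range_sub f i
  have hqv : ∀ i, qv (fun i => f (i + 1) - f i) (h : ℤ) n i = (h : ℤ) • f i := by
    intro i
    unfold qv
    rw [hps, hps, fn]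
    congr 1
    abel
  obtain ⟨m', rfl⟩ : ∃ m', n = m' + 1 := ⟨n - 1, by omega⟩
  rw [Nat.add_sub_cancel] at fl
  obtain ⟨m'', rfl⟩ : ∃ m'', m' = m'' + 1 := ⟨m' - 1, by omega⟩
  rw [show m'' + 1 + 1 - 2 = m'' by omega] at fl2
  have hlast : f (m'' + 1 + 1) - f (m'' + 1) = up := by rw [fn, fl]; abel
  have hlast2 : f (m'' + 1) - f m'' = up := by rw [fl, fl2]; abel
  have hfst : f (0 + 1) - f 0 = dt := by rw [zero_add, f1, f0]; abel
  have hup2 : hn up = 2 := by decide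
  refine ⟨k, m'' + 1 + 1, (h : ℤ), fun i => f (i + 1) - f i, hDD, ?_, ?_, hk1, hk2.le, n3, ?_, ?_, ?_, ?_, ?_⟩
  · have h1 : (2 : ℤ) ^ k ≤ 2 ^ s := by
      have : (0 : ℤ) ≤ 2 ^ 11 * κ := by positivity
      linarith
    have h2 : k ≤ s := (pow_le_pow_iff_right₀ (by norm_num : (1 : ℤ) < 2)).1 h1
    omega
  · have h1 : (2 : ℤ) ^ s ≤ 2 * N ^ 2 * (36 * (H * 2 ^ k)) :=
      hDge.trans (mul_le_mul_of_nonneg_left hk2.le (by positivity))
    have h2 : (72 * H * N ^ 2 : ℕ) < 2 ^ (72 * H * N ^ 2) := Nat.lt_two_pow_self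
    have h3 : (2 : ℤ) ^ s ≤ 2 ^ (k + 72 * H * N ^ 2) := by
      rw [pow_add]
      refine h1.trans ?_
      have h4 : ((72 * H * N ^ 2 : ℕ) : ℤ) ≤ 2 ^ (72 * H * N ^ 2) := by exact_mod_cast h2.le
      have h5 : (2 : ℤ) * N ^ 2 * (36 * (H * 2 ^ k)) = 2 ^ k * ((72 * H * N ^ 2 : ℕ) : ℤ) := by
        push_cast
        ring
      rw [h5]
      exact mul_le_mul_of_nonneg_left h4 (by positivity)
    have h6 : s ≤ k + 72 * H * N ^ 2 := (pow_le_pow_iff_right₀ (by norm_num : (1 : ℤ) < 2)).1 h3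
    omega
  · refine le_trans (nle.trans (le_of_eq ?_)) (Nat.le_add_right _ _)
    congr 1
  · refine ⟨fdir, fun i hi => ftur i hi, fun i j h1 h2 => ?_⟩
    rw [hps, hps, sub_sub_sub_cancel_right]
    exact find i j h1 h2
  · rw [Nat.add_sub_cancel]
    exact hlast
  · rw [show m'' + 1 + 1 - 2 = m'' by omega]
    exact hlast2
  · refine ⟨?_, ?_, ?_, ?_, ?_⟩
    · show dt = f (0 + 1) - f 0
      rw [hfst]
    · rw [hqv, f0]
      exact hgκ
    · rintro p hp j h1 h2 ⟨σ, s1, s2, s3⟩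
      have h3 := fclr j h1 h2 σ s1 s2 _ hp
      have s4 : hn (p - ((h : ℤ) • f j + σ • (f (j + 1) - f j))) ≤ 2 ^ (k + 12) := by
        rw [← hqv j]
        exact s3
      rw [pow_add, ← hκ] at s4
      linarith
    · rintro p hp ⟨σ, s1, s2, s3⟩
      have s4 : hn (p - ((h : ℤ) • g + σ • dt)) ≤ 2 ^ (k + 12) := by
        rw [← hfst, ← f0, ← hqv 0]
        exact s3
      show ip (p - t) (f (0 + 1) - f 0) ≤ 0
      rw [hfst]
      by_contra hcon
      rw [not_le] at hcon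
      have h1 := hV1 _ hp hcon
      have h2 : p - t = (p - ((h : ℤ) • g + σ • dt)) + (σ • dt - (t - (h : ℤ) • g)) := by abel
      have h3 := hn_add (p - ((h : ℤ) • g + σ • dt)) (σ • dt - (t - (h : ℤ) • g))
      have h4 := hn_sub (σ • dt) (t - (h : ℤ) • g)
      rw [hn_smul_d hdt s1] at h4
      rw [← h2] at h3
      rw [pow_add, ← hκ] at s4
      rw [hρz] at h1
      linarith
    · rintro p hp h1 ⟨σ, s1, s2, s3⟩
      have s4 : hn (p - ((h : ℤ) • -up + σ • up)) ≤ 2 ^ (k + 12) := by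
        rw [← fl]
        have e1 := hqv (m'' + 1)
        rw [← e1]
        nth_rewrite 1 [← hlast]
        exact s3
      by_contra hcon
      rw [not_le] at hcon
      have h1' := hV2' p hp h1 hcon
      have h2 : p = (p - ((h : ℤ) • -up + σ • up)) + ((h : ℤ) • -up + σ • up) := by abel
      have h3 := hn_add (p - ((h : ℤ) • -up + σ • up)) ((h : ℤ) • -up + σ • up)
      have h4 := hn_add ((h : ℤ) • -up) (σ • up)
      rw [hn_smul_d upd' s1] at h4
      rw [← h2] at h3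
      rw [pow_add, ← hκ] at s4
      rw [hρz] at h1'
      have h5 : hn ((h : ℤ) • -up) = 2 * h := by rw [smul_neg, hn_neg, hn_smul_d upd' hDp.le]
      linarith

end RMP

end HexObs
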