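import Pool.Agent.ARM.Mid

/-!
# RMP, row P5 (helper74): the corridor between two tips, general form (the numbers of `ARM.Mctx.chn`)

Two arms, `s : Bool`, vertices `α s 0, .., α s (n s)` from far away to the tips, seen from the tip of the arm `true`; `δ s i` =
distance of the vertex from its own end (the end of the word, behind the cut).
-/

set_option autoImplicit false

namespace HexObs

namespace RMP

open Finset TS SDN HexObs.SIM NTA TIP TIW ARM

/-- **the corridor between two tips** -/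
theorem chain_gen {j a m c e k : ℕ} {n : Bool → ℕ} {α : Bool → ℕ → Pt} {δ : Bool → ℕ → ℤ} {t d : Pt} (hak : a + 6 ≤ k)
    (hke : k ≤ e) (hmc : m + 8 ≤ c) (hej : e + 4 ≤ j) {q w : ℕ} {r : ℤ} (hq : 1 ≤ q) (hr : 0 ≤ r)
    (hrq : 3 * (2 * r + 3) * q ≤ 2 ^ (j - e)) (hw2 : 8 * w ≤ 3 * 2 ^ (j - a)) (hd : d ∈ dirs)
    (stp : ∀ s i, i < n s → hn (α s (i + 1) - α s i) ≤ 2)
    (near : ∀ s i, i ≤ n s → δ s i ≤ hn (α s i) + 4 * 2 ^ (j + m) ∧ hn (α s i) ≤ δ s i + 4 * 2 ^ (j + m))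
    (dst : ∀ s i s' i', i ≤ n s → i' ≤ n s' → δ s' i' ≤ δ s i + hn (α s i - α s' i') + 2 ^ j)
    (ht : hn t ≤ 7 * 2 ^ (j + m) + 4)
    (f1 : ∀ s i, i ≤ n s → 2 ^ (j - a) ≤ 4 * hn (α s i - (w : ℤ) • d) + 8)
    (f2 : ∀ s i, i ≤ n s → 2 ^ (j - a) ≤ 4 * hn (α s i - (-t - (w : ℤ) • up)) + 8)
    (n1 : ∀ s i i', i ≤ i' → i' ≤ n s → δ s i ≤ 2 ^ (j + c) → δ s i' ≤ 2 ^ (j + c) → hn (α s i - α s i') ≤ 2 ^ (j - e) →
      ∀ k', i ≤ k' → k' ≤ i' → hn (α s i - α s k') < 2 * 2 ^ (j - k))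
    (n2 : ∀ i i', i ≤ n false → i' ≤ n true → δ false i ≤ 2 ^ (j + c) → δ true i' ≤ 2 ^ (j + c) →
      2 ^ (j - e) < hn (α false i - α true i'))
    (es : ∀ s i k', k' ≤ i → i ≤ n s → 2 ^ (j + c - 1) + 2 ^ (j + 2) < 2 * δ s i →
      δ s k' + 2 ^ (j + 1) ≤ 2 ^ (j + m + 4 + 1) → False) :
    Relation.ReflTransGen (fun f g => adj f g ∧ nr (2 ^ (j + c - 1) / q) 0 g ∧ ∀ s i, i ≤ n s → ¬ nr r (cel q (α s i)) g)
      (cel q ((w : ℤ) • d)) (cel q (-t - (w : ℤ) • up)) := by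
  -- the numbers
  obtain ⟨H, hH⟩ : ∃ H : ℤ, H = q := ⟨_, rfl⟩
  have hH1 : 1 ≤ H := by rw [hH]; exact_mod_cast hq
  rw [← hH] at hrq ⊢
  obtain ⟨B, hB⟩ : ∃ B : ℤ, B = 2 ^ (j - a - 6) := ⟨_, rfl⟩
  obtain ⟨E, hE⟩ : ∃ E : ℤ, E = 2 ^ (j + m) := ⟨_, rfl⟩
  obtain ⟨T, hT⟩ : ∃ T : ℤ, T = 2 ^ j := ⟨_, rfl⟩
  obtain ⟨G, hG⟩ : ∃ G : ℤ, G = 2 ^ (j + c - 2) := ⟨_, rfl⟩
  obtain ⟨xe, hxe⟩ : ∃ xe : ℤ, xe = 2 ^ (j - e) := ⟨_, rfl⟩
  obtain ⟨xk, hxk⟩ : ∃ xk : ℤ, xk = 2 ^ (j - k) := ⟨_, rfl⟩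
  have pA : (2 : ℤ) ^ (j - a) = 64 * B := by
    rw [hB, show j - a = (j - a - 6) + 6 by omega, pow_add]
    norm_num
    ring
  have pB : 16 ≤ B := by
    have : (2 : ℤ) ^ 4 ≤ 2 ^ (j - a - 6) := pow_le_pow_right₀ (by norm_num) (by omega)
    rw [hB]
    linarith
  have pk : xk ≤ B := by rw [hxk, hB]; exact pow_le_pow_right₀ (by norm_num) (by omega)
  have pe : xe ≤ xk := by rw [hxk, hxe]; exact pow_le_pow_right₀ (by norm_num) (by omega)
  have pT : 64 * B ≤ T := by rw [← pA, hT]; exact pow_le_pow_right₀ (by norm_num) (by omega)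
  have pE : T ≤ E := by rw [hE, hT]; exact pow_le_pow_right₀ (by norm_num) (by omega)
  have pG : 64 * E ≤ G := by
    have h1 : (2 : ℤ) ^ (j + m + 6) ≤ 2 ^ (j + c - 2) := pow_le_pow_right₀ (by norm_num) (by omega)
    rw [pow_add] at h1
    rw [hG, hE]
    linarith
  have pc : (2 : ℤ) ^ (j + c) = 4 * G := by
    rw [hG, show j + c = (j + c - 2) + 2 by omega, pow_add]
    norm_num
    ring
  have pc1 : (2 : ℤ) ^ (j + c - 1) = 2 * G := by
    rw [hG, show j + c - 1 = (j + c - 2) + 1 by omega, pow_succ]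
    ring
  have pm4 : (2 : ℤ) ^ (j + m + 4 + 1) = 32 * E := by
    rw [hE, show j + m + 4 + 1 = (j + m) + 5 by omega, pow_add]
    norm_num
    ring
  have pj1 : (2 : ℤ) ^ (j + 1) = 2 * T := by rw [hT, pow_succ]; ring
  have pj2 : (2 : ℤ) ^ (j + 2) = 4 * T := by rw [hT, pow_add]; norm_num; ring
  rw [← hxe] at hrq
  have hrH : 0 ≤ r * H := by positivity
  have h9 : 6 * (r * H) + 9 * H ≤ xe := by linarith
  obtain ⟨ρ, hρ⟩ : ∃ ρ : ℤ, ρ = 4 * B / H - 1 := ⟨_, rfl⟩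
  have r1 : (ρ + 1) * H ≤ 4 * B := by
    rw [hρ, sub_add_cancel]
    exact Int.ediv_mul_le _ (by omega)
  have r2 : 4 * B < (ρ + 1) * H + H := by
    have := Int.lt_ediv_add_one_mul_self (4 * B) (show 0 < H by omega)
    rw [hρ, sub_add_cancel]
    linarith
  obtain ⟨R0, hR0⟩ : ∃ R0 : ℤ, R0 = 6 * E / H + 1 := ⟨_, rfl⟩
  have r3 : 6 * E < R0 * H := by
    have := Int.lt_ediv_add_one_mul_self (6 * E) (show 0 < H by omega)
    rw [hR0]
    exact this
  have r4 : R0 * H ≤ 6 * E + H := by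
    have := Int.ediv_mul_le (6 * E) (show H ≠ 0 by omega)
    rw [hR0]
    linarith
  obtain ⟨R1, hR1⟩ : ∃ R1 : ℤ, R1 = G / H + 1 := ⟨_, rfl⟩
  have r5 : G < R1 * H := by
    have := Int.lt_ediv_add_one_mul_self G (show 0 < H by omega)
    rw [hR1]
    exact this
  have r6 : R1 * H ≤ G + H := by
    have := Int.ediv_mul_le G (show H ≠ 0 by omega)
    rw [hR1]
    linarith
  have hqpos : 0 < q := by omega
  rw [← hE] at near ht
  rw [← hT] at dst
  rw [pA] at f1 f2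
  rw [pc, ← hxe, ← hxk] at n1
  rw [pc, ← hxe] at n2
  rw [pc1, pj2, pj1, pm4] at es
  have hw2' : 8 * (w : ℤ) ≤ 3 * (64 * B) := by
    have : 8 * (w : ℤ) ≤ 3 * 2 ^ (j - a) := by exact_mod_cast hw2
    rwa [pA] at this
  have hxe0 : 0 < xe := by rw [hxe]; positivity
  have hxk0 : 0 < xk := by rw [hxk]; positivity
  -- small distance to the tip: small distance to the end
  have dzc : ∀ s i, i ≤ n s → nr (R1 + r + 2 + r + 2) 0 (cel q (α s i)) → δ s i + xe + T ≤ 4 * G := by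
    intro s i hi hn1
    rw [← cel_zero q] at hn1
    have h1 := hn_of_nr hqpos hn1
    rw [← hH, zero_sub, hn_neg] at h1
    have h2 := (near s i hi).1
    nlinarith
  have key := corridor (n := n) (γ := fun s i => cel q (α s i)) (p := 0) (q1 := cel q ((w : ℤ) • d))
    (q2 := cel q (-t - (w : ℤ) • up)) (r := r) (ρ := ρ) (R0 := R0) (R1 := R1) (R' := R1 + r + 2) hr ?_ ?_ ?_ ?_ ?_
    ?_ ?_ ?_ ?_ ?_ ?_
  · refine Relation.ReflTransGen.mono (r := fun f g => adj f g ∧ nr (R1 + r + 2) 0 g ∧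
      ∀ (s : Bool) (i : ℕ), i ≤ n s → ¬nr r (cel q (α s i)) g) ?_ _ _ key
    rintro f g ⟨g1, g2, g3⟩
    refine ⟨g1, nr_mono ?_ g2, g3⟩
    rw [pc1]
    refine (Int.le_ediv_iff_mul_le (by omega)).2 ?_
    linarith
  · -- 2 (r + 1) ≤ ρ
    have : 2 * (r + 1) * H < ρ * H := by linarith
    exact (lt_of_mul_lt_mul_right this (by omega)).le
  · -- 0 ≤ R0
    rw [hR0]
    have : 0 ≤ 6 * E / H := Int.ediv_nonneg (by omega) (by omega)
    omega
  · -- R0 + r + 2 ≤ R1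
    have : (R0 + r + 2) * H < R1 * H := by linarith
    exact (lt_of_mul_lt_mul_right this (by omega)).le
  · exact le_rfl
  · -- steps
    intro s i hi
    refine nr_of_hn hqpos ?_
    rw [← hH, hn_sub_comm]
    have := stp s i hi
    linarith
  · -- q1
    rw [← cel_zero q]
    refine nr_of_hn hqpos ?_
    rw [← hH, zero_sub, hn_neg, mid_hn_smul_dir hd]
    linarith
  · -- q2
    rw [← cel_zero q]
    refine nr_of_hn hqpos ?_
    rw [← hH, zero_sub, hn_neg]
    have h1 := hn_sub (-t) ((w : ℤ) • up)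
    rw [mid_hn_smul_dir (show up ∈ dirs by decide), hn_neg] at h1
    linarith
  · -- far from the two points
    intro s i hi
    constructor
    · intro hn1
      have h1 := hn_of_nr hqpos hn1
      have h2 := f1 s i hi
      rw [← hH] at h1
      linarith
    · intro hn1
      have h1 := hn_of_nr hqpos hn1
      have h2 := f2 s i hi
      rw [← hH] at h1
      linarith
  · -- near touches of one word
    intro s i i' hii hi' hn1 hn2 k' hk1 hk2
    have d1 := dzc s i (by omega) hn2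
    have h1 := hn_of_nr hqpos hn1
    rw [← hH] at h1
    have h1' : hn (α s i - α s i') ≤ xe := by linarith
    have d2 := dst s i s i' (by omega) hi'
    have h3 := n1 s i i' hii hi' (by linarith [hn_nonneg (α s i - α s i')]) (by linarith) h1' k' hk1 hk2
    refine nr_of_hn hqpos ?_
    rw [← hH]
    linarith
  · -- the two words do not come near each other
    intro i i' hi hi' hn2 hn1
    have d1 := dzc false i hi hn2
    have h1 := hn_of_nr hqpos hn1
    rw [← hH] at h1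
    have h1' : hn (α false i - α true i') ≤ xe := by linarith
    have d2 := dst false i true i' hi hi'
    have h3 := n2 i i' hi hi' (by linarith [hn_nonneg (α false i - α true i')]) (by linarith)
    linarith
  · -- no extra strand
    intro s i hi hn1 k' hk' hn2
    have b1 : 3 * (R1 * H + 1) ≤ 2 * hn (α s i) := by
      by_contra hcon
      push Not at hcon
      apply hn1
      rw [← cel_zero q]
      refine nr_of_hn hqpos ?_
      rw [← hH, zero_sub, hn_neg]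
      exact hcon
    have b2 : hn (α s k') < 3 * ((R0 + 1 + 1) * H) := by
      rw [← cel_zero q] at hn2
      have := hn_of_nr hqpos hn2
      rwa [← hH, zero_sub, hn_neg] at this
    have c1 := (near s i hi).2
    have c2 := (near s k' (by omega)).1
    exact es s i k' hk' hi (by linarith) (by linarith)

end RMP

end HexObs
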