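import Pool.Agent.RMP.MidA
import Pool.Agent.RMP.MidG
import Pool.Agent.RMP.JnV
import Pool.Agent.ARM.PlcA

/-!
# RMP, row P5 (helper74): the corridor of a pair of good cuts

`PCtx` : two words with their good cuts and what is known about them; **`PCtx.midV`** : the corridor (`MidV`) in the frame of
the exit vertex of the second word; `PCtx.nt1`, `.nt2` : the tips keep away from the other word.
-/

set_option autoImplicit false

namespace HexObs

namespace RMP

open Finset TS SDN HexObs.SIM NTA TIP TIW ARM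

/-! ### frames -/

lemma conj_mulP {c : Pt} (h : nrm c = 1) (p : Pt) : mulE (conjE c) (mulE c p) = p := by
  rw [mulE_assoc, mulE_comm (conjE c), mulE_conjE, h, mulE_one]

lemma ip_rotP {c : Pt} (h : nrm c = 1) (p q : Pt) : ip (mulE c p) (mulE c q) = ip p q := by
  rw [ip_mulE, h, one_mul]

lemma pv_subP (g : Pt × Pt) (B : List Bool) (s t : ℕ) : pv g B s - pv g B t = mulE g.2 (vx oo up B s - vx oo up B t) := by
  unfold pv
  rw [mulE_sub]
  abel

lemma pv_appP (g : Pt × Pt) {B Y : List Bool} {i : ℕ} (hi : i ≤ B.length + 1) : pv g (B ++ Y) i = pv g B i := by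
  unfold pv
  rw [vx_append hi]

lemma pv_exit (g : Pt × Pt) (B : List Bool) : pv g B (B.length + 1) = pe g B + pd g B := by
  unfold pe pd pv TIW.de
  rw [vx_succ, mulE_add]
  abel

lemma dz_pv {g : Pt × Pt} (hg : nrm g.2 = 1) (B : List Bool) (i : ℕ) : dz B i = hn (pv g B i - pe g B) := by
  unfold pe
  rw [pv_subP, hn_mulE hg]
  rfl

/-- a point in front of a tip with a free half ball -/
lemma front_pt {x τ δ : Pt} (hδ : δ ∈ dirs) {w : ℕ} {X : ℤ} (hw1 : X ≤ 8 * w) (hw2 : 8 * (w : ℤ) ≤ 3 * X)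
    (h : 0 < ip (x - τ) δ → X ≤ hn (x - τ)) : X ≤ 4 * hn (x - τ - (w : ℤ) • δ) := by
  rcases le_or_gt (ip (x - τ) δ) 0 with hc | hc
  · have h1 := neg_hn_le_ip (x - τ - (w : ℤ) • δ) hδ
    rw [ip_sub', ip_smul, ip_self_dir hδ] at h1
    linarith
  · have h1 := h hc
    have h3 := hn_tri (x - τ) ((w : ℤ) • δ) 0
    rw [sub_zero, sub_zero, mid_hn_smul_dir hδ] at h3
    linarith

/-! ### the context -/

/-- two words A ++ Y1 and (placed) B ++ Y2 with good cuts -/
structure PCtx (j a m c u e k : ℕ) (A Y1 : List Bool) (g : Pt × Pt) (B Y2 : List Bool) : Prop where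
  fr : g.2 ∈ dirs
  gap : hn (en (A ++ Y1) - pe g (B ++ Y2)) ≤ 2 ^ j
  h1 : ArmOk j m c u e k A Y1
  h2 : ArmOk j m c u e k B Y2
  fA : A ∈ Fe (2 ^ (j - a))
  fB : B ∈ Fe (2 ^ (j - a))
  fAB : FreeO (2 ^ (j - a)) (ob g (B ++ Y2)) A
  fBA : FreeO (2 ^ (j - a)) (ob (gi g) (A ++ Y1)) B
  ntx : ((A ++ Y1, (g, B ++ Y2)) : PT) ∉ NTx (j + c) (j + u) (2 ^ (j - e))

namespace PCtx

variable {j a m c u e k : ℕ} {A Y1 : List Bool} {g : Pt × Pt} {B Y2 : List Bool}

lemma ng (h : PCtx j a m c u e k A Y1 g B Y2) : nrm g.2 = 1 := mem_dirs.1 h.fr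

/-- the tip of A and the two ends -/
lemma tip1 (h : PCtx j a m c u e k A Y1 g B Y2) : hn (en A - en (A ++ Y1)) ≤ 3 * 2 ^ (j + m) := h.h1.tip

lemma tip2 (h : PCtx j a m c u e k A Y1 g B Y2) : hn (pe g B - pe g (B ++ Y2)) ≤ 3 * 2 ^ (j + m) := by
  have h1 := h.h2.tip
  have e1 : pe g B - pe g (B ++ Y2) = mulE g.2 (en B - en (B ++ Y2)) := by
    unfold pe
    rw [← pv_appP g (Y := Y2) (Nat.le_succ B.length), pv_subP, vx_append (Nat.le_succ B.length)]
    rfl
  rw [e1, hn_mulE h.ng]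
  exact h1

/-- no touch of the two words in the ball -/
lemma n2 (h : PCtx j a m c u e k A Y1 g B Y2) (hcu : c ≤ u) {i i' : ℕ} (hi : i ≤ (B ++ Y2).length)
    (hi' : i' ≤ (A ++ Y1).length) (d2 : dz (B ++ Y2) i ≤ 2 ^ (j + c)) (d1 : dz (A ++ Y1) i' ≤ 2 ^ (j + c)) :
    2 ^ (j - e) < hn (vx oo up (A ++ Y1) i' - pv g (B ++ Y2) i) := by
  by_contra hcon
  push Not at hcon
  exact h.ntx ⟨i', i, hi', hi, d1, d2, h.h1.tE hcu hi' d1, h.h2.tE hcu hi d2, hcon⟩

/-- the front of the tip of A -/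
lemma frA (h : PCtx j a m c u e k A Y1 g B Y2) {x : Pt} (hx : (∃ i, i ≤ A.length ∧ x = vx oo up (A ++ Y1) i) ∨
    ∃ i, i ≤ B.length + 1 ∧ x = pv g (B ++ Y2) i) (hp : 0 < ip (x - en A) (de A)) : (2 : ℤ) ^ (j - a) ≤ hn (x - en A) := by
  have cE : ((2 ^ (j - a) : ℕ) : ℤ) = 2 ^ (j - a) := by push_cast; rfl
  rw [← cE]
  rcases hx with ⟨i, hi, rfl⟩ | ⟨i, hi, rfl⟩
  · rw [vx_append (by omega)] at hp ⊢
    exact h.fA i hi hp
  · refine freeO_front h.fAB ⟨i, ?_, rfl⟩ hp
    have := h.h2.ne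
    rw [List.length_append]
    omega

/-- the front of the tip of B -/
lemma frB (h : PCtx j a m c u e k A Y1 g B Y2) {x : Pt} (hx : (∃ i, i ≤ A.length ∧ x = vx oo up (A ++ Y1) i) ∨
    ∃ i, i ≤ B.length + 1 ∧ x = pv g (B ++ Y2) i) (hz : x ≠ pe g B + pd g B) (hp : 0 < ip (x - pe g B) (pd g B)) :
    (2 : ℤ) ^ (j - a) ≤ hn (x - pe g B) := by
  have cE : ((2 ^ (j - a) : ℕ) : ℤ) = 2 ^ (j - a) := by push_cast; rfl
  rw [← cE]
  rcases hx with ⟨i, hi, rfl⟩ | ⟨i, hi, rfl⟩
  · have e1 : pv (gi g) (A ++ Y1) i - en B = mulE (conjE g.2) (vx oo up (A ++ Y1) i - pe g B) := by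
      have e2 : pe g B = g.1 + mulE g.2 (en B) := rfl
      unfold pv gi
      rw [e2, mulE_sub, mulE_add, conj_mulP h.ng]
      abel
    have e3 : ip (pv (gi g) (A ++ Y1) i - en B) (de B) = ip (vx oo up (A ++ Y1) i - pe g B) (pd g B) := by
      have hc : nrm (conjE g.2) = 1 := by rw [nrm_conjE, h.ng]
      rw [e1, ← ip_rotP hc (vx oo up (A ++ Y1) i - pe g B) (pd g B)]
      congr 1
      exact (conj_mulP h.ng _).symm
    have e4 : hn (pv (gi g) (A ++ Y1) i - en B) = hn (vx oo up (A ++ Y1) i - pe g B) := by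
      rw [e1, hn_mulE (by rw [nrm_conjE, h.ng])]
    rw [← e4]
    refine freeO_front h.fBA ⟨i, ?_, rfl⟩ (by rw [e3]; exact hp)
    rw [List.length_append]
    omega
  · have hi2 : i ≤ B.length := by
      by_contra hcon
      apply hz
      rw [show i = B.length + 1 by omega, pv_appP g le_rfl, pv_exit]
    have e1 : pv g (B ++ Y2) i - pe g B = mulE g.2 (vx oo up B i - en B) := by
      rw [pv_appP g (by omega)]
      exact pv_subP g B i B.length
    have e2 : pd g B = mulE g.2 (de B) := rfl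
    rw [e1, hn_mulE h.ng]
    rw [e1, e2, ip_rotP h.ng] at hp
    exact h.fB i hi2 hp

/-- **the corridor of a pair of good cuts** -/
theorem midV (h : PCtx j a m c u e k A Y1 g B Y2) (hak : a + 6 ≤ k) (hke : k ≤ e) (hmc : m + 8 ≤ c) (hcu : c ≤ u)
    (hej : e + 4 ≤ j) {v z : Pt} (hv : v ∈ dirs) (hvu : mulE v (-pd g B) = up) (hz : z = pe g B + pd g B) :
    MidV a m c e j ((fun p => mulE v (p - z)) '' (vo A ∪ ob g B ∪ {z})) (mulE v (en A - z)) (mulE v (de A)) := by
  have hv1 : nrm v = 1 := mem_dirs.1 hv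
  have hg1 := h.ng
  have hl2 := h.h2.ne
  have hdA : de A ∈ dirs := de_mem A
  have hdB : pd g B ∈ dirs := by
    rw [mem_dirs]
    unfold pd
    rw [nrm_mulE, hg1, one_mul]
    exact mem_dirs.1 (de_mem B)
  -- the arms
  obtain ⟨n, hn'⟩ : ∃ n : Bool → ℕ, n = fun s => bif s then A.length else B.length + 1 := ⟨_, rfl⟩
  obtain ⟨pt, hpt⟩ : ∃ pt : Bool → ℕ → Pt, pt = fun s i => bif s then vx oo up (A ++ Y1) i else pv g (B ++ Y2) i :=
    ⟨_, rfl⟩
  obtain ⟨tp, htp⟩ : ∃ tp : Bool → Pt, tp = fun s => bif s then en (A ++ Y1) else pe g (B ++ Y2) := ⟨_, rfl⟩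
  obtain ⟨δ, hδ⟩ : ∃ δ : Bool → ℕ → ℤ, δ = fun s i => bif s then dz (A ++ Y1) i else dz (B ++ Y2) i := ⟨_, rfl⟩
  have nT : n true = A.length := by rw [hn']; rfl
  have nF : n false = B.length + 1 := by rw [hn']; rfl
  have ptT : ∀ i, pt true i = vx oo up (A ++ Y1) i := fun i => by rw [hpt]; rfl
  have ptF : ∀ i, pt false i = pv g (B ++ Y2) i := fun i => by rw [hpt]; rfl
  have tpT : tp true = en (A ++ Y1) := by rw [htp]; rfl
  have tpF : tp false = pe g (B ++ Y2) := by rw [htp]; rfl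
  have dT : ∀ i, δ true i = dz (A ++ Y1) i := fun i => by rw [hδ]; rfl
  have dF : ∀ i, δ false i = dz (B ++ Y2) i := fun i => by rw [hδ]; rfl
  have hlT : (A ++ Y1).length = A.length + Y1.length := List.length_append
  have hlF : (B ++ Y2).length = B.length + Y2.length := List.length_append
  have δeq : ∀ s i, δ s i = hn (pt s i - tp s) := by
    intro s i
    cases s
    · rw [dF, ptF, tpF, dz_pv hg1]
    · rw [dT, ptT, tpT]
      rfl
  have pE : (2 : ℤ) ^ j ≤ 2 ^ (j + m) := pow_le_pow_right₀ (by norm_num) (by omega)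
  have pj : (2 : ℤ) ^ 4 ≤ 2 ^ j := pow_le_pow_right₀ (by norm_num) (by omega)
  have t1 := h.tip1
  have t2 := h.tip2
  have gap := h.gap
  have tpd : ∀ s s', hn (tp s - tp s') ≤ 2 ^ j := by
    have h0 : (0 : ℤ) ≤ 2 ^ j := by positivity
    have hz0 : hn (0 : Pt) = 0 := by decide
    intro s s'
    cases s <;> cases s'
    · rw [sub_self, hz0]; exact h0
    · rw [tpT, tpF, hn_sub_comm]; exact gap
    · rw [tpT, tpF]; exact gap
    · rw [sub_self, hz0]; exact h0
  have tA : ∀ s, hn (en A - tp s) ≤ 4 * 2 ^ (j + m) := by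
    intro s
    have h3 := hn_tri (en A) (tp true) (tp s)
    have h4 := tpd true s
    rw [tpT] at h3 h4
    linarith
  have hzt : hn (en A - z) ≤ 7 * 2 ^ (j + m) + 2 := by
    have h3 := hn_tri (en A) (tp false) (pe g B)
    have h5 := hn_sub (en A - pe g B) (pd g B)
    rw [hn_step hdB] at h5
    have h4 := tA false
    rw [tpF] at h3 h4
    rw [hn_sub_comm (pe g (B ++ Y2))] at h3
    rw [hz, ← sub_sub]
    linarith
  have alp : ∀ p q : Pt, hn (mulE v (p - en A) - mulE v (q - en A)) = hn (p - q) := by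
    intro p q
    rw [← mulE_sub, hn_mulE hv1, sub_sub_sub_cancel_right]
  have alp0 : ∀ p : Pt, hn (mulE v (p - en A)) = hn (p - en A) := fun p => hn_mulE hv1 _
  -- the points of the arms
  have cls : ∀ s i, i ≤ n s → (∃ i', i' ≤ A.length ∧ pt s i = vx oo up (A ++ Y1) i') ∨
      ∃ i', i' ≤ B.length + 1 ∧ pt s i = pv g (B ++ Y2) i' := by
    intro s i hi
    cases s
    · rw [nF] at hi
      exact Or.inr ⟨i, hi, ptF i⟩
    · rw [nT] at hi
      exact Or.inl ⟨i, hi, ptT i⟩
  have hmem : ∀ x, x ∈ vo A ∪ ob g B ∪ {z} → ∃ s i, i ≤ n s ∧ x = pt s i := by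
    rintro x ((⟨i, hi, rfl⟩ | ⟨i, hi, rfl⟩) | hx)
    · exact ⟨true, i, by rw [nT]; exact hi, by rw [ptT, vx_append (by omega)]⟩
    · exact ⟨false, i, by rw [nF]; omega, by rw [ptF, pv_appP g (by omega)]⟩
    · refine ⟨false, B.length + 1, by rw [nF], ?_⟩
      rw [Set.mem_singleton_iff.1 hx, ptF, pv_appP g le_rfl, pv_exit, hz]
  have memV : ∀ s i, i ≤ n s → pt s i ∈ vo A ∪ ob g B ∪ {z} := by
    intro s i hi
    cases s
    · rw [nF] at hi
      rcases Nat.lt_or_ge B.length i with h3 | h3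
      · right
        rw [Set.mem_singleton_iff, show i = B.length + 1 by omega, ptF, pv_appP g le_rfl, pv_exit, hz]
      · exact Or.inl (Or.inr ⟨i, h3, by rw [ptF, pv_appP g (by omega)]⟩)
    · rw [nT] at hi
      exact Or.inl (Or.inl ⟨i, hi, by rw [ptT, vx_append (by omega)]⟩)
  have cX : ((2 ^ (j - a) : ℕ) : ℤ) = 2 ^ (j - a) := by push_cast; rfl
  -- the two tips are not near each other
  have dAA : δ true A.length ≤ 3 * 2 ^ (j + m) := by
    rw [δeq, ptT, tpT, vx_append (by omega)]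
    exact t1
  have dBB : δ false (B.length + 1) ≤ 3 * 2 ^ (j + m) + 2 := by
    rw [δeq, ptF, tpF, pv_appP g le_rfl, pv_exit]
    have h3 := hn_add (pe g B - pe g (B ++ Y2)) (pd g B)
    rw [hn_step hdB, sub_add_eq_add_sub] at h3
    linarith
  have pc : 16 * (2 : ℤ) ^ (j + m) ≤ 2 ^ (j + c) := by
    have h3 : (2 : ℤ) ^ (j + m + 4) ≤ 2 ^ (j + c) := pow_le_pow_right₀ (by norm_num) (by omega)
    rw [pow_add] at h3
    linarith
  have hfar : (2 : ℤ) ^ (j - e) < hn (en A - z) := by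
    have h3 := h.n2 hcu (i := B.length + 1) (i' := A.length) (by omega) (by omega) (by rw [← dF]; linarith)
      (by rw [← dT]; linarith)
    rw [pv_appP g le_rfl, pv_exit, ← hz, vx_append (by omega)] at h3
    exact h3
  -- the fields
  refine ⟨⟨z, Or.inr rfl, ?_⟩, ⟨en A, Or.inl (Or.inl ⟨A.length, le_rfl, rfl⟩), rfl⟩, ?_, ?_, ?_, ?_, ?_, ?_⟩
  · show mulE v (z - z) = 0
    rw [sub_self]
    unfold mulE
    simp
  · rw [mem_dirs, nrm_mulE, hv1, one_mul]
    exact mem_dirs.1 hdA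
  · rw [hn_mulE hv1, pow_add _ _ 3]
    linarith
  · rw [hn_mulE hv1]
    exact hfar
  · rintro p ⟨x, hx, rfl⟩ hp
    obtain ⟨s, i, hi, rfl⟩ := hmem x hx
    have e1 : mulE v (pt s i - z) - mulE v (en A - z) = mulE v (pt s i - en A) := by
      rw [← mulE_sub, sub_sub_sub_cancel_right]
    simp only at hp ⊢
    rw [e1] at hp ⊢
    rw [ip_rotP hv1] at hp
    rw [hn_mulE hv1]
    have := h.frA (cls s i hi) hp
    linarith
  · rintro p ⟨x, hx, rfl⟩ hp0 hp
    obtain ⟨s, i, hi, rfl⟩ := hmem x hx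
    have e1 : mulE v (pt s i - z) - up = mulE v (pt s i - pe g B) := by
      rw [← hvu, ← mulE_sub, hz]
      congr 1
      abel
    simp only at hp0 hp ⊢
    have hp' : ip (mulE v (pt s i - z) - up) up < 0 := by
      first
        | exact hp
        | (rw [ip_sub', ip_self_dir upd']; linarith)
    have hp2 : 0 < ip (pt s i - pe g B) (pd g B) := by
      have h5 : ip (mulE v (pt s i - pe g B)) (mulE v (-pd g B)) < 0 := by rw [hvu, ← e1]; exact hp'
      rw [ip_rotP hv1, ip_neg_right] at h5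
      linarith
    have hxz : pt s i ≠ pe g B + pd g B := by
      intro h3
      apply hp0
      rw [h3, hz, sub_self]
      unfold mulE
      simp
    have h3 := h.frB (cls s i hi) hxz hp2
    have h4 := hn_add (pt s i - z) (pd g B)
    rw [hn_step hdB, show pt s i - z + pd g B = pt s i - pe g B by rw [hz]; abel] at h4
    rw [hn_mulE hv1]
    linarith
  · intro q w r hq hr hrq hw1 hw2
    have hw1' : (2 : ℤ) ^ (j - a) ≤ 8 * w := by exact_mod_cast hw1
    have hw2' : 8 * (w : ℤ) ≤ 3 * 2 ^ (j - a) := by exact_mod_cast hw2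
    have key := chain_gen (j := j) (a := a) (m := m) (c := c) (e := e) (k := k) (n := n)
      (α := fun s i => mulE v (pt s i - en A)) (δ := δ) (t := mulE v (en A - z)) (d := mulE v (de A)) hak hke hmc hej hq hr
      (by exact_mod_cast hrq) hw2 (by rw [mem_dirs, nrm_mulE, hv1, one_mul]; exact mem_dirs.1 hdA) ?_ ?_ ?_ ?_ ?_ ?_ ?_ ?_ ?_
    · refine Relation.ReflTransGen.mono ?_ _ _ key
      rintro f f' ⟨g1, g2, g3⟩
      refine ⟨g1, by push_cast; exact g2, ?_⟩
      rintro p ⟨x, hx, rfl⟩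
      obtain ⟨s, i, hi, rfl⟩ := hmem x hx
      have e1 : mulE v (pt s i - z) - mulE v (en A - z) = mulE v (pt s i - en A) := by
        rw [← mulE_sub, sub_sub_sub_cancel_right]
      rw [e1]
      exact g3 s i hi
    · -- steps
      intro s i hi
      rw [alp]
      cases s
      · rw [ptF, ptF, pv_subP, hn_mulE hg1, vx_succ, add_sub_cancel_left, hn_step (dx_mem (by decide) _ _)]
      · rw [ptT, ptT, vx_succ, add_sub_cancel_left, hn_step (dx_mem (by decide) _ _)]
    · -- near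
      intro s i hi
      rw [alp0, δeq]
      have h3 := hn_tri (pt s i) (en A) (tp s)
      have h4 := hn_tri (pt s i) (tp s) (en A)
      rw [hn_sub_comm (tp s)] at h4
      have h5 := tA s
      constructor <;> linarith
    · -- two distances
      intro s i s' i' hi hi'
      rw [alp, δeq, δeq]
      have h3 := hn_tri (pt s' i') (pt s i) (tp s')
      have h4 := hn_tri (pt s i) (tp s) (tp s')
      rw [hn_sub_comm (pt s' i') (pt s i)] at h3
      have h5 := tpd s s'
      linarith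
    · rw [hn_mulE hv1]
      linarith
    · intro s i hi
      have e1 : mulE v (pt s i - en A) - (w : ℤ) • mulE v (de A) = mulE v (pt s i - en A - (w : ℤ) • de A) := by
        rw [mulE_sub v (pt s i - en A), G3.mulE_smul]
      rw [e1, hn_mulE hv1]
      have := front_pt (x := pt s i) (τ := en A) hdA hw1' hw2' (h.frA (cls s i hi))
      linarith
    · intro s i hi
      have e1 : mulE v (pt s i - en A) - (-mulE v (en A - z) - (w : ℤ) • up) =
          mulE v (pt s i - z - (w : ℤ) • pd g B) := by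
        have e2 : pt s i - z = (pt s i - en A) + (en A - z) := by abel
        rw [← hvu, mulE_sub v (pt s i - z), G3.mulE_smul, mulE_neg, e2, mulE_add, smul_neg]
        abel
      rw [e1, hn_mulE hv1]
      by_cases hxz : pt s i = pe g B + pd g B
      · rw [hxz, hz, sub_self, zero_sub, hn_neg, mid_hn_smul_dir hdB]
        linarith
      · have h3 := front_pt (x := pt s i) (τ := pe g B) hdB hw1' hw2' (h.frB (cls s i hi) hxz)
        have h4 := hn_add (pt s i - z - (w : ℤ) • pd g B) (pd g B)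
        rw [hn_step hdB, show pt s i - z - (w : ℤ) • pd g B + pd g B = pt s i - pe g B - (w : ℤ) • pd g B by
          rw [hz]; abel] at h4
        linarith
    · -- self touches
      intro s i i' hii hi' d1 d2 hd k' hk1 hk2
      rw [alp] at hd ⊢
      have hk0 : (0 : ℤ) < 2 ^ (j - k) := by positivity
      cases s
      · rw [nF] at hi'
        rw [dF] at d1 d2
        rw [ptF, ptF, pv_subP, hn_mulE hg1] at hd ⊢
        have := h.h2.n1 hcu hii (by omega) d1 d2 hd hk1 hk2
        linarith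
      · rw [nT] at hi'
        rw [dT] at d1 d2
        rw [ptT, ptT] at hd ⊢
        have := h.h1.n1 hcu hii (by omega) d1 d2 hd hk1 hk2
        linarith
    · -- the two arms
      intro i i' hi hi' d1 d2
      rw [nF] at hi
      rw [nT] at hi'
      rw [dF] at d1
      rw [dT] at d2
      rw [alp, ptF, ptT, hn_sub_comm]
      exact h.n2 hcu (by omega) (by omega) d1 d2
    · -- extra strands
      intro s i k' hk hi h3 h4
      cases s
      · rw [nF] at hi
        rw [dF] at h3 h4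
        exact h.h2.es hmc hcu hk (by omega) h3 h4
      · rw [nT] at hi
        rw [dT] at h3 h4
        exact h.h1.es hmc hcu hk (by omega) h3 h4

/-- the second word keeps away from the tip of A -/
theorem nt1 (h : PCtx j a m c u e k A Y1 g B Y2) (hmc : m + 8 ≤ c) (hcu : c ≤ u) {p : Pt} (hp : p ∈ ob g B) :
    2 ^ (j - e) < hn (p - en A) := by
  obtain ⟨i, hi, rfl⟩ := hp
  have pE : (2 : ℤ) ^ j ≤ 2 ^ (j + m) := pow_le_pow_right₀ (by norm_num) (by omega)
  have pe' : (2 : ℤ) ^ (j - e) ≤ 2 ^ j := pow_le_pow_right₀ (by norm_num) (by omega)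
  have pc : 16 * (2 : ℤ) ^ (j + m) ≤ 2 ^ (j + c) := by
    have h3 : (2 : ℤ) ^ (j + m + 4) ≤ 2 ^ (j + c) := pow_le_pow_right₀ (by norm_num) (by omega)
    rw [pow_add] at h3
    linarith
  have hl1 : A.length ≤ (A ++ Y1).length := by rw [List.length_append]; omega
  have hl2 : i ≤ (B ++ Y2).length := by rw [List.length_append]; omega
  have hj0 : (0 : ℤ) < 2 ^ j := by positivity
  rcases le_or_gt (dz (B ++ Y2) i) (2 ^ (j + c)) with hc | hc
  · have h3 := h.n2 hcu (i := i) (i' := A.length) hl2 hl1 hc (by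
      unfold dz
      rw [vx_append (by omega)]
      exact h.tip1.trans (by linarith))
    rw [pv_appP g (by omega), vx_append (by omega), hn_sub_comm] at h3
    exact h3
  · rw [dz_pv h.ng, pv_appP g (by omega)] at hc
    have t1 := h.tip1
    have gap := h.gap
    have h4 := hn_tri (pv g B i) (en A) (pe g (B ++ Y2))
    have h5 := hn_tri (en A) (en (A ++ Y1)) (pe g (B ++ Y2))
    linarith

/-- the first word keeps away from the tip of B -/
theorem nt2 (h : PCtx j a m c u e k A Y1 g B Y2) (hmc : m + 8 ≤ c) (hcu : c ≤ u) {p : Pt} (hp : p ∈ vo A) :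
    2 ^ (j - e) < hn (p - pe g B) := by
  obtain ⟨i, hi, rfl⟩ := hp
  have pE : (2 : ℤ) ^ j ≤ 2 ^ (j + m) := pow_le_pow_right₀ (by norm_num) (by omega)
  have pe' : (2 : ℤ) ^ (j - e) ≤ 2 ^ j := pow_le_pow_right₀ (by norm_num) (by omega)
  have pc : 16 * (2 : ℤ) ^ (j + m) ≤ 2 ^ (j + c) := by
    have h3 : (2 : ℤ) ^ (j + m + 4) ≤ 2 ^ (j + c) := pow_le_pow_right₀ (by norm_num) (by omega)
    rw [pow_add] at h3
    linarith
  have hl1 : i ≤ (A ++ Y1).length := by rw [List.length_append]; omega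
  have hl2 : B.length ≤ (B ++ Y2).length := by rw [List.length_append]; omega
  have hj0 : (0 : ℤ) < 2 ^ j := by positivity
  rcases le_or_gt (dz (A ++ Y1) i) (2 ^ (j + c)) with hc | hc
  · have h3 := h.n2 hcu (i := B.length) (i' := i) hl2 hl1 (by
      rw [dz_pv h.ng, pv_appP g (by omega)]
      exact h.tip2.trans (by linarith)) hc
    rw [pv_appP g (by omega), vx_append (by omega)] at h3
    exact h3
  · have hc' : 2 ^ (j + c) < hn (vx oo up A i - en (A ++ Y1)) := by
      have e1 : dz (A ++ Y1) i = hn (vx oo up A i - en (A ++ Y1)) := by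
        unfold dz
        rw [vx_append (by omega)]
      rwa [e1] at hc
    have t2 := h.tip2
    have gap := h.gap
    have h4 := hn_tri (vx oo up A i) (pe g B) (en (A ++ Y1))
    have h5 := hn_tri (pe g B) (pe g (B ++ Y2)) (en (A ++ Y1))
    rw [hn_sub_comm (pe g (B ++ Y2))] at h5
    linarith

end PCtx

/-- **a good pair with a pair of good cuts** -/
theorem pctx_of {R j a m c u e k : ℕ} {η κ : ℝ} (hη : 0 < η) {A Y1 : List Bool} {g : Pt × Pt} {B Y2 : List Bool}
    (h : ((A ++ Y1, (g, B ++ Y2)) : PT) ∈ GP R j η κ a m c u e k) (hc : CutPP j a m η A Y1 g B Y2) :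
    PCtx j a m c u e k A Y1 g B Y2 := by
  obtain ⟨⟨-, -, hF, -, hgap, -, -⟩, ⟨o1, -, e1, e2, a1, a2, n1⟩, ⟨o2, -, e3, e4, a3, a4, n2⟩, hx⟩ := h
  obtain ⟨⟨g1, i1, A', hA', f1, f2⟩, g2, i2, B', hB', f3, f4⟩ := hc
  have eA : A = A' := List.append_cancel_right hA'
  have eB : B = B' := List.append_cancel_right hB'
  subst eA
  subst eB
  exact ⟨hF.1, hgap, ⟨o1, e1, e2, a1, a2, n1, i1, ne_of_gt hη g1⟩, ⟨o2, e3, e4, a3, a4, n2, i2, ne_of_gt hη g2⟩, Fe_of f1,
    Fe_of f3, f2, f4, hx⟩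

end RMP

end HexObs
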