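import Pool.Agent.RMP.JnP
import Pool.Agent.RMP.MidP

/-!
# (RM), row P5 closed (helpers 39, 74): good pairs are joinable at every pair of good cuts
-/

set_option autoImplicit false

namespace HexObs

namespace RMP

open Finset TS SDN HexObs.SIM NTA TIP ARM TIW

theorem midPS : MidPS := by
  intro η κ a m hη hκ
  refine ⟨a + 6, m + 8, le_rfl, fun c u e hc hcu hke => ⟨e + 4, fun j hj R hR A Y1 g B Y2 hG hC v hv hvu => ?_⟩⟩
  have h := (pctx_of hη hG hC).midV le_rfl hke hc hcu (by omega) hv hvu rfl
  have e1 : VV A g B = vo A ∪ ob g B ∪ {pe g B + pd g B} := by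
    rw [Set.union_singleton]
    rfl
  rw [e1]
  exact h

/-- **row P5** -/
theorem joinP : JoinP := joinP_of midPS

end RMP

end HexObs
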