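import Pool.Agent.RMP.GlueP
import Pool.Agent.RMP.JoinP
import Pool.Agent.RMP.JMassP
import Pool.Agent.ARM.T1

/-!
# RMP, row P6 closed (51, 39, 74, 87): the mass of the good pairs
-/

set_option autoImplicit false

namespace HexObs

namespace RMP

/-- **row P6** -/
theorem goodP : GoodP := goodP_of ARM.yMassW joinP jMassP

end RMP

end HexObs
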