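import Pool.Agent.RMP.NFPZ
import Pool.Agent.RMP.ProdB
import Pool.Agent.ARM.NoRich2
import Pool.Agent.TIP.GeoZ

/-!
# RM, row NoRichP (helper29): pairs whose first word has no rich factor

* **`noRP : RegZ κ C → NoRP κ C`** : product bound and `ARM.nz_mass`;
* **`nFP : NFP`** : row P2b without hypotheses.
-/

set_option autoImplicit false

namespace HexObs

namespace RMP

open Finset TS SDN HexObs.SIM NTA TIP ARM

open scoped ENNReal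

/-- **row NoRichP** -/
theorem noRP {κ : ℝ} {C : ℕ} (hR : RegZ κ C) : NoRP κ C := by
  intro ε hε
  obtain ⟨C1, hC1, h1⟩ := gp_P3_prod
  obtain ⟨C2, b1, hC2, h2⟩ := nz_mass hR confSt
  obtain ⟨b2, hb2⟩ : ∃ b2 : ℕ, C1 * C2 / ε < (2 : ℝ) ^ b2 := pow_unbounded_of_one_lt _ (by norm_num)
  obtain ⟨b0, hb0⟩ : ∃ b0 : ℕ, b0 = b1 + b2 := ⟨_, rfl⟩
  have hb3 : C1 * C2 ≤ (2 : ℝ) ^ b0 * ε := by
    rw [div_lt_iff₀ hε] at hb2
    refine hb2.le.trans (mul_le_mul_of_nonneg_right ?_ hε.le)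
    exact pow_le_pow_right₀ (by norm_num) (by omega)
  refine ⟨b0, fun R j hj hR' => ?_⟩
  refine (h1 R j (Nz κ C j)).trans ?_
  have h3 : gf {L | L ∈ Nz κ C j ∧ L ∈ SA ∧ ∀ s, s ≤ L.length → dz L s ≤ R + 2 ^ j} ≤
      ENNReal.ofReal (C2 * (2 : ℝ) ^ ((43 / 24 : ℝ) * (j : ℝ))) := by
    refine (gf_mono ?_).trans ((h2 0 j (by omega)).trans (ENNReal.ofReal_le_ofReal (le_of_eq ?_)))
    · rintro L ⟨l1, l2, -⟩
      exact ⟨l2, Nat.zero_le _, l1⟩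
    · unfold pr
      have hml := ml_pos j
      rw [Nat.cast_zero, max_eq_right hml.le, div_self hml.ne', Real.one_rpow, mul_one]
  refine (mul_le_mul' le_rfl h3).trans ?_
  rw [← ENNReal.ofReal_mul (by positivity)]
  refine ENNReal.ofReal_le_ofReal ?_
  have hjR : 2 ^ j ≤ R := le_trans (Nat.pow_le_pow_right (by norm_num) (by omega)) hR'
  have hR0 : (0 : ℝ) < R := by
    have : 0 < R := lt_of_lt_of_le (by positivity) hjR
    exact_mod_cast this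
  rw [max_eq_left (by exact_mod_cast hjR), pr3_eq hjR, four_pow_rpow]
  -- the power of the size
  obtain ⟨w, hw⟩ : ∃ w : ℝ, w = (R : ℝ) ^ (43 / 24 : ℝ) := ⟨_, rfl⟩
  have hw0 : 0 < w := by rw [hw]; positivity
  have e1 : (R : ℝ) ^ (25 / 8 : ℝ) = (R : ℝ) ^ (4 / 3 : ℝ) * w := by
    rw [hw, ← Real.rpow_add hR0]
    norm_num
  have e2 : (2 : ℝ) ^ ((4 / 3 : ℝ) * (j : ℝ)) * (2 : ℝ) ^ b0 ≤ (R : ℝ) ^ (4 / 3 : ℝ) := by
    have h3 : ((2 : ℝ) ^ (b0 + j)) ≤ R := by exact_mod_cast hR'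
    calc (2 : ℝ) ^ ((4 / 3 : ℝ) * (j : ℝ)) * (2 : ℝ) ^ b0 ≤
          (2 : ℝ) ^ ((4 / 3 : ℝ) * (j : ℝ)) * (2 : ℝ) ^ ((4 / 3 : ℝ) * (b0 : ℝ)) := by
            refine mul_le_mul_of_nonneg_left ?_ (by positivity)
            rw [← Real.rpow_natCast]
            refine Real.rpow_le_rpow_of_exponent_le (by norm_num) ?_
            have : (0 : ℝ) ≤ b0 := Nat.cast_nonneg b0
            linarith
      _ = ((2 : ℝ) ^ (b0 + j)) ^ (4 / 3 : ℝ) := by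
            rw [two_pow_rpow, ← Real.rpow_add (by norm_num)]
            congr 1
            push_cast
            ring
      _ ≤ (R : ℝ) ^ (4 / 3 : ℝ) := Real.rpow_le_rpow (by positivity) h3 (by norm_num)
  have e4 : (2 : ℝ) ^ ((2 : ℝ) * (j : ℝ)) * (2 : ℝ) ^ ((43 / 24 : ℝ) * (j : ℝ)) =
      (2 : ℝ) ^ ((59 / 24 : ℝ) * (j : ℝ)) * (2 : ℝ) ^ ((4 / 3 : ℝ) * (j : ℝ)) := by
    rw [← Real.rpow_add (by norm_num), ← Real.rpow_add (by norm_num)]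
    congr 1
    ring
  rw [e1, ← hw]
  obtain ⟨y, hy⟩ : ∃ y : ℝ, y = (2 : ℝ) ^ ((59 / 24 : ℝ) * (j : ℝ)) := ⟨_, rfl⟩
  obtain ⟨z, hz⟩ : ∃ z : ℝ, z = (2 : ℝ) ^ ((4 / 3 : ℝ) * (j : ℝ)) := ⟨_, rfl⟩
  have hy0 : 0 < y := by rw [hy]; positivity
  have hz0 : 0 < z := by rw [hz]; positivity
  rw [← hz] at e2 e4
  rw [← hy] at e4 ⊢
  calc C1 * ((2 : ℝ) ^ ((2 : ℝ) * (j : ℝ)) * w) * (C2 * (2 : ℝ) ^ ((43 / 24 : ℝ) * (j : ℝ)))
      = (C1 * C2) * (((2 : ℝ) ^ ((2 : ℝ) * (j : ℝ)) * (2 : ℝ) ^ ((43 / 24 : ℝ) * (j : ℝ))) * w) := by ring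
    _ = (C1 * C2) * ((y * z) * w) := by rw [e4]
    _ ≤ ((2 : ℝ) ^ b0 * ε) * ((y * z) * w) := mul_le_mul_of_nonneg_right hb3 (by positivity)
    _ = ε * (y * ((z * 2 ^ b0) * w)) := by ring
    _ ≤ ε * (y * ((R : ℝ) ^ (4 / 3 : ℝ) * w)) := by
        refine mul_le_mul_of_nonneg_left ?_ hε.le
        refine mul_le_mul_of_nonneg_left ?_ hy0.le
        exact mul_le_mul_of_nonneg_right e2 hw0.le

/-- **row P2b**, no hypothesis -/
theorem nFP : NFP := by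
  obtain ⟨κ, hκ, C, -, hR⟩ := regZ_all
  exact nFP_r hκ hR (noRP hR)

end RMP

end HexObs
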