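import Pool.Agent.ARM.NtG

/-!
# RM, row P4 (helper65): near touches of a word with another word: the sum over a bridge

The obstacle is a word W in a frame (c, p0): vertices `p0 + mulE c (vx oo up W k)`.

* `xboundO` : the mass of the high bridges Z between A and B such that A ++ (Z ++ B) is disjoint from the obstacle and has a
  near touch with it behind Z at a good point of the obstacle;
* `ynO` : the mass of the parts Y behind A with many splittings Y = V ++ B, V a low bridge, B behind a good tip, and a near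
  touch of B with the obstacle.
-/

set_option autoImplicit false

namespace HexObs

namespace RMP

open Finset TS SDN HexObs.SIM ARM

open scoped ENNReal

/-- frames that preserve the lattice -/
def FrO (c p0 : Pt) : Prop := c ∈ dirs ∧ ((cl c = 1 ∧ cl p0 = 0) ∨ (cl c = 2 ∧ cl p0 = 2))

/-- the obstacle -/
def oV (c p0 : Pt) (W : List Bool) (k : ℕ) : Pt := p0 + mulE c (vx oo up W k)

/-- the word t does not meet the obstacle -/
def DjO (c p0 : Pt) (W t : List Bool) : Prop := ∀ i, i ≤ W.length → ∀ k, k ≤ t.length → oV c p0 W i ≠ vx oo up t k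

/-- the word t has a near touch behind the vertex n2 with the obstacle, at a good point of the obstacle -/
def NearO (S d : ℕ) (ρ R : ℕ → ℕ) (c p0 : Pt) (W : List Bool) (n2 : ℕ) (t : List Bool) : Prop :=
  ∃ i e j, i ≤ W.length ∧ n2 ≤ e ∧ e ≤ t.length ∧ n2 ≤ j ∧ j ≤ t.length ∧ TIW.hn (oV c p0 W i - vx oo up t j) ≤ d ∧
    (∀ s, s < S → 3 * ((R s : ℕ) : ℤ) < TIW.hn (vx oo up t e - vx oo up t j)) ∧
    ∀ s, s < S → GoodPt (vx oo up W) W.length (vx oo up W i) (ρ s) (R s)

/-- back to the frame of the obstacle -/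
def bk (c p0 p : Pt) : Pt := mulE (conjE c) (p - p0)

lemma conjO_mul {c : Pt} (hc : c ∈ dirs) (p : Pt) : mulE (conjE c) (mulE c p) = p := by
  rw [mulE_assoc, mulE_comm (conjE c) c, mulE_conjE, mem_dirs.1 hc, mulE_one]

lemma mulO_conj {c : Pt} (hc : c ∈ dirs) (p : Pt) : mulE c (mulE (conjE c) p) = p := by
  rw [mulE_assoc, mulE_conjE, mem_dirs.1 hc, mulE_one]

lemma conjO_mem {c : Pt} (hc : c ∈ dirs) : conjE c ∈ dirs := by
  rw [mem_dirs, nrm_conjE]
  exact mem_dirs.1 hc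

lemma bk_oV {c p0 : Pt} (hc : c ∈ dirs) (W : List Bool) (k : ℕ) : bk c p0 (oV c p0 W k) = vx oo up W k := by
  unfold bk oV
  rw [add_sub_cancel_left, conjO_mul hc]

lemma hn_bk {c p0 : Pt} (hc : c ∈ dirs) (p q : Pt) : TIW.hn (bk c p0 p - bk c p0 q) = TIW.hn (p - q) := by
  unfold bk
  rw [← mulE_sub, sub_sub_sub_cancel_right, hn_mulE' (conjO_mem hc)]

lemma bk_inj {c p0 : Pt} (hc : c ∈ dirs) {p q : Pt} (h : bk c p0 p = bk c p0 q) : p = q := by
  have h1 := mulE_inj (mem_dirs.1 (conjO_mem hc)) h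
  exact sub_left_injective h1

lemma clO_conj {c : Pt} : cl (conjE c) = cl c := by
  unfold cl conjE
  have h3 : (3 : ZMod 3) = 0 := three_eq
  push_cast
  linear_combination (c.2 : ZMod 3) * h3

lemma AdP_bk {c p0 p q : Pt} (h : FrO c p0) (hpq : AdP p q) : AdP (bk c p0 p) (bk c p0 q) := by
  obtain ⟨hc, h⟩ := h
  have e1 : bk c p0 q - bk c p0 p = mulE (conjE c) (q - p) := by
    unfold bk
    rw [← mulE_sub]
    congr 1
    abel
  have e2 : bk c p0 p - bk c p0 q = mulE (conjE c) (p - q) := by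
    unfold bk
    rw [← mulE_sub]
    congr 1
    abel
  have m1 : ∀ d ∈ dirs, mulE (conjE c) d ∈ dirs := fun d hd => by
    rw [mem_dirs, nrm_mulE, mem_dirs.1 (conjO_mem hc), mem_dirs.1 hd]
    norm_num
  have c1 : ∀ x, cl (bk c p0 x) = cl c * (cl x - cl p0) := fun x => by
    unfold bk
    rw [cl_mulE, clO_conj, cl_sub]
  unfold AdP
  rw [e1, e2, c1, c1, cl_mulE, cl_mulE, clO_conj]
  have t4 : (2 * 2 : ZMod 3) = 1 := by decide
  rcases h with ⟨h1, h2⟩ | ⟨h1, h2⟩
  · rw [h1, h2]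
    rcases hpq with ⟨a1, a2, a3⟩ | ⟨a1, a2, a3⟩
    · left
      exact ⟨by rw [a1]; ring, m1 _ a2, by rw [a3]; ring⟩
    · right
      exact ⟨by rw [a1]; ring, m1 _ a2, by rw [a3]; ring⟩
  · rw [h1, h2]
    rcases hpq with ⟨a1, a2, a3⟩ | ⟨a1, a2, a3⟩
    · right
      have a4 : cl q = 2 := by
        have := cl_sub q p
        rw [a3, a1, sub_zero] at this
        exact this.symm
      refine ⟨by rw [a4]; decide, ?_, ?_⟩
      · rw [show p - q = -(q - p) by abel, mulE_neg]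
        exact neg_mem_dirs (m1 _ a2)
      · rw [show p - q = -(q - p) by abel, cl_neg, a3]
        decide
    · left
      have a4 : cl p = 2 := by
        have := cl_sub p q
        rw [a3, a1, sub_zero] at this
        exact this.symm
      refine ⟨by rw [a4]; decide, ?_, ?_⟩
      · rw [show q - p = -(p - q) by abel, mulE_neg]
        exact neg_mem_dirs (m1 _ a2)
      · rw [show q - p = -(p - q) by abel, cl_neg, a3]
        decide

lemma Pth_bk {c p0 : Pt} (h : FrO c p0) {g : ℕ → Pt} {m : ℕ} (hg : Pth g m) : Pth (fun k => bk c p0 (g k)) m :=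
  fun k hk => AdP_bk h (hg k hk)

open Classical in
/-- **the sum over the free bridge** -/
theorem xboundO : ∃ C : ℝ, 0 < C ∧ ∀ (c p0 : Pt) (W A B : List Bool) (n K S d : ℕ) (ρ R : ℕ → ℕ), FrO c p0 → 1 ≤ n →
    (∀ s, s < S → 64 ≤ ρ s ∧ 320 * ρ s ≤ R s ∧ d ≤ R s ∧ R s ≤ 2 ^ K) →
    (∀ s, s + 1 < S → 80 * R (s + 1) ≤ ρ s) → 0 < ∑ s ∈ range S, (ρ s : ℝ) / R s →
    gf {Z | Z ∈ BU ∧ n ≤ hgt Z ∧ TIW.hn (TIW.en Z) ≤ 2 ^ K ∧ DjO c p0 W (A ++ (Z ++ B)) ∧
      NearO S d ρ R c p0 W (A.length + Z.length) (A ++ (Z ++ B))} ≤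
      ENNReal.ofReal (C * 4 ^ K * (UU n / n ^ 2) / ∑ s ∈ range S, (ρ s : ℝ) / R s) := by
  obtain ⟨C, hC, hanti⟩ := anti_end
  refine ⟨2 * 10 ^ 9 * C, by positivity, fun c p0 W A B n K S d ρ R hfr hn hS hR hsum => ?_⟩
  have hc := hfr.1
  obtain ⟨E, hE⟩ : ∃ E : Set (List Bool), E = {Z | Z ∈ BU ∧ n ≤ hgt Z ∧ TIW.hn (TIW.en Z) ≤ 2 ^ K ∧
    DjO c p0 W (A ++ (Z ++ B)) ∧ NearO S d ρ R c p0 W (A.length + Z.length) (A ++ (Z ++ B))} := ⟨_, rfl⟩
  rw [← hE]
  obtain ⟨V0, hV0⟩ : ∃ V : Finset Pt, V = (bl 0 (2 ^ K)).filter (fun v => ∃ Z ∈ E, dsp A Z = v) := ⟨_, rfl⟩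
  obtain ⟨V, hV⟩ : ∃ V : Finset Pt, V = V0.image (fun v => mulE (conjE c) v) := ⟨_, rfl⟩
  have hcard : V.card = V0.card := by
    rw [hV]
    exact card_image_of_injective _ (fun x y h => mulE_inj (mem_dirs.1 (conjO_mem hc)) h)
  have hBU : ∀ Z ∈ BU, dx up Z Z.length = up := fun Z ⟨h, hZ⟩ => (mem_Brd.1 hZ).2.2.1
  have hnv : ∀ Z ∈ E, TIW.hn (dsp A Z) ≤ ((2 ^ K : ℕ) : ℤ) := by
    intro Z hZ
    rw [hE] at hZ
    obtain ⟨-, -, z3, -⟩ := hZ
    unfold dsp
    rw [TIW.hn_mulE (nrm_rotTo upd (dx_mem upd A A.length))]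
    push_cast
    exact z3
  have hbox : ∀ Z ∈ E, dsp A Z ∈ Bl 0 (2 ^ K) := fun Z hZ => Bl_of_hn (hnv Z hZ)
  -- the number of the translations
  have hcount : (V.card : ℝ) * ∑ s ∈ range S, (ρ s : ℝ) / R s ≤ 2 * 10 ^ 9 * ((2 ^ K : ℕ) : ℝ) ^ 2 := by
    have hb : Pth (fun k => bk c p0 (vx oo up (A ++ B) (A.length + k))) B.length :=
      Pth_bk hfr (Pth_le (Pth_tail (j := A.length) (pth_vx (A ++ B) (A.length + B.length)) (by omega)) (by omega))
    refine vcount (a := fun k => vx oo up W k) (b := fun k => bk c p0 (vx oo up (A ++ B) (A.length + k))) (n := W.length)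
      (m := B.length) (d := d) hb hS hR ?_
    · intro v' hv'
      rw [hV, Finset.mem_image] at hv'
      obtain ⟨v, hv, rfl⟩ := hv'
      rw [hV0, Finset.mem_filter] at hv
      obtain ⟨-, Z, hZ, rfl⟩ := hv
      have hnZ := hnv Z hZ
      rw [hE] at hZ
      obtain ⟨z1, z2, -, z3, z4⟩ := hZ
      have hZu := hBU Z z1
      have hadd : ∀ p : Pt, bk c p0 p + mulE (conjE c) (dsp A Z) = bk c p0 (p + dsp A Z) := fun p => by
        unfold bk
        rw [← mulE_add]
        congr 1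
        abel
      have hpost : ∀ k, A.length + Z.length ≤ k → vx oo up (A ++ (Z ++ B)) k =
          vx oo up (A ++ B) (A.length + (k - (A.length + Z.length))) + dsp A Z := by
        intro k hk
        rw [← vx_behind hZu]
        congr 1
        omega
      have hl : (A ++ (Z ++ B)).length = A.length + Z.length + B.length := by
        rw [List.length_append, List.length_append]
        omega
      refine ⟨Bl_of_hn (by rw [hn_mulE' (conjO_mem hc)]; exact hnZ), ?_, ?_, ?_⟩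
      · rw [cl_mulE, cl_dsp hZu, mul_zero]
      · intro i hi j hj
        show vx oo up W i ≠ bk c p0 (vx oo up (A ++ B) (A.length + j)) + mulE (conjE c) (dsp A Z)
        rw [hadd, ← vx_behind hZu, ← bk_oV (p0 := p0) hc W i]
        intro hcon
        exact z3 i hi _ (by omega) (bk_inj hc hcon)
      · obtain ⟨i, e, j, a1, a2, a3, a4, a5, a6, a7, a8⟩ := z4
        rw [hl] at a3 a5
        refine ⟨i, a1, j - (A.length + Z.length), by omega, ?_, a8, ?_⟩
        · show vx oo up W i ∈ Bl (bk c p0 (vx oo up (A ++ B) (A.length + (j - (A.length + Z.length)))) +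
            mulE (conjE c) (dsp A Z)) d
          rw [hadd, ← hpost j a4]
          refine Bl_of_hn' ?_
          rw [← bk_oV (p0 := p0) hc W i, hn_bk hc]
          exact a6
        · intro s hs
          refine ⟨e - (A.length + Z.length), by omega, fun hcon => ?_⟩
          have h1 := hn_of_Bl hcon
          have h2 : TIW.hn (bk c p0 (vx oo up (A ++ B) (A.length + (e - (A.length + Z.length)))) -
              bk c p0 (vx oo up (A ++ B) (A.length + (j - (A.length + Z.length))))) =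
              TIW.hn (vx oo up (A ++ (Z ++ B)) e - vx oo up (A ++ (Z ++ B)) j) := by
            rw [hn_bk hc, hpost e a2, hpost j a4, add_sub_add_right_eq_sub]
          rw [h2] at h1
          exact absurd (a7 s hs) (not_lt.2 h1)
  -- one translation
  have hone : ∀ v, gf {Z | Z ∈ E ∧ dsp A Z = v} ≤ ENNReal.ofReal (C * (UU n / n ^ 2)) := by
    intro v
    by_cases hex : ∃ Z0, Z0 ∈ E ∧ dsp A Z0 = v
    · obtain ⟨Z0, hZ0, hv0⟩ := hex
      have hZ0' := hZ0
      rw [hE] at hZ0'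
      obtain ⟨⟨h, hh⟩, z2, -, -, -⟩ := hZ0'
      have hlev := (mem_Brd.1 hh).2.2.2
      have hg0 : hgt Z0 = h := by
        unfold hgt
        rw [hlev]
        omega
      rw [hg0] at z2
      refine (gf_mono (Q := {t | t ∈ Brd h ∧ latE t = latE Z0}) ?_).trans ((hanti h (by omega) _).trans ?_)
      · rintro Z ⟨hZ, hZv⟩
        rw [hE] at hZ
        obtain ⟨⟨h', hh'⟩, -, -, -, -⟩ := hZ
        have h3 : vx oo up Z Z.length = vx oo up Z0 Z0.length := dsp_inj (A := A) (by rw [hZv, hv0])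
        have h4 := (mem_Brd.1 hh').2.2.2
        have h5 : lev Z Z.length = lev Z0 Z0.length := by
          unfold lev
          rw [h3]
        have h6 : h' = h := by omega
        refine ⟨h6 ▸ hh', ?_⟩
        unfold latE lat
        rw [h3]
      · apply ENNReal.ofReal_le_ofReal
        have hn0 : (0 : ℝ) < n := by exact_mod_cast hn
        have hnh : (n : ℝ) ≤ h := by exact_mod_cast z2
        have h7 : uu h ≤ uu n := Num2Aux.anti z2
        have h8 := Num2Aux.mul_le_UU n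
        have h9 := Num2Aux.nonneg n
        refine mul_le_mul_of_nonneg_left ?_ hC.le
        calc uu h / h ≤ uu n / n := div_le_div₀ h9 h7 hn0 hnh
          _ ≤ UU n / n ^ 2 := by
            rw [div_le_div_iff₀ hn0 (by positivity)]
            nlinarith
    · have : {Z | Z ∈ E ∧ dsp A Z = v} = ∅ := Set.eq_empty_of_forall_notMem fun Z hZ => hex ⟨Z, hZ⟩
      rw [this]
      simp [gf]
  have hsub : E ⊆ ⋃ v ∈ V0, {Z | Z ∈ E ∧ dsp A Z = v} := by
    intro Z hZ
    rw [Set.mem_iUnion₂]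
    refine ⟨dsp A Z, ?_, hZ, rfl⟩
    rw [hV0, Finset.mem_filter, mem_bl]
    exact ⟨hbox Z hZ, Z, hZ, rfl⟩
  refine (gf_mono hsub).trans ((ENNReal.tsum_biUnion_le wE V0 _).trans ((Finset.sum_le_sum fun v _ => hone v).trans ?_))
  rw [Finset.sum_const, ← ENNReal.ofReal_nsmul]
  apply ENNReal.ofReal_le_ofReal
  rw [nsmul_eq_mul, le_div_iff₀ hsum]
  have hx : 0 ≤ C * (UU n / n ^ 2) := by
    have := (Num2Aux.UU_pos n).le
    positivity
  rw [hcard] at hcount
  calc (V0.card : ℝ) * (C * (UU n / n ^ 2)) * ∑ s ∈ range S, (ρ s : ℝ) / R s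
      = (C * (UU n / n ^ 2)) * ((V0.card : ℝ) * ∑ s ∈ range S, (ρ s : ℝ) / R s) := by ring
    _ ≤ (C * (UU n / n ^ 2)) * (2 * 10 ^ 9 * ((2 ^ K : ℕ) : ℝ) ^ 2) := mul_le_mul_of_nonneg_left hcount hx
    _ = 2 * 10 ^ 9 * C * 4 ^ K * (UU n / n ^ 2) := by
      push_cast
      rw [show ((2 : ℝ) ^ K) ^ 2 = 4 ^ K by
        rw [← pow_mul, mul_comm K 2, pow_mul]
        norm_num]
      ring

end RMP

end HexObs
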