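import Pool.Agent.ARM.NtN
import Pool.Agent.RMP.NtX

/-!
# RM, row P4 (helper65): the mass of the parts with many splittings with a near touch of an obstacle (after ARM/NtN, helper13)
-/

set_option autoImplicit false

namespace HexObs

namespace RMP

open Finset TS SDN HexObs.SIM ARM

open scoped ENNReal

/-- parts Y behind A with at least q splittings Y = V ++ B: V a low bridge, B behind a good tip, and a near touch of B with
the obstacle -/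
def YNO (η q : ℝ) (b cc J S d : ℕ) (ρ R : ℕ → ℕ) (c p0 : Pt) (W A : List Bool) : Set (List Bool) :=
  {Y | ∃ T : Finset ℕ, q ≤ (T.card : ℝ) ∧ ∀ k ∈ T, k ≤ Y.length ∧ Y.take k ∈ BU ∧ hgt (Y.take k) ≤ 2 ^ b ∧
    TIW.hn (TIW.en (Y.take k)) ≤ 2 ^ (b + cc) ∧ DjO c p0 W (A ++ Y) ∧ NearO S d ρ R c p0 W (A.length + k) (A ++ Y) ∧
    Y.drop k ∈ SA ∧ rev (Y.drop k) ∈ TIP.GT b η ∧ TIP.In (2 ^ (b + J)) (Y.drop k)}

/-- the low bridges between A and B with a near touch of B with the obstacle -/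
def VNO (b cc S d : ℕ) (ρ R : ℕ → ℕ) (c p0 : Pt) (W A B : List Bool) : Set (List Bool) :=
  {V | V ∈ BU ∧ hgt V ≤ 2 ^ b ∧ TIW.hn (TIW.en V) ≤ 2 ^ (b + cc) ∧ DjO c p0 W (A ++ (V ++ B)) ∧
    NearO S d ρ R c p0 W (A.length + V.length) (A ++ (V ++ B))}

/-- **the mass of these parts** -/
theorem ynO (η : ℝ) (cc J : ℕ) (δ : ℝ) (hη : 0 < η) (hδ : 0 < δ) : ∃ (M : ℝ) (b0 : ℕ), 0 < M ∧
    ∀ (c p0 : Pt) (W A : List Bool) (b S d : ℕ) (ρ R : ℕ → ℕ) (q : ℝ), FrO c p0 → b0 ≤ b → 0 < q →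
    (∀ s, s < S → 64 ≤ ρ s ∧ 320 * ρ s ≤ R s ∧ d ≤ R s ∧ R s ≤ 2 ^ (b + cc)) → (∀ s, s + 1 < S → 80 * R (s + 1) ≤ ρ s) →
    M ≤ ∑ s ∈ range S, (ρ s : ℝ) / R s →
    gf (YNO η (q * Ub b) b cc J S d ρ R c p0 W A) ≤ ENNReal.ofReal (δ / q * Ub b) * NTA.Xb b := by
  obtain ⟨C1, hC1, hY⟩ := TIP.ymass' η J hη
  obtain ⟨C2, hC2, hX⟩ := xboundO
  obtain ⟨δ', hδ'⟩ : ∃ x : ℝ, x = δ / C1 := ⟨_, rfl⟩
  have hδ0 : 0 < δ' := by rw [hδ']; positivity
  obtain ⟨w, hw⟩ : ∃ w : ℕ, 2 * (2 : ℝ) ^ (-(kap0 * (w : ℝ))) ≤ δ' / 2 := by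
    have hk := kap0_pos
    have h1 : (2 : ℝ) ^ (-kap0) < 1 := Real.rpow_lt_one_of_one_lt_of_neg (by norm_num) (by linarith)
    obtain ⟨w, hw⟩ := exists_pow_lt_of_lt_one (show (0 : ℝ) < δ' / 4 by positivity) h1
    refine ⟨w, ?_⟩
    rw [← Real.rpow_natCast, ← Real.rpow_mul (by norm_num)] at hw
    rw [show -(kap0 * (w : ℝ)) = -kap0 * (w : ℝ) by ring]
    linarith
  refine ⟨2 * C2 * 4 ^ (cc + w) / δ', w, by positivity, fun c p0 W A b S d ρ R q hfr hb hq h1 h2 h3 => ?_⟩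
  have hU := Ub_pos b
  have hM : 0 < 2 * C2 * 4 ^ (cc + w) / δ' := by positivity
  have hsum : 0 < ∑ s ∈ range S, (ρ s : ℝ) / R s := lt_of_lt_of_le hM h3
  have key : ∀ B, gf (VNO b cc S d ρ R c p0 W A B) ≤ ENNReal.ofReal (δ' * Ub b) := by
    intro B
    have hsub : VNO b cc S d ρ R c p0 W A B ⊆ {V | V ∈ BU ∧ hgt V ≤ 2 ^ (b - w)} ∪
        {Z | Z ∈ BU ∧ 2 ^ (b - w) ≤ hgt Z ∧ TIW.hn (TIW.en Z) ≤ 2 ^ (b + cc) ∧ DjO c p0 W (A ++ (Z ++ B)) ∧
          NearO S d ρ R c p0 W (A.length + Z.length) (A ++ (Z ++ B))} := by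
      rintro V ⟨a1, a2, a3, a4, a5⟩
      rcases Nat.lt_or_ge (hgt V) (2 ^ (b - w)) with hh | hh
      · exact Or.inl ⟨a1, hh.le⟩
      · exact Or.inr ⟨a1, hh, a3, a4, a5⟩
    have e1 : gf {V | V ∈ BU ∧ hgt V ≤ 2 ^ (b - w)} ≤ ENNReal.ofReal (δ' / 2 * Ub b) := by
      refine (TIP.gf_lowBU (2 ^ (b - w))).trans (ENNReal.ofReal_le_ofReal ?_)
      have h4 := GB.Ub_ratio_down (show b - w ≤ b by omega)
      have h5 : ((b : ℝ) - ((b - w : ℕ) : ℝ)) = w := by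
        rw [Nat.cast_sub hb]
        ring
      rw [h5, div_le_iff₀ hU] at h4
      show Ub (b - w) ≤ δ' / 2 * Ub b
      nlinarith
    have e2 := hX c p0 W A B (2 ^ (b - w)) (b + cc) S d ρ R hfr Nat.one_le_two_pow h1 h2 hsum
    have e3 : C2 * 4 ^ (b + cc) * (UU (2 ^ (b - w)) / ((2 ^ (b - w) : ℕ) : ℝ) ^ 2) / ∑ s ∈ range S, (ρ s : ℝ) / R s ≤
        δ' / 2 * Ub b := by
      rw [div_le_iff₀ hsum]
      have h4 : UU (2 ^ (b - w)) ≤ Ub b := Ub_mono (by omega)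
      have h5 : (4 : ℝ) ^ (b + cc) = 4 ^ (cc + w) * 4 ^ (b - w) := by
        rw [← pow_add]
        congr 1
        omega
      have h6 : ((2 ^ (b - w) : ℕ) : ℝ) ^ 2 = 4 ^ (b - w) := by
        push_cast
        rw [← pow_mul, mul_comm, pow_mul]
        norm_num
      have h7 : (0 : ℝ) < 4 ^ (b - w) := by positivity
      have h8 : (0 : ℝ) < 4 ^ (cc + w) := by positivity
      rw [h6, h5]
      calc C2 * (4 ^ (cc + w) * 4 ^ (b - w)) * (UU (2 ^ (b - w)) / 4 ^ (b - w)) = C2 * 4 ^ (cc + w) * UU (2 ^ (b - w)) := by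
            field_simp
        _ ≤ C2 * 4 ^ (cc + w) * Ub b := mul_le_mul_of_nonneg_left h4 (by positivity)
        _ = δ' / 2 * Ub b * (2 * C2 * 4 ^ (cc + w) / δ') := by
            field_simp
        _ ≤ δ' / 2 * Ub b * ∑ s ∈ range S, (ρ s : ℝ) / R s := mul_le_mul_of_nonneg_left h3 (by positivity)
    calc gf (VNO b cc S d ρ R c p0 W A B) ≤ ENNReal.ofReal (δ' / 2 * Ub b) + ENNReal.ofReal (δ' / 2 * Ub b) :=
          (gf_mono hsub).trans ((gf_union_le _ _).trans (add_le_add e1 (e2.trans (ENNReal.ofReal_le_ofReal e3))))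
      _ = ENNReal.ofReal (δ' * Ub b) := by
          rw [← ENNReal.ofReal_add (by positivity) (by positivity)]
          congr 1
          ring
  have hdc := dcR (G := YNO η (q * Ub b) b cc J S d ρ R c p0 W A) (c := ENNReal.ofReal (q * Ub b))
    (XB := {B | B ∈ SA ∧ rev B ∈ TIP.GT b η ∧ TIP.In (2 ^ (b + J)) B}) (Vs := fun B => VNO b cc S d ρ R c p0 W A B) key (by
      rintro Y ⟨T, hT, hk⟩
      refine ⟨T, ?_, fun k hkT => ?_⟩
      · rw [← ENNReal.ofReal_natCast]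
        exact ENNReal.ofReal_le_ofReal hT
      · obtain ⟨a1, a2, a3, a4, a5, a6, a7, a8, a9⟩ := hk k hkT
        refine ⟨a1, ⟨a7, a8, a9⟩, a2, a3, a4, ?_, ?_⟩
        · rwa [List.take_append_drop]
        · rw [List.take_append_drop, List.length_take, min_eq_left a1]
          exact a6)
  have hq0 : 0 < q * Ub b := by positivity
  have hfin : gf (YNO η (q * Ub b) b cc J S d ρ R c p0 W A) * ENNReal.ofReal (q * Ub b) ≤
      (ENNReal.ofReal (δ / q * Ub b) * NTA.Xb b) * ENNReal.ofReal (q * Ub b) := by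
    rw [mul_comm (gf _)]
    refine hdc.trans ((mul_le_mul_left (hY b) _).trans (le_of_eq ?_))
    rw [mul_right_comm, mul_right_comm (ENNReal.ofReal (δ / q * Ub b)), ← ENNReal.ofReal_mul (by positivity),
      ← ENNReal.ofReal_mul (by positivity), hδ']
    congr 2
    field_simp
  exact (ENNReal.mul_le_mul_iff_left (by simpa using hq0) ENNReal.ofReal_ne_top).1 hfin

end RMP

end HexObs
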