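import Pool.Agent.RMP.NtEP
import Pool.Agent.RMP.NtY

/-!
# RM, row P4 (helper65): a touch of the end part of the first word with the end part of the second word

The obstacle is the reversed second word, placed at its tip.

* `rvc`, `FrO_rv`, `oV_rv` : its frame;
* `rv_exit`, `goodO` : its start part leaves the ball of radius 2 ^ (i + 3); good points of the regular start part;
* **`near_MP`** : the near touch seen from the cuts of the first word;
* **`mEvP_mass`**.
-/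

set_option autoImplicit false

namespace HexObs

namespace RMP

open Finset TS SDN NTW NTA HexObs.SIM TIP TIP.Nf TIW ARM

open scoped ENNReal

/-- the rotation of the reversed walk -/
noncomputable def rvc (L : List Bool) : Pt := (rv_vx L).choose

lemma rvc_mem (L : List Bool) : rvc L ∈ dirs := (rv_vx L).choose_spec.1

lemma rvc_vx {L : List Bool} {i : ℕ} (h : i ≤ L.length) :
    vx oo up L (L.length - i) = TIW.en L + mulE (rvc L) (vx oo up (rv L) i) := (rv_vx L).choose_spec.2 i h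

/-- the vertices of the placed reversed walk -/
lemma oV_rv (g : Pt × Pt) {L : List Bool} {i : ℕ} (h : i ≤ L.length) :
    oV (mulE g.2 (rvc L)) (pe g L) (rv L) i = pv g L (L.length - i) := by
  unfold oV pe pv
  rw [rvc_vx h, mulE_add, mulE_assoc]
  show g.1 + mulE g.2 (TIW.en L) + _ = _
  abel

/-- the frame of the reversed walk -/
lemma FrO_rv {g : Pt × Pt} (hg : Fr g) {L : List Bool} (h : 1 ≤ L.length) : FrO (mulE g.2 (rvc L)) (pe g L) := by
  have e1 := rvc_vx h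
  have e2 : vx oo up (rv L) 1 = up := by
    have : vx oo up (rv L) 1 = oo + up := rfl
    rw [this]
    decide
  rw [e2] at e1
  have e3 : cl (vx oo up L (L.length - 1)) = cl (TIW.en L) + cl (rvc L) * cl up := by
    rw [e1, cl_add, cl_mulE]
  have e4 : cl (TIW.en L) = if Even L.length then cl oo else cl oo + cl up := cl_vx oo up L L.length
  have e5 : cl (vx oo up L (L.length - 1)) = if Even (L.length - 1) then cl oo else cl oo + cl up :=
    cl_vx oo up L (L.length - 1)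
  have e6 : cl (pe g L) = cl g.1 + cl g.2 * cl (TIW.en L) := by
    unfold pe pv
    rw [cl_add, cl_mulE]
    rfl
  have e7 : cl (mulE g.2 (rvc L)) = cl g.2 * cl (rvc L) := cl_mulE _ _
  have e8 : cl up = -1 := cl_up'
  have e9 : cl oo = 0 := cl_oo
  have hc : (cl (TIW.en L) = 0 ∧ cl (rvc L) = 1) ∨ (cl (TIW.en L) = -1 ∧ cl (rvc L) = -1) := by
    rcases Nat.even_or_odd L.length with hp | hp
    · left
      have hp' : ¬ Even (L.length - 1) := by
        rintro ⟨m, hm⟩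
        obtain ⟨k, hk⟩ := hp
        omega
      rw [if_pos hp, e9] at e4
      rw [if_neg hp', e9, e8] at e5
      rw [e4, e5, e8] at e3
      refine ⟨e4, ?_⟩
      linear_combination e3
    · right
      have hp' : Even (L.length - 1) := by
        obtain ⟨k, hk⟩ := hp
        exact ⟨k, by omega⟩
      rw [if_neg (Nat.not_even_iff_odd.2 hp), e9, e8] at e4
      rw [if_pos hp', e9] at e5
      rw [e4, e5, e8] at e3
      refine ⟨by rw [e4]; decide, ?_⟩
      linear_combination e3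
  refine ⟨?_, ?_⟩
  · rw [mem_dirs, nrm_mulE, mem_dirs.1 hg.1, mem_dirs.1 (rvc_mem L)]
    norm_num
  · rw [e6, e7]
    rcases hg.2 with ⟨a1, a2⟩ | ⟨a1, a2⟩ <;> rcases hc with ⟨b1, b2⟩ | ⟨b1, b2⟩ <;> rw [a1, a2, b1, b2] <;>
      [left; right; right; left] <;> (try rw [e8]) <;> decide

/-! ### the reversed second word -/

lemma dz_rv {L : List Bool} {i : ℕ} (h : i ≤ L.length) : hn (vx oo up (rv L) i) = dz L (L.length - i) := by
  unfold dz
  rw [rvc_vx h, add_sub_cancel_left, hn_mulE' (rvc_mem L)]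

/-- the exit of the end part, read backwards -/
lemma rv_exit {L : List Bool} {ρ : ℤ} (h0 : 0 ≤ ρ) (h : ρ < dz L 0) : ∃ z, z + 1 ≤ L.length ∧
    (∀ s, L.length - z ≤ s → s ≤ L.length → dz L s ≤ ρ) ∧ ρ - 2 < hn (vx oo up (rv L) z) := by
  have hex : ∃ x, ρ < hn (vx oo up (rv L) x) := ⟨L.length, by rwa [dz_rv le_rfl, Nat.sub_self]⟩
  obtain ⟨x, hx⟩ : ∃ x, x = Nat.find hex := ⟨_, rfl⟩
  have hx1 : ρ < hn (vx oo up (rv L) x) := by rw [hx]; exact Nat.find_spec hex
  have hx2 : ∀ y, y < x → hn (vx oo up (rv L) y) ≤ ρ := fun y hy => by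
    rw [hx] at hy
    exact not_lt.1 (Nat.find_min hex hy)
  have hxl : x ≤ L.length := by
    rw [hx]
    refine Nat.find_min' hex ?_
    rwa [dz_rv le_rfl, Nat.sub_self]
  have hx0 : 1 ≤ x := by
    by_contra hc
    rw [show x = 0 by omega] at hx1
    have h0' : hn (vx oo up (rv L) 0) = 0 := by
      have : vx oo up (rv L) 0 = oo := rfl
      rw [this]
      decide
    linarith
  refine ⟨x - 1, by omega, fun s hs hs' => ?_, ?_⟩
  · have h1 := hx2 (L.length - s) (by omega)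
    rwa [dz_rv (by omega), show L.length - (L.length - s) = s by omega] at h1
  · have h3 := hn_stepN (rv L) (x - 1)
    rw [show x - 1 + 1 = x by omega] at h3
    have h4 := hn_tri (vx oo up (rv L) x) (vx oo up (rv L) (x - 1)) 0
    rw [sub_zero, sub_zero, hn_sub_comm] at h4
    linarith

lemma GoodPt_mono {a : ℕ → Pt} {n n' : ℕ} {p : Pt} {ρ R : ℕ} (h : GoodPt a n p ρ R) (hn : n ≤ n') : GoodPt a n' p ρ R := by
  obtain ⟨c, c1, c2⟩ := h
  refine ⟨c, c1, fun g m hg hk => ?_⟩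
  obtain ⟨cg, b1, t, b2⟩ := c2 g m hg hk
  refine ⟨cg, b1, t, fun u hu hu2 => ?_⟩
  obtain ⟨k, hk1, k', hk2, e1⟩ := b2 u hu hu2
  exact ⟨k, hk1, k', by omega, e1⟩

/-- **good points of the end part of the second word** -/
lemma goodO {L : List Bool} {i b S K : ℕ} {J' m R : ℕ → ℕ} (hE : tE L i b) (hfar : 2 ^ (i + 3) < dz L 0)
    (hreg : L ∉ EndEv (IrS S K J' m) (2 ^ (i + 3)))
    (hS : ∀ s, s < S → 6 ≤ K - J' s ∧ 107 ≤ m s ∧ R s = 3 * m s * 2 ^ (K - J' s) ∧ R s ≤ 2 ^ i) :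
    1 ≤ b ∧ ∀ s, s < S → GoodPt (vx oo up (rv L)) (rv L).length (vx oo up (rv L) (L.length - b)) (2 ^ (K - J' s)) (R s) := by
  obtain ⟨hb, hE⟩ := hE
  have hp : (1 : ℤ) ≤ 2 ^ i := one_le_pow₀ (by norm_num)
  have e3 : (2 : ℤ) ^ (i + 3) = 8 * 2 ^ i := by ring
  have hb1 : 1 ≤ b := by
    by_contra hc
    have h1 := hE 0 (by omega) (Nat.zero_le _)
    linarith
  obtain ⟨z, hz1, hz2, hz3⟩ := rv_exit (ρ := 2 ^ (i + 3)) (by positivity) hfar
  have hbz : L.length - b ≤ z := by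
    by_contra hc
    have h1 := hE (L.length - z) (by omega) (by omega)
    rw [← dz_rv (by omega)] at h1
    linarith
  have hI : (rv L).take z ∉ IrS S K J' m := fun h => hreg ⟨z, by omega, hz2, h⟩
  have hl := rv_length L
  have htl : ((rv L).take z).length = z := by
    rw [List.length_take, hl]
    omega
  refine ⟨hb1, fun s hs => ?_⟩
  obtain ⟨s1, s2, s3, s4⟩ := hS s hs
  have hg := good_of_irg (t := (rv L).take z) (r := K - J' s) (n := m s) (R := R s) (i := L.length - b) (z := z) (N := z)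
    s1 s3.ge (by
      rw [s3]
      exact Nat.mul_le_mul_right _ (by omega)) (fun h => hI ⟨s, hs, h⟩) hbz (by
      rw [vx_take le_rfl, vx_take hbz]
      intro hcon
      have h1 := hn_of_Bl hcon
      have h2 : ((R s : ℕ) : ℤ) ≤ 2 ^ i := by exact_mod_cast s4
      have h3 := hE b le_rfl hb
      have h4 : hn (vx oo up (rv L) (L.length - b)) = dz L b := by
        rw [dz_rv (by omega)]
        congr 1
        omega
      have h5 := hn_tri (vx oo up (rv L) z) (vx oo up (rv L) (L.length - b)) 0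
      rw [sub_zero, sub_zero, h4] at h5
      linarith) le_rfl htl.ge
  rw [vx_take hbz] at hg
  exact GoodPt_mono (hg.congr fun k hk => vx_take hk) (by omega)

/-! ### the touch of the two end parts -/

/-- a touch of the end parts of the level i of the two words -/
def MEvP (i : ℕ) (r : ℤ) : Set PT :=
  {T | ∃ a b, a ≤ T.1.length ∧ b ≤ T.2.2.length ∧ hn (vx oo up T.1 a - pv T.2.1 T.2.2 b) ≤ r ∧ tE T.1 i a ∧ tE T.2.2 i b}

lemma NTx_sub (c i : ℕ) (r : ℤ) : NTx c i r ⊆ MEvP i r := by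
  rintro T ⟨a, b, ha, hb, -, -, h3, h4, h5⟩
  exact ⟨a, b, ha, hb, h5, h3, h4⟩

/-- **the touch seen from the cuts of the first word** -/
theorem near_MP {κ : ℝ} {C b J : ℕ} {L X Z1 Z2 Z3 Y : List Bool} (hw : ARM.Wn κ C b J L X Z1 Z2 Z3 Y) {η : ℝ} {c k i d S K : ℕ}
    {J' n R : ℕ → ℕ} {r : ℤ} {M N L2 : List Bool} {g : Pt × Pt} (hZ : Z2 = M ++ N) (hM : M ∈ BU)
    (hdr : L.drop c = N ++ (Z3 ++ Y)) (hk : k ≤ N.length) (hk1 : N.take k ∈ BU)
    (hk2 : N.drop k ∈ BU) (hk3 : η * Ub b ≤ (nc (N.drop k) : ℝ)) (hi : i + 5 ≤ b) (hd : r ≤ d)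
    (hS : ∀ s, s < S → 6 ≤ K - J' s ∧ 107 ≤ n s ∧ R s = 3 * n s * 2 ^ (K - J' s) ∧ R s ≤ 2 ^ i)
    (hL : ((L, (g, L2)) : PT) ∈ MEvP i r) (hfar : 2 ^ (i + 3) < dz L2 0) (hreg : L2 ∉ EndEv (IrS S K J' n) (2 ^ (i + 3))) :
    NearO S d (fun s => 2 ^ (K - J' s)) R (mulE g.2 (rvc L2)) (pe g L2) (rv L2) (c + k) L := by
  obtain ⟨a, b', ha, hb', hnr, ⟨-, hEa⟩, hEb⟩ := hL
  replace ha : a ≤ L.length := ha
  replace hb' : b' ≤ L2.length := hb'
  have hp : (1 : ℤ) ≤ 2 ^ i := one_le_pow₀ (by norm_num)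
  have hp2 : (2 : ℤ) ^ (i + 5) ≤ 2 ^ b := pow_le_pow_right₀ (by norm_num) hi
  have e5 : (2 : ℤ) ^ (i + 5) = 32 * 2 ^ i := by ring
  have eb : (2 : ℤ) ^ (b + 1) = 2 * 2 ^ b := by ring
  obtain ⟨hb1, hgood⟩ := goodO hEb hfar hreg hS
  -- the end part of the first word
  have hN : N ∈ BU := by
    have := TIP.BU_app hk1 hk2
    rwa [List.take_append_drop] at this
  have hdk : L.drop (c + k) = N.drop k ++ (Z3 ++ Y) := by
    rw [← List.drop_drop, hdr, List.drop_append_of_le_length hk]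
  have hBe : L.take (c + k) ++ (N.drop k ++ (Z3 ++ Y)) = L := by
    rw [← hdk, List.take_append_drop]
  have hne : 1 ≤ Y.length := List.length_pos_iff.2 hw.ne
  have hck : c + k ≤ L.length := by
    have := congrArg List.length hdk
    rw [List.length_drop, List.length_append, List.length_append] at this
    omega
  have htl : (L.take (c + k)).length = c + k := by
    rw [List.length_take]
    omega
  have hhZ : hgt (N.drop k) ≤ 2 ^ b := by
    have h1 := TIP.hgt_app hk1 hk2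
    rw [List.take_append_drop] at h1
    have h2 := TIP.hgt_app hM hN
    rw [← hZ] at h2
    have := hw.h2
    omega
  have hY : YCp η b (N.drop k ++ (Z3 ++ Y)) (N.drop k) Z3 Y := ⟨rfl, hw.ne, hk2, hw.b3, hhZ, hw.h3, hk3⟩
  obtain ⟨u, u', hu, hul, hu1, hu2, hu3⟩ := end_cut (A := L.take (c + k)) hY (a := a) (ρ := 2 ^ i) (by linarith)
    (by rw [hBe]; exact ha) (by rw [hBe]; exact hEa)
  rw [htl] at hu
  -- a vertex far from the touch
  have hfr : ∀ e' e'', hn (vx oo up L (c + k + e') - vx oo up L (c + k + e'')) =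
      hn (vx oo up (N.drop k ++ (Z3 ++ Y)) e' - vx oo up (N.drop k ++ (Z3 ++ Y)) e'') := by
    intro e' e''
    obtain ⟨w, hwd, -, hf⟩ := drop_frame' L (c + k)
    rw [hdk] at hf
    rw [hf, hf, add_sub_add_left_eq_sub, ← mulE_sub, hn_mulE' hwd]
  have hexe : ∃ e', e' ≤ u ∧ 3 * 2 ^ i < hn (vx oo up L (c + k + e') - vx oo up L (c + k + u)) := by
    by_contra hcon
    push Not at hcon
    have h1 := hcon 0 (Nat.zero_le _)
    have h2 := hcon u' hu2
    rw [hfr] at h1 h2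
    have h3 := lev_le_hn (N.drop k ++ (Z3 ++ Y)) u' 0
    rw [lev_z] at h3
    have h4 := hn_tri (vx oo up (N.drop k ++ (Z3 ++ Y)) u') (vx oo up (N.drop k ++ (Z3 ++ Y)) u)
      (vx oo up (N.drop k ++ (Z3 ++ Y)) 0)
    rw [hn_sub_comm (vx oo up (N.drop k ++ (Z3 ++ Y)) u)] at h4
    linarith
  obtain ⟨e', he', hfar'⟩ := hexe
  have hl2 := rv_length L2
  refine ⟨L2.length - b', c + k + e', a, by omega, by omega, by omega, by omega, ha, ?_, fun s hs => ?_, hgood⟩
  · rw [oV_rv g (by omega), show L2.length - (L2.length - b') = b' by omega, hn_sub_comm]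
    exact hnr.trans hd
  · have h2 : ((R s : ℕ) : ℤ) ≤ 2 ^ i := by exact_mod_cast (hS s hs).2.2.2
    rw [hu]
    linarith

/-- the first word does not meet the reversed second word -/
lemma DjO_rv {g : Pt × Pt} {L2 L : List Bool} (h : Av (ob g L2) L) :
    DjO (mulE g.2 (rvc L2)) (pe g L2) (rv L2) L := by
  intro i hi k hk hcon
  have hl := rv_length L2
  refine h k hk ⟨L2.length - i, Nat.sub_le _ _, ?_⟩
  rw [← hcon, oV_rv g (by omega)]

/-- **pairs with a window with a touch of the two end parts, the second one regular** -/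
theorem mEvP_mass (hE : ExP) {κ : ℝ} (hκ : 0 < κ) (C J : ℕ) (hCJ : 6 * C ≤ 2 ^ J) :
    ∀ ε : ℝ, 0 < ε → ∃ (M : ℝ) (b0 : ℕ), 0 < M ∧ ∀ (b Q j i d S K : ℕ) (D : ℝ) (J' m R : ℕ → ℕ) (r : ℤ), b0 ≤ b →
    1 ≤ D → HF3 D Q j → j ≤ b → i + 5 ≤ b → r ≤ d →
    (∀ s, s < S → 6 ≤ K - J' s ∧ 107 ≤ m s ∧ R s = 3 * m s * 2 ^ (K - J' s) ∧ R s ≤ 2 ^ i ∧ d ≤ R s) →
    (∀ s, s + 1 < S → 80 * R (s + 1) ≤ 2 ^ (K - J' s)) → M ≤ ∑ s ∈ range S, ((2 ^ (K - J' s) : ℕ) : ℝ) / R s →
    gp {T | T ∈ P3 Q j ∧ T.1 ∈ Win κ C b J ∧ T ∈ MEvP i r ∧ 2 ^ (i + 3) < dz T.2.2 0 ∧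
      T.2.2 ∉ EndEv (IrS S K J' m) (2 ^ (i + 3))} ≤ ENNReal.ofReal (ε * (D * pr3 Q (b + (J + 1)))) := by
  obtain ⟨η, hηd⟩ : ∃ η : ℝ, η = κ / 8 := ⟨_, rfl⟩
  have hη : 0 < η := by rw [hηd]; positivity
  obtain ⟨C2, hC2, h2⟩ := efP_mass hE hη
  have hC20 : 0 < C2 := by linarith
  intro ε hε
  obtain ⟨δ, hδd⟩ : ∃ δ : ℝ, δ = ε * η ^ 2 / C2 := ⟨_, rfl⟩
  have hδ : 0 < δ := by rw [hδd]; positivity
  obtain ⟨M, b1, hM0, hY⟩ := ynO η J (J + 1) δ hη hδ
  obtain ⟨b0, hb0⟩ := kU_big hκ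
  refine ⟨M, max b0 b1, hM0, fun b Q j i d S K D J' m R r hb hD hF hjb hib hrd hS hR hsum => ?_⟩
  have h8 := hb0 b ((le_max_left _ _).trans hb)
  have hU := Ub_pos b
  have hp := (pr3_pos Q (b + (J + 1))).le
  have hD0 : 0 ≤ D := by linarith
  obtain ⟨h, hh1, hh2, hh4⟩ := h_num h8
  have hηh : η * Ub b ≤ (h : ℝ) := by
    rw [hηd]
    calc κ / 8 * Ub b = κ * Ub b / 8 := by ring
      _ ≤ h := hh2
  have hp1 : 2 ^ (b + 1) ≤ 2 ^ (b + 2) := Nat.pow_le_pow_right (by norm_num) (by omega)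
  have hib2 : 2 ^ i ≤ 2 ^ (b + J) := Nat.pow_le_pow_right (by norm_num) (by omega)
  obtain ⟨ρ, hρ⟩ : ∃ ρ : (Pt × Pt) × List Bool → List Bool → List Bool → Prop, ρ = fun G A B =>
      FrO (mulE G.1.2 (rvc G.2)) (pe G.1 G.2) ∧ A ∈ GT b η ∧
      B ∈ YNO η (η * Ub b) b J (J + 1) S d (fun s => 2 ^ (K - J' s)) R (mulE G.1.2 (rvc G.2)) (pe G.1 G.2) (rv G.2) A :=
    ⟨_, rfl⟩
  have key := h2 D Q j b (J + 1) hD hF hjb ρ (δ / η) η (by positivity) hη
    (fun G A B hAB => by rw [hρ] at hAB; exact hAB.2.1) (fun G A => by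
      by_cases hfr : FrO (mulE G.1.2 (rvc G.2)) (pe G.1 G.2)
      · refine (gf_mono (Q := YNO η (η * Ub b) b J (J + 1) S d (fun s => 2 ^ (K - J' s)) R (mulE G.1.2 (rvc G.2))
          (pe G.1 G.2) (rv G.2) A) fun B hB => ?_).trans
          (hY (mulE G.1.2 (rvc G.2)) (pe G.1 G.2) (rv G.2) A b S d (fun s => 2 ^ (K - J' s)) R η hfr
            ((le_max_right _ _).trans hb) hη (fun s hs => ?_) hR hsum)
        · have h3 := hB.1
          rw [hρ] at h3
          exact h3.2.2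
        · obtain ⟨s1, s2, s3, s4, s5⟩ := hS s hs
          have h3 : 2 ^ 6 ≤ 2 ^ (K - J' s) := Nat.pow_le_pow_right (by norm_num) s1
          refine ⟨h3, ?_, s5, s4.trans hib2⟩
          rw [s3]
          exact Nat.mul_le_mul_right _ (by omega)
      · have : {Y : List Bool | ρ G A Y ∧ In (2 ^ (b + (J + 1))) Y} = ∅ := Set.eq_empty_of_forall_notMem fun Y hY' => by
          have h3 := hY'.1
          rw [hρ] at h3
          exact hfr h3.1
        rw [this]
        simp [gf])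
  refine (gp_mono ?_).trans (key.trans (ENNReal.ofReal_le_ofReal ?_))
  · rintro T ⟨hLF, ⟨X, Z1, Z2, Z3, Y, hw⟩, hEv, hfar, hreg⟩
    refine ⟨hLF, ?_⟩
    have hL2 : 1 ≤ T.2.2.length := by
      by_contra hc
      have h3 : T.2.2 = [] := List.eq_nil_of_length_eq_zero (by omega)
      rw [h3] at hfar
      have h4 : dz [] 0 = 0 := by decide
      rw [h4] at hfar
      exact absurd hfar (not_lt.2 (by positivity))
    have hfrO : FrO (mulE T.2.1.2 (rvc T.2.2)) (pe T.2.1 T.2.2) := FrO_rv hLF.2.2.1 hL2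
    have hdj := DjO_rv hLF.2.2.2.1
    obtain ⟨S', hS', hcut⟩ := slots hw hh1 (hh4 _ hw.n2)
    have h5 : S'.card ≤ nD (2 ^ (b + (J + 1))) (ρ T.2) T.1 := by
      refine nD_ge fun c hc => ?_
      obtain ⟨c1, M', N, c2, c3, c4, c5, c6, c7, c8, T2, hT2, hcut2⟩ := hcut c hc
      have hhM : hgt M' + hgt N = hgt Z2 := by rw [← TIP.hgt_app c3 c4, ← c2]
      have hh2' := hw.h2
      have hnM : η * Ub b ≤ (nc M' : ℝ) := hηh.trans (by exact_mod_cast c7)
      have hin : In (2 ^ (b + (J + 1))) (T.1.drop c) := by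
        rw [c6]
        exact hw.inB c2 c3 c4 (by omega)
      have htd : T.1.take c ++ T.1.drop c = T.1 := List.take_append_drop c T.1
      have htl : (T.1.take c).length = c := by
        rw [List.length_take]
        omega
      rw [hρ]
      refine ⟨c1, ⟨hfrO, ?_, T2, ?_, fun k hk => ?_⟩, hin⟩
      · rw [c5]
        exact ne_A hw.b1 (hp1.trans hw.h1) c3 (by omega) hnM
      · exact hηh.trans (by exact_mod_cast hT2)
      · obtain ⟨k1, k2, k3, k4⟩ := hcut2 k hk
        have hnk : η * Ub b ≤ (nc (N.drop k) : ℝ) := hηh.trans (by exact_mod_cast k4)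
        have hhN : hgt (N.take k) + hgt (N.drop k) = hgt N := by
          rw [← TIP.hgt_app k2 k3, List.take_append_drop]
        have htk : (T.1.drop c).take k = N.take k := by rw [c6, List.take_append_of_le_length k1]
        have hdk : (T.1.drop c).drop k = N.drop k ++ (Z3 ++ Y) := by rw [c6, List.drop_append_of_le_length k1]
        have hZ2 : Z2 = M' ++ (N.take k ++ N.drop k) := by rw [List.take_append_drop, ← c2]
        have hZ2' : Z2 = (M' ++ N.take k) ++ N.drop k := by rw [hZ2, List.append_assoc]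
        refine ⟨?_, ?_, ?_, ?_, ?_, ?_, SA_drop (SA_drop hLF.1 c) k, ?_, ?_⟩
        · rw [c6, List.length_append]
          omega
        · rw [htk]
          exact k2
        · rw [htk]
          omega
        · rw [htk]
          have h6 := hn_In (hw.inV hZ2 c3)
          refine h6.trans ?_
          have h7 : 3 * (2 * (C * 2 ^ b)) ≤ 2 ^ (b + J) := by
            rw [pow_add]
            calc 3 * (2 * (C * 2 ^ b)) = 2 ^ b * (6 * C) := by ring
              _ ≤ 2 ^ b * 2 ^ J := Nat.mul_le_mul_left _ hCJ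
          exact_mod_cast h7
        · rw [htd]
          exact hdj
        · rw [htd, htl]
          exact near_MP hw c2 c3 c6 k1 k2 k3 hnk hib hrd
            (fun s hs => ⟨(hS s hs).1, (hS s hs).2.1, (hS s hs).2.2.1, (hS s hs).2.2.2.1⟩) hEv hfar hreg
        · rw [hdk]
          exact ne_B k3 (by omega) hw.b3 (hp1.trans hw.h3) hnk
        · rw [hdk]
          exact hw.inB hZ2' (TIP.BU_app c3 k2) k3 (by omega)
    have h6 : (h : ℝ) ≤ (nD (2 ^ (b + (J + 1))) (ρ T.2) T.1 : ℝ) := by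
      exact_mod_cast hS'.trans h5
    exact hηh.trans h6
  · have h5 : 0 ≤ D * pr3 Q (b + (J + 1)) := by positivity
    refine mul_le_mul_of_nonneg_right (le_of_eq ?_) h5
    rw [hδd]
    field_simp

end RMP

end HexObs
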