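import Pool.Agent.ARM.T1

/-!
# RM (helper65): the words of any length that end near their start

`close_all` : mass at most `C 2 ^ (43 i / 24)` (T1, summed over the windows of the length).
-/

set_option autoImplicit false

namespace HexObs

namespace RMP

open Finset TS SDN HexObs.SIM NTA TIP ARM

open scoped ENNReal

/-- **words of any length that end near their start** -/
theorem close_all : ∃ C : ℝ, 0 < C ∧ ∀ i : ℕ, gf {L | L ∈ SA ∧ TIW.hn (TIW.en L) ≤ 2 ^ i} ≤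
    ENNReal.ofReal (C * (2 : ℝ) ^ ((43 / 24 : ℝ) * (i : ℝ))) := by
  obtain ⟨D, hD, h⟩ := t1
  obtain ⟨g, hg⟩ : ∃ g : ℕ → ℝ, g = fun k : ℕ => (1 / max (k : ℝ) 1) ^ (3 / 2 : ℝ) := ⟨_, rfl⟩
  have hg0 : ∀ k, 0 ≤ g k := fun k => by
    rw [hg]
    positivity
  have hgs : Summable g := by
    rw [← summable_nat_add_iff 1]
    have h1 : Summable fun k : ℕ => ((k : ℝ) ^ (3 / 2 : ℝ))⁻¹ := Real.summable_nat_rpow_inv.2 (by norm_num)
    have h2 := (summable_nat_add_iff 1).2 h1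
    refine h2.congr fun k => ?_
    rw [hg]
    show _ = (1 / max ((k + 1 : ℕ) : ℝ) 1) ^ (3 / 2 : ℝ)
    have h3 : max ((k + 1 : ℕ) : ℝ) 1 = ((k + 1 : ℕ) : ℝ) := max_eq_left (by
      push_cast
      have : (0 : ℝ) ≤ k := Nat.cast_nonneg k
      linarith)
    rw [h3, one_div, Real.inv_rpow (by positivity)]
  have hgt : 0 ≤ ∑' k, g k := tsum_nonneg hg0
  refine ⟨D * (∑' k, g k + 1), by positivity, fun i => ?_⟩
  have hm := ml_pos i
  have hp : (0 : ℝ) < (2 : ℝ) ^ ((43 / 24 : ℝ) * (i : ℝ)) := by positivity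
  have hsub : {L | L ∈ SA ∧ TIW.hn (TIW.en L) ≤ 2 ^ i} ⊆ ⋃ k : ℕ, F ⌈(k : ℝ) * ml i⌉₊ i := by
    rintro L ⟨h1, h2⟩
    refine Set.mem_iUnion.2 ⟨⌊(L.length : ℝ) / ml i⌋₊, mem_F.2 ⟨h1, ?_, ?_, h2⟩⟩
    · rw [Nat.ceil_le, ← le_div_iff₀ hm]
      exact Nat.floor_le (by positivity)
    · have h3 : (L.length : ℝ) / ml i < ⌊(L.length : ℝ) / ml i⌋₊ + 1 := Nat.lt_floor_add_one _
      rw [div_lt_iff₀ hm] at h3
      have h4 := Nat.le_ceil ((⌊(L.length : ℝ) / ml i⌋₊ : ℝ) * ml i)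
      linarith
  have hb : ∀ k : ℕ, gf (F ⌈(k : ℝ) * ml i⌉₊ i) ≤ ENNReal.ofReal (D * (2 : ℝ) ^ ((43 / 24 : ℝ) * (i : ℝ)) * g k) := by
    intro k
    refine (h _ i).trans (ENNReal.ofReal_le_ofReal ?_)
    unfold pr
    rw [hg, mul_assoc]
    show D * ((2 : ℝ) ^ ((43 / 24 : ℝ) * (i : ℝ)) * _) ≤ D * ((2 : ℝ) ^ ((43 / 24 : ℝ) * (i : ℝ)) * (1 / max (k : ℝ) 1) ^ (3 / 2 : ℝ))
    refine mul_le_mul_of_nonneg_left (mul_le_mul_of_nonneg_left ?_ hp.le) hD.le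
    refine Real.rpow_le_rpow (div_nonneg hm.le (max_pos _ i).le) ?_ (by norm_num)
    rw [div_le_div_iff₀ (max_pos _ i) (by positivity), one_mul]
    have h5 := Nat.le_ceil ((k : ℝ) * ml i)
    have h6 : max (k : ℝ) 1 * ml i ≤ max ((⌈(k : ℝ) * ml i⌉₊ : ℕ) : ℝ) (ml i) := by
      rcases le_total (k : ℝ) 1 with h7 | h7
      · rw [max_eq_right h7, one_mul]
        exact le_max_right _ _
      · rw [max_eq_left h7]
        exact h5.trans (le_max_left _ _)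
    linarith
  refine (gf_mono hsub).trans ((Crw.gf_iUnion_le _).trans ((ENNReal.tsum_le_tsum hb).trans ?_))
  rw [← ENNReal.ofReal_tsum_of_nonneg (fun k => mul_nonneg (by positivity) (hg0 k)) (hgs.mul_left _), tsum_mul_left]
  refine ENNReal.ofReal_le_ofReal ?_
  have h8 : 0 ≤ D * (2 : ℝ) ^ ((43 / 24 : ℝ) * (i : ℝ)) := by positivity
  nlinarith

end RMP

end HexObs
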