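import Pool.Agent.ARM.Conf
import Pool.Agent.ARM.NtG
import Pool.Agent.RMP.CloseA
import Pool.Agent.RMP.Num

/-!
# RM (helper65): the product bound, the outer end near the gap

* **`prd_gp`** : the mass of pairs with prescribed classes of the two words and the distance of the tips;
* `prd_conf` : the mass of the words in a ball around the tip;
* **`outP : OutP`**.
-/

set_option autoImplicit false

namespace HexObs

namespace RMP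

open Finset TS SDN HexObs.SIM NTA TIP ARM

open scoped ENNReal

open Classical in
/-- **the product bound** -/
theorem prd_gp (S1 S2 : Set (List Bool)) (r : ℕ) :
    gp {T | T.1 ∈ S1 ∧ T.2.2 ∈ S2 ∧ T.2.1.2 ∈ dirs ∧ TIW.hn (TIW.en T.1 - pe T.2.1 T.2.2) ≤ r} ≤
      ((6 * (2 * r + 1) ^ 2 : ℕ) : ℝ≥0∞) * (gf S1 * gf S2) := by
  obtain ⟨S, hS⟩ : ∃ S : Set PT, S = {T | T.1 ∈ S1 ∧ T.2.2 ∈ S2 ∧ T.2.1.2 ∈ dirs ∧
    TIW.hn (TIW.en T.1 - pe T.2.1 T.2.2) ≤ r} := ⟨_, rfl⟩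
  have e : ∀ P : Set (List Bool), gf P = ∑' L : List Bool, P.indicator wE L := fun P => tsum_subtype P wE
  rw [← hS, gp_indicator, ENNReal.tsum_prod', e S1, ← ENNReal.tsum_mul_right, ← ENNReal.tsum_mul_left]
  refine ENNReal.tsum_le_tsum fun L1 => ?_
  rw [ENNReal.tsum_prod', ENNReal.tsum_comm, e S2, ← ENNReal.tsum_mul_left, ← ENNReal.tsum_mul_left]
  refine ENNReal.tsum_le_tsum fun L2 => ?_
  by_cases h1 : L1 ∈ S1
  swap
  · rw [Set.indicator_of_notMem h1, zero_mul, mul_zero]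
    refine le_of_eq (ENNReal.tsum_eq_zero.2 fun g => ?_)
    refine Set.indicator_of_notMem (fun h => h1 ?_) _
    rw [hS] at h
    exact h.1
  by_cases h2 : L2 ∈ S2
  swap
  · rw [Set.indicator_of_notMem h2, mul_zero, mul_zero]
    refine le_of_eq (ENNReal.tsum_eq_zero.2 fun g => ?_)
    refine Set.indicator_of_notMem (fun h => h2 ?_) _
    rw [hS] at h
    exact h.2.1
  rw [Set.indicator_of_mem h1, Set.indicator_of_mem h2]
  obtain ⟨FG, hFG⟩ : ∃ FG : Finset (Pt × Pt), FG = (dirs ×ˢ bl oo r).image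
    (fun cv => (TIW.en L1 - cv.2 - mulE cv.1 (TIW.en L2), cv.1)) := ⟨_, rfl⟩
  have hcard : FG.card ≤ 6 * (2 * r + 1) ^ 2 := by
    rw [hFG]
    refine card_image_le.trans ?_
    rw [card_product, card_bl]
    exact Nat.mul_le_mul_right _ (by decide)
  have h3 : ∀ g : Pt × Pt, S.indicator (fun T : PT => wE T.1 * wE T.2.2) (L1, (g, L2)) ≤
      if g ∈ FG then wE L1 * wE L2 else 0 := by
    intro g
    by_cases hg : ((L1, (g, L2)) : PT) ∈ S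
    · rw [Set.indicator_of_mem hg, if_pos]
      rw [hS] at hg
      obtain ⟨-, -, g3, g4⟩ := hg
      rw [hFG, mem_image]
      refine ⟨(g.2, TIW.en L1 - pe g L2), mem_product.2 ⟨g3, mem_bl.2 (ARM.Bl_of_hn g4)⟩, ?_⟩
      have : TIW.en L1 - (TIW.en L1 - pe g L2) - mulE g.2 (TIW.en L2) = g.1 := by
        unfold pe pv TIW.en
        abel
      exact Prod.ext this rfl
    · rw [Set.indicator_of_notMem hg]
      exact zero_le
  refine (ENNReal.tsum_le_tsum h3).trans ?_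
  rw [tsum_eq_sum (s := FG) (fun g hg => if_neg hg), Finset.sum_ite_mem, Finset.inter_self, Finset.sum_const, nsmul_eq_mul]
  refine mul_le_mul_left ?_ _
  exact_mod_cast hcard

/-- **the words in a ball around the tip** -/
theorem prd_conf : ∃ C : ℝ, 0 < C ∧ ∀ R : ℕ, 1 ≤ R →
    gf {L | L ∈ SA ∧ ∀ s, s ≤ L.length → dz L s ≤ R} ≤ ENNReal.ofReal (C * (R : ℝ) ^ (43 / 24 : ℝ)) := by
  obtain ⟨C, hC, h⟩ := confSt
  refine ⟨C * (2 : ℝ) ^ (43 / 24 : ℝ), by positivity, fun R hR => ?_⟩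
  obtain ⟨n, hn1, hn2⟩ := exists_nat_pow_near hR (show 1 < 2 by norm_num)
  refine (gf_mono ?_).trans ((h 0 (n + 1)).trans (ENNReal.ofReal_le_ofReal ?_))
  · rintro L ⟨h1, h2⟩
    refine ⟨h1, Nat.zero_le _, fun s hs => (h2 s hs).trans ?_⟩
    exact_mod_cast hn2.le
  · have hm := ml_pos (n + 1)
    have e1 : ml (n + 1) / max ((0 : ℕ) : ℝ) (ml (n + 1)) = 1 := by
      rw [Nat.cast_zero, max_eq_right hm.le, div_self hm.ne']
    rw [e1, one_pow, mul_one, mul_assoc]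
    refine mul_le_mul_of_nonneg_left ?_ hC.le
    rw [← two_pow_rpow, ← Real.mul_rpow (by norm_num) (by positivity)]
    refine Real.rpow_le_rpow (by positivity) ?_ (by norm_num)
    rw [pow_succ']
    have : ((2 : ℕ) : ℝ) ^ n ≤ R := by exact_mod_cast hn1
    push_cast at this
    linarith

/-- **row P4', the outer end near the gap** -/
theorem outP : OutP := by
  intro u ε hε
  obtain ⟨C1, hC1, h1⟩ := close_all
  obtain ⟨C2, hC2, h2⟩ := prd_conf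
  obtain ⟨A, hA⟩ : ∃ A : ℝ, A = 54 * (C1 * (2 : ℝ) ^ ((43 / 24 : ℝ) * (u : ℝ)) * (C2 * (2 : ℝ) ^ (43 / 24 : ℝ))) := ⟨_, rfl⟩
  have hA0 : 0 < A := by rw [hA]; positivity
  obtain ⟨b0, hb0⟩ := pow_unbounded_of_one_lt (A / ε) (show (1 : ℝ) < 2 by norm_num)
  rw [div_lt_iff₀ hε] at hb0
  refine ⟨b0, fun D R j hD _ _ hR => ?_⟩
  have hjR : 2 ^ j ≤ R := (Nat.pow_le_pow_right (by norm_num) (by omega)).trans hR
  have hR1 : 1 ≤ R := Nat.one_le_two_pow.trans hjR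
  have hRp : (0 : ℝ) < R := by exact_mod_cast hR1
  have hsub : {T : PT | T ∈ P3 R j ∧ dz T.1 0 ≤ 2 ^ (j + u)} ⊆ {T | T.1 ∈ {L | L ∈ SA ∧ TIW.hn (TIW.en L) ≤ 2 ^ (j + u)} ∧
      T.2.2 ∈ {L | L ∈ SA ∧ ∀ s, s ≤ L.length → dz L s ≤ ((2 * R : ℕ) : ℤ)} ∧ T.2.1.2 ∈ dirs ∧
      TIW.hn (TIW.en T.1 - pe T.2.1 T.2.2) ≤ ((2 ^ j : ℕ) : ℤ)} := by
    rintro T ⟨⟨t1, t2, t3, -, t5, -, t7⟩, t8⟩
    refine ⟨⟨t1, ?_⟩, ⟨t2, fun s hs => (t7 s hs).trans ?_⟩, t3.1, by exact_mod_cast t5⟩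
    · have e : dz T.1 0 = TIW.hn (TIW.en T.1) := by
        unfold dz
        rw [TIW.hn_sub_comm]
        have : vx oo up T.1 0 = 0 := rfl
        rw [this, sub_zero]
      rwa [e] at t8
    · have : ((2 ^ j : ℕ) : ℤ) ≤ R := by exact_mod_cast hjR
      push_cast at this ⊢
      linarith
  have e6 : ((6 * (2 * 2 ^ j + 1) ^ 2 : ℕ) : ℝ≥0∞) ≤ ENNReal.ofReal (54 * ((2 : ℝ) ^ j) ^ (2 : ℝ)) := by
    rw [← ENNReal.ofReal_natCast]
    refine ENNReal.ofReal_le_ofReal ?_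
    have h5 : (1 : ℝ) ≤ 2 ^ j := one_le_pow₀ (by norm_num)
    rw [show (2 : ℝ) = ((2 : ℕ) : ℝ) by norm_num, Real.rpow_natCast]
    push_cast
    nlinarith
  refine (gp_mono hsub).trans ((prd_gp _ _ _).trans ?_)
  refine (mul_le_mul' e6 (mul_le_mul' (h1 (j + u)) (h2 (2 * R) (by omega)))).trans ?_
  rw [← ENNReal.ofReal_mul (by positivity), ← ENNReal.ofReal_mul (by positivity)]
  refine ENNReal.ofReal_le_ofReal ?_
  obtain ⟨x, hx⟩ : ∃ x : ℝ, x = 2 ^ j := ⟨_, rfl⟩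
  have hx0 : 0 < x := by rw [hx]; positivity
  have f1 : (2 : ℝ) ^ ((43 / 24 : ℝ) * ((j + u : ℕ) : ℝ)) = x ^ (43 / 24 : ℝ) * (2 : ℝ) ^ ((43 / 24 : ℝ) * (u : ℝ)) := by
    rw [hx, two_pow_rpow, ← Real.rpow_add (by norm_num)]
    congr 1
    push_cast
    ring
  have f2 : ((2 * R : ℕ) : ℝ) ^ (43 / 24 : ℝ) = (2 : ℝ) ^ (43 / 24 : ℝ) * (R : ℝ) ^ (43 / 24 : ℝ) := by
    push_cast
    rw [Real.mul_rpow (by norm_num) hRp.le]
  have f3 : pr3 R j = x ^ (59 / 24 : ℝ) * ((R : ℝ) ^ (43 / 24 : ℝ) * (R : ℝ) ^ (4 / 3 : ℝ)) := by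
    rw [pr3_eq hjR, hx, two_pow_rpow, ← Real.rpow_add hRp]
    norm_num
  have f4 : 2 ^ b0 * x ^ (4 / 3 : ℝ) ≤ (R : ℝ) ^ (4 / 3 : ℝ) := by
    have g1 : (2 : ℝ) ^ b0 * x ≤ R := by
      rw [hx, ← pow_add]
      exact_mod_cast hR
    refine le_trans ?_ (Real.rpow_le_rpow (by positivity) g1 (by norm_num))
    rw [Real.mul_rpow (by positivity) hx0.le]
    refine mul_le_mul_of_nonneg_right ?_ (by positivity)
    have g2 : (1 : ℝ) ≤ 2 ^ b0 := one_le_pow₀ (by norm_num)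
    calc (2 : ℝ) ^ b0 = ((2 : ℝ) ^ b0) ^ (1 : ℝ) := (Real.rpow_one _).symm
      _ ≤ ((2 : ℝ) ^ b0) ^ (4 / 3 : ℝ) := Real.rpow_le_rpow_of_exponent_le g2 (by norm_num)
  have f5 : x ^ (2 : ℝ) * x ^ (43 / 24 : ℝ) = x ^ (59 / 24 : ℝ) * x ^ (4 / 3 : ℝ) := by
    rw [← Real.rpow_add hx0, ← Real.rpow_add hx0]
    norm_num
  rw [f1, f2, f3, ← hx]
  have hP : 0 < x ^ (59 / 24 : ℝ) * (R : ℝ) ^ (43 / 24 : ℝ) := by positivity
  have hX : 0 < x ^ (4 / 3 : ℝ) := by positivity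
  calc 54 * x ^ (2 : ℝ) * (C1 * (x ^ (43 / 24 : ℝ) * (2 : ℝ) ^ ((43 / 24 : ℝ) * (u : ℝ))) *
        (C2 * ((2 : ℝ) ^ (43 / 24 : ℝ) * (R : ℝ) ^ (43 / 24 : ℝ))))
      = A * (x ^ (2 : ℝ) * x ^ (43 / 24 : ℝ)) * (R : ℝ) ^ (43 / 24 : ℝ) := by
        rw [hA]
        ring
    _ = A * x ^ (4 / 3 : ℝ) * (x ^ (59 / 24 : ℝ) * (R : ℝ) ^ (43 / 24 : ℝ)) := by
        rw [f5]
        ring
    _ ≤ ((2 : ℝ) ^ b0 * ε) * x ^ (4 / 3 : ℝ) * (x ^ (59 / 24 : ℝ) * (R : ℝ) ^ (43 / 24 : ℝ)) := by gcongr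
    _ = ε * (2 ^ b0 * x ^ (4 / 3 : ℝ)) * (x ^ (59 / 24 : ℝ) * (R : ℝ) ^ (43 / 24 : ℝ)) := by ring
    _ ≤ ε * (R : ℝ) ^ (4 / 3 : ℝ) * (x ^ (59 / 24 : ℝ) * (R : ℝ) ^ (43 / 24 : ℝ)) := by gcongr
    _ = ε * 1 * (x ^ (59 / 24 : ℝ) * ((R : ℝ) ^ (43 / 24 : ℝ) * (R : ℝ) ^ (4 / 3 : ℝ))) := by ring
    _ ≤ ε * D * (x ^ (59 / 24 : ℝ) * ((R : ℝ) ^ (43 / 24 : ℝ) * (R : ℝ) ^ (4 / 3 : ℝ))) := by gcongr

end RMP

end HexObs
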