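import Pool.Agent.ARM.NtR
import Pool.Agent.ARM.NtP
import Pool.Agent.RMP.NtMP
import Pool.Agent.RMP.Prod

/-!
# RM, row P4 (helper65): **`ntP_of : 0 < κ → ExP → NWinP κ C → NtP`**

Near touches of the end part of the first word with itself, and of the end parts of the two words.
-/

set_option autoImplicit false

namespace HexObs

namespace RMP

open Finset TS SDN NTW NTA HexObs.SIM TIP TIP.Nf TIW ARM

open scoped ENNReal

/-- **row P4** -/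
theorem ntP_of {κ : ℝ} {C : ℕ} (hκ : 0 < κ) (hE : ExP) (hN : NWinP κ C) : NtP := by
  intro u c k ε _ hε
  have hκ2 : 0 < κ / 2 := by positivity
  -- the windows
  obtain ⟨ε1, hε1d⟩ : ∃ ε1 : ℝ, ε1 = ε / (10 * 64 ^ (u + 6)) := ⟨_, rfl⟩
  have hε1 : 0 < ε1 := by rw [hε1d]; positivity
  obtain ⟨J0, hwin⟩ := winP_of hκ hN ε1 hε1
  obtain ⟨J, hJd⟩ : ∃ J, J = J0 + 6 * (2 * C) := ⟨_, rfl⟩
  have hCJ : 6 * (2 * C) ≤ 2 ^ J := by
    have h1 := (Nat.lt_two_pow_self (n := J)).le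
    omega
  obtain ⟨b1, hwin1⟩ := hwin J (u + 5) (by omega)
  obtain ⟨g, hg⟩ : ∃ g, g = u + 5 + (J + 1) + 6 := ⟨_, rfl⟩
  obtain ⟨G, hG⟩ : ∃ G : ℝ, G = 64 ^ (u + 5 + (J + 1)) := ⟨_, rfl⟩
  have hG0 : 0 < G := by rw [hG]; positivity
  -- the outer ends
  obtain ⟨b4, hout⟩ := outP (u + 3) (ε / 10) (by positivity)
  -- the masses
  obtain ⟨K1, b2, hK1, hend⟩ := endEvP_mass hE hκ2
  have hK10 : 0 < K1 := by linarith
  obtain ⟨δ, hδd⟩ : ∃ δ : ℝ, δ = ε / (20 * K1 ^ (J + 3) * G) := ⟨_, rfl⟩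
  have hδ : 0 < δ := by rw [hδd]; positivity
  have hδK : K1 ^ (J + 3) * (2 * δ) = ε / (10 * G) := by
    rw [hδd]
    field_simp
    norm_num
  obtain ⟨M, b3, hM0, hme⟩ := mEvP_mass hE hκ2 (2 * C) J hCJ (ε / (10 * G)) (by positivity)
  -- the plain bound
  obtain ⟨k', hk'⟩ : ∃ k', k' = k + 1 + g := ⟨_, rfl⟩
  obtain ⟨e', K0, hke, heK, hpl⟩ := plNt k' δ hδ
  obtain ⟨e1, he1⟩ : ∃ e1 : ℝ, e1 = min δ (1 / 2 ^ g) := ⟨_, rfl⟩
  have he10 : 0 < e1 := by rw [he1]; exact lt_min hδ (by positivity)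
  have he1δ : e1 ≤ δ := by rw [he1]; exact min_le_left _ _
  have he1g : e1 ≤ 1 / 2 ^ g := by rw [he1]; exact min_le_right _ _
  obtain ⟨S, J', m, K0', hS0, -, hm, hJ', h240, hr0, hMs, hK0', hoff⟩ := reg_off (e := e1) (M := M) he10 0
  have hJmono : ∀ s, s ≤ S → J' s ≤ J' S := fun s hs => (strictMono_nat_of_lt_succ hJ').monotone hs
  obtain ⟨e, he⟩ : ∃ e, e = e' + J' S + k + 3 := ⟨_, rfl⟩
  obtain ⟨b0, hb0⟩ : ∃ b0, b0 = b1 + b2 + b3 + b4 + K0 + K0' + e + 8 := ⟨_, rfl⟩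
  refine ⟨e, b0, by omega, by omega, fun D Q j hD hF hj hn => ?_⟩
  have hp := (pr3_pos Q j).le
  have hD0 : 0 ≤ D := by linarith
  obtain ⟨b, hb⟩ : ∃ b, b = j + (u + 5) := ⟨_, rfl⟩
  obtain ⟨K, hK⟩ : ∃ K, K = b + (J + 1) + 6 := ⟨_, rfl⟩
  have hKg : K = j + g := by omega
  have hQ : ∀ a, a ≤ b0 → 2 ^ (a + j) ≤ Q := fun a ha => (Nat.pow_le_pow_right (by norm_num) (by omega)).trans hn
  -- powers
  have hpw : ∀ a a' : ℕ, a ≤ a' → (2 : ℤ) ^ a ≤ 2 ^ a' := fun a a' h => pow_le_pow_right₀ (by norm_num) h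
  obtain ⟨r, hr⟩ : ∃ r : ℤ, r = 2 ^ (j - e) := ⟨_, rfl⟩
  obtain ⟨R0, hR0⟩ : ∃ R0 : ℤ, R0 = 2 ^ (j - k) := ⟨_, rfl⟩
  have hrp : 1 ≤ r := by rw [hr]; exact one_le_pow₀ (by norm_num)
  have hrK : r + 2 ≤ 2 ^ (K - e') := by
    have h1 := hpw (j - e) (j - e' - 1) (by omega)
    have h2 := hpw 1 (j - e' - 1) (by omega)
    have h3 := hpw (j - e') (K - e') (by omega)
    have h4 : (2 : ℤ) ^ (j - e') = 2 * 2 ^ (j - e' - 1) := by
      rw [← pow_succ']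
      congr 1
      omega
    rw [hr]
    linarith
  have hRk : 2 ^ (K - k') ≤ R0 - r - 2 := by
    have h1 := hpw (j - e) (j - k - 3) (by omega)
    have h2 := hpw 1 (j - k - 3) (by omega)
    have h3 : K - k' = j - k - 1 := by omega
    have h4 : (2 : ℤ) ^ (j - k) = 8 * 2 ^ (j - k - 3) := by
      rw [show (8 : ℤ) = 2 ^ 3 by norm_num, ← pow_add]
      congr 1
      omega
    have h5 : (2 : ℤ) ^ (j - k - 1) = 4 * 2 ^ (j - k - 3) := by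
      rw [show (4 : ℤ) = 2 ^ 2 by norm_num, ← pow_add]
      congr 1
      omega
    rw [h3, h5, hR0, h4, hr]
    linarith
  -- the bad words
  obtain ⟨VV, hVVd⟩ : ∃ VV : Set (List Bool), VV = NTp (r + 2) (R0 - r - 2) ∪ IrS S K J' m := ⟨_, rfl⟩
  have hVV : gf {w | w ∈ WL K ∧ ∃ V ∈ VV, ∃ W, w = V ++ W} ≤ ENNReal.ofReal (2 * δ * Ub K) * Xb K ^ 2 := by
    rw [hVVd]
    refine plain_VV hδ.le hrK hRk (hpl K (by omega)) ((hoff K (by omega)).trans ?_)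
    refine mul_le_mul_left (ENNReal.ofReal_le_ofReal ?_) _
    exact mul_le_mul_of_nonneg_right he1δ (Ub_pos K).le
  rw [hK] at hVV
  obtain ⟨ρ, hρ⟩ : ∃ ρ : ℤ, ρ = 2 ^ (j + u + 3) := ⟨_, rfl⟩
  have hρb : 2 * ρ + 2 ≤ 3 * 2 ^ (b + 1) := by
    have h1 : (2 : ℤ) ^ (b + 1) = 8 * 2 ^ (j + u + 3) := by
      rw [show (8 : ℤ) = 2 ^ 3 by norm_num, ← pow_add]
      congr 1
      omega
    have h2 : (1 : ℤ) ≤ 2 ^ (j + u + 3) := one_le_pow₀ (by norm_num)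
    rw [h1, hρ]
    linarith
  have hρu : (2 : ℤ) ^ (j + u) ≤ ρ := by
    rw [hρ]
    exact hpw _ _ (by omega)
  -- the radii
  obtain ⟨R, hR⟩ : ∃ R : ℕ → ℕ, R = fun s => 3 * m s * 2 ^ (K - J' s) := ⟨_, rfl⟩
  have hJK : ∀ s, s ≤ S → J' s + 6 ≤ K := fun s hs => by have := hJmono s hs; omega
  have hR0i : 3 * m 0 * 2 ^ (K - J' 0) ≤ 2 ^ (j + u) := by
    have h1 : 3 * (m 0 : ℝ) ≤ 1 / 2 ^ g * 2 ^ J' 0 := hr0.trans (mul_le_mul_of_nonneg_right he1g (by positivity))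
    have h2 : 3 * m 0 * 2 ^ g ≤ 2 ^ J' 0 := by
      have h3 : 3 * (m 0 : ℝ) * 2 ^ g ≤ 2 ^ J' 0 := by
        calc 3 * (m 0 : ℝ) * 2 ^ g ≤ (1 / 2 ^ g * 2 ^ J' 0) * 2 ^ g :=
              mul_le_mul_of_nonneg_right h1 (by positivity)
          _ = 2 ^ J' 0 := by field_simp
      exact_mod_cast h3
    have h4 : 3 * m 0 * 2 ^ (K - J' 0) * 2 ^ g ≤ 2 ^ j * 2 ^ g := by
      calc 3 * m 0 * 2 ^ (K - J' 0) * 2 ^ g = (3 * m 0 * 2 ^ g) * 2 ^ (K - J' 0) := by ring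
        _ ≤ 2 ^ J' 0 * 2 ^ (K - J' 0) := Nat.mul_le_mul_right _ h2
        _ = 2 ^ j * 2 ^ g := by
          rw [← pow_add, ← pow_add]
          congr 1
          have := hJK 0 (Nat.zero_le _)
          omega
    have h5 := Nat.le_of_mul_le_mul_right h4 (by positivity)
    exact h5.trans (Nat.pow_le_pow_right (by norm_num) (by omega))
  have hRi : ∀ s, s < S → R s ≤ 2 ^ (j + u) := fun s hs => by
    have h1 := (radQ (K := K) hJ' hm h240 s (by have := hJK s hs.le; omega)).1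
    rw [hR]
    exact h1.trans hR0i
  obtain ⟨d, hd⟩ : ∃ d : ℕ, d = 2 ^ (j - e) + 2 := ⟨_, rfl⟩
  have hdR : ∀ s, s < S → d ≤ R s := fun s hs => by
    have h1 : 2 ^ (j - e) ≤ 2 ^ (j - J' S - 1) := Nat.pow_le_pow_right (by norm_num) (by omega)
    have h2 : 2 ^ 1 ≤ 2 ^ (j - J' S - 1) := Nat.pow_le_pow_right (by norm_num) (by omega)
    have h3 : 2 ^ (j - J' S) = 2 * 2 ^ (j - J' S - 1) := by
      rw [← pow_succ']
      congr 1
      omega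
    have h4 : 2 ^ (j - J' S) ≤ 2 ^ (K - J' s) := Nat.pow_le_pow_right (by norm_num) (by have := hJmono s hs.le; omega)
    have h5 : 2 ^ (K - J' s) ≤ 3 * m s * 2 ^ (K - J' s) := Nat.le_mul_of_pos_left _ (by have := hm s; omega)
    rw [hR, hd]
    show 2 ^ (j - e) + 2 ≤ 3 * m s * 2 ^ (K - J' s)
    omega
  have hrd : r ≤ d := by
    rw [hr, hd]
    push_cast
    linarith
  have hRs : ∀ s, s + 1 < S → 80 * R (s + 1) ≤ 2 ^ (K - J' s) := fun s hs => by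
    have h2 := (radQ (K := K) hJ' hm h240 (s + 1) (by have := hJK (s + 1) hs.le; omega)).2 (by omega)
    rw [hR]
    exact h2
  have hsum : M ≤ ∑ s ∈ range S, ((2 ^ (K - J' s) : ℕ) : ℝ) / R s := by
    refine hMs.trans (le_of_eq (Finset.sum_congr rfl fun s _ => ?_))
    have h1 : (0 : ℝ) < m s := by
      have := hm s
      exact_mod_cast (by omega : 0 < m s)
    rw [hR]
    push_cast
    field_simp
  -- the covering
  obtain ⟨W, hW⟩ : ∃ W : Set (List Bool), W = Win (κ / 2) (2 * C) b J := ⟨_, rfl⟩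
  obtain ⟨T1, hT1⟩ : ∃ T1 : Set PT, T1 = {T | T ∈ P3 Q j ∧ T.1 ∉ W} := ⟨_, rfl⟩
  obtain ⟨T2, hT2⟩ : ∃ T2 : Set PT, T2 = {T | T ∈ P3 Q j ∧ T.1 ∈ W ∧ T.1 ∈ EndEv VV ρ} := ⟨_, rfl⟩
  obtain ⟨T3, hT3⟩ : ∃ T3 : Set PT, T3 = {T | T ∈ P3 Q j ∧ (sw T).1 ∉ W} := ⟨_, rfl⟩
  obtain ⟨T4, hT4⟩ : ∃ T4 : Set PT, T4 = {T | T ∈ P3 Q j ∧ ((sw T).1 ∈ W ∧ (sw T).1 ∈ EndEv VV ρ)} := ⟨_, rfl⟩
  obtain ⟨T5, hT5⟩ : ∃ T5 : Set PT, T5 = {T | T ∈ P3 Q j ∧ T.1 ∈ W ∧ T ∈ MEvP (j + u) r ∧ 2 ^ (j + u + 3) < dz T.2.2 0 ∧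
    T.2.2 ∉ EndEv (IrS S K J' m) (2 ^ (j + u + 3))} := ⟨_, rfl⟩
  obtain ⟨T6, hT6⟩ : ∃ T6 : Set PT, T6 = {T | T ∈ P3 Q j ∧ dz T.1 0 ≤ 2 ^ (j + (u + 3))} := ⟨_, rfl⟩
  obtain ⟨T7, hT7⟩ : ∃ T7 : Set PT, T7 = {T | T ∈ P3 Q j ∧ dz (sw T).1 0 ≤ 2 ^ (j + (u + 3))} := ⟨_, rfl⟩
  have hcov : {T | T ∈ P3 Q j ∧ (T.1 ∈ NTs (j + c) (j + u) (2 ^ (j - e)) (2 ^ (j - k)) ∨
      T ∈ NTx (j + c) (j + u) (2 ^ (j - e)))} ⊆ (((T1 ∪ T2) ∪ (T3 ∪ T4)) ∪ (T6 ∪ T7)) ∪ T5 := by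
    rintro T ⟨hLF, hL⟩
    rw [← hr, ← hR0] at hL
    by_cases h6 : dz T.1 0 ≤ 2 ^ (j + (u + 3))
    · exact Or.inl (Or.inr (Or.inl (by rw [hT6]; exact ⟨hLF, h6⟩)))
    by_cases h7 : dz (sw T).1 0 ≤ 2 ^ (j + (u + 3))
    · exact Or.inl (Or.inr (Or.inr (by rw [hT7]; exact ⟨hLF, h7⟩)))
    by_cases h1 : T.1 ∈ W
    swap
    · exact Or.inl (Or.inl (Or.inl (Or.inl (by rw [hT1]; exact ⟨hLF, h1⟩))))
    by_cases h2 : T.1 ∈ EndEv VV ρ
    · exact Or.inl (Or.inl (Or.inl (Or.inr (by rw [hT2]; exact ⟨hLF, h1, h2⟩))))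
    by_cases h3 : (sw T).1 ∈ W
    swap
    · exact Or.inl (Or.inl (Or.inr (Or.inl (by rw [hT3]; exact ⟨hLF, h3⟩))))
    by_cases h4 : (sw T).1 ∈ EndEv VV ρ
    · exact Or.inl (Or.inl (Or.inr (Or.inr (by rw [hT4]; exact ⟨hLF, h3, h4⟩))))
    rw [not_le, ← add_assoc] at h6 h7
    rw [← hρ] at h6
    rcases hL with hL | hL
    · exfalso
      obtain ⟨a, b', hab, hb', -, -, hnr, hcase⟩ := hL
      rcases hcase with ⟨hES, s, hs1, hs2, hsR⟩ | ⟨hS, -, -⟩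
      · rcases hES with ⟨-, hE'⟩ | ⟨-, hS⟩
        · have ha : 1 ≤ a := by
            by_contra hc
            have h5 := hE' 0 (by omega) (Nat.zero_le _)
            linarith
          refine h2 (EndEv_mono ?_ hρu (nt_end hs1 hs2 hb' ha hE' hnr hsR))
          rw [hVVd]
          exact (NTp_mono (by linarith) (by linarith)).trans Set.subset_union_left
        · have h5 := hS 0 (Nat.zero_le _)
          linarith
      · have h5 := hS.2 0 (Nat.zero_le _)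
        linarith
    · refine Or.inr ?_
      rw [hT5]
      refine ⟨hLF, h1, NTx_sub _ _ _ hL, h7, fun h8 => h4 ?_⟩
      rw [hρ]
      refine EndEv_mono ?_ le_rfl (show (sw T).1 ∈ EndEv (IrS S K J' m) (2 ^ (j + u + 3)) from h8)
      rw [hVVd]
      exact Set.subset_union_right
  -- the masses
  have hpG : pr3 Q (b + (J + 1)) ≤ G * pr3 Q j := by
    have h1 := pr3_up64 Q j (u + 5 + (J + 1))
    rw [hG]
    rw [show j + (u + 5 + (J + 1)) = b + (J + 1) by omega] at h1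
    exact h1
  have hp6 : pr3 Q (j + (u + 5) + 1) ≤ 64 ^ (u + 6) * pr3 Q j := by
    have h1 := pr3_up64 Q j (u + 6)
    rw [show j + (u + 6) = j + (u + 5) + 1 by omega] at h1
    exact h1
  have h16 : (0 : ℝ) < 64 ^ (u + 6) := by positivity
  have g1 : gp T1 ≤ ENNReal.ofReal (ε / 10 * (D * pr3 Q j)) := by
    have h1 := hwin1 D Q j hD hF (by omega) (hQ b1 (by omega))
    rw [hT1, hW, hb]
    refine h1.trans (ENNReal.ofReal_le_ofReal ?_)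
    calc ε1 * D * pr3 Q (j + (u + 5) + 1) ≤ ε1 * D * (64 ^ (u + 6) * pr3 Q j) := by gcongr
      _ = ε / 10 * (D * pr3 Q j) := by
        rw [hε1d]
        field_simp
  have g2 : gp T2 ≤ ENNReal.ofReal (ε / 10 * (D * pr3 Q j)) := by
    have h1 := hend VV (2 * C) b J Q j D (2 * δ) ρ (by omega) (by omega) hD hF (by omega) (by positivity) hρb hVV
    rw [hT2, hW]
    refine h1.trans (ENNReal.ofReal_le_ofReal ?_)
    rw [hδK]
    calc ε / (10 * G) * (D * pr3 Q (b + (J + 1))) ≤ ε / (10 * G) * (D * (G * pr3 Q j)) := by gcongr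
      _ = ε / 10 * (D * pr3 Q j) := by field_simp
  have g3 : gp T3 ≤ ENNReal.ofReal (ε / 10 * (D * pr3 Q j)) := by
    rw [hT3, gp_sw_P3 (fun T => T.1 ∉ W), ← hT1]
    exact g1
  have g4 : gp T4 ≤ ENNReal.ofReal (ε / 10 * (D * pr3 Q j)) := by
    rw [hT4, gp_sw_P3 (fun T => T.1 ∈ W ∧ T.1 ∈ EndEv VV ρ), ← hT2]
    exact g2
  have g5 : gp T5 ≤ ENNReal.ofReal (ε / 10 * (D * pr3 Q j)) := by
    have h1 := hme b Q j (j + u) d S K D J' m R r (by omega) hD hF (by omega) (by omega) hrd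
      (fun s hs => ⟨by have := hJK s hs.le; omega, hm s, by rw [hR], hRi s hs, hdR s hs⟩) hRs hsum
    rw [← hW] at h1
    rw [hT5]
    refine h1.trans (ENNReal.ofReal_le_ofReal ?_)
    calc ε / (10 * G) * (D * pr3 Q (b + (J + 1))) ≤ ε / (10 * G) * (D * (G * pr3 Q j)) := by gcongr
      _ = ε / 10 * (D * pr3 Q j) := by field_simp
  have g6 : gp T6 ≤ ENNReal.ofReal (ε / 10 * (D * pr3 Q j)) := by
    have h1 := hout D Q j hD hF (by omega) (hQ b4 (by omega))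
    rw [hT6, ← mul_assoc]
    exact h1
  have g7 : gp T7 ≤ ENNReal.ofReal (ε / 10 * (D * pr3 Q j)) := by
    rw [hT7, gp_sw_P3 (fun T => dz T.1 0 ≤ 2 ^ (j + (u + 3))), ← hT6]
    exact g6
  obtain ⟨x, hx⟩ : ∃ x : ℝ, x = D * pr3 Q j := ⟨_, rfl⟩
  have hx0 : 0 ≤ x := by rw [hx]; positivity
  rw [← hx] at g1 g2 g3 g4 g5 g6 g7
  refine (gp_mono hcov).trans ((gp_union_le _ _).trans ((add_le_add ((gp_union_le _ _).trans (add_le_add
    ((gp_union_le _ _).trans (add_le_add ((gp_union_le _ _).trans (add_le_add g1 g2))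
    ((gp_union_le _ _).trans (add_le_add g3 g4)))) ((gp_union_le _ _).trans (add_le_add g6 g7)))) g5).trans ?_))
  rw [← ENNReal.ofReal_add (by positivity) (by positivity), ← ENNReal.ofReal_add (by positivity) (by positivity),
    ← ENNReal.ofReal_add (by positivity) (by positivity), ← ENNReal.ofReal_add (by positivity) (by positivity)]
  refine ENNReal.ofReal_le_ofReal ?_
  rw [mul_assoc, ← hx]
  have : 0 ≤ ε * x := by positivity
  linarith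

end RMP

end HexObs
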