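import Pool.Agent.RMP.NFPZ
import Pool.Agent.RMP.NoRP
import Pool.Agent.RMP.NtRP
import Pool.Agent.TIP.GeoZ

/-!
# RM (helper65): **row P4, no hypothesis**
-/

set_option autoImplicit false

namespace HexObs

namespace RMP

open TIP

theorem ntP_r {κ : ℝ} {C : ℕ} (hκ : 0 < κ) (hR : RegZ κ C) (hN : NoRP κ C) : NtP :=
  ntP_of hκ exP (nWinP_of hκ exP (yBad hR) hN)

/-- **row P4** -/
theorem ntP : NtP := by
  obtain ⟨κ, hκ, C, -, hR⟩ := regZ_all
  exact ntP_r hκ hR (noRP hR)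

end RMP

end HexObs
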