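import Pool.Agent.RMP.SandP
import Pool.Agent.RMP.Prod
import Pool.Agent.RMP.NoRP
import Pool.Agent.RMP.EsPZ
import Pool.Agent.RMP.NtPZ
import Pool.Agent.RMP.GoodF
import Pool.Agent.RMP.Early

/-!
# (T1P), no hypothesis (helper15; rows by 73, 29, 63, 65, 74, 39, 87, 51, 47)

The mass of the pairs of words with a gap at most 2 ^ i between their tips, all vertices in the ball of radius R + 2 ^ i.
-/

set_option autoImplicit false

namespace HexObs

namespace RMP

/-- **(T1P)** -/
theorem t1P : T1P := t1P_of outP nFP esP eaP ntP goodP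

/-- **row P8** -/
theorem sepP : SepP := sepP_of t1P outP nFP esP eaP ntP

end RMP

end HexObs
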