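import Pool.Agent.RMP.LimRows
import Pool.Agent.RMP.PubW
import Pool.Agent.RMP.FarE
import Pool.Agent.RMP.T1P
import Pool.Agent.RMP.P9
import Pool.Agent.CRT.Mass
import Pool.Agent.MC.Slow

/-!
# The renormalisation map in the scaling limit, rows LOW and UPP (helper14)

* `psum_up`, `psum_lo` : `psum` and the mass of the pairs of words, with constants;
* **`upp : UPP`** (from `t1P` and `farE`);
* **`low_of`** : `LOW` from the literal of row P9 (helper10).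
-/

set_option autoImplicit false

open Finset
open scoped Classical ENNReal

namespace Pool.Agent.RMP

namespace LimLow

open HexObs hiding pos

open HexObs.SDN HexObs.RMP HexObs.TIW

open HexObs.ARM (ml)

open Pool.Agent.NTS.Res

open NTF (JJ)

open NTSF (ww ww_pos)

open W

lemma gpF_one (S : Set PT) : gpF (fun _ => 1) S = gp S := by
  unfold gpF gp
  simp

/-- `psum` of the function `1` by the lengths -/
lemma psum_one {n k : ℕ} (R : ℝ) (hk : 0 < k) (hkn : k < n) {d : ℝ} (hd : 0 ≤ d) :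
    psum n k d R (fun _ => 1) = ∑ m ∈ win d k, ∑ l ∈ win d (n - k),
      xc ^ (m + l) * (YY (fun _ => 1) (SR R) m l).toReal * (3 / 4 * (1 / (ww m * ww l))) := by
  rw [psum_eq (f := fun _ => 1) (fun _ => zero_le_one) (fun _ => le_rfl) R hk hkn hd]
  refine sum_congr rfl fun m _ => sum_congr rfl fun l _ => ?_
  have h1 := ww_pos m
  have h2 := ww_pos l
  rw [Finset.sum_const, Finset.card_univ, Fintype.card_fin, nsmul_eq_mul]
  field_simp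
  ring

lemma gp_one {n k : ℕ} (R : ℝ) (hkn : k ≤ n) {d : ℝ} (hd : 0 ≤ d) :
    (gp (PR n k d (SR R))).toReal = ∑ m ∈ win d k, ∑ l ∈ win d (n - k),
      xc ^ (m + l) * (YY (fun _ => 1) (SR R) m l).toReal := by
  rw [← gpF_one]
  exact gpF_real (fun _ => le_rfl) hkn hd (SR_fin R)

/-- **upper bound of `psum`** -/
lemma psum_up {n k : ℕ} {R d w : ℝ} (hk : 0 < k) (hkn : k < n) (hd : 0 ≤ d) (hw : 0 < w)
    (h1 : ∀ m ∈ win d k, w ≤ ww m) (h2 : ∀ l ∈ win d (n - k), w ≤ ww l) :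
    psum n k d R (fun _ => 1) ≤ 3 / 4 / w ^ 2 * (gp (PR n k d (SR R))).toReal := by
  have hx := xc_pos
  rw [psum_one R hk hkn hd, gp_one R hkn.le hd, mul_sum]
  refine sum_le_sum fun m hm => ?_
  rw [mul_sum]
  refine sum_le_sum fun l hl => ?_
  have a1 := h1 m hm
  have a2 := h2 l hl
  have a3 : w ^ 2 ≤ ww m * ww l := by
    rw [sq]
    exact mul_le_mul a1 a2 hw.le (hw.le.trans a1)
  have a4 : 1 / (ww m * ww l) ≤ 1 / w ^ 2 := one_div_le_one_div_of_le (by positivity) a3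
  have a5 : 0 ≤ xc ^ (m + l) * (YY (fun _ => 1) (SR R) m l).toReal := by positivity
  calc _ ≤ xc ^ (m + l) * (YY (fun _ => 1) (SR R) m l).toReal * (3 / 4 * (1 / w ^ 2)) :=
        mul_le_mul_of_nonneg_left (mul_le_mul_of_nonneg_left a4 (by norm_num)) a5
    _ = _ := by ring

/-- **lower bound of `psum`** -/
lemma psum_lo {n k : ℕ} {R d w : ℝ} (hk : 0 < k) (hkn : k < n) (hd : 0 ≤ d)
    (h1 : ∀ m ∈ win d k, ww m ≤ w) (h2 : ∀ l ∈ win d (n - k), ww l ≤ w) :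
    3 / 4 / w ^ 2 * (gp (PR n k d (SR R))).toReal ≤ psum n k d R (fun _ => 1) := by
  have hx := xc_pos
  rw [psum_one R hk hkn hd, gp_one R hkn.le hd, mul_sum]
  refine sum_le_sum fun m hm => ?_
  rw [mul_sum]
  refine sum_le_sum fun l hl => ?_
  have a1 := h1 m hm
  have a2 := h2 l hl
  have b1 := ww_pos m
  have b2 := ww_pos l
  have a3 : ww m * ww l ≤ w ^ 2 := by
    rw [sq]
    exact mul_le_mul a1 a2 b2.le (b1.le.trans a1)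
  have a4 : 1 / w ^ 2 ≤ 1 / (ww m * ww l) := one_div_le_one_div_of_le (by positivity) a3
  have a5 : 0 ≤ xc ^ (m + l) * (YY (fun _ => 1) (SR R) m l).toReal := by positivity
  calc _ = xc ^ (m + l) * (YY (fun _ => 1) (SR R) m l).toReal * (3 / 4 * (1 / w ^ 2)) := by ring
    _ ≤ _ := mul_le_mul_of_nonneg_left (mul_le_mul_of_nonneg_left a4 (by norm_num)) a5

lemma ww_bd : ∃ c C : ℝ, 0 < c ∧ 0 < C ∧ ∀ n : ℕ, 1 ≤ n → c * (n : ℝ) ^ (11 / 32 : ℝ) ≤ ww n ∧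
    ww n ≤ C * (n : ℝ) ^ (11 / 32 : ℝ) := _root_.CRT.Mass.aN_bounds

lemma ml_eq (j : ℕ) : ml j = ((2 : ℝ) ^ j) ^ (4 / 3 : ℝ) := by
  unfold ml
  rw [← Real.rpow_natCast, ← Real.rpow_mul (by norm_num)]
  congr 1
  ring

/-- the powers of two near `x` -/
lemma pow_near {x : ℝ} (hx : 1 ≤ x) : ∃ j : ℕ, (2 : ℝ) ^ j ≤ x ∧ x < 2 * 2 ^ j := by
  obtain ⟨j, h1, h2⟩ := exists_nat_pow_near hx (by norm_num : (1 : ℝ) < 2)
  exact ⟨j, h1, by rw [pow_succ] at h2; linarith⟩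

lemma big {x : ℝ} (y : ℝ) (hx : 0 < x) : ∃ n0 : ℕ, ∀ n : ℕ, n0 ≤ n → y ≤ x * (n : ℝ) ^ (3 / 4 : ℝ) := by
  have h : Filter.Tendsto (fun n : ℕ => x * (n : ℝ) ^ (3 / 4 : ℝ)) Filter.atTop Filter.atTop :=
    ((tendsto_rpow_atTop (by norm_num : (0 : ℝ) < 3 / 4)).comp tendsto_natCast_atTop_atTop).const_mul_atTop hx
  obtain ⟨n0, h⟩ := Filter.eventually_atTop.1 (h.eventually_ge_atTop y)
  exact ⟨n0, h⟩

end LimLow

open LimLow

open HexObs hiding pos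

open HexObs.SDN HexObs.RMP HexObs.TIW

open HexObs.ARM (ml)

open Pool.Agent.NTS.Res

open NTF (JJ)

open NTSF (ww ww_pos)

open W

/-- **row UPP** -/
theorem upp : UPP := by
  intro ε hε
  obtain ⟨c, C0, hc, hC0, hww⟩ := ww_bd
  obtain ⟨D, hD, hT⟩ := t1P
  obtain ⟨M, hM⟩ := farE t1P 1 2 one_pos two_pos
  obtain ⟨D1, hD1⟩ : ∃ D1 : ℝ, D1 = 1 + D * (2 : ℝ) ^ ((25 / 8 : ℝ) * M) := ⟨_, rfl⟩
  have hD10 : 0 < D1 := by rw [hD1]; positivity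
  obtain ⟨D2, hD2⟩ : ∃ D2 : ℝ, D2 = D1 * ((8 : ℝ) ^ (59 / 24 : ℝ) * (8 : ℝ) ^ (25 / 8 : ℝ)) := ⟨_, rfl⟩
  have hD20 : 0 < D2 := by rw [hD2]; positivity
  refine ⟨3 / 4 / (c * ε ^ (11 / 32 : ℝ)) ^ 2 * D2, by positivity, fun r hr hr1 => ?_⟩
  obtain ⟨n1, hn1⟩ := big (1 : ℝ) (by positivity : 0 < 2 * r)
  refine ⟨n1 + 1, fun n k d hn hk1 hk2 hd hd1 => ?_⟩
  have hnn : 1 ≤ n := by omega
  have hn0 : (0 : ℝ) < n := by exact_mod_cast hnn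
  have hR1 := hn1 n (by omega)
  obtain ⟨v, hv⟩ : ∃ v : ℝ, v = (n : ℝ) ^ (3 / 4 : ℝ) := ⟨_, rfl⟩
  have hv0 : 0 < v := by rw [hv]; positivity
  have hv1 : 1 ≤ v := by rw [hv]; exact Real.one_le_rpow (by exact_mod_cast hnn) (by norm_num)
  rw [← hv] at hR1 ⊢
  have hk0 : 0 < k := by
    have : (0 : ℝ) < k := lt_of_lt_of_le (by positivity) hk1
    exact_mod_cast this
  have hkn : k < n := by
    have : (k : ℝ) < n := lt_of_le_of_lt hk2 (by nlinarith)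
    exact_mod_cast this
  have hnk : ((n - k : ℕ) : ℝ) = n - k := Nat.cast_sub hkn.le
  -- the weights
  have hw : ∀ m : ℕ, ε * n ≤ m → c * (ε * n) ^ (11 / 32 : ℝ) ≤ ww m := by
    intro m hm
    have h1 : 1 ≤ m := by
      have : (0 : ℝ) < m := lt_of_lt_of_le (by positivity) hm
      exact_mod_cast this
    refine le_trans ?_ (hww m h1).1
    exact mul_le_mul_of_nonneg_left (Real.rpow_le_rpow (by positivity) hm (by norm_num)) hc.le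
  have hup := psum_up (n := n) (k := k) (R := r * v) (d := d) (w := c * (ε * n) ^ (11 / 32 : ℝ)) hk0 hkn hd (by positivity)
    (fun m hm => hw m (hk1.trans (by exact_mod_cast ((mem_win hd).1 hm).1)))
    (fun l hl => hw l (by
      have h1 : ((n - k : ℕ) : ℝ) ≤ l := by exact_mod_cast ((mem_win hd).1 hl).1
      rw [hnk] at h1
      linarith))
  refine hup.trans ?_
  -- the levels
  obtain ⟨j0, hj1, hj2⟩ := pow_near hR1
  obtain ⟨j, hj⟩ : ∃ j : ℕ, j = j0 + 1 := ⟨_, rfl⟩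
  have hj3 : (2 : ℝ) ^ j = 2 * 2 ^ j0 := by rw [hj, pow_succ]; ring
  obtain ⟨K0, hK1, hK2⟩ := pow_near (show (1 : ℝ) ≤ 4 * v by linarith)
  obtain ⟨K, hK⟩ : ∃ K : ℕ, K = K0 + 1 := ⟨_, rfl⟩
  have hK3 : (2 : ℝ) ^ K = 2 * 2 ^ K0 := by rw [hK, pow_succ]; ring
  have a1 : 2 * r * v ≤ 2 ^ j := by rw [hj3]; exact hj2.le
  have a2 : (2 : ℝ) ^ j ≤ 8 * (r * v) := by rw [hj3]; nlinarith [mul_pos hr hv0]
  have a2' : (2 : ℝ) ^ j ≤ 4 * v := by rw [hj3]; nlinarith [mul_pos hr hv0]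
  have a3 : 4 * v ≤ 2 ^ K := by rw [hK3]; exact hK2.le
  have a4 : (2 : ℝ) ^ K ≤ 8 * v := by rw [hK3]; linarith
  have hjK : j ≤ K := by
    have : (2 : ℝ) ^ j ≤ 2 ^ K := a2'.trans a3
    exact (pow_le_pow_iff_right₀ (by norm_num : (1 : ℝ) < 2)).1 this
  have hml : ((2 * n : ℕ) : ℝ) ≤ 2 * ml K := by
    rw [ml_eq]
    have h1 : (n : ℝ) ≤ ((2 : ℝ) ^ K) ^ (4 / 3 : ℝ) := by
      calc (n : ℝ) = v ^ (4 / 3 : ℝ) := by
            rw [hv, ← Real.rpow_mul hn0.le]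
            norm_num
        _ ≤ _ := Real.rpow_le_rpow hv0.le (by linarith) (by norm_num)
    push_cast
    linarith
  -- the mass
  have hsub : PR n k d (SR (r * v)) ⊆ (PL (2 * n) j \ P3 (2 ^ (K + M)) j) ∪ P3 (2 ^ (K + M)) j := by
    rintro T ⟨b1, b2, b3, b4, b5, b6, b7, b8, b9⟩
    have hlen : T ∈ PL (2 * n) j := by
      refine ⟨b1, b2, b3, b4, ?_, ?_, ?_⟩
      · have h1 : ‖JJ (TIW.en T.1 - pe T.2.1 T.2.2)‖ ≤ r * v := b5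
        have h2 := HexObs.MCP.hn_le_JJ (TIW.en T.1 - pe T.2.1 T.2.2)
        have h3 : (TIW.hn (TIW.en T.1 - pe T.2.1 T.2.2) : ℝ) ≤ 2 ^ j := by linarith
        exact_mod_cast h3
      · have h1 : (T.1.length : ℝ) ≤ 2 * n := by
          have h2 : (k : ℝ) ≤ n := by exact_mod_cast hkn.le
          have h3 : (0 : ℝ) ≤ k := Nat.cast_nonneg k
          nlinarith
        exact_mod_cast h1
      · have h1 : (T.2.2.length : ℝ) ≤ 2 * n := by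
          have h2 : (k : ℝ) ≤ n := by exact_mod_cast hkn.le
          have h3 : (0 : ℝ) ≤ k := Nat.cast_nonneg k
          nlinarith
        exact_mod_cast h1
    by_cases h : T ∈ P3 (2 ^ (K + M)) j
    · exact Or.inr h
    · exact Or.inl ⟨hlen, h⟩
  have hp0 : 0 < pr3 (2 ^ K) j := pr3_pos _ _
  have hmass : gp (PR n k d (SR (r * v))) ≤ ENNReal.ofReal (D1 * pr3 (2 ^ K) j) := by
    calc gp (PR n k d (SR (r * v))) ≤ gp ((PL (2 * n) j \ P3 (2 ^ (K + M)) j) ∪ P3 (2 ^ (K + M)) j) := gp_mono hsub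
      _ ≤ gp (PL (2 * n) j \ P3 (2 ^ (K + M)) j) + gp (P3 (2 ^ (K + M)) j) := gp_union_le _ _
      _ ≤ ENNReal.ofReal (1 * pr3 (2 ^ K) j) + ENNReal.ofReal (D * pr3 (2 ^ (K + M)) j) :=
          add_le_add (hM K j (2 * n) hjK hml) (hT _ _)
      _ = ENNReal.ofReal (D1 * pr3 (2 ^ K) j) := by
          rw [← ENNReal.ofReal_add (by positivity) (by rw [pr3_scale hjK]; positivity), pr3_scale hjK, hD1]
          congr 1
          ring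
  have hmass2 : (gp (PR n k d (SR (r * v)))).toReal ≤ D1 * pr3 (2 ^ K) j :=
    ENNReal.toReal_le_of_le_ofReal (by positivity) hmass
  have hpr : pr3 (2 ^ K) j ≤ ((8 : ℝ) ^ (59 / 24 : ℝ) * (8 : ℝ) ^ (25 / 8 : ℝ)) *
      (r ^ (59 / 24 : ℝ) * (v ^ (59 / 24 : ℝ) * v ^ (25 / 8 : ℝ))) := by
    rw [pr3_eq (Nat.pow_le_pow_right (by norm_num) hjK)]
    have h1 : (2 : ℝ) ^ ((59 / 24 : ℝ) * (j : ℝ)) = ((2 : ℝ) ^ j) ^ (59 / 24 : ℝ) := by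
      rw [← Real.rpow_natCast, ← Real.rpow_mul (by norm_num)]
      congr 1
      ring
    have h2 : ((2 : ℝ) ^ j) ^ (59 / 24 : ℝ) ≤ (8 : ℝ) ^ (59 / 24 : ℝ) * (r ^ (59 / 24 : ℝ) * v ^ (59 / 24 : ℝ)) := by
      rw [← Real.mul_rpow hr.le hv0.le, ← Real.mul_rpow (by norm_num) (by positivity)]
      exact Real.rpow_le_rpow (by positivity) a2 (by norm_num)
    have h3 : (((2 ^ K : ℕ) : ℝ)) ^ (25 / 8 : ℝ) ≤ (8 : ℝ) ^ (25 / 8 : ℝ) * v ^ (25 / 8 : ℝ) := by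
      rw [← Real.mul_rpow (by norm_num) hv0.le]
      push_cast
      exact Real.rpow_le_rpow (by positivity) a4 (by norm_num)
    rw [h1]
    calc ((2 : ℝ) ^ j) ^ (59 / 24 : ℝ) * ((2 ^ K : ℕ) : ℝ) ^ (25 / 8 : ℝ) ≤
          ((8 : ℝ) ^ (59 / 24 : ℝ) * (r ^ (59 / 24 : ℝ) * v ^ (59 / 24 : ℝ))) * ((8 : ℝ) ^ (25 / 8 : ℝ) * v ^ (25 / 8 : ℝ)) :=
          mul_le_mul h2 h3 (by positivity) (by positivity)
      _ = _ := by ring
  -- the powers of n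
  have e1 : v ^ (59 / 24 : ℝ) * v ^ (25 / 8 : ℝ) = (n : ℝ) ^ (7 / 2 : ℝ) * (n : ℝ) ^ (11 / 16 : ℝ) := by
    rw [hv, ← Real.rpow_mul hn0.le, ← Real.rpow_mul hn0.le, ← Real.rpow_add hn0, ← Real.rpow_add hn0]
    norm_num
  have e2 : (c * (ε * n) ^ (11 / 32 : ℝ)) ^ 2 = (c * ε ^ (11 / 32 : ℝ)) ^ 2 * (n : ℝ) ^ (11 / 16 : ℝ) := by
    rw [Real.mul_rpow hε.le hn0.le, ← mul_assoc, mul_pow _ ((n : ℝ) ^ (11 / 32 : ℝ)), ← Real.rpow_natCast ((n : ℝ) ^ (11 / 32 : ℝ)) 2,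
      ← Real.rpow_mul hn0.le]
    norm_num
  have hn16 : (0 : ℝ) < (n : ℝ) ^ (11 / 16 : ℝ) := by positivity
  rw [e2]
  calc 3 / 4 / ((c * ε ^ (11 / 32 : ℝ)) ^ 2 * (n : ℝ) ^ (11 / 16 : ℝ)) * (gp (PR n k d (SR (r * v)))).toReal
      ≤ 3 / 4 / ((c * ε ^ (11 / 32 : ℝ)) ^ 2 * (n : ℝ) ^ (11 / 16 : ℝ)) * (D1 * (((8 : ℝ) ^ (59 / 24 : ℝ) * (8 : ℝ) ^ (25 / 8 : ℝ)) *
        (r ^ (59 / 24 : ℝ) * ((n : ℝ) ^ (7 / 2 : ℝ) * (n : ℝ) ^ (11 / 16 : ℝ))))) := by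
        rw [← e1]
        exact mul_le_mul_of_nonneg_left (hmass2.trans (mul_le_mul_of_nonneg_left hpr hD10.le)) (by positivity)
    _ = 3 / 4 / (c * ε ^ (11 / 32 : ℝ)) ^ 2 * D2 * r ^ (59 / 24 : ℝ) * (n : ℝ) ^ (7 / 2 : ℝ) := by
        rw [hD2]
        field_simp

/-- **row LOW** from the literal of row P9 (helper10) -/
theorem low_of (h : ∀ t0 d : ℝ, 0 < t0 → 0 < d → ∃ (c : ℝ) (b0 : ℕ), 0 < c ∧ ∀ n k j : ℕ, b0 ≤ j → 2 ^ b0 * ml j ≤ n →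
    t0 * n ≤ k → (k : ℝ) ≤ (1 - t0) * n → ∀ S : Set Pt, (∀ p : Pt, TIW.hn p ≤ 2 ^ j → p ∈ S) →
      ENNReal.ofReal (c * ((2 : ℝ) ^ ((59 / 24 : ℝ) * j) * (n : ℝ) ^ (75 / 32 : ℝ))) ≤ gp (PR n k d S)) : LOW := by
  intro ε d hε hd hd1
  obtain ⟨c0, C, hc0, hC, hww⟩ := ww_bd
  obtain ⟨c, b0, hc, h⟩ := h ε d hε hd
  refine ⟨3 / 4 / (C * (2 : ℝ) ^ (11 / 32 : ℝ)) ^ 2 * (c * (1 / 2 : ℝ) ^ (59 / 24 : ℝ)), 1 / 2 ^ b0, by positivity, by positivity,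
    fun r hr hr0 => ?_⟩
  have hr1 : r ≤ 1 := hr0.trans (by
    rw [div_le_one (by positivity)]
    exact one_le_pow₀ (by norm_num))
  obtain ⟨n1, hn1⟩ := big ((2 : ℝ) ^ b0) hr
  refine ⟨n1 + 1, fun n k hn hk1 hk2 => ?_⟩
  have hnn : 1 ≤ n := by omega
  have hn0 : (0 : ℝ) < n := by exact_mod_cast hnn
  have hR1 := hn1 n (by omega)
  obtain ⟨v, hv⟩ : ∃ v : ℝ, v = (n : ℝ) ^ (3 / 4 : ℝ) := ⟨_, rfl⟩
  have hv0 : 0 < v := by rw [hv]; positivity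
  rw [← hv] at hR1 ⊢
  have hk0 : 0 < k := by
    have : (0 : ℝ) < k := lt_of_lt_of_le (by positivity) hk1
    exact_mod_cast this
  have hkn : k < n := by
    have : (k : ℝ) < n := lt_of_le_of_lt hk2 (by nlinarith)
    exact_mod_cast this
  have hnk : ((n - k : ℕ) : ℝ) = n - k := Nat.cast_sub hkn.le
  have hkr : (k : ℝ) ≤ n := by exact_mod_cast hkn.le
  have hkr0 : (0 : ℝ) ≤ k := Nat.cast_nonneg k
  -- the weights
  have hw : ∀ m : ℕ, 1 ≤ m → (m : ℝ) ≤ 2 * n → ww m ≤ C * (2 * n) ^ (11 / 32 : ℝ) := by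
    intro m h1 hm
    refine (hww m h1).2.trans ?_
    exact mul_le_mul_of_nonneg_left (Real.rpow_le_rpow (by positivity) hm (by norm_num)) hC.le
  have hlo := psum_lo (n := n) (k := k) (R := r * v) (d := d) (w := C * (2 * n) ^ (11 / 32 : ℝ)) hk0 hkn hd.le
    (fun m hm => by
      obtain ⟨h1, h2⟩ := (mem_win hd.le).1 hm
      exact hw m (by omega) (by nlinarith))
    (fun l hl => by
      obtain ⟨h1, h2⟩ := (mem_win hd.le).1 hl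
      rw [hnk] at h2
      exact hw l (by omega) (by nlinarith))
  refine le_trans ?_ hlo
  -- the level
  obtain ⟨j, hj1, hj2⟩ := pow_near (show (1 : ℝ) ≤ r * v from (one_le_pow₀ (by norm_num)).trans hR1)
  have hbj : b0 ≤ j := by
    have h1 : (2 : ℝ) ^ b0 < 2 ^ (j + 1) := by
      rw [pow_succ]
      linarith
    have h2 := (pow_lt_pow_iff_right₀ (by norm_num : (1 : ℝ) < 2)).1 h1
    omega
  have hml : 2 ^ b0 * ml j ≤ n := by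
    rw [ml_eq]
    have h1 : ((2 : ℝ) ^ j) ^ (4 / 3 : ℝ) ≤ (r * v) ^ (4 / 3 : ℝ) := Real.rpow_le_rpow (by positivity) hj1 (by norm_num)
    have h2 : (r * v) ^ (4 / 3 : ℝ) = r ^ (4 / 3 : ℝ) * n := by
      rw [Real.mul_rpow hr.le hv0.le, hv, ← Real.rpow_mul hn0.le]
      norm_num
    have h3 : r ^ (4 / 3 : ℝ) ≤ r := by
      calc r ^ (4 / 3 : ℝ) ≤ r ^ (1 : ℝ) := Real.rpow_le_rpow_of_exponent_ge hr hr1 (by norm_num)
        _ = r := Real.rpow_one r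
    have h4 : 2 ^ b0 * r ≤ 1 := by
      have := mul_le_mul_of_nonneg_left hr0 (by positivity : (0 : ℝ) ≤ 2 ^ b0)
      rwa [mul_one_div_cancel (by positivity)] at this
    calc 2 ^ b0 * ((2 : ℝ) ^ j) ^ (4 / 3 : ℝ) ≤ 2 ^ b0 * (r * n) :=
          mul_le_mul_of_nonneg_left ((h1.trans h2.le).trans (mul_le_mul_of_nonneg_right h3 hn0.le)) (by positivity)
      _ = 2 ^ b0 * r * n := by ring
      _ ≤ 1 * n := mul_le_mul_of_nonneg_right h4 hn0.le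
      _ = n := one_mul _
  have hg := h n k j hbj hml hk1 hk2 (SR (r * v)) (fun p hp => by
    show ‖JJ p‖ ≤ r * v
    have h1 := HexObs.MCP.JJ_le_hn p
    have h2 : (TIW.hn p : ℝ) ≤ 2 ^ j := by exact_mod_cast hp
    linarith)
  rw [ENNReal.ofReal_le_iff_le_toReal (gp_PR_ne n k d (SR_fin _))] at hg
  have h1 : (1 / 2 : ℝ) ^ (59 / 24 : ℝ) * (r ^ (59 / 24 : ℝ) * v ^ (59 / 24 : ℝ)) ≤ (2 : ℝ) ^ ((59 / 24 : ℝ) * (j : ℝ)) := by
    have h2 : (2 : ℝ) ^ ((59 / 24 : ℝ) * (j : ℝ)) = ((2 : ℝ) ^ j) ^ (59 / 24 : ℝ) := by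
      rw [← Real.rpow_natCast, ← Real.rpow_mul (by norm_num)]
      congr 1
      ring
    rw [h2, ← Real.mul_rpow hr.le hv0.le, ← Real.mul_rpow (by norm_num) (by positivity)]
    exact Real.rpow_le_rpow (by positivity) (by linarith) (by norm_num)
  have e1 : v ^ (59 / 24 : ℝ) * (n : ℝ) ^ (75 / 32 : ℝ) = (n : ℝ) ^ (7 / 2 : ℝ) * (n : ℝ) ^ (11 / 16 : ℝ) := by
    rw [hv, ← Real.rpow_mul hn0.le, ← Real.rpow_add hn0, ← Real.rpow_add hn0]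
    norm_num
  have e2 : (C * (2 * (n : ℝ)) ^ (11 / 32 : ℝ)) ^ 2 = (C * (2 : ℝ) ^ (11 / 32 : ℝ)) ^ 2 * (n : ℝ) ^ (11 / 16 : ℝ) := by
    rw [Real.mul_rpow (by norm_num) hn0.le, ← mul_assoc, mul_pow _ ((n : ℝ) ^ (11 / 32 : ℝ)),
      ← Real.rpow_natCast ((n : ℝ) ^ (11 / 32 : ℝ)) 2, ← Real.rpow_mul hn0.le]
    norm_num
  have hn16 : (0 : ℝ) < (n : ℝ) ^ (11 / 16 : ℝ) := by positivity
  rw [e2]
  calc 3 / 4 / (C * (2 : ℝ) ^ (11 / 32 : ℝ)) ^ 2 * (c * (1 / 2 : ℝ) ^ (59 / 24 : ℝ)) * r ^ (59 / 24 : ℝ) * (n : ℝ) ^ (7 / 2 : ℝ)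
      = 3 / 4 / ((C * (2 : ℝ) ^ (11 / 32 : ℝ)) ^ 2 * (n : ℝ) ^ (11 / 16 : ℝ)) * (c * ((1 / 2 : ℝ) ^ (59 / 24 : ℝ) *
        r ^ (59 / 24 : ℝ) * ((n : ℝ) ^ (7 / 2 : ℝ) * (n : ℝ) ^ (11 / 16 : ℝ)))) := by
        field_simp
    _ = 3 / 4 / ((C * (2 : ℝ) ^ (11 / 32 : ℝ)) ^ 2 * (n : ℝ) ^ (11 / 16 : ℝ)) * (c * (((1 / 2 : ℝ) ^ (59 / 24 : ℝ) *
        (r ^ (59 / 24 : ℝ) * v ^ (59 / 24 : ℝ))) * (n : ℝ) ^ (75 / 32 : ℝ))) := by
        rw [← e1]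
        ring
    _ ≤ _ := by
        refine mul_le_mul_of_nonneg_left (le_trans ?_ hg) (by positivity)
        exact mul_le_mul_of_nonneg_left (mul_le_mul_of_nonneg_right h1 (by positivity)) hc.le

/-- **row LOW** -/
theorem low : LOW := low_of lowPR

end Pool.Agent.RMP
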