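import Pool.Agent.RMP.LimRows
import Pool.Agent.RMP.LimSub
import Pool.Agent.TSW.RevC

/-!
# The renormalisation map in the scaling limit, row NEG (helper75)

**`neg`** : for large `n` the law of the curves is almost symmetric under `γ ↦ -γ`. The reversed walk has the curve `± Rc γ` (sign
of the parity of `n`), so the mean of `F (-Rc γ)` is the mean of `F (-γ)` for even `n` and the mean of `F γ` for odd `n`; and the
laws of `n` and `n + 1` steps are close.
-/

set_option autoImplicit false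

open MeasureTheory Filter Topology
open scoped Classical

namespace Pool.Agent.RMP

open Pool.Agent.NTS.Res

open Pool.Agent.TSW (Rc lip_Rc curve_rv sum_rv)

namespace LimNeg

lemma near_one (ε : ℝ) (hε : 0 < ε) : ∃ n0 : ℕ, ∀ n : ℕ, n0 ≤ n →
    ∀ G : C(unitInterval, ℂ) → ℝ, (∀ γ, |G γ| ≤ 1) → LipschitzWith 1 G →
      |∫ γ, G γ ∂(law (n + 1)) - ∫ γ, G γ ∂(law n)| ≤ ε := by
  obtain ⟨δ, hδ, n0, h1⟩ := LimSub.law_near ε hε
  obtain ⟨N, hN⟩ := exists_nat_ge (1 / δ)
  refine ⟨max n0 N, fun n hn => h1 n 1 ((le_max_left _ _).trans hn) ?_⟩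
  have hn' : (N : ℝ) ≤ n := by exact_mod_cast (le_max_right _ _).trans hn
  rw [Nat.cast_one, ← div_le_iff₀' hδ]
  exact hN.trans hn'

lemma lip_negc {F : C(unitInterval, ℂ) → ℝ} (hF : LipschitzWith 1 F) : LipschitzWith 1 fun γ => F (-γ) := by
  refine LipschitzWith.of_dist_le_mul fun x y => ?_
  have h := hF.dist_le_mul (-x) (-y)
  rwa [dist_neg_neg] at h

/-- the mean of `F` of the negative of the reversed curve -/
lemma mean_Rcn (F : C(unitInterval, ℂ) → ℝ) (n : ℕ) :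
    ∫ γ, F (-Rc γ) ∂(law n) = if Even n then ∫ γ, F (-γ) ∂(law n) else ∫ γ, F γ ∂(law n) := by
  have key : ∀ G : C(unitInterval, ℂ) → ℝ, ∫ γ, G γ ∂(law n) = ∫ γ, G ((-1 : ℂ) ^ n • Rc γ) ∂(law n) := by
    intro G
    rw [NTSF.integral_law G, NTSF.integral_law fun γ => G ((-1 : ℂ) ^ n • Rc γ), ← sum_rv]
    simp only [curve_rv]
  split_ifs with h
  · rw [key fun γ => F (-γ)]
    simp only [h.neg_one_pow, one_smul]
  · have e : ∀ γ : C(unitInterval, ℂ), (-1 : ℂ) • Rc γ = -Rc γ := fun γ => by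
      ext u
      show (-1 : ℂ) * Rc γ u = -(Rc γ u)
      ring
    rw [key F]
    simp only [(Nat.not_even_iff_odd.1 h).neg_one_pow, e]

lemma absF_le {F : C(unitInterval, ℂ) → ℝ} (hF : ∀ γ, 0 ≤ F γ ∧ F γ ≤ 1) (γ : C(unitInterval, ℂ)) : |F γ| ≤ 1 :=
  abs_le.2 ⟨by linarith [(hF γ).1], (hF γ).2⟩

end LimNeg

open LimNeg in
/-- **row NEG** -/
theorem neg : NEG := by
  intro ε hε
  obtain ⟨n0, h1⟩ := near_one (ε / 3) (by positivity)
  refine ⟨n0, fun n hn F hF hL => ?_⟩
  have a1 := h1 n hn F (absF_le hF) hL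
  have a2 := h1 n hn (fun γ => F (-γ)) (fun γ => absF_le hF _) (lip_negc hL)
  have a3 := h1 n hn (fun γ => F (-Rc γ) / 2) (fun γ => by
    rw [abs_div, abs_two]
    have := absF_le hF (-Rc γ)
    linarith) (by
    refine LipschitzWith.of_dist_le_mul fun x y => ?_
    have h2 := (lip_negc hL).dist_le_mul (Rc x) (Rc y)
    have h3 := lip_Rc.dist_le_mul x y
    rw [NNReal.coe_one, one_mul] at h2 ⊢
    rw [Real.dist_eq] at h2 ⊢
    have e : F (-Rc x) / 2 - F (-Rc y) / 2 = (F (-Rc x) - F (-Rc y)) / 2 := by ring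
    rw [e, abs_div, abs_two]
    push_cast at h3
    linarith)
  rw [integral_div, integral_div, mean_Rcn, mean_Rcn] at a3
  rw [abs_le] at a1 a2 a3 ⊢
  rcases Nat.even_or_odd n with h | h
  · rw [if_pos h, if_neg (Nat.not_even_iff_odd.2 h.add_one)] at a3
    constructor <;> linarith [a1.1, a1.2, a3.1, a3.2]
  · rw [if_neg (Nat.not_even_iff_odd.2 h), if_pos h.add_one] at a3
    constructor <;> linarith [a2.1, a2.2, a3.1, a3.2]

end Pool.Agent.RMP
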