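import Pool.Agent.RMP.Base
import Pool.Agent.RMP.NtX
import Pool.Agent.SIM.FinA
import Pool.Agent.TPC.XUp
import Pool.Agent.ARM.PMJ
import Pool.Agent.JNT.JoB

/-!
# RM, near touches of the two words of a pair when the gap is of the order of the size (helper58)

`NtpSt`: for `R ≤ 2 ^ (j + c)` the pairs of `P3 R j` with two vertices of different words at distance at most `2 ^ (j - e)` are
a small part of the product bound. Proof: for given words the translations of the second word are counted (`SIM.vcount`); the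
obstacle is the first word or its reversed walk.
-/

set_option autoImplicit false

namespace HexObs

namespace RMP

open Finset TS SDN HexObs.SIM NTA TIP ARM

open scoped ENNReal

/-- a vertex of the first word and a vertex of the second word at distance at most r -/
def Near (r : ℤ) : Set PT :=
  {T | ∃ a b, a ≤ T.1.length ∧ b ≤ T.2.2.length ∧ TIW.hn (vx oo up T.1 a - pv T.2.1 T.2.2 b) ≤ r}

/-- **row NTP** -/
def NtpSt : Prop := ∀ (c : ℕ) (ε : ℝ), 0 < ε → ∃ e b0 : ℕ, e ≤ b0 ∧ ∀ R j : ℕ, b0 ≤ j → R ≤ 2 ^ (j + c) →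
  gp {T | T ∈ P3 R j ∧ T ∈ Near (2 ^ (j - e))} ≤ ENNReal.ofReal (ε * (2 : ℝ) ^ ((67 / 12 : ℝ) * (j : ℝ)))

/-! ### 1. Counting the places of the second word -/

open Classical in
/-- the places of the second word are counted -/
lemma gp_cnt {S : Set PT} {S1 S2 : Set (List Bool)} {N : ℝ}
    (h1 : ∀ T ∈ S, T.1 ∈ S1 ∧ T.2.2 ∈ S2 ∧ T.2.1.2 ∈ dirs)
    (h : ∀ (A B : List Bool) (c : Pt), ∃ V : Finset Pt, (V.card : ℝ) ≤ N ∧ ∀ p, ((A, ((p, c), B)) : PT) ∈ S → p ∈ V) :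
    gp S ≤ ENNReal.ofReal (6 * N) * (gf S1 * gf S2) := by
  have key : ∀ (A B : List Bool) (c : Pt), ∑' p : Pt, S.indicator (fun T : PT => wE T.1 * wE T.2.2) (A, ((p, c), B)) ≤
      (if c ∈ dirs then ENNReal.ofReal N else 0) * (S1.indicator wE A * S2.indicator wE B) := by
    intro A B c
    by_cases hc : c ∈ dirs ∧ A ∈ S1 ∧ B ∈ S2
    · obtain ⟨V, hV, hV2⟩ := h A B c
      rw [if_pos hc.1, Set.indicator_of_mem hc.2.1, Set.indicator_of_mem hc.2.2]
      calc ∑' p : Pt, S.indicator (fun T : PT => wE T.1 * wE T.2.2) (A, ((p, c), B))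
          = ∑ p ∈ V, S.indicator (fun T : PT => wE T.1 * wE T.2.2) (A, ((p, c), B)) :=
            tsum_eq_sum fun p hp => Set.indicator_of_notMem (fun hcon => hp (hV2 p hcon)) _
        _ ≤ ∑ p ∈ V, wE A * wE B := Finset.sum_le_sum fun p _ => Set.indicator_le_self _ _ _
        _ = (V.card : ℝ≥0∞) * (wE A * wE B) := by rw [Finset.sum_const, nsmul_eq_mul]
        _ ≤ _ := by
          refine mul_le_mul' ?_ le_rfl
          rw [← ENNReal.ofReal_natCast]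
          exact ENNReal.ofReal_le_ofReal hV
    · refine le_of_eq_of_le (ENNReal.tsum_eq_zero.2 fun p => Set.indicator_of_notMem (fun hcon => hc ?_) _) zero_le
      have := h1 _ hcon
      exact ⟨this.2.2, this.1, this.2.1⟩
  have e1 : gp S = ∑' A : List Bool, ∑' B : List Bool, ∑' c : Pt, ∑' p : Pt,
      S.indicator (fun T : PT => wE T.1 * wE T.2.2) (A, ((p, c), B)) := by
    rw [gp_indicator, ENNReal.tsum_prod']
    refine tsum_congr fun A => ?_
    rw [ENNReal.tsum_prod', ENNReal.tsum_comm]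
    refine tsum_congr fun B => ?_
    rw [ENNReal.tsum_prod', ENNReal.tsum_comm]
  rw [e1]
  refine (ENNReal.tsum_le_tsum fun A => ENNReal.tsum_le_tsum fun B => ENNReal.tsum_le_tsum fun c => key A B c).trans
    (le_of_eq ?_)
  have e2 : ∑' c : Pt, (if c ∈ dirs then ENNReal.ofReal N else 0) = ENNReal.ofReal (6 * N) := by
    rw [tsum_eq_sum (s := dirs) fun c hc => if_neg hc, Finset.sum_congr rfl fun c hc => if_pos hc, Finset.sum_const,
      show dirs.card = 6 by decide, ENNReal.ofReal_mul (by norm_num)]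
    norm_num
  have e3 : gf S1 = ∑' A : List Bool, S1.indicator wE A := tsum_subtype S1 wE
  have e4 : gf S2 = ∑' B : List Bool, S2.indicator wE B := tsum_subtype S2 wE
  simp only [ENNReal.tsum_mul_right]
  rw [e2, e3, e4]
  simp only [ENNReal.tsum_mul_left, ENNReal.tsum_mul_right]

/-- **the places of a near touch at a good point of the obstacle** -/
lemma cnt_obs {c q : Pt} (hfr : FrO c q) {W : List Bool} {β : ℕ → Pt} {m : ℕ} (hβ : Pth β m) {S D d : ℕ} {ρ R : ℕ → ℕ}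
    (hS : ∀ s, s < S → 64 ≤ ρ s ∧ 320 * ρ s ≤ R s ∧ d ≤ R s ∧ R s ≤ D) (hR : ∀ s, s + 1 < S → 80 * R (s + 1) ≤ ρ s)
    {V : Finset Pt} (hV : ∀ v ∈ V, TIW.hn v ≤ D ∧ cl v = 0 ∧ (∀ i, i ≤ W.length → ∀ k, k ≤ m → oV c q W i ≠ β k + v) ∧
      ∃ i, i ≤ W.length ∧ ∃ k, k ≤ m ∧ TIW.hn (oV c q W i - (β k + v)) ≤ d ∧
        (∀ s, s < S → GoodPt (vx oo up W) W.length (vx oo up W i) (ρ s) (R s)) ∧
        ∀ s, s < S → ∃ k', k' ≤ m ∧ 3 * ((R s : ℕ) : ℤ) < TIW.hn (β k' - β k)) :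
    (V.card : ℝ) * ∑ s ∈ range S, (ρ s : ℝ) / R s ≤ 2 * 10 ^ 9 * (D : ℝ) ^ 2 := by
  classical
  have hc := hfr.1
  obtain ⟨V', hV'⟩ : ∃ V' : Finset Pt, V' = V.image (fun v => mulE (conjE c) v) := ⟨_, rfl⟩
  have hcard : V'.card = V.card := by
    rw [hV']
    exact card_image_of_injective _ (fun x y h => mulE_inj (mem_dirs.1 (conjO_mem hc)) h)
  have hadd : ∀ p v : Pt, bk c q p + mulE (conjE c) v = bk c q (p + v) := fun p v => by
    unfold bk
    rw [← mulE_add]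
    congr 1
    abel
  rw [← hcard]
  refine vcount (a := fun k => vx oo up W k) (b := fun k => bk c q (β k)) (n := W.length) (m := m) (d := d)
    (Pth_bk hfr hβ) hS hR ?_
  intro v' hv'
  rw [hV', Finset.mem_image] at hv'
  obtain ⟨v, hv, rfl⟩ := hv'
  obtain ⟨a1, a2, a3, i, hi, k, hk, a4, a5, a6⟩ := hV v hv
  refine ⟨Bl_of_hn (by rw [hn_mulE' (conjO_mem hc)]; exact a1), ?_, ?_, i, hi, k, hk, ?_, a5, ?_⟩
  · rw [cl_mulE, a2, mul_zero]
  · intro i' hi' k' hk'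
    show vx oo up W i' ≠ bk c q (β k') + mulE (conjE c) v
    rw [hadd, ← bk_oV (p0 := q) hc W i']
    intro hcon
    exact a3 i' hi' k' hk' (bk_inj hc hcon)
  · show vx oo up W i ∈ Bl (bk c q (β k) + mulE (conjE c) v) d
    rw [hadd]
    refine Bl_of_hn' ?_
    rw [← bk_oV (p0 := q) hc W i, hn_bk hc]
    exact a4
  · intro s hs
    obtain ⟨k', hk', h6⟩ := a6 s hs
    refine ⟨k', hk', fun hcon => ?_⟩
    have h1 := hn_of_Bl hcon
    have h2 : TIW.hn (bk c q (β k') - bk c q (β k)) = TIW.hn (β k' - β k) := hn_bk hc _ _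
    rw [h2] at h1
    exact absurd h6 (not_lt.2 h1)

/-! ### 2. The frame of the reversed walk -/

/-- the reversed walk is an obstacle -/
lemma rv_fr {A : List Bool} (hA : 1 ≤ A.length) : ∃ c, FrO c (TIW.en A) ∧
    ∀ i, i ≤ A.length → vx oo up A (A.length - i) = oV c (TIW.en A) (rv A) i := by
  obtain ⟨c, hc, h⟩ := rv_vx A
  have h1 := h 1 hA
  have e1 : vx oo up (rv A) 1 = up := by
    have : vx oo up (rv A) 1 = oo + up := rfl
    rw [this]
    exact zero_add _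
  rw [e1] at h1
  have h2 : cl (vx oo up A (A.length - 1)) = cl (TIW.en A) + cl c * cl up := by rw [h1, cl_add, cl_mulE]
  have h3 : cl (TIW.en A) = if Even A.length then cl oo else cl oo + cl up := cl_vx oo up A A.length
  have h4 : cl (vx oo up A (A.length - 1)) = if Even (A.length - 1) then cl oo else cl oo + cl up :=
    cl_vx oo up A (A.length - 1)
  have c0 : cl oo = 0 := by decide
  have c1 : cl up = 2 := by decide
  have key : (cl c = 1 ∧ cl (TIW.en A) = 0) ∨ (cl c = 2 ∧ cl (TIW.en A) = 2) := by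
    rw [c0, c1, zero_add] at h3 h4
    rw [c1] at h2
    by_cases he : Even A.length
    · left
      rw [if_pos he] at h3
      have ho : ¬ Even (A.length - 1) := by
        rw [Nat.even_sub hA]
        simp [he]
      rw [if_neg ho, h2, h3, zero_add] at h4
      refine ⟨?_, h3⟩
      have : ∀ x : ZMod 3, x * 2 = 2 → x = 1 := by decide
      exact this _ h4
    · right
      rw [if_neg he] at h3
      have ho : Even (A.length - 1) := by
        rw [Nat.even_sub hA]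
        simp [he]
      rw [if_pos ho, h2, h3] at h4
      refine ⟨?_, h3⟩
      have : ∀ x : ZMod 3, 2 + x * 2 = 0 → x = 2 := by decide
      exact this _ h4
  exact ⟨c, ⟨hc, key⟩, h⟩

/-- the word itself as an obstacle -/
lemma id_fr : FrO (1, 0) 0 := ⟨by decide, Or.inl ⟨by decide, by decide⟩⟩

lemma id_oV (A : List Bool) (i : ℕ) : oV (1, 0) 0 A i = vx oo up A i := by
  unfold oV
  rw [zero_add, mulE_one]

/-! ### 3. The second word is a path -/

lemma FrO_gi {g : Pt × Pt} (h : Fr g) : FrO (gi g).2 (gi g).1 := by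
  obtain ⟨h1, h2⟩ := Fr_gi h
  have e1 : cl up = 2 := by decide
  have e2 : (-1 : ZMod 3) = 2 := by decide
  refine ⟨h1, ?_⟩
  rcases h2 with ⟨h3, h4⟩ | ⟨h3, h4⟩
  · exact Or.inl ⟨h4, h3⟩
  · exact Or.inr ⟨by rw [h4, e2], by rw [h3, e1]⟩

lemma pth_pv {g : Pt × Pt} (h : Fr g) (B : List Bool) (m : ℕ) : Pth (fun k => pv g B k) m := by
  have h1 := Pth_bk (FrO_gi h) (pth_vx B m)
  have e : (fun k => bk (gi g).2 (gi g).1 ((fun k => vx oo up B k) k)) = fun k => pv g B k := by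
    funext k
    show mulE (conjE (conjE g.2)) (vx oo up B k - -(mulE (conjE g.2) g.1)) = g.1 + mulE g.2 (vx oo up B k)
    have hcc : conjE (conjE g.2) = g.2 := by
      unfold conjE
      ext <;> simp
    rw [hcc, sub_neg_eq_add, mulE_add, mul_conj h.nrm, add_comm]
  rw [← e]
  exact h1

/-! ### 4. The places for two given words -/

/-- the far vertex is behind or in front of the vertex i -/
lemma near_cases {A : List Bool} {F : ℤ} (h : ∃ s, 1 ≤ s ∧ s ≤ A.length ∧ F < dz A s) (i : ℕ) (hi : i ≤ A.length) :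
    (∃ z, i ≤ z ∧ z ≤ A.length ∧ F < 2 * TIW.hn (vx oo up A z - vx oo up A i)) ∨
      ∃ z, 1 ≤ z ∧ z < i ∧ F < 2 * TIW.hn (vx oo up A z - vx oo up A i) := by
  obtain ⟨s, h1, h2, h3⟩ := h
  have h4 := TIW.hn_tri (vx oo up A s) (vx oo up A i) (TIW.en A)
  have h5 : dz A s = TIW.hn (vx oo up A s - TIW.en A) := rfl
  rw [h5] at h3
  by_cases h6 : F < 2 * TIW.hn (vx oo up A s - vx oo up A i)
  · rcases Nat.lt_or_ge s i with h7 | h7
    · exact Or.inr ⟨s, h1, h7, h6⟩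
    · exact Or.inl ⟨s, h7, h2, h6⟩
  · left
    refine ⟨A.length, hi, le_rfl, ?_⟩
    rw [TIW.hn_sub_comm]
    show F < 2 * TIW.hn (vx oo up A i - TIW.en A)
    linarith

/-- a regular word is good at the vertex i -/
lemma good_i {S K : ℕ} {J n : ℕ → ℕ} {A : List Bool} (hA : A ∈ WL K) (hr : A ∉ OffR S J n K)
    (hJ : ∀ s, s < S → J s + 6 ≤ K) (hn : ∀ s, 107 ≤ n s) {F : ℤ}
    (hF : ∀ s, s < S → 6 * ((3 * n s * 2 ^ (K - J s) : ℕ) : ℤ) ≤ F) {i z : ℕ} (h1 : i ≤ z) (h2 : z ≤ A.length)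
    (h3 : F < 2 * TIW.hn (vx oo up A z - vx oo up A i)) (s : ℕ) (hs : s < S) :
    GoodPt (vx oo up A) A.length (vx oo up A i) (2 ^ (K - J s)) (3 * n s * 2 ^ (K - J s)) := by
  have hnot : ¬ Irg 6 8 (K - J s) (n s) A := fun hI => hr ⟨hA, s, hs, hI⟩
  have hJs := hJ s hs
  refine good_of_irg (r := K - J s) (n := n s) (R := 3 * n s * 2 ^ (K - J s)) (by omega) le_rfl ?_ hnot h1
    (fun hcon => ?_) h2 le_rfl
  · exact Nat.mul_le_mul_right _ (by have := hn s; omega)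
  · have h4 := hn_of_Bl hcon
    have h5 := hF s hs
    linarith

open Classical in
/-- **the places of the second word** -/
lemma places_cnt {S K R j d D : ℕ} {J n : ℕ → ℕ} {M : ℝ} {F : ℤ} {A B : List Bool} {c : Pt}
    (hA : A ∈ WL K) (hrA : A ∉ OffR S J n K) (hA' : rv A ∈ WL K) (hrA' : rv A ∉ OffR S J n K)
    (hJ : ∀ s, s < S → J s + 6 ≤ K) (hn : ∀ s, 107 ≤ n s) (hF : ∀ s, s < S → 6 * ((3 * n s * 2 ^ (K - J s) : ℕ) : ℤ) ≤ F)
    (hmono : ∀ s, s + 1 < S → 80 * (3 * n (s + 1) * 2 ^ (K - J (s + 1))) ≤ 2 ^ (K - J s))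
    (hd : ∀ s, s < S → d ≤ 3 * n s * 2 ^ (K - J s)) (hRD : ∀ s, s < S → 3 * n s * 2 ^ (K - J s) ≤ D)
    (hM : M ≤ ∑ s ∈ range S, 1 / (3 * (n s : ℝ))) (hD : 2 * R + 3 * 2 ^ j + 2 ≤ D)
    (fA : ∃ s, 1 ≤ s ∧ s ≤ A.length ∧ F < dz A s) (fB : ∃ s, s ≤ B.length ∧ F < dz B s) :
    ∃ V : Finset Pt, (V.card : ℝ) * M ≤ 4 * 10 ^ 9 * (D : ℝ) ^ 2 ∧
      ∀ p, ((A, ((p, c), B)) : PT) ∈ P3 R j → ((A, ((p, c), B)) : PT) ∈ Near d → p ∈ V := by
  obtain ⟨u, hu⟩ : ∃ u : Pt, u = if cl c = 1 then 0 else up := ⟨_, rfl⟩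
  have hun : TIW.hn u ≤ 2 := by
    rw [hu]
    split_ifs
    · decide
    · decide
  -- the set of the translations
  obtain ⟨Q, hQ⟩ : ∃ Q : Pt → Prop, Q = fun v => ((A, ((u + v, c), B)) : PT) ∈ P3 R j ∧
      ((A, ((u + v, c), B)) : PT) ∈ Near d := ⟨_, rfl⟩
  have hQ1 : ∀ v, Q v → TIW.hn v ≤ D ∧ cl v = 0 ∧ Fr (u, c) := by
    intro v hv
    rw [hQ] at hv
    obtain ⟨⟨-, -, h3, -, h5, h6, h7⟩, -⟩ := hv
    refine ⟨?_, ?_, ?_⟩
    · have g1 : TIW.hn (TIW.en A - pe (u + v, c) B) ≤ 2 ^ j := h5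
      have g2 : TIW.hn (TIW.en A) ≤ R + 2 ^ j := by
        have := h6 0 (Nat.zero_le _)
        have e : dz A 0 = TIW.hn (oo - TIW.en A) := rfl
        rw [e, show (oo : Pt) = 0 from rfl, zero_sub, TIW.hn_neg] at this
        exact this
      have g3 : TIW.hn (mulE c (TIW.en B)) ≤ R + 2 ^ j := by
        have := h7 0 (Nat.zero_le _)
        have e : dz B 0 = TIW.hn (oo - TIW.en B) := rfl
        rw [e, show (oo : Pt) = 0 from rfl, zero_sub, TIW.hn_neg] at this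
        rwa [TIW.hn_mulE h3.nrm]
      have g4 : v = (TIW.en A - (TIW.en A - pe (u + v, c) B)) - (mulE c (TIW.en B) + u) := by
        unfold pe pv
        show v = (TIW.en A - (TIW.en A - ((u + v) + mulE c (vx oo up B B.length)))) - (mulE c (TIW.en B) + u)
        have : vx oo up B B.length = TIW.en B := rfl
        rw [this]
        abel
      have g5 := TIW.hn_sub (TIW.en A - (TIW.en A - pe (u + v, c) B)) (mulE c (TIW.en B) + u)
      have g6 := TIW.hn_sub (TIW.en A) (TIW.en A - pe (u + v, c) B)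
      have g7 := TIW.hn_sub (mulE c (TIW.en B)) (-u)
      rw [sub_neg_eq_add, TIW.hn_neg] at g7
      rw [← g4] at g5
      have g8 : ((2 * R + 3 * 2 ^ j + 2 : ℕ) : ℤ) ≤ D := by exact_mod_cast hD
      push_cast at g8
      linarith
    · have hh : cl v = cl (u + v) - cl u := by rw [cl_add]; ring
      have e1 : cl up = 2 := by decide
      have e0 : cl (0 : Pt) = 0 := by decide
      rcases h3.2 with ⟨k1, k2⟩ | ⟨k1, k2⟩
      · have k1' : cl (u + v) = 0 := k1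
        have k2' : cl c = 1 := k2
        rw [hh, k1', hu, if_pos k2', e0, sub_zero]
      · have k1' : cl (u + v) = cl up := k1
        have k2' : cl c = -1 := k2
        have hne : ¬ cl c = 1 := by rw [k2']; decide
        rw [hh, k1', hu, if_neg hne, sub_self]
    · refine ⟨h3.1, ?_⟩
      have e0 : cl (0 : Pt) = 0 := by decide
      rcases h3.2 with ⟨k1, k2⟩ | ⟨k1, k2⟩
      · have k2' : cl c = 1 := k2
        left
        refine ⟨?_, k2⟩
        show cl u = 0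
        rw [hu, if_pos k2', e0]
      · have k2' : cl c = -1 := k2
        have hne : ¬ cl c = 1 := by rw [k2']; decide
        right
        refine ⟨?_, k2⟩
        show cl u = cl up
        rw [hu, if_neg hne]
  have hbox : ∀ v, Q v → v ∈ bl 0 D := by
    intro v hv
    rw [mem_bl]
    exact Bl_of_hn (hQ1 v hv).1
  by_cases hex : ∃ v, Q v
  swap
  · refine ⟨∅, by simp, fun p h1 h2 => absurd ⟨p - u, ?_⟩ hex⟩
    rw [hQ]
    simp only [add_sub_cancel]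
    exact ⟨h1, h2⟩
  obtain ⟨v0, hv0⟩ := hex
  have hfr := (hQ1 v0 hv0).2.2
  have hA1 : 1 ≤ A.length := by
    obtain ⟨s, h1, h2, -⟩ := fA
    omega
  obtain ⟨c', hfr', hrv⟩ := rv_fr hA1
  have hpvv : ∀ v k, pv (u + v, c) B k = pv (u, c) B k + v := by
    intro v k
    unfold pv
    show (u + v) + mulE c (vx oo up B k) = (u + mulE c (vx oo up B k)) + v
    abel
  have hscal : ∀ s, s < S → 64 ≤ 2 ^ (K - J s) ∧ 320 * 2 ^ (K - J s) ≤ 3 * n s * 2 ^ (K - J s) ∧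
      d ≤ 3 * n s * 2 ^ (K - J s) ∧ 3 * n s * 2 ^ (K - J s) ≤ D := by
    intro s hs
    refine ⟨?_, ?_, hd s hs, hRD s hs⟩
    · have := hJ s hs
      calc 64 = 2 ^ 6 := by norm_num
        _ ≤ 2 ^ (K - J s) := Nat.pow_le_pow_right (by norm_num) (by omega)
    · exact Nat.mul_le_mul_right _ (by have := hn s; omega)
  have hsum : ∑ s ∈ range S, (((2 ^ (K - J s) : ℕ) : ℝ)) / ((3 * n s * 2 ^ (K - J s) : ℕ) : ℝ) =
      ∑ s ∈ range S, 1 / (3 * (n s : ℝ)) := by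
    refine Finset.sum_congr rfl fun s _ => ?_
    push_cast
    have h1 : (0 : ℝ) < 2 ^ (K - J s) := by positivity
    have h2 : (0 : ℝ) < n s := by
      have := hn s
      exact_mod_cast (show 0 < n s by omega)
    rw [div_eq_div_iff (by positivity) (by positivity)]
    ring
  -- the second word leaves the balls
  have hB : ∀ k, k ≤ B.length → ∀ s, s < S → ∃ k', k' ≤ B.length ∧
      3 * ((3 * n s * 2 ^ (K - J s) : ℕ) : ℤ) < TIW.hn (pv (u, c) B k' - pv (u, c) B k) := by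
    intro k hk s hs
    obtain ⟨s1, g1, g2⟩ := fB
    have g3 := TIW.hn_tri (vx oo up B s1) (vx oo up B k) (TIW.en B)
    have g4 : dz B s1 = TIW.hn (vx oo up B s1 - TIW.en B) := rfl
    have g5 := hF s hs
    by_cases h6 : F < 2 * TIW.hn (vx oo up B s1 - vx oo up B k)
    · refine ⟨s1, g1, ?_⟩
      rw [hn_pv_self hfr]
      linarith
    · refine ⟨B.length, le_rfl, ?_⟩
      rw [hn_pv_self hfr, TIW.hn_sub_comm]
      show 3 * ((3 * n s * 2 ^ (K - J s) : ℕ) : ℤ) < TIW.hn (vx oo up B k - TIW.en B)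
      linarith
  -- the two classes
  obtain ⟨V1, hV1⟩ : ∃ V : Finset Pt, V = (bl 0 D).filter (fun v => Q v ∧ ∃ i, i ≤ A.length ∧ ∃ k, k ≤ B.length ∧
      TIW.hn (vx oo up A i - (pv (u, c) B k + v)) ≤ d ∧
      ∃ z, i ≤ z ∧ z ≤ A.length ∧ F < 2 * TIW.hn (vx oo up A z - vx oo up A i)) := ⟨_, rfl⟩
  obtain ⟨V2, hV2⟩ : ∃ V : Finset Pt, V = (bl 0 D).filter (fun v => Q v ∧ ∃ i, i ≤ A.length ∧ ∃ k, k ≤ B.length ∧
      TIW.hn (vx oo up A i - (pv (u, c) B k + v)) ≤ d ∧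
      ∃ z, 1 ≤ z ∧ z < i ∧ F < 2 * TIW.hn (vx oo up A z - vx oo up A i)) := ⟨_, rfl⟩
  have hdis : ∀ v, Q v → ∀ i, i ≤ A.length → ∀ k, k ≤ B.length → vx oo up A i ≠ pv (u, c) B k + v := by
    intro v hv i hi k hk he
    rw [hQ] at hv
    have := hv.1.2.2.2.1 i hi
    refine this ⟨k, hk, ?_⟩
    rw [he]
    exact (hpvv v k).symm
  have c1 : (V1.card : ℝ) * M ≤ 2 * 10 ^ 9 * (D : ℝ) ^ 2 := by
    have h1 := cnt_obs id_fr (W := A) (β := fun k => pv (u, c) B k) (m := B.length) (pth_pv hfr B _) (S := S) (D := D) (d := d)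
      (ρ := fun s => 2 ^ (K - J s)) (R := fun s => 3 * n s * 2 ^ (K - J s)) hscal hmono (V := V1) ?_
    · rw [hsum] at h1
      exact (mul_le_mul_of_nonneg_left hM (Nat.cast_nonneg _)).trans h1
    · intro v hv
      rw [hV1, Finset.mem_filter] at hv
      obtain ⟨-, q, i, hi, k, hk, h2, z, h3, h4, h5⟩ := hv
      obtain ⟨q1, q2, -⟩ := hQ1 v q
      refine ⟨q1, q2, fun i' hi' k' hk' => ?_, i, hi, k, hk, ?_, fun s hs => good_i hA hrA hJ hn hF h3 h4 h5 s hs,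
        fun s hs => hB k hk s hs⟩
      · rw [id_oV]
        exact hdis v q i' hi' k' hk'
      · rw [id_oV]
        exact h2
  have c2 : (V2.card : ℝ) * M ≤ 2 * 10 ^ 9 * (D : ℝ) ^ 2 := by
    have hl : (rv A).length = A.length - 1 := rv_length A
    have h1 := cnt_obs hfr' (W := rv A) (β := fun k => pv (u, c) B k) (m := B.length) (pth_pv hfr B _) (S := S) (D := D) (d := d)
      (ρ := fun s => 2 ^ (K - J s)) (R := fun s => 3 * n s * 2 ^ (K - J s)) hscal hmono (V := V2) ?_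
    · rw [hsum] at h1
      exact (mul_le_mul_of_nonneg_left hM (Nat.cast_nonneg _)).trans h1
    · intro v hv
      rw [hV2, Finset.mem_filter] at hv
      obtain ⟨-, q, i, hi, k, hk, h2, z, h3, h4, h5⟩ := hv
      obtain ⟨q1, q2, -⟩ := hQ1 v q
      have e1 : vx oo up A i = oV c' (TIW.en A) (rv A) (A.length - i) := by
        rw [← hrv _ (by omega), show A.length - (A.length - i) = i by omega]
      have e2 : vx oo up A z = oV c' (TIW.en A) (rv A) (A.length - z) := by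
        rw [← hrv _ (by omega), show A.length - (A.length - z) = z by omega]
      refine ⟨q1, q2, fun i' hi' k' hk' => ?_, A.length - i, by omega, k, hk, ?_, fun s hs =>
        good_i hA' hrA' hJ hn hF (z := A.length - z) (by omega) (by omega) ?_ s hs, fun s hs => hB k hk s hs⟩
      · rw [← hrv i' (by omega)]
        exact hdis v q _ (by omega) k' hk'
      · rw [← e1]
        exact h2
      · have e3 : TIW.hn (vx oo up A z - vx oo up A i) =
            TIW.hn (vx oo up (rv A) (A.length - z) - vx oo up (rv A) (A.length - i)) := by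
          rw [e1, e2]
          unfold oV
          rw [add_sub_add_left_eq_sub, ← mulE_sub', TIW.hn_mulE (mem_dirs.1 hfr'.1)]
        rw [← e3]
        exact h5
  refine ⟨(V1 ∪ V2).image (fun v => u + v), ?_, fun p hp1 hp2 => ?_⟩
  · have h1 : (((V1 ∪ V2).image (fun v => u + v)).card : ℝ) ≤ V1.card + V2.card := by
      have := (Finset.card_image_le (s := V1 ∪ V2) (f := fun v => u + v)).trans (Finset.card_union_le V1 V2)
      exact_mod_cast this
    by_cases hM0 : 0 ≤ M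
    · calc _ ≤ ((V1.card : ℝ) + V2.card) * M := mul_le_mul_of_nonneg_right h1 hM0
        _ = V1.card * M + V2.card * M := by ring
        _ ≤ _ := by linarith
    · have h2 : (0 : ℝ) ≤ (((V1 ∪ V2).image (fun v => u + v)).card : ℝ) := Nat.cast_nonneg _
      have h3 : (((V1 ∪ V2).image (fun v => u + v)).card : ℝ) * M ≤ 0 := mul_nonpos_of_nonneg_of_nonpos h2 (by linarith)
      exact h3.trans (by positivity)
  · rw [Finset.mem_image]
    have hq : Q (p - u) := by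
      rw [hQ]
      simp only [add_sub_cancel]
      exact ⟨hp1, hp2⟩
    refine ⟨p - u, ?_, by abel⟩
    obtain ⟨i, k, hi, hk, h2⟩ := hp2
    have h2' : TIW.hn (vx oo up A i - (pv (u, c) B k + (p - u))) ≤ d := by
      rw [← hpvv, show u + (p - u) = p by abel]
      exact h2
    rw [Finset.mem_union]
    rcases near_cases fA i hi with ⟨z, h3, h4, h5⟩ | ⟨z, h3, h4, h5⟩
    · left
      rw [hV1, Finset.mem_filter]
      exact ⟨hbox _ hq, hq, i, hi, k, hk, h2', z, h3, h4, h5⟩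
    · right
      rw [hV2, Finset.mem_filter]
      exact ⟨hbox _ hq, hq, i, hi, k, hk, h2', z, h3, h4, h5⟩

/-! ### 5. The assembly -/

/-- the reversed walks in a class -/
lemma gf_rv_le (X : Set (List Bool)) : gf {A : List Bool | 1 ≤ A.length ∧ ARM.rv A ∈ X} ≤ 2 * gf X := by
  have hsub : {A : List Bool | 1 ≤ A.length ∧ ARM.rv A ∈ X} ⊆ {A : List Bool | (1 ≤ A.length ∧ ARM.rv A ∈ X) ∧ (rev A).headD true = true} ∪
      {A : List Bool | (1 ≤ A.length ∧ ARM.rv A ∈ X) ∧ (rev A).headD true = false} := by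
    intro L hL
    cases hb : (rev L).headD true with
    | true => exact Or.inl ⟨hL, hb⟩
    | false => exact Or.inr ⟨hL, hb⟩
  have hb : ∀ b : Bool, gf {A : List Bool | (1 ≤ A.length ∧ ARM.rv A ∈ X) ∧ (rev A).headD true = b} ≤ gf X := by
    intro b
    have := gf_le_of_inj (P := {A : List Bool | (1 ≤ A.length ∧ ARM.rv A ∈ X) ∧ (rev A).headD true = b}) (Q := X) ARM.rv
      (fun L hL => hL.1.2) (fun L hL L' hL' h => rv_inj hL.1.1 hL'.1.1 h (hL.2.trans hL'.2.symm)) 1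
      (fun L hL => by rw [one_mul]; exact wE_rv hL.1.1)
    rwa [one_mul] at this
  calc gf {A : List Bool | 1 ≤ A.length ∧ ARM.rv A ∈ X} ≤ _ := gf_mono hsub
    _ ≤ _ := gf_union_le _ _
    _ ≤ gf X + gf X := add_le_add (hb true) (hb false)
    _ = _ := (two_mul _).symm

/-- the words of a ball are in the box -/
lemma ball_WL {r : ℕ} {A : List Bool} (h : A ∈ BallW (2 ^ r)) : A ∈ WL (r + 3) := by
  obtain ⟨h1, h2⟩ := h
  refine In_WL h1 fun i hi => Bl_of_hn ?_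
  have g1 := h2 i hi
  have g2 := h2 0 (Nat.zero_le _)
  have g3 := hn_dz A i 0
  rw [show vx oo up A 0 = 0 from rfl, sub_zero] at g3
  push_cast
  rw [pow_succ]
  linarith

lemma ball_WL_rv {r : ℕ} {A : List Bool} (h : A ∈ BallW (2 ^ r)) : rv A ∈ WL (r + 3) := by
  obtain ⟨h1, h2⟩ := h
  obtain ⟨c, hc, hf⟩ := rv_vx A
  refine In_WL (rv_SA h1) fun i hi => Bl_of_hn ?_
  have hi' : i ≤ A.length := by
    rw [rv_length] at hi
    omega
  have g1 := h2 (A.length - i) (by omega)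
  have e : dz A (A.length - i) = TIW.hn (vx oo up (rv A) i) := by
    unfold dz
    rw [hf i hi', add_sub_cancel_left, hn_mulE' hc]
  rw [e] at g1
  have g4 : (0 : ℤ) < 2 ^ r := by positivity
  push_cast
  rw [pow_succ]
  linarith

/-- **near touches of the two words, gap of the order of the size** -/
theorem ntpSt : NtpSt := by
  classical
  intro c ε hε
  obtain ⟨C0, hC0, hball⟩ := ball_mass2
  obtain ⟨Cx, hCx, hX⟩ := TPC.xUp
  obtain ⟨cU, CU, -, hCU, hU⟩ := JNT.JoT.Ub_two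
  obtain ⟨P, hP⟩ : ∃ P : ℝ → ℝ, P = fun x => (2 : ℝ) ^ x := ⟨_, rfl⟩
  -- short words
  obtain ⟨f, hf⟩ : ∃ f : ℕ, 54 * C0 ^ 2 * (2 : ℝ) ^ ((43 / 24 : ℝ) * ((c : ℝ) + 2)) / (2 : ℝ) ^ f ≤ ε / 8 := by
    obtain ⟨f, hf⟩ := pow_unbounded_of_one_lt (54 * C0 ^ 2 * (2 : ℝ) ^ ((43 / 24 : ℝ) * ((c : ℝ) + 2)) / (ε / 8)) (one_lt_two (α := ℝ))
    refine ⟨f, ?_⟩
    rw [div_lt_iff₀ (by positivity)] at hf
    rw [div_le_iff₀ (by positivity)]
    linarith
  -- the constants of the regularity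
  obtain ⟨c3, hc3⟩ : ∃ c3 : ℝ, c3 = 54 * (3 * (CU * Cx)) * C0 * (2 : ℝ) ^ ((43 / 24 : ℝ) * ((c : ℝ) + 4)) *
      (2 : ℝ) ^ ((43 / 24 : ℝ) * ((c : ℝ) + 1)) := ⟨_, rfl⟩
  have hc30 : 0 < c3 := by rw [hc3]; positivity
  obtain ⟨c4, hc4⟩ : ∃ c4 : ℝ, c4 = 24 * 10 ^ 9 * 4 ^ (c + 3) * C0 ^ 2 * (2 : ℝ) ^ ((43 / 12 : ℝ) * ((c : ℝ) + 1)) := ⟨_, rfl⟩
  have hc40 : 0 < c4 := by rw [hc4]; positivity
  obtain ⟨e1, he1⟩ : ∃ e1 : ℝ, e1 = min (1 / 2 ^ (f + c + 7)) (ε / 8 / c3) := ⟨_, rfl⟩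
  have he10 : 0 < e1 := by rw [he1]; positivity
  obtain ⟨M, hMd⟩ : ∃ M : ℝ, M = c4 / (ε / 8) := ⟨_, rfl⟩
  have hM0 : 0 < M := by rw [hMd]; positivity
  obtain ⟨S, J, n, K0, hS, hJ0, hn, hJlt, h240, h3n, hM, hK0, hOff⟩ := reg_off (e := e1) (M := M) he10 0
  have hJS : ∀ s, s ≤ S → J s ≤ J S := fun s hs => (strictMono_nat_of_lt_succ hJlt).monotone hs
  refine ⟨J S, K0 + J S + f + 4, by omega, fun R j hj hR => ?_⟩
  obtain ⟨K, hK⟩ : ∃ K, K = j + c + 4 := ⟨_, rfl⟩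
  obtain ⟨Rf, hRf⟩ : ∃ Rf : ℕ → ℕ, Rf = fun s => 3 * n s * 2 ^ (K - J s) := ⟨_, rfl⟩
  have hmono : ∀ s, s < S → 80 * Rf (s + 1) ≤ 2 ^ (K - J s) := by
    intro s hs
    have a1 := hJS (s + 1) hs
    have a2 := h240 s
    have a3 := hJlt s
    rw [hRf]
    show 80 * (3 * n (s + 1) * 2 ^ (K - J (s + 1))) ≤ _
    calc 80 * (3 * n (s + 1) * 2 ^ (K - J (s + 1))) = 240 * n (s + 1) * 2 ^ (K - J (s + 1)) := by ring
      _ ≤ 2 ^ (J (s + 1) - J s) * 2 ^ (K - J (s + 1)) := Nat.mul_le_mul_right _ a2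
      _ = 2 ^ (K - J s) := by
        rw [← pow_add]
        congr 1
        omega
  have hR0 : ∀ s, s < S → Rf s ≤ Rf 0 := by
    intro s
    induction s with
    | zero => intro _; exact le_rfl
    | succ s ih =>
      intro hs
      have a1 := ih (by omega)
      have a2 := hmono s (by omega)
      have a3 : 2 ^ (K - J s) ≤ Rf s := by
        rw [hRf]
        show 2 ^ (K - J s) ≤ 3 * n s * 2 ^ (K - J s)
        exact Nat.le_mul_of_pos_left _ (by have := hn s; omega)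
      omega
  -- the largest ball
  have hRf0 : 8 * Rf 0 ≤ 2 ^ (j - f) := by
    have a1 : ((Rf 0 : ℕ) : ℝ) ≤ e1 * 2 ^ K := by
      rw [hRf]
      push_cast
      have a2 : (2 : ℝ) ^ K = 2 ^ J 0 * 2 ^ (K - J 0) := by
        rw [← pow_add]
        congr 1
        have := hJS 0 (Nat.zero_le _)
        omega
      rw [a2, ← mul_assoc]
      exact mul_le_mul_of_nonneg_right h3n (by positivity)
    have a3 : e1 ≤ 1 / 2 ^ (f + c + 7) := by rw [he1]; exact min_le_left _ _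
    have a4 : (8 : ℝ) * (Rf 0 : ℕ) ≤ 2 ^ (j - f) := by
      calc (8 : ℝ) * (Rf 0 : ℕ) ≤ 8 * (1 / 2 ^ (f + c + 7) * 2 ^ K) := by gcongr; exact a1.trans (by gcongr)
        _ = 2 ^ (j - f) := by
          have a5 : (2 : ℝ) ^ K * 8 = 2 ^ (f + c + 7) * 2 ^ (j - f) := by
            rw [show (8 : ℝ) = 2 ^ 3 by norm_num, ← pow_add, ← pow_add]
            congr 1
            omega
          field_simp
          linarith
    exact_mod_cast a4
  obtain ⟨F, hF⟩ : ∃ F : ℤ, F = 2 ^ (j - f) := ⟨_, rfl⟩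
  have hF6 : ∀ s, s < S → 6 * ((3 * n s * 2 ^ (K - J s) : ℕ) : ℤ) ≤ F := by
    intro s hs
    have a1 := hR0 s hs
    rw [hRf] at a1 hRf0
    have a2 : 6 * (3 * n s * 2 ^ (K - J s)) ≤ 2 ^ (j - f) := by
      simp only at a1 hRf0
      omega
    rw [hF]
    exact_mod_cast a2
  have hd : ∀ s, s < S → 2 ^ (j - J S) ≤ 3 * n s * 2 ^ (K - J s) := by
    intro s hs
    calc 2 ^ (j - J S) ≤ 2 ^ (K - J s) := Nat.pow_le_pow_right (by norm_num) (by have := hJS s hs.le; omega)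
      _ ≤ _ := Nat.le_mul_of_pos_left _ (by have := hn s; omega)
  have hRD : ∀ s, s < S → 3 * n s * 2 ^ (K - J s) ≤ 2 ^ (j + c + 3) := by
    intro s hs
    have a1 := hR0 s hs
    rw [hRf] at a1 hRf0
    have a2 : 2 ^ (j - f) ≤ 2 ^ (j + c + 3) := Nat.pow_le_pow_right (by norm_num) (by omega)
    simp only at a1 hRf0
    omega
  have hDD : 2 * R + 3 * 2 ^ j + 2 ≤ 2 ^ (j + c + 3) := by
    have a1 : 2 ^ (j + c + 3) = 8 * 2 ^ (j + c) := by rw [pow_add]; ring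
    have a2 : 2 ^ j ≤ 2 ^ (j + c) := Nat.pow_le_pow_right (by norm_num) (by omega)
    have a3 : 1 ≤ 2 ^ j := Nat.one_le_two_pow
    omega
  have hJ6 : ∀ s, s < S → J s + 6 ≤ K := fun s hs => by
    have := hJS s hs.le
    omega
  -- the classes of words
  obtain ⟨Bg, hBg⟩ : ∃ Bg : Set (List Bool), Bg = BallW (2 ^ (j + c + 1)) := ⟨_, rfl⟩
  obtain ⟨Sh, hSh⟩ : ∃ Sh : Set (List Bool), Sh = BallW (2 ^ (j - f + 1)) := ⟨_, rfl⟩
  obtain ⟨Ir, hIr⟩ : ∃ Ir : Set (List Bool), Ir = OffR S J n K ∪ {A : List Bool | 1 ≤ A.length ∧ ARM.rv A ∈ OffR S J n K} := ⟨_, rfl⟩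
  have mBg : gf Bg ≤ ENNReal.ofReal (C0 * (2 : ℝ) ^ ((43 / 24 : ℝ) * ((j + c + 1 : ℕ) : ℝ))) := by rw [hBg]; exact hball _
  have mSh : gf Sh ≤ ENNReal.ofReal (C0 * (2 : ℝ) ^ ((43 / 24 : ℝ) * ((j - f + 1 : ℕ) : ℝ))) := by rw [hSh]; exact hball _
  have mIr : gf Ir ≤ ENNReal.ofReal (3 * (e1 * (CU * Cx)) * (2 : ℝ) ^ ((43 / 24 : ℝ) * (K : ℝ))) := by
    have a1 := hOff K (by omega)
    have a2 : gf (OffR S J n K) ≤ ENNReal.ofReal (e1 * (CU * Cx) * (2 : ℝ) ^ ((43 / 24 : ℝ) * (K : ℝ))) := by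
      refine a1.trans ((mul_le_mul' le_rfl (hX K)).trans ?_)
      rw [← ENNReal.ofReal_mul (mul_nonneg he10.le (TS.Ub_pos K).le)]
      refine ENNReal.ofReal_le_ofReal ?_
      have a3 := (hU K).2
      have a4 : (2 : ℝ) ^ ((43 / 24 : ℝ) * (K : ℝ)) = (2 : ℝ) ^ (3 / 4 * (K : ℝ)) * (2 : ℝ) ^ (25 / 24 * (K : ℝ)) := by
        rw [← Real.rpow_add (by norm_num)]
        congr 1
        ring
      rw [a4]
      calc e1 * Ub K * (Cx * (2 : ℝ) ^ (25 / 24 * (K : ℝ))) ≤ e1 * (CU * (2 : ℝ) ^ (3 / 4 * (K : ℝ))) *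
            (Cx * (2 : ℝ) ^ (25 / 24 * (K : ℝ))) := by gcongr
        _ = _ := by ring
    rw [hIr]
    refine (gf_union_le _ _).trans ((add_le_add a2 ((gf_rv_le _).trans (mul_le_mul' le_rfl a2))).trans (le_of_eq ?_))
    have e2 : (2 : ℝ≥0∞) = ENNReal.ofReal 2 := by norm_num
    rw [e2, ← ENNReal.ofReal_mul (by norm_num), ← ENNReal.ofReal_add (by positivity) (by positivity)]
    congr 1
    ring
  -- the numbers
  obtain ⟨P0, hP0⟩ : ∃ P0 : ℝ, P0 = (2 : ℝ) ^ ((67 / 12 : ℝ) * (j : ℝ)) := ⟨_, rfl⟩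
  have hP00 : 0 < P0 := by rw [hP0]; positivity
  have h4j : (4 : ℝ) ^ j = (2 : ℝ) ^ ((2 : ℝ) * (j : ℝ)) := four_pow_rpow j
  -- short words
  have n1 : 54 * (4 : ℝ) ^ j * (C0 * (2 : ℝ) ^ ((43 / 24 : ℝ) * ((j - f + 1 : ℕ) : ℝ)) *
      (C0 * (2 : ℝ) ^ ((43 / 24 : ℝ) * ((j + c + 1 : ℕ) : ℝ)))) ≤ ε / 8 * P0 := by
    have a1 : (2 : ℝ) ^ ((2 : ℝ) * (j : ℝ)) * ((2 : ℝ) ^ ((43 / 24 : ℝ) * ((j - f + 1 : ℕ) : ℝ)) *
        (2 : ℝ) ^ ((43 / 24 : ℝ) * ((j + c + 1 : ℕ) : ℝ))) ≤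
        (2 : ℝ) ^ ((43 / 24 : ℝ) * ((c : ℝ) + 2)) / (2 : ℝ) ^ f * P0 := by
      rw [hP0, ← Real.rpow_natCast 2 f, ← Real.rpow_sub (by norm_num), ← Real.rpow_add (by norm_num), ← Real.rpow_add (by norm_num),
        ← Real.rpow_add (by norm_num)]
      refine Real.rpow_le_rpow_of_exponent_le (by norm_num) ?_
      have : ((j - f + 1 : ℕ) : ℝ) = j - f + 1 := by
        push_cast [Nat.cast_sub (show f ≤ j by omega)]
        ring
      rw [this]
      push_cast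
      have : (0 : ℝ) ≤ f := Nat.cast_nonneg f
      nlinarith
    rw [h4j]
    calc _ = 54 * C0 ^ 2 * ((2 : ℝ) ^ ((2 : ℝ) * (j : ℝ)) * ((2 : ℝ) ^ ((43 / 24 : ℝ) * ((j - f + 1 : ℕ) : ℝ)) *
        (2 : ℝ) ^ ((43 / 24 : ℝ) * ((j + c + 1 : ℕ) : ℝ)))) := by ring
      _ ≤ 54 * C0 ^ 2 * ((2 : ℝ) ^ ((43 / 24 : ℝ) * ((c : ℝ) + 2)) / (2 : ℝ) ^ f * P0) := by gcongr
      _ = 54 * C0 ^ 2 * (2 : ℝ) ^ ((43 / 24 : ℝ) * ((c : ℝ) + 2)) / (2 : ℝ) ^ f * P0 := by ring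
      _ ≤ _ := mul_le_mul_of_nonneg_right hf hP00.le
  -- irregular words
  have n3 : 54 * (4 : ℝ) ^ j * (3 * (e1 * (CU * Cx)) * (2 : ℝ) ^ ((43 / 24 : ℝ) * (K : ℝ)) *
      (C0 * (2 : ℝ) ^ ((43 / 24 : ℝ) * ((j + c + 1 : ℕ) : ℝ)))) ≤ ε / 8 * P0 := by
    have a1 : (2 : ℝ) ^ ((2 : ℝ) * (j : ℝ)) * ((2 : ℝ) ^ ((43 / 24 : ℝ) * (K : ℝ)) *
        (2 : ℝ) ^ ((43 / 24 : ℝ) * ((j + c + 1 : ℕ) : ℝ))) =
        (2 : ℝ) ^ ((43 / 24 : ℝ) * ((c : ℝ) + 4)) * (2 : ℝ) ^ ((43 / 24 : ℝ) * ((c : ℝ) + 1)) * P0 := by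
      rw [hP0, ← Real.rpow_add (by norm_num), ← Real.rpow_add (by norm_num), ← Real.rpow_add (by norm_num),
        ← Real.rpow_add (by norm_num), hK]
      congr 1
      push_cast
      ring
    have a2 : e1 ≤ ε / 8 / c3 := by rw [he1]; exact min_le_right _ _
    rw [h4j]
    calc _ = 54 * (3 * (CU * Cx)) * C0 * ((2 : ℝ) ^ ((2 : ℝ) * (j : ℝ)) * ((2 : ℝ) ^ ((43 / 24 : ℝ) * (K : ℝ)) *
        (2 : ℝ) ^ ((43 / 24 : ℝ) * ((j + c + 1 : ℕ) : ℝ)))) * e1 := by ring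
      _ = c3 * e1 * P0 := by rw [a1, hc3]; ring
      _ ≤ c3 * (ε / 8 / c3) * P0 := by gcongr
      _ = _ := by field_simp
  -- regular words
  have n4 : 6 * (4 * 10 ^ 9 * ((2 ^ (j + c + 3) : ℕ) : ℝ) ^ 2 / M) * (C0 * (2 : ℝ) ^ ((43 / 24 : ℝ) * ((j + c + 1 : ℕ) : ℝ)) *
      (C0 * (2 : ℝ) ^ ((43 / 24 : ℝ) * ((j + c + 1 : ℕ) : ℝ)))) ≤ ε / 8 * P0 := by
    have a0 : ((2 ^ (j + c + 3) : ℕ) : ℝ) ^ 2 = (2 : ℝ) ^ ((2 : ℝ) * (j : ℝ)) * 4 ^ (c + 3) := by
      push_cast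
      rw [← pow_mul, mul_comm (j + c + 3) 2, pow_mul, show ((2 : ℝ) ^ 2) = 4 by norm_num, add_assoc, pow_add, h4j]
    have a1 : (2 : ℝ) ^ ((2 : ℝ) * (j : ℝ)) * ((2 : ℝ) ^ ((43 / 24 : ℝ) * ((j + c + 1 : ℕ) : ℝ)) *
        (2 : ℝ) ^ ((43 / 24 : ℝ) * ((j + c + 1 : ℕ) : ℝ))) = (2 : ℝ) ^ ((43 / 12 : ℝ) * ((c : ℝ) + 1)) * P0 := by
      rw [hP0, ← Real.rpow_add (by norm_num), ← Real.rpow_add (by norm_num), ← Real.rpow_add (by norm_num)]
      congr 1
      push_cast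
      ring
    rw [a0]
    calc _ = 24 * 10 ^ 9 * 4 ^ (c + 3) * C0 ^ 2 * ((2 : ℝ) ^ ((2 : ℝ) * (j : ℝ)) *
        ((2 : ℝ) ^ ((43 / 24 : ℝ) * ((j + c + 1 : ℕ) : ℝ)) * (2 : ℝ) ^ ((43 / 24 : ℝ) * ((j + c + 1 : ℕ) : ℝ)))) / M := by ring
      _ = c4 * P0 / M := by rw [a1, hc4]; ring
      _ = ε / 8 * P0 := by
        rw [hMd]
        field_simp
      _ ≤ _ := le_rfl
  -- the classes of pairs
  obtain ⟨G, hG⟩ : ∃ G : Set (List Bool) → Set (List Bool) → Set PT, G = fun S1 S2 => {T | T.1 ∈ S1 ∧ T.2.2 ∈ S2 ∧ Fr T.2.1 ∧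
      TIW.hn (TIW.en T.1 - pe T.2.1 T.2.2) ≤ 2 ^ j} := ⟨_, rfl⟩
  have m1 : gp (G Sh Bg) ≤ ENNReal.ofReal (ε / 8 * P0) := by
    rw [hG]
    refine (bs_prod _ _ j).trans ((mul_le_mul' le_rfl (mul_le_mul' mSh mBg)).trans ?_)
    rw [← ENNReal.ofReal_mul (by positivity), ← ENNReal.ofReal_mul (by positivity)]
    exact ENNReal.ofReal_le_ofReal n1
  have m2 : gp (G Bg Sh) ≤ ENNReal.ofReal (ε / 8 * P0) := by
    rw [hG]
    refine (bs_prod _ _ j).trans ((mul_le_mul' le_rfl (mul_le_mul' mBg mSh)).trans ?_)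
    rw [← ENNReal.ofReal_mul (by positivity), ← ENNReal.ofReal_mul (by positivity)]
    refine ENNReal.ofReal_le_ofReal (le_trans (le_of_eq ?_) n1)
    ring
  have m3 : gp (G Ir Bg) ≤ ENNReal.ofReal (ε / 8 * P0) := by
    rw [hG]
    refine (bs_prod _ _ j).trans ((mul_le_mul' le_rfl (mul_le_mul' mIr mBg)).trans ?_)
    rw [← ENNReal.ofReal_mul (by positivity), ← ENNReal.ofReal_mul (by positivity)]
    exact ENNReal.ofReal_le_ofReal n3
  obtain ⟨S4, hS4⟩ : ∃ S4 : Set PT, S4 = {T | (T ∈ P3 R j ∧ T ∈ Near (2 ^ (j - J S))) ∧ T.1 ∈ Bg ∧ T.2.2 ∈ Bg ∧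
      T.1 ∉ Sh ∧ T.2.2 ∉ Sh ∧ T.1 ∉ Ir} := ⟨_, rfl⟩
  have hlong : ∀ A, A ∈ Bg → A ∉ Sh → ∃ s, 1 ≤ s ∧ s ≤ A.length ∧ F < dz A s := by
    intro A hA hS'
    by_contra hcon
    push Not at hcon
    apply hS'
    rw [hBg] at hA
    rw [hSh]
    refine ⟨hA.1, fun s hs => ?_⟩
    have p1 : (2 : ℤ) ^ (j - f + 1) = 2 * 2 ^ (j - f) := by rw [pow_succ]; ring
    have p2 : (2 : ℤ) ≤ 2 ^ (j - f) := by
      have : (2 : ℤ) ^ 1 ≤ 2 ^ (j - f) := pow_le_pow_right₀ (by norm_num) (by omega)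
      linarith
    rw [hF] at hcon
    rcases Nat.eq_zero_or_pos s with h0 | h0
    · subst h0
      rcases Nat.eq_zero_or_pos A.length with h1 | h1
      · have : dz A 0 = 0 := by
          have h2 := dz_len A
          rwa [h1] at h2
        rw [this]
        positivity
      · have h2 := hcon 1 le_rfl h1
        have h3 := dz_hn A 0 1
        have h4 : TIW.hn (vx oo up A 0 - vx oo up A 1) ≤ 2 := by
          rw [show vx oo up A 0 = 0 from rfl, zero_sub, TIW.hn_neg]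
          exact hn_vx_one A
        linarith
    · have := hcon s h0 hs
      linarith
  have m4 : gp S4 ≤ ENNReal.ofReal (ε / 8 * P0) := by
    have h0 := gp_cnt (S := S4) (S1 := Bg) (S2 := Bg) (N := 4 * 10 ^ 9 * ((2 ^ (j + c + 3) : ℕ) : ℝ) ^ 2 / M) ?_ ?_
    · refine h0.trans ((mul_le_mul' le_rfl (mul_le_mul' mBg mBg)).trans ?_)
      rw [← ENNReal.ofReal_mul (by positivity), ← ENNReal.ofReal_mul (by positivity)]
      exact ENNReal.ofReal_le_ofReal n4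
    · intro T hT
      rw [hS4] at hT
      exact ⟨hT.2.1, hT.2.2.1, hT.1.1.2.2.1.1⟩
    · intro A B c'
      by_cases hg : A ∈ Bg ∧ B ∈ Bg ∧ A ∉ Sh ∧ B ∉ Sh ∧ A ∉ Ir
      · obtain ⟨g1, g2, g3, g4, g5⟩ := hg
        have fA := hlong A g1 g3
        obtain ⟨sB, -, k2, k3⟩ := hlong B g2 g4
        have hA1 : 1 ≤ A.length := by
          obtain ⟨s, h1, h2, -⟩ := fA
          omega
        rw [hIr, Set.mem_union, not_or] at g5
        rw [hBg] at g1
        have w1 : A ∈ WL K := by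
          have := ball_WL g1
          rwa [show j + c + 1 + 3 = K by omega] at this
        have w2 : rv A ∈ WL K := by
          have := ball_WL_rv g1
          rwa [show j + c + 1 + 3 = K by omega] at this
        obtain ⟨V, hV1, hV2⟩ := places_cnt (R := R) (j := j) (d := 2 ^ (j - J S)) (D := 2 ^ (j + c + 3)) (M := M) (c := c')
          w1 g5.1 w2 (fun hcon => g5.2 ⟨hA1, hcon⟩) hJ6 hn hF6 (fun s hs => by
            have := hmono s (by omega)
            rw [hRf] at this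
            exact this) hd hRD hM hDD fA ⟨sB, k2, k3⟩
        refine ⟨V, ?_, fun p hp => ?_⟩
        · rw [le_div_iff₀ hM0]
          exact hV1
        · rw [hS4] at hp
          refine hV2 p hp.1.1 ?_
          have := hp.1.2
          push_cast
          exact this
      · refine ⟨∅, by simp; positivity, fun p hp => absurd ?_ hg⟩
        rw [hS4] at hp
        exact ⟨hp.2.1, hp.2.2.1, hp.2.2.2.1, hp.2.2.2.2.1, hp.2.2.2.2.2⟩
  have hsub : {T | T ∈ P3 R j ∧ T ∈ Near (2 ^ (j - J S))} ⊆ G Sh Bg ∪ (G Bg Sh ∪ (G Ir Bg ∪ S4)) := by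
    rintro T ⟨hT, hN⟩
    have hT' := hT
    obtain ⟨t1, t2, t3, t4, t5, t6, t7⟩ := hT'
    have hRR : (R : ℤ) + 2 ^ j ≤ 2 ^ (j + c + 1) := by
      have a1 : 2 ^ (j + c + 1) = 2 * 2 ^ (j + c) := by rw [pow_succ]; ring
      have a2 : 2 ^ j ≤ 2 ^ (j + c) := Nat.pow_le_pow_right (by norm_num) (by omega)
      have a3 : R + 2 ^ j ≤ 2 ^ (j + c + 1) := by omega
      exact_mod_cast a3
    have b1 : T.1 ∈ Bg := by
      rw [hBg]
      exact ⟨t1, fun s hs => (t6 s hs).trans hRR⟩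
    have b2 : T.2.2 ∈ Bg := by
      rw [hBg]
      exact ⟨t2, fun s hs => (t7 s hs).trans hRR⟩
    rw [hG]
    by_cases q1 : T.1 ∈ Sh
    · exact Or.inl ⟨q1, b2, t3, t5⟩
    by_cases q2 : T.2.2 ∈ Sh
    · exact Or.inr (Or.inl ⟨b1, q2, t3, t5⟩)
    by_cases q3 : T.1 ∈ Ir
    · exact Or.inr (Or.inr (Or.inl ⟨q3, b2, t3, t5⟩))
    · right; right; right
      rw [hS4]
      exact ⟨⟨hT, hN⟩, b1, b2, q1, q2, q3⟩
  refine (gp_mono hsub).trans ((gp_union_le _ _).trans ((add_le_add m1 ((gp_union_le _ _).trans (add_le_add m2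
    ((gp_union_le _ _).trans (add_le_add m3 m4))))).trans ?_))
  rw [← ENNReal.ofReal_add (by positivity) (by positivity), ← ENNReal.ofReal_add (by positivity) (by positivity),
    ← ENNReal.ofReal_add (by positivity) (by positivity), ← hP0]
  refine ENNReal.ofReal_le_ofReal ?_
  nlinarith [mul_pos hε hP00]

end RMP

end HexObs
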