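import Pool.Agent.RMP.LimRows
import Pool.Agent.RMP.PubW
import Pool.Agent.RMP.NtAll
import Pool.Agent.NTA.FinXAll
import Pool.Agent.NTS.LevyLow
import Pool.Agent.TPC.AN
import Pool.Agent.TPC.XUp
import Pool.Agent.TPC.XLow
import Pool.Agent.PHW.Dict

/-!
# The renormalisation map in the scaling limit (helper83), row NTS: near touches (helper58)

* `aN_bd` : the numbers of the walks (`CRT.Mass.aN_bounds`); `tailW` : few words leave the ball of radius `L * size`;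
* `inner_eq` : the sum over the walks and the places = the sum over the words and the frames;
* **`nts : NTS`**, from `HexObs.RMP.ntpSt`.
-/

set_option autoImplicit false

open Finset
open scoped Classical ENNReal

namespace Pool.Agent.RMP

namespace Nt

open HexObs hiding pos curve

open HexObs.SDN HexObs.RMP

open HexObs.TOG (wdN mem_wdN)

open HexObs.ARM (dz)

open Pool.Agent.NTS.Res

open NTF (sw JJ)

open NTSF (om om_norm rot pos_rot pos_sw ww ww_pos)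

open Pool.Agent.RMP.W (YY SR SR_fin mem_win gpF_real gpF_PR_ne sum_pairs gpF_eq)

/-! ### 1. Numbers -/

theorem aN_bd : ∃ c C : ℝ, 0 < c ∧ 0 < C ∧ ∀ n : ℕ, 1 ≤ n →
    c * (n : ℝ) ^ (11 / 32 : ℝ) ≤ ww n ∧ ww n ≤ C * (n : ℝ) ^ (11 / 32 : ℝ) := by
  obtain ⟨c, C, hc, hC, h⟩ := TPC.an_const TPC.xUp TPC.xLow
  have hx := xc_pos
  have hmu : muB = 1 / xc := le_antisymm muB_le le_muB
  refine ⟨c, C, hc, hC, fun n hn => ?_⟩
  have e1 := NTSF.gf_SawN n hn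
  rw [PHWDict.gf_SawN] at e1
  have h1 : (2 : ℝ) * aB n = 3 * cS n := by exact_mod_cast aB_eq hn
  have h0 : 0 ≤ (cS n : ℝ) * xc ^ n := by positivity
  have hf : 0 ≤ fug := by
    rw [NTSF.fug_eq]
    exact hx.le
  have h0' : 0 ≤ 2 / 3 * (((saw n).card : ℝ) * fug ^ n) := by positivity
  have e2 : (cS n : ℝ) * xc ^ n = 2 / 3 * (((saw n).card : ℝ) * fug ^ n) := by
    have := congrArg ENNReal.toReal e1
    rwa [ENNReal.toReal_ofReal h0, ENNReal.toReal_ofReal h0'] at this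
  have h3 : muB ^ n * xc ^ n = 1 := by
    rw [hmu, ← mul_pow, one_div, inv_mul_cancel₀ hx.ne', one_pow]
  have e3 : ww n = (aB n : ℝ) * xc ^ n := by
    have : (aB n : ℝ) = 3 / 2 * cS n := by linarith
    rw [this]
    unfold NTSF.ww
    linarith
  have hxn : 0 < xc ^ n := by positivity
  rw [e3]
  constructor
  · calc c * (n : ℝ) ^ (11 / 32 : ℝ) = c * (muB ^ n * (n : ℝ) ^ ((11 : ℝ) / 32)) * xc ^ n := by
          have : c * (muB ^ n * (n : ℝ) ^ ((11 : ℝ) / 32)) * xc ^ n = c * (n : ℝ) ^ ((11 : ℝ) / 32) * (muB ^ n * xc ^ n) := by ring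
          rw [this, h3, mul_one]
      _ ≤ _ := mul_le_mul_of_nonneg_right (h n hn).1 hxn.le
  · calc (aB n : ℝ) * xc ^ n ≤ C * (muB ^ n * (n : ℝ) ^ ((11 : ℝ) / 32)) * xc ^ n :=
          mul_le_mul_of_nonneg_right (h n hn).2 hxn.le
      _ = C * (n : ℝ) ^ ((11 : ℝ) / 32) * (muB ^ n * xc ^ n) := by ring
      _ = _ := by rw [h3, mul_one]

/-- from the law to the numbers -/
lemma card_law {n : ℕ} {A : Set C(unitInterval, ℂ)} {ε : ℝ} (hε : 0 ≤ ε) (h : law n A ≤ ENNReal.ofReal ε) :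
    (((saw n).filter fun s => curve s ∈ A).card : ℝ) ≤ ε * ((saw n).card : ℝ) := by
  have hS := NTSF.saw_card_pos n
  rw [NTSF.law_apply] at h
  have h4 : ((saw n).card : ℝ≥0∞) ≠ 0 := by
    have : ((saw n).card : ℕ) ≠ 0 := by
      have : (0 : ℝ) < ((saw n).card : ℝ) := hS
      exact_mod_cast this.ne'
    exact_mod_cast this
  have h5 : (((saw n).filter fun s => curve s ∈ A).card : ℝ≥0∞) ≤ ENNReal.ofReal ε * ((saw n).card : ℝ≥0∞) := by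
    have h6 := mul_le_mul_right h ((saw n).card : ℝ≥0∞)
    rw [← mul_assoc, ENNReal.mul_inv_cancel h4 (ENNReal.natCast_ne_top _), one_mul, mul_comm _ (ENNReal.ofReal ε)] at h6
    convert h6
  rw [← ENNReal.ofReal_natCast, ← ENNReal.ofReal_natCast, ← ENNReal.ofReal_mul hε,
    ENNReal.ofReal_le_ofReal_iff (by positivity)] at h5
  exact h5

/-- the walks stay in a disc of the order of the size, every step number -/
theorem tailS {ε : ℝ} (hε : 0 < ε) : ∃ L : ℝ, 1 ≤ L ∧ ∀ n : ℕ, 1 ≤ n →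
    (((saw n).filter fun s => ¬ ∀ i : ℕ, i ≤ n → ‖pos s i‖ ≤ L * size n).card : ℝ) ≤ ε * ((saw n).card : ℝ) := by
  obtain ⟨-, -, -, -, -, -, htight, -⟩ := NTSF.finE
  rw [MeasureTheory.isTightMeasureSet_iff_exists_isCompact_measure_compl_le] at htight
  obtain ⟨K, hK, hK'⟩ := htight (ENNReal.ofReal ε) (by simpa using hε)
  obtain ⟨M, hM⟩ := hK.isBounded.exists_norm_le
  refine ⟨max 1 M, le_max_left _ _, fun n hn => ?_⟩
  have hs := NTSF.size_pos hn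
  have hn0 : (0 : ℝ) < n := by exact_mod_cast hn
  refine le_trans ?_ (card_law hε.le (hK' (law n) ⟨n, hn, rfl⟩))
  have h1 : ((saw n).filter fun s => ¬ ∀ i : ℕ, i ≤ n → ‖pos s i‖ ≤ max 1 M * size n) ⊆
      (saw n).filter fun s => curve s ∈ Kᶜ := by
    intro s hs'
    rw [Finset.mem_filter] at hs' ⊢
    refine ⟨hs'.1, fun hKs => hs'.2 fun i hi => ?_⟩
    have hu : (i : ℝ) / n ∈ unitInterval := ⟨by positivity, by
      rw [div_le_one hn0]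
      exact_mod_cast hi⟩
    have hcu : curve s ⟨(i : ℝ) / n, hu⟩ = pos s i / (size n : ℂ) :=
      NTSF.Mod.curve_node hn s (a := i) (u := ⟨(i : ℝ) / n, hu⟩) rfl
    have h2 := (curve s).norm_coe_le_norm ⟨(i : ℝ) / n, hu⟩
    rw [hcu, norm_div, Complex.norm_of_nonneg hs.le, div_le_iff₀ hs] at h2
    exact h2.trans (mul_le_mul_of_nonneg_right ((hM _ hKs).trans (le_max_right _ _)) hs.le)
  refine Nat.cast_le.2 ?_
  convert card_le_card h1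

/-- the words that leave the ball of radius D -/
def Bd (D : ℝ) : Set (List Bool) := {t | ∃ i : ℕ, i ≤ t.length ∧ D < ‖JJ (vx oo up t i)‖}

/-- **few words leave the ball of radius L * size** -/
theorem tailW {ε : ℝ} (hε : 0 < ε) : ∃ L : ℝ, 1 ≤ L ∧ ∀ m : ℕ, 1 ≤ m →
    gf {t | t ∈ SawN m ∧ t ∈ Bd (L * size m)} ≤ ENNReal.ofReal (ε * ww m) := by
  obtain ⟨L, hL, h⟩ := tailS hε
  refine ⟨L, hL, fun m hm => ?_⟩
  have hx := xc_pos
  have h1 := h m hm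
  obtain ⟨P, hP⟩ : ∃ P : (Fin m → Fin 3) → Prop, P = fun s => ¬ ∀ i : ℕ, i ≤ m → ‖pos s i‖ ≤ L * size m := ⟨_, rfl⟩
  have h2 := NTSF.card_saw (n := m) hm P (fun s => by
    rw [hP]
    simp only [NTSF.norm_rot'])
  have h3 : {t | t ∈ SawN m ∧ t ∈ Bd (L * size m)} ⊆ {t | t ∈ SawN m ∧ P (sw m t)} := by
    rintro t ⟨g1, i, g2, g3⟩
    refine ⟨g1, ?_⟩
    rw [hP]
    intro hcon
    have hl : t.length = m := g1.1
    have := hcon i (by omega)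
    rw [pos_sw m t i (by omega)] at this
    exact absurd this (not_le.2 g3)
  have hfin : {t | t ∈ SawN m ∧ P (sw m t)}.Finite := (List.finite_length_eq Bool m).subset fun t ht => ht.1.1
  refine (gf_mono h3).trans ?_
  rw [NTF.gf_card (n := m) (fun t ht => ht.1.1), ← ENNReal.ofReal_natCast, ← ENNReal.ofReal_mul (Nat.cast_nonneg _)]
  refine ENNReal.ofReal_le_ofReal ?_
  have h4 : (2 : ℝ) * (((saw m).filter P).card : ℝ) = 3 * (({t | t ∈ SawN m ∧ P (sw m t)}.ncard : ℕ) : ℝ) := by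
    exact_mod_cast h2
  have h5 : (((saw m).filter P).card : ℝ) ≤ ε * ((saw m).card : ℝ) := by
    rw [hP]
    convert h1
  unfold NTSF.ww
  rw [NTSF.fug_eq]
  have h6 : (({t | t ∈ SawN m ∧ P (sw m t)}.ncard : ℕ) : ℝ) ≤ ε * ((saw m).card : ℝ) := by
    have : 0 ≤ (((saw m).filter P).card : ℝ) := Nat.cast_nonneg _
    linarith
  calc _ ≤ ε * ((saw m).card : ℝ) * xc ^ m := mul_le_mul_of_nonneg_right h6 (by positivity)
    _ = _ := by ring

/-! ### 2. The dictionary -/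

/-- a near touch of the two words of a pair -/
def Tch (Q : ℝ) : Set PT :=
  {T | ∃ i j : ℕ, i ≤ T.1.length ∧ j ≤ T.2.2.length ∧ ‖JJ (vx oo up T.1 i) - JJ (pv T.2.1 T.2.2 j)‖ ≤ Q}

/-- its indicator -/
noncomputable def PhT (Q : ℝ) (T : PT) : ℝ := if T ∈ Tch Q then 1 else 0

lemma PhT_le (Q : ℝ) (T : PT) : PhT Q T ≤ 1 := by
  unfold PhT
  split_ifs <;> norm_num

/-- the local function of the two sequences -/
noncomputable def KT (R Q : ℝ) (m l : ℕ) (x y : ℕ → ℂ) : ℝ≥0∞ :=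
  if (‖x m - y l‖ ≤ R ∧ ∀ i j, i ≤ m → j ≤ l → x i ≠ y j) ∧ ∃ i j : ℕ, i ≤ m ∧ j ≤ l ∧ ‖x i - y j‖ ≤ Q then 1 else 0

lemma KT_local (R Q : ℝ) (m l : ℕ) (x x' y y' : ℕ → ℂ) (hx : ∀ i, i ≤ m → x i = x' i) (hy : ∀ j, j ≤ l → y j = y' j) :
    KT R Q m l x y = KT R Q m l x' y' := by
  unfold KT
  rw [hx m le_rfl, hy l le_rfl]
  congr 1
  apply propext
  refine and_congr (and_congr_right fun _ => ?_) ?_
  · constructor
    · intro h i j hi hj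
      rw [← hx i hi, ← hy j hj]
      exact h i j hi hj
    · intro h i j hi hj
      rw [hx i hi, hy j hj]
      exact h i j hi hj
  · constructor
    · rintro ⟨i, j, hi, hj, h⟩
      exact ⟨i, j, hi, hj, by rwa [← hx i hi, ← hy j hj]⟩
    · rintro ⟨i, j, hi, hj, h⟩
      exact ⟨i, j, hi, hj, by rwa [hx i hi, hy j hj]⟩

/-- two walks and a place as words -/
lemma pairs_T (R Q : ℝ) {m l : ℕ} (hm : 0 < m) (hl : 0 < l) :
    4 * ∑ a ∈ saw m, ∑ b ∈ saw l, ∑' p : ℤ × ℤ, (if IsV p then KT R Q m l (pos a) (bpos p b) else 0) =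
      3 * YY (PhT Q) (SR R) m l := by
  rw [sum_pairs hm hl (KT R Q m l) (KT_local R Q m l)]
  have key : ∀ r : Fin 3, ∑ A ∈ wdN m, ∑ B ∈ wdN l, ∑' g : Pt × Pt,
      (if Fr g then KT R Q m l (fun i => om ^ (r : ℕ) * JJ (vx oo up A i)) (fun j => om ^ (r : ℕ) * JJ (pv g B j)) else 0) =
      YY (PhT Q) (SR R) m l := by
    intro r
    refine sum_congr rfl fun A hA => sum_congr rfl fun B hB => tsum_congr fun g => ?_
    obtain ⟨lA, sA⟩ := mem_wdN.1 hA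
    obtain ⟨lB, sB⟩ := mem_wdN.1 hB
    have hn : ‖(om ^ (r : ℕ) : ℂ)‖ = 1 := by rw [norm_pow, om_norm, one_pow]
    have hne : (om ^ (r : ℕ) : ℂ) ≠ 0 := by
      intro h
      rw [h, norm_zero] at hn
      exact zero_ne_one hn
    by_cases hF : Fr g
    · rw [if_pos hF]
      unfold KT
      have e1 : ‖(fun i => om ^ (r : ℕ) * JJ (vx oo up A i)) m - (fun j => om ^ (r : ℕ) * JJ (pv g B j)) l‖ ≤ R ↔
          TIW.en A - pe g B ∈ SR R := by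
        show ‖om ^ (r : ℕ) * JJ (vx oo up A m) - om ^ (r : ℕ) * JJ (pv g B l)‖ ≤ R ↔ ‖JJ (TIW.en A - pe g B)‖ ≤ R
        rw [← mul_sub, norm_mul, hn, one_mul, ← NTF.JJ_sub]
        unfold TIW.en pe
        rw [lA, lB]
      have e2 : (∀ i j, i ≤ m → j ≤ l → (fun i => om ^ (r : ℕ) * JJ (vx oo up A i)) i ≠
          (fun j => om ^ (r : ℕ) * JJ (pv g B j)) j) ↔ Av (ob g B) A := by
        constructor
        · rintro h i hi ⟨j, hj, he⟩
          refine h i j (by omega) (by omega) ?_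
          show om ^ (r : ℕ) * JJ (vx oo up A i) = om ^ (r : ℕ) * JJ (pv g B j)
          rw [he]
        · intro h i j hi hj he
          have h2 : JJ (vx oo up A i) = JJ (pv g B j) := mul_left_cancel₀ hne he
          exact h i (by omega) ⟨j, by omega, NTF.JJ_inj h2⟩
      have e3 : (∃ i j : ℕ, i ≤ m ∧ j ≤ l ∧ ‖(fun i => om ^ (r : ℕ) * JJ (vx oo up A i)) i -
          (fun j => om ^ (r : ℕ) * JJ (pv g B j)) j‖ ≤ Q) ↔ ((A, (g, B)) : PT) ∈ Tch Q := by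
        have e4 : ∀ i j : ℕ, ‖(fun i => om ^ (r : ℕ) * JJ (vx oo up A i)) i - (fun j => om ^ (r : ℕ) * JJ (pv g B j)) j‖ =
            ‖JJ (vx oo up A i) - JJ (pv g B j)‖ := by
          intro i j
          show ‖om ^ (r : ℕ) * JJ (vx oo up A i) - om ^ (r : ℕ) * JJ (pv g B j)‖ = _
          rw [← mul_sub, norm_mul, hn, one_mul]
        constructor
        · rintro ⟨i, j, hi, hj, h⟩
          rw [e4] at h
          exact ⟨i, j, by rw [lA]; exact hi, by rw [lB]; exact hj, h⟩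
        · rintro ⟨i, j, hi, hj, h⟩
          have hi' : i ≤ A.length := hi
          have hj' : j ≤ B.length := hj
          exact ⟨i, j, by omega, by omega, by rw [e4]; exact h⟩
      unfold PhT
      by_cases h : TIW.en A - pe g B ∈ SR R ∧ Av (ob g B) A
      · rw [if_pos (show Fr g ∧ Av (ob g B) A ∧ TIW.en A - pe g B ∈ SR R from ⟨hF, h.2, h.1⟩)]
        by_cases h3 : ((A, (g, B)) : PT) ∈ Tch Q
        · rw [if_pos ⟨⟨e1.2 h.1, e2.2 h.2⟩, e3.2 h3⟩, if_pos h3, ENNReal.ofReal_one]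
        · rw [if_neg fun h' => h3 (e3.1 h'.2), if_neg h3, ENNReal.ofReal_zero]
      · rw [if_neg fun h' => h ⟨e1.1 h'.1.1, e2.1 h'.1.2⟩, if_neg fun h' => h ⟨h'.2.2, h'.2.1⟩]
    · rw [if_neg hF, if_neg fun h => hF h.1]
  rw [sum_congr rfl fun r _ => key r, sum_const, card_univ, Fintype.card_fin, nsmul_eq_mul]
  norm_num

/-- **the sum over the walks and the places** -/
theorem inner_eq {n' k : ℕ} (R Q : ℝ) (hkn : k ≤ n') {d : ℝ} (hd : 0 ≤ d) {m l : ℕ} (hm0 : 0 < m) (hl0 : 0 < l)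
    (hm : m ∈ win d k) (hl : l ∈ win d (n' - k)) :
    ∑ a ∈ saw m, ∑ b ∈ saw l, ∑' p : ℤ × ℤ,
      (if Nears a b p R ∧ ∃ i j : ℕ, i ≤ m ∧ j ≤ l ∧ ‖pos a i - bpos p b j‖ ≤ Q then (1 : ℝ) else 0) =
      3 / 4 * (YY (PhT Q) (SR R) m l).toReal := by
  have hE := pairs_T R Q hm0 hl0
  have hY : YY (PhT Q) (SR R) m l ≠ ⊤ := W.YY_ne (PhT_le Q) hkn hd (SR_fin R) hm hl
  have hfin : (4 : ℝ≥0∞) * ∑ a ∈ saw m, ∑ b ∈ saw l, ∑' p : ℤ × ℤ,
      (if IsV p then KT R Q m l (pos a) (bpos p b) else 0) ≠ ⊤ := by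
    rw [hE]
    exact ENNReal.mul_ne_top (by norm_num) hY
  have hfin2 : ∑ a ∈ saw m, ∑ b ∈ saw l, ∑' p : ℤ × ℤ,
      (if IsV p then KT R Q m l (pos a) (bpos p b) else 0) ≠ ⊤ := by
    intro h
    rw [h] at hfin
    exact hfin (ENNReal.mul_top (by norm_num))
  have h4 := congrArg ENNReal.toReal hE
  rw [ENNReal.toReal_mul, ENNReal.toReal_mul] at h4
  have h5 : ((4 : ℝ≥0∞)).toReal = 4 := by norm_num
  have h5' : ((3 : ℝ≥0∞)).toReal = 3 := by norm_num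
  rw [h5, h5'] at h4
  have h7 : 3 / 4 * (YY (PhT Q) (SR R) m l).toReal = (∑ a ∈ saw m, ∑ b ∈ saw l, ∑' p : ℤ × ℤ,
      (if IsV p then KT R Q m l (pos a) (bpos p b) else 0)).toReal := by linarith
  rw [h7]
  have h6 := ENNReal.sum_ne_top.1 hfin2
  rw [ENNReal.toReal_sum h6]
  refine sum_congr rfl fun a ha => ?_
  have h8 := ENNReal.sum_ne_top.1 (h6 a ha)
  rw [ENNReal.toReal_sum h8]
  refine sum_congr rfl fun b _ => ?_
  have h9 : ∀ p : ℤ × ℤ, (if IsV p then KT R Q m l (pos a) (bpos p b) else 0) ≠ ⊤ := by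
    intro p
    unfold KT
    split_ifs <;> simp
  rw [ENNReal.tsum_toReal_eq h9]
  refine tsum_congr fun p => ?_
  unfold KT
  by_cases hV : IsV p
  · rw [if_pos hV]
    by_cases hN : (‖pos a m - bpos p b l‖ ≤ R ∧ ∀ i j, i ≤ m → j ≤ l → pos a i ≠ bpos p b j) ∧
        ∃ i j : ℕ, i ≤ m ∧ j ≤ l ∧ ‖pos a i - bpos p b j‖ ≤ Q
    · rw [if_pos hN, if_pos ⟨⟨hV, hN.1.1, hN.1.2⟩, hN.2⟩, ENNReal.toReal_one]
    · rw [if_neg hN, if_neg fun h => hN ⟨⟨h.1.2.1, h.1.2.2⟩, h.2⟩, ENNReal.toReal_zero]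
  · rw [if_neg hV, if_neg fun h => hV h.1.1, ENNReal.toReal_zero]

/-! ### 3. Masses -/

/-- the mass of the words by the lengths -/
lemma gf_win {W : Finset ℕ} {X : Set (List Bool)} {f : ℝ}
    (h : ∀ m ∈ W, gf {t | t ∈ SawN m ∧ t ∈ X} ≤ ENNReal.ofReal f) :
    gf {t | t ∈ SA ∧ t.length ∈ W ∧ t ∈ X} ≤ ENNReal.ofReal (W.card * f) := by
  rw [NTF.gf_lengths, tsum_eq_sum (s := W)]
  · calc ∑ m ∈ W, gf {t | t ∈ {t | t ∈ SA ∧ t.length ∈ W ∧ t ∈ X} ∧ t.length = m} ≤ ∑ _m ∈ W, ENNReal.ofReal f :=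
          sum_le_sum fun m hm => (gf_mono (by
            rintro t ⟨⟨h1, h2, h3⟩, h4⟩
            exact ⟨⟨h4, h1⟩, h3⟩)).trans (h m hm)
      _ = ENNReal.ofReal (W.card * f) := by
          rw [sum_const, nsmul_eq_mul, ENNReal.ofReal_mul (Nat.cast_nonneg _), ENNReal.ofReal_natCast]
  · intro m hm
    have e : {t | t ∈ {t | t ∈ SA ∧ t.length ∈ W ∧ t ∈ X} ∧ t.length = m} = ∅ := by
      rw [Set.eq_empty_iff_forall_notMem]
      rintro t ⟨⟨h1, h2, h3⟩, h4⟩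
      rw [h4] at h2
      exact hm h2
    rw [e]
    unfold gf
    exact tsum_empty

lemma gpF_tch (Q : ℝ) (S : Set PT) : gpF (PhT Q) S ≤ gp (S ∩ Tch Q) := by
  rw [gp_indicator]
  have h0 : gpF (PhT Q) S = ∑' T : PT, S.indicator (fun T => wE T.1 * wE T.2.2 * ENNReal.ofReal (PhT Q T)) T :=
    tsum_subtype S fun T : PT => wE T.1 * wE T.2.2 * ENNReal.ofReal (PhT Q T)
  rw [h0]
  refine ENNReal.tsum_le_tsum fun T => ?_
  by_cases hS : T ∈ S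
  · rw [Set.indicator_of_mem hS]
    unfold PhT
    by_cases hQ : T ∈ Tch Q
    · rw [if_pos hQ, ENNReal.ofReal_one, mul_one, Set.indicator_of_mem (show T ∈ S ∩ Tch Q from ⟨hS, hQ⟩)]
    · rw [if_neg hQ, ENNReal.ofReal_zero, mul_zero]
      exact zero_le
  · rw [Set.indicator_of_notMem hS]
    exact zero_le

/-- a level -/
lemma lev_ex {y : ℝ} (hy : 1 ≤ y) : ∃ j : ℕ, y ≤ 2 ^ j ∧ (2 : ℝ) ^ j ≤ 2 * y := by
  obtain ⟨i, h1, h2⟩ := exists_nat_pow_near hy one_lt_two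
  refine ⟨i + 1, h2.le, ?_⟩
  rw [pow_succ]
  linarith

lemma win_card (d : ℝ) {k n : ℕ} (hd : d ≤ 1) (hk : k ≤ n) (hn : 1 ≤ n) : ((win d k).card : ℝ) ≤ 3 * n := by
  have h1 : (win d k).card ≤ ⌊(1 + d) * k⌋₊ + 1 := by
    unfold win
    exact (card_filter_le _ _).trans (by rw [card_range])
  have h2 : ⌊(1 + d) * (k : ℝ)⌋₊ ≤ 2 * k := by
    have : (1 + d) * (k : ℝ) ≤ ((2 * k : ℕ) : ℝ) := by
      push_cast
      exact mul_le_mul_of_nonneg_right (by linarith) (Nat.cast_nonneg _)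
    calc ⌊(1 + d) * (k : ℝ)⌋₊ ≤ ⌊((2 * k : ℕ) : ℝ)⌋₊ := Nat.floor_mono this
      _ = 2 * k := Nat.floor_natCast _
  have h3 : (win d k).card ≤ 3 * n := by omega
  exact_mod_cast h3

/-- **row NTS** -/
theorem nts : NTS := by
  intro ε M hε hM
  have hx0 := xc_pos
  obtain ⟨ca, Ca, hca, hCa, hw⟩ := aN_bd
  obtain ⟨cs, Cs, hcs, hsz, -⟩ := NTSF.finE
  have hCs : 0 < Cs := by
    have h1 := hsz 1 le_rfl
    have h2 : (0 : ℝ) < ((1 : ℕ) : ℝ) ^ (3 / 4 : ℝ) := by positivity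
    by_contra hcon
    push Not at hcon
    nlinarith [h1.1, h1.2]
  obtain ⟨M1, hM1⟩ : ∃ M1 : ℝ, M1 = max M 1 := ⟨_, rfl⟩
  have hM1a : M ≤ M1 := hM1 ▸ le_max_left _ _
  have hM1b : 1 ≤ M1 := hM1 ▸ le_max_right _ _
  obtain ⟨κ, hκ⟩ : ∃ κ : ℝ, κ = 3 / 4 / (ca ^ 2 * ε ^ (11 / 16 : ℝ)) := ⟨_, rfl⟩
  have hκ0 : 0 < κ := by rw [hκ]; positivity
  obtain ⟨B2, hB2⟩ : ∃ B2 : ℝ, B2 = 2 * (54 * (4 * M1) ^ 2 * (6 * Ca) ^ 2) := ⟨_, rfl⟩
  have hB20 : 0 < B2 := by rw [hB2]; positivity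
  obtain ⟨e', he'⟩ : ∃ e' : ℝ, e' = ε / (2 * κ * B2) := ⟨_, rfl⟩
  have he'0 : 0 < e' := by rw [he']; positivity
  obtain ⟨L, hL1, hL⟩ := tailW he'0
  obtain ⟨K, hK⟩ : ∃ K : ℝ, K = 2 * M1 + 8 * (L * Cs) := ⟨_, rfl⟩
  have hLC : 0 < L * Cs := mul_pos (by linarith) hCs
  have hK2 : 2 ≤ K := by linarith
  obtain ⟨ε1, hε1⟩ : ∃ ε1 : ℝ, ε1 = ε / (2 * κ * (2 * K) ^ (67 / 12 : ℝ)) := ⟨_, rfl⟩
  have hε10 : 0 < ε1 := by rw [hε1]; positivity
  obtain ⟨e, b0, heb, hN⟩ := ntpSt 0 ε1 hε10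
  have htend := (tendsto_rpow_atTop (by norm_num : (0 : ℝ) < 3 / 4)).comp tendsto_natCast_atTop_atTop
  obtain ⟨n1, hn1⟩ := Filter.eventually_atTop.1 (htend.eventually_ge_atTop ((2 : ℝ) ^ b0))
  refine ⟨K / 2 ^ (e + 1), max n1 1, by positivity, fun n k d R hn hk hk' hd hd1 hR hRM => ?_⟩
  have hn1' : n1 ≤ n := (le_max_left _ _).trans hn
  have hn1 : 1 ≤ n := (le_max_right _ _).trans hn
  have hub : (2 : ℝ) ^ b0 ≤ (n : ℝ) ^ (3 / 4 : ℝ) := by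
    have := ‹∀ b ≥ n1, _› n hn1'
    exact this
  have hnR : (1 : ℝ) ≤ n := by exact_mod_cast hn1
  have hnp : (0 : ℝ) < n := by linarith
  obtain ⟨u, hu⟩ : ∃ u : ℝ, u = (n : ℝ) ^ (3 / 4 : ℝ) := ⟨_, rfl⟩
  rw [← hu] at hub hRM ⊢
  have hu1 : 1 ≤ u := by
    rw [hu]
    exact Real.one_le_rpow hnR (by norm_num)
  have hu0 : 0 < u := by linarith
  -- the numbers k, n - k
  have hkn : k ≤ n := by
    have h1 : (k : ℝ) ≤ n := hk'.trans (by nlinarith)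
    exact_mod_cast h1
  have hk0 : 0 < k := by
    have h1 : (0 : ℝ) < k := lt_of_lt_of_le (mul_pos hε hnp) hk
    exact_mod_cast h1
  have hnk : ε * n ≤ ((n - k : ℕ) : ℝ) := by
    rw [Nat.cast_sub hkn]
    linarith
  have hnk0 : 0 < n - k := by
    have h1 : (0 : ℝ) < ((n - k : ℕ) : ℝ) := lt_of_lt_of_le (mul_pos hε hnp) hnk
    exact_mod_cast h1
  -- the levels
  obtain ⟨j0, j1, j2⟩ := lev_ex (y := 2 * M1 * u) (by nlinarith)
  obtain ⟨j, j3, j4⟩ := lev_ex (y := K * u) (by nlinarith)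
  have hbj : b0 ≤ j := by
    have h1 : (2 : ℝ) ^ b0 ≤ 2 ^ j := hub.trans (le_trans (by nlinarith) j3)
    exact (pow_le_pow_iff_right₀ (by norm_num : (1 : ℝ) < 2)).1 h1
  have hN' := hN 0 j hbj (Nat.zero_le _)
  -- lengths in the windows
  have hmem : ∀ {k' : ℕ}, k' ≤ n → ∀ m ∈ win d k', k' ≤ m ∧ (m : ℝ) ≤ 2 * n := by
    intro k' hk'n m hm
    obtain ⟨a1, a2⟩ := (mem_win hd).1 hm
    refine ⟨a1, a2.trans ?_⟩
    have : (k' : ℝ) ≤ n := by exact_mod_cast hk'n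
    have hk'0 : (0 : ℝ) ≤ k' := Nat.cast_nonneg _
    nlinarith
  have hup : ∀ m : ℕ, 1 ≤ m → (m : ℝ) ≤ 2 * n → ww m ≤ 2 * Ca * (n : ℝ) ^ (11 / 32 : ℝ) := by
    intro m hm hm2
    refine (hw m hm).2.trans ?_
    have h1 : (m : ℝ) ^ (11 / 32 : ℝ) ≤ 2 * (n : ℝ) ^ (11 / 32 : ℝ) := by
      calc (m : ℝ) ^ (11 / 32 : ℝ) ≤ (2 * (n : ℝ)) ^ (11 / 32 : ℝ) :=
            Real.rpow_le_rpow (Nat.cast_nonneg _) hm2 (by norm_num)
        _ = (2 : ℝ) ^ (11 / 32 : ℝ) * (n : ℝ) ^ (11 / 32 : ℝ) := Real.mul_rpow (by norm_num) hnp.le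
        _ ≤ 2 * (n : ℝ) ^ (11 / 32 : ℝ) := by
          refine mul_le_mul_of_nonneg_right ?_ (by positivity)
          calc (2 : ℝ) ^ (11 / 32 : ℝ) ≤ (2 : ℝ) ^ (1 : ℝ) := Real.rpow_le_rpow_of_exponent_le (by norm_num) (by norm_num)
            _ = 2 := Real.rpow_one 2
    calc Ca * (m : ℝ) ^ (11 / 32 : ℝ) ≤ Ca * (2 * (n : ℝ) ^ (11 / 32 : ℝ)) := mul_le_mul_of_nonneg_left h1 hCa.le
      _ = _ := by ring
  have hsize : ∀ m : ℕ, 1 ≤ m → (m : ℝ) ≤ 2 * n → L * size m ≤ 2 * (L * Cs) * u := by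
    intro m hm hm2
    have h1 : (m : ℝ) ^ (3 / 4 : ℝ) ≤ 2 * u := by
      calc (m : ℝ) ^ (3 / 4 : ℝ) ≤ (2 * (n : ℝ)) ^ (3 / 4 : ℝ) :=
            Real.rpow_le_rpow (Nat.cast_nonneg _) hm2 (by norm_num)
        _ = (2 : ℝ) ^ (3 / 4 : ℝ) * (n : ℝ) ^ (3 / 4 : ℝ) := Real.mul_rpow (by norm_num) hnp.le
        _ ≤ 2 * (n : ℝ) ^ (3 / 4 : ℝ) := by
          refine mul_le_mul_of_nonneg_right ?_ (by positivity)
          calc (2 : ℝ) ^ (3 / 4 : ℝ) ≤ (2 : ℝ) ^ (1 : ℝ) := Real.rpow_le_rpow_of_exponent_le (by norm_num) (by norm_num)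
            _ = 2 := Real.rpow_one 2
        _ = 2 * u := by rw [hu]
    calc L * size m ≤ L * (Cs * (m : ℝ) ^ (3 / 4 : ℝ)) := mul_le_mul_of_nonneg_left (hsz m hm).2 (by linarith)
      _ ≤ L * (Cs * (2 * u)) := by gcongr
      _ = _ := by ring
  -- the masses of the words
  obtain ⟨D, hD⟩ : ∃ D : ℝ, D = 2 * (L * Cs) * u := ⟨_, rfl⟩
  obtain ⟨A1, hA1⟩ : ∃ A1 : ℝ, A1 = 6 * Ca * ((n : ℝ) * (n : ℝ) ^ (11 / 32 : ℝ)) := ⟨_, rfl⟩
  have hA10 : 0 < A1 := by rw [hA1]; positivity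
  have mAll : ∀ k' : ℕ, 0 < k' → k' ≤ n → gf {t | t ∈ SA ∧ t.length ∈ win d k' ∧ t ∈ (Set.univ : Set (List Bool))} ≤
      ENNReal.ofReal A1 := by
    intro k' hk'0 hk'n
    refine (gf_win (f := 2 * Ca * (n : ℝ) ^ (11 / 32 : ℝ)) fun m hm => ?_).trans
      (ENNReal.ofReal_le_ofReal ?_)
    · obtain ⟨a1, a2⟩ := hmem hk'n m hm
      refine (gf_mono (fun t ht => ht.1)).trans ((NTSF.gf_SawN_bounds m).2.trans (ENNReal.ofReal_le_ofReal ?_))
      exact hup m (by omega) a2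
    · calc ((win d k').card : ℝ) * (2 * Ca * (n : ℝ) ^ (11 / 32 : ℝ)) ≤ 3 * n * (2 * Ca * (n : ℝ) ^ (11 / 32 : ℝ)) :=
            mul_le_mul_of_nonneg_right (win_card d hd1 hk'n hn1) (by positivity)
        _ = A1 := by rw [hA1]; ring
  have mBad : ∀ k' : ℕ, 0 < k' → k' ≤ n → gf {t | t ∈ SA ∧ t.length ∈ win d k' ∧ t ∈ Bd D} ≤ ENNReal.ofReal (e' * A1) := by
    intro k' hk'0 hk'n
    refine (gf_win (f := e' * (2 * Ca * (n : ℝ) ^ (11 / 32 : ℝ))) fun m hm => ?_).trans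
      (ENNReal.ofReal_le_ofReal ?_)
    · obtain ⟨a1, a2⟩ := hmem hk'n m hm
      have hm1 : 1 ≤ m := by omega
      refine (gf_mono (Q := {t | t ∈ SawN m ∧ t ∈ Bd (L * size m)}) ?_).trans ((hL m hm1).trans
        (ENNReal.ofReal_le_ofReal (mul_le_mul_of_nonneg_left (hup m hm1 a2) he'0.le)))
      rintro t ⟨g1, i, g2, g3⟩
      exact ⟨g1, i, g2, lt_of_le_of_lt (by rw [hD]; exact hsize m hm1 a2) g3⟩
    · calc ((win d k').card : ℝ) * (e' * (2 * Ca * (n : ℝ) ^ (11 / 32 : ℝ))) ≤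
            3 * n * (e' * (2 * Ca * (n : ℝ) ^ (11 / 32 : ℝ))) :=
            mul_le_mul_of_nonneg_right (win_card d hd1 hk'n hn1) (by positivity)
        _ = e' * A1 := by rw [hA1]; ring
  -- the pairs
  obtain ⟨Q, hQ⟩ : ∃ Q : ℝ, Q = K / 2 ^ (e + 1) * u := ⟨_, rfl⟩
  rw [← hQ]
  have hsub : PR n k d (SR R) ∩ Tch Q ⊆ {T | T ∈ P3 0 j ∧ T ∈ Near (2 ^ (j - e))} ∪
      ({T | T.1 ∈ {t | t ∈ SA ∧ t.length ∈ win d k ∧ t ∈ Bd D} ∧
        T.2.2 ∈ {t | t ∈ SA ∧ t.length ∈ win d (n - k) ∧ t ∈ (Set.univ : Set (List Bool))} ∧ Fr T.2.1 ∧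
        TIW.hn (TIW.en T.1 - pe T.2.1 T.2.2) ≤ 2 ^ j0} ∪
      {T | T.1 ∈ {t | t ∈ SA ∧ t.length ∈ win d k ∧ t ∈ (Set.univ : Set (List Bool))} ∧
        T.2.2 ∈ {t | t ∈ SA ∧ t.length ∈ win d (n - k) ∧ t ∈ Bd D} ∧ Fr T.2.1 ∧
        TIW.hn (TIW.en T.1 - pe T.2.1 T.2.2) ≤ 2 ^ j0}) := by
    rintro T ⟨⟨p1, p2, p3, p4, p5, p6, p7, p8, p9⟩, ⟨i, i', q1, q2, q3⟩⟩
    have w1 : T.1.length ∈ win d k := (mem_win hd).2 ⟨p6, p7⟩
    have w2 : T.2.2.length ∈ win d (n - k) := by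
      refine (mem_win hd).2 ⟨by omega, ?_⟩
      rw [Nat.cast_sub hkn]
      exact p9
    have hgap : ((TIW.hn (TIW.en T.1 - pe T.2.1 T.2.2) : ℤ) : ℝ) ≤ 2 * M1 * u := by
      have h1 := MCP.hn_le_JJ (TIW.en T.1 - pe T.2.1 T.2.2)
      have h2 : ‖JJ (TIW.en T.1 - pe T.2.1 T.2.2)‖ ≤ R := p5
      have h3 : R ≤ M1 * u := hRM.trans (mul_le_mul_of_nonneg_right hM1a hu0.le)
      linarith
    have hgap0 : TIW.hn (TIW.en T.1 - pe T.2.1 T.2.2) ≤ 2 ^ j0 := by exact_mod_cast hgap.trans j1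
    by_cases b1 : T.1 ∈ Bd D
    · exact Or.inr (Or.inl ⟨⟨p1, w1, b1⟩, ⟨p2, w2, Set.mem_univ _⟩, p3, hgap0⟩)
    by_cases b2 : T.2.2 ∈ Bd D
    · exact Or.inr (Or.inr ⟨⟨p1, w1, Set.mem_univ _⟩, ⟨p2, w2, b2⟩, p3, hgap0⟩)
    have hdz : ∀ t : List Bool, t ∉ Bd D → ∀ s, s ≤ t.length → dz t s ≤ ((0 : ℕ) : ℤ) + 2 ^ j := by
      intro t ht s hs
      have h1 : ∀ i, i ≤ t.length → ‖JJ (vx oo up t i)‖ ≤ D := by
        intro i hi
        by_contra hcon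
        push Not at hcon
        exact ht ⟨i, hi, hcon⟩
      have h2 := MCP.hn_le_JJ (vx oo up t s - TIW.en t)
      have h3 : ‖JJ (vx oo up t s - TIW.en t)‖ ≤ 2 * D := by
        rw [NTF.JJ_sub]
        have h4 := norm_sub_le (JJ (vx oo up t s)) (JJ (TIW.en t))
        have h5 := h1 s hs
        have h6 := h1 t.length le_rfl
        have h7 : ‖JJ (TIW.en t)‖ ≤ D := h6
        linarith
      have h8 : ((TIW.hn (vx oo up t s - TIW.en t) : ℤ) : ℝ) ≤ 2 ^ j := by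
        have h9 : 4 * D ≤ K * u := by
          rw [hD, hK]
          have : 0 ≤ M1 * u := by positivity
          nlinarith
        linarith
      have h10 : TIW.hn (vx oo up t s - TIW.en t) ≤ 2 ^ j := by exact_mod_cast h8
      rw [Nat.cast_zero, zero_add]
      exact h10
    refine Or.inl ⟨⟨p1, p2, p3, p4, ?_, hdz _ b1, hdz _ b2⟩, i, i', q1, q2, ?_⟩
    · have h1 : ((TIW.hn (TIW.en T.1 - pe T.2.1 T.2.2) : ℤ) : ℝ) ≤ 2 ^ j := by
        refine hgap.trans (le_trans ?_ j3)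
        rw [hK]
        nlinarith
      exact_mod_cast h1
    · have h1 := MCP.hn_le_JJ (vx oo up T.1 i - pv T.2.1 T.2.2 i')
      rw [NTF.JJ_sub] at h1
      have h2 : (2 : ℝ) * Q ≤ 2 ^ (j - e) := by
        have hej : e ≤ j := heb.trans hbj
        have h3 : (2 : ℝ) ^ j = 2 ^ (j - e) * 2 ^ e := by rw [← pow_add]; congr 1; omega
        have h4 : 2 * Q * 2 ^ e = K * u := by
          rw [hQ, pow_succ]
          field_simp
        have h5 : 2 * Q * 2 ^ e ≤ 2 ^ (j - e) * 2 ^ e := by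
          rw [h4, ← h3]
          exact j3
        exact le_of_mul_le_mul_right h5 (by positivity)
      have h6 : ((TIW.hn (vx oo up T.1 i - pv T.2.1 T.2.2 i') : ℤ) : ℝ) ≤ 2 ^ (j - e) := by linarith
      exact_mod_cast h6
  -- the bound of the mass
  obtain ⟨x6, hx6⟩ : ∃ x6 : ℝ, x6 = (n : ℝ) ^ (67 / 16 : ℝ) := ⟨_, rfl⟩
  have hx60 : 0 < x6 := by rw [hx6]; positivity
  have hA1x : u ^ 2 * A1 ^ 2 = (6 * Ca) ^ 2 * x6 := by
    have e1 : u ^ 2 = (n : ℝ) ^ (3 / 2 : ℝ) := by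
      rw [hu, ← Real.rpow_natCast, ← Real.rpow_mul hnp.le]
      norm_num
    have e2 : ((n : ℝ) * (n : ℝ) ^ (11 / 32 : ℝ)) ^ 2 = (n : ℝ) ^ (43 / 16 : ℝ) := by
      have e3 : (n : ℝ) * (n : ℝ) ^ (11 / 32 : ℝ) = (n : ℝ) ^ (43 / 32 : ℝ) := by
        conv_lhs => rw [← Real.rpow_one (n : ℝ)]
        rw [← Real.rpow_mul hnp.le, ← Real.rpow_add hnp]
        norm_num
      rw [e3, ← Real.rpow_natCast, ← Real.rpow_mul hnp.le]
      norm_num
    rw [hA1, mul_pow, e1, e2, hx6]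
    have e4 : (n : ℝ) ^ (67 / 16 : ℝ) = (n : ℝ) ^ (3 / 2 : ℝ) * (n : ℝ) ^ (43 / 16 : ℝ) := by
      rw [← Real.rpow_add hnp]
      norm_num
    rw [e4]
    ring
  have h4j : (4 : ℝ) ^ j0 ≤ (4 * M1) ^ 2 * u ^ 2 := by
    have e1 : (4 : ℝ) ^ j0 = ((2 : ℝ) ^ j0) ^ 2 := by
      rw [← pow_mul, mul_comm j0 2, pow_mul]
      norm_num
    rw [e1, ← mul_pow]
    refine pow_le_pow_left₀ (by positivity) ?_ 2
    linarith
  have hbadpart : ∀ X Y : Set (List Bool), ∀ a b : ℝ, 0 ≤ a → 0 ≤ b → a * b ≤ e' * A1 ^ 2 → gf X ≤ ENNReal.ofReal a →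
      gf Y ≤ ENNReal.ofReal b → gp {T | T.1 ∈ X ∧ T.2.2 ∈ Y ∧ Fr T.2.1 ∧ TIW.hn (TIW.en T.1 - pe T.2.1 T.2.2) ≤ 2 ^ j0} ≤
        ENNReal.ofReal (B2 / 2 * e' * x6) := by
    intro X Y a b ha hb hab hX hY
    refine (bs_prod X Y j0).trans ?_
    calc ENNReal.ofReal (54 * 4 ^ j0) * (gf X * gf Y) ≤ ENNReal.ofReal (54 * 4 ^ j0) *
          (ENNReal.ofReal a * ENNReal.ofReal b) := by gcongr
      _ = ENNReal.ofReal (54 * 4 ^ j0 * (a * b)) := by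
          rw [← ENNReal.ofReal_mul ha, ← ENNReal.ofReal_mul (by positivity)]
      _ ≤ _ := by
          refine ENNReal.ofReal_le_ofReal ?_
          calc 54 * 4 ^ j0 * (a * b) ≤ 54 * ((4 * M1) ^ 2 * u ^ 2) * (e' * A1 ^ 2) := by gcongr
            _ = 54 * (4 * M1) ^ 2 * e' * (u ^ 2 * A1 ^ 2) := by ring
            _ = 54 * (4 * M1) ^ 2 * e' * ((6 * Ca) ^ 2 * x6) := by rw [hA1x]
            _ = B2 / 2 * e' * x6 := by rw [hB2]; ring
  have hmass : gp (PR n k d (SR R) ∩ Tch Q) ≤ ENNReal.ofReal (ε / κ * x6) := by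
    refine (gp_mono hsub).trans ((gp_union_le _ _).trans ?_)
    have g1 : gp {T | T ∈ P3 0 j ∧ T ∈ Near (2 ^ (j - e))} ≤ ENNReal.ofReal (ε / (2 * κ) * x6) := by
      refine hN'.trans (ENNReal.ofReal_le_ofReal ?_)
      have e1 : (2 : ℝ) ^ ((67 / 12 : ℝ) * (j : ℝ)) ≤ (2 * K) ^ (67 / 12 : ℝ) * x6 := by
        rw [← two_pow_rpow]
        calc ((2 : ℝ) ^ j) ^ (67 / 12 : ℝ) ≤ (2 * K * u) ^ (67 / 12 : ℝ) :=
              Real.rpow_le_rpow (by positivity) (by linarith) (by norm_num)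
          _ = (2 * K) ^ (67 / 12 : ℝ) * u ^ (67 / 12 : ℝ) := Real.mul_rpow (by positivity) hu0.le
          _ = (2 * K) ^ (67 / 12 : ℝ) * x6 := by
              rw [hu, ← Real.rpow_mul hnp.le, hx6]
              norm_num
      calc ε1 * (2 : ℝ) ^ ((67 / 12 : ℝ) * (j : ℝ)) ≤ ε1 * ((2 * K) ^ (67 / 12 : ℝ) * x6) :=
            mul_le_mul_of_nonneg_left e1 hε10.le
        _ = ε / (2 * κ) * x6 := by
            have : 0 < (2 * K) ^ (67 / 12 : ℝ) := by positivity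
            rw [hε1]
            field_simp
    have g2 : gp ({T | T.1 ∈ {t | t ∈ SA ∧ t.length ∈ win d k ∧ t ∈ Bd D} ∧
        T.2.2 ∈ {t | t ∈ SA ∧ t.length ∈ win d (n - k) ∧ t ∈ (Set.univ : Set (List Bool))} ∧ Fr T.2.1 ∧
        TIW.hn (TIW.en T.1 - pe T.2.1 T.2.2) ≤ 2 ^ j0} ∪
        {T | T.1 ∈ {t | t ∈ SA ∧ t.length ∈ win d k ∧ t ∈ (Set.univ : Set (List Bool))} ∧
        T.2.2 ∈ {t | t ∈ SA ∧ t.length ∈ win d (n - k) ∧ t ∈ Bd D} ∧ Fr T.2.1 ∧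
        TIW.hn (TIW.en T.1 - pe T.2.1 T.2.2) ≤ 2 ^ j0}) ≤ ENNReal.ofReal (ε / (2 * κ) * x6) := by
      refine (gp_union_le _ _).trans ?_
      have f1 := hbadpart _ _ (e' * A1) A1 (by positivity) hA10.le (le_of_eq (by ring)) (mBad k hk0 hkn)
        (mAll (n - k) hnk0 (Nat.sub_le _ _))
      have f2 := hbadpart _ _ A1 (e' * A1) hA10.le (by positivity) (le_of_eq (by ring)) (mAll k hk0 hkn)
        (mBad (n - k) hnk0 (Nat.sub_le _ _))
      refine (add_le_add f1 f2).trans ?_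
      rw [← ENNReal.ofReal_add (by positivity) (by positivity)]
      refine ENNReal.ofReal_le_ofReal (le_of_eq ?_)
      have : B2 / 2 * e' * x6 + B2 / 2 * e' * x6 = B2 * e' * x6 := by ring
      rw [this, he']
      field_simp
    refine (add_le_add g1 g2).trans ?_
    rw [← ENNReal.ofReal_add (by positivity) (by positivity)]
    refine ENNReal.ofReal_le_ofReal (le_of_eq ?_)
    field_simp
    ring
  -- the sum
  have hgpF : (gpF (PhT Q) (PR n k d (SR R))).toReal ≤ ε / κ * x6 := by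
    have h1 := (gpF_tch Q (PR n k d (SR R))).trans hmass
    have h2 := ENNReal.toReal_mono ENNReal.ofReal_ne_top h1
    rwa [ENNReal.toReal_ofReal (by positivity)] at h2
  obtain ⟨κ', hκ'⟩ : ∃ κ' : ℝ, κ' = 3 / 4 / (ca * (ε * n) ^ (11 / 32 : ℝ)) ^ 2 := ⟨_, rfl⟩
  have hεn : 0 < ε * n := mul_pos hε hnp
  have hκ'0 : 0 < κ' := by rw [hκ']; positivity
  have hκκ : κ' * x6 = κ * (n : ℝ) ^ (7 / 2 : ℝ) := by
    have e1 : (ca * (ε * n) ^ (11 / 32 : ℝ)) ^ 2 = ca ^ 2 * ε ^ (11 / 16 : ℝ) * (n : ℝ) ^ (11 / 16 : ℝ) := by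
      rw [mul_pow, Real.mul_rpow hε.le hnp.le, mul_pow, ← Real.rpow_natCast (ε ^ (11 / 32 : ℝ)), ← Real.rpow_mul hε.le,
        ← Real.rpow_natCast ((n : ℝ) ^ (11 / 32 : ℝ)), ← Real.rpow_mul hnp.le]
      norm_num
      ring
    have e2 : x6 = (n : ℝ) ^ (7 / 2 : ℝ) * (n : ℝ) ^ (11 / 16 : ℝ) := by
      rw [hx6, ← Real.rpow_add hnp]
      norm_num
    have e3 : 0 < (n : ℝ) ^ (11 / 16 : ℝ) := by positivity
    have e4 : 0 < ε ^ (11 / 16 : ℝ) := by positivity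
    rw [hκ', hκ, e1, e2]
    field_simp
  have hlow : ∀ m : ℕ, ε * n ≤ m → ca * (ε * n) ^ (11 / 32 : ℝ) ≤ ww m := by
    intro m hm
    have hm1 : 1 ≤ m := by
      have : (0 : ℝ) < m := lt_of_lt_of_le hεn hm
      have : 0 < m := by exact_mod_cast this
      omega
    exact (mul_le_mul_of_nonneg_left (Real.rpow_le_rpow hεn.le hm (by norm_num)) hca.le).trans (hw m hm1).1
  have hsum : ntsum n k d R Q ≤ κ' * (gpF (PhT Q) (PR n k d (SR R))).toReal := by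
    rw [gpF_real (PhT_le Q) hkn hd (SR_fin R), mul_sum]
    unfold ntsum
    refine sum_le_sum fun m hm => ?_
    rw [mul_sum]
    refine sum_le_sum fun l hl => ?_
    obtain ⟨m1, m2⟩ := hmem hkn m hm
    obtain ⟨l1, l2⟩ := hmem (Nat.sub_le n k) l hl
    rw [inner_eq R Q hkn hd (by omega) (by omega) hm hl]
    obtain ⟨Y, hY⟩ : ∃ Y : ℝ, Y = (YY (PhT Q) (SR R) m l).toReal := ⟨_, rfl⟩
    have hY0 : 0 ≤ Y := by rw [hY]; exact ENNReal.toReal_nonneg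
    rw [← hY]
    have wm := hlow m (hk.trans (by exact_mod_cast m1))
    have wl := hlow l (hnk.trans (by exact_mod_cast l1))
    have sm : (0 : ℝ) < (saw m).card := NTSF.saw_card_pos m
    have sl : (0 : ℝ) < (saw l).card := NTSF.saw_card_pos l
    have hc0 : 0 < ca * (ε * n) ^ (11 / 32 : ℝ) := by positivity
    have e1 : 3 / 4 * Y / (((saw m).card : ℝ) * (saw l).card) = 3 / 4 * (xc ^ (m + l) * Y) / (ww m * ww l) := by
      unfold NTSF.ww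
      rw [NTSF.fug_eq, pow_add]
      field_simp
    have hle : (ca * (ε * n) ^ (11 / 32 : ℝ)) ^ 2 ≤ ww m * ww l := by
      rw [pow_two]
      exact mul_le_mul wm wl hc0.le (ww_pos m).le
    have hnum : (0 : ℝ) ≤ 3 / 4 * (xc ^ (m + l) * Y) :=
      mul_nonneg (by norm_num) (mul_nonneg (pow_nonneg xc_pos.le _) hY0)
    have hden : (0 : ℝ) < (ca * (ε * n) ^ (11 / 32 : ℝ)) ^ 2 := pow_pos hc0 2
    rw [e1, hκ']
    refine (div_le_div_of_nonneg_left hnum hden hle).trans (le_of_eq ?_)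
    ring
  refine hsum.trans ?_
  calc κ' * (gpF (PhT Q) (PR n k d (SR R))).toReal ≤ κ' * (ε / κ * x6) := mul_le_mul_of_nonneg_left hgpF hκ'0.le
    _ = ε / κ * (κ' * x6) := by ring
    _ = ε / κ * (κ * (n : ℝ) ^ (7 / 2 : ℝ)) := by rw [hκκ]
    _ = ε * (n : ℝ) ^ (7 / 2 : ℝ) := by field_simp

end Nt

/-- Row `NTS` of the limit form of the fixed point equation. -/
theorem nts : NTS := Nt.nts

end Pool.Agent.RMP
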