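import Pool.Agent.RMP.LimRows

/-!
# RMP, limit form, row SI (helper6): double sums over the windows converge to double integrals

`step f a b N x = ∑ m ∈ [a, b], 1[m / N ≤ x < (m + 1) / N] f m` (`step_int`: its integral is the sum divided by `N`; `step_in`,
`step_out`: its values); `sum_lim`: one sum (bounded convergence); **`si : SI`**: twice.
-/

set_option autoImplicit false

open MeasureTheory Filter Topology
open scoped Classical

namespace Pool.Agent.RMP

namespace LimSi

/-- the step function of a sum -/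
noncomputable def step (f : ℕ → ℝ) (W : Finset ℕ) (N : ℕ) (x : ℝ) : ℝ :=
  ∑ m ∈ W, (Set.Ico ((m : ℝ) / N) (((m : ℝ) + 1) / N)).indicator (fun _ => f m) x

theorem step_meas (f : ℕ → ℝ) (W : Finset ℕ) (N : ℕ) : Measurable (step f W N) := by
  unfold step
  exact Finset.measurable_fun_sum _ fun m _ => measurable_const.indicator measurableSet_Ico

/-- **the integral of the step function** -/
theorem step_int (f : ℕ → ℝ) (W : Finset ℕ) {N : ℕ} (hN : 0 < N) : ∫ x, step f W N x = (∑ m ∈ W, f m) / N := by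
  have hN' : (0:ℝ) < N := by exact_mod_cast hN
  unfold step
  rw [integral_finset_sum _ fun m _ => ?_]
  · rw [Finset.sum_div]
    refine Finset.sum_congr rfl fun m _ => ?_
    rw [integral_indicator measurableSet_Ico, setIntegral_const]
    have h : volume.real (Set.Ico ((m : ℝ) / N) (((m : ℝ) + 1) / N)) = 1 / N := by
      rw [Real.volume_real_Ico_of_le (by gcongr; linarith)]
      ring
    rw [h, smul_eq_mul]
    ring
  · exact (integrableOn_const (by simp)).integrable_indicator measurableSet_Ico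

/-- the cell of a point -/
theorem mem_cell {N : ℕ} (hN : 0 < N) {x : ℝ} (hx : 0 ≤ x) {m : ℕ} :
    x ∈ Set.Ico ((m : ℝ) / N) (((m : ℝ) + 1) / N) ↔ ⌊x * N⌋₊ = m := by
  have hN' : (0:ℝ) < N := by exact_mod_cast hN
  rw [Set.mem_Ico, div_le_iff₀ hN', lt_div_iff₀ hN', Nat.floor_eq_iff (by positivity)]

theorem step_val (f : ℕ → ℝ) (W : Finset ℕ) {N : ℕ} (hN : 0 < N) {x : ℝ} (hx : 0 ≤ x) :
    step f W N x = if ⌊x * N⌋₊ ∈ W then f ⌊x * N⌋₊ else 0 := by
  unfold step
  have h : ∀ m ∈ W, (Set.Ico ((m : ℝ) / N) (((m : ℝ) + 1) / N)).indicator (fun _ => f m) x =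
      if ⌊x * N⌋₊ = m then f ⌊x * N⌋₊ else 0 := by
    intro m _
    rw [Set.indicator_apply]
    by_cases hm : ⌊x * N⌋₊ = m
    · rw [if_pos ((mem_cell hN hx).2 hm), if_pos hm, hm]
    · rw [if_neg fun h => hm ((mem_cell hN hx).1 h), if_neg hm]
  rw [Finset.sum_congr rfl h, Finset.sum_ite_eq]

theorem step_neg (f : ℕ → ℝ) (W : Finset ℕ) (N : ℕ) {x : ℝ} (hx : x < 0) : step f W N x = 0 := by
  unfold step
  refine Finset.sum_eq_zero fun m _ => ?_
  rw [Set.indicator_of_notMem]
  rintro ⟨h1, -⟩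
  have : (0:ℝ) ≤ (m : ℝ) / N := by positivity
  linarith

theorem step_abs {f : ℕ → ℝ} {M : ℝ} (hf : ∀ m, |f m| ≤ M) (W : Finset ℕ) {N : ℕ} (hN : 0 < N) (x : ℝ) :
    |step f W N x| ≤ M := by
  have hM : 0 ≤ M := (abs_nonneg _).trans (hf 0)
  rcases lt_or_ge x 0 with hx | hx
  · rw [step_neg f W N hx, abs_zero]
    exact hM
  · rw [step_val f W hN hx]
    split_ifs
    · exact hf _
    · rw [abs_zero]
      exact hM

theorem mem_win' {d : ℝ} {k m : ℕ} : m ∈ win d k ↔ k ≤ m ∧ m ≤ ⌊(1 + d) * k⌋₊ := by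
  unfold win
  rw [Finset.mem_filter, Finset.mem_range]
  omega

/-- **one sum over a window** -/
theorem sum_lim {s d M : ℝ} {φ k : ℕ → ℕ} {f : ℕ → ℕ → ℝ} {g : ℝ → ℝ} (hs : 0 < s) (hd : 0 < d)
    (hφ : Tendsto φ atTop atTop) (hk : Tendsto (fun i => (k i : ℝ) / φ i) atTop (𝓝 s)) (hf : ∀ i m, |f i m| ≤ M)
    (hg : ∀ x : ℝ, s < x → x < (1 + d) * s → Tendsto (fun i => f i ⌊x * φ i⌋₊) atTop (𝓝 (g x))) :
    Tendsto (fun i => (∑ m ∈ win d (k i), f i m) / (φ i : ℝ)) atTop (𝓝 (∫ x in s..(1 + d) * s, g x)) := by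
  have hM : 0 ≤ M := (abs_nonneg _).trans (hf 0 0)
  have hds : s < (1 + d) * s := by nlinarith
  have hφr : Tendsto (fun i => (φ i : ℝ)) atTop atTop := tendsto_natCast_atTop_atTop.comp hφ
  have hinv : Tendsto (fun i => (1 : ℝ) / φ i) atTop (𝓝 0) := hφr.const_div_atTop 1
  have e1 : (fun i => (∑ m ∈ win d (k i), f i m) / (φ i : ℝ)) =ᶠ[atTop]
      fun i => ∫ x, step (f i) (win d (k i)) (φ i) x := by
    filter_upwards [hφ.eventually_gt_atTop 0] with i hi
    rw [step_int _ _ hi]
  have e2 : ∫ x in s..(1 + d) * s, g x = ∫ x, (Set.Ioo s ((1 + d) * s)).indicator g x := by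
    rw [intervalIntegral.integral_of_le hds.le, integral_Ioc_eq_integral_Ioo, integral_indicator measurableSet_Ioo]
  rw [e2]
  refine (tendsto_congr' e1).2 ?_
  -- the supports
  have hu : Tendsto (fun i => ((⌊(1 + d) * k i⌋₊ : ℝ) + 1) / φ i) atTop (𝓝 ((1 + d) * s)) := by
    have h1 : Tendsto (fun i => (1 + d) * ((k i : ℝ) / φ i)) atTop (𝓝 ((1 + d) * s)) := hk.const_mul _
    have h2 : Tendsto (fun i => (1 + d) * ((k i : ℝ) / φ i) + 1 / φ i) atTop (𝓝 ((1 + d) * s)) := by
      simpa using h1.add hinv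
    refine tendsto_of_tendsto_of_tendsto_of_le_of_le' h1 h2 ?_ ?_
    · filter_upwards [hφ.eventually_gt_atTop 0] with i hi
      have hi' : (0:ℝ) < φ i := by exact_mod_cast hi
      rw [← mul_div_assoc]
      gcongr
      exact (Nat.lt_floor_add_one _).le
    · filter_upwards [hφ.eventually_gt_atTop 0] with i hi
      have hi' : (0:ℝ) < φ i := by exact_mod_cast hi
      rw [← mul_div_assoc, ← add_div]
      gcongr
      exact Nat.floor_le (by positivity)
  refine tendsto_integral_filter_of_dominated_convergence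
    (fun x => (Set.Icc 0 ((1 + d) * s + 1)).indicator (fun _ => M) x) ?_ ?_ ?_ ?_
  · exact Eventually.of_forall fun i => (step_meas _ _ _).aestronglyMeasurable
  · filter_upwards [hφ.eventually_gt_atTop 0, hu.eventually_lt_const (lt_add_one _)] with i hi hi2
    refine Eventually.of_forall fun x => ?_
    have hi' : (0:ℝ) < φ i := by exact_mod_cast hi
    rw [Real.norm_eq_abs, Set.indicator_apply]
    split_ifs with hx
    · exact step_abs (hf i) _ hi x
    · rw [Set.mem_Icc, not_and_or, not_le, not_le] at hx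
      rcases hx with hx | hx
      · rw [step_neg _ _ _ hx, abs_zero]
      · have hx0 : 0 ≤ x := by
          have : 0 < (1 + d) * s := by positivity
          linarith
        rw [step_val _ _ hi hx0, if_neg, abs_zero]
        rw [mem_win']
        rintro ⟨-, h2⟩
        have h3 : x * φ i < (⌊(1 + d) * k i⌋₊ : ℝ) + 1 := by
          have h4 := Nat.lt_floor_add_one (x * φ i)
          have h5 : ((⌊x * φ i⌋₊ : ℕ) : ℝ) ≤ ⌊(1 + d) * k i⌋₊ := by exact_mod_cast h2
          linarith
        rw [← lt_div_iff₀ hi'] at h3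
        linarith
  · exact (integrableOn_const (by simp)).integrable_indicator measurableSet_Icc
  · have hne : ∀ᵐ x : ℝ, x ≠ s ∧ x ≠ (1 + d) * s := by
      have h1 : ∀ᵐ x : ℝ, x ≠ s := by
        simp [ae_iff, measure_singleton]
      have h2 : ∀ᵐ x : ℝ, x ≠ (1 + d) * s := by
        simp [ae_iff, measure_singleton]
      exact h1.and h2
    filter_upwards [hne] with x hx
    rw [Set.indicator_apply]
    by_cases h1 : x ∈ Set.Ioo s ((1 + d) * s)
    · rw [if_pos h1]
      have hx0 : 0 ≤ x := by linarith [h1.1]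
      refine (tendsto_congr' ?_).2 (hg x h1.1 h1.2)
      filter_upwards [hφ.eventually_gt_atTop 0, hk.eventually_lt_const h1.1, (hk.const_mul (1 + d)).eventually_const_lt h1.2]
        with i hi h2 h3
      have hi' : (0:ℝ) < φ i := by exact_mod_cast hi
      rw [step_val _ _ hi hx0, if_pos]
      rw [mem_win']
      constructor
      · refine Nat.le_floor ?_
        rw [div_lt_iff₀ hi'] at h2
        exact h2.le
      · refine Nat.floor_le_floor ?_
        rw [← mul_div_assoc, lt_div_iff₀ hi'] at h3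
        exact h3.le
    · rw [if_neg h1]
      rw [Set.mem_Ioo, not_and_or, not_lt, not_lt] at h1
      refine (tendsto_congr' ?_).2 tendsto_const_nhds
      rcases h1 with h1 | h1
      · have h1' : x < s := lt_of_le_of_ne h1 hx.1
        filter_upwards [hφ.eventually_gt_atTop 0, hk.eventually_const_lt h1'] with i hi h2
        have hi' : (0:ℝ) < φ i := by exact_mod_cast hi
        rcases lt_or_ge x 0 with hx0 | hx0
        · exact step_neg _ _ _ hx0
        · rw [step_val _ _ hi hx0, if_neg]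
          rw [mem_win']
          rintro ⟨h3, -⟩
          rw [lt_div_iff₀ hi'] at h2
          have h4 := Nat.floor_le (by positivity : 0 ≤ x * φ i)
          have h5 : (k i : ℝ) ≤ ⌊x * φ i⌋₊ := by exact_mod_cast h3
          linarith
      · have h1' : (1 + d) * s < x := lt_of_le_of_ne h1 (Ne.symm hx.2)
        have hx0 : 0 ≤ x := by
          have : 0 < (1 + d) * s := by positivity
          linarith
        filter_upwards [hφ.eventually_gt_atTop 0, hu.eventually_lt_const h1'] with i hi h2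
        have hi' : (0:ℝ) < φ i := by exact_mod_cast hi
        rw [step_val _ _ hi hx0, if_neg]
        rw [mem_win']
        rintro ⟨-, h3⟩
        rw [div_lt_iff₀ hi'] at h2
        have h4 := Nat.lt_floor_add_one (x * φ i)
        have h5 : ((⌊x * φ i⌋₊ : ℕ) : ℝ) ≤ ⌊(1 + d) * k i⌋₊ := by exact_mod_cast h3
        linarith

/-- the number of the elements of a window -/
theorem card_win {d : ℝ} (hd : 0 ≤ d) (k : ℕ) : ((win d k).card : ℝ) ≤ (1 + d) * k + 1 := by
  have h1 : (win d k).card ≤ ⌊(1 + d) * k⌋₊ + 1 := by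
    unfold win
    exact (Finset.card_filter_le _ _).trans (by rw [Finset.card_range])
  have h2 := Nat.floor_le (by positivity : 0 ≤ (1 + d) * (k : ℝ))
  have h3 : ((win d k).card : ℝ) ≤ (⌊(1 + d) * k⌋₊ : ℝ) + 1 := by exact_mod_cast h1
  linarith

end LimSi

open LimSi

/-- **row SI** -/
theorem si : SI := by
  intro s d M φ k A B hs hs1 hd hφ hk hkφ hA hB
  have hM : 0 ≤ M := (abs_nonneg _).trans (hA 0 0 0)
  have hφr : Tendsto (fun i => (φ i : ℝ)) atTop atTop := tendsto_natCast_atTop_atTop.comp hφ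
  have hk2 : Tendsto (fun i => ((φ i - k i : ℕ) : ℝ) / φ i) atTop (𝓝 (1 - s)) := by
    refine (tendsto_congr' ?_).2 (hk.const_sub 1)
    filter_upwards [hφ.eventually_gt_atTop 0] with i hi
    have hi' : (0:ℝ) < φ i := by exact_mod_cast hi
    rw [Nat.cast_sub (hkφ i), sub_div, div_self hi'.ne']
  have key := sum_lim (s := s) (d := d) (M := M * (2 + d)) (φ := φ) (k := k)
    (f := fun i m => (∑ l ∈ win d (φ i - k i), A i m l) / (φ i : ℝ))
    (g := fun x => ∫ y in (1 - s)..(1 + d) * (1 - s), B x y) hs hd hφ hk ?_ ?_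
  · refine key.congr fun i => ?_
    rw [← Finset.sum_div, div_div, sq]
  · intro i m
    rw [abs_div, abs_of_nonneg (by positivity : (0:ℝ) ≤ φ i)]
    rcases Nat.eq_zero_or_pos (φ i) with h0 | h0
    · rw [h0, Nat.cast_zero, div_zero]
      positivity
    · have h0' : (1:ℝ) ≤ φ i := by exact_mod_cast h0
      rw [div_le_iff₀ (by linarith)]
      refine (Finset.abs_sum_le_sum_abs _ _).trans ?_
      refine (Finset.sum_le_card_nsmul _ _ M fun l _ => hA i m l).trans ?_
      rw [nsmul_eq_mul]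
      have h1 := card_win hd.le (φ i - k i)
      have h2 : ((φ i - k i : ℕ) : ℝ) ≤ φ i := by exact_mod_cast Nat.sub_le _ _
      have h3 : ((win d (φ i - k i)).card : ℝ) ≤ (2 + d) * φ i := by nlinarith
      nlinarith
  · intro x hx1 hx2
    exact sum_lim (s := 1 - s) (d := d) (M := M) (φ := φ) (k := fun i => φ i - k i) (f := fun i l => A i ⌊x * φ i⌋₊ l)
      (g := fun y => B x y) (by linarith) hd hφ hk2 (fun i l => hA i _ l) fun y hy1 hy2 => hB x y hx1 hx2 hy1 hy2

end Pool.Agent.RMP
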