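import Pool.Agent.RMP.LimRows

/-!
# The renormalisation map in the scaling limit, row WK (helper51): weak convergence of products with varying parameters
-/

set_option autoImplicit false

open MeasureTheory Filter Topology
open scoped Classical

namespace Pool.Agent.RMP

open Pool.Agent.NTS.Res

namespace LW

/-- weak convergence of the product with a moving parameter -/
theorem wk_gen {T E : Type*} [TopologicalSpace T] [TopologicalSpace.PseudoMetrizableSpace T] [SecondCountableTopology T]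
    [MeasurableSpace T] [BorelSpace T] [TopologicalSpace E] [TopologicalSpace.PseudoMetrizableSpace E]
    [SecondCountableTopology E] [MeasurableSpace E] [BorelSpace E] {τ : ℕ → T} {τ0 : T} (hτ : Tendsto τ atTop (𝓝 τ0))
    {P Q : ℕ → ProbabilityMeasure E} {μ μ' : ProbabilityMeasure E} (hP : Tendsto P atTop (𝓝 μ)) (hQ : Tendsto Q atTop (𝓝 μ'))
    (Ψ : BoundedContinuousFunction (T × (E × E)) ℝ) :
    Tendsto (fun i => ∫ a, ∫ b, Ψ (τ i, (a, b)) ∂(Q i : Measure E) ∂(P i : Measure E)) atTop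
      (𝓝 (∫ a, ∫ b, Ψ (τ0, (a, b)) ∂(μ' : Measure E) ∂(μ : Measure E))) := by
  have h1 : Tendsto (fun i => (P i).prod (Q i)) atTop (𝓝 (μ.prod μ')) :=
    (ProbabilityMeasure.continuous_prod.tendsto (μ, μ')).comp (hP.prodMk_nhds hQ)
  have h2 : Tendsto (fun i => diracProba (τ i)) atTop (𝓝 (diracProba τ0)) := (continuous_diracProba.tendsto τ0).comp hτ
  have h3 : Tendsto (fun i => (diracProba (τ i)).prod ((P i).prod (Q i))) atTop (𝓝 ((diracProba τ0).prod (μ.prod μ'))) :=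
    (ProbabilityMeasure.continuous_prod.tendsto (diracProba τ0, μ.prod μ')).comp (h2.prodMk_nhds h1)
  have h4 := (ProbabilityMeasure.tendsto_iff_forall_integral_tendsto.1 h3) Ψ
  have key : ∀ (t : T) (p q : ProbabilityMeasure E),
      ∫ x, Ψ x ∂(((diracProba t).prod (p.prod q) : ProbabilityMeasure (T × (E × E))) : Measure (T × (E × E))) =
        ∫ a, ∫ b, Ψ (t, (a, b)) ∂(q : Measure E) ∂(p : Measure E) := by
    intro t p q
    have i1 : Integrable (fun x => Ψ x) (((diracProba t : ProbabilityMeasure T) : Measure T).prod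
        (((p.prod q : ProbabilityMeasure (E × E))) : Measure (E × E))) := Ψ.integrable _
    rw [ProbabilityMeasure.toMeasure_prod, integral_prod _ i1]
    have i2 : Integrable (fun x : E × E => Ψ (t, x)) ((p : Measure E).prod (q : Measure E)) :=
      (Ψ.compContinuous ⟨fun x : E × E => (t, x), by fun_prop⟩).integrable _
    rw [show ((diracProba t : ProbabilityMeasure T) : Measure T) = Measure.dirac t from rfl, integral_dirac' _ _ ?_]
    · rw [ProbabilityMeasure.toMeasure_prod, integral_prod _ i2]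
    · exact StronglyMeasurable.integral_prod_right' (f := fun x : T × (E × E) => Ψ x) Ψ.continuous.stronglyMeasurable
  simp only [key] at h4
  exact h4

/-- the curve is a continuous function of everything -/
theorem conc_cont {lo hi : ℝ} (h0 : 0 < lo) (h1 : hi < 1) (h2 : lo ≤ hi) :
    Continuous fun x : (ℝ × ℝ × ℝ × ℝ) × (C(unitInterval, ℂ) × C(unitInterval, ℂ)) =>
      conc (max lo (min hi x.1.1)) x.1.2.1 x.1.2.2.1 x.2.1 x.2.2 := by
  refine ContinuousMap.continuous_of_continuous_uncurry _ ?_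
  have k1 : ∀ t : ℝ, max lo (min hi t) ≠ 0 := fun t => (lt_of_lt_of_le h0 (le_max_left _ _)).ne'
  have k2 : ∀ t : ℝ, 1 - max lo (min hi t) ≠ 0 := fun t =>
    (sub_pos.2 (lt_of_le_of_lt (max_le h2 (min_le_left _ _)) h1)).ne'
  show Continuous fun x : ((ℝ × ℝ × ℝ × ℝ) × (C(unitInterval, ℂ) × C(unitInterval, ℂ))) × unitInterval =>
    ((x.1.1.2.1 : ℝ) : ℂ) * x.1.2.1 (Set.projIcc 0 1 zero_le_one ((x.2 : ℝ) / max lo (min hi x.1.1.1))) +
    ((x.1.1.2.2.1 : ℝ) : ℂ) * (x.1.2.2 (Set.projIcc 0 1 zero_le_one ((1 - (x.2 : ℝ)) / (1 - max lo (min hi x.1.1.1)))) - x.1.2.2 1)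
  have c1 : Continuous fun x : ((ℝ × ℝ × ℝ × ℝ) × (C(unitInterval, ℂ) × C(unitInterval, ℂ))) × unitInterval =>
      (x.2 : ℝ) / max lo (min hi x.1.1.1) := by
    refine Continuous.div ?_ ?_ fun x => k1 _
    · fun_prop
    · fun_prop
  have c2 : Continuous fun x : ((ℝ × ℝ × ℝ × ℝ) × (C(unitInterval, ℂ) × C(unitInterval, ℂ))) × unitInterval =>
      (1 - (x.2 : ℝ)) / (1 - max lo (min hi x.1.1.1)) := by
    refine Continuous.div ?_ ?_ fun x => k2 _
    · fun_prop
    · fun_prop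
  have c3 := continuous_projIcc (h := (zero_le_one : (0 : ℝ) ≤ 1)).comp c1
  have c4 := continuous_projIcc (h := (zero_le_one : (0 : ℝ) ≤ 1)).comp c2
  refine Continuous.add (Continuous.mul ?_ ?_) (Continuous.mul ?_ (Continuous.sub ?_ ?_))
  · fun_prop
  · exact Continuous.eval (by fun_prop) c3
  · fun_prop
  · exact Continuous.eval (by fun_prop) c4
  · exact Continuous.eval (by fun_prop) continuous_const

lemma sm_cont (δ : ℝ) : Continuous (sm δ) := by
  unfold sm
  fun_prop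

lemma sm_nonneg (δ x : ℝ) : 0 ≤ sm δ x := le_max_left _ _

lemma sm_le (δ x : ℝ) : sm δ x ≤ 1 := max_le zero_le_one (min_le_left _ _)

/-- the distance is a continuous function of everything -/
theorem mind_cont : Continuous fun x : (ℝ × ℝ × C(unitInterval, ℂ) × C(unitInterval, ℂ)) × ℂ =>
    mind x.1.1 x.1.2.1 x.1.2.2.1 x.1.2.2.2 x.2 := by
  have h1 : Continuous (Function.uncurry fun (x : (ℝ × ℝ × C(unitInterval, ℂ) × C(unitInterval, ℂ)) × ℂ)
      (p : unitInterval × unitInterval) => ‖((x.1.1 : ℝ) : ℂ) * (x.1.2.2.1 p.1 - x.1.2.2.1 1) -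
        (x.2 + ((x.1.2.1 : ℝ) : ℂ) * (x.1.2.2.2 p.2 - x.1.2.2.2 1))‖) := by
    unfold Function.uncurry
    have a1 : Continuous fun y : ((ℝ × ℝ × C(unitInterval, ℂ) × C(unitInterval, ℂ)) × ℂ) × (unitInterval × unitInterval) =>
        y.1.1.2.2.1 y.2.1 := Continuous.eval (by fun_prop) (by fun_prop)
    have a2 : Continuous fun y : ((ℝ × ℝ × C(unitInterval, ℂ) × C(unitInterval, ℂ)) × ℂ) × (unitInterval × unitInterval) =>
        y.1.1.2.2.1 1 := Continuous.eval (by fun_prop) continuous_const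
    have a3 : Continuous fun y : ((ℝ × ℝ × C(unitInterval, ℂ) × C(unitInterval, ℂ)) × ℂ) × (unitInterval × unitInterval) =>
        y.1.1.2.2.2 y.2.2 := Continuous.eval (by fun_prop) (by fun_prop)
    have a4 : Continuous fun y : ((ℝ × ℝ × C(unitInterval, ℂ) × C(unitInterval, ℂ)) × ℂ) × (unitInterval × unitInterval) =>
        y.1.1.2.2.2 1 := Continuous.eval (by fun_prop) continuous_const
    have a5 : Continuous fun y : ((ℝ × ℝ × C(unitInterval, ℂ) × C(unitInterval, ℂ)) × ℂ) × (unitInterval × unitInterval) =>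
        ((y.1.1.1 : ℝ) : ℂ) := by fun_prop
    have a6 : Continuous fun y : ((ℝ × ℝ × C(unitInterval, ℂ) × C(unitInterval, ℂ)) × ℂ) × (unitInterval × unitInterval) =>
        ((y.1.1.2.1 : ℝ) : ℂ) := by fun_prop
    have a7 : Continuous fun y : ((ℝ × ℝ × C(unitInterval, ℂ) × C(unitInterval, ℂ)) × ℂ) × (unitInterval × unitInterval) =>
        y.1.2 := by fun_prop
    exact ((a5.mul (a1.sub a2)).sub (a7.add (a6.mul (a3.sub a4)))).norm
  have h2 := IsCompact.continuous_sInf (f := fun (x : (ℝ × ℝ × C(unitInterval, ℂ) × C(unitInterval, ℂ)) × ℂ)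
      (p : unitInterval × unitInterval) => ‖((x.1.1 : ℝ) : ℂ) * (x.1.2.2.1 p.1 - x.1.2.2.1 1) -
        (x.2 + ((x.1.2.1 : ℝ) : ℂ) * (x.1.2.2.2 p.2 - x.1.2.2.2 1))‖)
    (isCompact_univ (X := unitInterval × unitInterval)) h1
  refine h2.congr fun x => ?_
  rw [Set.image_univ]
  rfl

/-- the smooth area is a continuous function of everything -/
theorem gint_cont (δ : ℝ) : Continuous fun x : ℝ × (ℝ × ℝ × C(unitInterval, ℂ) × C(unitInterval, ℂ)) =>
    gint δ x.1 x.2.1 x.2.2.1 x.2.2.2.1 x.2.2.2.2 := by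
  have e1 : (fun x : ℝ × (ℝ × ℝ × C(unitInterval, ℂ) × C(unitInterval, ℂ)) =>
      gint δ x.1 x.2.1 x.2.2.1 x.2.2.2.1 x.2.2.2.2) = fun x => ∫ z : ℂ,
        (Metric.closedBall (0 : ℂ) x.1).indicator (fun z => sm δ (mind x.2.1 x.2.2.1 x.2.2.2.1 x.2.2.2.2 z)) z := by
    funext x
    unfold gint
    rw [integral_indicator Metric.isClosed_closedBall.measurableSet]
  rw [e1, continuous_iff_continuousAt]
  intro x0
  have hc : ∀ x : ℝ × (ℝ × ℝ × C(unitInterval, ℂ) × C(unitInterval, ℂ)),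
      Continuous fun z : ℂ => sm δ (mind x.2.1 x.2.2.1 x.2.2.2.1 x.2.2.2.2 z) := fun x =>
    (sm_cont δ).comp (mind_cont.comp (f := fun z : ℂ => (x.2, z)) (by fun_prop))
  refine continuousAt_of_dominated (bound := (Metric.closedBall (0 : ℂ) (x0.1 + 1)).indicator fun _ => (1 : ℝ)) ?_ ?_ ?_ ?_
  · exact Eventually.of_forall fun x => ((hc x).stronglyMeasurable.indicator
      Metric.isClosed_closedBall.measurableSet).aestronglyMeasurable
  · have h1 : ∀ᶠ x : ℝ × (ℝ × ℝ × C(unitInterval, ℂ) × C(unitInterval, ℂ)) in 𝓝 x0, x.1 < x0.1 + 1 :=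
      continuous_fst.continuousAt.eventually (Iio_mem_nhds (by linarith))
    filter_upwards [h1] with x hx
    refine Eventually.of_forall fun z => ?_
    by_cases hz : z ∈ Metric.closedBall (0 : ℂ) x.1
    · rw [Set.indicator_of_mem hz, Set.indicator_of_mem (Metric.closedBall_subset_closedBall hx.le hz), Real.norm_eq_abs,
        abs_of_nonneg (sm_nonneg _ _)]
      exact sm_le _ _
    · rw [Set.indicator_of_notMem hz, norm_zero]
      exact Set.indicator_nonneg (fun _ _ => zero_le_one) _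
  · rw [integrable_indicator_iff Metric.isClosed_closedBall.measurableSet]
    exact integrableOn_const measure_closedBall_lt_top.ne
  · have h2 : ∀ᵐ z : ℂ, z ∉ Metric.sphere (0 : ℂ) x0.1 := by
      exact compl_mem_ae_iff.2 (Measure.addHaar_sphere (volume : Measure ℂ) (0 : ℂ) x0.1)
    filter_upwards [h2] with z hz
    have hz1 : ‖z‖ ≠ x0.1 := fun h => hz (mem_sphere_zero_iff_norm.2 h)
    rcases lt_or_gt_of_ne hz1 with h3 | h3
    · have h4 : ∀ᶠ x : ℝ × (ℝ × ℝ × C(unitInterval, ℂ) × C(unitInterval, ℂ)) in 𝓝 x0, ‖z‖ < x.1 :=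
        continuous_fst.continuousAt.eventually (Ioi_mem_nhds h3)
      have h5 : ContinuousAt (fun x : ℝ × (ℝ × ℝ × C(unitInterval, ℂ) × C(unitInterval, ℂ)) =>
          sm δ (mind x.2.1 x.2.2.1 x.2.2.2.1 x.2.2.2.2 z)) x0 :=
        ((sm_cont δ).comp (mind_cont.comp (f := fun x : ℝ × (ℝ × ℝ × C(unitInterval, ℂ) × C(unitInterval, ℂ)) =>
          (x.2, z)) (by fun_prop))).continuousAt
      refine h5.congr ?_
      filter_upwards [h4] with x hx
      rw [Set.indicator_of_mem (mem_closedBall_zero_iff.2 hx.le)]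
    · have h4 : ∀ᶠ x : ℝ × (ℝ × ℝ × C(unitInterval, ℂ) × C(unitInterval, ℂ)) in 𝓝 x0, x.1 < ‖z‖ :=
        continuous_fst.continuousAt.eventually (Iio_mem_nhds h3)
      refine (continuousAt_const (y := (0 : ℝ))).congr ?_
      filter_upwards [h4] with x hx
      rw [Set.indicator_of_notMem fun h => absurd (mem_closedBall_zero_iff.1 h) (not_le.2 hx)]

lemma gint_nonneg (δ r α β : ℝ) (a b : C(unitInterval, ℂ)) : 0 ≤ gint δ r α β a b :=
  integral_nonneg fun _ => sm_nonneg _ _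

lemma gint_le {δ r R α β : ℝ} (h : r ≤ R) (a b : C(unitInterval, ℂ)) :
    gint δ r α β a b ≤ (volume (Metric.closedBall (0 : ℂ) R)).toReal := by
  have hc : Continuous fun z : ℂ => sm δ (mind α β a b z) :=
    (sm_cont δ).comp (mind_cont.comp (f := fun z : ℂ => ((α, β, a, b), z)) (by fun_prop))
  have h1 : ‖gint δ r α β a b‖ ≤ 1 * (volume : Measure ℂ).real (Metric.closedBall (0 : ℂ) r) := by
    unfold gint
    refine norm_setIntegral_le_of_norm_le_const measure_closedBall_lt_top fun z _ => ?_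
    rw [Real.norm_eq_abs, abs_of_nonneg (sm_nonneg _ _)]
    exact sm_le _ _
  rw [Real.norm_eq_abs, abs_of_nonneg (gint_nonneg _ _ _ _ _ _), one_mul] at h1
  refine h1.trans ?_
  exact ENNReal.toReal_mono measure_closedBall_lt_top.ne (measure_mono (Metric.closedBall_subset_closedBall h))

end LW

/-- **row WK** -/
theorem wk : WK := by
  intro P Q μ μ' hP hQ hμ hμ' h1 h2 t α β r t0 α0 β0 r0 δ ht0 ht1 hr0 hδ ht hα hβ hr F hF hL
  obtain ⟨lo, hlo⟩ : ∃ lo : ℝ, lo = t0 / 2 := ⟨_, rfl⟩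
  obtain ⟨hi, hhi⟩ : ∃ hi : ℝ, hi = (1 + t0) / 2 := ⟨_, rfl⟩
  have k1 : 0 < lo := by rw [hlo]; linarith
  have k2 : hi < 1 := by rw [hhi]; linarith
  have k3 : lo ≤ hi := by rw [hlo, hhi]; linarith
  have k4 : lo < t0 := by rw [hlo]; linarith
  have k5 : t0 < hi := by rw [hhi]; linarith
  -- the function
  have hc : Continuous fun x : (ℝ × ℝ × ℝ × ℝ) × (C(unitInterval, ℂ) × C(unitInterval, ℂ)) =>
      F (conc (max lo (min hi x.1.1)) x.1.2.1 x.1.2.2.1 x.2.1 x.2.2) *
        gint δ (min (r0 + 1) x.1.2.2.2) x.1.2.1 x.1.2.2.1 x.2.1 x.2.2 :=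
    (hL.continuous.comp (LW.conc_cont k1 k2 k3)).mul ((LW.gint_cont δ).comp
      (f := fun x : (ℝ × ℝ × ℝ × ℝ) × (C(unitInterval, ℂ) × C(unitInterval, ℂ)) =>
        (min (r0 + 1) x.1.2.2.2, (x.1.2.1, x.1.2.2.1, x.2.1, x.2.2))) (by fun_prop))
  obtain ⟨B, hB⟩ : ∃ B : ℝ, B = (volume (Metric.closedBall (0 : ℂ) (r0 + 1))).toReal := ⟨_, rfl⟩
  have hb : ∀ x : (ℝ × ℝ × ℝ × ℝ) × (C(unitInterval, ℂ) × C(unitInterval, ℂ)),
      ‖F (conc (max lo (min hi x.1.1)) x.1.2.1 x.1.2.2.1 x.2.1 x.2.2) *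
        gint δ (min (r0 + 1) x.1.2.2.2) x.1.2.1 x.1.2.2.1 x.2.1 x.2.2‖ ≤ B := by
    intro x
    have f1 := hF (conc (max lo (min hi x.1.1)) x.1.2.1 x.1.2.2.1 x.2.1 x.2.2)
    have f2 := LW.gint_nonneg δ (min (r0 + 1) x.1.2.2.2) x.1.2.1 x.1.2.2.1 x.2.1 x.2.2
    have f3 := LW.gint_le (δ := δ) (α := x.1.2.1) (β := x.1.2.2.1) (min_le_left (r0 + 1) x.1.2.2.2) x.2.1 x.2.2
    rw [Real.norm_eq_abs, abs_of_nonneg (mul_nonneg f1.1 f2), hB]
    calc _ ≤ 1 * gint δ (min (r0 + 1) x.1.2.2.2) x.1.2.1 x.1.2.2.1 x.2.1 x.2.2 := mul_le_mul_of_nonneg_right f1.2 f2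
      _ ≤ _ := by
        rw [one_mul]
        exact f3
  have hτ : Tendsto (fun i => (t i, α i, β i, r i)) atTop (𝓝 (t0, α0, β0, r0)) :=
    ht.prodMk_nhds (hα.prodMk_nhds (hβ.prodMk_nhds hr))
  let P' : ℕ → ProbabilityMeasure C(unitInterval, ℂ) := fun i => ⟨P i, hP i⟩
  let Q' : ℕ → ProbabilityMeasure C(unitInterval, ℂ) := fun i => ⟨Q i, hQ i⟩
  let m : ProbabilityMeasure C(unitInterval, ℂ) := ⟨μ, hμ⟩
  let m' : ProbabilityMeasure C(unitInterval, ℂ) := ⟨μ', hμ'⟩
  have g1 : Tendsto P' atTop (𝓝 m) := ProbabilityMeasure.tendsto_iff_forall_integral_tendsto.2 h1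
  have g2 : Tendsto Q' atTop (𝓝 m') := ProbabilityMeasure.tendsto_iff_forall_integral_tendsto.2 h2
  have g3 := LW.wk_gen hτ g1 g2 (BoundedContinuousFunction.ofNormedAddCommGroup _ hc B hb)
  have e0 : ∀ (x : ℝ × ℝ × ℝ × ℝ) (a b : C(unitInterval, ℂ)),
      BoundedContinuousFunction.ofNormedAddCommGroup _ hc B hb (x, (a, b)) =
        F (conc (max lo (min hi x.1)) x.2.1 x.2.2.1 a b) * gint δ (min (r0 + 1) x.2.2.2) x.2.1 x.2.2.1 a b :=
    fun x a b => rfl
  simp only [e0] at g3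
  have e1 : max lo (min hi t0) = t0 := by rw [min_eq_right k5.le, max_eq_right k4.le]
  have e2 : min (r0 + 1) r0 = r0 := min_eq_right (by linarith)
  simp only [e1, e2] at g3
  refine g3.congr' ?_
  filter_upwards [ht.eventually (Ioi_mem_nhds k4), ht.eventually (Iio_mem_nhds k5),
    hr.eventually (Iio_mem_nhds (show r0 < r0 + 1 by linarith))] with i j1 j2 j3
  have e3 : max lo (min hi (t i)) = t i := by rw [min_eq_right (le_of_lt j2), max_eq_right (le_of_lt j1)]
  have e4 : min (r0 + 1) (r i) = r i := min_eq_right (le_of_lt j3)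
  rw [e3, e4]
  rfl

end Pool.Agent.RMP
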