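import Pool.Agent.RMP.All
import Pool.Agent.RMP.LimG
import Pool.Agent.RMP.LimCnt
import Pool.Agent.RMP.LimNt
import Pool.Agent.RMP.LimGi
import Pool.Agent.RMP.LimWk
import Pool.Agent.RMP.LimSi
import Pool.Agent.RMP.LimNeg
import Pool.Agent.RMP.LimLow

/-!
# The limit form of (RM'), closed (helper83)

`rmLim : RMLim`: **the renormalisation map of the scaling limits**, uniform over all families of
subsequential scaling limits of the self-avoiding walk.  No hypothesis.
-/

set_option autoImplicit false

namespace Pool.Agent.RMP

/-- **The limit form of the renormalisation theorem** (uniform over all families of subsequential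
scaling limits). -/
theorem rmLim : RMLim := rmLim_of HexObs.RMP.All.rmPub cntR nts gi wk si neg low upp

end Pool.Agent.RMP
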