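import Pool.Agent.RMP.LimFscA
import Pool.Agent.RMP.LimSub

/-!
# The renormalisation map in the scaling limit: row FSC (helper6)

**`fsc`** : along `⌊τ φ k⌋` the family of the limits is `μ (τ x)`, `ρ (τ x) / ρ τ`, and `ρ τ > 0`. No hypothesis.
-/

set_option autoImplicit false

open MeasureTheory Filter Topology
open scoped Classical

namespace Pool.Agent.RMP

open Pool.Agent.NTS.Res

open Pool.Agent.IW.Res (mean)

/-- **row FSC** -/
theorem fsc : FSC := by
  obtain ⟨⟨c, C, hc, h1⟩, h2, -, -, -⟩ := NTSF.conclE_false NTSF.finE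
  exact LimFsc.fsc_of hc h1 h2 LimSub.law_near LimSub.size_small

end Pool.Agent.RMP
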