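import Pool.Agent.RMP.LimFslA
import Pool.Agent.RMP.LimFsc

/-!
# The renormalisation map in the scaling limit: rows FSL and FBD (helper58)

* **`fsl`** : the limits at close proportions are close, the same for all families;
* **`fbd`** : the limit curves are bounded and the sizes are of the order `τ ^ (3 / 4)`, the same for all families.
No hypothesis.
-/

set_option autoImplicit false

open MeasureTheory Filter Topology
open scoped Classical

namespace Pool.Agent.RMP

open Pool.Agent.NTS.Res

open Pool.Agent.IW.Res (mean)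

/-- **row FSL** -/
theorem fsl : FSL := by
  obtain ⟨⟨c, C, hc, h1⟩, -, -, -, -⟩ := NTSF.conclE_false NTSF.finE
  refine LimFsl.fsl_of fsc (fun n hn => ?_) LimSub.law_near LimSub.size_small
  have hn' : (0 : ℝ) < n := by exact_mod_cast hn
  exact lt_of_lt_of_le (mul_pos hc (Real.rpow_pos_of_pos hn' _)) (h1 n hn).1

/-- **row FBD** -/
theorem fbd : FBD := by
  obtain ⟨⟨c, C, hc, h1⟩, -, -, -, -⟩ := NTSF.conclE_false NTSF.finE
  refine LimFsl.fbd_of hc h1 fun ε hε => ?_
  obtain ⟨K, hK, h2⟩ := curve_bdd (ε := ε / 2) (by positivity)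
  refine ⟨ε / (2 * K), by positivity, fun n hn => ?_⟩
  have e : ∫ γ, min 1 (ε / (2 * K) * ‖γ‖) ∂(law n) = mean n (fun s => min 1 (ε / (2 * K) * ‖curve s‖)) :=
    NTSF.integral_law fun γ => min 1 (ε / (2 * K) * ‖γ‖)
  have h3 := h2 n hn
  rw [e]
  rw [Pool.Agent.TSW.mean_eq] at h3 ⊢
  have hS : (0 : ℝ) < (saw n).card := by exact_mod_cast (NTSF.saw_nonempty n).card_pos
  rw [div_le_iff₀ hS] at h3 ⊢
  calc ∑ s ∈ saw n, min 1 (ε / (2 * K) * ‖curve s‖) ≤ ∑ s ∈ saw n, ((if K < ‖curve s‖ then (1 : ℝ) else 0) + ε / 2) := by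
        refine Finset.sum_le_sum fun s _ => ?_
        split_ifs with h
        · exact (min_le_left _ _).trans (by linarith)
        · rw [zero_add]
          refine (min_le_right _ _).trans ?_
          calc ε / (2 * K) * ‖curve s‖ ≤ ε / (2 * K) * K := mul_le_mul_of_nonneg_left (not_lt.1 h) (by positivity)
            _ = ε / 2 := by field_simp
    _ = (∑ s ∈ saw n, if K < ‖curve s‖ then (1 : ℝ) else 0) + ((saw n).card : ℝ) * (ε / 2) := by
        rw [Finset.sum_add_distrib, Finset.sum_const, nsmul_eq_mul]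
    _ ≤ ε / 2 * ((saw n).card : ℝ) + ((saw n).card : ℝ) * (ε / 2) := by linarith
    _ = ε * ((saw n).card : ℝ) := by ring

end Pool.Agent.RMP
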