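import Pool.Agent.RMP.LimJ

/-!
# The renormalisation map in the scaling limit, one limit, part 4 (helper83): **`rmLim2_of`**
-/

set_option autoImplicit false

open MeasureTheory Filter Topology Finset
open scoped Classical Pointwise

namespace Pool.Agent.RMP

open Pool.Agent.NTS.Res

open NTSF (size_pos integral_law)

/-! ### 1. Tiling -/

lemma tile1 {u : ℕ → ℝ} (hu : Monotone u) {T : Set ℝ} (hT : MeasurableSet T) {g : ℝ × ℝ → ℝ} (N : ℕ)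
    (hg : IntegrableOn g (Set.Ioc (u 0) (u N) ×ˢ T) (volume : Measure (ℝ × ℝ))) :
    ∫ p in Set.Ioc (u 0) (u N) ×ˢ T, g p = ∑ i ∈ range N, ∫ p in Set.Ioc (u i) (u (i + 1)) ×ˢ T, g p := by
  induction N with
  | zero => simp
  | succ N ih =>
    have e : Set.Ioc (u 0) (u (N + 1)) ×ˢ T = Set.Ioc (u 0) (u N) ×ˢ T ∪ Set.Ioc (u N) (u (N + 1)) ×ˢ T := by
      rw [← Set.union_prod, Set.Ioc_union_Ioc_eq_Ioc (hu (Nat.zero_le _)) (hu (Nat.le_succ _))]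
    rw [e] at hg ⊢
    have h1 := hg.mono_set Set.subset_union_left
    have h2 := hg.mono_set Set.subset_union_right
    rw [setIntegral_union _ (measurableSet_Ioc.prod hT) h1 h2, ih h1, sum_range_succ]
    rw [Set.disjoint_prod]
    left
    rw [Set.disjoint_left]
    rintro x ⟨-, h3⟩ ⟨h4, -⟩
    exact absurd h3 (not_le.2 h4)

lemma tile2 {v : ℕ → ℝ} (hv : Monotone v) {S : Set ℝ} (hS : MeasurableSet S) {g : ℝ × ℝ → ℝ} (N : ℕ)
    (hg : IntegrableOn g (S ×ˢ Set.Ioc (v 0) (v N)) (volume : Measure (ℝ × ℝ))) :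
    ∫ p in S ×ˢ Set.Ioc (v 0) (v N), g p = ∑ j ∈ range N, ∫ p in S ×ˢ Set.Ioc (v j) (v (j + 1)), g p := by
  induction N with
  | zero => simp
  | succ N ih =>
    have e : S ×ˢ Set.Ioc (v 0) (v (N + 1)) = S ×ˢ Set.Ioc (v 0) (v N) ∪ S ×ˢ Set.Ioc (v N) (v (N + 1)) := by
      rw [← Set.prod_union, Set.Ioc_union_Ioc_eq_Ioc (hv (Nat.zero_le _)) (hv (Nat.le_succ _))]
    rw [e] at hg ⊢
    have h1 := hg.mono_set Set.subset_union_left
    have h2 := hg.mono_set Set.subset_union_right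
    rw [setIntegral_union _ (hS.prod measurableSet_Ioc) h1 h2, ih h1, sum_range_succ]
    rw [Set.disjoint_prod]
    right
    rw [Set.disjoint_left]
    rintro x ⟨-, h3⟩ ⟨h4, -⟩
    exact absurd h3 (not_le.2 h4)

/-- **the tiling of a rectangle** -/
lemma tile {u v : ℕ → ℝ} (hu : Monotone u) (hv : Monotone v) {g : ℝ × ℝ → ℝ} (N : ℕ)
    (hg : IntegrableOn g (Set.Ioc (u 0) (u N) ×ˢ Set.Ioc (v 0) (v N)) (volume : Measure (ℝ × ℝ))) :
    ∫ p in Set.Ioc (u 0) (u N) ×ˢ Set.Ioc (v 0) (v N), g p =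
      ∑ i ∈ range N, ∑ j ∈ range N, ∫ p in Set.Ioc (u i) (u (i + 1)) ×ˢ Set.Ioc (v j) (v (j + 1)), g p := by
  rw [tile1 hu measurableSet_Ioc N hg]
  refine sum_congr rfl fun i hi => tile2 hv measurableSet_Ioc N (hg.mono_set ?_)
  refine Set.prod_mono ?_ subset_rfl
  exact Set.Ioc_subset_Ioc (hu (Nat.zero_le _)) (hu (mem_range.1 hi))

/-! ### 2. Integrability -/

section

variable {φ : ℕ → ℕ} {μ : ℝ → Measure C(unitInterval, ℂ)} {ρ : ℝ → ℝ}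

lemma int_joint (hG : GI) (hW : WK) (hS : FSL) (hf : Fam φ μ ρ) (hρ : ∀ x, 0 < x → x ≤ 1 → 0 < ρ x)
    {F : C(unitInterval, ℂ) → ℝ} (h0 : ∀ γ, 0 ≤ F γ ∧ F γ ≤ 1) (hF : LipschitzWith 1 F) {r : ℝ} (hr : 0 ≤ r) {a b c e : ℝ}
    (ha : 0 ≤ a) (hc : 0 ≤ c) (hbe : b + e ≤ 1) :
    IntegrableOn (fun p : ℝ × ℝ => joint μ ρ r F p.1 p.2) (Set.Ioc a b ×ˢ Set.Ioc c e) ∧
    IntegrableOn (fun p : ℝ × ℝ => (∫ γ, F γ ∂(μ (p.1 + p.2))) * joint μ ρ r (fun _ => 1) p.1 p.2)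
      (Set.Ioc a b ×ˢ Set.Ioc c e) := by
  obtain ⟨U, hU⟩ : ∃ U : Set (ℝ × ℝ), U = Set.Ioc a b ×ˢ Set.Ioc c e := ⟨_, rfl⟩
  have hUm : MeasurableSet U := by
    rw [hU]
    exact measurableSet_Ioc.prod measurableSet_Ioc
  have hU1 : ∀ p ∈ U, 0 < p.1 ∧ 0 < p.2 ∧ p.1 + p.2 ≤ 1 := by
    intro p hp
    rw [hU] at hp
    obtain ⟨⟨a1, a2⟩, b1, b2⟩ := hp
    exact ⟨by linarith, by linarith, by linarith⟩
  have hU2 : ∀ p ∈ U, 0 < p.1 ∧ p.1 ≤ 1 ∧ 0 < p.2 ∧ p.2 ≤ 1 := by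
    intro p hp
    obtain ⟨a1, a2, a3⟩ := hU1 p hp
    exact ⟨a1, by linarith, a2, by linarith⟩
  have hadd : ∀ p ∈ U, ∀ u : ℕ → ℝ × ℝ, (∀ i, u i ∈ U) → Tendsto u atTop (𝓝 p) →
      Tendsto (fun i => (u i).1 + (u i).2) atTop (𝓝 (p.1 + p.2)) := fun p _ u _ hup =>
    ((continuous_fst.tendsto p).comp hup).add ((continuous_snd.tendsto p).comp hup)
  have mj : ∀ F : C(unitInterval, ℂ) → ℝ, (∀ γ, 0 ≤ F γ ∧ F γ ≤ 1) → LipschitzWith 1 F →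
      AEStronglyMeasurable (fun p : ℝ × ℝ => joint μ ρ r F p.1 p.2) ((volume : Measure (ℝ × ℝ)).restrict U) := fun F h0 hF =>
    jt_aesm hG hW hS hf hρ h0 hF hr hUm hU2 (lam := fun p => ρ (p.1 + p.2))
      (fun p hp => hρ _ (by linarith [(hU1 p hp).1, (hU1 p hp).2.1]) (hU1 p hp).2.2) fun p hp u hu hup =>
        rho_cont hS hf hρ (by linarith [(hU1 p hp).1, (hU1 p hp).2.1]) (hU1 p hp).2.2
          (fun i => by linarith [(hU1 _ (hu i)).1, (hU1 _ (hu i)).2.1]) (fun i => (hU1 _ (hu i)).2.2) (hadd p hp u hu hup)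
  have mm : AEStronglyMeasurable (fun p : ℝ × ℝ => ∫ γ, F γ ∂(μ (p.1 + p.2))) ((volume : Measure (ℝ × ℝ)).restrict U) := by
    refine ContinuousOn.aestronglyMeasurable (fun p hp => ?_) hUm
    refine tendsto_of_seq_tendsto fun u hu => ?_
    have hu1 : Tendsto u atTop (𝓝 p) := hu.mono_right nhdsWithin_le_nhds
    have hu2 : ∀ᶠ i in atTop, u i ∈ U := hu.eventually self_mem_nhdsWithin
    obtain ⟨v, hv⟩ : ∃ v : ℕ → ℝ × ℝ, v = fun i => if u i ∈ U then u i else p := ⟨_, rfl⟩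
    have hvU : ∀ i, v i ∈ U := fun i => by
      rw [hv]
      show (if u i ∈ U then u i else p) ∈ U
      split_ifs with h
      · exact h
      · exact hp
    have hvu : ∀ᶠ i in atTop, u i = v i := by
      filter_upwards [hu2] with i hi
      rw [hv]
      show u i = if u i ∈ U then u i else p
      rw [if_pos hi]
    have hvt : Tendsto v atTop (𝓝 p) := hu1.congr' hvu
    have key := mu_cont hS hf (by linarith [(hU1 p hp).1, (hU1 p hp).2.1]) (hU1 p hp).2.2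
      (fun i => by linarith [(hU1 _ (hvU i)).1, (hU1 _ (hvU i)).2.1]) (fun i => (hU1 _ (hvU i)).2.2)
      (hadd p hp v hvU hvt) (bcf F hF.continuous 1 fun γ => by
        rw [abs_of_nonneg (h0 γ).1]
        exact (h0 γ).2)
    simp only [bcf_apply] at key
    refine key.congr' ?_
    filter_upwards [hvu] with i hi
    show _ = ∫ γ, F γ ∂(μ ((u i).1 + (u i).2))
    rw [hi]
  have habs : ∀ {F : C(unitInterval, ℂ) → ℝ}, (∀ γ, 0 ≤ F γ ∧ F γ ≤ 1) → ∀ γ, |F γ| ≤ 1 := fun h0 γ => by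
    rw [abs_of_nonneg (h0 γ).1]
    exact (h0 γ).2
  have bt : ∀ F : C(unitInterval, ℂ) → ℝ, (∀ γ, 0 ≤ F γ ∧ F γ ≤ 1) → ∀ lam : ℝ, ∀ p ∈ U,
      |jt μ ρ r lam F p.1 p.2| ≤ Real.pi * r ^ 2 := fun F h0 lam p hp =>
    jt_bdd hG (habs h0) hr (hf.prob _ (hU2 p hp).1 (hU2 p hp).2.1) (hf.prob _ (hU2 p hp).2.2.1 (hU2 p hp).2.2.2)
  have one0 : ∀ γ : C(unitInterval, ℂ), (0 : ℝ) ≤ (fun _ : C(unitInterval, ℂ) => (1 : ℝ)) γ ∧
      (fun _ : C(unitInterval, ℂ) => (1 : ℝ)) γ ≤ 1 := fun _ => ⟨zero_le_one, le_rfl⟩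
  have one1 : LipschitzWith 1 (fun _ : C(unitInterval, ℂ) => (1 : ℝ)) := (LipschitzWith.const 1).weaken zero_le_one
  constructor
  · exact int_rect (hU ▸ mj F h0 hF) (fun p hp => by
      rw [joint_jt]
      exact bt F h0 _ p (hU ▸ hp))
  · refine int_rect (M := 1 * (Real.pi * r ^ 2)) (hU ▸ mm.mul (mj _ one0 one1)) (fun p hp => ?_)
    have hp' : p ∈ U := hU ▸ hp
    have pr := hf.prob (p.1 + p.2) (by linarith [(hU1 p hp').1, (hU1 p hp').2.1]) (hU1 p hp').2.2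
    have h5 := norm_integral_le_of_norm_le_const (μ := μ (p.1 + p.2)) (f := F) (Eventually.of_forall fun γ => by
      rw [Real.norm_eq_abs]
      exact habs h0 γ)
    rw [probReal_univ, mul_one, Real.norm_eq_abs] at h5
    rw [abs_mul, joint_jt]
    exact mul_le_mul h5 (bt _ one0 _ p hp') (abs_nonneg _) zero_le_one

end

/-! ### 3. The theorem -/

/-- **the form with one limit** -/
theorem rmLim2_of (hR : RMLim) (hG : GI) (hW : WK) (hA : FSC) (hS : FSL) (hB : FBD) : RMLim2 := by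
  intro ε x₁ y₁ q hε hx hy hq hq1
  obtain ⟨cρ, Cρ, hcρ, hρb⟩ := hB.2
  have hxy : 0 < x₁ + y₁ := by linarith
  have hq0 : 0 < q := by linarith
  obtain ⟨τ0, hτ0⟩ : ∃ τ0, τ0 = x₁ + y₁ := ⟨_, rfl⟩
  have hτp : 0 < τ0 := hτ0 ▸ hxy
  obtain ⟨s0, hs0⟩ : ∃ s0, s0 = min x₁ y₁ / (q * (x₁ + y₁)) := ⟨_, rfl⟩
  have hs0p : 0 < s0 := by
    rw [hs0]
    exact div_pos (lt_min hx hy) (by positivity)
  have hs0q : s0 * (q * (x₁ + y₁)) = min x₁ y₁ := by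
    rw [hs0]
    field_simp
  obtain ⟨d0, hd0, h1⟩ := rect2 hR hG hW hA hS hB hε hs0p
  -- the number of the tiles
  obtain ⟨N, hN⟩ := pow_unbounded_of_one_lt q (by linarith : (1 : ℝ) < 1 + d0)
  have hN0 : N ≠ 0 := by
    rintro rfl
    rw [pow_zero] at hN
    linarith
  obtain ⟨d, hd⟩ : ∃ d : ℝ, d = q ^ ((N : ℝ)⁻¹) - 1 := ⟨_, rfl⟩
  have hdN : (1 + d) ^ N = q := by
    rw [hd, add_sub_cancel]
    exact Real.rpow_inv_natCast_pow hq0.le hN0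
  have hd1 : 0 < 1 + d := by
    rw [hd, add_sub_cancel]
    positivity
  have hdp : 0 < d := by
    have h2 : (1 : ℝ) < q ^ ((N : ℝ)⁻¹) := Real.one_lt_rpow hq (by positivity)
    linarith
  have hdd : d ≤ d0 := by
    by_contra hcon
    have h2 : (1 + d0) ^ N ≤ (1 + d) ^ N := pow_le_pow_left₀ (by linarith) (by linarith [not_le.1 hcon]) N
    rw [hdN] at h2
    linarith
  obtain ⟨c, C, r0, hc, hr0, h2⟩ := h1 d hdp hdd
  obtain ⟨ρm, hρm⟩ : ∃ ρm, ρm = cρ * τ0 ^ (3 / 4 : ℝ) := ⟨_, rfl⟩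
  have hρmp : 0 < ρm := by
    rw [hρm]
    positivity
  have hCρ : 0 < |Cρ| + 1 := by positivity
  obtain ⟨ρM, hρM⟩ : ∃ ρM, ρM = |Cρ| + 1 := ⟨_, rfl⟩
  have hρMp : 0 < ρM := hρM ▸ hCρ
  obtain ⟨c', hc'⟩ : ∃ c', c' = c * (1 / ρM) ^ (59 / 24 : ℝ) * (τ0 ^ 2 * ρm ^ 2) := ⟨_, rfl⟩
  obtain ⟨C', hC'⟩ : ∃ C', C' = (N : ℝ) * N * (|C| * (1 / ρm) ^ (59 / 24 : ℝ) * (1 ^ 2 * ρM ^ 2)) := ⟨_, rfl⟩
  refine ⟨c', C', r0 * ρm, by rw [hc']; positivity, by positivity, fun φ μ ρ hf r hr hrr => ?_⟩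
  have hρ : ∀ x, 0 < x → x ≤ 1 → 0 < ρ x := fun x h0 h1 => (hA φ μ ρ hf x h0 h1).1
  -- the grid
  obtain ⟨u, hu⟩ : ∃ u : ℕ → ℝ, u = fun i => x₁ * (1 + d) ^ i := ⟨_, rfl⟩
  obtain ⟨v, hv⟩ : ∃ v : ℕ → ℝ, v = fun i => y₁ * (1 + d) ^ i := ⟨_, rfl⟩
  have humono : Monotone u := by
    rw [hu]
    exact fun i j hij => mul_le_mul_of_nonneg_left (pow_le_pow_right₀ (by linarith) hij) hx.le
  have hvmono : Monotone v := by
    rw [hv]
    exact fun i j hij => mul_le_mul_of_nonneg_left (pow_le_pow_right₀ (by linarith) hij) hy.le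
  have hu0 : u 0 = x₁ := by rw [hu]; simp
  have hv0 : v 0 = y₁ := by rw [hv]; simp
  have huN : u N = q * x₁ := by
    rw [hu]
    show x₁ * (1 + d) ^ N = _
    rw [hdN]
    ring
  have hvN : v N = q * y₁ := by
    rw [hv]
    show y₁ * (1 + d) ^ N = _
    rw [hdN]
    ring
  have hus : ∀ i, u (i + 1) = (1 + d) * u i := fun i => by
    rw [hu]
    show x₁ * (1 + d) ^ (i + 1) = (1 + d) * (x₁ * (1 + d) ^ i)
    ring
  have hvs : ∀ i, v (i + 1) = (1 + d) * v i := fun i => by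
    rw [hv]
    show y₁ * (1 + d) ^ (i + 1) = (1 + d) * (y₁ * (1 + d) ^ i)
    ring
  have one0 : ∀ γ : C(unitInterval, ℂ), (0 : ℝ) ≤ (fun _ : C(unitInterval, ℂ) => (1 : ℝ)) γ ∧
      (fun _ : C(unitInterval, ℂ) => (1 : ℝ)) γ ≤ 1 := fun _ => ⟨zero_le_one, le_rfl⟩
  have one1 : LipschitzWith 1 (fun _ : C(unitInterval, ℂ) => (1 : ℝ)) := (LipschitzWith.const 1).weaken zero_le_one
  have hqq : q * x₁ + q * y₁ ≤ 1 := by linarith
  -- the tiles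
  have htile : ∀ i ∈ range N, ∀ j ∈ range N, τ0 ≤ u i + v j ∧ (1 + d) * (u i + v j) ≤ 1 ∧ 0 < u i ∧ 0 < v j ∧
      s0 * (u i + v j) ≤ u i ∧ s0 * (u i + v j) ≤ v j := by
    intro i hi j hj
    have a1 : x₁ ≤ u i := hu0 ▸ humono (Nat.zero_le i)
    have a2 : y₁ ≤ v j := hv0 ▸ hvmono (Nat.zero_le j)
    have a3 : u (i + 1) ≤ q * x₁ := huN ▸ humono (mem_range.1 hi)
    have a4 : v (j + 1) ≤ q * y₁ := hvN ▸ hvmono (mem_range.1 hj)
    rw [hus] at a3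
    rw [hvs] at a4
    have a5 : u i + v j ≤ q * (x₁ + y₁) := by nlinarith
    have a6 := mul_le_mul_of_nonneg_left a5 hs0p.le
    rw [hs0q] at a6
    refine ⟨by linarith, by linarith, by linarith, by linarith, a6.trans ((min_le_left _ _).trans a1),
      a6.trans ((min_le_right _ _).trans a2)⟩
  have hρt : ∀ i ∈ range N, ∀ j ∈ range N, ρm ≤ ρ (u i + v j) ∧ ρ (u i + v j) ≤ ρM := by
    intro i hi j hj
    obtain ⟨a1, a2, a3, a4, -, -⟩ := htile i hi j hj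
    have b0 : 0 < u i + v j := by linarith
    have b1 : u i + v j ≤ 1 := by nlinarith
    obtain ⟨g1, g2⟩ := hρb φ μ ρ hf (u i + v j) b0 b1
    constructor
    · rw [hρm]
      exact (mul_le_mul_of_nonneg_left (Real.rpow_le_rpow hτp.le a1 (by norm_num)) hcρ.le).trans g1
    · have g3 : (u i + v j) ^ (3 / 4 : ℝ) ≤ 1 := Real.rpow_le_one b0.le b1 (by norm_num)
      have g4 : 0 ≤ (u i + v j) ^ (3 / 4 : ℝ) := by positivity
      have g5 : Cρ * (u i + v j) ^ (3 / 4 : ℝ) ≤ |Cρ| * (u i + v j) ^ (3 / 4 : ℝ) :=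
        mul_le_mul_of_nonneg_right (le_abs_self _) g4
      have g6 := mul_le_mul_of_nonneg_left g3 (abs_nonneg Cρ)
      rw [hρM]
      linarith
  have hrec : ∀ i ∈ range N, ∀ j ∈ range N,
      (c' * r ^ (59 / 24 : ℝ) ≤ ∫ p in Set.Ioc (u i) (u (i + 1)) ×ˢ Set.Ioc (v j) (v (j + 1)), joint μ ρ r (fun _ => 1) p.1 p.2) ∧
      ((∫ p in Set.Ioc (u i) (u (i + 1)) ×ˢ Set.Ioc (v j) (v (j + 1)), joint μ ρ r (fun _ => 1) p.1 p.2) ≤
        |C| * (1 / ρm) ^ (59 / 24 : ℝ) * (1 ^ 2 * ρM ^ 2) * r ^ (59 / 24 : ℝ)) ∧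
      ∀ F : C(unitInterval, ℂ) → ℝ, (∀ γ, 0 ≤ F γ ∧ F γ ≤ 1) → LipschitzWith 1 F →
        |∫ p in Set.Ioc (u i) (u (i + 1)) ×ˢ Set.Ioc (v j) (v (j + 1)), (joint μ ρ r F p.1 p.2 -
          (∫ γ, F γ ∂(μ (p.1 + p.2))) * joint μ ρ r (fun _ => 1) p.1 p.2)| ≤
            ε * ∫ p in Set.Ioc (u i) (u (i + 1)) ×ˢ Set.Ioc (v j) (v (j + 1)), joint μ ρ r (fun _ => 1) p.1 p.2 := by
    intro i hi j hj
    obtain ⟨a1, a2, a3, a4, a5, a6⟩ := htile i hi j hj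
    obtain ⟨b1, b2⟩ := hρt i hi j hj
    have b0 := hρmp.trans_le b1
    obtain ⟨g1, g2, g3⟩ := h2 φ μ ρ hf (u i) (v j) r a3 a4 a2 a5 a6 hr (hrr.trans (mul_le_mul_of_nonneg_left b1 hr0.le))
    rw [← hus, ← hvs] at g1 g2 g3
    have b3 : 0 < u i + v j := by linarith
    have b4 : u i + v j ≤ 1 := by nlinarith
    have k1 : r / ρM ≤ r / ρ (u i + v j) := div_le_div_of_nonneg_left hr.le b0 b2
    have k2 : r / ρ (u i + v j) ≤ r / ρm := div_le_div_of_nonneg_left hr.le hρmp b1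
    have k3 : (r / ρM) ^ (59 / 24 : ℝ) ≤ (r / ρ (u i + v j)) ^ (59 / 24 : ℝ) :=
      Real.rpow_le_rpow (by positivity) k1 (by norm_num)
    have k4 : (r / ρ (u i + v j)) ^ (59 / 24 : ℝ) ≤ (r / ρm) ^ (59 / 24 : ℝ) :=
      Real.rpow_le_rpow (by positivity) k2 (by norm_num)
    have k5 : (r / ρM) ^ (59 / 24 : ℝ) = (1 / ρM) ^ (59 / 24 : ℝ) * r ^ (59 / 24 : ℝ) := by
      rw [← Real.mul_rpow (by positivity) hr.le]
      congr 1
      ring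
    have k6 : (r / ρm) ^ (59 / 24 : ℝ) = (1 / ρm) ^ (59 / 24 : ℝ) * r ^ (59 / 24 : ℝ) := by
      rw [← Real.mul_rpow (by positivity) hr.le]
      congr 1
      ring
    have k7 : τ0 ^ 2 * ρm ^ 2 ≤ (u i + v j) ^ 2 * ρ (u i + v j) ^ 2 :=
      mul_le_mul (pow_le_pow_left₀ hτp.le a1 2) (pow_le_pow_left₀ hρmp.le b1 2) (by positivity) (by positivity)
    have k8 : (u i + v j) ^ 2 * ρ (u i + v j) ^ 2 ≤ 1 ^ 2 * ρM ^ 2 :=
      mul_le_mul (pow_le_pow_left₀ b3.le b4 2) (pow_le_pow_left₀ b0.le b2 2) (by positivity) (by positivity)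
    refine ⟨?_, ?_, g3⟩
    · refine le_trans ?_ g1
      calc c' * r ^ (59 / 24 : ℝ) = c * ((r / ρM) ^ (59 / 24 : ℝ)) * (τ0 ^ 2 * ρm ^ 2) := by
            rw [hc', k5]
            ring
        _ ≤ c * (r / ρ (u i + v j)) ^ (59 / 24 : ℝ) * ((u i + v j) ^ 2 * ρ (u i + v j) ^ 2) :=
            mul_le_mul (mul_le_mul_of_nonneg_left k3 hc.le) k7 (by positivity) (by positivity)
    · refine g2.trans ?_
      calc C * (r / ρ (u i + v j)) ^ (59 / 24 : ℝ) * ((u i + v j) ^ 2 * ρ (u i + v j) ^ 2)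
          ≤ |C| * (r / ρ (u i + v j)) ^ (59 / 24 : ℝ) * ((u i + v j) ^ 2 * ρ (u i + v j) ^ 2) :=
            mul_le_mul_of_nonneg_right (mul_le_mul_of_nonneg_right (le_abs_self C) (by positivity)) (by positivity)
        _ ≤ |C| * (r / ρm) ^ (59 / 24 : ℝ) * (1 ^ 2 * ρM ^ 2) :=
            mul_le_mul (mul_le_mul_of_nonneg_left k4 (abs_nonneg C)) k8 (by positivity) (by positivity)
        _ = _ := by
            rw [k6]
            ring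
  have hx0 : x₁ ≤ q * x₁ := by nlinarith
  have hy0 : y₁ ≤ q * y₁ := by nlinarith
  have hU : Set.Ioc x₁ (q * x₁) ×ˢ Set.Ioc y₁ (q * y₁) = Set.Ioc (u 0) (u N) ×ˢ Set.Ioc (v 0) (v N) := by
    rw [hu0, hv0, huN, hvN]
  have hj1 := (int_joint hG hW hS hf hρ one0 one1 hr.le (a := x₁) (b := q * x₁) (c := y₁) (e := q * y₁) hx.le hy.le hqq).1
  have e1 : ∫ x in x₁..q * x₁, ∫ y in y₁..q * y₁, joint μ ρ r (fun _ => 1) x y =
      ∑ i ∈ range N, ∑ j ∈ range N, ∫ p in Set.Ioc (u i) (u (i + 1)) ×ˢ Set.Ioc (v j) (v (j + 1)),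
        joint μ ρ r (fun _ => 1) p.1 p.2 := by
    rw [it_prod hx0 hy0 (g := fun p : ℝ × ℝ => joint μ ρ r (fun _ => 1) p.1 p.2) hj1, hU]
    exact tile humono hvmono N (hU ▸ hj1)
  have hterm0 : ∀ i ∈ range N, ∀ j ∈ range N, 0 ≤ ∫ p in Set.Ioc (u i) (u (i + 1)) ×ˢ Set.Ioc (v j) (v (j + 1)),
      joint μ ρ r (fun _ => 1) p.1 p.2 := fun i _ j _ => integral_nonneg fun p => by
    show 0 ≤ joint μ ρ r (fun _ => 1) p.1 p.2
    rw [joint_jt]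
    exact jt_nonneg (fun _ => zero_le_one) _ _ _ _
  refine ⟨?_, ?_, fun F h0 hF => ?_⟩
  · rw [e1]
    have h00 : 0 ∈ range N := mem_range.2 (Nat.pos_of_ne_zero hN0)
    refine (hrec 0 h00 0 h00).1.trans ?_
    refine le_trans ?_ (single_le_sum (f := fun i => ∑ j ∈ range N, ∫ p in Set.Ioc (u i) (u (i + 1)) ×ˢ
      Set.Ioc (v j) (v (j + 1)), joint μ ρ r (fun _ => 1) p.1 p.2) (fun i hi => sum_nonneg fun j hj => hterm0 i hi j hj) h00)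
    exact single_le_sum (f := fun j => ∫ p in Set.Ioc (u 0) (u (0 + 1)) ×ˢ
      Set.Ioc (v j) (v (j + 1)), joint μ ρ r (fun _ => 1) p.1 p.2) (fun j hj => hterm0 0 h00 j hj) h00
  · rw [e1]
    calc _ ≤ ∑ i ∈ range N, ∑ j ∈ range N, |C| * (1 / ρm) ^ (59 / 24 : ℝ) * (1 ^ 2 * ρM ^ 2) * r ^ (59 / 24 : ℝ) :=
          sum_le_sum fun i hi => sum_le_sum fun j hj => (hrec i hi j hj).2.1
      _ = _ := by
          rw [sum_const, sum_const, card_range, nsmul_eq_mul, nsmul_eq_mul, hC']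
          ring
  · obtain ⟨i1, i2⟩ := int_joint hG hW hS hf hρ h0 hF hr.le (a := x₁) (b := q * x₁) (c := y₁) (e := q * y₁) hx.le hy.le hqq
    have i3 := i1.sub i2
    have e2 : ∫ x in x₁..q * x₁, ∫ y in y₁..q * y₁, (joint μ ρ r F x y - (∫ γ, F γ ∂(μ (x + y))) * joint μ ρ r (fun _ => 1) x y) =
        ∑ i ∈ range N, ∑ j ∈ range N, ∫ p in Set.Ioc (u i) (u (i + 1)) ×ˢ Set.Ioc (v j) (v (j + 1)),
          (joint μ ρ r F p.1 p.2 - (∫ γ, F γ ∂(μ (p.1 + p.2))) * joint μ ρ r (fun _ => 1) p.1 p.2) := by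
      rw [it_prod hx0 hy0 (g := fun p : ℝ × ℝ => joint μ ρ r F p.1 p.2 -
        (∫ γ, F γ ∂(μ (p.1 + p.2))) * joint μ ρ r (fun _ => 1) p.1 p.2) i3, hU]
      exact tile humono hvmono N (hU ▸ i3)
    rw [e1, e2, mul_sum]
    refine (abs_sum_le_sum_abs _ _).trans (sum_le_sum fun i hi => ?_)
    rw [mul_sum]
    exact (abs_sum_le_sum_abs _ _).trans (sum_le_sum fun j hj => (hrec i hi j hj).2.2 F h0 hF)

end Pool.Agent.RMP
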