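import Pool.Agent.RMP.LimAll
import Pool.Agent.RMP.LimK
import Pool.Agent.RMP.LimFsc
import Pool.Agent.RMP.LimFsl

/-!
# The limit form of (RM') with one limit `r → 0`, closed (helper83)

`rmLim2 : RMLim2`.  No hypothesis.
-/

set_option autoImplicit false

namespace Pool.Agent.RMP

/-- **The renormalisation equation of the scaling limits** (one limit `r → 0`, uniform over all families of subsequential scaling
limits). -/
theorem rmLim2 : RMLim2 := rmLim2_of rmLim gi wk fsc fsl fbd

end Pool.Agent.RMP
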