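import Pool.Agent.RMP.LimC
import Pool.Agent.IW.Meas

/-!
# The renormalisation map in the scaling limit, assembly 4 (helper83): the limit for a fixed cut-off
-/

set_option autoImplicit false

open MeasureTheory Filter Topology Finset
open scoped Classical

namespace Pool.Agent.RMP

open Pool.Agent.NTS.Res

open NTSF (size_pos integral_law)

/-! ### 1. Symmetry of the limits -/

/-- a bounded continuous function -/
noncomputable def bcf (g : C(unitInterval, ℂ) → ℝ) (hc : Continuous g) (C : ℝ) (hb : ∀ γ, |g γ| ≤ C) :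
    BoundedContinuousFunction C(unitInterval, ℂ) ℝ :=
  BoundedContinuousFunction.ofNormedAddCommGroup g hc C fun γ => by
    rw [Real.norm_eq_abs]
    exact hb γ

lemma bcf_apply (g : C(unitInterval, ℂ) → ℝ) (hc : Continuous g) (C : ℝ) (hb : ∀ γ, |g γ| ≤ C) (γ : C(unitInterval, ℂ)) :
    bcf g hc C hb γ = g γ := rfl

/-- the limits are symmetric, Lipschitz functions -/
lemma neg_lip (hE : NEG) {θ : ℕ → ℕ} (hθ : Tendsto θ atTop atTop) {ν : Measure C(unitInterval, ℂ)} (h : LawTo θ ν)
    {g : C(unitInterval, ℂ) → ℝ} (h0 : ∀ γ, 0 ≤ g γ ∧ g γ ≤ 1) (hg : LipschitzWith 1 g) :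
    ∫ γ, g (-γ) ∂ν = ∫ γ, g γ ∂ν := by
  have hb : ∀ γ, |g γ| ≤ 1 := fun γ => by
    rw [abs_of_nonneg (h0 γ).1]
    exact (h0 γ).2
  have hc1 : Continuous fun γ => g (-γ) := hg.continuous.comp continuous_neg
  have t1 := h (bcf (fun γ => g (-γ)) hc1 1 fun γ => hb _)
  have t2 := h (bcf g hg.continuous 1 hb)
  simp only [bcf_apply] at t1 t2
  have t3 := t1.sub t2
  have t4 : Tendsto (fun k => ∫ γ, g (-γ) ∂(law (θ k)) - ∫ γ, g γ ∂(law (θ k))) atTop (𝓝 0) := by
    rw [Metric.tendsto_atTop]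
    intro ε hε
    obtain ⟨n0, hn0⟩ := hE (ε / 2) (by positivity)
    obtain ⟨N, hN⟩ := (hθ.eventually_ge_atTop n0).exists_forall_of_atTop
    refine ⟨N, fun k hk => ?_⟩
    rw [Real.dist_eq, sub_zero]
    exact (hn0 (θ k) (hN k hk) g h0 hg).trans_lt (by linarith)
  exact sub_eq_zero.1 (tendsto_nhds_unique t3 t4)

/-- **the limits are symmetric** -/
theorem neg_sym (hE : NEG) {θ : ℕ → ℕ} (hθ : Tendsto θ atTop atTop) {ν : Measure C(unitInterval, ℂ)} [hν : IsProbabilityMeasure ν]
    (h : LawTo θ ν) : ν.map (fun γ => -γ) = ν := by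
  have hm : Measurable fun γ : C(unitInterval, ℂ) => -γ := continuous_neg.measurable
  have hP : IsProbabilityMeasure (ν.map fun γ => -γ) := Measure.isProbabilityMeasure_map hm.aemeasurable
  obtain ⟨P1, hP1⟩ : ∃ P : ProbabilityMeasure C(unitInterval, ℂ), P = ⟨ν.map fun γ => -γ, hP⟩ := ⟨_, rfl⟩
  obtain ⟨P2, hP2⟩ : ∃ P : ProbabilityMeasure C(unitInterval, ℂ), P = ⟨ν, hν⟩ := ⟨_, rfl⟩
  have key : Tendsto (fun _ : ℕ => P1) atTop (𝓝 P2) := by
    rw [tendsto_iff_forall_lipschitz_integral_tendsto]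
    rintro f ⟨C, hC⟩ ⟨L, hL⟩
    have hcf := hL.continuous
    have hC0 : 0 ≤ C := dist_nonneg.trans (hC 0 0)
    obtain ⟨K, hK⟩ : ∃ K : ℝ, K = C + L + 1 := ⟨_, rfl⟩
    have hK1 : 0 < K := by
      rw [hK]
      positivity
    have hb : ∀ γ, |f γ - f 0| ≤ C := fun γ => by
      have := hC γ 0
      rwa [Real.dist_eq] at this
    have e1 : ∫ γ, f γ ∂(P1 : Measure C(unitInterval, ℂ)) = ∫ γ, f γ ∂(P2 : Measure C(unitInterval, ℂ)) := by
      rw [hP1, hP2]
      show ∫ γ, f γ ∂(ν.map fun γ => -γ) = ∫ γ, f γ ∂ν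
      rw [integral_map hm.aemeasurable hcf.aestronglyMeasurable]
      have k1 := neg_lip hE hθ h (g := fun γ => (f γ - f 0 + C) / (2 * K)) (fun γ => by
        have := abs_le.1 (hb γ)
        constructor
        · exact div_nonneg (by linarith) (by positivity)
        · rw [div_le_one (by positivity)]
          have : (0 : ℝ) ≤ L := L.2
          linarith) (by
        refine LipschitzWith.of_dist_le_mul fun x y => ?_
        rw [Real.dist_eq, ← sub_div, abs_div, abs_of_pos (by positivity : (0 : ℝ) < 2 * K), NNReal.coe_one, one_mul,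
          div_le_iff₀ (by positivity)]
        have := hL.dist_le_mul x y
        rw [Real.dist_eq] at this
        have hd : 0 ≤ dist x y := dist_nonneg
        have hLL : (0 : ℝ) ≤ L := L.2
        calc |f x - f 0 + C - (f y - f 0 + C)| = |f x - f y| := by
              congr 1
              ring
          _ ≤ L * dist x y := this
          _ ≤ dist x y * (2 * K) := by
              rw [hK]
              nlinarith)
      have i1 : Integrable (fun γ : C(unitInterval, ℂ) => f γ) ν := by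
        refine Integrable.of_bound hcf.aestronglyMeasurable (C + |f 0|) (Eventually.of_forall fun γ => ?_)
        rw [Real.norm_eq_abs]
        have := abs_sub_abs_le_abs_sub (f γ) (f 0)
        have h2 := hb γ
        linarith
      have i2 : Integrable (fun γ : C(unitInterval, ℂ) => f (-γ)) ν := by
        refine Integrable.of_bound (hcf.comp continuous_neg).aestronglyMeasurable (C + |f 0|) (Eventually.of_forall fun γ => ?_)
        rw [Real.norm_eq_abs]
        have := abs_sub_abs_le_abs_sub (f (-γ)) (f 0)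
        have h2 := hb (-γ)
        linarith
      have e2 : ∀ g : C(unitInterval, ℂ) → ℝ, Integrable g ν → ∫ γ, (g γ - f 0 + C) / (2 * K) ∂ν =
          (∫ γ, g γ ∂ν - f 0 + C) / (2 * K) := by
        intro g hg
        have q1 : ∫ a, (g a - f 0 + C) ∂ν = ∫ a, (g a - f 0) ∂ν + ∫ _, C ∂ν :=
          integral_add (hg.sub (integrable_const _)) (integrable_const _)
        have q2 : ∫ a, (g a - f 0) ∂ν = ∫ a, g a ∂ν - ∫ _, f 0 ∂ν := integral_sub hg (integrable_const _)
        rw [integral_div, q1, q2, integral_const, integral_const, probReal_univ, one_smul, one_smul]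
      rw [e2 _ i2, e2 _ i1] at k1
      have hK2 : (2 * K) ≠ 0 := by positivity
      rw [div_left_inj' hK2] at k1
      linarith
    rw [e1]
    exact tendsto_const_nhds
  have h3 : P1 = P2 := tendsto_nhds_unique tendsto_const_nhds key
  have h4 := congrArg (fun P : ProbabilityMeasure C(unitInterval, ℂ) => (P : Measure C(unitInterval, ℂ))) h3
  rw [hP1, hP2] at h4
  exact h4

/-! ### 2. The double integral -/

lemma conc_dist (t α β : ℝ) (a b a' b' : C(unitInterval, ℂ)) :
    dist (conc t α β a b) (conc t α β a' b') ≤ |α| * dist a a' + 2 * |β| * dist b b' := by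
  rw [dist_eq_norm, ContinuousMap.norm_le _ (by positivity)]
  intro u
  have ha : ∀ v, ‖a v - a' v‖ ≤ dist a a' := fun v => by
    rw [← dist_eq_norm]
    exact ContinuousMap.dist_apply_le_dist v
  have hb : ∀ v, ‖b v - b' v‖ ≤ dist b b' := fun v => by
    rw [← dist_eq_norm]
    exact ContinuousMap.dist_apply_le_dist v
  obtain ⟨v, hv⟩ : ∃ v : unitInterval, v = Set.projIcc 0 1 zero_le_one ((u : ℝ) / t) := ⟨_, rfl⟩
  obtain ⟨w, hw⟩ : ∃ w : unitInterval, w = Set.projIcc 0 1 zero_le_one ((1 - (u : ℝ)) / (1 - t)) := ⟨_, rfl⟩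
  have e : (conc t α β a b - conc t α β a' b') u = (α : ℂ) * (a v - a' v) + ((β : ℂ) * (b w - b' w) - (β : ℂ) * (b 1 - b' 1)) := by
    rw [ContinuousMap.sub_apply, hv, hw]
    show ((α : ℂ) * a _ + (β : ℂ) * (b _ - b 1)) - ((α : ℂ) * a' _ + (β : ℂ) * (b' _ - b' 1)) = _
    ring
  rw [e]
  refine (norm_add_le _ _).trans (add_le_add ?_ ((norm_sub_le _ _).trans ?_))
  · rw [norm_mul, Complex.norm_real, Real.norm_eq_abs]
    exact mul_le_mul_of_nonneg_left (ha v) (abs_nonneg _)
  · rw [norm_mul, norm_mul, Complex.norm_real, Real.norm_eq_abs]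
    have h1 := mul_le_mul_of_nonneg_left (hb w) (abs_nonneg β)
    have h2 := mul_le_mul_of_nonneg_left (hb 1) (abs_nonneg β)
    linarith

lemma conc_cont (t α β : ℝ) : Continuous fun p : C(unitInterval, ℂ) × C(unitInterval, ℂ) => conc t α β p.1 p.2 := by
  refine continuous_iff_continuousAt.2 fun p => ?_
  rw [ContinuousAt, tendsto_iff_dist_tendsto_zero]
  refine squeeze_zero (fun _ => dist_nonneg) (fun q => conc_dist t α β q.1 q.2 p.1 p.2) ?_
  have h1 : Tendsto (fun q : C(unitInterval, ℂ) × C(unitInterval, ℂ) => dist q.1 p.1) (𝓝 p) (𝓝 0) :=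
    tendsto_iff_dist_tendsto_zero.1 continuous_fst.continuousAt
  have h2 : Tendsto (fun q : C(unitInterval, ℂ) × C(unitInterval, ℂ) => dist q.2 p.2) (𝓝 p) (𝓝 0) :=
    tendsto_iff_dist_tendsto_zero.1 continuous_snd.continuousAt
  have := (h1.const_mul |α|).add (h2.const_mul (2 * |β|))
  simpa using this

/-- the integrand is continuous -/
lemma integrand_cont (hG : GI) {F : C(unitInterval, ℂ) → ℝ} (hF : LipschitzWith 1 F) {δ r : ℝ} (hδ : 0 < δ) (hr : 0 ≤ r) (t α β : ℝ) :
    Continuous fun p : C(unitInterval, ℂ) × C(unitInterval, ℂ) => F (conc t α β p.1 p.2) * gint δ r α β p.1 p.2 :=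
  (hF.continuous.comp (conc_cont t α β)).mul (hG.2.2.1 δ r α β hδ hr)

/-- the integrand is bounded -/
lemma integrand_bdd (hG : GI) {F : C(unitInterval, ℂ) → ℝ} (h0 : ∀ γ, 0 ≤ F γ ∧ F γ ≤ 1) {δ r : ℝ} (hδ : 0 < δ) (hr : 0 ≤ r)
    (t α β : ℝ) (a b : C(unitInterval, ℂ)) : 0 ≤ F (conc t α β a b) * gint δ r α β a b ∧
      F (conc t α β a b) * gint δ r α β a b ≤ Real.pi * r ^ 2 := by
  obtain ⟨g1, g2, g3⟩ := hG.1 δ r α β a b hδ hr
  refine ⟨mul_nonneg (h0 _).1 g1, ?_⟩
  have := mul_le_mul (h0 (conc t α β a b)).2 (g2.trans g3) g1 zero_le_one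
  linarith

lemma II_bdd (hG : GI) {F : C(unitInterval, ℂ) → ℝ} (h0 : ∀ γ, 0 ≤ F γ ∧ F γ ≤ 1) {δ r : ℝ} (hδ : 0 < δ) (hr : 0 ≤ r)
    (t α β : ℝ) (μ μ' : Measure C(unitInterval, ℂ)) [IsProbabilityMeasure μ] [IsProbabilityMeasure μ'] :
    |II F δ t r α β μ μ'| ≤ Real.pi * r ^ 2 := by
  have hb : ∀ a b, |F (conc t α β a b) * gint δ r α β a b| ≤ Real.pi * r ^ 2 := fun a b => by
    obtain ⟨h1, h2⟩ := integrand_bdd hG h0 hδ hr t α β a b
    rwa [abs_of_nonneg h1]
  have h1 : ∀ a, ‖∫ b, F (conc t α β a b) * gint δ r α β a b ∂μ'‖ ≤ Real.pi * r ^ 2 := fun a => by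
    have := norm_integral_le_of_norm_le_const (μ := μ') (f := fun b => F (conc t α β a b) * gint δ r α β a b)
      (Eventually.of_forall fun b => by
        rw [Real.norm_eq_abs]
        exact hb a b)
    rwa [probReal_univ, mul_one] at this
  have := norm_integral_le_of_norm_le_const (μ := μ) (f := fun a => ∫ b, F (conc t α β a b) * gint δ r α β a b ∂μ')
    (Eventually.of_forall h1)
  rwa [probReal_univ, mul_one, Real.norm_eq_abs] at this

/-- **the two classes give the same** -/
lemma II_neg (hG : GI) {F : C(unitInterval, ℂ) → ℝ} (hF : LipschitzWith 1 F) {δ r : ℝ} (hδ : 0 < δ)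
    (hr : 0 ≤ r) (t α β : ℝ) (μ μ' : Measure C(unitInterval, ℂ)) (h : μ'.map (fun γ => -γ) = μ') :
    II F δ t r α (-β) μ μ' = II F δ t r α β μ μ' := by
  unfold II
  refine integral_congr_ae (Eventually.of_forall fun a => ?_)
  show ∫ b, F (conc t α (-β) a b) * gint δ r α (-β) a b ∂μ' = ∫ b, F (conc t α β a b) * gint δ r α β a b ∂μ'
  have hm : Measurable fun γ : C(unitInterval, ℂ) => -γ := continuous_neg.measurable
  have e1 : ∀ b, F (conc t α (-β) a b) * gint δ r α (-β) a b = (fun b => F (conc t α β a b) * gint δ r α β a b) (-b) := by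
    intro b
    show _ = F (conc t α β a (-b)) * gint δ r α β a (-b)
    rw [conc_neg, hG.2.2.2.2]
  rw [integral_congr_ae (Eventually.of_forall e1)]
  have hc : Continuous fun b => F (conc t α β a b) * gint δ r α β a b :=
    (integrand_cont hG hF hδ hr t α β).comp (continuous_const.prodMk continuous_id)
  rw [← integral_map (f := fun b => F (conc t α β a b) * gint δ r α β a b) hm.aemeasurable hc.aestronglyMeasurable, h]

end Pool.Agent.RMP
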