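import Pool.Agent.RMP.KDefs

/-!
# (RM), row K7 for pairs (helper6): the splittings of a marked word and their locality

`seg H a b` = the letters number `a, ..., b - 1`. `cT H a b` = the outer pair of the word `H` split at the vertices `a` and `b`
(frame `gE H`), `lx H` the last letter. For `a ≤ b`, `b + 1 ≤ |H|`, `H ∈ SA`:

* `jo_cT`: `jo (cT H a b) (seg H a b, u, lx H) = (H, a + u)`;
* `cT_sa`, `cT_sb`, `cT_fr`, `cT_av`: it is a pair; `cT_z`, `cT_d`: `zr`, `dr` are the exit vertex of `Q = seg H a b` and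
  minus the direction of `Q`; `cT_zd`;
* **`cT_unique`**: a pair `T0` with `jo T0 (Q, u, x) = K`, `en Q = zr T0 + dr T0`, `de Q = -dr T0` is `cT K.1 (K.2 - u) ..`;
* **`spl_iff`**: all splittings of `K`;
* **`spl_near`**: `Far T w K`, `Far T w K'`, `win T K = win T K'`: the outer pairs of the splittings with the same `Q`, `u` are
  near pairs; `spl_Q`: the same `Q`; **`spl_loc`**.
-/

set_option autoImplicit false

namespace HexObs

namespace RMP

open Finset TS SDN HexObs.SIM TIP ARM TIW

open ARM.G3 (rc nrm_rc rt_rc)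

/-- the letters number `a, ..., b - 1` -/
def seg (H : List Bool) (a b : ℕ) : List Bool := (H.take b).drop a

/-- **the outer pair** of the word `H` split at the vertices `a`, `b` -/
def cT (H : List Bool) (a b : ℕ) : PT := (H.take a, (gE H, rev ((H.drop b).dropLast)))

/-- the last letter -/
def lx (H : List Bool) : Bool := H.getLastD false

namespace SplL

/-! ### 1. lists -/

theorem seg_len {H : List Bool} {a b : ℕ} (hb : b ≤ H.length) : (seg H a b).length = b - a := by
  unfold seg
  rw [List.length_drop, List.length_take]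
  omega

theorem seg_sub {H : List Bool} {a b c d : ℕ} (h1 : c ≤ a) (h2 : a ≤ b) (h3 : b ≤ d) :
    seg H a b = ((seg H c d).take (b - c)).drop (a - c) := by
  unfold seg
  rw [List.take_drop, List.take_take, List.drop_drop]
  congr 2
  · omega
  · congr 1
    omega

theorem rev_append0 (s t : List Bool) : rev (s ++ t) = rev t ++ rev s := by
  unfold rev
  rw [List.map_append, List.reverse_append]

theorem rev_drop (L : List Bool) {t : ℕ} (ht : t ≤ L.length) : (rev L).drop (L.length - t) = rev (L.take t) := by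
  have h1 : rev L = rev (L.drop t) ++ rev (L.take t) := by
    rw [← rev_append0, List.take_append_drop]
  have h2 : (rev (L.drop t)).length = L.length - t := by
    rw [rev_length, List.length_drop]
  rw [h1, ← h2, List.drop_left]

theorem last_eq {L : List Bool} (h : 1 ≤ L.length) : L.dropLast ++ [lx L] = L := by
  have hne : L ≠ [] := by
    rintro rfl
    simp at h
  have e : lx L = L.getLast hne := by
    unfold lx
    rw [List.getLastD_eq_getLast?, List.getLast?_eq_some_getLast hne]
    rfl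
  rw [e, List.dropLast_append_getLast]

theorem lx_drop {H : List Bool} {b : ℕ} (hb : b + 1 ≤ H.length) : lx (H.drop b) = lx H := by
  unfold lx
  have hne : H.drop b ≠ [] := by
    intro h
    have := congrArg List.length h
    rw [List.length_drop, List.length_nil] at this
    omega
  rw [List.getLastD_eq_getLast?, List.getLastD_eq_getLast?, List.getLast?_drop, if_neg (by omega)]

theorem parts {H : List Bool} {a b : ℕ} (hab : a ≤ b) (hb : b + 1 ≤ H.length) :
    H.take a ++ (seg H a b ++ (rev (rev ((H.drop b).dropLast)) ++ [lx H])) = H := by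
  have hd : (H.drop b).length = H.length - b := List.length_drop
  rw [rev_rev, ← lx_drop hb, last_eq (by omega)]
  have e : H.take a ++ seg H a b = H.take b := by
    have h1 := List.take_append_drop a (H.take b)
    rw [List.take_take, min_eq_left hab] at h1
    exact h1
  rw [← List.append_assoc, e, List.take_append_drop]

theorem parts_of {A Q B : List Bool} {x : Bool} {H : List Bool} (h : H = A ++ (Q ++ (rev B ++ [x]))) :
    A.length + Q.length + 1 ≤ H.length ∧ H.take A.length = A ∧ seg H A.length (A.length + Q.length) = Q ∧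
      rev ((H.drop (A.length + Q.length)).dropLast) = B ∧ lx H = x := by
  have hl : H.length = A.length + (Q.length + (B.length + 1)) := by
    rw [h, List.length_append, List.length_append, List.length_append, rev_length]
    rfl
  have e1 : H = (A ++ Q) ++ (rev B ++ [x]) := by rw [h, List.append_assoc]
  have e2 : (A ++ Q).length = A.length + Q.length := List.length_append
  have e3 : H.drop (A.length + Q.length) = rev B ++ [x] := by
    rw [← e2, e1, List.drop_left]
  refine ⟨by omega, ?_, ?_, ?_, ?_⟩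
  · rw [h, List.take_left]
  · unfold seg
    rw [← e2, e1, List.take_left, List.drop_left]
  · rw [e3, List.dropLast_concat, rev_rev]
  · rw [← lx_drop (b := A.length + Q.length) (by omega), e3]
    unfold lx
    rw [List.getLastD_eq_getLast?, List.getLast?_append]
    rfl

/-! ### 2. the second word -/

variable {H : List Bool} {a b : ℕ}

theorem gE_dirs (H : List Bool) : (gE H).2 ∈ dirs :=
  mem_dirs.2 (nrm_rotTo upd' (neg_mem_dirs (dx_mem upd' H _)))

/-- the vertices of the backward word in the frame at the end -/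
theorem pv_gE0 (h : 1 ≤ H.length) {s : ℕ} (hs : s ≤ H.length) :
    pv (gE H) (rev H.dropLast) s = vx oo up H (H.length - s) := by
  obtain ⟨X, l, rfl⟩ : ∃ (X : List Bool) (l : Bool), H = X ++ [l] := ⟨H.dropLast, lx H, (last_eq h).symm⟩
  have hl : (X ++ [l]).length = X.length + 1 := by simp
  have h1 := vx_rev oo up X s (by omega)
  have h2 := vx_mulE (rotTo up (-(dx up X X.length))) oo (tip oo up X) up (rev X) s
  rw [rotTo_apply _ upd', h1, show vx oo up (rev X) s - oo = vx oo up (rev X) s from sub_zero _] at h2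
  have e1 : (gE (X ++ [l])).1 = tip oo up X := by
    show vx oo up (X ++ [l]) (X ++ [l]).length = tip oo up X
    rw [hl, vx_append (by omega)]
    rfl
  have e2 : (gE (X ++ [l])).2 = rotTo up (-(dx up X X.length)) := by
    show rotTo up (-(dx up (X ++ [l]) ((X ++ [l]).length - 1))) = _
    rw [hl, Nat.add_sub_cancel, dx_append le_rfl]
  rw [List.dropLast_concat, hl, vx_append (by omega), h2]
  unfold pv
  rw [e1, e2]

theorem len2 (hb : b + 1 ≤ H.length) : (cT H a b).2.2.length = H.length - b - 1 := by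
  show (rev ((H.drop b).dropLast)).length = _
  rw [rev_length, List.length_dropLast, List.length_drop]

/-- the second word is the beginning of the backward word -/
theorem pv_cT (hb : b + 1 ≤ H.length) {s : ℕ} (hs : s + b ≤ H.length) :
    pv (cT H a b).2.1 (cT H a b).2.2 s = vx oo up H (H.length - s) := by
  have hlen := len2 (a := a) hb
  rw [← pv_gE0 (by omega : 1 ≤ H.length) (by omega : s ≤ H.length)]
  have e1 : rev H.dropLast = (cT H a b).2.2 ++ rev (H.take b) := by
    show rev H.dropLast = rev ((H.drop b).dropLast) ++ rev (H.take b)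
    rw [← rev_append0]
    congr 1
    have hne : H.drop b ≠ [] := by
      intro h
      have := congrArg List.length h
      rw [List.length_drop, List.length_nil] at this
      omega
    rw [← List.dropLast_append_of_ne_nil hne, List.take_append_drop]
  rw [e1]
  unfold pv
  rw [vx_append (by omega)]
  rfl

theorem len1 (ha : a ≤ H.length) : (cT H a b).1.length = a := by
  show (H.take a).length = a
  rw [List.length_take]
  omega

theorem vx_cT (ha : a ≤ H.length) {i : ℕ} (hi : i ≤ a + 1) : vx oo up (cT H a b).1 i = vx oo up H i := by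
  have h1 : vx oo up H i = vx oo up (H.take a ++ H.drop a) i := by rw [List.take_append_drop]
  rw [h1, vx_append (by rw [List.length_take]; omega)]
  rfl

theorem en_cT (ha : a ≤ H.length) : en (cT H a b).1 = vx oo up H a := by
  unfold TIW.en
  rw [len1 ha, vx_cT ha (by omega)]

theorem vx_cT2 (hab : a ≤ b) (hb : b ≤ H.length) {i : ℕ} (hi : i ≤ (b - a) + 1) :
    vx oo up H (a + i) = en (cT H a b).1 + mulE (rt (cT H a b).1) (vx oo up (seg H a b) i) := by
  have e : H.take b = (cT H a b).1 ++ seg H a b := by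
    show H.take b = H.take a ++ seg H a b
    have h1 := List.take_append_drop a (H.take b)
    rw [List.take_take, min_eq_left hab] at h1
    exact h1.symm
  have h1 : vx oo up H (a + i) = vx oo up (H.take b ++ H.drop b) (a + i) := by rw [List.take_append_drop]
  rw [h1, vx_append (by rw [List.length_take]; omega), e]
  conv_lhs => rw [show a + i = (cT H a b).1.length + i by rw [len1 (by omega)]]
  exact TIW.vx_app _ _ _

theorem pe_cT (hb : b + 1 ≤ H.length) : pe (cT H a b).2.1 (cT H a b).2.2 = vx oo up H (b + 1) := by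
  unfold pe
  rw [pv_cT hb (by rw [len2 hb]; omega), len2 hb]
  congr 1
  omega

theorem pd_cT (hb : b + 1 ≤ H.length) :
    pe (cT H a b).2.1 (cT H a b).2.2 + pd (cT H a b).2.1 (cT H a b).2.2 = vx oo up H b := by
  have h1 := pv_cT (a := a) hb (s := (cT H a b).2.2.length + 1) (by rw [len2 hb]; omega)
  have e : H.length - ((cT H a b).2.2.length + 1) = b := by
    rw [len2 hb]
    omega
  rw [e] at h1
  rw [← h1]
  unfold pe pv pd
  have e2 : vx oo up (cT H a b).2.2 ((cT H a b).2.2.length + 1) =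
      vx oo up (cT H a b).2.2 (cT H a b).2.2.length + TIW.de (cT H a b).2.2 := rfl
  rw [e2, mulE_add]
  abel

end SplL

open SplL

variable {H : List Bool} {a b : ℕ}

/-! ### 3. the outer pair of a word -/

theorem jo_cT (hab : a ≤ b) (hb : b + 1 ≤ H.length) (u : ℕ) : jo (cT H a b) (seg H a b, u, lx H) = (H, a + u) := by
  unfold jo
  rw [len1 (by omega)]
  exact congrArg (fun L => (L, a + u)) (parts hab hb)

theorem cT_fr (hH : 1 ≤ H.length) : Fr (cT H a b).2.1 := by
  obtain ⟨n, hn⟩ : ∃ n, H.length = n + 1 := ⟨H.length - 1, by omega⟩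
  have hup : cl up = 2 := by decide
  have hoo : cl oo = 0 := by decide
  have e1 : cl (-(dx up H (H.length - 1))) = cl (gE H).2 * cl up := by
    rw [← cl_mulE]
    congr 1
    exact (rotTo_apply _ upd').symm
  have e2 : cl (dx up H n) = if Even n then cl up else - cl up := cl_dx up H n
  have e3 : cl (TIW.en H) = if Even H.length then cl oo else cl oo + cl up := cl_vx oo up H H.length
  rw [hn, Nat.add_sub_cancel, cl_neg, e2] at e1
  rw [hn] at e3
  refine ⟨gE_dirs H, ?_⟩
  show (cl (TIW.en H) = 0 ∧ cl (gE H).2 = 1) ∨ (cl (TIW.en H) = cl up ∧ cl (gE H).2 = -1)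
  rw [e3]
  generalize cl (gE H).2 = z at e1 ⊢
  by_cases he : Even n
  · right
    have h1 : ¬ Even (n + 1) := by
      rw [Nat.even_add_one, not_not]
      exact he
    rw [if_pos he, hup] at e1
    rw [if_neg h1, hoo, zero_add]
    refine ⟨rfl, ?_⟩
    revert e1
    revert z
    decide
  · left
    have h1 : Even (n + 1) := Nat.even_add_one.2 he
    rw [if_neg he, hup] at e1
    rw [if_pos h1, hoo]
    refine ⟨rfl, ?_⟩
    revert e1
    revert z
    decide

theorem cT_sa (hS : H ∈ SA) (ha : a ≤ H.length) : (cT H a b).1 ∈ SA := by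
  refine ⟨fun _ _ _ => Set.mem_univ _, fun i j hij hj he => ?_⟩
  rw [len1 ha] at hj
  rw [vx_cT ha (by omega), vx_cT ha (by omega)] at he
  exact hS.inj i j hij (by omega) he

theorem cT_sb (hS : H ∈ SA) (hb : b + 1 ≤ H.length) : (cT H a b).2.2 ∈ SA := by
  refine ⟨fun _ _ _ => Set.mem_univ _, fun i j hij hj he => ?_⟩
  rw [len2 hb] at hj
  have h1 : pv (cT H a b).2.1 (cT H a b).2.2 i = pv (cT H a b).2.1 (cT H a b).2.2 j := by
    unfold pv
    rw [he]
  rw [pv_cT hb (by omega), pv_cT hb (by omega)] at h1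
  exact hS.inj (H.length - j) (H.length - i) (by omega) (by omega) h1.symm

theorem cT_av (hS : H ∈ SA) (hab : a ≤ b) (hb : b + 1 ≤ H.length) :
    Av (ob (cT H a b).2.1 (cT H a b).2.2) (cT H a b).1 := by
  rintro i hi ⟨s, hs, he⟩
  rw [len1 (by omega)] at hi
  rw [len2 hb] at hs
  rw [vx_cT (by omega) (by omega), pv_cT hb (by omega)] at he
  exact hS.inj i (H.length - s) (by omega) (by omega) he

/-- the relative vertices -/
theorem cT_rl (i : ℕ) (hab : a ≤ b) (hb : b ≤ H.length) (hi : i ≤ (b - a) + 1) :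
    rl (cT H a b) (vx oo up H (a + i)) = vx oo up (seg H a b) i := by
  rw [vx_cT2 hab hb hi, rl_rt]

theorem cT_z (hab : a ≤ b) (hb : b + 1 ≤ H.length) : zr (cT H a b) = TIW.en (seg H a b) + TIW.de (seg H a b) := by
  unfold zr
  rw [pe_cT hb, show b + 1 = a + (b - a + 1) by omega, cT_rl _ hab (by omega) le_rfl]
  unfold TIW.en
  rw [seg_len (by omega)]
  show vx oo up (seg H a b) (b - a) + dx up (seg H a b) (b - a) = _
  unfold TIW.de
  rw [seg_len (by omega)]

theorem cT_zd (hab : a ≤ b) (hb : b + 1 ≤ H.length) : zr (cT H a b) + dr (cT H a b) = TIW.en (seg H a b) := by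
  have h1 : zr (cT H a b) + dr (cT H a b) = rl (cT H a b)
      (pe (cT H a b).2.1 (cT H a b).2.2 + pd (cT H a b).2.1 (cT H a b).2.2) := by
    unfold zr dr rl
    rw [← mulE_add]
    congr 1
    abel
  rw [h1, pd_cT hb]
  have h2 := cT_rl (b - a) hab (by omega : b ≤ H.length) (by omega)
  rw [show a + (b - a) = b by omega] at h2
  rw [h2]
  unfold TIW.en
  rw [seg_len (by omega)]

theorem cT_d (hab : a ≤ b) (hb : b + 1 ≤ H.length) : dr (cT H a b) = -TIW.de (seg H a b) := by
  have h1 := cT_z hab hb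
  have h2 := cT_zd hab hb
  rw [h1] at h2
  have : dr (cT H a b) = (TIW.en (seg H a b) + TIW.de (seg H a b) + dr (cT H a b)) -
      (TIW.en (seg H a b) + TIW.de (seg H a b)) := by abel
  rw [this, h2]
  abel

/-! ### 4. uniqueness -/

/-- **the frame is determined by the joined word** -/
theorem cT_unique {T0 : PT} {Q : List Bool} {x : Bool} (hH : H = T0.1 ++ (Q ++ (rev T0.2.2 ++ [x])))
    (hg : T0.2.1.2 ∈ dirs) (he : TIW.en Q = zr T0 + dr T0) (hd : TIW.de Q = -dr T0) :
    T0 = cT H T0.1.length (T0.1.length + Q.length) := by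
  obtain ⟨h1, h2, h3, h4, -⟩ := parts_of hH
  obtain ⟨a, ha⟩ : ∃ a, a = T0.1.length := ⟨_, rfl⟩
  obtain ⟨b, hb⟩ : ∃ b, b = T0.1.length + Q.length := ⟨_, rfl⟩
  rw [← ha] at h1 h2 h3 h4
  have hab : a ≤ b := by omega
  have hb1 : b + 1 ≤ H.length := by omega
  have hbq : a + Q.length = b := by omega
  rw [hbq] at h3 h4
  have c1 : (cT H a b).1 = T0.1 := h2
  have c2 : (cT H a b).2.2 = T0.2.2 := h4
  have d1 := cT_d hab hb1
  have d2 := cT_zd hab hb1
  rw [h3] at d1 d2
  -- the same rotation
  have r1 : mulE (rc T0.1) (pd T0.2.1 T0.2.2) = mulE (rc T0.1) (pd (cT H a b).2.1 (cT H a b).2.2) := by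
    have e1 : dr T0 = dr (cT H a b) := by
      rw [d1, hd, neg_neg]
    unfold dr at e1
    rw [c1] at e1
    exact e1
  have r2 := mulE_inj (nrm_rc T0.1) r1
  have r3 : mulE T0.2.1.2 (TIW.de T0.2.2) = mulE (cT H a b).2.1.2 (TIW.de T0.2.2) := by
    unfold pd at r2
    rw [c2] at r2
    exact r2
  have r4 : T0.2.1.2 = (cT H a b).2.1.2 := by
    rw [mulE_comm, mulE_comm (cT H a b).2.1.2] at r3
    exact mulE_inj (mem_dirs.1 (de_mem _)) r3
  -- the same start
  have s1 : rl T0 (pe T0.2.1 T0.2.2 + pd T0.2.1 T0.2.2) = TIW.en Q := by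
    rw [he]
    unfold zr dr rl
    rw [← mulE_add]
    congr 1
    abel
  have s2 : rl T0 (pe (cT H a b).2.1 (cT H a b).2.2 + pd (cT H a b).2.1 (cT H a b).2.2) = TIW.en Q := by
    rw [← d2]
    unfold zr dr rl
    rw [← mulE_add, c1]
    congr 1
    abel
  have s3 := CutI.rl_inj (s1.trans s2.symm)
  rw [r2] at s3
  have s4 := add_right_cancel s3
  have s5 : T0.2.1.1 = (cT H a b).2.1.1 := by
    unfold pe pv at s4
    rw [c2, r4] at s4
    exact add_right_cancel s4
  have fin : T0 = cT H a b := by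
    obtain ⟨A, ⟨⟨g1, g2⟩, B⟩⟩ := T0
    exact Prod.ext c1.symm (Prod.ext (Prod.ext s5 r4) c2.symm)
  rwa [hb, ha] at fin

/-- **all splittings of a marked word** -/
theorem spl_iff {T0 : PT} {Q : List Bool} {u : ℕ} {x : Bool} {K : List Bool × ℕ} (hg : T0.2.1.2 ∈ dirs)
    (he : TIW.en Q = zr T0 + dr T0) (hd : TIW.de Q = -dr T0) :
    jo T0 (Q, u, x) = K ↔ u ≤ K.2 ∧ K.2 - u + Q.length + 1 ≤ K.1.length ∧
      seg K.1 (K.2 - u) (K.2 - u + Q.length) = Q ∧ lx K.1 = x ∧ T0 = cT K.1 (K.2 - u) (K.2 - u + Q.length) := by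
  constructor
  · rintro rfl
    have h1 := parts_of (A := T0.1) (Q := Q) (B := T0.2.2) (x := x) rfl
    obtain ⟨p1, p2, p3, p4, p5⟩ := h1
    have e : T0.1.length + u - u = T0.1.length := Nat.add_sub_cancel _ _
    refine ⟨Nat.le_add_left _ _, ?_, ?_, p5, ?_⟩
    · show T0.1.length + u - u + Q.length + 1 ≤ (T0.1 ++ (Q ++ (rev T0.2.2 ++ [x]))).length
      rw [e]
      exact p1
    · show seg (T0.1 ++ (Q ++ (rev T0.2.2 ++ [x]))) (T0.1.length + u - u) (T0.1.length + u - u + Q.length) = Q
      rw [e]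
      exact p3
    · show T0 = cT (T0.1 ++ (Q ++ (rev T0.2.2 ++ [x]))) (T0.1.length + u - u) (T0.1.length + u - u + Q.length)
      rw [e]
      exact cT_unique rfl hg he hd
  · rintro ⟨h1, h2, h3, h4, h5⟩
    rw [h5, ← h4]
    have h6 := jo_cT (H := K.1) (a := K.2 - u) (b := K.2 - u + Q.length) (by omega) h2 u
    rw [h3, show K.2 - u + u = K.2 by omega] at h6
    exact h6

/-! ### 5. locality -/

variable {T w w' : ℕ} {K K' : List Bool × ℕ}

/-- the segments in the window -/
theorem seg_win (h : win T K = win T K') (h1 : T ≤ K.2) (h1' : T ≤ K'.2) {i j : ℕ} (hij : i ≤ j) (hj : j ≤ 2 * T) :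
    seg K.1 (K.2 - T + i) (K.2 - T + j) = seg K'.1 (K'.2 - T + i) (K'.2 - T + j) := by
  have e : ∀ K : List Bool × ℕ, T ≤ K.2 → seg K.1 (K.2 - T + i) (K.2 - T + j) = ((win T K).take j).drop i := by
    intro K hK
    have h2 := seg_sub (H := K.1) (a := K.2 - T + i) (b := K.2 - T + j) (c := K.2 - T) (d := K.2 + T) (by omega)
      (by omega) (by omega)
    rw [h2]
    unfold win seg
    rw [Nat.add_sub_cancel_left, Nat.add_sub_cancel_left]
  rw [e K h1, e K' h1', h]

/-- the same middle word -/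
theorem spl_Q (h : win T K = win T K') (hF : Far T w K) (hF' : Far T w K') {u q : ℕ} (hu : u ≤ q) (hq : q ≤ T) :
    seg K.1 (K.2 - u) (K.2 - u + q) = seg K'.1 (K'.2 - u) (K'.2 - u + q) := by
  have h1 := seg_win h hF.1 hF'.1 (i := T - u) (j := T - u + q) (by omega) (by omega)
  have := hF.1
  have := hF'.1
  rw [show K.2 - T + (T - u) = K.2 - u by omega, show K.2 - T + (T - u + q) = K.2 - u + q by omega,
    show K'.2 - T + (T - u) = K'.2 - u by omega, show K'.2 - T + (T - u + q) = K'.2 - u + q by omega] at h1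
  exact h1

/-- the vertices far from the mark are far from the tip -/
theorem spl_far {ρ : ℤ} (hF : Far T w K) {u q : ℕ} (hu : u ≤ q) (hq : q < T)
    (hρ : ∀ i, i ≤ q → hn (vx oo up (seg K.1 (K.2 - u) (K.2 - u + q)) i) ≤ ρ) (hw : 2 ^ w' + ρ ≤ (2 : ℤ) ^ w)
    {i : ℕ} (hi : i ≤ K.1.length) (h : i + T ≤ K.2 ∨ K.2 + T ≤ i) :
    2 ^ w' < hn (rl (cT K.1 (K.2 - u) (K.2 - u + q)) (vx oo up K.1 i)) := by
  obtain ⟨f1, f2, f3⟩ := hF
  have h1 := f3 i hi h
  have h2 := cT_rl (H := K.1) (a := K.2 - u) (b := K.2 - u + q) u (by omega) (by omega) (by omega)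
  have h3 := hρ u hu
  rw [← h2, show K.2 - u + u = K.2 by omega] at h3
  rw [CutI.hn_rl2 (cT K.1 (K.2 - u) (K.2 - u + q))] at h1
  have h4 := TIW.hn_sub (rl (cT K.1 (K.2 - u) (K.2 - u + q)) (vx oo up K.1 i))
    (rl (cT K.1 (K.2 - u) (K.2 - u + q)) (vx oo up K.1 K.2))
  linarith

/-- **the outer pairs are near pairs** -/
theorem spl_near {ρ : ℤ} (hS : K.1 ∈ SA) (hS' : K'.1 ∈ SA) (h : win T K = win T K') (hF : Far T w K)
    (hF' : Far T w K') {u q : ℕ} (hu : u ≤ q) (hq : q < T)
    (hρ : ∀ i, i ≤ q → hn (vx oo up (seg K.1 (K.2 - u) (K.2 - u + q)) i) ≤ ρ) (hw : 2 ^ w' + ρ ≤ (2 : ℤ) ^ w) :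
    NrP (T - u) (T - (q - u) - 1) w' (cT K.1 (K.2 - u) (K.2 - u + q)) (cT K'.1 (K'.2 - u) (K'.2 - u + q)) := by
  have f1 := hF.1
  have f2 := hF.2.1
  have f1' := hF'.1
  have f2' := hF'.2.1
  have hQ := spl_Q h hF hF' hu hq.le
  have hρ' : ∀ i, i ≤ q → hn (vx oo up (seg K'.1 (K'.2 - u) (K'.2 - u + q)) i) ≤ ρ := by
    rw [← hQ]
    exact hρ
  have dp1 : ∀ K : List Bool × ℕ, T ≤ K.2 → K.2 + T ≤ K.1.length →
      (cT K.1 (K.2 - u) (K.2 - u + q)).1.drop ((cT K.1 (K.2 - u) (K.2 - u + q)).1.length - (T - u)) =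
        seg K.1 (K.2 - T + 0) (K.2 - T + (T - u)) := by
    intro K h1 h2
    rw [len1 (by omega)]
    show (K.1.take (K.2 - u)).drop (K.2 - u - (T - u)) = (K.1.take (K.2 - T + (T - u))).drop (K.2 - T + 0)
    rw [show K.2 - u - (T - u) = K.2 - T + 0 by omega, show K.2 - T + (T - u) = K.2 - u by omega]
  have dp2 : ∀ K : List Bool × ℕ, T ≤ K.2 → K.2 + T ≤ K.1.length →
      (cT K.1 (K.2 - u) (K.2 - u + q)).2.2.drop ((cT K.1 (K.2 - u) (K.2 - u + q)).2.2.length - (T - (q - u) - 1)) =
        rev (seg K.1 (K.2 - T + (T - u + q)) (K.2 - T + (2 * T - 1))) := by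
    intro K h1 h2
    have hl : ((K.1.drop (K.2 - u + q)).dropLast).length = K.1.length - (K.2 - u + q) - 1 := by
      rw [List.length_dropLast, List.length_drop]
    have h3 := rev_drop ((K.1.drop (K.2 - u + q)).dropLast) (t := T - (q - u) - 1) (by omega)
    have h4 : (cT K.1 (K.2 - u) (K.2 - u + q)).2.2.length = ((K.1.drop (K.2 - u + q)).dropLast).length := by
      rw [hl, len2 (by omega)]
    rw [h4]
    refine h3.trans ?_
    congr 1
    rw [List.dropLast_eq_take, List.take_take, List.take_drop]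
    unfold seg
    rw [List.length_drop]
    have e1 : K.2 - u + q + min (T - (q - u) - 1) (K.1.length - (K.2 - u + q) - 1) = K.2 - T + (2 * T - 1) := by omega
    have e2 : K.2 - u + q = K.2 - T + (T - u + q) := by omega
    rw [e1, ← e2]
  refine ⟨cT_sa hS (by omega), cT_sb hS (by omega), cT_fr (by omega), cT_av hS (by omega) (by omega),
    cT_sa hS' (by omega), cT_sb hS' (by omega), cT_fr (by omega), cT_av hS' (by omega) (by omega), ?_, ?_, ?_, ?_, ?_, ?_,
    ?_, ?_, ?_, ?_, ?_, ?_⟩
  · rw [cT_z (by omega) (by omega), cT_z (by omega) (by omega), hQ]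
  · rw [cT_d (by omega) (by omega), cT_d (by omega) (by omega), hQ]
  · rw [len1 (by omega)]
    omega
  · rw [len2 (by omega)]
    omega
  · rw [len1 (by omega)]
    omega
  · rw [len2 (by omega)]
    omega
  · rw [dp1 K f1 f2, dp1 K' f1' f2']
    exact seg_win h f1 f1' (by omega) (by omega)
  · rw [dp2 K f1 f2, dp2 K' f1' f2']
    rw [seg_win h f1 f1' (i := T - u + q) (j := 2 * T - 1) (by omega) (by omega)]
  · intro i hi
    rw [len1 (by omega)] at hi
    rw [vx_cT (by omega) (by omega)]
    exact spl_far hF hu hq hρ hw (by omega) (Or.inl (by omega))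
  · intro i hi
    rw [len2 (by omega)] at hi
    rw [pv_cT (by omega) (by omega)]
    exact spl_far hF hu hq hρ hw (by omega) (Or.inr (by omega))
  · intro i hi
    rw [len1 (by omega)] at hi
    rw [vx_cT (by omega) (by omega)]
    exact spl_far hF' hu hq hρ' hw (by omega) (Or.inl (by omega))
  · intro i hi
    rw [len2 (by omega)] at hi
    rw [pv_cT (by omega) (by omega)]
    exact spl_far hF' hu hq hρ' hw (by omega) (Or.inr (by omega))

/-- **every splitting of `K` is a splitting of `K'`, with the same filling and a near outer pair** -/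
theorem spl_loc {ρ : ℤ} {T0 : PT} {Q : List Bool} {u : ℕ} {x : Bool} (hS : K.1 ∈ SA) (hS' : K'.1 ∈ SA)
    (h : win T K = win T K') (hF : Far T w K) (hF' : Far T w K') (hg : T0.2.1.2 ∈ dirs)
    (he : TIW.en Q = zr T0 + dr T0) (hd : TIW.de Q = -dr T0) (hj : jo T0 (Q, u, x) = K) (hu : u ≤ Q.length)
    (hQ : Q.length < T) (hρ : ∀ i, i ≤ Q.length → hn (vx oo up Q i) ≤ ρ) (hw : 2 ^ w' + ρ ≤ (2 : ℤ) ^ w) :
    jo (cT K'.1 (K'.2 - u) (K'.2 - u + Q.length)) (Q, u, lx K'.1) = K' ∧
      NrP (T - u) (T - (Q.length - u) - 1) w' T0 (cT K'.1 (K'.2 - u) (K'.2 - u + Q.length)) ∧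
      T0 = cT K.1 (K.2 - u) (K.2 - u + Q.length) ∧ seg K.1 (K.2 - u) (K.2 - u + Q.length) = Q := by
  obtain ⟨h1, h2, h3, -, h5⟩ := (spl_iff hg he hd).1 hj
  have f1' := hF'.1
  have f2' := hF'.2.1
  have hQ2 := spl_Q h hF hF' hu hQ.le
  rw [h3] at hQ2
  refine ⟨?_, ?_, h5, h3⟩
  · have h6 := jo_cT (H := K'.1) (a := K'.2 - u) (b := K'.2 - u + Q.length) (by omega) (by omega) u
    rw [← hQ2, show K'.2 - u + u = K'.2 by omega] at h6
    exact h6
  · have h7 := spl_near (w' := w') hS hS' h hF hF' hu hQ (ρ := ρ) (by rw [h3]; exact hρ) hw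
    rw [← h5] at h7
    exact h7

end RMP

end HexObs
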