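import Pool.Agent.RMP.LocN
import Pool.Agent.RMP.SplL

/-!
# RMP, locality for pairs (helper84): the density only depends on the window

`locD : LocD`.
-/

set_option autoImplicit false

namespace HexObs

namespace RMP

open Finset TS SDN HexObs.SIM NTA TIP ARM TIW MCP

open ARM.G3 (rc nrm_rc rt_rc)

open J5 CutI SplL

open scoped ENNReal

namespace LN

/-- the tube is in a ball of the size of the window -/
lemma tube_hn {e : ℕ → Pt} {D : ℤ} {k r w : ℕ} {z : Pt} {Q : List Bool} (he : ∀ i, i < r → e i ∈ dirs) (hD : 0 ≤ D)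
    (hw : 2 * (r + 1) * D + 2 ^ (k + 12) ≤ (2 : ℤ) ^ w) (hQ : TubeQ e D (2 ^ (k + 9)) r z Q) {i : ℕ} (hi : i ≤ Q.length) :
    TIW.hn (vx oo up Q i) ≤ 2 ^ w := by
  obtain ⟨j, hj, hn⟩ := hQ.rg i hi
  have h1 : AR.NS ((0 : Pt) + AR.pv e D j) (e j) D (2 ^ (k + 9)) (vx oo up Q i) := by
    rw [zero_add]
    exact hn
  have h0 : TIW.hn (0 : Pt) ≤ 2 ^ k := by
    have : TIW.hn (0 : Pt) = 0 := by decide
    rw [this]
    positivity
  have h2 := ns_pv_hn he hD h0 hj h1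
  have e1 : (2 : ℤ) ^ (k + 12) = 4096 * 2 ^ k := by ring
  have e2 : (2 : ℤ) ^ (k + 9) = 512 * 2 ^ k := by ring
  have h3 : (0 : ℤ) < 2 ^ k := by positivity
  linarith

/-- the end and the direction of a filling -/
lemma fil_ends {P : Par} {T : PT} {Q : List Bool} (hJ : Jbl P T) (hQ : Q ∈ Fil P T) :
    TIW.en Q = zr T + dr T ∧ TIW.de Q = -dr T := by
  refine ⟨hQ.1.en, ?_⟩
  have h1 : TIW.de Q = (pth P T).E ((pth P T).r - 1) := hQ.1.de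
  have h2 : pd T.2.1 T.2.2 = -(fE T (pth P T).E ((pth P T).r - 1)) := (pth_ok hJ).2.d1
  have h3 : dr T = -(pth P T).E ((pth P T).r - 1) := by
    unfold dr
    rw [h2]
    unfold fE
    rw [← mulE_neg, rc_rt]
  rw [h1, h3, neg_neg]

variable {P : Par} {T w : ℕ} {K K' : List Bool × ℕ}

/-- the decompositions which count -/
def SK (P : Par) (K : List Bool × ℕ) : Set (PT × (List Bool × ℕ × Bool)) :=
  {p | ((dat P).fil p.1 p.2 ∧ (dat P).cl p.1 p.2 = K) ∧ th P p.1 ≠ 0}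

lemma th_adm {T : PT} (h : th P T ≠ 0) : ∃ Y, Adm P T Y := by
  classical
  by_contra hc
  push Not at hc
  apply h
  show (dat P).th T = 0
  unfold Pool.Agent.NuG.Dat.th
  rw [ENNReal.tsum_eq_zero]
  intro Y
  exact if_neg fun x => hc Y x.1

lemma dd_sk (P : Par) (K : List Bool × ℕ) : DD P K = ∑' p : SK P K, th P (p : PT × (List Bool × ℕ × Bool)).1 /
    gF P (p : PT × (List Bool × ℕ × Bool)).1 := by
  classical
  show (dat P).DD K = _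
  unfold Pool.Agent.NuG.Dat.DD
  rw [_root_.tsum_subtype (SK P K) (fun p => th P p.1 / gF P p.1)]
  refine tsum_congr fun p => ?_
  by_cases h1 : (dat P).fil p.1 p.2 ∧ (dat P).cl p.1 p.2 = K
  · rw [if_pos h1]
    by_cases h2 : th P p.1 = 0
    · rw [Set.indicator_of_notMem fun x => x.2 h2]
      have e : (dat P).th p.1 = 0 := h2
      rw [e, ENNReal.zero_div]
    · rw [Set.indicator_of_mem (show p ∈ SK P K from ⟨h1, h2⟩)]
  · rw [if_neg h1, Set.indicator_of_notMem fun x => h1 x.1]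

/-- the data of a decomposition -/
lemma sk_data {p : PT × (List Bool × ℕ × Bool)} (hp : p ∈ SK P K) : Jbl P p.1 ∧ p.2.1 ∈ Fil P p.1 ∧ p.2.2.1 < p.2.1.length ∧
    p.2.2.1 ≤ K.2 ∧ seg K.1 (K.2 - p.2.2.1) (K.2 - p.2.2.1 + p.2.1.length) = p.2.1 ∧ lx K.1 = p.2.2.2 ∧
    p.1 = cT K.1 (K.2 - p.2.2.1) (K.2 - p.2.2.1 + p.2.1.length) := by
  obtain ⟨⟨⟨h1, h2⟩, h3⟩, h4⟩ := hp
  obtain ⟨Y, hY⟩ := th_adm h4
  have hJ : Jbl P p.1 := hY.2.2.1
  have hg : p.1.2.1.2 ∈ dirs := hY.1.2.2.1.1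
  obtain ⟨e1, e2⟩ := fil_ends hJ h1
  have h5 := (spl_iff (x := p.2.2.2) (u := p.2.2.1) (K := K) hg e1 e2).1 h3
  exact ⟨hJ, h1, h2, h5.1, h5.2.2.1, h5.2.2.2.1, h5.2.2.2.2⟩

/-- the image of a decomposition -/
def tr (K' : List Bool × ℕ) (p : PT × (List Bool × ℕ × Bool)) : PT × (List Bool × ℕ × Bool) :=
  (cT K'.1 (K'.2 - p.2.2.1) (K'.2 - p.2.2.1 + p.2.1.length), (p.2.1, p.2.2.1, lx K'.1))

lemma tr_ok (H : HS P) {w1 : ℕ} (hZ : LocZ P w1) (hA : 0 ≤ P.A) (hA1 : 0 ≤ P.A1) (hw : P.j + (w0L P + w1 + 4) ≤ w)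
    (hT : 4 * (P.A + P.A1) * ml P.j ≤ T) (hK : K.1 ∈ SA) (hK' : K'.1 ∈ SA) (hF : Far T w K) (hF' : Far T w K')
    (hW : win T K = win T K') {p : PT × (List Bool × ℕ × Bool)} (hp : p ∈ SK P K) :
    tr K' p ∈ SK P K' ∧ th P (tr K' p).1 = th P p.1 ∧ gF P (tr K' p).1 = gF P p.1 := by
  obtain ⟨hJ, hQ, hu, hu', hs, hx, hc⟩ := sk_data hp
  obtain ⟨⟨⟨-, -⟩, h3⟩, h4⟩ := id hp
  obtain ⟨τ, hτ⟩ : ∃ τ, τ = pth P p.1 := ⟨_, rfl⟩
  have hok := (pth_ok hJ).1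
  have hml : 0 ≤ ml P.j := by
    unfold ml
    positivity
  have hq1 : (1 : ℝ) ≤ p.2.1.length := by exact_mod_cast (by omega : 1 ≤ p.2.1.length)
  have hq : (p.2.1.length : ℝ) ≤ P.A * ml P.j := hQ.2.2.1
  have hA1m : 0 ≤ P.A1 * ml P.j := mul_nonneg hA1 hml
  have hT' : 4 * (P.A * ml P.j) + 4 * (P.A1 * ml P.j) ≤ T := by
    have : 4 * (P.A * ml P.j) + 4 * (P.A1 * ml P.j) = 4 * (P.A + P.A1) * ml P.j := by ring
    rw [this]
    exact hT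
  have hqT : p.2.1.length < T := by
    have : (p.2.1.length : ℝ) < T := by linarith
    exact_mod_cast this
  have hD0 : (0 : ℤ) ≤ (pth P p.1).D := le_trans (by positivity) hok.D1
  have hρ : ∀ i, i ≤ p.2.1.length → TIW.hn (vx oo up (seg K.1 (K.2 - p.2.2.1) (K.2 - p.2.2.1 + p.2.1.length)) i) ≤
      2 ^ (w - 1) := by
    intro i hi
    rw [hs]
    refine tube_hn (fun i hi => hok.ip.dir i hi) hD0 (w0P_le (j := P.j) hok.kj hok.D2 hok.rM ?_) hQ.1 hi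
    unfold w0L at hw
    omega
  have hpw : (2 : ℤ) ^ (w - 1) + 2 ^ (w - 1) ≤ 2 ^ w := by
    obtain ⟨v, rfl⟩ : ∃ v, w = v + 1 := ⟨w - 1, by omega⟩
    rw [Nat.add_sub_cancel, pow_succ]
    linarith
  have hN := spl_near hK hK' hW hF hF' hu.le hqT hρ hpw
  rw [← hc] at hN
  have hT1 : (P.A + P.A1) * ml P.j ≤ ((T - p.2.2.1 : ℕ) : ℝ) := by
    have h5 : ((T - p.2.2.1 : ℕ) : ℝ) = (T : ℝ) - p.2.2.1 := by
      rw [Nat.cast_sub (by omega)]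
    have h6 : (p.2.2.1 : ℝ) ≤ p.2.1.length := by exact_mod_cast hu.le
    rw [h5, add_mul]
    linarith
  have hT2 : (P.A + P.A1) * ml P.j ≤ ((T - (p.2.1.length - p.2.2.1) - 1 : ℕ) : ℝ) := by
    have h5 : (T : ℝ) - p.2.1.length - 1 ≤ ((T - (p.2.1.length - p.2.2.1) - 1 : ℕ) : ℝ) := by
      have h6 : T ≤ (T - (p.2.1.length - p.2.2.1) - 1) + p.2.1.length + 1 := by omega
      have h7 : (T : ℝ) ≤ ((T - (p.2.1.length - p.2.2.1) - 1 : ℕ) : ℝ) + p.2.1.length + 1 := by exact_mod_cast h6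
      linarith
    refine le_trans ?_ h5
    rw [add_mul]
    linarith
  have hw2 : P.j + w0L P + 2 ≤ w - 1 := by omega
  have e1 := th_loc H hZ hA hw2 (by omega) hN hT1 hT2
  have e2 := gF_loc (P := P) (by omega) hN
  have e3 := fil_loc (P := P) (by omega) hN
  have hF1 := hF'.1
  have hF2 := hF'.2.1
  have hQ' := spl_Q hW hF hF' hu.le hqT.le
  rw [hs] at hQ'
  refine ⟨⟨⟨⟨?_, hu⟩, ?_⟩, ?_⟩, e1.symm, e2.symm⟩
  · show p.2.1 ∈ Fil P (cT K'.1 (K'.2 - p.2.2.1) (K'.2 - p.2.2.1 + p.2.1.length))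
    rw [← e3]
    exact hQ
  · have h6 := jo_cT (H := K'.1) (a := K'.2 - p.2.2.1) (b := K'.2 - p.2.2.1 + p.2.1.length) (by omega) (by omega) p.2.2.1
    rw [← hQ'] at h6
    have e5 : K'.2 - p.2.2.1 + p.2.2.1 = K'.2 := by omega
    rw [e5] at h6
    exact h6
  · show th P (cT K'.1 (K'.2 - p.2.2.1) (K'.2 - p.2.2.1 + p.2.1.length)) ≠ 0
    rw [← e1]
    exact h4

theorem dd_le (H : HS P) {w1 : ℕ} (hZ : LocZ P w1) (hA : 0 ≤ P.A) (hA1 : 0 ≤ P.A1) (hw : P.j + (w0L P + w1 + 4) ≤ w)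
    (hT : 4 * (P.A + P.A1) * ml P.j ≤ T) (hK : K.1 ∈ SA) (hK' : K'.1 ∈ SA) (hF : Far T w K) (hF' : Far T w K')
    (hW : win T K = win T K') : DD P K ≤ DD P K' := by
  have key := fun p hp => tr_ok (p := p) H hZ hA hA1 hw hT hK hK' hF hF' hW hp
  obtain ⟨f, hf⟩ : ∃ f : SK P K → SK P K', f = fun p => ⟨tr K' p.1, (key p.1 p.2).1⟩ := ⟨_, rfl⟩
  have hinj : Function.Injective f := by
    intro a b hab
    rw [hf] at hab
    have h1 : tr K' a.1 = tr K' b.1 := Subtype.mk.inj hab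
    obtain ⟨-, h2⟩ := Prod.mk.inj h1
    obtain ⟨h3, h4⟩ := Prod.mk.inj h2
    obtain ⟨h5, -⟩ := Prod.mk.inj h4
    obtain ⟨-, -, -, -, -, a6, a7⟩ := sk_data a.2
    obtain ⟨-, -, -, -, -, b6, b7⟩ := sk_data b.2
    refine Subtype.ext (Prod.ext ?_ (Prod.ext h3 (Prod.ext h5 ?_)))
    · rw [a7, b7, h3, h5]
    · rw [← a6, ← b6]
  rw [dd_sk, dd_sk]
  refine le_trans (le_of_eq ?_) (ENNReal.tsum_comp_le_tsum_of_injective hinj _)
  refine tsum_congr fun p => ?_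
  rw [hf]
  show th P p.1.1 / gF P p.1.1 = th P (tr K' p.1).1 / gF P (tr K' p.1).1
  rw [(key p.1 p.2).2.1, (key p.1 p.2).2.2]

end LN

/-- **the density is local** -/
theorem locD : LocD := by
  intro H Mx m w1
  refine ⟨m + 5 + w0P H Mx + w1 + 4, fun P hH hM hm hZ hS hj hA hA1 T w hw hT K K' hK hK' hF hF' hW => ?_⟩
  have hw' : P.j + (LN.w0L P + w1 + 4) ≤ w := by
    unfold LN.w0L
    rw [hH, hM, hm]
    omega
  exact (LN.dd_le ⟨hS, hj⟩ hZ hA hA1 hw' hT hK hK' hF hF' hW).antisymm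
    (LN.dd_le ⟨hS, hj⟩ hZ hA hA1 hw' hT hK' hK hF' hF hW.symm)

end RMP

end HexObs
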