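import Pool.Agent.RMP.PubW
import Pool.Agent.RMP.PubO

/-!
# The renormalisation map, public part 3 (helper83): **`rmPub_of : RMW → RMPub`**
-/

set_option autoImplicit false

namespace Pool.Agent.RMP

open Finset MeasureTheory Filter Topology

open HexObs hiding pos curve

open HexObs.TOG HexObs.OneS HexObs.SDN HexObs.TS HexObs.TIW HexObs.MCP HexObs.RMP

open Pool.Agent.NTS.Res

open Pool.Agent.TSW.BP (cr cr_norm)

open NTSF NTSF.Mg

open NTF (sw JJ)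

open scoped Classical ENNReal

/-- the two forms of the curve of a pair -/
lemma wcv_gTw (n : ℕ) (r : Fin 3) (T : PT) : W.wcv n r T = gTw (cr r) n T := by
  obtain ⟨A, g, B⟩ := T
  ext u
  show ∑ k ∈ Finset.range (A.length + B.length + 1),
      ((max 0 (min 1 ((u : ℝ) * ((A.length + B.length + 1 : ℕ) : ℝ) - k)) : ℝ) : ℂ) *
        ((W.gl A.length B.length (fun i => om ^ (r : ℕ) * JJ (vx oo up A i)) (fun j => om ^ (r : ℕ) * JJ (pv g B j)) (k + 1) -
          W.gl A.length B.length (fun i => om ^ (r : ℕ) * JJ (vx oo up A i)) (fun j => om ^ (r : ℕ) * JJ (pv g B j)) k) /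
            size n) =
    ((size n)⁻¹ : ℝ) • (yT (cr r) (A, (g, B)) 0 + ∑ k ∈ Finset.range (A.length + B.length + 1),
      ((max 0 (min 1 ((u : ℝ) * ((A.length + B.length + 1 : ℕ) : ℝ) - k)) : ℝ) : ℂ) *
        (yT (cr r) (A, (g, B)) (k + 1) - yT (cr r) (A, (g, B)) k))
  have h0 : yT (cr r) (A, (g, B)) 0 = 0 := by
    unfold yT
    rw [if_pos (Nat.zero_le _)]
    exact cz_zero _ _
  have h1 : ∀ k, W.gl A.length B.length (fun i => om ^ (r : ℕ) * JJ (vx oo up A i)) (fun j => om ^ (r : ℕ) * JJ (pv g B j)) k =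
      yT (cr r) (A, (g, B)) k := fun k => rfl
  rw [h0, zero_add, Complex.real_smul, mul_sum]
  refine sum_congr rfl fun k _ => ?_
  rw [h1, h1]
  push_cast
  ring

/-- **the public form from the form in words** -/
theorem rmPub_of (hW : RMW) : RMPub := by
  intro ε0 hε0
  obtain ⟨c0, C0, hc0, hsz⟩ := (NTSF.conclE_false NTSF.finE).1
  -- constants
  obtain ⟨ε, hε⟩ : ∃ ε, ε = min (ε0 / 32) (1 / 4) := ⟨_, rfl⟩
  have e0 : 0 < ε := by
    rw [hε]
    exact lt_min (by positivity) (by norm_num)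
  have e1 : ε ≤ 1 / 4 := by
    rw [hε]
    exact min_le_right _ _
  have e2 : 32 * ε ≤ ε0 := by
    have : ε ≤ ε0 / 32 := by
      rw [hε]
      exact min_le_left _ _
    linarith
  obtain ⟨d1, hd1, k0, hP⟩ := W.psum_gpF e0
  obtain ⟨d2, hd2, n1, hE⟩ := Eu_own e0
  refine ⟨min (min d1 d2) (1 / 2), lt_min (lt_min hd1 hd2) (by norm_num), fun d hd hdd => ?_⟩
  have hdd1 : d ≤ d1 := hdd.trans ((min_le_left _ _).trans (min_le_left _ _))
  have hdd2 : d ≤ d2 := hdd.trans ((min_le_left _ _).trans (min_le_right _ _))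
  have hddh : d ≤ 1 / 2 := hdd.trans (min_le_right _ _)
  obtain ⟨τ, hτ, hW1⟩ := hW ε d e0 hd (by linarith)
  have hcC : c0 ≤ C0 := by
    have h1 := hsz 1 le_rfl
    rw [Nat.cast_one, Real.one_rpow, mul_one, mul_one] at h1
    exact h1.1.trans h1.2
  have hC0 : 0 < C0 := hc0.trans_le hcC
  obtain ⟨η, hη⟩ : ∃ η, η = ε / 32 * (c0 / (2 * C0)) := ⟨_, rfl⟩
  have hη0 : 0 < η := by
    rw [hη]
    positivity
  obtain ⟨δ, hδ, hO⟩ := osc_small hη0 hτ
  obtain ⟨ρ, hρ⟩ : ∃ ρ, ρ = min (δ / 8) (ε / 32 * c0) := ⟨_, rfl⟩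
  have hρ0 : 0 < ρ := by
    rw [hρ]
    exact lt_min (by positivity) (by positivity)
  have hρ1 : ρ ≤ δ / 8 := by
    rw [hρ]
    exact min_le_left _ _
  have hρ2 : ρ ≤ ε / 32 * c0 := by
    rw [hρ]
    exact min_le_right _ _
  obtain ⟨r0, hr0, hW2⟩ := hW1 ρ hρ0
  refine ⟨r0, hr0, fun r hr hrr => ?_⟩
  obtain ⟨n2, hW3⟩ := hW2 r hr hrr
  obtain ⟨n3, hn3⟩ := exists_nat_ge (k0 / ε0)
  obtain ⟨n4, hn4⟩ := exists_nat_ge (16 / δ)
  refine ⟨max (max n1 n2) (max n3 (max n4 2)), fun n k hnn hk1 hk2 => ?_⟩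
  have g1 : n1 ≤ n := ((le_max_left _ _).trans (le_max_left _ _)).trans hnn
  have g2 : n2 ≤ n := ((le_max_right _ _).trans (le_max_left _ _)).trans hnn
  have g3 : n3 ≤ n := ((le_max_left _ _).trans (le_max_right _ _)).trans hnn
  have g4 : n4 ≤ n := ((le_max_left _ _).trans ((le_max_right _ _).trans (le_max_right _ _))).trans hnn
  have g5 : 2 ≤ n := ((le_max_right _ _).trans ((le_max_right _ _).trans (le_max_right _ _))).trans hnn
  have hn0 : (0 : ℝ) < n := by exact_mod_cast (by omega : 0 < n)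
  have hn1 : 1 ≤ n := by omega
  have h3 : (k0 : ℝ) ≤ ε0 * n := by
    have : (k0 / ε0 : ℝ) ≤ n := hn3.trans (by exact_mod_cast g3)
    rw [div_le_iff₀ hε0] at this
    linarith
  have h4 : 16 ≤ δ * n := by
    have : (16 / δ : ℝ) ≤ n := hn4.trans (by exact_mod_cast g4)
    rw [div_le_iff₀ hδ] at this
    linarith
  have hk0 : k0 ≤ k := by
    have : (k0 : ℝ) ≤ k := h3.trans hk1
    exact_mod_cast this
  have hk0' : k + k0 ≤ n := by
    have : ((k + k0 : ℕ) : ℝ) ≤ n := by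
      push_cast
      linarith
    exact_mod_cast this
  have hεn : ε * n ≤ ε0 * n := mul_le_mul_of_nonneg_right (by linarith) hn0.le
  -- the set of the differences
  obtain ⟨R, hR⟩ : ∃ R : ℝ, R = r * (n : ℝ) ^ (3 / 4 : ℝ) := ⟨_, rfl⟩
  have hR0 : 0 < R := by
    rw [hR]
    positivity
  have s1 : ∀ p : Pt, (hn p : ℝ) ≤ r * (n : ℝ) ^ (3 / 4 : ℝ) → p ∈ W.SR R := fun p hp => by
    rw [← hR] at hp
    exact (NTSF.Mg.JJ_le_hn p).trans hp
  have s2 : ∀ p ∈ W.SR R, (hn p : ℝ) ≤ 4 * r * (n : ℝ) ^ (3 / 4 : ℝ) := fun p hp => by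
    have h5 : ‖JJ p‖ ≤ R := hp
    have h6 := hn_le_JJ p
    have e : 4 * r * (n : ℝ) ^ (3 / 4 : ℝ) = 4 * R := by
      rw [hR]
      ring
    rw [e]
    linarith
  have s3 : ∀ v p : Pt, nrm v = 1 → p ∈ W.SR R → mulE v p ∈ W.SR R := fun v p hv hp => by
    show ‖JJ (mulE v p)‖ ≤ R
    rw [JJ_mulE_norm hv]
    exact hp
  obtain ⟨q1, q2, u, u0, u1, u2, hW4⟩ := hW3 n k g2 (hεn.trans hk1) (by linarith) (W.SR R) s1 s2 s3
  obtain ⟨Z, hZ⟩ : ∃ Z, Z = (gp (PR n k d (W.SR R))).toReal := ⟨_, rfl⟩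
  have hZ0 : 0 < Z := by
    rw [hZ]
    exact ENNReal.toReal_pos q1 q2
  rw [← hR]
  -- the modulus
  obtain ⟨h0, hh0⟩ : ∃ h0 : ℕ, h0 = ⌈2 * (ρ * n) + 2⌉₊ := ⟨_, rfl⟩
  have hh1 : 2 * (ρ * n) + 2 ≤ h0 := by
    rw [hh0]
    exact Nat.le_ceil _
  have hh2 : (h0 : ℝ) ≤ δ * (n / 2) := by
    have h5 : (h0 : ℝ) ≤ 2 * (ρ * n) + 2 + 1 := by
      rw [hh0]
      exact (Nat.ceil_lt_add_one (by positivity)).le
    have h6 : ρ * n ≤ δ / 8 * n := mul_le_mul_of_nonneg_right hρ1 hn0.le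
    linarith
  obtain ⟨Bd, hBd⟩ : ∃ Bd : Set (List Bool), Bd = {t | ε / 32 * size n < osd h0 t} := ⟨_, rfl⟩
  have sn := size_pos hn1
  have szn := (hsz n hn1).1
  have hbad : ∀ i : ℕ, (1 - d) * n ≤ i → (i : ℝ) ≤ (1 + 2 * d) * n → Eu i (fun t => if t ∈ Bd then 1 else 0) ≤ τ := by
    intro i hi1 hi2
    have c1 : (n : ℝ) / 2 ≤ i := by nlinarith
    have c2 : (i : ℝ) ≤ 2 * n := by nlinarith
    have c3 : 1 ≤ i := by
      have : ((2 : ℕ) : ℝ) ≤ n := by exact_mod_cast g5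
      have h5 : ((1 : ℕ) : ℝ) ≤ i := by
        push_cast at this ⊢
        linarith
      exact_mod_cast h5
    have c4 : (h0 : ℝ) ≤ δ * i := by
      have := mul_le_mul_of_nonneg_left c1 hδ.le
      linarith
    refine (Eu_mono fun t _ => ?_).trans (hO i h0 c3 c4)
    have hsi : η * size i ≤ ε / 32 * size n := by
      have h5 := (hsz i c3).2
      have h6 : (i : ℝ) ^ (3 / 4 : ℝ) ≤ 2 * (n : ℝ) ^ (3 / 4 : ℝ) := by
        calc (i : ℝ) ^ (3 / 4 : ℝ) ≤ (2 * n : ℝ) ^ (3 / 4 : ℝ) := Real.rpow_le_rpow (Nat.cast_nonneg _) c2 (by norm_num)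
          _ = (2 : ℝ) ^ (3 / 4 : ℝ) * (n : ℝ) ^ (3 / 4 : ℝ) := Real.mul_rpow (by norm_num) hn0.le
          _ ≤ 2 * (n : ℝ) ^ (3 / 4 : ℝ) := by
              refine mul_le_mul_of_nonneg_right ?_ (by positivity)
              calc (2 : ℝ) ^ (3 / 4 : ℝ) ≤ (2 : ℝ) ^ (1 : ℝ) :=
                    Real.rpow_le_rpow_of_exponent_le (by norm_num) (by norm_num)
                _ = 2 := Real.rpow_one _
      have h7 : size i ≤ C0 * (2 * (n : ℝ) ^ (3 / 4 : ℝ)) := h5.trans (mul_le_mul_of_nonneg_left h6 hC0.le)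
      have h8 : η * size i ≤ η * (C0 * (2 * (n : ℝ) ^ (3 / 4 : ℝ))) := mul_le_mul_of_nonneg_left h7 hη0.le
      have h9 : η * (C0 * (2 * (n : ℝ) ^ (3 / 4 : ℝ))) = ε / 32 * (c0 * (n : ℝ) ^ (3 / 4 : ℝ)) := by
        rw [hη]
        field_simp
      have h10 : ε / 32 * (c0 * (n : ℝ) ^ (3 / 4 : ℝ)) ≤ ε / 32 * size n := mul_le_mul_of_nonneg_left szn (by positivity)
      linarith
    by_cases h5 : t ∈ Bd
    · have h6 : ε / 32 * size n < osd h0 t := by
        rw [hBd] at h5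
        exact h5
      rw [if_pos h5, if_pos (hsi.trans_lt h6)]
    · rw [if_neg h5]
      split_ifs
      · exact zero_le_one
      · exact le_rfl
  -- one function
  have key : ∀ f : C(unitInterval, ℂ) → ℝ, (∀ γ, 0 ≤ f γ ∧ f γ ≤ 1) → LipschitzWith 1 f →
      |∑ a : Fin 3, (gpF (fun T => f (W.wcv n a T)) (PR n k d (W.SR R))).toReal - Z * (3 * ∫ γ, f γ ∂(law n))| ≤ 6 * ε * Z := by
    intro f hf hL
    have h5 : ∀ a : Fin 3, |(gpF (fun T => f (W.wcv n a T)) (PR n k d (W.SR R))).toReal -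
        Z * ∑ i ∈ range (4 * n), u i * Eu i (fun t => f (own (cr a) n t))| ≤ ε * Z := by
      intro a
      rw [hZ]
      refine hW4 (fun T => f (W.wcv n a T)) (fun t => f (own (cr a) n t)) Bd (fun T => (hf _).1) (fun T => (hf _).2)
        (fun t => (hf _).1) (fun t => (hf _).2) hbad fun T H _ _ hTH hB => ?_
      rw [wcv_gTw]
      have h6 := hL.dist_le_mul (gTw (cr a) n T) (own (cr a) n H)
      rw [Real.dist_eq, NNReal.coe_one, one_mul] at h6
      refine h6.trans ((lnk_close (cr_norm a) hρ0 hTH hh1).trans ?_)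
      have h7 : osd h0 H ≤ ε / 32 * size n := by
        rw [hBd] at hB
        exact not_lt.1 hB
      have h8 : ρ * (n : ℝ) ^ (3 / 4 : ℝ) ≤ ε / 32 * size n := by
        calc ρ * (n : ℝ) ^ (3 / 4 : ℝ) ≤ ε / 32 * c0 * (n : ℝ) ^ (3 / 4 : ℝ) :=
              mul_le_mul_of_nonneg_right hρ2 (by positivity)
          _ = ε / 32 * (c0 * (n : ℝ) ^ (3 / 4 : ℝ)) := by ring
          _ ≤ ε / 32 * size n := mul_le_mul_of_nonneg_left szn (by positivity)
      rw [div_le_iff₀ sn]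
      linarith
    -- the sum over the rotations
    have h6 : |∑ i ∈ range (4 * n), u i * ((∑ a : Fin 3, Eu i (fun t => f (own (cr a) n t))) / 3) - ∫ γ, f γ ∂(law n)| ≤ ε := by
      have h7 : ∑ i ∈ range (4 * n), u i * ((∑ a : Fin 3, Eu i (fun t => f (own (cr a) n t))) / 3) - ∫ γ, f γ ∂(law n) =
          ∑ i ∈ range (4 * n), u i * ((∑ a : Fin 3, Eu i (fun t => f (own (cr a) n t))) / 3 - ∫ γ, f γ ∂(law n)) := by
        simp only [mul_sub]
        rw [sum_sub_distrib, ← sum_mul, u2, one_mul]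
      rw [h7]
      refine (abs_sum_le_sum_abs _ _).trans ?_
      have h8 : ∀ i ∈ range (4 * n), |u i * ((∑ a : Fin 3, Eu i (fun t => f (own (cr a) n t))) / 3 - ∫ γ, f γ ∂(law n))| ≤
          u i * ε := by
        intro i _
        rw [abs_mul, abs_of_nonneg (u0 i)]
        by_cases h9 : u i = 0
        · rw [h9, zero_mul, zero_mul]
        · obtain ⟨v1, v2⟩ := u1 i h9
          have w1 : (1 - d2) * n ≤ i := le_trans (mul_le_mul_of_nonneg_right (by linarith) hn0.le) v1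
          have w2 : (i : ℝ) ≤ (1 + 2 * d2) * n := v2.trans (mul_le_mul_of_nonneg_right (by linarith) hn0.le)
          exact mul_le_mul_of_nonneg_left (hE n i g1 w1 w2 f (fun γ => abs_le.2 ⟨by linarith [(hf γ).1], (hf γ).2⟩) hL) (u0 i)
      refine (sum_le_sum h8).trans ?_
      rw [← sum_mul, u2, one_mul]
    have h7 : ∑ a : Fin 3, (∑ i ∈ range (4 * n), u i * Eu i (fun t => f (own (cr a) n t))) =
        3 * ∑ i ∈ range (4 * n), u i * ((∑ a : Fin 3, Eu i (fun t => f (own (cr a) n t))) / 3) := by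
      rw [sum_comm, mul_sum]
      refine sum_congr rfl fun i _ => ?_
      rw [← mul_sum]
      ring
    obtain ⟨x0, hx0⟩ : ∃ x : Fin 3 → ℝ, x = fun a => (gpF (fun T => f (W.wcv n a T)) (PR n k d (W.SR R))).toReal := ⟨_, rfl⟩
    obtain ⟨y0, hy0⟩ : ∃ y : Fin 3 → ℝ, y = fun a => ∑ i ∈ range (4 * n), u i * Eu i (fun t => f (own (cr a) n t)) := ⟨_, rfl⟩
    have h8 : ∀ a, |x0 a - Z * y0 a| ≤ ε * Z := fun a => by
      rw [hx0, hy0]
      exact h5 a
    have h9 : ∑ a : Fin 3, y0 a = 3 * ∑ i ∈ range (4 * n), u i * ((∑ a : Fin 3, Eu i (fun t => f (own (cr a) n t))) / 3) := by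
      rw [hy0]
      exact h7
    have h10 : ∑ a : Fin 3, (gpF (fun T => f (W.wcv n a T)) (PR n k d (W.SR R))).toReal = ∑ a : Fin 3, x0 a := by
      rw [hx0]
    rw [h10]
    rw [Fin.sum_univ_three] at h9 ⊢
    have a0 := abs_le.1 (h8 0)
    have a1 := abs_le.1 (h8 1)
    have a2 := abs_le.1 (h8 2)
    have a3 := abs_le.1 h6
    have b1 := mul_le_mul_of_nonneg_left a3.1 hZ0.le
    have b2 := mul_le_mul_of_nonneg_left a3.2 hZ0.le
    have b3 : Z * (y0 0 + y0 1 + y0 2) =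
        Z * (3 * ∑ i ∈ range (4 * n), u i * ((∑ a : Fin 3, Eu i (fun t => f (own (cr a) n t))) / 3)) := by rw [h9]
    rw [mul_add, mul_add] at b3
    rw [abs_le]
    constructor <;> linarith [a0.1, a0.2, a1.1, a1.2, a2.1, a2.2]
  have key1 := key (fun _ => 1) (fun _ => ⟨zero_le_one, le_rfl⟩) (by
    intro x y
    simp)
  have p1 := hP d hd.le hdd1 n k hk0 hk0' R (fun _ => 1) (fun _ => zero_le_one) (fun _ => le_rfl)
  have hint : ∫ γ, (1 : ℝ) ∂(law n) = 1 := by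
    have := law_prob n
    rw [integral_const, probReal_univ, one_smul]
  rw [hint] at key1
  obtain ⟨X1, hX1⟩ : ∃ X, X = ∑ r : Fin 3, (gpF (fun T => (fun _ : C(unitInterval, ℂ) => (1 : ℝ)) (W.wcv n r T))
    (PR n k d (W.SR R))).toReal := ⟨_, rfl⟩
  rw [← hX1] at key1 p1
  have hth := W.th_pos n k
  obtain ⟨θ, hθ⟩ : ∃ θ, θ = W.th n k := ⟨_, rfl⟩
  rw [← hθ] at p1 hth
  have x1 := abs_le.1 key1
  have x2 := abs_le.1 p1
  have eZ : ε * Z ≤ 1 / 4 * Z := mul_le_mul_of_nonneg_right e1 hZ0.le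
  have hX1l : 3 / 2 * Z ≤ X1 := by linarith [x1.1]
  have hX1u : X1 ≤ 9 / 2 * Z := by linarith [x1.2]
  have hX10 : 0 < X1 := by linarith
  have hps : (1 - ε) * (θ * X1) ≤ psum n k d R fun _ => 1 := by linarith [x2.1]
  have hpos : 0 < psum n k d R fun _ => 1 := lt_of_lt_of_le (mul_pos (by linarith) (mul_pos hth hX10)) hps
  refine ⟨hpos, fun f hf hL => ?_⟩
  have keyf := key f hf hL
  have pf := hP d hd.le hdd1 n k hk0 hk0' R f (fun γ => (hf γ).1) (fun γ => (hf γ).2)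
  obtain ⟨Xf, hXf⟩ : ∃ X, X = ∑ r : Fin 3, (gpF (fun T => f (W.wcv n r T)) (PR n k d (W.SR R))).toReal := ⟨_, rfl⟩
  rw [← hXf] at keyf pf
  rw [← hθ] at pf
  obtain ⟨I, hI⟩ : ∃ I, I = ∫ γ, f γ ∂(law n) := ⟨_, rfl⟩
  rw [← hI] at keyf ⊢
  have hI0 : 0 ≤ I := by
    rw [hI]
    exact integral_nonneg fun γ => (hf γ).1
  have hI1 : I ≤ 1 := by
    have hp := law_prob n
    rw [hI, integral_law]
    refine div_le_one_of_le₀ ?_ (Nat.cast_nonneg _)
    calc ∑ s ∈ saw n, f (curve s) ≤ ∑ s ∈ saw n, (1 : ℝ) := sum_le_sum fun s _ => (hf _).2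
      _ = ((saw n).card : ℝ) := by rw [sum_const, nsmul_eq_mul, mul_one]
  have hXf0 : 0 ≤ Xf := by
    rw [hXf]
    exact sum_nonneg fun _ _ => ENNReal.toReal_nonneg
  have y1 := abs_le.1 keyf
  have y2 := abs_le.1 pf
  obtain ⟨P1, hP1⟩ : ∃ P, P = psum n k d R fun _ => 1 := ⟨_, rfl⟩
  obtain ⟨Pf, hPf⟩ : ∃ P, P = psum n k d R f := ⟨_, rfl⟩
  rw [← hP1] at p1 x2 hps hpos ⊢
  rw [← hPf] at pf y2 ⊢
  have hXfu : Xf ≤ 9 / 2 * Z := by
    have := mul_le_mul_of_nonneg_left hI1 hZ0.le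
    linarith [y1.2]
  -- |Pf - I P1| ≤ ε0 P1
  have f1 : |Pf - I * P1| ≤ θ * (ε * Xf + ε * X1 + 12 * ε * Z) := by
    have m1 : |Xf - I * X1| ≤ 12 * ε * Z := by
      have : Xf - I * X1 = (Xf - Z * (3 * I)) - I * (X1 - Z * (3 * 1)) := by ring
      rw [this]
      refine (abs_sub _ _).trans ?_
      rw [abs_mul, abs_of_nonneg hI0]
      have t1 : I * |X1 - Z * (3 * 1)| ≤ 1 * (6 * ε * Z) := mul_le_mul hI1 key1 (abs_nonneg _) zero_le_one
      linarith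
    have m2 : Pf - I * P1 = (Pf - θ * Xf) - I * (P1 - θ * X1) + θ * (Xf - I * X1) := by ring
    rw [m2]
    refine (abs_add_le _ _).trans ?_
    have t2 : |Pf - θ * Xf - I * (P1 - θ * X1)| ≤ ε * (θ * Xf) + ε * (θ * X1) := by
      refine (abs_sub _ _).trans ?_
      rw [abs_mul, abs_of_nonneg hI0]
      have t3 : I * |P1 - θ * X1| ≤ 1 * (ε * (θ * X1)) := mul_le_mul hI1 p1 (abs_nonneg _) zero_le_one
      linarith
    have t4 : |θ * (Xf - I * X1)| ≤ θ * (12 * ε * Z) := by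
      rw [abs_mul, abs_of_pos hth]
      exact mul_le_mul_of_nonneg_left m1 hth.le
    linarith
  have f2 : θ * (ε * Xf + ε * X1 + 12 * ε * Z) ≤ ε0 * P1 := by
    have t1 : ε * Xf + ε * X1 + 12 * ε * Z ≤ 21 * ε * Z := by
      have w1 := mul_le_mul_of_nonneg_left hX1u e0.le
      have w2 := mul_le_mul_of_nonneg_left hXfu e0.le
      linarith
    have t2 : θ * (ε * Xf + ε * X1 + 12 * ε * Z) ≤ θ * (21 * ε * Z) := mul_le_mul_of_nonneg_left t1 hth.le
    have t3 : (3 / 4) * (θ * (3 / 2 * Z)) ≤ P1 := by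
      have t4 : θ * (3 / 2 * Z) ≤ θ * X1 := mul_le_mul_of_nonneg_left hX1l hth.le
      have t5 : ε * (θ * X1) ≤ 1 / 4 * (θ * X1) := mul_le_mul_of_nonneg_right e1 (mul_pos hth hX10).le
      linarith
    have t6 : 32 * ε * P1 ≤ ε0 * P1 := mul_le_mul_of_nonneg_right e2 hpos.le
    have t7 : ε * ((3 / 4) * (θ * (3 / 2 * Z))) ≤ ε * P1 := mul_le_mul_of_nonneg_left t3 e0.le
    have t8 : 0 < ε * (θ * Z) := mul_pos e0 (mul_pos hth hZ0)
    linarith
  have f3 : Pf / P1 - I = (Pf - I * P1) / P1 := by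
    field_simp
  rw [f3, abs_div, abs_of_pos hpos, div_le_iff₀ hpos]
  linarith

end Pool.Agent.RMP
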