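import Pool.Agent.RMP.T1P
import Pool.Agent.RMP.P9
import Pool.Agent.RMP.FarE

/-!
# (RM), row SepR (helper10): the pairs which are not good are rare, no hypothesis

* **`sepR : SepR`** : from `sepP` (helper15), `p9R` (helper10) and `p11R_of` (helper14).
-/

set_option autoImplicit false

namespace HexObs

namespace RMP

/-- **the pairs which are not good** -/
theorem sepR : SepR := sepR_of sepP p9R (p11R_of t1P)

end RMP

end HexObs
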