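import Pool.Agent.RMP.Num
import Pool.Agent.ARM.Conf

/-!
# RMP, row P0 (helper15): the product bound, the base rows

* `bs_prod` : the mass of the pairs with factors in S1, S2 and gap at most 2 ^ i is at most 54 * 4 ^ i * gf S1 * gf S2;
* `ball_mass` : the mass of the words in the ball of radius r around their tip;
* `P3_prod` : the mass of the pairs of P3 R i with first word in S;
* **`baseP : BaseP`**, **`confP : ConfP`**.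
-/

set_option autoImplicit false

namespace HexObs

namespace RMP

open Finset TS SDN NTA TIP ARM

open scoped ENNReal

/-- the square of side 2 r + 1 -/
noncomputable def bxs (i : ℕ) : Finset Pt := Finset.Icc (-(2 : ℤ) ^ i) (2 ^ i) ×ˢ Finset.Icc (-(2 : ℤ) ^ i) (2 ^ i)

lemma mem_bxs {i : ℕ} {p : Pt} (h : TIW.hn p ≤ 2 ^ i) : p ∈ bxs i := by
  have h1 : |ip p up| ≤ 2 ^ i := (le_max_left _ _).trans h
  have h2 : |ip p (rotL up)| ≤ 2 ^ i := ((le_max_left _ _).trans (le_max_right _ _)).trans h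
  have h3 : |ip p (rotR up)| ≤ 2 ^ i := ((le_max_right _ _).trans (le_max_right _ _)).trans h
  have h0 : (0 : ℤ) < 2 ^ i := by positivity
  unfold bxs
  rw [Finset.mem_product, Finset.mem_Icc, Finset.mem_Icc]
  simp only [ip, up, rotL, rotR] at h1 h2 h3
  rw [abs_le] at h1 h2 h3
  obtain ⟨a1, b1⟩ := h1
  obtain ⟨a2, b2⟩ := h2
  obtain ⟨a3, b3⟩ := h3
  refine ⟨⟨?_, ?_⟩, ?_, ?_⟩ <;> nlinarith

lemma card_bxs (i : ℕ) : ((bxs i).card : ℝ) ≤ 9 * 4 ^ i := by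
  unfold bxs
  rw [Finset.card_product, Int.card_Icc]
  have e1 : ((2 : ℤ) ^ i + 1 - -(2 : ℤ) ^ i) = ((2 * 2 ^ i + 1 : ℕ) : ℤ) := by push_cast; ring
  rw [e1, Int.toNat_natCast]
  push_cast
  have h1 : (1 : ℝ) ≤ 2 ^ i := one_le_pow₀ (by norm_num)
  have h4 : (4 : ℝ) ^ i = 2 ^ i * 2 ^ i := by rw [← mul_pow]; norm_num
  rw [h4]
  nlinarith

/-- **the product bound** -/
lemma bs_prod (S1 S2 : Set (List Bool)) (i : ℕ) :
    gp {T | T.1 ∈ S1 ∧ T.2.2 ∈ S2 ∧ Fr T.2.1 ∧ TIW.hn (TIW.en T.1 - pe T.2.1 T.2.2) ≤ 2 ^ i} ≤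
      ENNReal.ofReal (54 * 4 ^ i) * (gf S1 * gf S2) := by
  classical
  obtain ⟨K, hK⟩ : ∃ K : Finset (Pt × Pt), K = dirs ×ˢ bxs i := ⟨_, rfl⟩
  have hKc : (K.card : ℝ) ≤ 54 * 4 ^ i := by
    rw [hK, Finset.card_product]
    have h1 : dirs.card ≤ 6 := by decide
    have h2 : (dirs.card : ℝ) ≤ 6 := by exact_mod_cast h1
    push_cast
    calc (dirs.card : ℝ) * ((bxs i).card : ℝ) ≤ 6 * (9 * 4 ^ i) :=
          mul_le_mul h2 (card_bxs i) (Nat.cast_nonneg _) (by norm_num)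
      _ = 54 * 4 ^ i := by ring
  obtain ⟨A, hA⟩ : ∃ A : Set PT, A = {T | T.1 ∈ S1 ∧ T.2.2 ∈ S2 ∧ Fr T.2.1 ∧ TIW.hn (TIW.en T.1 - pe T.2.1 T.2.2) ≤ 2 ^ i} := ⟨_, rfl⟩
  have hmem : ∀ T : A, (T : PT).1 ∈ S1 ∧ (T : PT).2.2 ∈ S2 ∧ Fr (T : PT).2.1 ∧
      TIW.hn (TIW.en (T : PT).1 - pe (T : PT).2.1 (T : PT).2.2) ≤ 2 ^ i := by
    intro T
    have h : (T : PT) ∈ A := T.2
    have h' : ∀ x : PT, x ∈ A → x.1 ∈ S1 ∧ x.2.2 ∈ S2 ∧ Fr x.2.1 ∧ TIW.hn (TIW.en x.1 - pe x.2.1 x.2.2) ≤ 2 ^ i := by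
      intro x hx
      rw [hA] at hx
      exact hx
    exact h' _ h
  have hKm : ∀ T : A, ((T : PT).2.1.2, TIW.en (T : PT).1 - pe (T : PT).2.1 (T : PT).2.2) ∈ K := by
    intro T
    rw [hK]
    exact Finset.mem_product.2 ⟨(hmem T).2.2.1.1, mem_bxs (hmem T).2.2.2⟩
  obtain ⟨f, hf⟩ : ∃ f : A → S1 × (S2 × K), f = fun T => (⟨(T : PT).1, (hmem T).1⟩, (⟨(T : PT).2.2, (hmem T).2.1⟩,
    ⟨((T : PT).2.1.2, TIW.en (T : PT).1 - pe (T : PT).2.1 (T : PT).2.2), hKm T⟩)) := ⟨_, rfl⟩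
  have hinj : Function.Injective f := by
    intro T T' h
    rw [hf] at h
    have h1 : (T : PT).1 = (T' : PT).1 := congrArg (fun x : S1 × (S2 × K) => (x.1 : List Bool)) h
    have h2 : (T : PT).2.2 = (T' : PT).2.2 := congrArg (fun x : S1 × (S2 × K) => (x.2.1 : List Bool)) h
    have h3 : (T : PT).2.1.2 = (T' : PT).2.1.2 := congrArg (fun x : S1 × (S2 × K) => (x.2.2 : Pt × Pt).1) h
    have h4 : TIW.en (T : PT).1 - pe (T : PT).2.1 (T : PT).2.2 = TIW.en (T' : PT).1 - pe (T' : PT).2.1 (T' : PT).2.2 :=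
      congrArg (fun x : S1 × (S2 × K) => (x.2.2 : Pt × Pt).2) h
    have h5 : (T : PT).2.1.1 = (T' : PT).2.1.1 := by
      unfold pe pv at h4
      rw [h1, h2, h3] at h4
      have := sub_right_inj.1 h4
      exact add_right_cancel this
    apply Subtype.ext
    exact Prod.ext h1 (Prod.ext (Prod.ext h5 h3) h2)
  have hS : ∀ T : A, wE (T : PT).1 * wE (T : PT).2.2 = (fun x : S1 × (S2 × K) => wE (x.1 : List Bool) * wE (x.2.1 : List Bool)) (f T) := by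
    intro T
    rw [hf]
  have hlast : ∑' x : S1 × (S2 × K), wE (x.1 : List Bool) * wE (x.2.1 : List Bool) =
      (K.card : ℝ≥0∞) * (gf S1 * gf S2) := by
    rw [ENNReal.tsum_prod']
    have h1 : ∀ a : S1, ∑' b : S2 × K, wE (a : List Bool) * wE (b.1 : List Bool) =
        wE (a : List Bool) * ((K.card : ℝ≥0∞) * gf S2) := by
      intro a
      rw [ENNReal.tsum_mul_left, ENNReal.tsum_prod']
      congr 1
      have h2 : ∀ b : S2, ∑' _ : K, wE (b : List Bool) = (K.card : ℝ≥0∞) * wE (b : List Bool) := by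
        intro b
        rw [tsum_fintype, Finset.sum_const, Finset.card_univ, Fintype.card_coe, nsmul_eq_mul]
      calc ∑' b : S2, ∑' _ : K, wE (b : List Bool) = ∑' b : S2, (K.card : ℝ≥0∞) * wE (b : List Bool) := tsum_congr h2
        _ = (K.card : ℝ≥0∞) * ∑' b : S2, wE (b : List Bool) := ENNReal.tsum_mul_left
        _ = (K.card : ℝ≥0∞) * gf S2 := rfl
    calc ∑' a : S1, ∑' b : S2 × K, wE (a : List Bool) * wE (b.1 : List Bool)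
        = ∑' a : S1, wE (a : List Bool) * ((K.card : ℝ≥0∞) * gf S2) := tsum_congr h1
      _ = (∑' a : S1, wE (a : List Bool)) * ((K.card : ℝ≥0∞) * gf S2) := ENNReal.tsum_mul_right
      _ = gf S1 * ((K.card : ℝ≥0∞) * gf S2) := rfl
      _ = _ := by ring
  rw [← hA]
  unfold gp
  calc ∑' T : A, wE (T : PT).1 * wE (T : PT).2.2
      = ∑' T : A, (fun x : S1 × (S2 × K) => wE (x.1 : List Bool) * wE (x.2.1 : List Bool)) (f T) := tsum_congr hS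
    _ ≤ ∑' x : S1 × (S2 × K), wE (x.1 : List Bool) * wE (x.2.1 : List Bool) := ENNReal.tsum_comp_le_tsum_of_injective hinj _
    _ = (K.card : ℝ≥0∞) * (gf S1 * gf S2) := hlast
    _ ≤ _ := by
      refine mul_le_mul' ?_ le_rfl
      rw [← ENNReal.ofReal_natCast]
      exact ENNReal.ofReal_le_ofReal hKc

/-- the words in the ball of radius r around their tip -/
def BallW (r : ℤ) : Set (List Bool) := {L | L ∈ SA ∧ ∀ s, s ≤ L.length → dz L s ≤ r}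

lemma BallW_mono {r r' : ℤ} (h : r ≤ r') : BallW r ⊆ BallW r' := fun _ hL => ⟨hL.1, fun s hs => (hL.2 s hs).trans h⟩

/-- **the mass of the words in a ball** (dyadic radius) -/
lemma ball_mass2 : ∃ C : ℝ, 0 < C ∧ ∀ i : ℕ, gf (BallW (2 ^ i)) ≤ ENNReal.ofReal (C * (2 : ℝ) ^ ((43 / 24 : ℝ) * (i : ℝ))) := by
  obtain ⟨C, hC, h⟩ := confSt
  refine ⟨C, hC, fun i => le_trans ?_ ((h 0 i).trans (le_of_eq ?_))⟩
  · refine gf_mono ?_
    intro L hL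
    exact ⟨hL.1, Nat.zero_le _, hL.2⟩
  have hml : 0 < ml i := by unfold ml; positivity
  rw [Nat.cast_zero, max_eq_right hml.le, div_self hml.ne', one_pow, mul_one]

/-- **the mass of the words in a ball** -/
lemma ball_mass : ∃ C : ℝ, 0 < C ∧ ∀ r : ℕ, 1 ≤ r → gf (BallW r) ≤ ENNReal.ofReal (C * (r : ℝ) ^ (43 / 24 : ℝ)) := by
  obtain ⟨C, hC, h⟩ := ball_mass2
  refine ⟨C * 4, by positivity, fun r hr => ?_⟩
  obtain ⟨i, hi⟩ : ∃ i : ℕ, i = Nat.log 2 r + 1 := ⟨_, rfl⟩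
  have h1 : r ≤ 2 ^ i := by
    rw [hi]
    exact (Nat.lt_pow_succ_log_self (by norm_num) r).le
  have h2 : 2 ^ i ≤ 2 * r := by
    rw [hi, pow_succ, mul_comm]
    exact Nat.mul_le_mul_left 2 (Nat.pow_log_le_self 2 (by omega))
  refine (gf_mono (BallW_mono (by exact_mod_cast h1))).trans ((h i).trans (ENNReal.ofReal_le_ofReal ?_))
  have h3 : ((2 : ℝ) ^ i) ≤ 2 * r := by exact_mod_cast h2
  have hr0 : (0 : ℝ) < r := by exact_mod_cast hr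
  rw [← two_pow_rpow]
  have h4 : ((2 : ℝ) ^ i) ^ (43 / 24 : ℝ) ≤ 4 * (r : ℝ) ^ (43 / 24 : ℝ) := by
    calc ((2 : ℝ) ^ i) ^ (43 / 24 : ℝ) ≤ (2 * (r : ℝ)) ^ (43 / 24 : ℝ) := Real.rpow_le_rpow (by positivity) h3 (by norm_num)
      _ = (2 : ℝ) ^ (43 / 24 : ℝ) * (r : ℝ) ^ (43 / 24 : ℝ) := Real.mul_rpow (by norm_num) hr0.le
      _ ≤ 4 * (r : ℝ) ^ (43 / 24 : ℝ) := by
        refine mul_le_mul_of_nonneg_right ?_ (by positivity)
        calc (2 : ℝ) ^ (43 / 24 : ℝ) ≤ (2 : ℝ) ^ (2 : ℝ) := Real.rpow_le_rpow_of_exponent_le (by norm_num) (by norm_num)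
          _ = 4 := by norm_num
  nlinarith

/-- **pairs of P3 R i with the first word in S** -/
lemma P3_prod : ∃ C : ℝ, 0 < C ∧ ∀ (R i : ℕ) (S : Set (List Bool)),
    gp {T | T ∈ P3 R i ∧ T.1 ∈ S} ≤ ENNReal.ofReal (C * (4 ^ i * (max (R : ℝ) (2 ^ i)) ^ (43 / 24 : ℝ))) * gf S := by
  obtain ⟨C, hC, h⟩ := ball_mass
  refine ⟨54 * (C * 4), by positivity, fun R i S => ?_⟩
  have hr : 1 ≤ R + 2 ^ i := le_add_left Nat.one_le_two_pow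
  refine (gp_mono (S' := {T | T.1 ∈ S ∧ T.2.2 ∈ BallW ((R + 2 ^ i : ℕ) : ℤ) ∧ Fr T.2.1 ∧
    TIW.hn (TIW.en T.1 - pe T.2.1 T.2.2) ≤ 2 ^ i}) ?_).trans ((bs_prod _ _ i).trans ?_)
  · rintro T ⟨⟨h1, h2, h3, h4, h5, h6, h7⟩, hS⟩
    refine ⟨hS, ⟨h2, fun s hs => (h7 s hs).trans ?_⟩, h3, h5⟩
    push_cast
    exact le_rfl
  · have h1 := h (R + 2 ^ i) hr
    have hm : (0 : ℝ) < max (R : ℝ) (2 ^ i) := lt_max_of_lt_right (by positivity)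
    have h2 : (((R + 2 ^ i : ℕ) : ℝ)) ^ (43 / 24 : ℝ) ≤ 4 * (max (R : ℝ) (2 ^ i)) ^ (43 / 24 : ℝ) := by
      have h3 : ((R + 2 ^ i : ℕ) : ℝ) ≤ 2 * max (R : ℝ) (2 ^ i) := by
        push_cast
        linarith [le_max_left (R : ℝ) (2 ^ i), le_max_right (R : ℝ) (2 ^ i)]
      calc (((R + 2 ^ i : ℕ) : ℝ)) ^ (43 / 24 : ℝ) ≤ (2 * max (R : ℝ) (2 ^ i)) ^ (43 / 24 : ℝ) :=
            Real.rpow_le_rpow (Nat.cast_nonneg _) h3 (by norm_num)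
        _ = (2 : ℝ) ^ (43 / 24 : ℝ) * (max (R : ℝ) (2 ^ i)) ^ (43 / 24 : ℝ) := Real.mul_rpow (by norm_num) hm.le
        _ ≤ 4 * (max (R : ℝ) (2 ^ i)) ^ (43 / 24 : ℝ) := by
          refine mul_le_mul_of_nonneg_right ?_ (by positivity)
          calc (2 : ℝ) ^ (43 / 24 : ℝ) ≤ (2 : ℝ) ^ (2 : ℝ) := Real.rpow_le_rpow_of_exponent_le (by norm_num) (by norm_num)
            _ = 4 := by norm_num
    have h4 : gf (BallW ((R + 2 ^ i : ℕ) : ℤ)) ≤ ENNReal.ofReal (C * (4 * (max (R : ℝ) (2 ^ i)) ^ (43 / 24 : ℝ))) :=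
      h1.trans (ENNReal.ofReal_le_ofReal (mul_le_mul_of_nonneg_left h2 hC.le))
    calc ENNReal.ofReal (54 * 4 ^ i) * (gf S * gf (BallW ((R + 2 ^ i : ℕ) : ℤ)))
        ≤ ENNReal.ofReal (54 * 4 ^ i) * (gf S * ENNReal.ofReal (C * (4 * (max (R : ℝ) (2 ^ i)) ^ (43 / 24 : ℝ)))) :=
          mul_le_mul' le_rfl (mul_le_mul' le_rfl h4)
      _ = (ENNReal.ofReal (54 * 4 ^ i) * ENNReal.ofReal (C * (4 * (max (R : ℝ) (2 ^ i)) ^ (43 / 24 : ℝ)))) * gf S := by ring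
      _ = _ := by
        rw [← ENNReal.ofReal_mul (by positivity)]
        congr 2
        ring

/-- the mass of all pairs of P3 R i -/
lemma P3_all : ∃ C : ℝ, 0 < C ∧ ∀ R i : ℕ,
    gp (P3 R i) ≤ ENNReal.ofReal (C * (4 ^ i * (max (R : ℝ) (2 ^ i)) ^ (43 / 12 : ℝ))) := by
  obtain ⟨C1, hC1, h1⟩ := P3_prod
  obtain ⟨C, hC, h⟩ := ball_mass
  refine ⟨C1 * (C * 4), by positivity, fun R i => ?_⟩
  have hr : 1 ≤ R + 2 ^ i := le_add_left Nat.one_le_two_pow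
  have hm : (0 : ℝ) < max (R : ℝ) (2 ^ i) := lt_max_of_lt_right (by positivity)
  refine (gp_mono (S' := {T | T ∈ P3 R i ∧ T.1 ∈ BallW ((R + 2 ^ i : ℕ) : ℤ)}) ?_).trans ((h1 R i _).trans ?_)
  · intro T hT
    refine ⟨hT, hT.1, fun s hs => (hT.2.2.2.2.2.1 s hs).trans ?_⟩
    push_cast
    exact le_rfl
  · have h2 : (((R + 2 ^ i : ℕ) : ℝ)) ^ (43 / 24 : ℝ) ≤ 4 * (max (R : ℝ) (2 ^ i)) ^ (43 / 24 : ℝ) := by
      have h3 : ((R + 2 ^ i : ℕ) : ℝ) ≤ 2 * max (R : ℝ) (2 ^ i) := by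
        push_cast
        linarith [le_max_left (R : ℝ) (2 ^ i), le_max_right (R : ℝ) (2 ^ i)]
      calc (((R + 2 ^ i : ℕ) : ℝ)) ^ (43 / 24 : ℝ) ≤ (2 * max (R : ℝ) (2 ^ i)) ^ (43 / 24 : ℝ) :=
            Real.rpow_le_rpow (Nat.cast_nonneg _) h3 (by norm_num)
        _ = (2 : ℝ) ^ (43 / 24 : ℝ) * (max (R : ℝ) (2 ^ i)) ^ (43 / 24 : ℝ) := Real.mul_rpow (by norm_num) hm.le
        _ ≤ 4 * (max (R : ℝ) (2 ^ i)) ^ (43 / 24 : ℝ) := by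
          refine mul_le_mul_of_nonneg_right ?_ (by positivity)
          calc (2 : ℝ) ^ (43 / 24 : ℝ) ≤ (2 : ℝ) ^ (2 : ℝ) := Real.rpow_le_rpow_of_exponent_le (by norm_num) (by norm_num)
            _ = 4 := by norm_num
    have h4 : gf (BallW ((R + 2 ^ i : ℕ) : ℤ)) ≤ ENNReal.ofReal (C * (4 * (max (R : ℝ) (2 ^ i)) ^ (43 / 24 : ℝ))) :=
      (h _ hr).trans (ENNReal.ofReal_le_ofReal (mul_le_mul_of_nonneg_left h2 hC.le))
    refine (mul_le_mul' le_rfl h4).trans (le_of_eq ?_)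
    rw [← ENNReal.ofReal_mul (by positivity)]
    congr 1
    have e : (max (R : ℝ) (2 ^ i)) ^ (43 / 12 : ℝ) = (max (R : ℝ) (2 ^ i)) ^ (43 / 24 : ℝ) * (max (R : ℝ) (2 ^ i)) ^ (43 / 24 : ℝ) := by
      rw [← Real.rpow_add hm]
      norm_num
    rw [e]
    ring

lemma four_pow_rpow (i : ℕ) : (4 : ℝ) ^ i = (2 : ℝ) ^ ((2 : ℝ) * (i : ℝ)) := by
  rw [← two_pow_rpow, Real.rpow_two, ← pow_mul, mul_comm, pow_mul]
  norm_num

/-- the numbers of row B -/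
lemma four_le_pr3 {lam : ℝ} {R i : ℕ} (h : (R : ℝ) ≤ lam * 2 ^ i) :
    4 ^ i * (max (R : ℝ) (2 ^ i)) ^ (43 / 12 : ℝ) ≤ (max lam 1) ^ (11 / 24 : ℝ) * pr3 R i := by
  have hm : (0 : ℝ) < max (R : ℝ) (2 ^ i) := lt_max_of_lt_right (by positivity)
  have h1 : max (R : ℝ) (2 ^ i) ≤ max lam 1 * 2 ^ i := by
    refine max_le (h.trans (mul_le_mul_of_nonneg_right (le_max_left _ _) (by positivity))) ?_
    exact le_mul_of_one_le_left (by positivity) (le_max_right _ _)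
  have e : (max (R : ℝ) (2 ^ i)) ^ (43 / 12 : ℝ) = (max (R : ℝ) (2 ^ i)) ^ (11 / 24 : ℝ) * (max (R : ℝ) (2 ^ i)) ^ (25 / 8 : ℝ) := by
    rw [← Real.rpow_add hm]
    norm_num
  have h2 : (max (R : ℝ) (2 ^ i)) ^ (11 / 24 : ℝ) ≤ (max lam 1) ^ (11 / 24 : ℝ) * (2 : ℝ) ^ ((11 / 24 : ℝ) * (i : ℝ)) := by
    rw [← two_pow_rpow, ← Real.mul_rpow (le_max_of_le_right zero_le_one) (by positivity)]
    exact Real.rpow_le_rpow hm.le h1 (by norm_num)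
  have h3 : (2 : ℝ) ^ ((59 / 24 : ℝ) * (i : ℝ)) = (2 : ℝ) ^ ((2 : ℝ) * (i : ℝ)) * (2 : ℝ) ^ ((11 / 24 : ℝ) * (i : ℝ)) := by
    rw [← Real.rpow_add (by norm_num)]
    congr 1
    ring
  unfold pr3
  rw [e, h3, four_pow_rpow]
  have h5 : 0 ≤ (2 : ℝ) ^ ((2 : ℝ) * (i : ℝ)) * (max (R : ℝ) (2 ^ i)) ^ (25 / 8 : ℝ) := by positivity
  calc (2 : ℝ) ^ ((2 : ℝ) * (i : ℝ)) * ((max (R : ℝ) (2 ^ i)) ^ (11 / 24 : ℝ) * (max (R : ℝ) (2 ^ i)) ^ (25 / 8 : ℝ))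
      = (max (R : ℝ) (2 ^ i)) ^ (11 / 24 : ℝ) * ((2 : ℝ) ^ ((2 : ℝ) * (i : ℝ)) * (max (R : ℝ) (2 ^ i)) ^ (25 / 8 : ℝ)) := by ring
    _ ≤ ((max lam 1) ^ (11 / 24 : ℝ) * (2 : ℝ) ^ ((11 / 24 : ℝ) * (i : ℝ))) *
        ((2 : ℝ) ^ ((2 : ℝ) * (i : ℝ)) * (max (R : ℝ) (2 ^ i)) ^ (25 / 8 : ℝ)) := mul_le_mul_of_nonneg_right h2 h5
    _ = _ := by ring

/-- **row B** -/
theorem baseP : BaseP := by
  intro lam hlam
  obtain ⟨C, hC, h⟩ := P3_all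
  refine ⟨C * (max lam 1) ^ (11 / 24 : ℝ), by positivity, fun R i hR => (h R i).trans (ENNReal.ofReal_le_ofReal ?_)⟩
  rw [mul_assoc]
  exact mul_le_mul_of_nonneg_left (four_le_pr3 hR) hC.le

/-- every level has a finite constant, for R fixed: a bound for all the levels -/
lemma P3_fin (R : ℕ) : ∃ D : ℝ, 0 < D ∧ ∀ i : ℕ, gp (P3 R i) ≤ ENNReal.ofReal (D * pr3 R i) := by
  obtain ⟨D, hD, h⟩ := baseP ((R : ℝ) + 1) (by positivity)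
  refine ⟨D, hD, fun i => h R i ?_⟩
  have h1 : (1 : ℝ) ≤ 2 ^ i := one_le_pow₀ (by norm_num)
  have h2 : (0 : ℝ) ≤ R := Nat.cast_nonneg R
  nlinarith

/-- **row C** -/
theorem confP : ConfP := by
  intro u ε hε
  obtain ⟨C1, hC1, h1⟩ := P3_prod
  obtain ⟨C2, hC2, h2⟩ := ball_mass2
  obtain ⟨b0, hb0⟩ : ∃ b0 : ℕ, C1 * C2 * (2 : ℝ) ^ ((43 / 24 : ℝ) * (u : ℝ)) / ε < (2 : ℝ) ^ b0 :=
    pow_unbounded_of_one_lt _ (by norm_num)
  refine ⟨b0, fun R j hj hR => ?_⟩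
  refine (gp_mono (S' := {T | T ∈ P3 R j ∧ T.1 ∈ BallW (2 ^ (j + u))}) ?_).trans ((h1 R j _).trans ?_)
  · exact fun T hT => ⟨hT.1, hT.1.1, hT.2⟩
  · refine (mul_le_mul' le_rfl (h2 (j + u))).trans ?_
    rw [← ENNReal.ofReal_mul (by positivity)]
    refine ENNReal.ofReal_le_ofReal ?_
    have hjR : 2 ^ j ≤ R := le_trans (Nat.pow_le_pow_right (by norm_num) (by omega)) hR
    have hR0 : (0 : ℝ) < R := by
      have : 0 < R := lt_of_lt_of_le (by positivity) hjR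
      exact_mod_cast this
    rw [max_eq_left (by exact_mod_cast hjR), pr3_eq hjR, four_pow_rpow]
    -- the power of the size
    obtain ⟨w, hw⟩ : ∃ w : ℝ, w = (R : ℝ) ^ (43 / 24 : ℝ) := ⟨_, rfl⟩
    have hw0 : 0 < w := by rw [hw]; positivity
    have e1 : (R : ℝ) ^ (25 / 8 : ℝ) = (R : ℝ) ^ (4 / 3 : ℝ) * w := by
      rw [hw, ← Real.rpow_add hR0]
      norm_num
    have e2 : (2 : ℝ) ^ ((4 / 3 : ℝ) * (j : ℝ)) * (2 : ℝ) ^ b0 ≤ (R : ℝ) ^ (4 / 3 : ℝ) := by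
      have h3 : ((2 : ℝ) ^ (b0 + j)) ≤ R := by exact_mod_cast hR
      calc (2 : ℝ) ^ ((4 / 3 : ℝ) * (j : ℝ)) * (2 : ℝ) ^ b0 ≤
            (2 : ℝ) ^ ((4 / 3 : ℝ) * (j : ℝ)) * (2 : ℝ) ^ ((4 / 3 : ℝ) * (b0 : ℝ)) := by
              refine mul_le_mul_of_nonneg_left ?_ (by positivity)
              rw [← Real.rpow_natCast]
              refine Real.rpow_le_rpow_of_exponent_le (by norm_num) ?_
              have : (0 : ℝ) ≤ b0 := Nat.cast_nonneg b0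
              linarith
        _ = ((2 : ℝ) ^ (b0 + j)) ^ (4 / 3 : ℝ) := by
              rw [two_pow_rpow, ← Real.rpow_add (by norm_num)]
              congr 1
              push_cast
              ring
        _ ≤ (R : ℝ) ^ (4 / 3 : ℝ) := Real.rpow_le_rpow (by positivity) h3 (by norm_num)
    have e3 : (2 : ℝ) ^ ((43 / 24 : ℝ) * ((j + u : ℕ) : ℝ)) = (2 : ℝ) ^ ((43 / 24 : ℝ) * (j : ℝ)) * (2 : ℝ) ^ ((43 / 24 : ℝ) * (u : ℝ)) := by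
      rw [← Real.rpow_add (by norm_num)]
      congr 1
      push_cast
      ring
    have e4 : (2 : ℝ) ^ ((2 : ℝ) * (j : ℝ)) * (2 : ℝ) ^ ((43 / 24 : ℝ) * (j : ℝ)) =
        (2 : ℝ) ^ ((59 / 24 : ℝ) * (j : ℝ)) * (2 : ℝ) ^ ((4 / 3 : ℝ) * (j : ℝ)) := by
      rw [← Real.rpow_add (by norm_num), ← Real.rpow_add (by norm_num)]
      congr 1
      ring
    rw [e1, ← hw, e3]
    obtain ⟨x, hx⟩ : ∃ x : ℝ, x = (2 : ℝ) ^ ((43 / 24 : ℝ) * (u : ℝ)) := ⟨_, rfl⟩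
    obtain ⟨y, hy⟩ : ∃ y : ℝ, y = (2 : ℝ) ^ ((59 / 24 : ℝ) * (j : ℝ)) := ⟨_, rfl⟩
    obtain ⟨z, hz⟩ : ∃ z : ℝ, z = (2 : ℝ) ^ ((4 / 3 : ℝ) * (j : ℝ)) := ⟨_, rfl⟩
    have hy0 : 0 < y := by rw [hy]; positivity
    have hz0 : 0 < z := by rw [hz]; positivity
    rw [← hx] at hb0 ⊢
    rw [← hz] at e2 e4
    rw [← hy] at e4 ⊢
    rw [div_lt_iff₀ hε] at hb0
    calc C1 * ((2 : ℝ) ^ ((2 : ℝ) * (j : ℝ)) * w) * (C2 * ((2 : ℝ) ^ ((43 / 24 : ℝ) * (j : ℝ)) * x))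
        = (C1 * C2 * x) * (((2 : ℝ) ^ ((2 : ℝ) * (j : ℝ)) * (2 : ℝ) ^ ((43 / 24 : ℝ) * (j : ℝ))) * w) := by ring
      _ = (C1 * C2 * x) * ((y * z) * w) := by rw [e4]
      _ ≤ ((2 : ℝ) ^ b0 * ε) * ((y * z) * w) := mul_le_mul_of_nonneg_right hb0.le (by positivity)
      _ = ε * (y * ((z * 2 ^ b0) * w)) := by ring
      _ ≤ ε * (y * ((R : ℝ) ^ (4 / 3 : ℝ) * w)) := by
        refine mul_le_mul_of_nonneg_left (mul_le_mul_of_nonneg_left (mul_le_mul_of_nonneg_right e2 hw0.le) hy0.le) hε.le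

end RMP

end HexObs
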