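import Pool.Agent.ARM.NWin
import Pool.Agent.RMP.Num

/-!
# RM, rows P2 / P4 (helper65): a rich factor near the tip of the first word of a pair (after ARM/NWin, helper29)

* `NoRP`, `NWinP` : literals (no rich factor at all; no rich factor near the tip);
* `pr3_up64` : growth of the predicted mass;
* **`nWinP_of`**.
-/

set_option autoImplicit false

namespace HexObs

namespace RMP

open Finset TS SDN HexObs.SIM NTA TIP TIP.Nf ARM

open scoped ENNReal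

/-- pairs whose first word has no rich factor -/
def NoRP (κ : ℝ) (C : ℕ) : Prop := ∀ ε : ℝ, 0 < ε → ∃ b0 : ℕ, ∀ R j : ℕ, b0 ≤ j → 2 ^ (b0 + j) ≤ R →
  gp {T | T ∈ P3 R j ∧ T.1 ∈ Nz κ C j} ≤ ENNReal.ofReal (ε * pr3 R j)

/-- **a rich factor near the tip of the first word** -/
def NWinP (κ : ℝ) (C : ℕ) : Prop := ∀ ε : ℝ, 0 < ε → ∃ m b0 : ℕ, ∀ (D : ℝ) (R j : ℕ), 1 ≤ D → HF3 D R j → b0 ≤ j →
  2 ^ (b0 + j) ≤ R →
  gp {T | T ∈ P3 R j ∧ ¬ ∃ X Z Y, T.1 = X ++ (Z ++ Y) ∧ Y ≠ [] ∧ Z ∈ Zc κ C j ∧ In (2 ^ (j + m)) Y} ≤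
    ENNReal.ofReal (ε * D * pr3 R j)

lemma pr3_up64 (R i s : ℕ) : pr3 R (i + s) ≤ 64 ^ s * pr3 R i := by
  refine (pr3_up R i s).trans (mul_le_mul_of_nonneg_right ?_ (pr3_pos R i).le)
  calc (2 : ℝ) ^ ((67 / 12 : ℝ) * (s : ℝ)) ≤ (2 : ℝ) ^ ((6 : ℝ) * (s : ℝ)) := by
        refine Real.rpow_le_rpow_of_exponent_le (by norm_num) ?_
        have : (0 : ℝ) ≤ s := Nat.cast_nonneg s
        linarith
    _ = 64 ^ s := by
        rw [Real.rpow_mul (by norm_num), Real.rpow_natCast]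
        norm_num

/-- no rich factor, or the part behind the last one is larger than 2 ^ (j + m) -/
def WBP (κ : ℝ) (C R j m : ℕ) : Set PT :=
  {T | T ∈ P3 R j ∧ (T.1 ∈ Nz κ C j ∨ ∃ X Z1 Z2 Z3 Y0, Dt κ C j T.1 X Z1 Z2 Z3 Y0 ∧ ¬ In (2 ^ (j + m)) Y0)}

open Classical in
/-- **the words without a rich factor near the end** -/
theorem wBP_of {κ : ℝ} {C : ℕ} (hκ : 0 < κ) (hE : ExP) (hY : YBad κ C) (hN : NoRP κ C) :
    ∀ ε : ℝ, 0 < ε → ∃ m0 : ℕ, ∀ m, m0 ≤ m → ∃ b0 : ℕ, ∀ (D : ℝ) (R j : ℕ), 1 ≤ D → HF3 D R j → b0 ≤ j →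
      2 ^ (b0 + j) ≤ R → gp (WBP κ C R j m) ≤ ENNReal.ofReal (ε * D * pr3 R j) := by
  intro ε hε
  obtain ⟨η, hηd⟩ : ∃ η : ℝ, η = κ / 8 := ⟨_, rfl⟩
  have hη : 0 < η := by rw [hηd]; positivity
  obtain ⟨J1, b1, hY⟩ := hY η 7 2 hη
  obtain ⟨C1, hC1, hE⟩ := hE η 0 hη
  obtain ⟨bN, hN⟩ := hN (ε / 2) (by positivity)
  obtain ⟨m1, hm1⟩ := ex_pow (K := 8 * C1 / κ) (e := ε / 2) (by positivity)
  refine ⟨max (max J1 (2 * C + 3)) m1, fun m hm => ?_⟩
  have hmJ : J1 ≤ m := ((le_max_left _ _).trans (le_max_left _ _)).trans hm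
  have hmC : 2 * C + 3 ≤ m := ((le_max_right _ _).trans (le_max_left _ _)).trans hm
  have hm3 := hm1 m ((le_max_right _ _).trans hm)
  have hm2 : 2 * C ≤ 2 ^ m := by
    have := (Nat.lt_two_pow_self (n := m)).le
    omega
  obtain ⟨bU, hbU⟩ : ∃ bU : ℕ, ∀ b, bU ≤ b → 8 ≤ κ * Ub b := by
    obtain ⟨B, hB⟩ := Ub_big
    obtain ⟨n, hn⟩ := exists_nat_ge (8 / κ)
    refine ⟨B * n, fun b hb => ?_⟩
    have h1 := hB b n hb
    have h2 : (n : ℝ) ≤ 8 ^ n := by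
      exact_mod_cast (Nat.lt_pow_self (by norm_num : 1 < 8)).le
    have h3 : 8 / κ ≤ Ub b := hn.trans (h2.trans h1)
    rw [div_le_iff₀ hκ] at h3
    linarith
  refine ⟨max (max b1 bN) bU, fun D R j hD hF hj hn => ?_⟩
  have hj1 : b1 ≤ j := ((le_max_left _ _).trans (le_max_left _ _)).trans hj
  have hjN : bN ≤ j := ((le_max_right _ _).trans (le_max_left _ _)).trans hj
  have hjU : bU ≤ j := (le_max_right _ _).trans hj
  have h8 := hbU j hjU
  have hU := TS.Ub_pos j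
  have hp := (pr3_pos R j).le
  have hD0 : 0 ≤ D := by linarith
  -- the numbers
  obtain ⟨h, hh⟩ : ∃ h : ℕ, h = ⌈κ * Ub j / 8⌉₊ := ⟨_, rfl⟩
  have hh1 : 1 ≤ h := by
    rw [hh, Nat.one_le_iff_ne_zero, Nat.ne_zero_iff_zero_lt, Nat.ceil_pos]
    positivity
  have hq : κ * Ub j / 8 ≤ (h : ℝ) := by
    rw [hh]
    exact Nat.le_ceil _
  have hh2 : (h : ℝ) < κ * Ub j / 8 + 1 := by
    rw [hh]
    exact Nat.ceil_lt_add_one (by positivity)
  have hηh : η * Ub j ≤ (h : ℝ) := by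
    rw [hηd]
    calc κ / 8 * Ub j = κ * Ub j / 8 := by ring
      _ ≤ h := hq
  -- the events
  obtain ⟨EJ, hEJ⟩ : ∃ EJ : ℕ → Set PT, EJ = fun s => {T | T ∈ P3 R j ∧ κ * Ub j / 8 ≤
    (nD (2 ^ (j + (m + s + 1) + 0)) (RB κ C j (m + s + 1) (C * 2 ^ j) η) T.1 : ℝ)} := ⟨_, rfl⟩
  have hcov : WBP κ C R j m ⊆ {T | T ∈ P3 R j ∧ T.1 ∈ Nz κ C j} ∪ ⋃ s, EJ s := by
    rintro T ⟨hLF, hLz | ⟨X, Z1, Z2, Z3, Y0, hd, hbig⟩⟩
    · exact Or.inl ⟨hLF, hLz⟩
    · refine Or.inr ?_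
      have h4 : 4 * h ≤ nc Z2 := by
        have h5 : (4 : ℝ) * h ≤ nc Z2 := by
          have := hd.n2
          linarith
        exact_mod_cast h5
      have hex : ∃ J, In (2 ^ (j + J)) Y0 := by
        obtain ⟨J, hJ⟩ := In_len Y0
        exact ⟨J, hJ j⟩
      have h5 := Nat.find_spec hex
      have hJm : m < Nat.find hex := by
        by_contra hc
        exact hbig (in_mono h5 (Nat.pow_le_pow_right (by norm_num) (by omega)))
      have h6 := Nat.find_min hex (m := Nat.find hex - 1) (by omega)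
      obtain ⟨J, hJd⟩ : ∃ J, J = Nat.find hex := ⟨_, rfl⟩
      rw [← hJd] at h5 h6 hJm
      have h7 : ¬ In (2 ^ (J - 1) * 2 ^ j) Y0 := by
        rwa [← pow_add, add_comm (J - 1) j]
      have h9 : 2 ^ J = 2 * 2 ^ (J - 1) := by
        rw [← pow_succ']
        congr 1
        omega
      rw [Set.mem_iUnion]
      refine ⟨J - m, ?_⟩
      rw [hEJ]
      refine ⟨hLF, hq.trans ?_⟩
      have h11 : 2 * C ≤ 2 ^ J := hm2.trans (Nat.pow_le_pow_right (by norm_num) (by omega))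
      have h12 : 2 ^ (J + 1) ≤ 2 ^ (J - 1) * 2 ^ 2 := by
        rw [pow_succ, h9]
        omega
      have h13 := caseB neW hd hh1 hηh h4 h12 h5 h7 h11
      rw [show m + (J - m) + 1 = J + 1 by omega, add_zero]
      exact_mod_cast h13
  -- the mass of one event
  have hB1 : ∀ s, gp (EJ s) ≤ ENNReal.ofReal (8 * C1 / κ * (D * pr3 R j) * (1 / 2) ^ (m + s + 1)) := by
    intro s
    obtain ⟨J, hJ⟩ : ∃ J, J = m + s + 1 := ⟨_, rfl⟩
    have h5 := hE D R j (j + J) j hD (hF.mono (by omega)) (by omega) (by omega) (fun _ => RB κ C j J (C * 2 ^ j) η)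
      (ENNReal.ofReal (Ub j / (2 : ℝ) ^ (7 * J)) * Xb j) (κ * Ub j / 8) (fun _ A Y h => h.1.gt) (fun _ A => ?_)
      (by positivity)
    · have h6 : gp (EJ s) * (ENNReal.ofReal (κ * Ub j / 8) * Xb j) ≤
          ENNReal.ofReal (C1 * D * pr3 R (j + J)) * (ENNReal.ofReal (Ub j / (2 : ℝ) ^ (7 * J)) * Xb j) := by
        rw [hEJ]
        simp only
        rw [← hJ]
        exact h5
      have hpJ := (pr3_pos R (j + J)).le
      refine (cancelF (by positivity) (by positivity) h6).trans (ENNReal.ofReal_le_ofReal ?_)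
      have h7 := pr3_up64 R j J
      rw [← hJ]
      have h8' : (2 : ℝ) ^ (7 * J) = 128 ^ J := by
        rw [pow_mul]
        norm_num
      rw [h8', div_le_iff₀ (by positivity)]
      have h9 : (64 : ℝ) ^ J / 128 ^ J = (1 / 2) ^ J := by
        rw [← div_pow]
        norm_num
      calc C1 * D * pr3 R (j + J) * (Ub j / 128 ^ J) ≤ C1 * D * (64 ^ J * pr3 R j) * (Ub j / 128 ^ J) := by gcongr
        _ = C1 * D * pr3 R j * Ub j * (64 ^ J / 128 ^ J) := by ring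
        _ = 8 * C1 / κ * (D * pr3 R j) * (1 / 2) ^ J * (κ * Ub j / 8) := by
            rw [h9]
            field_simp
    · have h6 := hY j J hj1 (by omega)
      refine (gf_mono ?_).trans h6
      rintro Y ⟨⟨-, y1, y2, y3⟩, y4, -⟩
      exact ⟨y1, y2, by rwa [add_zero] at y4, y3⟩
  -- the sum
  have e1 : ∀ s : ℕ, 8 * C1 / κ * (D * pr3 R j) * (1 / 2) ^ (m + s + 1) =
      (8 * C1 / κ * (1 / 2) ^ m * (D * pr3 R j) / 2) * (1 / 2) ^ s := by
    intro s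
    rw [pow_succ, pow_add]
    ring
  have hsum : gp (⋃ s, EJ s) ≤ ENNReal.ofReal (ε / 2 * D * pr3 R j) := by
    refine (gp_iUnion_le EJ).trans ((ENNReal.tsum_le_tsum hB1).trans ?_)
    rw [← ENNReal.ofReal_tsum_of_nonneg (fun s => by positivity)]
    · refine ENNReal.ofReal_le_ofReal ?_
      simp only [e1]
      rw [tsum_mul_left, tsum_geometric_two]
      have h5 : 0 ≤ D * pr3 R j := by positivity
      calc 8 * C1 / κ * (1 / 2) ^ m * (D * pr3 R j) / 2 * 2 = (8 * C1 / κ * (1 / 2) ^ m) * (D * pr3 R j) := by ring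
        _ ≤ ε / 2 * (D * pr3 R j) := mul_le_mul_of_nonneg_right hm3 h5
        _ = _ := by ring
    · simp only [e1]
      exact summable_geometric_two.mul_left _
  have hNz : gp {T | T ∈ P3 R j ∧ T.1 ∈ Nz κ C j} ≤ ENNReal.ofReal (ε / 2 * D * pr3 R j) := by
    have h5 : 2 ^ (bN + j) ≤ R := by
      refine le_trans (Nat.pow_le_pow_right (by norm_num) ?_) hn
      have := (le_max_right b1 bN).trans (le_max_left _ bU)
      omega
    refine (hN R j hjN h5).trans (ENNReal.ofReal_le_ofReal ?_)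
    have h7 : ε / 2 * 1 ≤ ε / 2 * D := mul_le_mul_of_nonneg_left hD (by positivity)
    rw [mul_one] at h7
    exact mul_le_mul_of_nonneg_right h7 hp
  refine (gp_mono hcov).trans ((gp_union_le _ _).trans ((add_le_add hNz hsum).trans (le_of_eq ?_)))
  rw [← ENNReal.ofReal_add (by positivity) (by positivity)]
  congr 1
  ring

/-- **a rich factor near the tip** -/
theorem nWinP_of {κ : ℝ} {C : ℕ} (hκ : 0 < κ) (hE : ExP) (hY : YBad κ C) (hN : NoRP κ C) : NWinP κ C := by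
  intro ε hε
  obtain ⟨m, h⟩ := wBP_of hκ hE hY hN ε hε
  obtain ⟨b0, h⟩ := h m le_rfl
  refine ⟨m, b0, fun D R j hD hF hj hn => (gp_mono ?_).trans (h D R j hD hF hj hn)⟩
  rintro T ⟨hLF, hno⟩
  refine ⟨hLF, ?_⟩
  by_cases hz : T.1 ∈ Nz κ C j
  · exact Or.inl hz
  · obtain ⟨X, Z, Y, h1, h2, ⟨Z1, Z2, Z3, rfl, c1, c2, c3, c4, c5, c6, c7, c8⟩, h4⟩ := neW.last κ C j T.1 hz
    refine Or.inr ⟨X, Z1, Z2, Z3, Y, ⟨hLF.1, by rw [h1]; simp only [List.append_assoc], c1, c2, c3, c4, c5, c6, c7, c8, h4⟩,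
      fun hin => hno ⟨X, Z1 ++ (Z2 ++ Z3), Y, h1, h2, ⟨Z1, Z2, Z3, rfl, c1, c2, c3, c4, c5, c6, c7, c8⟩, hin⟩⟩

end RMP

end HexObs
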