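import Pool.Agent.RMP.NFPA
import Pool.Agent.RMP.NWinP
import Pool.Agent.RMP.TipP
import Pool.Agent.TIP.RevM

/-!
# RM, row P2b (helper29): many good cuts near the tip of the first word of a pair, free of both words

* **`nFP_of`** : `NFP` from `ExP`, `YBad`, `NoRP`, `ConfP` (for the second word, by the exchange) and the uniform avoidance with
  a spectator (`uaO`, helper73).
-/

set_option autoImplicit false

namespace HexObs

namespace RMP

open Finset TS SDN HexObs.SIM NTA TIP TIP.Nf ARM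

open scoped ENNReal

open Classical in
/-- **row P2b** -/
theorem nFP_of {κ : ℝ} {C : ℕ} (hκ : 0 < κ) (hE : ExP) (hY : YBad κ C) (hN : NoRP κ C) (hC : ConfP) : NFP := by
  have hWB := wBP_of hκ hE hY hN
  intro ε hε
  obtain ⟨η, hηd⟩ : ∃ η : ℝ, η = κ / 8 := ⟨_, rfl⟩
  have hη : 0 < η := by rw [hηd]; positivity
  obtain ⟨C1, hC1, hE⟩ := hE η 0 hη
  obtain ⟨CU, κ0, r0, hCU, hκ0, hUA⟩ := uaO
  obtain ⟨m0, hWB⟩ := hWB (ε / 4) (by positivity)
  obtain ⟨bc, hC⟩ := hC 4 (ε / 4) (by positivity)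
  obtain ⟨m, hm⟩ : ∃ m : ℕ, m = max m0 (2 * C + 3) := ⟨_, rfl⟩
  have hm0 : m0 ≤ m := by rw [hm]; exact le_max_left _ _
  have hmC : 2 * C + 3 ≤ m := by rw [hm]; exact le_max_right _ _
  have hm2 : 2 * C ≤ 2 ^ m := by
    have := (Nat.lt_two_pow_self (n := m)).le
    omega
  obtain ⟨b1, hWB⟩ := hWB m hm0
  obtain ⟨CY, hCY, hYM⟩ := ymassG η (m + 1) hη
  -- the constants
  obtain ⟨K1, hK1⟩ : ∃ K1 : ℝ, K1 = CU * CY * 8 / κ := ⟨_, rfl⟩
  have hK10 : 0 < K1 := by rw [hK1]; positivity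
  obtain ⟨K2, hK2⟩ : ∃ K2 : ℝ, K2 = C1 * 64 ^ (m + 1) * K1 * 8 / κ := ⟨_, rfl⟩
  have hK20 : 0 < K2 := by rw [hK2]; positivity
  obtain ⟨a, ha⟩ := ex_Ub (K := K2) (e := ε / 2) hK20.le (by positivity)
  obtain ⟨bU, hbU⟩ : ∃ bU : ℕ, ∀ b, bU ≤ b → 8 ≤ κ * Ub b := by
    obtain ⟨B, hB⟩ := Ub_big
    obtain ⟨n, hn⟩ := exists_nat_ge (8 / κ)
    refine ⟨B * n, fun b hb => ?_⟩
    have h1 := hB b n hb
    have h2 : (n : ℝ) ≤ 8 ^ n := by
      exact_mod_cast (Nat.lt_pow_self (by norm_num : 1 < 8)).le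
    have h3 : 8 / κ ≤ Ub b := hn.trans (h2.trans h1)
    rw [div_le_iff₀ hκ] at h3
    linarith
  refine ⟨η, κ0 / 2 ^ a, a, m + 1, b1 + bU + (a + r0 + 1) + bc, hη, by positivity, by omega, fun D R j hD hF hj hR => ?_⟩
  have h8 := hbU j (by omega)
  have hU := TS.Ub_pos j
  have hp := (pr3_pos R j).le
  have hD0 : 0 ≤ D := by linarith
  -- the numbers
  obtain ⟨h, hh⟩ : ∃ h : ℕ, h = ⌈κ * Ub j / 8⌉₊ := ⟨_, rfl⟩
  have hh1 : 1 ≤ h := by
    rw [hh, Nat.one_le_iff_ne_zero, Nat.ne_zero_iff_zero_lt, Nat.ceil_pos]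
    positivity
  have hq : κ * Ub j / 8 ≤ (h : ℝ) := by
    rw [hh]
    exact Nat.le_ceil _
  have hh2 : (h : ℝ) < κ * Ub j / 8 + 1 := by
    rw [hh]
    exact Nat.ceil_lt_add_one (by positivity)
  have hηh : η * Ub j ≤ (h : ℝ) := by
    rw [hηd]
    calc κ / 8 * Ub j = κ * Ub j / 8 := by ring
      _ ≤ h := hq
  obtain ⟨r, hr⟩ : ∃ r : ℕ, r = 2 ^ (j - a) := ⟨_, rfl⟩
  have hr0 : r0 ≤ r := by
    rw [hr]
    have h1 : r0 ≤ j - a := by omega
    exact h1.trans Nat.lt_two_pow_self.le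
  have hrj : r ≤ 2 ^ j := by
    rw [hr]
    exact Nat.pow_le_pow_right (by norm_num) (by omega)
  have hUr : UU r = Ub (j - a) := by rw [hr]; rfl
  have hUr0 : 0 < UU r := by rw [hUr]; exact TS.Ub_pos _
  have hUj : Ub j ≤ 2 ^ a * UU r := by
    have := Ub_steps (j - a) a
    rw [Nat.sub_add_cancel (by omega)] at this
    rw [hUr]
    exact this
  have hκU : κ0 / 2 ^ a * Ub j ≤ κ0 * UU r := by
    rw [div_mul_eq_mul_div, div_le_iff₀ (by positivity)]
    nlinarith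
  -- the event
  obtain ⟨i, hi⟩ : ∃ i : ℕ, i = j + (m + 1) := ⟨_, rfl⟩
  obtain ⟨ρ, hρ⟩ : ∃ ρ : (Pt × Pt) × List Bool → List Bool → List Bool → Prop,
    ρ = fun G A Y => Obs (3 * (r : ℤ) + 2) (ob G.1 G.2) ∧
      RAO (ob G.1 G.2) (κ0 * UU r) r j (C * 2 ^ j) (2 ^ (j + (m + 1))) η h A Y := ⟨_, rfl⟩
  obtain ⟨EA, hEA⟩ : ∃ EA : Set PT, EA = {T | T ∈ P3 R j ∧ κ * Ub j / 8 ≤ (nD (2 ^ (i + 0)) (ρ T.2) T.1 : ℝ)} := ⟨_, rfl⟩
  have hcov : {T | T ∈ P3 R j ∧ gcp j a (m + 1) η (ob T.2.1 T.2.2) T.1 < κ0 / 2 ^ a * Ub j} ⊆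
      {T | T ∈ P3 R j ∧ (fun T : PT => ∀ s, s ≤ T.1.length → dz T.1 s ≤ 2 ^ (j + 4)) (sw T)} ∪ (WBP κ C R j m ∪ EA) := by
    rintro T ⟨hTF, hbad⟩
    by_cases hcf : ∀ s, s ≤ T.2.2.length → dz T.2.2 s ≤ 2 ^ (j + 4)
    · exact Or.inl ⟨hTF, hcf⟩
    refine Or.inr ?_
    by_cases hW : T ∈ WBP κ C R j m
    · exact Or.inl hW
    refine Or.inr ?_
    push Not at hcf
    obtain ⟨s, hs, hs2⟩ := hcf
    have hObs : Obs (3 * (r : ℤ) + 2) (ob T.2.1 T.2.2) := by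
      refine obs_ob hTF.2.2.1 hs le_rfl ?_
      have h1 : (2 : ℤ) ^ (j + 4) < TIW.hn (vx oo up T.2.2 s - vx oo up T.2.2 T.2.2.length) := hs2
      have h2 : (r : ℤ) ≤ 2 ^ j := by exact_mod_cast hrj
      have h3 : (2 : ℤ) ^ (j + 4) = 16 * 2 ^ j := by
        rw [pow_add]
        ring
      have h4 : (1 : ℤ) ≤ 2 ^ j := one_le_pow₀ (by norm_num)
      linarith
    have hSA : T.1 ∈ SA := hTF.1
    have hSAE : T.1 ∈ SAE (ob T.2.1 T.2.2) := ⟨hTF.1, hTF.2.2.2.1⟩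
    have hNz : T.1 ∉ Nz κ C j := fun hN => hW ⟨hTF, Or.inl hN⟩
    obtain ⟨X, Z1, Z2, Z3, Y0, hd⟩ := dt_of neW hSA hNz
    have hin : In (2 ^ (j + m)) Y0 := by
      by_contra hc
      exact hW ⟨hTF, Or.inr ⟨X, Z1, Z2, Z3, Y0, hd, hc⟩⟩
    have h4 : 4 * h ≤ nc Z2 := by
      have h5 : (4 : ℝ) * h ≤ nc Z2 := by
        have := hd.n2
        linarith
      exact_mod_cast h5
    have hA := caseAO (a := j - a) (r := r) neW hd hSAE hh1 hηh h4 hin hm2 (by rw [hr]) hκU hbad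
    have e1 : ρ T.2 = RAO (ob T.2.1 T.2.2) (κ0 * UU r) r j (C * 2 ^ j) (2 ^ (j + (m + 1))) η h := by
      rw [hρ]
      funext A Y
      exact propext ⟨fun h => h.2, fun h => ⟨hObs, h⟩⟩
    rw [hEA]
    refine ⟨hTF, hq.trans ?_⟩
    rw [e1, hi, add_zero]
    exact_mod_cast hA
  have hA1 : gp EA ≤ ENNReal.ofReal (ε / 2 * D * pr3 R j) := by
    have hFi : HF3 D R i := hF.mono (by omega)
    obtain ⟨x, hx⟩ : ∃ x : ℝ, x = K1 * UU r := ⟨_, rfl⟩
    have hx0 : 0 ≤ x := by rw [hx]; positivity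
    have h5 := hE D R j i j hD hFi (by omega) (by omega) ρ (ENNReal.ofReal x * Xb j) (κ * Ub j / 8)
      (fun G A Y h => by rw [hρ] at h; exact h.2.1.gt) (fun G A => ?_) (by positivity)
    · rw [← hEA] at h5
      have hpi := (pr3_pos R i).le
      refine (cancelF (by positivity) (by positivity) h5).trans (ENNReal.ofReal_le_ofReal ?_)
      have h7 := pr3_up64 R j (m + 1)
      rw [← hi] at h7
      have h9 : K2 * (UU r / Ub j) ≤ ε / 2 := by
        rw [hUr]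
        exact ha j (by omega)
      rw [div_le_iff₀ (by positivity)]
      have hDp : 0 ≤ D * pr3 R j := by positivity
      calc C1 * D * pr3 R i * x ≤ C1 * D * (64 ^ (m + 1) * pr3 R j) * x := by gcongr
        _ = (K2 * (UU r / Ub j)) * (D * pr3 R j) * (κ * Ub j / 8) := by
            rw [hx, hK2]
            field_simp
        _ ≤ ε / 2 * (D * pr3 R j) * (κ * Ub j / 8) := by gcongr
        _ = _ := by ring
    · -- the mass of the second parts
      by_cases hObs : Obs (3 * (r : ℤ) + 2) (ob G.1 G.2)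
      · have h6 := fwO_mass (E := ob G.1 G.2) (κ0 := κ0 * UU r) (η := η) (q := h) (r := r) (b := j)
          (E0 := 2 * (C * 2 ^ j)) (D := 2 ^ (j + (m + 1))) (A := A) (hUA r hr0 (ob G.1 G.2) hObs (2 ^ j) A) (hYM j)
        obtain ⟨S, hS⟩ : ∃ S : Set (List Bool), S =
          {Y | FwO (ob G.1 G.2) (κ0 * UU r) r j (2 * (C * 2 ^ j)) (2 ^ (j + (m + 1))) η h A Y} := ⟨_, rfl⟩
        rw [← hS] at h6
        have h7 : gf S ≤ ENNReal.ofReal x * Xb j := by
          have e0 : ENNReal.ofReal (κ * Ub j / 8) ≠ 0 := by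
            rw [Ne, ENNReal.ofReal_eq_zero, not_le]
            positivity
          refine (ENNReal.mul_le_mul_iff_right e0 ENNReal.ofReal_ne_top).1 ?_
          refine (mul_le_mul' (ENNReal.ofReal_le_ofReal hq) le_rfl).trans (h6.trans (le_of_eq ?_))
          rw [← mul_assoc, ← mul_assoc, ← ENNReal.ofReal_mul (by positivity), ← ENNReal.ofReal_mul (by positivity)]
          congr 2
          rw [hx, hK1]
          field_simp
        refine (gf_mono ?_).trans h7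
        rintro Y ⟨y1, -, -⟩
        rw [hρ] at y1
        rw [hS]
        exact y1.2.2
      · have e0 : {Y | ρ G A Y ∧ In (2 ^ (i + 0)) Y ∧ ((A ++ Y, G) : PT) ∈ P3 R j} = ∅ := by
          refine Set.eq_empty_of_forall_notMem fun Y hY => ?_
          have h6 := hY.1
          rw [hρ] at h6
          exact hObs h6.1
        rw [e0]
        unfold gf
        simp
  have hW1 : gp (WBP κ C R j m) ≤ ENNReal.ofReal (ε / 4 * D * pr3 R j) :=
    hWB D R j hD hF (by omega) (le_trans (Nat.pow_le_pow_right (by norm_num) (by omega)) hR)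
  have hC2 : gp {T | T ∈ P3 R j ∧ (fun T : PT => ∀ s, s ≤ T.1.length → dz T.1 s ≤ 2 ^ (j + 4)) (sw T)} ≤
      ENNReal.ofReal (ε / 4 * D * pr3 R j) := by
    refine (gp_sw_P3 (R := R) (i := j) (fun T : PT => ∀ s, s ≤ T.1.length → dz T.1 s ≤ 2 ^ (j + 4))).le.trans ?_
    refine (hC R j (by omega) (le_trans (Nat.pow_le_pow_right (by norm_num) (by omega)) hR)).trans
      (ENNReal.ofReal_le_ofReal ?_)
    refine mul_le_mul_of_nonneg_right ?_ hp
    calc ε / 4 = ε / 4 * 1 := (mul_one _).symm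
      _ ≤ ε / 4 * D := mul_le_mul_of_nonneg_left hD (by positivity)
  refine (gp_mono hcov).trans ((gp_union_le _ _).trans ((add_le_add hC2 ((gp_union_le _ _).trans
    (add_le_add hW1 hA1))).trans (le_of_eq ?_)))
  rw [← ENNReal.ofReal_add (by positivity) (by positivity), ← ENNReal.ofReal_add (by positivity) (by positivity)]
  congr 1
  ring

end RMP

end HexObs
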