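import Pool.Agent.RMP.ExP
import Pool.Agent.RMP.NFP
import Pool.Agent.RMP.Base
import Pool.Agent.TIP.YBad

/-!
# RM (helper29): rows P2a, P2b with everything that is a theorem; open: NoRP (helper63)
-/

set_option autoImplicit false

namespace HexObs

namespace RMP

open TIP

/-- **row P2a**, no hypothesis -/
theorem exP : ExP := exP_of tipP

/-- **row P2b** -/
theorem nFP_r {κ : ℝ} {C : ℕ} (hκ : 0 < κ) (hR : RegZ κ C) (hN : NoRP κ C) : NFP := nFP_of hκ exP (yBad hR) hN confP

end RMP

end HexObs
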