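import Pool.Agent.PMA.TrNum
import Pool.Agent.RMP.NFPZ

/-!
# RMP, row TrStP (helper51, after helper70's PMA/TrSt): the pairs with too many cuts behind a good cut

`trStP` : the first word, `trStP2` : the second word.
-/

set_option autoImplicit false

namespace HexObs

namespace RMP

namespace TrP

open Finset TS SDN HexObs.SIM NTA TIP ARM PMA

open scoped ENNReal

lemma one_le_om (i : ℕ) (V : List Bool) : 1 ≤ om i V := by
  have hm := ml_pos i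
  unfold om
  rw [← ENNReal.ofReal_one]
  refine ENNReal.ofReal_le_ofReal ?_
  have h1 : (0 : ℝ) ≤ (V.length : ℝ) / ml i := by positivity
  exact one_le_pow₀ (by linarith)

/-- the mass of the words with many splittings -/
lemma gf_SS {η : ℝ} (hη : 0 < η) (m : ℕ) : ∃ C : ℝ, 0 < C ∧ ∀ (s j : ℕ) (M : ℝ), s ≤ j + 2 → 0 < M →
    gf (SS s j m η M) ≤ ENNReal.ofReal (C * Ub s * Ub j / M) * Xb j := by
  obtain ⟨C, hC, h⟩ := mSS hη m
  refine ⟨C, hC, fun s j M hs hM => le_trans ?_ (h s j M hs hM)⟩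
  unfold gf
  refine ENNReal.tsum_le_tsum fun V => ?_
  calc wE (V : List Bool) = wE (V : List Bool) * 1 := (mul_one _).symm
    _ ≤ _ := mul_le_mul' le_rfl (one_le_om _ _)

/-- **one scale** -/
theorem one_scP {η : ℝ} (hη : 0 < η) (m c : ℕ) : ∃ C : ℝ, 0 < C ∧ ∀ (κ : ℝ), 1 ≤ κ → ∀ (D : ℝ) (R j s d : ℕ), 1 ≤ D →
    HF3 D R j → s + d = j + 2 →
      gp {T | T ∈ P3 R j ∧ Mc κ s d ≤ (nD (2 ^ (j + (m + c + 3))) (rT s j m η (Mc κ s d)) T.1 : ℝ)} ≤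
        ENNReal.ofReal (C / κ ^ 2 * (D * pr3 R j) * PMA.tw (-(5 / 48)) ^ d) := by
  obtain ⟨C1, hC1, hE⟩ := exP 1 (m + c + 1) one_pos
  obtain ⟨C2, hC2, hM⟩ := gf_SS hη m
  obtain ⟨C3, hC3, hX⟩ := Xb_rat
  obtain ⟨C4, hC4, hU⟩ := Ub_rat
  refine ⟨256 * C1 * C2 * C3 * C4 * 16, by positivity, fun κ hκ D R j s d hD hF hsd => ?_⟩
  obtain ⟨M, hMd⟩ : ∃ M, M = Mc κ s d := ⟨_, rfl⟩
  have hM0 : 0 < M := by rw [hMd]; exact Mc_pos (by linarith) s d
  have hUs := Ub_pos s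
  have hUj := Ub_pos j
  have hD0 : 0 ≤ D := by linarith
  have hp := (pr3_pos R j).le
  have hp2 := (pr3_pos R (j + 2)).le
  have h1 := hE D R j (j + 2) s hD (hF.mono (by omega)) (by omega) (by omega) (fun _ => rT s j m η M)
    (ENNReal.ofReal (C2 * Ub s * Ub j / M) * Xb j) M (fun _ A Y h => h.1) (fun G A => ?_) hM0
  · rw [show j + 2 + (m + c + 1) = j + (m + c + 3) by omega] at h1
    rw [← hMd]
    have h2 : Xb j ≤ ENNReal.ofReal (C3 * PMA.tw (25 / 48 * d)) * Xb s := by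
      refine (Xb_mono (show j ≤ s + d by omega)).trans (hX s d)
    have hc := PMA.tw_pos (25 / 48 * d)
    have h3 : gp {T | T ∈ P3 R j ∧ M ≤ (nD (2 ^ (j + (m + c + 3))) (rT s j m η M) T.1 : ℝ)} * ENNReal.ofReal M * Xb s ≤
        ENNReal.ofReal (C1 * D * pr3 R (j + 2) * (C2 * Ub s * Ub j / M) * (C3 * PMA.tw (25 / 48 * d))) * Xb s := by
      rw [mul_assoc]
      refine h1.trans ?_
      calc ENNReal.ofReal (C1 * D * pr3 R (j + 2)) * (ENNReal.ofReal (C2 * Ub s * Ub j / M) * Xb j)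
          ≤ ENNReal.ofReal (C1 * D * pr3 R (j + 2)) * (ENNReal.ofReal (C2 * Ub s * Ub j / M) *
            (ENNReal.ofReal (C3 * PMA.tw (25 / 48 * d)) * Xb s)) := mul_le_mul' le_rfl (mul_le_mul' le_rfl h2)
        _ = _ := by
          rw [← mul_assoc, ← mul_assoc, ← ENNReal.ofReal_mul (by positivity), ← ENNReal.ofReal_mul (by positivity)]
    have h4 := div_Xb h3
    have h5 : gp {T | T ∈ P3 R j ∧ M ≤ (nD (2 ^ (j + (m + c + 3))) (rT s j m η M) T.1 : ℝ)} ≤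
        ENNReal.ofReal (C1 * D * pr3 R (j + 2) * (C2 * Ub s * Ub j / M) * (C3 * PMA.tw (25 / 48 * d)) / M) := by
      rw [ENNReal.ofReal_div_of_pos hM0]
      exact ENNReal.le_div_iff_mul_le (Or.inl (by rw [ne_eq, ENNReal.ofReal_eq_zero, not_le]; exact hM0))
        (Or.inl ENNReal.ofReal_ne_top) |>.2 h4
    refine h5.trans (ENNReal.ofReal_le_ofReal ?_)
    rw [hMd]
    have h6 : pr3 R (j + 2) ≤ 256 * (16 * pr3 R j) := by
      refine (pr3_up R j 2).trans ?_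
      have h7 : (2 : ℝ) ^ ((67 / 12 : ℝ) * ((2 : ℕ) : ℝ)) ≤ 4096 := by
        calc (2 : ℝ) ^ ((67 / 12 : ℝ) * ((2 : ℕ) : ℝ)) ≤ (2 : ℝ) ^ (12 : ℝ) :=
              Real.rpow_le_rpow_of_exponent_le (by norm_num) (by norm_num)
          _ = 4096 := by
            rw [show (12 : ℝ) = ((12 : ℕ) : ℝ) by norm_num, Real.rpow_natCast]
            norm_num
      nlinarith
    refine (num_one (P := 16 * pr3 R j) (P' := pr3 R (j + 2)) hC1 hC2 (by linarith) (by linarith) (by linarith) hD0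
      (by positivity) h6 hUj.le ((Ub_mono (show j ≤ s + d by omega)).trans (hU s d).1) rfl).trans (le_of_eq ?_)
    ring
  · refine le_trans (gf_mono fun V hV => ?_) (hM s j M (by omega) hM0)
    exact hV.1.2

/-- **row TrStP, the first word** -/
theorem trStP {η : ℝ} (hη : 0 < η) (m c : ℕ) {ε : ℝ} (hε : 0 < ε) : ∃ K : ℝ, 0 < K ∧ ∀ (D : ℝ) (R j : ℕ) (t : ℝ), 1 ≤ D →
    HF3 D R j → gp {T | T ∈ P3 R j ∧ TrB j m c η K t T.1} ≤ ENNReal.ofReal (ε * D * pr3 R j) := by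
  classical
  obtain ⟨C, hC, hS⟩ := one_scP hη m c
  obtain ⟨r, hr⟩ : ∃ r : ℝ, r = PMA.tw (-(5 / 48)) := ⟨_, rfl⟩
  have hr0 : 0 < r := by rw [hr]; exact PMA.tw_pos _
  have hr1 : r < 1 := by
    rw [hr]
    unfold PMA.tw
    exact Real.rpow_lt_one_of_one_lt_of_neg (by norm_num) (by norm_num)
  have hs : 0 < (1 - r)⁻¹ := inv_pos.2 (by linarith)
  obtain ⟨κ, hκd⟩ : ∃ κ : ℝ, κ = 1 + C * (1 - r)⁻¹ / ε := ⟨_, rfl⟩
  have hκ1 : 1 ≤ κ := by rw [hκd]; have : 0 < C * (1 - r)⁻¹ / ε := by positivity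
                         linarith
  have hκ2 : C / κ ^ 2 * (1 - r)⁻¹ ≤ ε := by
    have h1 : C * (1 - r)⁻¹ ≤ ε * κ := by
      rw [hκd]
      have : ε * (1 + C * (1 - r)⁻¹ / ε) = ε + C * (1 - r)⁻¹ := by field_simp
      rw [this]
      linarith
    have h2 : κ ≤ κ ^ 2 := by nlinarith
    rw [div_mul_eq_mul_div, div_le_iff₀ (by positivity)]
    exact h1.trans (mul_le_mul_of_nonneg_left h2 hε.le)
  obtain ⟨K, hK, hsc⟩ := scale_ex hκ1
  refine ⟨K, hK, fun D R j t hD hF => ?_⟩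
  have hp := (pr3_pos R j).le
  have hsub : {T | T ∈ P3 R j ∧ TrB j m c η K t T.1} ⊆ ⋃ d ∈ range (j + 3), {T | T ∈ P3 R j ∧ Mc κ (j + 2 - d) d ≤
      (nD (2 ^ (j + (m + c + 3))) (rT (j + 2 - d) j m η (Mc κ (j + 2 - d) d)) T.1 : ℝ)} := by
    rintro ⟨L, G⟩ ⟨hL, A, Z, Y, he, h1, h2, h3, h4, h5, h6, -⟩
    have he : L = A ++ (Z ++ Y) := he
    subst he
    obtain ⟨s, d, hsd, h7⟩ := hsc j Z h3 h4 h6
    rw [Set.mem_iUnion₂]
    refine ⟨d, mem_range.2 (by omega), hL, ?_⟩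
    rw [show j + 2 - d = s by omega]
    exact geo_one hL.1 h1 h2 h4 h5 le_rfl (Ub_le_Mc hκ1 s d) h7
  refine (gp_mono hsub).trans ((gp_biUnion_le _ _).trans ?_)
  have h1 : ∀ d ∈ range (j + 3), gp {T | T ∈ P3 R j ∧ Mc κ (j + 2 - d) d ≤
      (nD (2 ^ (j + (m + c + 3))) (rT (j + 2 - d) j m η (Mc κ (j + 2 - d) d)) T.1 : ℝ)} ≤
      ENNReal.ofReal (C / κ ^ 2 * (D * pr3 R j) * r ^ d) := by
    intro d hd
    rw [mem_range] at hd
    rw [hr]
    exact hS κ hκ1 D R j (j + 2 - d) d hD hF (by omega)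
  refine (sum_le_sum h1).trans ?_
  rw [← ENNReal.ofReal_sum_of_nonneg (fun d _ => by positivity), ← mul_sum]
  refine ENNReal.ofReal_le_ofReal ?_
  have h2 : ∑ d ∈ range (j + 3), r ^ d ≤ (1 - r)⁻¹ := by
    rw [← tsum_geometric_of_lt_one hr0.le hr1]
    exact (summable_geometric_of_lt_one hr0.le hr1).sum_le_tsum _ fun i _ => by positivity
  have hD0 : 0 ≤ D := by linarith
  calc C / κ ^ 2 * (D * pr3 R j) * ∑ d ∈ range (j + 3), r ^ d ≤ C / κ ^ 2 * (D * pr3 R j) * (1 - r)⁻¹ :=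
        mul_le_mul_of_nonneg_left h2 (by positivity)
    _ = C / κ ^ 2 * (1 - r)⁻¹ * (D * pr3 R j) := by ring
    _ ≤ ε * (D * pr3 R j) := mul_le_mul_of_nonneg_right hκ2 (by positivity)
    _ = _ := by ring

/-- **row TrStP, the second word** -/
theorem trStP2 {η : ℝ} (hη : 0 < η) (m c : ℕ) {ε : ℝ} (hε : 0 < ε) : ∃ K : ℝ, 0 < K ∧ ∀ (D : ℝ) (R j : ℕ) (t : ℝ), 1 ≤ D →
    HF3 D R j → gp {T | T ∈ P3 R j ∧ (TrB j m c η K t T.1 ∨ TrB j m c η K t T.2.2)} ≤ ENNReal.ofReal (ε * D * pr3 R j) := by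
  obtain ⟨K, hK, h⟩ := trStP hη m c (ε := ε / 2) (by positivity)
  refine ⟨K, hK, fun D R j t hD hF => ?_⟩
  have h1 := h D R j t hD hF
  have h2 : gp {T | T ∈ P3 R j ∧ TrB j m c η K t T.2.2} = gp {T | T ∈ P3 R j ∧ TrB j m c η K t T.1} :=
    gp_sw_P3 fun T => TrB j m c η K t T.1
  have hsub : {T | T ∈ P3 R j ∧ (TrB j m c η K t T.1 ∨ TrB j m c η K t T.2.2)} ⊆
      {T | T ∈ P3 R j ∧ TrB j m c η K t T.1} ∪ {T | T ∈ P3 R j ∧ TrB j m c η K t T.2.2} := by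
    rintro T ⟨h3, h4 | h4⟩
    · exact Or.inl ⟨h3, h4⟩
    · exact Or.inr ⟨h3, h4⟩
  have hp := (pr3_pos R j).le
  have hD0 : 0 ≤ D := by linarith
  refine (gp_mono hsub).trans ((gp_union_le _ _).trans ?_)
  rw [h2]
  refine (add_le_add h1 h1).trans (le_of_eq ?_)
  rw [← ENNReal.ofReal_add (by positivity) (by positivity)]
  congr 1
  ring

end TrP

end RMP

end HexObs
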