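import Pool.Agent.RMP.SepR
import Pool.Agent.PMA.TrDef

/-!
# RMP, row TrZ (helper73): the pairs of `PR` with too many cuts behind a good cut

* `TrStQ` : the literal of the row TrSt for pairs (one word, under `HF3`);
* **`trz_of`** : `T1P`, `P9R`, `P11R` and `TrStQ` give the bound relative to the mass of `PR`, both words.
-/

set_option autoImplicit false

namespace HexObs

namespace RMP

open Finset TS SDN NTA TIP ARM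

open scoped ENNReal

/-- **row TrSt for pairs** (one word) -/
def TrStQ : Prop := ∀ (η : ℝ) (m c : ℕ) (ε : ℝ), 0 < η → 0 < ε → ∃ (K : ℝ) (b0 : ℕ), 0 < K ∧
  ∀ (D : ℝ) (R j : ℕ) (t : ℝ), 1 ≤ D → HF3 D R j → b0 ≤ j → 2 ^ (b0 + j) ≤ R →
    gp {T | T ∈ P3 R j ∧ PMA.TrB j m c η K t T.1} ≤ ENNReal.ofReal (ε * D * pr3 R j)

/-- **the pairs of PR with too many cuts behind a good cut** -/
theorem trz_of (hT : T1P) (hS : TrStQ) (h9 : P9R) (h11 : P11R) : ∀ ε t0 d : ℝ, 0 < ε → 0 < t0 → 0 < d →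
    ∀ (η : ℝ) (m c : ℕ), 0 < η → ∃ K r0 : ℝ, 0 < K ∧ 0 < r0 ∧ ∀ r : ℝ, 0 < r → r ≤ r0 → ∃ n0 : ℕ,
      ∀ (n k j : ℕ) (S : Set Pt), n0 ≤ n → Ctx t0 r n k j S → ∀ t : ℝ,
        gp {T | T ∈ PR n k d S ∧ ¬ (¬ PMA.TrB j m c η K t T.1 ∧ ¬ PMA.TrB j m c η K t T.2.2)} ≤
          ENNReal.ofReal ε * gp (PR n k d S) := by
  intro ε t0 d hε ht hd η m c hη
  obtain ⟨D0, hD0, hT⟩ := hT
  obtain ⟨D, hD⟩ : ∃ D : ℝ, D = max D0 1 := ⟨_, rfl⟩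
  have hD1 : 1 ≤ D := by rw [hD]; exact le_max_right _ _
  have hDp : 0 < D := by linarith
  have hHF : ∀ R j : ℕ, HF3 D R j := fun R j i _ => (hT R i).trans (ENNReal.ofReal_le_ofReal
    (mul_le_mul_of_nonneg_right (by rw [hD]; exact le_max_left _ _) (pr3_pos R i).le))
  obtain ⟨c9, r9, hc9, hr9, h9⟩ := h9 t0 d ht hd
  obtain ⟨Λ, r11, hΛ, hr11, h11⟩ := h11 (ε * c9 / 2) t0 d (by positivity) ht hd
  have hΛ0 : (0 : ℝ) < Λ := by exact_mod_cast hΛ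
  obtain ⟨K, b0, hK, hS⟩ := hS η m c (ε * c9 / 4 / D / (Λ : ℝ) ^ (25 / 8 : ℝ)) hη (by positivity)
  obtain ⟨r0, hr0⟩ : ∃ r0 : ℝ, r0 = min (min r9 r11) (1 / (8 * 2 ^ b0)) := ⟨_, rfl⟩
  have hr0p : 0 < r0 := by rw [hr0]; positivity
  refine ⟨K, r0, hK, hr0p, fun r hr hrr => ?_⟩
  have q1 : r ≤ r9 := hrr.trans (hr0 ▸ (min_le_left _ _).trans (min_le_left _ _))
  have q2 : r ≤ r11 := hrr.trans (hr0 ▸ (min_le_left _ _).trans (min_le_right _ _))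
  have q3 : r ≤ 1 / (8 * 2 ^ b0) := hrr.trans (hr0 ▸ min_le_right _ _)
  obtain ⟨n9, h9⟩ := h9 r hr q1
  obtain ⟨n11, h11⟩ := h11 r hr q2
  obtain ⟨nb, hb⟩ := Ctx.big hr b0
  refine ⟨n9 + n11 + nb, fun n k j S hn hC t => ?_⟩
  have hj : b0 ≤ j := hb t0 n k j S (by omega) hC
  have h9 := h9 n k j S (by omega) hC
  have h11 := h11 n k j S (by omega) hC
  have hR : 2 ^ (b0 + j) ≤ Λ * nZ n := by
    have g1 : (2 : ℝ) ^ (b0 + j) ≤ (Λ : ℝ) * nZ n := by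
      have g2 : (2 : ℝ) ^ j ≤ 8 * r * (n : ℝ) ^ (3 / 4 : ℝ) := hC.j2
      have g3 : (0 : ℝ) ≤ (n : ℝ) ^ (3 / 4 : ℝ) := by positivity
      have g4 : (2 : ℝ) ^ b0 * (8 * r) ≤ 1 := by
        rw [le_div_iff₀ (by positivity)] at q3
        linarith
      calc (2 : ℝ) ^ (b0 + j) = 2 ^ b0 * 2 ^ j := pow_add _ _ _
        _ ≤ 2 ^ b0 * (8 * r * (n : ℝ) ^ (3 / 4 : ℝ)) := mul_le_mul_of_nonneg_left g2 (by positivity)
        _ = (2 ^ b0 * (8 * r)) * (n : ℝ) ^ (3 / 4 : ℝ) := by ring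
        _ ≤ 1 * (n : ℝ) ^ (3 / 4 : ℝ) := mul_le_mul_of_nonneg_right g4 g3
        _ = (n : ℝ) ^ (3 / 4 : ℝ) := one_mul _
        _ ≤ nZ n := nZ_ge n
        _ ≤ (Λ : ℝ) * nZ n := le_mul_of_one_le_left (Nat.cast_nonneg _) (by exact_mod_cast hΛ)
    exact_mod_cast g1
  have hp := pr3_pos (nZ n) j
  have hmass : gp {T | T ∈ P3 (Λ * nZ n) j ∧ PMA.TrB j m c η K t T.1} ≤ ENNReal.ofReal (ε * c9 / 4 * pr3 (nZ n) j) := by
    refine (hS D (Λ * nZ n) j t hD1 (hHF _ _) hj hR).trans (ENNReal.ofReal_le_ofReal ?_)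
    have g1 := pr3_mul hΛ (nZ n) j
    have g2 : (0 : ℝ) < (Λ : ℝ) ^ (25 / 8 : ℝ) := by positivity
    calc ε * c9 / 4 / D / (Λ : ℝ) ^ (25 / 8 : ℝ) * D * pr3 (Λ * nZ n) j
        ≤ ε * c9 / 4 / D / (Λ : ℝ) ^ (25 / 8 : ℝ) * D * ((Λ : ℝ) ^ (25 / 8 : ℝ) * pr3 (nZ n) j) :=
          mul_le_mul_of_nonneg_left g1 (by positivity)
      _ = ε * c9 / 4 * pr3 (nZ n) j := by
        field_simp
  have hmass2 : gp {T | T ∈ P3 (Λ * nZ n) j ∧ PMA.TrB j m c η K t T.2.2} ≤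
      ENNReal.ofReal (ε * c9 / 4 * pr3 (nZ n) j) :=
    (gp_sw_P3 (R := Λ * nZ n) (i := j) fun T : PT => PMA.TrB j m c η K t T.1).le.trans hmass
  have hboth : gp ({T | T ∈ P3 (Λ * nZ n) j ∧ PMA.TrB j m c η K t T.1} ∪
      {T | T ∈ P3 (Λ * nZ n) j ∧ PMA.TrB j m c η K t T.2.2}) ≤ ENNReal.ofReal (ε * c9 / 2 * pr3 (nZ n) j) :=
    gp_two (x := ε * c9 / 4 * pr3 (nZ n) j) (y := ε * c9 / 4 * pr3 (nZ n) j) subset_rfl (by positivity) (by positivity)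
      (le_of_eq (by ring)) hmass hmass2
  refine (gp_two (A := PR n k d S \ P3 (Λ * nZ n) j) (B := {T | T ∈ P3 (Λ * nZ n) j ∧ PMA.TrB j m c η K t T.1} ∪
    {T | T ∈ P3 (Λ * nZ n) j ∧ PMA.TrB j m c η K t T.2.2})
    (x := ε * c9 / 2 * pr3 (nZ n) j) (y := ε * c9 / 2 * pr3 (nZ n) j) (z := ε * (c9 * pr3 (nZ n) j)) ?_ (by positivity)
    (by positivity) (le_of_eq (by ring)) h11 hboth).trans ?_
  · rintro T ⟨g1, g2⟩
    by_cases g3 : T ∈ P3 (Λ * nZ n) j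
    · by_cases g4 : PMA.TrB j m c η K t T.1
      · exact Or.inr (Or.inl ⟨g3, g4⟩)
      · refine Or.inr (Or.inr ⟨g3, ?_⟩)
        by_contra g5
        exact g2 ⟨g4, g5⟩
    · exact Or.inl ⟨g1, g3⟩
  · rw [ENNReal.ofReal_mul hε.le]
    exact mul_le_mul_right h9 _

end RMP

end HexObs
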