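import Pool.Agent.RMP.KaRows
import Pool.Agent.RMP.PubZ
import Pool.Agent.RMP.P9
import Pool.Agent.RMP.LocD
import Pool.Agent.RMP.T1P
import Pool.Agent.RMP.FarE
import Pool.Agent.RMP.SepF
import Pool.Agent.RMP.TrZR
import Pool.Agent.RMP.TrStP

/-!
# (RM'): the renormalisation map, no hypothesis (helper90; rows by all seats of RMP)

* `rmw : RMW` : the finite form in words; `rmPub : RMPub` : the public form.
-/

set_option autoImplicit false

namespace HexObs

namespace RMP

namespace All

/-- **row TrSt for pairs** -/
theorem trStQ : TrStQ := by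
  intro η m c ε hη hε
  obtain ⟨K, hK, h⟩ := TrP.trStP hη m c hε
  exact ⟨K, 0, hK, fun D R j t hD hH _ _ => h D R j t hD hH⟩

/-- **many admissible pairs of cuts** -/
theorem manyR : ManyR := manyR_of sepR p9R joinP

/-- **the transport exists** -/
theorem kRows : KA.KRows := KA.kRows_of manyR p9R (trz_of t1P trStQ p9R (p11R_of t1P)) locD

/-- **the finite form in words** -/
theorem rmw : RMW := KA.rmw_of kRows KA.rectP

/-- **the public form** -/
theorem rmPub : Pool.Agent.RMP.RMPub := Pool.Agent.RMP.rmPub_of rmw

end All

end RMP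

end HexObs
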