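import Pool.Agent.RMP.LocJ

/-!
# (RM), row K7 for pairs (helper6): invariant cuts and their locality

`FreeT`, `FreeO` use the box `Bl`, which is not invariant under the rotations of the lattice. Here the ball of the hexagonal
norm: `FreeH`, `FreeOH`, **`CutPI`**. Comparison: `CutPP a → CutPI a → CutPP (a + 2)` (`cutPI_of_PP`, `cutPP_of_PI`),
`GP_mono_a`, `gcp_mono_a`.

Relative coordinates (`rl T`): the conditions depend only on the relative vertices `CutI.sA T`, `CutI.sB T`, the parts `Y1`, `Y2` and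
`zr T`, `dr T`. For near pairs (`NrP t1 t2 w T T'`): **`sa_locP`** (the operated pair is a pair), **`cutPI_loc`**,
**`gap_loc`** (difference of the tips).
-/

set_option autoImplicit false

namespace HexObs

namespace RMP

open Finset TS SDN HexObs.SIM TIP ARM TIW

open ARM.G3 (rc nrm_rc rt_rc)

/-! ### 1. definitions -/

/-- the half ball of radius r (hexagonal norm) in front of the tip is free -/
def FreeH (r : ℤ) (L : List Bool) : Prop :=
  ∀ i, i ≤ L.length → 0 < ip (vx oo up L i - tipv L) (tipd L) → r < hn (vx oo up L i - tipv L)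

/-- the half ball of radius r (hexagonal norm) in front of the tip of L is free of E -/
def FreeOH (r : ℤ) (E : Set Pt) (L : List Bool) : Prop := ∀ p ∈ E, 0 < ip (p - tipv L) (tipd L) → r < hn (p - tipv L)

/-- **a pair of good cuts, invariant form** -/
def CutPI (j a m : ℕ) (η : ℝ) (A Y1 : List Bool) (g : Pt × Pt) (B Y2 : List Bool) : Prop :=
  (rev Y1 ∈ GT j η ∧ In (2 ^ (j + m)) Y1 ∧ FreeH (2 ^ (j - a)) A ∧ FreeOH (2 ^ (j - a)) (ob g (B ++ Y2)) A) ∧
    rev Y2 ∈ GT j η ∧ In (2 ^ (j + m)) Y2 ∧ FreeH (2 ^ (j - a)) B ∧ FreeOH (2 ^ (j - a)) (ob (gi g) (A ++ Y1)) B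

/-! ### 2. comparison with the box -/

namespace CutI

theorem hn_bl {p q : Pt} {r : ℕ} (h : p ∈ Bl q r) : hn (p - q) ≤ 3 * r := by
  obtain ⟨h1, h2⟩ := h
  have e1 : (p - q).1 = p.1 - q.1 := rfl
  have e2 : (p - q).2 = p.2 - q.2 := rfl
  rw [← e1, abs_le] at h1
  rw [← e2, abs_le] at h2
  generalize p - q = v at h1 h2 ⊢
  refine TIW.hn_le fun d hd => ?_
  obtain ⟨x, y⟩ := v
  simp only [dirs, mem_insert, mem_singleton] at hd
  unfold ip
  rcases hd with rfl | rfl | rfl | rfl | rfl | rfl <;> (try simp only at h1 h2) <;> (try simp only) <;> omega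

theorem bl_hn {p q : Pt} {r : ℕ} (h : hn (p - q) ≤ r) : p ∈ Bl q r := by
  have e1 : (p - q).1 = p.1 - q.1 := rfl
  have e2 : (p - q).2 = p.2 - q.2 := rfl
  have k : ∀ d ∈ dirs, ip (p - q) d ≤ r := fun d hd => (TIW.ip_le_hn _ hd).trans h
  have k1 := k (1, 0) (by decide)
  have k2 := k (-1, 0) (by decide)
  have k3 := k (0, 1) (by decide)
  have k4 := k (0, -1) (by decide)
  have k5 := k (1, -1) (by decide)
  have k6 := k (-1, 1) (by decide)
  unfold ip at k1 k2 k3 k4 k5 k6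
  rw [e1, e2] at k1 k2 k3 k4 k5 k6
  simp only at k1 k2 k3 k4 k5 k6
  constructor <;> rw [abs_le] <;> constructor <;> omega

theorem freeH_of {r : ℕ} {L : List Bool} (h : FreeT r L) : FreeH r L := by
  intro i hi h1
  by_contra h2
  exact h i hi h1 (bl_hn (not_lt.1 h2))

theorem freeOH_of {r : ℕ} {E : Set Pt} {L : List Bool} (h : FreeO r E L) : FreeOH r E L := by
  intro p hp h1
  by_contra h2
  exact h p hp h1 (bl_hn (not_lt.1 h2))

theorem freeT_of {r : ℕ} {s : ℤ} {L : List Bool} (hr : 3 * (r : ℤ) ≤ s) (h : FreeH s L) : FreeT r L := by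
  intro i hi h1 h2
  have h3 := h i hi h1
  have h4 := hn_bl h2
  omega

theorem freeO_of {r : ℕ} {s : ℤ} {E : Set Pt} {L : List Bool} (hr : 3 * (r : ℤ) ≤ s) (h : FreeOH s E L) : FreeO r E L := by
  intro p hp h1 h2
  have h3 := h p hp h1
  have h4 := hn_bl h2
  omega

theorem pow3 {j a : ℕ} (ha : a + 2 ≤ j) : 3 * (((2 ^ (j - (a + 2)) : ℕ)) : ℤ) ≤ 2 ^ (j - a) := by
  have e : j - a = j - (a + 2) + 2 := by omega
  rw [e, pow_add]
  push_cast
  have : (0 : ℤ) < 2 ^ (j - (a + 2)) := by positivity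
  linarith

/-- the vertices are free for the cuts of the word -/
theorem ncp_iff {b a D : ℕ} {η : ℝ} {E : Set Pt} {A Y : List Bool} :
    Y ∈ NCp b a D η E (A ++ Y) ↔ rev Y ∈ GT b η ∧ In D Y ∧ FreeT (2 ^ a) A ∧ FreeO (2 ^ a) E A := by
  constructor
  · rintro ⟨h1, h2, A', h3, h4, h5⟩
    obtain rfl : A = A' := List.append_cancel_right h3
    exact ⟨h1, h2, h4, h5⟩
  · rintro ⟨h1, h2, h3, h4⟩
    exact ⟨h1, h2, A, rfl, h3, h4⟩

end CutI

open CutI

variable {j a m : ℕ} {η : ℝ} {A Y1 : List Bool} {g : Pt × Pt} {B Y2 : List Bool}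

theorem cutPI_of_PP (h : CutPP j a m η A Y1 g B Y2) : CutPI j a m η A Y1 g B Y2 := by
  obtain ⟨h1, h2⟩ := h
  obtain ⟨a1, a2, a3, a4⟩ := ncp_iff.1 h1
  obtain ⟨b1, b2, b3, b4⟩ := ncp_iff.1 h2
  have e : ((2 ^ (j - a) : ℕ) : ℤ) = 2 ^ (j - a) := by push_cast; rfl
  have c3 := freeH_of a3
  have c4 := freeOH_of a4
  have d3 := freeH_of b3
  have d4 := freeOH_of b4
  rw [e] at c3 c4 d3 d4
  exact ⟨⟨a1, a2, c3, c4⟩, b1, b2, d3, d4⟩

theorem cutPP_of_PI (ha : a + 2 ≤ j) (h : CutPI j a m η A Y1 g B Y2) : CutPP j (a + 2) m η A Y1 g B Y2 := by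
  obtain ⟨⟨a1, a2, a3, a4⟩, b1, b2, b3, b4⟩ := h
  exact ⟨ncp_iff.2 ⟨a1, a2, freeT_of (pow3 ha) a3, freeO_of (pow3 ha) a4⟩,
    ncp_iff.2 ⟨b1, b2, freeT_of (pow3 ha) b3, freeO_of (pow3 ha) b4⟩⟩

/-! ### 3. monotonicity in `a` -/

namespace CutI

theorem ncp_fin (b a D : ℕ) (η : ℝ) (E : Set Pt) (t : List Bool) : (NCp b a D η E t).Finite := by
  refine Set.Finite.subset (List.finite_toSet t.tails) ?_
  rintro Y ⟨-, -, A, h, -, -⟩
  show Y ∈ t.tails
  rw [List.mem_tails, h]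
  exact List.suffix_append A Y

theorem freeT_mono {r s : ℕ} (h : r ≤ s) {L : List Bool} (hF : FreeT s L) : FreeT r L := by
  intro i hi h1 h2
  have h3 : ((r : ℕ) : ℤ) ≤ s := by exact_mod_cast h
  exact hF i hi h1 ⟨h2.1.trans h3, h2.2.trans h3⟩

theorem freeO_mono {r s : ℕ} (h : r ≤ s) {E : Set Pt} {L : List Bool} (hF : FreeO s E L) : FreeO r E L := by
  intro p hp h1 h2
  have h3 : ((r : ℕ) : ℤ) ≤ s := by exact_mod_cast h
  exact hF p hp h1 ⟨h2.1.trans h3, h2.2.trans h3⟩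

theorem ncp_mono {b a a' D : ℕ} (h : a' ≤ a) (η : ℝ) (E : Set Pt) (t : List Bool) : NCp b a D η E t ⊆ NCp b a' D η E t := by
  rintro Y ⟨h1, h2, A, h3, h4, h5⟩
  have h6 : 2 ^ a' ≤ 2 ^ a := Nat.pow_le_pow_right (by norm_num) h
  exact ⟨h1, h2, A, h3, freeT_mono h6 h4, freeO_mono h6 h5⟩

end CutI

theorem gcp_mono_a {a' : ℕ} (h : a ≤ a') (E : Set Pt) (L : List Bool) : gcp j a m η E L ≤ gcp j a' m η E L := by
  unfold gcp
  exact_mod_cast Set.ncard_le_ncard (ncp_mono (by omega) η E L) (ncp_fin _ _ _ _ _ _)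

theorem GP_mono_a {R : ℕ} {κ : ℝ} {a' c u e k : ℕ} (h : a ≤ a') : GP R j η κ a m c u e k ⊆ GP R j η κ a' m c u e k := by
  rintro T ⟨h1, ⟨h2, h3, h4⟩, ⟨h5, h6, h7⟩, h8⟩
  exact ⟨h1, ⟨h2, h3.trans (gcp_mono_a h _ _), h4⟩, ⟨h5, h6.trans (gcp_mono_a h _ _), h7⟩, h8⟩

/-! ### 4. relative vertices -/

namespace CutI

/-- the relative vertices of the first word -/
def sA (T : PT) : Set Pt := {p | ∃ i, i ≤ T.1.length ∧ p = rl T (vx oo up T.1 i)}

/-- the relative vertices of the second word -/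
def sB (T : PT) : Set Pt := {p | ∃ i, i ≤ T.2.2.length ∧ p = rl T (pv T.2.1 T.2.2 i)}

/-- a vertex behind the tip of the second word, relative to the tip of the first -/
def q2 (T : PT) (p : Pt) : Pt := zr T + mulE (rotTo up (dr T)) p

theorem dr_mem {T : PT} (hg : T.2.1.2 ∈ dirs) : dr T ∈ dirs := by
  unfold dr pd
  exact mulE_mem (nrm_rc _) (mulE_mem (mem_dirs.1 hg) (de_mem _))

/-- the rotation of the second word -/
theorem rot2 {T : PT} (_hg : T.2.1.2 ∈ dirs) : rotTo up (dr T) = mulE (rc T.1) (mulE T.2.1.2 (rt T.2.2)) := by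
  have h : mulE up (rotTo up (dr T)) = mulE up (mulE (rc T.1) (mulE T.2.1.2 (rt T.2.2))) := by
    rw [mulE_comm up, rotTo_apply _ upd', mulE_comm up, ← mulE_assoc, ← mulE_assoc, rt_up]
    rfl
  exact mulE_inj (mem_dirs.1 upd') h

/-- the vertices behind the tip of the first word -/
theorem rl_op1 (T : PT) (Y : List Bool) (k : ℕ) : rl T (vx oo up (T.1 ++ Y) (T.1.length + k)) = vx oo up Y k := by
  rw [TIW.vx_app, rl_rt]

/-- the vertices behind the tip of the second word -/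
theorem rl_op2 {T : PT} (hg : T.2.1.2 ∈ dirs) (Y : List Bool) (k : ℕ) :
    rl T (pv T.2.1 (T.2.2 ++ Y) (T.2.2.length + k)) = q2 T (vx oo up Y k) := by
  unfold q2
  rw [rot2 hg]
  unfold pv
  rw [TIW.vx_app, mulE_add, ← add_assoc]
  unfold zr rl pe pv
  rw [← mulE_assoc, ← mulE_assoc, ← mulE_add]
  congr 1
  show _ = T.2.1.1 + mulE T.2.1.2 (vx oo up T.2.2 T.2.2.length) - en T.1 + _
  unfold TIW.en
  abel

theorem rl_inj {T : PT} {p q : Pt} (h : rl T p = rl T q) : p = q := by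
  have h1 := rt_rl T p
  rw [h, rt_rl] at h1
  exact h1.symm

theorem sA_iff {T : PT} {Y : List Bool} {i : ℕ} (hi : i ≤ T.1.length) : rl T (vx oo up (T.1 ++ Y) i) ∈ sA T := by
  rw [vx_append (by omega)]
  exact ⟨i, hi, rfl⟩

theorem sB_iff {T : PT} {Y : List Bool} {i : ℕ} (hi : i ≤ T.2.2.length) : rl T (pv T.2.1 (T.2.2 ++ Y) i) ∈ sB T := by
  refine ⟨i, hi, ?_⟩
  unfold pv
  rw [vx_append (by omega)]

/-- the vertices of the operated first word -/
theorem vtx1 (T : PT) (Y : List Bool) {i : ℕ} (hi : i ≤ (T.1 ++ Y).length) :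
    rl T (vx oo up (T.1 ++ Y) i) ∈ sA T ∨ ∃ k, k ≤ Y.length ∧ i = T.1.length + k ∧ rl T (vx oo up (T.1 ++ Y) i) = vx oo up Y k := by
  rw [List.length_append] at hi
  rcases le_or_gt i T.1.length with h | h
  · exact Or.inl (sA_iff h)
  · obtain ⟨k, rfl⟩ : ∃ k, i = T.1.length + k := ⟨i - T.1.length, by omega⟩
    exact Or.inr ⟨k, by omega, rfl, rl_op1 T Y k⟩

theorem vtx2 {T : PT} (hg : T.2.1.2 ∈ dirs) (Y : List Bool) {i : ℕ} (hi : i ≤ (T.2.2 ++ Y).length) :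
    rl T (pv T.2.1 (T.2.2 ++ Y) i) ∈ sB T ∨
      ∃ k, k ≤ Y.length ∧ i = T.2.2.length + k ∧ rl T (pv T.2.1 (T.2.2 ++ Y) i) = q2 T (vx oo up Y k) := by
  rw [List.length_append] at hi
  rcases le_or_gt i T.2.2.length with h | h
  · exact Or.inl (sB_iff h)
  · obtain ⟨k, rfl⟩ : ∃ k, i = T.2.2.length + k := ⟨i - T.2.2.length, by omega⟩
    exact Or.inr ⟨k, by omega, rfl, rl_op2 hg Y k⟩

/-! ### 5. the conditions in relative coordinates -/

theorem hn_rl2 (T : PT) (p q : Pt) : hn (p - q) = hn (rl T p - rl T q) := by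
  unfold rl
  rw [← mulE_sub, TIW.hn_mulE (nrm_rc T.1)]
  congr 1
  abel

theorem ip_rl2 (T : PT) (p q d : Pt) : ip (p - q) d = ip (rl T p - rl T q) (mulE (rc T.1) d) := by
  unfold rl
  rw [← mulE_sub, J5.ip_mulE' (rc_mem T.1)]
  congr 1
  abel

theorem rl_en (T : PT) : rl T (tipv T.1) = 0 := by
  unfold rl
  show mulE (rc T.1) (en T.1 - en T.1) = 0
  rw [sub_self]
  show mulE (rc T.1) (0, 0) = (0, 0)
  unfold mulE
  simp

theorem rc_de (T : PT) : mulE (rc T.1) (tipd T.1) = up := by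
  have h : tipd T.1 = mulE (rt T.1) up := (rt_up T.1).symm
  rw [h, rc_rt]

/-- the half ball in front of the first tip -/
def F1 (r : ℤ) (V : Set Pt) : Prop := ∀ p ∈ V, 0 < ip p up → r < hn p

/-- the half ball in front of the second tip -/
def F2 (r : ℤ) (z d : Pt) (V : Set Pt) : Prop := ∀ p ∈ V, 0 < ip (p - z) d → r < hn (p - z)

theorem key1 {T : PT} (r : ℤ) (p : Pt) : (0 < ip (p - tipv T.1) (tipd T.1) → r < hn (p - tipv T.1)) ↔
    (0 < ip (rl T p) up → r < hn (rl T p)) := by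
  rw [ip_rl2 T, hn_rl2 T, rl_en, rc_de, sub_zero]

theorem key2 {T : PT} (r : ℤ) (p : Pt) : (0 < ip (p - pe T.2.1 T.2.2) (pd T.2.1 T.2.2) → r < hn (p - pe T.2.1 T.2.2)) ↔
    (0 < ip (rl T p - zr T) (dr T) → r < hn (rl T p - zr T)) := by
  rw [ip_rl2 T, hn_rl2 T]
  rfl

theorem freeH1 {T : PT} {r : ℤ} : FreeH r T.1 ↔ F1 r (sA T) := by
  constructor
  · rintro h _ ⟨i, hi, rfl⟩
    exact (key1 r _).1 (h i hi)
  · intro h i hi
    exact (key1 r _).2 (h _ ⟨i, hi, rfl⟩)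

/-- the second word in its own frame -/
theorem key3 {g : Pt × Pt} (hg : g.2 ∈ dirs) (B : List Bool) (r : ℤ) (p : Pt) :
    (0 < ip (p - tipv B) (tipd B) → r < hn (p - tipv B)) ↔
    (0 < ip (g.1 + mulE g.2 p - pe g B) (pd g B) → r < hn (g.1 + mulE g.2 p - pe g B)) := by
  have e1 : g.1 + mulE g.2 p - pe g B = mulE g.2 (p - tipv B) := by
    rw [mulE_sub]
    show g.1 + mulE g.2 p - (g.1 + mulE g.2 (vx oo up B B.length)) = mulE g.2 p - mulE g.2 (vx oo up B B.length)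
    abel
  have e2 : pd g B = mulE g.2 (tipd B) := rfl
  rw [e1, e2, J5.ip_mulE' hg, TIW.hn_mulE (mem_dirs.1 hg)]

theorem freeH2 {T : PT} (hg : T.2.1.2 ∈ dirs) {r : ℤ} : FreeH r T.2.2 ↔ F2 r (zr T) (dr T) (sB T) := by
  constructor
  · rintro h _ ⟨i, hi, rfl⟩
    exact (key2 r _).1 ((key3 hg _ r _).1 (h i hi))
  · intro h i hi
    exact (key3 hg _ r _).2 ((key2 r _).2 (h _ ⟨i, hi, rfl⟩))

/-- the relative vertices of `Y` behind the first tip -/
def sY (Y : List Bool) : Set Pt := {p | ∃ k, k ≤ Y.length ∧ p = vx oo up Y k}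

theorem freeOH1 {T : PT} (hg : T.2.1.2 ∈ dirs) {r : ℤ} (Y : List Bool) : FreeOH r (ob T.2.1 (T.2.2 ++ Y)) T.1 ↔
    F1 r (sB T) ∧ F1 r (q2 T '' sY Y) := by
  constructor
  · intro h
    constructor
    · rintro _ ⟨i, hi, rfl⟩
      refine (key1 r _).1 (h _ ⟨i, by rw [List.length_append]; omega, ?_⟩)
      unfold pv
      rw [vx_append (by omega)]
    · rintro _ ⟨_, ⟨k, hk, rfl⟩, rfl⟩
      rw [← rl_op2 hg]
      exact (key1 r _).1 (h _ ⟨_, by rw [List.length_append]; omega, rfl⟩)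
  · rintro ⟨h1, h2⟩ _ ⟨i, hi, rfl⟩
    refine (key1 r _).2 ?_
    rcases vtx2 hg Y hi with h3 | ⟨k, hk, -, h3⟩
    · exact h1 _ h3
    · rw [h3]
      exact h2 _ ⟨_, ⟨k, hk, rfl⟩, rfl⟩

theorem gi_pv {g : Pt × Pt} (hg : g.2 ∈ dirs) (p : Pt) : g.1 + mulE g.2 ((gi g).1 + mulE (gi g).2 p) = p := by
  have h1 : nrm g.2 = 1 := mem_dirs.1 hg
  have h2 : ∀ q : Pt, mulE g.2 (mulE (conjE g.2) q) = q := by
    intro q
    rw [mulE_assoc, mulE_conjE, h1, mulE_one]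
  unfold gi
  simp only
  rw [mulE_add, mulE_neg, h2, h2]
  abel

theorem freeOH2 {T : PT} (hg : T.2.1.2 ∈ dirs) {r : ℤ} (Y : List Bool) : FreeOH r (ob (gi T.2.1) (T.1 ++ Y)) T.2.2 ↔
    F2 r (zr T) (dr T) (sA T) ∧ F2 r (zr T) (dr T) (sY Y) := by
  have key : ∀ i : ℕ, (0 < ip (pv (gi T.2.1) (T.1 ++ Y) i - tipv T.2.2) (tipd T.2.2) → r < hn (pv (gi T.2.1) (T.1 ++ Y) i - tipv T.2.2)) ↔
      (0 < ip (rl T (vx oo up (T.1 ++ Y) i) - zr T) (dr T) → r < hn (rl T (vx oo up (T.1 ++ Y) i) - zr T)) := by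
    intro i
    rw [key3 hg, ← key2]
    have : T.2.1.1 + mulE T.2.1.2 (pv (gi T.2.1) (T.1 ++ Y) i) = vx oo up (T.1 ++ Y) i := gi_pv hg _
    rw [this]
  constructor
  · intro h
    constructor
    · rintro _ ⟨i, hi, rfl⟩
      have h1 := (key i).1 (h _ ⟨i, by rw [List.length_append]; omega, rfl⟩)
      rwa [vx_append (by omega)] at h1
    · rintro _ ⟨k, hk, rfl⟩
      have h1 := (key (T.1.length + k)).1 (h _ ⟨_, by rw [List.length_append]; omega, rfl⟩)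
      rwa [rl_op1] at h1
  · rintro ⟨h1, h2⟩ _ ⟨i, hi, rfl⟩
    refine (key i).2 ?_
    rcases vtx1 T Y hi with h3 | ⟨k, hk, -, h3⟩
    · exact h1 _ h3
    · rw [h3]
      exact h2 _ ⟨k, hk, rfl⟩

/-! ### 6. near pairs -/

variable {t1 t2 w : ℕ} {T T' : PT}

/-- a near relative vertex of the first word is a vertex of the other, with the same number from the tip -/
theorem nr1 (h : NrP t1 t2 w T T') {i : ℕ} (hi : i ≤ T.1.length) (hp : hn (rl T (vx oo up T.1 i)) ≤ 2 ^ w) :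
    T.1.length < i + t1 ∧ rl T' (vx oo up T'.1 (i + T'.1.length - T.1.length)) = rl T (vx oo up T.1 i) := by
  have h1 : T.1.length < i + t1 := by
    by_contra hc
    exact absurd hp (not_le.2 (h.far1 i (not_lt.1 hc)))
  refine ⟨h1, ?_⟩
  have l1 := h.l1
  have l1' := h.l1'
  rw [rl_v1 T h.l1 h1.le, rl_v1 T' h.l1' (by omega), ← h.dp1]
  congr 3
  omega

theorem nr2 (h : NrP t1 t2 w T T') {i : ℕ} (hi : i ≤ T.2.2.length) (hp : hn (rl T (pv T.2.1 T.2.2 i)) ≤ 2 ^ w) :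
    T.2.2.length < i + t2 ∧
      rl T' (pv T'.2.1 T'.2.2 (i + T'.2.2.length - T.2.2.length)) = rl T (pv T.2.1 T.2.2 i) := by
  have h1 : T.2.2.length < i + t2 := by
    by_contra hc
    exact absurd hp (not_le.2 (h.far2 i (not_lt.1 hc)))
  refine ⟨h1, ?_⟩
  have l2 := h.l2
  have l2' := h.l2'
  rw [rl_v2 T h.l2 h1.le, rl_v2 T' h.l2' (by omega), ← h.dp2, h.z, h.d]
  congr 5
  omega

theorem mA (h : NrP t1 t2 w T T') {p : Pt} (hp : hn p ≤ 2 ^ w) (hm : p ∈ sA T) : p ∈ sA T' := by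
  obtain ⟨i, hi, rfl⟩ := hm
  obtain ⟨h1, h2⟩ := nr1 h hi hp
  exact ⟨_, by omega, h2.symm⟩

theorem mB (h : NrP t1 t2 w T T') {p : Pt} (hp : hn p ≤ 2 ^ w) (hm : p ∈ sB T) : p ∈ sB T' := by
  obtain ⟨i, hi, rfl⟩ := hm
  obtain ⟨h1, h2⟩ := nr2 h hi hp
  exact ⟨_, by omega, h2.symm⟩

theorem F1_loc {r : ℤ} {V V' : Set Pt} (hr : r ≤ 2 ^ w) (hV : ∀ p, hn p ≤ 2 ^ w → p ∈ V' → p ∈ V) (h : F1 r V) :
    F1 r V' := by
  intro p hp h1
  rcases le_or_gt (hn p) (2 ^ w) with h2 | h2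
  · exact h p (hV p h2 hp) h1
  · exact lt_of_le_of_lt hr h2

theorem F2_loc {r : ℤ} {z d : Pt} {V V' : Set Pt} (hr : hn z + r ≤ 2 ^ w) (hV : ∀ p, hn p ≤ 2 ^ w → p ∈ V' → p ∈ V)
    (h : F2 r z d V) : F2 r z d V' := by
  intro p hp h1
  rcases le_or_gt (hn p) (2 ^ w) with h2 | h2
  · exact h p (hV p h2 hp) h1
  · have h3 := TIW.hn_add (p - z) z
    rw [sub_add_cancel] at h3
    omega

theorem q2_eq (h : NrP t1 t2 w T T') (p : Pt) : q2 T p = q2 T' p := by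
  unfold q2
  rw [h.z, h.d]

end CutI

variable {t1 t2 w : ℕ} {T T' : PT}

/-! ### 7. the literals -/

/-- **the pairs of good cuts are local** -/
theorem cutPI_loc (h : NrP t1 t2 w T T') (hw : hn (zr T) + 2 ^ (j - a) ≤ 2 ^ w)
    (hC : CutPI j a m η T.1 Y1 T.2.1 T.2.2 Y2) : CutPI j a m η T'.1 Y1 T'.2.1 T'.2.2 Y2 := by
  have hg := h.fr.1
  have hg' := h.fr'.1
  have hz := TIW.hn_nonneg (zr T)
  have hr : (2 : ℤ) ^ (j - a) ≤ 2 ^ w := by linarith
  obtain ⟨⟨a1, a2, a3, a4⟩, b1, b2, b3, b4⟩ := hC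
  rw [freeH1] at a3
  rw [freeOH1 hg] at a4
  rw [freeH2 hg] at b3
  rw [freeOH2 hg] at b4
  refine ⟨⟨a1, a2, ?_, ?_⟩, b1, b2, ?_, ?_⟩
  · rw [freeH1]
    exact F1_loc hr (fun p hp hm => mA h.symm hp hm) a3
  · rw [freeOH1 hg']
    refine ⟨F1_loc hr (fun p hp hm => mB h.symm hp hm) a4.1, ?_⟩
    have e : q2 T' '' sY Y2 = q2 T '' sY Y2 := Set.image_congr fun p _ => (q2_eq h p).symm
    rw [e]
    exact a4.2
  · rw [freeH2 hg', ← h.z, ← h.d]
    exact F2_loc hw (fun p hp hm => mB h.symm hp hm) b3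
  · rw [freeOH2 hg', ← h.z, ← h.d]
    exact ⟨F2_loc hw (fun p hp hm => mA h.symm hp hm) b4.1, b4.2⟩

/-- the difference of the tips of the operated pair, in the frame of the first tip -/
theorem gap_rel (T : PT) (hg : T.2.1.2 ∈ dirs) (Y1 Y2 : List Bool) :
    en (T.1 ++ Y1) - pe T.2.1 (T.2.2 ++ Y2) = mulE (rt T.1) (en Y1 - q2 T (en Y2)) := by
  have e1 : rl T (en (T.1 ++ Y1)) = en Y1 := by
    have := rl_op1 T Y1 Y1.length
    unfold TIW.en
    rw [List.length_append]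
    exact this
  have e2 : rl T (pe T.2.1 (T.2.2 ++ Y2)) = q2 T (en Y2) := by
    have := rl_op2 hg Y2 Y2.length
    unfold pe
    rw [List.length_append]
    exact this
  rw [← e1, ← e2]
  unfold rl
  rw [← mulE_sub, rt_rc]
  abel

/-- **the gap is local** -/
theorem gap_loc (h : NrP t1 t2 w T T') (Y1 Y2 : List Bool) :
    mulE (rc T.1) (en (T.1 ++ Y1) - pe T.2.1 (T.2.2 ++ Y2)) =
      mulE (rc T'.1) (en (T'.1 ++ Y1) - pe T'.2.1 (T'.2.2 ++ Y2)) := by
  rw [gap_rel T h.fr.1, gap_rel T' h.fr'.1, rc_rt, rc_rt, q2_eq h]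

theorem gap_loc_hn (h : NrP t1 t2 w T T') (Y1 Y2 : List Bool) :
    hn (en (T.1 ++ Y1) - pe T.2.1 (T.2.2 ++ Y2)) = hn (en (T'.1 ++ Y1) - pe T'.2.1 (T'.2.2 ++ Y2)) := by
  have h1 := gap_loc h Y1 Y2
  rw [← TIW.hn_mulE (nrm_rc T.1), h1, TIW.hn_mulE (nrm_rc T'.1)]

/-- a set of gaps which is invariant under the rotations -/
theorem gap_loc_S (h : NrP t1 t2 w T T') {S : Set Pt} (hS : ∀ u p : Pt, nrm u = 1 → p ∈ S → mulE u p ∈ S) {Y1 Y2 : List Bool}
    (hp : en (T.1 ++ Y1) - pe T.2.1 (T.2.2 ++ Y2) ∈ S) : en (T'.1 ++ Y1) - pe T'.2.1 (T'.2.2 ++ Y2) ∈ S := by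
  have h1 := gap_loc h Y1 Y2
  have h2 : en (T'.1 ++ Y1) - pe T'.2.1 (T'.2.2 ++ Y2) =
      mulE (rt T'.1) (mulE (rc T.1) (en (T.1 ++ Y1) - pe T.2.1 (T.2.2 ++ Y2))) := by
    rw [h1, rt_rc]
  rw [h2]
  exact hS _ _ (nrm_rt _) (hS _ _ (nrm_rc _) hp)

/-- **the operated pair is a pair** -/
theorem sa_locP {r : ℤ} (h : NrP t1 t2 w T T') (h1 : ∀ k, k ≤ Y1.length → hn (vx oo up Y1 k) ≤ r)
    (h2 : ∀ k, k ≤ Y2.length → hn (vx oo up Y2 k) ≤ r) (hw : hn (zr T) + r ≤ 2 ^ w)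
    (hT : (T.1 ++ Y1) ∈ SA ∧ (T.2.2 ++ Y2) ∈ SA ∧ Av (ob T.2.1 (T.2.2 ++ Y2)) (T.1 ++ Y1)) :
    (T'.1 ++ Y1) ∈ SA ∧ (T'.2.2 ++ Y2) ∈ SA ∧ Av (ob T'.2.1 (T'.2.2 ++ Y2)) (T'.1 ++ Y1) := by
  have hg := h.fr.1
  have hg' := h.fr'.1
  have hz := TIW.hn_nonneg (zr T)
  obtain ⟨s1, s2, s3⟩ := hT
  have n1 : ∀ k, k ≤ Y1.length → hn (vx oo up Y1 k) ≤ 2 ^ w := fun k hk => by
    have := h1 k hk
    linarith
  have n2 : ∀ k, k ≤ Y2.length → hn (q2 T' (vx oo up Y2 k)) ≤ 2 ^ w := fun k hk => by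
    have a1 := h2 k hk
    have a2 := TIW.hn_add (zr T') (mulE (rotTo up (dr T')) (vx oo up Y2 k))
    rw [TIW.hn_mulE (nrm_rotTo upd' (dr_mem hg')), ← h.z] at a2
    unfold q2
    rw [← h.z]
    linarith
  have L1 : (T.1 ++ Y1).length = T.1.length + Y1.length := List.length_append
  have L1' : (T'.1 ++ Y1).length = T'.1.length + Y1.length := List.length_append
  have L2 : (T.2.2 ++ Y2).length = T.2.2.length + Y2.length := List.length_append
  have L2' : (T'.2.2 ++ Y2).length = T'.2.2.length + Y2.length := List.length_append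
  refine ⟨⟨fun _ _ _ => Set.mem_univ _, ?_⟩, ⟨fun _ _ _ => Set.mem_univ _, ?_⟩, ?_⟩
  · intro i k hik hk heq
    rw [L1'] at hk
    rcases le_or_gt k T'.1.length with c1 | c1
    · rw [vx_append (by omega), vx_append (by omega)] at heq
      exact h.sa'.inj i k hik c1 heq
    · obtain ⟨k', rfl⟩ : ∃ k', k = T'.1.length + k' := ⟨k - T'.1.length, by omega⟩
      rcases le_or_gt T'.1.length i with c2 | c2
      · obtain ⟨i', rfl⟩ : ∃ i', i = T'.1.length + i' := ⟨i - T'.1.length, by omega⟩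
        have e1 := rl_op1 T' Y1 i'
        have e2 := rl_op1 T' Y1 k'
        rw [heq, e2] at e1
        have e3 := rl_op1 T Y1 i'
        have e4 := rl_op1 T Y1 k'
        rw [← e1, ← e4] at e3
        exact s1.inj (T.1.length + i') (T.1.length + k') (by omega) (by omega) (rl_inj e3)
      · have e2 := rl_op1 T' Y1 k'
        rw [← heq, vx_append (by omega)] at e2
        have e3 : hn (rl T' (vx oo up T'.1 i)) ≤ 2 ^ w := by
          rw [e2]
          exact n1 k' (by omega)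
        obtain ⟨a1, a2⟩ := nr1 h.symm c2.le e3
        have l1 := h.l1
        rw [e2, ← rl_op1 T Y1 k'] at a2
        have a3 := rl_inj a2
        rw [← vx_append (s := Y1) (by omega)] at a3
        exact s1.inj _ _ (by omega) (by omega) a3
  · intro i k hik hk heq
    rw [L2'] at hk
    have hinj : ∀ p q : Pt, mulE T'.2.1.2 p = mulE T'.2.1.2 q → p = q := fun p q => mulE_inj (mem_dirs.1 hg')
    have heq' : pv T'.2.1 (T'.2.2 ++ Y2) i = pv T'.2.1 (T'.2.2 ++ Y2) k := by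
      unfold pv
      rw [heq]
    have back : ∀ i k, pv T.2.1 (T.2.2 ++ Y2) i = pv T.2.1 (T.2.2 ++ Y2) k →
        vx oo up (T.2.2 ++ Y2) i = vx oo up (T.2.2 ++ Y2) k := fun i k hp =>
      mulE_inj (mem_dirs.1 hg) (add_left_cancel hp)
    rcases le_or_gt k T'.2.2.length with c1 | c1
    · rw [vx_append (by omega), vx_append (by omega)] at heq
      exact h.sb'.inj i k hik c1 heq
    · obtain ⟨k', rfl⟩ : ∃ k', k = T'.2.2.length + k' := ⟨k - T'.2.2.length, by omega⟩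
      rcases le_or_gt T'.2.2.length i with c2 | c2
      · obtain ⟨i', rfl⟩ : ∃ i', i = T'.2.2.length + i' := ⟨i - T'.2.2.length, by omega⟩
        have e1 := rl_op2 hg' Y2 i'
        have e2 := rl_op2 hg' Y2 k'
        rw [heq', e2, ← q2_eq h, ← q2_eq h] at e1
        have e3 := rl_op2 hg Y2 i'
        have e4 := rl_op2 hg Y2 k'
        rw [← e1, ← e4] at e3
        exact s2.inj (T.2.2.length + i') (T.2.2.length + k') (by omega) (by omega) (back _ _ (rl_inj e3))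
      · have e2 := rl_op2 hg' Y2 k'
        have e0 : pv T'.2.1 (T'.2.2 ++ Y2) i = pv T'.2.1 T'.2.2 i := by
          unfold pv
          rw [vx_append (by omega)]
        rw [← heq', e0] at e2
        have e3 : hn (rl T' (pv T'.2.1 T'.2.2 i)) ≤ 2 ^ w := by
          rw [e2]
          exact n2 k' (by omega)
        obtain ⟨a1, a2⟩ := nr2 h.symm c2.le e3
        have l2 := h.l2
        rw [e2, ← q2_eq h, ← rl_op2 hg Y2 k'] at a2
        have a3 := rl_inj a2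
        have e5 : pv T.2.1 T.2.2 (i + T.2.2.length - T'.2.2.length) =
            pv T.2.1 (T.2.2 ++ Y2) (i + T.2.2.length - T'.2.2.length) := by
          unfold pv
          rw [vx_append (by omega)]
        rw [e5] at a3
        exact s2.inj _ _ (by omega) (by omega) (back _ _ a3)
  · intro i hi hm
    obtain ⟨k, hk, heq⟩ := hm
    -- the same relative vertices of T
    have k1 : rl T' (vx oo up (T'.1 ++ Y1) i) = rl T' (pv T'.2.1 (T'.2.2 ++ Y2) k) := by rw [heq]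
    have fin : ∀ i k, i ≤ T.1.length + Y1.length → k ≤ T.2.2.length + Y2.length →
        rl T (vx oo up (T.1 ++ Y1) i) = rl T (pv T.2.1 (T.2.2 ++ Y2) k) → False := fun i k hi hk hp =>
      s3 i (by omega) ⟨k, by omega, rl_inj hp⟩
    rcases vtx1 T' Y1 hi with c1 | ⟨i', hi', -, c1⟩
    · rcases vtx2 hg' Y2 hk with c2 | ⟨k', hk', -, c2⟩
      · obtain ⟨i0, hi0, e1⟩ := c1
        obtain ⟨k0, hk0, e2⟩ := c2
        rw [e1, e2] at k1
        exact h.av' i0 hi0 ⟨k0, hk0, rl_inj k1⟩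
      · obtain ⟨i0, hi0, e1⟩ := c1
        rw [e1, c2] at k1
        have e3 : hn (rl T' (vx oo up T'.1 i0)) ≤ 2 ^ w := by
          rw [k1]
          exact n2 k' hk'
        obtain ⟨a1, a2⟩ := nr1 h.symm hi0 e3
        have l1 := h.l1
        rw [k1, ← q2_eq h, ← rl_op2 hg Y2 k'] at a2
        rw [← vx_append (s := Y1) (by omega)] at a2
        exact fin _ _ (by omega) (by omega) a2
    · rcases vtx2 hg' Y2 hk with c2 | ⟨k', hk', -, c2⟩
      · obtain ⟨k0, hk0, e2⟩ := c2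
        rw [c1, e2] at k1
        have e3 : hn (rl T' (pv T'.2.1 T'.2.2 k0)) ≤ 2 ^ w := by
          rw [← k1]
          exact n1 i' hi'
        obtain ⟨a1, a2⟩ := nr2 h.symm hk0 e3
        have l2 := h.l2
        rw [← k1, ← rl_op1 T Y1 i'] at a2
        have e5 : pv T.2.1 T.2.2 (k0 + T.2.2.length - T'.2.2.length) =
            pv T.2.1 (T.2.2 ++ Y2) (k0 + T.2.2.length - T'.2.2.length) := by
          unfold pv
          rw [vx_append (by omega)]
        rw [e5] at a2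
        exact fin _ _ (by omega) (by omega) a2.symm
      · rw [c1, c2, ← q2_eq h, ← rl_op1 T Y1 i', ← rl_op2 hg Y2 k'] at k1
        exact fin _ _ (by omega) (by omega) k1

end RMP

end HexObs
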