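import Pool.Agent.ARM.DefsQ
import Pool.Agent.ARM.DefsI

/-!
# RMP, row P0 (helper15): pairs of words with a gap between their tips. Literals

A pair is `T = (L1, g, L2)`: the word `L1` starts at the origin `oo` (first step `up`), the word `L2` is placed in the frame
`g = (start, rotation)`. **Both words run TOWARDS the gap**: the outer ends are free, the tips (`en L1` and `pe g L2`) are close.
Removing the last letters of `L1` or `L2` does not change the frame. The class is symmetric (`sw`).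

**Cut-offs are spatial**: every word stays in the ball of radius `R + 2 ^ i` around its own tip. No lengths anywhere.
`pr3 R i = 2 ^ (59 i / 24) * (max R (2 ^ i)) ^ (25 / 8)`.
-/

set_option autoImplicit false

namespace HexObs

namespace RMP

open Finset TS SDN SIM NTA TIP ARM

open scoped ENNReal

/-- the frames of the lattice: start and rotation of a placed word -/
def Fr (g : Pt × Pt) : Prop := g.2 ∈ dirs ∧ ((cl g.1 = 0 ∧ cl g.2 = 1) ∨ (cl g.1 = cl up ∧ cl g.2 = -1))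

/-- the vertex number t of the word B in the frame g -/
def pv (g : Pt × Pt) (B : List Bool) (t : ℕ) : Pt := g.1 + mulE g.2 (vx oo up B t)

/-- the tip of the placed word -/
def pe (g : Pt × Pt) (B : List Bool) : Pt := pv g B B.length

/-- the direction of exit at the tip of the placed word -/
def pd (g : Pt × Pt) (B : List Bool) : Pt := mulE g.2 (TIW.de B)

/-- the vertices of the placed word (the spectator set) -/
def ob (g : Pt × Pt) (B : List Bool) : Set Pt := {p | ∃ t, t ≤ B.length ∧ p = pv g B t}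

/-- no vertex of the word A in the set E -/
def Av (E : Set Pt) (A : List Bool) : Prop := ∀ t, t ≤ A.length → vx oo up A t ∉ E

/-- pairs: first word, frame, second word -/
abbrev PT : Type := List Bool × ((Pt × Pt) × List Bool)

/-- the mass of a set of pairs -/
noncomputable def gp (S : Set PT) : ℝ≥0∞ := ∑' T : S, wE (T : PT).1 * wE (T : PT).2.2

/-- the inverse frame -/
def gi (g : Pt × Pt) : Pt × Pt := (-(mulE (conjE g.2) g.1), conjE g.2)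

/-- the exchange of the two words: the origin is now the start of the second word -/
def sw (T : PT) : PT := (T.2.2, (gi T.2.1, T.1))

/-- **the class of the pairs with gap at most 2 ^ i** -/
def P3 (R i : ℕ) : Set PT :=
  {T | T.1 ∈ SA ∧ T.2.2 ∈ SA ∧ Fr T.2.1 ∧ Av (ob T.2.1 T.2.2) T.1 ∧ TIW.hn (TIW.en T.1 - pe T.2.1 T.2.2) ≤ 2 ^ i ∧
    (∀ s, s ≤ T.1.length → dz T.1 s ≤ R + 2 ^ i) ∧ ∀ s, s ≤ T.2.2.length → dz T.2.2 s ≤ R + 2 ^ i}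

/-- the predicted mass of P3 R i -/
noncomputable def pr3 (R i : ℕ) : ℝ := (2 : ℝ) ^ ((59 / 24 : ℝ) * (i : ℝ)) * (max (R : ℝ) (2 ^ i)) ^ (25 / 8 : ℝ)

/-- the hypothesis of the sandwich: levels at least j (R is fixed) -/
def HF3 (D : ℝ) (R j : ℕ) : Prop := ∀ i, j ≤ i → gp (P3 R i) ≤ ENNReal.ofReal (D * pr3 R i)

/-- **(T1P)** -/
def T1P : Prop := ∃ D : ℝ, 0 < D ∧ ∀ R i : ℕ, gp (P3 R i) ≤ ENNReal.ofReal (D * pr3 R i)

/-! ### P0: base rows -/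

/-- **row B** : gap of the order of the size -/
def BaseP : Prop := ∀ lam : ℝ, 0 < lam → ∃ C : ℝ, 0 < C ∧ ∀ R i : ℕ, (R : ℝ) ≤ lam * 2 ^ i →
  gp (P3 R i) ≤ ENNReal.ofReal (C * pr3 R i)

/-- **row C** : L1 stays in the ball of radius 2 ^ (j + u) around its tip -/
def ConfP : Prop := ∀ (u : ℕ) (ε : ℝ), 0 < ε → ∃ b0 : ℕ, ∀ R j : ℕ, b0 ≤ j → 2 ^ (b0 + j) ≤ R →
  gp {T | T ∈ P3 R j ∧ ∀ s, s ≤ T.1.length → dz T.1 s ≤ 2 ^ (j + u)} ≤ ENNReal.ofReal (ε * pr3 R j)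

/-! ### P1: the tip lemma (1 ≤ D everywhere: the rows may use that D is not small) -/

/-- **row P1** -/
def TipP : Prop := ∀ η : ℝ, 0 < η → ∃ C : ℝ, 0 < C ∧ ∀ (D : ℝ) (R i b : ℕ), 1 ≤ D → HF3 D R i → b ≤ i →
  gp {T | T ∈ P3 R i ∧ T.1 ∈ GT b η} * Xb b ≤ ENNReal.ofReal (C * D * pr3 R i)

/-- **row P1'** (two good tips) -/
def TipP2 : Prop := ∀ η : ℝ, 0 < η → ∃ C : ℝ, 0 < C ∧ ∀ (D : ℝ) (R i b : ℕ), 1 ≤ D → HF3 D R i → b ≤ i →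
  gp {T | T ∈ P3 R i ∧ T.1 ∈ GT b η ∧ T.2.2 ∈ GT b η} * Xb b ^ 2 ≤ ENNReal.ofReal (C * D * pr3 R i)

/-! ### P2: double counting, good cuts -/

/-- **row P2a** (parts Y behind a good tip of L1; i ≥ j the level of the part; ρ may depend on the second word) -/
def ExP : Prop := ∀ (η : ℝ) (c : ℕ), 0 < η → ∃ C : ℝ, 0 < C ∧ ∀ (D : ℝ) (R j i b : ℕ), 1 ≤ D → HF3 D R i → j ≤ i → b ≤ i →
  ∀ (ρ : (Pt × Pt) × List Bool → List Bool → List Bool → Prop) (x : ℝ≥0∞) (q : ℝ), (∀ G A Y, ρ G A Y → A ∈ GT b η) →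
    (∀ G A, gf {Y | ρ G A Y ∧ In (2 ^ (i + c)) Y ∧ ((A ++ Y, G) : PT) ∈ P3 R j} ≤ x) → 0 < q →
    gp {T | T ∈ P3 R j ∧ q ≤ (nD (2 ^ (i + c)) (ρ T.2) T.1 : ℝ)} * (ENNReal.ofReal q * Xb b) ≤
      ENNReal.ofReal (C * D * pr3 R i) * x

/-- the half ball of radius r in front of the tip of A is free of E -/
def FreeO (r : ℕ) (E : Set Pt) (A : List Bool) : Prop :=
  ∀ p ∈ E, 0 < ip (p - tipv A) (tipd A) → p ∉ Bl (tipv A) r

/-- the parts behind a good cut with a free half ball, free of the word and of E -/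
def NCp (b a D : ℕ) (η : ℝ) (E : Set Pt) (t : List Bool) : Set (List Bool) :=
  {Y | rev Y ∈ GT b η ∧ In D Y ∧ ∃ A, t = A ++ Y ∧ FreeT (2 ^ a) A ∧ FreeO (2 ^ a) E A}

/-- good cuts near the tip of L: the number of the cuts of the level j, free half ball of radius 2 ^ (j - a) -/
noncomputable def gcp (j a m : ℕ) (η : ℝ) (E : Set Pt) (L : List Bool) : ℝ :=
  ((NCp j (j - a) (2 ^ (j + m)) η E L).ncard : ℝ)

/-- **row P2b** (many good cuts near the tip of L1) -/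
def NFP : Prop := ∀ ε : ℝ, 0 < ε → ∃ (η κ : ℝ) (a m b0 : ℕ), 0 < η ∧ 0 < κ ∧ a ≤ b0 ∧ ∀ (D : ℝ) (R j : ℕ), 1 ≤ D →
  HF3 D R j → b0 ≤ j → 2 ^ (b0 + j) ≤ R →
    gp {T | T ∈ P3 R j ∧ gcp j a m η (ob T.2.1 T.2.2) T.1 < κ * Ub j} ≤ ENNReal.ofReal (ε * D * pr3 R j)

/-! ### P3: extra strands -/

/-- **row P3** -/
def EsP : Prop := ∀ θ : ℝ, 0 < θ → ∃ (C : ℝ) (b0 : ℕ), 0 < C ∧ ∀ (D : ℝ) (R j l i : ℕ), 1 ≤ D → HF3 D R j → b0 ≤ j →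
  j ≤ l → l ≤ i → gp {T | T ∈ P3 R j ∧ T.1 ∈ ESe l i} ≤
    ENNReal.ofReal (C * D * (2 : ℝ) ^ ((11 / 24 + θ) * ((i : ℝ) - j) - 2 / 3 * ((i : ℝ) - l)) * pr3 R j)

/-- early strand: the word visits the ball 2 ^ (l + 1) around its tip before it leaves the ball 2 ^ i; before the visit it is
somewhere at distance more than 2 ^ i / 2, after the visit somewhere at distance more than 2 ^ (i + 1) -/
def ESa (l i : ℕ) : Set (List Bool) :=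
  {L | ∃ t a b, t < a ∧ a < b ∧ b ≤ L.length ∧ 2 ^ i < 2 * dz L t ∧ dz L a ≤ 2 ^ (l + 1) ∧ 2 ^ (i + 1) < dz L b ∧
    ∀ s, s ≤ a → dz L s ≤ 2 ^ i}

/-- **row P3'** (one arm; no HF3) -/
def EaP : Prop := ∀ (c : ℕ) (ε : ℝ), 0 < ε → ∃ b0 : ℕ, ∀ R j : ℕ, b0 ≤ j → 2 ^ (b0 + j) ≤ R →
  gp {T | T ∈ P3 R j ∧ ∃ i, j + c ≤ i ∧ T.1 ∈ ESa (j + c) i} ≤ ENNReal.ofReal (ε * pr3 R j)

/-! ### P4: near touches, outer end near the gap -/

/-- near touch of the two arms: both vertices in the ball of radius 2 ^ c around the own tip and in the end part of the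
level i, distance at most r -/
def NTx (c i : ℕ) (r : ℤ) : Set PT :=
  {T | ∃ a b, a ≤ T.1.length ∧ b ≤ T.2.2.length ∧ dz T.1 a ≤ 2 ^ c ∧ dz T.2.2 b ≤ 2 ^ c ∧ tE T.1 i a ∧ tE T.2.2 i b ∧
    TIW.hn (vx oo up T.1 a - pv T.2.1 T.2.2 b) ≤ r}

/-- **row P4** : level i = j + u, ball 2 ^ (j + c), distance 2 ^ (j - e), excursion 2 ^ (j - k) -/
def NtP : Prop := ∀ (u c k : ℕ) (ε : ℝ), c ≤ u → 0 < ε → ∃ e b0 : ℕ, k ≤ e ∧ e ≤ b0 ∧ ∀ (D : ℝ) (R j : ℕ), 1 ≤ D →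
  HF3 D R j → b0 ≤ j → 2 ^ (b0 + j) ≤ R →
    gp {T | T ∈ P3 R j ∧ (T.1 ∈ NTs (j + c) (j + u) (2 ^ (j - e)) (2 ^ (j - k)) ∨ T ∈ NTx (j + c) (j + u) (2 ^ (j - e)))} ≤
      ENNReal.ofReal (ε * D * pr3 R j)

/-- **row P4'** : the outer end of L1 is near the gap -/
def OutP : Prop := ∀ (u : ℕ) (ε : ℝ), 0 < ε → ∃ b0 : ℕ, ∀ (D : ℝ) (R j : ℕ), 1 ≤ D → HF3 D R j → b0 ≤ j →
  2 ^ (b0 + j) ≤ R → gp {T | T ∈ P3 R j ∧ dz T.1 0 ≤ 2 ^ (j + u)} ≤ ENNReal.ofReal (ε * D * pr3 R j)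

/-! ### P5, P6: the good pairs -/

/-- one half of 'good pair': the first word of T -/
def GPh (j : ℕ) (η κ : ℝ) (a m c u e k : ℕ) (T : PT) : Prop :=
  2 ^ (j + u) < dz T.1 0 ∧ κ * Ub j ≤ gcp j a m η (ob T.2.1 T.2.2) T.1 ∧
    (∀ i, j + c ≤ i + 1 → T.1 ∉ ESe (j + m + 4) i) ∧ (∀ i, j + u ≤ i → T.1 ∉ ESe (j + c) i) ∧
    (∀ i, j + c ≤ i + 1 → T.1 ∉ ESa (j + m + 4) i) ∧ (∀ i, j + u ≤ i → T.1 ∉ ESa (j + c) i) ∧
    T.1 ∉ NTs (j + c) (j + u) (2 ^ (j - e)) (2 ^ (j - k))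

/-- **the good pairs of the level j** -/
def GP (R j : ℕ) (η κ : ℝ) (a m c u e k : ℕ) : Set PT :=
  {T | T ∈ P3 R j ∧ GPh j η κ a m c u e k T ∧ GPh j η κ a m c u e k (sw T) ∧ T ∉ NTx (j + c) (j + u) (2 ^ (j - e))}

/-- **a pair of good cuts** of the pair (A ++ Y1, g, B ++ Y2) of the level j -/
def CutPP (j a m : ℕ) (η : ℝ) (A Y1 : List Bool) (g : Pt × Pt) (B Y2 : List Bool) : Prop :=
  Y1 ∈ NCp j (j - a) (2 ^ (j + m)) η (ob g (B ++ Y2)) (A ++ Y1) ∧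
    Y2 ∈ NCp j (j - a) (2 ^ (j + m)) η (ob (gi g) (A ++ Y1)) (B ++ Y2)

/-- the vertices of the word A (from the origin) -/
def vo (A : List Bool) : Set Pt := {p | ∃ t, t ≤ A.length ∧ p = vx oo up A t}

/-- **joinable outer pairs** (87): the path of r steps of mesh D starts at P near the tip of A (first direction = direction of
exit) and ends near the tip of the placed B (last direction = opposite of its direction of exit) and keeps away from both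
words; absolute coordinates, `AR.pv E D i` = the vertex number i of the path from the origin -/
structure JnP (E : ℕ → Pt) (r : ℕ) (D : ℤ) (k : ℕ) (P : Pt) (T : PT) : Prop where
  sa : T.1 ∈ SA
  sb : T.2.2 ∈ SA
  fr : Fr T.2.1
  av : Av (ob T.2.1 T.2.2) T.1
  d0 : TIW.de T.1 = E 0
  d1 : pd T.2.1 T.2.2 = -E (r - 1)
  ps1 : TIW.hn (TIW.en T.1 - P) ≤ 2 ^ k
  ps2 : TIW.hn (pe T.2.1 T.2.2 - (P + AR.pv E D r)) ≤ 2 ^ k + 2
  mid : ∀ p, p ∈ vo T.1 ∪ ob T.2.1 T.2.2 → ∀ j, 1 ≤ j → j + 1 < r → ¬ AR.NS (P + AR.pv E D j) (E j) D (2 ^ (k + 11)) p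
  fst : ∀ p, p ∈ vo T.1 ∪ ob T.2.1 T.2.2 → AR.NS P (E 0) D (2 ^ (k + 11)) p → ip (p - TIW.en T.1) (E 0) ≤ 0
  lst : ∀ p, p ∈ vo T.1 ∪ ob T.2.1 T.2.2 → AR.NS (P + AR.pv E D (r - 1)) (E (r - 1)) D (2 ^ (k + 11)) p →
    0 ≤ ip (p - pe T.2.1 T.2.2) (E (r - 1))

/-- **row P5** : the outer part of a good pair, at any pair of good cuts, is joinable at a scale k' between j - sx and j;
finitely many meshes; the last two steps of the path are equal -/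
def JoinP : Prop := ∀ (η κ : ℝ) (a m : ℕ), 0 < η → 0 < κ → ∃ k c0 : ℕ, ∀ c u e : ℕ, c0 ≤ c → c ≤ u → k ≤ e →
  ∀ H : ℕ, 2 ^ 13 ≤ H → ∃ Mx sx b0 : ℕ, ∀ j : ℕ, b0 ≤ j → ∃ DD : Finset ℤ, DD.card ≤ Mx ∧ ∀ R : ℕ, 2 ^ (b0 + j) ≤ R →
    ∀ (A Y1 : List Bool) (g : Pt × Pt) (B Y2 : List Bool), ((A ++ Y1, (g, B ++ Y2)) : PT) ∈ GP R j η κ a m c u e k →
      CutPP j a m η A Y1 g B Y2 →
      ∃ (k' r : ℕ) (D : ℤ) (E : ℕ → Pt) (P : Pt), D ∈ DD ∧ k' ≤ j ∧ j ≤ k' + sx ∧ 18 * (H * 2 ^ k') ≤ D ∧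
        D ≤ 36 * (H * 2 ^ k') ∧ 4 ≤ r ∧ r ≤ Mx ∧ IPg E r ∧ E (r - 2) = E (r - 1) ∧ JnP E r D k' P (A, (g, B))

/-- **row P6a** : the mass of the joinable pairs in the ball of radius R (tubes; every word has at most C R ^ (4/3) / ml k
decompositions) -/
def JMassP : Prop := ∃ H0 : ℕ, 2 ^ 13 ≤ H0 ∧ ∀ H : ℕ, H0 ≤ H → ∀ Mx : ℕ, ∃ (C : ℝ) (k0 : ℕ), 0 < C ∧
  ∀ (k r R : ℕ) (D : ℤ) (E : ℕ → Pt), k0 ≤ k → 2 ^ k ≤ R → 18 * (H * 2 ^ k) ≤ D → D ≤ 36 * (H * 2 ^ k) → 3 ≤ r → r ≤ Mx →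
    IPg E r →
    gp {T | (∃ P, JnP E r D k P T) ∧ (∀ s, s ≤ T.1.length → dz T.1 s ≤ R) ∧ ∀ s, s ≤ T.2.2.length → dz T.2.2 s ≤ R} ≤
      ENNReal.ofReal (C * (4 ^ k * Ub k / ml k) * (R : ℝ) ^ (25 / 8 : ℝ))

/-- **row P6** : the mass of the good pairs -/
def GoodP : Prop := ∀ (η κ : ℝ) (a m : ℕ), 0 < η → 0 < κ → ∃ k c0 : ℕ, ∀ c u e : ℕ, c0 ≤ c → c ≤ u → k ≤ e →
  ∃ (C : ℝ) (b0 : ℕ), 0 < C ∧ ∀ R j : ℕ, b0 ≤ j → 2 ^ (b0 + j) ≤ R →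
    gp (GP R j η κ a m c u e k) ≤ ENNReal.ofReal (C * pr3 R j)

/-! ### P8 -/

/-- **row P8** : the pairs which are not good, after (T1P) -/
def SepP : Prop := ∀ ε : ℝ, 0 < ε → ∃ (η κ : ℝ) (a m : ℕ), 0 < η ∧ 0 < κ ∧ ∀ k c0 : ℕ, ∃ c u e b0 : ℕ, c0 ≤ c ∧ m + 5 ≤ c ∧
  c ≤ u ∧ k ≤ e ∧ a ≤ b0 ∧ e ≤ b0 ∧ ∀ R j : ℕ, b0 ≤ j → 2 ^ (b0 + j) ≤ R →
    gp (P3 R j \ GP R j η κ a m c u e k) ≤ ENNReal.ofReal (ε * pr3 R j)

end RMP

end HexObs
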