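import Pool.Agent.RMP.Defs

/-!
# RMP, row P6a (helper87): literals

* `JMassQ` = `JMassP` (the structure `JnP` is in RMP/Defs now).
-/

set_option autoImplicit false

namespace HexObs

namespace RMP

open Finset TS SDN SIM NTA TIP TIW ARM

open scoped ENNReal

/-- **row P6a** (`JnP` and `JMassP` are in RMP/Defs now) -/
abbrev JMassQ : Prop := JMassP

/-- weights of subsets of pairs -/
lemma gp_mono' {S S' : Set PT} (h : S ⊆ S') : gp S ≤ gp S' := by
  unfold gp
  rw [tsum_subtype S (fun T : PT => wE T.1 * wE T.2.2), tsum_subtype S' (fun T : PT => wE T.1 * wE T.2.2)]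
  exact ENNReal.tsum_le_tsum fun T => Set.indicator_le_indicator_of_subset h (fun _ => zero_le) T

/-- the literal of the row -/
lemma jMassP_of (h : JMassQ) : JMassP := h

end RMP

end HexObs
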