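import Pool.Agent.ARM.InSt

/-!
# RMP, row EsP (helper63): the inner bound without length

* `tsum_wt4` : the sum of the weights `(1 + y / M) ^ (-4)`;
* **`inStL_of : InPt → InStL`** : sum of the point bound over the ends and over all lengths.
-/

set_option autoImplicit false

namespace HexObs

namespace RMP

open Finset TS SDN SIM NTA TIP ARM

open scoped ENNReal

lemma wt4_sum {M : ℝ} (hM : 1 ≤ M) (N : ℕ) :
    ∑ y ∈ range (N + 1), (1 + (y : ℝ) / M) ^ (-(4 : ℝ)) ≤ 2 * M - M ^ 2 / (M + N) := by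
  have hM0 : 0 < M := by linarith
  have hf : ∀ y : ℕ, (1 + (y : ℝ) / M) ^ (-(4 : ℝ)) ≤ M ^ 2 / (M + y) ^ 2 := by
    intro y
    have h0 : (0 : ℝ) ≤ (y : ℝ) / M := by positivity
    have h1 : (1 + (y : ℝ) / M) ^ (-(4 : ℝ)) ≤ (1 + (y : ℝ) / M) ^ (-(2 : ℝ)) :=
      Real.rpow_le_rpow_of_exponent_le (by linarith) (by norm_num)
    refine h1.trans (le_of_eq ?_)
    rw [Real.rpow_neg (by positivity), show (2 : ℝ) = ((2 : ℕ) : ℝ) by norm_num, Real.rpow_natCast,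
      show 1 + (y : ℝ) / M = (M + y) / M by field_simp, div_pow, inv_div]
  induction N with
  | zero =>
    rw [zero_add, sum_range_one]
    simp only [Nat.cast_zero, zero_div, add_zero, Real.one_rpow]
    rw [show M ^ 2 / M = M by field_simp]
    linarith
  | succ N ih =>
    rw [sum_range_succ]
    have h1 := hf (N + 1)
    have hN : (0 : ℝ) ≤ N := Nat.cast_nonneg N
    have h2 : M ^ 2 / (M + ((N + 1 : ℕ) : ℝ)) ^ 2 ≤ M ^ 2 / (M + N) - M ^ 2 / (M + ((N + 1 : ℕ) : ℝ)) := by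
      push_cast
      rw [div_sub_div _ _ (by positivity) (by positivity), div_le_div_iff₀ (by positivity) (by positivity)]
      have h3 : (0 : ℝ) ≤ M ^ 2 * (M + (N + 1)) := by positivity
      nlinarith
    linarith

/-- **the sum of the weights** -/
lemma tsum_wt4 {M G : ℝ} (hM : 1 ≤ M) (hG : 0 ≤ G) :
    ∑' y : ℕ, ENNReal.ofReal (G * (1 + (y : ℝ) / M) ^ (-(4 : ℝ))) ≤ ENNReal.ofReal (G * (2 * M)) := by
  have hM0 : 0 < M := by linarith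
  have h0 : ∀ y : ℕ, 0 ≤ (1 + (y : ℝ) / M) ^ (-(4 : ℝ)) := fun y => by positivity
  rw [ENNReal.tsum_eq_iSup_nat]
  refine iSup_le fun N => ?_
  rw [← ENNReal.ofReal_sum_of_nonneg fun y _ => mul_nonneg hG (h0 y), ← mul_sum]
  refine ENNReal.ofReal_le_ofReal (mul_le_mul_of_nonneg_left ?_ hG)
  have h1 := wt4_sum hM N
  have h2 : ∑ y ∈ range N, (1 + (y : ℝ) / M) ^ (-(4 : ℝ)) ≤ ∑ y ∈ range (N + 1), (1 + (y : ℝ) / M) ^ (-(4 : ℝ)) :=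
    sum_le_sum_of_subset_of_nonneg (range_subset_range.2 (Nat.le_succ N)) fun y _ _ => h0 y
  have h3 : 0 ≤ M ^ 2 / (M + N) := by positivity
  linarith

/-- **row I3 without length**: end up to 2 ^ j -/
def InStL : Prop := ∀ (η : ℝ) (D c : ℕ), 0 < η → ∀ θ1 : ℝ, 0 < θ1 → ∃ θ0 : ℝ, 0 < θ0 ∧ ∀ θ : ℝ, 0 < θ → θ ≤ θ0 →
  ∃ m00 : ℕ, ∀ m0, m00 ≤ m0 → ∃ (C : ℝ) (b0 : ℕ), 0 < C ∧ ∀ (j l i m : ℕ) (z : Pt), b0 ≤ j → j ≤ l → l ≤ i →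
  m = ⌊θ * ((i : ℝ) - j)⌋₊ + m0 → b0 + m ≤ i →
  gf {Y | Y ∈ SA ∧ Y ∈ ARM.St η D (i - m) ∧ In (2 ^ (i + c)) Y ∧
      TIW.hn (TIW.en Y - z) ≤ 2 ^ j + 2 ∧ 2 ^ i < 4 * dz Y 0 ∧ Y ∈ Vis l i} ≤
    ENNReal.ofReal (C * (2 : ℝ) ^ ((θ1 - 2) * ((i : ℝ) - j) - 2 / 3 * ((i : ℝ) - l)) * Ub i) * Xb i

/-- **row I3 without length** -/
theorem inStL_of (hI : InPt) : InStL := by
  intro η D c hη θ1 hθ1
  obtain ⟨B, m1, b1, hB, hI⟩ := hI (θ1 / 2) η D c (by positivity) hη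
  obtain ⟨L, hL⟩ : ∃ L : ℝ, L = Real.logb 2 B + 1 := ⟨_, rfl⟩
  have hlog : 0 ≤ Real.logb 2 B := Real.logb_nonneg (by norm_num) hB
  have hL0 : 0 < L := by rw [hL]; linarith
  have hBL : B ≤ (2 : ℝ) ^ L := by
    have h1 : B = (2 : ℝ) ^ Real.logb 2 B := (Real.rpow_logb (by norm_num) (by norm_num) (by linarith)).symm
    rw [h1, hL]
    exact Real.rpow_le_rpow_of_exponent_le (by norm_num) (by linarith)
  refine ⟨θ1 / 2 / L, by positivity, fun θ hθ hθ0 => ⟨m1, fun m0 hm0 => ⟨98 * B ^ m0, b1, by positivity,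
    fun j l i m z hj hjl hli hm hbm => ?_⟩⟩⟩
  have hji : j ≤ i := hjl.trans hli
  obtain ⟨s, hs⟩ : ∃ s : ℝ, s = (i : ℝ) - j := ⟨_, rfl⟩
  obtain ⟨u, hu⟩ : ∃ u : ℝ, u = (i : ℝ) - l := ⟨_, rfl⟩
  have hu0 : 0 ≤ u := by
    rw [hu]
    have : (l : ℝ) ≤ i := by exact_mod_cast hli
    linarith
  have hsu : u ≤ s := by
    rw [hu, hs]
    have : (j : ℝ) ≤ l := by exact_mod_cast hjl
    linarith
  have hs0 : 0 ≤ s := hu0.trans hsu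
  have hmli := ml_pos i
  have hUi := Ub_pos i
  have hml1 := one_le_ml i
  rw [← hs] at hm
  rw [← hs, ← hu]
  obtain ⟨K, hK⟩ : ∃ K : ℝ, K = (((Icc (z.1 - (2 ^ j + 2)) (z.1 + (2 ^ j + 2))) ×ˢ
    (Icc (z.2 - (2 ^ j + 2)) (z.2 + (2 ^ j + 2)))).card : ℝ) := ⟨_, rfl⟩
  have hK0 : 0 ≤ K := by rw [hK]; positivity
  have hK1 : K ≤ 49 * 4 ^ j := by
    have h3 := box_card z j
    rw [hK]
    exact h3
  -- one length
  obtain ⟨G, hG⟩ : ∃ G : ℝ, G = K * (B ^ m * (2 : ℝ) ^ ((θ1 / 2 - 2 / 3) * u) * (Ub i / (4 ^ i * ml i))) := ⟨_, rfl⟩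
  have hG0 : 0 ≤ G := by rw [hG]; positivity
  have h1 : ∀ y : ℕ, gf {Y | (Y ∈ SA ∧ Y ∈ ARM.St η D (i - m) ∧ In (2 ^ (i + c)) Y ∧
      TIW.hn (TIW.en Y - z) ≤ 2 ^ j + 2 ∧ 2 ^ i < 4 * dz Y 0 ∧ Y ∈ Vis l i) ∧ Y.length = y} ≤
        ENNReal.ofReal (G * (1 + (y : ℝ) / ml i) ^ (-(4 : ℝ))) * Xb i := by
    intro y
    refine (gf_bU ((Icc (z.1 - (2 ^ j + 2)) (z.1 + (2 ^ j + 2))) ×ˢ (Icc (z.2 - (2 ^ j + 2)) (z.2 + (2 ^ j + 2))))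
      (fun p => {Y | Y ∈ SA ∧ Y ∈ ARM.St η D (i - m) ∧ In (2 ^ (i + c)) Y ∧ Y.length = y ∧ TIW.en Y = p ∧ 2 ^ i < 4 * dz Y 0 ∧
        Y ∈ Vis l i}) _ ?_ (fun p _ => hI (i - m) l i m y p (by omega) (by omega) (by omega) (by omega) hli)).trans ?_
    · rintro Y ⟨⟨y1, y2, y3, y6, y7, y8⟩, y9⟩
      exact ⟨TIW.en Y, ball_box y6, y1, y2, y3, y9, rfl, y7, y8⟩
    · rw [← ENNReal.ofReal_natCast, ← mul_assoc, ← ENNReal.ofReal_mul (by positivity)]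
      refine mul_le_mul_left (ENNReal.ofReal_le_ofReal (le_of_eq ?_)) _
      rw [← hK, hG, ← hu]
      ring
  have h2 : gf {Y | Y ∈ SA ∧ Y ∈ ARM.St η D (i - m) ∧ In (2 ^ (i + c)) Y ∧
      TIW.hn (TIW.en Y - z) ≤ 2 ^ j + 2 ∧ 2 ^ i < 4 * dz Y 0 ∧ Y ∈ Vis l i} ≤ ENNReal.ofReal (G * (2 * ml i)) * Xb i := by
    have hsub : {Y | Y ∈ SA ∧ Y ∈ ARM.St η D (i - m) ∧ In (2 ^ (i + c)) Y ∧
        TIW.hn (TIW.en Y - z) ≤ 2 ^ j + 2 ∧ 2 ^ i < 4 * dz Y 0 ∧ Y ∈ Vis l i} ⊆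
        ⋃ y : ℕ, {Y | (Y ∈ SA ∧ Y ∈ ARM.St η D (i - m) ∧ In (2 ^ (i + c)) Y ∧
          TIW.hn (TIW.en Y - z) ≤ 2 ^ j + 2 ∧ 2 ^ i < 4 * dz Y 0 ∧ Y ∈ Vis l i) ∧ Y.length = y} :=
      fun Y hY => Set.mem_iUnion.2 ⟨Y.length, ⟨hY, rfl⟩⟩
    refine (gf_mono hsub).trans ((Crw.gf_iUnion_le _).trans ((ENNReal.tsum_le_tsum h1).trans ?_))
    rw [ENNReal.tsum_mul_right]
    exact mul_le_mul_left (tsum_wt4 hml1 hG0) _
  refine h2.trans (mul_le_mul_left (ENNReal.ofReal_le_ofReal ?_) _)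
  -- the powers
  have h6 : B ^ m ≤ B ^ m0 * (2 : ℝ) ^ (θ1 / 2 * s) := by
    rw [hm, pow_add, mul_comm]
    refine mul_le_mul_of_nonneg_left ?_ (by positivity)
    have h7 : (⌊θ * s⌋₊ : ℝ) ≤ θ * s := Nat.floor_le (by positivity)
    calc B ^ ⌊θ * s⌋₊ ≤ ((2 : ℝ) ^ L) ^ ⌊θ * s⌋₊ := pow_le_pow_left₀ (by linarith) hBL _
      _ = (2 : ℝ) ^ (L * (⌊θ * s⌋₊ : ℝ)) := by rw [Real.rpow_mul (by norm_num), Real.rpow_natCast]
      _ ≤ _ := by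
          refine Real.rpow_le_rpow_of_exponent_le (by norm_num) ?_
          rw [le_div_iff₀ hL0] at hθ0
          calc L * (⌊θ * s⌋₊ : ℝ) ≤ L * (θ * s) := mul_le_mul_of_nonneg_left h7 hL0.le
            _ = θ * L * s := by ring
            _ ≤ θ1 / 2 * s := mul_le_mul_of_nonneg_right hθ0 hs0
  have h8 : (4 : ℝ) ^ j = (2 : ℝ) ^ (-2 * s) * 4 ^ i := by
    have e1 : (4 : ℝ) ^ j = (2 : ℝ) ^ ((2 : ℝ) * (j : ℝ)) := by
      rw [Real.rpow_mul (by norm_num), Real.rpow_natCast]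
      norm_num
    have e2 : (4 : ℝ) ^ i = (2 : ℝ) ^ ((2 : ℝ) * (i : ℝ)) := by
      rw [Real.rpow_mul (by norm_num), Real.rpow_natCast]
      norm_num
    rw [e1, e2, ← Real.rpow_add (by norm_num)]
    congr 1
    rw [hs]
    ring
  have h4i : (0 : ℝ) < 4 ^ i := by positivity
  calc G * (2 * ml i) = K * 2 * (B ^ m * (2 : ℝ) ^ ((θ1 / 2 - 2 / 3) * u)) * Ub i / 4 ^ i := by
        rw [hG]
        field_simp
    _ ≤ (49 * 4 ^ j) * 2 * ((B ^ m0 * (2 : ℝ) ^ (θ1 / 2 * s)) * (2 : ℝ) ^ ((θ1 / 2 - 2 / 3) * u)) * Ub i / 4 ^ i := by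
        gcongr
    _ = 98 * B ^ m0 * ((2 : ℝ) ^ (θ1 / 2 * s) * ((2 : ℝ) ^ (-2 * s) * (2 : ℝ) ^ ((θ1 / 2 - 2 / 3) * u))) * Ub i := by
        rw [h8]
        field_simp
        ring
    _ ≤ _ := by
        rw [← Real.rpow_add (by norm_num), ← Real.rpow_add (by norm_num)]
        have h10 : (2 : ℝ) ^ (θ1 / 2 * s + (-2 * s + (θ1 / 2 - 2 / 3) * u)) ≤
            (2 : ℝ) ^ ((θ1 - 2) * s - 2 / 3 * u) := by
          refine Real.rpow_le_rpow_of_exponent_le (by norm_num) ?_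
          nlinarith
        gcongr

end RMP

end HexObs
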