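import Pool.Agent.RMP.Defs
import Pool.Agent.ARM.ExF

/-!
# RM, row P2a (helper29): `exP_of : TipP → ExP`, double counting at the tip of the first word of a pair

* `exp_fib` : the mass of a set of pairs is the sum over the second words;
* `exp_up` : the predicted mass at higher levels;
* `exp_fst` : the pair without the last part of the first word;
* **`exP_of`**.
-/

set_option autoImplicit false

namespace HexObs

namespace RMP

open Finset TS SDN HexObs.SIM NTA TIP ARM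

open scoped ENNReal

open Classical in
/-- the mass of a set of pairs is the sum over the second words -/
theorem exp_fib (S : Set PT) : gp S = ∑' G : (Pt × Pt) × List Bool, gf {L : List Bool | ((L, G) : PT) ∈ S} * wE G.2 := by
  unfold gp
  rw [_root_.tsum_subtype S (fun T : PT => wE T.1 * wE T.2.2), ENNReal.tsum_prod', ENNReal.tsum_comm]
  refine tsum_congr fun G => ?_
  rw [gf_ind, ← ENNReal.tsum_mul_right]
  refine tsum_congr fun L => ?_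
  by_cases h : ((L, G) : PT) ∈ S
  · rw [Set.indicator_of_mem h, if_pos (show L ∈ {L : List Bool | ((L, G) : PT) ∈ S} from h)]
  · rw [Set.indicator_of_notMem h, if_neg (show L ∉ {L : List Bool | ((L, G) : PT) ∈ S} from h), zero_mul]

lemma exp_pr3_nonneg (R i : ℕ) : 0 ≤ pr3 R i := by
  unfold pr3
  positivity

/-- higher levels -/
lemma exp_up (R i d : ℕ) : pr3 R (i + d) ≤ 64 ^ d * pr3 R i := by
  have h0 : (0 : ℝ) < max (R : ℝ) (2 ^ i) := lt_of_lt_of_le (by positivity) (le_max_right _ _)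
  have h1 : max (R : ℝ) (2 ^ (i + d)) ≤ 2 ^ d * max (R : ℝ) (2 ^ i) := by
    refine max_le ?_ ?_
    · have h2 := le_max_left (R : ℝ) (2 ^ i)
      have h3 : (1 : ℝ) ≤ 2 ^ d := one_le_pow₀ (by norm_num)
      nlinarith
    · rw [pow_add, mul_comm]
      exact mul_le_mul_of_nonneg_left (le_max_right _ _) (by positivity)
  have h2 : (max (R : ℝ) (2 ^ (i + d))) ^ (25 / 8 : ℝ) ≤ (2 : ℝ) ^ ((25 / 8 : ℝ) * d) * (max (R : ℝ) (2 ^ i)) ^ (25 / 8 : ℝ) := by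
    have h3 : (0 : ℝ) ≤ max (R : ℝ) (2 ^ (i + d)) := le_trans (by positivity) (le_max_right _ _)
    refine (Real.rpow_le_rpow h3 h1 (by norm_num)).trans (le_of_eq ?_)
    rw [Real.mul_rpow (by positivity) h0.le, ← Real.rpow_natCast, ← Real.rpow_mul (by norm_num), mul_comm (d : ℝ)]
  have e1 : (2 : ℝ) ^ ((59 / 24 : ℝ) * ((i + d : ℕ) : ℝ)) = (2 : ℝ) ^ ((59 / 24 : ℝ) * (i : ℝ)) *
      (2 : ℝ) ^ ((59 / 24 : ℝ) * (d : ℝ)) := by
    rw [← Real.rpow_add (by norm_num)]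
    congr 1
    push_cast
    ring
  have e2 : (2 : ℝ) ^ ((59 / 24 : ℝ) * (d : ℝ)) * (2 : ℝ) ^ ((25 / 8 : ℝ) * d) ≤ 64 ^ d := by
    rw [← Real.rpow_add (by norm_num)]
    calc (2 : ℝ) ^ ((59 / 24 : ℝ) * (d : ℝ) + (25 / 8 : ℝ) * d) ≤ (2 : ℝ) ^ ((6 : ℝ) * (d : ℝ)) := by
          refine Real.rpow_le_rpow_of_exponent_le (by norm_num) ?_
          have : (0 : ℝ) ≤ d := Nat.cast_nonneg d
          linarith
      _ = 64 ^ d := by
          rw [Real.rpow_mul (by norm_num), Real.rpow_natCast]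
          norm_num
  unfold pr3
  have h4 : (0 : ℝ) ≤ (max (R : ℝ) (2 ^ i)) ^ (25 / 8 : ℝ) := Real.rpow_nonneg h0.le _
  calc (2 : ℝ) ^ ((59 / 24 : ℝ) * ((i + d : ℕ) : ℝ)) * (max (R : ℝ) (2 ^ (i + d))) ^ (25 / 8 : ℝ)
      ≤ (2 : ℝ) ^ ((59 / 24 : ℝ) * (i : ℝ)) * (2 : ℝ) ^ ((59 / 24 : ℝ) * (d : ℝ)) *
        ((2 : ℝ) ^ ((25 / 8 : ℝ) * d) * (max (R : ℝ) (2 ^ i)) ^ (25 / 8 : ℝ)) := by
        rw [e1]
        exact mul_le_mul_of_nonneg_left h2 (by positivity)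
    _ = (2 : ℝ) ^ ((59 / 24 : ℝ) * (d : ℝ)) * (2 : ℝ) ^ ((25 / 8 : ℝ) * d) * ((2 : ℝ) ^ ((59 / 24 : ℝ) * (i : ℝ)) *
        (max (R : ℝ) (2 ^ i)) ^ (25 / 8 : ℝ)) := by ring
    _ ≤ 64 ^ d * ((2 : ℝ) ^ ((59 / 24 : ℝ) * (i : ℝ)) * (max (R : ℝ) (2 ^ i)) ^ (25 / 8 : ℝ)) :=
        mul_le_mul_of_nonneg_right e2 (by positivity)

lemma HF3.up {D : ℝ} {R i k : ℕ} (h : HF3 D R i) (hk : i ≤ k) : HF3 D R k := fun l hl => h l (hk.trans hl)

/-- the distance of the tips -/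
lemma exp_tip (A Y : List Bool) : TIW.hn (TIW.en (A ++ Y) - TIW.en A) = TIW.hn (TIW.en Y) := by
  rw [ARM.en_app, add_sub_cancel_left, TIW.hn_mulE (TIW.nrm_rt A)]

/-- **the pair without the last part of the first word** -/
lemma exp_fst {R j i c : ℕ} (hj : j ≤ i) {A Y : List Bool} {G : (Pt × Pt) × List Bool} (hL : ((A ++ Y, G) : PT) ∈ P3 R j)
    (hY : In (2 ^ (i + c)) Y) : ((A, G) : PT) ∈ P3 R (i + (c + 2)) := by
  obtain ⟨h1, h2, h3, h4, h5, h6, h7⟩ := hL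
  have h8 := hn_In hY
  have h9 : (2 : ℤ) ^ j ≤ 2 ^ (i + c) := pow_le_pow_right₀ (by norm_num) (by omega)
  have h10 : (2 : ℤ) ^ (i + (c + 2)) = 4 * 2 ^ (i + c) := by ring
  have h11 := exp_tip A Y
  have hv : ∀ t, t ≤ A.length → vx oo up (A ++ Y) t = vx oo up A t := fun t ht => vx_append (by omega)
  have hl : ∀ t, t ≤ A.length → t ≤ (A ++ Y).length := fun t ht => by
    rw [List.length_append]
    omega
  push_cast at h8
  refine ⟨SLW.SA_take h1, h2, h3, ?_, ?_, ?_, fun s hs => ?_⟩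
  · intro t ht
    show vx oo up A t ∉ _
    rw [← hv t ht]
    exact h4 t (hl t ht)
  · have h12 := TIW.hn_tri (TIW.en A) (TIW.en (A ++ Y)) (pe G.1 G.2)
    rw [TIW.hn_sub_comm (TIW.en A) (TIW.en (A ++ Y)), h11] at h12
    show TIW.hn (TIW.en A - pe G.1 G.2) ≤ _
    have h5' : TIW.hn (TIW.en (A ++ Y) - pe G.1 G.2) ≤ 2 ^ j := h5
    rw [h10]
    linarith
  · intro s hs
    show dz A s ≤ _
    have h6' : dz (A ++ Y) s ≤ R + 2 ^ j := h6 s (hl s hs)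
    unfold dz at h6' ⊢
    rw [hv s hs] at h6'
    have h12 := TIW.hn_tri (vx oo up A s) (TIW.en (A ++ Y)) (TIW.en A)
    rw [h11] at h12
    rw [h10]
    linarith
  · have h12 : (2 : ℤ) ^ j ≤ 2 ^ (i + (c + 2)) := pow_le_pow_right₀ (by norm_num) (by omega)
    have h13 := h7 s hs
    linarith

open Classical in
/-- **row P2a** -/
theorem exP_of (hT : TipP) : ExP := by
  intro η c hη
  obtain ⟨C, hC, hT⟩ := hT η hη
  refine ⟨C * 64 ^ (c + 2), by positivity, fun D R j i b hD hF hji hbi ρ x q hρ hx hq => ?_⟩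
  obtain ⟨i', hi'⟩ : ∃ i', i' = i + (c + 2) := ⟨_, rfl⟩
  have h1 : ∀ G : (Pt × Pt) × List Bool, ENNReal.ofReal q *
      gf {L : List Bool | ((L, G) : PT) ∈ {T | T ∈ P3 R j ∧ q ≤ (nD (2 ^ (i + c)) (ρ T.2) T.1 : ℝ)}} ≤
      gf {L : List Bool | ((L, G) : PT) ∈ {T | T ∈ P3 R i' ∧ T.1 ∈ GT b η}} * x := by
    intro G
    refine (dcs (X := {A : List Bool | ((A, G) : PT) ∈ {T | T ∈ P3 R i' ∧ T.1 ∈ GT b η}})
      (Y := fun A => {Y | ρ G A Y ∧ In (2 ^ (i + c)) Y ∧ ((A ++ Y, G) : PT) ∈ P3 R j}) fun L hL => ?_).trans ?_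
    · obtain ⟨hL1, hL2⟩ := hL
      have hL1' : ((L, G) : PT) ∈ P3 R j := hL1
      have hL2' : q ≤ (nD (2 ^ (i + c)) (ρ G) L : ℝ) := hL2
      obtain ⟨S, hS, hcut⟩ := nD_cuts (2 ^ (i + c)) (ρ G) L
      refine ⟨S, ?_, fun k hk => ?_⟩
      · rw [← ENNReal.ofReal_natCast]
        refine ENNReal.ofReal_le_ofReal (hL2'.trans ?_)
        exact_mod_cast hS
      · obtain ⟨h2, h3, h4⟩ := hcut k hk
        have h5 : ((L.take k ++ L.drop k, G) : PT) ∈ P3 R j := by rw [List.take_append_drop]; exact hL1'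
        refine ⟨h2, ⟨?_, hρ _ _ _ h3⟩, h3, h4, h5⟩
        rw [hi']
        exact exp_fst hji h5 h4
    · rw [gf_ind, ← ENNReal.tsum_mul_right]
      refine ENNReal.tsum_le_tsum fun A => ?_
      by_cases hA : A ∈ {A : List Bool | ((A, G) : PT) ∈ {T | T ∈ P3 R i' ∧ T.1 ∈ GT b η}}
      · rw [if_pos hA, if_pos hA]
        exact mul_le_mul' le_rfl (hx G A)
      · rw [if_neg hA, if_neg hA, zero_mul]
  have h2 : ENNReal.ofReal q * gp {T | T ∈ P3 R j ∧ q ≤ (nD (2 ^ (i + c)) (ρ T.2) T.1 : ℝ)} ≤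
      gp {T | T ∈ P3 R i' ∧ T.1 ∈ GT b η} * x := by
    rw [exp_fib, exp_fib, ← ENNReal.tsum_mul_left, ← ENNReal.tsum_mul_right]
    refine ENNReal.tsum_le_tsum fun G => ?_
    calc ENNReal.ofReal q * (gf {L : List Bool | ((L, G) : PT) ∈
          {T | T ∈ P3 R j ∧ q ≤ (nD (2 ^ (i + c)) (ρ T.2) T.1 : ℝ)}} * wE G.2)
        = (ENNReal.ofReal q * gf {L : List Bool | ((L, G) : PT) ∈
          {T | T ∈ P3 R j ∧ q ≤ (nD (2 ^ (i + c)) (ρ T.2) T.1 : ℝ)}}) * wE G.2 := by ring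
      _ ≤ (gf {L : List Bool | ((L, G) : PT) ∈ {T | T ∈ P3 R i' ∧ T.1 ∈ GT b η}} * x) * wE G.2 :=
          mul_le_mul' (h1 G) le_rfl
      _ = _ := by ring
  have h3 := hT D R i' b hD (hF.up (by omega)) (by omega)
  have hp := exp_pr3_nonneg R i
  calc gp {T | T ∈ P3 R j ∧ q ≤ (nD (2 ^ (i + c)) (ρ T.2) T.1 : ℝ)} * (ENNReal.ofReal q * Xb b)
      = ENNReal.ofReal q * gp {T | T ∈ P3 R j ∧ q ≤ (nD (2 ^ (i + c)) (ρ T.2) T.1 : ℝ)} * Xb b := by ring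
    _ ≤ gp {T | T ∈ P3 R i' ∧ T.1 ∈ GT b η} * x * Xb b := mul_le_mul' h2 le_rfl
    _ = gp {T | T ∈ P3 R i' ∧ T.1 ∈ GT b η} * Xb b * x := by ring
    _ ≤ ENNReal.ofReal (C * D * pr3 R i') * x := mul_le_mul' h3 le_rfl
    _ ≤ ENNReal.ofReal (C * 64 ^ (c + 2) * D * pr3 R i) * x := by
        refine mul_le_mul' (ENNReal.ofReal_le_ofReal ?_) le_rfl
        have h4 := exp_up R i (c + 2)
        rw [← hi'] at h4
        have h5 : 0 ≤ C * D := by positivity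
        calc C * D * pr3 R i' ≤ C * D * (64 ^ (c + 2) * pr3 R i) := mul_le_mul_of_nonneg_left h4 h5
          _ = _ := by ring

end RMP

end HexObs
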