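import Pool.Agent.RMP.EsIn
import Pool.Agent.RMP.Base
import Pool.Agent.RMP.ExP
import Pool.Agent.ARM.EsSt

/-!
# RMP, row EsP (helper63): pairs whose first word has an extra strand near its tip

`esP_of : ExP → InStL → YBad → NoRichSt → EsP`. The geometry of one word is that of `ARM/EsW`.
-/

set_option autoImplicit false

namespace HexObs

namespace RMP

open Finset TS SDN HexObs.SIM NTA TIP TIP.Nf ARM ARM.Es

open scoped ENNReal

/-- the end of the second part, in its frame, seen from a point -/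
lemma espf_frame (A : List Bool) (p : Pt) : ∃ z : Pt, ∀ Y : List Bool,
    TIW.hn (TIW.en Y - z) = TIW.hn (TIW.en (A ++ Y) - p) := by
  refine ⟨mulE (conjE (TIW.rt A)) (p - TIW.en A), fun Y => ?_⟩
  have h1 : mulE (TIW.rt A) (mulE (conjE (TIW.rt A)) (p - TIW.en A)) = p - TIW.en A := by
    rw [mulE_assoc, mulE_conjE, TIW.nrm_rt, mulE_one]
  rw [← TIW.hn_mulE (TIW.nrm_rt A), mulE_sub, h1, ARM.en_app]
  congr 1
  abel

/-- levels up to the size -/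
lemma espf_lev {R j i : ℕ} (hi : 2 ^ i ≤ 4 * R) :
    pr3 R i ≤ 4 ^ (25 / 8 : ℝ) * (2 : ℝ) ^ ((59 / 24 : ℝ) * ((i : ℝ) - j)) * pr3 R j := by
  unfold pr3
  have hM : (0 : ℝ) < max (R : ℝ) (2 ^ j) := lt_max_of_lt_right (by positivity)
  have h1 : max (R : ℝ) (2 ^ i) ≤ 4 * max (R : ℝ) (2 ^ j) := by
    have h2 : (R : ℝ) ≤ max (R : ℝ) (2 ^ j) := le_max_left _ _
    have h3 : ((2 : ℝ) ^ i) ≤ 4 * R := by exact_mod_cast hi
    refine max_le ?_ ?_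
    · linarith
    · linarith
  have h4 : max (R : ℝ) (2 ^ i) ^ (25 / 8 : ℝ) ≤ 4 ^ (25 / 8 : ℝ) * max (R : ℝ) (2 ^ j) ^ (25 / 8 : ℝ) := by
    rw [← Real.mul_rpow (by norm_num) hM.le]
    exact Real.rpow_le_rpow (le_max_of_le_left (Nat.cast_nonneg R)) h1 (by norm_num)
  have h5 : (2 : ℝ) ^ ((59 / 24 : ℝ) * (i : ℝ)) = (2 : ℝ) ^ ((59 / 24 : ℝ) * ((i : ℝ) - j)) * (2 : ℝ) ^ ((59 / 24 : ℝ) * (j : ℝ)) := by
    rw [← Real.rpow_add (by norm_num)]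
    congr 1
    ring
  rw [h5]
  calc (2 : ℝ) ^ ((59 / 24 : ℝ) * ((i : ℝ) - j)) * (2 : ℝ) ^ ((59 / 24 : ℝ) * (j : ℝ)) * max (R : ℝ) (2 ^ i) ^ (25 / 8 : ℝ)
      ≤ (2 : ℝ) ^ ((59 / 24 : ℝ) * ((i : ℝ) - j)) * (2 : ℝ) ^ ((59 / 24 : ℝ) * (j : ℝ)) *
        (4 ^ (25 / 8 : ℝ) * max (R : ℝ) (2 ^ j) ^ (25 / 8 : ℝ)) := mul_le_mul_of_nonneg_left h4 (by positivity)
    _ = _ := by ring

/-- the product bound against the predicted mass -/
lemma espf_prod (R j i : ℕ) : 4 ^ j * max (R : ℝ) (2 ^ j) ^ (43 / 24 : ℝ) * (2 : ℝ) ^ ((43 / 24 : ℝ) * (i : ℝ)) ≤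
    (2 : ℝ) ^ ((43 / 24 : ℝ) * ((i : ℝ) - j)) * pr3 R j := by
  obtain ⟨M, hMd⟩ : ∃ M : ℝ, M = max (R : ℝ) (2 ^ j) := ⟨_, rfl⟩
  have hM : (0 : ℝ) < M := by
    rw [hMd]
    exact lt_max_of_lt_right (by positivity)
  unfold pr3
  rw [← hMd]
  have h1 : (2 : ℝ) ^ ((4 / 3 : ℝ) * (j : ℝ)) ≤ M ^ (4 / 3 : ℝ) := by
    rw [← two_pow_rpow]
    refine Real.rpow_le_rpow (by positivity) ?_ (by norm_num)
    rw [hMd]
    exact le_max_right _ _
  have h2 : M ^ (25 / 8 : ℝ) = M ^ (43 / 24 : ℝ) * M ^ (4 / 3 : ℝ) := by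
    rw [← Real.rpow_add hM]
    norm_num
  have h3 : (4 : ℝ) ^ j * (2 : ℝ) ^ ((43 / 24 : ℝ) * (i : ℝ)) = (2 : ℝ) ^ ((43 / 24 : ℝ) * ((i : ℝ) - j)) *
      ((2 : ℝ) ^ ((59 / 24 : ℝ) * (j : ℝ)) * (2 : ℝ) ^ ((4 / 3 : ℝ) * (j : ℝ))) := by
    rw [four_pow_rpow, ← Real.rpow_add (by norm_num), ← Real.rpow_add (by norm_num), ← Real.rpow_add (by norm_num)]
    congr 1
    ring
  have h4 : 0 ≤ M ^ (43 / 24 : ℝ) := by positivity
  calc 4 ^ j * M ^ (43 / 24 : ℝ) * (2 : ℝ) ^ ((43 / 24 : ℝ) * (i : ℝ))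
      = M ^ (43 / 24 : ℝ) * ((4 : ℝ) ^ j * (2 : ℝ) ^ ((43 / 24 : ℝ) * (i : ℝ))) := by ring
    _ = M ^ (43 / 24 : ℝ) * ((2 : ℝ) ^ ((43 / 24 : ℝ) * ((i : ℝ) - j)) *
        ((2 : ℝ) ^ ((59 / 24 : ℝ) * (j : ℝ)) * (2 : ℝ) ^ ((4 / 3 : ℝ) * (j : ℝ)))) := by rw [h3]
    _ ≤ M ^ (43 / 24 : ℝ) * ((2 : ℝ) ^ ((43 / 24 : ℝ) * ((i : ℝ) - j)) *
        ((2 : ℝ) ^ ((59 / 24 : ℝ) * (j : ℝ)) * M ^ (4 / 3 : ℝ))) := by gcongr
    _ = _ := by
        rw [h2]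
        ring

open Classical in
/-- **row EsP** -/
theorem esP_of {κ : ℝ} {C : ℕ} (hκ : 0 < κ) (hE : ExP) (hI : InStL) (hY : YBad κ C) (hN : NoRichSt κ C) : EsP := by
  intro θ hθ
  obtain ⟨η, hηd⟩ : ∃ η : ℝ, η = κ / 8 := ⟨_, rfl⟩
  have hη : 0 < η := by rw [hηd]; positivity
  obtain ⟨θ0, hθ0, hI⟩ := hI η (2 * C) 3 hη (θ / 2) (by positivity)
  obtain ⟨G, hG, hrat⟩ := tip_rat
  obtain ⟨δ1, hδ1, hsm⟩ := small_pow hG (show 0 < θ / 2 by positivity)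
  obtain ⟨δ, hδd⟩ : ∃ δ : ℝ, δ = min (min θ0 δ1) 1 := ⟨_, rfl⟩
  have hδ : 0 < δ := by rw [hδd]; exact lt_min (lt_min hθ0 hδ1) one_pos
  have hδ0 : δ ≤ θ0 := by rw [hδd]; exact (min_le_left _ _).trans (min_le_left _ _)
  have hδ1' : δ ≤ δ1 := by rw [hδd]; exact (min_le_left _ _).trans (min_le_right _ _)
  have hδ2 : δ ≤ 1 := by rw [hδd]; exact min_le_right _ _
  obtain ⟨m00, hI⟩ := hI δ hδ hδ0
  obtain ⟨a, ha5, haδ⟩ : ∃ a : ℕ, 7 ≤ a ∧ 25 / 4 ≤ (a : ℝ) * δ := by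
    obtain ⟨a, ha⟩ := exists_nat_ge (25 / 4 / δ)
    refine ⟨a + 7, by omega, ?_⟩
    rw [div_le_iff₀ hδ] at ha
    push_cast
    nlinarith
  obtain ⟨J0, b1, hY⟩ := hY η a 13 hη
  obtain ⟨J2, b2, hN⟩ := hN a 12
  obtain ⟨CA, hCA, hEA⟩ := hE η 3 hη
  obtain ⟨CB, hCB, hEB⟩ := hE η 1 hη
  obtain ⟨CP, hCP, hP⟩ := P3_prod
  obtain ⟨m0, hm0⟩ : ∃ m0 : ℕ, m0 = m00 + J0 + J2 + 6 + 48 * C + 1 := ⟨_, rfl⟩
  obtain ⟨CI, b3, hCI, hI⟩ := hI m0 (by omega)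
  obtain ⟨bU, hbU⟩ : ∃ bU : ℕ, ∀ b, bU ≤ b → 8 ≤ κ * Ub b := by
    obtain ⟨B, hB⟩ := Ub_big
    obtain ⟨n, hn⟩ := exists_nat_ge (8 / κ)
    refine ⟨B * n, fun b hb => ?_⟩
    have h1 := hB b n hb
    have h2 : (n : ℝ) ≤ 8 ^ n := by
      exact_mod_cast (Nat.lt_pow_self (by norm_num : 1 < 8)).le
    have h3 : 8 / κ ≤ Ub b := hn.trans (h2.trans h1)
    rw [div_le_iff₀ hκ] at h3
    linarith
  obtain ⟨KA, hKA⟩ : ∃ KA : ℝ, KA = CA * CI * G ^ m0 * (8 / κ) * 4 ^ (25 / 8 : ℝ) := ⟨_, rfl⟩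
  obtain ⟨KB, hKB⟩ : ∃ KB : ℝ, KB = CB * (8 / κ) := ⟨_, rfl⟩
  have hKA0 : 0 < KA := by rw [hKA]; positivity
  have hKB0 : 0 < KB := by rw [hKB]; positivity
  refine ⟨KA + 2 * KB + 2 * CP + 4, m0 + (b1 + b2 + b3 + bU + 1), by positivity,
    fun D R j l i hD hF hj hjl hli => ?_⟩
  have hD0 : 0 < D := by linarith
  obtain ⟨s, hs⟩ : ∃ s : ℝ, s = (i : ℝ) - j := ⟨_, rfl⟩
  have hs0 : 0 ≤ s := by
    rw [hs]
    have : (j : ℝ) ≤ i := by exact_mod_cast hjl.trans hli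
    linarith
  obtain ⟨u, hu⟩ : ∃ u : ℝ, u = (i : ℝ) - l := ⟨_, rfl⟩
  have hu0 : 0 ≤ u := by
    rw [hu]
    have : (l : ℝ) ≤ i := by exact_mod_cast hli
    linarith
  have hus : u ≤ s := by
    rw [hs, hu]
    have : (j : ℝ) ≤ l := by exact_mod_cast hjl
    linarith
  obtain ⟨W, hW⟩ : ∃ W : ℝ, W = (2 : ℝ) ^ ((11 / 24 + θ) * s - 2 / 3 * u) := ⟨_, rfl⟩
  have hW0 : 0 < W := by rw [hW]; positivity
  have hp := pr3_pos R j
  rw [← hs, ← hu, ← hW]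
  -- small distance of the levels
  rcases Nat.lt_or_ge i (l + 3) with hil | hil
  · refine (gp_mono fun T hT => hT.1).trans ((hF j le_rfl).trans (ENNReal.ofReal_le_ofReal ?_))
    have hu2 : u ≤ 2 := by
      rw [hu]
      have : i ≤ l + 2 := by omega
      have : (i : ℝ) ≤ l + 2 := by exact_mod_cast this
      linarith
    have hW1 : 1 ≤ 4 * W := by
      rw [hW]
      have h1 : (2 : ℝ) ^ (-(2 : ℝ)) ≤ (2 : ℝ) ^ ((11 / 24 + θ) * s - 2 / 3 * u) := by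
        refine Real.rpow_le_rpow_of_exponent_le (by norm_num) ?_
        have : 0 ≤ (11 / 24 + θ) * s := by positivity
        linarith
      have h2 : (2 : ℝ) ^ (-(2 : ℝ)) = 1 / 4 := by
        rw [Real.rpow_neg (by norm_num)]
        norm_num
      linarith
    calc D * pr3 R j ≤ D * pr3 R j * (4 * W) := le_mul_of_one_le_right (by positivity) hW1
      _ = 4 * D * W * pr3 R j := by ring
      _ ≤ (KA + 2 * KB + 2 * CP + 4) * D * W * pr3 R j := by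
        have : 0 ≤ KA + 2 * KB + 2 * CP := by positivity
        gcongr
        linarith
  -- levels above the size: no word
  rcases Nat.lt_or_ge (4 * R) (2 ^ i) with hiR | hiR
  · have hem : {T : PT | T ∈ P3 R j ∧ T.1 ∈ ESe l i} = ∅ := by
      refine Set.eq_empty_iff_forall_notMem.2 fun T hT => ?_
      obtain ⟨hT1, t, a', b', hta, hab, hb, h1, -⟩ := hT
      have h2 := hT1.2.2.2.2.2.1 t (by omega)
      have h3 : (8 : ℤ) * 2 ^ j ≤ 2 ^ i := by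
        rw [show (8 : ℤ) = 2 ^ 3 by norm_num, ← pow_add]
        exact pow_le_pow_right₀ (by norm_num) (by omega)
      have h4 : (4 : ℤ) * R < 2 ^ i := by exact_mod_cast hiR
      have h5 : (0 : ℤ) ≤ R := Int.natCast_nonneg R
      linarith
    rw [hem, gp_empty]
    exact zero_le
  -- the scale of the tips
  obtain ⟨m, hm⟩ : ∃ m : ℕ, m = ⌊δ * ((i : ℝ) - j)⌋₊ + m0 := ⟨_, rfl⟩
  have hfl : ⌊δ * ((i : ℝ) - j)⌋₊ ≤ i - j := by
    have h1 : δ * ((i : ℝ) - j) ≤ ((i - j : ℕ) : ℝ) := by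
      rw [Nat.cast_sub (hjl.trans hli), ← hs]
      nlinarith
    calc ⌊δ * ((i : ℝ) - j)⌋₊ ≤ ⌊((i - j : ℕ) : ℝ)⌋₊ := Nat.floor_le_floor h1
      _ = i - j := Nat.floor_natCast _
  obtain ⟨b, hb⟩ : ∃ b, b = i - m := ⟨_, rfl⟩
  have him : i = b + m := by omega
  have hbj : j ≤ b + m0 := by omega
  have hbi : b ≤ i := by omega
  have hb1 : b1 ≤ b := by omega
  have hb2 : b2 ≤ b := by omega
  have hbU' : bU ≤ b := by omega
  have hb0 : 1 ≤ b := by omega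
  have hm6 : 6 ≤ m := by omega
  have hmC : 48 * C ≤ 2 ^ m := by
    have h1 : 48 * C ≤ m := by omega
    exact h1.trans Nat.lt_two_pow_self.le
  have hmJ0 : J0 ≤ m := by omega
  have hmJ2 : J2 ≤ m := by omega
  have hms : δ * s ≤ m := by
    have h1 := Nat.lt_floor_add_one (δ * ((i : ℝ) - j))
    have h2 : (m : ℝ) = (⌊δ * ((i : ℝ) - j)⌋₊ : ℝ) + m0 := by
      rw [hm]
      push_cast
      ring
    have h3 : (1 : ℝ) ≤ m0 := by
      have : 1 ≤ m0 := by omega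
      exact_mod_cast this
    rw [← hs] at h1 h2
    linarith
  have h8 := hbU b hbU'
  have hU := Ub_pos b
  have hFi : HF3 D R i := HF3.mono hF (hjl.trans hli)
  -- the numbers
  obtain ⟨h, hh⟩ : ∃ h : ℕ, h = ⌈κ * Ub b / 8⌉₊ := ⟨_, rfl⟩
  have hh1 : 1 ≤ h := by
    rw [hh, Nat.one_le_iff_ne_zero, Nat.ne_zero_iff_zero_lt, Nat.ceil_pos]
    positivity
  have hq : κ * Ub b / 8 ≤ (h : ℝ) := by
    rw [hh]
    exact Nat.le_ceil _
  have hh2 : (h : ℝ) < κ * Ub b / 8 + 1 := by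
    rw [hh]
    exact Nat.ceil_lt_add_one (by positivity)
  have hηh : η * Ub b ≤ (h : ℝ) := by
    rw [hηd]
    calc κ / 8 * Ub b = κ * Ub b / 8 := by ring
      _ ≤ h := hq
  have hq0 : 0 < κ * Ub b / 8 := by positivity
  -- the events
  obtain ⟨EA, hEAd⟩ : ∃ EA : Set PT, EA = {T | T ∈ P3 R j ∧ κ * Ub b / 8 ≤
    (nD (2 ^ (i + 3)) (RhoA η (2 * C) b l i) T.1 : ℝ)} := ⟨_, rfl⟩
  obtain ⟨EB, hEBd⟩ : ∃ EB : ℕ → Set PT, EB = fun J => {T | T ∈ P3 R j ∧ κ * Ub b / 8 ≤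
    (nD (2 ^ (i + J + 1)) (RhoB κ η C b (m + J + 1) 13) T.1 : ℝ)} := ⟨_, rfl⟩
  obtain ⟨EC, hECd⟩ : ∃ EC : ℕ → Set (List Bool), EC = fun J => {L | L ∈ SA ∧ 0 ≤ L.length ∧ In (2 ^ (b + (m + J))) L ∧
    ∃ N : ℕ, 2 ^ (m + J) ≤ N * 2 ^ 12 ∧ L ∈ Lz κ C b N} := ⟨_, rfl⟩
  have hcov : {T : PT | T ∈ P3 R j ∧ T.1 ∈ ESe l i} ⊆ EA ∪ ((⋃ J, EB J) ∪ ⋃ J, {T | T ∈ P3 R j ∧ T.1 ∈ EC J}) := by
    rintro T ⟨hLF, hLe⟩
    obtain ⟨t0, t1, hc⟩ := cr_of hil hLe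
    have hsa : T.1 ∈ SA := hLF.1
    by_cases hNz : T.1.take t1 ∈ Nz κ C b
    · obtain ⟨J, -, hJ1, hJ2⟩ := es_caseC hc hNz him hm6
      refine Or.inr (Or.inr (Set.mem_iUnion.2 ⟨J, hLF, ?_⟩))
      rw [hECd]
      refine ⟨hsa, Nat.zero_le _, ?_, hJ2⟩
      rw [show b + (m + J) = i + J by omega]
      exact hJ1
    · obtain ⟨X, Z1, Z2, Z3, Y0, hd⟩ := dt_of neW (SA_take hsa t1) hNz
      have h4 : 4 * h ≤ nc Z2 := by
        have h5 : (4 : ℝ) * h ≤ nc Z2 := by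
          have := hd.n2
          linarith
        exact_mod_cast h5
      rcases Nat.lt_or_ge t0 (X ++ Z1).length with hX | hX
      · refine Or.inl ?_
        rw [hEAd]
        refine ⟨hLF, hq.trans ?_⟩
        exact_mod_cast es_caseA hc hsa hd hb0 hh1 hηh h4 hX
      · obtain ⟨J, -, hJ⟩ := es_caseB hc hsa hd hh1 hηh h4 hX him hm6 hmC
        refine Or.inr (Or.inl (Set.mem_iUnion.2 ⟨J, ?_⟩))
        rw [hEBd]
        refine ⟨hLF, hq.trans ?_⟩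
        exact_mod_cast hJ
  have hlev : pr3 R i ≤ 4 ^ (25 / 8 : ℝ) * (2 : ℝ) ^ ((59 / 24 : ℝ) * s) * pr3 R j := by
    rw [hs]
    exact espf_lev hiR
  have hpi := pr3_pos R i
  -- case A
  have hA : gp EA ≤ ENNReal.ofReal (KA * D * W * pr3 R j) := by
    obtain ⟨w, hw⟩ : ∃ w : ℝ, w = (2 : ℝ) ^ ((θ / 2 - 2) * ((i : ℝ) - j) - 2 / 3 * ((i : ℝ) - l)) := ⟨_, rfl⟩
    have hw0 : 0 < w := by rw [hw]; positivity
    have h1 := hEA D R j i b hD hFi (hjl.trans hli) hbi (fun _ A Y => RhoA η (2 * C) b l i A Y)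
      (ENNReal.ofReal (CI * w * Ub i) * Xb i)
      (κ * Ub b / 8) (fun _ A Y h => h.1) (fun Gg A => ?_) hq0
    · have h1' : gp EA * (ENNReal.ofReal (κ * Ub b / 8) * Xb b) ≤ ENNReal.ofReal (CA * D * pr3 R i) *
          (ENNReal.ofReal (CI * w * Ub i) * Xb i) := by
        rw [hEAd]
        exact h1
      have h2 : ENNReal.ofReal (CI * w * Ub i) * Xb i ≤ ENNReal.ofReal (CI * w * (G ^ m * Ub b)) * Xb b := by
        have h3 := hrat b m
        rw [← him] at h3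
        rw [ENNReal.ofReal_mul (by positivity), ENNReal.ofReal_mul (show 0 ≤ CI * w by positivity), mul_assoc, mul_assoc]
        exact mul_le_mul' le_rfl h3
      have h3 := cancelF (y := CI * w * (G ^ m * Ub b)) hq0 (by positivity) (h1'.trans (mul_le_mul' le_rfl h2))
      refine h3.trans (ENNReal.ofReal_le_ofReal ?_)
      have hGm : G ^ m ≤ G ^ m0 * (2 : ℝ) ^ (θ / 2 * s) := by
        rw [hm, pow_add, ← hs, mul_comm]
        exact mul_le_mul_of_nonneg_left (hsm δ hδ.le hδ1' s hs0) (by positivity)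
      have hww : w * (2 : ℝ) ^ (θ / 2 * s) * (2 : ℝ) ^ ((59 / 24 : ℝ) * s) = W := by
        rw [hw, hW, ← hs, ← hu, ← Real.rpow_add (by norm_num), ← Real.rpow_add (by norm_num)]
        congr 1
        ring
      have hUne : Ub b ≠ 0 := hU.ne'
      calc CA * D * pr3 R i * (CI * w * (G ^ m * Ub b)) / (κ * Ub b / 8)
          = CA * D * pr3 R i * (CI * w * G ^ m) * (8 / κ) := by
            field_simp
        _ ≤ CA * D * (4 ^ (25 / 8 : ℝ) * (2 : ℝ) ^ ((59 / 24 : ℝ) * s) * pr3 R j) *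
            (CI * w * (G ^ m0 * (2 : ℝ) ^ (θ / 2 * s))) * (8 / κ) := by
            gcongr
        _ = CA * CI * G ^ m0 * (8 / κ) * 4 ^ (25 / 8 : ℝ) * D *
            (w * (2 : ℝ) ^ (θ / 2 * s) * (2 : ℝ) ^ ((59 / 24 : ℝ) * s)) * pr3 R j := by
            ring
        _ = KA * D * W * pr3 R j := by rw [hww, hKA]
    · obtain ⟨z, hz⟩ := espf_frame A (pe Gg.1 Gg.2)
      have h2 := hI j l i m z (by omega) hjl hli hm (by omega)
      rw [hw]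
      refine (gf_mono ?_).trans h2
      rintro Y ⟨⟨-, r2, r3, r4, r5⟩, r6, r7⟩
      refine ⟨r2, ?_, r6, ?_, r4, r5⟩
      · rw [← hb]
        exact r3
      · rw [hz Y]
        have r8 := r7.2.2.2.2.1
        have r9 : TIW.hn (TIW.en (A ++ Y) - pe Gg.1 Gg.2) ≤ 2 ^ j := r8
        linarith
  -- the loss of the distance of the levels
  have hWlow : (2 : ℝ) ^ ((67 / 12 : ℝ) * s) ≤ W * 2 ^ (a * m) := by
    rw [hW, ← Real.rpow_natCast (2 : ℝ) (a * m), ← Real.rpow_add (by norm_num)]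
    refine Real.rpow_le_rpow_of_exponent_le (by norm_num) ?_
    push_cast
    have h1 : 25 / 4 * s ≤ (a : ℝ) * m := by
      calc 25 / 4 * s ≤ (a : ℝ) * δ * s := by gcongr
        _ = a * (δ * s) := by ring
        _ ≤ a * m := by gcongr
    have h2 : 0 ≤ (11 / 24 + θ) * s := by positivity
    linarith
  have hlev2 : pr3 R i ≤ (2 : ℝ) ^ ((67 / 12 : ℝ) * s) * pr3 R j := by
    have h1 := pr3_up R j (i - j)
    rw [show j + (i - j) = i by omega, Nat.cast_sub (hjl.trans hli), ← hs] at h1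
    exact h1
  have h64 : ∀ J : ℕ, (64 : ℝ) ^ J ≤ (1 / 2) ^ J * 2 ^ (a * J) := by
    intro J
    rw [pow_mul, ← mul_pow]
    refine pow_le_pow_left₀ (by norm_num) ?_ J
    have : (2 : ℝ) ^ 7 ≤ 2 ^ a := pow_le_pow_right₀ (by norm_num) ha5
    linarith
  have hprJ : ∀ J : ℕ, pr3 R (i + J) / 2 ^ (a * (m + J)) ≤ W * pr3 R j * (1 / 2) ^ J := by
    intro J
    rw [div_le_iff₀ (by positivity)]
    calc pr3 R (i + J) ≤ 64 ^ J * pr3 R i := exp_up R i J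
      _ ≤ ((1 / 2) ^ J * 2 ^ (a * J)) * ((2 : ℝ) ^ ((67 / 12 : ℝ) * s) * pr3 R j) :=
        mul_le_mul (h64 J) hlev2 hpi.le (by positivity)
      _ ≤ ((1 / 2) ^ J * 2 ^ (a * J)) * ((W * 2 ^ (a * m)) * pr3 R j) := by gcongr
      _ = _ := by
        rw [mul_add, pow_add]
        ring
  -- case B
  have hB : ∀ J, gp (EB J) ≤ ENNReal.ofReal ((KB * D * W * pr3 R j) * (1 / 2) ^ J) := by
    intro J
    have hFJ : HF3 D R (i + J) := HF3.mono hF (by omega)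
    have h1 := hEB D R j (i + J) b hD hFJ (by omega) (by omega) (fun _ A Y => RhoB κ η C b (m + J + 1) 13 A Y)
      (ENNReal.ofReal (Ub b / 2 ^ (a * (m + J + 1))) * Xb b) (κ * Ub b / 8) (fun _ A Y h => h.1) (fun Gg A => ?_) hq0
    · have h2 : gp (EB J) * (ENNReal.ofReal (κ * Ub b / 8) * Xb b) ≤ ENNReal.ofReal (CB * D * pr3 R (i + J)) *
          (ENNReal.ofReal (Ub b / 2 ^ (a * (m + J + 1))) * Xb b) := by
        rw [hEBd]
        exact h1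
      have hpJ := pr3_pos R (i + J)
      refine (cancelF hq0 (by positivity) h2).trans (ENNReal.ofReal_le_ofReal ?_)
      have h3 : (0 : ℝ) < 2 ^ (a * (m + J)) := by positivity
      have h4 : (2 : ℝ) ^ (a * (m + J)) ≤ 2 ^ (a * (m + J + 1)) :=
        pow_le_pow_right₀ (by norm_num) (Nat.mul_le_mul_left _ (by omega))
      calc CB * D * pr3 R (i + J) * (Ub b / 2 ^ (a * (m + J + 1))) / (κ * Ub b / 8)
          = CB * (8 / κ) * D * (pr3 R (i + J) / 2 ^ (a * (m + J + 1))) := by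
            field_simp
        _ ≤ CB * (8 / κ) * D * (pr3 R (i + J) / 2 ^ (a * (m + J))) := by gcongr
        _ ≤ CB * (8 / κ) * D * (W * pr3 R j * (1 / 2) ^ J) := by
          have := hprJ J
          gcongr
        _ = _ := by rw [hKB]; ring
    · have h2 := hY b (m + J + 1) hb1 (by omega)
      rw [show b + (m + J + 1) = i + J + 1 by omega] at h2
      refine (gf_mono ?_).trans h2
      rintro Y ⟨⟨-, r2, r3, r4⟩, r5, r6⟩
      exact ⟨r2, r3, r5, r4⟩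
  -- case C
  have hCc : ∀ J, gp {T | T ∈ P3 R j ∧ T.1 ∈ EC J} ≤ ENNReal.ofReal ((CP * D * W * pr3 R j) * (1 / 2) ^ J) := by
    intro J
    have h1 := hN b (m + J) 0 hb2 (by omega)
    rw [show b + (m + J) = i + J by omega, pr_z] at h1
    have h2 : gf (EC J) ≤ ENNReal.ofReal ((2 : ℝ) ^ ((43 / 24 : ℝ) * ((i + J : ℕ) : ℝ)) / 2 ^ (a * (m + J))) := by
      rw [hECd]
      simp only [show b + (m + J) = i + J by omega]
      exact h1
    refine (hP R j (EC J)).trans ((mul_le_mul_right h2 _).trans ?_)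
    rw [← ENNReal.ofReal_mul (by positivity)]
    refine ENNReal.ofReal_le_ofReal ?_
    obtain ⟨M, hMd⟩ : ∃ M : ℝ, M = max (R : ℝ) (2 ^ j) := ⟨_, rfl⟩
    have hM : (0 : ℝ) < M := by
      rw [hMd]
      exact lt_max_of_lt_right (by positivity)
    have h3 := espf_prod R j i
    rw [← hMd, ← hs] at h3
    have h4 : (2 : ℝ) ^ ((43 / 24 : ℝ) * ((i + J : ℕ) : ℝ)) ≤ (2 : ℝ) ^ ((43 / 24 : ℝ) * (i : ℝ)) * 64 ^ J := by
      rw [show (64 : ℝ) = 2 ^ 6 by norm_num, ← pow_mul, ← Real.rpow_natCast 2 (6 * J), ← Real.rpow_add (by norm_num)]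
      refine Real.rpow_le_rpow_of_exponent_le (by norm_num) ?_
      push_cast
      have : (0 : ℝ) ≤ J := Nat.cast_nonneg J
      linarith
    have h5 : (2 : ℝ) ^ ((43 / 24 : ℝ) * s) ≤ W * 2 ^ (a * m) := by
      refine le_trans (Real.rpow_le_rpow_of_exponent_le (by norm_num) ?_) hWlow
      linarith
    have h6 : (0 : ℝ) < 2 ^ (a * (m + J)) := by positivity
    rw [← hMd, mul_div_assoc', div_le_iff₀ h6]
    calc CP * (4 ^ j * M ^ (43 / 24 : ℝ)) * (2 : ℝ) ^ ((43 / 24 : ℝ) * ((i + J : ℕ) : ℝ))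
        ≤ CP * (4 ^ j * M ^ (43 / 24 : ℝ)) * ((2 : ℝ) ^ ((43 / 24 : ℝ) * (i : ℝ)) * 64 ^ J) := by gcongr
      _ = CP * (4 ^ j * M ^ (43 / 24 : ℝ) * (2 : ℝ) ^ ((43 / 24 : ℝ) * (i : ℝ))) * 64 ^ J := by ring
      _ ≤ CP * ((2 : ℝ) ^ ((43 / 24 : ℝ) * s) * pr3 R j) * ((1 / 2) ^ J * 2 ^ (a * J)) := by
          have := h64 J
          gcongr
      _ ≤ CP * ((W * 2 ^ (a * m)) * pr3 R j) * ((1 / 2) ^ J * 2 ^ (a * J)) := by gcongr
      _ = (CP * 1 * W * pr3 R j) * (1 / 2) ^ J * 2 ^ (a * (m + J)) := by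
          rw [mul_add, pow_add]
          ring
      _ ≤ (CP * D * W * pr3 R j) * (1 / 2) ^ J * 2 ^ (a * (m + J)) := by gcongr
  -- the sum
  refine (gp_mono hcov).trans ((gp_union_le _ _).trans ?_)
  have hsum : ENNReal.ofReal ((KA + 2 * KB + 2 * CP + 4) * D * W * pr3 R j) =
      ENNReal.ofReal (KA * D * W * pr3 R j) + ((ENNReal.ofReal (2 * (KB * D * W * pr3 R j)) +
        ENNReal.ofReal (2 * (CP * D * W * pr3 R j))) + ENNReal.ofReal (4 * D * W * pr3 R j)) := by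
    rw [← ENNReal.ofReal_add (by positivity) (by positivity), ← ENNReal.ofReal_add (by positivity) (by positivity),
      ← ENNReal.ofReal_add (by positivity) (by positivity)]
    congr 1
    ring
  rw [hsum]
  refine add_le_add hA (le_trans ?_ (le_add_of_nonneg_right zero_le))
  refine (gp_union_le _ _).trans (add_le_add ?_ ?_)
  · refine (gp_iUnion_le _).trans ((ENNReal.tsum_le_tsum hB).trans ?_)
    rw [Es.tsum_half (by positivity)]
  · refine (gp_iUnion_le _).trans ((ENNReal.tsum_le_tsum hCc).trans ?_)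
    rw [Es.tsum_half (by positivity)]

end RMP

end HexObs
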