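import Pool.Agent.RMP.Num
import Pool.Agent.ARM.NumB
import Pool.Agent.TIP.DCnt

/-!
# RMP, row P11 (helper14), part 1: removal of the outer part of the first word

* `gA`, `gB` : the frame of the second word, seen from the end of the removed part; `P3_drop`;
* **`fa_dc`** : double counting: the outer part `A` in a class of words, the rest in a class of pairs.
-/

set_option autoImplicit false

namespace HexObs

namespace RMP

open Finset TS SDN SIM NTA TIP ARM

open scoped ENNReal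

/-- the frame g seen from the end of the word A -/
def gA (A : List Bool) (g : Pt × Pt) : Pt × Pt := (mulE (conjE (TIW.rt A)) (g.1 - TIW.en A), mulE (conjE (TIW.rt A)) g.2)

/-- the inverse of gA -/
def gB (A : List Bool) (g : Pt × Pt) : Pt × Pt := (TIW.en A + mulE (TIW.rt A) g.1, mulE (TIW.rt A) g.2)

lemma gB_gA (A : List Bool) (g : Pt × Pt) : gB A (gA A g) = g := by
  unfold gA gB
  ext1
  · show TIW.en A + mulE (TIW.rt A) (mulE (conjE (TIW.rt A)) (g.1 - TIW.en A)) = g.1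
    rw [mul_conj (TIW.nrm_rt A)]
    abel
  · show mulE (TIW.rt A) (mulE (conjE (TIW.rt A)) g.2) = g.2
    rw [mul_conj (TIW.nrm_rt A)]

lemma pv_gA (A : List Bool) (g : Pt × Pt) (B : List Bool) (t : ℕ) :
    pv g B t = TIW.en A + mulE (TIW.rt A) (pv (gA A g) B t) := by
  unfold pv gA
  show g.1 + mulE g.2 (vx oo up B t) = TIW.en A + mulE (TIW.rt A) (mulE (conjE (TIW.rt A)) (g.1 - TIW.en A) +
    mulE (mulE (conjE (TIW.rt A)) g.2) (vx oo up B t))
  rw [← mulE_assoc (conjE (TIW.rt A)), mulE_add, mul_conj (TIW.nrm_rt A), mul_conj (TIW.nrm_rt A)]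
  abel

lemma Fr_gA (A : List Bool) {g : Pt × Pt} (h : Fr g) : Fr (gA A g) := by
  have hA := Fr_word A
  have hn : nrm (gA A g).2 = 1 := by
    show nrm (mulE (conjE (TIW.rt A)) g.2) = 1
    rw [nrm_mulE, nrm_conjE, TIW.nrm_rt, h.nrm, one_mul]
  have e1 : cl (gA A g).1 = cl (TIW.rt A) * (cl g.1 - cl (TIW.en A)) := by
    show cl (mulE (conjE (TIW.rt A)) (g.1 - TIW.en A)) = _
    have h2 := cl_add (g.1 - TIW.en A) (TIW.en A)
    rw [sub_add_cancel] at h2
    rw [cl_mulE, cl_conjE, h2]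
    ring
  have e2 : cl (gA A g).2 = cl (TIW.rt A) * cl g.2 := by
    show cl (mulE (conjE (TIW.rt A)) g.2) = _
    rw [cl_mulE, cl_conjE]
  refine ⟨mem_dirs.2 hn, ?_⟩
  rw [e1, e2]
  rcases hA.2 with ⟨a1, a2⟩ | ⟨a1, a2⟩ <;> rcases h.2 with ⟨b1, b2⟩ | ⟨b1, b2⟩ <;>
    simp only [a1, a2, b1, b2, cl_up'] <;> decide

/-- the rest of a pair if the outer part A is removed -/
lemma P3_drop {R i : ℕ} {A Y : List Bool} {g : Pt × Pt} {B : List Bool} (h : ((A ++ Y, (g, B)) : PT) ∈ P3 R i) :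
    ((Y, (gA A g, B)) : PT) ∈ P3 R i := by
  obtain ⟨h1, h2, h3, h4, h5, h6, h7⟩ := h
  have hv : ∀ s t, vx oo up (A ++ Y) (A.length + s) - pv g B t = mulE (TIW.rt A) (vx oo up Y s - pv (gA A g) B t) := by
    intro s t
    rw [TIW.vx_app, pv_gA A g B t, mulE_sub']
    abel
  refine ⟨?_, h2, Fr_gA A h3, ?_, ?_, ?_, h7⟩
  · have := SA_drop h1 A.length
    rwa [List.drop_left] at this
  · rintro s hs ⟨t, ht, he⟩
    have hs' : s ≤ Y.length := hs
    have h8 : vx oo up Y s = pv (gA A g) B t := he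
    refine h4 (A.length + s) (by show A.length + s ≤ (A ++ Y).length; rw [List.length_append]; omega) ⟨t, ht, ?_⟩
    have h9 := hv s t
    rw [h8, sub_self, show mulE (TIW.rt A) (0 : Pt) = 0 by unfold mulE; ext <;> simp] at h9
    exact sub_eq_zero.1 h9
  · have h9 := hv Y.length B.length
    rw [← List.length_append] at h9
    show TIW.hn (TIW.en Y - pe (gA A g) B) ≤ 2 ^ i
    have h10 : TIW.hn (TIW.en (A ++ Y) - pe g B) ≤ 2 ^ i := h5
    have e : TIW.en (A ++ Y) - pe g B = mulE (TIW.rt A) (TIW.en Y - pe (gA A g) B) := h9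
    rw [e, TIW.hn_mulE (TIW.nrm_rt A)] at h10
    exact h10
  · intro s hs
    have hs' : s ≤ Y.length := hs
    have := h6 (A.length + s) (by show A.length + s ≤ (A ++ Y).length; rw [List.length_append]; omega)
    show dz Y s ≤ R + 2 ^ i
    rwa [show dz ((A ++ Y, (g, B)) : PT).1 (A.length + s) = dz Y s from dz_app A Y s] at this

/-- **double counting, outer parts** -/
theorem fa_dc {S S' : Set PT} {X : Set (List Bool)} {c : ℝ≥0∞}
    (h : ∀ T ∈ S, ∃ P : Finset ℕ, c ≤ (P.card : ℝ≥0∞) ∧ ∀ p ∈ P, p ≤ T.1.length ∧ T.1.take p ∈ X ∧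
      ((T.1.drop p, (gA (T.1.take p) T.2.1, T.2.2)) : PT) ∈ S') :
    c * gp S ≤ gf X * gp S' := by
  classical
  obtain ⟨gl, hgl⟩ : ∃ gl : List Bool × PT → PT, gl = fun x => (x.1 ++ x.2.1, (gB x.1 x.2.2.1, x.2.2.2)) := ⟨_, rfl⟩
  obtain ⟨w, hw⟩ : ∃ w : PT → ℝ≥0∞, w = fun T => wE T.1 * wE T.2.2 := ⟨_, rfl⟩
  have e1 : c * gp S ≤ ∑' T : PT, ∑' x : List Bool × PT,
      if gl x = T ∧ x.1 ∈ X ∧ x.2 ∈ S' then wE x.1 * w x.2 else 0 := by
    rw [gp_indicator, ← ENNReal.tsum_mul_left]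
    refine ENNReal.tsum_le_tsum fun T => ?_
    by_cases hT : T ∈ S
    · obtain ⟨P, hP, hq⟩ := h T hT
      rw [Set.indicator_of_mem hT]
      obtain ⟨f, hf⟩ : ∃ f : ℕ → List Bool × PT, f = fun p => (T.1.take p, (T.1.drop p, (gA (T.1.take p) T.2.1, T.2.2))) :=
        ⟨_, rfl⟩
      have hinj : Set.InjOn f (P : Set ℕ) := by
        intro q hq1 q' hq2 he
        rw [hf] at he
        have h1 := congrArg (fun p : List Bool × PT => p.1.length) he
        simp only [List.length_take] at h1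
        have := (hq q hq1).1
        have := (hq q' hq2).1
        omega
      calc c * (wE T.1 * wE T.2.2) ≤ (P.card : ℝ≥0∞) * (wE T.1 * wE T.2.2) := mul_le_mul_left hP _
        _ = ∑ q ∈ P, wE T.1 * wE T.2.2 := by rw [sum_const, nsmul_eq_mul]
        _ = ∑ q ∈ P, (fun x : List Bool × PT => if gl x = T ∧ x.1 ∈ X ∧ x.2 ∈ S' then wE x.1 * w x.2 else 0) (f q) := by
            refine sum_congr rfl fun q hqS => ?_
            obtain ⟨q1, q2, q3⟩ := hq q hqS
            have e : gl (f q) = T := by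
              rw [hgl, hf]
              simp only [List.take_append_drop, gB_gA]
            have e2 : (f q).1 ∈ X := by rw [hf]; exact q2
            have e3 : (f q).2 ∈ S' := by rw [hf]; exact q3
            simp only
            rw [if_pos ⟨e, e2, e3⟩, hf, hw]
            simp only
            rw [← mul_assoc, ← wE_append (List.take q T.1), List.take_append_drop]
        _ = ∑ x ∈ P.image f, (fun x : List Bool × PT => if gl x = T ∧ x.1 ∈ X ∧ x.2 ∈ S' then wE x.1 * w x.2 else 0) x := by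
            rw [sum_image hinj]
        _ ≤ _ := ENNReal.sum_le_tsum _
    · rw [Set.indicator_of_notMem hT, mul_zero]
      exact zero_le
  refine e1.trans ?_
  rw [ENNReal.tsum_comm]
  have e2 : ∀ x : List Bool × PT, (∑' T : PT, if gl x = T ∧ x.1 ∈ X ∧ x.2 ∈ S' then wE x.1 * w x.2 else 0) =
      if x.1 ∈ X ∧ x.2 ∈ S' then wE x.1 * w x.2 else 0 := by
    intro x
    rw [tsum_eq_single (gl x) (fun T hT => if_neg fun h => hT h.1.symm)]
    by_cases hp : x.1 ∈ X ∧ x.2 ∈ S'
    · rw [if_pos ⟨rfl, hp⟩, if_pos hp]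
    · rw [if_neg hp, if_neg fun h => hp h.2]
  rw [tsum_congr e2, ENNReal.tsum_prod', gf_ind X, ← ENNReal.tsum_mul_right]
  refine ENNReal.tsum_le_tsum fun A => ?_
  by_cases hA : A ∈ X
  · rw [if_pos hA]
    have e3 : ∀ T : PT, (if (A, T).1 ∈ X ∧ (A, T).2 ∈ S' then wE (A, T).1 * w (A, T).2 else 0) =
        wE A * S'.indicator (fun T : PT => wE T.1 * wE T.2.2) T := by
      intro T
      by_cases hT : T ∈ S'
      · rw [if_pos ⟨hA, hT⟩, Set.indicator_of_mem hT, hw]
      · rw [if_neg (fun h => hT h.2), Set.indicator_of_notMem hT, mul_zero]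
    rw [tsum_congr e3, ENNReal.tsum_mul_left, ← gp_indicator]
  · have e3 : ∀ T : PT, (if (A, T).1 ∈ X ∧ (A, T).2 ∈ S' then wE (A, T).1 * w (A, T).2 else 0) = 0 :=
      fun T => if_neg fun h => hA h.1
    rw [tsum_congr e3, tsum_zero]
    exact zero_le

end RMP

end HexObs
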