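import Pool.Agent.RMP.FaStep

/-!
# RMP, row P11 (helper14), part 4: the scales

* `ent_ex` : the first entry into a ball around the tip; `ent_lz` : a factor without rich window between two entries;
* **`fa_cover`** : a fast word is in one of the classes `FaS` or has a very long factor without rich window.
-/

set_option autoImplicit false

namespace HexObs

namespace RMP

open Finset TS SDN NTW NTA HexObs.SIM TIP TIP.Nf TIW ARM NPR

open scoped ENNReal

/-- e is the first vertex from s on in the ball of radius r around the tip -/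
structure Ent (t : List Bool) (s : ℕ) (r : ℤ) (e : ℕ) : Prop where
  ge : s ≤ e
  le : e ≤ t.length
  inn : dz t e ≤ r
  out : ∀ i, s ≤ i → i < e → r < dz t i

lemma ent_ex {t : List Bool} {s : ℕ} (hs : s ≤ t.length) {r : ℤ} (hr : 0 ≤ r) : ∃ e, Ent t s r e := by
  have hex : ∃ e, s ≤ e ∧ e ≤ t.length ∧ dz t e ≤ r := ⟨t.length, hs, le_rfl, by rw [dz_len]; exact hr⟩
  classical
  obtain ⟨h1, h2, h3⟩ := Nat.find_spec hex
  exact ⟨Nat.find hex, h1, h2, h3, fun i hi hi2 => by
    by_contra hc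
    exact Nat.find_min hex hi2 ⟨hi, by omega, not_lt.1 hc⟩⟩

lemma Ent.mono {t : List Bool} {s : ℕ} {r r' : ℤ} {e e' : ℕ} (h : Ent t s r e) (h' : Ent t s r' e') (hr : r' ≤ r) : e ≤ e' := by
  by_contra hc
  have h1 := h.out e' h'.ge (not_le.1 hc)
  have h2 := h'.inn
  linarith

/-- one step -/
lemma dz_step (t : List Bool) (i : ℕ) : dz t i ≤ dz t (i + 1) + 2 := by
  have h1 := dz_hn t i (i + 1)
  have h2 : TIW.hn (vx oo up t i - vx oo up t (i + 1)) ≤ 2 := by
    have e : vx oo up t (i + 1) = vx oo up t i + dx up t i := rfl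
    rw [e, sub_add_cancel_left, hn_neg]
    have h3 : ∀ d ∈ dirs, TIW.hn d ≤ 2 := by decide
    exact h3 _ (ds_mem upd' i)
  linarith

lemma Ent.lower {t : List Bool} {s : ℕ} {r : ℤ} {e : ℕ} (h : Ent t s r e) (hs : r < dz t s) : r - 1 ≤ dz t e := by
  have h1 : s ≠ e := by
    rintro rfl
    have := h.inn
    omega
  have h2 := h.ge
  obtain ⟨i, rfl⟩ : ∃ i, e = i + 1 := ⟨e - 1, by omega⟩
  have h3 := h.out i (by omega) (by omega)
  have h4 := dz_step t i
  omega

/-- the distance of the tip from the start of a part -/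
lemma hn_part {t : List Bool} {e e' : ℕ} (h : e ≤ e') (h' : e' ≤ t.length) :
    TIW.hn (vx oo up ((t.take e').drop e) (e' - e)) = TIW.hn (vx oo up t e' - vx oo up t e) := by
  have h1 : t.take e' = t.take e ++ (t.take e').drop e := by
    have := List.take_append_drop e (t.take e')
    rw [List.take_take, min_eq_left h] at this
    exact this.symm
  have h2 := TIW.vx_app (t.take e) ((t.take e').drop e) (e' - e)
  rw [← h1, List.length_take, min_eq_left (h.trans h'), show e + (e' - e) = e' by omega, fa_take le_rfl] at h2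
  have h3 : TIW.en (t.take e) = vx oo up t e := by
    unfold TIW.en
    rw [List.length_take, min_eq_left (h.trans h'), fa_take le_rfl]
  rw [h2, h3, add_sub_cancel_left, TIW.hn_mulE (TIW.nrm_rt _)]

lemma Nz_pre {κ : ℝ} {C b : ℕ} {Q Y : List Bool} (h : Q ++ Y ∈ Nz κ C b) : Q ∈ Nz κ C b := by
  intro X Z Y' he hY
  refine h X Z (Y' ++ Y) ?_ ?_
  · rw [he]
    simp only [List.append_assoc]
  · intro h1
    exact hY (List.append_eq_nil_iff.1 h1).1

/-- a factor without rich window of a large extent -/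
lemma ent_lz {κ : ℝ} {C b n e e' : ℕ} {t : List Bool} (h : e ≤ e') (h' : e' ≤ t.length) (hN : t.drop e ∈ Nz κ C b)
    (hd : 3 * ((n * 2 ^ b : ℕ) : ℤ) + dz t e' < dz t e) : t.take e' ∈ Lz κ C b n := by
  have h1 : t.take e' = t.take e ++ ((t.take e').drop e ++ []) := by
    have := List.take_append_drop e (t.take e')
    rw [List.take_take, min_eq_left h] at this
    rw [List.append_nil]
    exact this.symm
  refine ⟨t.take e, (t.take e').drop e, [], h1, ?_, fun hin => ?_⟩
  · have h2 : t.drop e = (t.take e').drop e ++ t.drop e' := by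
      have h3 : t = t.take e' ++ t.drop e' := (List.take_append_drop e' t).symm
      have hl : e ≤ (t.take e').length := by
        rw [List.length_take]
        omega
      conv_lhs => rw [h3]
      rw [List.drop_append_of_le_length hl]
    rw [h2] at hN
    exact Nz_pre hN
  · have hl : ((t.take e').drop e).length = e' - e := by
      rw [List.length_drop, List.length_take]
      omega
    have h2 := TIW.hn_le_Bl (hin (e' - e) (by omega))
    rw [hn_part h h'] at h2
    have h3 := dz_hn t e e'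
    rw [TIW.hn_sub_comm] at h3
    linarith

lemma fa_lvl (dir : Bool) (p q : Pt) : lvl dir p - lvl dir q = lvl dir (p - q) := by
  unfold lvl ip
  simp only [Prod.fst_sub, Prod.snd_sub]
  ring

/-- **the scales** -/
theorem fa_cover {κ : ℝ} {C r j p0 M l : ℕ} {x : ℝ} (hp : 7 ≤ p0) (hM : 2 * M + p0 + 1 ≤ r) (hl : l + 3 = r) {T : PT}
    (hT : T ∈ P3 (2 ^ r) j) (hs : ∃ s, s ≤ T.1.length ∧ 2 ^ r < 2 * dz T.1 s) (hx : (T.1.length : ℝ) ≤ x) :
    (∃ m, m ≤ M ∧ T ∈ FaS κ C (2 ^ r) j (r - p0 - 2 * m) l x (r - p0 - 2 * m + 2) (if m = 0 then 0 else 2 ^ (p0 + m - 6))) ∨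
      T.1 ∈ Lz κ C (r - p0 - 2 * M) (2 ^ (p0 + M - 4)) := by
  classical
  obtain ⟨t, ht⟩ : ∃ t, t = T.1 := ⟨_, rfl⟩
  rw [← ht] at hs hx ⊢
  obtain ⟨s, hs1, hs2⟩ := hs
  have hr0 : ∀ m : ℕ, (0 : ℤ) ≤ 2 ^ (r - 2 - m) := fun m => by positivity
  obtain ⟨e, he⟩ : ∃ e : ℕ → ℕ, ∀ m, Ent t s (2 ^ (r - 2 - m)) (e m) :=
    ⟨fun m => Classical.choose (ent_ex hs1 (hr0 m)), fun m => Classical.choose_spec (ent_ex hs1 (hr0 m))⟩
  have hbig : ∀ m, (2 : ℤ) ^ (r - 2 - m) < dz t s := by
    intro m
    have h1 : (2 : ℤ) ^ r = 2 * 2 ^ (r - 1) := by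
      rw [← pow_succ']
      congr 1
      omega
    have h2 : (2 : ℤ) ^ (r - 2 - m) ≤ 2 ^ (r - 1) := pow_le_pow_right₀ (by norm_num) (by omega)
    linarith
  have hmono : ∀ m m', m ≤ m' → e m ≤ e m' := fun m m' h => (he m).mono (he m') (pow_le_pow_right₀ (by norm_num) (by omega))
  -- the fast displacement
  have hDE : ∀ m, t.take (e m) ∈ EN.DE l x := by
    intro m
    have h1 : TIW.hn (vx oo up t (e 0) - vx oo up t s) ≥ 2 ^ (r - 2) := by
      have h2 := dz_hn t s (e 0)
      rw [TIW.hn_sub_comm] at h2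
      have h3 := (he 0).inn
      rw [Nat.sub_zero] at h3
      have h4 : (2 : ℤ) ^ r = 4 * 2 ^ (r - 2) := by
        have : r = (r - 2) + 2 := by omega
        conv_lhs => rw [this, pow_add]
        ring
      linarith
    obtain ⟨dir, hdir⟩ := NPR.Fast.hn_lvl h1
    refine ⟨dir, s, e 0, (he 0).ge, ?_, ?_, ?_⟩
    · rw [List.length_take, min_eq_left (he m).le]
      exact hmono 0 m (Nat.zero_le m)
    · have h5 : (e 0 : ℝ) ≤ t.length := by exact_mod_cast (he 0).le
      have h6 : (0 : ℝ) ≤ s := Nat.cast_nonneg s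
      linarith
    · rw [fa_take (hmono 0 m (Nat.zero_le m)), fa_take ((he 0).ge.trans (hmono 0 m (Nat.zero_le m))), fa_lvl]
      have h7 : (2 : ℤ) ^ (r - 2) = 2 * 2 ^ l := by
        rw [← pow_succ']
        congr 1
        omega
      rw [h7] at hdir
      linarith
  by_cases hex : ∃ m, m ≤ M ∧ t.drop (e m) ∉ Nz κ C (r - p0 - 2 * m)
  · obtain ⟨h1, h2⟩ := Nat.find_spec hex
    obtain ⟨m, hm⟩ : ∃ m, m = Nat.find hex := ⟨_, rfl⟩
    rw [← hm] at h1 h2
    refine Or.inl ⟨m, h1, hT, e m, by rw [← ht]; exact (he m).le, ⟨by rw [← ht]; exact hDE m, ?_⟩, by rw [← ht]; exact h2⟩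
    rcases Nat.eq_zero_or_pos m with h0 | h0
    · left
      rw [if_pos h0]
    · right
      rw [if_neg (by omega), ← ht]
      obtain ⟨k, rfl⟩ : ∃ k, m = k + 1 := ⟨m - 1, by omega⟩
      have h3 : t.drop (e k) ∈ Nz κ C (r - p0 - 2 * k) := by
        by_contra hc
        exact Nat.find_min hex (m := k) (by omega) ⟨by omega, hc⟩
      rw [show r - p0 - 2 * k = r - p0 - 2 * (k + 1) + 2 by omega] at h3
      refine ent_lz (hmono k (k + 1) (by omega)) (he (k + 1)).le h3 ?_
      have h4 := (he k).lower (hbig k)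
      have h5 := (he (k + 1)).inn
      have h6 : 2 ^ (p0 + (k + 1) - 6) * 2 ^ (r - p0 - 2 * (k + 1) + 2) = 2 ^ (r - 2 - (k + 1) - 2) := by
        rw [← pow_add]
        congr 1
        omega
      rw [h6]
      have h7 : (2 : ℤ) ^ (r - 2 - k) = 8 * 2 ^ (r - 2 - (k + 1) - 2) := by
        have : r - 2 - k = (r - 2 - (k + 1) - 2) + 3 := by omega
        rw [this, pow_add]
        ring
      have h8 : (2 : ℤ) ^ (r - 2 - (k + 1)) = 4 * 2 ^ (r - 2 - (k + 1) - 2) := by
        have : r - 2 - (k + 1) = (r - 2 - (k + 1) - 2) + 2 := by omega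
        conv_lhs => rw [this, pow_add]
        ring
      have h9 : (2 : ℤ) ≤ 2 ^ (r - 2 - (k + 1) - 2) := by
        calc (2 : ℤ) = 2 ^ 1 := by norm_num
          _ ≤ _ := pow_le_pow_right₀ (by norm_num) (by omega)
      push_cast
      rw [h7] at h4
      rw [h8] at h5
      linarith
  · right
    push Not at hex
    have h3 := hex M le_rfl
    have h4 := (he M).lower (hbig M)
    have h5 : t.take t.length ∈ Lz κ C (r - p0 - 2 * M) (2 ^ (p0 + M - 4)) := by
      refine ent_lz (he M).le le_rfl h3 ?_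
      rw [dz_len]
      have h6 : 2 ^ (p0 + M - 4) * 2 ^ (r - p0 - 2 * M) = 2 ^ (r - 2 - M - 2) := by
        rw [← pow_add]
        congr 1
        omega
      rw [h6]
      have h8 : (2 : ℤ) ^ (r - 2 - M) = 4 * 2 ^ (r - 2 - M - 2) := by
        have : r - 2 - M = (r - 2 - M - 2) + 2 := by omega
        conv_lhs => rw [this, pow_add]
        ring
      have h9 : (2 : ℤ) ≤ 2 ^ (r - 2 - M - 2) := by
        calc (2 : ℤ) = 2 ^ 1 := by norm_num
          _ ≤ _ := pow_le_pow_right₀ (by norm_num) (by omega)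
      push_cast
      rw [h8] at h4
      linarith
    rwa [List.take_length] at h5

end RMP

end HexObs
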