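import Pool.Agent.ARM.FastN
import Pool.Agent.ARM.YBadW
import Pool.Agent.NPR.TwoEnd
import Pool.Agent.TIP.GeoZ

/-!
# RMP, row P11 (helper14), part 2: one arm with a fast displacement and a long factor without rich window

* `Fs` : the starts; `fs_mass` : their mass in a box;
* **`fs_tip`** : words of a box which start in `Fs` and end with a good tip.
-/

set_option autoImplicit false

namespace HexObs

namespace RMP

open Finset TS SDN NTW NTA HexObs.SIM TIP TIW ARM NPR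

open scoped ENNReal

/-- a displacement of 2 ^ l in x letters; and (n ≥ 1) a factor of extent n 2 ^ b' without rich window of the scale b' -/
def Fs (κ : ℝ) (C l : ℕ) (x : ℝ) (b' n : ℕ) : Set (List Bool) := {V | V ∈ EN.DE l x ∧ (n = 0 ∨ V ∈ Lz κ C b' n)}

lemma DE_app {l : ℕ} {x : ℝ} {V : List Bool} (R : List Bool) (h : V ∈ EN.DE l x) : V ++ R ∈ EN.DE l x := by
  obtain ⟨dir, i, j, h1, h2, h3, h4⟩ := h
  refine ⟨dir, i, j, h1, by rw [List.length_append]; omega, h3, ?_⟩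
  rwa [vx_append (by omega), vx_append (by omega)]

lemma Lz_app {κ : ℝ} {C b n : ℕ} {V : List Bool} (R : List Bool) (h : V ∈ Lz κ C b n) : V ++ R ∈ Lz κ C b n := by
  obtain ⟨X, Q, Y, h1, h2, h3⟩ := h
  exact ⟨X, Q, Y ++ R, by rw [h1]; simp only [List.append_assoc], h2, h3⟩

/-- **the mass of the starts** -/
theorem fs_mass {κ : ℝ} {C : ℕ} (hR : RegZ κ C) : ∃ (B c : ℝ) (b0 J0 n0 : ℕ), 1 ≤ B ∧ 0 < c ∧ ∀ Q : ℕ, ∃ A : ℝ, 1 ≤ A ∧
    ∀ (K l b' n : ℕ) (y : ℝ), l ≤ K → 0 < y → y ≤ 1 → b0 ≤ b' → J0 + b' ≤ K → (n = 0 ∨ n0 ≤ n) →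
    gf {w | w ∈ WL K ∧ ∃ V ∈ Fs κ C l (y * PW.mZ (2 ^ l)) b' n, ∃ R, w = V ++ R} ≤
      ENNReal.ofReal (A * y ^ Q * B ^ ((K - l) + (K - b')) * (2 : ℝ) ^ (-(c * n))) * (ENNReal.ofReal (Ub K) * Xb K ^ 2) := by
  obtain ⟨C1, c, b0, J0, n0, hC1, hc, hreg⟩ := hR
  obtain ⟨C2, hC2, hfast⟩ := fastW
  refine ⟨max C1 C2, c / 2, b0, J0, n0, le_max_of_le_left hC1, by positivity, fun Q => ?_⟩
  obtain ⟨A, hA, hfast⟩ := hfast (2 * Q)
  refine ⟨A, hA, fun K l b' n y hl hy0 hy1 hb hJ hn => ?_⟩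
  have hB1 : 1 ≤ max C1 C2 := le_max_of_le_left hC1
  have hA0 : 0 < A := by linarith
  obtain ⟨S, hS⟩ : ∃ S : Set (List Bool), S = {w | w ∈ WL K ∧ ∃ V ∈ Fs κ C l (y * PW.mZ (2 ^ l)) b' n, ∃ R, w = V ++ R} :=
    ⟨_, rfl⟩
  rw [← hS]
  have h1 : gf S ≤ ENNReal.ofReal (A * y ^ (2 * Q) * C2 ^ (K - l)) * (ENNReal.ofReal (Ub K) * Xb K ^ 2) := by
    refine (gf_mono ?_).trans (hfast K l y hl hy0 hy1)
    rw [hS]
    rintro w ⟨hw, V, hV, R, rfl⟩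
    exact ⟨hw, DE_app R hV.1⟩
  by_cases h0 : n = 0
  · subst h0
    refine h1.trans (mul_le_mul_left (ENNReal.ofReal_le_ofReal ?_) _)
    have e1 : y ^ (2 * Q) ≤ y ^ Q := pow_le_pow_of_le_one hy0.le hy1 (by omega)
    have e2 : C2 ^ (K - l) ≤ max C1 C2 ^ ((K - l) + (K - b')) := by
      calc C2 ^ (K - l) ≤ max C1 C2 ^ (K - l) := pow_le_pow_left₀ (by linarith) (le_max_right _ _) _
        _ ≤ _ := pow_le_pow_right₀ hB1 (by omega)
    have e3 : (2 : ℝ) ^ (-(c / 2 * ((0 : ℕ) : ℝ))) = 1 := by simp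
    rw [e3, mul_one]
    gcongr
  · have h2 : gf S ≤ ENNReal.ofReal (C1 ^ (K - b') * (2 : ℝ) ^ (-(c * n))) * (ENNReal.ofReal (Ub K) * Xb K ^ 2) := by
      have h3 := hreg b' (K - b') n hb (by omega) (hn.resolve_left h0)
      rw [show b' + (K - b') = K by omega] at h3
      refine (gf_mono ?_).trans (h3.trans (le_of_eq ?_))
      · rw [hS]
        rintro w ⟨hw, V, ⟨-, h4⟩, R, rfl⟩
        exact ⟨hw, Lz_app R (h4.resolve_left h0)⟩
      · rw [ENNReal.ofReal_mul (by positivity)]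
        ring
    refine (sqrt_mul (by positivity) (by positivity) h1 h2).trans (mul_le_mul_left (ENNReal.ofReal_le_ofReal ?_) _)
    rw [Real.sqrt_le_left (by positivity)]
    have e4 : ((2 : ℝ) ^ (-(c / 2 * (n : ℝ)))) ^ 2 = (2 : ℝ) ^ (-(c * n)) := by
      rw [← Real.rpow_natCast, ← Real.rpow_mul (by norm_num)]
      congr 1
      push_cast
      ring
    have e5 : (y ^ Q) ^ 2 = y ^ (2 * Q) := by rw [← pow_mul, mul_comm]
    have e6 : A * C2 ^ (K - l) * C1 ^ (K - b') ≤ A ^ 2 * (max C1 C2 ^ ((K - l) + (K - b'))) ^ 2 := by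
      have f1 : C2 ^ (K - l) * C1 ^ (K - b') ≤ max C1 C2 ^ ((K - l) + (K - b')) := by
        rw [pow_add]
        exact mul_le_mul (pow_le_pow_left₀ (by linarith) (le_max_right _ _) _)
          (pow_le_pow_left₀ (by linarith) (le_max_left _ _) _) (by positivity) (by positivity)
      have f2 : 1 ≤ max C1 C2 ^ ((K - l) + (K - b')) := one_le_pow₀ hB1
      have f3 : A ≤ A ^ 2 := by nlinarith
      have f4 : max C1 C2 ^ ((K - l) + (K - b')) ≤ (max C1 C2 ^ ((K - l) + (K - b'))) ^ 2 := by nlinarith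
      rw [mul_assoc]
      exact mul_le_mul f3 (f1.trans f4) (by positivity) (by positivity)
    rw [mul_pow, mul_pow, mul_pow, e4, e5]
    calc A * y ^ (2 * Q) * C2 ^ (K - l) * (C1 ^ (K - b') * (2 : ℝ) ^ (-(c * n)))
        = (A * C2 ^ (K - l) * C1 ^ (K - b')) * (y ^ (2 * Q) * (2 : ℝ) ^ (-(c * n))) := by ring
      _ ≤ (A ^ 2 * (max C1 C2 ^ ((K - l) + (K - b'))) ^ 2) * (y ^ (2 * Q) * (2 : ℝ) ^ (-(c * n))) :=
          mul_le_mul_of_nonneg_right e6 (by positivity)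
      _ = _ := by ring

/-- **words of a box which start in Fs and end with a good tip** -/
theorem fs_tip {κ η : ℝ} {C : ℕ} (hη : 0 < η) (hR : RegZ κ C) : ∃ (B c : ℝ) (b0 J0 n0 : ℕ), 1 ≤ B ∧ 0 < c ∧ ∀ Q : ℕ, ∃ A : ℝ,
    1 ≤ A ∧ ∀ (K l b b' n : ℕ) (y : ℝ), l ≤ K → 0 < y → y ≤ 1 → b0 ≤ b' → J0 + b' ≤ K → b ≤ b' → (n = 0 ∨ n0 ≤ n) →
    gf (SV (Fs κ C l (y * PW.mZ (2 ^ l)) b' n) K b ∩ GT b η) ≤
      ENNReal.ofReal (A * y ^ Q * B ^ ((K - l) + (K - b)) * (2 : ℝ) ^ (-(c * n)) * Ub b) * Xb b := by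
  obtain ⟨B, c, b0, J0, n0, hB, hc, h⟩ := fs_mass hR
  obtain ⟨C1, hC1, hend⟩ := end_SV hη
  obtain ⟨D, hD, hup⟩ := EnsW.ref_up
  refine ⟨B ^ 2 * D, c, b0, J0, n0, one_le_mul_of_one_le_of_one_le (one_le_pow₀ hB) hD, hc, fun Q => ?_⟩
  obtain ⟨A, hA, h⟩ := h Q
  have hA0 : 0 < A := by linarith
  have hB0 : 0 < B := by linarith
  have hD0 : 0 < D := by linarith
  refine ⟨max 1 (C1 * A * B ^ 6 * D ^ 3), le_max_left _ _, fun K l b b' n y hl hy0 hy1 hb' hJ hb hn => ?_⟩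
  have hU := Ub_pos b
  have h1 := h (K + 3) l b' n y (by omega) hy0 hy1 hb' (by omega) hn
  have h2 := hend (Fs κ C l (y * PW.mZ (2 ^ l)) b' n) K b _ (by omega) h1
  have h3 := hup b (K + 3 - b)
  rw [show b + (K + 3 - b) = K + 3 by omega] at h3
  obtain ⟨S, hS⟩ : ∃ S : Set (List Bool), S = SV (Fs κ C l (y * PW.mZ (2 ^ l)) b' n) K b ∩ GT b η := ⟨_, rfl⟩
  rw [← hS] at h2 ⊢
  obtain ⟨z, hz⟩ : ∃ z : ℝ, z = A * y ^ Q * B ^ ((K + 3 - l) + (K + 3 - b')) * (2 : ℝ) ^ (-(c * n)) := ⟨_, rfl⟩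
  have hz0 : 0 ≤ z := by rw [hz]; positivity
  rw [← hz] at h2
  have h4 : gf S * Xb b ≤ ENNReal.ofReal (C1 * z * D ^ (K + 3 - b) * Ub b) * Xb b * Xb b := by
    refine h2.trans ?_
    calc ENNReal.ofReal C1 * (ENNReal.ofReal z * (ENNReal.ofReal (Ub (K + 3)) * Xb (K + 3) ^ 2))
        ≤ ENNReal.ofReal C1 * (ENNReal.ofReal z * (ENNReal.ofReal (D ^ (K + 3 - b)) * (ENNReal.ofReal (Ub b) * Xb b ^ 2))) :=
          mul_le_mul_right (mul_le_mul_right h3 _) _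
      _ = _ := by
          rw [ENNReal.ofReal_mul (p := C1 * z * D ^ (K + 3 - b)) (by positivity),
            ENNReal.ofReal_mul (p := C1 * z) (by positivity), ENNReal.ofReal_mul hC1.le]
          ring
  have h5 := (ENNReal.mul_le_mul_iff_left (Xb_ne_zero b) (Xb_ne_top b)).1 h4
  refine h5.trans (mul_le_mul_left (ENNReal.ofReal_le_ofReal ?_) _)
  have e1 : B ^ ((K + 3 - l) + (K + 3 - b')) ≤ B ^ 6 * (B ^ 2) ^ ((K - l) + (K - b)) := by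
    rw [← pow_mul, ← pow_add]
    exact pow_le_pow_right₀ hB (by omega)
  have e2 : D ^ (K + 3 - b) ≤ D ^ 3 * D ^ ((K - l) + (K - b)) := by
    rw [← pow_add]
    exact pow_le_pow_right₀ hD (by omega)
  rw [hz, mul_pow]
  calc C1 * (A * y ^ Q * B ^ ((K + 3 - l) + (K + 3 - b')) * (2 : ℝ) ^ (-(c * n))) * D ^ (K + 3 - b) * Ub b
      = C1 * A * (B ^ ((K + 3 - l) + (K + 3 - b')) * D ^ (K + 3 - b)) * (y ^ Q * (2 : ℝ) ^ (-(c * n)) * Ub b) := by ring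
    _ ≤ C1 * A * ((B ^ 6 * (B ^ 2) ^ ((K - l) + (K - b))) * (D ^ 3 * D ^ ((K - l) + (K - b)))) *
        (y ^ Q * (2 : ℝ) ^ (-(c * n)) * Ub b) := by gcongr
    _ = (C1 * A * B ^ 6 * D ^ 3) * (y ^ Q * ((B ^ 2) ^ ((K - l) + (K - b)) * D ^ ((K - l) + (K - b))) *
        (2 : ℝ) ^ (-(c * n)) * Ub b) := by ring
    _ ≤ max 1 (C1 * A * B ^ 6 * D ^ 3) * (y ^ Q * ((B ^ 2) ^ ((K - l) + (K - b)) * D ^ ((K - l) + (K - b))) *
        (2 : ℝ) ^ (-(c * n)) * Ub b) := mul_le_mul_of_nonneg_right (le_max_right _ _) (by positivity)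
    _ = _ := by ring

end RMP

end HexObs
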