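import Pool.Agent.RMP.FaDC
import Pool.Agent.RMP.FaMass
import Pool.Agent.TIP.NfC
import Pool.Agent.ARM.Conf
import Pool.Agent.ARM.NWin

/-!
# RMP, row P11 (helper14), part 3: one scale

* `TipOut` : the tip lemma at the outer end (row TipPo of helper73);
* **`fa_step`** : pairs whose first word starts in `Fs` and has a rich window of the scale b behind this start.
-/

set_option autoImplicit false

namespace HexObs

namespace RMP

open Finset TS SDN NTW NTA HexObs.SIM TIP TIP.Nf TIW ARM NPR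

open scoped ENNReal

/-- the tip lemma at the outer end of the first word (row TipPo) -/
def TipOut : Prop := ∀ η : ℝ, 0 < η → ∃ C : ℝ, 0 < C ∧ ∀ R j b : ℕ, 2 ^ b ≤ R + 2 ^ j →
  gp {T | T ∈ P3 R j ∧ rev T.1 ∈ GT b η} * Xb b ≤ ENNReal.ofReal (C * pr3 R j)

/-- pairs whose first word starts in Fs and has a rich window of the scale b behind this start -/
def FaS (κ : ℝ) (C R j b l : ℕ) (x : ℝ) (b' n : ℕ) : Set PT :=
  {T | T ∈ P3 R j ∧ ∃ e, e ≤ T.1.length ∧ T.1.take e ∈ Fs κ C l x b' n ∧ T.1.drop e ∉ Nz κ C b}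

/-- many cuts of a rich bridge -/
lemma Ub_large {κ : ℝ} (hκ : 0 < κ) : ∃ bU : ℕ, ∀ b, bU ≤ b → 8 ≤ κ * Ub b := by
  obtain ⟨B, hB⟩ := Ub_big
  obtain ⟨n, hn⟩ := exists_nat_ge (8 / κ)
  refine ⟨B * n, fun b hb => ?_⟩
  have h1 := hB b n hb
  have h2 : (n : ℝ) ≤ 8 ^ n := by
    exact_mod_cast (Nat.lt_pow_self (by norm_num : 1 < 8)).le
  have h3 : 8 / κ ≤ Ub b := hn.trans (h2.trans h1)
  rw [div_le_iff₀ hκ] at h3
  linarith

lemma fa_take {t : List Bool} {i a : ℕ} (ha : a ≤ i) : vx oo up (t.take i) a = vx oo up t a := by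
  rcases le_total i t.length with h | h
  · conv_rhs => rw [← List.take_append_drop i t]
    rw [vx_append (by rw [List.length_take]; omega)]
  · rw [List.take_of_length_le h]

open Classical in
/-- **one scale** -/
theorem fa_step {κ : ℝ} {C : ℕ} (hκ : 0 < κ) (hR : RegZ κ C) (hT : TipOut) : ∃ (B c : ℝ) (b0 J0 n0 : ℕ), 1 ≤ B ∧ 0 < c ∧
    ∀ Q : ℕ, ∃ A : ℝ, 1 ≤ A ∧ ∀ (K l b b' n R j : ℕ) (y : ℝ), l ≤ K → 0 < y → y ≤ 1 → b0 ≤ b → b ≤ b' → J0 + b' ≤ K →
    (n = 0 ∨ n0 ≤ n) → 2 ^ b ≤ R + 2 ^ j → 2 * (R + 2 ^ j) ≤ 2 ^ K →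
    gp (FaS κ C R j b l (y * PW.mZ (2 ^ l)) b' n) ≤
      ENNReal.ofReal (A * y ^ Q * B ^ ((K - l) + (K - b)) * (2 : ℝ) ^ (-(c * n)) * pr3 R j) := by
  obtain ⟨η, hηd⟩ : ∃ η : ℝ, η = κ / 8 := ⟨_, rfl⟩
  have hη : 0 < η := by rw [hηd]; positivity
  obtain ⟨B, c, b1, J0, n0, hB, hc, hfs⟩ := fs_tip hη hR
  obtain ⟨C1, hC1, hT⟩ := hT η hη
  obtain ⟨bU, hbU⟩ := Ub_large hκ
  refine ⟨B, c, b1 + bU + 1, J0, n0, hB, hc, fun Q => ?_⟩
  obtain ⟨A, hA, hfs⟩ := hfs Q
  have hA0 : 0 < A := by linarith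
  have hB0 : 0 < B := by linarith
  refine ⟨max 1 (8 / κ * A * C1), le_max_left _ _, fun K l b b' n R j y hl hy0 hy1 hb hbb hJ hn hbR hRK => ?_⟩
  have hb0 : b ≠ 0 := by omega
  have h8 := hbU b (by omega)
  have hU := Ub_pos b
  have hpr := pr3_pos R j
  obtain ⟨h, hh⟩ : ∃ h : ℕ, h = ⌈κ * Ub b / 8⌉₊ := ⟨_, rfl⟩
  have hh1 : 1 ≤ h := by
    rw [hh, Nat.one_le_iff_ne_zero, Nat.ne_zero_iff_zero_lt, Nat.ceil_pos]
    positivity
  have hq : κ * Ub b / 8 ≤ (h : ℝ) := by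
    rw [hh]
    exact Nat.le_ceil _
  have hh2 : (h : ℝ) < κ * Ub b / 8 + 1 := by
    rw [hh]
    exact Nat.ceil_lt_add_one (by positivity)
  have hηh : η * Ub b ≤ (h : ℝ) := by
    rw [hηd]
    calc κ / 8 * Ub b = κ * Ub b / 8 := by ring
      _ ≤ h := hq
  obtain ⟨x, hx⟩ : ∃ x : ℝ, x = y * PW.mZ (2 ^ l) := ⟨_, rfl⟩
  rw [← hx]
  have h1 : (h : ℝ≥0∞) * gp (FaS κ C R j b l x b' n) ≤ gf (SV (Fs κ C l x b' n) K b ∩ GT b η) *
      gp {T | T ∈ P3 R j ∧ rev T.1 ∈ GT b η} := by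
    refine fa_dc fun T hTS => ?_
    obtain ⟨t, g, L2⟩ := T
    obtain ⟨hP, e, he, hV, hW⟩ := hTS
    have he' : e ≤ t.length := he
    have hV' : t.take e ∈ Fs κ C l x b' n := hV
    obtain ⟨W, hWd⟩ : ∃ W, W = t.drop e := ⟨_, rfl⟩
    have hW' : W ∉ Nz κ C b := by rw [hWd]; exact hW
    have hWs : W ∈ SA := by rw [hWd]; exact SA_drop hP.1 e
    have hWl : W.length = t.length - e := by rw [hWd, List.length_drop]
    obtain ⟨X, Z1, Z2, Z3, Y0, hd⟩ := dt_of neW hWs hW'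
    have h4 : 4 * h ≤ nc Z2 := by
      have h5 : (4 : ℝ) * h ≤ nc Z2 := by
        have := hd.n2
        linarith
      exact_mod_cast h5
    have hcr := card_rank neW (Z := Z2) (lo := h) (hi := 2 * h) hh1 (by omega)
    have h2' : 2 * h - h = h := by omega
    rw [h2'] at hcr
    refine ⟨((cz Z2).filter fun c => h ≤ nc (Z2.take c) ∧ nc (Z2.take c) < 2 * h).image fun c => e + ((X ++ Z1).length + c),
      ?_, fun p hp => ?_⟩
    · rw [card_image_of_injective _ (fun a b h => by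
        have h' : e + ((X ++ Z1).length + a) = e + ((X ++ Z1).length + b) := h
        omega), hcr]
    · obtain ⟨i, hi, rfl⟩ := mem_image.1 hp
      rw [mem_filter] at hi
      obtain ⟨hi1, hi2, hi3⟩ := hi
      obtain ⟨a1, a2, a3⟩ := mem_cz.1 hi1
      obtain ⟨f1, f2, f3⟩ := hd.cut a1
      obtain ⟨g1, g2⟩ := hd.gt neW hηh h4 hi1 hi2 (by omega)
      have e1 : t.take (e + ((X ++ Z1).length + i)) = t.take e ++ (X ++ (Z1 ++ Z2.take i)) := by
        rw [List.take_add, ← hWd, f2]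
      have e2 : t.drop (e + ((X ++ Z1).length + i)) = W.drop ((X ++ Z1).length + i) := by
        rw [hWd, List.drop_drop]
      have hpl : e + ((X ++ Z1).length + i) ≤ t.length := by omega
      refine ⟨hpl, ?_, ?_⟩
      · show t.take (e + ((X ++ Z1).length + i)) ∈ _
        have hGE : Z1 ++ Z2.take i ∈ GE η C b := by
          show if b = 0 then Z1 ++ Z2.take i = [] else _
          rw [if_neg hb0]
          have hhg : hgt (Z2.take i) + hgt (Z2.drop i) = hgt Z2 := by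
            rw [← hgt_app a2 a3, List.take_append_drop]
          have h22 := hd.h2
          refine ⟨Z1, Z2.take i, rfl, hd.b1, a2, by omega, hd.h1, hηh.trans (by exact_mod_cast hi2), fun k hk => ?_⟩
          have e3 : Z1 ++ (Z2 ++ Z3) = (Z1 ++ Z2.take i) ++ (Z2.drop i ++ Z3) := by
            conv_lhs => rw [← List.take_append_drop i Z2]
            simp only [List.append_assoc]
          have h3 := hd.inn k (by rw [e3, List.length_append]; omega)
          rw [e3, vx_append (by omega)] at h3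
          exact h3
        rw [e1]
        refine end_mem hb0 hV' hGE ?_
        rw [← e1]
        refine conf_WL (SA_take hP.1 _) fun s hs => ?_
        rw [List.length_take, min_eq_left hpl] at hs
        have k1 : dz (t.take (e + ((X ++ Z1).length + i))) s = TIW.hn (vx oo up t s - vx oo up t (e + ((X ++ Z1).length + i))) := by
          unfold dz TIW.en
          rw [List.length_take, min_eq_left hpl, fa_take hs, fa_take le_rfl]
        rw [k1]
        have k2 := hn_dz t s (e + ((X ++ Z1).length + i))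
        have k3 := hP.2.2.2.2.2.1 s (hs.trans hpl)
        have k4 := hP.2.2.2.2.2.1 (e + ((X ++ Z1).length + i)) hpl
        have k5 : (2 : ℤ) * (R + 2 ^ j) ≤ 2 ^ K := by exact_mod_cast hRK
        have k3' : dz t s ≤ R + 2 ^ j := k3
        have k4' : dz t (e + ((X ++ Z1).length + i)) ≤ R + 2 ^ j := k4
        linarith
      · refine ⟨P3_drop ?_, ?_⟩
        · rw [List.take_append_drop]
          exact hP
        · show rev (t.drop (e + ((X ++ Z1).length + i))) ∈ GT b η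
          rw [e2]
          exact g2
  have h2 := hfs K l b b' n y hl hy0 hy1 (by omega) hJ hbb hn
  rw [← hx] at h2
  have h3 := hT R j b hbR
  obtain ⟨z, hz⟩ : ∃ z : ℝ, z = A * y ^ Q * B ^ ((K - l) + (K - b)) * (2 : ℝ) ^ (-(c * n)) := ⟨_, rfl⟩
  have hz0 : 0 ≤ z := by rw [hz]; positivity
  rw [← hz] at h2
  obtain ⟨μ, hμ⟩ : ∃ μ, μ = gp (FaS κ C R j b l x b' n) := ⟨_, rfl⟩
  rw [← hμ] at h1 ⊢
  have h4 : μ * (ENNReal.ofReal (κ * Ub b / 8) * Xb b) ≤ ENNReal.ofReal (C1 * pr3 R j) * (ENNReal.ofReal (z * Ub b) * Xb b) := by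
    calc μ * (ENNReal.ofReal (κ * Ub b / 8) * Xb b) ≤ μ * ((h : ℝ≥0∞) * Xb b) := by
          refine mul_le_mul_right (mul_le_mul_left ?_ _) _
          rw [← ENNReal.ofReal_natCast]
          exact ENNReal.ofReal_le_ofReal hq
      _ = ((h : ℝ≥0∞) * μ) * Xb b := by ring
      _ ≤ (gf (SV (Fs κ C l x b' n) K b ∩ GT b η) * gp {T | T ∈ P3 R j ∧ rev T.1 ∈ GT b η}) * Xb b := mul_le_mul_left h1 _
      _ = gf (SV (Fs κ C l x b' n) K b ∩ GT b η) * (gp {T | T ∈ P3 R j ∧ rev T.1 ∈ GT b η} * Xb b) := by ring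
      _ ≤ (ENNReal.ofReal (z * Ub b) * Xb b) * ENNReal.ofReal (C1 * pr3 R j) := mul_le_mul' h2 h3
      _ = _ := by ring
  refine (cancelF (by positivity) (by positivity) h4).trans (ENNReal.ofReal_le_ofReal ?_)
  have e : C1 * pr3 R j * (z * Ub b) / (κ * Ub b / 8) = 8 / κ * C1 * (z * pr3 R j) := by
    field_simp
  rw [e, hz]
  calc 8 / κ * C1 * (A * y ^ Q * B ^ ((K - l) + (K - b)) * (2 : ℝ) ^ (-(c * n)) * pr3 R j)
      = (8 / κ * A * C1) * (y ^ Q * B ^ ((K - l) + (K - b)) * (2 : ℝ) ^ (-(c * n)) * pr3 R j) := by ring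
    _ ≤ max 1 (8 / κ * A * C1) * (y ^ Q * B ^ ((K - l) + (K - b)) * (2 : ℝ) ^ (-(c * n)) * pr3 R j) :=
        mul_le_mul_of_nonneg_right (le_max_right _ _) (by positivity)
    _ = _ := by ring

end RMP

end HexObs
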