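import Pool.Agent.SIM.FinAllS
import Pool.Agent.TSW.BC1Pub

/-!
# RM (helper44): no near double points at a macroscopic distance in time

* `sep_law` : two points of the curve at a distance at least `d` in time are not close, from the compactness of the laws and
  the injectivity of the limits;
* **`farN`** : the same for the words (`Eu n`).
-/

set_option autoImplicit false

open MeasureTheory Filter Topology

namespace HexObs

namespace RMP

namespace FarN

open Pool.Agent.NTS.Res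

open NTSF (PM lawTo_iff)

open scoped ENNReal Classical

/-- the curves with two points at a distance at least `d` in time and at most `r` in space -/
def NearP (d r : ℝ) : Set C(unitInterval, ℂ) :=
  {γ | ∃ p q : unitInterval, d ≤ (q : ℝ) - p ∧ dist (γ p) (γ q) ≤ r}

lemma nearP_mono {d r r' : ℝ} (h : r ≤ r') : NearP d r ⊆ NearP d r' := by
  rintro γ ⟨p, q, h1, h2⟩
  exact ⟨p, q, h1, h2.trans h⟩

lemma nearP_closed (d r : ℝ) : IsClosed (NearP d r) := by
  have h1 : IsClosed {x : C(unitInterval, ℂ) × (unitInterval × unitInterval) |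
      d ≤ (x.2.2 : ℝ) - x.2.1 ∧ dist (x.1 x.2.1) (x.1 x.2.2) ≤ r} := by
    have k1 : Continuous fun x : C(unitInterval, ℂ) × (unitInterval × unitInterval) => (x.2.2 : ℝ) - x.2.1 := by fun_prop
    have k2 : Continuous fun x : C(unitInterval, ℂ) × (unitInterval × unitInterval) => dist (x.1 x.2.1) (x.1 x.2.2) := by
      fun_prop
    exact (isClosed_le continuous_const k1).inter (isClosed_le k2 continuous_const)
  have h2 := isClosedMap_fst_of_compactSpace (X := C(unitInterval, ℂ)) (Y := unitInterval × unitInterval) _ h1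
  refine (congrArg IsClosed ?_).mp h2
  ext γ
  constructor
  · rintro ⟨⟨γ', p, q⟩, ⟨h3, h4⟩, rfl⟩
    exact ⟨p, q, h3, h4⟩
  · rintro ⟨p, q, h3, h4⟩
    exact ⟨(γ, (p, q)), ⟨h3, h4⟩, rfl⟩

lemma nearP_inter {d : ℝ} {γ : C(unitInterval, ℂ)} (h : ∀ m : ℕ, γ ∈ NearP d (1 / ((m : ℝ) + 1))) :
    ∃ p q : unitInterval, d ≤ (q : ℝ) - p ∧ γ p = γ q := by
  obtain ⟨K, hK⟩ : ∃ K : Set (unitInterval × unitInterval), K = {x | d ≤ (x.2 : ℝ) - x.1} := ⟨_, rfl⟩
  have hKc : IsCompact K := by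
    rw [hK]
    exact (isClosed_le continuous_const (by fun_prop)).isCompact
  have hKn : K.Nonempty := by
    obtain ⟨p, q, h1, -⟩ := h 0
    exact ⟨(p, q), by rw [hK]; exact h1⟩
  obtain ⟨x, hx, hmin⟩ := hKc.exists_isMinOn hKn (f := fun x : unitInterval × unitInterval => dist (γ x.1) (γ x.2))
    (Continuous.continuousOn (by fun_prop))
  refine ⟨x.1, x.2, by rw [hK] at hx; exact hx, ?_⟩
  rw [← dist_le_zero]
  refine le_of_forall_pos_le_add fun e he => ?_
  obtain ⟨m, hm⟩ := exists_nat_one_div_lt he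
  obtain ⟨p, q, h1, h2⟩ := h m
  have h3 : dist (γ x.1) (γ x.2) ≤ dist (γ p) (γ q) := hmin (show (p, q) ∈ K by rw [hK]; exact h1)
  linarith

/-- **two points of the curve at a distance at least `d` in time are not close** -/
theorem sep_law {d ε : ℝ} (hd : 0 < d) (hε : 0 < ε) : ∃ r : ℝ, 0 < r ∧ ∃ n0 : ℕ, ∀ n : ℕ, n0 ≤ n →
    law n (NearP d r) ≤ ENNReal.ofReal ε := by
  by_contra hcon
  push Not at hcon
  obtain ⟨-, h2, h3⟩ := SIM.simple_final
  obtain ⟨φ, hφ, hl⟩ := extraction_forall_of_frequently (P := fun m n => ENNReal.ofReal ε <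
    law n (NearP d (1 / ((m : ℝ) + 1)))) (fun m => by
      rw [frequently_atTop]
      intro a
      obtain ⟨n, hn, h⟩ := hcon (1 / ((m : ℝ) + 1)) (by positivity) a
      exact ⟨n, hn, h⟩)
  obtain ⟨ψ, hψ, ν, hν, hlim⟩ := h2 φ hφ
  have hinj := h3 _ ν (hφ.tendsto_atTop.comp hψ.tendsto_atTop) hν hlim
  have hlim' := (lawTo_iff (⟨ν, hν⟩ : ProbabilityMeasure C(unitInterval, ℂ))).1 hlim
  -- each closed set has mass at least ε
  have hm : ∀ m : ℕ, ENNReal.ofReal ε ≤ ν (NearP d (1 / ((m : ℝ) + 1))) := by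
    intro m
    have h4 := ProbabilityMeasure.limsup_measure_closed_le_of_tendsto hlim' (nearP_closed d (1 / ((m : ℝ) + 1)))
    refine le_trans ?_ h4
    refine le_limsup_of_frequently_le ?_ ?_
    · refine Eventually.frequently ?_
      filter_upwards [eventually_ge_atTop m] with k hk
      refine (hl (ψ k)).le.trans (measure_mono (nearP_mono ?_))
      have h5 : m ≤ ψ k := hk.trans (hψ.id_le k)
      have h6 : (m : ℝ) ≤ ψ k := by exact_mod_cast h5
      exact one_div_le_one_div_of_le (by positivity) (by linarith)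
    · exact isBoundedUnder_of ⟨⊤, fun _ => le_top⟩
  have hz : ν (⋂ m : ℕ, NearP d (1 / ((m : ℝ) + 1))) = 0 := by
    refine measure_mono_null ?_ (ae_iff.1 hinj)
    intro γ hγ hi
    obtain ⟨p, q, h4, h5⟩ := nearP_inter (Set.mem_iInter.1 hγ)
    have h6 := hi h5
    rw [h6, sub_self] at h4
    linarith
  have hc := tendsto_measure_iInter_atTop (μ := ν) (s := fun m : ℕ => NearP d (1 / ((m : ℝ) + 1)))
    (fun m => (nearP_closed _ _).measurableSet.nullMeasurableSet) (fun m m' hmm => nearP_mono (by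
      have : (m : ℝ) ≤ m' := by exact_mod_cast hmm
      exact one_div_le_one_div_of_le (by positivity) (by linarith))) ⟨0, measure_ne_top ν _⟩
  rw [hz] at hc
  have h7 := ge_of_tendsto' hc hm
  have h8 : 0 < ENNReal.ofReal ε := ENNReal.ofReal_pos.2 hε
  exact absurd h7 (not_le.2 h8)

/-! ### the words -/

open HexObs.MCP (Eu)

open TS SDN

open Pool.Agent.IW.Res (mean)

open NTF (sw JJ)

/-- two vertices at a distance at least `d n` in time and at most `r n ^ (3 / 4)` in space -/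
def NearW (d r : ℝ) (n : ℕ) (t : List Bool) : Prop :=
  ∃ i k : ℕ, k ≤ n ∧ (i : ℝ) + d * n ≤ k ∧ (TIW.hn (vx oo up t i - vx oo up t k) : ℝ) ≤ r * (n : ℝ) ^ (3 / 4 : ℝ)

lemma norm_JJ_le (v : Pt) : ‖JJ v‖ ≤ TIW.hn v := by
  have h1 := NTF.JJ_norm v
  have h2 : ((nrm v : ℤ) : ℝ) ≤ (TIW.hn v : ℝ) ^ 2 := by exact_mod_cast TIW.nrm_le_hn v
  have h3 : (0 : ℝ) ≤ TIW.hn v := by exact_mod_cast TIW.hn_nonneg v
  exact (sq_le_sq₀ (norm_nonneg _) h3).1 (by rw [h1]; exact h2)

lemma law_real (n : ℕ) {S : Set C(unitInterval, ℂ)} (hS : MeasurableSet S) :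
    (law n).real S = mean n (fun s => if Pool.Agent.NTS.Res.curve s ∈ S then 1 else 0) := by
  rw [← integral_indicator_one hS, NTSF.integral_law]
  unfold mean
  congr 1

end FarN

open FarN TS SDN

open Pool.Agent.NTS.Res (law size)

open scoped Classical in
/-- **row FarN** -/
theorem farN {d ε : ℝ} (hd : 0 < d) (hε : 0 < ε) : ∃ r : ℝ, 0 < r ∧ ∃ n0 : ℕ, ∀ n : ℕ, n0 ≤ n →
    MCP.Eu n (fun t => if NearW d r n t then 1 else 0) ≤ ε := by
  obtain ⟨r0, hr0, n0, h0⟩ := sep_law hd hε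
  obtain ⟨c, C, hc, hsz⟩ := (NTSF.Mg.oneFacts NTSF.finE).sz
  refine ⟨r0 * c, by positivity, n0 + 1, fun n hn => ?_⟩
  have hn1 : 1 ≤ n := by omega
  have hn0 : (0 : ℝ) < n := by exact_mod_cast hn1
  have h1 := h0 n (by omega)
  have h2 : (law n).real (NearP d r0) ≤ ε := by
    have := ENNReal.toReal_mono ENNReal.ofReal_ne_top h1
    rwa [ENNReal.toReal_ofReal hε.le] at this
  rw [law_real n (nearP_closed d r0).measurableSet, Pool.Agent.TSW.BP.mean_rt hn1] at h2
  have h3 : ∀ a : Fin 3, MCP.Eu n (fun t => if NearW d (r0 * c) n t then 1 else 0) ≤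
      MCP.Eu n (fun t => if Pool.Agent.NTS.Res.curve (Pool.Agent.TSW.BP.rt3 a (NTF.sw n t)) ∈ NearP d r0 then 1 else 0) := by
    intro a
    refine MCP.Eu_mono fun t => ?_
    split_ifs with h4 h5 h6
    · exact le_rfl
    · exfalso
      refine h5 ?_
      obtain ⟨i, k, hk, hik, hd2⟩ := h4
      have hik' : i ≤ k := by
        have : (i : ℝ) ≤ k := by
          have : 0 ≤ d * n := by positivity
          linarith
        exact_mod_cast this
      have hin : i ≤ n := hik'.trans hk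
      have hu : ∀ x : ℕ, x ≤ n → ((x : ℝ) / n) ∈ unitInterval := fun x hx =>
        ⟨by positivity, by rw [div_le_one hn0]; exact_mod_cast hx⟩
      refine ⟨⟨i / n, hu i hin⟩, ⟨k / n, hu k hk⟩, ?_, ?_⟩
      · show d ≤ (k : ℝ) / n - (i : ℝ) / n
        rw [← sub_div, le_div_iff₀ hn0]
        linarith
      · rw [NTSF.curve_grid hn1 _ hin _ rfl, NTSF.curve_grid hn1 _ hk _ rfl, dist_eq_norm, ← sub_div, norm_div,
          Pool.Agent.TSW.BP.pos_rt3, Pool.Agent.TSW.BP.pos_rt3, ← mul_sub, norm_mul, Pool.Agent.TSW.BP.cr_norm, one_mul,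
          NTSF.pos_sw n t i hin, NTSF.pos_sw n t k hk, ← NTF.JJ_sub]
        have e1 := norm_JJ_le (vx oo up t i - vx oo up t k)
        have e2 := (hsz n hn1).1
        have e3 : (0 : ℝ) < (n : ℝ) ^ (3 / 4 : ℝ) := by positivity
        have e4 : 0 < size n := lt_of_lt_of_le (by positivity) e2
        rw [Complex.norm_real, Real.norm_of_nonneg e4.le, div_le_iff₀ e4]
        calc _ ≤ (TIW.hn (vx oo up t i - vx oo up t k) : ℝ) := e1
          _ ≤ r0 * c * (n : ℝ) ^ (3 / 4 : ℝ) := hd2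
          _ = r0 * (c * (n : ℝ) ^ (3 / 4 : ℝ)) := by ring
          _ ≤ r0 * size n := mul_le_mul_of_nonneg_left e2 hr0.le
    · norm_num
    · exact le_rfl
  have h4 : ∑ a : Fin 3, MCP.Eu n (fun t => if NearW d (r0 * c) n t then 1 else 0) ≤
      ∑ a : Fin 3, MCP.Eu n (fun t => if Pool.Agent.NTS.Res.curve (Pool.Agent.TSW.BP.rt3 a (NTF.sw n t)) ∈ NearP d r0 then 1 else 0) :=
    Finset.sum_le_sum fun a _ => h3 a
  rw [Finset.sum_const, Finset.card_univ, Fintype.card_fin, nsmul_eq_mul] at h4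
  push_cast at h4
  linarith

end RMP

end HexObs
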