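import Pool.Agent.RMP.FaGeo
import Pool.Agent.RMP.TipP
import Pool.Agent.TIP.YBad
import Pool.Agent.ARM.Mom

/-!
# RMP, row P11 (helper14), part 5: fast words in pairs

* **`fastP_of`** : pairs whose first word leaves half of the ball and has few letters: `C y ^ Q pr3`.
-/

set_option autoImplicit false

namespace HexObs

namespace RMP

open Finset TS SDN NTW NTA HexObs.SIM TIP TIP.Nf TIW ARM NPR

open scoped ENNReal

/-- **fast words in pairs** -/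
def FastP : Prop := ∀ Q : ℕ, ∃ C : ℝ, 0 < C ∧ ∀ (r j : ℕ) (y : ℝ), j ≤ r → 0 < y →
  gp {T | T ∈ P3 (2 ^ r) j ∧ (∃ s, s ≤ T.1.length ∧ 2 ^ r < 2 * dz T.1 s) ∧ (T.1.length : ℝ) ≤ y * ml r} ≤
    ENNReal.ofReal (C * y ^ Q * pr3 (2 ^ r) j)

/-! ### numbers -/

lemma fa_num {c F : ℝ} (hc : 0 < c) (hF : 1 ≤ F) : ∃ E : ℝ, 1 ≤ E ∧ ∀ m : ℕ, F ^ m * (2 : ℝ) ^ (-(c * (2 : ℝ) ^ m)) ≤ E := by
  have hl2 : 0 < Real.log 2 := Real.log_pos one_lt_two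
  obtain ⟨J0, h⟩ := YB.num 1 F (c * Real.log 2) 0 zero_le_one hF (by positivity)
  refine ⟨F ^ J0, one_le_pow₀ hF, fun m => ?_⟩
  have e : (2 : ℝ) ^ (-(c * (2 : ℝ) ^ m)) = Real.exp (-(c * Real.log 2 * 2 ^ (m - 0))) := by
    rw [Real.rpow_def_of_pos (by norm_num), Nat.sub_zero]
    congr 1
    ring
  rcases le_total J0 m with h1 | h1
  · have h2 := h m h1
    rw [one_mul, ← e] at h2
    exact h2.trans (one_le_pow₀ hF)
  · have h2 : (2 : ℝ) ^ (-(c * (2 : ℝ) ^ m)) ≤ 1 := by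
      apply Real.rpow_le_one_of_one_le_of_nonpos (by norm_num)
      have : 0 ≤ c * (2 : ℝ) ^ m := by positivity
      linarith
    calc F ^ m * (2 : ℝ) ^ (-(c * (2 : ℝ) ^ m)) ≤ F ^ J0 * 1 :=
          mul_le_mul (pow_le_pow_right₀ hF h1) h2 (by positivity) (by positivity)
      _ = F ^ J0 := mul_one _

lemma dz_len2 (t : List Bool) {s : ℕ} (hs : s ≤ t.length) : dz t s ≤ 2 * ((t.length : ℤ) - s) := by
  obtain ⟨k, hk⟩ : ∃ k, t.length = s + k := ⟨t.length - s, by omega⟩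
  rw [hk]
  clear hs
  induction k generalizing s with
  | zero =>
    have : s = t.length := by omega
    rw [this, dz_len]
    push_cast
    omega
  | succ k ih =>
    have h1 := ih (s := s + 1) (by omega)
    have h2 := dz_step t s
    push_cast at h1 ⊢
    omega

lemma pr3_one {R j : ℕ} (h : 1 ≤ R) : 1 ≤ pr3 R j := by
  unfold pr3
  have h1 : (1 : ℝ) ≤ (2 : ℝ) ^ ((59 / 24 : ℝ) * (j : ℝ)) := Real.one_le_rpow (by norm_num) (by positivity)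
  have h2 : (1 : ℝ) ≤ (max (R : ℝ) (2 ^ j)) ^ (25 / 8 : ℝ) :=
    Real.one_le_rpow (le_max_of_le_left (by exact_mod_cast h)) (by norm_num)
  nlinarith

/-- a word that leaves half of the ball is not short -/
lemma fa_low {r : ℕ} {t : List Bool} {y : ℝ} (hs : ∃ s, s ≤ t.length ∧ 2 ^ r < 2 * dz t s) (hx : (t.length : ℝ) ≤ y * ml r) :
    1 ≤ 4 * 2 ^ r * y := by
  obtain ⟨s, hs1, hs2⟩ := hs
  have h1 := dz_len2 t hs1
  have h2 : (2 : ℤ) ^ r < 4 * t.length := by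
    have : (0 : ℤ) ≤ s := by positivity
    linarith
  have h3 : (2 : ℝ) ^ r < 4 * t.length := by exact_mod_cast h2
  have h4 : ml r ≤ 2 ^ r * 2 ^ r := by
    unfold ml
    rw [← pow_add, ← Real.rpow_natCast]
    apply Real.rpow_le_rpow_of_exponent_le (by norm_num)
    push_cast
    have : (0 : ℝ) ≤ r := Nat.cast_nonneg r
    linarith
  have h5 : (0 : ℝ) < 2 ^ r := by positivity
  have hy : 0 < y := by
    by_contra hc
    have := ml_pos r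
    nlinarith [not_lt.1 hc]
  have h6 : (2 : ℝ) ^ r < 4 * (y * (2 ^ r * 2 ^ r)) := by
    calc (2 : ℝ) ^ r < 4 * t.length := h3
      _ ≤ 4 * (y * ml r) := by linarith
      _ ≤ 4 * (y * (2 ^ r * 2 ^ r)) := by gcongr
  have h7 : (2 : ℝ) ^ r * 1 ≤ 2 ^ r * (4 * 2 ^ r * y) := by
    rw [mul_one]
    calc (2 : ℝ) ^ r ≤ 4 * (y * (2 ^ r * 2 ^ r)) := h6.le
      _ = _ := by ring
  exact le_of_mul_le_mul_left h7 h5

lemma gp_empty_of {S : Set PT} (h : ∀ T, T ∉ S) : gp S = 0 := by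
  have : S = ∅ := Set.eq_empty_of_forall_notMem h
  rw [this, gp_empty]

/-- the last case: a very long factor without rich window -/
lemma fa_last {κ : ℝ} {C : ℕ} (hR : RegZ κ C) : ∃ (c F : ℝ) (b1 J1 n1 : ℕ), 0 < c ∧ 1 ≤ F ∧ ∀ r j b n : ℕ, j ≤ r → b1 ≤ b →
    b + J1 ≤ r → n1 ≤ n → gp {T | T ∈ P3 (2 ^ r) j ∧ T.1 ∈ Lz κ C b n} ≤ ENNReal.ofReal (F ^ (r + 1) * (2 : ℝ) ^ (-(c * n))) := by
  obtain ⟨C1, c, b1, J1, n1, hC1, hc, hreg⟩ := hR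
  obtain ⟨C3, hC3, hball⟩ := conf_ball
  obtain ⟨D, hD, hup⟩ := EnsW.ref_up
  obtain ⟨x0, hx0⟩ : ∃ x0 : ℝ, x0 = (ENNReal.ofReal (Ub 0) * Xb 0 ^ 2).toReal := ⟨_, rfl⟩
  have hx00 : 0 ≤ x0 := by rw [hx0]; exact ENNReal.toReal_nonneg
  have hX0 : ENNReal.ofReal (Ub 0) * Xb 0 ^ 2 = ENNReal.ofReal x0 := by
    rw [hx0]
    refine (ENNReal.ofReal_toReal ?_).symm
    exact ENNReal.mul_ne_top ENNReal.ofReal_ne_top (ENNReal.pow_ne_top (Xb_ne_top 0))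
  obtain ⟨F, hF⟩ : ∃ F : ℝ, F = (54 * x0 * C3 + 1) * (4 * C1 * D * 4) := ⟨_, rfl⟩
  have hF1 : 1 ≤ F := by
    rw [hF]
    refine one_le_mul_of_one_le_of_one_le ?_ ?_
    · have : 0 ≤ 54 * x0 * C3 := by positivity
      linarith
    · nlinarith
  refine ⟨c, F, b1, J1, n1, hc, hF1, fun r j b n hj hb hJ hn => ?_⟩
  have hbnd : ∀ L : List Bool, (∀ s, s ≤ L.length → dz L s ≤ ((2 ^ r : ℕ) : ℤ) + 2 ^ j) → ∀ s, s ≤ L.length → dz L s ≤ 2 ^ (r + 1) := by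
    intro L h s hs
    have h1 := h s hs
    have h2 : (2 : ℤ) ^ j ≤ 2 ^ r := pow_le_pow_right₀ (by norm_num) hj
    rw [pow_succ]
    push_cast at h1
    linarith
  have h1 : gp {T | T ∈ P3 (2 ^ r) j ∧ T.1 ∈ Lz κ C b n} ≤ ENNReal.ofReal (54 * 4 ^ j) *
      (gf {t | t ∈ WL (r + 1) ∧ t ∈ Lz κ C b n} * gf {L | L ∈ SA ∧ ∀ s, s ≤ L.length → dz L s ≤ ((2 ^ (r + 1) : ℕ) : ℤ)}) := by
    refine (gp_mono ?_).trans (gp_prod j _ _)
    rintro T ⟨⟨a1, a2, a3, a4, a5, a6, a7⟩, a8⟩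
    refine ⟨⟨conf_WL a1 (hbnd _ a6), a8⟩, ⟨a2, fun s hs => ?_⟩, a3, a5⟩
    have := hbnd _ a7 s hs
    push_cast
    exact this
  refine h1.trans ?_
  have h2 := hreg b (r + 1 - b) n hb (by omega) hn
  rw [show b + (r + 1 - b) = r + 1 by omega] at h2
  have h3 := hup 0 (r + 1)
  rw [Nat.zero_add, hX0] at h3
  have h4 : gf {t | t ∈ WL (r + 1) ∧ t ∈ Lz κ C b n} ≤
      ENNReal.ofReal (C1 ^ (r + 1 - b) * (2 : ℝ) ^ (-(c * n)) * (D ^ (r + 1) * x0)) := by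
    refine h2.trans ?_
    have h5 : 0 ≤ C1 ^ (r + 1 - b) * (2 : ℝ) ^ (-(c * n)) := by positivity
    calc ENNReal.ofReal (C1 ^ (r + 1 - b) * (2 : ℝ) ^ (-(c * n)) * Ub (r + 1)) * Xb (r + 1) ^ 2
        = ENNReal.ofReal (C1 ^ (r + 1 - b) * (2 : ℝ) ^ (-(c * n))) * (ENNReal.ofReal (Ub (r + 1)) * Xb (r + 1) ^ 2) := by
          rw [ENNReal.ofReal_mul h5, mul_assoc]
      _ ≤ ENNReal.ofReal (C1 ^ (r + 1 - b) * (2 : ℝ) ^ (-(c * n))) * (ENNReal.ofReal (D ^ (r + 1)) * ENNReal.ofReal x0) :=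
          mul_le_mul_right h3 _
      _ = _ := by rw [← ENNReal.ofReal_mul (by positivity), ← ENNReal.ofReal_mul h5]
  have h6 := hball (2 ^ (r + 1)) Nat.one_le_two_pow
  have h7 : (((2 ^ (r + 1) : ℕ) : ℝ)) ^ (43 / 24 : ℝ) ≤ 4 ^ (r + 1) := by
    push_cast
    have e : (4 : ℝ) ^ (r + 1) = ((2 : ℝ) ^ (r + 1)) ^ (2 : ℝ) := by
      rw [Real.rpow_ofNat, ← pow_mul, mul_comm, pow_mul]
      norm_num
    rw [e]
    exact Real.rpow_le_rpow_of_exponent_le (one_le_pow₀ (by norm_num)) (by norm_num)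
  calc ENNReal.ofReal (54 * 4 ^ j) *
      (gf {t | t ∈ WL (r + 1) ∧ t ∈ Lz κ C b n} * gf {L | L ∈ SA ∧ ∀ s, s ≤ L.length → dz L s ≤ ((2 ^ (r + 1) : ℕ) : ℤ)})
      ≤ ENNReal.ofReal (54 * 4 ^ j) * (ENNReal.ofReal (C1 ^ (r + 1 - b) * (2 : ℝ) ^ (-(c * n)) * (D ^ (r + 1) * x0)) *
        ENNReal.ofReal (C3 * 4 ^ (r + 1))) := by
        refine mul_le_mul_right (mul_le_mul' h4 (h6.trans (ENNReal.ofReal_le_ofReal ?_))) _
        exact mul_le_mul_of_nonneg_left h7 hC3.le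
    _ = ENNReal.ofReal (54 * 4 ^ j * (C1 ^ (r + 1 - b) * (2 : ℝ) ^ (-(c * n)) * (D ^ (r + 1) * x0) * (C3 * 4 ^ (r + 1)))) := by
        rw [← ENNReal.ofReal_mul (by positivity), ← ENNReal.ofReal_mul (by positivity)]
    _ ≤ _ := by
        refine ENNReal.ofReal_le_ofReal ?_
        have e1 : (4 : ℝ) ^ j ≤ 4 ^ (r + 1) := pow_le_pow_right₀ (by norm_num) (by omega)
        have e2 : C1 ^ (r + 1 - b) ≤ C1 ^ (r + 1) := pow_le_pow_right₀ hC1 (by omega)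
        have e3 : 54 * x0 * C3 ≤ (54 * x0 * C3 + 1) ^ (r + 1) := by
          have : 0 ≤ 54 * x0 * C3 := by positivity
          calc 54 * x0 * C3 ≤ (54 * x0 * C3 + 1) ^ 1 := by rw [pow_one]; linarith
            _ ≤ _ := pow_le_pow_right₀ (by linarith) (by omega)
        have hD0 : 0 < D := by linarith
        calc 54 * 4 ^ j * (C1 ^ (r + 1 - b) * (2 : ℝ) ^ (-(c * n)) * (D ^ (r + 1) * x0) * (C3 * 4 ^ (r + 1)))
            ≤ 54 * 4 ^ (r + 1) * (C1 ^ (r + 1) * (2 : ℝ) ^ (-(c * n)) * (D ^ (r + 1) * x0) * (C3 * 4 ^ (r + 1))) := by gcongr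
          _ = (54 * x0 * C3) * ((4 * C1 * D * 4) ^ (r + 1) * (2 : ℝ) ^ (-(c * n))) := by
              rw [mul_pow, mul_pow, mul_pow]
              ring
          _ ≤ (54 * x0 * C3 + 1) ^ (r + 1) * ((4 * C1 * D * 4) ^ (r + 1) * (2 : ℝ) ^ (-(c * n))) :=
              mul_le_mul_of_nonneg_right e3 (by positivity)
          _ = _ := by
              rw [hF, mul_pow (54 * x0 * C3 + 1) (4 * C1 * D * 4)]
              ring

/-- **fast words in pairs**, from T1P and the tip lemma at the outer end -/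
theorem fastP_of (hT1 : T1P) (hT : TipOut) : FastP := by
  intro Q
  obtain ⟨κ, hκ, C, -, hR⟩ := regZ_all
  obtain ⟨D, hD, hT1⟩ := hT1
  obtain ⟨B, c, b0, J0, n0, hB, hc, hst⟩ := fa_step hκ hR hT
  obtain ⟨A, hA, hst⟩ := hst Q
  obtain ⟨c', F, b1, J1, n1, hc', hF, hlast⟩ := fa_last hR
  obtain ⟨Cm, hCm, hml⟩ := ml_le_mZ
  obtain ⟨p0, hp0⟩ : ∃ p0, p0 = J0 + J1 + n0 + n1 + 7 := ⟨_, rfl⟩
  obtain ⟨bm, hbm⟩ : ∃ bm, bm = b0 + b1 + 1 := ⟨_, rfl⟩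
  obtain ⟨r0, hr0⟩ : ∃ r0, r0 = p0 + bm + 1 := ⟨_, rfl⟩
  have hB0 : 0 < B := by linarith
  have hF0 : 0 < F := by linarith
  have hA0 : 0 < A := by linarith
  have hCm0 : 0 < Cm := by linarith
  have hB2 : 1 ≤ B ^ 2 := one_le_pow₀ hB
  obtain ⟨E1, hE1, hn1⟩ := fa_num (F := 2 * B ^ 2) hc (by linarith)
  obtain ⟨G, hG⟩ : ∃ G : ℝ, G = F * 2 ^ Q := ⟨_, rfl⟩
  have hG1 : 1 ≤ G := by rw [hG]; exact one_le_mul_of_one_le_of_one_le hF (one_le_pow₀ (by norm_num))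
  have hG0 : 0 < G := by linarith
  obtain ⟨E2, hE2, hn2⟩ := fa_num (F := G ^ 2) hc' (one_le_pow₀ hG1)
  have hE20 : 0 < E2 := by linarith
  have hE10 : 0 < E1 := by linarith
  obtain ⟨C0, hC0⟩ : ∃ C0 : ℝ, C0 = D * (4 * 2 ^ r0) ^ Q + D * (16 * Cm) ^ Q + A * (16 * Cm) ^ Q * B ^ (p0 + 7) * (2 * E1) +
      4 ^ Q * F * G ^ (p0 + bm + 1) * E2 := ⟨_, rfl⟩
  have hC00 : 0 < C0 := by rw [hC0]; positivity
  refine ⟨C0, hC00, fun r j y hj hy => ?_⟩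
  have h2r : 1 ≤ 2 ^ r := Nat.one_le_two_pow
  have hpr := pr3_one (R := 2 ^ r) (j := j) h2r
  obtain ⟨S, hS⟩ : ∃ S : Set PT, S = {T | T ∈ P3 (2 ^ r) j ∧ (∃ s, s ≤ T.1.length ∧ 2 ^ r < 2 * dz T.1 s) ∧
    (T.1.length : ℝ) ≤ y * ml r} := ⟨_, rfl⟩
  rw [← hS]
  by_cases hne : ∃ T, T ∈ S
  swap
  · rw [gp_empty_of (fun T hT => hne ⟨T, hT⟩)]
    exact zero_le
  have hlow : 1 ≤ 4 * 2 ^ r * y := by
    obtain ⟨T, hTS⟩ := hne
    rw [hS] at hTS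
    exact fa_low hTS.2.1 hTS.2.2
  have htriv : gp S ≤ ENNReal.ofReal (D * pr3 (2 ^ r) j) := by
    refine (gp_mono fun T hTS => ?_).trans (hT1 (2 ^ r) j)
    rw [hS] at hTS
    exact hTS.1
  have hyQ : 0 < y ^ Q := by positivity
  have hpart : ∀ x : ℝ, 0 ≤ x → x ≤ C0 → x * y ^ Q * pr3 (2 ^ r) j ≤ C0 * y ^ Q * pr3 (2 ^ r) j := by
    intro x _ h2
    gcongr
  rcases Nat.lt_or_ge r r0 with hr | hr
  · -- small balls
    refine htriv.trans (ENNReal.ofReal_le_ofReal (le_trans ?_ (hpart (D * (4 * 2 ^ r0) ^ Q) (by positivity) ?_)))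
    · have h1 : 1 ≤ (4 * 2 ^ r0 * y) ^ Q := by
        refine one_le_pow₀ (hlow.trans ?_)
        have h0 : (2 : ℝ) ^ r ≤ 2 ^ r0 := pow_le_pow_right₀ (by norm_num) hr.le
        gcongr
      rw [mul_pow] at h1
      have h2 : 0 ≤ D * pr3 (2 ^ r) j := by positivity
      calc D * pr3 (2 ^ r) j = D * pr3 (2 ^ r) j * 1 := by ring
        _ ≤ D * pr3 (2 ^ r) j * ((4 * 2 ^ r0) ^ Q * y ^ Q) := mul_le_mul_of_nonneg_left h1 h2
        _ = _ := by ring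
    · rw [hC0]
      have h3 : 0 ≤ D * (16 * Cm) ^ Q := by positivity
      have h4 : 0 ≤ A * (16 * Cm) ^ Q * B ^ (p0 + 7) * (2 * E1) := by positivity
      have h5 : 0 ≤ 4 ^ Q * F * G ^ (p0 + bm + 1) * E2 := by positivity
      linarith
  rcases lt_or_ge 1 (16 * Cm * y) with hy1 | hy1
  · -- long words
    refine htriv.trans (ENNReal.ofReal_le_ofReal (le_trans ?_ (hpart (D * (16 * Cm) ^ Q) (by positivity) ?_)))
    · have h1 : 1 ≤ (16 * Cm * y) ^ Q := one_le_pow₀ hy1.le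
      rw [mul_pow] at h1
      have h2 : 0 ≤ D * pr3 (2 ^ r) j := by positivity
      calc D * pr3 (2 ^ r) j = D * pr3 (2 ^ r) j * 1 := by ring
        _ ≤ D * pr3 (2 ^ r) j * ((16 * Cm) ^ Q * y ^ Q) := mul_le_mul_of_nonneg_left h1 h2
        _ = _ := by ring
    · rw [hC0]
      have h3 : 0 ≤ D * (4 * 2 ^ r0) ^ Q := by positivity
      have h4 : 0 ≤ A * (16 * Cm) ^ Q * B ^ (p0 + 7) * (2 * E1) := by positivity
      have h5 : 0 ≤ 4 ^ Q * F * G ^ (p0 + bm + 1) * E2 := by positivity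
      linarith
  -- the main case
  obtain ⟨M, hM⟩ : ∃ M, M = (r - p0 - bm) / 2 := ⟨_, rfl⟩
  obtain ⟨l, hl⟩ : ∃ l, l = r - 3 := ⟨_, rfl⟩
  have hlr : l + 3 = r := by omega
  obtain ⟨y', hy'⟩ : ∃ y' : ℝ, y' = 16 * Cm * y := ⟨_, rfl⟩
  have hy'0 : 0 < y' := by rw [hy']; positivity
  have hy'1 : y' ≤ 1 := by rw [hy']; exact hy1
  have hmlr : ml r = 16 * ml l := by
    unfold ml
    rw [← hlr]
    push_cast
    rw [mul_add, Real.rpow_add (by norm_num)]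
    have : (2 : ℝ) ^ ((4 / 3 : ℝ) * 3) = 16 := by
      rw [show (4 / 3 : ℝ) * 3 = (4 : ℕ) by norm_num, Real.rpow_natCast]
      norm_num
    rw [this]
    ring
  have hxl : y * ml r ≤ y' * PW.mZ (2 ^ l) := by
    rw [hmlr, hy']
    have := hml l
    calc y * (16 * ml l) ≤ y * (16 * (Cm * PW.mZ (2 ^ l))) := by gcongr
      _ = _ := by ring
  have hcov : S ⊆ (⋃ m ∈ range (M + 1), FaS κ C (2 ^ r) j (r - p0 - 2 * m) l (y' * PW.mZ (2 ^ l)) (r - p0 - 2 * m + 2)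
      (if m = 0 then 0 else 2 ^ (p0 + m - 6))) ∪ {T | T ∈ P3 (2 ^ r) j ∧ T.1 ∈ Lz κ C (r - p0 - 2 * M) (2 ^ (p0 + M - 4))} := by
    intro T hTS
    rw [hS] at hTS
    obtain ⟨h1, h2, h3⟩ := hTS
    rcases fa_cover (κ := κ) (C := C) (p0 := p0) (M := M) (l := l) (by omega) (by omega) hlr h1 h2 (h3.trans hxl) with h4 | h4
    · obtain ⟨m, hm, h5⟩ := h4
      refine Or.inl (Set.mem_iUnion₂.2 ⟨m, ?_, h5⟩)
      rw [mem_range]
      omega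
    · exact Or.inr ⟨h1, h4⟩
  have hsum : gp (⋃ m ∈ range (M + 1), FaS κ C (2 ^ r) j (r - p0 - 2 * m) l (y' * PW.mZ (2 ^ l)) (r - p0 - 2 * m + 2)
      (if m = 0 then 0 else 2 ^ (p0 + m - 6))) ≤ ENNReal.ofReal (A * (16 * Cm) ^ Q * B ^ (p0 + 7) * (2 * E1) * y ^ Q *
        pr3 (2 ^ r) j) := by
    refine (gp_biUnion_le _ _).trans ?_
    have h1 : ∀ m ∈ range (M + 1), gp (FaS κ C (2 ^ r) j (r - p0 - 2 * m) l (y' * PW.mZ (2 ^ l)) (r - p0 - 2 * m + 2)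
        (if m = 0 then 0 else 2 ^ (p0 + m - 6))) ≤ ENNReal.ofReal (A * y' ^ Q * B ^ (p0 + 7) * E1 * pr3 (2 ^ r) j * (1 / 2) ^ m) := by
      intro m hm
      rw [mem_range] at hm
      have hmM : 2 * m + p0 + bm ≤ r := by omega
      have h2 := hst (r + 2) l (r - p0 - 2 * m) (r - p0 - 2 * m + 2) (if m = 0 then 0 else 2 ^ (p0 + m - 6)) (2 ^ r) j y'
        (by omega) hy'0 hy'1 (by omega) (by omega) (by omega) ?_ ?_ ?_
      · refine h2.trans (ENNReal.ofReal_le_ofReal ?_)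
        have e1 : (r + 2 - l) + (r + 2 - (r - p0 - 2 * m)) = (p0 + 7) + 2 * m := by omega
        rw [e1, pow_add, pow_mul]
        have h3 : (B ^ 2) ^ m * (2 : ℝ) ^ (-(c * ((if m = 0 then 0 else 2 ^ (p0 + m - 6) : ℕ) : ℝ))) ≤ E1 * (1 / 2) ^ m := by
          rcases Nat.eq_zero_or_pos m with h0 | h0
          · subst h0
            simp only [pow_zero, if_true, Nat.cast_zero, mul_zero, neg_zero, Real.rpow_zero, mul_one]
            exact hE1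
          · rw [if_neg (by omega)]
            have h4 := hn1 m
            rw [mul_pow] at h4
            have h5 : (2 : ℝ) ^ (-(c * ((2 ^ (p0 + m - 6) : ℕ) : ℝ))) ≤ (2 : ℝ) ^ (-(c * (2 : ℝ) ^ m)) := by
              apply Real.rpow_le_rpow_of_exponent_le (by norm_num)
              have h6 : (2 : ℝ) ^ m ≤ ((2 ^ (p0 + m - 6) : ℕ) : ℝ) := by
                push_cast
                exact pow_le_pow_right₀ (by norm_num) (by omega)
              have := mul_le_mul_of_nonneg_left h6 hc.le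
              linarith
            have h7 : (0 : ℝ) < 2 ^ m := by positivity
            calc (B ^ 2) ^ m * (2 : ℝ) ^ (-(c * ((2 ^ (p0 + m - 6) : ℕ) : ℝ)))
                ≤ (B ^ 2) ^ m * (2 : ℝ) ^ (-(c * (2 : ℝ) ^ m)) := mul_le_mul_of_nonneg_left h5 (by positivity)
              _ = (2 ^ m * (B ^ 2) ^ m * (2 : ℝ) ^ (-(c * (2 : ℝ) ^ m))) * (1 / 2) ^ m := by
                  rw [one_div, inv_pow]
                  field_simp
              _ ≤ E1 * (1 / 2) ^ m := mul_le_mul_of_nonneg_right h4 (by positivity)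
        have h8 : 0 ≤ A * y' ^ Q * B ^ (p0 + 7) * pr3 (2 ^ r) j := by positivity
        calc A * y' ^ Q * (B ^ (p0 + 7) * (B ^ 2) ^ m) *
              (2 : ℝ) ^ (-(c * ((if m = 0 then 0 else 2 ^ (p0 + m - 6) : ℕ) : ℝ))) * pr3 (2 ^ r) j
            = (A * y' ^ Q * B ^ (p0 + 7) * pr3 (2 ^ r) j) * ((B ^ 2) ^ m *
              (2 : ℝ) ^ (-(c * ((if m = 0 then 0 else 2 ^ (p0 + m - 6) : ℕ) : ℝ)))) := by ring
          _ ≤ (A * y' ^ Q * B ^ (p0 + 7) * pr3 (2 ^ r) j) * (E1 * (1 / 2) ^ m) := mul_le_mul_of_nonneg_left h3 h8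
          _ = _ := by ring
      · by_cases h0 : m = 0
        · left
          rw [if_pos h0]
        · right
          rw [if_neg h0]
          refine (show n0 ≤ p0 + m - 6 by omega).trans Nat.lt_two_pow_self.le
      · have : (2 : ℕ) ^ (r - p0 - 2 * m) ≤ 2 ^ r := Nat.pow_le_pow_right (by norm_num) (by omega)
        exact this.trans (Nat.le_add_right _ _)
      · have : (2 : ℕ) ^ j ≤ 2 ^ r := Nat.pow_le_pow_right (by norm_num) hj
        have e : (2 : ℕ) ^ (r + 2) = 4 * 2 ^ r := by rw [pow_add]; ring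
        omega
    refine (Finset.sum_le_sum h1).trans ?_
    rw [← ENNReal.ofReal_sum_of_nonneg (fun m _ => by positivity)]
    refine ENNReal.ofReal_le_ofReal ?_
    rw [← Finset.mul_sum]
    have h2 : ∑ m ∈ range (M + 1), (1 / 2 : ℝ) ^ m ≤ 2 := by
      refine (Summable.sum_le_tsum _ (fun _ _ => by positivity) summable_geometric_two).trans ?_
      rw [tsum_geometric_two]
    have h3 : 0 ≤ A * y' ^ Q * B ^ (p0 + 7) * E1 * pr3 (2 ^ r) j := by positivity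
    calc A * y' ^ Q * B ^ (p0 + 7) * E1 * pr3 (2 ^ r) j * ∑ m ∈ range (M + 1), (1 / 2 : ℝ) ^ m
        ≤ A * y' ^ Q * B ^ (p0 + 7) * E1 * pr3 (2 ^ r) j * 2 := mul_le_mul_of_nonneg_left h2 h3
      _ = _ := by
        rw [hy', mul_pow]
        ring
  have hend : gp {T | T ∈ P3 (2 ^ r) j ∧ T.1 ∈ Lz κ C (r - p0 - 2 * M) (2 ^ (p0 + M - 4))} ≤
      ENNReal.ofReal (4 ^ Q * F * G ^ (p0 + bm + 1) * E2 * y ^ Q * pr3 (2 ^ r) j) := by
    refine (hlast r j (r - p0 - 2 * M) (2 ^ (p0 + M - 4)) hj (by omega) (by omega)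
      ((show n1 ≤ p0 + M - 4 by omega).trans Nat.lt_two_pow_self.le)).trans (ENNReal.ofReal_le_ofReal ?_)
    have h1 : (2 : ℝ) ^ (-(c' * ((2 ^ (p0 + M - 4) : ℕ) : ℝ))) ≤ (2 : ℝ) ^ (-(c' * (2 : ℝ) ^ M)) := by
      apply Real.rpow_le_rpow_of_exponent_le (by norm_num)
      have h6 : (2 : ℝ) ^ M ≤ ((2 ^ (p0 + M - 4) : ℕ) : ℝ) := by
        push_cast
        exact pow_le_pow_right₀ (by norm_num) (by omega)
      have := mul_le_mul_of_nonneg_left h6 hc'.le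
      linarith
    have h2 : (1 : ℝ) ≤ (4 * 2 ^ r * y) ^ Q := one_le_pow₀ hlow
    have h3 : F ^ (r + 1) * (4 * 2 ^ r * y) ^ Q = 4 ^ Q * F * G ^ r * y ^ Q := by
      rw [hG, mul_pow, mul_pow, mul_pow, ← pow_mul, ← pow_mul, mul_comm Q r]
      ring
    have h4 : G ^ r ≤ G ^ (p0 + bm + 1) * (G ^ 2) ^ M := by
      rw [← pow_mul, ← pow_add]
      exact pow_le_pow_right₀ hG1 (by omega)
    calc F ^ (r + 1) * (2 : ℝ) ^ (-(c' * ((2 ^ (p0 + M - 4) : ℕ) : ℝ)))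
        ≤ F ^ (r + 1) * (2 : ℝ) ^ (-(c' * (2 : ℝ) ^ M)) := mul_le_mul_of_nonneg_left h1 (by positivity)
      _ ≤ F ^ (r + 1) * (2 : ℝ) ^ (-(c' * (2 : ℝ) ^ M)) * (4 * 2 ^ r * y) ^ Q := le_mul_of_one_le_right (by positivity) h2
      _ = (F ^ (r + 1) * (4 * 2 ^ r * y) ^ Q) * (2 : ℝ) ^ (-(c' * (2 : ℝ) ^ M)) := by ring
      _ = (4 ^ Q * F * G ^ r * y ^ Q) * (2 : ℝ) ^ (-(c' * (2 : ℝ) ^ M)) := by rw [h3]
      _ ≤ (4 ^ Q * F * (G ^ (p0 + bm + 1) * (G ^ 2) ^ M) * y ^ Q) * (2 : ℝ) ^ (-(c' * (2 : ℝ) ^ M)) := by gcongr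
      _ = 4 ^ Q * F * G ^ (p0 + bm + 1) * ((G ^ 2) ^ M * (2 : ℝ) ^ (-(c' * (2 : ℝ) ^ M))) * y ^ Q := by ring
      _ ≤ 4 ^ Q * F * G ^ (p0 + bm + 1) * E2 * y ^ Q := by
          have := hn2 M
          gcongr
      _ ≤ 4 ^ Q * F * G ^ (p0 + bm + 1) * E2 * y ^ Q * pr3 (2 ^ r) j := le_mul_of_one_le_right (by positivity) hpr
  refine (gp_mono hcov).trans ((gp_union_le _ _).trans ((add_le_add hsum hend).trans ?_))
  rw [← ENNReal.ofReal_add (by positivity) (by positivity)]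
  refine ENNReal.ofReal_le_ofReal ?_
  have h3 : 0 ≤ D * (4 * 2 ^ r0) ^ Q := by positivity
  have h5 : 0 ≤ D * (16 * Cm) ^ Q := by positivity
  have h6 := hpart (A * (16 * Cm) ^ Q * B ^ (p0 + 7) * (2 * E1) + 4 ^ Q * F * G ^ (p0 + bm + 1) * E2) (by positivity) (by
    rw [hC0]
    linarith)
  calc A * (16 * Cm) ^ Q * B ^ (p0 + 7) * (2 * E1) * y ^ Q * pr3 (2 ^ r) j +
      4 ^ Q * F * G ^ (p0 + bm + 1) * E2 * y ^ Q * pr3 (2 ^ r) j
      = (A * (16 * Cm) ^ Q * B ^ (p0 + 7) * (2 * E1) + 4 ^ Q * F * G ^ (p0 + bm + 1) * E2) * y ^ Q * pr3 (2 ^ r) j := by ring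
    _ ≤ _ := h6

end RMP

end HexObs
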