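import Pool.Agent.RMP.FarN
import Pool.Agent.MC.Slow

/-!
# RM (helper44): the far row in the form `Pn`

* **`farP`** : the probability of two vertices at a distance at least `d n` in time and at most `r n ^ (3 / 4)` in space.
-/

set_option autoImplicit false

namespace HexObs

namespace RMP

open TS SDN FarN

/-- **row FarN, form Pn** -/
theorem farP : ∀ ε d : ℝ, 0 < ε → 0 < d → ∃ (r : ℝ) (n0 : ℕ), 0 < r ∧ ∀ n : ℕ, n0 ≤ n → TOG.Pn n {t | ∃ i i' : ℕ, i ≤ n ∧ i' ≤ n ∧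
    (i : ℝ) + d * n ≤ i' ∧ (TIW.hn (vx oo up t i - vx oo up t i') : ℝ) ≤ r * (n : ℝ) ^ (3 / 4 : ℝ)} ≤ ε := by
  intro ε d hε hd
  obtain ⟨r, hr, n0, h⟩ := farN hd hε
  refine ⟨r, n0, hr, fun n hn => ?_⟩
  refine le_trans ?_ (h n hn)
  rw [MCP.Pn_Eu]
  refine MCP.Eu_mono fun t => ?_
  unfold TIP.ind
  split_ifs with h1 h2
  · exact le_rfl
  · obtain ⟨i, i', -, h4, h5, h6⟩ := h1
    exact absurd ⟨i, i', h4, h5, h6⟩ h2
  · norm_num
  · exact le_rfl

end RMP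

end HexObs
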