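import Pool.Agent.RMP.Defs
import Pool.Agent.ARM.GlueGB
import Pool.Agent.TPC.AnO
import Pool.Agent.TPC.XUp

/-!
# RMP, row P6b (helper51): the double count over the pairs of good cuts of a good pair

The form of the joinable pairs is free (`X`): only the union bound over the finitely many paths is used.
-/

set_option autoImplicit false

namespace HexObs

namespace RMP

open Finset TS SDN SIM NTA TIP ARM

open scoped ENNReal

namespace G6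

/-- the pair with the two end parts -/
def gl (T : PT) (Y1 Y2 : List Bool) : PT := (T.1 ++ Y1, (T.2.1, T.2.2 ++ Y2))

lemma gp_ind (S : Set PT) [DecidablePred (· ∈ S)] : gp S = ∑' T : PT, if T ∈ S then wE T.1 * wE T.2.2 else 0 := by
  unfold gp
  rw [_root_.tsum_subtype S (fun T : PT => wE T.1 * wE T.2.2)]
  refine tsum_congr fun T => ?_
  by_cases h : T ∈ S
  · rw [if_pos h, Set.indicator_of_mem h]
  · rw [if_neg h, Set.indicator_of_notMem h]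

lemma gp_mono {S S' : Set PT} (h : S ⊆ S') : gp S ≤ gp S' := by
  unfold gp
  exact ENNReal.tsum_mono_subtype (fun T : PT => wE T.1 * wE T.2.2) h

lemma gp_bi_le {ι : Type*} (I : Finset ι) (S : ι → Set PT) : gp (⋃ i ∈ I, S i) ≤ ∑ i ∈ I, gp (S i) := by
  unfold gp
  exact ENNReal.tsum_biUnion_le (fun T : PT => wE T.1 * wE T.2.2) _ _

lemma gp_empty : gp (∅ : Set PT) = 0 := by
  unfold gp
  exact tsum_empty

/-- **the double sum** -/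
lemma dsumP {G : Set PT} {c K : ℝ≥0∞} {P : PT → List Bool → List Bool → Prop} {y : List Bool → ℝ≥0∞}
    (h : ∀ T ∈ G, ∃ S1 S2 : Finset (List Bool), c ≤ (S1.card : ℝ≥0∞) * S2.card ∧ ∀ Y1 ∈ S1, ∀ Y2 ∈ S2, ∃ T' : PT,
      gl T' Y1 Y2 = T ∧ P T' Y1 Y2)
    (hg : ∀ Y1 Y2 : List Bool, wE Y1 * wE Y2 * gp {T' | P T' Y1 Y2} ≤ K * (y Y1 * y Y2)) :
    c * gp G ≤ K * (∑' Y : List Bool, y Y) ^ 2 := by
  classical
  have h1 : c * gp G ≤ ∑' T : PT, wE T.1 * wE T.2.2 * ∑' Y : List Bool × List Bool, ∑' T' : PT,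
      (if gl T' Y.1 Y.2 = T ∧ P T' Y.1 Y.2 then (1 : ℝ≥0∞) else 0) := by
    rw [gp_ind, ← ENNReal.tsum_mul_left]
    refine ENNReal.tsum_le_tsum fun T => ?_
    by_cases hT : T ∈ G
    · rw [if_pos hT, mul_comm c]
      refine mul_le_mul_right ?_ _
      obtain ⟨S1, S2, h1, h2⟩ := h T hT
      refine h1.trans ?_
      have h3 : (S1.card : ℝ≥0∞) * S2.card = ∑ Y ∈ S1 ×ˢ S2, (1 : ℝ≥0∞) := by
        rw [sum_const, card_product, nsmul_eq_mul, mul_one]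
        push_cast
        rfl
      rw [h3]
      refine le_trans (sum_le_sum fun Y hY => ?_) (ENNReal.sum_le_tsum (S1 ×ˢ S2))
      rw [mem_product] at hY
      obtain ⟨T', h4, h5⟩ := h2 Y.1 hY.1 Y.2 hY.2
      refine le_trans ?_ (ENNReal.le_tsum T')
      rw [if_pos ⟨h4, h5⟩]
    · rw [if_neg hT, mul_zero]
      exact zero_le
  refine h1.trans ?_
  have h2 : ∀ T : PT, wE T.1 * wE T.2.2 * ∑' Y : List Bool × List Bool, ∑' T' : PT,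
      (if gl T' Y.1 Y.2 = T ∧ P T' Y.1 Y.2 then (1 : ℝ≥0∞) else 0) =
      ∑' Y : List Bool × List Bool, ∑' T' : PT, if gl T' Y.1 Y.2 = T ∧ P T' Y.1 Y.2 then wE T.1 * wE T.2.2 else 0 := by
    intro T
    rw [← ENNReal.tsum_mul_left]
    refine tsum_congr fun Y => ?_
    rw [← ENNReal.tsum_mul_left]
    refine tsum_congr fun T' => ?_
    rw [mul_ite, mul_one, mul_zero]
  rw [tsum_congr h2, ENNReal.tsum_comm]
  have h3 : ∀ Y : List Bool × List Bool, (∑' T : PT, ∑' T' : PT,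
      if gl T' Y.1 Y.2 = T ∧ P T' Y.1 Y.2 then wE T.1 * wE T.2.2 else 0) = wE Y.1 * wE Y.2 * gp {T' | P T' Y.1 Y.2} := by
    intro Y
    rw [ENNReal.tsum_comm, gp_ind, ← ENNReal.tsum_mul_left]
    refine tsum_congr fun T' => ?_
    rw [tsum_eq_single (gl T' Y.1 Y.2)]
    · by_cases hP : P T' Y.1 Y.2
      · rw [if_pos ⟨rfl, hP⟩, if_pos (show T' ∈ {T' | P T' Y.1 Y.2} from hP)]
        unfold gl
        simp only
        rw [wE_append, wE_append]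
        ring
      · rw [if_neg (fun h => hP h.2), if_neg (show T' ∉ {T' | P T' Y.1 Y.2} from hP), mul_zero]
    · intro T hT
      exact if_neg fun h => hT h.1.symm
  rw [tsum_congr h3]
  calc ∑' Y : List Bool × List Bool, wE Y.1 * wE Y.2 * gp {T' | P T' Y.1 Y.2}
      ≤ ∑' Y : List Bool × List Bool, K * (y Y.1 * y Y.2) := ENNReal.tsum_le_tsum fun Y => hg Y.1 Y.2
    _ = K * ((∑' X : List Bool, y X) * ∑' Y : List Bool, y Y) := by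
        rw [ENNReal.tsum_mul_left, ENNReal.tsum_prod']
        have : ∀ X : List Bool, ∑' Y : List Bool, y X * y Y = y X * ∑' Y : List Bool, y Y :=
          fun X => ENNReal.tsum_mul_left
        rw [tsum_congr this, ENNReal.tsum_mul_right]
    _ = _ := by rw [pow_two]

/-- the numbers -/
lemma numP {C3 C4 : ℝ} (hC3 : 0 < C3) (hC4 : 0 < C4) {κ C2 K : ℝ} (hκ : 0 < κ) (hC2 : 0 < C2) (hK : 0 < K)
    (hU : ∀ k : ℕ, Ub k ≤ C4 * 2 ^ (3 / 4 * (k : ℝ))) (R j : ℕ) (hR : 2 ^ j ≤ R) :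
    K * (4 ^ j * Ub j / ml j) * (R : ℝ) ^ (25 / 8 : ℝ) * ((C2 * Ub j) ^ 2 * (C3 * 2 ^ (25 / 24 * (j : ℝ)))) /
      (κ * Ub j) ^ 2 ≤ (K * C2 ^ 2 * C3 * C4 / κ ^ 2) * pr3 R j := by
  have hUj := G2.U_pos j
  have hm := G2.m_pos j
  have hR' : (2 : ℝ) ^ j ≤ R := by exact_mod_cast hR
  have hR0 : (0 : ℝ) < R := lt_of_lt_of_le (by positivity) hR'
  obtain ⟨B, hB⟩ : ∃ B, B = (R : ℝ) ^ (25 / 8 : ℝ) := ⟨_, rfl⟩
  have hBp : 0 < B := by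
    rw [hB]
    positivity
  have e1 : pr3 R j = 2 ^ ((59 / 24 : ℝ) * (j : ℝ)) * B := by
    unfold pr3
    rw [max_eq_left hR', hB]
  have e4 : (4 : ℝ) ^ j = 2 ^ (2 * (j : ℝ)) := by
    rw [Real.rpow_mul (by norm_num), Real.rpow_natCast]
    norm_num
  have e3 : (2 : ℝ) ^ ((59 / 24 : ℝ) * (j : ℝ)) * ml j = 4 ^ j * (2 ^ (3 / 4 * (j : ℝ)) * 2 ^ (25 / 24 * (j : ℝ))) := by
    unfold ml
    rw [e4, ← Real.rpow_add (by norm_num), ← Real.rpow_add (by norm_num), ← Real.rpow_add (by norm_num)]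
    congr 1
    ring
  have e5 : (2 : ℝ) ^ ((59 / 24 : ℝ) * (j : ℝ)) = 4 ^ j * (2 ^ (3 / 4 * (j : ℝ)) * 2 ^ (25 / 24 * (j : ℝ))) / ml j := by
    rw [← e3]
    field_simp
  rw [e1, e5, ← hB, div_le_iff₀ (by positivity)]
  have h1 := hU j
  calc K * (4 ^ j * Ub j / ml j) * B * ((C2 * Ub j) ^ 2 * (C3 * 2 ^ (25 / 24 * (j : ℝ))))
      = K * C2 ^ 2 * C3 * (4 ^ j * B * 2 ^ (25 / 24 * (j : ℝ)) * Ub j ^ 2 / ml j) * Ub j := by
        field_simp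
    _ ≤ K * C2 ^ 2 * C3 * (4 ^ j * B * 2 ^ (25 / 24 * (j : ℝ)) * Ub j ^ 2 / ml j) * (C4 * 2 ^ (3 / 4 * (j : ℝ))) := by gcongr
    _ = _ := by
        field_simp

/-- the cuts of the pair, as finite sets of end parts -/
lemma cutsP {b D a : ℕ} {η x : ℝ} {E : Set Pt} {t : List Bool} (hx : 0 < x) (h : x ≤ ((NCp b a D η E t).ncard : ℝ)) :
    ∃ S : Finset (List Bool), x ≤ (S.card : ℝ) ∧ ∀ Y ∈ S, Y ∈ NCp b a D η E t := by
  have h1 : 0 < (NCp b a D η E t).ncard := by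
    have : (0 : ℝ) < ((NCp b a D η E t).ncard : ℝ) := hx.trans_le h
    exact_mod_cast this
  have hf : (NCp b a D η E t).Finite := Set.finite_of_ncard_pos h1
  refine ⟨hf.toFinset, ?_, fun Y hY => hf.mem_toFinset.1 hY⟩
  rw [← Set.ncard_eq_toFinset_card _ hf]
  exact h

/-- the outer part is not much larger than the word -/
lemma dz_outer {A Y : List Bool} {D : ℕ} {ρ : ℤ} (hY : In D Y) (h : ∀ s, s ≤ (A ++ Y).length → dz (A ++ Y) s ≤ ρ) :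
    ∀ s, s ≤ A.length → dz A s ≤ ρ + 6 * D := by
  intro s hs
  have h1 := h s (by rw [List.length_append]; omega)
  have h2 := G2.near_end (D := D) (L := A ++ Y) (q := A.length) (s := A.length) (by rw [List.length_append]; omega)
    (by rw [List.drop_left]; exact hY) le_rfl (by rw [List.length_append]; omega)
  have e1 : vx oo up (A ++ Y) s = vx oo up A s := vx_append (by omega)
  have e2 : vx oo up (A ++ Y) A.length = TIW.en A := vx_append (by omega)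
  unfold dz at h1 h2 ⊢
  rw [e1] at h1
  rw [e2] at h2
  have h3 : vx oo up A s - TIW.en A = (vx oo up A s - TIW.en (A ++ Y)) - (TIW.en A - TIW.en (A ++ Y)) := by abel
  rw [h3]
  exact (TIW.hn_sub _ _).trans (add_le_add h1 h2)

/-- the conditions of the mass bound -/
def Cnd (H Mx sx j k' r : ℕ) (D : ℤ) (E : ℕ → Pt) : Prop :=
  k' ≤ j ∧ j ≤ k' + sx ∧ 18 * (H * 2 ^ k') ≤ D ∧ D ≤ 36 * (H * 2 ^ k') ∧ 3 ≤ r ∧ r ≤ Mx ∧ IPg E r

/-- the union bound -/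
theorem mid_massP {X : (ℕ → Pt) → ℕ → ℤ → ℕ → PT → Prop}
    (hcut : ∀ E r D k T, 3 ≤ r → X E r D k T → X (G2.cutE E r) r D k T) {H Mx sx k0 : ℕ} {C1 : ℝ} (hC1 : 0 < C1)
    (hJ : ∀ (k r R : ℕ) (D : ℤ) (E : ℕ → Pt), k0 ≤ k → 2 ^ k ≤ R → 18 * (H * 2 ^ k) ≤ D → D ≤ 36 * (H * 2 ^ k) → 3 ≤ r → r ≤ Mx →
      IPg E r → gp {T | X E r D k T ∧ (∀ s, s ≤ T.1.length → dz T.1 s ≤ R) ∧ ∀ s, s ≤ T.2.2.length → dz T.2.2 s ≤ R} ≤
        ENNReal.ofReal (C1 * (4 ^ k * Ub k / ml k) * (R : ℝ) ^ (25 / 8 : ℝ)))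
    {j : ℕ} (hj : k0 + sx ≤ j) {DD : Finset ℤ} (hDD : DD.card ≤ Mx) {Q : Set PT} {R : ℕ} (hR : 2 ^ j ≤ R)
    (hQ : ∀ T ∈ Q, ((∀ s, s ≤ T.1.length → dz T.1 s ≤ R) ∧ ∀ s, s ≤ T.2.2.length → dz T.2.2 s ≤ R) ∧
      ∃ (k' r : ℕ) (D : ℤ) (E : ℕ → Pt), D ∈ DD ∧ Cnd H Mx sx j k' r D E ∧ X E r D k' T) :
    gp Q ≤ ENNReal.ofReal ((((sx + 1) * ((Mx + 1) * (Mx * 6 ^ Mx)) : ℕ) : ℝ) *
      (C1 * (4 ^ sx * (4 ^ j * Ub j / ml j)) * (R : ℝ) ^ (25 / 8 : ℝ))) := by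
  classical
  obtain ⟨I, hI⟩ : ∃ I, I = (Icc (j - sx) j) ×ˢ (range (Mx + 1)) ×ˢ DD ×ˢ G2.EE Mx := ⟨_, rfl⟩
  have hcard : I.card ≤ (sx + 1) * ((Mx + 1) * (Mx * 6 ^ Mx)) := by
    rw [hI, card_product, card_product, card_product, Nat.card_Icc, card_range]
    exact Nat.mul_le_mul (by omega) (Nat.mul_le_mul_left _ (Nat.mul_le_mul hDD (G2.EE_card Mx)))
  have hcov : Q ⊆ ⋃ ι ∈ I, {T | (Cnd H Mx sx j ι.1 ι.2.1 ι.2.2.1 ι.2.2.2 ∧ X ι.2.2.2 ι.2.1 ι.2.2.1 ι.1 T) ∧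
      (∀ s, s ≤ T.1.length → dz T.1 s ≤ R) ∧ ∀ s, s ≤ T.2.2.length → dz T.2.2 s ≤ R} := by
    intro T hT
    obtain ⟨h1, k', r, D, E, hD, hc, hJn⟩ := hQ T hT
    obtain ⟨c1, c2, c3, c4, c5, c6, c7⟩ := hc
    simp only [Set.mem_iUnion, exists_prop]
    refine ⟨(k', r, D, G2.cutE E r), ?_, ⟨⟨c1, c2, c3, c4, c5, c6, G2.IPg_cut c7⟩, hcut _ _ _ _ _ c5 hJn⟩, h1⟩
    rw [hI]
    simp only [mem_product, mem_Icc, mem_range]
    exact ⟨⟨by omega, c1⟩, by omega, hD, G2.cutE_mem c6 c7⟩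
  have hm := G2.m_pos j
  have hU := G2.U_pos j
  have hR0 : (0 : ℝ) ≤ (R : ℝ) ^ (25 / 8 : ℝ) := by positivity
  have hB : ∀ ι ∈ I, gp {T | (Cnd H Mx sx j ι.1 ι.2.1 ι.2.2.1 ι.2.2.2 ∧ X ι.2.2.2 ι.2.1 ι.2.2.1 ι.1 T) ∧
      (∀ s, s ≤ T.1.length → dz T.1 s ≤ R) ∧ ∀ s, s ≤ T.2.2.length → dz T.2.2 s ≤ R} ≤
      ENNReal.ofReal (C1 * (4 ^ sx * (4 ^ j * Ub j / ml j)) * (R : ℝ) ^ (25 / 8 : ℝ)) := by
    rintro ⟨k', r, D, E⟩ -
    by_cases hc : Cnd H Mx sx j k' r D E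
    · obtain ⟨c1, c2, c3, c4, c5, c6, c7⟩ := hc
      refine (gp_mono (S' := {T | X E r D k' T ∧ (∀ s, s ≤ T.1.length → dz T.1 s ≤ R) ∧
        ∀ s, s ≤ T.2.2.length → dz T.2.2 s ≤ R}) fun T hT => ⟨hT.1.2, hT.2⟩).trans ?_
      have hkR : 2 ^ k' ≤ R := (Nat.pow_le_pow_right (by norm_num) c1).trans hR
      refine (hJ k' r R D E (by omega) hkR c3 c4 c5 c6 c7).trans (ENNReal.ofReal_le_ofReal ?_)
      have hk := G2.m_pos k'
      have h1 : ml j ≤ 4 ^ sx * ml k' := G2.m_up c2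
      have h2 : (4 : ℝ) ^ k' ≤ 4 ^ j := pow_le_pow_right₀ (by norm_num) c1
      have h3 : Ub k' ≤ Ub j := Ub_mono c1
      have hUk := G2.U_pos k'
      have h4 : 4 ^ k' * Ub k' / ml k' ≤ 4 ^ sx * (4 ^ j * Ub j / ml j) := by
        rw [← mul_div_assoc, div_le_div_iff₀ hk hm]
        calc 4 ^ k' * Ub k' * ml j ≤ 4 ^ j * Ub j * (4 ^ sx * ml k') := by gcongr
          _ = _ := by ring
      gcongr
    · refine (gp_mono (S' := ∅) fun T hT => hc hT.1.1).trans ?_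
      rw [gp_empty]
      exact zero_le
  calc gp Q ≤ gp (⋃ ι ∈ I, {T | (Cnd H Mx sx j ι.1 ι.2.1 ι.2.2.1 ι.2.2.2 ∧ X ι.2.2.2 ι.2.1 ι.2.2.1 ι.1 T) ∧
          (∀ s, s ≤ T.1.length → dz T.1 s ≤ R) ∧ ∀ s, s ≤ T.2.2.length → dz T.2.2 s ≤ R}) := gp_mono hcov
    _ ≤ ∑ ι ∈ I, gp {T | (Cnd H Mx sx j ι.1 ι.2.1 ι.2.2.1 ι.2.2.2 ∧ X ι.2.2.2 ι.2.1 ι.2.2.1 ι.1 T) ∧
          (∀ s, s ≤ T.1.length → dz T.1 s ≤ R) ∧ ∀ s, s ≤ T.2.2.length → dz T.2.2 s ≤ R} := gp_bi_le _ _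
    _ ≤ ∑ _ι ∈ I, ENNReal.ofReal (C1 * (4 ^ sx * (4 ^ j * Ub j / ml j)) * (R : ℝ) ^ (25 / 8 : ℝ)) := sum_le_sum hB
    _ ≤ _ := by
        rw [sum_const, nsmul_eq_mul]
        refine (mul_le_mul_left (Nat.cast_le.2 hcard) _).trans (le_of_eq ?_)
        rw [← ENNReal.ofReal_natCast, ← ENNReal.ofReal_mul (Nat.cast_nonneg _)]

/-- **the double count**, for any form `X` of the joinable pairs -/
theorem goodX {X : (ℕ → Pt) → ℕ → ℤ → ℕ → PT → Prop}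
    (hcut : ∀ E r D k T, 3 ≤ r → X E r D k T → X (G2.cutE E r) r D k T) (hY : YMassW)
    (hJoin : ∀ (η κ : ℝ) (a m : ℕ), 0 < η → 0 < κ → ∃ k c0 : ℕ, ∀ c u e : ℕ, c0 ≤ c → c ≤ u → k ≤ e →
      ∀ H : ℕ, 2 ^ 13 ≤ H → ∃ Mx sx b0 : ℕ, ∀ j : ℕ, b0 ≤ j → ∃ DD : Finset ℤ, DD.card ≤ Mx ∧ ∀ R : ℕ, 2 ^ (b0 + j) ≤ R →
        ∀ (A Y1 : List Bool) (g : Pt × Pt) (B Y2 : List Bool), ((A ++ Y1, (g, B ++ Y2)) : PT) ∈ GP R j η κ a m c u e k →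
          CutPP j a m η A Y1 g B Y2 →
          ∃ (k' r : ℕ) (D : ℤ) (E : ℕ → Pt), D ∈ DD ∧ k' ≤ j ∧ j ≤ k' + sx ∧ 18 * (H * 2 ^ k') ≤ D ∧ D ≤ 36 * (H * 2 ^ k') ∧
            3 ≤ r ∧ r ≤ Mx ∧ IPg E r ∧ X E r D k' (A, (g, B)))
    (hMass : ∃ H0 : ℕ, 2 ^ 13 ≤ H0 ∧ ∀ H : ℕ, H0 ≤ H → ∀ Mx : ℕ, ∃ (C : ℝ) (k0 : ℕ), 0 < C ∧
      ∀ (k r R : ℕ) (D : ℤ) (E : ℕ → Pt), k0 ≤ k → 2 ^ k ≤ R → 18 * (H * 2 ^ k) ≤ D → D ≤ 36 * (H * 2 ^ k) → 3 ≤ r → r ≤ Mx →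
        IPg E r →
        gp {T | X E r D k T ∧ (∀ s, s ≤ T.1.length → dz T.1 s ≤ R) ∧ ∀ s, s ≤ T.2.2.length → dz T.2.2 s ≤ R} ≤
          ENNReal.ofReal (C * (4 ^ k * Ub k / ml k) * (R : ℝ) ^ (25 / 8 : ℝ))) : GoodP := by
  classical
  intro η κ a m hη hκ
  obtain ⟨k, c0, hJoin⟩ := hJoin η κ a m hη hκ
  refine ⟨k, c0, fun c u e hc hcu hke => ?_⟩
  obtain ⟨H0, hH0, hM⟩ := hMass
  obtain ⟨Mx, sx, b1, hJoin⟩ := hJoin c u e hc hcu hke H0 hH0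
  obtain ⟨C1, k0, hC1, hM⟩ := hM H0 le_rfl Mx
  obtain ⟨C2, hC2, hY⟩ := hY η m 0 hη
  obtain ⟨C3, hC3, hX⟩ := TPC.xUp
  obtain ⟨c4, C4, -, hC4, hU⟩ := TPC.An.Ub_two
  obtain ⟨N, hN⟩ : ∃ N : ℕ, N = (sx + 1) * ((Mx + 1) * (Mx * 6 ^ Mx)) := ⟨_, rfl⟩
  obtain ⟨K0, hK0⟩ : ∃ K0 : ℝ, K0 = (N : ℝ) * (C1 * 4 ^ sx * 16) + 1 := ⟨_, rfl⟩
  have hK1 : (N : ℝ) * (C1 * 4 ^ sx * 16) ≤ K0 := by
    rw [hK0]
    linarith
  have hKp : 0 < K0 := by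
    rw [hK0]
    positivity
  obtain ⟨b0, hb0⟩ : ∃ b0, b0 = b1 + (k0 + sx) + (m + 3) := ⟨_, rfl⟩
  refine ⟨K0 * C2 ^ 2 * C3 * C4 / κ ^ 2, b0, by positivity, fun R j hj hR => ?_⟩
  have hm := G2.m_pos j
  have hUj := G2.U_pos j
  have hR1 : 2 ^ (b1 + j) ≤ R := (Nat.pow_le_pow_right (by norm_num) (by omega)).trans hR
  have hR2 : 2 ^ (m + 3 + j) ≤ R := (Nat.pow_le_pow_right (by norm_num) (by omega)).trans hR
  have hRj : 2 ^ j ≤ R := (Nat.pow_le_pow_right (by norm_num) (by omega)).trans hR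
  have hR3 : 2 ^ j + 6 * 2 ^ (j + m) ≤ R := by
    have e1 : 2 ^ (m + 3 + j) = 8 * 2 ^ (j + m) := by ring
    have e2 : 2 ^ j ≤ 2 ^ (j + m) := Nat.pow_le_pow_right (by norm_num) (by omega)
    omega
  have hR3' : (2 : ℤ) ^ j + 6 * 2 ^ (j + m) ≤ R := by exact_mod_cast hR3
  obtain ⟨DD, hDD, hJoin⟩ := hJoin j (by omega)
  have hJoin := hJoin R hR1
  -- the class of the end parts
  obtain ⟨YY, hYY⟩ : ∃ YY : Set (List Bool), YY = {Y | Y ∈ SA ∧ rev Y ∈ GT j η ∧ In (2 ^ (j + m)) Y} := ⟨_, rfl⟩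
  obtain ⟨y, hy⟩ : ∃ y : List Bool → ℝ≥0∞, y = fun Y => if Y ∈ YY then wE Y else 0 := ⟨_, rfl⟩
  have hys : ∑' Y : List Bool, y Y ≤ ENNReal.ofReal (C2 * Ub j) * Xb j := by
    refine le_trans (le_of_eq ?_) (hY j)
    rw [← hYY, _root_.tsum_subtype YY (fun Y => wE Y * ENNReal.ofReal ((1 + (Y.length : ℝ) / ml j) ^ 0))]
    refine tsum_congr fun Y => ?_
    rw [hy, Set.indicator_apply]
    simp only [pow_zero, ENNReal.ofReal_one, mul_one]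
  obtain ⟨B, hB⟩ : ∃ B, B = (R : ℝ) ^ (25 / 8 : ℝ) := ⟨_, rfl⟩
  have hR0 : (0 : ℝ) < R := by
    have : 0 < R := lt_of_lt_of_le (by positivity) hRj
    exact_mod_cast this
  have hBp : 0 < B := by
    rw [hB]
    positivity
  have hB2 : ((2 * R : ℕ) : ℝ) ^ (25 / 8 : ℝ) ≤ 16 * B := by
    rw [hB]
    push_cast
    rw [Real.mul_rpow (by norm_num) hR0.le]
    have : (2 : ℝ) ^ (25 / 8 : ℝ) ≤ 2 ^ ((4 : ℕ) : ℝ) := Real.rpow_le_rpow_of_exponent_le (by norm_num) (by norm_num)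
    rw [Real.rpow_natCast] at this
    have h2 : (2 : ℝ) ^ 4 = 16 := by norm_num
    rw [h2] at this
    exact mul_le_mul_of_nonneg_right this (by positivity)
  have key : ENNReal.ofReal ((κ * Ub j) ^ 2) * gp (GP R j η κ a m c u e k) ≤
      ENNReal.ofReal (K0 * (4 ^ j * Ub j / ml j) * B) * (∑' Y : List Bool, y Y) ^ 2 := by
    refine dsumP (P := fun T Y1 Y2 => gl T Y1 Y2 ∈ GP R j η κ a m c u e k ∧ CutPP j a m η T.1 Y1 T.2.1 T.2.2 Y2) ?_ ?_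
    · intro T hT
      have hx : 0 < κ * Ub j := mul_pos hκ hUj
      obtain ⟨S1, h1, h2⟩ := cutsP hx hT.2.1.2.1
      obtain ⟨S2, h3, h4⟩ := cutsP hx hT.2.2.1.2.1
      refine ⟨S1, S2, ?_, fun Y1 hY1 Y2 hY2 => ?_⟩
      · have h5 : (κ * Ub j) ^ 2 ≤ ((S1.card * S2.card : ℕ) : ℝ) := by
          push_cast
          rw [pow_two]
          exact mul_le_mul h1 h3 hx.le (Nat.cast_nonneg _)
        refine (ENNReal.ofReal_le_ofReal h5).trans (le_of_eq ?_)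
        rw [ENNReal.ofReal_natCast]
        push_cast
        rfl
      · have h5 := h2 Y1 hY1
        have h6 := h4 Y2 hY2
        obtain ⟨A, hA, -⟩ := h5.2.2
        obtain ⟨B', hB', -⟩ := h6.2.2
        have e1 : T.1 = A ++ Y1 := hA
        have e2 : T.2.2 = B' ++ Y2 := hB'
        have e3 : gl ((A, (T.2.1, B')) : PT) Y1 Y2 = T := by
          show ((A ++ Y1, (T.2.1, B' ++ Y2)) : PT) = T
          rw [← e1, ← e2]
        refine ⟨(A, (T.2.1, B')), e3, ?_, ?_, ?_⟩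
        · rw [e3]
          exact hT
        · show Y1 ∈ NCp j (j - a) (2 ^ (j + m)) η (ob T.2.1 (B' ++ Y2)) (A ++ Y1)
          rw [← e1, ← e2]
          exact h5
        · show Y2 ∈ NCp j (j - a) (2 ^ (j + m)) η (ob (gi T.2.1) (A ++ Y1)) (B' ++ Y2)
          rw [← e1, ← e2]
          exact h6
    · intro Y1 Y2
      by_cases hne : ∃ T : PT, gl T Y1 Y2 ∈ GP R j η κ a m c u e k ∧ CutPP j a m η T.1 Y1 T.2.1 T.2.2 Y2
      · obtain ⟨T0, hT0, hc0⟩ := hne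
        have hY1m : Y1 ∈ YY := by
          rw [hYY]
          exact ⟨TIP.Nf.SA_suf (hT0.1.1 : T0.1 ++ Y1 ∈ SA), hc0.1.1, hc0.1.2.1⟩
        have hY2m : Y2 ∈ YY := by
          rw [hYY]
          exact ⟨TIP.Nf.SA_suf (hT0.1.2.1 : T0.2.2 ++ Y2 ∈ SA), hc0.2.1, hc0.2.2.1⟩
        have hbd : gp {T : PT | gl T Y1 Y2 ∈ GP R j η κ a m c u e k ∧ CutPP j a m η T.1 Y1 T.2.1 T.2.2 Y2} ≤
            ENNReal.ofReal (K0 * (4 ^ j * Ub j / ml j) * B) := by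
          refine (mid_massP (H := H0) (Mx := Mx) (sx := sx) (k0 := k0) hcut hC1 hM (j := j) (by omega) hDD (R := 2 * R)
            (hRj.trans (by omega)) ?_).trans ?_
          · rintro T ⟨hT1, hT2⟩
            have g1 : ∀ s, s ≤ (T.1 ++ Y1).length → dz (T.1 ++ Y1) s ≤ (R : ℤ) + 2 ^ j := hT1.1.2.2.2.2.2.1
            have g2 : ∀ s, s ≤ (T.2.2 ++ Y2).length → dz (T.2.2 ++ Y2) s ≤ (R : ℤ) + 2 ^ j := hT1.1.2.2.2.2.2.2
            refine ⟨⟨fun s hs => ?_, fun s hs => ?_⟩, ?_⟩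
            · have g3 := dz_outer (D := 2 ^ (j + m)) hT2.1.2.1 g1 s hs
              push_cast at g3 ⊢
              linarith
            · have g3 := dz_outer (D := 2 ^ (j + m)) hT2.2.2.1 g2 s hs
              push_cast at g3 ⊢
              linarith
            · obtain ⟨k', r, D, E, hD, c1, c2, c3, c4, c5, c6, c7, c8⟩ := hJoin T.1 Y1 T.2.1 T.2.2 Y2 hT1 hT2
              exact ⟨k', r, D, E, hD, ⟨c1, c2, c3, c4, c5, c6, c7⟩, c8⟩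
          · refine ENNReal.ofReal_le_ofReal ?_
            rw [← hN]
            calc (N : ℝ) * (C1 * (4 ^ sx * (4 ^ j * Ub j / ml j)) * ((2 * R : ℕ) : ℝ) ^ (25 / 8 : ℝ))
                ≤ (N : ℝ) * (C1 * (4 ^ sx * (4 ^ j * Ub j / ml j)) * (16 * B)) := by gcongr
              _ = (N : ℝ) * (C1 * 4 ^ sx * 16) * (4 ^ j * Ub j / ml j) * B := by ring
              _ ≤ K0 * (4 ^ j * Ub j / ml j) * B := by gcongr
        rw [hy]
        simp only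
        rw [if_pos hY1m, if_pos hY2m, mul_comm (ENNReal.ofReal _)]
        exact mul_le_mul_right hbd _
      · have h0 : gp {T : PT | gl T Y1 Y2 ∈ GP R j η κ a m c u e k ∧ CutPP j a m η T.1 Y1 T.2.1 T.2.2 Y2} = 0 := by
          have : {T : PT | gl T Y1 Y2 ∈ GP R j η κ a m c u e k ∧ CutPP j a m η T.1 Y1 T.2.1 T.2.2 Y2} = ∅ := by
            ext T
            simp only [Set.mem_setOf_eq, Set.mem_empty_iff_false, iff_false]
            exact fun h => hne ⟨T, h⟩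
          rw [this, gp_empty]
        rw [h0, mul_zero]
        exact zero_le
  have h2 : ENNReal.ofReal ((κ * Ub j) ^ 2) * gp (GP R j η κ a m c u e k) ≤
      ENNReal.ofReal (K0 * (4 ^ j * Ub j / ml j) * B * ((C2 * Ub j) ^ 2 * (C3 * 2 ^ (25 / 24 * (j : ℝ))))) := by
    refine key.trans ?_
    rw [ENNReal.ofReal_mul (by positivity : (0 : ℝ) ≤ K0 * (4 ^ j * Ub j / ml j) * B)]
    refine mul_le_mul_right ?_ (ENNReal.ofReal (K0 * (4 ^ j * Ub j / ml j) * B))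
    calc (∑' Y : List Bool, y Y) ^ 2 ≤ (ENNReal.ofReal (C2 * Ub j) * Xb j) ^ 2 := pow_le_pow_left' hys 2
      _ = ENNReal.ofReal ((C2 * Ub j) ^ 2) * Xb j ^ 2 := by rw [mul_pow, ENNReal.ofReal_pow (by positivity)]
      _ ≤ ENNReal.ofReal ((C2 * Ub j) ^ 2) * ENNReal.ofReal (C3 * 2 ^ (25 / 24 * (j : ℝ))) := mul_le_mul_right (hX j) _
      _ = _ := by rw [← ENNReal.ofReal_mul (by positivity)]
  have h3 : gp (GP R j η κ a m c u e k) ≤ ENNReal.ofReal (K0 * (4 ^ j * Ub j / ml j) * B * ((C2 * Ub j) ^ 2 *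
      (C3 * 2 ^ (25 / 24 * (j : ℝ)))) / (κ * Ub j) ^ 2) := by
    have hp : 0 < (κ * Ub j) ^ 2 := by positivity
    rw [ENNReal.ofReal_div_of_pos hp, ENNReal.le_div_iff_mul_le (Or.inl (ENNReal.ofReal_pos.2 hp).ne') (Or.inl ENNReal.ofReal_ne_top),
      mul_comm]
    exact h2
  refine h3.trans (ENNReal.ofReal_le_ofReal ?_)
  rw [hB]
  exact numP hC3 hC4 hκ hC2 hKp (fun k => (hU k).2) R j hRj

/-- the joinable pairs depend only on the first directions -/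
lemma JnP_cut {E : ℕ → Pt} {r : ℕ} {D : ℤ} {k : ℕ} {P : Pt} {T : PT} (hr : 3 ≤ r) (h : JnP E r D k P T) :
    JnP (G2.cutE E r) r D k P T := by
  have e : ∀ i, i ≤ r → AR.pv (G2.cutE E r) D i = AR.pv E D i := fun i hi => by
    unfold AR.pv
    rw [G2.cutE_ps hi]
  refine ⟨h.sa, h.sb, h.fr, h.av, ?_, ?_, h.ps1, ?_, ?_, ?_, ?_⟩
  · rw [G2.cutE_lt (by omega)]
    exact h.d0
  · rw [G2.cutE_lt (by omega)]
    exact h.d1
  · rw [e _ le_rfl]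
    exact h.ps2
  · intro p hp j h1 h2
    rw [e _ (by omega), G2.cutE_lt (by omega : j < r)]
    exact h.mid p hp j h1 h2
  · intro p hp
    rw [G2.cutE_lt (by omega : 0 < r)]
    exact h.fst p hp
  · intro p hp
    rw [e _ (by omega), G2.cutE_lt (by omega : r - 1 < r)]
    exact h.lst p hp

end G6

/-- **row P6b** -/
theorem goodP_of (hY : YMassW) (hJ : JoinP) (hM : JMassP) : GoodP :=
  G6.goodX (X := fun E r D k T => ∃ P, JnP E r D k P T) (fun _ _ _ _ _ hr h => by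
      obtain ⟨P, h⟩ := h
      exact ⟨P, G6.JnP_cut hr h⟩) hY
    (fun η κ a m hη hκ => by
      obtain ⟨k, c0, h⟩ := hJ η κ a m hη hκ
      refine ⟨k, c0, fun c u e h1 h2 h3 H hH => ?_⟩
      obtain ⟨Mx, sx, b0, h⟩ := h c u e h1 h2 h3 H hH
      refine ⟨Mx, sx, b0, fun j hj => ?_⟩
      obtain ⟨DD, h4, h⟩ := h j hj
      refine ⟨DD, h4, fun R hR A Y1 g B Y2 h5 h6 => ?_⟩
      obtain ⟨k', r, D, E, P, d1, d2, d3, d4, d5, d6, d7, d8, -, d9⟩ := h R hR A Y1 g B Y2 h5 h6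
      exact ⟨k', r, D, E, d1, d2, d3, d4, d5, by omega, d7, d8, ⟨P, d9⟩⟩) hM

end RMP

end HexObs
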