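import Pool.Agent.RMP.JnV

/-!
# (RM), row P5 (helper39): `JnV` in every position

`JnV` has the second tip at the origin with the direction of arrival `up`. Here a rigid motion `p ↦ mulE c (p - z)` takes the
second tip to `z` and the direction of arrival to `δ`; the path has a base point `P`.
-/

set_option autoImplicit false

namespace HexObs

namespace RMP

open Finset TS SDN SIM NTA TIP TIW ARM

/-- the rigid motion that takes z to the origin -/
def mv (c z p : Pt) : Pt := mulE c (p - z)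

namespace J5

lemma mulE_smul (c : Pt) (n : ℤ) (p : Pt) : mulE c (n • p) = n • mulE c p := by
  simp only [mulE, Prod.smul_fst, Prod.smul_snd, smul_eq_mul, Prod.smul_mk]
  congr 1 <;> ring

lemma mulE_zero (c : Pt) : mulE c 0 = 0 := by
  simp [mulE]

lemma conj_mulE {c : Pt} (hc : c ∈ dirs) (p : Pt) : mulE (conjE c) (mulE c p) = p := by
  rw [mulE_assoc, mulE_comm (conjE c) c, mulE_conjE, mem_dirs.1 hc, mulE_one]

lemma mulE_conj {c : Pt} (hc : c ∈ dirs) (p : Pt) : mulE c (mulE (conjE c) p) = p := by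
  rw [mulE_assoc, mulE_conjE, mem_dirs.1 hc, mulE_one]

lemma conj_dirs {c : Pt} (hc : c ∈ dirs) : conjE c ∈ dirs := by
  rw [mem_dirs, nrm_conjE]
  exact mem_dirs.1 hc

lemma mulE_dirs {c d : Pt} (hc : c ∈ dirs) (hd : d ∈ dirs) : mulE c d ∈ dirs := by
  rw [mem_dirs, nrm_mulE, mem_dirs.1 hc, mem_dirs.1 hd, one_mul]

lemma p5_hn {c : Pt} (hc : c ∈ dirs) (p : Pt) : hn (mulE c p) = hn p := TIW.hn_mulE (mem_dirs.1 hc) p

lemma ip_mulE' {c : Pt} (hc : c ∈ dirs) (p q : Pt) : ip (mulE c p) (mulE c q) = ip p q := by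
  rw [ip_mulE, mem_dirs.1 hc, one_mul]

lemma ps_mulE (c : Pt) (E : ℕ → Pt) (i : ℕ) : AR.ps (fun n => mulE c (E n)) i = mulE c (AR.ps E i) := by
  unfold AR.ps
  induction i with
  | zero => simp [mulE_zero]
  | succ i ih => rw [sum_range_succ, sum_range_succ, ih, mulE_add]

lemma IPg_mulE {c : Pt} (hc : c ∈ dirs) {E : ℕ → Pt} {r : ℕ} (h : IPg E r) : IPg (fun n => mulE c (E n)) r := by
  refine ⟨fun i hi => mulE_dirs hc (h.dir i hi), fun i hi => ?_, fun i j hij hj => ?_⟩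
  · show mulE c (E (i + 1)) = mulE c (E i) ∨ mulE c (E (i + 1)) = rotL (mulE c (E i)) ∨
      mulE c (E (i + 1)) = rotR (mulE c (E i))
    have e1 : rotL (mulE c (E i)) = mulE c (rotL (E i)) := (mulE_turn c true (E i)).symm
    have e2 : rotR (mulE c (E i)) = mulE c (rotR (E i)) := (mulE_turn c false (E i)).symm
    rw [e1, e2]
    rcases h.tur i hi with h1 | h1 | h1
    · exact Or.inl (by rw [h1])
    · exact Or.inr (Or.inl (by rw [h1]))
    · exact Or.inr (Or.inr (by rw [h1]))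
  · rw [ps_mulE, ps_mulE, ← mulE_sub, nrm_mulE, mem_dirs.1 hc, one_mul]
    exact h.ind i j hij hj

lemma NS_mulE {c : Pt} (hc : c ∈ dirs) {q d y : Pt} {D w : ℤ} (z : Pt) :
    AR.NS q (mulE c d) D w (mulE c (y - z)) ↔ AR.NS (z + mulE (conjE c) q) d D w y := by
  unfold AR.NS
  refine exists_congr fun t => and_congr_right fun _ => and_congr_right fun _ => ?_
  have h : mulE c (y - z) - (q + t • mulE c d) = mulE c (y - (z + mulE (conjE c) q + t • d)) := by
    have e : mulE c (y - (z + mulE (conjE c) q + t • d)) = mulE c ((y - z) - mulE (conjE c) q - t • d) := by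
      congr 1
      abel
    rw [e, mulE_sub c (y - z - mulE (conjE c) q), mulE_sub c (y - z), mulE_conj hc, mulE_smul]
    abel
  rw [h, p5_hn hc]

end J5

open J5

/-- **joinable, in every position**: obstacles `V`, from the tip `t` with direction of exit `dt` to the vertex `z` (the exit
vertex of the second word), path with base point `P`; the end is exact -/
structure JnF (E : ℕ → Pt) (r : ℕ) (D : ℤ) (k : ℕ) (V : Set Pt) (t dt z P : Pt) : Prop where
  de : dt = E 0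
  ps1 : hn (t - P) ≤ 2 ^ k
  ps2 : z = P + D • AR.ps E r
  mid : ∀ p ∈ V, ∀ j, 1 ≤ j → j + 1 < r → ¬ AR.NS (P + D • AR.ps E j) (E j) D (2 ^ (k + 12)) p
  fst : ∀ p ∈ V, AR.NS P (E 0) D (2 ^ (k + 12)) p → ip (p - t) (E 0) ≤ 0
  lst : ∀ p ∈ V, p ≠ z → AR.NS (P + D • AR.ps E (r - 1)) (E (r - 1)) D (2 ^ (k + 12)) p →
    0 ≤ ip (p - (z + E (r - 1))) (E (r - 1))

theorem jnF_of_V {E : ℕ → Pt} {r : ℕ} {D : ℤ} {k : ℕ} {V : Set Pt} {t dt z c : Pt} (hc : c ∈ dirs)
    (h1 : E (r - 1) = up)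
    (h : JnV E r D k (mv c z '' V) (mv c z t) (mulE c dt)) :
    JnF (fun n => mulE (conjE c) (E n)) r D k V t dt z (z + mulE (conjE c) (qv E D r 0)) := by
  have hcc := conj_dirs hc
  have key : ∀ j, z + mulE (conjE c) (qv E D r 0) + D • AR.ps (fun n => mulE (conjE c) (E n)) j =
      z + mulE (conjE c) (qv E D r j) := by
    intro j
    unfold qv
    rw [ps_mulE, ← mulE_smul, add_assoc, ← mulE_add]
    congr 2
    have h0 : AR.ps E 0 = 0 := by simp [AR.ps]
    rw [h0, ← smul_add]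
    congr 1
    abel
  refine ⟨?_, ?_, ?_, fun p hp j hj1 hj2 hN => ?_, fun p hp hN => ?_, fun p hp hpz hN => ?_⟩
  · show dt = mulE (conjE c) (E 0)
    rw [← h.de, conj_mulE hc]
  · have e : mv c z t - qv E D r 0 = mulE c (t - (z + mulE (conjE c) (qv E D r 0))) := by
      have e1 : t - (z + mulE (conjE c) (qv E D r 0)) = (t - z) - mulE (conjE c) (qv E D r 0) := by abel
      rw [e1, mulE_sub, mulE_conj hc]
      rfl
    have h2 := h.pos
    rw [e, p5_hn hc] at h2
    exact h2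
  · rw [key]
    unfold qv
    rw [sub_self, smul_zero, mulE_zero, add_zero]
  · refine h.mid _ (Set.mem_image_of_mem _ hp) j hj1 hj2 ?_
    rw [key] at hN
    have h2 := (NS_mulE (y := p) (q := qv E D r j) (d := mulE (conjE c) (E j)) (D := D) (w := 2 ^ (k + 12)) hc z).2 hN
    rw [mulE_conj hc] at h2
    exact h2
  · have h2 : AR.NS (qv E D r 0) (E 0) D (2 ^ (k + 12)) (mv c z p) := by
      have h3 := (NS_mulE (y := p) (q := qv E D r 0) (d := mulE (conjE c) (E 0)) (D := D) (w := 2 ^ (k + 12)) hc z).2 hN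
      rw [mulE_conj hc] at h3
      exact h3
    have h4 := h.fst _ (Set.mem_image_of_mem _ hp) h2
    have e : mv c z p - mv c z t = mulE c (p - t) := by
      unfold mv
      rw [← mulE_sub]
      congr 1
      abel
    show ip (p - t) (mulE (conjE c) (E 0)) ≤ 0
    rw [e, ← mulE_conj hc (E 0), ip_mulE' hc] at h4
    exact h4
  · have h2 : AR.NS (qv E D r (r - 1)) (E (r - 1)) D (2 ^ (k + 12)) (mv c z p) := by
      rw [key] at hN
      have h3 := (NS_mulE (y := p) (q := qv E D r (r - 1)) (d := mulE (conjE c) (E (r - 1))) (D := D) (w := 2 ^ (k + 12))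
        hc z).2 hN
      rw [mulE_conj hc] at h3
      exact h3
    have h4 := h.lst _ (Set.mem_image_of_mem _ hp) (fun h5 => ?_) h2
    · show 0 ≤ ip (p - (z + mulE (conjE c) (E (r - 1)))) (mulE (conjE c) (E (r - 1)))
      rw [← h1] at h4
      have e : mv c z p - E (r - 1) = mulE c (p - (z + mulE (conjE c) (E (r - 1)))) := by
        have e1 : p - (z + mulE (conjE c) (E (r - 1))) = (p - z) - mulE (conjE c) (E (r - 1)) := by abel
        rw [e1, mulE_sub, mulE_conj hc]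
        rfl
      rw [e] at h4
      nth_rewrite 2 [← mulE_conj hc (E (r - 1))] at h4
      rw [ip_mulE' hc] at h4
      exact h4
    · apply hpz
      have h6 : mulE (conjE c) (mulE c (p - z)) = mulE (conjE c) 0 := congrArg _ h5
      rw [conj_mulE hc, mulE_zero] at h6
      exact sub_eq_zero.1 h6

/-- **corridor → path, in every position** -/
theorem jnF_of {a e : ℕ} (m c : ℕ) {H : ℕ} (hae : a + 6 ≤ e) (hH : 2 ^ 13 ≤ H) : ∃ Mx sx b0 : ℕ, ∀ j, b0 ≤ j →
    ∃ DD : Finset ℤ, DD.card ≤ Mx ∧ ∀ (V : Set Pt) (t dt z δ u : Pt), δ ∈ dirs → u ∈ dirs → mulE u δ = up →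
      MidV a m c e j (mv u z '' V) (mv u z t) (mulE u dt) →
      ∃ (k' r : ℕ) (D : ℤ) (E : ℕ → Pt) (P : Pt), D ∈ DD ∧ k' ≤ j ∧ j ≤ k' + sx ∧ 18 * (H * 2 ^ k') ≤ D ∧
        D ≤ 36 * (H * 2 ^ k') ∧ 4 ≤ r ∧ r ≤ Mx ∧ IPg E r ∧ E (r - 1) = δ ∧ E (r - 2) = δ ∧ JnF E r D k' V t dt z P := by
  obtain ⟨Mx, sx, b0, h⟩ := jnV_of m c hae hH
  refine ⟨Mx, sx, b0, fun j hj => ?_⟩
  obtain ⟨DD, hDD, h⟩ := h j hj
  refine ⟨DD, hDD, fun V t dt z δ u hδ hu hup hM => ?_⟩
  obtain ⟨k', r, D, E, h1, h2, h3, h4, h5, h6, h7, h8, h9, h10, h11⟩ := h _ _ _ hM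
  have hd : mulE (conjE u) up = δ := by rw [← hup, conj_mulE hu]
  refine ⟨k', r, D, fun n => mulE (conjE u) (E n), z + mulE (conjE u) (qv E D r 0), h1, h2, h3, h4, h5, h6, h7,
    IPg_mulE (conj_dirs hu) h8, ?_, ?_, jnF_of_V hu h9 h11⟩
  · show mulE (conjE u) (E (r - 1)) = δ
    rw [h9, hd]
  · show mulE (conjE u) (E (r - 2)) = δ
    rw [h10, hd]

end RMP

end HexObs
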