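import Pool.Agent.RMP.Defs
import Pool.Agent.ARM.Mid

/-!
# RMP, row P5 (helper74), one arm: visits of the small balls

* `no_visit` : without extra strands (`ESe`, `ESa`) and with the outer end far away no visit before a far vertex;
* `ArmOk` : what is used of one word of a good pair, with its good cut; `ArmOk.tE`, `.es`, `.n1`.
-/

set_option autoImplicit false

namespace HexObs

namespace RMP

open Finset TS SDN HexObs.SIM NTA TIP TIW ARM

lemma dz_max (L : List Bool) {lo hi : ℕ} (h : lo ≤ hi) : ∃ s, lo ≤ s ∧ s ≤ hi ∧ ∀ s', lo ≤ s' → s' ≤ hi → dz L s' ≤ dz L s := by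
  obtain ⟨s, hs, hm⟩ := Finset.exists_max_image (Finset.Icc lo hi) (fun s => dz L s) ⟨lo, Finset.mem_Icc.2 ⟨le_rfl, h⟩⟩
  rw [Finset.mem_Icc] at hs
  exact ⟨s, hs.1, hs.2, fun s' h1 h2 => hm s' (Finset.mem_Icc.2 ⟨h1, h2⟩)⟩

/-- the level of a positive number -/
lemma level_of {μ : ℤ} (h : 1 ≤ μ) : ∃ i : ℕ, μ ≤ 2 ^ i ∧ (2 : ℤ) ^ i < 2 * μ := by
  classical
  have hex : ∃ i : ℕ, μ ≤ 2 ^ i := by
    refine ⟨μ.toNat, ?_⟩
    have h1 : (μ.toNat : ℤ) = μ := Int.toNat_of_nonneg (by omega)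
    have h2 : ((μ.toNat : ℕ) : ℤ) < 2 ^ μ.toNat := by exact_mod_cast Nat.lt_two_pow_self
    linarith
  refine ⟨Nat.find hex, Nat.find_spec hex, ?_⟩
  rcases Nat.eq_zero_or_pos (Nat.find hex) with h0 | h0
  · rw [h0, pow_zero]
    linarith
  · obtain ⟨i, hi⟩ : ∃ i, Nat.find hex = i + 1 := ⟨Nat.find hex - 1, by omega⟩
    have h1 := Nat.find_min hex (m := i) (by omega)
    push Not at h1
    rw [hi, pow_succ]
    linarith

/-- **no visit of the small ball before a far vertex** -/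
theorem no_visit {L : List Bool} {l I : ℕ} (hE : ∀ i, I ≤ i → L ∉ ESe l i) (hA : ∀ i, I ≤ i → L ∉ ESa l i) {a b : ℕ}
    (hab : a ≤ b) (hb : b ≤ L.length) (h0 : 2 ^ I < 2 * dz L 0) (hb2 : 2 ^ I < 2 * dz L b) (ha : dz L a ≤ 2 ^ (l + 1))
    (ha0 : dz L a < dz L 0) (hab2 : dz L a < dz L b) : False := by
  obtain ⟨t, -, ht2, ht3⟩ := dz_max L (Nat.zero_le a)
  obtain ⟨b', hb1', hb2', hb3'⟩ := dz_max L (hab.trans hb)
  have h1 := ht3 0 le_rfl (Nat.zero_le a)
  have h2 := hb3' b hab hb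
  have hta : t < a := by
    refine lt_of_le_of_ne ht2 fun h => ?_
    rw [h] at h1
    linarith
  have hab' : a < b' := by
    refine lt_of_le_of_ne hb1' fun h => ?_
    rw [← h] at h2
    linarith
  have hμ0 : (1 : ℤ) ≤ min (dz L t) (dz L b') := by
    have : (0 : ℤ) < 2 ^ I := by positivity
    rw [le_min_iff]
    constructor <;> omega
  obtain ⟨i, hi1, hi2⟩ := level_of hμ0
  have hIi : I ≤ i := by
    have h3 : (2 : ℤ) ^ I < 2 ^ (i + 1) := by
      rw [pow_succ]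
      have : (2 : ℤ) ^ I < 2 * min (dz L t) (dz L b') := by
        rcases le_total (dz L t) (dz L b') with h | h
        · rw [min_eq_left h]; linarith
        · rw [min_eq_right h]; linarith
      linarith
    have := (pow_lt_pow_iff_right₀ (by norm_num : (1 : ℤ) < 2)).1 h3
    omega
  have hi2t : (2 : ℤ) ^ i < 2 * dz L t := lt_of_lt_of_le hi2 (by have := min_le_left (dz L t) (dz L b'); linarith)
  have hi2b : (2 : ℤ) ^ i < 2 * dz L b' := lt_of_lt_of_le hi2 (by have := min_le_right (dz L t) (dz L b'); linarith)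
  rcases le_or_gt (dz L b') (2 ^ (i + 2)) with hc | hc
  · exact hE i hIi ⟨t, a, b', hta, hab', hb2', hi2t, ha, hi2b, fun s hs1 hs2 => (hb3' s hs1 hs2).trans hc⟩
  · have p2 : (2 : ℤ) ^ (i + 2) = 4 * 2 ^ i := by ring
    have p1 : (2 : ℤ) ^ (i + 1) = 2 * 2 ^ i := by ring
    have p0 : (0 : ℤ) < 2 ^ i := by positivity
    have hmin : min (dz L t) (dz L b') = dz L t := by
      refine min_eq_left ?_
      by_contra hcon
      push Not at hcon
      rw [min_eq_right hcon.le] at hi1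
      linarith
    rw [hmin] at hi1
    exact hA i hIi ⟨t, a, b', hta, hab', hb2', hi2t, ha, by linarith, fun s hs => (ht3 s (Nat.zero_le s) hs).trans hi1⟩

/-- **one word A ++ Y of a good pair, with its cut** -/
structure ArmOk (j m c u e k : ℕ) (A Y : List Bool) : Prop where
  out : 2 ^ (j + u) < dz (A ++ Y) 0
  es1 : ∀ i, j + c ≤ i + 1 → A ++ Y ∉ ESe (j + m + 4) i
  es2 : ∀ i, j + u ≤ i → A ++ Y ∉ ESe (j + c) i
  ea1 : ∀ i, j + c ≤ i + 1 → A ++ Y ∉ ESa (j + m + 4) i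
  ea2 : ∀ i, j + u ≤ i → A ++ Y ∉ ESa (j + c) i
  nts : A ++ Y ∉ NTs (j + c) (j + u) (2 ^ (j - e)) (2 ^ (j - k))
  inY : In (2 ^ (j + m)) Y
  ne : 1 ≤ Y.length

namespace ArmOk

variable {j m c u e k : ℕ} {A Y : List Bool}

/-- the vertices of Y and the end -/
lemma dY (h : ArmOk j m c u e k A Y) {i : ℕ} (hi : i ≤ Y.length) : dz (A ++ Y) (A.length + i) ≤ 6 * 2 ^ (j + m) := by
  have cE : ((2 ^ (j + m) : ℕ) : ℤ) = 2 ^ (j + m) := by push_cast; rfl
  have e1 : vx oo up (A ++ Y) (A.length + i) - TIW.en (A ++ Y) = mulE (rt A) (vx oo up Y i - TIW.en Y) := by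
    rw [vx_app, mid_en_app, mulE_sub]
    abel
  unfold dz
  rw [e1, hn_mulE (nrm_rt A)]
  have h1 := mid_hn_In h.inY hi
  have h2 := mid_hn_In h.inY (le_refl Y.length)
  have h3 := hn_sub (vx oo up Y i) (TIW.en Y)
  unfold TIW.en at h3
  rw [cE] at h1 h2
  unfold TIW.en
  linarith

/-- the tip of A and the end -/
lemma tip (h : ArmOk j m c u e k A Y) : hn (en A - en (A ++ Y)) ≤ 3 * 2 ^ (j + m) := by
  have cE : ((2 ^ (j + m) : ℕ) : ℤ) = 2 ^ (j + m) := by push_cast; rfl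
  have e1 : en A - en (A ++ Y) = -mulE (rt A) (TIW.en Y) := by
    rw [mid_en_app]
    abel
  rw [e1, hn_neg, hn_mulE (nrm_rt A)]
  have h2 := mid_hn_In h.inY (le_refl Y.length)
  rw [cE] at h2
  exact h2

/-- visits of the ball of radius 2 ^ (j + c) are in the end part -/
lemma tE (h : ArmOk j m c u e k A Y) (hcu : c ≤ u) {t : ℕ} (h1 : t ≤ (A ++ Y).length) (h2 : dz (A ++ Y) t ≤ 2 ^ (j + c)) :
    ARM.tE (A ++ Y) (j + u) t := by
  refine ⟨h1, fun s hs1 hs2 => ?_⟩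
  by_contra hcon
  push Not at hcon
  have q1 : (2 : ℤ) ^ (j + c) ≤ 2 ^ (j + u) := pow_le_pow_right₀ (by norm_num) (by omega)
  have q2 : (0 : ℤ) < 2 ^ (j + u) := by positivity
  have q3 : (2 : ℤ) ^ (j + c) ≤ 2 ^ (j + c + 1) := pow_le_pow_right₀ (by norm_num) (by omega)
  have ho := h.out
  exact no_visit h.es2 h.ea2 hs1 hs2 (by linarith) (by linarith) (by linarith) (by linarith) (by linarith)

/-- no extra strand -/
lemma es (h : ArmOk j m c u e k A Y) (hmc : m + 8 ≤ c) (hcu : c ≤ u) {i k' : ℕ} (hk : k' ≤ i) (hi : i ≤ (A ++ Y).length)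
    (h1 : 2 ^ (j + c - 1) + 2 ^ (j + 2) < 2 * dz (A ++ Y) i)
    (h2 : dz (A ++ Y) k' + 2 ^ (j + 1) ≤ 2 ^ (j + m + 4 + 1)) : False := by
  have q1 : (2 : ℤ) ^ (j + c - 1) * 2 = 2 ^ (j + c) := by
    rw [← pow_succ]
    congr 1
    omega
  have q2 : (2 : ℤ) ^ (j + c) ≤ 2 ^ (j + u) := pow_le_pow_right₀ (by norm_num) (by omega)
  have q3 : (2 : ℤ) ^ (j + m + 4 + 1) * 4 ≤ 2 ^ (j + c - 1) := by
    have : (2 : ℤ) ^ (j + m + 4 + 1 + 2) ≤ 2 ^ (j + c - 1) := pow_le_pow_right₀ (by norm_num) (by omega)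
    rw [pow_add _ _ 2] at this
    linarith
  have q4 : (0 : ℤ) < 2 ^ (j + 1) := by positivity
  have q5 : (0 : ℤ) < 2 ^ (j + 2) := by positivity
  have q6 : (0 : ℤ) < 2 ^ (j + m + 4 + 1) := by positivity
  have ho := h.out
  exact no_visit (I := j + c - 1) (fun i hi => h.es1 i (by omega)) (fun i hi => h.ea1 i (by omega)) hk hi (by linarith)
    (by linarith) (by linarith) (by linarith) (by linarith)

/-- self touches -/
lemma n1 (h : ArmOk j m c u e k A Y) (hcu : c ≤ u) {i i' : ℕ} (hii : i ≤ i') (hi' : i' ≤ (A ++ Y).length)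
    (d1 : dz (A ++ Y) i ≤ 2 ^ (j + c)) (d2 : dz (A ++ Y) i' ≤ 2 ^ (j + c))
    (hd : hn (vx oo up (A ++ Y) i - vx oo up (A ++ Y) i') ≤ 2 ^ (j - e)) {s : ℕ} (hs1 : i ≤ s) (hs2 : s ≤ i') :
    hn (vx oo up (A ++ Y) i - vx oo up (A ++ Y) s) < 2 ^ (j - k) := by
  by_contra hcon
  push Not at hcon
  exact h.nts ⟨i, i', hii, hi', d1, d2, hd, Or.inl ⟨Or.inl (h.tE hcu (by omega) d1), s, hs1, hs2, hcon⟩⟩

end ArmOk

/-- the part behind a good cut is not empty -/
lemma ne_of_gt {j : ℕ} {η : ℝ} (hη : 0 < η) {Y : List Bool} (h : rev Y ∈ GT j η) : 1 ≤ Y.length := by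
  classical
  have h1 : 0 < ((cs j (rev Y)).card : ℝ) := lt_of_lt_of_le (mul_pos hη (Ub_pos j)) h
  have h2 : 0 < (cs j (rev Y)).card := by exact_mod_cast h1
  obtain ⟨t, ht⟩ := Finset.card_pos.1 h2
  unfold cs at ht
  rw [mem_filter, mem_range] at ht
  obtain ⟨ht1, -, -, A, B, hA, hB, hB2⟩ := ht
  by_contra hcon
  have h0 : (rev Y).length = 0 := by rw [rev_length]; omega
  have h3 : B = [] := by
    have h4 : ((rev Y).take t).length = 0 := by rw [List.length_take]; omega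
    rw [hA, List.length_append] at h4
    exact List.length_eq_zero_iff.1 (by omega)
  have h5 : hgt B = 0 := by
    rw [h3]
    exact TIP.hgt_nil
  rw [h5] at hB2
  have : 0 < 2 ^ j := by positivity
  omega

/-- the free half ball, hexagonal distance -/
lemma freeO_front {r : ℕ} {E : Set Pt} {A : List Bool} (h : FreeO r E A) {p : Pt} (hp : p ∈ E)
    (h1 : 0 < ip (p - en A) (de A)) : (r : ℤ) ≤ hn (p - en A) := by
  have h2 := h p hp h1
  have h3 := coord_of_hn (p - en A)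
  by_contra hcon
  apply h2
  have e1 : (p - en A).1 = p.1 - (tipv A).1 := rfl
  have e2 : (p - en A).2 = p.2 - (tipv A).2 := rfl
  rw [e1, e2] at h3
  have h0 := abs_nonneg (p.1 - (tipv A).1)
  have h0' := abs_nonneg (p.2 - (tipv A).2)
  show |p.1 - (tipv A).1| ≤ r ∧ |p.2 - (tipv A).2| ≤ r
  constructor <;> omega

end RMP

end HexObs
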