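import Pool.Agent.RMP.Defs
import Pool.Agent.RMP.MidA
import Pool.Agent.RMP.JnF

/-!
# (RM), row P5 (helper39): from the corridor to joinable pairs

* `MidPS`: the target of the corridor row (helper74);
* `jf_of`: the fields of a joinable pair, base point `P`, exact end at the exit vertex of the second word, width 2 ^ (k + 12).
-/

set_option autoImplicit false

namespace HexObs

namespace RMP

open Finset TS SDN HexObs.SIM NTA TIP ARM TIW

/-- the exit vertex of the placed word -/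
def pz (g : Pt × Pt) (B : List Bool) : Pt := pe g B + pd g B

/-- the obstacles of a pair, with the exit vertex of the second word -/
def VV (A : List Bool) (g : Pt × Pt) (B : List Bool) : Set Pt := insert (pz g B) (vo A ∪ ob g B)

/-- **row P5, corridor** (helper74) -/
def MidPS : Prop := ∀ (η κ : ℝ) (a m : ℕ), 0 < η → 0 < κ → ∃ k c0 : ℕ, a + 6 ≤ k ∧ ∀ c u e : ℕ, c0 ≤ c → c ≤ u → k ≤ e →
  ∃ b0 : ℕ, ∀ j : ℕ, b0 ≤ j → ∀ R : ℕ, 2 ^ (b0 + j) ≤ R →
    ∀ (A Y1 : List Bool) (g : Pt × Pt) (B Y2 : List Bool), ((A ++ Y1, (g, B ++ Y2)) : PT) ∈ GP R j η κ a m c u e k →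
      CutPP j a m η A Y1 g B Y2 → ∀ v, v ∈ dirs → mulE v (-(pd g B)) = up →
      MidV a m c e j (mv v (pz g B) '' VV A g B) (mv v (pz g B) (TIW.en A)) (mulE v (TIW.de A))

namespace J5

lemma NS_mono {c d y : Pt} {D w w' : ℤ} (h : w ≤ w') (h1 : AR.NS c d D w y) : AR.NS c d D w' y := by
  obtain ⟨t, h2, h3, h4⟩ := h1
  exact ⟨t, h2, h3, h4.trans h⟩

lemma pd_dirs {g : Pt × Pt} (hg : Fr g) (B : List Bool) : pd g B ∈ dirs :=
  mulE_dirs hg.1 (dx_mem upd' _ _)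

lemma neg_dirs {d : Pt} (hd : d ∈ dirs) : -d ∈ dirs := by
  rw [mem_dirs] at hd ⊢
  rw [← hd]
  simp only [nrm, Prod.fst_neg, Prod.snd_neg]
  ring

/-- a rotation takes a direction to `up` -/
lemma exists_rot {δ : Pt} (hδ : δ ∈ dirs) : ∃ v, v ∈ dirs ∧ mulE v δ = up := by
  refine ⟨mulE (conjE δ) up, mulE_dirs (conj_dirs hδ) upd', ?_⟩
  rw [mulE_comm (conjE δ) up, ← mulE_assoc, mulE_comm (conjE δ) δ, mulE_conjE, mem_dirs.1 hδ, mulE_comm, mulE_one]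

/-- a vertex of the placed word -/
lemma pv_mem {g : Pt × Pt} {B : List Bool} {t : ℕ} (ht : t ≤ B.length) : pv g B t ∈ ob g B := ⟨t, ht, rfl⟩

/-- the vertex number |B| + 1 of B ++ Y is the exit vertex of B -/
lemma pz_eq {g : Pt × Pt} {B Y : List Bool} : pv g (B ++ Y) (B.length + 1) = pz g B := by
  unfold pz pe pd pv
  rw [vx_app, vx_one, add_assoc, ← mulE_add]
  congr 2
  rw [rt_up]
  rfl

/-- the exit vertex of B is not a vertex of the pair -/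
lemma pz_not {A Y1 : List Bool} {g : Pt × Pt} {B Y2 : List Bool} (hg : Fr g) (hY : 1 ≤ Y2.length) (hB : B ++ Y2 ∈ SA)
    (hav : Av (ob g (B ++ Y2)) (A ++ Y1)) : pz g B ∉ vo A ∪ ob g B := by
  rintro (⟨t, ht, h⟩ | ⟨t, ht, h⟩)
  · refine hav t (by rw [List.length_append]; omega) ?_
    rw [vx_append (by omega), ← h, ← pz_eq (Y := Y2)]
    exact pv_mem (by rw [List.length_append]; omega)
  · rw [← pz_eq (Y := Y2)] at h
    have h1 : pv g B t = pv g (B ++ Y2) t := by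
      unfold pv
      rw [vx_append (by omega)]
    rw [h1] at h
    unfold pv at h
    have h2 := mulE_inj (mem_dirs.1 hg.1) (add_left_cancel h)
    have hl : (B ++ Y2).length = B.length + Y2.length := List.length_append
    have h3 := hB.inj t (B.length + 1) (by omega) (by omega) h2.symm
    omega

end J5

open J5

/-- **joinable outer pairs, base point P** (width 2 ^ (k + 12), exact end at the exit vertex of the second word) -/
structure JpF (E : ℕ → Pt) (r : ℕ) (D : ℤ) (k : ℕ) (P : Pt) (A : List Bool) (g : Pt × Pt) (B : List Bool) : Prop where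
  d0 : TIW.de A = E 0
  d1 : pd g B = -E (r - 1)
  ps1 : TIW.hn (TIW.en A - P) ≤ 2 ^ k
  ps2 : pz g B = P + AR.pv E D r
  mid : ∀ p, p ∈ vo A ∪ ob g B → ∀ j, 1 ≤ j → j + 1 < r → ¬ AR.NS (P + AR.pv E D j) (E j) D (2 ^ (k + 12)) p
  fst : ∀ p, p ∈ vo A ∪ ob g B → AR.NS P (E 0) D (2 ^ (k + 12)) p → ip (p - TIW.en A) (E 0) ≤ 0
  lst : ∀ p, p ∈ vo A ∪ ob g B → AR.NS (P + AR.pv E D (r - 1)) (E (r - 1)) D (2 ^ (k + 12)) p →
    0 ≤ ip (p - pe g B) (E (r - 1))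

/-- the corridor of a pair gives a path -/
theorem jpF_of {a e : ℕ} (m c : ℕ) {H : ℕ} (hae : a + 6 ≤ e) (hH : 2 ^ 13 ≤ H) : ∃ Mx sx b0 : ℕ, ∀ j, b0 ≤ j →
    ∃ DD : Finset ℤ, DD.card ≤ Mx ∧ ∀ (A : List Bool) (g : Pt × Pt) (B : List Bool), Fr g → pz g B ∉ vo A ∪ ob g B →
      (∀ v, v ∈ dirs → mulE v (-(pd g B)) = up →
        MidV a m c e j (mv v (pz g B) '' VV A g B) (mv v (pz g B) (TIW.en A)) (mulE v (TIW.de A))) →
      ∃ (k' r : ℕ) (D : ℤ) (E : ℕ → Pt) (P : Pt), D ∈ DD ∧ k' ≤ j ∧ j ≤ k' + sx ∧ 18 * (H * 2 ^ k') ≤ D ∧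
        D ≤ 36 * (H * 2 ^ k') ∧ 4 ≤ r ∧ r ≤ Mx ∧ IPg E r ∧ E (r - 2) = E (r - 1) ∧ JpF E r D k' P A g B := by
  obtain ⟨Mx, sx, b0, h⟩ := jnF_of m c hae hH
  refine ⟨Mx, sx, b0, fun j hj => ?_⟩
  obtain ⟨DD, hDD, h⟩ := h j hj
  refine ⟨DD, hDD, fun A g B hg hz hM => ?_⟩
  have hδ : -(pd g B) ∈ dirs := neg_dirs (pd_dirs hg B)
  obtain ⟨v, hv, hv1⟩ := exists_rot hδ
  obtain ⟨k', r, D, E, P, h1, h2, h3, h4, h5, h6, h7, h8, h9, h10, h11⟩ := h _ _ _ _ _ _ hδ hv hv1 (hM v hv hv1)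
  refine ⟨k', r, D, E, P, h1, h2, h3, h4, h5, h6, h7, h8, by rw [h10, h9], ?_⟩
  refine ⟨h11.de, by rw [h9, neg_neg], h11.ps1, h11.ps2, fun p hp j hj1 hj2 => h11.mid p (Set.mem_insert_of_mem _ hp) j hj1 hj2,
    fun p hp => h11.fst p (Set.mem_insert_of_mem _ hp), fun p hp hN => ?_⟩
  have h12 := h11.lst p (Set.mem_insert_of_mem _ hp) (fun h => hz (h ▸ hp)) hN
  have e1 : pz g B + E (r - 1) = pe g B := by
    rw [h9]
    unfold pz
    abel
  rw [e1] at h12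
  exact h12

/-- 87's form -/
lemma JpF.jnP {E : ℕ → Pt} {r : ℕ} {D : ℤ} {k : ℕ} {P : Pt} {A : List Bool} {g : Pt × Pt} {B : List Bool}
    (h : JpF E r D k P A g B) (hA : A ∈ SA) (hB : B ∈ SA) (hg : Fr g) (hav : Av (ob g B) A) : JnP E r D k P (A, (g, B)) := by
  have hw : (2 : ℤ) ^ (k + 11) ≤ 2 ^ (k + 12) := pow_le_pow_right₀ (by norm_num) (by omega)
  refine ⟨hA, hB, hg, hav, h.d0, h.d1, h.ps1, ?_, fun p hp j h1 h2 hN => h.mid p hp j h1 h2 (NS_mono hw hN),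
    fun p hp hN => h.fst p hp (NS_mono hw hN), fun p hp hN => h.lst p hp (NS_mono hw hN)⟩
  show TIW.hn (pe g B - (P + AR.pv E D r)) ≤ 2 ^ k + 2
  have e : pe g B - (P + AR.pv E D r) = -(pd g B) := by
    rw [← h.ps2]
    unfold pz
    abel
  rw [e, hn_step (neg_dirs (pd_dirs hg B))]
  have : (0 : ℤ) < 2 ^ k := by positivity
  linarith

/-- **the corridor row gives row P5** -/
theorem joinP_of (h : MidPS) : JoinP := by
  intro η κ a m hη hκ
  obtain ⟨k, c0, hak, h⟩ := h η κ a m hη hκ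
  refine ⟨k, c0, fun c u e hc hcu hke H hH => ?_⟩
  obtain ⟨b1, h⟩ := h c u e hc hcu hke
  obtain ⟨Mx, sx, b0, h1⟩ := jpF_of (a := a) (e := e) m c (by omega) hH
  refine ⟨Mx, sx, b0 + b1, fun j hj => ?_⟩
  obtain ⟨DD, hDD, h1⟩ := h1 j (by omega)
  refine ⟨DD, hDD, fun R hR A Y1 g B Y2 hG hC => ?_⟩
  obtain ⟨hSA, hSB, hg, hav, -⟩ := hG.1
  have hY : 1 ≤ Y2.length := RMP.ne_of_gt hη hC.2.1
  have hav' : Av (ob g B) A := by
    rintro t ht ⟨s, hs, h3⟩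
    refine hav t ?_ ⟨s, ?_, ?_⟩
    · show t ≤ (A ++ Y1).length
      rw [List.length_append]
      omega
    · show s ≤ (B ++ Y2).length
      rw [List.length_append]
      omega
    · show vx oo up (A ++ Y1) t = pv g (B ++ Y2) s
      rw [vx_append (by omega), h3]
      unfold pv
      rw [vx_append (by omega)]
  obtain ⟨k', r, D, E, P, d1, d2, d3, d4, d5, d6, d7, d8, d9, d10⟩ := h1 A g B hg (pz_not hg hY hSB hav)
    (h j (by omega) R ((Nat.pow_le_pow_right (by norm_num) (by omega)).trans hR) A Y1 g B Y2 hG hC)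
  exact ⟨k', r, D, E, P, d1, d2, d3, d4, d5, d6, d7, d8, d9, d10.jnP (pre_SA hSA) (pre_SA hSB) hg hav'⟩

end RMP

end HexObs
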