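import Pool.Agent.RMP.K3PA
import Pool.Agent.ARM2.TubeF

/-!
# (RM), row K3 for pairs, part B (helper39): the mass of the fillings

* `fill_mass`: the tube words of a joinable pair with a number of letters in `[ml k, 3 ml k]`;
* `fill_sum`: the sum over (Q, mark u < |Q|, letter x).
-/

set_option autoImplicit false

namespace HexObs

namespace RMP

namespace K3P

open Finset TS SDN HexObs.SIM NTA TIP ARM ARM.G3 G4

open scoped ENNReal

/-- **the mass of the fillings** -/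
theorem fill_mass : ∃ H0 : ℕ, 2 ^ 13 ≤ H0 ∧ ∀ H : ℕ, H0 ≤ H → ∀ Mx : ℕ, ∃ (c : ℝ) (k0 : ℕ), 0 < c ∧
    ∀ (k r : ℕ) (D : ℤ) (E : ℕ → Pt) (P : Pt) (A : List Bool) (g : Pt × Pt) (B : List Bool), k0 ≤ k →
      18 * (H * 2 ^ k) ≤ D → D ≤ 36 * (H * 2 ^ k) → 3 ≤ r → r ≤ Mx → IPg E r → JnP E r D k P (A, (g, B)) →
      ENNReal.ofReal (c * (Ub k / 4 ^ k)) ≤ gf (QQ2 E r D k ⌈ml k⌉₊ ⌊3 * ml k⌋₊ A (pe g B + pd g B)) := by
  obtain ⟨H0, hH0, hT⟩ := AR.tubeSt 1 3 (by norm_num) (by norm_num)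
  refine ⟨H0, hH0, fun H hH Mx => ?_⟩
  obtain ⟨c, k0, hc, hT⟩ := hT H hH Mx
  refine ⟨c / 4, max k0 3, by positivity, fun k r D E P A g B hk hD1 hD2 hr hr' hE hJ => ?_⟩
  have hk0 : k0 ≤ k := (le_max_left _ _).trans hk
  have hk3 : 3 ≤ k := (le_max_right _ _).trans hk
  have hm4 : 4 ≤ ml k := by
    unfold ml
    have h1 : (4 : ℝ) = (2 : ℝ) ^ (2 : ℝ) := by norm_num
    rw [h1]
    refine Real.rpow_le_rpow_of_exponent_le (by norm_num) ?_
    have h2 : (3 : ℝ) ≤ k := by exact_mod_cast hk3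
    linarith
  have hD0 : 0 ≤ D := le_trans (by positivity) hD1
  have h0 : 2 * TIW.hn (0 : Pt) ≤ 2 ^ k := by
    have h1 : TIW.hn (0 : Pt) = 0 := by decide
    rw [h1]
    positivity
  exact tube_mass2 hc hT hk0 hD1 hD2 (by omega) hr' hE (jn_pp hk3 (by omega) hD0 hE hJ h0) hm4

lemma wE_app (Q R : List Bool) : wE (Q ++ R) = wE Q * wE R := by
  unfold wE
  rw [← ENNReal.ofReal_mul (pow_nonneg xc_pos.le _), ← pow_add, List.length_append]

/-- **the sum over the marks and the last letter** -/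
theorem fill_sum {S : Set (List Bool)} [DecidablePred (· ∈ S)] {q : ℕ} (hq : ∀ Q ∈ S, q ≤ Q.length)
    {F : List Bool × ℕ × Bool → ℝ≥0∞}
    (hF : ∀ Q ∈ S, ∀ u, u < Q.length → ∀ b, wE (Q ++ [b]) ≤ F (Q, u, b)) :
    ((q : ℕ) : ℝ≥0∞) * (gf S * (2 * wE [true])) ≤ ∑' φ : List Bool × ℕ × Bool, F φ := by
  classical
  rw [ENNReal.tsum_prod']
  have h1 : gf S = ∑' Q : List Bool, if Q ∈ S then wE Q else 0 := by
    unfold gf
    rw [tsum_subtype S wE]
    exact tsum_congr fun Q => by rw [Set.indicator_apply]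
  rw [h1, ← ENNReal.tsum_mul_right, ← ENNReal.tsum_mul_left]
  refine ENNReal.tsum_le_tsum fun Q => ?_
  by_cases h : Q ∈ S
  · rw [if_pos h]
    calc ((q : ℕ) : ℝ≥0∞) * (wE Q * (2 * wE [true])) ≤ ((Q.length : ℕ) : ℝ≥0∞) * (wE Q * (2 * wE [true])) :=
          mul_le_mul' (by exact_mod_cast hq Q h) le_rfl
      _ = ∑ p ∈ range Q.length ×ˢ (Finset.univ : Finset Bool), wE (Q ++ [p.2]) := by
          have e : ∀ p : ℕ × Bool, wE (Q ++ [p.2]) = wE Q * wE [true] := fun p => by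
            rw [wE_app]
            rfl
          rw [sum_congr rfl fun p _ => e p, sum_const, card_product, card_range, nsmul_eq_mul]
          push_cast
          have e2 : (Fintype.card Bool : ℝ≥0∞) = 2 := by norm_num
          rw [card_univ, e2]
          ring
      _ ≤ ∑ p ∈ range Q.length ×ˢ (Finset.univ : Finset Bool), F (Q, p) := sum_le_sum fun p hp => by
          rw [mem_product, mem_range] at hp
          exact hF Q h p.1 hp.1 p.2
      _ ≤ ∑' p : ℕ × Bool, F (Q, p) := ENNReal.sum_le_tsum _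
  · rw [if_neg h, zero_mul, mul_zero]
    exact zero_le

end K3P

end RMP

end HexObs
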