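import Pool.Agent.RMP.KDefs
import Pool.Agent.RMP.K3PB
import Pool.Agent.TPC.AnO

/-!
# (RM), row K3 for pairs (helper39)

* `k3pR`, **`k3p`**: lower bound of the weight `gF` of the fillings of a joinable pair;
* **`jo_sa`**: the joined words are self-avoiding; `fil_near`: the fillings stay near the tip.
-/

set_option autoImplicit false

namespace HexObs

namespace RMP

open Finset TS SDN HexObs.SIM NTA TIP ARM ARM.G3 TIW K3P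

open scoped ENNReal

/-- the tube words of the canonical path with `ml k` to `3 * ml k` letters -/
def Fi0 (P : Par) (T : PT) : Set (List Bool) :=
  G4.QQ2 (fE T (pth P T).E) (pth P T).r (pth P T).D (pth P T).k ⌈ml (pth P T).k⌉₊ ⌊3 * ml (pth P T).k⌋₊ T.1
    (pe T.2.1 T.2.2 + pd T.2.1 T.2.2)

namespace K3P

lemma Ub_up (s : ℕ) : ∃ C : ℝ, 0 < C ∧ ∀ k j : ℕ, j ≤ k + s → Ub j ≤ C * Ub k := by
  obtain ⟨c, C, hc, hC, h⟩ := TPC.An.Ub_two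
  refine ⟨C * 2 ^ (3 / 4 * (s : ℝ)) / c, by positivity, fun k j hj => ?_⟩
  have h1 : (2 : ℝ) ^ (3 / 4 * (j : ℝ)) ≤ 2 ^ (3 / 4 * (s : ℝ)) * 2 ^ (3 / 4 * (k : ℝ)) := by
    rw [← Real.rpow_add (by norm_num)]
    refine Real.rpow_le_rpow_of_exponent_le (by norm_num) ?_
    have h2 : (j : ℝ) ≤ k + s := by exact_mod_cast hj
    linarith
  have h3 := (h j).2
  have h4 := (h k).1
  have hs : (0 : ℝ) < 2 ^ (3 / 4 * (s : ℝ)) := by positivity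
  calc Ub j ≤ C * 2 ^ (3 / 4 * (j : ℝ)) := h3
    _ ≤ C * (2 ^ (3 / 4 * (s : ℝ)) * 2 ^ (3 / 4 * (k : ℝ))) := mul_le_mul_of_nonneg_left h1 hC.le
    _ = C * 2 ^ (3 / 4 * (s : ℝ)) / c * (c * 2 ^ (3 / 4 * (k : ℝ))) := by
        field_simp
    _ ≤ _ := mul_le_mul_of_nonneg_left h4 (by positivity)

lemma ml_up {s k j : ℕ} (h : j ≤ k + s) : ml j ≤ 2 ^ ((4 / 3 : ℝ) * (s : ℝ)) * ml k := by
  unfold ml
  rw [← Real.rpow_add (by norm_num)]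
  refine Real.rpow_le_rpow_of_exponent_le (by norm_num) ?_
  have h2 : (j : ℝ) ≤ k + s := by exact_mod_cast h
  linarith

lemma ml_le {k j : ℕ} (h : k ≤ j) : ml k ≤ ml j := by
  unfold ml
  refine Real.rpow_le_rpow_of_exponent_le (by norm_num) ?_
  have h2 : (k : ℝ) ≤ j := by exact_mod_cast h
  linarith

end K3P

/-- the lengths of the fillings of `Fi0` -/
lemma fi0_len {P : Par} {T : PT} (h : Jbl P T) (ha : P.a0 ≤ (2 ^ ((4 / 3 : ℝ) * (P.sx : ℝ)))⁻¹) (hA : 3 ≤ P.A)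
    {Q : List Bool} (hQ : Q ∈ Fi0 P T) : P.a0 * ml P.j ≤ Q.length ∧ (Q.length : ℝ) ≤ P.A * ml P.j := by
  obtain ⟨-, h1, h2⟩ := hQ
  have hok := (pth_ok h).1
  have hmj := ml_pos P.j
  have hmk := ml_pos (pth P T).k
  have h3 : ml (pth P T).k ≤ Q.length := Nat.ceil_le.1 h1
  have h4 : (Q.length : ℝ) ≤ 3 * ml (pth P T).k := (Nat.le_floor_iff (by positivity)).1 h2
  have h5 := K3P.ml_up (s := P.sx) hok.jk
  have h6 := K3P.ml_le hok.kj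
  have hs : (0 : ℝ) < 2 ^ ((4 / 3 : ℝ) * (P.sx : ℝ)) := by positivity
  constructor
  · refine le_trans ?_ h3
    calc P.a0 * ml P.j ≤ (2 ^ ((4 / 3 : ℝ) * (P.sx : ℝ)))⁻¹ * ml P.j := mul_le_mul_of_nonneg_right ha hmj.le
      _ ≤ (2 ^ ((4 / 3 : ℝ) * (P.sx : ℝ)))⁻¹ * (2 ^ ((4 / 3 : ℝ) * (P.sx : ℝ)) * ml (pth P T).k) :=
          mul_le_mul_of_nonneg_left h5 (by positivity)
      _ = _ := by field_simp
  · nlinarith

/-- the fillings of `Fi0` with the property `R` are fillings -/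
lemma fi0_fil {P : Par} {T : PT} (h : Jbl P T) (ha : P.a0 ≤ (2 ^ ((4 / 3 : ℝ) * (P.sx : ℝ)))⁻¹) (hA : 3 ≤ P.A)
    {Q : List Bool} (hQ : Q ∈ Fi0 P T) (hR : P.R Q) : Q ∈ Fil P T :=
  ⟨tubeQ_iff.2 hQ.1, (fi0_len h ha hA hQ).1, (fi0_len h ha hA hQ).2, hR⟩

/-- **row K3 for pairs**, general `R`: the fillings without `R` have at most half of the mass -/
theorem k3pR : ∃ H0 : ℕ, 2 ^ 13 ≤ H0 ∧ ∀ H : ℕ, H0 ≤ H → ∀ Mx sx : ℕ, ∃ (c1 c : ℝ) (b0 : ℕ), 0 < c1 ∧ 0 < c ∧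
    ∀ P : Par, P.H = H → P.Mx = Mx → P.sx = sx → P.a0 ≤ (2 ^ ((4 / 3 : ℝ) * (sx : ℝ)))⁻¹ → 3 ≤ P.A → b0 ≤ P.j →
      ∀ T, Jbl P T →
        gf {Q | Q ∈ Fi0 P T ∧ ¬ P.R Q} ≤ ENNReal.ofReal (c1 * (Ub (pth P T).k / 4 ^ (pth P T).k)) →
        ENNReal.ofReal (c * (Ub P.j / 4 ^ P.j * ml P.j)) ≤ gF P T := by
  classical
  obtain ⟨H0, hH0, h⟩ := fill_mass
  refine ⟨H0, hH0, fun H hH Mx sx => ?_⟩
  obtain ⟨c0, k0, hc0, h⟩ := h H hH Mx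
  obtain ⟨C, hC, hU⟩ := K3P.Ub_up sx
  have hx : 0 < xc := xc_pos
  refine ⟨c0 / 2, c0 / 2 * (C⁻¹ * (2 ^ ((4 / 3 : ℝ) * (sx : ℝ)))⁻¹) * (2 * xc), k0 + sx, by positivity, by positivity,
    fun P hPH hPM hPs ha hA hj T hT hR => ?_⟩
  subst hPH
  subst hPM
  subst hPs
  have hok := (pth_ok hT).1
  have hJ := (pth_ok hT).2
  set k := (pth P T).k with hk
  have hkk : k0 ≤ k := by
    have := hok.jk
    omega
  have h1 : ENNReal.ofReal (c0 * (Ub k / 4 ^ k)) ≤ gf (Fi0 P T) :=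
    h k (pth P T).r (pth P T).D (fE T (pth P T).E) (fP T (pth P T).P) T.1 T.2.1 T.2.2 hkk hok.D1 hok.D2
      (le_trans (by norm_num) hok.r4) hok.rM (ipg_rot hok.ip (TIW.nrm_rt T.1)) hJ
  have hUk : 0 < Ub k := Num2Aux.UU_pos _
  have hUj : 0 < Ub P.j := Num2Aux.UU_pos _
  -- the fillings with R
  have h2 : gf (Fi0 P T) ≤ gf {Q | Q ∈ Fi0 P T ∧ P.R Q} + gf {Q | Q ∈ Fi0 P T ∧ ¬ P.R Q} := by
    have e : Fi0 P T ⊆ {Q | Q ∈ Fi0 P T ∧ P.R Q} ∪ {Q | Q ∈ Fi0 P T ∧ ¬ P.R Q} := fun Q hQ => by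
      by_cases hR' : P.R Q
      · exact Or.inl ⟨hQ, hR'⟩
      · exact Or.inr ⟨hQ, hR'⟩
    refine (ENNReal.tsum_mono_subtype wE e).trans ?_
    exact ENNReal.tsum_union_le wE _ _
  have h3 : ENNReal.ofReal (c0 / 2 * (Ub k / 4 ^ k)) ≤ gf {Q | Q ∈ Fi0 P T ∧ P.R Q} := by
    have h4 : ENNReal.ofReal (c0 / 2 * (Ub k / 4 ^ k)) + ENNReal.ofReal (c0 / 2 * (Ub k / 4 ^ k)) ≤
        gf {Q | Q ∈ Fi0 P T ∧ P.R Q} + ENNReal.ofReal (c0 / 2 * (Ub k / 4 ^ k)) := by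
      rw [← ENNReal.ofReal_add (by positivity) (by positivity)]
      refine le_trans (le_of_eq ?_) (h1.trans (h2.trans (add_le_add le_rfl hR)))
      congr 1
      ring
    exact (ENNReal.add_le_add_iff_right ENNReal.ofReal_ne_top).1 h4
  -- the sum
  have h5 := fill_sum (S := {Q | Q ∈ Fi0 P T ∧ P.R Q}) (q := ⌈ml k⌉₊) (fun Q hQ => hQ.1.2.1)
    (F := fun φ => if (dat P).fil T φ then (dat P).wQ φ else 0) (fun Q hQ u hu b => by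
      have hf : (dat P).fil T (Q, u, b) := ⟨fi0_fil hT ha hA hQ.1 hQ.2, hu⟩
      show wE (Q ++ [b]) ≤ if (dat P).fil T (Q, u, b) then (dat P).wQ (Q, u, b) else 0
      rw [if_pos hf]
      exact le_rfl)
  refine le_trans ?_ (h5.trans (le_of_eq ?_))
  · have e1 : wE [true] = ENNReal.ofReal xc := by
      unfold wE
      rw [List.length_singleton, pow_one]
    have e2 : (2 : ℝ≥0∞) = ENNReal.ofReal 2 := by norm_num
    rw [e1, e2, ← ENNReal.ofReal_mul (by norm_num)]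
    have hq : ENNReal.ofReal (ml k) ≤ ((⌈ml k⌉₊ : ℕ) : ℝ≥0∞) := by
      rw [← ENNReal.ofReal_natCast]
      exact ENNReal.ofReal_le_ofReal (Nat.le_ceil _)
    refine le_trans ?_ (mul_le_mul' hq (mul_le_mul' h3 le_rfl))
    have hmk := ml_pos k
    rw [← ENNReal.ofReal_mul (by positivity), ← ENNReal.ofReal_mul hmk.le]
    refine ENNReal.ofReal_le_ofReal ?_
    have h6 := hU k P.j hok.jk
    have h7 := K3P.ml_up (s := P.sx) hok.jk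
    have h8 : (4 : ℝ) ^ k ≤ 4 ^ P.j := pow_le_pow_right₀ (by norm_num) hok.kj
    have hs : (0 : ℝ) < 2 ^ ((4 / 3 : ℝ) * (P.sx : ℝ)) := by positivity
    have h9 : C⁻¹ * (Ub P.j / 4 ^ P.j) ≤ Ub k / 4 ^ k := by
      calc C⁻¹ * (Ub P.j / 4 ^ P.j) ≤ C⁻¹ * (C * Ub k / 4 ^ P.j) := by gcongr
        _ = Ub k / 4 ^ P.j := by field_simp
        _ ≤ Ub k / 4 ^ k := by gcongr
    have h10 : (2 ^ ((4 / 3 : ℝ) * (P.sx : ℝ)))⁻¹ * ml P.j ≤ ml k := by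
      calc (2 ^ ((4 / 3 : ℝ) * (P.sx : ℝ)))⁻¹ * ml P.j ≤
            (2 ^ ((4 / 3 : ℝ) * (P.sx : ℝ)))⁻¹ * (2 ^ ((4 / 3 : ℝ) * (P.sx : ℝ)) * ml k) :=
            mul_le_mul_of_nonneg_left h7 (by positivity)
        _ = ml k := by field_simp
    have hmj := ml_pos P.j
    have h11 : 0 ≤ C⁻¹ * (Ub P.j / 4 ^ P.j) := by positivity
    have h12 : 0 ≤ (2 ^ ((4 / 3 : ℝ) * (P.sx : ℝ)))⁻¹ * ml P.j := by positivity
    have h13 := mul_le_mul h9 h10 h12 (by positivity)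
    calc c0 / 2 * (C⁻¹ * (2 ^ ((4 / 3 : ℝ) * (P.sx : ℝ)))⁻¹) * (2 * xc) * (Ub P.j / 4 ^ P.j * ml P.j) =
          c0 / 2 * (2 * xc) * (C⁻¹ * (Ub P.j / 4 ^ P.j) * ((2 ^ ((4 / 3 : ℝ) * (P.sx : ℝ)))⁻¹ * ml P.j)) := by ring
      _ ≤ c0 / 2 * (2 * xc) * (Ub k / 4 ^ k * ml k) := mul_le_mul_of_nonneg_left h13 (by positivity)
      _ = _ := by ring
  · rfl

/-- **row K3 for pairs** -/
theorem k3p : ∃ H0 : ℕ, 2 ^ 13 ≤ H0 ∧ ∀ H : ℕ, H0 ≤ H → ∀ Mx sx : ℕ, ∃ (c : ℝ) (b0 : ℕ), 0 < c ∧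
    ∀ P : Par, P.H = H → P.Mx = Mx → P.sx = sx → P.a0 ≤ (2 ^ ((4 / 3 : ℝ) * (sx : ℝ)))⁻¹ → 3 ≤ P.A → b0 ≤ P.j →
      ∀ T, Jbl P T → (∀ Q ∈ Fi0 P T, P.R Q) → ENNReal.ofReal (c * (Ub P.j / 4 ^ P.j * ml P.j)) ≤ gF P T := by
  obtain ⟨H0, hH0, h⟩ := k3pR
  refine ⟨H0, hH0, fun H hH Mx sx => ?_⟩
  obtain ⟨c1, c, b0, hc1, hc, h⟩ := h H hH Mx sx
  refine ⟨c, b0, hc, fun P h1 h2 h3 h4 h5 h6 T hT hR => h P h1 h2 h3 h4 h5 h6 T hT ?_⟩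
  have e : {Q | Q ∈ Fi0 P T ∧ ¬ P.R Q} = ∅ := by
    ext Q
    simp only [Set.mem_ofPred_eq, Set.mem_empty_iff_false, iff_false, not_and, not_not]
    exact hR Q
  rw [e]
  have e2 : gf (∅ : Set (List Bool)) = 0 := by
    unfold gf
    simp
  rw [e2]
  exact zero_le

/-- **the joined words are self-avoiding** -/
theorem jo_sa {P : Par} (hH : 2 ^ 13 ≤ P.H) (hj : P.sx + 3 ≤ P.j) {T : PT} (hT : Jbl P T) {Q : List Bool}
    (hQ : Q ∈ Fil P T) (u : ℕ) (x : Bool) : (jo T (Q, u, x)).1 ∈ SA := by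
  have hok := (pth_ok hT).1
  have hJ := (pth_ok hT).2
  have hk3 : 3 ≤ (pth P T).k := by
    have := hok.jk
    omega
  have hD : (2 : ℤ) ^ ((pth P T).k + 12) ≤ (pth P T).D := by
    refine le_trans ?_ hok.D1
    have h1 : (2 : ℤ) ^ 13 ≤ P.H := by exact_mod_cast hH
    have h2 : (0 : ℤ) < 2 ^ (pth P T).k := by positivity
    have h3 : (2 : ℤ) ^ ((pth P T).k + 12) = 2 ^ 12 * 2 ^ (pth P T).k := by ring
    rw [h3]
    nlinarith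
  exact sa_plug hk3 (le_trans (by norm_num) hok.r4) hD (ipg_rot hok.ip (TIW.nrm_rt T.1)) hJ (tubeQ_iff.1 hQ.1) x

/-- **the fillings stay near the tip** -/
theorem fil_near {P : Par} {T : PT} (hT : Jbl P T) {Q : List Bool} (hQ : Q ∈ Fil P T) {i : ℕ} (hi : i ≤ Q.length) :
    TIW.hn (vx oo up Q i) ≤ (2048 + 72 * P.H * P.Mx : ℕ) * 2 ^ P.j := by
  have hok := (pth_ok hT).1
  have hJ := (pth_ok hT).2
  have hD0 : 0 ≤ (pth P T).D := le_trans (by positivity) hok.D1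
  have hp0 : (0 : ℤ) < 2 ^ (pth P T).k := by positivity
  have h1 : TIW.hn (TIW.en T.1 - fP T (pth P T).P) ≤ 2 ^ ((pth P T).k + 1) := by
    refine hJ.ps1.trans ?_
    rw [pow_succ]
    linarith
  have h2 := TW_near (ipg_rot hok.ip (TIW.nrm_rt T.1)) hD0 h1 (tubeQ_iff.1 hQ.1) hi
  have e1 : G4.vq T.1 Q i - TIW.en T.1 = mulE (TIW.rt T.1) (vx oo up Q i) := by
    unfold G4.vq
    rw [add_sub_cancel_left]
  rw [e1, TIW.hn_mulE (TIW.nrm_rt T.1)] at h2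
  refine h2.trans ?_
  have h3 : (2 : ℤ) ^ (pth P T).k ≤ 2 ^ P.j := pow_le_pow_right₀ (by norm_num) hok.kj
  have h4 : ((pth P T).r : ℤ) ≤ P.Mx := by exact_mod_cast hok.rM
  have h5 := hok.D2
  have h6 : (2 : ℤ) ^ ((pth P T).k + 11) = 2048 * 2 ^ (pth P T).k := by ring
  rw [h6]
  have h7 : 2 * (pth P T).D * (pth P T).r ≤ 2 * (36 * (P.H * 2 ^ (pth P T).k)) * P.Mx := by
    have h8 : (0 : ℤ) ≤ (pth P T).r := by positivity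
    have h9 : (0 : ℤ) ≤ 36 * ((P.H : ℤ) * 2 ^ (pth P T).k) := by positivity
    calc 2 * (pth P T).D * (pth P T).r ≤ 2 * (36 * (P.H * 2 ^ (pth P T).k)) * (pth P T).r := by
          refine mul_le_mul_of_nonneg_right ?_ h8
          linarith
      _ ≤ _ := mul_le_mul_of_nonneg_left h4 (by linarith)
  have h8 : (0 : ℤ) ≤ 72 * P.H * P.Mx := by positivity
  push_cast
  nlinarith

/-- **row K3 for pairs, the form of helper90** -/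
theorem k3pF : ∃ H0 : ℕ, 2 ^ 13 ≤ H0 ∧ ∀ H : ℕ, H0 ≤ H → ∀ Mx sx : ℕ, ∃ (a0 A c C : ℝ) (b0 : ℕ), 0 < a0 ∧ 0 < A ∧ 0 < c ∧
    0 < C ∧ ∀ P : Par, P.H = H → P.Mx = Mx → P.sx = sx → P.a0 = a0 → P.A = A → (∀ Q, P.R Q) → b0 ≤ P.j →
      ∀ T, Jbl P T → ENNReal.ofReal (c * (ml P.j * Ub P.j / 4 ^ P.j)) ≤ gF P T ∧
        ∀ q : List Bool × ℕ × Bool, q.1 ∈ Fil P T → (jo T q).1 ∈ SA ∧
          ∀ i, i ≤ q.1.length → (TIW.hn (vx oo up q.1 i) : ℝ) ≤ C * 2 ^ P.j := by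
  obtain ⟨H0, hH0, h⟩ := k3p
  refine ⟨H0, hH0, fun H hH Mx sx => ?_⟩
  obtain ⟨c, b0, hc, h⟩ := h H hH Mx sx
  refine ⟨(2 ^ ((4 / 3 : ℝ) * (sx : ℝ)))⁻¹, 3, c, (2048 + 72 * H * Mx : ℕ), b0 + sx + 3, by positivity, by norm_num, hc,
    by positivity, fun P h1 h2 h3 h4 h5 h6 hj T hT => ⟨?_, fun q hq => ⟨?_, fun i hi => ?_⟩⟩⟩
  · have h7 := h P h1 h2 h3 h4.le h5.ge (by omega) T hT fun Q _ => h6 Q
    have e : c * (ml P.j * Ub P.j / 4 ^ P.j) = c * (Ub P.j / 4 ^ P.j * ml P.j) := by ring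
    rw [e]
    exact h7
  · exact jo_sa (by rw [h1]; exact hH0.trans hH) (by omega) hT hq q.2.1 q.2.2
  · have h7 := fil_near hT hq hi
    rw [h1, h2] at h7
    have h8 : ((TIW.hn (vx oo up q.1 i) : ℤ) : ℝ) ≤ (((2048 + 72 * H * Mx : ℕ) * 2 ^ P.j : ℤ) : ℝ) := by exact_mod_cast h7
    refine h8.trans (le_of_eq ?_)
    push_cast
    ring

end RMP

end HexObs
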