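import Pool.Agent.RMP.PlPM

/-!
# (RM), row K3 for pairs, part A (helper39): the closed word

* `jn_ppx`: 87's placed pair with the reversed second word and one more letter (so the root of the second word is a vertex);
* `sa_plug`: `A ++ (Q ++ (rev B ++ [b]))` is self-avoiding for every tube word Q of a joinable pair;
* `TW_near`: the vertices of the tube are near the tip of A.
-/

set_option autoImplicit false

namespace HexObs

namespace RMP

namespace K3P

open Finset TS SDN HexObs.SIM NTA TIP ARM ARM.G3 G4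

open scoped ENNReal

variable {E : ℕ → Pt} {r : ℕ} {D : ℤ} {k : ℕ} {P s : Pt} {M Q R : List Bool}

lemma hn_smul_le {t : ℤ} (ht : 0 ≤ t) (p : Pt) : TIW.hn (t • p) ≤ t * TIW.hn p := by
  refine TIW.hn_le fun d hd => ?_
  have h1 : ip (t • p) d = t * ip p d := by
    simp only [ip, Prod.smul_fst, Prod.smul_snd, smul_eq_mul]
    ring
  rw [h1]
  exact mul_le_mul_of_nonneg_left (TIW.ip_le_hn p hd) ht

/-- **joinable pairs with the root of the second word** (87's `jn_pp` for the reversed word with one more letter) -/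
theorem jn_ppx {g : Pt × Pt} {A B : List Bool} {x : Pt} (b : Bool) (hk : 3 ≤ k) (hr : 1 ≤ r) (hD : 0 ≤ D) (hE : IPg E r)
    (h : JnP E r D k P (A, (g, B))) (hx : 2 * TIW.hn x ≤ 2 ^ k) :
    PP E r D k (P + x) A (pe g B + pd g B) (rev B ++ [b]) := by
  have hdE : -(pd g B) = E (r - 1) := by
    have h1 : pd g B = -E (r - 1) := h.d1
    rw [h1, neg_neg]
  have hEd : E (r - 1) ∈ dirs := hE.dir _ (by omega)
  have hdd : pd g B ∈ dirs := by
    have h1 := TIW.upd'
    rw [← neg_neg (pd g B), hdE]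
    exact neg_mem_dirs hEd
  have hd2 : TIW.hn (pd g B) ≤ 2 := by
    have key : ∀ d ∈ dirs, TIW.hn d ≤ 2 := by decide
    exact key _ hdd
  have p8 : (8 : ℤ) ≤ 2 ^ k := by
    have : (2 : ℤ) ^ 3 ≤ 2 ^ k := pow_le_pow_right₀ (by norm_num) hk
    linarith
  have p1 : (2 : ℤ) ^ (k + 1) = 2 * 2 ^ k := by ring
  have p10 : (2 : ℤ) ^ (k + 10) = 1024 * 2 ^ k := by ring
  have p11 : (2 : ℤ) ^ (k + 11) = 2048 * 2 ^ k := by ring
  have hx0 := TIW.hn_nonneg x
  have h1 : TIW.hn (TIW.en A - P) ≤ 2 ^ k := h.ps1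
  have h2 : TIW.hn (pe g B - (P + AR.pv E D r)) ≤ 2 ^ k + 2 := h.ps2
  -- the segments
  have hseg : ∀ {j : ℕ} {p q : Pt}, TIW.hn (p - q) ≤ 2 → NP E D (P + x) k j p →
      AR.NS (P + AR.pv E D j) (E j) D (2 ^ (k + 11)) q := by
    intro j p q hpq hn
    refine (NS_shift (v := 2 ^ k + 2) (a' := P + AR.pv E D j) (y' := q) hn ?_).mono (by linarith)
    have e1 : q - (P + AR.pv E D j) - (p - (P + x + AR.pv E D j)) = x - (p - q) := by abel
    rw [e1]
    have := TIW.hn_sub x (p - q)
    linarith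
  have hself : ∀ p : Pt, TIW.hn (p - p) ≤ 2 := by
    intro p
    rw [sub_self]
    decide
  -- the vertices
  have hvo : ∀ i, i ≤ A.length → vx oo up A i ∈ vo A ∪ ob g B := fun i hi => Or.inl ⟨i, hi, rfl⟩
  have hrl' := rev_length B
  have hrl : (rev B ++ [b]).length = B.length + 1 := by
    rw [List.length_append, hrl']
    rfl
  have hvr : ∀ i, i ≤ (rev B ++ [b]).length →
      vx (pe g B + pd g B) (E (r - 1)) (rev B ++ [b]) i = pv g B (B.length + 1 - i) := by
    intro i hi
    rw [← hdE, vx_append (by omega)]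
    exact vx_revB g B (by omega)
  have hou : ∀ p, Ou A (rev B ++ [b]) (pe g B + pd g B) (E (r - 1)) 1 p → p ∈ vo A ∪ ob g B := by
    rintro p (⟨i, hi, rfl⟩ | ⟨i, hi1, hi2, rfl⟩)
    · exact hvo i hi
    · rw [hvr i hi2]
      exact Or.inr ⟨B.length + 1 - i, by omega, rfl⟩
  have hlst : ∀ p, p ∈ vo A ∪ ob g B → NP E D (P + x) k (r - 1) p → 0 < ip (p - (pe g B + pd g B)) (E (r - 1)) := by
    intro p hp hn
    have h3 : 0 ≤ ip (p - pe g B) (E (r - 1)) := h.lst p hp (hseg (hself p) hn)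
    have h4 : p - (pe g B + pd g B) = (p - pe g B) + E (r - 1) := by
      rw [← hdE]
      abel
    rw [h4, ip_add_left]
    have h5 : 0 < ip (E (r - 1)) (E (r - 1)) := by
      have key : ∀ d ∈ dirs, 0 < ip d d := by decide
      exact key _ hEd
    linarith
  -- the end of the path
  have hps2 : TIW.hn (pe g B + pd g B - (P + x + AR.pv E D r)) ≤ 2 ^ (k + 1) := by
    have e1 : pe g B + pd g B - (P + x + AR.pv E D r) = (pe g B - (P + AR.pv E D r)) + (pd g B - x) := by abel
    rw [e1, p1]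
    have h3 := TIW.hn_add (pe g B - (P + AR.pv E D r)) (pd g B - x)
    have h4 := TIW.hn_sub (pd g B) x
    linarith
  refine ⟨h.sa, ?_, ?_, h.d0, ?_, hps2, ?_, ?_, ?_, fun p hp hn => hlst p (hou p hp) hn⟩
  · -- the reversed word is self-avoiding
    refine sa_frame hEd (v := pe g B + pd g B) fun i j hij hj he => ?_
    rw [hvr i (by omega), hvr j hj] at he
    rcases Nat.eq_zero_or_pos i with h0 | h0
    · rw [h0, Nat.sub_zero] at he
      have h3 : pv g B (B.length + 1) = pe g B + pd g B := by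
        have := vx_revB g B (i := 0) (by omega)
        rw [Nat.sub_zero] at this
        rw [← this]
        rfl
      rw [h3] at he
      have h4 : pe g B + pd g B ∈ vo A ∪ ob g B := by
        rw [he]
        exact Or.inr ⟨_, by omega, rfl⟩
      have h5 := hlst _ h4 (near_lst hD hr (hps2.trans (by rw [p1, p10]; linarith)))
      rw [sub_self] at h5
      have h6 : ip (0 : Pt) (E (r - 1)) = 0 := by simp [ip]
      rw [h6] at h5
      exact lt_irrefl _ h5
    · have hg : nrm g.2 = 1 := mem_dirs.1 h.fr.1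
      unfold pv at he
      have h3 := mulE_inj hg (add_left_cancel he)
      exact h.sb.inj (B.length + 1 - j) (B.length + 1 - i) (by omega) (show B.length + 1 - i ≤ B.length by omega) h3.symm
  · have := cl_fr h.fr B
    rw [hdE] at this
    exact this
  · have e1 : TIW.en A - (P + x) = (TIW.en A - P) - x := by abel
    rw [e1, p1]
    have := TIW.hn_sub (TIW.en A - P) x
    linarith
  · intro i hi j hj1 hj2 he
    rw [hvr j hj2] at he
    exact h.av i hi ⟨B.length + 1 - j, show B.length + 1 - j ≤ B.length by omega, he⟩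
  · intro p hp j hj hj' hn
    rcases hp with ⟨i, hi, rfl⟩ | ⟨i, -, hi2, rfl⟩
    · exact h.mid _ (hvo i hi) j hj hj' (hseg (hself _) hn)
    · rcases Nat.eq_zero_or_pos i with h0 | h0
      · rw [h0] at hn
        have h3 : pe g B ∈ vo A ∪ ob g B := Or.inr ⟨B.length, le_rfl, rfl⟩
        refine h.mid _ h3 j hj hj' (hseg ?_ hn)
        show TIW.hn (pe g B + pd g B - pe g B) ≤ 2
        rw [add_sub_cancel_left]
        exact hd2
      · exact h.mid _ (hou _ (Or.inr ⟨i, h0, hi2, rfl⟩)) j hj hj' (hseg (hself _) hn)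
  · intro p hp hn
    refine h.fst p (hou p hp) ?_
    have h3 := hseg (hself p) hn
    rw [pv_zero, add_zero] at h3
    exact h3


/-- **the plugged word is self-avoiding** -/
theorem sa_plug {g : Pt × Pt} {A B : List Bool} (hk : 3 ≤ k) (hr : 3 ≤ r) (hD : 2 ^ (k + 12) ≤ D) (hE : IPg E r)
    (h : JnP E r D k P (A, (g, B))) (hQ : TW E r D k A (pe g B + pd g B) Q) (b : Bool) :
    A ++ (Q ++ (rev B ++ [b])) ∈ SA := by
  have hD0 : 0 ≤ D := le_trans (by positivity) hD
  have h0 : 2 * TIW.hn (0 : Pt) ≤ 2 ^ k := by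
    have h1 : TIW.hn (0 : Pt) = 0 := by decide
    rw [h1]
    positivity
  exact sa_of hE hr hD (jn_ppx b hk (by omega) hD0 hE h h0) hQ

lemma hn_ps (hE : IPg E r) {j : ℕ} (hj : j ≤ r) : TIW.hn (AR.ps E j) ≤ 2 * j := by
  induction j with
  | zero =>
    have h1 : TIW.hn (0 : Pt) = 0 := by decide
    rw [ps_zero, h1]
    simp
  | succ j ih =>
    have h1 := ih (by omega)
    have h2 : TIW.hn (E j) ≤ 2 := by
      have key : ∀ d ∈ dirs, TIW.hn d ≤ 2 := by decide
      exact key _ (hE.dir j (by omega))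
    have h3 : AR.ps E (j + 1) = AR.ps E j + E j := by
      unfold AR.ps
      rw [sum_range_succ]
    rw [h3]
    have h4 := TIW.hn_add (AR.ps E j) (E j)
    push_cast
    linarith

/-- a point near the path is near its start -/
lemma NP_near (hE : IPg E r) (hD : 0 ≤ D) {j : ℕ} (hj : j < r) {p : Pt} (h : NP E D P k j p) :
    TIW.hn (p - P) ≤ 2 ^ (k + 10) + 2 * D * r := by
  obtain ⟨t, h1, h2, h3⟩ := h
  have e1 : p - P = (p - (P + AR.pv E D j + t • E j)) + (D • AR.ps E j + t • E j) := by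
    unfold AR.pv
    abel
  have h4 := TIW.hn_add (p - (P + AR.pv E D j + t • E j)) (D • AR.ps E j + t • E j)
  have h5 := TIW.hn_add (D • AR.ps E j) (t • E j)
  have h6 : TIW.hn (D • AR.ps E j) ≤ D * (2 * j) := by
    exact (hn_smul_le hD _).trans (mul_le_mul_of_nonneg_left (hn_ps hE hj.le) hD)
  have h7 : TIW.hn (t • E j) ≤ D * 2 := by
    have h8 : TIW.hn (E j) ≤ 2 := by
      have key : ∀ d ∈ dirs, TIW.hn d ≤ 2 := by decide
      exact key _ (hE.dir j hj)
    have h9 := TIW.hn_nonneg (E j)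
    have h10 := hn_smul_le h1 (E j)
    nlinarith
  have h8 : (j : ℤ) + 1 ≤ r := by exact_mod_cast hj
  rw [e1]
  nlinarith

/-- **the tube is near the tip of A** -/
theorem TW_near (hE : IPg E r) (hD : 0 ≤ D) (hP : TIW.hn (TIW.en M - P) ≤ 2 ^ (k + 1)) (hQ : TW E r D k M s Q) {i : ℕ}
    (hi : i ≤ Q.length) : TIW.hn (vq M Q i - TIW.en M) ≤ 2 ^ (k + 11) + 2 * D * r := by
  obtain ⟨j, hj, h1⟩ := hQ.rgA hP hi
  have h2 := NP_near hE hD hj h1
  have e1 : vq M Q i - TIW.en M = (vq M Q i - P) - (TIW.en M - P) := by abel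
  have h3 := TIW.hn_sub (vq M Q i - P) (TIW.en M - P)
  rw [← e1] at h3
  have p1 : (2 : ℤ) ^ (k + 10) + 2 ^ (k + 1) ≤ 2 ^ (k + 11) := by
    have e1 : (2 : ℤ) ^ (k + 11) = 2 * 2 ^ (k + 10) := by ring
    have e2 : (2 : ℤ) ^ (k + 1) ≤ 2 ^ (k + 10) := pow_le_pow_right₀ (by norm_num) (by omega)
    linarith
  linarith

end K3P

end RMP

end HexObs
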