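import Mathlib.Topology.Algebra.InfiniteSum.ENNReal
import Mathlib.Tactic

/-!
# A transport between two weighted sets through common outer parts, abstract form (helper51)

An open object is an outer part `M` with a tip `t`, a closed object is an outer part with a filling `Q`. The transport chooses
one of the `N L` admissible decompositions of the open object `L` and a filling with the weights `wQ`.

* `row_le`, `row` : the sum over the closed objects,
* `col` : the sum over the open objects is `wK K * DD K` with the density `DD K` = the sum over the decompositions of `K` of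
  (weight of the tips of `M`) / (weight of the fillings of `M`).
-/

set_option autoImplicit false

namespace Pool.Agent.NuG

open scoped ENNReal Classical

/-- the data -/
structure Dat (Λ κ μ τ φ : Type*) where
  /-- admissible decompositions of the open objects -/
  adm : μ → τ → Prop
  /-- the open object -/
  op : μ → τ → Λ
  /-- good open objects -/
  good : Λ → Prop
  /-- the fillings -/
  fil : μ → φ → Prop
  /-- the closed object -/
  cl : μ → φ → κ
  /-- weights -/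
  wM : μ → ℝ≥0∞
  wT : τ → ℝ≥0∞
  wQ : φ → ℝ≥0∞
  wL : Λ → ℝ≥0∞

variable {Λ κ μ τ φ : Type*} (D : Dat Λ κ μ τ φ)

/-- the decompositions of `L` -/
def Dat.dec (L : Λ) : Set (μ × τ) := {p | D.adm p.1 p.2 ∧ D.op p.1 p.2 = L}

/-- their number -/
noncomputable def Dat.N (L : Λ) : ℕ := (D.dec L).ncard

/-- the weight of the fillings -/
noncomputable def Dat.gF (M : μ) : ℝ≥0∞ := ∑' Q : φ, if D.fil M Q then D.wQ Q else 0

/-- the weight of the tips -/
noncomputable def Dat.th (M : μ) : ℝ≥0∞ :=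
  ∑' t : τ, if D.adm M t ∧ D.good (D.op M t) then D.wT t / (D.N (D.op M t) : ℝ≥0∞) else 0

/-- the density -/
noncomputable def Dat.DD (K : κ) : ℝ≥0∞ := ∑' p : μ × φ, if D.fil p.1 p.2 ∧ D.cl p.1 p.2 = K then D.th p.1 / D.gF p.1 else 0

/-- the weight of a choice -/
noncomputable def Dat.W (c : μ × τ × φ) : ℝ≥0∞ :=
  if D.adm c.1 c.2.1 ∧ D.good (D.op c.1 c.2.1) ∧ D.fil c.1 c.2.2 then
    D.wL (D.op c.1 c.2.1) / (D.N (D.op c.1 c.2.1) : ℝ≥0∞) * (D.wQ c.2.2 / D.gF c.1) else 0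

/-- **the transport** -/
noncomputable def Dat.nu (L : Λ) (K : κ) : ℝ≥0∞ :=
  ∑' c : μ × τ × φ, if D.op c.1 c.2.1 = L ∧ D.cl c.1 c.2.2 = K then D.W c else 0

lemma Dat.nu_bad {L : Λ} (h : ¬ D.good L) (K : κ) : D.nu L K = 0 := by
  unfold Dat.nu
  rw [ENNReal.tsum_eq_zero]
  intro c
  by_cases hc : D.op c.1 c.2.1 = L ∧ D.cl c.1 c.2.2 = K
  · rw [if_pos hc]
    unfold Dat.W
    rw [if_neg]
    rintro ⟨-, h2, -⟩
    exact h (hc.1 ▸ h2)
  · rw [if_neg hc]

/-- a sum over `K` of an indicator of `f c = K` -/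
lemma sum_ind {β : Type*} (b : β) (P : Prop) (x : ℝ≥0∞) : ∑' K : β, (if P ∧ b = K then x else 0) = if P then x else 0 := by
  rw [tsum_eq_single b fun K hK => if_neg fun h => hK h.2.symm]
  by_cases h : P
  · rw [if_pos ⟨h, rfl⟩, if_pos h]
  · rw [if_neg fun h2 => h h2.1, if_neg h]

lemma sum_ind' {β : Type*} (b : β) (P : Prop) (x : ℝ≥0∞) : ∑' K : β, (if b = K ∧ P then x else 0) = if P then x else 0 := by
  rw [← sum_ind b P x]
  exact tsum_congr fun K => if_congr and_comm rfl rfl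

lemma Dat.nu_row_eq (L : Λ) : ∑' K : κ, D.nu L K = ∑' c : μ × τ × φ, if D.op c.1 c.2.1 = L then D.W c else 0 := by
  unfold Dat.nu
  rw [ENNReal.tsum_comm]
  exact tsum_congr fun c => sum_ind _ _ _

lemma Dat.nu_col_eq (K : κ) : ∑' L : Λ, D.nu L K = ∑' c : μ × τ × φ, if D.cl c.1 c.2.2 = K then D.W c else 0 := by
  unfold Dat.nu
  rw [ENNReal.tsum_comm]
  exact tsum_congr fun c => sum_ind' _ _ _

/-- the sum over the choices of `L` -/
lemma Dat.row_sum (L : Λ) : (∑' c : μ × τ × φ, if D.op c.1 c.2.1 = L then D.W c else 0) =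
    if D.good L then D.wL L / (D.N L : ℝ≥0∞) * ∑' p : D.dec L, (D.gF (p : μ × τ).1 / D.gF (p : μ × τ).1) else 0 := by
  have e0 : (∑' c : μ × τ × φ, if D.op c.1 c.2.1 = L then D.W c else 0) =
      ∑' p : μ × τ, ∑' Q : φ, if D.op p.1 p.2 = L then D.W (p.1, p.2, Q) else 0 := by
    rw [ENNReal.tsum_prod', ENNReal.tsum_prod']
    refine tsum_congr fun M => ?_
    rw [ENNReal.tsum_prod']
  rw [e0]
  by_cases hg : D.good L
  · rw [if_pos hg, tsum_subtype (D.dec L) (fun p => D.gF p.1 / D.gF p.1), ← ENNReal.tsum_mul_left]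
    refine tsum_congr fun p => ?_
    by_cases hp : p ∈ D.dec L
    · rw [Set.indicator_of_mem hp]
      obtain ⟨h1, h2⟩ := hp
      simp only [if_pos h2]
      have e1 : ∀ Q : φ, D.W (p.1, p.2, Q) = D.wL L / (D.N L : ℝ≥0∞) * ((if D.fil p.1 Q then D.wQ Q else 0) / D.gF p.1) := by
        intro Q
        unfold Dat.W
        simp only [h2]
        by_cases h3 : D.fil p.1 Q
        · rw [if_pos ⟨h1, hg, h3⟩, if_pos h3]
        · rw [if_neg fun h => h3 h.2.2, if_neg h3, ENNReal.zero_div, mul_zero]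
      rw [tsum_congr e1, ENNReal.tsum_mul_left]
      congr 1
      simp only [div_eq_mul_inv]
      rw [ENNReal.tsum_mul_right]
      rfl
    · rw [Set.indicator_of_notMem hp, mul_zero, ENNReal.tsum_eq_zero]
      intro Q
      by_cases h2 : D.op p.1 p.2 = L
      · rw [if_pos h2]
        unfold Dat.W
        rw [if_neg]
        rintro ⟨h3, -⟩
        exact hp ⟨h3, h2⟩
      · rw [if_neg h2]
  · rw [if_neg hg, ENNReal.tsum_eq_zero]
    intro p
    rw [ENNReal.tsum_eq_zero]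
    intro Q
    by_cases h2 : D.op p.1 p.2 = L
    · rw [if_pos h2]
      unfold Dat.W
      rw [if_neg]
      rintro ⟨-, h3, -⟩
      exact hg (h2 ▸ h3)
    · rw [if_neg h2]

lemma sum_one {α : Type*} (A : Set α) (hA : A.Finite) : ∑' _ : A, (1 : ℝ≥0∞) = (A.ncard : ℝ≥0∞) := by
  have := hA.fintype
  rw [tsum_fintype, Finset.sum_const, nsmul_eq_mul, mul_one, Finset.card_univ, Set.ncard_eq_toFinset_card' A, Set.toFinset_card]

/-- **the sum over the closed objects**, upper bound -/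
theorem Dat.row_le {L : Λ} (hf : (D.dec L).Finite) : ∑' K : κ, D.nu L K ≤ D.wL L := by
  rw [D.nu_row_eq, D.row_sum]
  split_ifs with hg
  · have h1 : ∑' p : D.dec L, (D.gF (p : μ × τ).1 / D.gF (p : μ × τ).1) ≤ (D.N L : ℝ≥0∞) := by
      unfold Dat.N
      rw [← sum_one _ hf]
      exact ENNReal.tsum_le_tsum fun p => ENNReal.div_self_le_one
    calc D.wL L / (D.N L : ℝ≥0∞) * _ ≤ D.wL L / (D.N L : ℝ≥0∞) * (D.N L : ℝ≥0∞) := mul_le_mul' le_rfl h1
      _ ≤ D.wL L := by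
        rcases eq_or_ne (D.N L : ℝ≥0∞) 0 with h0 | h0
        · rw [h0, mul_zero]
          exact bot_le
        · exact (ENNReal.div_mul_cancel h0 (ENNReal.natCast_ne_top _)).le
  · exact bot_le

/-- **the sum over the closed objects**, good objects -/
theorem Dat.row {L : Λ} (hf : (D.dec L).Finite) (hg : D.good L) (hN : D.N L ≠ 0)
    (hF : ∀ p ∈ D.dec L, D.gF p.1 ≠ 0 ∧ D.gF p.1 ≠ ∞) : ∑' K : κ, D.nu L K = D.wL L := by
  rw [D.nu_row_eq, D.row_sum, if_pos hg]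
  have h1 : ∑' p : D.dec L, (D.gF (p : μ × τ).1 / D.gF (p : μ × τ).1) = (D.N L : ℝ≥0∞) := by
    unfold Dat.N
    rw [← sum_one _ hf]
    exact tsum_congr fun p => ENNReal.div_self (hF p p.2).1 (hF p p.2).2
  rw [h1]
  exact ENNReal.div_mul_cancel (by exact_mod_cast hN) (ENNReal.natCast_ne_top _)

/-- **the sum over the open objects** -/
theorem Dat.col (hw : ∀ M t, D.wL (D.op M t) = D.wM M * D.wT t) {K : κ} {x : ℝ≥0∞}
    (hK : ∀ M Q, D.fil M Q → D.cl M Q = K → D.wM M * D.wQ Q = x) : ∑' L : Λ, D.nu L K = x * D.DD K := by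
  rw [D.nu_col_eq]
  unfold Dat.DD
  rw [← ENNReal.tsum_mul_left, ENNReal.tsum_prod', ENNReal.tsum_prod']
  refine tsum_congr fun M => ?_
  rw [ENNReal.tsum_prod', ENNReal.tsum_comm]
  refine tsum_congr fun Q => ?_
  dsimp only
  by_cases h : D.fil M Q ∧ D.cl M Q = K
  · rw [if_pos h]
    simp only [if_pos h.2]
    unfold Dat.th
    rw [div_eq_mul_inv, ← ENNReal.tsum_mul_right, ← ENNReal.tsum_mul_left]
    refine tsum_congr fun t => ?_
    unfold Dat.W
    dsimp only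
    by_cases h2 : D.adm M t ∧ D.good (D.op M t)
    · rw [if_pos ⟨h2.1, h2.2, h.1⟩, if_pos h2, hw, ← hK M Q h.1 h.2]
      simp only [div_eq_mul_inv]
      ring
    · rw [if_neg fun h3 => h2 ⟨h3.1, h3.2.1⟩, if_neg h2, zero_mul, mul_zero]
  · rw [if_neg h, mul_zero, ENNReal.tsum_eq_zero]
    intro t
    by_cases h2 : D.cl M Q = K
    · rw [if_pos h2]
      unfold Dat.W
      rw [if_neg]
      rintro ⟨-, -, h3⟩
      exact h ⟨h3, h2⟩
    · rw [if_neg h2]

lemma Dat.nu_ne {L : Λ} {K : κ} (h : D.nu L K ≠ 0) : ∃ M t Q, D.adm M t ∧ D.good (D.op M t) ∧ D.fil M Q ∧ D.op M t = L ∧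
    D.cl M Q = K := by
  unfold Dat.nu at h
  rw [Ne, ENNReal.tsum_eq_zero, not_forall] at h
  obtain ⟨⟨M, t, Q⟩, hc⟩ := h
  dsimp only at hc
  by_cases h1 : D.op M t = L ∧ D.cl M Q = K
  · rw [if_pos h1] at hc
    unfold Dat.W at hc
    dsimp only at hc
    by_cases h2 : D.adm M t ∧ D.good (D.op M t) ∧ D.fil M Q
    · exact ⟨M, t, Q, h2.1, h2.2.1, h2.2.2, h1.1, h1.2⟩
    · exact absurd (if_neg h2) hc
  · exact absurd (if_neg h1) hc

/-- the sum over a part of the open objects, upper bound -/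
theorem Dat.col_le (hw : ∀ M t, D.wL (D.op M t) = D.wM M * D.wT t) {K : κ} {x : ℝ≥0∞}
    (hK : ∀ M Q, D.fil M Q → D.cl M Q = K → D.wM M * D.wQ Q = x) (S : Set Λ) : ∑' L : S, D.nu L K ≤ x * D.DD K := by
  rw [← D.col hw hK]
  exact ENNReal.tsum_comp_le_tsum_of_injective Subtype.coe_injective fun L => D.nu L K

/-- the sum over a part of the open objects which contains all open objects that lead to `K` -/
theorem Dat.col_cut (hw : ∀ M t, D.wL (D.op M t) = D.wM M * D.wT t) {K : κ} {x : ℝ≥0∞}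
    (hK : ∀ M Q, D.fil M Q → D.cl M Q = K → D.wM M * D.wQ Q = x) (S : Set Λ)
    (hS : ∀ M t Q, D.adm M t → D.good (D.op M t) → D.fil M Q → D.cl M Q = K → D.op M t ∈ S) :
    ∑' L : S, D.nu L K = x * D.DD K := by
  rw [← D.col hw hK, tsum_subtype S fun L => D.nu L K]
  refine tsum_congr fun L => ?_
  by_cases hL : L ∈ S
  · rw [Set.indicator_of_mem hL]
  · rw [Set.indicator_of_notMem hL]
    by_contra h
    obtain ⟨M, t, Q, h1, h2, h3, h4, h5⟩ := D.nu_ne (Ne.symm h)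
    exact hL (h4 ▸ hS M t Q h1 h2 h3 h5)

/-- all the weight of the tips is in the tips: bound of the density by the number of the decompositions of `K` -/
theorem Dat.DD_le {K : κ} {x : ℝ≥0∞} {n : ℕ} (hf : {p : μ × φ | D.fil p.1 p.2 ∧ D.cl p.1 p.2 = K}.Finite)
    (hn : {p : μ × φ | D.fil p.1 p.2 ∧ D.cl p.1 p.2 = K}.ncard ≤ n)
    (hx : ∀ M Q, D.fil M Q → D.cl M Q = K → D.th M / D.gF M ≤ x) : D.DD K ≤ n * x := by
  have e1 : D.DD K = ∑' p : {p : μ × φ | D.fil p.1 p.2 ∧ D.cl p.1 p.2 = K}, D.th (p : μ × φ).1 / D.gF (p : μ × φ).1 := by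
    unfold Dat.DD
    rw [tsum_subtype {p : μ × φ | D.fil p.1 p.2 ∧ D.cl p.1 p.2 = K} fun p => D.th p.1 / D.gF p.1]
    refine tsum_congr fun p => ?_
    by_cases hp : D.fil p.1 p.2 ∧ D.cl p.1 p.2 = K
    · rw [if_pos hp, Set.indicator_of_mem (s := {p : μ × φ | D.fil p.1 p.2 ∧ D.cl p.1 p.2 = K}) hp]
    · rw [if_neg hp, Set.indicator_of_notMem (s := {p : μ × φ | D.fil p.1 p.2 ∧ D.cl p.1 p.2 = K}) hp]
  rw [e1]
  calc _ ≤ ∑' _ : {p : μ × φ | D.fil p.1 p.2 ∧ D.cl p.1 p.2 = K}, (1 : ℝ≥0∞) * x :=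
        ENNReal.tsum_le_tsum fun p => by
          rw [one_mul]
          exact hx _ _ p.2.1 p.2.2
    _ = ({p : μ × φ | D.fil p.1 p.2 ∧ D.cl p.1 p.2 = K}.ncard : ℝ≥0∞) * x := by
        rw [ENNReal.tsum_mul_right, sum_one _ hf]
    _ ≤ n * x := mul_le_mul' (by exact_mod_cast hn) le_rfl

/-- the same, only the decompositions whose outer part has tips are counted -/
theorem Dat.DD_le' {K : κ} {x : ℝ≥0∞} {n : ℕ} (hf : {p : μ × φ | D.fil p.1 p.2 ∧ D.cl p.1 p.2 = K ∧ D.th p.1 ≠ 0}.Finite)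
    (hn : {p : μ × φ | D.fil p.1 p.2 ∧ D.cl p.1 p.2 = K ∧ D.th p.1 ≠ 0}.ncard ≤ n)
    (hx : ∀ M Q, D.fil M Q → D.cl M Q = K → D.th M ≠ 0 → D.th M / D.gF M ≤ x) : D.DD K ≤ n * x := by
  have e1 : D.DD K = ∑' p : {p : μ × φ | D.fil p.1 p.2 ∧ D.cl p.1 p.2 = K ∧ D.th p.1 ≠ 0},
      D.th (p : μ × φ).1 / D.gF (p : μ × φ).1 := by
    unfold Dat.DD
    rw [tsum_subtype {p : μ × φ | D.fil p.1 p.2 ∧ D.cl p.1 p.2 = K ∧ D.th p.1 ≠ 0} fun p => D.th p.1 / D.gF p.1]
    refine tsum_congr fun p => ?_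
    by_cases hp : D.fil p.1 p.2 ∧ D.cl p.1 p.2 = K
    · rw [if_pos hp]
      by_cases h0 : D.th p.1 = 0
      · rw [h0, ENNReal.zero_div, Set.indicator_of_notMem fun h => h.2.2 h0]
      · rw [Set.indicator_of_mem (s := {p : μ × φ | D.fil p.1 p.2 ∧ D.cl p.1 p.2 = K ∧ D.th p.1 ≠ 0}) ⟨hp.1, hp.2, h0⟩]
    · rw [if_neg hp, Set.indicator_of_notMem fun h => hp ⟨h.1, h.2.1⟩]
  rw [e1]
  calc _ ≤ ∑' _ : {p : μ × φ | D.fil p.1 p.2 ∧ D.cl p.1 p.2 = K ∧ D.th p.1 ≠ 0}, (1 : ℝ≥0∞) * x :=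
        ENNReal.tsum_le_tsum fun p => by
          rw [one_mul]
          exact hx _ _ p.2.1 p.2.2.1 p.2.2.2
    _ = ({p : μ × φ | D.fil p.1 p.2 ∧ D.cl p.1 p.2 = K ∧ D.th p.1 ≠ 0}.ncard : ℝ≥0∞) * x := by
        rw [ENNReal.tsum_mul_right, sum_one _ hf]
    _ ≤ n * x := mul_le_mul' (by exact_mod_cast hn) le_rfl

/-- an outer part with tips -/
lemma Dat.th_ne {M : μ} (h : D.th M ≠ 0) : ∃ t, D.adm M t ∧ D.good (D.op M t) := by
  unfold Dat.th at h
  rw [Ne, ENNReal.tsum_eq_zero, not_forall] at h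
  obtain ⟨t, ht⟩ := h
  by_cases h2 : D.adm M t ∧ D.good (D.op M t)
  · exact ⟨t, h2⟩
  · exact absurd (if_neg h2) ht

end Pool.Agent.NuG
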