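import Pool.Agent.RMP.DefsJ
import Pool.Agent.ARM.PlcS

/-!
# RMP, row P6a (helper87), part A: placed pairs

* `PP E r D k P M s R` : the word M from the origin, the word R from s with the first direction `E (r - 1)` (the reversed second
  word), the path from P goes from the end of M to s and keeps away from both words;
* `TW E r D M s Q` : Q is a tube word from the end of M to s;
* `sa_of` : `M ++ (Q ++ R)` is self-avoiding.
-/

set_option autoImplicit false

namespace HexObs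

namespace RMP

namespace G4

open Finset TS SDN SIM NTA TIP ARM ARM.G3

open scoped ENNReal

/-! ### 1. The path with the base point P -/

/-- near the segment j of the path from P -/
def NP (E : ℕ → Pt) (D : ℤ) (P : Pt) (k j : ℕ) (p : Pt) : Prop := AR.NS (P + AR.pv E D j) (E j) D (2 ^ (k + 10)) p

lemma pv_zero (E : ℕ → Pt) (D : ℤ) : AR.pv E D 0 = 0 := by
  unfold AR.pv
  rw [ps_zero, smul_zero]

variable {E : ℕ → Pt} {r : ℕ} {D : ℤ} {k : ℕ} {P s : Pt} {M Q R : List Bool}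

/-- the path that ends at the origin -/
lemma np_qv {w : ℤ} {j : ℕ} {y : Pt} (h : AR.NS (P + AR.pv E D j) (E j) D w y) :
    AR.NS (qv E D r j) (E j) D w (y - (P - qv E D r 0)) := by
  obtain ⟨t, h1, h2, h3⟩ := h
  refine ⟨t, h1, h2, ?_⟩
  have e1 : y - (P - qv E D r 0) - (qv E D r j + t • E j) = y - (P + AR.pv E D j + t • E j) := by
    rw [pv_qv E D r j]
    abel
  rw [e1]
  exact h3

/-- the segments 0 and r - 1 are far from each other -/
lemma far2 (hE : IPg E r) (hr : 3 ≤ r) (hD : 2 ^ (k + 12) ≤ D) {x y : Pt} (h1 : NP E D P k 0 x)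
    (h2 : NP E D P k (r - 1) y) : 2 < TIW.hn (y - x) := by
  have h3 := far_ends hE hr hD (np_qv (r := r) h1) (np_qv (r := r) h2)
  rw [sub_sub_sub_cancel_right] at h3
  exact h3

lemma far2' (hE : IPg E r) (hr : 3 ≤ r) (hD : 2 ^ (k + 12) ≤ D) {x : Pt} (h1 : NP E D P k 0 x) :
    ¬ NP E D P k (r - 1) x := by
  intro h2
  have h3 := far2 hE hr hD h1 h2
  have h4 : TIW.hn (0 : Pt) = 0 := by decide
  rw [sub_self, h4] at h3
  omega

/-! ### 2. Placed pairs -/

/-- vertices of the two outer parts: M from (oo, up), R from (s, d), from the index l on -/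
def Ou (M R : List Bool) (s d : Pt) (l : ℕ) (p : Pt) : Prop :=
  (∃ i, i ≤ M.length ∧ p = vx oo up M i) ∨ ∃ i, l ≤ i ∧ i ≤ R.length ∧ p = vx s d R i

/-- **placed pairs** -/
structure PP (E : ℕ → Pt) (r : ℕ) (D : ℤ) (k : ℕ) (P : Pt) (M : List Bool) (s : Pt) (R : List Bool) : Prop where
  sa : M ∈ SA
  sr : R ∈ SA
  cls : (cl s = 0 ∧ cl (E (r - 1)) = 2) ∨ (cl s = 2 ∧ cl (E (r - 1)) = 1)
  de : TIW.de M = E 0
  ps1 : TIW.hn (TIW.en M - P) ≤ 2 ^ (k + 1)
  ps2 : TIW.hn (s - (P + AR.pv E D r)) ≤ 2 ^ (k + 1)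
  dis : ∀ i, i ≤ M.length → ∀ j, 1 ≤ j → j ≤ R.length → vx oo up M i ≠ vx s (E (r - 1)) R j
  mid : ∀ p, Ou M R s (E (r - 1)) 0 p → ∀ j, 1 ≤ j → j + 1 < r → ¬ NP E D P k j p
  fst : ∀ p, Ou M R s (E (r - 1)) 1 p → NP E D P k 0 p → ip (p - TIW.en M) (E 0) ≤ 0
  lst : ∀ p, Ou M R s (E (r - 1)) 1 p → NP E D P k (r - 1) p → 0 < ip (p - s) (E (r - 1))

/-- the end of the path -/
lemma pv_last (E : ℕ → Pt) (D : ℤ) (P : Pt) {r : ℕ} (hr : 1 ≤ r) :
    P + AR.pv E D (r - 1) + D • E (r - 1) = P + AR.pv E D r := by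
  obtain ⟨q, rfl⟩ : ∃ q, r = q + 1 := ⟨r - 1, by omega⟩
  rw [Nat.add_sub_cancel, AR.pv_succ, add_assoc]

lemma near_fst (hD : 0 ≤ D) {x : Pt} (h : TIW.hn (x - P) ≤ 2 ^ (k + 10)) : NP E D P k 0 x := by
  refine ⟨0, le_rfl, hD, ?_⟩
  rw [zero_smul, add_zero, pv_zero, add_zero]
  exact h

lemma near_lst (hD : 0 ≤ D) (hr : 1 ≤ r) {x : Pt} (h : TIW.hn (x - (P + AR.pv E D r)) ≤ 2 ^ (k + 10)) :
    NP E D P k (r - 1) x := by
  refine ⟨D, hD, le_rfl, ?_⟩
  rw [pv_last E D P hr]
  exact h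

/-! ### 3. The reversed second word -/

/-- the vertices of the reversed word -/
lemma vx_revB (g : Pt × Pt) (B : List Bool) {i : ℕ} (hi : i ≤ B.length + 1) :
    vx (pe g B + pd g B) (-(pd g B)) (rev B) i = pv g B (B.length + 1 - i) := by
  have h1 : ∀ t, vx g.1 (mulE g.2 up) B t = pv g B t := fun t => vx_frameN g.2 g.1 B t
  have h2 : dx (mulE g.2 up) B B.length = pd g B := dx_mulE g.2 up B B.length
  have h3 := vx_rev g.1 (mulE g.2 up) B i hi
  have h4 : tip g.1 (mulE g.2 up) B = pe g B + pd g B := by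
    unfold tip
    rw [vx_succ, h1, h2]
    rfl
  rw [h4, h2, h1] at h3
  exact h3

lemma dir_frame {d : Pt} (hd : d ∈ dirs) (v : Pt) (t : List Bool) (i : ℕ) :
    vx v d t i = v + mulE (rotTo up d) (vx oo up t i) := by
  obtain ⟨-, h2⟩ := frame_dir hd
  conv_lhs => rw [h2]
  exact vx_frameN _ _ _ _

/-- self-avoiding words from a placed word -/
lemma sa_frame {d : Pt} (hd : d ∈ dirs) {v : Pt} {t : List Bool}
    (h : ∀ i j, i < j → j ≤ t.length → vx v d t i ≠ vx v d t j) : t ∈ SA := by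
  refine ⟨fun _ _ _ => Set.mem_univ _, fun i j hij hj he => h i j hij hj ?_⟩
  rw [dir_frame hd, dir_frame hd, he]

lemma sa_frame' {d : Pt} (hd : d ∈ dirs) {v : Pt} {t : List Bool} (ht : t ∈ SA) {i j : ℕ} (hij : i < j)
    (hj : j ≤ t.length) : vx v d t i ≠ vx v d t j := by
  rw [dir_frame hd, dir_frame hd]
  intro h
  exact ht.inj i j hij hj (mulE_inj (mem_dirs.1 (frame_dir hd).1) (add_left_cancel h))

lemma cl_fr {g : Pt × Pt} (hg : Fr g) (B : List Bool) :
    (cl (pe g B + pd g B) = 0 ∧ cl (-(pd g B)) = 2) ∨ (cl (pe g B + pd g B) = 2 ∧ cl (-(pd g B)) = 1) := by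
  have h1 : cl (vx oo up B B.length) = if Even B.length then cl oo else cl oo + cl up := cl_vx oo up B B.length
  have h2 : cl (TIW.de B) = if Even B.length then cl up else -cl up := cl_dx up B B.length
  have h4 : cl up = 2 := by decide
  have h5 : cl oo = 0 := by decide
  have h6 : cl (pe g B) = cl g.1 + cl g.2 * cl (vx oo up B B.length) := by
    unfold pe pv
    rw [cl_add, cl_mulE]
  have h7 : cl (pd g B) = cl g.2 * cl (TIW.de B) := by
    unfold pd
    rw [cl_mulE]
  obtain ⟨-, h8⟩ := hg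
  rw [cl_add, cl_neg, h6, h7, h1, h2, h4, h5]
  rcases h8 with ⟨h9, h10⟩ | ⟨h9, h10⟩
  · rw [h9, h10]
    by_cases he : Even B.length
    · rw [if_pos he, if_pos he]
      right
      decide
    · rw [if_neg he, if_neg he]
      left
      decide
  · rw [h9, h10, h4]
    by_cases he : Even B.length
    · rw [if_pos he, if_pos he]
      left
      decide
    · rw [if_neg he, if_neg he]
      right
      decide

/-- **joinable pairs, with a small shift of the path** -/
lemma jn_pp {g : Pt × Pt} {A B : List Bool} {x : Pt} (hk : 3 ≤ k) (hr : 1 ≤ r) (hD : 0 ≤ D) (hE : IPg E r)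
    (h : JnP E r D k P (A, (g, B))) (hx : 2 * TIW.hn x ≤ 2 ^ k) :
    PP E r D k (P + x) A (pe g B + pd g B) (rev B) := by
  have hdE : -(pd g B) = E (r - 1) := by
    have h1 : pd g B = -E (r - 1) := h.d1
    rw [h1, neg_neg]
  have hEd : E (r - 1) ∈ dirs := hE.dir _ (by omega)
  have hdd : pd g B ∈ dirs := by
    have h1 := TIW.upd'
    rw [← neg_neg (pd g B), hdE]
    exact neg_mem_dirs hEd
  have hd2 : TIW.hn (pd g B) ≤ 2 := by
    have key : ∀ d ∈ dirs, TIW.hn d ≤ 2 := by decide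
    exact key _ hdd
  have p8 : (8 : ℤ) ≤ 2 ^ k := by
    have : (2 : ℤ) ^ 3 ≤ 2 ^ k := pow_le_pow_right₀ (by norm_num) hk
    linarith
  have p1 : (2 : ℤ) ^ (k + 1) = 2 * 2 ^ k := by ring
  have p10 : (2 : ℤ) ^ (k + 10) = 1024 * 2 ^ k := by ring
  have p11 : (2 : ℤ) ^ (k + 11) = 2048 * 2 ^ k := by ring
  have hx0 := TIW.hn_nonneg x
  have h1 : TIW.hn (TIW.en A - P) ≤ 2 ^ k := h.ps1
  have h2 : TIW.hn (pe g B - (P + AR.pv E D r)) ≤ 2 ^ k + 2 := h.ps2
  -- the segments
  have hseg : ∀ {j : ℕ} {p q : Pt}, TIW.hn (p - q) ≤ 2 → NP E D (P + x) k j p →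
      AR.NS (P + AR.pv E D j) (E j) D (2 ^ (k + 11)) q := by
    intro j p q hpq hn
    refine (NS_shift (v := 2 ^ k + 2) (a' := P + AR.pv E D j) (y' := q) hn ?_).mono (by linarith)
    have e1 : q - (P + AR.pv E D j) - (p - (P + x + AR.pv E D j)) = x - (p - q) := by abel
    rw [e1]
    have := TIW.hn_sub x (p - q)
    linarith
  have hself : ∀ p : Pt, TIW.hn (p - p) ≤ 2 := by
    intro p
    rw [sub_self]
    decide
  -- the vertices
  have hvo : ∀ i, i ≤ A.length → vx oo up A i ∈ vo A ∪ ob g B := fun i hi => Or.inl ⟨i, hi, rfl⟩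
  have hrl := rev_length B
  have hvr : ∀ i, i ≤ (rev B).length → vx (pe g B + pd g B) (E (r - 1)) (rev B) i = pv g B (B.length + 1 - i) := by
    intro i hi
    rw [← hdE]
    exact vx_revB g B (by omega)
  have hou : ∀ p, Ou A (rev B) (pe g B + pd g B) (E (r - 1)) 1 p → p ∈ vo A ∪ ob g B := by
    rintro p (⟨i, hi, rfl⟩ | ⟨i, hi1, hi2, rfl⟩)
    · exact hvo i hi
    · rw [hvr i hi2]
      exact Or.inr ⟨B.length + 1 - i, by omega, rfl⟩
  have hlst : ∀ p, p ∈ vo A ∪ ob g B → NP E D (P + x) k (r - 1) p → 0 < ip (p - (pe g B + pd g B)) (E (r - 1)) := by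
    intro p hp hn
    have h3 : 0 ≤ ip (p - pe g B) (E (r - 1)) := h.lst p hp (hseg (hself p) hn)
    have h4 : p - (pe g B + pd g B) = (p - pe g B) + E (r - 1) := by
      rw [← hdE]
      abel
    rw [h4, ip_add_left]
    have h5 : 0 < ip (E (r - 1)) (E (r - 1)) := by
      have key : ∀ d ∈ dirs, 0 < ip d d := by decide
      exact key _ hEd
    linarith
  -- the end of the path
  have hps2 : TIW.hn (pe g B + pd g B - (P + x + AR.pv E D r)) ≤ 2 ^ (k + 1) := by
    have e1 : pe g B + pd g B - (P + x + AR.pv E D r) = (pe g B - (P + AR.pv E D r)) + (pd g B - x) := by abel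
    rw [e1, p1]
    have h3 := TIW.hn_add (pe g B - (P + AR.pv E D r)) (pd g B - x)
    have h4 := TIW.hn_sub (pd g B) x
    linarith
  refine ⟨h.sa, ?_, ?_, h.d0, ?_, hps2, ?_, ?_, ?_, fun p hp hn => hlst p (hou p hp) hn⟩
  · -- the reversed word is self-avoiding
    refine sa_frame hEd (v := pe g B + pd g B) fun i j hij hj he => ?_
    rw [hvr i (by omega), hvr j hj] at he
    rcases Nat.eq_zero_or_pos i with h0 | h0
    · rw [h0, Nat.sub_zero] at he
      have h3 : pv g B (B.length + 1) = pe g B + pd g B := by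
        have := vx_revB g B (i := 0) (by omega)
        rw [Nat.sub_zero] at this
        rw [← this]
        rfl
      rw [h3] at he
      have h4 : pe g B + pd g B ∈ vo A ∪ ob g B := by
        rw [he]
        exact Or.inr ⟨_, by omega, rfl⟩
      have h5 := hlst _ h4 (near_lst hD hr (hps2.trans (by rw [p1, p10]; linarith)))
      rw [sub_self] at h5
      have h6 : ip (0 : Pt) (E (r - 1)) = 0 := by simp [ip]
      rw [h6] at h5
      exact lt_irrefl _ h5
    · have hg : nrm g.2 = 1 := mem_dirs.1 h.fr.1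
      unfold pv at he
      have h3 := mulE_inj hg (add_left_cancel he)
      exact h.sb.inj (B.length + 1 - j) (B.length + 1 - i) (by omega) (show B.length + 1 - i ≤ B.length by omega) h3.symm
  · have := cl_fr h.fr B
    rw [hdE] at this
    exact this
  · have e1 : TIW.en A - (P + x) = (TIW.en A - P) - x := by abel
    rw [e1, p1]
    have := TIW.hn_sub (TIW.en A - P) x
    linarith
  · intro i hi j hj1 hj2 he
    rw [hvr j hj2] at he
    exact h.av i hi ⟨B.length + 1 - j, show B.length + 1 - j ≤ B.length by omega, he⟩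
  · intro p hp j hj hj' hn
    rcases hp with ⟨i, hi, rfl⟩ | ⟨i, -, hi2, rfl⟩
    · exact h.mid _ (hvo i hi) j hj hj' (hseg (hself _) hn)
    · rcases Nat.eq_zero_or_pos i with h0 | h0
      · rw [h0] at hn
        have h3 : pe g B ∈ vo A ∪ ob g B := Or.inr ⟨B.length, le_rfl, rfl⟩
        refine h.mid _ h3 j hj hj' (hseg ?_ hn)
        show TIW.hn (pe g B + pd g B - pe g B) ≤ 2
        rw [add_sub_cancel_left]
        exact hd2
      · exact h.mid _ (hou _ (Or.inr ⟨i, h0, hi2, rfl⟩)) j hj hj' (hseg (hself _) hn)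
  · intro p hp hn
    refine h.fst p (hou p hp) ?_
    have h3 := hseg (hself p) hn
    rw [pv_zero, add_zero] at h3
    exact h3

/-! ### 4. Tube words -/

/-- **Q goes from the end of M to s** -/
def TW (E : ℕ → Pt) (r : ℕ) (D : ℤ) (k : ℕ) (M : List Bool) (s : Pt) (Q : List Bool) : Prop :=
  TubeQ (fun i => mulE (rc M) (E i)) D (2 ^ (k + 9)) r (mulE (rc M) (s - TIW.en M)) Q

/-- the segments in the two frames -/
lemma near_abs2 (hP : TIW.hn (TIW.en M - P) ≤ 2 ^ (k + 1)) {j : ℕ} {p : Pt}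
    (h : Nr (fun i => mulE (rc M) (E i)) D (2 ^ (k + 9)) j p) : NP E D P k j (TIW.en M + mulE (TIW.rt M) p) := by
  have h1 := NS_rot (TIW.nrm_rt M) h
  rw [rt_rc] at h1
  have e1 : mulE (TIW.rt M) (AR.pv (fun i => mulE (rc M) (E i)) D j) = AR.pv E D j := by
    unfold AR.pv
    rw [ps_rot, ← mulE_smul, rt_rc]
  rw [e1] at h1
  have p1 : (2 : ℤ) ^ (k + 9) + 2 ^ (k + 1) ≤ 2 ^ (k + 10) := by
    have e1 : (2 : ℤ) ^ (k + 10) = 2 ^ (k + 9) + 512 * 2 ^ k := by ring
    have e2 : (2 : ℤ) ^ (k + 1) = 2 * 2 ^ k := by ring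
    have h0 : (0 : ℤ) < 2 ^ k := by positivity
    linarith
  refine (NS_shift (v := 2 ^ (k + 1)) h1 ?_).mono p1
  have e2 : TIW.en M + mulE (TIW.rt M) p - (P + AR.pv E D j) - (mulE (TIW.rt M) p - AR.pv E D j) = TIW.en M - P := by
    abel
  rw [e2]
  exact hP

/-- the vertices of the word Q behind M -/
def vq (M Q : List Bool) (i : ℕ) : Pt := TIW.en M + mulE (TIW.rt M) (vx oo up Q i)

lemma TW.rgA (hP : TIW.hn (TIW.en M - P) ≤ 2 ^ (k + 1)) (hQ : TW E r D k M s Q) {i : ℕ} (hi : i ≤ Q.length) :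
    ∃ j, j < r ∧ NP E D P k j (vq M Q i) := by
  obtain ⟨j, h1, h2⟩ := hQ.rg i hi
  exact ⟨j, h1, near_abs2 hP h2⟩

lemma TW.stA (hde : TIW.de M = E 0) (hP : TIW.hn (TIW.en M - P) ≤ 2 ^ (k + 1)) (hQ : TW E r D k M s Q) {i : ℕ}
    (h0 : 1 ≤ i) (hi : i ≤ Q.length) :
    0 < ip (vq M Q i - TIW.en M) (E 0) ∨ ∃ j, 1 ≤ j ∧ j < r ∧ NP E D P k j (vq M Q i) := by
  rcases hQ.st i h0 hi with h1 | ⟨j, h1, h2, h3⟩
  · left
    unfold vq
    rw [add_sub_cancel_left, ← hde, AR.ip_rt]
    exact h1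
  · right
    exact ⟨j, h1, h2, near_abs2 hP h3⟩

lemma TW.bdA (hP : TIW.hn (TIW.en M - P) ≤ 2 ^ (k + 1)) (hQ : TW E r D k M s Q) {i : ℕ} (hi : i ≤ Q.length) :
    ip (vq M Q i - s) (E (r - 1)) ≤ 0 ∨ ∃ j, j + 1 < r ∧ NP E D P k j (vq M Q i) := by
  rcases hQ.bd i hi with h1 | ⟨j, h1, h3⟩
  · left
    have e1 : ip (vx oo up Q i - mulE (rc M) (s - TIW.en M)) (mulE (rc M) (E (r - 1))) =
        ip (vq M Q i - s) (E (r - 1)) := by
      have h2 := ip_mulE (TIW.rt M) (vx oo up Q i - mulE (rc M) (s - TIW.en M)) (mulE (rc M) (E (r - 1)))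
      rw [TIW.nrm_rt, one_mul, mulE_sub, rt_rc, rt_rc] at h2
      rw [← h2]
      unfold vq
      congr 1
      abel
    rw [← e1]
    exact h1
  · right
    exact ⟨j, h1, near_abs2 hP h3⟩

/-- the end of the tube -/
lemma TW.last (hQ : TW E r D k M s Q) : vq M Q Q.length = s := by
  have hen : vx oo up Q Q.length = mulE (rc M) (s - TIW.en M) := hQ.en
  unfold vq
  rw [hen, rt_rc]
  abel

/-- **a tube vertex is not a vertex of the outer parts** -/
lemma TW.disj (hE : IPg E r) (hr : 3 ≤ r) (hD : 2 ^ (k + 12) ≤ D) (hP : PP E r D k P M s R) (hQ : TW E r D k M s Q)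
    {p : Pt} (hp : Ou M R s (E (r - 1)) 1 p) {q : ℕ} (hq : 1 ≤ q) (hq' : q ≤ Q.length) : p ≠ vq M Q q := by
  intro he
  have hp0 : Ou M R s (E (r - 1)) 0 p := by
    rcases hp with h | ⟨i, -, h2, h3⟩
    · exact Or.inl h
    · exact Or.inr ⟨i, Nat.zero_le _, h2, h3⟩
  obtain ⟨j, hj, hn⟩ := hQ.rgA hP.ps1 hq'
  rw [← he] at hn
  rcases Nat.eq_zero_or_pos j with h0 | h0
  · rw [h0] at hn
    have h1 := hP.fst p hp hn
    rcases hQ.stA hP.de hP.ps1 hq hq' with h2 | ⟨j', h2, h3, h4⟩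
    · rw [← he] at h2
      linarith
    · rw [← he] at h4
      rcases Nat.lt_or_ge (j' + 1) r with h5 | h5
      · exact hP.mid p hp0 j' h2 h5 h4
      · have h6 : j' = r - 1 := by omega
        rw [h6] at h4
        exact far2' hE hr hD hn h4
  · rcases Nat.lt_or_ge (j + 1) r with h5 | h5
    · exact hP.mid p hp0 j h0 h5 hn
    · have h6 : j = r - 1 := by omega
      rw [h6] at hn
      have h1 := hP.lst p hp hn
      rcases hQ.bdA hP.ps1 hq' with h2 | ⟨j', h2, h4⟩
      · rw [← he] at h2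
        linarith
      · rw [← he] at h4
        rcases Nat.eq_zero_or_pos j' with h7 | h7
        · rw [h7] at h4
          exact far2' hE hr hD h4 hn
        · exact hP.mid p hp0 j' h7 h2 h4

/-! ### 5. The word M ++ (Q ++ R) -/

lemma hv1 (M Q R : List Bool) {i : ℕ} (hi : i ≤ M.length) : vx oo up (M ++ (Q ++ R)) i = vx oo up M i :=
  vx_append (by omega)

lemma hv2 (M Q R : List Bool) {i : ℕ} (hi : i ≤ Q.length) : vx oo up (M ++ (Q ++ R)) (M.length + i) = vq M Q i := by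
  rw [TIW.vx_app, vx_append (by omega)]
  rfl

lemma hv3 (hQ : TW E r D k M s Q) (R : List Bool) (i : ℕ) :
    vx oo up (M ++ (Q ++ R)) (M.length + Q.length + i) = vx s (E (r - 1)) R i := by
  have h1 := vx_dropN oo up (M ++ (Q ++ R)) (M.length + Q.length) i
  have h2 : (M ++ (Q ++ R)).drop (M.length + Q.length) = R := by
    rw [← List.append_assoc]
    exact List.drop_left' (by rw [List.length_append])
  have h3 : vx oo up (M ++ (Q ++ R)) (M.length + Q.length) = s := by
    rw [hv2 M Q R le_rfl, hQ.last]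
  have h4 : dx up (M ++ (Q ++ R)) (M.length + Q.length) = E (r - 1) := by
    have hde : dx up Q Q.length = mulE (rc M) (E (r - 1)) := hQ.de
    rw [TIW.dx_app, dx_append le_rfl, hde, rt_rc]
  rw [h2, h3, h4] at h1
  exact h1.symm

/-- the directions at the two ends of the tube -/
lemma hd1 (hde : TIW.de M = E 0) (Q R : List Bool) : dx up (M ++ (Q ++ R)) M.length = E 0 := by
  rw [dx_append le_rfl]
  exact hde

lemma hd2 (hQ : TW E r D k M s Q) (R : List Bool) : dx up (M ++ (Q ++ R)) (M.length + Q.length) = E (r - 1) := by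
  have hde : dx up Q Q.length = mulE (rc M) (E (r - 1)) := hQ.de
  rw [TIW.dx_app, dx_append le_rfl, hde, rt_rc]

/-- **the word is self-avoiding** -/
theorem sa_of (hE : IPg E r) (hr : 3 ≤ r) (hD : 2 ^ (k + 12) ≤ D) (hP : PP E r D k P M s R) (hQ : TW E r D k M s Q) :
    M ++ (Q ++ R) ∈ SA := by
  have hEd : E (r - 1) ∈ dirs := hE.dir _ (by omega)
  refine ⟨fun _ _ _ => Set.mem_univ _, fun i j hij hj he => ?_⟩
  rw [List.length_append, List.length_append] at hj
  rcases Nat.lt_or_ge (M.length + Q.length) j with h1 | h1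
  · -- j in R
    obtain ⟨q, rfl⟩ : ∃ q, j = M.length + Q.length + q := ⟨j - (M.length + Q.length), by omega⟩
    rw [hv3 hQ R q] at he
    have hRq : Ou M R s (E (r - 1)) 1 (vx s (E (r - 1)) R q) := Or.inr ⟨q, by omega, by omega, rfl⟩
    rcases Nat.lt_or_ge i (M.length + Q.length) with h2 | h2
    · rcases Nat.lt_or_ge M.length i with h3 | h3
      · obtain ⟨p, rfl⟩ : ∃ p, i = M.length + p := ⟨i - M.length, by omega⟩
        rw [hv2 M Q R (by omega)] at he
        exact hQ.disj hE hr hD hP hRq (by omega) (by omega) he.symm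
      · rw [hv1 M Q R h3] at he
        exact hP.dis i h3 q (by omega) (by omega) he
    · obtain ⟨p, rfl⟩ : ∃ p, i = M.length + Q.length + p := ⟨i - (M.length + Q.length), by omega⟩
      rw [hv3 hQ R p] at he
      exact sa_frame' hEd hP.sr (by omega) (by omega) he
  · rcases Nat.lt_or_ge M.length j with h2 | h2
    · obtain ⟨q, rfl⟩ : ∃ q, j = M.length + q := ⟨j - M.length, by omega⟩
      rw [hv2 M Q R (i := q) (by omega)] at he
      rcases Nat.lt_or_ge M.length i with h3 | h3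
      · obtain ⟨p, rfl⟩ : ∃ p, i = M.length + p := ⟨i - M.length, by omega⟩
        rw [hv2 M Q R (by omega)] at he
        unfold vq at he
        exact hQ.sa.inj p q (by omega) (by omega) (mulE_inj (TIW.nrm_rt M) (add_left_cancel he))
      · rw [hv1 M Q R h3] at he
        exact hQ.disj hE hr hD hP (Or.inl ⟨i, h3, rfl⟩) (by omega) (by omega) he
    · rw [hv1 M Q R h2, hv1 M Q R (by omega)] at he
      exact hP.sa.inj i j hij h2 he

end G4

end RMP

end HexObs
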