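import Pool.Agent.RMP.DefsK
import Pool.Agent.RMP.NuG
import Pool.Agent.RMP.CutI
import Pool.Agent.RMP.PlPA

/-!
# RMP, the kernel for pairs: definitions (helper84, design by helper90 and helper76)

An open pair `(A ++ Y1, (g, B ++ Y2))` with a pair of good cuts and a joinable outer part `T = (A, (g, B))`; the outer part is
joined by a tube `Q` along its canonical path to the word `H = A ++ (Q ++ (rev B ++ [x]))`, with a mark at a uniform letter of `Q`:
the vertex number `|A| + u` of `H`. The kernel is an instance of `NuG.Dat`. All definitions are local: they only see the pair near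
the gap, in the frame of the tip of its first word (`rl`). No lengths: the open pairs are cut by the set `PR`.
-/

set_option autoImplicit false

namespace HexObs

namespace RMP

open Finset TS SDN HexObs.SIM NTA TIP ARM ARM.G3 TIW MCP

open scoped ENNReal

/-- paths in the frame of the tip of the first word: scale, number of the steps, mesh, directions, base point -/
structure Pth where
  k : ℕ
  r : ℕ
  D : ℤ
  E : ℕ → Pt
  P : Pt

instance : Inhabited Pth := ⟨⟨0, 0, 0, fun _ => 0, 0⟩⟩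

/-- the parameters of the kernel: level `j`, cuts `η a m`, at least `κ ^ 2 * Ub j ^ 2` pairs of cuts, mesh `H` and scales
`j - sx` to `j`, paths with at most `Mx` steps, fillings with `a0 * ml j` to `A * ml j` letters, tips with at most `A1 * ml j`
letters; `S` = the differences of the tips; `R` = a property of the fillings; `TT` = the paths; `Z` = a further property of the
good pairs -/
structure Par where
  j : ℕ
  a : ℕ
  m : ℕ
  H : ℕ
  Mx : ℕ
  sx : ℕ
  η : ℝ
  κ : ℝ
  a0 : ℝ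
  A : ℝ
  A1 : ℝ
  S : Set Pt
  R : List Bool → Prop
  TT : Pth → Prop
  Z : PT → Prop

/-- **the open pairs** -/
def GW (P : Par) : Set PT :=
  {T | T.1 ∈ SA ∧ T.2.2 ∈ SA ∧ Fr T.2.1 ∧ Av (ob T.2.1 T.2.2) T.1 ∧ TIW.en T.1 - pe T.2.1 T.2.2 ∈ P.S}

lemma PR_GW {P : Par} {n k : ℕ} {d : ℝ} : PR n k d P.S ⊆ GW P := fun _ h => ⟨h.1, h.2.1, h.2.2.1, h.2.2.2.1, h.2.2.2.2.1⟩

/-- the admissible paths (as in `JoinP`) -/
structure okT (P : Par) (τ : Pth) : Prop where
  kj : τ.k ≤ P.j
  jk : P.j ≤ τ.k + P.sx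
  D1 : 18 * (P.H * 2 ^ τ.k) ≤ τ.D
  D2 : τ.D ≤ 36 * (P.H * 2 ^ τ.k)
  r4 : 4 ≤ τ.r
  rM : τ.r ≤ P.Mx
  ip : IPg τ.E τ.r
  ee : τ.E (τ.r - 2) = τ.E (τ.r - 1)
  tt : P.TT τ

/-- `T` can be joined along the path -/
def PJ (P : Par) (T : PT) (τ : Pth) : Prop := okT P τ ∧ JnP (fE T τ.E) τ.r τ.D τ.k (fP T τ.P) T

/-- joinable pairs -/
def Jbl (P : Par) (T : PT) : Prop := ∃ τ, PJ P T τ

/-- the canonical path of a joinable pair (it depends only on the set of its paths) -/
noncomputable def pth (P : Par) (T : PT) : Pth := Classical.epsilon (PJ P T)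

lemma pth_ok {P : Par} {T : PT} (h : Jbl P T) : PJ P T (pth P T) := Classical.epsilon_spec h

lemma pth_congr {P : Par} {T T' : PT} (h : ∀ τ, PJ P T τ ↔ PJ P T' τ) : pth P T = pth P T' := by
  have e : PJ P T = PJ P T' := funext fun τ => propext (h τ)
  unfold pth
  rw [e]

/-- a path in absolute coordinates gives a joinable pair -/
lemma jbl_of {P : Par} {T : PT} {k r : ℕ} {D : ℤ} {E : ℕ → Pt} {B : Pt} (h1 : k ≤ P.j) (h2 : P.j ≤ k + P.sx)
    (h3 : 18 * (P.H * 2 ^ k) ≤ D) (h4 : D ≤ 36 * (P.H * 2 ^ k)) (h5 : 4 ≤ r) (h6 : r ≤ P.Mx) (h7 : IPg E r)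
    (h8 : E (r - 2) = E (r - 1)) (h9 : P.TT ⟨k, r, D, fun i => mulE (rc T.1) (E i), rl T B⟩) (h10 : JnP E r D k B T) :
    Jbl P T := by
  refine ⟨⟨k, r, D, fun i => mulE (rc T.1) (E i), rl T B⟩, ⟨h1, h2, h3, h4, h5, h6, ipg_rot h7 (nrm_rc T.1), ?_, h9⟩, ?_⟩
  · show mulE (rc T.1) (E (r - 2)) = mulE (rc T.1) (E (r - 1))
    rw [h8]
  · have e1 : fE T (fun i => mulE (rc T.1) (E i)) = E := funext fun i => rt_rc T.1 (E i)
    have e2 : fP T (rl T B) = B := rt_rl T B
    show JnP (fE T (fun i => mulE (rc T.1) (E i))) r D k (fP T (rl T B)) T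
    rw [e1, e2]
    exact h10

/-- **the fillings** of `T`: tubes along the canonical path from the tip of the first word to the exit vertex of the second
word, with `a0 * ml j` to `A * ml j` letters -/
def Fil (P : Par) (T : PT) : Set (List Bool) :=
  {Q | TubeQ (pth P T).E (pth P T).D (2 ^ ((pth P T).k + 9)) (pth P T).r (zr T + dr T) Q ∧ P.a0 * ml P.j ≤ Q.length ∧
    (Q.length : ℝ) ≤ P.A * ml P.j ∧ P.R Q}

/-- tube words in absolute coordinates (87's form) -/
lemma tubeQ_iff {T : PT} {τ : Pth} {Q : List Bool} : TubeQ τ.E τ.D (2 ^ (τ.k + 9)) τ.r (zr T + dr T) Q ↔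
    G4.TW (fE T τ.E) τ.r τ.D τ.k T.1 (pe T.2.1 T.2.2 + pd T.2.1 T.2.2) Q := by
  have e1 : (fun i => mulE (rc T.1) (fE T τ.E i)) = τ.E := funext fun i => rc_rt T.1 (τ.E i)
  have e2 : mulE (rc T.1) (pe T.2.1 T.2.2 + pd T.2.1 T.2.2 - TIW.en T.1) = zr T + dr T := by
    unfold zr dr rl
    rw [← mulE_add]
    congr 1
    abel
  unfold G4.TW
  rw [e1, e2]

/-- the pair with two end parts -/
def op (T : PT) (Y : List Bool × List Bool) : PT := (T.1 ++ Y.1, (T.2.1, T.2.2 ++ Y.2))

/-- the joined word with the mark; `q` = filling, letter of the filling, last letter -/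
def jo (T : PT) (q : List Bool × ℕ × Bool) : List Bool × ℕ :=
  (T.1 ++ (q.1 ++ (rev T.2.2 ++ [q.2.2])), T.1.length + q.2.1)

/-- **admissible pairs of cuts** -/
def Adm (P : Par) (T : PT) (Y : List Bool × List Bool) : Prop :=
  op T Y ∈ GW P ∧ CutPI P.j P.a P.m P.η T.1 Y.1 T.2.1 T.2.2 Y.2 ∧ Jbl P T ∧
    (Y.1.length : ℝ) + Y.2.length ≤ P.A1 * ml P.j

/-- the admissible pairs of cuts of `L` -/
def AD (P : Par) (L : PT) : Set (PT × (List Bool × List Bool)) := {p | Adm P p.1 p.2 ∧ op p.1 p.2 = L}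

/-- their number -/
noncomputable def NN (P : Par) (L : PT) : ℕ := (AD P L).ncard

/-- **good open pairs**: many admissible pairs of cuts -/
def Many (P : Par) (L : PT) : Prop := P.κ ^ 2 * Ub P.j ^ 2 ≤ (NN P L : ℝ) ∧ P.Z L

/-- **the data of the transport**: open pairs, marked words, outer parts, tips, fillings with a letter and the last letter -/
noncomputable def dat (P : Par) :
    Pool.Agent.NuG.Dat PT (List Bool × ℕ) PT (List Bool × List Bool) (List Bool × ℕ × Bool) where
  adm := Adm P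
  op := op
  good := Many P
  fil := fun T q => q.1 ∈ Fil P T ∧ q.2.1 < q.1.length
  cl := jo
  wM := fun T => wE T.1 * wE T.2.2
  wT := fun Y => wE Y.1 * wE Y.2
  wQ := fun q => wE (q.1 ++ [q.2.2])
  wL := fun L => wE L.1 * wE L.2.2

/-- **the transport** -/
noncomputable abbrev nu (P : Par) (L : PT) (K : List Bool × ℕ) : ℝ≥0∞ := (dat P).nu L K

/-- **the weight of the tips** of the outer part -/
noncomputable abbrev th (P : Par) (T : PT) : ℝ≥0∞ := (dat P).th T

/-- **the weight of the fillings** with a letter and the last letter -/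
noncomputable abbrev gF (P : Par) (T : PT) : ℝ≥0∞ := (dat P).gF T

/-- **the density** -/
noncomputable abbrev DD (P : Par) (K : List Bool × ℕ) : ℝ≥0∞ := (dat P).DD K

lemma dec_eq (P : Par) (L : PT) : (dat P).dec L = AD P L := rfl

lemma N_eq (P : Par) (L : PT) : (dat P).N L = NN P L := rfl

/-! ### locality -/

/-- the set of the differences is invariant under the rotations -/
def SInv (S : Set Pt) : Prop := ∀ v p : Pt, nrm v = 1 → p ∈ S → mulE v p ∈ S

/-- all vertices except for those of `T` letters on both sides of the mark are outside of the ball of radius `2 ^ w` around it -/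
def Far (T w : ℕ) (K : List Bool × ℕ) : Prop :=
  T ≤ K.2 ∧ K.2 + T ≤ K.1.length ∧
    ∀ i, i ≤ K.1.length → (i + T ≤ K.2 ∨ K.2 + T ≤ i) → 2 ^ w < TIW.hn (vx oo up K.1 i - vx oo up K.1 K.2)

/-- the window: `T` letters on both sides of the mark -/
def win (T : ℕ) (K : List Bool × ℕ) : List Bool := (K.1.take (K.2 + T)).drop (K.2 - T)

/-- the property `Z` is local -/
def LocZ (P : Par) (w1 : ℕ) : Prop := ∀ (t1 t2 w : ℕ) (L L' : PT), P.j + w1 ≤ w → NrP t1 t2 w L L' →
  (P.A + P.A1) * ml P.j ≤ t1 → (P.A + P.A1) * ml P.j ≤ t2 → (P.Z L ↔ P.Z L')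

/-- **(Loc) for pairs**: on `Far` the density only depends on the window; `T` is free (44: `T = δ n`) -/
def LocD : Prop := ∀ (H Mx m w1 : ℕ), ∃ w0 : ℕ, ∀ P : Par, P.H = H → P.Mx = Mx → P.m = m → LocZ P w1 → SInv P.S →
  (∀ p ∈ P.S, TIW.hn p ≤ 2 ^ P.j) → 0 ≤ P.A → 0 ≤ P.A1 → ∀ T w : ℕ, P.j + w0 ≤ w → 4 * (P.A + P.A1) * ml P.j ≤ T →
    ∀ K K' : List Bool × ℕ, K.1 ∈ SA → K'.1 ∈ SA → Far T w K → Far T w K' → win T K = win T K' → DD P K = DD P K'

end RMP

end HexObs
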