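import Pool.Agent.RMP.KaDen
import Pool.Agent.RMP.DefsK
import Pool.Agent.PMA.Kern

/-!
# RMP, row KA (helper90), part 2: the kernel for an abstract transport

* `kernD` : the kernel lemma, the error of the comparison of the functions is counted once;
* `BB` : the closed objects (words with a mark in the rectangle), `sum_BB`;
* `h7_N` : the mean over the marks of a local function, words with N letters;
* **`ka_core`** : the comparison of the mean over the open pairs with the mixture of the means over the words.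
-/

set_option autoImplicit false

namespace HexObs

namespace RMP

namespace KA

open Finset TS SDN TIW NPR

open Pool.Agent.TSW (VW)

open scoped ENNReal Classical

/-! ### 1. The kernel lemma -/

/-- the kernel lemma, with the error `δ` of the functions -/
theorem kernD {α β : Type*} {A : Finset α} {B : Finset β} {p f : α → ℝ} {q g D Dl : β → ℝ} {ν : α → β → ℝ} {ε δ : ℝ}
    (hq : ∀ b ∈ B, 0 ≤ q b) (hq1 : ∑ b ∈ B, q b ≤ 1) (hp1 : ∑ a ∈ A, p a ≤ 1)
    (hf : ∀ a ∈ A, |f a| ≤ 1) (hg : ∀ b ∈ B, |g b| ≤ 1) (h1 : ∀ a ∈ A, ∑ b ∈ B, ν a b ≤ p a)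
    (h2 : 1 - ε ≤ ∑ a ∈ A, ∑ b ∈ B, ν a b) (h3 : ∀ b ∈ B, ∑ a ∈ A, ν a b = D b * q b)
    (h4 : ∑ a ∈ A, ∑ b ∈ B, |ν a b| * |f a - g b| ≤ δ)
    (h6 : ∑ b ∈ B, q b * |D b - Dl b| ≤ ε)
    (h7 : |∑ b ∈ B, q b * (g b * Dl b) - (∑ b ∈ B, q b * g b) * ∑ b ∈ B, q b * Dl b| ≤ ε) :
    |∑ a ∈ A, p a * f a - ∑ b ∈ B, q b * g b| ≤ δ + 5 * ε := by
  obtain ⟨T, hT⟩ : ∃ T, T = ∑ a ∈ A, ∑ b ∈ B, ν a b := ⟨_, rfl⟩
  have hT1 : T ≤ 1 := by
    rw [hT]
    exact (sum_le_sum h1).trans hp1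
  have hT2 : 1 - ε ≤ T := hT ▸ h2
  have hTD : T = ∑ b ∈ B, q b * D b := by
    rw [hT, sum_comm]
    exact sum_congr rfl fun b hb => by rw [h3 b hb, mul_comm]
  have e1 : |∑ a ∈ A, p a * f a - ∑ a ∈ A, ∑ b ∈ B, ν a b * f a| ≤ ε := by
    rw [← sum_sub_distrib]
    refine (abs_sum_le_sum_abs _ _).trans ?_
    have h : ∀ a ∈ A, |p a * f a - ∑ b ∈ B, ν a b * f a| ≤ p a - ∑ b ∈ B, ν a b := by
      intro a ha
      rw [← sum_mul, ← sub_mul, abs_mul]
      have a1 : 0 ≤ p a - ∑ b ∈ B, ν a b := sub_nonneg.2 (h1 a ha)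
      rw [abs_of_nonneg a1]
      calc (p a - ∑ b ∈ B, ν a b) * |f a| ≤ (p a - ∑ b ∈ B, ν a b) * 1 := mul_le_mul_of_nonneg_left (hf a ha) a1
        _ = _ := mul_one _
    refine (sum_le_sum h).trans ?_
    rw [sum_sub_distrib, ← hT]
    have : ∑ a ∈ A, p a ≤ 1 := hp1
    linarith
  have e2 : |∑ a ∈ A, ∑ b ∈ B, ν a b * f a - ∑ a ∈ A, ∑ b ∈ B, ν a b * g b| ≤ δ := by
    rw [← sum_sub_distrib]
    refine (abs_sum_le_sum_abs _ _).trans ((sum_le_sum fun a ha => ?_).trans h4)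
    rw [← sum_sub_distrib]
    refine (abs_sum_le_sum_abs _ _).trans (sum_le_sum fun b hb => ?_)
    rw [← mul_sub, abs_mul]
  have e3 : ∑ a ∈ A, ∑ b ∈ B, ν a b * g b = ∑ b ∈ B, q b * (g b * D b) := by
    rw [sum_comm]
    refine sum_congr rfl fun b hb => ?_
    rw [← sum_mul, h3 b hb]
    ring
  have e5 : |∑ b ∈ B, q b * (g b * D b) - ∑ b ∈ B, q b * (g b * Dl b)| ≤ ε := by
    rw [← sum_sub_distrib]
    refine ((abs_sum_le_sum_abs _ _).trans (sum_le_sum fun b hb => ?_)).trans h6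
    rw [← mul_sub, ← mul_sub, abs_mul, abs_mul, abs_of_nonneg (hq b hb)]
    refine mul_le_mul_of_nonneg_left ?_ (hq b hb)
    calc |g b| * |D b - Dl b| ≤ 1 * |D b - Dl b| := mul_le_mul_of_nonneg_right (hg b hb) (abs_nonneg _)
      _ = _ := one_mul _
  have e7 : |∑ b ∈ B, q b * D b - ∑ b ∈ B, q b * Dl b| ≤ ε := by
    rw [← sum_sub_distrib]
    refine ((abs_sum_le_sum_abs _ _).trans (sum_le_sum fun b hb => ?_)).trans h6
    rw [← mul_sub, abs_mul, abs_of_nonneg (hq b hb)]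
  have m2 := abs_le.1 e5
  have m4 := abs_le.1 e7
  obtain ⟨M, hM⟩ : ∃ M, M = ∑ b ∈ B, q b * Dl b := ⟨_, rfl⟩
  obtain ⟨Gm, hGm⟩ : ∃ Gm, Gm = ∑ b ∈ B, q b * g b := ⟨_, rfl⟩
  rw [← hM] at m4 h7
  rw [← hGm] at h7
  have hM1 : |M - 1| ≤ 2 * ε := by
    rw [abs_le]
    constructor <;> linarith [m4.1, m4.2]
  have hG1 : |Gm| ≤ 1 := by
    rw [hGm]
    refine (abs_sum_le_sum_abs _ _).trans ((sum_le_sum fun b hb => ?_).trans hq1)
    rw [abs_mul, abs_of_nonneg (hq b hb)]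
    calc q b * |g b| ≤ q b * 1 := mul_le_mul_of_nonneg_left (hg b hb) (hq b hb)
      _ = q b := mul_one _
  have e8 : |Gm * M - Gm| ≤ 2 * ε := by
    have : Gm * M - Gm = Gm * (M - 1) := by ring
    rw [this, abs_mul]
    calc |Gm| * |M - 1| ≤ 1 * |M - 1| := mul_le_mul_of_nonneg_right hG1 (abs_nonneg _)
      _ ≤ _ := by rw [one_mul]; exact hM1
  rw [← hGm]
  have n1 := abs_le.1 e1
  have n2 := abs_le.1 e2
  have n7 := abs_le.1 h7
  have n8 := abs_le.1 e8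
  rw [e3] at n2
  rw [abs_le]
  constructor <;> linarith [n1.1, n1.2, n2.1, n2.2, m2.1, m2.2, n7.1, n7.2, n8.1, n8.2]

/-! ### 2. The closed objects -/

/-- the closed objects: words with a mark in the rectangle -/
noncomputable def BB (M a b c e : ℕ) : Finset (List Bool × ℕ) :=
  (Finset.range M).biUnion fun N => sawF N ×ˢ rk a b c e N

lemma sum_BB {M a b c e : ℕ} (F : List Bool × ℕ → ℝ) :
    ∑ K ∈ BB M a b c e, F K = ∑ N ∈ Finset.range M, ∑ H ∈ sawF N, ∑ k ∈ rk a b c e N, F (H, k) := by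
  unfold BB
  rw [Finset.sum_biUnion]
  · refine sum_congr rfl fun N _ => ?_
    rw [Finset.sum_product]
  · intro N _ N' _ hne
    rw [Function.onFun, Finset.disjoint_left]
    rintro ⟨H, k⟩ h1 h2
    rw [Finset.mem_product] at h1 h2
    exact hne ((mem_sawF.1 h1.1).1.symm.trans (mem_sawF.1 h2.1).1)

lemma mem_rk {a b c e N k : ℕ} : k ∈ rk a b c e N ↔ (a ≤ k ∧ k ≤ b) ∧ k + c ≤ N ∧ N ≤ k + e := by
  unfold rk
  rw [Finset.mem_filter, Finset.mem_Icc]

lemma mem_BB {M a b c e : ℕ} {K : List Bool × ℕ} :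
    K ∈ BB M a b c e ↔ K.1.length < M ∧ K.1 ∈ SA ∧ K.2 ∈ rk a b c e K.1.length := by
  unfold BB
  rw [Finset.mem_biUnion]
  constructor
  · rintro ⟨N, h1, h2⟩
    rw [Finset.mem_product] at h2
    obtain ⟨h3, h4⟩ := mem_sawF.1 h2.1
    rw [Finset.mem_range] at h1
    subst h3
    exact ⟨h1, h4, h2.2⟩
  · rintro ⟨h1, h2, h3⟩
    refine ⟨K.1.length, Finset.mem_range.2 h1, ?_⟩
    rw [Finset.mem_product]
    exact ⟨mem_sawF.2 ⟨rfl, h2⟩, h3⟩

/-- the marks of the words with `N` letters are an interval -/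
lemma rk_Ico {a b c e N : ℕ} (h : (rk a b c e N).Nonempty) :
    ∃ x y : ℕ, rk a b c e N = Finset.Ico x y ∧ x < y ∧ a ≤ x ∧ y + c ≤ N + 1 := by
  obtain ⟨k, hk⟩ := h
  rw [mem_rk] at hk
  refine ⟨max a (N - e), min b (N - c) + 1, ?_, ?_, le_max_left _ _, ?_⟩
  · ext i
    rw [mem_rk, Finset.mem_Ico]
    omega
  · omega
  · omega

/-- the sum of the indicator of a set of words -/
lemma sum_ind_Pn (N : ℕ) (Q : Set (List Bool)) : ∑ t ∈ sawF N, TIP.ind (t ∈ Q) = cS N * TOG.Pn N Q := by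
  rw [MCP.Pn_Eu]
  unfold MCP.Eu
  rw [mul_div_cancel₀ _ (MCP.cS0 N).ne']

/-- **the mean over the marks of a local function**, words with `N` letters -/
lemma h7_N {T a b c e N : ℕ} {ρ ε : ℝ} {φ : List Bool → ℝ} {G : List Bool → ℝ} (hT : 1 ≤ T) (ha : T ≤ a) (hc : T ≤ c)
    (hφ : ∀ v, 0 ≤ φ v ∧ φ v ≤ 1) (hG : ∀ t, 0 ≤ G t ∧ G t ≤ 1) (hρ : 0 ≤ ρ) (hρ2 : ρ ≤ 2)
    (hne : (rk a b c e N).Nonempty)
    (hP : TOG.Pn N {t | ¬ ∀ x y : ℕ, x ≤ y → y ≤ t.length →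
      |VW (fun v : Fin (2 * T) → Bool => φ (List.ofFn v)) (wd t x y) - ρ * ((y : ℝ) - x)| ≤ ε * N} ≤ ε) (hε : 0 ≤ ε) :
    |∑ H ∈ sawF N, (G H * ∑ k ∈ rk a b c e N, φ (wn T (H, k))) - ρ * (rk a b c e N).card * ∑ H ∈ sawF N, G H| ≤
      cS N * (3 * ε * N + 4 * T) := by
  obtain ⟨x, y, hxy, hlt, hax, hyc⟩ := rk_Ico hne
  rw [hxy, Nat.card_Ico]
  obtain ⟨Q, hQ⟩ : ∃ Q : Set (List Bool), Q = {t | ¬ ∀ x y : ℕ, x ≤ y → y ≤ t.length →
      |VW (fun v : Fin (2 * T) → Bool => φ (List.ofFn v)) (wd t x y) - ρ * ((y : ℝ) - x)| ≤ ε * N} := ⟨_, rfl⟩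
  rw [← hQ] at hP
  have hyN : (y : ℝ) ≤ N := by exact_mod_cast (by omega : y ≤ N)
  have hsub : ((y - x : ℕ) : ℝ) = (y : ℝ) - x := by rw [Nat.cast_sub hlt.le]
  have hT' : (1 : ℝ) ≤ T := by exact_mod_cast hT
  have hx0 : (0 : ℝ) ≤ x := Nat.cast_nonneg x
  have hxy' : (x : ℝ) ≤ y := by exact_mod_cast hlt.le
  have key : ∀ H ∈ sawF N, |(∑ k ∈ Finset.Ico x y, φ (wn T (H, k))) - ρ * ((y - x : ℕ) : ℝ)| ≤
      (ε * N + 4 * T) + 2 * N * TIP.ind (H ∈ Q) := by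
    intro H hH
    have hlen : H.length = N := (mem_sawF.1 hH).1
    by_cases hb : H ∈ Q
    · rw [TIP.ind_pos hb]
      have h1 : (0 : ℝ) ≤ ∑ k ∈ Finset.Ico x y, φ (wn T (H, k)) := sum_nonneg fun k _ => (hφ _).1
      have h2 : ∑ k ∈ Finset.Ico x y, φ (wn T (H, k)) ≤ ((y - x : ℕ) : ℝ) := by
        refine (sum_le_card_nsmul _ _ 1 fun k _ => (hφ _).2).trans ?_
        rw [Nat.card_Ico, nsmul_eq_mul, mul_one]
      rw [hsub] at h2 ⊢
      have h3 : ρ * ((y : ℝ) - x) ≤ 2 * N := by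
        calc ρ * ((y : ℝ) - x) ≤ 2 * ((y : ℝ) - x) := mul_le_mul_of_nonneg_right hρ2 (by linarith)
          _ ≤ 2 * N := by linarith
      have h4 : 0 ≤ ρ * ((y : ℝ) - x) := mul_nonneg hρ (by linarith)
      have h5 : 0 ≤ ε * N := mul_nonneg hε (Nat.cast_nonneg N)
      rw [abs_le]
      constructor <;> linarith
    · rw [TIP.ind_neg hb, mul_zero, add_zero]
      rw [hQ] at hb
      have hg : ∀ x y : ℕ, x ≤ y → y ≤ H.length →
        |VW (fun v : Fin (2 * T) → Bool => φ (List.ofFn v)) (wd H x y) - ρ * ((y : ℝ) - x)| ≤ ε * N := not_not.1 hb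
      have h1 := hg (x - T) (y + T - 1) (by omega) (by omega)
      rw [← sum_wn φ hT (by omega) hlt.le (by omega)] at h1
      have e1 : ((y + T - 1 : ℕ) : ℝ) = (y : ℝ) + T - 1 := by
        rw [Nat.cast_sub (by omega)]
        push_cast
        ring
      have e2 : ((x - T : ℕ) : ℝ) = (x : ℝ) - T := by rw [Nat.cast_sub (by omega)]
      rw [e1, e2] at h1
      rw [hsub]
      have h2 : ρ * (2 * (T : ℝ) - 1) ≤ 4 * T := by
        calc ρ * (2 * (T : ℝ) - 1) ≤ 2 * (2 * (T : ℝ) - 1) := mul_le_mul_of_nonneg_right hρ2 (by linarith)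
          _ ≤ 4 * T := by linarith
      have h3 : 0 ≤ ρ * (2 * (T : ℝ) - 1) := mul_nonneg hρ (by linarith)
      rw [abs_le] at h1 ⊢
      constructor <;> nlinarith [h1.1, h1.2]
  have h1 : ∑ H ∈ sawF N, (G H * ∑ k ∈ Finset.Ico x y, φ (wn T (H, k))) - ρ * ((y - x : ℕ) : ℝ) * ∑ H ∈ sawF N, G H =
      ∑ H ∈ sawF N, G H * ((∑ k ∈ Finset.Ico x y, φ (wn T (H, k))) - ρ * ((y - x : ℕ) : ℝ)) := by
    rw [mul_sum, ← sum_sub_distrib]
    exact sum_congr rfl fun H _ => by ring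
  rw [h1]
  refine (abs_sum_le_sum_abs _ _).trans ?_
  have h2 : ∀ H ∈ sawF N, |G H * ((∑ k ∈ Finset.Ico x y, φ (wn T (H, k))) - ρ * ((y - x : ℕ) : ℝ))| ≤
      (ε * N + 4 * T) + 2 * N * TIP.ind (H ∈ Q) := by
    intro H hH
    rw [abs_mul, abs_of_nonneg (hG H).1]
    calc G H * _ ≤ 1 * _ := mul_le_mul_of_nonneg_right (hG H).2 (abs_nonneg _)
      _ = _ := one_mul _
      _ ≤ _ := key H hH
  refine (sum_le_sum h2).trans ?_
  rw [sum_add_distrib, sum_const, nsmul_eq_mul, card_sawF, ← mul_sum, sum_ind_Pn]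
  have hc0 := MCP.cS0 N
  have h3 : (cS N : ℝ) * TOG.Pn N Q ≤ cS N * ε := mul_le_mul_of_nonneg_left hP hc0.le
  have hN : (0 : ℝ) ≤ 2 * N := by positivity
  have h4 := mul_le_mul_of_nonneg_left h3 hN
  nlinarith

/-! ### 3. Sums over the closed objects -/

/-- the weight of a closed object -/
noncomputable def qK (Z : ℝ) (K : List Bool × ℕ) : ℝ := xc ^ K.1.length / Z

lemma sum_BBq {M a b c e : ℕ} {Z : ℝ} (F : List Bool × ℕ → ℝ) : ∑ K ∈ BB M a b c e, qK Z K * F K =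
    ∑ N ∈ Finset.range M, xc ^ N / Z * ∑ H ∈ sawF N, ∑ k ∈ rk a b c e N, F (H, k) := by
  rw [sum_BB]
  refine sum_congr rfl fun N _ => ?_
  rw [mul_sum]
  refine sum_congr rfl fun H hH => ?_
  rw [mul_sum]
  refine sum_congr rfl fun k _ => ?_
  unfold qK
  simp only
  rw [(mem_sawF.1 hH).1]

/-- a sum of a function of the word -/
lemma sum_BBw {M a b c e : ℕ} {Z : ℝ} (F : List Bool → ℝ) : ∑ K ∈ BB M a b c e, qK Z K * F K.1 =
    ∑ N ∈ Finset.range M, xc ^ N / Z * ((rk a b c e N).card * ∑ H ∈ sawF N, F H) := by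
  rw [sum_BBq]
  refine sum_congr rfl fun N _ => ?_
  congr 1
  rw [mul_sum]
  refine sum_congr rfl fun H _ => ?_
  simp only
  rw [sum_const, nsmul_eq_mul]

lemma sum_BB1 {M a b c e : ℕ} {Z : ℝ} (hZ : Z = ZR M a b c e) (hZ0 : 0 < Z) :
    ∑ N ∈ Finset.range M, xc ^ N / Z * ((rk a b c e N).card * (cS N : ℝ)) = 1 := by
  have h1 : ∑ N ∈ Finset.range M, xc ^ N / Z * ((rk a b c e N).card * (cS N : ℝ)) = ZR M a b c e / Z := by
    unfold ZR aN
    rw [sum_div]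
    exact sum_congr rfl fun N _ => by ring
  rw [h1, ← hZ, div_self hZ0.ne']

/-- the part of the small rectangle -/
lemma sum_BB' {M a b c e a' b' c' e' : ℕ} {Z : ℝ} (hsub : ∀ N, rk a' b' c' e' N ⊆ rk a b c e N)
    (F : List Bool × ℕ → ℝ) :
    ∑ K ∈ BB M a b c e, qK Z K * (if K ∈ BB M a' b' c' e' then F K else 0) =
      ∑ N ∈ Finset.range M, xc ^ N / Z * ∑ H ∈ sawF N, ∑ k ∈ rk a' b' c' e' N, F (H, k) := by
  rw [sum_BBq]
  refine sum_congr rfl fun N hN => ?_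
  congr 1
  refine sum_congr rfl fun H hH => ?_
  have h1 : ∀ k, ((H, k) ∈ BB M a' b' c' e') ↔ k ∈ rk a' b' c' e' N := by
    intro k
    rw [mem_BB]
    obtain ⟨h3, h4⟩ := mem_sawF.1 hH
    simp only [h3]
    exact ⟨fun h => h.2.2, fun h => ⟨Finset.mem_range.1 hN, h4, h⟩⟩
  simp only [h1]
  rw [← Finset.sum_filter, Finset.filter_mem_eq_inter, Finset.inter_eq_right.2 (hsub N)]

lemma sum_qK {M a b c e : ℕ} {Z : ℝ} : ∑ K ∈ BB M a b c e, qK Z K =
    ∑ N ∈ Finset.range M, xc ^ N / Z * ((rk a b c e N).card * (cS N : ℝ)) := by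
  have h := sum_BBw (M := M) (a := a) (b := b) (c := c) (e := e) (Z := Z) (fun _ => (1 : ℝ))
  simp only [mul_one, sum_const, nsmul_eq_mul, card_sawF] at h
  exact h

lemma qK_pos {Z : ℝ} (hZ0 : 0 < Z) (K : List Bool × ℕ) : 0 < qK Z K := div_pos (pow_pos xc_pos _) hZ0

/-! ### 4. The mean of the local density -/

/-- **(h7)** -/
lemma h7_all {M a b c e a' b' c' e' T : ℕ} {Z Lam C εd β ρ : ℝ} {φ : List Bool → ℝ} {G : List Bool → ℝ}
    (hT : 1 ≤ T) (ha : T ≤ a') (hc : T ≤ c') (hM : 0 < M) (hZ : Z = ZR M a b c e) (hZ0 : 0 < Z)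
    (hsub : ∀ N, rk a' b' c' e' N ⊆ rk a b c e N) (hφ : ∀ v, 0 ≤ φ v ∧ φ v ≤ 1) (hG : ∀ t, 0 ≤ G t ∧ G t ≤ 1)
    (hLam : 0 ≤ Lam) (hρ : 0 ≤ ρ) (hρ2 : ρ ≤ 2) (hεd : 0 ≤ εd)
    (hC : ∑ N ∈ Finset.range M, (if (rk a b c e N).Nonempty then aN N else 0) * M ≤ C * Z)
    (hP : ∀ N, N < M → (rk a' b' c' e' N).Nonempty → TOG.Pn N {t | ¬ ∀ x y : ℕ, x ≤ y → y ≤ t.length →
      |VW (fun v : Fin (2 * T) → Bool => φ (List.ofFn v)) (wd t x y) - ρ * ((y : ℝ) - x)| ≤ εd * N} ≤ εd)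
    (hβ : ∑ N ∈ Finset.range M, aN N * ((rk a b c e N).card - (rk a' b' c' e' N).card : ℝ) ≤ β * Z) :
    |∑ K ∈ BB M a b c e, qK Z K * (G K.1 * (if K ∈ BB M a' b' c' e' then Lam * φ (wn T K) else 0)) -
      (∑ K ∈ BB M a b c e, qK Z K * G K.1) *
        ∑ K ∈ BB M a b c e, qK Z K * (if K ∈ BB M a' b' c' e' then Lam * φ (wn T K) else 0)| ≤
      2 * (Lam * (C * (3 * εd + 4 * T / M))) + 2 * Lam * β := by
  have hM' : (0 : ℝ) < M := by exact_mod_cast hM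
  -- the first two sums
  have key : ∀ G : List Bool → ℝ, (∀ t, 0 ≤ G t ∧ G t ≤ 1) →
      |∑ K ∈ BB M a b c e, qK Z K * (if K ∈ BB M a' b' c' e' then G K.1 * (Lam * φ (wn T K)) else 0) -
        Lam * ρ * ∑ N ∈ Finset.range M, xc ^ N / Z * ((rk a' b' c' e' N).card * ∑ H ∈ sawF N, G H)| ≤
        Lam * (C * (3 * εd + 4 * T / M)) := by
    intro G hG
    rw [sum_BB' hsub (fun K => G K.1 * (Lam * φ (wn T K))), mul_sum, ← sum_sub_distrib]
    refine (abs_sum_le_sum_abs _ _).trans ?_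
    have h1 : ∀ N ∈ Finset.range M, |xc ^ N / Z * ∑ H ∈ sawF N, ∑ k ∈ rk a' b' c' e' N, G (H, k).1 * (Lam * φ (wn T (H, k))) -
        Lam * ρ * (xc ^ N / Z * ((rk a' b' c' e' N).card * ∑ H ∈ sawF N, G H))| ≤
        Lam / Z * (3 * εd + 4 * T / M) * ((if (rk a b c e N).Nonempty then aN N else 0) * M) := by
      intro N hN
      have hN' : (N : ℝ) ≤ M := by exact_mod_cast (Finset.mem_range.1 hN).le
      have hx : 0 < xc ^ N / Z := div_pos (pow_pos xc_pos _) hZ0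
      have hmT : (0 : ℝ) ≤ T / M := by positivity
      by_cases hne : (rk a' b' c' e' N).Nonempty
      · rw [if_pos (hne.mono (hsub N))]
        have h2 := h7_N (e := e') hT ha hc hφ hG hρ hρ2 hne (hP N (Finset.mem_range.1 hN) hne) hεd
        have e1 : xc ^ N / Z * ∑ H ∈ sawF N, ∑ k ∈ rk a' b' c' e' N, G (H, k).1 * (Lam * φ (wn T (H, k))) -
            Lam * ρ * (xc ^ N / Z * ((rk a' b' c' e' N).card * ∑ H ∈ sawF N, G H)) =
            xc ^ N / Z * Lam * (∑ H ∈ sawF N, (G H * ∑ k ∈ rk a' b' c' e' N, φ (wn T (H, k))) -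
              ρ * (rk a' b' c' e' N).card * ∑ H ∈ sawF N, G H) := by
          have e2 : ∑ H ∈ sawF N, ∑ k ∈ rk a' b' c' e' N, G (H, k).1 * (Lam * φ (wn T (H, k))) =
              Lam * ∑ H ∈ sawF N, (G H * ∑ k ∈ rk a' b' c' e' N, φ (wn T (H, k))) := by
            rw [mul_sum]
            refine sum_congr rfl fun H _ => ?_
            rw [mul_sum, mul_sum]
            exact sum_congr rfl fun k _ => by simp only; ring
          rw [e2]
          ring
        rw [e1, abs_mul, abs_of_nonneg (mul_nonneg hx.le hLam)]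
        refine (mul_le_mul_of_nonneg_left h2 (mul_nonneg hx.le hLam)).trans ?_
        have h3 : 3 * εd * N + 4 * T ≤ (3 * εd + 4 * T / M) * M := by
          rw [add_mul, div_mul_cancel₀ _ hM'.ne']
          have : 3 * εd * N ≤ 3 * εd * M := mul_le_mul_of_nonneg_left hN' (by positivity)
          linarith
        have h4 : (0 : ℝ) ≤ cS N := Nat.cast_nonneg _
        calc xc ^ N / Z * Lam * (cS N * (3 * εd * N + 4 * T)) ≤
              xc ^ N / Z * Lam * (cS N * ((3 * εd + 4 * T / M) * M)) :=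
            mul_le_mul_of_nonneg_left (mul_le_mul_of_nonneg_left h3 h4) (mul_nonneg hx.le hLam)
          _ = _ := by
            unfold aN
            ring
      · rw [Finset.not_nonempty_iff_eq_empty] at hne
        rw [hne]
        simp only [Finset.sum_empty, Finset.sum_const_zero, mul_zero, Finset.card_empty, Nat.cast_zero, zero_mul, sub_zero,
          abs_zero]
        have h3 : (0 : ℝ) ≤ if (rk a b c e N).Nonempty then aN N else 0 := by
          split_ifs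
          · unfold aN
            have := xc_pos
            positivity
          · exact le_rfl
        have h4 : 0 ≤ Lam / Z := div_nonneg hLam hZ0.le
        positivity
    refine (sum_le_sum h1).trans ?_
    rw [← mul_sum]
    have h2 : 0 ≤ Lam / Z * (3 * εd + 4 * T / M) := by
      have h4 : 0 ≤ Lam / Z := div_nonneg hLam hZ0.le
      positivity
    refine (mul_le_mul_of_nonneg_left hC h2).trans ?_
    apply le_of_eq
    field_simp
  -- the sums
  have k1 := key G hG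
  have k2 := key (fun _ => 1) (fun _ => ⟨zero_le_one, le_rfl⟩)
  simp only [one_mul, sum_const, nsmul_eq_mul, mul_one, card_sawF] at k2
  have e0 : ∀ K : List Bool × ℕ, G K.1 * (if K ∈ BB M a' b' c' e' then Lam * φ (wn T K) else 0) =
      if K ∈ BB M a' b' c' e' then G K.1 * (Lam * φ (wn T K)) else 0 := fun K => by
    rw [mul_ite, mul_zero]
  simp only [e0]
  obtain ⟨X1, hX1⟩ : ∃ X, X = ∑ K ∈ BB M a b c e, qK Z K * (if K ∈ BB M a' b' c' e' then G K.1 * (Lam * φ (wn T K)) else 0) :=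
    ⟨_, rfl⟩
  obtain ⟨X2, hX2⟩ : ∃ X, X = ∑ K ∈ BB M a b c e, qK Z K * (if K ∈ BB M a' b' c' e' then Lam * φ (wn T K) else 0) := ⟨_, rfl⟩
  obtain ⟨X3, hX3⟩ : ∃ X, X = ∑ K ∈ BB M a b c e, qK Z K * G K.1 := ⟨_, rfl⟩
  obtain ⟨IG, hIG⟩ : ∃ X, X = ∑ N ∈ Finset.range M, xc ^ N / Z * ((rk a' b' c' e' N).card * ∑ H ∈ sawF N, G H) := ⟨_, rfl⟩
  obtain ⟨I1, hI1⟩ : ∃ X, X = ∑ N ∈ Finset.range M, xc ^ N / Z * ((rk a' b' c' e' N).card * (cS N : ℝ)) := ⟨_, rfl⟩
  rw [← hX1, ← hIG] at k1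
  rw [← hX2, ← hI1] at k2
  rw [← hX1, ← hX2, ← hX3]
  have hGs : ∀ N, 0 ≤ ∑ H ∈ sawF N, G H ∧ ∑ H ∈ sawF N, G H ≤ cS N := by
    intro N
    refine ⟨sum_nonneg fun H _ => (hG H).1, ?_⟩
    refine (sum_le_card_nsmul _ _ 1 fun H _ => (hG H).2).trans ?_
    rw [nsmul_eq_mul, mul_one, card_sawF]
  have hcard : ∀ N, ((rk a' b' c' e' N).card : ℝ) ≤ (rk a b c e N).card := fun N => by
    exact_mod_cast Finset.card_le_card (hsub N)
  have s1 : ∑ N ∈ Finset.range M, xc ^ N / Z * (((rk a b c e N).card - (rk a' b' c' e' N).card : ℝ) * (cS N : ℝ)) ≤ β := by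
    have e1 : ∑ N ∈ Finset.range M, xc ^ N / Z * (((rk a b c e N).card - (rk a' b' c' e' N).card : ℝ) * (cS N : ℝ)) =
        (∑ N ∈ Finset.range M, aN N * ((rk a b c e N).card - (rk a' b' c' e' N).card : ℝ)) / Z := by
      unfold aN
      rw [sum_div]
      exact sum_congr rfl fun N _ => by ring
    rw [e1, div_le_iff₀ hZ0]
    exact hβ
  have t1 : 0 ≤ X3 - IG ∧ X3 - IG ≤ β := by
    rw [hX3, sum_BBw, hIG, ← sum_sub_distrib]
    constructor
    · refine sum_nonneg fun N _ => ?_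
      rw [← mul_sub, ← sub_mul]
      exact mul_nonneg (div_nonneg (pow_nonneg xc_pos.le _) hZ0.le) (mul_nonneg (sub_nonneg.2 (hcard N)) (hGs N).1)
    · refine (sum_le_sum fun N _ => ?_).trans s1
      rw [← mul_sub, ← sub_mul]
      exact mul_le_mul_of_nonneg_left (mul_le_mul_of_nonneg_left (hGs N).2 (sub_nonneg.2 (hcard N)))
        (div_nonneg (pow_nonneg xc_pos.le _) hZ0.le)
  have t2 : 0 ≤ 1 - I1 ∧ 1 - I1 ≤ β := by
    rw [hI1, ← sum_BB1 hZ hZ0, ← sum_sub_distrib]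
    constructor
    · refine sum_nonneg fun N _ => ?_
      rw [← mul_sub, ← sub_mul]
      exact mul_nonneg (div_nonneg (pow_nonneg xc_pos.le _) hZ0.le) (mul_nonneg (sub_nonneg.2 (hcard N)) (Nat.cast_nonneg _))
    · refine (sum_le_sum fun N _ => ?_).trans s1
      rw [← mul_sub, ← sub_mul]
  have t3 : 0 ≤ X3 ∧ X3 ≤ 1 := by
    rw [hX3, sum_BBw]
    constructor
    · exact sum_nonneg fun N _ => mul_nonneg (div_nonneg (pow_nonneg xc_pos.le _) hZ0.le)
        (mul_nonneg (Nat.cast_nonneg _) (hGs N).1)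
    · rw [← sum_BB1 hZ hZ0]
      exact sum_le_sum fun N _ => mul_le_mul_of_nonneg_left (mul_le_mul_of_nonneg_left (hGs N).2 (Nat.cast_nonneg _))
        (div_nonneg (pow_nonneg xc_pos.le _) hZ0.le)
  obtain ⟨E, hE⟩ : ∃ E, E = Lam * (C * (3 * εd + 4 * T / M)) := ⟨_, rfl⟩
  rw [← hE] at k1 k2 ⊢
  have hE0 : 0 ≤ E := (abs_nonneg _).trans k1
  have e1 : X1 - X3 * X2 = (X1 - Lam * ρ * IG) - X3 * (X2 - Lam * ρ * I1) + Lam * ρ * ((IG - X3) + X3 * (1 - I1)) := by ring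
  have f1 : |X3 * (X2 - Lam * ρ * I1)| ≤ E := by
    rw [abs_mul, abs_of_nonneg t3.1]
    calc X3 * |X2 - Lam * ρ * I1| ≤ 1 * |X2 - Lam * ρ * I1| := mul_le_mul_of_nonneg_right t3.2 (abs_nonneg _)
      _ ≤ E := by rw [one_mul]; exact k2
  have f2 : |(IG - X3) + X3 * (1 - I1)| ≤ β := by
    have g1 : X3 * (1 - I1) ≤ β := by nlinarith [t2.1, t2.2, t3.1, t3.2]
    have g2 : 0 ≤ X3 * (1 - I1) := mul_nonneg t3.1 t2.1
    rw [abs_le]
    constructor <;> linarith [t1.1, t1.2]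
  have f3 : |Lam * ρ * ((IG - X3) + X3 * (1 - I1))| ≤ 2 * Lam * β := by
    rw [abs_mul, abs_of_nonneg (mul_nonneg hLam hρ)]
    calc Lam * ρ * |(IG - X3) + X3 * (1 - I1)| ≤ Lam * 2 * β :=
          mul_le_mul (mul_le_mul_of_nonneg_left hρ2 hLam) f2 (abs_nonneg _) (by positivity)
      _ = _ := by ring
  rw [e1]
  have g1 := abs_add_le (X1 - Lam * ρ * IG - X3 * (X2 - Lam * ρ * I1)) (Lam * ρ * ((IG - X3) + X3 * (1 - I1)))
  have g2 := abs_sub (X1 - Lam * ρ * IG) (X3 * (X2 - Lam * ρ * I1))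
  linarith

/-! ### 5. The comparison -/

/-- the weight of a pair -/
noncomputable def wL (L : PT) : ℝ := (wE L.1 * wE L.2.2).toReal

lemma wL_pos (L : PT) : 0 < wL L :=
  ENNReal.toReal_pos (mul_ne_zero (wE_pos _).ne' (wE_pos _).ne') (ENNReal.mul_ne_top (wE_ne_top _) (wE_ne_top _))

/-- **the comparison of the mean over the open pairs with the mixture of the means over the words** -/
theorem ka_core {A : Finset PT} {nu : PT → List Bool × ℕ → ℝ≥0∞} {DD : List Bool × ℕ → ℝ≥0∞} {Good : Set PT}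
    {Far : Set (List Bool × ℕ)} {M a b c e a' b' c' e' T : ℕ} {Z Gp Lam C ε εd εF β τ δ : ℝ} {Φ : PT → ℝ}
    {G : List Bool → ℝ} {Bd : Set (List Bool)}
    (hT : 1 ≤ T) (ha : T ≤ a') (hc : T ≤ c') (hM : 0 < M) (hZ : Z = ZR M a b c e) (hZ0 : 0 < Z)
    (hGp : Gp = ∑ L ∈ A, wL L) (hGp0 : 0 < Gp) (hLam : 0 < Lam) (hεd : 0 ≤ εd)
    (hsub : ∀ N, rk a' b' c' e' N ⊆ rk a b c e N)
    (rle : ∀ L ∈ A, ∑' K, nu L K ≤ wE L.1 * wE L.2.2)
    (supp : ∀ L ∈ A, ∀ K, nu L K ≠ 0 → K ∈ BB M a b c e)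
    (row : ∀ L ∈ A, L ∈ Good → ∑' K, nu L K = wE L.1 * wE L.2.2)
    (many : ∑ L ∈ A with L ∉ Good, wL L ≤ ε * Gp)
    (col_le : ∀ K ∈ BB M a b c e, ∑ L ∈ A, nu L K ≤ wE K.1 * DD K)
    (col : ∀ K ∈ BB M a' b' c' e', ∑ L ∈ A, nu L K = wE K.1 * DD K)
    (det : ∀ K ∈ BB M a b c e, DD K ≠ ∞ ∧ (DD K).toReal * Z ≤ Lam * Gp)
    (loc : ∀ K ∈ BB M a' b' c' e', ∀ K' ∈ BB M a' b' c' e', K ∈ Far → K' ∈ Far → wn T K = wn T K' → DD K = DD K')
    (far : ∀ N, N < M → (rk a b c e N).Nonempty →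
      TOG.Pn N {H | ∃ k, k ∈ rk a' b' c' e' N ∧ (H, k) ∉ Far} ≤ εF)
    (bdry : ∑ N ∈ Finset.range M, aN N * ((rk a b c e N).card - (rk a' b' c' e' N).card : ℝ) ≤ β * Z)
    (hC : ∑ N ∈ Finset.range M, (if (rk a b c e N).Nonempty then aN N else 0) * M ≤ C * Z)
    (dens : ∀ φ : List Bool → ℝ, (∀ v, 0 ≤ φ v ∧ φ v ≤ 1) → ∃ ρ : ℝ, 0 ≤ ρ ∧ ρ ≤ 2 ∧
      ∀ N, N < M → (rk a' b' c' e' N).Nonempty → TOG.Pn N {t | ¬ ∀ x y : ℕ, x ≤ y → y ≤ t.length →
        |VW (fun v : Fin (2 * T) → Bool => φ (List.ofFn v)) (wd t x y) - ρ * ((y : ℝ) - x)| ≤ εd * N} ≤ εd)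
    (hΦ : ∀ L, 0 ≤ Φ L ∧ Φ L ≤ 1) (hG : ∀ t, 0 ≤ G t ∧ G t ≤ 1)
    (hBd : ∀ N, N < M → (rk a b c e N).Nonempty → TOG.Pn N Bd ≤ τ) (hδ : 0 ≤ δ)
    (hcmp : ∀ L ∈ A, ∀ K, nu L K ≠ 0 → K.1 ∉ Bd → |Φ L - G K.1| ≤ δ)
    (hε1 : Lam * (β + εF) ≤ ε) (hε2 : 2 * (Lam * (C * (3 * εd + 4 * T / M))) + 2 * Lam * β ≤ ε) :
    |(∑ L ∈ A, wL L * Φ L) / Gp - ∑ N ∈ Finset.range M, aN N * (rk a b c e N).card / Z * MCP.Eu N G| ≤
      (δ + Lam * τ) + 5 * ε := by
  have hwt : ∀ L : PT, wE L.1 * wE L.2.2 ≠ ∞ := fun L => ENNReal.mul_ne_top (wE_ne_top _) (wE_ne_top _)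
  -- finiteness of the transport
  have hnt : ∀ L ∈ A, ∀ K, nu L K ≠ ∞ := fun L hL K =>
    ne_top_of_le_ne_top (hwt L) ((ENNReal.le_tsum K).trans (rle L hL))
  have hts : ∀ L ∈ A, ∑' K, nu L K = ∑ K ∈ BB M a b c e, nu L K := fun L hL =>
    tsum_eq_sum fun K hK => by
      by_contra h
      exact hK (supp L hL K h)
  obtain ⟨ν, hν⟩ : ∃ ν : PT → List Bool × ℕ → ℝ, ν = fun L K => (nu L K).toReal / Gp := ⟨_, rfl⟩
  have hν0 : ∀ L K, 0 ≤ ν L K := fun L K => by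
    rw [hν]
    exact div_nonneg ENNReal.toReal_nonneg hGp0.le
  have hrs : ∀ L ∈ A, ∑ K ∈ BB M a b c e, ν L K = (∑' K, nu L K).toReal / Gp := by
    intro L hL
    rw [hts L hL, ENNReal.toReal_sum fun K _ => hnt L hL K, sum_div, hν]
  have h1 : ∀ L ∈ A, ∑ K ∈ BB M a b c e, ν L K ≤ wL L / Gp := by
    intro L hL
    rw [hrs L hL]
    exact div_le_div_of_nonneg_right (ENNReal.toReal_mono (hwt L) (rle L hL)) hGp0.le
  have hp1 : ∑ L ∈ A, wL L / Gp = 1 := by rw [← sum_div, ← hGp, div_self hGp0.ne']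
  have h2 : 1 - ε ≤ ∑ L ∈ A, ∑ K ∈ BB M a b c e, ν L K := by
    have g1 : ∀ L ∈ A, wL L / Gp - (if L ∉ Good then wL L / Gp else 0) ≤ ∑ K ∈ BB M a b c e, ν L K := by
      intro L hL
      by_cases hg : L ∈ Good
      · rw [if_neg (not_not.2 hg), sub_zero, hrs L hL, row L hL hg]
        exact le_rfl
      · rw [if_pos hg, sub_self]
        exact sum_nonneg fun K _ => hν0 L K
    have g2 := sum_le_sum g1
    rw [sum_sub_distrib, hp1, ← Finset.sum_filter, ← sum_div] at g2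
    have g3 : (∑ L ∈ A with L ∉ Good, wL L) / Gp ≤ ε := by
      rw [div_le_iff₀ hGp0]
      exact many
    linarith
  have hmass : ∑ L ∈ A, ∑ K ∈ BB M a b c e, ν L K ≤ 1 := by
    rw [← hp1]
    exact sum_le_sum h1
  -- the density
  obtain ⟨D, hD⟩ : ∃ D : List Bool × ℕ → ℝ, D = fun K => (∑ L ∈ A, ν L K) / qK Z K := ⟨_, rfl⟩
  have hq0 : ∀ K, 0 < qK Z K := qK_pos hZ0
  have h3 : ∀ K, ∑ L ∈ A, ν L K = D K * qK Z K := by
    intro K
    rw [hD]
    simp only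
    rw [div_mul_cancel₀ _ (hq0 K).ne']
  have hD0 : ∀ K, 0 ≤ D K := fun K => by
    rw [hD]
    exact div_nonneg (sum_nonneg fun L _ => hν0 L K) (hq0 K).le
  have hsumν : ∀ K, ∑ L ∈ A, ν L K = (∑ L ∈ A, nu L K).toReal / Gp := by
    intro K
    rw [ENNReal.toReal_sum fun L hL => hnt L hL K, sum_div, hν]
  have hwK : ∀ K ∈ BB M a b c e, wE K.1 * DD K ≠ ∞ := fun K hK => ENNReal.mul_ne_top (wE_ne_top _) (det K hK).1
  have hDeq : ∀ K : List Bool × ℕ, (wE K.1 * DD K).toReal / Gp / qK Z K = (DD K).toReal * Z / Gp := by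
    intro K
    rw [ENNReal.toReal_mul, wE_toReal]
    unfold qK
    have : xc ^ K.1.length ≠ 0 := (pow_pos xc_pos _).ne'
    field_simp
  have hDle : ∀ K ∈ BB M a b c e, D K ≤ (DD K).toReal * Z / Gp := by
    intro K hK
    rw [← hDeq K, hD]
    simp only
    rw [hsumν K]
    exact div_le_div_of_nonneg_right (div_le_div_of_nonneg_right (ENNReal.toReal_mono (hwK K hK) (col_le K hK)) hGp0.le)
      (hq0 K).le
  have hDLam : ∀ K ∈ BB M a b c e, D K ≤ Lam := fun K hK => (hDle K hK).trans (by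
    rw [div_le_iff₀ hGp0]
    exact (det K hK).2)
  have hsubB : ∀ K, K ∈ BB M a' b' c' e' → K ∈ BB M a b c e := by
    intro K hK
    rw [mem_BB] at hK ⊢
    exact ⟨hK.1, hK.2.1, hsub _ hK.2.2⟩
  have hDin : ∀ K ∈ BB M a' b' c' e', D K = (DD K).toReal * Z / Gp := by
    intro K hK
    rw [← hDeq K, hD]
    simp only
    rw [hsumν K, col K hK]
  -- the local density
  obtain ⟨φ, hφd⟩ : ∃ φ : List Bool → ℝ, φ = fun v => if h : ∃ K, K ∈ BB M a' b' c' e' ∧ K ∈ Far ∧ wn T K = v then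
    D h.choose / Lam else 0 := ⟨_, rfl⟩
  have hφ : ∀ v, 0 ≤ φ v ∧ φ v ≤ 1 := by
    intro v
    rw [hφd]
    simp only
    split_ifs with h
    · refine ⟨div_nonneg (hD0 _) hLam.le, ?_⟩
      rw [div_le_one hLam]
      exact hDLam _ (hsubB _ h.choose_spec.1)
    · exact ⟨le_rfl, zero_le_one⟩
  have hφe : ∀ K ∈ BB M a' b' c' e', K ∈ Far → Lam * φ (wn T K) = D K := by
    intro K hK hF
    have h : ∃ K', K' ∈ BB M a' b' c' e' ∧ K' ∈ Far ∧ wn T K' = wn T K := ⟨K, hK, hF, rfl⟩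
    rw [hφd]
    simp only
    rw [dif_pos h]
    obtain ⟨g1, g2, g3⟩ := h.choose_spec
    rw [mul_div_cancel₀ _ hLam.ne', hDin _ g1, hDin K hK, loc _ g1 K hK g2 hF g3]
  obtain ⟨Dl, hDl⟩ : ∃ Dl : List Bool × ℕ → ℝ, Dl = fun K => if K ∈ BB M a' b' c' e' then Lam * φ (wn T K) else 0 := ⟨_, rfl⟩
  obtain ⟨ρ, hρ, hρ2, hP⟩ := dens φ hφ
  have hxZ : ∀ N : ℕ, 0 ≤ xc ^ N / Z := fun N => div_nonneg (pow_nonneg xc_pos.le _) hZ0.le
  have h7 := h7_all hT ha hc hM hZ hZ0 hsub hφ hG hLam.le hρ hρ2 hεd hC hP bdry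
  -- (h6)
  have h6 : ∑ K ∈ BB M a b c e, qK Z K * |D K - Dl K| ≤ ε := by
    have g1 : ∀ K ∈ BB M a b c e, qK Z K * |D K - Dl K| ≤
        qK Z K * (Lam * (1 - if K ∈ BB M a' b' c' e' then 1 else 0)) +
          qK Z K * (if K ∈ BB M a' b' c' e' then Lam * TIP.ind (K.1 ∈ {H | ∃ k, k ∈ rk a' b' c' e' H.length ∧ (H, k) ∉ Far})
            else 0) := by
      intro K hK
      rw [← mul_add]
      refine mul_le_mul_of_nonneg_left ?_ (hq0 K).le
      rw [hDl]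
      simp only
      by_cases hin : K ∈ BB M a' b' c' e'
      · rw [if_pos hin, if_pos hin, if_pos hin, sub_self, mul_zero, zero_add]
        by_cases hF : K ∈ Far
        · rw [hφe K hin hF, sub_self, abs_zero]
          exact mul_nonneg hLam.le (TIP.ind_nonneg _)
        · rw [TIP.ind_pos (show K.1 ∈ {H | ∃ k, k ∈ rk a' b' c' e' H.length ∧ (H, k) ∉ Far} from
            ⟨K.2, (mem_BB.1 hin).2.2, hF⟩), mul_one]
          have q1 := hD0 K
          have q2 := hDLam K hK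
          have q3 := hφ (wn T K)
          have q4 : Lam * φ (wn T K) ≤ Lam * 1 := mul_le_mul_of_nonneg_left q3.2 hLam.le
          have q5 : 0 ≤ Lam * φ (wn T K) := mul_nonneg hLam.le q3.1
          rw [abs_le]
          constructor <;> linarith
      · rw [if_neg hin, if_neg hin, if_neg hin, sub_zero, sub_zero, mul_one, add_zero, abs_of_nonneg (hD0 K)]
        exact hDLam K hK
    refine (sum_le_sum g1).trans ?_
    rw [sum_add_distrib]
    have g2 : ∑ K ∈ BB M a b c e, qK Z K * (Lam * (1 - if K ∈ BB M a' b' c' e' then 1 else 0)) ≤ Lam * β := by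
      have e1 : ∑ K ∈ BB M a b c e, qK Z K * (Lam * (1 - if K ∈ BB M a' b' c' e' then 1 else 0)) =
          Lam * (∑ K ∈ BB M a b c e, qK Z K -
            ∑ K ∈ BB M a b c e, qK Z K * (if K ∈ BB M a' b' c' e' then 1 else 0)) := by
        rw [← sum_sub_distrib, mul_sum]
        exact sum_congr rfl fun K _ => by ring
      rw [e1]
      refine mul_le_mul_of_nonneg_left ?_ hLam.le
      rw [sum_qK, sum_BB' hsub (fun _ => 1), ← sum_sub_distrib]
      simp only [sum_const, nsmul_eq_mul, mul_one, card_sawF]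
      have e2 : ∑ N ∈ Finset.range M, (xc ^ N / Z * ((rk a b c e N).card * (cS N : ℝ)) -
          xc ^ N / Z * ((cS N : ℝ) * (rk a' b' c' e' N).card)) =
          (∑ N ∈ Finset.range M, aN N * ((rk a b c e N).card - (rk a' b' c' e' N).card : ℝ)) / Z := by
        unfold aN
        rw [sum_div]
        exact sum_congr rfl fun N _ => by ring
      rw [e2, div_le_iff₀ hZ0]
      exact bdry
    have g3 : ∑ K ∈ BB M a b c e, qK Z K * (if K ∈ BB M a' b' c' e' then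
        Lam * TIP.ind (K.1 ∈ {H | ∃ k, k ∈ rk a' b' c' e' H.length ∧ (H, k) ∉ Far}) else 0) ≤ Lam * εF := by
      rw [sum_BB' hsub (fun K => Lam * TIP.ind (K.1 ∈ {H | ∃ k, k ∈ rk a' b' c' e' H.length ∧ (H, k) ∉ Far}))]
      have e1 : ∀ N ∈ Finset.range M, xc ^ N / Z * ∑ H ∈ sawF N, ∑ k ∈ rk a' b' c' e' N,
          Lam * TIP.ind ((H, k).1 ∈ {H | ∃ k, k ∈ rk a' b' c' e' H.length ∧ (H, k) ∉ Far}) ≤
          Lam * εF * (xc ^ N / Z * ((rk a b c e N).card * (cS N : ℝ))) := by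
        intro N hN
        rcases (rk a b c e N).eq_empty_or_nonempty with hne | hne
        · have : rk a' b' c' e' N = ∅ := Finset.subset_empty.1 (hne ▸ hsub N)
          rw [this, hne]
          simp
        · have f1 := far N (Finset.mem_range.1 hN) hne
          have f2 := sum_ind_Pn N {H | ∃ k, k ∈ rk a' b' c' e' N ∧ (H, k) ∉ Far}
          have f3 : ∑ H ∈ sawF N, ∑ k ∈ rk a' b' c' e' N,
              Lam * TIP.ind ((H, k).1 ∈ {H | ∃ k, k ∈ rk a' b' c' e' H.length ∧ (H, k) ∉ Far}) =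
              Lam * (rk a' b' c' e' N).card * ∑ H ∈ sawF N, TIP.ind (H ∈ {H | ∃ k, k ∈ rk a' b' c' e' N ∧ (H, k) ∉ Far}) := by
            rw [mul_sum]
            refine sum_congr rfl fun H hH => ?_
            simp only
            rw [sum_const, nsmul_eq_mul]
            have hl : H.length = N := (mem_sawF.1 hH).1
            have : TIP.ind (H ∈ {H | ∃ k, k ∈ rk a' b' c' e' H.length ∧ (H, k) ∉ Far}) =
                TIP.ind (H ∈ {H | ∃ k, k ∈ rk a' b' c' e' N ∧ (H, k) ∉ Far}) := by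
              apply TIP.ind_congr
              rw [Set.mem_ofPred_eq, Set.mem_ofPred_eq, hl]
            rw [this]
            ring
          rw [f3, f2]
          have f4 : (0 : ℝ) ≤ cS N := Nat.cast_nonneg _
          have f5 : ((rk a' b' c' e' N).card : ℝ) ≤ (rk a b c e N).card := by
            exact_mod_cast Finset.card_le_card (hsub N)
          have f6 : (cS N : ℝ) * TOG.Pn N {H | ∃ k, k ∈ rk a' b' c' e' N ∧ (H, k) ∉ Far} ≤ cS N * εF :=
            mul_le_mul_of_nonneg_left f1 f4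
          have f7 : 0 ≤ TOG.Pn N {H | ∃ k, k ∈ rk a' b' c' e' N ∧ (H, k) ∉ Far} := by
            unfold TOG.Pn
            positivity
          have f8 : 0 ≤ εF := f7.trans f1
          calc xc ^ N / Z * (Lam * (rk a' b' c' e' N).card * (cS N * TOG.Pn N {H | ∃ k, k ∈ rk a' b' c' e' N ∧ (H, k) ∉ Far}))
              ≤ xc ^ N / Z * (Lam * (rk a b c e N).card * (cS N * εF)) :=
                mul_le_mul_of_nonneg_left (mul_le_mul (mul_le_mul_of_nonneg_left f5 hLam.le) f6 (mul_nonneg f4 f7)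
                  (mul_nonneg hLam.le (Nat.cast_nonneg _))) (hxZ N)
            _ = _ := by ring
      refine (sum_le_sum e1).trans ?_
      rw [← mul_sum, sum_BB1 hZ hZ0, mul_one]
    linarith [hε1, mul_add Lam β εF]
  -- (h4)
  have h4 : ∑ L ∈ A, ∑ K ∈ BB M a b c e, |ν L K| * |Φ L - G K.1| ≤ δ + Lam * τ := by
    have g1 : ∀ L ∈ A, ∀ K ∈ BB M a b c e, |ν L K| * |Φ L - G K.1| ≤ δ * ν L K + ν L K * TIP.ind (K.1 ∈ Bd) := by
      intro L hL K hK
      rw [abs_of_nonneg (hν0 L K)]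
      rcases eq_or_ne (nu L K) 0 with h0 | h0
      · have : ν L K = 0 := by
          rw [hν]
          simp only
          rw [h0, ENNReal.toReal_zero, zero_div]
        rw [this]
        simp
      · by_cases hb : K.1 ∈ Bd
        · rw [TIP.ind_pos hb, mul_one]
          have q1 : |Φ L - G K.1| ≤ 1 := by
            rw [abs_le]
            constructor <;> linarith [(hΦ L).1, (hΦ L).2, (hG K.1).1, (hG K.1).2]
          have q2 := mul_le_mul_of_nonneg_left q1 (hν0 L K)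
          have q3 := mul_nonneg hδ (hν0 L K)
          linarith
        · rw [TIP.ind_neg hb, mul_zero, add_zero, mul_comm]
          exact mul_le_mul_of_nonneg_right (hcmp L hL K h0 hb) (hν0 L K)
    refine (sum_le_sum fun L hL => sum_le_sum fun K hK => g1 L hL K hK).trans ?_
    simp only [sum_add_distrib, ← mul_sum]
    have g2 : ∑ L ∈ A, ∑ K ∈ BB M a b c e, ν L K * TIP.ind (K.1 ∈ Bd) ≤ Lam * τ := by
      rw [sum_comm]
      have e1 : ∀ K ∈ BB M a b c e, ∑ L ∈ A, ν L K * TIP.ind (K.1 ∈ Bd) ≤ Lam * (qK Z K * TIP.ind (K.1 ∈ Bd)) := by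
        intro K hK
        rw [← sum_mul, h3 K]
        have q1 := hDLam K hK
        have q2 := (hq0 K).le
        have q3 := TIP.ind_nonneg (K.1 ∈ Bd)
        calc D K * qK Z K * TIP.ind (K.1 ∈ Bd) = D K * (qK Z K * TIP.ind (K.1 ∈ Bd)) := by ring
          _ ≤ _ := mul_le_mul_of_nonneg_right q1 (mul_nonneg q2 q3)
      refine (sum_le_sum e1).trans ?_
      rw [← mul_sum]
      refine mul_le_mul_of_nonneg_left ?_ hLam.le
      rw [sum_BBw (fun H => TIP.ind (H ∈ Bd))]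
      have e2 : ∀ N ∈ Finset.range M, xc ^ N / Z * ((rk a b c e N).card * ∑ H ∈ sawF N, TIP.ind (H ∈ Bd)) ≤
          τ * (xc ^ N / Z * ((rk a b c e N).card * (cS N : ℝ))) := by
        intro N hN
        rcases (rk a b c e N).eq_empty_or_nonempty with hne | hne
        · rw [hne]
          simp
        · rw [sum_ind_Pn]
          have f1 := hBd N (Finset.mem_range.1 hN) hne
          calc xc ^ N / Z * ((rk a b c e N).card * (cS N * TOG.Pn N Bd)) ≤ xc ^ N / Z * ((rk a b c e N).card * (cS N * τ)) :=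
                mul_le_mul_of_nonneg_left (mul_le_mul_of_nonneg_left (mul_le_mul_of_nonneg_left f1 (Nat.cast_nonneg _))
                  (Nat.cast_nonneg _)) (hxZ N)
            _ = _ := by ring
      refine (sum_le_sum e2).trans ?_
      rw [← mul_sum, sum_BB1 hZ hZ0, mul_one]
    have g3 := mul_le_mul_of_nonneg_left hmass hδ
    rw [mul_one] at g3
    linarith
  -- the kernel
  have hmain := kernD (A := A) (B := BB M a b c e) (p := fun L => wL L / Gp) (f := Φ) (q := qK Z) (g := fun K => G K.1)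
    (D := D) (Dl := Dl) (ν := ν) (ε := ε) (δ := δ + Lam * τ) (fun K _ => (hq0 K).le) ?_ hp1.le
    (fun L _ => by
      rw [abs_of_nonneg (hΦ L).1]
      exact (hΦ L).2)
    (fun K _ => by
      rw [abs_of_nonneg (hG K.1).1]
      exact (hG K.1).2) h1 h2 (fun K _ => h3 K) h4 h6 ?_
  · have e1 : ∑ L ∈ A, wL L / Gp * Φ L = (∑ L ∈ A, wL L * Φ L) / Gp := by
      rw [sum_div]
      exact sum_congr rfl fun L _ => by ring
    have e2 : ∑ K ∈ BB M a b c e, qK Z K * G K.1 =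
        ∑ N ∈ Finset.range M, aN N * (rk a b c e N).card / Z * MCP.Eu N G := by
      rw [sum_BBw]
      refine sum_congr rfl fun N _ => ?_
      unfold MCP.Eu aN
      have h9 : ∀ x z r s g : ℝ, s ≠ 0 → x / z * (r * g) = s * x * r / z * (g / s) := by
        intro x z r s g hs
        rcases eq_or_ne z 0 with hz | hz
        · rw [hz]
          simp
        · field_simp
      exact h9 _ _ _ _ _ (MCP.cS0 N).ne'
    rw [e1, e2] at hmain
    exact hmain
  · rw [sum_qK]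
    exact (sum_BB1 hZ hZ0).le
  · rw [hDl]
    exact h7.trans hε2

end KA

end RMP

end HexObs
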