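import Pool.Agent.TSW.LayB
import Pool.Agent.MC.Slow

/-!
# RMP, row KA (helper90), part 1: the sum of a function of the window over the marks of an interval

* `wn T (H, k)` : the `2 T` letters of `H` around the letter number `k`;
* `sum_wn` : the sum over the marks of an interval is a sum over the windows of a factor;
* **`densW`** : the densities of the windows of the words with n letters, the same for all n.
-/

set_option autoImplicit false

namespace HexObs

namespace RMP

namespace KA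

open Finset TS SDN TIW NPR

open Pool.Agent.TSW (VW add1_VW bd_VW lsc lsc_spec sc_far exR)

/-- the marks `k` of the words with `N` letters: `a ≤ k ≤ b`, `c ≤ N - k ≤ e` -/
def rk (a b c e N : ℕ) : Finset ℕ := (Finset.Icc a b).filter fun k => k + c ≤ N ∧ N ≤ k + e

/-- the weight of the words with `N` letters -/
noncomputable def aN (N : ℕ) : ℝ := cS N * xc ^ N

/-- the weight of the rectangle -/
noncomputable def ZR (M a b c e : ℕ) : ℝ := ∑ N ∈ Finset.range M, aN N * (rk a b c e N).card

/-- the window of `2 T` letters around the mark -/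
def wn (T : ℕ) (K : List Bool × ℕ) : List Bool := (K.1.take (K.2 + T)).drop (K.2 - T)

lemma wn_len {T k : ℕ} {H : List Bool} (h1 : T ≤ k) (h2 : k + T ≤ H.length) : (wn T (H, k)).length = 2 * T := by
  unfold wn
  rw [List.length_drop, List.length_take]
  simp only
  omega

/-- the window as a list of letters -/
lemma ofFn_wn {T x i : ℕ} {H : List Bool} {e : ℕ} (hx : T ≤ x) (hi : x + i + T ≤ e) (he : e ≤ H.length) :
    List.ofFn (fun j : Fin (2 * T) => tf (wd H (x - T) e) (i + j)) = wn T (H, x + i) := by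
  refine List.ext_getElem ?_ ?_
  · rw [List.length_ofFn, wn_len (by omega) (by omega)]
  intro j h1 h2
  have h3 : j < 2 * T := by
    rw [List.length_ofFn] at h1
    exact h1
  rw [List.getElem_ofFn, ← List.getD_eq_getElem _ true h2]
  show (((H.take e).drop (x - T)).getD (i + j) true : Bool) = ((H.take (x + i + T)).drop (x + i - T)).getD j true
  rw [List.getD_eq_getElem?_getD, List.getD_eq_getElem?_getD, List.getElem?_drop, List.getElem?_drop, List.getElem?_take,
    List.getElem?_take, if_pos (by omega), if_pos (by omega)]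
  congr 2
  omega

/-- **the sum over the marks of an interval** -/
lemma sum_wn {T x y : ℕ} {H : List Bool} (φ : List Bool → ℝ) (hT : 1 ≤ T) (hx : T ≤ x) (hxy : x ≤ y) (hy : y + T ≤ H.length + 1) :
    ∑ k ∈ Finset.Ico x y, φ (wn T (H, k)) = VW (fun v : Fin (2 * T) → Bool => φ (List.ofFn v)) (wd H (x - T) (y + T - 1)) := by
  have hlen : (wd H (x - T) (y + T - 1)).length = (y + T - 1) - (x - T) := by
    unfold wd
    rw [List.length_drop, List.length_take]
    omega
  unfold VW
  rw [hlen, Finset.sum_Ico_eq_sum_range]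
  symm
  have h1 : Finset.range (y - x) ⊆ Finset.range ((y + T - 1) - (x - T)) ∨ y = x := by
    rcases Nat.eq_or_lt_of_le hxy with h | h
    · exact Or.inr h.symm
    · left
      intro i hi
      rw [Finset.mem_range] at hi ⊢
      omega
  rcases h1 with h1 | h1
  · rw [← Finset.sum_subset h1]
    · refine Finset.sum_congr rfl fun i hi => ?_
      rw [Finset.mem_range] at hi
      rw [if_pos (by omega)]
      beta_reduce
      rw [ofFn_wn hx (by omega) (by omega)]
    · intro i hi hn
      rw [Finset.mem_range] at hi hn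
      rw [if_neg (by omega)]
  · rw [h1, Nat.sub_self, Finset.range_zero, Finset.sum_empty]
    refine Finset.sum_eq_zero fun i hi => ?_
    rw [Finset.mem_range] at hi
    rw [if_neg (by omega)]

/-- **the densities of the windows, words** -/
theorem densW {ε : ℝ} (hε : 0 < ε) : ∃ R : ℕ, ∀ (m : ℕ) (Φ : (Fin m → Bool) → ℝ), (∀ x, 0 ≤ Φ x ∧ Φ x ≤ 1) →
    ∃ ρ : ℝ, 0 ≤ ρ ∧ ρ ≤ 2 ∧ ∀ n : ℕ, R * (m + 1) ≤ n →
      TOG.Pn n {t | ¬ ∀ x y : ℕ, x ≤ y → y ≤ t.length → |VW Φ (wd t x y) - ρ * ((y : ℝ) - x)| ≤ ε * n} ≤ ε := by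
  obtain ⟨c, C, j0, ρ, hc, hC, h1, h2⟩ := exR 1 one_pos
  have e : ∀ (m : ℕ) (Φ : (Fin m → Bool) → ℝ) (u : List Bool),
      ((m : ℝ) + 1) * (VW Φ u / (m + 1) + 1) = VW Φ u + (m + 1) := by
    intro m Φ u
    have hm : (0 : ℝ) < m + 1 := by positivity
    rw [mul_add, mul_div_cancel₀ _ hm.ne', mul_one]
  obtain ⟨d, hd⟩ := h2 (ε / 2) (by linarith)
  obtain ⟨R0, hR0⟩ := sc_far d
  obtain ⟨R1, hR1⟩ := exists_nat_ge (2 / ε)
  refine ⟨R0 + R1 + 1, fun m Φ hΦ => ⟨ρ (lsc m) (m + 1) (fun u => VW Φ u / (m + 1) + 1), ?_, ?_, fun n hn => ?_⟩⟩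
  · exact (h1 (lsc m) (m + 1) (fun u => VW Φ u / (m + 1) + 1) (add1_VW hΦ) (by positivity) (lsc_spec m) (bd_VW hΦ)).1
  · have := (h1 (lsc m) (m + 1) (fun u => VW Φ u / (m + 1) + 1) (add1_VW hΦ) (by positivity) (lsc_spec m) (bd_VW hΦ)).2.1
    linarith
  · have hn0 : R0 * (m + 1) ≤ n := (Nat.mul_le_mul_right _ (by omega)).trans hn
    have hn1 : R1 * (m + 1) ≤ n := (Nat.mul_le_mul_right _ (by omega)).trans hn
    have hmn : (m : ℝ) + 1 ≤ ε / 2 * n := by
      have k1 : ((R1 * (m + 1) : ℕ) : ℝ) ≤ n := by exact_mod_cast hn1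
      push_cast at k1
      have k2 : 2 / ε * ((m : ℝ) + 1) ≤ R1 * (m + 1) := mul_le_mul_of_nonneg_right hR1 (by positivity)
      have k3 := mul_le_mul_of_nonneg_left (k2.trans k1) (show 0 ≤ ε / 2 by linarith)
      have k4 : ε / 2 * (2 / ε * ((m : ℝ) + 1)) = m + 1 := by
        field_simp
      linarith
    obtain ⟨k, hsc, hk⟩ := hR0 m n hn0
    have h3 := hd (lsc m) (m + 1) (fun u => VW Φ u / (m + 1) + 1) (add1_VW hΦ) (by positivity) (lsc_spec m) (bd_VW hΦ)
      k n hsc hk
    simp only [e] at h3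
    refine (TIP.Nf.Pn_mono fun t ht h4 => ?_).trans (h3.trans (by linarith))
    intro h5
    refine h4 fun x y hxy hy => ?_
    have h6 := h5 x y hxy hy
    rw [abs_le] at h6 ⊢
    constructor
    · linarith [h6.1]
    · linarith [h6.2]

end KA

end RMP

end HexObs
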