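import Pool.Agent.RMP.KDefs
import Pool.Agent.RMP.GlueP
import Pool.Agent.ARM.T1

/-!
# (RM), the kernel for pairs (helper44): the deterministic bound of the density

* `th_ne` : an outer part with tips of positive weight has an admissible pair of tips of a good open pair;
* **`th_le`** : the weight of the tips is at most `C / κ ^ 2 * Xb j ^ 2`;
* `DD_le` : the density is at most the number of the decompositions with tips times the largest ratio;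
* **`det_of`** : `DD P K ≤ C * 2 ^ (59 j / 24)` from the count of the decompositions and the mass of the fillings.
-/

set_option autoImplicit false

namespace HexObs

namespace RMP

namespace KA

open Finset TS SDN HexObs.SIM NTA TIP ARM

open scoped ENNReal

/-- the decompositions of `K` with tips -/
def DK (P : Par) (K : List Bool × ℕ) : Set (PT × (List Bool × ℕ × Bool)) :=
  {p | (∃ Y, Adm P p.1 Y ∧ Many P (op p.1 Y)) ∧ p.2.1 ∈ Fil P p.1 ∧ p.2.2.1 < p.2.1.length ∧ jo p.1 p.2 = K}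

lemma th_ne {P : Par} {T : PT} (h : th P T ≠ 0) : ∃ Y, Adm P T Y ∧ Many P (op T Y) := by
  by_contra hc
  push Not at hc
  refine h ?_
  show (∑' t : List Bool × List Bool, _) = _
  rw [ENNReal.tsum_eq_zero]
  intro t
  exact if_neg fun h2 => hc t h2.1 h2.2

/-- **the weight of the tips** -/
theorem th_le {η : ℝ} (hη : 0 < η) (m : ℕ) : ∃ C : ℝ, 0 < C ∧ ∀ P : Par, P.η = η → P.m = m → 0 < P.κ → ∀ T : PT,
    th P T ≤ ENNReal.ofReal (C / P.κ ^ 2) * Xb P.j ^ 2 := by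
  classical
  obtain ⟨C2, hC2, hY⟩ := yMassW η m 0 hη
  refine ⟨C2 ^ 2, by positivity, fun P hPη hPm hκ T => ?_⟩
  obtain ⟨j, hj⟩ : ∃ j, j = P.j := ⟨_, rfl⟩
  rw [← hj]
  have hUj := G2.U_pos j
  obtain ⟨YY, hYY⟩ : ∃ YY : Set (List Bool), YY = {Y | Y ∈ SA ∧ rev Y ∈ GT j η ∧ In (2 ^ (j + m)) Y} := ⟨_, rfl⟩
  obtain ⟨y, hy⟩ : ∃ y : List Bool → ℝ≥0∞, y = fun Y => if Y ∈ YY then wE Y else 0 := ⟨_, rfl⟩
  have hys : ∑' Y : List Bool, y Y ≤ ENNReal.ofReal (C2 * Ub j) * Xb j := by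
    refine le_trans (le_of_eq ?_) (hY j)
    rw [← hYY, _root_.tsum_subtype YY (fun Y => wE Y * ENNReal.ofReal ((1 + (Y.length : ℝ) / ml j) ^ 0))]
    refine tsum_congr fun Y => ?_
    rw [hy, Set.indicator_apply]
    simp only [pow_zero, ENNReal.ofReal_one, mul_one]
  have hterm : ∀ Y : List Bool × List Bool, (if Adm P T Y ∧ Many P (op T Y) then wE Y.1 * wE Y.2 / ((NN P (op T Y) : ℕ) : ℝ≥0∞)
      else 0) ≤ ENNReal.ofReal ((P.κ ^ 2 * Ub j ^ 2)⁻¹) * (y Y.1 * y Y.2) := by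
    intro Y
    split_ifs with h
    · obtain ⟨⟨h1, ⟨⟨c1, c2, -, -⟩, ⟨c3, c4, -, -⟩⟩, -, -⟩, hN, -⟩ := h
      rw [hPη, ← hj] at c1 c3
      rw [hPm, ← hj] at c2 c4
      rw [← hj] at hN
      have e1 : Y.1 ∈ YY := by
        rw [hYY]
        exact ⟨Nf.SA_suf (L := T.1) h1.1, c1, c2⟩
      have e2 : Y.2 ∈ YY := by
        rw [hYY]
        exact ⟨Nf.SA_suf (L := T.2.2) h1.2.1, c3, c4⟩
      have hpos : 0 < P.κ ^ 2 * Ub j ^ 2 := by positivity
      have e3 : ((NN P (op T Y) : ℕ) : ℝ≥0∞)⁻¹ ≤ ENNReal.ofReal ((P.κ ^ 2 * Ub j ^ 2)⁻¹) := by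
        rw [ENNReal.ofReal_inv_of_pos hpos, ENNReal.inv_le_inv, ← ENNReal.ofReal_natCast]
        exact ENNReal.ofReal_le_ofReal hN
      rw [hy]
      simp only [if_pos e1, if_pos e2]
      rw [div_eq_mul_inv, mul_comm]
      exact mul_le_mul' e3 le_rfl
    · exact bot_le
  show (∑' Y : List Bool × List Bool, (if Adm P T Y ∧ Many P (op T Y) then wE Y.1 * wE Y.2 / ((NN P (op T Y) : ℕ) : ℝ≥0∞)
    else 0)) ≤ _
  calc _ ≤ ∑' Y : List Bool × List Bool, ENNReal.ofReal ((P.κ ^ 2 * Ub j ^ 2)⁻¹) * (y Y.1 * y Y.2) := ENNReal.tsum_le_tsum hterm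
    _ = ENNReal.ofReal ((P.κ ^ 2 * Ub j ^ 2)⁻¹) * ((∑' Y : List Bool, y Y) * (∑' Y : List Bool, y Y)) := by
        rw [ENNReal.tsum_mul_left, ENNReal.tsum_prod']
        congr 1
        have h1 : ∀ a : List Bool, ∑' b : List Bool, y a * y b = y a * ∑' b : List Bool, y b := fun a => ENNReal.tsum_mul_left
        rw [tsum_congr h1, ENNReal.tsum_mul_right]
    _ ≤ ENNReal.ofReal ((P.κ ^ 2 * Ub j ^ 2)⁻¹) * ((ENNReal.ofReal (C2 * Ub j) * Xb j) * (ENNReal.ofReal (C2 * Ub j) * Xb j)) :=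
        mul_le_mul' le_rfl (mul_le_mul' hys hys)
    _ = ENNReal.ofReal (C2 ^ 2 / P.κ ^ 2) * Xb j ^ 2 := by
        have e : ENNReal.ofReal (C2 ^ 2 / P.κ ^ 2) = ENNReal.ofReal ((P.κ ^ 2 * Ub j ^ 2)⁻¹) *
            (ENNReal.ofReal (C2 * Ub j) * ENNReal.ofReal (C2 * Ub j)) := by
          rw [← ENNReal.ofReal_mul (by positivity), ← ENNReal.ofReal_mul (by positivity)]
          congr 1
          field_simp
        rw [e]
        ring

/-- **the density and the number of the decompositions with tips** -/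
theorem DD_le {P : Par} {K : List Bool × ℕ} {x : ℝ≥0∞} {n : ℝ} (hf : (DK P K).Finite) (hn : ((DK P K).ncard : ℝ) ≤ n)
    (hx : ∀ T, (∃ Y, Adm P T Y ∧ Many P (op T Y)) → th P T / gF P T ≤ x) : DD P K ≤ ENNReal.ofReal n * x := by
  classical
  have e1 : DD P K ≤ ∑' p : DK P K, th P (p : PT × (List Bool × ℕ × Bool)).1 / gF P (p : PT × (List Bool × ℕ × Bool)).1 := by
    rw [tsum_subtype (DK P K) fun p => th P p.1 / gF P p.1]
    refine ENNReal.tsum_le_tsum fun p => ?_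
    split_ifs with h
    · by_cases h0 : th P p.1 = 0
      · have : (dat P).th p.1 = 0 := h0
        rw [this, ENNReal.zero_div]
        exact bot_le
      · have hp : p ∈ DK P K := ⟨th_ne h0, h.1.1, h.1.2, h.2⟩
        rw [Set.indicator_of_mem hp]
    · exact bot_le
  refine e1.trans ?_
  calc _ ≤ ∑' _ : DK P K, (1 : ℝ≥0∞) * x := ENNReal.tsum_le_tsum fun p => by
        rw [one_mul]
        exact hx _ p.2.1
    _ = ((DK P K).ncard : ℝ≥0∞) * x := by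
        rw [ENNReal.tsum_mul_right, Pool.Agent.NuG.sum_one _ hf]
    _ ≤ ENNReal.ofReal n * x := by
        refine mul_le_mul' ?_ le_rfl
        rw [← ENNReal.ofReal_natCast]
        exact ENNReal.ofReal_le_ofReal hn

/-- the numbers -/
lemma det_num {C1 C2 C3 C4 c κ : ℝ} (hc : 0 < c) (hC1 : 0 ≤ C1) (hC2 : 0 ≤ C2) (hC3 : 0 ≤ C3) (hκ : 0 < κ) {j : ℕ}
    (hU : Ub j ≤ C4 * 2 ^ (3 / 4 * (j : ℝ))) :
    C1 * Ub j ^ 2 * (C2 / κ ^ 2 * (C3 * 2 ^ (25 / 24 * (j : ℝ))) / (c * (ml j * Ub j / 4 ^ j))) ≤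
      C1 * C2 * C3 * C4 / (κ ^ 2 * c) * 2 ^ ((59 / 24 : ℝ) * (j : ℝ)) := by
  have hUj := G2.U_pos j
  have hm := G2.m_pos j
  have e4 : (4 : ℝ) ^ j = 2 ^ (2 * (j : ℝ)) := by
    rw [Real.rpow_mul (by norm_num), Real.rpow_natCast]
    norm_num
  have e3 : (2 : ℝ) ^ ((59 / 24 : ℝ) * (j : ℝ)) * ml j = 4 ^ j * (2 ^ (3 / 4 * (j : ℝ)) * 2 ^ (25 / 24 * (j : ℝ))) := by
    unfold ml
    rw [e4, ← Real.rpow_add (by norm_num), ← Real.rpow_add (by norm_num), ← Real.rpow_add (by norm_num)]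
    congr 1
    ring
  have e5 : (2 : ℝ) ^ ((59 / 24 : ℝ) * (j : ℝ)) = 4 ^ j * (2 ^ (3 / 4 * (j : ℝ)) * 2 ^ (25 / 24 * (j : ℝ))) / ml j := by
    rw [← e3]
    field_simp
  rw [e5]
  calc C1 * Ub j ^ 2 * (C2 / κ ^ 2 * (C3 * 2 ^ (25 / 24 * (j : ℝ))) / (c * (ml j * Ub j / 4 ^ j)))
      = C1 * C2 * C3 / (κ ^ 2 * c) * (4 ^ j * 2 ^ (25 / 24 * (j : ℝ)) / ml j) * Ub j := by
        field_simp
    _ ≤ C1 * C2 * C3 / (κ ^ 2 * c) * (4 ^ j * 2 ^ (25 / 24 * (j : ℝ)) / ml j) * (C4 * 2 ^ (3 / 4 * (j : ℝ))) := by gcongr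
    _ = _ := by
        field_simp

/-- **the deterministic bound**, from the count of the decompositions and the mass of the fillings -/
theorem det_of {η : ℝ} (hη : 0 < η) (m : ℕ) {κ : ℝ} (hκ : 0 < κ) {C1 c : ℝ} (hC1 : 0 < C1) (hc : 0 < c) :
    ∃ C : ℝ, 0 < C ∧ ∀ P : Par, P.η = η → P.m = m → P.κ = κ → ∀ K : List Bool × ℕ,
      (DK P K).Finite → ((DK P K).ncard : ℝ) ≤ C1 * Ub P.j ^ 2 →
      (∀ T, (∃ Y, Adm P T Y ∧ Many P (op T Y)) → ENNReal.ofReal (c * (ml P.j * Ub P.j / 4 ^ P.j)) ≤ gF P T) →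
        DD P K ≤ ENNReal.ofReal (C * 2 ^ ((59 / 24 : ℝ) * (P.j : ℝ))) := by
  obtain ⟨C2, hC2, hth⟩ := th_le hη m
  obtain ⟨C3, hC3, hX⟩ := TPC.xUp
  obtain ⟨c4, C4, -, hC4, hU⟩ := TPC.An.Ub_two
  refine ⟨C1 * C2 * C3 * C4 / (κ ^ 2 * c), by positivity, fun P hPη hPm hPκ K hf hn hF => ?_⟩
  have hUj := G2.U_pos P.j
  have hm := G2.m_pos P.j
  have hg : (0 : ℝ) < c * (ml P.j * Ub P.j / 4 ^ P.j) := by positivity
  have hx : ∀ T, (∃ Y, Adm P T Y ∧ Many P (op T Y)) → th P T / gF P T ≤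
      ENNReal.ofReal (C2 / κ ^ 2 * (C3 * 2 ^ (25 / 24 * (P.j : ℝ))) / (c * (ml P.j * Ub P.j / 4 ^ P.j))) := by
    intro T hT
    have h1 : th P T ≤ ENNReal.ofReal (C2 / κ ^ 2 * (C3 * 2 ^ (25 / 24 * (P.j : ℝ)))) := by
      refine (hth P hPη hPm (hPκ ▸ hκ) T).trans ?_
      rw [hPκ, ENNReal.ofReal_mul (by positivity)]
      exact mul_le_mul' le_rfl (hX P.j)
    rw [ENNReal.ofReal_div_of_pos hg]
    exact ENNReal.div_le_div h1 (hF T hT)
  refine (DD_le hf hn hx).trans ?_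
  rw [← ENNReal.ofReal_mul (by positivity)]
  exact ENNReal.ofReal_le_ofReal (det_num hc hC1.le hC2.le hC3.le hκ (hU P.j).2)

end KA

end RMP

end HexObs
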