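import Pool.Agent.RMP.KaCore
import Pool.Agent.RMP.KDefs
import Pool.Agent.RMP.FarN
import Pool.Agent.RMP.PubW
import Pool.Agent.RMP.SepR

/-!
# RMP, row KA (helper90), part 3: `KRows → RectP → RMW`

* `Trn` : all that is used of the transport of one level (`nu`, density `DD`, good pairs);
* `KRows` : the transport exists at every level far below the size of the walks;
* `RectP` : numbers, the weight of the rectangle of the marks;
* **`rmw_of`** : `KRows → RectP → RMW`.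
-/

set_option autoImplicit false

namespace HexObs

namespace RMP

namespace KA

open Finset TS SDN TIW NPR ARM

open Pool.Agent.TSW (VW)

open scoped ENNReal Classical

/-- the pairs with the difference of the tips in `S` -/
def GS (S : Set Pt) : Set PT :=
  {T | T.1 ∈ SA ∧ T.2.2 ∈ SA ∧ Fr T.2.1 ∧ Av (ob T.2.1 T.2.2) T.1 ∧ TIW.en T.1 - pe T.2.1 T.2.2 ∈ S}

/-- a way of the transport from the pair `L` to the marked word `K`: sizes at most `X` letters, spatial size at most `Y` -/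
def Way (S : Set Pt) (X Y : ℝ) (L : PT) (K : List Bool × ℕ) : Prop :=
  ∃ (T : PT) (y : List Bool × List Bool) (q : List Bool × ℕ × Bool), op T y = L ∧ jo T q = K ∧ T.2.1 = gE K.1 ∧ K.1 ∈ SA ∧
    L ∈ GS S ∧ q.2.1 ≤ q.1.length ∧ ((y.1.length + y.2.length + q.1.length : ℕ) : ℝ) ≤ X ∧
    (∀ i, i ≤ y.1.length → (TIW.hn (vx oo up y.1 i) : ℝ) ≤ Y) ∧ (∀ i, i ≤ y.2.length → (TIW.hn (vx oo up y.2 i) : ℝ) ≤ Y) ∧
    ∀ i, i ≤ q.1.length → (TIW.hn (vx oo up q.1 i) : ℝ) ≤ Y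

/-- **the transport of the level `j`** -/
structure Trn (ε C Lam d : ℝ) (w n k j : ℕ) (S : Set Pt) (nu : PT → List Bool × ℕ → ℝ≥0∞) (DD : List Bool × ℕ → ℝ≥0∞)
    (Good : Set PT) : Prop where
  rle : ∀ L, ∑' K, nu L K ≤ wE L.1 * wE L.2.2
  row : ∀ L, L ∈ Good → ∑' K, nu L K = wE L.1 * wE L.2.2
  col : ∀ K, ∑' L, nu L K = wE K.1 * DD K
  way : ∀ L K, nu L K ≠ 0 → Way S (C * ml j) (C * 2 ^ j) L K
  many : gp {L | L ∈ PR n k d S ∧ L ∉ Good} ≤ ENNReal.ofReal ε * gp (PR n k d S)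
  det : ∀ K : List Bool × ℕ, K.1 ∈ SA → DD K * ENNReal.ofReal ((n : ℝ) ^ (75 / 32 : ℝ)) ≤ ENNReal.ofReal Lam * gp (PR n k d S)
  loc : ∀ T : ℕ, C * ml j ≤ T → ∀ K K' : List Bool × ℕ, K.1 ∈ SA → K'.1 ∈ SA → Far T (j + w) K → Far T (j + w) K' →
    win T K = win T K' → DD K = DD K'

/-- **the transport exists** at every level far below the size of the walks -/
def KRows : Prop := ∀ ε t0 d : ℝ, 0 < ε → 0 < t0 → 0 < d → d ≤ 1 → ∃ (Lam C r1 : ℝ) (w : ℕ), 0 < Lam ∧ 1 ≤ C ∧ 0 < r1 ∧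
  ∀ r : ℝ, 0 < r → r ≤ r1 → ∃ n0 : ℕ, ∀ (n k j : ℕ) (S : Set Pt), n0 ≤ n → Ctx t0 r n k j S → gp (PR n k d S) ≠ 0 ∧
    ∃ (nu : PT → List Bool × ℕ → ℝ≥0∞) (DD : List Bool × ℕ → ℝ≥0∞) (Good : Set PT), Trn ε C Lam d w n k j S nu DD Good

/-- **numbers: the weight of the rectangle of the marks** -/
def RectP : Prop := ∀ ε d : ℝ, 0 < ε → 0 < d → d ≤ 1 → ∃ (C : ℝ) (n0 : ℕ), 0 < C ∧ ∀ n k W k1 l0 l1 : ℕ, n0 ≤ n →
  ε * n ≤ k → (k : ℝ) ≤ (1 - ε) * n → 16 * (W : ℝ) ≤ ε * d * n → 1 ≤ W → k1 = ⌊(1 + d) * (k : ℝ)⌋₊ → l0 = n - k →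
  l1 = ⌊(1 + d) * ((n : ℝ) - k)⌋₊ →
    0 < ZR (4 * n) (k - W) (k1 + W) (l0 - W) (l1 + W) ∧
    ∑ N ∈ Finset.range (4 * n), (if (rk (k - W) (k1 + W) (l0 - W) (l1 + W) N).Nonempty then aN N else 0) * (4 * n : ℕ) ≤
      C * ZR (4 * n) (k - W) (k1 + W) (l0 - W) (l1 + W) ∧
    ∑ N ∈ Finset.range (4 * n), aN N * ((rk (k - W) (k1 + W) (l0 - W) (l1 + W) N).card -
      (rk (k + W) (k1 - W) (l0 + W) (l1 - W) N).card : ℝ) ≤ C * (W / n) * ZR (4 * n) (k - W) (k1 + W) (l0 - W) (l1 + W) ∧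
    (∀ k' l : ℕ, k - W ≤ k' → k' ≤ k1 + W → l0 - W ≤ l → l ≤ l1 + W → k' + l < 4 * n ∧ (1 - d) * n ≤ ((k' + l : ℕ) : ℝ) ∧
      ((k' + l : ℕ) : ℝ) ≤ (1 + 2 * d) * n ∧ n ≤ 2 * (k' + l)) ∧
    ZR (4 * n) (k - W) (k1 + W) (l0 - W) (l1 + W) ≤ C * (n : ℝ) ^ (75 / 32 : ℝ)

/-! ### 1. The lengths -/

/-- a way from a pair of `PR` ends in the rectangle -/
lemma way_supp {S : Set Pt} {X Y d : ℝ} {L : PT} {K : List Bool × ℕ} {n k W k1 l0 l1 : ℕ} (hX : X + 1 ≤ W)
    (hk1 : k1 = ⌊(1 + d) * (k : ℝ)⌋₊) (hl0 : l0 = n - k) (hl1 : l1 = ⌊(1 + d) * ((n : ℝ) - k)⌋₊)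
    (hL : L ∈ PR n k d S) (hw : Way S X Y L K)
    (h4 : ∀ k' l : ℕ, k - W ≤ k' → k' ≤ k1 + W → l0 - W ≤ l → l ≤ l1 + W → k' + l < 4 * n) :
    K ∈ BB (4 * n) (k - W) (k1 + W) (l0 - W) (l1 + W) := by
  obtain ⟨T, y, q, h1, h2, -, hsa, -, hq, hs, -⟩ := hw
  obtain ⟨-, -, -, -, -, g1, g2, g3, g4⟩ := hL
  have g5 : L.1.length ≤ k1 := by
    rw [hk1]
    exact Nat.le_floor g2
  have g6 : L.2.2.length ≤ l1 := by
    rw [hl1]
    exact Nat.le_floor g4
  have hs' : y.1.length + y.2.length + q.1.length + 1 ≤ W := by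
    have : ((y.1.length + y.2.length + q.1.length + 1 : ℕ) : ℝ) ≤ W := by
      push_cast at hs ⊢
      linarith
    exact_mod_cast this
  have e1 : K.1.length = T.1.length + q.1.length + T.2.2.length + 1 := by
    rw [← h2]
    unfold jo
    simp only [List.length_append, List.length_cons, List.length_nil, rev_length]
    omega
  have e2 : K.2 = T.1.length + q.2.1 := by
    rw [← h2]
    rfl
  have e3 : L.1.length = T.1.length + y.1.length := by
    rw [← h1]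
    unfold op
    exact List.length_append
  have e4 : L.2.2.length = T.2.2.length + y.2.length := by
    rw [← h1]
    unfold op
    exact List.length_append
  have g7 := h4 K.2 (K.1.length - K.2) (by omega) (by omega) (by omega) (by omega)
  rw [mem_BB]
  refine ⟨by omega, hsa, ?_⟩
  rw [mem_rk]
  omega

/-- a way to the small rectangle starts in `PR` -/
lemma way_back {S : Set Pt} {X Y d : ℝ} {L : PT} {K : List Bool × ℕ} {n k W k1 l0 l1 M : ℕ} (hX : X + 1 ≤ W)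
    (hd : 0 ≤ 1 + d) (hkn : k ≤ n)
    (hk1 : k1 = ⌊(1 + d) * (k : ℝ)⌋₊) (hl0 : l0 = n - k) (hl1 : l1 = ⌊(1 + d) * ((n : ℝ) - k)⌋₊)
    (hK : K ∈ BB M (k + W) (k1 - W) (l0 + W) (l1 - W)) (hw : Way S X Y L K) : L ∈ PR n k d S := by
  obtain ⟨T, y, q, h1, h2, -, hsa, hG, hq, hs, -⟩ := hw
  have hs' : y.1.length + y.2.length + q.1.length + 1 ≤ W := by
    have : ((y.1.length + y.2.length + q.1.length + 1 : ℕ) : ℝ) ≤ W := by
      push_cast at hs ⊢
      linarith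
    exact_mod_cast this
  have e1 : K.1.length = T.1.length + q.1.length + T.2.2.length + 1 := by
    rw [← h2]
    unfold jo
    simp only [List.length_append, List.length_cons, List.length_nil, rev_length]
    omega
  have e2 : K.2 = T.1.length + q.2.1 := by
    rw [← h2]
    rfl
  have e3 : L.1.length = T.1.length + y.1.length := by
    rw [← h1]
    unfold op
    exact List.length_append
  have e4 : L.2.2.length = T.2.2.length + y.2.length := by
    rw [← h1]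
    unfold op
    exact List.length_append
  obtain ⟨-, -, g1⟩ := mem_BB.1 hK
  rw [mem_rk] at g1
  have g2 : L.1.length ≤ k1 := by omega
  have g3 : L.2.2.length ≤ l1 := by omega
  have hkn' : (k : ℝ) ≤ n := by exact_mod_cast hkn
  refine ⟨hG.1, hG.2.1, hG.2.2.1, hG.2.2.2.1, hG.2.2.2.2, by omega, ?_, by omega, ?_⟩
  · rw [hk1] at g2
    exact (Nat.le_floor_iff (mul_nonneg hd (Nat.cast_nonneg k))).1 g2
  · rw [hl1] at g3
    exact (Nat.le_floor_iff (mul_nonneg hd (by linarith))).1 g3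

/-- the way is a link -/
lemma way_lnk {S : Set Pt} {X Y ρ : ℝ} {L : PT} {K : List Bool × ℕ} {n : ℕ} (hX : X ≤ ρ * n)
    (hY : Y < ρ * (n : ℝ) ^ (3 / 4 : ℝ)) (hw : Way S X Y L K) : Lnk ρ n L K.1 := by
  obtain ⟨T, y, q, h1, h2, hg, -, -, -, hs, p1, p2, p3⟩ := hw
  refine ⟨T.1, y.1, T.2.1, T.2.2, y.2, q.1, q.2.2, h1.symm, ?_, hg, hs.trans hX, fun i hi => (p1 i hi).trans_lt hY,
    fun i hi => (p2 i hi).trans_lt hY, fun i hi => (p3 i hi).trans_lt hY⟩
  rw [← h2]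
  rfl

/-! ### 2. Sums over finite sets of pairs -/

lemma gp_finset (A : Finset PT) : gp (A : Set PT) = ∑ T ∈ A, wE T.1 * wE T.2.2 := by
  unfold gp
  exact Finset.tsum_subtype A fun T : PT => wE T.1 * wE T.2.2

lemma gpF_finset (Φ : PT → ℝ) (A : Finset PT) : gpF Φ (A : Set PT) = ∑ T ∈ A, wE T.1 * wE T.2.2 * ENNReal.ofReal (Φ T) := by
  unfold gpF
  exact Finset.tsum_subtype A fun T : PT => wE T.1 * wE T.2.2 * ENNReal.ofReal (Φ T)

lemma gp_toReal (A : Finset PT) : (gp (A : Set PT)).toReal = ∑ T ∈ A, wL T := by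
  rw [gp_finset, ENNReal.toReal_sum fun T _ => ENNReal.mul_ne_top (wE_ne_top _) (wE_ne_top _)]
  rfl

lemma gpF_toReal {Φ : PT → ℝ} (hΦ : ∀ T, 0 ≤ Φ T) (A : Finset PT) :
    (gpF Φ (A : Set PT)).toReal = ∑ T ∈ A, wL T * Φ T := by
  rw [gpF_finset, ENNReal.toReal_sum fun T _ => ENNReal.mul_ne_top (ENNReal.mul_ne_top (wE_ne_top _) (wE_ne_top _))
    ENNReal.ofReal_ne_top]
  refine sum_congr rfl fun T _ => ?_
  rw [ENNReal.toReal_mul, ENNReal.toReal_ofReal (hΦ T)]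
  rfl

lemma ball_fin (j : ℕ) : {p : Pt | TIW.hn p ≤ 2 ^ j}.Finite := by
  refine (Pool.Agent.RMP.W.SR_fin (2 ^ j)).subset fun p hp => ?_
  show ‖NTF.JJ p‖ ≤ 2 ^ j
  refine (MCP.JJ_le_hn p).trans ?_
  exact_mod_cast hp

/-! ### 3. The scales -/

lemma ml_le_of {j n : ℕ} {x : ℝ} (hx : 0 ≤ x) (h : (2 : ℝ) ^ j ≤ x * (n : ℝ) ^ (3 / 4 : ℝ)) :
    ml j ≤ x ^ (4 / 3 : ℝ) * n := by
  have hn : (0 : ℝ) ≤ n := Nat.cast_nonneg n
  have e1 : ml j = ((2 : ℝ) ^ j) ^ (4 / 3 : ℝ) := by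
    unfold ml
    rw [← Real.rpow_natCast, ← Real.rpow_mul (by norm_num)]
    congr 1
    ring
  rw [e1]
  refine (Real.rpow_le_rpow (by positivity) h (by norm_num)).trans (le_of_eq ?_)
  rw [Real.mul_rpow hx (by positivity), ← Real.rpow_mul hn]
  norm_num

/-- small constants: `C (8 r) ^ (4/3) ≤ η` -/
lemma small_r {C η : ℝ} (hC : 0 < C) (hη : 0 < η) : ∃ r0 : ℝ, 0 < r0 ∧ ∀ r, 0 < r → r ≤ r0 → C * (8 * r) ^ (4 / 3 : ℝ) ≤ η := by
  refine ⟨(η / C) ^ (3 / 4 : ℝ) / 8, by positivity, fun r hr h => ?_⟩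
  have h1 : 8 * r ≤ (η / C) ^ (3 / 4 : ℝ) := by linarith
  have h2 : (8 * r) ^ (4 / 3 : ℝ) ≤ ((η / C) ^ (3 / 4 : ℝ)) ^ (4 / 3 : ℝ) := Real.rpow_le_rpow (by positivity) h1 (by norm_num)
  have h3 : ((η / C) ^ (3 / 4 : ℝ)) ^ (4 / 3 : ℝ) = η / C := by
    rw [← Real.rpow_mul (by positivity)]
    norm_num
  rw [h3] at h2
  have h4 := mul_le_mul_of_nonneg_left h2 hC.le
  rw [mul_div_cancel₀ _ hC.ne'] at h4
  exact h4

/-- a level above a given size -/
lemma level {x : ℝ} (hx : 1 ≤ x) : ∃ j : ℕ, x < 2 ^ j ∧ (2 : ℝ) ^ j ≤ 2 * x := by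
  obtain ⟨n, h1, h2⟩ := exists_nat_pow_near hx (one_lt_two)
  exact ⟨n + 1, h2, by rw [pow_succ]; linarith⟩

/-- large numbers -/
lemma large_n {c x : ℝ} (hc : 0 < c) : ∃ n0 : ℕ, ∀ n : ℕ, n0 ≤ n → x ≤ c * (n : ℝ) ^ (3 / 4 : ℝ) := by
  obtain ⟨n0, hn0⟩ := exists_nat_ge ((max x 1 / c) ^ (4 / 3 : ℝ))
  refine ⟨n0, fun n hn => ?_⟩
  have h1 : (max x 1 / c) ^ (4 / 3 : ℝ) ≤ n := hn0.trans (by exact_mod_cast hn)
  have hm : 0 < max x 1 := lt_of_lt_of_le one_pos (le_max_right _ _)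
  have h2 := Real.rpow_le_rpow (by positivity) h1 (show (0 : ℝ) ≤ 3 / 4 by norm_num)
  have h3 : ((max x 1 / c) ^ (4 / 3 : ℝ)) ^ (3 / 4 : ℝ) = max x 1 / c := by
    rw [← Real.rpow_mul (by positivity)]
    norm_num
  rw [h3, div_le_iff₀ hc] at h2
  linarith [le_max_left x 1]

lemma pow_half {n N : ℕ} (h : n ≤ 2 * N) : (n : ℝ) ^ (3 / 4 : ℝ) ≤ 2 * (N : ℝ) ^ (3 / 4 : ℝ) := by
  have h1 : (n : ℝ) ≤ 2 * N := by exact_mod_cast h
  refine (Real.rpow_le_rpow (Nat.cast_nonneg _) h1 (by norm_num)).trans ?_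
  rw [Real.mul_rpow (by norm_num) (Nat.cast_nonneg _)]
  refine mul_le_mul_of_nonneg_right ?_ (by positivity)
  calc (2 : ℝ) ^ (3 / 4 : ℝ) ≤ 2 ^ (1 : ℝ) := Real.rpow_le_rpow_of_exponent_le (by norm_num) (by norm_num)
    _ = 2 := Real.rpow_one 2

/-- the words with a mark which is not `Far` have two near vertices -/
lemma near_of_not_far {T w N k : ℕ} {H : List Bool} {δ r : ℝ} (hl : H.length = N) (hT : T ≤ k) (hT2 : k + T ≤ N)
    (hδ : δ * N ≤ T) (hr : (2 : ℝ) ^ w ≤ r * (N : ℝ) ^ (3 / 4 : ℝ)) (h : ¬ Far T w (H, k)) : FarN.NearW δ r N H := by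
  unfold Far at h
  push Not at h
  obtain ⟨i, h1, h2, h3⟩ := h hT (by simp only; omega)
  simp only at h1 h2 h3
  rcases h2 with h2 | h2
  · refine ⟨i, k, by omega, ?_, ?_⟩
    · have : (i : ℝ) + T ≤ k := by exact_mod_cast h2
      linarith
    · refine le_trans ?_ hr
      exact_mod_cast h3
  · refine ⟨k, i, by omega, ?_, ?_⟩
    · have : (k : ℝ) + T ≤ i := by exact_mod_cast h2
      linarith
    · refine le_trans ?_ hr
      rw [← hn_neg, neg_sub]
      exact_mod_cast h3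

/-! ### 4. The theorem -/

/-- **the finite form of the renormalisation map** -/
theorem rmw_of (hK : KRows) (hR : RectP) : RMW := by
  intro ε d hε hd hd1
  obtain ⟨ε1, hε1⟩ : ∃ e, e = ε / 16 := ⟨_, rfl⟩
  have hε10 : 0 < ε1 := by rw [hε1]; positivity
  obtain ⟨Lam0, C0, r1, w, hLam0, hC0, hr1, hK⟩ := hK ε1 ε1 d hε10 hε10 hd hd1
  obtain ⟨C2, n2, hC2, hR⟩ := hR ε1 d hε10 hd hd1
  have hC00 : 0 < C0 := by linarith
  obtain ⟨Lam, hLam⟩ : ∃ x, x = Lam0 * C2 := ⟨_, rfl⟩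
  have hLam' : 0 < Lam := by rw [hLam]; positivity
  obtain ⟨εd, hεd⟩ : ∃ x, x = ε1 / (24 * (Lam * C2)) := ⟨_, rfl⟩
  have hεd0 : 0 < εd := by rw [hεd]; positivity
  obtain ⟨R, hRd⟩ := densW hεd0
  obtain ⟨δ, hδ⟩ : ∃ x, x = min (min (ε1 / (8 * (Lam * C2))) (1 / (6 * ((R : ℝ) + 1)))) ε1 := ⟨_, rfl⟩
  have hδ0 : 0 < δ := by
    rw [hδ]
    exact lt_min (lt_min (by positivity) (by positivity)) hε10
  have hδ1 : δ ≤ ε1 / (8 * (Lam * C2)) := by
    rw [hδ]
    exact (min_le_left _ _).trans (min_le_left _ _)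
  have hδ2 : δ ≤ 1 / (6 * ((R : ℝ) + 1)) := by
    rw [hδ]
    exact (min_le_left _ _).trans (min_le_right _ _)
  have hδ3 : δ ≤ ε1 := by
    rw [hδ]
    exact min_le_right _ _
  obtain ⟨rF, hrF, nF, hF⟩ := farN (d := δ / 8) (ε := ε1 / (2 * Lam)) (by positivity) (by positivity)
  refine ⟨ε1 / Lam, by positivity, fun ρ hρ => ?_⟩
  -- the share of the boundary
  obtain ⟨η, hη⟩ : ∃ x, x = min (min (ε1 * d / 16) (ε1 / (8 * (Lam * C2)))) (min ρ (δ / 2)) := ⟨_, rfl⟩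
  have hη0 : 0 < η := by
    rw [hη]
    exact lt_min (lt_min (by positivity) (by positivity)) (lt_min hρ (by positivity))
  have hη1 : η ≤ ε1 * d / 16 := by
    rw [hη]
    exact (min_le_left _ _).trans (min_le_left _ _)
  have hη2 : η ≤ ε1 / (8 * (Lam * C2)) := by
    rw [hη]
    exact (min_le_left _ _).trans (min_le_right _ _)
  have hη3 : η ≤ ρ := by
    rw [hη]
    exact (min_le_right _ _).trans (min_le_left _ _)
  have hη4 : η ≤ δ / 2 := by
    rw [hη]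
    exact (min_le_right _ _).trans (min_le_right _ _)
  obtain ⟨r2, hr2, hrs⟩ := small_r hC00 (show 0 < η / 2 by positivity)
  refine ⟨min (min r2 r1) (min (rF / (16 * 2 ^ w)) (ρ / (16 * C0))), by positivity, fun r hr hr0 => ?_⟩
  have hra : r ≤ r2 := hr0.trans ((min_le_left _ _).trans (min_le_left _ _))
  have hrb : r ≤ r1 := hr0.trans ((min_le_left _ _).trans (min_le_right _ _))
  have hrc : 16 * 2 ^ w * r ≤ rF := by
    have h1 := hr0.trans ((min_le_right _ _).trans (min_le_left _ _))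
    rw [le_div_iff₀ (by positivity)] at h1
    linarith
  have hrd : 16 * C0 * r ≤ ρ := by
    have h1 := hr0.trans ((min_le_right _ _).trans (min_le_right _ _))
    rw [le_div_iff₀ (by positivity)] at h1
    linarith
  obtain ⟨n3, hn3⟩ := large_n (c := 4 * r) (x := 1) (by positivity)
  obtain ⟨n4, hn4⟩ := exists_nat_ge (4 / η)
  obtain ⟨n5, hK⟩ := hK r hr hrb
  refine ⟨(n2 + 2 * nF) + (n3 + n4 + n5 + 1), fun n k hn hk1 hk2 S hS1 hS2 hSi => ?_⟩
  have hn0 : (0 : ℝ) < n := by exact_mod_cast (by omega : 0 < n)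
  have hηn : 4 ≤ η * n := by
    have h1 : (4 : ℝ) / η ≤ n := hn4.trans (by exact_mod_cast (by omega : n4 ≤ n))
    rw [div_le_iff₀ hη0] at h1
    linarith
  have hpn : (0 : ℝ) < (n : ℝ) ^ (3 / 4 : ℝ) := by positivity
  -- the level
  have hx1 : 1 ≤ 4 * r * (n : ℝ) ^ (3 / 4 : ℝ) := hn3 n (by omega)
  obtain ⟨j, hj1, hj2⟩ := level hx1
  have hj3 : (2 : ℝ) ^ j ≤ 8 * r * (n : ℝ) ^ (3 / 4 : ℝ) := by linarith
  have hk1' : ε1 * n ≤ k := le_trans (mul_le_mul_of_nonneg_right (by rw [hε1]; linarith) hn0.le) hk1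
  have hk2' : (k : ℝ) ≤ (1 - ε1) * n := le_trans hk2 (mul_le_mul_of_nonneg_right (by rw [hε1]; linarith) hn0.le)
  have hSb : ∀ p ∈ S, TIW.hn p ≤ 2 ^ j := by
    intro p hp
    have h1 := (hS2 p hp).trans hj1.le
    exact_mod_cast h1
  obtain ⟨hgp0, nu, DD, Good, hT⟩ := hK n k j S (by omega) ⟨hk1', hk2', hS1, hS2, hSi, hj1.le, hj3⟩
  -- the finite set of the pairs
  have hSfin : S.Finite := (ball_fin j).subset hSb
  obtain ⟨A, hA⟩ : ∃ A : Finset PT, (A : Set PT) = PR n k d S :=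
    ⟨(Pool.Agent.RMP.W.PR_fin n k d hSfin).toFinset, Set.Finite.coe_toFinset _⟩
  have hmA : ∀ L, L ∈ A ↔ L ∈ PR n k d S := fun L => by rw [← hA, Finset.mem_coe]
  have hgpt : gp (PR n k d S) ≠ ∞ := Pool.Agent.RMP.W.gp_PR_ne n k d hSfin
  -- the width of the boundary
  have hml := ml_le_of (by positivity) hj3
  have hX : C0 * ml j ≤ η / 2 * n := by
    have h1 := mul_le_mul_of_nonneg_left hml hC00.le
    have h2 := mul_le_mul_of_nonneg_right (hrs r hr hra) hn0.le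
    linarith
  obtain ⟨W, hW⟩ : ∃ W : ℕ, W = ⌈C0 * ml j⌉₊ + 1 := ⟨_, rfl⟩
  have hmj : 0 ≤ C0 * ml j := by
    unfold ml
    positivity
  have hW1 : C0 * ml j + 1 ≤ W := by
    rw [hW]
    push_cast
    linarith [Nat.le_ceil (C0 * ml j)]
  have hW2 : (W : ℝ) ≤ η * n := by
    rw [hW]
    push_cast
    have := (Nat.ceil_lt_add_one hmj).le
    linarith
  have hW3 : 1 ≤ W := by omega
  obtain ⟨k1, hk1e⟩ : ∃ x : ℕ, x = ⌊(1 + d) * (k : ℝ)⌋₊ := ⟨_, rfl⟩
  obtain ⟨l0, hl0e⟩ : ∃ x : ℕ, x = n - k := ⟨_, rfl⟩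
  obtain ⟨l1, hl1e⟩ : ∃ x : ℕ, x = ⌊(1 + d) * ((n : ℝ) - k)⌋₊ := ⟨_, rfl⟩
  have hkn : k ≤ n := by
    have h1 : (k : ℝ) ≤ n := hk2'.trans (by nlinarith)
    exact_mod_cast h1
  obtain ⟨q1, q2, q3, q4, q5⟩ := hR n k W k1 l0 l1 (by omega) hk1' hk2' (by nlinarith) hW3 hk1e hl0e hl1e
  obtain ⟨Z, hZ⟩ : ∃ Z, Z = ZR (4 * n) (k - W) (k1 + W) (l0 - W) (l1 + W) := ⟨_, rfl⟩
  rw [← hZ] at q1 q2 q3 q5
  -- the windows
  obtain ⟨T, hTe⟩ : ∃ T : ℕ, T = ⌊δ * n⌋₊ := ⟨_, rfl⟩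
  have hδn : 8 ≤ δ * n := by nlinarith
  have hT1 : (T : ℝ) ≤ δ * n := by
    rw [hTe]
    exact Nat.floor_le (by positivity)
  have hT2 : δ * n / 2 ≤ T := by
    have := (Nat.lt_floor_add_one (δ * n)).le
    rw [← hTe] at this
    linarith
  have hT3 : 1 ≤ T := by
    have : (1 : ℝ) ≤ T := by linarith
    exact_mod_cast this
  have hTk : T ≤ k := by
    have : (T : ℝ) ≤ k := hT1.trans (le_trans (mul_le_mul_of_nonneg_right hδ3 hn0.le) hk1')
    exact_mod_cast this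
  have hTl : T ≤ l0 := by
    have h1 : (T : ℝ) ≤ (n : ℝ) - k := by
      have := mul_le_mul_of_nonneg_right hδ3 hn0.le
      linarith
    have h2 : ((n - k : ℕ) : ℝ) = (n : ℝ) - k := Nat.cast_sub hkn
    rw [← h2, ← hl0e] at h1
    exact_mod_cast h1
  have hTX : C0 * ml j ≤ T := by
    have h1 : η / 2 * n ≤ δ * n / 2 := by nlinarith
    linarith
  -- the numbers of letters
  have hN : ∀ N, (rk (k - W) (k1 + W) (l0 - W) (l1 + W) N).Nonempty → (1 - d) * n ≤ (N : ℝ) ∧ (N : ℝ) ≤ (1 + 2 * d) * n ∧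
      n ≤ 2 * N ∧ N < 4 * n := by
    rintro N ⟨k', hk'⟩
    rw [mem_rk] at hk'
    obtain ⟨h1, h2, h3, h4⟩ := q4 k' (N - k') hk'.1.1 hk'.1.2 (by omega) (by omega)
    have e1 : k' + (N - k') = N := by omega
    rw [e1] at h1 h2 h3 h4
    exact ⟨h2, h3, h4, h1⟩
  have hsub : ∀ N, rk (k + W) (k1 - W) (l0 + W) (l1 - W) N ⊆ rk (k - W) (k1 + W) (l0 - W) (l1 + W) N := by
    intro N i hi
    rw [mem_rk] at hi ⊢
    omega
  refine ⟨hgp0, hgpt, fun i => aN i * (rk (k - W) (k1 + W) (l0 - W) (l1 + W) i).card / Z, fun i => ?_, fun i hi => ?_, ?_,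
    fun Φ G Bd hΦ0 hΦ1 hG0 hG1 hBd hcmp => ?_⟩
  · unfold aN
    have := xc_pos
    positivity
  · have hne : (rk (k - W) (k1 + W) (l0 - W) (l1 + W) i).Nonempty := by
      rw [Finset.nonempty_iff_ne_empty]
      intro h0
      apply hi
      simp only
      rw [h0, Finset.card_empty, Nat.cast_zero, mul_zero, zero_div]
    exact ⟨(hN i hne).1, (hN i hne).2.1⟩
  · rw [← sum_div]
    have : ∑ i ∈ Finset.range (4 * n), aN i * ((rk (k - W) (k1 + W) (l0 - W) (l1 + W) i).card : ℝ) = Z := by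
      rw [hZ]
      rfl
    rw [this, div_self q1.ne']
  · -- the kernel
    have hGp0 : 0 < ∑ L ∈ A, wL L := by
      rw [← gp_toReal, hA]
      exact ENNReal.toReal_pos hgp0 hgpt
    have hGe : ENNReal.ofReal (∑ L ∈ A, wL L) = gp (PR n k d S) := by
      rw [← gp_toReal, hA, ENNReal.ofReal_toReal hgpt]
    have hmain := ka_core (A := A) (nu := nu) (DD := DD) (Good := Good) (Far := {K | Far T (j + w) K}) (M := 4 * n)
      (a := k - W) (b := k1 + W) (c := l0 - W) (e := l1 + W) (a' := k + W) (b' := k1 - W) (c' := l0 + W) (e' := l1 - W)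
      (T := T) (Z := Z) (Gp := ∑ L ∈ A, wL L) (Lam := Lam) (C := C2) (ε := ε1) (εd := εd) (εF := ε1 / (2 * Lam))
      (β := C2 * (W / n)) (τ := ε1 / Lam) (δ := ε / 16) (Φ := Φ) (G := G) (Bd := Bd)
      hT3 (by omega) (by omega) (by omega) hZ q1 rfl hGp0 hLam' hεd0.le hsub (fun L _ => hT.rle L) ?_
      (fun L _ hg => hT.row L hg) ?_ ?_ ?_ ?_ ?_ ?_ q3 q2 ?_ (fun L => ⟨hΦ0 L, hΦ1 L⟩) (fun t => ⟨hG0 t, hG1 t⟩) ?_
      (by positivity) ?_ ?_ ?_
    · have e1 : Lam * (ε1 / Lam) = ε1 := mul_div_cancel₀ _ hLam'.ne'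
      rw [e1] at hmain
      have e2 : (ε / 16 + ε1) + 5 * ε1 ≤ ε := by
        rw [hε1]
        linarith
      have h1 := hmain.trans e2
      have h2 : (gpF Φ (PR n k d S)).toReal = ∑ L ∈ A, wL L * Φ L := by
        rw [← hA]
        exact gpF_toReal hΦ0 A
      have h3 : (gp (PR n k d S)).toReal = ∑ L ∈ A, wL L := by
        rw [← hA]
        exact gp_toReal A
      rw [h2, h3]
      have h4 : ∑ L ∈ A, wL L * Φ L - (∑ L ∈ A, wL L) * ∑ i ∈ Finset.range (4 * n),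
          aN i * (rk (k - W) (k1 + W) (l0 - W) (l1 + W) i).card / Z * MCP.Eu i G =
          (∑ L ∈ A, wL L) * ((∑ L ∈ A, wL L * Φ L) / (∑ L ∈ A, wL L) - ∑ i ∈ Finset.range (4 * n),
            aN i * (rk (k - W) (k1 + W) (l0 - W) (l1 + W) i).card / Z * MCP.Eu i G) := by
        rw [mul_sub, mul_div_cancel₀ _ hGp0.ne']
      rw [h4, abs_mul, abs_of_pos hGp0, mul_comm ε]
      exact mul_le_mul_of_nonneg_left h1 hGp0.le
    · -- the ways end in the rectangle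
      intro L hL K hne
      exact way_supp hW1 hk1e hl0e hl1e ((hmA L).1 hL) (hT.way L K hne) fun k' l h1 h2 h3 h4 => (q4 k' l h1 h2 h3 h4).1
    · -- most of the pairs are good
      have h1 := hT.many
      have e1 : gp {L | L ∈ PR n k d S ∧ L ∉ Good} = ∑ L ∈ A with L ∉ Good, wE L.1 * wE L.2.2 := by
        rw [← gp_finset]
        congr 1
        ext L
        rw [Finset.coe_filter]
        show (L ∈ PR n k d S ∧ L ∉ Good) ↔ (L ∈ A ∧ L ∉ Good)
        rw [hmA]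
      rw [e1] at h1
      have h2 := ENNReal.toReal_mono (ENNReal.mul_ne_top ENNReal.ofReal_ne_top hgpt) h1
      rw [ENNReal.toReal_sum fun T _ => ENNReal.mul_ne_top (wE_ne_top _) (wE_ne_top _), ENNReal.toReal_mul,
        ENNReal.toReal_ofReal hε10.le, ← hA, gp_toReal] at h2
      exact h2
    · intro K _
      refine (ENNReal.sum_le_tsum A).trans (le_of_eq ?_)
      exact hT.col K
    · intro K hKb
      rw [← hT.col K, tsum_eq_sum]
      intro L hL
      by_contra hne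
      exact hL ((hmA L).2 (way_back hW1 (by linarith) hkn hk1e hl0e hl1e hKb (hT.way L K hne)))
    · intro K hKb
      have hsa := (mem_BB.1 hKb).2.1
      have h1 := hT.det K hsa
      have hnp : (0 : ℝ) < (n : ℝ) ^ (75 / 32 : ℝ) := by positivity
      have hne : DD K ≠ ∞ := by
        intro h0
        rw [h0, ENNReal.top_mul (ENNReal.ofReal_pos.2 hnp).ne', top_le_iff] at h1
        exact ENNReal.mul_ne_top ENNReal.ofReal_ne_top hgpt h1
      refine ⟨hne, ?_⟩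
      have h2 := ENNReal.toReal_mono (ENNReal.mul_ne_top ENNReal.ofReal_ne_top hgpt) h1
      rw [ENNReal.toReal_mul, ENNReal.toReal_mul, ENNReal.toReal_ofReal hnp.le, ENNReal.toReal_ofReal hLam0.le, ← hA,
        gp_toReal] at h2
      have h3 : (0 : ℝ) ≤ (DD K).toReal := ENNReal.toReal_nonneg
      calc (DD K).toReal * Z ≤ (DD K).toReal * (C2 * (n : ℝ) ^ (75 / 32 : ℝ)) := mul_le_mul_of_nonneg_left q5 h3
        _ = C2 * ((DD K).toReal * (n : ℝ) ^ (75 / 32 : ℝ)) := by ring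
        _ ≤ C2 * (Lam0 * ∑ L ∈ A, wL L) := mul_le_mul_of_nonneg_left h2 hC2.le
        _ = _ := by
          rw [hLam]
          ring
    · intro K hKb K' hKb' hf hf' hw
      exact hT.loc T hTX K K' (mem_BB.1 hKb).2.1 (mem_BB.1 hKb').2.1 hf hf' hw
    · -- no far strand
      intro N hN4 hne
      obtain ⟨-, -, hN3, -⟩ := hN N hne
      have hNp := pow_half hN3
      have h1 : TOG.Pn N {H | ∃ k', k' ∈ rk (k + W) (k1 - W) (l0 + W) (l1 - W) N ∧ (H, k') ∉ {K | Far T (j + w) K}} ≤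
          TOG.Pn N {H | FarN.NearW (δ / 8) rF N H} := by
        refine TIP.Nf.Pn_mono fun H hH hx => ?_
        obtain ⟨k', hk', hnf⟩ := hx
        rw [mem_rk] at hk'
        refine near_of_not_far (T := T) (w := j + w) hH.1 (by omega) (by omega) ?_ ?_ hnf
        · have : (N : ℝ) ≤ 4 * n := by exact_mod_cast hN4.le
          nlinarith
        · rw [pow_add]
          calc (2 : ℝ) ^ j * 2 ^ w ≤ (8 * r * (n : ℝ) ^ (3 / 4 : ℝ)) * 2 ^ w := mul_le_mul_of_nonneg_right hj3 (by positivity)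
            _ ≤ (8 * r * (2 * (N : ℝ) ^ (3 / 4 : ℝ))) * 2 ^ w :=
              mul_le_mul_of_nonneg_right (mul_le_mul_of_nonneg_left hNp (by positivity)) (by positivity)
            _ = 16 * 2 ^ w * r * (N : ℝ) ^ (3 / 4 : ℝ) := by ring
            _ ≤ rF * (N : ℝ) ^ (3 / 4 : ℝ) := mul_le_mul_of_nonneg_right hrc (by positivity)
      refine h1.trans ?_
      rw [MCP.Pn_Eu]
      have h2 := hF N (by omega)
      refine le_trans (le_of_eq ?_) h2
      congr 1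
    · -- the densities
      intro φ hφ
      obtain ⟨r', hr'0, hr'2, hr'⟩ := hRd (2 * T) (fun v => φ (List.ofFn v)) (fun v => hφ _)
      refine ⟨r', hr'0, hr'2, fun N _ hne => hr' N ?_⟩
      obtain ⟨-, -, hN3, -⟩ := hN N (hne.mono (hsub N))
      have h1 : (n : ℝ) ≤ 2 * N := by exact_mod_cast hN3
      have hR0 : (0 : ℝ) ≤ R := Nat.cast_nonneg R
      rw [le_div_iff₀ (by positivity)] at hδ2
      have hT' : (1 : ℝ) ≤ T := by exact_mod_cast hT3
      have h2 : (R : ℝ) * (2 * T + 1) ≤ N := by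
        calc (R : ℝ) * (2 * T + 1) ≤ (R + 1) * (3 * T) := by nlinarith
          _ ≤ (R + 1) * (3 * (δ * n)) := by
            refine mul_le_mul_of_nonneg_left ?_ (by positivity)
            linarith
          _ = (δ * (6 * ((R : ℝ) + 1))) * n / 2 := by ring
          _ ≤ 1 * n / 2 := by
            have := mul_le_mul_of_nonneg_right hδ2 hn0.le
            linarith
          _ ≤ N := by linarith
      exact_mod_cast h2
    · -- the bad words
      intro N _ hne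
      obtain ⟨h1, h2, -, -⟩ := hN N hne
      rw [MCP.Pn_Eu]
      refine le_trans (le_of_eq ?_) (hBd N h1 h2)
      congr 1
    · intro L hL K hne hb
      have hw := hT.way L K hne
      have hsa : K.1 ∈ SA := by
        obtain ⟨-, -, -, -, -, -, h, -⟩ := hw
        exact h
      refine hcmp L K.1 ((hmA L).1 hL) hsa (way_lnk ?_ ?_ hw) hb
      · have : η / 2 * n ≤ ρ * n := mul_le_mul_of_nonneg_right (by linarith) hn0.le
        linarith
      · calc C0 * 2 ^ j ≤ C0 * (8 * r * (n : ℝ) ^ (3 / 4 : ℝ)) := mul_le_mul_of_nonneg_left hj3 hC00.le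
          _ = 8 * C0 * r * (n : ℝ) ^ (3 / 4 : ℝ) := by ring
          _ < ρ * (n : ℝ) ^ (3 / 4 : ℝ) := by
            refine mul_lt_mul_of_pos_right ?_ hpn
            have : 0 < C0 * r := by positivity
            linarith
    · -- hε1
      have h1 : Lam * (ε1 / (2 * Lam)) = ε1 / 2 := by field_simp
      have h2 : Lam * (C2 * (W / n)) ≤ ε1 / 8 := by
        have h3 : (W : ℝ) / n ≤ η := by
          rw [div_le_iff₀ hn0]
          exact hW2
        have h4 : Lam * (C2 * (W / n)) ≤ Lam * C2 * η := by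
          rw [← mul_assoc]
          exact mul_le_mul_of_nonneg_left h3 (by positivity)
        have h5 : Lam * C2 * η ≤ ε1 / 8 := by
          rw [le_div_iff₀ (by positivity)] at hη2
          linarith
        linarith
      rw [mul_add, h1]
      linarith
    · -- hε2
      have e0 : ((4 * n : ℕ) : ℝ) = 4 * n := by push_cast; ring
      have h1 : 4 * (T : ℝ) / ((4 * n : ℕ) : ℝ) ≤ δ := by
        rw [e0, div_le_iff₀ (by positivity)]
        linarith
      have hLC : 0 < Lam * C2 := by positivity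
      have h2 : Lam * C2 * (3 * εd) = ε1 / 8 := by
        rw [hεd]
        field_simp
        ring
      have h3 : Lam * C2 * δ ≤ ε1 / 8 := by
        rw [le_div_iff₀ (by positivity)] at hδ1
        linarith
      have h4 : Lam * (C2 * (W / n)) ≤ ε1 / 8 := by
        have h3 : (W : ℝ) / n ≤ η := by
          rw [div_le_iff₀ hn0]
          exact hW2
        have h4 : Lam * (C2 * (W / n)) ≤ Lam * C2 * η := by
          rw [← mul_assoc]
          exact mul_le_mul_of_nonneg_left h3 (by positivity)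
        have h5 : Lam * C2 * η ≤ ε1 / 8 := by
          rw [le_div_iff₀ (by positivity)] at hη2
          linarith
        linarith
      have h5 : Lam * (C2 * (3 * εd + 4 * (T : ℝ) / ((4 * n : ℕ) : ℝ))) ≤ ε1 / 4 := by
        calc Lam * (C2 * (3 * εd + 4 * (T : ℝ) / ((4 * n : ℕ) : ℝ))) =
              Lam * C2 * (3 * εd) + Lam * C2 * (4 * (T : ℝ) / ((4 * n : ℕ) : ℝ)) := by ring
          _ ≤ Lam * C2 * (3 * εd) + Lam * C2 * δ := by
            have := mul_le_mul_of_nonneg_left h1 hLC.le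
            linarith
          _ ≤ ε1 / 4 := by
            rw [h2]
            linarith
      have h6 : 2 * Lam * (C2 * (W / n)) ≤ ε1 / 4 := by
        have : 2 * Lam * (C2 * (W / n)) = 2 * (Lam * (C2 * (W / n))) := by ring
        rw [this]
        linarith
      linarith

end KA

end RMP

end HexObs
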