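import Pool.Agent.RMP.KaDen
import Pool.Agent.SLW.AReg

/-!
# RMP, row KA (helper73): the rectangle of the marks (pure numbers)

* `rc_aN`, `rc_win` : the weights `aN N = c_N μ ^ (-N)` are of the order `n ^ (11 / 32)` for `n / 2 ≤ N < 4 n`;
* `rc_count` : the number of the points of the rectangle; `rc_diff` : the marks outside of the smaller rectangle;
* **`rect`** : the weight `Z` of the rectangle of the marks: positive, comparable with `n ^ 2` times the weight of one number of letters,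
  the border is a part `C W / n` of it.
-/

set_option autoImplicit false

namespace HexObs

namespace RMP

namespace KA

open Finset TOG

/-- the exact order of the weights -/
lemma rc_aN : ∃ c C : ℝ, 0 < c ∧ 0 < C ∧ ∀ n : ℕ, 1 ≤ n → c * (n : ℝ) ^ ((11 : ℝ) / 32) ≤ aN n ∧
    aN n ≤ C * (n : ℝ) ^ ((11 : ℝ) / 32) := by
  obtain ⟨c, C, hc, hC, h⟩ := TPC.an_const TPC.xUp TPC.xLow
  have hx := xc_pos
  have hmu : muB = 1 / xc := le_antisymm muB_le le_muB
  refine ⟨2 / 3 * c, 2 / 3 * C, by positivity, by positivity, fun n hn => ?_⟩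
  have h1 : (2 : ℝ) * aB n = 3 * cS n := by exact_mod_cast aB_eq hn
  have h2 : aN n = 2 / 3 * (aB n * xc ^ n) := by
    unfold aN
    have : (cS n : ℝ) = 2 / 3 * aB n := by linarith
    rw [this]
    ring
  have h3 : muB ^ n * xc ^ n = 1 := by
    rw [hmu, ← mul_pow, one_div, inv_mul_cancel₀ hx.ne', one_pow]
  obtain ⟨h4, h5⟩ := h n hn
  have h6 : c * (muB ^ n * (n : ℝ) ^ ((11 : ℝ) / 32)) * xc ^ n ≤ aB n * xc ^ n := mul_le_mul_of_nonneg_right h4 (by positivity)
  have h7 : aB n * xc ^ n ≤ C * (muB ^ n * (n : ℝ) ^ ((11 : ℝ) / 32)) * xc ^ n := mul_le_mul_of_nonneg_right h5 (by positivity)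
  have e1 : ∀ x : ℝ, x * (muB ^ n * (n : ℝ) ^ ((11 : ℝ) / 32)) * xc ^ n = x * (n : ℝ) ^ ((11 : ℝ) / 32) := fun x => by
    calc x * (muB ^ n * (n : ℝ) ^ ((11 : ℝ) / 32)) * xc ^ n = x * (n : ℝ) ^ ((11 : ℝ) / 32) * (muB ^ n * xc ^ n) := by ring
      _ = _ := by rw [h3, mul_one]
  rw [e1] at h6 h7
  rw [h2]
  constructor <;> linarith

/-- the weights of the window `[n / 2, 4 n]` -/
lemma rc_win : ∃ c C : ℝ, 0 < c ∧ 0 < C ∧ ∀ n N : ℕ, 1 ≤ n → n ≤ 2 * N → N < 4 * n →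
    c * (n : ℝ) ^ ((11 : ℝ) / 32) ≤ aN N ∧ aN N ≤ C * (n : ℝ) ^ ((11 : ℝ) / 32) := by
  obtain ⟨c, C, hc, hC, h⟩ := rc_aN
  refine ⟨c / 2, C * 4, by positivity, by positivity, fun n N hn h1 h2 => ?_⟩
  obtain ⟨h3, h4⟩ := h N (by omega)
  have hn0 : (0 : ℝ) < n := by exact_mod_cast hn
  constructor
  · refine le_trans ?_ h3
    have h5 : (n : ℝ) ^ ((11 : ℝ) / 32) ≤ 2 * (N : ℝ) ^ ((11 : ℝ) / 32) := by
      calc (n : ℝ) ^ ((11 : ℝ) / 32) ≤ (2 * (N : ℝ)) ^ ((11 : ℝ) / 32) :=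
            Real.rpow_le_rpow hn0.le (by exact_mod_cast h1) (by norm_num)
        _ = (2 : ℝ) ^ ((11 : ℝ) / 32) * (N : ℝ) ^ ((11 : ℝ) / 32) := Real.mul_rpow (by norm_num) (by positivity)
        _ ≤ 2 * (N : ℝ) ^ ((11 : ℝ) / 32) := by
            refine mul_le_mul_of_nonneg_right ?_ (by positivity)
            calc (2 : ℝ) ^ ((11 : ℝ) / 32) ≤ (2 : ℝ) ^ (1 : ℝ) :=
                  Real.rpow_le_rpow_of_exponent_le (by norm_num) (by norm_num)
              _ = 2 := Real.rpow_one 2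
    calc c / 2 * (n : ℝ) ^ ((11 : ℝ) / 32) ≤ c / 2 * (2 * (N : ℝ) ^ ((11 : ℝ) / 32)) :=
          mul_le_mul_of_nonneg_left h5 (by positivity)
      _ = c * (N : ℝ) ^ ((11 : ℝ) / 32) := by ring
  · refine h4.trans ?_
    have h5 : (N : ℝ) ^ ((11 : ℝ) / 32) ≤ 4 * (n : ℝ) ^ ((11 : ℝ) / 32) := by
      calc (N : ℝ) ^ ((11 : ℝ) / 32) ≤ (4 * (n : ℝ)) ^ ((11 : ℝ) / 32) :=
            Real.rpow_le_rpow (by positivity) (by exact_mod_cast h2.le) (by norm_num)
        _ = (4 : ℝ) ^ ((11 : ℝ) / 32) * (n : ℝ) ^ ((11 : ℝ) / 32) := Real.mul_rpow (by norm_num) (by positivity)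
        _ ≤ 4 * (n : ℝ) ^ ((11 : ℝ) / 32) := by
            refine mul_le_mul_of_nonneg_right ?_ (by positivity)
            calc (4 : ℝ) ^ ((11 : ℝ) / 32) ≤ (4 : ℝ) ^ (1 : ℝ) :=
                  Real.rpow_le_rpow_of_exponent_le (by norm_num) (by norm_num)
              _ = 4 := Real.rpow_one 4
    calc C * (N : ℝ) ^ ((11 : ℝ) / 32) ≤ C * (4 * (n : ℝ) ^ ((11 : ℝ) / 32)) := mul_le_mul_of_nonneg_left h5 hC.le
      _ = C * 4 * (n : ℝ) ^ ((11 : ℝ) / 32) := by ring

lemma rc_mem {a b c e N k : ℕ} : k ∈ rk a b c e N ↔ a ≤ k ∧ k ≤ b ∧ k + c ≤ N ∧ N ≤ k + e := by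
  unfold rk
  rw [Finset.mem_filter, Finset.mem_Icc]
  tauto

/-- the number of the points of the rectangle -/
lemma rc_count {a b c e M : ℕ} (h : b + e < M) :
    ∑ N ∈ Finset.range M, (rk a b c e N).card = (b + 1 - a) * (e + 1 - c) := by
  have h1 : ∀ N, (rk a b c e N).card = ∑ k ∈ Finset.Icc a b, if k + c ≤ N ∧ N ≤ k + e then 1 else 0 := fun N => by
    unfold rk
    rw [Finset.card_filter]
  calc ∑ N ∈ Finset.range M, (rk a b c e N).card =
        ∑ N ∈ Finset.range M, ∑ k ∈ Finset.Icc a b, (if k + c ≤ N ∧ N ≤ k + e then 1 else 0) :=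
        Finset.sum_congr rfl fun N _ => h1 N
    _ = ∑ k ∈ Finset.Icc a b, ∑ N ∈ Finset.range M, (if k + c ≤ N ∧ N ≤ k + e then 1 else 0) := Finset.sum_comm
    _ = ∑ k ∈ Finset.Icc a b, (e + 1 - c) := by
        refine Finset.sum_congr rfl fun k hk => ?_
        rw [Finset.mem_Icc] at hk
        rw [← Finset.card_filter]
        have h2 : (Finset.range M).filter (fun N => k + c ≤ N ∧ N ≤ k + e) = Finset.Icc (k + c) (k + e) := by
          ext N
          rw [Finset.mem_filter, Finset.mem_range, Finset.mem_Icc]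
          omega
        rw [h2, Nat.card_Icc]
        omega
    _ = (b + 1 - a) * (e + 1 - c) := by
        rw [Finset.sum_const, Nat.card_Icc, smul_eq_mul]

/-- the marks outside of the smaller rectangle -/
lemma rc_diff {a b c e a' b' c' e' W N : ℕ} (h1 : a' ≤ a + 2 * W) (h2 : b ≤ b' + 2 * W) (h3 : c' ≤ c + 2 * W)
    (h4 : e ≤ e' + 2 * W) : (rk a b c e N).card ≤ (rk a' b' c' e' N).card + 8 * W := by
  have h : rk a b c e N ⊆ rk a' b' c' e' N ∪ (Finset.Ico a (a + 2 * W) ∪ (Finset.Ioc b' (b' + 2 * W) ∪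
      (Finset.Ioc (N - c - 2 * W) (N - c) ∪ Finset.Ico (N - e) (N - e + 2 * W)))) := by
    intro k hk
    rw [rc_mem] at hk
    simp only [Finset.mem_union, rc_mem, Finset.mem_Ico, Finset.mem_Ioc]
    by_contra hcon
    push Not at hcon
    obtain ⟨q0, q1, q2, q3, q4⟩ := hcon
    have c1 : a' ≤ k := by
      have := q1 hk.1
      omega
    have c2 : k ≤ b' := by
      by_contra h5
      have := q2 (by omega)
      omega
    have c3 : k + c' ≤ N := by
      by_contra h5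
      have := q3 (by omega)
      omega
    have c4 : N ≤ k + e' := by
      by_contra h5
      have := q4 (by omega)
      omega
    have := q0 c1 c2 c3
    omega
  refine (Finset.card_le_card h).trans ?_
  refine (Finset.card_union_le _ _).trans (Nat.add_le_add_left ?_ _)
  refine (Finset.card_union_le _ _).trans ?_
  have e1 : (Finset.Ico a (a + 2 * W)).card = 2 * W := by rw [Nat.card_Ico]; omega
  have e2 : (Finset.Ioc b' (b' + 2 * W)).card = 2 * W := by rw [Nat.card_Ioc]; omega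
  have e3 : (Finset.Ioc (N - c - 2 * W) (N - c)).card ≤ 2 * W := by rw [Nat.card_Ioc]; omega
  have e4 : (Finset.Ico (N - e) (N - e + 2 * W)).card = 2 * W := by rw [Nat.card_Ico]; omega
  have f1 := Finset.card_union_le (Finset.Ioc (N - c - 2 * W) (N - c)) (Finset.Ico (N - e) (N - e + 2 * W))
  have f2 := Finset.card_union_le (Finset.Ioc b' (b' + 2 * W))
    (Finset.Ioc (N - c - 2 * W) (N - c) ∪ Finset.Ico (N - e) (N - e + 2 * W))
  omega

/-- **the rectangle of the marks** -/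
theorem rect (ε d : ℝ) (hε : 0 < ε) (hd : 0 < d) (hd1 : d ≤ 1) : ∃ (C : ℝ) (n0 : ℕ), 0 < C ∧ ∀ n k W : ℕ, n0 ≤ n →
    ε * n ≤ k → (k : ℝ) ≤ (1 - ε) * n → (16 * W : ℝ) ≤ ε * d * n → 1 ≤ W →
    ∀ k1 l0 l1 : ℕ, k1 = ⌊(1 + d) * (k : ℝ)⌋₊ → l0 = n - k → l1 = ⌊(1 + d) * ((n : ℝ) - k)⌋₊ →
    ∀ Z : ℝ, Z = ZR (4 * n) (k - W) (k1 + W) (l0 - W) (l1 + W) →
      0 < Z ∧
      ∑ N ∈ Finset.range (4 * n), (if (rk (k - W) (k1 + W) (l0 - W) (l1 + W) N).Nonempty then aN N else 0) * (4 * n) ≤ C * Z ∧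
      ∑ N ∈ Finset.range (4 * n), aN N * (((rk (k - W) (k1 + W) (l0 - W) (l1 + W) N).card : ℝ) -
        (rk (k + W) (k1 - W) (l0 + W) (l1 - W) N).card) ≤ C * W / n * Z ∧
      (∀ k' l : ℕ, k - W ≤ k' → k' ≤ k1 + W → l0 - W ≤ l → l ≤ l1 + W →
        k' + l < 4 * n ∧ (1 - d) * n ≤ ((k' + l : ℕ) : ℝ) ∧ ((k' + l : ℕ) : ℝ) ≤ (1 + 2 * d) * n ∧ n ≤ 2 * (k' + l)) ∧
      Z ≤ C * (n : ℝ) ^ ((75 : ℝ) / 32) := by
  classical
  obtain ⟨c, C, hc, hC, hw⟩ := rc_win
  obtain ⟨K, hK⟩ : ∃ K : ℝ, K = 16 * C + 128 * C / (c * d ^ 2 * ε ^ 2) := ⟨_, rfl⟩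
  have hK1 : 0 < 128 * C / (c * d ^ 2 * ε ^ 2) := by positivity
  have hK0 : 0 < K := by rw [hK]; positivity
  refine ⟨K, 1, hK0, ?_⟩
  intro n k W hn hk1 hk2 hW hW1 k1 l0 l1 ek1 el0 el1 Z hZ
  have hnr : (1 : ℝ) ≤ n := by exact_mod_cast hn
  have hn0 : (0 : ℝ) < n := by linarith
  have hkn : k ≤ n := by
    have h1 : (k : ℝ) ≤ n := by nlinarith
    exact_mod_cast h1
  have hε2 : ε ≤ 1 / 2 := by
    by_contra h
    push Not at h
    have : (1 - ε) * n < ε * n := mul_lt_mul_of_pos_right (by linarith) hn0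
    linarith
  have hnk : ((n - k : ℕ) : ℝ) = (n : ℝ) - k := by
    push_cast [hkn]
    ring
  have hl0 : (l0 : ℝ) = (n : ℝ) - k := by rw [el0]; exact hnk
  have hlε : ε * n ≤ l0 := by rw [hl0]; linarith
  have hl0' : 0 ≤ (n : ℝ) - k := by rw [← hl0]; positivity
  have f1 : (k1 : ℝ) ≤ (1 + d) * k := by rw [ek1]; exact Nat.floor_le (by positivity)
  have f2 : (1 + d) * k < k1 + 1 := by rw [ek1]; exact Nat.lt_floor_add_one _
  have f3 : (l1 : ℝ) ≤ (1 + d) * l0 := by rw [el1, hl0]; exact Nat.floor_le (by positivity)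
  have f4 : (1 + d) * (l0 : ℝ) < l1 + 1 := by rw [el1, hl0]; exact Nat.lt_floor_add_one _
  have hdn : ε * d * n ≤ n / 2 := by
    have : ε * d ≤ 1 / 2 := by nlinarith
    nlinarith
  have g1 : (16 * W : ℝ) ≤ k := by
    have : ε * d * n ≤ ε * n := by nlinarith [mul_pos hε hn0]
    linarith
  have g2 : (16 * W : ℝ) ≤ l0 := by
    have : ε * d * n ≤ ε * n := by nlinarith [mul_pos hε hn0]
    linarith
  have g1' : 16 * W ≤ k := by exact_mod_cast g1
  have g2' : 16 * W ≤ l0 := by exact_mod_cast g2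
  have hkl : k + l0 = n := by omega
  have hk0 : 0 ≤ (k : ℝ) := by positivity
  have g3 : k ≤ k1 := by
    rw [ek1]
    exact Nat.le_floor (by nlinarith)
  have g4 : l0 ≤ l1 := by
    rw [el1, ← hl0]
    exact Nat.le_floor (by nlinarith [show (0 : ℝ) ≤ l0 by positivity])
  -- (4)
  have h4 : ∀ k' l : ℕ, k - W ≤ k' → k' ≤ k1 + W → l0 - W ≤ l → l ≤ l1 + W →
      k' + l < 4 * n ∧ (1 - d) * n ≤ ((k' + l : ℕ) : ℝ) ∧ ((k' + l : ℕ) : ℝ) ≤ (1 + 2 * d) * n ∧ n ≤ 2 * (k' + l) := by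
    intro k' l q1 q2 q3 q4
    have hsum : (k : ℝ) + l0 = n := by exact_mod_cast hkl
    have u1 : ((k' + l : ℕ) : ℝ) ≤ (1 + 2 * d) * n := by
      have r1 : (k' : ℝ) ≤ k1 + W := by exact_mod_cast q2
      have r2 : (l : ℝ) ≤ l1 + W := by exact_mod_cast q4
      push_cast
      have r3 : ε * d * n ≤ d * n / 2 := by
        have : ε * (d * n) ≤ 1 / 2 * (d * n) := mul_le_mul_of_nonneg_right hε2 (by positivity)
        linarith
      nlinarith
    have u2 : k' + l < 4 * n := by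
      have r1 : ((k' + l : ℕ) : ℝ) < 4 * n := by
        have : (1 + 2 * d) * n ≤ 3 * n := mul_le_mul_of_nonneg_right (by linarith) hn0.le
        linarith
      exact_mod_cast r1
    have u3 : n ≤ k' + l + 2 * W := by omega
    have u3' : (n : ℝ) ≤ ((k' + l : ℕ) : ℝ) + 2 * W := by exact_mod_cast u3
    have u4 : (1 - d) * n ≤ ((k' + l : ℕ) : ℝ) := by
      have r3 : ε * d * n ≤ d * n := by
        have : ε * (d * n) ≤ 1 * (d * n) := mul_le_mul_of_nonneg_right (by linarith) (by positivity)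
        linarith
      nlinarith [mul_pos hd hn0]
    exact ⟨u2, u4, u1, by omega⟩
  have hne : ∀ N : ℕ, (rk (k - W) (k1 + W) (l0 - W) (l1 + W) N).Nonempty → N < 4 * n ∧ n ≤ 2 * N := by
    rintro N ⟨k', hk'⟩
    rw [rc_mem] at hk'
    have := h4 k' (N - k') hk'.1 hk'.2.1 (by omega) (by omega)
    omega
  obtain ⟨X, hX⟩ : ∃ X : ℝ, X = (n : ℝ) ^ ((11 : ℝ) / 32) := ⟨_, rfl⟩
  have hX0 : 0 < X := by rw [hX]; positivity
  have hup : ∀ N : ℕ, (rk (k - W) (k1 + W) (l0 - W) (l1 + W) N).Nonempty → aN N ≤ C * X := fun N hN => by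
    have := hne N hN
    rw [hX]
    exact (hw n N hn this.2 this.1).2
  have hlo : ∀ N : ℕ, (rk (k - W) (k1 + W) (l0 - W) (l1 + W) N).Nonempty → c * X ≤ aN N := fun N hN => by
    have := hne N hN
    rw [hX]
    exact (hw n N hn this.2 this.1).1
  have hemp : ∀ N : ℕ, ¬ (rk (k - W) (k1 + W) (l0 - W) (l1 + W) N).Nonempty →
      (rk (k - W) (k1 + W) (l0 - W) (l1 + W) N).card = 0 := fun N hN => by
    rw [Finset.not_nonempty_iff_eq_empty] at hN
    rw [hN, Finset.card_empty]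
  -- lower bound of Z
  have hcnt := rc_count (a := k - W) (b := k1 + W) (c := l0 - W) (e := l1 + W) (M := 4 * n)
    (h4 (k1 + W) (l1 + W) (by omega) le_rfl (by omega) le_rfl).1
  have hZlow : c * X * (d ^ 2 * ε ^ 2 * (n : ℝ) ^ 2) ≤ Z := by
    have r1 : c * X * ∑ N ∈ Finset.range (4 * n), ((rk (k - W) (k1 + W) (l0 - W) (l1 + W) N).card : ℝ) ≤ Z := by
      rw [hZ, Finset.mul_sum]
      unfold ZR
      refine Finset.sum_le_sum fun N _ => ?_
      by_cases hN : (rk (k - W) (k1 + W) (l0 - W) (l1 + W) N).Nonempty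
      · exact mul_le_mul_of_nonneg_right (hlo N hN) (by positivity)
      · rw [hemp N hN, Nat.cast_zero, mul_zero, mul_zero]
    refine le_trans (mul_le_mul_of_nonneg_left ?_ (by positivity)) r1
    have r2 : (((k1 + W + 1 - (k - W)) * (l1 + W + 1 - (l0 - W)) : ℕ) : ℝ) =
        ∑ N ∈ Finset.range (4 * n), ((rk (k - W) (k1 + W) (l0 - W) (l1 + W) N).card : ℝ) := by
      rw [← hcnt]
      push_cast
      rfl
    rw [← r2]
    have r3 : d * (ε * n) ≤ ((k1 + W + 1 - (k - W) : ℕ) : ℝ) := by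
      have s1 : k1 + 1 ≤ (k1 + W + 1 - (k - W)) + k := by omega
      have s2 : (k1 : ℝ) + 1 ≤ ((k1 + W + 1 - (k - W) : ℕ) : ℝ) + k := by exact_mod_cast s1
      have s3 : d * (ε * n) ≤ d * k := mul_le_mul_of_nonneg_left hk1 hd.le
      linarith
    have r4 : d * (ε * n) ≤ ((l1 + W + 1 - (l0 - W) : ℕ) : ℝ) := by
      have s1 : l1 + 1 ≤ (l1 + W + 1 - (l0 - W)) + l0 := by omega
      have s2 : (l1 : ℝ) + 1 ≤ ((l1 + W + 1 - (l0 - W) : ℕ) : ℝ) + l0 := by exact_mod_cast s1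
      have s3 : d * (ε * n) ≤ d * l0 := mul_le_mul_of_nonneg_left hlε hd.le
      linarith
    calc d ^ 2 * ε ^ 2 * (n : ℝ) ^ 2 = (d * (ε * n)) * (d * (ε * n)) := by ring
      _ ≤ ((k1 + W + 1 - (k - W) : ℕ) : ℝ) * ((l1 + W + 1 - (l0 - W) : ℕ) : ℝ) :=
          mul_le_mul r3 r4 (by positivity) (by positivity)
      _ = (((k1 + W + 1 - (k - W)) * (l1 + W + 1 - (l0 - W)) : ℕ) : ℝ) := by push_cast; rfl
  have hZ0 : 0 < Z := lt_of_lt_of_le (by positivity) hZlow
  have hKZ : 128 * C * (X * (n : ℝ) ^ 2) ≤ K * Z := by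
    have s1 : 128 * C / (c * d ^ 2 * ε ^ 2) * (c * X * (d ^ 2 * ε ^ 2 * (n : ℝ) ^ 2)) ≤ K * Z := by
      refine mul_le_mul ?_ hZlow (by positivity) hK0.le
      rw [hK]
      have : 0 < 16 * C := by positivity
      linarith
    have s2 : 128 * C / (c * d ^ 2 * ε ^ 2) * (c * X * (d ^ 2 * ε ^ 2 * (n : ℝ) ^ 2)) = 128 * C * (X * (n : ℝ) ^ 2) := by
      field_simp
    linarith
  have hM : ((Finset.range (4 * n)).card : ℝ) = 4 * n := by
    rw [Finset.card_range]
    push_cast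
    rfl
  refine ⟨hZ0, ?_, ?_, h4, ?_⟩
  · -- (2)
    have s1 : ∑ N ∈ Finset.range (4 * n), (if (rk (k - W) (k1 + W) (l0 - W) (l1 + W) N).Nonempty then aN N else 0) * (4 * n) ≤
        ∑ _N ∈ Finset.range (4 * n), C * X * (4 * n) := by
      refine Finset.sum_le_sum fun N _ => mul_le_mul_of_nonneg_right ?_ (by positivity)
      split_ifs with hN
      · exact hup N hN
      · positivity
    refine s1.trans ?_
    rw [Finset.sum_const, nsmul_eq_mul, hM]
    have : 0 ≤ C * (X * (n : ℝ) ^ 2) := by positivity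
    nlinarith
  · -- (3)
    have s1 : ∑ N ∈ Finset.range (4 * n), aN N * (((rk (k - W) (k1 + W) (l0 - W) (l1 + W) N).card : ℝ) -
        (rk (k + W) (k1 - W) (l0 + W) (l1 - W) N).card) ≤ ∑ _N ∈ Finset.range (4 * n), C * X * (8 * W) := by
      refine Finset.sum_le_sum fun N _ => ?_
      have haN : 0 ≤ aN N := by
        unfold aN
        have := xc_pos
        positivity
      have s2 : (rk (k - W) (k1 + W) (l0 - W) (l1 + W) N).card ≤ (rk (k + W) (k1 - W) (l0 + W) (l1 - W) N).card + 8 * W :=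
        rc_diff (by omega) (by omega) (by omega) (by omega)
      have s3 : ((rk (k - W) (k1 + W) (l0 - W) (l1 + W) N).card : ℝ) ≤
          (rk (k + W) (k1 - W) (l0 + W) (l1 - W) N).card + 8 * W := by exact_mod_cast s2
      by_cases hN : (rk (k - W) (k1 + W) (l0 - W) (l1 + W) N).Nonempty
      · calc aN N * (((rk (k - W) (k1 + W) (l0 - W) (l1 + W) N).card : ℝ) - (rk (k + W) (k1 - W) (l0 + W) (l1 - W) N).card) ≤
              aN N * (8 * W) := mul_le_mul_of_nonneg_left (by linarith) haN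
          _ ≤ C * X * (8 * W) := mul_le_mul_of_nonneg_right (hup N hN) (by positivity)
      · rw [hemp N hN, Nat.cast_zero, zero_sub]
        have : 0 ≤ aN N * ((rk (k + W) (k1 - W) (l0 + W) (l1 - W) N).card : ℝ) := by positivity
        have h8 : 0 ≤ C * X * (8 * (W : ℝ)) := by positivity
        linarith
    refine s1.trans ?_
    rw [Finset.sum_const, nsmul_eq_mul, hM]
    have s4 : 4 * (n : ℝ) * (C * X * (8 * W)) = (W : ℝ) / n * (32 * C * (X * (n : ℝ) ^ 2)) := by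
      field_simp
      ring
    have s5 : K * W / n * Z = (W : ℝ) / n * (K * Z) := by ring
    rw [s4, s5]
    refine mul_le_mul_of_nonneg_left ?_ (by positivity)
    have : 0 ≤ C * (X * (n : ℝ) ^ 2) := by positivity
    linarith
  · -- (5)
    have s1 : Z ≤ ∑ _N ∈ Finset.range (4 * n), C * X * (4 * n) := by
      rw [hZ]
      unfold ZR
      refine Finset.sum_le_sum fun N _ => ?_
      by_cases hN : (rk (k - W) (k1 + W) (l0 - W) (l1 + W) N).Nonempty
      · have s2 : ((rk (k - W) (k1 + W) (l0 - W) (l1 + W) N).card : ℝ) ≤ 4 * n := by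
          have s3 : rk (k - W) (k1 + W) (l0 - W) (l1 + W) N ⊆ Finset.range (4 * n) := by
            intro k' hk'
            rw [rc_mem] at hk'
            rw [Finset.mem_range]
            have := h4 k' (N - k') hk'.1 hk'.2.1 (by omega) (by omega)
            omega
          have s4 := Finset.card_le_card s3
          rw [Finset.card_range] at s4
          exact_mod_cast s4
        exact mul_le_mul (hup N hN) s2 (by positivity) (by positivity)
      · rw [hemp N hN, Nat.cast_zero, mul_zero]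
        positivity
    refine s1.trans ?_
    rw [Finset.sum_const, nsmul_eq_mul, hM]
    have s5 : (n : ℝ) ^ ((75 : ℝ) / 32) = X * (n : ℝ) ^ 2 := by
      rw [hX, ← Real.rpow_natCast, ← Real.rpow_add hn0]
      norm_num
    rw [s5]
    have s6 : 16 * C * (X * (n : ℝ) ^ 2) ≤ K * (X * (n : ℝ) ^ 2) := by
      refine mul_le_mul_of_nonneg_right ?_ (by positivity)
      rw [hK]
      linarith
    nlinarith

end KA

end RMP

end HexObs
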