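import Pool.Agent.RMP.KaFin
import Pool.Agent.RMP.KaRect

/-!
# RMP, row KA (helper73): `rectP : RectP`, no hypothesis
-/

set_option autoImplicit false

namespace HexObs

namespace RMP

namespace KA

/-- **the rectangle of the marks, the literal of `rmw_of`** -/
theorem rectP : RectP := by
  intro ε d hε hd hd1
  obtain ⟨C, n0, hC, h⟩ := rect ε d hε hd hd1
  refine ⟨C, n0, hC, fun n k W k1 l0 l1 hn h1 h2 h3 h4 h5 h6 h7 => ?_⟩
  obtain ⟨r1, r2, r3, r4, r5⟩ := h n k W hn h1 h2 h3 h4 k1 l0 l1 h5 h6 h7 _ rfl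
  refine ⟨r1, ?_, ?_, r4, r5⟩
  · push_cast
    exact r2
  · rw [mul_div_assoc] at r3
    exact r3

end KA

end RMP

end HexObs
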