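import Pool.Agent.RMP.LenG
import Pool.Agent.RMP.SepR
import Pool.Agent.RMP.KDefs

/-!
# RMP, row ManyP (helper47): almost all pairs of PR have many admissible pairs of cuts

* `AD_fin` : an open pair has finitely many admissible pairs of cuts;
* `many_of` : a good pair (GP) with fewer than `κ / 2 * Ub j` long cuts on both sides has at least `(κ / 2) ^ 2 * Ub j ^ 2`
  admissible pairs of cuts (deterministic);
* **`manyR_of`** : the row.
-/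

set_option autoImplicit false

namespace HexObs

namespace RMP

open Finset TS SDN HexObs.SIM NTA TIP ARM TIW

open scoped ENNReal

namespace MP

/-- an open pair has finitely many admissible pairs of cuts -/
lemma AD_fin (P : Par) (L : PT) : (AD P L).Finite := by
  classical
  have h : AD P L ⊆ ((range (L.1.length + 1) ×ˢ range (L.2.2.length + 1)).image fun p : ℕ × ℕ =>
      (((L.1.take p.1, (L.2.1, L.2.2.take p.2)) : PT), (L.1.drop p.1, L.2.2.drop p.2)) : Finset (PT × (List Bool × List Bool))) := by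
    rintro ⟨⟨A, g, B⟩, Y1, Y2⟩ ⟨-, h2⟩
    have h3 : ((A ++ Y1, (g, B ++ Y2)) : PT) = L := h2
    subst h3
    rw [mem_coe, mem_image]
    refine ⟨(A.length, B.length), ?_, ?_⟩
    · rw [mem_product, mem_range, mem_range]
      simp only [List.length_append]
      omega
    · simp only [List.take_left, List.drop_left]
  exact (finite_toSet _).subset h

/-- the cuts of the two words, as one pair of cuts -/
lemma cut_app {T : PT} {Y1 Y2 : List Bool} {j a m : ℕ} {η : ℝ}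
    (h1 : Y1 ∈ NCp j (j - a) (2 ^ (j + m)) η (ob T.2.1 T.2.2) T.1)
    (h2 : Y2 ∈ NCp j (j - a) (2 ^ (j + m)) η (ob (gi T.2.1) T.1) T.2.2) :
    ∃ A B : List Bool, T = (A ++ Y1, (T.2.1, B ++ Y2)) ∧ CutPP j a m η A Y1 T.2.1 B Y2 := by
  obtain ⟨A, hA, -⟩ := h1.2.2
  obtain ⟨B, hB, -⟩ := h2.2.2
  have e1 : T.1 = A ++ Y1 := hA
  have e2 : T.2.2 = B ++ Y2 := hB
  refine ⟨A, B, ?_, ?_, ?_⟩
  · show T = (A ++ Y1, (T.2.1, B ++ Y2))
    rw [← e1, ← e2]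
  · show Y1 ∈ NCp j (j - a) (2 ^ (j + m)) η (ob T.2.1 (B ++ Y2)) (A ++ Y1)
    rw [← e1, ← e2]
    exact h1
  · show Y2 ∈ NCp j (j - a) (2 ^ (j + m)) η (ob (gi T.2.1) (A ++ Y1)) (B ++ Y2)
    rw [← e1, ← e2]
    exact h2

/-- the short good cuts -/
def ShC (j a m : ℕ) (η A1 : ℝ) (T : PT) : Set (List Bool) :=
  {Y | Y ∈ NCp j (j - a) (2 ^ (j + m)) η (ob T.2.1 T.2.2) T.1 ∧ (Y.length : ℝ) ≤ A1 * ml j}

lemma shC_fin {j a m : ℕ} {η A1 : ℝ} {T : PT} : (ShC j a m η A1 T).Finite :=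
  (CutI.ncp_fin _ _ _ _ _ _).subset fun _ h => h.1

/-- enough short cuts -/
lemma shC_card {j a m : ℕ} {η A1 x : ℝ} {T : PT} (h1 : 2 * x ≤ gcp j a m η (ob T.2.1 T.2.2) T.1)
    (h2 : ((LCut j a m η A1 T).ncard : ℝ) < x) : x ≤ ((ShC j a m η A1 T).ncard : ℝ) := by
  have h3 : NCp j (j - a) (2 ^ (j + m)) η (ob T.2.1 T.2.2) T.1 ⊆ ShC j a m η A1 T ∪ LCut j a m η A1 T := by
    intro Y hY
    rcases le_or_gt (Y.length : ℝ) (A1 * ml j) with h | h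
    · exact Or.inl ⟨hY, h⟩
    · exact Or.inr ⟨hY, h⟩
  have hL : (LCut j a m η A1 T).Finite := (CutI.ncp_fin _ _ _ _ _ _).subset fun _ h => h.1
  have h4 := (Set.ncard_le_ncard h3 (shC_fin.union hL)).trans (Set.ncard_union_le _ _)
  have h5 : gcp j a m η (ob T.2.1 T.2.2) T.1 ≤ ((ShC j a m η A1 T).ncard : ℝ) + ((LCut j a m η A1 T).ncard : ℝ) := by
    unfold gcp
    exact_mod_cast h4
  linarith

/-- the number of the admissible pairs of cuts -/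
lemma NN_ge {P : Par} {T : PT} {j a m : ℕ} {η A1 x : ℝ} (hx : 0 ≤ x)
    (h1 : x ≤ ((ShC j a m η A1 T).ncard : ℝ)) (h2 : x ≤ ((ShC j a m η A1 (sw T)).ncard : ℝ))
    (h : ∀ A Y1 B Y2 : List Bool, T = (A ++ Y1, (T.2.1, B ++ Y2)) → CutPP j a m η A Y1 T.2.1 B Y2 →
      (Y1.length : ℝ) ≤ A1 * ml j → (Y2.length : ℝ) ≤ A1 * ml j → Adm P (A, (T.2.1, B)) (Y1, Y2)) :
    x ^ 2 ≤ (NN P T : ℝ) := by
  classical
  have hF1 : (ShC j a m η A1 T).Finite := shC_fin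
  have hF2 : (ShC j a m η A1 (sw T)).Finite := shC_fin
  have key : (ShC j a m η A1 T ×ˢ ShC j a m η A1 (sw T)).ncard ≤ NN P T := by
    refine Set.ncard_le_ncard_of_injOn (fun Y : List Bool × List Bool =>
      (((T.1.take (T.1.length - Y.1.length), (T.2.1, T.2.2.take (T.2.2.length - Y.2.length))) : PT), Y)) ?_ ?_ (AD_fin P T)
    · rintro ⟨Y1, Y2⟩ ⟨g1, g2⟩
      obtain ⟨A, B, e, hc⟩ := cut_app (T := T) g1.1 g2.1
      have e1 : T.1 = A ++ Y1 := congrArg (fun p : PT => p.1) e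
      have e2 : T.2.2 = B ++ Y2 := congrArg (fun p : PT => p.2.2) e
      have f1 : T.1.take (T.1.length - Y1.length) = A := by
        rw [e1, List.length_append, Nat.add_sub_cancel, List.take_left]
      have f2 : T.2.2.take (T.2.2.length - Y2.length) = B := by
        rw [e2, List.length_append, Nat.add_sub_cancel, List.take_left]
      refine ⟨?_, ?_⟩
      · show Adm P (T.1.take (T.1.length - Y1.length), (T.2.1, T.2.2.take (T.2.2.length - Y2.length))) (Y1, Y2)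
        rw [f1, f2]
        exact h A Y1 B Y2 e hc g1.2 g2.2
      · show ((T.1.take (T.1.length - Y1.length) ++ Y1, (T.2.1, T.2.2.take (T.2.2.length - Y2.length) ++ Y2)) : PT) = T
        rw [f1, f2]
        exact e.symm
    · intro Y _ Y' _ hYY
      exact (Prod.mk.inj hYY).2
  rw [Set.ncard_prod] at key
  have h3 : ((ShC j a m η A1 T).ncard : ℝ) * ((ShC j a m η A1 (sw T)).ncard : ℝ) ≤ (NN P T : ℝ) := by exact_mod_cast key
  refine le_trans ?_ h3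
  rw [pow_two]
  exact mul_le_mul h1 h2 hx (hx.trans h1)

/-- the exchange of a good pair -/
lemma GP_sw {R j : ℕ} {η κ : ℝ} {a m c u e k : ℕ} {T : PT} (h : T ∈ GP R j η κ a m c u e k) :
    sw T ∈ GP R j η κ a m c u e k := by
  obtain ⟨h1, h2, h3, h4⟩ := h
  have hf := P3_fr h1
  refine ⟨P3_sw h1, h3, ?_, fun h5 => h4 ?_⟩
  · rw [sw_sw hf]
    exact h2
  · have h6 := NTx_sw (Fr_gi hf) h5
    rwa [sw_sw hf] at h6

end MP

open MP

/-- **the deterministic part**: a good pair with few long cuts has many admissible pairs of cuts -/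
theorem many_of {P : Par} {R j : ℕ} {η κ : ℝ} {a m c u e k : ℕ} {A1 : ℝ} {T : PT} (hκ : 0 < κ) {DD : Finset ℤ}
    {H Mx sx : ℕ} (hJ : ∀ (A Y1 : List Bool) (g : Pt × Pt) (B Y2 : List Bool),
      ((A ++ Y1, (g, B ++ Y2)) : PT) ∈ GP R j η κ a m c u e k → CutPP j a m η A Y1 g B Y2 →
      ∃ (k' r : ℕ) (D : ℤ) (E : ℕ → Pt) (P : Pt), D ∈ DD ∧ k' ≤ j ∧ j ≤ k' + sx ∧ 18 * (H * 2 ^ k') ≤ D ∧
        D ≤ 36 * (H * 2 ^ k') ∧ 4 ≤ r ∧ r ≤ Mx ∧ IPg E r ∧ E (r - 2) = E (r - 1) ∧ JnP E r D k' P (A, (g, B)))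
    (hPj : P.j = j) (hPa : P.a = a) (hPm : P.m = m) (hPη : P.η = η) (hPH : P.H = H) (hPM : Mx ≤ P.Mx) (hPs : sx ≤ P.sx)
    (hPκ : 0 ≤ P.κ) (hPκ' : P.κ ≤ κ / 2) (hPA : 2 * A1 ≤ P.A1) (hTT : ∀ τ : Pth, τ.D ∈ DD → P.TT τ)
    (hT : T ∈ GP R j η κ a m c u e k) (hS : T ∈ GW P)
    (hL1 : ((LCut j a m η A1 T).ncard : ℝ) < κ / 2 * Ub j) (hL2 : ((LCut j a m η A1 (sw T)).ncard : ℝ) < κ / 2 * Ub j) :
    P.κ ^ 2 * Ub P.j ^ 2 ≤ (NN P T : ℝ) := by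
  have hUj := G2.U_pos j
  have hm := G2.m_pos j
  have hx : 0 ≤ κ / 2 * Ub j := by positivity
  have h1 : κ / 2 * Ub j ≤ ((ShC j a m η A1 T).ncard : ℝ) := by
    refine shC_card ?_ hL1
    have := hT.2.1.2.1
    linarith
  have h2 : κ / 2 * Ub j ≤ ((ShC j a m η A1 (sw T)).ncard : ℝ) := by
    refine shC_card ?_ hL2
    have := hT.2.2.1.2.1
    linarith
  have h3 := NN_ge (P := P) hx h1 h2 (fun A Y1 B Y2 hTe hc hl1 hl2 => by
    have hT' : ((A ++ Y1, (T.2.1, B ++ Y2)) : PT) ∈ GP R j η κ a m c u e k := by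
      rw [← hTe]
      exact hT
    refine ⟨?_, ?_, ?_, ?_⟩
    · show ((A ++ Y1, (T.2.1, B ++ Y2)) : PT) ∈ GW P
      rw [← hTe]
      exact hS
    · rw [hPj, hPa, hPm, hPη]
      exact cutPI_of_PP hc
    · obtain ⟨k', r, D, E, B0, q1, q2, q3, q4, q5, q6, q7, q8, q9, q10⟩ := hJ A Y1 T.2.1 B Y2 hT' hc
      refine jbl_of (T := (A, (T.2.1, B))) (k := k') (r := r) (D := D) (E := E) (B := B0) ?_ ?_ ?_ ?_ q6 ?_ q8 q9 ?_ q10
      · rw [hPj]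
        exact q2
      · rw [hPj]
        omega
      · rw [hPH]
        exact q4
      · rw [hPH]
        exact q5
      · omega
      · exact hTT _ q1
    · rw [hPj]
      have : 2 * A1 * ml j ≤ P.A1 * ml j := mul_le_mul_of_nonneg_right hPA hm.le
      show (Y1.length : ℝ) + (Y2.length : ℝ) ≤ P.A1 * ml j
      linarith)
  refine le_trans ?_ h3
  rw [hPj, ← mul_pow]
  exact pow_le_pow_left₀ (by positivity) (mul_le_mul_of_nonneg_right hPκ' hUj.le) 2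

/-- **row ManyP, count form**: all constants before the gap; the meshes `DD j` depend on the level only -/
def ManyR : Prop := ∀ ε t0 d : ℝ, 0 < ε → 0 < t0 → 0 < d → ∃ (η κ : ℝ) (a m : ℕ) (A1 : ℝ), 0 < η ∧ 0 < κ ∧ 0 < A1 ∧
  ∀ H : ℕ, 2 ^ 13 ≤ H → ∃ (Mx sx : ℕ) (DD : ℕ → Finset ℤ) (r0 : ℝ), 0 < r0 ∧ (∀ j, (DD j).card ≤ Mx) ∧
    ∀ r : ℝ, 0 < r → r ≤ r0 → ∀ b : ℕ, ∃ n0 : ℕ, ∀ (n k j : ℕ) (S : Set Pt), n0 ≤ n → Ctx t0 r n k j S → b ≤ j ∧
      ∀ P : Par, P.j = j → P.a = a → P.m = m → P.η = η → P.H = H → Mx ≤ P.Mx → sx ≤ P.sx → 0 ≤ P.κ → P.κ ≤ κ →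
        A1 ≤ P.A1 → P.S = S → (∀ τ : Pth, τ.D ∈ DD j → P.TT τ) →
          gp {T | T ∈ PR n k d S ∧ ¬ P.κ ^ 2 * Ub P.j ^ 2 ≤ (NN P T : ℝ)} ≤ ENNReal.ofReal ε * gp (PR n k d S)

/-- **row ManyP** -/
theorem manyR_of (hSep : SepR) (h9 : P9R) (hJ : JoinP) : ManyR := by
  classical
  intro ε t0 d hε ht hd
  obtain ⟨c9, r9, hc9, hr9, h9⟩ := h9 t0 d ht hd
  obtain ⟨η, κ, a, m, hη, hκ, hSep⟩ := hSep (ε / 2) t0 d (by positivity) ht hd
  obtain ⟨k1, c0, hJ⟩ := hJ η κ a m hη hκ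
  obtain ⟨c, u, e, Λ, r1, q1, q2, q3, q4, hΛ, hr1, hSep⟩ := hSep k1 c0
  obtain ⟨C, b0, hC, hLen⟩ := lenG_of hη hκ hJ c u e q1 q3 q4
  have hΛ0 : (0 : ℝ) < Λ := by exact_mod_cast hΛ
  obtain ⟨L, hL⟩ : ∃ L : ℝ, L = (Λ : ℝ) ^ (25 / 8 : ℝ) := ⟨_, rfl⟩
  have hLp : 0 < L := by
    rw [hL]
    positivity
  obtain ⟨A1, hA1⟩ : ∃ A1 : ℝ, A1 = 4 * C * L / (ε * c9) := ⟨_, rfl⟩
  have hA1p : 0 < A1 := by
    rw [hA1]
    positivity
  refine ⟨η, κ / 2, a, m, 2 * A1, hη, by positivity, by positivity, fun H hH => ?_⟩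
  obtain ⟨Mx, sx, b1, hJ⟩ := hJ c u e q1 q3 q4 H hH
  choose! DD hDD using hJ
  obtain ⟨DD', hDD'⟩ : ∃ DD' : ℕ → Finset ℤ, DD' = fun j => if b1 ≤ j then DD j else ∅ := ⟨_, rfl⟩
  obtain ⟨r0, hr0⟩ : ∃ r0 : ℝ, r0 = min (min r9 r1) (1 / (8 * 2 ^ (b0 + b1))) := ⟨_, rfl⟩
  have hr0p : 0 < r0 := by
    rw [hr0]
    positivity
  refine ⟨Mx, sx, DD', r0, hr0p, fun j => ?_, fun r hr hrr b => ?_⟩
  · rw [hDD']
    by_cases h : b1 ≤ j
    · simp only [if_pos h]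
      exact (hDD j h).1
    · simp only [if_neg h, card_empty]
      exact Nat.zero_le _
  have w1 : r ≤ r9 := hrr.trans (hr0 ▸ (min_le_left _ _).trans (min_le_left _ _))
  have w2 : r ≤ r1 := hrr.trans (hr0 ▸ (min_le_left _ _).trans (min_le_right _ _))
  have w3 : r ≤ 1 / (8 * 2 ^ (b0 + b1)) := hrr.trans (hr0 ▸ min_le_right _ _)
  obtain ⟨n9, h9⟩ := h9 r hr w1
  obtain ⟨n1, hSep⟩ := hSep r hr w2 (b0 + b1 + b)
  refine ⟨n9 + n1, fun n k j S hn hCt => ?_⟩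
  obtain ⟨hj, hSep⟩ := hSep n k j S (by omega) hCt
  have h9 := h9 n k j S (by omega) hCt
  refine ⟨by omega, fun P hPj hPa hPm hPη hPH hPM hPs hPκ hPκ' hPA hPS hTT => ?_⟩
  obtain ⟨R, hR⟩ : ∃ R : ℕ, R = Λ * nZ n := ⟨_, rfl⟩
  rw [← hR] at hSep
  have hRj : 2 ^ (b0 + b1 + j) ≤ R := by
    have g1 : (2 : ℝ) ^ (b0 + b1 + j) ≤ (Λ : ℝ) * nZ n := by
      have g2 : (2 : ℝ) ^ j ≤ 8 * r * (n : ℝ) ^ (3 / 4 : ℝ) := hCt.j2
      have g3 : (0 : ℝ) ≤ (n : ℝ) ^ (3 / 4 : ℝ) := by positivity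
      have g4 : (2 : ℝ) ^ (b0 + b1) * (8 * r) ≤ 1 := by
        rw [le_div_iff₀ (by positivity)] at w3
        linarith
      calc (2 : ℝ) ^ (b0 + b1 + j) = 2 ^ (b0 + b1) * 2 ^ j := pow_add _ _ _
        _ ≤ 2 ^ (b0 + b1) * (8 * r * (n : ℝ) ^ (3 / 4 : ℝ)) := mul_le_mul_of_nonneg_left g2 (by positivity)
        _ = (2 ^ (b0 + b1) * (8 * r)) * (n : ℝ) ^ (3 / 4 : ℝ) := by ring
        _ ≤ 1 * (n : ℝ) ^ (3 / 4 : ℝ) := mul_le_mul_of_nonneg_right g4 g3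
        _ = (n : ℝ) ^ (3 / 4 : ℝ) := one_mul _
        _ ≤ nZ n := nZ_ge n
        _ ≤ (Λ : ℝ) * nZ n := le_mul_of_one_le_left (Nat.cast_nonneg _) (by exact_mod_cast hΛ)
    rw [hR]
    exact_mod_cast g1
  have hR0 : 2 ^ (b0 + j) ≤ R := (Nat.pow_le_pow_right (by norm_num) (by omega)).trans hRj
  have hR1 : 2 ^ (b1 + j) ≤ R := (Nat.pow_le_pow_right (by norm_num) (by omega)).trans hRj
  have hLen := hLen A1 hA1p R j (by omega) hR0
  have hJ := (hDD j (by omega)).2 R hR1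
  have hTT' : ∀ τ : Pth, τ.D ∈ DD j → P.TT τ := by
    intro τ hτ
    refine hTT τ ?_
    rw [hDD']
    simp only
    rw [if_pos (by omega)]
    exact hτ
  -- the mass of the pairs with many long cuts, one side
  have hp := pr3_pos (nZ n) j
  have m1 : gp {T | T ∈ GP R j η κ a m c u e k1 ∧ κ / 2 * Ub j ≤ ((LCut j a m η A1 T).ncard : ℝ)} ≤
      ENNReal.ofReal (ε / 4) * gp (PR n k d S) := by
    refine hLen.trans (le_trans (ENNReal.ofReal_le_ofReal (q := ε / 4 * (c9 * pr3 (nZ n) j)) ?_) ?_)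
    · have g1 := pr3_mul hΛ (nZ n) j
      rw [← hR, ← hL] at g1
      calc C / A1 * pr3 R j ≤ C / A1 * (L * pr3 (nZ n) j) := mul_le_mul_of_nonneg_left g1 (by positivity)
        _ = ε / 4 * (c9 * pr3 (nZ n) j) := by
          rw [hA1]
          field_simp
    · rw [ENNReal.ofReal_mul (by positivity)]
      exact mul_le_mul_right h9 _
  have m2 : gp {T | T ∈ GP R j η κ a m c u e k1 ∧ κ / 2 * Ub j ≤ ((LCut j a m η A1 (sw T)).ncard : ℝ)} ≤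
      ENNReal.ofReal (ε / 4) * gp (PR n k d S) :=
    (gp_sw (S' := {T | T ∈ GP R j η κ a m c u e k1 ∧ κ / 2 * Ub j ≤ ((LCut j a m η A1 T).ncard : ℝ)})
      (fun T hT => P3_fr hT.1.1) fun T hT => ⟨GP_sw hT.1, hT.2⟩).trans m1
  have hsub : {T | T ∈ PR n k d S ∧ ¬ P.κ ^ 2 * Ub P.j ^ 2 ≤ (NN P T : ℝ)} ⊆
      (PR n k d S \ GP R j η κ a m c u e k1) ∪
        ({T | T ∈ GP R j η κ a m c u e k1 ∧ κ / 2 * Ub j ≤ ((LCut j a m η A1 T).ncard : ℝ)} ∪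
          {T | T ∈ GP R j η κ a m c u e k1 ∧ κ / 2 * Ub j ≤ ((LCut j a m η A1 (sw T)).ncard : ℝ)}) := by
    rintro T ⟨hT, hN⟩
    by_contra hno
    rw [Set.mem_union, Set.mem_union, not_or, not_or] at hno
    obtain ⟨z1, z2, z3⟩ := hno
    have hG : T ∈ GP R j η κ a m c u e k1 := by
      by_contra h
      exact z1 ⟨hT, h⟩
    refine hN (many_of hκ hJ hPj hPa hPm hPη hPH hPM hPs hPκ hPκ' hPA hTT' hG ?_ ?_ ?_)
    · refine PR_GW (P := P) (n := n) (k := k) (d := d) ?_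
      rw [hPS]
      exact hT
    · by_contra h
      exact z2 ⟨hG, not_lt.1 h⟩
    · by_contra h
      exact z3 ⟨hG, not_lt.1 h⟩
  refine (gp_mono hsub).trans ((gp_union_le _ _).trans ?_)
  refine (add_le_add hSep ((gp_union_le _ _).trans (add_le_add m1 m2))).trans (le_of_eq ?_)
  rw [← add_mul, ← add_mul, ← ENNReal.ofReal_add (by positivity) (by positivity),
    ← ENNReal.ofReal_add (by positivity) (by positivity)]
  congr 2
  ring

end RMP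

end HexObs
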