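import Pool.Agent.RMP.KDefs

/-!
# RMP, the kernel for pairs: the identities of the transport (helper51)

* `nu_row_le`, `nu_row` : the sum over the marked words, `nu_col`, `nu_col_le`, `nu_col_cut` : the sum over the open pairs;
* `nu_ne'` : a positive `nu L K` comes from a pair of cuts and a tube word;
* `gE_of` : the frame of the second word is the frame at the end of the joined word;
* `dec_card` : the decompositions of a marked word are determined by the places of the two cuts.
-/

set_option autoImplicit false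

namespace HexObs

namespace RMP

open Finset TS SDN HexObs.SIM NTA TIP ARM ARM.G3 TIW MCP Pool.Agent

open scoped ENNReal

namespace NP

variable {P : Par}

/-! ### finiteness -/

lemma lists_fin (n : ℕ) : {t : List Bool | t.length ≤ n}.Finite := List.finite_length_le Bool n

/-- the decompositions of an open pair -/
theorem op_fin (L : PT) : {p : PT × (List Bool × List Bool) | op p.1 p.2 = L}.Finite := by
  have h1 := lists_fin L.1.length
  have h2 := lists_fin L.2.2.length
  refine ((h1.prod ((Set.finite_singleton L.2.1).prod h2)).prod (h1.prod h2)).subset ?_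
  rintro ⟨⟨A, g, B⟩, Y1, Y2⟩ h
  have h : ((A ++ Y1, (g, B ++ Y2)) : PT) = L := h
  subst h
  simp only [Set.mem_prod, Set.mem_setOf_eq, Set.mem_singleton_iff, List.length_append]
  exact ⟨⟨by omega, trivial, by omega⟩, by omega, by omega⟩

theorem dec_fin (P : Par) (L : PT) : ((dat P).dec L).Finite := (op_fin L).subset fun _ h => h.2

/-! ### the identities -/

lemma wL_op (T : PT) (Y : List Bool × List Bool) :
    (dat P).wL ((dat P).op T Y) = (dat P).wM T * (dat P).wT Y := by
  show wE (T.1 ++ Y.1) * wE (T.2.2 ++ Y.2) = wE T.1 * wE T.2.2 * (wE Y.1 * wE Y.2)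
  rw [wE_append, wE_append]
  ring

lemma wE_rev (t : List Bool) : wE (rev t) = wE t := by
  unfold wE
  rw [rev_length]

lemma wK_jo {T : PT} {q : List Bool × ℕ × Bool} {K : List Bool × ℕ} (h : jo T q = K) :
    (dat P).wM T * (dat P).wQ q = wE K.1 := by
  rw [← h]
  show wE T.1 * wE T.2.2 * wE (q.1 ++ [q.2.2]) = wE (T.1 ++ (q.1 ++ (rev T.2.2 ++ [q.2.2])))
  simp only [wE_append, wE_rev]
  ring

/-- **the sum over the marked words**, upper bound -/
theorem nu_row_le (P : Par) (L : PT) : ∑' K : List Bool × ℕ, nu P L K ≤ wE L.1 * wE L.2.2 :=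
  (dat P).row_le (dec_fin P L)

/-- **the sum over the marked words**, good pairs -/
theorem nu_row {L : PT} (hM : Many P L) (hN : NN P L ≠ 0) (hF : ∀ p ∈ AD P L, gF P p.1 ≠ 0 ∧ gF P p.1 ≠ ∞) :
    ∑' K : List Bool × ℕ, nu P L K = wE L.1 * wE L.2.2 :=
  (dat P).row (dec_fin P L) hM hN hF

/-- **the sum over the open pairs** -/
theorem nu_col (P : Par) (K : List Bool × ℕ) : ∑' L : PT, nu P L K = wE K.1 * DD P K :=
  (dat P).col wL_op fun _ _ _ h => wK_jo h

theorem nu_col_le (P : Par) (K : List Bool × ℕ) (S : Set PT) : ∑' L : S, nu P L K ≤ wE K.1 * DD P K :=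
  (dat P).col_le wL_op (fun _ _ _ h => wK_jo h) S

/-- the sum over a set of open pairs which contains all open pairs that lead to `K` -/
theorem nu_col_cut (K : List Bool × ℕ) (S : Set PT)
    (hS : ∀ T Y q, Adm P T Y → Many P (op T Y) → q.1 ∈ Fil P T → q.2.1 < q.1.length → jo T q = K → op T Y ∈ S) :
    ∑' L : S, nu P L K = wE K.1 * DD P K :=
  (dat P).col_cut wL_op (fun _ _ _ h => wK_jo h) S fun T Y q h1 h2 h3 h4 => hS T Y q h1 h2 h3.1 h3.2 h4

/-- the choices of a positive transport -/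
theorem nu_ne' {L : PT} {K : List Bool × ℕ} (h : nu P L K ≠ 0) : ∃ T Y q, Adm P T Y ∧ Many P (op T Y) ∧ q.1 ∈ Fil P T ∧
    q.2.1 < q.1.length ∧ op T Y = L ∧ jo T q = K := by
  obtain ⟨T, Y, q, h1, h2, h3, h4, h5⟩ := (dat P).nu_ne h
  exact ⟨T, Y, q, h1, h2, h3.1, h3.2, h4, h5⟩

/-- the density is zero unless there is a decomposition with tips -/
theorem DD_ne {K : List Bool × ℕ} (h : DD P K ≠ 0) : ∃ T Y q, Adm P T Y ∧ Many P (op T Y) ∧ q.1 ∈ Fil P T ∧
    q.2.1 < q.1.length ∧ jo T q = K := by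
  have h0 : wE K.1 ≠ 0 := (wE_pos K.1).ne'
  have h1 : ∑' L : PT, nu P L K ≠ 0 := by
    rw [nu_col]
    exact mul_ne_zero h0 h
  rw [Ne, ENNReal.tsum_eq_zero, not_forall] at h1
  obtain ⟨L, hL⟩ := h1
  obtain ⟨T, Y, q, h2, h3, h4, h5, -, h6⟩ := nu_ne' hL
  exact ⟨T, Y, q, h2, h3, h4, h5, h6⟩

/-! ### the weight of the fillings -/

/-- the sum over the letters -/
lemma sum_lt (l : ℕ) (c : ℝ≥0∞) : ∑' u : ℕ, (if u < l then c else 0) = (l : ℝ≥0∞) * c := by
  rw [tsum_eq_sum (s := range l) fun u hu => if_neg fun h => hu (mem_range.2 h),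
    sum_congr rfl (g := fun _ => c) fun u hu => if_pos (mem_range.1 hu), sum_const, card_range, nsmul_eq_mul]

/-- **the weight of the fillings** : every letter and both last letters -/
theorem gF_eq (P : Par) (T : PT) : gF P T = 2 * wE [true] * ∑' Q : Fil P T, (((Q : List Bool).length : ℝ≥0∞) * wE (Q : List Bool)) := by
  classical
  have hx : ∀ x : Bool, wE [x] = wE [true] := fun x => by
    unfold wE
    rfl
  have e0 : gF P T = ∑' q : List Bool × ℕ × Bool, if q.1 ∈ Fil P T ∧ q.2.1 < q.1.length then wE (q.1 ++ [q.2.2]) else 0 :=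
    tsum_congr fun q => if_congr Iff.rfl rfl rfl
  rw [e0, ENNReal.tsum_prod', tsum_subtype (Fil P T) fun Q => ((Q.length : ℝ≥0∞) * wE Q), ← ENNReal.tsum_mul_left]
  refine tsum_congr fun Q => ?_
  by_cases hQ : Q ∈ Fil P T
  · rw [Set.indicator_of_mem hQ, ENNReal.tsum_prod']
    have e1 : ∀ u : ℕ, (∑' x : Bool, if Q ∈ Fil P T ∧ u < Q.length then wE (Q ++ [x]) else 0) =
        if u < Q.length then 2 * (wE Q * wE [true]) else 0 := by
      intro u
      rw [tsum_fintype, Fintype.sum_bool]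
      by_cases hu : u < Q.length
      · rw [if_pos ⟨hQ, hu⟩, if_pos ⟨hQ, hu⟩, if_pos hu, wE_append, wE_append, hx false]
        ring
      · rw [if_neg fun h => hu h.2, if_neg fun h => hu h.2, if_neg hu, add_zero]
    rw [tsum_congr e1, sum_lt]
    ring
  · rw [Set.indicator_of_notMem hQ, mul_zero, ENNReal.tsum_eq_zero]
    intro p
    exact if_neg fun h => hQ h.1

/-- the fillings are a finite set -/
lemma fil_fin (P : Par) (T : PT) : (Fil P T).Finite := by
  refine (lists_fin ⌊P.A * ml P.j⌋₊).subset fun Q hQ => ?_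
  exact Nat.le_floor hQ.2.2.1

theorem gF_top (P : Par) (T : PT) : gF P T ≠ ∞ := by
  rw [gF_eq]
  have := (fil_fin P T).fintype
  have hw : ∀ t : List Bool, wE t ≠ ∞ := wE_ne_top
  rw [tsum_fintype]
  refine ENNReal.mul_ne_top (ENNReal.mul_ne_top (by norm_num) (hw _)) ?_
  exact (ENNReal.sum_lt_top.2 fun Q _ => (ENNReal.mul_ne_top (ENNReal.natCast_ne_top _) (hw _)).lt_top).ne

/-- lower bound from the mass of the tube words -/
theorem gF_ge (P : Par) (T : PT) : 2 * wE [true] * (ENNReal.ofReal (P.a0 * ml P.j) * gf (Fil P T)) ≤ gF P T := by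
  rw [gF_eq]
  refine mul_le_mul' le_rfl ?_
  unfold gf
  rw [← ENNReal.tsum_mul_left]
  refine ENNReal.tsum_le_tsum fun Q => mul_le_mul' ?_ le_rfl
  calc ENNReal.ofReal (P.a0 * ml P.j) ≤ ENNReal.ofReal (((Q : List Bool).length : ℝ)) :=
        ENNReal.ofReal_le_ofReal Q.2.2.1
    _ = _ := ENNReal.ofReal_natCast _

/-! ### the frame of the second word -/

lemma rotTo_fr : ∀ d ∈ dirs, rotTo up (mulE d up) = d := by decide

/-- **the frame of the second word is the frame at the end of the joined word** -/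
theorem gE_of {E : ℕ → Pt} {r : ℕ} {D : ℤ} {k : ℕ} {B0 : Pt} {A B Q : List Bool} {g : Pt × Pt} (x : Bool)
    (hJ : JnP E r D k B0 (A, (g, B))) (hQ : G4.TW E r D k A (pe g B + pd g B) Q) :
    gE (A ++ (Q ++ (rev B ++ [x]))) = g := by
  have hd : pd g B = -E (r - 1) := hJ.d1
  have hE : E (r - 1) = -(pd g B) := by rw [hd, neg_neg]
  obtain ⟨H, hH⟩ : ∃ H, H = A ++ (Q ++ (rev B ++ [x])) := ⟨_, rfl⟩
  have hl : H.length = A.length + Q.length + (B.length + 1) := by
    rw [hH, List.length_append, List.length_append, List.length_append, rev_length, List.length_singleton]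
    ring
  have key : ∀ i, i ≤ B.length + 1 → vx oo up H (A.length + Q.length + i) = pv g B (B.length + 1 - i) := by
    intro i hi
    rw [hH, G4.hv3 hQ, hE, vx_append (by rw [rev_length]; exact hi), G4.vx_revB g B hi]
  have h0 : TIW.en H = g.1 := by
    unfold TIW.en
    rw [hl, key _ le_rfl, Nat.sub_self]
    show g.1 + mulE g.2 (vx oo up B 0) = g.1
    have e0 : vx oo up B 0 = 0 := rfl
    have : mulE g.2 0 = 0 := by simp [mulE]
    rw [e0, this, add_zero]
  have h1 : dx up H (H.length - 1) = -(mulE g.2 up) := by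
    have e1 := vx_succ oo up H (H.length - 1)
    have e2 : H.length - 1 + 1 = H.length := by omega
    rw [e2] at e1
    have e3 : vx oo up H H.length = g.1 := h0
    have e4 : vx oo up H (H.length - 1) = g.1 + mulE g.2 up := by
      have e5 : H.length - 1 = A.length + Q.length + B.length := by omega
      rw [e5, key _ (by omega)]
      have e6 : B.length + 1 - B.length = 1 := by omega
      rw [e6]
      show g.1 + mulE g.2 (vx oo up B 1) = _
      have e7 : vx oo up B 1 = up := by
        rw [vx_succ]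
        have f0 : vx oo up B 0 = 0 := rfl
        have f1 : dx up B 0 = up := rfl
        rw [f0, f1, zero_add]
      rw [e7]
    rw [e3, e4] at e1
    have e7 : dx up H (H.length - 1) = g.1 - (g.1 + mulE g.2 up) := by
      rw [eq_sub_iff_add_eq, add_comm]
      exact e1.symm
    rw [e7]
    abel
  rw [← hH]
  unfold gE
  rw [h0, h1, neg_neg, rotTo_fr _ hJ.fr.1]

/-- the same for the canonical path -/
theorem gE_jo {T : PT} {q : List Bool × ℕ × Bool} (hJ : Jbl P T) (hQ : q.1 ∈ Fil P T) : gE (jo T q).1 = T.2.1 := by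
  obtain ⟨A, g, B⟩ := T
  have h1 := (pth_ok hJ).2
  exact gE_of q.2.2 h1 (tubeQ_iff.1 hQ.1)

/-! ### the number of the decompositions -/

/-- **the decompositions of a marked word are determined by the places of the two cuts** -/
theorem dec_card (K : List Bool × ℕ) (S : Finset (ℕ × ℕ))
    (hS : ∀ T q, Jbl P T → q.1 ∈ Fil P T → jo T q = K → (T.1.length, T.1.length + q.1.length) ∈ S) :
    {p : PT × (List Bool × ℕ × Bool) | p.2.1 ∈ Fil P p.1 ∧ p.2.2.1 < p.2.1.length ∧ jo p.1 p.2 = K ∧ Jbl P p.1}.Finite ∧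
    {p : PT × (List Bool × ℕ × Bool) | p.2.1 ∈ Fil P p.1 ∧ p.2.2.1 < p.2.1.length ∧ jo p.1 p.2 = K ∧ Jbl P p.1}.ncard ≤
      S.card := by
  obtain ⟨W, hW⟩ : ∃ W : Set (PT × (List Bool × ℕ × Bool)),
    W = {p | p.2.1 ∈ Fil P p.1 ∧ p.2.2.1 < p.2.1.length ∧ jo p.1 p.2 = K ∧ Jbl P p.1} := ⟨_, rfl⟩
  rw [← hW]
  have hmap : ∀ p ∈ W, (p.1.1.length, p.1.1.length + p.2.1.length) ∈ (S : Set (ℕ × ℕ)) := by
    intro p hp
    rw [hW] at hp
    exact hS p.1 p.2 hp.2.2.2 hp.1 hp.2.2.1
  have hinj : Set.InjOn (fun p : PT × (List Bool × ℕ × Bool) => (p.1.1.length, p.1.1.length + p.2.1.length)) W := by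
    rintro ⟨⟨A, g, B⟩, Q, u, x⟩ hp ⟨⟨A', g', B'⟩, Q', u', x'⟩ hp' he
    rw [hW] at hp hp'
    obtain ⟨h1, -, h3, h4⟩ := hp
    obtain ⟨h1', -, h3', h4'⟩ := hp'
    have g1 := gE_jo h4 h1
    have g1' := gE_jo h4' h1'
    dsimp only at h3 h3' g1 g1'
    rw [h3] at g1
    rw [h3'] at g1'
    have eg : g = g' := g1.symm.trans g1'
    have hA : A.length = A'.length := congrArg Prod.fst he
    have hQ0 : A.length + Q.length = A'.length + Q'.length := congrArg Prod.snd he
    have hQ : Q.length = Q'.length := by omega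
    have e1 : (A ++ (Q ++ (rev B ++ [x])), A.length + u) = (A' ++ (Q' ++ (rev B' ++ [x'])), A'.length + u') := h3.trans h3'.symm
    have e2 := congrArg Prod.fst e1
    have e3 : A.length + u = A'.length + u' := congrArg Prod.snd e1
    dsimp only at e2
    obtain ⟨f1, f2⟩ := List.append_inj e2 hA
    obtain ⟨f3, f4⟩ := List.append_inj f2 hQ
    have f5 : (rev B).length = (rev B').length := by
      have := congrArg List.length f4
      rw [List.length_append, List.length_append, List.length_singleton, List.length_singleton] at this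
      omega
    obtain ⟨f6, f7⟩ := List.append_inj f4 f5
    have f8 : B = B' := by
      rw [← rev_rev B, f6, rev_rev]
    have f9 : x = x' := by
      simpa using f7
    have f10 : u = u' := by omega
    rw [f1, f3, f8, f9, f10, eg]
  have hfin : W.Finite := Set.Finite.of_injOn hmap hinj S.finite_toSet
  refine ⟨hfin, ?_⟩
  have h1 := Set.ncard_le_ncard_of_injOn _ hmap hinj S.finite_toSet
  rw [Set.ncard_coe_finset] at h1
  exact h1

/-- **the density is bounded** by (number of the splittings) times (bound of `th / gF`) -/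
theorem DD_le_card (K : List Bool × ℕ) (S : Finset (ℕ × ℕ)) {x : ℝ≥0∞}
    (hS : ∀ T q, Jbl P T → q.1 ∈ Fil P T → jo T q = K → (T.1.length, T.1.length + q.1.length) ∈ S)
    (hx : ∀ T q, Jbl P T → q.1 ∈ Fil P T → jo T q = K → th P T / gF P T ≤ x) : DD P K ≤ S.card * x := by
  obtain ⟨h1, h2⟩ := dec_card K S hS
  have hJ : ∀ T, (dat P).th T ≠ 0 → Jbl P T := by
    intro T hT
    obtain ⟨t, ht, -⟩ := (dat P).th_ne hT
    exact ht.2.2.1
  have hsub : {p : PT × (List Bool × ℕ × Bool) | (dat P).fil p.1 p.2 ∧ (dat P).cl p.1 p.2 = K ∧ (dat P).th p.1 ≠ 0} ⊆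
      {p | p.2.1 ∈ Fil P p.1 ∧ p.2.2.1 < p.2.1.length ∧ jo p.1 p.2 = K ∧ Jbl P p.1} :=
    fun p hp => ⟨hp.1.1, hp.1.2, hp.2.1, hJ _ hp.2.2⟩
  refine (dat P).DD_le' (h1.subset hsub) ((Set.ncard_le_ncard hsub h1).trans h2) fun T q h3 h4 h5 => ?_
  exact hx T q (hJ T h5) h3.1 h4

end NP

end RMP

end HexObs
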