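import Pool.Agent.RMP.SplT
import Pool.Agent.RMP.KaDet

/-!
# RMP, row SplP (helper87): the number of the decompositions of a marked word (for helper44's `det_of`)

**`splK`**: the set `KA.DK P K` of the decompositions (outer pair, filling) of the marked word K whose outer pair has admissible
end parts of a good open pair is finite and has at most `C1 * Ub j ^ 2` elements, if the good pairs have the property
`¬ PMA.TrB` (not too many cuts behind a good cut) for both words.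
-/

set_option autoImplicit false

namespace HexObs

namespace RMP

namespace SP

open Finset TS SDN SIM NTA TIP ARM ARM.G3 G4

open scoped ENNReal

/-! ### 1. The classes -/

/-- tube words depend only on the first directions -/
lemma TW_cut {E : ℕ → Pt} {r : ℕ} {D : ℤ} {k : ℕ} {M : List Bool} {s : Pt} {Q : List Bool} (hr : 1 ≤ r)
    (h : TW E r D k M s Q) : TW (G2.cutE E r) r D k M s Q := by
  have e1 : ∀ i, i < r → mulE (rc M) (G2.cutE E r i) = mulE (rc M) (E i) := fun i hi => by rw [G2.cutE_lt hi]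
  have e2 : ∀ i, i ≤ r → AR.pv (fun i => mulE (rc M) (G2.cutE E r i)) D i = AR.pv (fun i => mulE (rc M) (E i)) D i := by
    intro i hi
    unfold AR.pv AR.ps
    congr 1
    exact sum_congr rfl fun a ha => e1 a (lt_of_lt_of_le (mem_range.1 ha) hi)
  have e3 : ∀ j y, j < r → (Nr (fun i => mulE (rc M) (E i)) D (2 ^ (k + 9)) j y ↔
      Nr (fun i => mulE (rc M) (G2.cutE E r i)) D (2 ^ (k + 9)) j y) := by
    intro j y hj
    show AR.NS (AR.pv (fun i => mulE (rc M) (E i)) D j) (mulE (rc M) (E j)) D (2 ^ (k + 9)) y ↔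
      AR.NS (AR.pv (fun i => mulE (rc M) (G2.cutE E r i)) D j) (mulE (rc M) (G2.cutE E r j)) D (2 ^ (k + 9)) y
    rw [e2 j hj.le, e1 j hj]
  refine ⟨h.sa, h.en, ?_, ?_, ?_, ?_⟩
  · show TIW.de Q = mulE (rc M) (G2.cutE E r (r - 1))
    rw [e1 (r - 1) (by omega)]
    exact h.de
  · intro i hi
    obtain ⟨j, h1, h2⟩ := h.rg i hi
    exact ⟨j, h1, (e3 j _ h1).1 h2⟩
  · intro i h0 hi
    rcases h.st i h0 hi with h1 | ⟨j, h1, h2, h3⟩
    · exact Or.inl h1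
    · exact Or.inr ⟨j, h1, h2, (e3 j _ h2).1 h3⟩
  · intro i hi
    rcases h.bd i hi with h1 | ⟨j, h1, h3⟩
    · left
      show ip (vx oo up Q i - mulE (rc M) (s - TIW.en M)) (mulE (rc M) (G2.cutE E r (r - 1))) ≤ 0
      rw [e1 (r - 1) (by omega)]
      exact h1
    · exact Or.inr ⟨j, h1, (e3 j _ (by omega)).1 h3⟩

lemma Sd_cut {E : ℕ → Pt} {r : ℕ} {D : ℤ} {k : ℕ} {P : Pt} {w : List Bool} {t a b : ℕ} (hr : 3 ≤ r)
    (h : Sd E r D k P w t a b) : Sd (G2.cutE E r) r D k P w t a b := by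
  obtain ⟨A, g, B, Q, x, h1, h2, h3, h4, h5, h6, h7⟩ := h
  exact ⟨A, g, B, Q, x, h1, h2, h3, h4, h5, G6.JnP_cut hr h6, TW_cut (by omega) h7⟩

/-- another root -/
lemma Sd.root {E : ℕ → Pt} {r : ℕ} {D : ℤ} {k : ℕ} {P : Pt} {w : List Bool} {t a b : ℕ} (h : Sd E r D k P w t a b) {i : ℕ}
    (h1 : a ≤ i) (h2 : i ≤ b) : Sd E r D k P w i a b := by
  obtain ⟨A, g, B, Q, x, e1, e2, e3, e4, e5, e6, e7⟩ := h
  exact ⟨A, g, B, Q, x, e1, e2, e3, h1, h2, e6, e7⟩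

/-- the size of the path -/
lemma sd_size {E : ℕ → Pt} {r : ℕ} {D : ℤ} {k H Mx : ℕ} {P : Pt} {w : List Bool} {t a b : ℕ} (hr : 1 ≤ r) (hrM : r ≤ Mx)
    (hD0 : 0 ≤ D) (hD : D ≤ 36 * (H * 2 ^ k)) (hE : IPg E r) (h : Sd E r D k P w t a b) :
    TIW.hn (vx oo up w t - P) ≤ (((2 * (Mx + 1) * (36 * H) + 1024) * 2 ^ k : ℕ) : ℤ) := by
  refine (sd_pos hr hD0 hE h).trans ?_
  push_cast
  have g1 : (2 : ℤ) ^ (k + 10) = 1024 * 2 ^ k := by ring
  rw [g1]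
  have g2 : (r : ℤ) ≤ Mx := by exact_mod_cast hrM
  have g4 : 2 * ((r : ℤ) + 1) * D ≤ 2 * ((Mx : ℤ) + 1) * D := by
    refine mul_le_mul_of_nonneg_right ?_ hD0
    linarith
  have g5 : 2 * ((Mx : ℤ) + 1) * D ≤ 2 * ((Mx : ℤ) + 1) * (36 * (H * 2 ^ k)) := by
    refine mul_le_mul_of_nonneg_left hD (by positivity)
  have g6 : (2 * ((Mx : ℤ) + 1) * (36 * H) + 1024) * 2 ^ k = 2 * ((Mx : ℤ) + 1) * (36 * (H * 2 ^ k)) + 1024 * 2 ^ k := by
    ring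
  rw [g6]
  linarith

/-- **the number of the splittings** -/
theorem spl_countT {ι : Type*} (CC : Finset ι) (kk rr : ι → ℕ) (DD : ι → ℤ) (EE : ι → ℕ → Pt) {H Mx j m c t : ℕ}
    {η K tt q : ℝ} (hH : 2 ^ 13 ≤ H) (hC : ∀ x ∈ CC, 4 ≤ kk x ∧ kk x ≤ j ∧ 18 * (H * 2 ^ kk x) ≤ DD x ∧
      DD x ≤ 36 * (H * 2 ^ kk x) ∧ 3 ≤ rr x ∧ rr x ≤ Mx ∧ IPg (EE x) (rr x))
    (hc : 2 * (2 * (Mx + 1) * (36 * H) + 1024) + 2 ≤ 2 ^ c) {w : List Bool} (S : Finset (ℕ × ℕ))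
    (hS : ∀ p ∈ S, (∃ x ∈ CC, ∃ P, Sd (EE x) (rr x) (DD x) (kk x) P w t p.1 p.2) ∧ (p.2 : ℝ) ≤ p.1 + q ∧
      EPr j m c η K tt q (w.take p.1) ∧ EPr j m c η K tt q (Bw w p.2)) :
    (S.card : ℝ) ≤ CC.card * ((64 * (2 * (Mx + 1) * (36 * H) + 1024) + 1) ^ 2 * (K * Ub j) ^ 2) := by
  classical
  obtain ⟨K0, hK0⟩ : ∃ K0 : ℕ, K0 = 2 * (Mx + 1) * (36 * H) + 1024 := ⟨_, rfl⟩
  have e0 : (2 * ((Mx : ℝ) + 1) * (36 * H) + 1024) = (K0 : ℝ) := by
    rw [hK0]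
    push_cast
    ring
  rw [e0]
  rw [← hK0] at hc
  obtain ⟨N, hN⟩ : ∃ N : ℕ, N = ⌊(K * Ub j) ^ 2⌋₊ := ⟨_, rfl⟩
  have hNle : (N : ℝ) ≤ (K * Ub j) ^ 2 := by
    rw [hN]
    exact Nat.floor_le (by positivity)
  have key : S.card ≤ CC.card * ((64 * K0 + 1) ^ 2 * N) := by
    have hcov : S ⊆ CC.biUnion fun x => (Lb (kk x) (K0 * 2 ^ kk x) (vx oo up w t)).biUnion fun l =>
        S.filter fun p => ∃ P, Sd (EE x) (rr x) (DD x) (kk x) P w t p.1 p.2 ∧ lab (kk x) P = l := by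
      intro p hp
      obtain ⟨⟨x, hx, P, hP⟩, -⟩ := hS p hp
      obtain ⟨h1, h2, h3, h4, h5, h6, h7⟩ := hC x hx
      rw [mem_biUnion]
      refine ⟨x, hx, ?_⟩
      rw [mem_biUnion]
      refine ⟨lab (kk x) P, mem_Lb ?_, ?_⟩
      · have hD0 : 0 ≤ DD x := le_trans (by positivity) h3
        rw [hK0]
        exact sd_size (by omega) h6 hD0 h4 h7 hP
      · rw [mem_filter]
        exact ⟨hp, P, hP, rfl⟩
    refine (card_le_card hcov).trans ?_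
    refine card_biUnion_le_card_mul _ _ _ fun x hx => ?_
    obtain ⟨h1, h2, h3, h4, h5, h6, h7⟩ := hC x hx
    rw [← card_Lb h1 K0 (vx oo up w t)]
    refine card_biUnion_le_card_mul _ _ _ fun l _ => ?_
    have hD0 : 0 ≤ DD x := le_trans (by positivity) h3
    have hDD : (2 : ℤ) ^ (kk x + 12) ≤ DD x := by
      refine le_trans ?_ h3
      have g1 : (2 : ℤ) ^ 13 ≤ H := by exact_mod_cast hH
      have g2 : (0 : ℤ) < 2 ^ kk x := by positivity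
      have g3 : (2 : ℤ) ^ (kk x + 12) = 2 ^ 12 * 2 ^ kk x := by ring
      rw [g3]
      nlinarith
    obtain ⟨S', hS'⟩ : ∃ S', S' = S.filter fun p => ∃ P, Sd (EE x) (rr x) (DD x) (kk x) P w t p.1 p.2 ∧ lab (kk x) P = l :=
      ⟨_, rfl⟩
    rw [← hS']
    rcases S'.eq_empty_or_nonempty with h0 | h0
    · rw [h0]
      simp
    obtain ⟨p0, hp0⟩ := h0
    rw [hS', mem_filter] at hp0
    obtain ⟨hp0, P0, hP0, -⟩ := hp0
    have hw : w ∈ SA := sd_sa (by omega) (by omega) hDD h7 hP0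
    have hR : 2 * (((K0 * 2 ^ kk x : ℕ) : ℤ)) + 2 ≤ 2 ^ (j + c) := by
      have g1 : (2 : ℤ) ^ kk x ≤ 2 ^ j := pow_le_pow_right₀ (by norm_num) h2
      have g2 : (1 : ℤ) ≤ 2 ^ j := one_le_pow₀ (by norm_num)
      have g3 : (2 * (K0 : ℤ) + 2) ≤ 2 ^ c := by exact_mod_cast hc
      rw [pow_add]
      push_cast
      nlinarith
    rw [hN]
    refine Nat.le_floor ?_
    refine spl_countT1 (E := EE x) (r := rr x) (D := DD x) (k := kk x) (P := cen (kk x) l) h7 h5 hDD hw (t := t) (m := m)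
      (η := η) (tt := tt) (q := q) h2 hR S' ?_
    intro p hp
    rw [hS', mem_filter] at hp
    obtain ⟨hp1, P, hP, hl⟩ := hp
    obtain ⟨-, g1, g2, g3⟩ := hS p hp1
    have h8 := cen_near h1 P
    rw [hl] at h8
    obtain ⟨u1, u2, u3, u4⟩ := sd_tr2 (by omega) (by omega) hD0 h7 hP h8
    rw [add_sub_cancel] at u1
    refine ⟨u1, u2, u3, u4, ⟨P, fun i hi1 hi2 => ?_⟩, g1, g2, g3⟩
    rw [hK0]
    exact sd_size (by omega) h6 hD0 h4 h7 (hP.root hi1 hi2)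
  have h9 : (S.card : ℝ) ≤ CC.card * ((64 * (K0 : ℝ) + 1) ^ 2 * N) := by exact_mod_cast key
  refine h9.trans ?_
  gcongr

/-! ### 2. The decompositions -/

/-- the two places of a decomposition -/
def plc (p : PT × (List Bool × ℕ × Bool)) : ℕ × ℕ := (p.1.1.length, p.1.1.length + p.2.1.length)

/-- a decomposition is a splitting in absolute coordinates -/
lemma dk_sd {P : Par} {K : List Bool × ℕ} {p : PT × (List Bool × ℕ × Bool)} (hJ : Jbl P p.1) (hp1 : p.2.1 ∈ Fil P p.1)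
    (hp2 : p.2.2.1 < p.2.1.length) (hp3 : jo p.1 p.2 = K) :
    okT P (pth P p.1) ∧ Sd (fE p.1 (pth P p.1).E) (pth P p.1).r (pth P p.1).D (pth P p.1).k (fP p.1 (pth P p.1).P) K.1 K.2
      (plc p).1 (plc p).2 ∧ K.1.take (plc p).1 = p.1.1 ∧ Bw K.1 (plc p).2 = p.1.2.2 := by
  obtain ⟨⟨A, g, B⟩, Q, u, x⟩ := p
  obtain ⟨hQ, -, -, -⟩ := hp1
  obtain ⟨hok, hJ'⟩ := pth_ok hJ
  simp only at hok hJ' hQ hp2
  have e1 : K.1 = A ++ (Q ++ (rev B ++ [x])) := by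
    rw [← hp3]
    rfl
  have e2 : K.2 = A.length + u := by
    rw [← hp3]
    rfl
  refine ⟨hok, ⟨A, g, B, Q, x, e1, rfl, rfl, ?_, ?_, hJ', tubeQ_iff.1 hQ⟩, ?_, ?_⟩
  · show A.length ≤ K.2
    omega
  · show K.2 ≤ A.length + Q.length
    omega
  · show K.1.take A.length = A
    rw [e1]
    exact List.take_left' rfl
  · show Bw K.1 (A.length + Q.length) = B
    exact Bw_eq e1

/-- the places determine the decomposition -/
lemma dk_inj {P : Par} {K : List Bool × ℕ} : Set.InjOn plc (KA.DK P K) := by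
  rintro p hp q hq hpq
  obtain ⟨⟨Y, hY, -⟩, hQ, hu, hK⟩ := hp
  obtain ⟨⟨Y', hY', -⟩, hQ', hu', hK'⟩ := hq
  obtain ⟨ok1, sd1, a1, b1⟩ := dk_sd hY.2.2.1 hQ hu hK
  obtain ⟨ok2, sd2, a2, b2⟩ := dk_sd hY'.2.2.1 hQ' hu' hK'
  obtain ⟨-, hJ⟩ := pth_ok hY.2.2.1
  obtain ⟨-, hJ'⟩ := pth_ok hY'.2.2.1
  obtain ⟨⟨A, g, B⟩, Q, u, x⟩ := p
  obtain ⟨⟨A', g', B'⟩, Q', u', x'⟩ := q
  obtain ⟨hQ, -, -, -⟩ := hQ
  obtain ⟨hQ', -, -, -⟩ := hQ'
  rw [hpq] at a1 b1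
  have hA : A = A' := a1.symm.trans a2
  have hB : B = B' := b1.symm.trans b2
  subst hA hB
  have e1 : K = (A ++ (Q ++ (rev B ++ [x])), A.length + u) := hK.symm
  have e2 : K = (A ++ (Q' ++ (rev B ++ [x'])), A.length + u') := hK'.symm
  rw [e1, Prod.mk.injEq] at e2
  obtain ⟨e3, e4⟩ := e2
  have hl : A.length + Q.length = A.length + Q'.length := congrArg Prod.snd hpq
  have e5 := List.append_cancel_left e3
  obtain ⟨e6, e7⟩ := List.append_inj e5 (by omega)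
  have e8 := List.append_cancel_left e7
  subst e6
  have hx : x = x' := by simpa using e8
  have huu : u = u' := by omega
  subst hx huu
  have t1 := tubeQ_iff.1 hQ
  have t2 := tubeQ_iff.1 hQ'
  have hs : pe g B + pd g B = pe g' B + pd g' B := by
    have h1 := t1.last
    have h2 := t2.last
    simp only at h1 h2
    rw [← h1, ← h2]
  have hd : pd g B = pd g' B := by
    have h1 : dx up Q Q.length = mulE (rc A) (fE (A, (g, B)) (pth P (A, (g, B))).E ((pth P (A, (g, B))).r - 1)) := t1.de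
    have h2 : dx up Q Q.length = mulE (rc A) (fE (A, (g', B)) (pth P (A, (g', B))).E ((pth P (A, (g', B))).r - 1)) := t2.de
    rw [h1] at h2
    have h3 := mulE_inj (nrm_rc A) h2
    have h4 : pd g B = -(fE (A, (g, B)) (pth P (A, (g, B))).E ((pth P (A, (g, B))).r - 1)) := hJ.d1
    have h5 : pd g' B = -(fE (A, (g', B)) (pth P (A, (g', B))).E ((pth P (A, (g', B))).r - 1)) := hJ'.d1
    rw [h4, h5, h3]
  have hg2 : g.2 = g'.2 := by
    unfold pd at hd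
    rw [mulE_comm g.2, mulE_comm g'.2] at hd
    exact mulE_inj (mem_dirs.1 (TIW.de_mem B)) hd
  have hg1 : g.1 = g'.1 := by
    rw [hd] at hs
    have h3 := add_right_cancel hs
    unfold pe pv at h3
    rw [hg2] at h3
    exact add_right_cancel h3
  have hg : g = g' := Prod.ext hg1 hg2
  rw [hg]

/-- the decompositions are finitely many -/
lemma dk_fin (P : Par) (K : List Bool × ℕ) : (KA.DK P K).Finite := by
  refine Set.Finite.of_finite_image ?_ dk_inj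
  refine ((Set.finite_Iic K.2).prod (Set.finite_Iic K.1.length)).subset ?_
  rintro _ ⟨p, hp, rfl⟩
  obtain ⟨⟨Y, hY, -⟩, hQ, hu, hK⟩ := hp
  obtain ⟨-, ⟨A, g, B, Q, x, hw, ha, hb, h1, h2, -, -⟩, -, -⟩ := dk_sd hY.2.2.1 hQ hu hK
  refine ⟨h1, ?_⟩
  show (plc p).2 ≤ K.1.length
  rw [hb, hw]
  simp only [List.length_append]
  omega

/-- **the number of the decompositions** -/
theorem splK (H Mx : ℕ) (hH : 2 ^ 13 ≤ H) : ∃ c0 : ℕ, ∀ (c sx nd : ℕ) (Kt : ℝ), c0 ≤ c → 0 < Kt → ∃ C1 : ℝ, 0 < C1 ∧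
    ∀ (P : Par) (DDs : Finset ℤ), P.H = H → P.Mx = Mx → P.sx = sx → sx + 4 ≤ P.j → DDs.card ≤ nd →
      (∀ τ, P.TT τ → τ.D ∈ DDs) → (∀ T, P.Z T → ¬ PMA.TrB P.j P.m c P.η Kt ((P.A + P.A1) * ml P.j) T.1 ∧
        ¬ PMA.TrB P.j P.m c P.η Kt ((P.A + P.A1) * ml P.j) T.2.2) →
      ∀ K : List Bool × ℕ, (KA.DK P K).Finite ∧ ((KA.DK P K).ncard : ℝ) ≤ C1 * Ub P.j ^ 2 := by
  obtain ⟨c0, hc0⟩ : ∃ c0 : ℕ, 2 * (2 * (Mx + 1) * (36 * H) + 1024) + 2 ≤ 2 ^ c0 := ⟨_, Nat.lt_two_pow_self.le⟩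
  refine ⟨c0, fun c sx nd Kt hc hKt => ?_⟩
  have hc1 : 2 * (2 * (Mx + 1) * (36 * H) + 1024) + 2 ≤ 2 ^ c := hc0.trans (Nat.pow_le_pow_right (by norm_num) hc)
  obtain ⟨n1, hn1⟩ : ∃ n1 : ℕ, n1 = (sx + 1) * ((Mx + 1) * (nd * 6 ^ Mx)) := ⟨_, rfl⟩
  refine ⟨((n1 : ℝ) + 1) * ((64 * (2 * (Mx + 1) * (36 * H) + 1024) + 1) ^ 2 * Kt ^ 2), by positivity, ?_⟩
  intro P DDs hPH hPM hPs hj hDD hTT hZ K
  classical
  refine ⟨dk_fin P K, ?_⟩
  have hfin := dk_fin P K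
  obtain ⟨CC, hCC⟩ : ∃ CC : Finset (ℕ × (ℕ × (ℤ × (ℕ → Pt)))),
      CC = ((Icc (P.j - sx) P.j) ×ˢ ((range (Mx + 1)) ×ˢ (DDs ×ˢ G2.EE Mx))).filter fun x =>
        (18 * (H * 2 ^ x.1) : ℤ) ≤ x.2.2.1 ∧ x.2.2.1 ≤ (36 * (H * 2 ^ x.1) : ℤ) ∧ 3 ≤ x.2.1 ∧ IPg x.2.2.2 x.2.1 := ⟨_, rfl⟩
  have hcard : CC.card ≤ n1 := by
    rw [hCC, hn1]
    refine (card_filter_le _ _).trans ?_
    rw [card_product, card_product, card_product, card_range, Nat.card_Icc]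
    exact Nat.mul_le_mul (by omega) (Nat.mul_le_mul_left _ (Nat.mul_le_mul hDD (G2.EE_card Mx)))
  have key := spl_countT (ι := ℕ × (ℕ × (ℤ × (ℕ → Pt)))) CC (fun x => x.1) (fun x => x.2.1) (fun x => x.2.2.1)
    (fun x => x.2.2.2) (H := H) (Mx := Mx) (j := P.j) (m := P.m) (c := c) (t := K.2) (η := P.η) (K := Kt)
    (tt := (P.A + P.A1) * ml P.j) (q := P.A * ml P.j) hH (by
      intro x hx
      rw [hCC, mem_filter, mem_product, mem_product, mem_product, mem_Icc, mem_range] at hx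
      obtain ⟨⟨⟨h1, h2⟩, h3, -⟩, h4, h5, h6, h7⟩ := hx
      exact ⟨by omega, h2, h4, h5, h6, by omega, h7⟩) hc1 (w := K.1) (hfin.toFinset.image plc) (by
      intro q hq
      rw [mem_image] at hq
      obtain ⟨p, hp, rfl⟩ := hq
      rw [Set.Finite.mem_toFinset] at hp
      obtain ⟨⟨Y, hY, hM⟩, hQ, hu, hK⟩ := hp
      obtain ⟨hok, hsd, ha, hb⟩ := dk_sd hY.2.2.1 hQ hu hK
      obtain ⟨z1, z2⟩ := hZ _ hM.2
      obtain ⟨-, ⟨⟨y1, y2, -, -⟩, ⟨y3, y4, -, -⟩⟩, -, y5⟩ := hY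
      have hr4 := hok.r4
      have hrM := hok.rM
      have hkj := hok.kj
      have hjk := hok.jk
      have hD1 := hok.D1
      have hD2 := hok.D2
      rw [hPH] at hD1 hD2
      have hip : IPg (fE p.1 (pth P p.1).E) (pth P p.1).r := ipg_rot hok.ip (TIW.nrm_rt p.1.1)
      refine ⟨⟨((pth P p.1).k, ((pth P p.1).r, ((pth P p.1).D, G2.cutE (fE p.1 (pth P p.1).E) (pth P p.1).r))), ?_,
        fP p.1 (pth P p.1).P, Sd_cut (by omega) hsd⟩, ?_, ?_, ?_⟩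
      · rw [hCC, mem_filter, mem_product, mem_product, mem_product, mem_Icc, mem_range]
        refine ⟨⟨⟨?_, hkj⟩, ?_, hTT _ hok.tt, G2.cutE_mem (by omega) hip⟩, hD1, hD2, ?_, G2.IPg_cut hip⟩
        · show P.j - sx ≤ (pth P p.1).k
          omega
        · show (pth P p.1).r < Mx + 1
          omega
        · show 3 ≤ (pth P p.1).r
          omega
      · have h1 : (p.2.1.length : ℝ) ≤ P.A * ml P.j := hQ.2.2.1
        show ((p.1.1.length + p.2.1.length : ℕ) : ℝ) ≤ (p.1.1.length : ℝ) + P.A * ml P.j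
        push_cast
        linarith
      · rw [ha]
        refine ⟨Y.1, y1, y2, ?_, z1⟩
        have h1 : (0 : ℝ) ≤ Y.2.length := Nat.cast_nonneg _
        linarith
      · rw [hb]
        refine ⟨Y.2, y3, y4, ?_, z2⟩
        have h1 : (0 : ℝ) ≤ Y.1.length := Nat.cast_nonneg _
        linarith)
  rw [card_image_of_injOn (fun p hp q hq h => dk_inj (by simpa using hp) (by simpa using hq) h),
    ← Set.ncard_eq_toFinset_card _ hfin] at key
  refine key.trans ?_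
  have h1 : ((CC.card : ℕ) : ℝ) ≤ (n1 : ℝ) + 1 := by
    have h2 : ((CC.card : ℕ) : ℝ) ≤ n1 := by exact_mod_cast hcard
    linarith
  have h3 : ((n1 : ℝ) + 1) * ((64 * (2 * (Mx + 1) * (36 * H) + 1024) + 1) ^ 2 * Kt ^ 2) * Ub P.j ^ 2 =
      ((n1 : ℝ) + 1) * ((64 * (2 * (Mx + 1) * (36 * H) + 1024) + 1) ^ 2 * (Kt * Ub P.j) ^ 2) := by ring
  rw [h3]
  gcongr

end SP

end RMP

end HexObs
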