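import Pool.Agent.RMP.KaFin
import Pool.Agent.RMP.KaDet
import Pool.Agent.RMP.KaRectZ
import Pool.Agent.RMP.K3P
import Pool.Agent.RMP.ManyP
import Pool.Agent.RMP.NuP
import Pool.Agent.RMP.SplK
import Pool.Agent.PMA.TrDef

/-!
# RMP, row KA (helper90), part 4: the rows of the kernel

* `Zq` : the property `Z` of the good pairs: not too many cuts behind the good cuts (`PMA.TrB`); `locZ_Zq`;
* `TrZR` : its row;
* **`kRows_of`** : `ManyR → P9R → TrZR → LocD → KRows`;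
* **`rmw_rows`** : `ManyR → P9R → TrZR → LocD → RMW`.
-/

set_option autoImplicit false

namespace HexObs

namespace RMP

namespace KA

open Finset TS SDN TIW NPR ARM TIP

open scoped ENNReal

/-- the property `Z` of the good pairs -/
def Zq (j m c : ℕ) (η K t : ℝ) (T : PT) : Prop := ¬ PMA.TrB j m c η K t T.1 ∧ ¬ PMA.TrB j m c η K t T.2.2

/-- **row TrZR** : few pairs have too many cuts behind a good cut; `K` does not depend on `t` -/
def TrZR : Prop := ∀ ε t0 d : ℝ, 0 < ε → 0 < t0 → 0 < d → ∀ (η : ℝ) (m c : ℕ), 0 < η → ∃ K r0 : ℝ, 0 < K ∧ 0 < r0 ∧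
  ∀ r : ℝ, 0 < r → r ≤ r0 → ∃ n0 : ℕ, ∀ (n k j : ℕ) (S : Set Pt), n0 ≤ n → Ctx t0 r n k j S → ∀ t : ℝ,
    gp {T | T ∈ PR n k d S ∧ ¬ Zq j m c η K t T} ≤ ENNReal.ofReal ε * gp (PR n k d S)

/-- the property is local -/
theorem locZ_Zq {P : Par} {m c : ℕ} {η K : ℝ} (hZ : P.Z = Zq P.j m c η K ((P.A + P.A1) * ml P.j)) (w1 : ℕ) :
    LocZ P w1 := by
  intro t1 t2 w L L' _ h h1 h2
  rw [hZ]
  exact ⟨fun g => ⟨fun q => g.1 (q.suffix h1 h.dp1.symm), fun q => g.2 (q.suffix h2 h.dp2.symm)⟩,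
    fun g => ⟨fun q => g.1 (q.suffix h1 h.dp1), fun q => g.2 (q.suffix h2 h.dp2)⟩⟩

lemma pow_25 (n : ℕ) : ((n : ℝ) ^ (3 / 4 : ℝ)) ^ (25 / 8 : ℝ) = (n : ℝ) ^ (75 / 32 : ℝ) := by
  rw [← Real.rpow_mul (Nat.cast_nonneg n)]
  norm_num

/-- the mass of the pairs against the number of letters -/
lemma pr3_low (n j : ℕ) : (2 : ℝ) ^ ((59 / 24 : ℝ) * (j : ℝ)) * (n : ℝ) ^ (75 / 32 : ℝ) ≤ pr3 (nZ n) j := by
  unfold pr3
  refine mul_le_mul_of_nonneg_left ?_ (by positivity)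
  rw [← pow_25]
  exact Real.rpow_le_rpow (by positivity) ((nZ_ge n).trans (le_max_left _ _)) (by norm_num)

/-- **the rows of the kernel** -/
theorem kRows_of (hM : ManyR) (h9 : P9R) (hZ : TrZR) (hL : LocD) : KRows := by
  intro ε t0 d hε ht hd hd1
  obtain ⟨η, κ, a, m, A1, hη, hκ, hA1, hM⟩ := hM (ε / 2) t0 d (by positivity) ht hd
  obtain ⟨H, hH, h3⟩ := k3pF
  obtain ⟨Mx, sx, DDs, r1, hr1, hDD, hM⟩ := hM H hH
  obtain ⟨a0, A, c3, C3, b3, ha0, hA, hc3, hC3, h3⟩ := h3 H le_rfl Mx sx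
  obtain ⟨c0, hS⟩ := SP.splK H Mx hH
  obtain ⟨Kt, r2, hKt, hr2, hZ⟩ := hZ (ε / 2) t0 d (by positivity) ht hd η m c0 hη
  obtain ⟨C1, hC1, hS⟩ := hS c0 sx Mx Kt le_rfl hKt
  obtain ⟨Cd, hCd, hdet⟩ := det_of hη m hκ hC1 hc3
  obtain ⟨c9, r3, hc9, hr3, h9⟩ := h9 t0 d ht hd
  obtain ⟨w0, hL⟩ := hL H Mx m 0
  refine ⟨Cd / c9, 1 + 4 * (A + A1) + C3 + 3 * 2 ^ m, min (min r1 r2) r3, w0, by positivity, ?_, by positivity,
    fun r hr hr0 => ?_⟩
  · have : 0 < 4 * (A + A1) + C3 + 3 * 2 ^ m := by positivity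
    linarith
  obtain ⟨n1, hM⟩ := hM r hr (hr0.trans ((min_le_left _ _).trans (min_le_left _ _))) (b3 + sx + 4)
  obtain ⟨n2, hZ⟩ := hZ r hr (hr0.trans ((min_le_left _ _).trans (min_le_right _ _)))
  obtain ⟨n3, h9⟩ := h9 r hr (hr0.trans (min_le_right _ _))
  refine ⟨n1 + n2 + n3, fun n k j S hn hctx => ?_⟩
  obtain ⟨hbj, hM⟩ := hM n k j S (by omega) hctx
  have hZ := hZ n k j S (by omega) hctx ((A + A1) * ml j)
  have h9 := h9 n k j S (by omega) hctx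
  -- the parameters
  obtain ⟨P, hP⟩ : ∃ P : Par, P = ⟨j, a, m, H, Mx, sx, η, κ, a0, A, A1, S, fun _ => True, fun τ => τ.D ∈ DDs j,
    Zq j m c0 η Kt ((A + A1) * ml j)⟩ := ⟨_, rfl⟩
  have eZ : P.Z = Zq P.j m c0 η Kt ((P.A + P.A1) * ml P.j) := by rw [hP]
  have ej : P.j = j := by rw [hP]
  have eS : P.S = S := by rw [hP]
  have eA : P.A = A := by rw [hP]
  have eA1 : P.A1 = A1 := by rw [hP]
  have eκ : P.κ = κ := by rw [hP]
  have eη : P.η = η := by rw [hP]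
  have em : P.m = m := by rw [hP]
  have eH : P.H = H := by rw [hP]
  have eMx : P.Mx = Mx := by rw [hP]
  have esx : P.sx = sx := by rw [hP]
  have hmany := hM P ej (by rw [hP]) em eη eH eMx.ge esx.ge (by rw [eκ]; exact hκ.le) (by rw [eκ]) eA1.ge eS
    (fun τ hτ => by rw [hP]; exact hτ)
  have hK := h3 P eH eMx esx (by rw [hP]) eA (fun Q => by rw [hP]; trivial) (by rw [ej]; omega)
  have hmj : 0 < ml j := by
    unfold ml
    positivity
  have hSb : ∀ p ∈ S, TIW.hn p ≤ 2 ^ j := by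
    intro p hp
    have h1 := (hctx.s2 p hp).trans hctx.j1
    exact_mod_cast h1
  have hpr : (0 : ℝ) < pr3 (nZ n) j := by
    have := pr3_low n j
    unfold pr3
    positivity
  have hgp0 : gp (PR n k d S) ≠ 0 := by
    intro h0
    rw [h0, nonpos_iff_eq_zero, ENNReal.ofReal_eq_zero] at h9
    exact absurd h9 (not_le.2 (mul_pos hc9 hpr))
  have hspl := hS P (DDs j) eH eMx esx (by rw [ej]; omega) (hDD j) (fun τ hτ => by rw [hP] at hτ; exact hτ)
    (fun T hT => by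
      rw [eZ] at hT
      rw [em, eη]
      exact hT)
  have hgF : ∀ T, Jbl P T → ENNReal.ofReal (c3 * (ml P.j * Ub P.j / 4 ^ P.j)) ≤ gF P T := fun T hT => (hK T hT).1
  have hDDle := fun K : List Bool × ℕ => hdet P eη em eκ K (hspl K).1 (hspl K).2 (fun T hT => by
    obtain ⟨Y, hY, -⟩ := hT
    exact hgF T hY.2.2.1)
  have hUj : 0 < Ub P.j := G2.U_pos P.j
  refine ⟨hgp0, nu P, DD P, {L | Many P L}, ?_⟩
  constructor
  · exact NP.nu_row_le P
  · intro L hLm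
    have hN : NN P L ≠ 0 := by
      intro h0
      have h1 := hLm.1
      rw [h0, Nat.cast_zero, eκ] at h1
      have : 0 < κ ^ 2 * Ub P.j ^ 2 := by positivity
      linarith
    refine NP.nu_row hLm hN fun p hp => ⟨?_, NP.gF_top P p.1⟩
    have h1 := hgF p.1 hp.1.2.2.1
    intro h0
    rw [h0, nonpos_iff_eq_zero, ENNReal.ofReal_eq_zero] at h1
    have h2 : 0 < ml P.j := by
      unfold ml
      positivity
    have : 0 < c3 * (ml P.j * Ub P.j / 4 ^ P.j) := by positivity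
    linarith
  · exact NP.nu_col P
  · intro L K hne
    obtain ⟨T, y, q, h1, h2, h4, h5, h6, h7⟩ := NP.nu_ne' hne
    obtain ⟨hG, hcut, hJ, hlen⟩ := h1
    obtain ⟨hsa, hqn⟩ := (hK T hJ).2 q h4
    have hj0 : (0 : ℝ) < 2 ^ j := by positivity
    have hin : ∀ Y : List Bool, In (2 ^ (P.j + P.m)) Y → ∀ i, i ≤ Y.length →
        (TIW.hn (vx oo up Y i) : ℝ) ≤ (1 + 4 * (A + A1) + C3 + 3 * 2 ^ m) * 2 ^ j := by
      intro Y hY i hi
      have g1 := TIW.hn_le_Bl (hY i hi)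
      have g2 : (TIW.hn (vx oo up Y i) : ℝ) ≤ 3 * (2 ^ (P.j + P.m) : ℕ) := by exact_mod_cast g1
      push_cast at g2
      rw [ej, em, pow_add] at g2
      have g3 : 0 ≤ (1 + 4 * (A + A1) + C3) * 2 ^ j := by positivity
      calc (TIW.hn (vx oo up Y i) : ℝ) ≤ 3 * (2 ^ j * 2 ^ m) := g2
        _ ≤ _ := by
          have : (1 + 4 * (A + A1) + C3 + 3 * 2 ^ m) * 2 ^ j = (1 + 4 * (A + A1) + C3) * 2 ^ j + 3 * (2 ^ j * 2 ^ m) := by ring
          rw [this]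
          linarith
    refine ⟨T, y, q, h6, h7, ?_, ?_, ?_, h5.le, ?_, ?_, ?_, ?_⟩
    · rw [← h7]
      exact (NP.gE_jo hJ h4).symm
    · rw [← h7]
      exact hsa
    · rw [← h6, ← eS]
      exact hG
    · have g1 : (q.1.length : ℝ) ≤ A * ml j := by
        have := h4.2.2.1
        rw [eA, ej] at this
        exact this
      rw [eA1, ej] at hlen
      push_cast
      have g2 : (1 + 4 * (A + A1) + C3 + 3 * 2 ^ m) * ml j = A1 * ml j + A * ml j + (1 + 3 * (A + A1) + C3 + 3 * 2 ^ m) * ml j := by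
        ring
      have g3 : 0 ≤ (1 + 3 * (A + A1) + C3 + 3 * 2 ^ m) * ml j := by positivity
      rw [g2]
      linarith
    · exact hin y.1 hcut.1.2.1
    · exact hin y.2 hcut.2.2.1
    · intro i hi
      have g1 := hqn i hi
      rw [ej] at g1
      have g3 : 0 ≤ (1 + 4 * (A + A1) + 3 * 2 ^ m) * 2 ^ j := by positivity
      have g4 : (1 + 4 * (A + A1) + C3 + 3 * 2 ^ m) * 2 ^ j = (1 + 4 * (A + A1) + 3 * 2 ^ m) * 2 ^ j + C3 * 2 ^ j := by ring
      rw [g4]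
      linarith
  · have hsub : {L | L ∈ PR n k d S ∧ L ∉ {L | Many P L}} ⊆
        {T | T ∈ PR n k d S ∧ ¬ P.κ ^ 2 * Ub P.j ^ 2 ≤ (NN P T : ℝ)} ∪
          {T | T ∈ PR n k d S ∧ ¬ Zq j m c0 η Kt ((A + A1) * ml j) T} := by
      rintro L ⟨g1, g2⟩
      by_cases g3 : P.κ ^ 2 * Ub P.j ^ 2 ≤ (NN P L : ℝ)
      · refine Or.inr ⟨g1, fun g4 => g2 ⟨g3, ?_⟩⟩
        rw [eZ, ej, eA, eA1]
        exact g4
      · exact Or.inl ⟨g1, g3⟩
    refine (gp_mono hsub).trans ((gp_union_le _ _).trans ((add_le_add hmany hZ).trans (le_of_eq ?_)))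
    rw [← add_mul, ← ENNReal.ofReal_add (by positivity) (by positivity), add_halves]
  · intro K _
    have g1 : DD P K * ENNReal.ofReal ((n : ℝ) ^ (75 / 32 : ℝ)) ≤
        ENNReal.ofReal (Cd * 2 ^ ((59 / 24 : ℝ) * (j : ℝ))) * ENNReal.ofReal ((n : ℝ) ^ (75 / 32 : ℝ)) := by
      have := hDDle K
      rw [ej] at this
      exact mul_le_mul' this le_rfl
    refine g1.trans ?_
    have g2 : ENNReal.ofReal (Cd / c9) * ENNReal.ofReal (c9 * pr3 (nZ n) j) ≤ ENNReal.ofReal (Cd / c9) * gp (PR n k d S) :=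
      mul_le_mul' le_rfl h9
    refine le_trans ?_ g2
    rw [← ENNReal.ofReal_mul (by positivity), ← ENNReal.ofReal_mul (by positivity)]
    refine ENNReal.ofReal_le_ofReal ?_
    have g3 : Cd / c9 * (c9 * pr3 (nZ n) j) = Cd * pr3 (nZ n) j := by field_simp
    rw [g3, mul_assoc]
    exact mul_le_mul_of_nonneg_left (pr3_low n j) hCd.le
  · intro T hT K K' hs hs' hf hf' hw
    refine hL P eH eMx em (locZ_Zq eZ 0) ?_ ?_ (by rw [eA]; exact hA.le) (by rw [eA1]; exact hA1.le) T (j + w0)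
      (by rw [ej]) ?_ K K' hs hs' hf hf' hw
    · rw [eS]
      exact hctx.s3
    · rw [eS, ej]
      exact hSb
    · rw [eA, eA1, ej]
      refine le_trans ?_ hT
      refine mul_le_mul_of_nonneg_right ?_ hmj.le
      have : 0 < C3 + 3 * 2 ^ m := by positivity
      linarith

/-- **the finite form of the renormalisation map, from the rows** -/
theorem rmw_rows (hM : ManyR) (h9 : P9R) (hZ : TrZR) (hL : LocD) : RMW := rmw_of (kRows_of hM h9 hZ hL) rectP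

end KA

end RMP

end HexObs
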