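import Mathlib.Algebra.Order.BigOperators.Ring.Finset
import Mathlib.Data.Real.Basic
import Mathlib.Tactic

/-!
# The kernel lemma with a mixture of target laws (row KA of the renormalisation map; helper51)

As `Pool.Agent.PMA.kern` (helper41), but the closed objects `b` have a label `len b` in `I` and the density is only uncorrelated
with `g` for every label: the limit is a mixture of the means `e i` with the weights `m i / M`.
-/

set_option autoImplicit false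

open Finset

namespace Pool.Agent.RMP

/-- **the kernel lemma, mixture form** -/
theorem kernM {α β : Type*} {A : Finset α} {B : Finset β} {I : Finset ℕ} {len : β → ℕ} {p f : α → ℝ} {q g D Dl : β → ℝ}
    {ν : α → β → ℝ} {e m : ℕ → ℝ} {ε M : ℝ} (hε : ε ≤ 1 / 4) (hlen : ∀ b ∈ B, len b ∈ I) (hq : ∀ b ∈ B, 0 ≤ q b)
    (hDl : ∀ b ∈ B, 0 ≤ Dl b) (hp1 : ∑ a ∈ A, p a ≤ 1) (hν : ∀ a ∈ A, ∀ b ∈ B, 0 ≤ ν a b) (hf : ∀ a ∈ A, |f a| ≤ 1)
    (hg : ∀ b ∈ B, |g b| ≤ 1) (h1 : ∀ a ∈ A, ∑ b ∈ B, ν a b ≤ p a) (h2 : 1 - ε ≤ ∑ a ∈ A, ∑ b ∈ B, ν a b)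
    (h3 : ∀ b ∈ B, ∑ a ∈ A, ν a b = D b * q b) (h4 : ∑ a ∈ A, ∑ b ∈ B, ν a b * |f a - g b| ≤ ε)
    (h5 : ∑ b ∈ B, q b * |D b - Dl b| ≤ 2 * ε) (hm : ∀ i ∈ I, m i = ∑ b ∈ B with len b = i, q b * Dl b)
    (hM : M = ∑ i ∈ I, m i) (he : ∀ i ∈ I, |e i| ≤ 1)
    (h7 : ∑ i ∈ I, |∑ b ∈ B with len b = i, q b * (g b * Dl b) - e i * m i| ≤ ε) :
    0 < M ∧ |∑ a ∈ A, p a * f a - ∑ i ∈ I, m i / M * e i| ≤ 8 * ε := by
  classical
  -- the total mass
  obtain ⟨T, hT⟩ : ∃ T, T = ∑ a ∈ A, ∑ b ∈ B, ν a b := ⟨_, rfl⟩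
  have hT1 : T ≤ 1 := by
    rw [hT]
    exact (sum_le_sum h1).trans hp1
  have hT2 : 1 - ε ≤ T := hT ▸ h2
  have hTD : T = ∑ b ∈ B, q b * D b := by
    rw [hT, sum_comm]
    exact sum_congr rfl fun b hb => by rw [h3 b hb, mul_comm]
  -- from p to ν
  have e1 : |∑ a ∈ A, p a * f a - ∑ a ∈ A, ∑ b ∈ B, ν a b * f a| ≤ ε := by
    rw [← sum_sub_distrib]
    refine (abs_sum_le_sum_abs _ _).trans ?_
    have h : ∀ a ∈ A, |p a * f a - ∑ b ∈ B, ν a b * f a| ≤ p a - ∑ b ∈ B, ν a b := by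
      intro a ha
      rw [← sum_mul, ← sub_mul, abs_mul]
      have a1 : 0 ≤ p a - ∑ b ∈ B, ν a b := sub_nonneg.2 (h1 a ha)
      rw [abs_of_nonneg a1]
      calc (p a - ∑ b ∈ B, ν a b) * |f a| ≤ (p a - ∑ b ∈ B, ν a b) * 1 := mul_le_mul_of_nonneg_left (hf a ha) a1
        _ = _ := mul_one _
    refine (sum_le_sum h).trans ?_
    rw [sum_sub_distrib, ← hT]
    linarith
  -- from f to g
  have e2 : |∑ a ∈ A, ∑ b ∈ B, ν a b * f a - ∑ a ∈ A, ∑ b ∈ B, ν a b * g b| ≤ ε := by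
    rw [← sum_sub_distrib]
    refine (abs_sum_le_sum_abs _ _).trans ((sum_le_sum fun a ha => ?_).trans h4)
    rw [← sum_sub_distrib]
    refine (abs_sum_le_sum_abs _ _).trans (sum_le_sum fun b hb => ?_)
    rw [← mul_sub, abs_mul, abs_of_nonneg (hν a ha b hb)]
  -- the density
  have e3 : ∑ a ∈ A, ∑ b ∈ B, ν a b * g b = ∑ b ∈ B, q b * (g b * D b) := by
    rw [sum_comm]
    refine sum_congr rfl fun b hb => ?_
    rw [← sum_mul, h3 b hb]
    ring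
  have e4 : |∑ b ∈ B, q b * (g b * D b) - ∑ b ∈ B, q b * (g b * Dl b)| ≤ 2 * ε := by
    rw [← sum_sub_distrib]
    refine (abs_sum_le_sum_abs _ _).trans ((sum_le_sum fun b hb => ?_).trans h5)
    rw [← mul_sub, ← mul_sub, abs_mul, abs_mul, abs_of_nonneg (hq b hb)]
    refine mul_le_mul_of_nonneg_left ?_ (hq b hb)
    calc |g b| * |D b - Dl b| ≤ 1 * |D b - Dl b| := mul_le_mul_of_nonneg_right (hg b hb) (abs_nonneg _)
      _ = _ := one_mul _
  have e5 : |∑ b ∈ B, q b * D b - ∑ b ∈ B, q b * Dl b| ≤ 2 * ε := by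
    rw [← sum_sub_distrib]
    refine (abs_sum_le_sum_abs _ _).trans ((sum_le_sum fun b hb => ?_).trans h5)
    rw [← mul_sub, abs_mul, abs_of_nonneg (hq b hb)]
  -- the sums over the labels
  have fib : ∀ u : β → ℝ, ∑ b ∈ B, u b = ∑ i ∈ I, ∑ b ∈ B with len b = i, u b := fun u =>
    (sum_fiberwise_of_maps_to hlen u).symm
  have hM2 : M = ∑ b ∈ B, q b * Dl b := by
    rw [hM, fib]
    exact sum_congr rfl hm
  have e6 : |∑ b ∈ B, q b * (g b * Dl b) - ∑ i ∈ I, m i * e i| ≤ ε := by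
    rw [fib, ← sum_sub_distrib]
    refine (abs_sum_le_sum_abs _ _).trans (le_trans (le_of_eq (sum_congr rfl fun i _ => ?_)) h7)
    rw [mul_comm (m i)]
  have m0 : ∀ i ∈ I, 0 ≤ m i := by
    intro i hi
    rw [hm i hi]
    exact sum_nonneg fun b hb => mul_nonneg (hq b (mem_filter.1 hb).1) (hDl b (mem_filter.1 hb).1)
  have n5 := abs_le.1 e5
  rw [← hTD, ← hM2] at n5
  have hM1 : |M - 1| ≤ 3 * ε := by
    rw [abs_le]
    constructor <;> linarith [n5.1, n5.2]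
  have hM0 : 0 < M := by
    have := (abs_le.1 hM1).1
    linarith
  refine ⟨hM0, ?_⟩
  have e7 : |∑ i ∈ I, m i * e i - ∑ i ∈ I, m i / M * e i| ≤ 3 * ε := by
    have e8 : ∑ i ∈ I, m i / M * e i = (∑ i ∈ I, m i * e i) / M := by
      rw [sum_div]
      exact sum_congr rfl fun i _ => by ring
    have e9 : |∑ i ∈ I, m i * e i| ≤ M := by
      rw [hM]
      refine (abs_sum_le_sum_abs _ _).trans (sum_le_sum fun i hi => ?_)
      rw [abs_mul, abs_of_nonneg (m0 i hi)]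
      calc m i * |e i| ≤ m i * 1 := mul_le_mul_of_nonneg_left (he i hi) (m0 i hi)
        _ = _ := mul_one _
    have e10 : (∑ i ∈ I, m i * e i) - (∑ i ∈ I, m i * e i) / M = (∑ i ∈ I, m i * e i) / M * (M - 1) := by
      field_simp
    rw [e8, e10, abs_mul, abs_div, abs_of_pos hM0]
    calc |∑ i ∈ I, m i * e i| / M * |M - 1| ≤ 1 * |M - 1| :=
        mul_le_mul_of_nonneg_right ((div_le_one hM0).2 e9) (abs_nonneg _)
      _ ≤ _ := by
        rw [one_mul]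
        exact hM1
  have n1 := abs_le.1 e1
  have n2 := abs_le.1 e2
  have n4 := abs_le.1 e4
  have n6 := abs_le.1 e6
  have n7 := abs_le.1 e7
  rw [e3] at n2
  rw [abs_le]
  constructor <;> linarith [n1.1, n1.2, n2.1, n2.2, n4.1, n4.2, n6.1, n6.2, n7.1, n7.2]

end Pool.Agent.RMP
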