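import Pool.Agent.RMP.GlueP
import Pool.Agent.RMP.JoinP
import Pool.Agent.RMP.JMassP
import Pool.Agent.ARM.T1

/-!
# RMP, row LenG (helper47): long tips behind the good cuts of a good pair

* `lenG_of` : the good pairs with at least `κ / 2 * Ub j` good cuts of the first word behind which there are more than
  `A1 * ml j` letters have mass at most `C / A1 * pr3 R j` (the double count of GlueP with the long end parts).
-/

set_option autoImplicit false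

namespace HexObs

namespace RMP

open Finset TS SDN HexObs.SIM NTA TIP ARM

open scoped ENNReal

namespace G6

/-- **the double sum**, two weights -/
lemma dsumP2 {G : Set PT} {c K : ℝ≥0∞} {P : PT → List Bool → List Bool → Prop} {y z : List Bool → ℝ≥0∞}
    (h : ∀ T ∈ G, ∃ S1 S2 : Finset (List Bool), c ≤ (S1.card : ℝ≥0∞) * S2.card ∧ ∀ Y1 ∈ S1, ∀ Y2 ∈ S2, ∃ T' : PT,
      gl T' Y1 Y2 = T ∧ P T' Y1 Y2)
    (hg : ∀ Y1 Y2 : List Bool, wE Y1 * wE Y2 * gp {T' | P T' Y1 Y2} ≤ K * (y Y1 * z Y2)) :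
    c * gp G ≤ K * ((∑' Y : List Bool, y Y) * ∑' Y : List Bool, z Y) := by
  classical
  have h1 : c * gp G ≤ ∑' T : PT, wE T.1 * wE T.2.2 * ∑' Y : List Bool × List Bool, ∑' T' : PT,
      (if gl T' Y.1 Y.2 = T ∧ P T' Y.1 Y.2 then (1 : ℝ≥0∞) else 0) := by
    rw [gp_ind, ← ENNReal.tsum_mul_left]
    refine ENNReal.tsum_le_tsum fun T => ?_
    by_cases hT : T ∈ G
    · rw [if_pos hT, mul_comm c]
      refine mul_le_mul_right ?_ _
      obtain ⟨S1, S2, h1, h2⟩ := h T hT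
      refine h1.trans ?_
      have h3 : (S1.card : ℝ≥0∞) * S2.card = ∑ Y ∈ S1 ×ˢ S2, (1 : ℝ≥0∞) := by
        rw [sum_const, card_product, nsmul_eq_mul, mul_one]
        push_cast
        rfl
      rw [h3]
      refine le_trans (sum_le_sum fun Y hY => ?_) (ENNReal.sum_le_tsum (S1 ×ˢ S2))
      rw [mem_product] at hY
      obtain ⟨T', h4, h5⟩ := h2 Y.1 hY.1 Y.2 hY.2
      refine le_trans ?_ (ENNReal.le_tsum T')
      rw [if_pos ⟨h4, h5⟩]
    · rw [if_neg hT, mul_zero]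
      exact zero_le
  refine h1.trans ?_
  have h2 : ∀ T : PT, wE T.1 * wE T.2.2 * ∑' Y : List Bool × List Bool, ∑' T' : PT,
      (if gl T' Y.1 Y.2 = T ∧ P T' Y.1 Y.2 then (1 : ℝ≥0∞) else 0) =
      ∑' Y : List Bool × List Bool, ∑' T' : PT, if gl T' Y.1 Y.2 = T ∧ P T' Y.1 Y.2 then wE T.1 * wE T.2.2 else 0 := by
    intro T
    rw [← ENNReal.tsum_mul_left]
    refine tsum_congr fun Y => ?_
    rw [← ENNReal.tsum_mul_left]
    refine tsum_congr fun T' => ?_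
    rw [mul_ite, mul_one, mul_zero]
  rw [tsum_congr h2, ENNReal.tsum_comm]
  have h3 : ∀ Y : List Bool × List Bool, (∑' T : PT, ∑' T' : PT,
      if gl T' Y.1 Y.2 = T ∧ P T' Y.1 Y.2 then wE T.1 * wE T.2.2 else 0) = wE Y.1 * wE Y.2 * gp {T' | P T' Y.1 Y.2} := by
    intro Y
    rw [ENNReal.tsum_comm, gp_ind, ← ENNReal.tsum_mul_left]
    refine tsum_congr fun T' => ?_
    rw [tsum_eq_single (gl T' Y.1 Y.2)]
    · by_cases hP : P T' Y.1 Y.2
      · rw [if_pos ⟨rfl, hP⟩, if_pos (show T' ∈ {T' | P T' Y.1 Y.2} from hP)]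
        unfold gl
        simp only
        rw [wE_append, wE_append]
        ring
      · rw [if_neg (fun h => hP h.2), if_neg (show T' ∉ {T' | P T' Y.1 Y.2} from hP), mul_zero]
    · intro T hT
      exact if_neg fun h => hT h.1.symm
  rw [tsum_congr h3]
  calc ∑' Y : List Bool × List Bool, wE Y.1 * wE Y.2 * gp {T' | P T' Y.1 Y.2}
      ≤ ∑' Y : List Bool × List Bool, K * (y Y.1 * z Y.2) := ENNReal.tsum_le_tsum fun Y => hg Y.1 Y.2
    _ = K * ((∑' X : List Bool, y X) * ∑' Y : List Bool, z Y) := by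
        rw [ENNReal.tsum_mul_left, ENNReal.tsum_prod']
        have : ∀ X : List Bool, ∑' Y : List Bool, y X * z Y = y X * ∑' Y : List Bool, z Y :=
          fun X => ENNReal.tsum_mul_left
        rw [tsum_congr this, ENNReal.tsum_mul_right]

end G6

/-- the long parts behind the good cuts of the first word -/
def LCut (j a m : ℕ) (η A1 : ℝ) (T : PT) : Set (List Bool) :=
  {Y | Y ∈ NCp j (j - a) (2 ^ (j + m)) η (ob T.2.1 T.2.2) T.1 ∧ A1 * ml j < (Y.length : ℝ)}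

open G6 in
/-- **row LenG** -/
theorem lenG_of {η κ : ℝ} {a m k c0 : ℕ} (hη : 0 < η) (hκ : 0 < κ)
    (hJoin : ∀ c u e : ℕ, c0 ≤ c → c ≤ u → k ≤ e → ∀ H : ℕ, 2 ^ 13 ≤ H → ∃ Mx sx b0 : ℕ, ∀ j : ℕ, b0 ≤ j →
      ∃ DD : Finset ℤ, DD.card ≤ Mx ∧ ∀ R : ℕ, 2 ^ (b0 + j) ≤ R → ∀ (A Y1 : List Bool) (g : Pt × Pt) (B Y2 : List Bool),
        ((A ++ Y1, (g, B ++ Y2)) : PT) ∈ GP R j η κ a m c u e k → CutPP j a m η A Y1 g B Y2 →
        ∃ (k' r : ℕ) (D : ℤ) (E : ℕ → Pt) (P : Pt), D ∈ DD ∧ k' ≤ j ∧ j ≤ k' + sx ∧ 18 * (H * 2 ^ k') ≤ D ∧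
          D ≤ 36 * (H * 2 ^ k') ∧ 4 ≤ r ∧ r ≤ Mx ∧ IPg E r ∧ E (r - 2) = E (r - 1) ∧ JnP E r D k' P (A, (g, B))) :
    ∀ c u e : ℕ, c0 ≤ c → c ≤ u → k ≤ e → ∃ (C : ℝ) (b0 : ℕ), 0 < C ∧ ∀ A1 : ℝ, 0 < A1 → ∀ R j : ℕ, b0 ≤ j →
      2 ^ (b0 + j) ≤ R → gp {T | T ∈ GP R j η κ a m c u e k ∧ κ / 2 * Ub j ≤ ((LCut j a m η A1 T).ncard : ℝ)} ≤
        ENNReal.ofReal (C / A1 * pr3 R j) := by
  classical
  intro c u e hc hcu hke
  obtain ⟨H0, hH0, hM⟩ := jMassP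
  obtain ⟨Mx, sx, b1, hJoin⟩ := hJoin c u e hc hcu hke H0 hH0
  obtain ⟨C1, k0, hC1, hM⟩ := hM H0 le_rfl Mx
  obtain ⟨C2, hC2, hY⟩ := yMassW η m 0 hη
  obtain ⟨C2', hC2', hY'⟩ := yMassW η m 1 hη
  obtain ⟨C3, hC3, hX⟩ := TPC.xUp
  obtain ⟨c4, C4, -, hC4, hU⟩ := TPC.An.Ub_two
  obtain ⟨N, hN⟩ : ∃ N : ℕ, N = (sx + 1) * ((Mx + 1) * (Mx * 6 ^ Mx)) := ⟨_, rfl⟩
  obtain ⟨K0, hK0⟩ : ∃ K0 : ℝ, K0 = (N : ℝ) * (C1 * 4 ^ sx * 16) + 1 := ⟨_, rfl⟩
  have hK1 : (N : ℝ) * (C1 * 4 ^ sx * 16) ≤ K0 := by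
    rw [hK0]
    linarith
  have hKp : 0 < K0 := by
    rw [hK0]
    positivity
  -- one constant for both masses
  obtain ⟨C5, hC5⟩ : ∃ C5 : ℝ, C5 = C2 + C2' := ⟨_, rfl⟩
  have hC5p : 0 < C5 := by
    rw [hC5]
    positivity
  obtain ⟨b0, hb0⟩ : ∃ b0, b0 = b1 + (k0 + sx) + (m + 3) := ⟨_, rfl⟩
  refine ⟨2 * (K0 * C5 ^ 2 * C3 * C4 / κ ^ 2), b0, by positivity, fun A1 hA1 R j hj hR => ?_⟩
  have hm := G2.m_pos j
  have hUj := G2.U_pos j
  have hR1 : 2 ^ (b1 + j) ≤ R := (Nat.pow_le_pow_right (by norm_num) (by omega)).trans hR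
  have hR2 : 2 ^ (m + 3 + j) ≤ R := (Nat.pow_le_pow_right (by norm_num) (by omega)).trans hR
  have hRj : 2 ^ j ≤ R := (Nat.pow_le_pow_right (by norm_num) (by omega)).trans hR
  have hR3 : 2 ^ j + 6 * 2 ^ (j + m) ≤ R := by
    have e1 : 2 ^ (m + 3 + j) = 8 * 2 ^ (j + m) := by ring
    have e2 : 2 ^ j ≤ 2 ^ (j + m) := Nat.pow_le_pow_right (by norm_num) (by omega)
    omega
  have hR3' : (2 : ℤ) ^ j + 6 * 2 ^ (j + m) ≤ R := by exact_mod_cast hR3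
  obtain ⟨DD, hDD, hJoin⟩ := hJoin j (by omega)
  have hJoin := hJoin R hR1
  -- the classes of the end parts
  obtain ⟨YY, hYY⟩ : ∃ YY : Set (List Bool), YY = {Y | Y ∈ SA ∧ rev Y ∈ GT j η ∧ In (2 ^ (j + m)) Y} := ⟨_, rfl⟩
  obtain ⟨z, hz⟩ : ∃ z : List Bool → ℝ≥0∞, z = fun Y => if Y ∈ YY then wE Y else 0 := ⟨_, rfl⟩
  obtain ⟨y, hy⟩ : ∃ y : List Bool → ℝ≥0∞, y = fun Y => if Y ∈ YY ∧ A1 * ml j < (Y.length : ℝ) then wE Y else 0 := ⟨_, rfl⟩
  have hzs : ∑' Y : List Bool, z Y ≤ ENNReal.ofReal (C5 * Ub j) * Xb j := by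
    have h1 : ∑' Y : List Bool, z Y ≤ ENNReal.ofReal (C2 * Ub j) * Xb j := by
      refine le_trans (le_of_eq ?_) (hY j)
      rw [← hYY, _root_.tsum_subtype YY (fun Y => wE Y * ENNReal.ofReal ((1 + (Y.length : ℝ) / ml j) ^ 0))]
      refine tsum_congr fun Y => ?_
      rw [hz, Set.indicator_apply]
      simp only [pow_zero, ENNReal.ofReal_one, mul_one]
    refine h1.trans (mul_le_mul_left (ENNReal.ofReal_le_ofReal ?_) _)
    rw [hC5]
    exact mul_le_mul_of_nonneg_right (by linarith) hUj.le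
  have hys : ∑' Y : List Bool, y Y ≤ ENNReal.ofReal (C5 * Ub j / A1) * Xb j := by
    have h1 : ENNReal.ofReal A1 * ∑' Y : List Bool, y Y ≤ ENNReal.ofReal (C2' * Ub j) * Xb j := by
      refine le_trans ?_ (hY' j)
      rw [← hYY, _root_.tsum_subtype YY (fun Y => wE Y * ENNReal.ofReal ((1 + (Y.length : ℝ) / ml j) ^ 1)),
        ← ENNReal.tsum_mul_left]
      refine ENNReal.tsum_le_tsum fun Y => ?_
      rw [hy]
      simp only
      by_cases h : Y ∈ YY ∧ A1 * ml j < (Y.length : ℝ)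
      · rw [if_pos h, Set.indicator_of_mem h.1, mul_comm]
        refine mul_le_mul_right (ENNReal.ofReal_le_ofReal ?_) _
        rw [pow_one]
        have h2 : A1 ≤ (Y.length : ℝ) / ml j := by
          rw [le_div_iff₀ hm]
          exact h.2.le
        linarith
      · rw [if_neg h, mul_zero]
        exact zero_le
    have e1 : ENNReal.ofReal (C5 * Ub j / A1) * Xb j = (ENNReal.ofReal A1)⁻¹ * (ENNReal.ofReal (C5 * Ub j) * Xb j) := by
      rw [ENNReal.ofReal_div_of_pos hA1, div_eq_mul_inv, mul_comm (ENNReal.ofReal (C5 * Ub j)), mul_assoc]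
    have hA0 : ENNReal.ofReal A1 ≠ 0 := (ENNReal.ofReal_pos.2 hA1).ne'
    calc ∑' Y : List Bool, y Y = (ENNReal.ofReal A1)⁻¹ * (ENNReal.ofReal A1 * ∑' Y : List Bool, y Y) := by
          rw [← mul_assoc, ENNReal.inv_mul_cancel hA0 ENNReal.ofReal_ne_top, one_mul]
      _ ≤ (ENNReal.ofReal A1)⁻¹ * (ENNReal.ofReal (C5 * Ub j) * Xb j) := by
          refine mul_le_mul_right (h1.trans (mul_le_mul_left (ENNReal.ofReal_le_ofReal ?_) _)) _
          rw [hC5]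
          exact mul_le_mul_of_nonneg_right (by linarith) hUj.le
      _ = _ := e1.symm
  obtain ⟨B, hB⟩ : ∃ B, B = (R : ℝ) ^ (25 / 8 : ℝ) := ⟨_, rfl⟩
  have hR0 : (0 : ℝ) < R := by
    have : 0 < R := lt_of_lt_of_le (by positivity) hRj
    exact_mod_cast this
  have hBp : 0 < B := by
    rw [hB]
    positivity
  have hB2 : ((2 * R : ℕ) : ℝ) ^ (25 / 8 : ℝ) ≤ 16 * B := by
    rw [hB]
    push_cast
    rw [Real.mul_rpow (by norm_num) hR0.le]
    have : (2 : ℝ) ^ (25 / 8 : ℝ) ≤ 2 ^ ((4 : ℕ) : ℝ) := Real.rpow_le_rpow_of_exponent_le (by norm_num) (by norm_num)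
    rw [Real.rpow_natCast] at this
    have h2 : (2 : ℝ) ^ 4 = 16 := by norm_num
    rw [h2] at this
    exact mul_le_mul_of_nonneg_right this (by positivity)
  obtain ⟨GG, hGG⟩ : ∃ GG : Set PT, GG = {T | T ∈ GP R j η κ a m c u e k ∧ κ / 2 * Ub j ≤ ((LCut j a m η A1 T).ncard : ℝ)} :=
    ⟨_, rfl⟩
  rw [← hGG]
  have key : ENNReal.ofReal ((κ * Ub j) ^ 2 / 2) * gp GG ≤
      ENNReal.ofReal (K0 * (4 ^ j * Ub j / ml j) * B) * ((∑' Y : List Bool, y Y) * ∑' Y : List Bool, z Y) := by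
    refine dsumP2 (P := fun T Y1 Y2 => gl T Y1 Y2 ∈ GP R j η κ a m c u e k ∧ CutPP j a m η T.1 Y1 T.2.1 T.2.2 Y2 ∧
      A1 * ml j < (Y1.length : ℝ)) ?_ ?_
    · intro T hTG
      rw [hGG] at hTG
      obtain ⟨hT, hLT⟩ := hTG
      have hx : 0 < κ * Ub j := mul_pos hκ hUj
      have hx2 : 0 < κ / 2 * Ub j := by positivity
      obtain ⟨S2, h3, h4⟩ := cutsP hx hT.2.2.1.2.1
      have hf : (LCut j a m η A1 T).Finite := by
        have h1 : 0 < (LCut j a m η A1 T).ncard := by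
          have : (0 : ℝ) < ((LCut j a m η A1 T).ncard : ℝ) := hx2.trans_le hLT
          exact_mod_cast this
        exact Set.finite_of_ncard_pos h1
      refine ⟨hf.toFinset, S2, ?_, fun Y1 hY1 Y2 hY2 => ?_⟩
      · have h1 : κ / 2 * Ub j ≤ ((hf.toFinset.card : ℕ) : ℝ) := by
          rw [← Set.ncard_eq_toFinset_card _ hf]
          exact hLT
        have h5 : (κ * Ub j) ^ 2 / 2 ≤ ((hf.toFinset.card * S2.card : ℕ) : ℝ) := by
          push_cast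
          have h6 := mul_le_mul h1 h3 hx.le (Nat.cast_nonneg _)
          nlinarith
        refine (ENNReal.ofReal_le_ofReal h5).trans (le_of_eq ?_)
        rw [ENNReal.ofReal_natCast]
        push_cast
        rfl
      · obtain ⟨h5, h7⟩ := hf.mem_toFinset.1 hY1
        have h6 := h4 Y2 hY2
        obtain ⟨A, hA, -⟩ := h5.2.2
        obtain ⟨B', hB', -⟩ := h6.2.2
        have e1 : T.1 = A ++ Y1 := hA
        have e2 : T.2.2 = B' ++ Y2 := hB'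
        have e3 : gl ((A, (T.2.1, B')) : PT) Y1 Y2 = T := by
          show ((A ++ Y1, (T.2.1, B' ++ Y2)) : PT) = T
          rw [← e1, ← e2]
        refine ⟨(A, (T.2.1, B')), e3, ?_, ⟨?_, ?_⟩, h7⟩
        · rw [e3]
          exact hT
        · show Y1 ∈ NCp j (j - a) (2 ^ (j + m)) η (ob T.2.1 (B' ++ Y2)) (A ++ Y1)
          rw [← e1, ← e2]
          exact h5
        · show Y2 ∈ NCp j (j - a) (2 ^ (j + m)) η (ob (gi T.2.1) (A ++ Y1)) (B' ++ Y2)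
          rw [← e1, ← e2]
          exact h6
    · intro Y1 Y2
      by_cases hne : ∃ T : PT, gl T Y1 Y2 ∈ GP R j η κ a m c u e k ∧ CutPP j a m η T.1 Y1 T.2.1 T.2.2 Y2 ∧
          A1 * ml j < (Y1.length : ℝ)
      · obtain ⟨T0, hT0, hc0, hl0⟩ := hne
        have hY1m : Y1 ∈ YY := by
          rw [hYY]
          exact ⟨TIP.Nf.SA_suf (hT0.1.1 : T0.1 ++ Y1 ∈ SA), hc0.1.1, hc0.1.2.1⟩
        have hY2m : Y2 ∈ YY := by
          rw [hYY]
          exact ⟨TIP.Nf.SA_suf (hT0.1.2.1 : T0.2.2 ++ Y2 ∈ SA), hc0.2.1, hc0.2.2.1⟩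
        have hbd : gp {T : PT | gl T Y1 Y2 ∈ GP R j η κ a m c u e k ∧ CutPP j a m η T.1 Y1 T.2.1 T.2.2 Y2 ∧
            A1 * ml j < (Y1.length : ℝ)} ≤ ENNReal.ofReal (K0 * (4 ^ j * Ub j / ml j) * B) := by
          refine (mid_massP (X := fun E r D k T => ∃ P, JnP E r D k P T) (H := H0) (Mx := Mx) (sx := sx) (k0 := k0)
            (fun _ _ _ _ _ hr h => by
              obtain ⟨P, h⟩ := h
              exact ⟨P, JnP_cut hr h⟩) hC1 hM (j := j) (by omega) hDD (R := 2 * R)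
            (hRj.trans (by omega)) ?_).trans ?_
          · rintro T ⟨hT1, hT2, -⟩
            have g1 : ∀ s, s ≤ (T.1 ++ Y1).length → dz (T.1 ++ Y1) s ≤ (R : ℤ) + 2 ^ j := hT1.1.2.2.2.2.2.1
            have g2 : ∀ s, s ≤ (T.2.2 ++ Y2).length → dz (T.2.2 ++ Y2) s ≤ (R : ℤ) + 2 ^ j := hT1.1.2.2.2.2.2.2
            refine ⟨⟨fun s hs => ?_, fun s hs => ?_⟩, ?_⟩
            · have g3 := dz_outer (D := 2 ^ (j + m)) hT2.1.2.1 g1 s hs
              push_cast at g3 ⊢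
              linarith
            · have g3 := dz_outer (D := 2 ^ (j + m)) hT2.2.2.1 g2 s hs
              push_cast at g3 ⊢
              linarith
            · obtain ⟨k', r, D, E, P, hD, c1, c2, c3, c4, c5, c6, c7, -, c8⟩ := hJoin T.1 Y1 T.2.1 T.2.2 Y2 hT1 hT2
              exact ⟨k', r, D, E, hD, ⟨c1, c2, c3, c4, by omega, c6, c7⟩, ⟨P, c8⟩⟩
          · refine ENNReal.ofReal_le_ofReal ?_
            rw [← hN]
            calc (N : ℝ) * (C1 * (4 ^ sx * (4 ^ j * Ub j / ml j)) * ((2 * R : ℕ) : ℝ) ^ (25 / 8 : ℝ))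
                ≤ (N : ℝ) * (C1 * (4 ^ sx * (4 ^ j * Ub j / ml j)) * (16 * B)) := by gcongr
              _ = (N : ℝ) * (C1 * 4 ^ sx * 16) * (4 ^ j * Ub j / ml j) * B := by ring
              _ ≤ K0 * (4 ^ j * Ub j / ml j) * B := by gcongr
        rw [hy, hz]
        simp only
        rw [if_pos ⟨hY1m, hl0⟩, if_pos hY2m, mul_comm (ENNReal.ofReal _)]
        exact mul_le_mul_right hbd _
      · have h0 : gp {T : PT | gl T Y1 Y2 ∈ GP R j η κ a m c u e k ∧ CutPP j a m η T.1 Y1 T.2.1 T.2.2 Y2 ∧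
            A1 * ml j < (Y1.length : ℝ)} = 0 := by
          have : {T : PT | gl T Y1 Y2 ∈ GP R j η κ a m c u e k ∧ CutPP j a m η T.1 Y1 T.2.1 T.2.2 Y2 ∧
              A1 * ml j < (Y1.length : ℝ)} = ∅ := by
            ext T
            simp only [Set.mem_ofPred_eq, Set.mem_empty_iff_false, iff_false]
            exact fun h => hne ⟨T, h⟩
          rw [this, gp_empty]
        rw [h0, mul_zero]
        exact zero_le
  have h2 : ENNReal.ofReal ((κ * Ub j) ^ 2 / 2) * gp GG ≤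
      ENNReal.ofReal (K0 * (4 ^ j * Ub j / ml j) * B * ((C5 * Ub j) ^ 2 / A1 * (C3 * 2 ^ (25 / 24 * (j : ℝ))))) := by
    refine key.trans ?_
    rw [ENNReal.ofReal_mul (by positivity : (0 : ℝ) ≤ K0 * (4 ^ j * Ub j / ml j) * B)]
    refine mul_le_mul_right ?_ (ENNReal.ofReal (K0 * (4 ^ j * Ub j / ml j) * B))
    calc (∑' Y : List Bool, y Y) * ∑' Y : List Bool, z Y
        ≤ (ENNReal.ofReal (C5 * Ub j / A1) * Xb j) * (ENNReal.ofReal (C5 * Ub j) * Xb j) := mul_le_mul' hys hzs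
      _ = ENNReal.ofReal ((C5 * Ub j) ^ 2 / A1) * Xb j ^ 2 := by
          rw [show (C5 * Ub j) ^ 2 / A1 = C5 * Ub j / A1 * (C5 * Ub j) by ring,
            ENNReal.ofReal_mul (p := C5 * Ub j / A1) (by positivity), pow_two, mul_mul_mul_comm]
      _ ≤ ENNReal.ofReal ((C5 * Ub j) ^ 2 / A1) * ENNReal.ofReal (C3 * 2 ^ (25 / 24 * (j : ℝ))) := mul_le_mul_right (hX j) _
      _ = _ := by rw [← ENNReal.ofReal_mul (by positivity)]
  have h3 : gp GG ≤ ENNReal.ofReal (K0 * (4 ^ j * Ub j / ml j) * B * ((C5 * Ub j) ^ 2 / A1 *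
      (C3 * 2 ^ (25 / 24 * (j : ℝ)))) / ((κ * Ub j) ^ 2 / 2)) := by
    have hp : 0 < (κ * Ub j) ^ 2 / 2 := by positivity
    rw [ENNReal.ofReal_div_of_pos hp, ENNReal.le_div_iff_mul_le (Or.inl (ENNReal.ofReal_pos.2 hp).ne') (Or.inl ENNReal.ofReal_ne_top),
      mul_comm]
    exact h2
  refine h3.trans (ENNReal.ofReal_le_ofReal ?_)
  have h4 := numP hC3 hC4 hκ hC5p hKp (fun k => (hU k).2) R j hRj
  rw [← hB] at h4
  calc K0 * (4 ^ j * Ub j / ml j) * B * ((C5 * Ub j) ^ 2 / A1 * (C3 * 2 ^ (25 / 24 * (j : ℝ)))) / ((κ * Ub j) ^ 2 / 2)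
      = 2 / A1 * (K0 * (4 ^ j * Ub j / ml j) * B * ((C5 * Ub j) ^ 2 * (C3 * 2 ^ (25 / 24 * (j : ℝ)))) / (κ * Ub j) ^ 2) := by
        field_simp
    _ ≤ 2 / A1 * ((K0 * C5 ^ 2 * C3 * C4 / κ ^ 2) * pr3 R j) := mul_le_mul_of_nonneg_left h4 (by positivity)
    _ = 2 * (K0 * C5 ^ 2 * C3 * C4 / κ ^ 2) / A1 * pr3 R j := by ring

end RMP

end HexObs
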