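import Pool.Agent.RMP.NFPZ
import Pool.Agent.ARM.LMass
import Pool.Agent.ARM.YBadW

/-!
# RM, row LenP (helper29): long tips behind good cuts

* **`lenP`** : many cuts of the level j with good tips on both sides, such that the part behind them has more than A1 ml j
  letters, are rare (double counting, first moment of the length).
-/

set_option autoImplicit false

namespace HexObs

namespace RMP

open Finset TS SDN HexObs.SIM NTA TIP TIP.Nf ARM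

open scoped ENNReal

/-- the mass of the long parts behind a good tip -/
lemma len_long {η : ℝ} {m : ℕ} (hη : 0 < η) : ∃ C : ℝ, 0 < C ∧ ∀ (j : ℕ) (A1 : ℝ), 0 < A1 →
    gf {Y | Y ∈ SA ∧ rev Y ∈ GT j η ∧ In (2 ^ (j + m)) Y ∧ A1 * ml j < (Y.length : ℝ)} ≤
      ENNReal.ofReal (C / A1 * Ub j) * Xb j := by
  obtain ⟨C, hC, h⟩ := yMassJ η 1 hη
  obtain ⟨M, hM⟩ : ∃ M : ℝ, M = C ^ (m + 1) * (2 : ℝ) ^ ((4 / 3 : ℝ) * (m : ℝ)) := ⟨_, rfl⟩
  have hC0 : 0 < C := by linarith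
  have hM0 : 0 < M := by rw [hM]; positivity
  refine ⟨M, hM0, fun j A1 hA => ?_⟩
  have hU := TS.Ub_pos j
  have hml := ml_pos j
  have hmm := ml_pos (j + m)
  have e0 : ml (j + m) = (2 : ℝ) ^ ((4 / 3 : ℝ) * (m : ℝ)) * ml j := ml_add j m
  obtain ⟨w, hw⟩ : ∃ w : ℝ, w = A1 * ml j / ml (j + m) := ⟨_, rfl⟩
  have hw0 : 0 < w := by rw [hw]; positivity
  obtain ⟨y, hy⟩ : ∃ y : ℕ, y = ⌈A1 * ml j⌉₊ := ⟨_, rfl⟩
  have hy1 : A1 * ml j ≤ (y : ℝ) := by rw [hy]; exact Nat.le_ceil _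
  have h1 := mass_len (P := {Y : List Bool | Y ∈ SA ∧ rev Y ∈ GT j η ∧ In (2 ^ (j + m)) Y}) (q := 1) (y := y) hmm (h j m)
  refine (gf_mono ?_).trans (h1.trans ?_)
  · rintro Y ⟨y1, y2, y3, y4⟩
    refine ⟨⟨y1, y2, y3⟩, ?_⟩
    rw [hy]
    exact Nat.ceil_le.2 y4.le
  · rw [← mul_assoc, ← ENNReal.ofReal_mul (by positivity)]
    refine mul_le_mul' (ENNReal.ofReal_le_ofReal ?_) le_rfl
    have h2 : (((1 : ℝ) + (y : ℝ) / ml (j + m)) ^ 1)⁻¹ ≤ w⁻¹ := by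
      refine inv_anti₀ hw0 ?_
      rw [pow_one, hw]
      have h3 : A1 * ml j / ml (j + m) ≤ (y : ℝ) / ml (j + m) := div_le_div_of_nonneg_right hy1 hmm.le
      linarith
    calc (((1 : ℝ) + (y : ℝ) / ml (j + m)) ^ 1)⁻¹ * (C ^ (m + 1) * Ub j) ≤ w⁻¹ * (C ^ (m + 1) * Ub j) :=
          mul_le_mul_of_nonneg_right h2 (by positivity)
      _ = M / A1 * Ub j := by
          rw [hw, e0, hM]
          field_simp

open Classical in
/-- **row LenP** -/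
theorem lenP (η κ ε : ℝ) (m : ℕ) (hη : 0 < η) (hκ : 0 < κ) (hε : 0 < ε) : ∃ A1 : ℝ, 0 < A1 ∧ ∀ (D : ℝ) (R j : ℕ), 1 ≤ D →
    HF3 D R j → gp {T | T ∈ P3 R j ∧ κ * Ub j ≤ ({Y : List Bool | rev Y ∈ GT j η ∧ In (2 ^ (j + m)) Y ∧
      A1 * ml j < (Y.length : ℝ) ∧ ∃ A, A ∈ GT j η ∧ T.1 = A ++ Y}.ncard : ℝ)} ≤ ENNReal.ofReal (ε * D * pr3 R j) := by
  obtain ⟨C, hC, hL⟩ := len_long (m := m) hη
  obtain ⟨C1, hC1, hE⟩ := exP η m hη
  refine ⟨C1 * C / (κ * ε), by positivity, fun D R j hD hF => ?_⟩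
  obtain ⟨A1, hA1⟩ : ∃ A1 : ℝ, A1 = C1 * C / (κ * ε) := ⟨_, rfl⟩
  have hA10 : 0 < A1 := by rw [hA1]; positivity
  have hU := TS.Ub_pos j
  have hp := (pr3_pos R j).le
  have hD0 : 0 ≤ D := by linarith
  obtain ⟨ρ, hρ⟩ : ∃ ρ : (Pt × Pt) × List Bool → List Bool → List Bool → Prop,
    ρ = fun _ A Y => A ∈ GT j η ∧ rev Y ∈ GT j η ∧ A1 * ml j < (Y.length : ℝ) := ⟨_, rfl⟩
  have h1 := hE D R j j j hD hF le_rfl le_rfl ρ (ENNReal.ofReal (C / A1 * Ub j) * Xb j) (κ * Ub j)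
    (fun G A Y h => by rw [hρ] at h; exact h.1) (fun G A => ?_) (by positivity)
  · have h2 := cancelF (by positivity) (by positivity) h1
    refine (gp_mono ?_).trans (h2.trans (ENNReal.ofReal_le_ofReal ?_))
    · rintro T ⟨hT, hT2⟩
      refine ⟨hT, ?_⟩
      rw [← hA1] at hT2
      refine hT2.trans ?_
      have e : {Y : List Bool | rev Y ∈ GT j η ∧ In (2 ^ (j + m)) Y ∧ A1 * ml j < (Y.length : ℝ) ∧
          ∃ A, A ∈ GT j η ∧ T.1 = A ++ Y} = {Y : List Bool | ∃ A, T.1 = A ++ Y ∧ ρ T.2 A Y ∧ In (2 ^ (j + m)) Y} := by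
        ext Y
        rw [hρ]
        constructor
        · rintro ⟨y1, y2, y3, A, a1, a2⟩
          exact ⟨A, a2, ⟨a1, y1, y3⟩, y2⟩
        · rintro ⟨A, a2, ⟨a1, y1, y3⟩, y2⟩
          exact ⟨y1, y2, y3, A, a1, a2⟩
      rw [e]
      exact le_rfl
    · rw [div_le_iff₀ (by positivity)]
      refine le_of_eq ?_
      rw [hA1]
      field_simp
  · refine (gf_mono ?_).trans (hL j A1 hA10)
    rintro Y ⟨y1, y2, y3⟩
    rw [hρ] at y1
    exact ⟨SA_suf y3.1, y1.2.1, y2, y1.2.2⟩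

end RMP

end HexObs
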