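import Pool.Agent.RMP.LimA
import Pool.Agent.RMP.PubW

/-!
# The renormalisation map in the scaling limit, assembly 2 (helper83): one pair of walks
-/

set_option autoImplicit false

open MeasureTheory Filter Topology Finset
open scoped Classical

namespace Pool.Agent.RMP

open Pool.Agent.NTS.Res

open NTSF (size_pos integral_law)

/-! ### 1. The cut-off and the distance -/

lemma sm_nonneg (δ x : ℝ) : 0 ≤ sm δ x := le_max_left _ _

lemma sm_le (δ x : ℝ) : sm δ x ≤ 1 := max_le zero_le_one (min_le_left _ _)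

lemma sm_zero {δ x : ℝ} (hδ : 0 < δ) (h : x ≤ δ) : sm δ x = 0 := by
  unfold sm
  have : x / δ ≤ 1 := div_le_one_of_le₀ h hδ.le
  rw [min_eq_right (by linarith), max_eq_left (by linarith)]

lemma sm_one {δ x : ℝ} (hδ : 0 < δ) (h : 2 * δ ≤ x) : sm δ x = 1 := by
  unfold sm
  have : 2 ≤ x / δ := (le_div_iff₀ hδ).2 h
  rw [min_eq_left (by linarith), max_eq_right zero_le_one]

lemma mind_bdd (α β : ℝ) (a b : C(unitInterval, ℂ)) (z : ℂ) :
    BddBelow (Set.range fun p : unitInterval × unitInterval => ‖(α : ℂ) * (a p.1 - a 1) - (z + (β : ℂ) * (b p.2 - b 1))‖) :=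
  ⟨0, by rintro _ ⟨p, rfl⟩; exact norm_nonneg _⟩

/-- the difference of the two points -/
lemma mind_pt {n m l : ℕ} (hm : 1 ≤ m) (hl : 1 ≤ l) (a : Fin m → Fin 3) (b : Fin l → Fin 3) {p : ℤ × ℤ} {σ : ℝ}
    (hσ : sgv p = (σ : ℂ)) (u v : unitInterval) :
    ((size m / size n : ℝ) : ℂ) * (curve a u - curve a 1) - ((bpos p b l - pos a m) / size n +
      ((size l / size n : ℝ) : ℂ) * ((σ • curve b) v - (σ • curve b) 1)) =
      (Pl a (u * m) - (zv p + σ * Pl b (v * l))) / size n := by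
  have sm := size_pos hm
  have sl := size_pos hl
  have e1 : ((size m / size n : ℝ) : ℂ) * (curve a u - curve a 1) = (Pl a (u * m) - pos a m) / size n := by
    rw [curve_Pl, curve_one]
    push_cast
    have : ((size m : ℝ) : ℂ) ≠ 0 := by exact_mod_cast sm.ne'
    field_simp
  have e2 : ((size l / size n : ℝ) : ℂ) * ((σ • curve b) v - (σ • curve b) 1) = σ * (Pl b (v * l) - pos b l) / size n := by
    show ((size l / size n : ℝ) : ℂ) * ((σ : ℂ) * curve b v - (σ : ℂ) * curve b 1) = _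
    rw [curve_Pl, curve_one]
    push_cast
    have : ((size l : ℝ) : ℂ) ≠ 0 := by exact_mod_cast sl.ne'
    field_simp
  rw [e1, e2]
  unfold bpos
  rw [hσ]
  ring

/-- a common vertex -/
lemma mind_zero {n m l : ℕ} (hm : 1 ≤ m) (hl : 1 ≤ l) (a : Fin m → Fin 3) (b : Fin l → Fin 3) {p : ℤ × ℤ} {σ : ℝ}
    (hσ : sgv p = (σ : ℂ)) {i j : ℕ} (hi : i ≤ m) (hj : j ≤ l) (h : pos a i = bpos p b j) :
    mind (size m / size n) (size l / size n) (curve a) (σ • curve b) ((bpos p b l - pos a m) / size n) ≤ 0 := by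
  have m0 : (0 : ℝ) < m := by exact_mod_cast hm
  have l0 : (0 : ℝ) < l := by exact_mod_cast hl
  have hi' : (i : ℝ) ≤ m := by exact_mod_cast hi
  have hj' : (j : ℝ) ≤ l := by exact_mod_cast hj
  refine (ciInf_le (mind_bdd _ _ _ _ _) (⟨(i : ℝ) / m, by positivity, div_le_one_of_le₀ hi' m0.le⟩,
    ⟨(j : ℝ) / l, by positivity, div_le_one_of_le₀ hj' l0.le⟩)).trans (le_of_eq ?_)
  rw [mind_pt hm hl a b hσ]
  have e1 : (i : ℝ) / m * m = ((i : ℕ) : ℝ) := by field_simp
  have e2 : (j : ℝ) / l * l = ((j : ℕ) : ℝ) := by field_simp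
  show ‖(Pl a ((i : ℝ) / m * m) - (zv p + σ * Pl b ((j : ℝ) / l * l))) / (size n : ℂ)‖ = 0
  rw [e1, e2, Pl_nat a hi, Pl_nat b hj, h]
  unfold bpos
  rw [hσ, sub_self, zero_div, norm_zero]

/-- vertices at distance more than `q` -/
lemma mind_low {n m l : ℕ} (hn : 1 ≤ n) (hm : 1 ≤ m) (hl : 1 ≤ l) (a : Fin m → Fin 3) (b : Fin l → Fin 3) {p : ℤ × ℤ} {σ q : ℝ}
    (hσ : sgv p = (σ : ℂ)) (hσ1 : |σ| = 1) (h : ∀ i j : ℕ, i ≤ m → j ≤ l → q < ‖pos a i - bpos p b j‖) :
    (q - 2) / size n ≤ mind (size m / size n) (size l / size n) (curve a) (σ • curve b) ((bpos p b l - pos a m) / size n) := by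
  have sn := size_pos hn
  refine le_ciInf fun uv => ?_
  obtain ⟨u, v⟩ := uv
  rw [mind_pt hm hl a b hσ, norm_div, Complex.norm_of_nonneg sn.le]
  refine div_le_div_of_nonneg_right ?_ sn.le
  have near : ∀ {k : ℕ} (s : Fin k → Fin 3) (w : unitInterval), ∃ i, i ≤ k ∧ ‖Pl s (w * k) - pos s i‖ ≤ 1 := by
    intro k s w
    have w0 := w.2.1
    have w1 := w.2.2
    have k0 : (0 : ℝ) ≤ k := Nat.cast_nonneg _
    have x0 : 0 ≤ (w : ℝ) * k := mul_nonneg w0 k0
    have x1 : (w : ℝ) * k ≤ k := mul_le_of_le_one_left k0 w1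
    have f1 := Nat.floor_le x0
    have f2 := Nat.lt_floor_add_one ((w : ℝ) * k)
    have fk : ⌊(w : ℝ) * k⌋₊ ≤ k := by
      have : ((⌊(w : ℝ) * k⌋₊ : ℕ) : ℝ) ≤ k := f1.trans x1
      exact_mod_cast this
    refine ⟨⌊(w : ℝ) * k⌋₊, fk, ?_⟩
    rw [← Pl_nat s fk]
    refine Pl_close s x0 (Nat.cast_nonneg _) ?_
    rw [min_eq_left x1, min_eq_left (f1.trans x1), abs_le]
    constructor <;> linarith
  obtain ⟨i, hi, h1⟩ := near a u
  obtain ⟨j, hj, h2⟩ := near b v
  have h3 := h i j hi hj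
  have e : Pl a (u * m) - (zv p + σ * Pl b (v * l)) = (pos a i - bpos p b j) + (Pl a (u * m) - pos a i) -
      σ * (Pl b (v * l) - pos b j) := by
    unfold bpos
    rw [hσ]
    ring
  have h4 : ‖(σ : ℂ) * (Pl b (v * l) - pos b j)‖ ≤ 1 := by
    rw [norm_mul, Complex.norm_real, Real.norm_eq_abs, hσ1, one_mul]
    exact h2
  have h5 : ‖pos a i - bpos p b j‖ ≤ ‖Pl a (u * m) - (zv p + σ * Pl b (v * l))‖ + 1 + 1 := by
    have e2 : pos a i - bpos p b j = (Pl a (u * m) - (zv p + σ * Pl b (v * l))) - (Pl a (u * m) - pos a i) +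
        σ * (Pl b (v * l) - pos b j) := by
      rw [e]
      ring
    rw [e2]
    refine (norm_add_le _ _).trans (add_le_add ((norm_sub_le _ _).trans (add_le_add le_rfl h1)) h4)
  linarith

/-! ### 2. One place -/

lemma sgv_cases (p : ℤ × ℤ) : ∃ σ : ℝ, (σ = 1 ∨ σ = -1) ∧ sgv p = (σ : ℂ) := by
  unfold sgv
  by_cases h : (p.1 + p.2) % 3 = 0
  · exact ⟨1, Or.inl rfl, by rw [if_pos h]; simp⟩
  · exact ⟨-1, Or.inr rfl, by rw [if_neg h]; simp⟩

/-- the two classes together -/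
noncomputable def tt (δ : ℝ) (n : ℕ) {m l : ℕ} (a : Fin m → Fin 3) (b : Fin l → Fin 3) (R : ℝ) (g : ℝ → ℝ) (p : ℤ × ℤ) : ℝ :=
  g 1 * term δ n a b R 1 p + g (-1) * term δ n a b R (-1) p

lemma tt_eq (δ : ℝ) (n : ℕ) {m l : ℕ} (a : Fin m → Fin 3) (b : Fin l → Fin 3) (R : ℝ) (g : ℝ → ℝ) {p : ℤ × ℤ} {σ : ℝ}
    (h : σ = 1 ∨ σ = -1) (hσ : sgv p = (σ : ℂ)) : tt δ n a b R g p = g σ * term δ n a b R σ p := by
  unfold tt
  have h1 : ((1 : ℝ) : ℂ) ≠ ((-1 : ℝ) : ℂ) := by
    intro h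
    have := Complex.ofReal_injective h
    norm_num at this
  rcases h with rfl | rfl
  · have e : term δ n a b R (-1) p = 0 := by
      unfold term
      rw [if_neg]
      rintro ⟨-, h2, -⟩
      rw [hσ] at h2
      exact h1 h2
    rw [e, mul_zero, add_zero]
  · have e : term δ n a b R 1 p = 0 := by
      unfold term
      rw [if_neg]
      rintro ⟨-, h2, -⟩
      rw [hσ] at h2
      exact h1 h2.symm
    rw [e, mul_zero, zero_add]

/-- **one place** -/
lemma place {n m l : ℕ} (hn : 1 ≤ n) (hm : 1 ≤ m) (hl : 1 ≤ l) (a : Fin m → Fin 3) (b : Fin l → Fin 3) (p : ℤ × ℤ) {δ R : ℝ}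
    (hδ : 0 < δ) (hδn : 2 ≤ δ * size n) {F : C(unitInterval, ℂ) → ℝ} (h0 : ∀ γ, 0 ≤ F γ ∧ F γ ≤ 1) {L : NNReal}
    (hF : LipschitzWith L F) :
    |(if Nears a b p R then F (gcurve n a b p) else 0) - tt δ n a b R (fun σ =>
      F (conc ((m : ℝ) / ((m + l + 1 : ℕ) : ℝ)) (size m / size n) (size l / size n) (curve a) (σ • curve b))) p| ≤
      L * ((R + 1) / size n) * (if Nears a b p R then 1 else 0) +
        if Nears a b p R ∧ ∃ i j : ℕ, i ≤ m ∧ j ≤ l ∧ ‖pos a i - bpos p b j‖ ≤ 3 * δ * size n then (1 : ℝ) else 0 := by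
  have sn := size_pos hn
  obtain ⟨σ, hσ1, hσ⟩ := sgv_cases p
  have hσa : |σ| = 1 := by
    rcases hσ1 with rfl | rfl <;> simp
  rw [tt_eq δ n a b R _ hσ1 hσ]
  obtain ⟨X, hX⟩ : ∃ X, X = F (conc ((m : ℝ) / ((m + l + 1 : ℕ) : ℝ)) (size m / size n) (size l / size n) (curve a)
    (σ • curve b)) := ⟨_, rfl⟩
  have hX0 : 0 ≤ X := hX ▸ (h0 _).1
  have hX1 : X ≤ 1 := hX ▸ (h0 _).2
  show |_ - F (conc ((m : ℝ) / ((m + l + 1 : ℕ) : ℝ)) (size m / size n) (size l / size n) (curve a) (σ • curve b)) *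
    term δ n a b R σ p| ≤ _
  rw [← hX]
  by_cases hN : Nears a b p R
  · rw [if_pos hN, if_pos hN, mul_one]
    have hG : |F (gcurve n a b p) - X| ≤ L * ((R + 1) / size n) := by
      have h1 := hF.dist_le_mul (gcurve n a b p) (conc ((m : ℝ) / ((m + l + 1 : ℕ) : ℝ)) (size m / size n) (size l / size n)
        (curve a) (σ • curve b))
      rw [Real.dist_eq, ← hX, dist_eq_norm] at h1
      refine h1.trans (mul_le_mul_of_nonneg_left (gcurve_conc hn hm hl a b ?_ hσ hσa) L.2)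
      rw [norm_sub_rev]
      exact hN.2.1
    have ht0 : 0 ≤ term δ n a b R σ p := by
      unfold term
      split_ifs
      · exact sm_nonneg _ _
      · exact le_rfl
    have ht1 : term δ n a b R σ p ≤ 1 := by
      unfold term
      split_ifs
      · exact sm_le _ _
      · exact zero_le_one
    have e : F (gcurve n a b p) - X * term δ n a b R σ p = (F (gcurve n a b p) - X) + X * (1 - term δ n a b R σ p) := by ring
    rw [e]
    refine (abs_add_le _ _).trans (add_le_add hG ?_)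
    rw [abs_mul, abs_of_nonneg hX0, abs_of_nonneg (by linarith)]
    by_cases hT : ∃ i j : ℕ, i ≤ m ∧ j ≤ l ∧ ‖pos a i - bpos p b j‖ ≤ 3 * δ * size n
    · rw [if_pos ⟨hN, hT⟩]
      have := mul_le_mul hX1 (by linarith : 1 - term δ n a b R σ p ≤ 1) (by linarith) zero_le_one
      linarith
    · rw [if_neg fun h => hT h.2]
      have h1 : term δ n a b R σ p = 1 := by
        unfold term
        rw [if_pos ⟨hN.1, hσ, by rw [norm_sub_rev]; exact hN.2.1⟩]
        refine sm_one hδ (le_trans ?_ (mind_low hn hm hl a b hσ hσa (q := 3 * δ * size n) fun i j hi hj => ?_))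
        · rw [le_div_iff₀ sn]
          linarith
        · by_contra hcon
          exact hT ⟨i, j, hi, hj, not_lt.1 hcon⟩
      rw [h1, sub_self, mul_zero]
  · rw [if_neg hN, if_neg hN, if_neg fun h => hN h.1, mul_zero, add_zero, zero_sub, abs_neg]
    have h1 : term δ n a b R σ p = 0 := by
      unfold term
      split_ifs with h
      · have h2 : ∃ i j : ℕ, i ≤ m ∧ j ≤ l ∧ pos a i = bpos p b j := by
          by_contra hcon
          push Not at hcon
          exact hN ⟨h.1, by rw [norm_sub_rev]; exact h.2.2, hcon⟩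
        obtain ⟨i, j, hi, hj, h3⟩ := h2
        exact sm_zero hδ ((mind_zero hm hl a b hσ hi hj h3).trans hδ.le)
      · rfl
    rw [h1, mul_zero, abs_zero]

end Pool.Agent.RMP
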