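import Pool.Agent.RMP.LimB

/-!
# The renormalisation map in the scaling limit, assembly 3 (helper83): the sums over the places and the walks
-/

set_option autoImplicit false

open MeasureTheory Filter Topology Finset
open scoped Classical

namespace Pool.Agent.RMP

open Pool.Agent.NTS.Res

open NTSF (size_pos integral_law)

/-- finitely many places -/
lemma fin_place {m l : ℕ} (a : Fin m → Fin 3) (b : Fin l → Fin 3) (R : ℝ) : {p : ℤ × ℤ | ‖bpos p b l - pos a m‖ ≤ R}.Finite := by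
  refine Set.Finite.subset ((W.SR_fin (R + ‖pos a m‖ + ‖pos b l‖)).image W.pp) fun p hp => ?_
  have hp' : ‖bpos p b l - pos a m‖ ≤ R := hp
  refine ⟨(-p.2, p.1), ?_, ?_⟩
  · have e : W.pp (-p.2, p.1) = p := by
      unfold W.pp
      rw [neg_neg]
    show ‖NTF.JJ (-p.2, p.1)‖ ≤ _
    rw [← W.zv_pp, e]
    have h1 : zv p = (bpos p b l - pos a m) + pos a m - sgv p * pos b l := by
      unfold bpos
      ring
    have h2 : ‖sgv p * pos b l‖ = ‖pos b l‖ := by
      rw [norm_mul]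
      unfold sgv
      split_ifs <;> simp
    rw [h1]
    refine (norm_sub_le _ _).trans (add_le_add ((norm_add_le _ _).trans (add_le_add hp' le_rfl)) h2.le)
  · unfold W.pp
    rw [neg_neg]

/-- the finite set of the places -/
noncomputable def pls {m l : ℕ} (a : Fin m → Fin 3) (b : Fin l → Fin 3) (R : ℝ) : Finset (ℤ × ℤ) := (fin_place a b R).toFinset

lemma mem_pls {m l : ℕ} {a : Fin m → Fin 3} {b : Fin l → Fin 3} {R : ℝ} {p : ℤ × ℤ} :
    p ∈ pls a b R ↔ ‖bpos p b l - pos a m‖ ≤ R := by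
  unfold pls
  rw [Set.Finite.mem_toFinset]
  rfl

/-- the sum over the places -/
lemma tsum_pls {m l : ℕ} (a : Fin m → Fin 3) (b : Fin l → Fin 3) (R : ℝ) {f : ℤ × ℤ → ℝ}
    (h : ∀ p, f p ≠ 0 → ‖bpos p b l - pos a m‖ ≤ R) : ∑' p, f p = ∑ p ∈ pls a b R, f p :=
  tsum_eq_sum fun p hp => by
    by_contra h1
    exact hp (mem_pls.2 (h p h1))

/-- the functional of one pair of walks -/
noncomputable def Fc (F : C(unitInterval, ℂ) → ℝ) (n m l : ℕ) (a b : C(unitInterval, ℂ)) (σ : ℝ) : ℝ :=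
  F (conc ((m : ℝ) / ((m + l + 1 : ℕ) : ℝ)) (size m / size n) (size l / size n) a (σ • b))

/-- **one pair of walks** -/
lemma pair_sum {n m l : ℕ} (hn : 1 ≤ n) (hm : 1 ≤ m) (hl : 1 ≤ l) (a : Fin m → Fin 3) (b : Fin l → Fin 3) {δ R : ℝ}
    (hδ : 0 < δ) (hδn : 2 ≤ δ * size n) {F : C(unitInterval, ℂ) → ℝ} (h0 : ∀ γ, 0 ≤ F γ ∧ F γ ≤ 1) {L : NNReal}
    (hF : LipschitzWith L F) :
    |(∑' p : ℤ × ℤ, if Nears a b p R then F (gcurve n a b p) else 0) -
      (Fc F n m l (curve a) (curve b) 1 * cnt δ n a b R 1 + Fc F n m l (curve a) (curve b) (-1) * cnt δ n a b R (-1))| ≤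
      L * ((R + 1) / size n) * (∑' p : ℤ × ℤ, if Nears a b p R then (1 : ℝ) else 0) + ∑' p : ℤ × ℤ,
        if Nears a b p R ∧ ∃ i j : ℕ, i ≤ m ∧ j ≤ l ∧ ‖pos a i - bpos p b j‖ ≤ 3 * δ * size n then (1 : ℝ) else 0 := by
  have hN : ∀ p, Nears a b p R → ‖bpos p b l - pos a m‖ ≤ R := fun p h => by
    rw [norm_sub_rev]
    exact h.2.1
  have t1 : ∑' p : ℤ × ℤ, (if Nears a b p R then F (gcurve n a b p) else 0) =
      ∑ p ∈ pls a b R, if Nears a b p R then F (gcurve n a b p) else 0 :=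
    tsum_pls a b R fun p h => hN p (by
      by_contra hcon
      exact h (if_neg hcon))
  have t2 : ∑' p : ℤ × ℤ, (if Nears a b p R then (1 : ℝ) else 0) = ∑ p ∈ pls a b R, if Nears a b p R then (1 : ℝ) else 0 :=
    tsum_pls a b R fun p h => hN p (by
      by_contra hcon
      exact h (if_neg hcon))
  have t3 : ∑' p : ℤ × ℤ, (if Nears a b p R ∧ ∃ i j : ℕ, i ≤ m ∧ j ≤ l ∧ ‖pos a i - bpos p b j‖ ≤ 3 * δ * size n then (1 : ℝ) else 0) =
      ∑ p ∈ pls a b R, if Nears a b p R ∧ ∃ i j : ℕ, i ≤ m ∧ j ≤ l ∧ ‖pos a i - bpos p b j‖ ≤ 3 * δ * size n then (1 : ℝ) else 0 :=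
    tsum_pls a b R fun p h => hN p (by
      by_contra hcon
      exact h (if_neg fun h' => hcon h'.1))
  have t4 : ∀ σ : ℝ, cnt δ n a b R σ = ∑ p ∈ pls a b R, term δ n a b R σ p := fun σ =>
    tsum_pls a b R fun p h => by
      by_contra hcon
      refine h ?_
      unfold term
      rw [if_neg fun h' => hcon h'.2.2]
  rw [t1, t2, t3, t4, t4, mul_sum, mul_sum, ← sum_add_distrib, ← sum_sub_distrib, mul_sum, ← sum_add_distrib]
  refine (abs_sum_le_sum_abs _ _).trans (sum_le_sum fun p _ => ?_)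
  exact place hn hm hl a b p hδ hδn h0 hF

/-- the mean over the pairs of walks of the smooth counts -/
noncomputable def AA (δ : ℝ) (n : ℕ) (R : ℝ) (F : C(unitInterval, ℂ) → ℝ) (m l : ℕ) : ℝ :=
  (∑ a ∈ saw m, ∑ b ∈ saw l, (Fc F n m l (curve a) (curve b) 1 * cnt δ n a b R 1 +
    Fc F n m l (curve a) (curve b) (-1) * cnt δ n a b R (-1))) / (((saw m).card : ℝ) * (saw l).card)

/-- **the sum over the pairs of walks** -/
theorem psum_AA {n k : ℕ} (hk : 1 ≤ k) (hkn : k + 1 ≤ n) {d : ℝ} (hd : 0 ≤ d) {δ R : ℝ}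
    (hδ : 0 < δ) (hδn : 2 ≤ δ * size n) {F : C(unitInterval, ℂ) → ℝ} (h0 : ∀ γ, 0 ≤ F γ ∧ F γ ≤ 1) {L : NNReal}
    (hF : LipschitzWith L F) :
    |psum n k d R F - ∑ m ∈ win d k, ∑ l ∈ win d (n - k), AA δ n R F m l| ≤
      L * ((R + 1) / size n) * psum n k d R (fun _ => 1) + ntsum n k d R (3 * δ * size n) := by
  unfold psum ntsum
  rw [← sum_sub_distrib, mul_sum, ← sum_add_distrib]
  refine (abs_sum_le_sum_abs _ _).trans (sum_le_sum fun m hm => ?_)
  rw [← sum_sub_distrib, mul_sum, ← sum_add_distrib]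
  refine (abs_sum_le_sum_abs _ _).trans (sum_le_sum fun l hl => ?_)
  have m1 : 1 ≤ m := hk.trans ((W.mem_win hd).1 hm).1
  have l1 : 1 ≤ l := le_trans (by omega) ((W.mem_win hd).1 hl).1
  have hc : 0 < ((saw m).card : ℝ) * (saw l).card := mul_pos (NTSF.saw_card_pos m) (NTSF.saw_card_pos l)
  unfold AA
  rw [← sub_div, abs_div, abs_of_pos hc, ← mul_div_assoc, ← add_div]
  refine div_le_div_of_nonneg_right ?_ hc.le
  rw [← sum_sub_distrib, mul_sum, ← sum_add_distrib]
  refine (abs_sum_le_sum_abs _ _).trans (sum_le_sum fun a _ => ?_)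
  rw [← sum_sub_distrib, mul_sum, ← sum_add_distrib]
  refine (abs_sum_le_sum_abs _ _).trans (sum_le_sum fun b _ => ?_)
  exact pair_sum (by omega) m1 l1 a b hδ hδn h0 hF

/-- the double integral -/
noncomputable def II (F : C(unitInterval, ℂ) → ℝ) (δ t r α β : ℝ) (μ μ' : Measure C(unitInterval, ℂ)) : ℝ :=
  ∫ a, ∫ b, F (conc t α β a b) * gint δ r α β a b ∂μ' ∂μ

lemma conc_neg (t α β : ℝ) (a b : C(unitInterval, ℂ)) : conc t α β a (-b) = conc t α (-β) a b := by
  ext u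
  show (α : ℂ) * a _ + (β : ℂ) * (-(b _) - -(b 1)) = (α : ℂ) * a _ + ((-β : ℝ) : ℂ) * (b _ - b 1)
  push_cast
  ring

/-- **the mean over the pairs of walks as an integral** -/
theorem AA_int (hC : CNT) (hG : GI) {δ M : ℝ} (hδ : 0 < δ) (hM : 0 < M) : ∃ C : ℝ, 0 < C ∧ ∀ (n m l : ℕ) (R : ℝ), 1 ≤ n → 0 ≤ R →
    R ≤ M * size n → ∀ F : C(unitInterval, ℂ) → ℝ, (∀ γ, 0 ≤ F γ ∧ F γ ≤ 1) →
      |AA δ n R F m l / size n ^ 2 - dens * (II F δ ((m : ℝ) / ((m + l + 1 : ℕ) : ℝ)) (R / size n) (size m / size n) (size l / size n)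
        (law m) (law l) + II F δ ((m : ℝ) / ((m + l + 1 : ℕ) : ℝ)) (R / size n) (size m / size n) (-(size l / size n))
        (law m) (law l))| ≤ C / size n := by
  obtain ⟨C, hC0, h⟩ := hC δ M hδ hM
  refine ⟨2 * C, by positivity, fun n m l R hn hR hRM F h0 => ?_⟩
  have sn := size_pos hn
  have hc1 : 0 < ((saw m).card : ℝ) := NTSF.saw_card_pos m
  have hc2 : 0 < ((saw l).card : ℝ) := NTSF.saw_card_pos l
  have e1 : ∀ β : ℝ, II F δ ((m : ℝ) / ((m + l + 1 : ℕ) : ℝ)) (R / size n) (size m / size n) β (law m) (law l) =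
      (∑ a ∈ saw m, ∑ b ∈ saw l, F (conc ((m : ℝ) / ((m + l + 1 : ℕ) : ℝ)) (size m / size n) β (curve a) (curve b)) *
        gint δ (R / size n) (size m / size n) β (curve a) (curve b)) / (((saw m).card : ℝ) * (saw l).card) := by
    intro β
    unfold II
    rw [integral_law]
    have e : ∀ a : Fin m → Fin 3, ∫ b, F (conc ((m : ℝ) / ((m + l + 1 : ℕ) : ℝ)) (size m / size n) β (curve a) b) *
        gint δ (R / size n) (size m / size n) β (curve a) b ∂(law l) =
        (∑ b ∈ saw l, F (conc ((m : ℝ) / ((m + l + 1 : ℕ) : ℝ)) (size m / size n) β (curve a) (curve b)) *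
          gint δ (R / size n) (size m / size n) β (curve a) (curve b)) / ((saw l).card : ℝ) := fun a => integral_law _
    rw [sum_congr rfl fun a _ => e a, ← sum_div, div_div, mul_comm ((saw l).card : ℝ)]
  rw [e1, e1, ← add_div, ← sum_add_distrib]
  unfold AA
  have hcc : 0 < ((saw m).card : ℝ) * (saw l).card := mul_pos hc1 hc2
  have e2 : ∀ a : Fin m → Fin 3, ∀ b : Fin l → Fin 3, |(Fc F n m l (curve a) (curve b) 1 * cnt δ n a b R 1 +
      Fc F n m l (curve a) (curve b) (-1) * cnt δ n a b R (-1)) / size n ^ 2 - dens *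
      (F (conc ((m : ℝ) / ((m + l + 1 : ℕ) : ℝ)) (size m / size n) (size l / size n) (curve a) (curve b)) *
        gint δ (R / size n) (size m / size n) (size l / size n) (curve a) (curve b) +
      F (conc ((m : ℝ) / ((m + l + 1 : ℕ) : ℝ)) (size m / size n) (-(size l / size n)) (curve a) (curve b)) *
        gint δ (R / size n) (size m / size n) (-(size l / size n)) (curve a) (curve b))| ≤ 2 * C / size n := by
    intro a b
    have hneg : ((-1 : ℝ) • curve b : C(unitInterval, ℂ)) = -curve b := by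
      ext u
      show (-1 : ℝ) • (curve b u) = -curve b u
      simp
    have h1 := h n m l a b R 1 hn hR hRM (Or.inl rfl)
    have h2 := h n m l a b R (-1) hn hR hRM (Or.inr rfl)
    have f1 : Fc F n m l (curve a) (curve b) 1 = F (conc ((m : ℝ) / ((m + l + 1 : ℕ) : ℝ)) (size m / size n) (size l / size n)
        (curve a) (curve b)) := by
      unfold Fc
      rw [one_smul]
    have f2 : Fc F n m l (curve a) (curve b) (-1) = F (conc ((m : ℝ) / ((m + l + 1 : ℕ) : ℝ)) (size m / size n)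
        (-(size l / size n)) (curve a) (curve b)) := by
      unfold Fc
      rw [hneg, conc_neg]
    rw [one_smul] at h1
    rw [hneg, hG.2.2.2.2 δ (R / size n) (size m / size n) (size l / size n) (curve a) (curve b)] at h2
    have g1 := h0 (conc ((m : ℝ) / ((m + l + 1 : ℕ) : ℝ)) (size m / size n) (size l / size n) (curve a) (curve b))
    have g2 := h0 (conc ((m : ℝ) / ((m + l + 1 : ℕ) : ℝ)) (size m / size n) (-(size l / size n)) (curve a) (curve b))
    rw [f1, f2]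
    obtain ⟨x1, hx1⟩ : ∃ x, x = F (conc ((m : ℝ) / ((m + l + 1 : ℕ) : ℝ)) (size m / size n) (size l / size n)
      (curve a) (curve b)) := ⟨_, rfl⟩
    obtain ⟨x2, hx2⟩ : ∃ x, x = F (conc ((m : ℝ) / ((m + l + 1 : ℕ) : ℝ)) (size m / size n) (-(size l / size n))
      (curve a) (curve b)) := ⟨_, rfl⟩
    obtain ⟨y1, hy1⟩ : ∃ y, y = gint δ (R / size n) (size m / size n) (size l / size n) (curve a) (curve b) := ⟨_, rfl⟩
    obtain ⟨y2, hy2⟩ : ∃ y, y = gint δ (R / size n) (size m / size n) (-(size l / size n)) (curve a) (curve b) := ⟨_, rfl⟩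
    rw [← hx1] at g1 ⊢
    rw [← hx2] at g2 ⊢
    rw [← hy1] at h1 ⊢
    rw [← hy2] at h2 ⊢
    have e3 : (x1 * cnt δ n a b R 1 + x2 * cnt δ n a b R (-1)) / size n ^ 2 - dens * (x1 * y1 + x2 * y2) =
        x1 * (cnt δ n a b R 1 / size n ^ 2 - dens * y1) + x2 * (cnt δ n a b R (-1) / size n ^ 2 - dens * y2) := by ring
    rw [e3]
    refine (abs_add_le _ _).trans ?_
    rw [abs_mul, abs_mul, abs_of_nonneg g1.1, abs_of_nonneg g2.1]
    have k1 := mul_le_mul g1.2 h1 (abs_nonneg _) zero_le_one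
    have k2 := mul_le_mul g2.2 h2 (abs_nonneg _) zero_le_one
    have k3 : 2 * C / size n = 1 * (C / size n) + 1 * (C / size n) := by ring
    rw [k3]
    exact add_le_add k1 k2
  rw [div_right_comm, ← mul_div_assoc, ← sub_div, abs_div, abs_of_pos hcc, div_le_iff₀ hcc, sum_div, mul_sum, ← sum_sub_distrib]
  refine (abs_sum_le_sum_abs _ _).trans ?_
  calc ∑ a ∈ saw m, _ ≤ ∑ a ∈ saw m, ∑ b ∈ saw l, 2 * C / size n := by
        refine sum_le_sum fun a _ => ?_
        rw [← sum_add_distrib, sum_div, mul_sum, ← sum_sub_distrib]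
        exact (abs_sum_le_sum_abs _ _).trans (sum_le_sum fun b _ => e2 a b)
    _ = _ := by
        rw [sum_const, sum_const, nsmul_eq_mul, nsmul_eq_mul]
        ring

end Pool.Agent.RMP
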