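import Pool.Agent.RMP.PubDefs

/-!
# The renormalisation map in the scaling limit: the definitions of the statement (helper83)
-/

set_option autoImplicit false

open MeasureTheory Filter Topology
open scoped Classical

namespace Pool.Agent.RMP

open Pool.Agent.NTS.Res

/-- The curve which runs through `α a` up to the time `t` and then, from the end of `α a`, through `β b` backwards. -/
noncomputable def conc (t α β : ℝ) (a b : C(unitInterval, ℂ)) : C(unitInterval, ℂ) where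
  toFun u := (α : ℂ) * a (Set.projIcc 0 1 zero_le_one ((u : ℝ) / t)) +
    (β : ℂ) * (b (Set.projIcc 0 1 zero_le_one ((1 - (u : ℝ)) / (1 - t))) - b 1)
  continuous_toFun := by
    have h1 : Continuous fun u : unitInterval => a (Set.projIcc 0 1 zero_le_one ((u : ℝ) / t)) :=
      a.continuous.comp (continuous_projIcc.comp (by fun_prop))
    have h2 : Continuous fun u : unitInterval => b (Set.projIcc 0 1 zero_le_one ((1 - (u : ℝ)) / (1 - t))) :=
      b.continuous.comp (continuous_projIcc.comp (by fun_prop))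
    fun_prop

/-- The displacements `z` with `‖z‖ ≤ r` for which the curve `α a` with its end at `0` and the curve `β b` with its end at `z`
are disjoint. -/
def gaps (r α β : ℝ) (a b : C(unitInterval, ℂ)) : Set ℂ :=
  {z | ‖z‖ ≤ r ∧ ∀ u v : unitInterval, (α : ℂ) * (a u - a 1) ≠ z + (β : ℂ) * (b v - b 1)}

/-- Two independent curves with the laws `μ x`, `μ y` and the sizes `ρ x`, `ρ y`, with the second end at a uniform displacement
`z`, `‖z‖ ≤ r`, from the first one: the integral of `F` of the joined curve over the disjoint pairs; integrated over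
`x ∈ [s, (1 + d) s]` and `y ∈ [1 - s, (1 + d) (1 - s)]`. -/
noncomputable def rmap (μ : ℝ → Measure C(unitInterval, ℂ)) (ρ : ℝ → ℝ) (s d r : ℝ) (F : C(unitInterval, ℂ) → ℝ) : ℝ :=
  ∫ x in s..(1 + d) * s, ∫ y in (1 - s)..(1 + d) * (1 - s), ∫ a, ∫ b,
    F (conc (x / (x + y)) (ρ x) (ρ y) a b) * (volume (gaps r (ρ x) (ρ y) a b)).toReal ∂(μ y) ∂(μ x)

/-- Along `φ` the laws of the walks with `⌊x φ k⌋` steps converge to `μ x`, and the ratios of the sizes to `ρ x`, `0 < x ≤ 1`. -/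
structure Fam (φ : ℕ → ℕ) (μ : ℝ → Measure C(unitInterval, ℂ)) (ρ : ℝ → ℝ) : Prop where
  top : Tendsto φ atTop atTop
  prob : ∀ x : ℝ, 0 < x → x ≤ 1 → IsProbabilityMeasure (μ x)
  law : ∀ x : ℝ, 0 < x → x ≤ 1 → LawTo (fun k => ⌊x * φ k⌋₊) (μ x)
  size : ∀ x : ℝ, 0 < x → x ≤ 1 → Tendsto (fun k => size ⌊x * φ k⌋₊ / size (φ k)) atTop (𝓝 (ρ x))

/-- **The renormalisation map in the scaling limit**: the bounds `c`, `C` and the rate do not depend on the limit. -/
def RMLim : Prop := ∀ ε : ℝ, 0 < ε → ∃ d0 : ℝ, 0 < d0 ∧ ∀ d : ℝ, 0 < d → d ≤ d0 → ∃ c C r0 : ℝ, 0 < c ∧ 0 < r0 ∧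
  ∀ (φ : ℕ → ℕ) (μ : ℝ → Measure C(unitInterval, ℂ)) (ρ : ℝ → ℝ), Fam φ μ ρ →
    ∀ r s : ℝ, 0 < r → r ≤ r0 → ε ≤ s → s ≤ 1 - ε →
      c * r ^ (59 / 24 : ℝ) ≤ rmap μ ρ s d r (fun _ => 1) ∧ rmap μ ρ s d r (fun _ => 1) ≤ C * r ^ (59 / 24 : ℝ) ∧
      ∀ F : C(unitInterval, ℂ) → ℝ, (∀ γ, 0 ≤ F γ ∧ F γ ≤ 1) → LipschitzWith 1 F →
        |rmap μ ρ s d r F / rmap μ ρ s d r (fun _ => 1) - ∫ γ, F γ ∂(μ 1)| ≤ ε

end Pool.Agent.RMP
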