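import Pool.Agent.RMP.LimDefs

/-!
# The renormalisation map in the scaling limit: the form with one limit (helper83)
-/

set_option autoImplicit false

open MeasureTheory Filter Topology
open scoped Classical

namespace Pool.Agent.RMP

open Pool.Agent.NTS.Res

/-- The curves `a`, `b` have the laws `μ x`, `μ y` and are independent; `z` is uniform with `‖z‖ ≤ r`; the integral over the
disjoint pairs of `F` of the joined curve of `ρ x • a` and `ρ y • b`, divided by `ρ (x + y)`, times `π r ^ 2`. -/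
noncomputable def joint (μ : ℝ → Measure C(unitInterval, ℂ)) (ρ : ℝ → ℝ) (r : ℝ) (F : C(unitInterval, ℂ) → ℝ) (x y : ℝ) : ℝ :=
  ∫ a, ∫ b, F (conc (x / (x + y)) (ρ x / ρ (x + y)) (ρ y / ρ (x + y)) a b) *
    (volume (gaps r (ρ x) (ρ y) a b)).toReal ∂(μ y) ∂(μ x)

/-- **The renormalisation map in the scaling limit, one limit**: `x ∈ [x₁, q x₁]`, `y ∈ [y₁, q y₁]`, `r → 0`. -/
def RMLim2 : Prop := ∀ ε x₁ y₁ q : ℝ, 0 < ε → 0 < x₁ → 0 < y₁ → 1 < q → q * (x₁ + y₁) ≤ 1 → ∃ c C r₀ : ℝ, 0 < c ∧ 0 < r₀ ∧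
  ∀ (φ : ℕ → ℕ) (μ : ℝ → Measure C(unitInterval, ℂ)) (ρ : ℝ → ℝ), Fam φ μ ρ → ∀ r : ℝ, 0 < r → r ≤ r₀ →
    c * r ^ (59 / 24 : ℝ) ≤ (∫ x in x₁..q * x₁, ∫ y in y₁..q * y₁, joint μ ρ r (fun _ => 1) x y) ∧
    (∫ x in x₁..q * x₁, ∫ y in y₁..q * y₁, joint μ ρ r (fun _ => 1) x y) ≤ C * r ^ (59 / 24 : ℝ) ∧
    ∀ F : C(unitInterval, ℂ) → ℝ, (∀ γ, 0 ≤ F γ ∧ F γ ≤ 1) → LipschitzWith 1 F →
      |∫ x in x₁..q * x₁, ∫ y in y₁..q * y₁, (joint μ ρ r F x y - (∫ γ, F γ ∂(μ (x + y))) * joint μ ρ r (fun _ => 1) x y)| ≤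
        ε * ∫ x in x₁..q * x₁, ∫ y in y₁..q * y₁, joint μ ρ r (fun _ => 1) x y

/-! ### rows -/

/-- **row FSC** -/
def FSC : Prop := ∀ (φ : ℕ → ℕ) (μ : ℝ → Measure C(unitInterval, ℂ)) (ρ : ℝ → ℝ), Fam φ μ ρ → ∀ τ : ℝ, 0 < τ → τ ≤ 1 →
  0 < ρ τ ∧ Fam (fun i => ⌊τ * φ i⌋₊) (fun x => μ (τ * x)) (fun x => ρ (τ * x) / ρ τ)

/-- **row FSL** (slow change, the same for all families) -/
def FSL : Prop := ∀ ε : ℝ, 0 < ε → ∃ d : ℝ, 0 < d ∧ ∀ (φ : ℕ → ℕ) (μ : ℝ → Measure C(unitInterval, ℂ)) (ρ : ℝ → ℝ),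
  Fam φ μ ρ → ∀ τ τ' : ℝ, 0 < τ → τ ≤ τ' → τ' ≤ (1 + d) * τ → τ' ≤ 1 → |ρ τ / ρ τ' - 1| ≤ ε ∧
    ∀ F : C(unitInterval, ℂ) → ℝ, (∀ γ, 0 ≤ F γ ∧ F γ ≤ 1) → LipschitzWith 1 F → |∫ γ, F γ ∂(μ τ) - ∫ γ, F γ ∂(μ τ')| ≤ ε

/-- **row FBD** (the curves are bounded, the same for all families; bounds of `ρ`) -/
def FBD : Prop := (∀ ε : ℝ, 0 < ε → ∃ e : ℝ, 0 < e ∧ ∀ (φ : ℕ → ℕ) (μ : ℝ → Measure C(unitInterval, ℂ)) (ρ : ℝ → ℝ), Fam φ μ ρ →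
  ∀ τ : ℝ, 0 < τ → τ ≤ 1 → ∫ γ, min 1 (e * ‖γ‖) ∂(μ τ) ≤ ε) ∧
  ∃ c C : ℝ, 0 < c ∧ ∀ (φ : ℕ → ℕ) (μ : ℝ → Measure C(unitInterval, ℂ)) (ρ : ℝ → ℝ), Fam φ μ ρ → ∀ τ : ℝ, 0 < τ → τ ≤ 1 →
    c * τ ^ (3 / 4 : ℝ) ≤ ρ τ ∧ ρ τ ≤ C * τ ^ (3 / 4 : ℝ)

end Pool.Agent.RMP
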