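import Pool.Agent.RMP.LimD
import Pool.Agent.RMP.PubZ

/-!
# The renormalisation map in the scaling limit, assembly 5 (helper83): the limit for a fixed cut-off
-/

set_option autoImplicit false

open MeasureTheory Filter Topology Finset
open scoped Classical

namespace Pool.Agent.RMP

open Pool.Agent.NTS.Res

open NTSF (size_pos integral_law)

lemma size_bds : ∃ c0 C0 : ℝ, 0 < c0 ∧ c0 ≤ C0 ∧ ∀ n : ℕ, 1 ≤ n → c0 * (n : ℝ) ^ (3 / 4 : ℝ) ≤ size n ∧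
    size n ≤ C0 * (n : ℝ) ^ (3 / 4 : ℝ) := by
  obtain ⟨c0, C0, hc0, hsz⟩ := (NTSF.conclE_false NTSF.finE).1
  refine ⟨c0, C0, hc0, ?_, hsz⟩
  have h1 := hsz 1 le_rfl
  rw [Nat.cast_one, Real.one_rpow, mul_one, mul_one] at h1
  exact h1.1.trans h1.2

lemma size_top {φ : ℕ → ℕ} (hφ : Tendsto φ atTop atTop) : Tendsto (fun i => size (φ i)) atTop atTop := by
  obtain ⟨c0, C0, hc0, -, hsz⟩ := size_bds
  have h1 : Tendsto (fun i => c0 * ((φ i : ℕ) : ℝ) ^ (3 / 4 : ℝ)) atTop atTop :=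
    ((tendsto_rpow_atTop (by norm_num : (0 : ℝ) < 3 / 4)).comp (tendsto_natCast_atTop_atTop.comp hφ)).const_mul_atTop hc0
  refine tendsto_atTop_mono' _ ?_ h1
  filter_upwards [hφ.eventually_ge_atTop 1] with i hi
  exact (hsz _ hi).1

/-- the smooth means are bounded -/
lemma AA_bdd (hC : CNT) (hG : GI) {δ M : ℝ} (hδ : 0 < δ) (hM : 0 < M) : ∃ K : ℝ, ∀ (n m l : ℕ) (R : ℝ), 0 ≤ R → R ≤ M * size n →
    ∀ F : C(unitInterval, ℂ) → ℝ, (∀ γ, 0 ≤ F γ ∧ F γ ≤ 1) → |AA δ n R F m l / size n ^ 2| ≤ K := by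
  obtain ⟨C, hC0, h⟩ := AA_int hC hG hδ hM
  obtain ⟨c0, C0, hc0, -, hsz⟩ := size_bds
  have hdens : 0 < dens := by
    unfold dens
    positivity
  refine ⟨C / c0 + dens * (Real.pi * M ^ 2 + Real.pi * M ^ 2), fun n m l R hR hRM F h0 => ?_⟩
  rcases Nat.eq_zero_or_pos n with hn | hn
  · have e : size n = 0 := by
      rw [hn]
      unfold size
      have : ∀ s : Fin 0 → Fin 3, ‖pos s 0‖ ^ 2 = 0 := fun s => by
        rw [pos0, norm_zero]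
        norm_num
      rw [sum_congr rfl fun s _ => this s, sum_const_zero, zero_div, Real.sqrt_zero]
    rw [e, zero_pow two_ne_zero, div_zero, abs_zero]
    positivity
  · have sn := size_pos hn
    have sc : c0 ≤ size n := by
      have h1 := (hsz n hn).1
      have h2 : (1 : ℝ) ≤ (n : ℝ) ^ (3 / 4 : ℝ) := Real.one_le_rpow (by exact_mod_cast hn) (by norm_num)
      have := mul_le_mul_of_nonneg_left h2 hc0.le
      linarith
    have hP1 := NTSF.law_prob m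
    have hP2 := NTSF.law_prob l
    have hr : 0 ≤ R / size n := div_nonneg hR sn.le
    have hr2 : Real.pi * (R / size n) ^ 2 ≤ Real.pi * M ^ 2 :=
      mul_le_mul_of_nonneg_left (pow_le_pow_left₀ hr ((div_le_iff₀ sn).2 hRM) 2) Real.pi_pos.le
    have i1 := (II_bdd hG h0 hδ hr ((m : ℝ) / ((m + l + 1 : ℕ) : ℝ)) (size m / size n) (size l / size n) (law m) (law l)).trans hr2
    have i2 := (II_bdd hG h0 hδ hr ((m : ℝ) / ((m + l + 1 : ℕ) : ℝ)) (size m / size n) (-(size l / size n)) (law m) (law l)).trans hr2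
    have h1 := h n m l R hn hR hRM F h0
    have h2 : C / size n ≤ C / c0 := div_le_div_of_nonneg_left hC0.le hc0 sc
    have i3 := (abs_add_le _ _).trans (add_le_add i1 i2)
    have i4 := mul_le_mul_of_nonneg_left i3 hdens.le
    rw [← abs_of_pos hdens, ← abs_mul, abs_of_pos hdens] at i4
    have := abs_sub_abs_le_abs_sub (AA δ n R F m l / size n ^ 2) (dens * (II F δ ((m : ℝ) / ((m + l + 1 : ℕ) : ℝ)) (R / size n)
      (size m / size n) (size l / size n) (law m) (law l) + II F δ ((m : ℝ) / ((m + l + 1 : ℕ) : ℝ)) (R / size n) (size m / size n)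
        (-(size l / size n)) (law m) (law l)))
    linarith

/-- the function of the two durations -/
noncomputable def BB (μ : ℝ → Measure C(unitInterval, ℂ)) (ρ : ℝ → ℝ) (δ r : ℝ) (F : C(unitInterval, ℂ) → ℝ) (x y : ℝ) : ℝ :=
  II F δ (x / (x + y)) r (ρ x) (ρ y) (μ x) (μ y)

/-- **one pair of durations** -/
theorem AA_lim (hC : CNT) (hG : GI) (hW : WK) (hE : NEG) {φ : ℕ → ℕ} {μ : ℝ → Measure C(unitInterval, ℂ)} {ρ : ℝ → ℝ}
    (hf : Fam φ μ ρ) {δ r M : ℝ} (hδ : 0 < δ) (hr : 0 ≤ r) (hM : 0 < M) {R : ℕ → ℝ} (hR0 : ∀ i, 0 ≤ R i)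
    (hRM : ∀ i, R i ≤ M * size (φ i)) (hRl : Tendsto (fun i => R i / size (φ i)) atTop (𝓝 r)) {F : C(unitInterval, ℂ) → ℝ}
    (h0 : ∀ γ, 0 ≤ F γ ∧ F γ ≤ 1) (hF : LipschitzWith 1 F) {x y : ℝ} (hx0 : 0 < x) (hx1 : x ≤ 1) (hy0 : 0 < y) (hy1 : y ≤ 1) :
    Tendsto (fun i => AA δ (φ i) (R i) F ⌊x * φ i⌋₊ ⌊y * φ i⌋₊ / size (φ i) ^ 2) atTop (𝓝 (2 * dens * BB μ ρ δ r F x y)) := by
  obtain ⟨C, hC0, h⟩ := AA_int hC hG hδ hM
  have hφ := hf.top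
  have hφR : Tendsto (fun i => ((φ i : ℕ) : ℝ)) atTop atTop := tendsto_natCast_atTop_atTop.comp hφ
  have px := hf.prob x hx0 hx1
  have py := hf.prob y hy0 hy1
  have fx : Tendsto (fun i => (⌊x * φ i⌋₊ : ℝ) / φ i) atTop (𝓝 x) := (tendsto_nat_floor_mul_div_atTop hx0.le).comp hφR
  have fy : Tendsto (fun i => (⌊y * φ i⌋₊ : ℝ) / φ i) atTop (𝓝 y) := (tendsto_nat_floor_mul_div_atTop hy0.le).comp hφR
  have f1 : Tendsto (fun i => 1 / ((φ i : ℕ) : ℝ)) atTop (𝓝 0) := hφR.const_div_atTop 1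
  have ht : Tendsto (fun i => (⌊x * φ i⌋₊ : ℝ) / ((⌊x * φ i⌋₊ + ⌊y * φ i⌋₊ + 1 : ℕ) : ℝ)) atTop (𝓝 (x / (x + y))) := by
    have h1 := fx.div ((fx.add fy).add f1) (by
      have : 0 < x + y := by linarith
      rw [add_zero]
      exact this.ne')
    rw [add_zero] at h1
    refine h1.congr' ?_
    filter_upwards [hφ.eventually_ge_atTop 1] with i hi
    have : ((φ i : ℕ) : ℝ) ≠ 0 := by
      have : 0 < φ i := hi
      exact_mod_cast this.ne'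
    simp only [Pi.div_apply]
    push_cast
    rw [← add_div, ← add_div, div_div_div_cancel_right₀ this]
  have hxy : 0 < x + y := by linarith
  have t0 : 0 < x / (x + y) := div_pos hx0 hxy
  have t1 : x / (x + y) < 1 := by
    rw [div_lt_one hxy]
    linarith
  have w1 := hW (fun i => law ⌊x * φ i⌋₊) (fun i => law ⌊y * φ i⌋₊) (μ x) (μ y) (fun i => NTSF.law_prob _) (fun i => NTSF.law_prob _)
    px py (hf.law x hx0 hx1) (hf.law y hy0 hy1) _ _ _ _ (x / (x + y)) (ρ x) (ρ y) r δ t0 t1 hr hδ ht (hf.size x hx0 hx1)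
    (hf.size y hy0 hy1) hRl F h0 hF
  have w2 := hW (fun i => law ⌊x * φ i⌋₊) (fun i => law ⌊y * φ i⌋₊) (μ x) (μ y) (fun i => NTSF.law_prob _) (fun i => NTSF.law_prob _)
    px py (hf.law x hx0 hx1) (hf.law y hy0 hy1) _ _ _ _ (x / (x + y)) (ρ x) (-ρ y) r δ t0 t1 hr hδ ht (hf.size x hx0 hx1)
    (hf.size y hy0 hy1).neg hRl F h0 hF
  have hθ : Tendsto (fun i => ⌊y * φ i⌋₊) atTop atTop := tendsto_nat_floor_atTop.comp (hφR.const_mul_atTop hy0)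
  have hns := neg_sym hE hθ (hf.law y hy0 hy1)
  have e1 : II F δ (x / (x + y)) r (ρ x) (-ρ y) (μ x) (μ y) = II F δ (x / (x + y)) r (ρ x) (ρ y) (μ x) (μ y) :=
    II_neg hG hF hδ hr _ _ _ _ _ hns
  have w3 : Tendsto (fun i => dens * (II F δ ((⌊x * φ i⌋₊ : ℝ) / ((⌊x * φ i⌋₊ + ⌊y * φ i⌋₊ + 1 : ℕ) : ℝ)) (R i / size (φ i))
      (size ⌊x * φ i⌋₊ / size (φ i)) (size ⌊y * φ i⌋₊ / size (φ i)) (law ⌊x * φ i⌋₊) (law ⌊y * φ i⌋₊) +
      II F δ ((⌊x * φ i⌋₊ : ℝ) / ((⌊x * φ i⌋₊ + ⌊y * φ i⌋₊ + 1 : ℕ) : ℝ)) (R i / size (φ i))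
      (size ⌊x * φ i⌋₊ / size (φ i)) (-(size ⌊y * φ i⌋₊ / size (φ i))) (law ⌊x * φ i⌋₊) (law ⌊y * φ i⌋₊))) atTop
      (𝓝 (2 * dens * BB μ ρ δ r F x y)) := by
    have h1 := (w1.add w2).const_mul dens
    have e2 : dens * ((∫ a, ∫ b, F (conc (x / (x + y)) (ρ x) (ρ y) a b) * gint δ r (ρ x) (ρ y) a b ∂(μ y) ∂(μ x)) +
        ∫ a, ∫ b, F (conc (x / (x + y)) (ρ x) (-ρ y) a b) * gint δ r (ρ x) (-ρ y) a b ∂(μ y) ∂(μ x)) =
        2 * dens * BB μ ρ δ r F x y := by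
      have e3 : (∫ a, ∫ b, F (conc (x / (x + y)) (ρ x) (-ρ y) a b) * gint δ r (ρ x) (-ρ y) a b ∂(μ y) ∂(μ x)) =
        II F δ (x / (x + y)) r (ρ x) (ρ y) (μ x) (μ y) := e1
      rw [e3]
      unfold BB
      show dens * (II F δ (x / (x + y)) r (ρ x) (ρ y) (μ x) (μ y) + II F δ (x / (x + y)) r (ρ x) (ρ y) (μ x) (μ y)) = _
      ring
    rw [e2] at h1
    exact h1
  have w4 : Tendsto (fun i => C / size (φ i)) atTop (𝓝 0) := (size_top hφ).const_div_atTop C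
  have w5 : Tendsto (fun i => AA δ (φ i) (R i) F ⌊x * φ i⌋₊ ⌊y * φ i⌋₊ / size (φ i) ^ 2 -
      dens * (II F δ ((⌊x * φ i⌋₊ : ℝ) / ((⌊x * φ i⌋₊ + ⌊y * φ i⌋₊ + 1 : ℕ) : ℝ)) (R i / size (φ i))
      (size ⌊x * φ i⌋₊ / size (φ i)) (size ⌊y * φ i⌋₊ / size (φ i)) (law ⌊x * φ i⌋₊) (law ⌊y * φ i⌋₊) +
      II F δ ((⌊x * φ i⌋₊ : ℝ) / ((⌊x * φ i⌋₊ + ⌊y * φ i⌋₊ + 1 : ℕ) : ℝ)) (R i / size (φ i))
      (size ⌊x * φ i⌋₊ / size (φ i)) (-(size ⌊y * φ i⌋₊ / size (φ i))) (law ⌊x * φ i⌋₊) (law ⌊y * φ i⌋₊))) atTop (𝓝 0) := by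
    refine squeeze_zero_norm' ?_ w4
    filter_upwards [hφ.eventually_ge_atTop 1] with i hi
    rw [Real.norm_eq_abs]
    exact h (φ i) _ _ (R i) hi (hR0 i) (hRM i) F h0
  have w6 := w5.add w3
  rw [zero_add] at w6
  refine w6.congr fun i => ?_
  ring

/-- **the sum over the windows for a fixed cut-off** -/
theorem lim_del (hC : CNT) (hG : GI) (hW : WK) (hS : SI) (hE : NEG) {φ : ℕ → ℕ} {μ : ℝ → Measure C(unitInterval, ℂ)} {ρ : ℝ → ℝ}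
    (hf : Fam φ μ ρ) {s d δ r M : ℝ} (hs0 : 0 < s) (hs1 : s < 1) (hd : 0 < d) (hx1 : (1 + d) * s ≤ 1) (hy1 : (1 + d) * (1 - s) ≤ 1)
    (hδ : 0 < δ) (hr : 0 ≤ r) (hM : 0 < M) {R : ℕ → ℝ} (hR0 : ∀ i, 0 ≤ R i)
    (hRM : ∀ i, R i ≤ M * size (φ i)) (hRl : Tendsto (fun i => R i / size (φ i)) atTop (𝓝 r)) {k : ℕ → ℕ}
    (hk : Tendsto (fun i => (k i : ℝ) / φ i) atTop (𝓝 s)) (hkφ : ∀ i, k i ≤ φ i) {F : C(unitInterval, ℂ) → ℝ}
    (h0 : ∀ γ, 0 ≤ F γ ∧ F γ ≤ 1) (hF : LipschitzWith 1 F) :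
    Tendsto (fun i => (∑ m ∈ win d (k i), ∑ l ∈ win d (φ i - k i), AA δ (φ i) (R i) F m l / size (φ i) ^ 2) / (φ i : ℝ) ^ 2) atTop
      (𝓝 (∫ x in s..(1 + d) * s, ∫ y in (1 - s)..(1 + d) * (1 - s), 2 * dens * BB μ ρ δ r F x y)) := by
  obtain ⟨K, hK⟩ := AA_bdd hC hG hδ hM
  exact hS s d K φ k (fun i m l => AA δ (φ i) (R i) F m l / size (φ i) ^ 2) (fun x y => 2 * dens * BB μ ρ δ r F x y) hs0 hs1 hd
    hf.top hk hkφ (fun i m l => hK (φ i) m l (R i) (hR0 i) (hRM i) F h0) fun x y x0 x1 y0 y1 =>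
      AA_lim hC hG hW hE hf hδ hr hM hR0 hRM hRl h0 hF (hs0.trans x0) (by linarith) (by linarith) (by linarith)

end Pool.Agent.RMP
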