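import Pool.Agent.RMP.LimE

/-!
# The renormalisation map in the scaling limit, assembly 6 (helper83): the cut-off tends to zero
-/

set_option autoImplicit false

open MeasureTheory Filter Topology Finset
open scoped Classical

namespace Pool.Agent.RMP

open Pool.Agent.NTS.Res

open NTSF (size_pos integral_law)

/-! ### 1. Iterated bounded convergence -/

/-- functions whose iterated integral makes sense -/
def Nice (a b c e : ℝ) (g : ℝ → ℝ → ℝ) : Prop :=
  (∀ x ∈ Set.Ioo a b, AEStronglyMeasurable (g x) (volume.restrict (Set.Ioo c e))) ∧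
    AEStronglyMeasurable (fun x => ∫ y in Set.Ioo c e, g x y) (volume.restrict (Set.Ioo a b))

lemma int_Ioo {c e : ℝ} (h : c ≤ e) (g : ℝ → ℝ) : ∫ y in c..e, g y = ∫ y in Set.Ioo c e, g y := by
  rw [intervalIntegral.integral_of_le h, integral_Ioc_eq_integral_Ioo]

lemma int2_Ioo {a b c e : ℝ} (hab : a ≤ b) (h : c ≤ e) (g : ℝ → ℝ → ℝ) :
    ∫ x in a..b, ∫ y in c..e, g x y = ∫ x in Set.Ioo a b, ∫ y in Set.Ioo c e, g x y := by
  rw [int_Ioo hab]
  refine integral_congr_ae (Eventually.of_forall fun x => ?_)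
  exact int_Ioo h (g x)

/-- **iterated bounded convergence** -/
lemma nice_lim {a b c e M : ℝ} {g : ℕ → ℝ → ℝ → ℝ} {G : ℝ → ℝ → ℝ} (hn : ∀ i, Nice a b c e (g i))
    (hb : ∀ i, ∀ x ∈ Set.Ioo a b, ∀ y ∈ Set.Ioo c e, |g i x y| ≤ M)
    (hl : ∀ x ∈ Set.Ioo a b, ∀ y ∈ Set.Ioo c e, Tendsto (fun i => g i x y) atTop (𝓝 (G x y))) :
    Nice a b c e G ∧ Tendsto (fun i => ∫ x in Set.Ioo a b, ∫ y in Set.Ioo c e, g i x y) atTop
      (𝓝 (∫ x in Set.Ioo a b, ∫ y in Set.Ioo c e, G x y)) := by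
  have h1 : ∀ x ∈ Set.Ioo a b, AEStronglyMeasurable (G x) (volume.restrict (Set.Ioo c e)) := fun x hx =>
    aestronglyMeasurable_of_tendsto_ae atTop (fun i => (hn i).1 x hx)
      ((ae_restrict_mem measurableSet_Ioo).mono fun y hy => hl x hx y hy)
  have h2 : ∀ x ∈ Set.Ioo a b, Tendsto (fun i => ∫ y in Set.Ioo c e, g i x y) atTop (𝓝 (∫ y in Set.Ioo c e, G x y)) :=
    fun x hx => tendsto_integral_of_dominated_convergence (fun _ => M) (fun i => (hn i).1 x hx) (integrable_const _)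
      (fun i => (ae_restrict_mem measurableSet_Ioo).mono fun y hy => by
        rw [Real.norm_eq_abs]
        exact hb i x hx y hy)
      ((ae_restrict_mem measurableSet_Ioo).mono fun y hy => hl x hx y hy)
  have h3 : AEStronglyMeasurable (fun x => ∫ y in Set.Ioo c e, G x y) (volume.restrict (Set.Ioo a b)) :=
    aestronglyMeasurable_of_tendsto_ae atTop (fun i => (hn i).2) ((ae_restrict_mem measurableSet_Ioo).mono h2)
  refine ⟨⟨h1, h3⟩, tendsto_integral_of_dominated_convergence (fun _ => M * (volume.restrict (Set.Ioo c e)).real Set.univ)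
    (fun i => (hn i).2) (integrable_const _) (fun i => (ae_restrict_mem measurableSet_Ioo).mono fun x hx => ?_)
    ((ae_restrict_mem measurableSet_Ioo).mono h2)⟩
  exact norm_integral_le_of_norm_le_const ((ae_restrict_mem measurableSet_Ioo).mono fun y hy => by
    rw [Real.norm_eq_abs]
    exact hb i x hx y hy)

/-- step functions -/
lemma nice_step (a b c e N : ℝ) (A : ℕ → ℕ → ℝ) : Nice a b c e (fun x y => A ⌊x * N⌋₊ ⌊y * N⌋₊) := by
  constructor
  · intro x _
    have h : Measurable fun y : ℝ => A ⌊x * N⌋₊ ⌊y * N⌋₊ :=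
      (measurable_from_nat (f := fun m => A ⌊x * N⌋₊ m)).comp (Nat.measurable_floor.comp (measurable_id.mul_const N))
    exact h.aestronglyMeasurable
  · have h : Measurable fun x : ℝ => ∫ y in Set.Ioo c e, A ⌊x * N⌋₊ ⌊y * N⌋₊ :=
      (measurable_from_nat (f := fun m => ∫ y in Set.Ioo c e, A m ⌊y * N⌋₊)).comp
        (Nat.measurable_floor.comp (measurable_id.mul_const N))
    exact h.aestronglyMeasurable

/-! ### 2. The cut-off tends to zero -/

/-- the double integral with the area -/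
noncomputable def IG (F : C(unitInterval, ℂ) → ℝ) (t r α β : ℝ) (μ μ' : Measure C(unitInterval, ℂ)) : ℝ :=
  ∫ a, ∫ b, F (conc t α β a b) * (volume (gaps r α β a b)).toReal ∂μ' ∂μ

lemma del_pos (j : ℕ) : (0 : ℝ) < 1 / (j + 1) := by positivity

lemma IG_lim (hG : GI) {F : C(unitInterval, ℂ) → ℝ} (h0 : ∀ γ, 0 ≤ F γ ∧ F γ ≤ 1) (hF : LipschitzWith 1 F) {r : ℝ} (hr : 0 ≤ r)
    (t α β : ℝ) (μ μ' : Measure C(unitInterval, ℂ)) [IsProbabilityMeasure μ] [IsProbabilityMeasure μ'] :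
    Tendsto (fun j : ℕ => II F (1 / (j + 1)) t r α β μ μ') atTop (𝓝 (IG F t r α β μ μ')) := by
  have hc : ∀ j : ℕ, Continuous fun p : C(unitInterval, ℂ) × C(unitInterval, ℂ) =>
      F (conc t α β p.1 p.2) * gint (1 / (j + 1)) r α β p.1 p.2 := fun j => integrand_cont hG hF (del_pos j) hr t α β
  have hb : ∀ (j : ℕ) (a b : C(unitInterval, ℂ)), ‖F (conc t α β a b) * gint (1 / (j + 1)) r α β a b‖ ≤ Real.pi * r ^ 2 := by
    intro j a b
    obtain ⟨h1, h2⟩ := integrand_bdd hG h0 (del_pos j) hr t α β a b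
    rwa [Real.norm_eq_abs, abs_of_nonneg h1]
  have hin : ∀ a, Tendsto (fun j : ℕ => ∫ b, F (conc t α β a b) * gint (1 / (j + 1)) r α β a b ∂μ') atTop
      (𝓝 (∫ b, F (conc t α β a b) * (volume (gaps r α β a b)).toReal ∂μ')) := fun a =>
    tendsto_integral_of_dominated_convergence (fun _ => Real.pi * r ^ 2)
      (fun j => ((hc j).comp (continuous_const.prodMk continuous_id)).aestronglyMeasurable) (integrable_const _)
      (fun j => Eventually.of_forall fun b => hb j a b)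
      (Eventually.of_forall fun b => (hG.2.1 r α β a b hr).const_mul _)
  refine tendsto_integral_of_dominated_convergence (fun _ => Real.pi * r ^ 2) (fun j => ?_) (integrable_const _)
    (fun j => Eventually.of_forall fun a => ?_) (Eventually.of_forall hin)
  · have h1 : StronglyMeasurable (fun p : C(unitInterval, ℂ) × C(unitInterval, ℂ) =>
        F (conc t α β p.1 p.2) * gint (1 / (j + 1)) r α β p.1 p.2) := (hc j).stronglyMeasurable
    exact h1.integral_prod_right.aestronglyMeasurable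
  · have := norm_integral_le_of_norm_le_const (μ := μ') (f := fun b => F (conc t α β a b) * gint (1 / (j + 1)) r α β a b)
      (Eventually.of_forall fun b => hb j a b)
    rwa [probReal_univ, mul_one] at this

lemma rmap_IG (μ : ℝ → Measure C(unitInterval, ℂ)) (ρ : ℝ → ℝ) (s d r : ℝ) (F : C(unitInterval, ℂ) → ℝ) :
    rmap μ ρ s d r F = ∫ x in s..(1 + d) * s, ∫ y in (1 - s)..(1 + d) * (1 - s),
      IG F (x / (x + y)) r (ρ x) (ρ y) (μ x) (μ y) := rfl

/-- **the smooth version tends to `rmap`** -/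
theorem rmap_lim (hC : CNT) (hG : GI) (hW : WK) (hE : NEG) {φ : ℕ → ℕ} {μ : ℝ → Measure C(unitInterval, ℂ)} {ρ : ℝ → ℝ}
    (hf : Fam φ μ ρ) {s d r : ℝ} (hs0 : 0 < s) (hs1 : s < 1) (hd : 0 < d) (hx1 : (1 + d) * s ≤ 1) (hy1 : (1 + d) * (1 - s) ≤ 1)
    (hr : 0 ≤ r) {F : C(unitInterval, ℂ) → ℝ} (h0 : ∀ γ, 0 ≤ F γ ∧ F γ ≤ 1) (hF : LipschitzWith 1 F) :
    Tendsto (fun j : ℕ => ∫ x in s..(1 + d) * s, ∫ y in (1 - s)..(1 + d) * (1 - s), 2 * dens * BB μ ρ (1 / (j + 1)) r F x y) atTop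
      (𝓝 (2 * dens * rmap μ ρ s d r F)) := by
  have hxs : s ≤ (1 + d) * s := by nlinarith
  have hys : 1 - s ≤ (1 + d) * (1 - s) := by nlinarith
  have hdens : 0 < dens := by
    unfold dens
    positivity
  have hM : 0 < r + 1 := by linarith
  have hsz : ∀ i, 0 ≤ size (φ i) := fun i => NTSF.size_nonneg _
  have hbd : ∀ (δ : ℝ), 0 < δ → ∀ x ∈ Set.Ioo s ((1 + d) * s), ∀ y ∈ Set.Ioo (1 - s) ((1 + d) * (1 - s)),
      |2 * dens * BB μ ρ δ r F x y| ≤ 2 * dens * (Real.pi * r ^ 2) := by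
    intro δ hδ x hx y hy
    have p1 := hf.prob x (hs0.trans hx.1) (hx.2.le.trans hx1)
    have p2 := hf.prob y (lt_trans (by linarith) hy.1) (hy.2.le.trans hy1)
    rw [abs_mul, abs_of_pos (by positivity : (0 : ℝ) < 2 * dens)]
    exact mul_le_mul_of_nonneg_left (II_bdd hG h0 hδ hr _ _ _ _ _) (by positivity)
  -- the smooth functions are nice
  have hnice : ∀ j : ℕ, Nice s ((1 + d) * s) (1 - s) ((1 + d) * (1 - s)) (fun x y => 2 * dens * BB μ ρ (1 / (j + 1)) r F x y) := by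
    intro j
    obtain ⟨K, hK⟩ := AA_bdd hC hG (del_pos j) hM
    refine (nice_lim (M := K) (g := fun i x y => AA (1 / (j + 1)) (φ i) (r * size (φ i)) F ⌊x * φ i⌋₊ ⌊y * φ i⌋₊ / size (φ i) ^ 2)
      (fun i => nice_step _ _ _ _ _ (fun m l => AA (1 / (j + 1)) (φ i) (r * size (φ i)) F m l / size (φ i) ^ 2)) ?_ ?_).1
    · intro i x _ y _
      exact hK (φ i) _ _ (r * size (φ i)) (mul_nonneg hr (hsz i)) (mul_le_mul_of_nonneg_right (by linarith) (hsz i)) F h0
    · intro x hx y hy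
      refine AA_lim hC hG hW hE hf (del_pos j) hr hM (fun i => mul_nonneg hr (hsz i))
        (fun i => mul_le_mul_of_nonneg_right (by linarith) (hsz i)) ?_ h0 hF (hs0.trans hx.1) (hx.2.le.trans hx1)
        (lt_trans (by linarith) hy.1) (hy.2.le.trans hy1)
      refine tendsto_const_nhds.congr' ?_
      filter_upwards [hf.top.eventually_ge_atTop 1] with i hi
      have := size_pos hi
      rw [mul_div_assoc, div_self this.ne', mul_one]
  have key := (nice_lim (M := 2 * dens * (Real.pi * r ^ 2)) (g := fun j x y => 2 * dens * BB μ ρ (1 / ((j : ℕ) + 1)) r F x y)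
    (G := fun x y => 2 * dens * IG F (x / (x + y)) r (ρ x) (ρ y) (μ x) (μ y)) hnice (fun j x hx y hy => hbd _ (del_pos j) x hx y hy)
    fun x hx y hy => ?_).2
  · rw [rmap_IG, int2_Ioo hxs hys]
    have e : ∀ j : ℕ, ∫ x in s..(1 + d) * s, ∫ y in (1 - s)..(1 + d) * (1 - s), 2 * dens * BB μ ρ (1 / (j + 1)) r F x y =
        ∫ x in Set.Ioo s ((1 + d) * s), ∫ y in Set.Ioo (1 - s) ((1 + d) * (1 - s)), 2 * dens * BB μ ρ (1 / (j + 1)) r F x y :=
      fun j => int2_Ioo hxs hys _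
    simp only [e]
    have e2 : ∫ x in Set.Ioo s ((1 + d) * s), ∫ y in Set.Ioo (1 - s) ((1 + d) * (1 - s)),
        2 * dens * IG F (x / (x + y)) r (ρ x) (ρ y) (μ x) (μ y) = 2 * dens * ∫ x in Set.Ioo s ((1 + d) * s),
          ∫ y in Set.Ioo (1 - s) ((1 + d) * (1 - s)), IG F (x / (x + y)) r (ρ x) (ρ y) (μ x) (μ y) := by
      rw [← integral_const_mul]
      refine integral_congr_ae (Eventually.of_forall fun x => ?_)
      show ∫ y in Set.Ioo (1 - s) ((1 + d) * (1 - s)), 2 * dens * IG F (x / (x + y)) r (ρ x) (ρ y) (μ x) (μ y) =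
        2 * dens * ∫ y in Set.Ioo (1 - s) ((1 + d) * (1 - s)), IG F (x / (x + y)) r (ρ x) (ρ y) (μ x) (μ y)
      rw [integral_const_mul]
    rw [← e2]
    exact key
  · have p1 := hf.prob x (hs0.trans hx.1) (hx.2.le.trans hx1)
    have p2 := hf.prob y (lt_trans (by linarith) hy.1) (hy.2.le.trans hy1)
    exact (IG_lim hG h0 hF hr _ _ _ _ _).const_mul _

end Pool.Agent.RMP
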