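import Pool.Agent.RMP.LimDefs2

/-!
# The renormalisation map in the scaling limit: row FSC, part 1 (helper6)

* `LimFsc.lawTo_near`: weak convergence passes to sequences of laws which are close on Lipschitz functions;
* `LimFsc.floor_two`: `⌊x * (τ * n)⌋ = ⌊x * ⌊τ * n⌋⌋ + h`, `h ≤ 1`;
* **`LimFsc.fsc_of`**: `FSC` from the slow change of the laws and of the sizes.
-/

set_option autoImplicit false

open MeasureTheory Filter Topology
open scoped Classical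

namespace Pool.Agent.RMP

open Pool.Agent.NTS.Res

namespace LimFsc

/-- weak convergence passes to laws which are close on bounded Lipschitz functions -/
theorem lawTo_near {φ ψ : ℕ → ℕ} {ν : Measure C(unitInterval, ℂ)} (hp : ∀ n : ℕ, IsProbabilityMeasure (law n))
    (hν : IsProbabilityMeasure ν) (h : LawTo φ ν)
    (hd : ∀ G : C(unitInterval, ℂ) → ℝ, (∀ γ, |G γ| ≤ 1) → LipschitzWith 1 G →
      Tendsto (fun k => ∫ γ, G γ ∂(law (φ k)) - ∫ γ, G γ ∂(law (ψ k))) atTop (𝓝 0)) : LawTo ψ ν := by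
  obtain ⟨P, hP⟩ : ∃ P : ℕ → ProbabilityMeasure C(unitInterval, ℂ), P = fun k => ⟨law (ψ k), hp _⟩ := ⟨_, rfl⟩
  obtain ⟨Q, hQ⟩ : ∃ Q : ProbabilityMeasure C(unitInterval, ℂ), Q = ⟨ν, hν⟩ := ⟨_, rfl⟩
  have hPc : ∀ k, (P k : Measure C(unitInterval, ℂ)) = law (ψ k) := fun k => by rw [hP]; rfl
  have hQc : (Q : Measure C(unitInterval, ℂ)) = ν := by rw [hQ]; rfl
  have hunit : ∀ G : C(unitInterval, ℂ) → ℝ, (∀ γ, |G γ| ≤ 1) → LipschitzWith 1 G →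
      Tendsto (fun k => ∫ γ, G γ ∂(law (ψ k))) atTop (𝓝 (∫ γ, G γ ∂ν)) := by
    intro G hG1 hG2
    obtain ⟨f, hf⟩ : ∃ f : BoundedContinuousFunction C(unitInterval, ℂ) ℝ, ∀ γ, f γ = G γ :=
      ⟨BoundedContinuousFunction.ofNormedAddCommGroup G hG2.continuous 1 (fun γ => by rw [Real.norm_eq_abs]; exact hG1 γ),
        fun _ => rfl⟩
    have h1 := h f
    simp only [hf] at h1
    have h2 := h1.sub (hd G hG1 hG2)
    simpa using h2
  have hconv : Tendsto P atTop (𝓝 Q) := by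
    rw [tendsto_iff_forall_lipschitz_integral_tendsto]
    rintro f ⟨B, hB⟩ ⟨L, hL⟩
    obtain ⟨M, hM⟩ : ∃ M : ℝ, M = |f 0| + |B| + L + 1 := ⟨_, rfl⟩
    have hL0 : (0 : ℝ) ≤ L := L.2
    have hM0 : 0 < M := by
      rw [hM]
      positivity
    have hg1 : ∀ γ, |M⁻¹ * f γ| ≤ 1 := by
      intro γ
      rw [abs_mul, abs_of_pos (inv_pos.2 hM0), inv_mul_le_iff₀ hM0, mul_one]
      have h1 := hB γ 0
      rw [Real.dist_eq] at h1
      have h2 : |f γ| ≤ |f γ - f 0| + |f 0| := by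
        have := abs_add_le (f γ - f 0) (f 0)
        rwa [sub_add_cancel] at this
      have h3 := le_abs_self B
      rw [hM]
      linarith
    have hg2 : LipschitzWith 1 fun γ => M⁻¹ * f γ := by
      refine LipschitzWith.of_dist_le_mul fun γ γ' => ?_
      rw [Real.dist_eq, ← mul_sub, abs_mul, abs_of_pos (inv_pos.2 hM0), inv_mul_le_iff₀ hM0, NNReal.coe_one, one_mul]
      have h1 := hL.dist_le_mul γ γ'
      rw [Real.dist_eq] at h1
      refine h1.trans (mul_le_mul_of_nonneg_right ?_ dist_nonneg)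
      rw [hM]
      have := abs_nonneg (f 0)
      have := abs_nonneg B
      linarith
    have h1 := (hunit _ hg1 hg2).const_mul M
    have h2 : ∀ κ : Measure C(unitInterval, ℂ), M * ∫ γ, M⁻¹ * f γ ∂κ = ∫ γ, f γ ∂κ := by
      intro κ
      rw [integral_const_mul, ← mul_assoc, mul_inv_cancel₀ hM0.ne', one_mul]
    simp only [h2] at h1
    simp only [hPc, hQc]
    exact h1
  intro f
  have h3 := (ProbabilityMeasure.tendsto_iff_forall_integral_tendsto.1 hconv) f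
  simp only [hPc, hQc] at h3
  exact h3

/-- the two ways to take a proportion differ by at most one step -/
theorem floor_two {x τ : ℝ} (hx0 : 0 < x) (hx1 : x ≤ 1) (hτ : 0 < τ) (n : ℕ) :
    ∃ h : ℕ, ⌊τ * x * n⌋₊ = ⌊x * (⌊τ * n⌋₊ : ℕ)⌋₊ + h ∧ h ≤ 1 := by
  have hn : (0 : ℝ) ≤ n := Nat.cast_nonneg n
  have a0 : (0 : ℝ) ≤ τ * n := by positivity
  have a1 : ((⌊τ * n⌋₊ : ℕ) : ℝ) ≤ τ * n := Nat.floor_le a0
  have a2 : τ * n < (⌊τ * n⌋₊ : ℕ) + 1 := Nat.lt_floor_add_one _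
  have b1 : x * (⌊τ * n⌋₊ : ℕ) ≤ τ * x * n := by nlinarith
  have b2 : τ * x * n ≤ x * (⌊τ * n⌋₊ : ℕ) + 1 := by nlinarith
  have h1 : ⌊x * (⌊τ * n⌋₊ : ℕ)⌋₊ ≤ ⌊τ * x * n⌋₊ := Nat.floor_le_floor b1
  have h2 : ⌊τ * x * n⌋₊ ≤ ⌊x * (⌊τ * n⌋₊ : ℕ)⌋₊ + 1 := by
    rw [← Nat.floor_add_one (by positivity)]
    exact Nat.floor_le_floor b2
  exact ⟨⌊τ * x * n⌋₊ - ⌊x * (⌊τ * n⌋₊ : ℕ)⌋₊, by omega, by omega⟩

/-- **row FSC from the slow change of the laws and of the sizes** -/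
theorem fsc_of {c C : ℝ} (hc : 0 < c) (hs : ∀ n : ℕ, 1 ≤ n → c * (n : ℝ) ^ (3 / 4 : ℝ) ≤ size n ∧
      size n ≤ C * (n : ℝ) ^ (3 / 4 : ℝ))
    (hp : ∀ n : ℕ, IsProbabilityMeasure (law n))
    (hE : ∀ ε : ℝ, 0 < ε → ∃ δ : ℝ, 0 < δ ∧ ∃ n0 : ℕ, ∀ n h : ℕ, n0 ≤ n → (h : ℝ) ≤ δ * n →
      ∀ G : C(unitInterval, ℂ) → ℝ, (∀ γ, |G γ| ≤ 1) → LipschitzWith 1 G →
        |∫ γ, G γ ∂(law (n + h)) - ∫ γ, G γ ∂(law n)| ≤ ε)
    (hZ : ∀ ε : ℝ, 0 < ε → ∃ δ : ℝ, 0 < δ ∧ ∃ n0 : ℕ, ∀ n h : ℕ, n0 ≤ n → (h : ℝ) ≤ δ * n →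
      |size (n + h) / size n - 1| ≤ ε) : FSC := by
  intro φ μ ρ hF τ hτ0 hτ1
  -- positive sizes
  have hpos : ∀ n : ℕ, 1 ≤ n → 0 < size n := fun n hn => by
    have hn' : (0 : ℝ) < n := by exact_mod_cast hn
    exact lt_of_lt_of_le (mul_pos hc (Real.rpow_pos_of_pos hn' _)) (hs n hn).1
  have hC : 0 < C := by
    have h1 := (hs 1 le_rfl).2
    have h2 := hpos 1 le_rfl
    rw [Nat.cast_one, Real.one_rpow, mul_one] at h1
    linarith
  have hfl : ∀ x : ℝ, 0 < x → Tendsto (fun k => ⌊x * φ k⌋₊) atTop atTop := fun x hx =>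
    tendsto_nat_floor_atTop.comp (Tendsto.const_mul_atTop hx (tendsto_natCast_atTop_atTop.comp hF.top))
  have hφτ := hfl τ hτ0
  have hτx : ∀ x : ℝ, 0 < x → x ≤ 1 → 0 < τ * x ∧ τ * x ≤ 1 := fun x h0 h1 => ⟨by positivity, by nlinarith⟩
  have hflx : ∀ x : ℝ, 0 < x → Tendsto (fun k => ⌊x * (⌊τ * φ k⌋₊ : ℕ)⌋₊) atTop atTop := fun x hx =>
    tendsto_nat_floor_atTop.comp (Tendsto.const_mul_atTop hx (tendsto_natCast_atTop_atTop.comp hφτ))
  -- the limit of the ratio is positive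
  have hρτ : 0 < ρ τ := by
    have h1 := hF.size τ hτ0 hτ1
    have h2 : ∀ᶠ k in atTop, c / C * (τ / 2) ^ (3 / 4 : ℝ) ≤ size ⌊τ * φ k⌋₊ / size (φ k) := by
      filter_upwards [hF.top.eventually (eventually_ge_atTop (max 1 ⌈2 / τ⌉₊)), hφτ.eventually (eventually_ge_atTop 1)] with
        k hk1 hk2
      have e1 : 1 ≤ φ k := (le_max_left _ _).trans hk1
      have e2 : 2 / τ ≤ φ k := (Nat.le_ceil _).trans (by exact_mod_cast (le_max_right _ _).trans hk1)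
      have e3 : (0 : ℝ) < φ k := by exact_mod_cast e1
      have e4 : τ / 2 * φ k ≤ (⌊τ * φ k⌋₊ : ℕ) := by
        have h3 : τ * φ k < (⌊τ * φ k⌋₊ : ℕ) + 1 := Nat.lt_floor_add_one _
        rw [div_le_iff₀ hτ0] at e2
        linarith
      have a1 := (hs _ hk2).1
      have a2 := (hs _ e1).2
      have a3 := hpos _ e1
      rw [le_div_iff₀ a3]
      have a4 : (τ / 2 * (φ k : ℝ)) ^ (3 / 4 : ℝ) ≤ ((⌊τ * φ k⌋₊ : ℕ) : ℝ) ^ (3 / 4 : ℝ) :=
        Real.rpow_le_rpow (by positivity) e4 (by norm_num)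
      rw [Real.mul_rpow (by positivity) e3.le] at a4
      calc c / C * (τ / 2) ^ (3 / 4 : ℝ) * size (φ k) ≤
            c / C * (τ / 2) ^ (3 / 4 : ℝ) * (C * (φ k : ℝ) ^ (3 / 4 : ℝ)) := by gcongr
        _ = c * ((τ / 2) ^ (3 / 4 : ℝ) * (φ k : ℝ) ^ (3 / 4 : ℝ)) := by
            field_simp
        _ ≤ c * ((⌊τ * φ k⌋₊ : ℕ) : ℝ) ^ (3 / 4 : ℝ) := by gcongr
        _ ≤ _ := a1
    have h3 : 0 < c / C * (τ / 2) ^ (3 / 4 : ℝ) := by positivity
    exact lt_of_lt_of_le h3 (ge_of_tendsto h1 h2)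
  refine ⟨hρτ, hφτ, fun x h0 h1 => hF.prob _ (hτx x h0 h1).1 (hτx x h0 h1).2, fun x h0 h1 => ?_, fun x h0 h1 => ?_⟩
  · -- the laws
    refine lawTo_near hp (hF.prob _ (hτx x h0 h1).1 (hτx x h0 h1).2) (hF.law _ (hτx x h0 h1).1 (hτx x h0 h1).2)
      fun G hG1 hG2 => ?_
    rw [Metric.tendsto_nhds]
    intro ε hε
    obtain ⟨δ, hδ, n0, h2⟩ := hE (ε / 2) (by positivity)
    filter_upwards [(hflx x h0).eventually (eventually_ge_atTop (max n0 ⌈1 / δ⌉₊))] with k hk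
    obtain ⟨h, e1, e2⟩ := floor_two h0 h1 hτ0 (φ k)
    have e3 : 1 / δ ≤ (⌊x * (⌊τ * φ k⌋₊ : ℕ)⌋₊ : ℕ) :=
      (Nat.le_ceil _).trans (by exact_mod_cast (le_max_right _ _).trans hk)
    rw [div_le_iff₀ hδ] at e3
    have e4 : (h : ℝ) ≤ δ * (⌊x * (⌊τ * φ k⌋₊ : ℕ)⌋₊ : ℕ) := by
      have : (h : ℝ) ≤ 1 := by exact_mod_cast e2
      linarith
    have e5 := h2 _ h ((le_max_left _ _).trans hk) e4 G hG1 hG2
    rw [← e1] at e5
    rw [Real.dist_eq, sub_zero]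
    exact e5.trans_lt (by linarith)
  · -- the sizes
    have hr : Tendsto (fun k => size ⌊τ * x * φ k⌋₊ / size ⌊x * (⌊τ * φ k⌋₊ : ℕ)⌋₊) atTop (𝓝 1) := by
      rw [Metric.tendsto_nhds]
      intro ε hε
      obtain ⟨δ, hδ, n0, h2⟩ := hZ (ε / 2) (by positivity)
      filter_upwards [(hflx x h0).eventually (eventually_ge_atTop (max n0 ⌈1 / δ⌉₊))] with k hk
      obtain ⟨h, e1, e2⟩ := floor_two h0 h1 hτ0 (φ k)
      have e3 : 1 / δ ≤ (⌊x * (⌊τ * φ k⌋₊ : ℕ)⌋₊ : ℕ) :=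
        (Nat.le_ceil _).trans (by exact_mod_cast (le_max_right _ _).trans hk)
      rw [div_le_iff₀ hδ] at e3
      have e4 : (h : ℝ) ≤ δ * (⌊x * (⌊τ * φ k⌋₊ : ℕ)⌋₊ : ℕ) := by
        have : (h : ℝ) ≤ 1 := by exact_mod_cast e2
        linarith
      have e5 := h2 _ h ((le_max_left _ _).trans hk) e4
      rw [← e1] at e5
      rw [Real.dist_eq]
      exact e5.trans_lt (by linarith)
    have h3 := ((hF.size _ (hτx x h0 h1).1 (hτx x h0 h1).2).div (hF.size τ hτ0 hτ1) hρτ.ne').div hr one_ne_zero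
    rw [div_one] at h3
    refine h3.congr' ?_
    filter_upwards [hF.top.eventually (eventually_ge_atTop 1), hφτ.eventually (eventually_ge_atTop 1),
      (hflx x h0).eventually (eventually_ge_atTop 1), (hfl _ (hτx x h0 h1).1).eventually (eventually_ge_atTop 1)] with
      k k1 k2 k3 k4
    have p1 := (hpos _ k1).ne'
    have p2 := (hpos _ k2).ne'
    have p3 := (hpos _ k3).ne'
    have p4 := (hpos _ k4).ne'
    simp only [Pi.div_apply]
    generalize size (φ k) = s1 at *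
    generalize size ⌊τ * φ k⌋₊ = s2 at *
    generalize size ⌊x * (⌊τ * φ k⌋₊ : ℕ)⌋₊ = s3 at *
    generalize size ⌊τ * x * φ k⌋₊ = s4 at *
    field_simp

end LimFsc

end Pool.Agent.RMP
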