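import Pool.Agent.RMP.LimFscA

/-!
# The renormalisation map in the scaling limit: rows FSL and FBD, part 1 (helper58)

* `LimFsl.floor_inc`: `⌊τ' * n⌋ = ⌊τ * n⌋ + h` with `h ≤ δ * ⌊τ * n⌋` for `τ ≤ τ' ≤ (1 + δ / 2) * τ`;
* **`LimFsl.fsl_of`**: `FSL` from the slow change of the laws and of the sizes;
* **`LimFsl.fbd_of`**: `FBD` from the bounds of the sizes and of the curves.
-/

set_option autoImplicit false

open MeasureTheory Filter Topology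
open scoped Classical

namespace Pool.Agent.RMP

open Pool.Agent.NTS.Res

namespace LimFsl

lemma floor_inc {d δ τ τ' : ℝ} (hd : d = δ / 2) (hδ : 0 < δ) (hτ : 0 < τ) (h1 : τ ≤ τ') (h2 : τ' ≤ (1 + d) * τ) {n : ℕ}
    (hn : (2 * d + 2) / δ ≤ (⌊τ * n⌋₊ : ℕ)) :
    ∃ h : ℕ, ⌊τ' * n⌋₊ = ⌊τ * n⌋₊ + h ∧ (h : ℝ) ≤ δ * (⌊τ * n⌋₊ : ℕ) := by
  have hn0 : (0 : ℝ) ≤ n := Nat.cast_nonneg n
  have hd0 : 0 < d := by
    rw [hd]
    positivity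
  have a1 : τ * n < (⌊τ * n⌋₊ : ℕ) + 1 := Nat.lt_floor_add_one _
  have a2 : ((⌊τ' * n⌋₊ : ℕ) : ℝ) ≤ τ' * n := Nat.floor_le (by
    have : 0 ≤ τ' := by linarith
    positivity)
  have a3 : ⌊τ * n⌋₊ ≤ ⌊τ' * n⌋₊ := Nat.floor_le_floor (mul_le_mul_of_nonneg_right h1 hn0)
  refine ⟨⌊τ' * n⌋₊ - ⌊τ * n⌋₊, by omega, ?_⟩
  rw [Nat.cast_sub a3]
  rw [div_le_iff₀ hδ] at hn
  have a4 : τ' * n ≤ (1 + d) * τ * n := mul_le_mul_of_nonneg_right h2 hn0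
  have a5 : (1 + d) * (τ * n) ≤ (1 + d) * ((⌊τ * n⌋₊ : ℕ) + 1) := mul_le_mul_of_nonneg_left a1.le (by linarith)
  have a6 : d * ((⌊τ * n⌋₊ : ℕ) : ℝ) = δ / 2 * ((⌊τ * n⌋₊ : ℕ) : ℝ) := by rw [hd]
  nlinarith

lemma floor_top {φ : ℕ → ℕ} (h : Tendsto φ atTop atTop) {x : ℝ} (hx : 0 < x) : Tendsto (fun k => ⌊x * φ k⌋₊) atTop atTop :=
  tendsto_nat_floor_atTop.comp (Tendsto.const_mul_atTop hx (tendsto_natCast_atTop_atTop.comp h))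

/-- the convergence of the integrals of a bounded Lipschitz function -/
lemma int_tend {φ : ℕ → ℕ} {ν : Measure C(unitInterval, ℂ)} (h : LawTo φ ν) {F : C(unitInterval, ℂ) → ℝ}
    (hF : ∀ γ, 0 ≤ F γ ∧ F γ ≤ 1) (hc : Continuous F) :
    Tendsto (fun k => ∫ γ, F γ ∂(law (φ k))) atTop (𝓝 (∫ γ, F γ ∂ν)) := by
  obtain ⟨f, hf⟩ : ∃ f : BoundedContinuousFunction C(unitInterval, ℂ) ℝ, ∀ γ, f γ = F γ :=
    ⟨BoundedContinuousFunction.ofNormedAddCommGroup F hc 1 (fun γ => by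
      rw [Real.norm_eq_abs, abs_of_nonneg (hF γ).1]
      exact (hF γ).2), fun _ => rfl⟩
  have h1 := h f
  simp only [hf] at h1
  exact h1

/-- **row FSL from the slow change of the laws and of the sizes** -/
theorem fsl_of (hfsc : FSC) (hpos : ∀ n : ℕ, 1 ≤ n → 0 < size n)
    (hE : ∀ ε : ℝ, 0 < ε → ∃ δ : ℝ, 0 < δ ∧ ∃ n0 : ℕ, ∀ n h : ℕ, n0 ≤ n → (h : ℝ) ≤ δ * n →
      ∀ G : C(unitInterval, ℂ) → ℝ, (∀ γ, |G γ| ≤ 1) → LipschitzWith 1 G →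
        |∫ γ, G γ ∂(law (n + h)) - ∫ γ, G γ ∂(law n)| ≤ ε)
    (hZ : ∀ ε : ℝ, 0 < ε → ∃ δ : ℝ, 0 < δ ∧ ∃ n0 : ℕ, ∀ n h : ℕ, n0 ≤ n → (h : ℝ) ≤ δ * n →
      |size (n + h) / size n - 1| ≤ ε) : FSL := by
  intro ε hε
  obtain ⟨e, he⟩ : ∃ e : ℝ, e = min (ε / 2) (1 / 2) := ⟨_, rfl⟩
  have he0 : 0 < e := by
    rw [he]
    exact lt_min (by positivity) (by norm_num)
  have he1 : e ≤ ε / 2 := he ▸ min_le_left _ _
  have he2 : e ≤ 1 / 2 := he ▸ min_le_right _ _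
  obtain ⟨δ1, hδ1, n1, h1⟩ := hE ε hε
  obtain ⟨δ2, hδ2, n2, h2⟩ := hZ e he0
  obtain ⟨δ, hδ⟩ : ∃ δ : ℝ, δ = min δ1 δ2 := ⟨_, rfl⟩
  have hδ0 : 0 < δ := by
    rw [hδ]
    exact lt_min hδ1 hδ2
  have hδa : δ ≤ δ1 := hδ ▸ min_le_left _ _
  have hδb : δ ≤ δ2 := hδ ▸ min_le_right _ _
  obtain ⟨d, hd⟩ : ∃ d : ℝ, d = δ / 2 := ⟨_, rfl⟩
  refine ⟨d, by rw [hd]; positivity, fun φ μ ρ hF τ τ' hτ hττ hτd hτ1 => ?_⟩
  have hτ' : 0 < τ' := by linarith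
  have hτ11 : τ ≤ 1 := by linarith
  have t1 := floor_top hF.top hτ
  have t2 := floor_top hF.top hτ'
  obtain ⟨n3, hn3⟩ := exists_nat_ge ((2 * d + 2) / δ)
  have hev : ∀ᶠ k in atTop, n1 ≤ ⌊τ * φ k⌋₊ ∧ n2 ≤ ⌊τ * φ k⌋₊ ∧ 1 ≤ ⌊τ * φ k⌋₊ ∧ 1 ≤ φ k ∧
      ∃ h : ℕ, ⌊τ' * φ k⌋₊ = ⌊τ * φ k⌋₊ + h ∧ (h : ℝ) ≤ δ * (⌊τ * φ k⌋₊ : ℕ) := by
    filter_upwards [t1.eventually (eventually_ge_atTop (max (max n1 n2) (max 1 n3))),
      hF.top.eventually (eventually_ge_atTop 1)] with k hk hk1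
    have g1 : max n1 n2 ≤ ⌊τ * φ k⌋₊ := (le_max_left _ _).trans hk
    have g2 : max 1 n3 ≤ ⌊τ * φ k⌋₊ := (le_max_right _ _).trans hk
    refine ⟨(le_max_left _ _).trans g1, (le_max_right _ _).trans g1, (le_max_left _ _).trans g2, hk1, ?_⟩
    refine floor_inc hd hδ0 hτ hττ hτd (hn3.trans ?_)
    exact_mod_cast (le_max_right _ _).trans g2
  refine ⟨?_, fun F hF1 hF2 => ?_⟩
  · have r1 := (hfsc φ μ ρ hF τ hτ hτ11).1
    have r2 := (hfsc φ μ ρ hF τ' hτ' hτ1).1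
    have s1 := hF.size τ hτ hτ11
    have s2 := hF.size τ' hτ' hτ1
    have s3 := (s1.div s2 r2.ne').sub_const 1
    refine le_of_tendsto s3.abs ?_
    filter_upwards [hev] with k hk
    obtain ⟨k1, k2, k3, k4, h, k5, k6⟩ := hk
    have p1 := hpos _ k3
    have p2 := hpos _ k4
    have p3 : 0 < size ⌊τ' * φ k⌋₊ := hpos _ (by omega)
    have q1 := h2 ⌊τ * φ k⌋₊ h k2 (k6.trans (mul_le_mul_of_nonneg_right hδb (Nat.cast_nonneg _)))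
    rw [← k5] at q1
    simp only [Pi.div_apply]
    generalize size (φ k) = z1 at *
    generalize size ⌊τ * φ k⌋₊ = z2 at *
    generalize size ⌊τ' * φ k⌋₊ = z3 at *
    have e1 : z2 / z1 / (z3 / z1) - 1 = (z2 - z3) / z3 := by
      field_simp
    have e2 : z3 / z2 - 1 = (z3 - z2) / z2 := by
      field_simp
    rw [e2, abs_div, abs_of_pos p1, div_le_iff₀ p1] at q1
    rw [e1, abs_div, abs_of_pos p3, div_le_iff₀ p3, abs_sub_comm]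
    have q2 := abs_le.1 q1
    have q3 : z2 ≤ 2 * z3 := by nlinarith
    calc |z3 - z2| ≤ e * z2 := q1
      _ ≤ e * (2 * z3) := mul_le_mul_of_nonneg_left q3 he0.le
      _ ≤ ε * z3 := by nlinarith
  · have s1 := int_tend (hF.law τ hτ hτ11) hF1 hF2.continuous
    have s2 := int_tend (hF.law τ' hτ' hτ1) hF1 hF2.continuous
    rw [abs_sub_comm]
    refine le_of_tendsto (s2.sub s1).abs ?_
    filter_upwards [hev] with k hk
    obtain ⟨k1, k2, k3, k4, h, k5, k6⟩ := hk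
    rw [k5]
    exact h1 ⌊τ * φ k⌋₊ h k1 (k6.trans (mul_le_mul_of_nonneg_right hδa (Nat.cast_nonneg _))) F (fun γ => by
      rw [abs_of_nonneg (hF1 γ).1]
      exact (hF1 γ).2) hF2

/-- **row FBD from the bounds of the sizes and of the curves** -/
theorem fbd_of {c C : ℝ} (hc : 0 < c) (hs : ∀ n : ℕ, 1 ≤ n → c * (n : ℝ) ^ (3 / 4 : ℝ) ≤ size n ∧
      size n ≤ C * (n : ℝ) ^ (3 / 4 : ℝ))
    (hB : ∀ ε : ℝ, 0 < ε → ∃ e : ℝ, 0 < e ∧ ∀ n : ℕ, 1 ≤ n → ∫ γ, min 1 (e * ‖γ‖) ∂(law n) ≤ ε) : FBD := by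
  have hpos : ∀ n : ℕ, 1 ≤ n → 0 < size n := fun n hn => by
    have hn' : (0 : ℝ) < n := by exact_mod_cast hn
    exact lt_of_lt_of_le (mul_pos hc (Real.rpow_pos_of_pos hn' _)) (hs n hn).1
  have hC : 0 < C := by
    have h1 := (hs 1 le_rfl).2
    have h2 := hpos 1 le_rfl
    rw [Nat.cast_one, Real.one_rpow, mul_one] at h1
    linarith
  refine ⟨fun ε hε => ?_, c / C, C / c, by positivity, fun φ μ ρ hF τ hτ hτ1 => ?_⟩
  · obtain ⟨e, he, h⟩ := hB ε hε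
    refine ⟨e, he, fun φ μ ρ hF τ hτ hτ1 => ?_⟩
    have s1 := int_tend (F := fun γ => min 1 (e * ‖γ‖)) (hF.law τ hτ hτ1)
      (fun γ => ⟨le_min zero_le_one (by positivity), min_le_left _ _⟩) (by fun_prop)
    refine le_of_tendsto s1 ?_
    filter_upwards [(floor_top hF.top hτ).eventually (eventually_ge_atTop 1)] with k hk
    exact h _ hk
  · have s0 : Tendsto (fun k => ((⌊τ * φ k⌋₊ : ℕ) : ℝ) / φ k) atTop (𝓝 τ) :=
      (tendsto_nat_floor_mul_div_atTop (R := ℝ) hτ.le).comp (tendsto_natCast_atTop_atTop.comp hF.top)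
    have s1 : Tendsto (fun k => (((⌊τ * φ k⌋₊ : ℕ) : ℝ) / φ k) ^ (3 / 4 : ℝ)) atTop (𝓝 (τ ^ (3 / 4 : ℝ))) :=
      s0.rpow_const (Or.inr (by norm_num))
    have s2 := hF.size τ hτ hτ1
    have hev : ∀ᶠ k in atTop, c / C * (((⌊τ * φ k⌋₊ : ℕ) : ℝ) / φ k) ^ (3 / 4 : ℝ) ≤ size ⌊τ * φ k⌋₊ / size (φ k) ∧
        size ⌊τ * φ k⌋₊ / size (φ k) ≤ C / c * (((⌊τ * φ k⌋₊ : ℕ) : ℝ) / φ k) ^ (3 / 4 : ℝ) := by
      filter_upwards [(floor_top hF.top hτ).eventually (eventually_ge_atTop 1),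
        hF.top.eventually (eventually_ge_atTop 1)] with k k1 k2
      have p1 := hpos _ k2
      have f1 : (0 : ℝ) < φ k := by exact_mod_cast k2
      have f2 : (0 : ℝ) < (⌊τ * φ k⌋₊ : ℕ) := by exact_mod_cast k1
      obtain ⟨a1, a2⟩ := hs _ k1
      obtain ⟨b1, b2⟩ := hs _ k2
      have f3 : (0 : ℝ) < (φ k : ℝ) ^ (3 / 4 : ℝ) := Real.rpow_pos_of_pos f1 _
      have f4 : (0 : ℝ) < ((⌊τ * φ k⌋₊ : ℕ) : ℝ) ^ (3 / 4 : ℝ) := Real.rpow_pos_of_pos f2 _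
      rw [Real.div_rpow f2.le f1.le]
      generalize size (φ k) = z1 at *
      generalize size ⌊τ * φ k⌋₊ = z2 at *
      generalize (φ k : ℝ) ^ (3 / 4 : ℝ) = u1 at *
      generalize ((⌊τ * φ k⌋₊ : ℕ) : ℝ) ^ (3 / 4 : ℝ) = u2 at *
      constructor
      · rw [le_div_iff₀ p1]
        calc c / C * (u2 / u1) * z1 ≤ c / C * (u2 / u1) * (C * u1) := mul_le_mul_of_nonneg_left b2 (by positivity)
          _ = c * u2 := by field_simp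
          _ ≤ z2 := a1
      · rw [div_le_iff₀ p1]
        calc z2 ≤ C * u2 := a2
          _ = C / c * (u2 / u1) * (c * u1) := by field_simp
          _ ≤ C / c * (u2 / u1) * z1 := mul_le_mul_of_nonneg_left b1 (by positivity)
    exact ⟨le_of_tendsto_of_tendsto (s1.const_mul _) s2 (hev.mono fun k hk => hk.1),
      le_of_tendsto_of_tendsto s2 (s1.const_mul _) (hev.mono fun k hk => hk.2)⟩

end LimFsl

end Pool.Agent.RMP
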