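import Pool.Agent.RMP.LimG
import Pool.Agent.RMP.LimDefs2

/-!
# The renormalisation map in the scaling limit, one limit, part 1 (helper83): continuity of the families, scaling
-/

set_option autoImplicit false

open MeasureTheory Filter Topology Finset
open scoped Classical Pointwise

namespace Pool.Agent.RMP

open Pool.Agent.NTS.Res

open NTSF (size_pos integral_law)

/-! ### 1. Lipschitz functions are enough -/

/-- convergence for the 1-Lipschitz functions with values in `[0, 1]` is weak convergence -/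
theorem weak_of_lip {P : ℕ → Measure C(unitInterval, ℂ)} {Q : Measure C(unitInterval, ℂ)} (hP : ∀ i, IsProbabilityMeasure (P i))
    (hQ : IsProbabilityMeasure Q) (h : ∀ F : C(unitInterval, ℂ) → ℝ, (∀ γ, 0 ≤ F γ ∧ F γ ≤ 1) → LipschitzWith 1 F →
      Tendsto (fun i => ∫ γ, F γ ∂(P i)) atTop (𝓝 (∫ γ, F γ ∂Q))) (f : BoundedContinuousFunction C(unitInterval, ℂ) ℝ) :
    Tendsto (fun i => ∫ γ, f γ ∂(P i)) atTop (𝓝 (∫ γ, f γ ∂Q)) := by
  obtain ⟨p, hp⟩ : ∃ p : ℕ → ProbabilityMeasure C(unitInterval, ℂ), p = fun i => ⟨P i, hP i⟩ := ⟨_, rfl⟩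
  obtain ⟨q, hq⟩ : ∃ q : ProbabilityMeasure C(unitInterval, ℂ), q = ⟨Q, hQ⟩ := ⟨_, rfl⟩
  have key : Tendsto p atTop (𝓝 q) := by
    rw [tendsto_iff_forall_lipschitz_integral_tendsto]
    rintro g ⟨C, hC⟩ ⟨L, hL⟩
    rw [hp, hq]
    show Tendsto (fun i => ∫ γ, g γ ∂(P i)) atTop (𝓝 (∫ γ, g γ ∂Q))
    have hcg := hL.continuous
    have hC0 : 0 ≤ C := dist_nonneg.trans (hC 0 0)
    obtain ⟨K, hK⟩ : ∃ K : ℝ, K = C + L + 1 := ⟨_, rfl⟩
    have hK1 : 0 < K := by
      rw [hK]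
      positivity
    have hb : ∀ γ, |g γ - g 0| ≤ C := fun γ => by
      have := hC γ 0
      rwa [Real.dist_eq] at this
    have h1 := h (fun γ => (g γ - g 0 + C) / (2 * K)) (fun γ => by
        have := abs_le.1 (hb γ)
        constructor
        · exact div_nonneg (by linarith) (by positivity)
        · rw [div_le_one (by positivity)]
          have : (0 : ℝ) ≤ L := L.2
          linarith) (by
        refine LipschitzWith.of_dist_le_mul fun x y => ?_
        rw [Real.dist_eq, ← sub_div, abs_div, abs_of_pos (by positivity : (0 : ℝ) < 2 * K), NNReal.coe_one, one_mul,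
          div_le_iff₀ (by positivity)]
        have := hL.dist_le_mul x y
        rw [Real.dist_eq] at this
        have hd : 0 ≤ dist x y := dist_nonneg
        have hLL : (0 : ℝ) ≤ L := L.2
        calc |g x - g 0 + C - (g y - g 0 + C)| = |g x - g y| := by
              congr 1
              ring
          _ ≤ L * dist x y := this
          _ ≤ dist x y * (2 * K) := by
              rw [hK]
              nlinarith)
    have e2 : ∀ ν : Measure C(unitInterval, ℂ), IsProbabilityMeasure ν → ∫ γ, (g γ - g 0 + C) / (2 * K) ∂ν =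
        (∫ γ, g γ ∂ν - g 0 + C) / (2 * K) := by
      intro ν hν
      have i1 : Integrable (fun γ : C(unitInterval, ℂ) => g γ) ν := by
        refine Integrable.of_bound hcg.aestronglyMeasurable (C + |g 0|) (Eventually.of_forall fun γ => ?_)
        rw [Real.norm_eq_abs]
        have := abs_sub_abs_le_abs_sub (g γ) (g 0)
        have h2 := hb γ
        linarith
      have q1 : ∫ a, (g a - g 0 + C) ∂ν = ∫ a, (g a - g 0) ∂ν + ∫ _, C ∂ν :=
        integral_add (i1.sub (integrable_const _)) (integrable_const _)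
      have q2 : ∫ a, (g a - g 0) ∂ν = ∫ a, g a ∂ν - ∫ _, g 0 ∂ν := integral_sub i1 (integrable_const _)
      rw [integral_div, q1, q2, integral_const, integral_const, probReal_univ, one_smul, one_smul]
    simp only [e2 _ (hP _)] at h1
    rw [e2 _ hQ] at h1
    have h2 := h1.mul_const (2 * K)
    have hK2 : (2 * K) ≠ 0 := by positivity
    simp only [div_mul_cancel₀ _ hK2] at h2
    have h3 := (h2.add_const (-C)).add_const (g 0)
    refine (h3.congr fun i => ?_).trans (le_of_eq ?_)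
    · ring
    · congr 1
      ring
  have h2 := (ProbabilityMeasure.tendsto_iff_forall_integral_tendsto.1 key) f
  rw [hp, hq] at h2
  exact h2

/-! ### 2. Continuity of the families -/

section

variable {φ : ℕ → ℕ} {μ : ℝ → Measure C(unitInterval, ℂ)} {ρ : ℝ → ℝ}

/-- two durations near each other -/
lemma fam_near (hS : FSL) {ε : ℝ} (hε : 0 < ε) : ∃ d : ℝ, 0 < d ∧ ∀ (φ : ℕ → ℕ) (μ : ℝ → Measure C(unitInterval, ℂ)) (ρ : ℝ → ℝ),
    Fam φ μ ρ → ∀ x y : ℝ, 0 < x → x ≤ 1 → 0 < y → y ≤ 1 → y ≤ (1 + d) * x → x ≤ (1 + d) * y →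
      (|ρ x / ρ y - 1| ≤ ε ∨ |ρ y / ρ x - 1| ≤ ε) ∧
      ∀ F : C(unitInterval, ℂ) → ℝ, (∀ γ, 0 ≤ F γ ∧ F γ ≤ 1) → LipschitzWith 1 F → |∫ γ, F γ ∂(μ x) - ∫ γ, F γ ∂(μ y)| ≤ ε := by
  obtain ⟨d, hd, h⟩ := hS ε hε
  refine ⟨d, hd, fun φ μ ρ hf x y hx hx1 hy hy1 h1 h2 => ?_⟩
  rcases le_total x y with hxy | hxy
  · obtain ⟨h3, h4⟩ := h φ μ ρ hf x y hx hxy h1 hy1
    exact ⟨Or.inl h3, h4⟩
  · obtain ⟨h3, h4⟩ := h φ μ ρ hf y x hy hxy h2 hx1
    exact ⟨Or.inr h3, fun F h0 hF => by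
      rw [abs_sub_comm]
      exact h4 F h0 hF⟩

lemma ev_near {x : ℝ} (hx : 0 < x) {u : ℕ → ℝ} (hu : Tendsto u atTop (𝓝 x)) {d : ℝ} (hd : 0 < d) :
    ∀ᶠ i in atTop, x ≤ (1 + d) * u i ∧ u i ≤ (1 + d) * x := by
  have h1 : ∀ᶠ i in atTop, x / (1 + d) < u i := hu.eventually (lt_mem_nhds (by
    rw [div_lt_iff₀ (by linarith)]
    nlinarith))
  have h2 : ∀ᶠ i in atTop, u i < (1 + d) * x := hu.eventually (gt_mem_nhds (by nlinarith))
  filter_upwards [h1, h2] with i h3 h4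
  rw [div_lt_iff₀ (by linarith)] at h3
  exact ⟨by linarith, h4.le⟩

/-- the laws are continuous in the duration -/
theorem mu_cont (hS : FSL) (hf : Fam φ μ ρ) {x : ℝ} (hx : 0 < x) (hx1 : x ≤ 1) {u : ℕ → ℝ} (hu0 : ∀ i, 0 < u i) (hu1 : ∀ i, u i ≤ 1)
    (hu : Tendsto u atTop (𝓝 x)) (f : BoundedContinuousFunction C(unitInterval, ℂ) ℝ) :
    Tendsto (fun i => ∫ γ, f γ ∂(μ (u i))) atTop (𝓝 (∫ γ, f γ ∂(μ x))) := by
  refine weak_of_lip (fun i => hf.prob _ (hu0 i) (hu1 i)) (hf.prob _ hx hx1) (fun F h0 hF => ?_) f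
  rw [Metric.tendsto_nhds]
  intro ε hε
  obtain ⟨d, hd, h⟩ := fam_near hS (half_pos hε)
  filter_upwards [ev_near hx hu hd] with i hi
  rw [Real.dist_eq]
  exact ((h φ μ ρ hf (u i) x (hu0 i) (hu1 i) hx hx1 hi.1 hi.2).2 F h0 hF).trans_lt (half_lt_self hε)

/-- the sizes are continuous in the duration -/
theorem rho_cont (hS : FSL) (hf : Fam φ μ ρ) (hρ : ∀ x, 0 < x → x ≤ 1 → 0 < ρ x) {x : ℝ} (hx : 0 < x) (hx1 : x ≤ 1) {u : ℕ → ℝ}
    (hu0 : ∀ i, 0 < u i) (hu1 : ∀ i, u i ≤ 1) (hu : Tendsto u atTop (𝓝 x)) : Tendsto (fun i => ρ (u i)) atTop (𝓝 (ρ x)) := by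
  rw [Metric.tendsto_nhds]
  intro ε hε
  have r0 := hρ x hx hx1
  obtain ⟨e, he⟩ : ∃ e, e = min (1 / 2) (ε / (4 * ρ x)) := ⟨_, rfl⟩
  have e0 : 0 < e := by
    rw [he]
    exact lt_min (by norm_num) (by positivity)
  have e1 : e ≤ 1 / 2 := by
    rw [he]
    exact min_le_left _ _
  have e2 : e * ρ x ≤ ε / 4 := by
    have h : e ≤ ε / (4 * ρ x) := by
      rw [he]
      exact min_le_right _ _
    have := mul_le_mul_of_nonneg_right h r0.le
    have h2 : ε / (4 * ρ x) * ρ x = ε / 4 := by field_simp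
    linarith
  obtain ⟨d, hd, h⟩ := fam_near hS e0
  filter_upwards [ev_near hx hu hd] with i hi
  have ru := hρ (u i) (hu0 i) (hu1 i)
  rw [Real.dist_eq]
  rcases (h φ μ ρ hf (u i) x (hu0 i) (hu1 i) hx hx1 hi.1 hi.2).1 with h3 | h3
  · have e3 : ρ (u i) - ρ x = (ρ (u i) / ρ x - 1) * ρ x := by field_simp
    rw [e3, abs_mul, abs_of_pos r0]
    have := mul_le_mul_of_nonneg_right h3 r0.le
    linarith
  · have e3 : ρ (u i) - ρ x = -((ρ x / ρ (u i) - 1) * ρ (u i)) := by field_simp; ring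
    rw [e3, abs_neg, abs_mul, abs_of_pos ru]
    have h4 := mul_le_mul_of_nonneg_right h3 ru.le
    have h5 : ρ (u i) ≤ 2 * ρ x := by
      have h6 := (abs_le.1 h3).1
      have h7 : 1 / 2 ≤ ρ x / ρ (u i) := by linarith
      rw [le_div_iff₀ ru] at h7
      linarith
    have h6 := mul_le_mul_of_nonneg_left h5 e0.le
    linarith

end

/-! ### 3. Scaling -/

lemma conc_div (t α β : ℝ) {lam : ℝ} (h : lam ≠ 0) (a b : C(unitInterval, ℂ)) :
    conc t α β a b = lam • conc t (α / lam) (β / lam) a b := by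
  ext u
  show (α : ℂ) * a _ + (β : ℂ) * (b _ - b 1) = (lam : ℂ) * (((α / lam : ℝ) : ℂ) * a _ + ((β / lam : ℝ) : ℂ) * (b _ - b 1))
  have : ((lam : ℝ) : ℂ) ≠ 0 := by exact_mod_cast h
  push_cast
  field_simp

lemma gaps_div (r α β : ℝ) {lam : ℝ} (h : 0 < lam) (a b : C(unitInterval, ℂ)) :
    gaps r α β a b = lam • gaps (r / lam) (α / lam) (β / lam) a b := by
  have hc : ((lam : ℝ) : ℂ) ≠ 0 := by exact_mod_cast h.ne'
  ext z
  rw [Set.mem_smul_set]
  constructor
  · intro hz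
    refine ⟨z / lam, ⟨?_, fun u v huv => hz.2 u v ?_⟩, ?_⟩
    · rw [norm_div, Complex.norm_of_nonneg h.le]
      exact div_le_div_of_nonneg_right hz.1 h.le
    · push_cast at huv
      field_simp at huv
      rw [huv]
    · show (lam : ℂ) * (z / lam) = z
      field_simp
  · rintro ⟨w, hw, rfl⟩
    refine ⟨?_, fun u v huv => hw.2 u v ?_⟩
    · rw [norm_smul, Real.norm_eq_abs, abs_of_pos h]
      have := hw.1
      rw [le_div_iff₀ h] at this
      linarith
    · have e : (lam • w : ℂ) = (lam : ℂ) * w := rfl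
      rw [e] at huv
      push_cast
      field_simp
      rw [huv]

/-- **the area scales** -/
lemma area_div (r α β : ℝ) {lam : ℝ} (h : 0 < lam) (a b : C(unitInterval, ℂ)) :
    (volume (gaps r α β a b)).toReal = lam ^ 2 * (volume (gaps (r / lam) (α / lam) (β / lam) a b)).toReal := by
  rw [gaps_div r α β h, Measure.addHaar_smul, ENNReal.toReal_mul, Complex.finrank_real_complex,
    ENNReal.toReal_ofReal (abs_nonneg _), abs_of_pos (by positivity)]

end Pool.Agent.RMP
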