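import Pool.Agent.RMP.LimH

/-!
# The renormalisation map in the scaling limit, one limit, part 2 (helper83): measurability, rectangles
-/

set_option autoImplicit false

open MeasureTheory Filter Topology Finset
open scoped Classical Pointwise

namespace Pool.Agent.RMP

open Pool.Agent.NTS.Res

open NTSF (size_pos integral_law)

/-- the double integral with the curve divided by `lam` -/
noncomputable def jt (μ : ℝ → Measure C(unitInterval, ℂ)) (ρ : ℝ → ℝ) (r lam : ℝ) (F : C(unitInterval, ℂ) → ℝ) (x y : ℝ) : ℝ :=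
  ∫ a, ∫ b, F (conc (x / (x + y)) (ρ x / lam) (ρ y / lam) a b) * (volume (gaps r (ρ x) (ρ y) a b)).toReal ∂(μ y) ∂(μ x)

section

variable {φ : ℕ → ℕ} {μ : ℝ → Measure C(unitInterval, ℂ)} {ρ : ℝ → ℝ}

lemma joint_jt (r : ℝ) (F : C(unitInterval, ℂ) → ℝ) (x y : ℝ) : joint μ ρ r F x y = jt μ ρ r (ρ (x + y)) F x y := rfl

lemma jt_one (r lam lam' : ℝ) (x y : ℝ) : jt μ ρ r lam (fun _ => 1) x y = jt μ ρ r lam' (fun _ => 1) x y := rfl

lemma jt_IG {r lam : ℝ} (h : 0 < lam) (F : C(unitInterval, ℂ) → ℝ) (x y : ℝ) :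
    jt μ ρ r lam F x y = lam ^ 2 * IG F (x / (x + y)) (r / lam) (ρ x / lam) (ρ y / lam) (μ x) (μ y) := by
  unfold jt IG
  rw [← integral_const_mul]
  refine integral_congr_ae (Eventually.of_forall fun a => ?_)
  show ∫ b, F (conc (x / (x + y)) (ρ x / lam) (ρ y / lam) a b) * (volume (gaps r (ρ x) (ρ y) a b)).toReal ∂(μ y) =
    lam ^ 2 * ∫ b, F (conc (x / (x + y)) (ρ x / lam) (ρ y / lam) a b) *
      (volume (gaps (r / lam) (ρ x / lam) (ρ y / lam) a b)).toReal ∂(μ y)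
  rw [← integral_const_mul]
  refine integral_congr_ae (Eventually.of_forall fun b => ?_)
  show F _ * (volume (gaps r (ρ x) (ρ y) a b)).toReal = lam ^ 2 * (F _ * _)
  rw [area_div r (ρ x) (ρ y) h a b]
  ring

/-- the area is at most `π r ^ 2` -/
lemma area_le (hG : GI) {r : ℝ} (hr : 0 ≤ r) (α β : ℝ) (a b : C(unitInterval, ℂ)) :
    (volume (gaps r α β a b)).toReal ≤ Real.pi * r ^ 2 := (hG.1 1 r α β a b one_pos hr).2.2

lemma fst_meas (F : C(unitInterval, ℂ) → ℝ) (hF : Continuous F) (t α β : ℝ) :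
    Continuous fun p : C(unitInterval, ℂ) × C(unitInterval, ℂ) => F (conc t α β p.1 p.2) := hF.comp (conc_cont t α β)

/-- the integrand is measurable -/
lemma jt_meas (hG : GI) {F : C(unitInterval, ℂ) → ℝ} (hF : Continuous F) (t r α β α' β' : ℝ) :
    Measurable fun p : C(unitInterval, ℂ) × C(unitInterval, ℂ) => F (conc t α β p.1 p.2) * (volume (gaps r α' β' p.1 p.2)).toReal :=
  (fst_meas F hF t α β).measurable.mul (hG.2.2.2.1 r α' β')

/-- bounded measurable functions: the iterated integral is the integral over the product -/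
lemma dI_prod {P Q : Measure C(unitInterval, ℂ)} [IsProbabilityMeasure P] [IsProbabilityMeasure Q]
    {f : C(unitInterval, ℂ) × C(unitInterval, ℂ) → ℝ} (hf : Measurable f) {M : ℝ} (hb : ∀ p, |f p| ≤ M) :
    Integrable f (P.prod Q) ∧ ∫ a, ∫ b, f (a, b) ∂Q ∂P = ∫ p, f p ∂(P.prod Q) := by
  have h : Integrable f (P.prod Q) := Integrable.of_bound hf.aestronglyMeasurable M (Eventually.of_forall fun p => by
    rw [Real.norm_eq_abs]
    exact hb p)
  exact ⟨h, (integral_prod f h).symm⟩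

/-- **two functionals** -/
lemma jt_close (hG : GI) {F G : C(unitInterval, ℂ) → ℝ} (hF : Continuous F) (hF1 : ∀ γ, |F γ| ≤ 1) (hGc : Continuous G)
    (hG1 : ∀ γ, |G γ| ≤ 1) {x y r lam lam' : ℝ} (hr : 0 ≤ r) (hx : IsProbabilityMeasure (μ x)) (hy : IsProbabilityMeasure (μ y))
    (h : ∀ a b, |F (conc (x / (x + y)) (ρ x / lam) (ρ y / lam) a b) - F (conc (x / (x + y)) (ρ x / lam') (ρ y / lam') a b)| ≤
      G (conc (x / (x + y)) (ρ x / lam') (ρ y / lam') a b)) :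
    |jt μ ρ r lam F x y - jt μ ρ r lam' F x y| ≤ jt μ ρ r lam' G x y := by
  obtain ⟨w, hw⟩ : ∃ w : (C(unitInterval, ℂ) → ℝ) → ℝ → C(unitInterval, ℂ) × C(unitInterval, ℂ) → ℝ, w = fun H l p =>
    H (conc (x / (x + y)) (ρ x / l) (ρ y / l) p.1 p.2) * (volume (gaps r (ρ x) (ρ y) p.1 p.2)).toReal := ⟨_, rfl⟩
  have hm : ∀ H : C(unitInterval, ℂ) → ℝ, Continuous H → ∀ l, Measurable (w H l) := fun H hH l => by
    rw [hw]
    exact jt_meas hG hH _ _ _ _ _ _
  have hb : ∀ H : C(unitInterval, ℂ) → ℝ, (∀ γ, |H γ| ≤ 1) → ∀ l p, |w H l p| ≤ Real.pi * r ^ 2 := fun H hH l p => by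
    rw [hw]
    show |H _ * _| ≤ _
    rw [abs_mul, abs_of_nonneg (ENNReal.toReal_nonneg)]
    have := mul_le_mul (hH (conc (x / (x + y)) (ρ x / l) (ρ y / l) p.1 p.2)) (area_le hG hr (ρ x) (ρ y) p.1 p.2)
      ENNReal.toReal_nonneg zero_le_one
    linarith
  have hj : ∀ (H : C(unitInterval, ℂ) → ℝ) (l : ℝ), jt μ ρ r l H x y = ∫ a, ∫ b, w H l (a, b) ∂(μ y) ∂(μ x) := fun H l => by
    rw [hw]
    rfl
  obtain ⟨i1, e1⟩ := dI_prod (P := μ x) (Q := μ y) (hm F hF lam) (hb F hF1 lam)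
  obtain ⟨i2, e2⟩ := dI_prod (P := μ x) (Q := μ y) (hm F hF lam') (hb F hF1 lam')
  obtain ⟨i3, e3⟩ := dI_prod (P := μ x) (Q := μ y) (hm G hGc lam') (hb G hG1 lam')
  rw [hj, hj, hj, e1, e2, e3, ← integral_sub i1 i2]
  refine (abs_integral_le_integral_abs).trans (integral_mono (i1.sub i2).abs i3 fun p => ?_)
  rw [hw]
  show |F _ * _ - F _ * _| ≤ G _ * _
  rw [← sub_mul, abs_mul, abs_of_nonneg (ENNReal.toReal_nonneg)]
  exact mul_le_mul_of_nonneg_right (h p.1 p.2) ENNReal.toReal_nonneg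

lemma jt_nonneg {F : C(unitInterval, ℂ) → ℝ} (h0 : ∀ γ, 0 ≤ F γ) (r lam x y : ℝ) : 0 ≤ jt μ ρ r lam F x y :=
  integral_nonneg fun _ => integral_nonneg fun _ => mul_nonneg (h0 _) ENNReal.toReal_nonneg

lemma jt_bdd (hG : GI) {F : C(unitInterval, ℂ) → ℝ} (hF1 : ∀ γ, |F γ| ≤ 1) {x y r lam : ℝ} (hr : 0 ≤ r)
    (hx : IsProbabilityMeasure (μ x)) (hy : IsProbabilityMeasure (μ y)) : |jt μ ρ r lam F x y| ≤ Real.pi * r ^ 2 := by
  have hbd : ∀ (a b : C(unitInterval, ℂ)),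
      ‖F (conc (x / (x + y)) (ρ x / lam) (ρ y / lam) a b) * (volume (gaps r (ρ x) (ρ y) a b)).toReal‖ ≤ Real.pi * r ^ 2 := by
    intro a b
    rw [norm_mul, Real.norm_eq_abs, Real.norm_eq_abs, abs_of_nonneg (ENNReal.toReal_nonneg)]
    have := mul_le_mul (hF1 (conc (x / (x + y)) (ρ x / lam) (ρ y / lam) a b)) (area_le hG hr (ρ x) (ρ y) a b)
      ENNReal.toReal_nonneg zero_le_one
    linarith
  have h1 : ∀ a, ‖∫ b, F (conc (x / (x + y)) (ρ x / lam) (ρ y / lam) a b) * (volume (gaps r (ρ x) (ρ y) a b)).toReal ∂(μ y)‖ ≤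
      Real.pi * r ^ 2 := fun a => by
    have := norm_integral_le_of_norm_le_const (μ := μ y) (Eventually.of_forall fun b => hbd a b)
    rwa [probReal_univ, mul_one] at this
  have := norm_integral_le_of_norm_le_const (μ := μ x) (Eventually.of_forall h1)
  rwa [probReal_univ, mul_one, Real.norm_eq_abs] at this

/-- **the functions of the durations are measurable on the triangle** -/
theorem jt_aesm (hG : GI) (hW : WK) (hS : FSL) (hf : Fam φ μ ρ) (hρ : ∀ x, 0 < x → x ≤ 1 → 0 < ρ x)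
    {F : C(unitInterval, ℂ) → ℝ} (h0 : ∀ γ, 0 ≤ F γ ∧ F γ ≤ 1) (hF : LipschitzWith 1 F) {r : ℝ} (hr : 0 ≤ r) {lam : ℝ × ℝ → ℝ}
    {U : Set (ℝ × ℝ)} (hUm : MeasurableSet U) (hU : ∀ p ∈ U, 0 < p.1 ∧ p.1 ≤ 1 ∧ 0 < p.2 ∧ p.2 ≤ 1)
    (hl0 : ∀ p ∈ U, 0 < lam p) (hlc : ∀ p ∈ U, ∀ u : ℕ → ℝ × ℝ, (∀ i, u i ∈ U) → Tendsto u atTop (𝓝 p) →
      Tendsto (fun i => lam (u i)) atTop (𝓝 (lam p))) :
    AEStronglyMeasurable (fun p : ℝ × ℝ => jt μ ρ r (lam p) F p.1 p.2) ((volume : Measure (ℝ × ℝ)).restrict U) := by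
  -- the smooth version is continuous
  have hcont : ∀ δ : ℝ, 0 < δ → ContinuousOn (fun p : ℝ × ℝ => lam p ^ 2 * II F δ (p.1 / (p.1 + p.2)) (r / lam p) (ρ p.1 / lam p)
      (ρ p.2 / lam p) (μ p.1) (μ p.2)) U := by
    intro δ hδ p hp
    obtain ⟨p1, p2, p3, p4⟩ := hU p hp
    refine tendsto_of_seq_tendsto fun u hu => ?_
    -- the sequence is in U eventually: replace it
    have hu1 : Tendsto u atTop (𝓝 p) := hu.mono_right nhdsWithin_le_nhds
    have hu2 : ∀ᶠ i in atTop, u i ∈ U := hu.eventually self_mem_nhdsWithin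
    obtain ⟨v, hv⟩ : ∃ v : ℕ → ℝ × ℝ, v = fun i => if u i ∈ U then u i else p := ⟨_, rfl⟩
    have hvU : ∀ i, v i ∈ U := fun i => by
      rw [hv]
      show (if u i ∈ U then u i else p) ∈ U
      split_ifs with h
      · exact h
      · exact hp
    have hvu : ∀ᶠ i in atTop, u i = v i := by
      filter_upwards [hu2] with i hi
      rw [hv]
      show u i = if u i ∈ U then u i else p
      rw [if_pos hi]
    have hvt : Tendsto v atTop (𝓝 p) := hu1.congr' hvu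
    have key : Tendsto (fun i => lam (v i) ^ 2 * II F δ ((v i).1 / ((v i).1 + (v i).2)) (r / lam (v i)) (ρ (v i).1 / lam (v i))
        (ρ (v i).2 / lam (v i)) (μ (v i).1) (μ (v i).2)) atTop (𝓝 (lam p ^ 2 * II F δ (p.1 / (p.1 + p.2)) (r / lam p)
        (ρ p.1 / lam p) (ρ p.2 / lam p) (μ p.1) (μ p.2))) := by
      have hl := hlc p hp v hvU hvt
      have lp := hl0 p hp
      have v1 : Tendsto (fun i => (v i).1) atTop (𝓝 p.1) := (continuous_fst.tendsto p).comp hvt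
      have v2 : Tendsto (fun i => (v i).2) atTop (𝓝 p.2) := (continuous_snd.tendsto p).comp hvt
      have q1 : ∀ i, 0 < (v i).1 := fun i => (hU _ (hvU i)).1
      have q2 : ∀ i, (v i).1 ≤ 1 := fun i => (hU _ (hvU i)).2.1
      have q3 : ∀ i, 0 < (v i).2 := fun i => (hU _ (hvU i)).2.2.1
      have q4 : ∀ i, (v i).2 ≤ 1 := fun i => (hU _ (hvU i)).2.2.2
      have r1 := rho_cont hS hf hρ p1 p2 q1 q2 v1
      have r2 := rho_cont hS hf hρ p3 p4 q3 q4 v2
      have m1 := mu_cont hS hf p1 p2 q1 q2 v1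
      have m2 := mu_cont hS hf p3 p4 q3 q4 v2
      have hs : 0 < p.1 + p.2 := by linarith
      refine (hl.pow 2).mul ?_
      exact hW (fun i => μ (v i).1) (fun i => μ (v i).2) (μ p.1) (μ p.2) (fun i => hf.prob _ (q1 i) (q2 i))
        (fun i => hf.prob _ (q3 i) (q4 i)) (hf.prob _ p1 p2) (hf.prob _ p3 p4) m1 m2 _ _ _ _ (p.1 / (p.1 + p.2)) (ρ p.1 / lam p)
        (ρ p.2 / lam p) (r / lam p) δ (div_pos p1 hs) (by rw [div_lt_one hs]; linarith) (div_nonneg hr lp.le) hδ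
        (v1.div (v1.add v2) hs.ne') (r1.div hl lp.ne') (r2.div hl lp.ne') (tendsto_const_nhds.div hl lp.ne') F h0 hF
    refine key.congr' ?_
    filter_upwards [hvu] with i hi
    show _ = lam (u i) ^ 2 * II F δ ((u i).1 / ((u i).1 + (u i).2)) (r / lam (u i)) (ρ (u i).1 / lam (u i))
        (ρ (u i).2 / lam (u i)) (μ (u i).1) (μ (u i).2)
    rw [hi]
  -- the limit
  refine aestronglyMeasurable_of_tendsto_ae atTop (fun j : ℕ => (hcont _ (del_pos j)).aestronglyMeasurable hUm) ?_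
  refine (ae_restrict_mem hUm).mono fun p hp => ?_
  obtain ⟨p1, p2, p3, p4⟩ := hU p hp
  have i1 := hf.prob p.1 p1 p2
  have i2 := hf.prob p.2 p3 p4
  show Tendsto _ atTop (𝓝 (jt μ ρ r (lam p) F p.1 p.2))
  rw [jt_IG (hl0 p hp)]
  exact (IG_lim hG h0 hF (div_nonneg hr (hl0 p hp).le) _ _ _ _ _).const_mul _

end

end Pool.Agent.RMP
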