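import Pool.Agent.RMP.LimI

/-!
# The renormalisation map in the scaling limit, one limit, part 3 (helper83): one small rectangle
-/

set_option autoImplicit false

open MeasureTheory Filter Topology Finset
open scoped Classical Pointwise

namespace Pool.Agent.RMP

open Pool.Agent.NTS.Res

open NTSF (size_pos integral_law)

section

variable {φ : ℕ → ℕ} {μ : ℝ → Measure C(unitInterval, ℂ)} {ρ : ℝ → ℝ}

/-- the rectangle -/
lemma rmap_rect {τ lam : ℝ} (hτ : 0 < τ) (hl : 0 < lam) (s d r : ℝ) (F : C(unitInterval, ℂ) → ℝ) :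
    rmap (fun x => μ (τ * x)) (fun x => ρ (τ * x) / lam) s d (r / lam) F =
      (τ ^ 2 * lam ^ 2)⁻¹ * ∫ x in (τ * s)..(τ * ((1 + d) * s)), ∫ y in (τ * (1 - s))..(τ * ((1 + d) * (1 - s))),
        jt μ ρ r lam F x y := by
  have e1 : ∀ x y : ℝ, (∫ a, ∫ b, F (conc (x / (x + y)) (ρ (τ * x) / lam) (ρ (τ * y) / lam) a b) *
      (volume (gaps (r / lam) (ρ (τ * x) / lam) (ρ (τ * y) / lam) a b)).toReal ∂(μ (τ * y)) ∂(μ (τ * x))) =
      (lam ^ 2)⁻¹ * jt μ ρ r lam F (τ * x) (τ * y) := by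
    intro x y
    rw [jt_IG hl, ← mul_assoc, inv_mul_cancel₀ (by positivity), one_mul, ← mul_add, mul_div_mul_left _ _ hτ.ne']
    rfl
  have e2 : rmap (fun x => μ (τ * x)) (fun x => ρ (τ * x) / lam) s d (r / lam) F =
      ∫ x in s..(1 + d) * s, ∫ y in (1 - s)..(1 + d) * (1 - s), (lam ^ 2)⁻¹ * jt μ ρ r lam F (τ * x) (τ * y) := by
    unfold rmap
    simp only [e1]
  rw [e2]
  have e3 : ∀ x : ℝ, ∫ y in (1 - s)..(1 + d) * (1 - s), (lam ^ 2)⁻¹ * jt μ ρ r lam F (τ * x) (τ * y) =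
      (lam ^ 2)⁻¹ * (τ⁻¹ * ∫ y in (τ * (1 - s))..(τ * ((1 + d) * (1 - s))), jt μ ρ r lam F (τ * x) y) := by
    intro x
    rw [intervalIntegral.integral_const_mul, intervalIntegral.integral_comp_mul_left (fun y => jt μ ρ r lam F (τ * x) y) hτ.ne',
      smul_eq_mul]
  simp only [e3]
  rw [intervalIntegral.integral_const_mul, intervalIntegral.integral_const_mul, intervalIntegral.integral_comp_mul_left
    (fun x => ∫ y in (τ * (1 - s))..(τ * ((1 + d) * (1 - s))), jt μ ρ r lam F x y) hτ.ne', smul_eq_mul]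
  field_simp

/-- the sum over a small rectangle -/
noncomputable def RR (μ : ℝ → Measure C(unitInterval, ℂ)) (ρ : ℝ → ℝ) (r d x0 y0 : ℝ) (F : C(unitInterval, ℂ) → ℝ) : ℝ :=
  ∫ x in x0..(1 + d) * x0, ∫ y in y0..(1 + d) * y0, jt μ ρ r (ρ (x0 + y0)) F x y

/-- **one small rectangle, by scaling** -/
theorem rect1 (hR : RMLim) (hA : FSC) {ε : ℝ} (hε : 0 < ε) : ∃ d0 : ℝ, 0 < d0 ∧ ∀ d : ℝ, 0 < d → d ≤ d0 → ∃ c C r0 : ℝ, 0 < c ∧
    0 < r0 ∧ ∀ (φ : ℕ → ℕ) (μ : ℝ → Measure C(unitInterval, ℂ)) (ρ : ℝ → ℝ), Fam φ μ ρ → ∀ x0 y0 r : ℝ, 0 < x0 → 0 < y0 →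
      x0 + y0 ≤ 1 → ε * (x0 + y0) ≤ x0 → ε * (x0 + y0) ≤ y0 → 0 < r → r ≤ r0 * ρ (x0 + y0) →
        c * (r / ρ (x0 + y0)) ^ (59 / 24 : ℝ) * ((x0 + y0) ^ 2 * ρ (x0 + y0) ^ 2) ≤ RR μ ρ r d x0 y0 (fun _ => 1) ∧
        RR μ ρ r d x0 y0 (fun _ => 1) ≤ C * (r / ρ (x0 + y0)) ^ (59 / 24 : ℝ) * ((x0 + y0) ^ 2 * ρ (x0 + y0) ^ 2) ∧
        ∀ F : C(unitInterval, ℂ) → ℝ, (∀ γ, 0 ≤ F γ ∧ F γ ≤ 1) → LipschitzWith 1 F →
          |RR μ ρ r d x0 y0 F - (∫ γ, F γ ∂(μ (x0 + y0))) * RR μ ρ r d x0 y0 (fun _ => 1)| ≤ ε * RR μ ρ r d x0 y0 (fun _ => 1) := by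
  obtain ⟨d0, hd0, h1⟩ := hR ε hε
  refine ⟨d0, hd0, fun d hd hdd => ?_⟩
  obtain ⟨c, C, r0, hc, hr0, h2⟩ := h1 d hd hdd
  refine ⟨c, C, r0, hc, hr0, fun φ μ ρ hf x0 y0 r hx hy hxy hex hey hr hrr => ?_⟩
  obtain ⟨τ, hτd⟩ : ∃ τ, τ = x0 + y0 := ⟨_, rfl⟩
  rw [← hτd] at hxy hex hey hrr ⊢
  have hτ : 0 < τ := by
    rw [hτd]
    linarith
  obtain ⟨hρ, hf'⟩ := hA φ μ ρ hf τ hτ hxy
  obtain ⟨s, hs⟩ : ∃ s, s = x0 / τ := ⟨_, rfl⟩
  have hs1 : τ * s = x0 := by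
    rw [hs]
    field_simp
  have hs2 : τ * (1 - s) = y0 := by
    rw [mul_sub, hs1, hτd]
    ring
  have g := h2 _ _ _ hf' (r / ρ τ) s (div_pos hr hρ) ((div_le_iff₀ hρ).2 hrr)
    (by rw [hs, le_div_iff₀ hτ]; exact hex)
    (by
      have : τ * ε ≤ τ * (1 - s) := by
        rw [hs2]
        linarith
      have := le_of_mul_le_mul_left this hτ
      linarith)
  have e : ∀ F : C(unitInterval, ℂ) → ℝ, rmap (fun x => μ (τ * x)) (fun x => ρ (τ * x) / ρ τ) s d (r / ρ τ) F =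
      (τ ^ 2 * ρ τ ^ 2)⁻¹ * RR μ ρ r d x0 y0 F := by
    intro F
    rw [rmap_rect hτ hρ]
    unfold RR
    rw [← hτd, show τ * ((1 + d) * s) = (1 + d) * x0 by rw [← hs1]; ring, show τ * ((1 + d) * (1 - s)) = (1 + d) * y0 by
      rw [← hs2]; ring, hs1, hs2]
  obtain ⟨g1, g2, g3⟩ := g
  have hK : 0 < τ ^ 2 * ρ τ ^ 2 := by positivity
  rw [e] at g1 g2
  refine ⟨?_, ?_, fun F h0 hF => ?_⟩
  · rw [inv_mul_eq_div, le_div_iff₀ hK] at g1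
    exact g1
  · rw [inv_mul_eq_div, div_le_iff₀ hK] at g2
    exact g2
  · have g4 := g3 F h0 hF
    rw [e, e, mul_div_mul_left _ _ (inv_pos.2 hK).ne', mul_one] at g4
    have hp : 0 < RR μ ρ r d x0 y0 (fun _ => 1) := by
      have h5 : 0 < c * (r / ρ τ) ^ (59 / 24 : ℝ) := mul_pos hc (Real.rpow_pos_of_pos (div_pos hr hρ) _)
      have h6 := lt_of_lt_of_le h5 g1
      rw [inv_mul_eq_div, lt_div_iff₀ hK, zero_mul] at h6
      exact h6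
    have e5 : RR μ ρ r d x0 y0 F / RR μ ρ r d x0 y0 (fun _ => 1) - ∫ γ, F γ ∂(μ τ) =
        (RR μ ρ r d x0 y0 F - (∫ γ, F γ ∂(μ τ)) * RR μ ρ r d x0 y0 (fun _ => 1)) / RR μ ρ r d x0 y0 (fun _ => 1) := by
      field_simp
    rw [e5, abs_div, abs_of_pos hp, div_le_iff₀ hp] at g4
    exact g4

/-- iterated integral and product -/
lemma it_prod {a b c e : ℝ} (hab : a ≤ b) (hce : c ≤ e) {g : ℝ × ℝ → ℝ}
    (hg : IntegrableOn g (Set.Ioc a b ×ˢ Set.Ioc c e) (volume : Measure (ℝ × ℝ))) :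
    ∫ x in a..b, ∫ y in c..e, g (x, y) = ∫ p in Set.Ioc a b ×ˢ Set.Ioc c e, g p := by
  rw [intervalIntegral.integral_of_le hab, Measure.volume_eq_prod, setIntegral_prod g (by rwa [← Measure.volume_eq_prod])]
  refine integral_congr_ae (Eventually.of_forall fun x => ?_)
  exact intervalIntegral.integral_of_le hce

/-- bounded functions on a rectangle -/
lemma int_rect {a b c e M : ℝ} {g : ℝ × ℝ → ℝ} (hm : AEStronglyMeasurable g ((volume : Measure (ℝ × ℝ)).restrict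
    (Set.Ioc a b ×ˢ Set.Ioc c e))) (hb : ∀ p ∈ Set.Ioc a b ×ˢ Set.Ioc c e, |g p| ≤ M) :
    IntegrableOn g (Set.Ioc a b ×ˢ Set.Ioc c e) (volume : Measure (ℝ × ℝ)) := by
  have hfin : (volume : Measure (ℝ × ℝ)) (Set.Ioc a b ×ˢ Set.Ioc c e) ≠ ⊤ := by
    rw [Measure.volume_eq_prod, Measure.prod_prod]
    exact ENNReal.mul_ne_top measure_Ioc_lt_top.ne measure_Ioc_lt_top.ne
  have : IsFiniteMeasure ((volume : Measure (ℝ × ℝ)).restrict (Set.Ioc a b ×ˢ Set.Ioc c e)) := ⟨by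
    rw [Measure.restrict_apply_univ]
    exact hfin.lt_top⟩
  exact Integrable.of_bound hm M ((ae_restrict_mem (measurableSet_Ioc.prod measurableSet_Ioc)).mono fun p hp => by
    rw [Real.norm_eq_abs]
    exact hb p hp)

/-- **one small rectangle** -/
theorem rect2 (hR : RMLim) (hG : GI) (hW : WK) (hA : FSC) (hS : FSL) (hB : FBD) {ε s0 : ℝ} (hε : 0 < ε) (hs0 : 0 < s0) :
    ∃ d0 : ℝ, 0 < d0 ∧ ∀ d : ℝ, 0 < d → d ≤ d0 → ∃ c C r0 : ℝ, 0 < c ∧ 0 < r0 ∧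
    ∀ (φ : ℕ → ℕ) (μ : ℝ → Measure C(unitInterval, ℂ)) (ρ : ℝ → ℝ), Fam φ μ ρ → ∀ x0 y0 r : ℝ, 0 < x0 → 0 < y0 →
      (1 + d) * (x0 + y0) ≤ 1 → s0 * (x0 + y0) ≤ x0 → s0 * (x0 + y0) ≤ y0 → 0 < r → r ≤ r0 * ρ (x0 + y0) →
        c * (r / ρ (x0 + y0)) ^ (59 / 24 : ℝ) * ((x0 + y0) ^ 2 * ρ (x0 + y0) ^ 2) ≤
          (∫ p in Set.Ioc x0 ((1 + d) * x0) ×ˢ Set.Ioc y0 ((1 + d) * y0), joint μ ρ r (fun _ => 1) p.1 p.2) ∧
        (∫ p in Set.Ioc x0 ((1 + d) * x0) ×ˢ Set.Ioc y0 ((1 + d) * y0), joint μ ρ r (fun _ => 1) p.1 p.2) ≤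
          C * (r / ρ (x0 + y0)) ^ (59 / 24 : ℝ) * ((x0 + y0) ^ 2 * ρ (x0 + y0) ^ 2) ∧
        ∀ F : C(unitInterval, ℂ) → ℝ, (∀ γ, 0 ≤ F γ ∧ F γ ≤ 1) → LipschitzWith 1 F →
          |∫ p in Set.Ioc x0 ((1 + d) * x0) ×ˢ Set.Ioc y0 ((1 + d) * y0), (joint μ ρ r F p.1 p.2 -
            (∫ γ, F γ ∂(μ (p.1 + p.2))) * joint μ ρ r (fun _ => 1) p.1 p.2)| ≤
              ε * ∫ p in Set.Ioc x0 ((1 + d) * x0) ×ˢ Set.Ioc y0 ((1 + d) * y0), joint μ ρ r (fun _ => 1) p.1 p.2 := by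
  obtain ⟨ε', hε'⟩ : ∃ x, x = min (ε / 4) s0 := ⟨_, rfl⟩
  have e'0 : 0 < ε' := by
    rw [hε']
    exact lt_min (by positivity) hs0
  have e'1 : ε' ≤ ε / 4 := hε' ▸ min_le_left _ _
  have e'2 : ε' ≤ s0 := hε' ▸ min_le_right _ _
  obtain ⟨e0, he0, hB1⟩ := hB.1 (ε / 4) (by positivity)
  obtain ⟨e, he⟩ : ∃ e, e = min (min e0 1) (ε / 4) := ⟨_, rfl⟩
  have e1 : 0 < e := by
    rw [he]
    exact lt_min (lt_min he0 one_pos) (by positivity)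
  have e2 : e ≤ e0 := by
    rw [he]
    exact (min_le_left _ _).trans (min_le_left _ _)
  have e3 : e ≤ 1 := by
    rw [he]
    exact (min_le_left _ _).trans (min_le_right _ _)
  have e4 : e ≤ ε / 4 := by
    rw [he]
    exact min_le_right _ _
  obtain ⟨d1, hd1, hS1⟩ := hS e e1
  obtain ⟨d2, hd2, h1⟩ := rect1 hR hA e'0
  refine ⟨min d1 d2, lt_min hd1 hd2, fun d hd hdd => ?_⟩
  have dd1 : d ≤ d1 := hdd.trans (min_le_left _ _)
  have dd2 : d ≤ d2 := hdd.trans (min_le_right _ _)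
  obtain ⟨c, C, r0, hc, hr0, h2⟩ := h1 d hd dd2
  refine ⟨c, C, r0, hc, hr0, fun φ μ ρ hf x0 y0 r hx hy hxy hsx hsy hr hrr => ?_⟩
  obtain ⟨τ, hτd⟩ : ∃ τ, τ = x0 + y0 := ⟨_, rfl⟩
  have hτ : 0 < τ := by
    rw [hτd]
    linarith
  have hτ1 : τ ≤ 1 := by
    rw [hτd]
    nlinarith
  have hρ : ∀ x, 0 < x → x ≤ 1 → 0 < ρ x := fun x h0 h1 => (hA φ μ ρ hf x h0 h1).1
  obtain ⟨g1, g2, g3⟩ := h2 φ μ ρ hf x0 y0 r hx hy (by linarith) ((mul_le_mul_of_nonneg_right e'2 (by linarith)).trans hsx)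
    ((mul_le_mul_of_nonneg_right e'2 (by linarith)).trans hsy) hr hrr
  obtain ⟨U, hU⟩ : ∃ U : Set (ℝ × ℝ), U = Set.Ioc x0 ((1 + d) * x0) ×ˢ Set.Ioc y0 ((1 + d) * y0) := ⟨_, rfl⟩
  have hUm : MeasurableSet U := by
    rw [hU]
    exact measurableSet_Ioc.prod measurableSet_Ioc
  have hU1 : ∀ p ∈ U, τ ≤ p.1 + p.2 ∧ p.1 + p.2 ≤ (1 + d) * τ ∧ 0 < p.1 ∧ 0 < p.2 ∧ p.1 + p.2 ≤ 1 := by
    intro p hp
    rw [hU] at hp
    obtain ⟨⟨a1, a2⟩, b1, b2⟩ := hp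
    refine ⟨by linarith, by rw [hτd]; linarith, by linarith, by linarith, by linarith⟩
  have hU2 : ∀ p ∈ U, 0 < p.1 ∧ p.1 ≤ 1 ∧ 0 < p.2 ∧ p.2 ≤ 1 := by
    intro p hp
    obtain ⟨-, -, a1, a2, a3⟩ := hU1 p hp
    exact ⟨a1, by linarith, a2, by linarith⟩
  have hxx : x0 ≤ (1 + d) * x0 := by nlinarith
  have hyy : y0 ≤ (1 + d) * y0 := by nlinarith
  -- measurability
  have hadd : ∀ p ∈ U, ∀ u : ℕ → ℝ × ℝ, (∀ i, u i ∈ U) → Tendsto u atTop (𝓝 p) →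
      Tendsto (fun i => (u i).1 + (u i).2) atTop (𝓝 (p.1 + p.2)) := fun p _ u _ hup =>
    ((continuous_fst.tendsto p).comp hup).add ((continuous_snd.tendsto p).comp hup)
  have mj : ∀ F : C(unitInterval, ℂ) → ℝ, (∀ γ, 0 ≤ F γ ∧ F γ ≤ 1) → LipschitzWith 1 F →
      AEStronglyMeasurable (fun p : ℝ × ℝ => joint μ ρ r F p.1 p.2) ((volume : Measure (ℝ × ℝ)).restrict U) := fun F h0 hF =>
    jt_aesm hG hW hS hf hρ h0 hF hr.le hUm hU2 (lam := fun p => ρ (p.1 + p.2))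
      (fun p hp => hρ _ (by linarith [(hU1 p hp).2.2.1, (hU1 p hp).2.2.2.1]) (hU1 p hp).2.2.2.2) fun p hp u hu hup =>
        rho_cont hS hf hρ (by linarith [(hU1 p hp).2.2.1, (hU1 p hp).2.2.2.1]) (hU1 p hp).2.2.2.2
          (fun i => by linarith [(hU1 _ (hu i)).2.2.1, (hU1 _ (hu i)).2.2.2.1]) (fun i => (hU1 _ (hu i)).2.2.2.2)
          (hadd p hp u hu hup)
  have mt : ∀ F : C(unitInterval, ℂ) → ℝ, (∀ γ, 0 ≤ F γ ∧ F γ ≤ 1) → LipschitzWith 1 F →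
      AEStronglyMeasurable (fun p : ℝ × ℝ => jt μ ρ r (ρ τ) F p.1 p.2) ((volume : Measure (ℝ × ℝ)).restrict U) := fun F h0 hF =>
    jt_aesm hG hW hS hf hρ h0 hF hr.le hUm hU2 (lam := fun _ => ρ τ) (fun p _ => hρ τ hτ hτ1) fun _ _ _ _ _ => tendsto_const_nhds
  have mm : ∀ F : C(unitInterval, ℂ) → ℝ, (∀ γ, 0 ≤ F γ ∧ F γ ≤ 1) → LipschitzWith 1 F →
      AEStronglyMeasurable (fun p : ℝ × ℝ => ∫ γ, F γ ∂(μ (p.1 + p.2))) ((volume : Measure (ℝ × ℝ)).restrict U) := by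
    intro F h0 hF
    refine ContinuousOn.aestronglyMeasurable (fun p hp => ?_) hUm
    refine tendsto_of_seq_tendsto fun u hu => ?_
    have hu1 : Tendsto u atTop (𝓝 p) := hu.mono_right nhdsWithin_le_nhds
    have hu2 : ∀ᶠ i in atTop, u i ∈ U := hu.eventually self_mem_nhdsWithin
    obtain ⟨v, hv⟩ : ∃ v : ℕ → ℝ × ℝ, v = fun i => if u i ∈ U then u i else p := ⟨_, rfl⟩
    have hvU : ∀ i, v i ∈ U := fun i => by
      rw [hv]
      show (if u i ∈ U then u i else p) ∈ U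
      split_ifs with h
      · exact h
      · exact hp
    have hvu : ∀ᶠ i in atTop, u i = v i := by
      filter_upwards [hu2] with i hi
      rw [hv]
      show u i = if u i ∈ U then u i else p
      rw [if_pos hi]
    have hvt : Tendsto v atTop (𝓝 p) := hu1.congr' hvu
    have key := mu_cont hS hf (by linarith [(hU1 p hp).2.2.1, (hU1 p hp).2.2.2.1]) (hU1 p hp).2.2.2.2
      (fun i => by linarith [(hU1 _ (hvU i)).2.2.1, (hU1 _ (hvU i)).2.2.2.1]) (fun i => (hU1 _ (hvU i)).2.2.2.2)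
      (hadd p hp v hvU hvt) (bcf F hF.continuous 1 fun γ => by
        rw [abs_of_nonneg (h0 γ).1]
        exact (h0 γ).2)
    simp only [bcf_apply] at key
    refine key.congr' ?_
    filter_upwards [hvu] with i hi
    show _ = ∫ γ, F γ ∂(μ ((u i).1 + (u i).2))
    rw [hi]
  -- bounds
  have habs : ∀ {F : C(unitInterval, ℂ) → ℝ}, (∀ γ, 0 ≤ F γ ∧ F γ ≤ 1) → ∀ γ, |F γ| ≤ 1 := fun h0 γ => by
    rw [abs_of_nonneg (h0 γ).1]
    exact (h0 γ).2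
  have pr1 : ∀ p ∈ U, IsProbabilityMeasure (μ p.1) := fun p hp => hf.prob _ (hU2 p hp).1 (hU2 p hp).2.1
  have pr2 : ∀ p ∈ U, IsProbabilityMeasure (μ p.2) := fun p hp => hf.prob _ (hU2 p hp).2.2.1 (hU2 p hp).2.2.2
  have pr3 : ∀ p ∈ U, IsProbabilityMeasure (μ (p.1 + p.2)) := fun p hp =>
    hf.prob _ (by linarith [(hU1 p hp).2.2.1, (hU1 p hp).2.2.2.1]) (hU1 p hp).2.2.2.2
  have bt : ∀ F : C(unitInterval, ℂ) → ℝ, (∀ γ, 0 ≤ F γ ∧ F γ ≤ 1) → ∀ lam : ℝ, ∀ p ∈ U,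
      |jt μ ρ r lam F p.1 p.2| ≤ Real.pi * r ^ 2 := fun F h0 lam p hp => jt_bdd hG (habs h0) hr.le (pr1 p hp) (pr2 p hp)
  have bm : ∀ F : C(unitInterval, ℂ) → ℝ, (∀ γ, 0 ≤ F γ ∧ F γ ≤ 1) → ∀ p ∈ U, 0 ≤ ∫ γ, F γ ∂(μ (p.1 + p.2)) ∧
      ∫ γ, F γ ∂(μ (p.1 + p.2)) ≤ 1 := by
    intro F h0 p hp
    have := pr3 p hp
    refine ⟨integral_nonneg fun γ => (h0 γ).1, ?_⟩
    have h5 := norm_integral_le_of_norm_le_const (μ := μ (p.1 + p.2)) (f := F) (Eventually.of_forall fun γ => by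
      rw [Real.norm_eq_abs]
      exact habs h0 γ)
    rw [probReal_univ, mul_one, Real.norm_eq_abs] at h5
    exact (le_abs_self _).trans h5
  -- RR as integrals over U
  have hRR : ∀ F : C(unitInterval, ℂ) → ℝ, (∀ γ, 0 ≤ F γ ∧ F γ ≤ 1) → LipschitzWith 1 F →
      RR μ ρ r d x0 y0 F = ∫ p in U, jt μ ρ r (ρ τ) F p.1 p.2 := by
    intro F h0 hF
    unfold RR
    rw [← hτd, hU]
    exact it_prod hxx hyy (g := fun p : ℝ × ℝ => jt μ ρ r (ρ τ) F p.1 p.2)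
      (int_rect (hU ▸ mt F h0 hF) (fun p hp => bt F h0 _ p (hU ▸ hp)))
  have one0 : ∀ γ : C(unitInterval, ℂ), (0 : ℝ) ≤ (fun _ : C(unitInterval, ℂ) => (1 : ℝ)) γ ∧
      (fun _ : C(unitInterval, ℂ) => (1 : ℝ)) γ ≤ 1 := fun _ => ⟨zero_le_one, le_rfl⟩
  have one1 : LipschitzWith 1 (fun _ : C(unitInterval, ℂ) => (1 : ℝ)) := (LipschitzWith.const 1).weaken zero_le_one
  have hj1 : (∫ p in U, joint μ ρ r (fun _ => 1) p.1 p.2) = RR μ ρ r d x0 y0 (fun _ => 1) := by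
    rw [hRR _ one0 one1]
    rfl
  rw [← hU, hj1]
  refine ⟨g1, g2, fun F h0 hF => ?_⟩
  have g3F := g3 F h0 hF
  -- the auxiliary function
  obtain ⟨G, hGd⟩ : ∃ G : C(unitInterval, ℂ) → ℝ, G = fun γ => min 1 (e * ‖γ‖) := ⟨_, rfl⟩
  have G0 : ∀ γ, 0 ≤ G γ ∧ G γ ≤ 1 := fun γ => by
    rw [hGd]
    exact ⟨le_min zero_le_one (mul_nonneg e1.le (norm_nonneg _)), min_le_left _ _⟩
  have hGL : LipschitzWith 1 G := by
    rw [hGd]
    refine LipschitzWith.of_dist_le_mul fun γ γ' => ?_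
    rw [Real.dist_eq, NNReal.coe_one, one_mul]
    refine (abs_min_sub_min_le_max _ _ _ _).trans ?_
    rw [sub_self, abs_zero, max_eq_right (abs_nonneg _), ← mul_sub, abs_mul, abs_of_pos e1, dist_eq_norm]
    have h5 := abs_norm_sub_norm_le γ γ'
    have h6 := mul_le_mul e3 h5 (abs_nonneg _) zero_le_one
    linarith
  have g3G := g3 G G0 hGL
  have hGm : ∫ γ, G γ ∂(μ τ) ≤ ε / 4 := by
    have pτ := hf.prob τ hτ hτ1
    refine le_trans ?_ (hB1 φ μ ρ hf τ hτ hτ1)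
    refine integral_mono ?_ ?_ fun γ => ?_
    · exact Integrable.of_bound hGL.continuous.aestronglyMeasurable 1 (Eventually.of_forall fun γ => by
        rw [Real.norm_eq_abs]
        exact habs G0 γ)
    · exact Integrable.of_bound (by fun_prop) 1 (Eventually.of_forall fun γ => by
        rw [Real.norm_eq_abs, abs_of_nonneg (le_min zero_le_one (mul_nonneg he0.le (norm_nonneg _)))]
        exact min_le_left _ _)
    · rw [hGd]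
      exact min_le_min le_rfl (mul_le_mul_of_nonneg_right e2 (norm_nonneg _))
  have hR0 : 0 ≤ RR μ ρ r d x0 y0 (fun _ => 1) := by
    rw [hRR _ one0 one1]
    exact integral_nonneg fun p => jt_nonneg (fun _ => zero_le_one) _ _ _ _
  have hRG : RR μ ρ r d x0 y0 G ≤ (ε / 4 + ε') * RR μ ρ r d x0 y0 (fun _ => 1) := by
    have h5 := (abs_le.1 g3G).2
    rw [← hτd] at h5
    have h6 := mul_le_mul_of_nonneg_right hGm hR0
    linarith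
  -- the pointwise estimate
  have hpt : ∀ p ∈ U, |(joint μ ρ r F p.1 p.2 - (∫ γ, F γ ∂(μ (p.1 + p.2))) * joint μ ρ r (fun _ => 1) p.1 p.2) -
      (jt μ ρ r (ρ τ) F p.1 p.2 - (∫ γ, F γ ∂(μ τ)) * jt μ ρ r (ρ τ) (fun _ => 1) p.1 p.2)| ≤
      jt μ ρ r (ρ τ) G p.1 p.2 + ε / 4 * jt μ ρ r (ρ τ) (fun _ => 1) p.1 p.2 := by
    intro p hp
    obtain ⟨a1, a2, a3, a4, a5⟩ := hU1 p hp
    obtain ⟨k1, k2⟩ := hS1 φ μ ρ hf τ (p.1 + p.2) hτ a1 (a2.trans (mul_le_mul_of_nonneg_right (by linarith) hτ.le)) a5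
    have hk2 := k2 F h0 hF
    have pτ := hρ τ hτ hτ1
    have ps := hρ (p.1 + p.2) (by linarith) a5
    have c1 : |joint μ ρ r F p.1 p.2 - jt μ ρ r (ρ τ) F p.1 p.2| ≤ jt μ ρ r (ρ τ) G p.1 p.2 := by
      rw [joint_jt]
      refine jt_close hG hF.continuous (habs h0) hGL.continuous (habs G0) hr.le (pr1 p hp) (pr2 p hp) fun a b => ?_
      obtain ⟨w, hw⟩ : ∃ w, w = conc (p.1 / (p.1 + p.2)) (ρ p.1 / ρ τ) (ρ p.2 / ρ τ) a b := ⟨_, rfl⟩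
      have hcw : conc (p.1 / (p.1 + p.2)) (ρ p.1 / ρ (p.1 + p.2)) (ρ p.2 / ρ (p.1 + p.2)) a b =
          (ρ τ / ρ (p.1 + p.2)) • w := by
        rw [hw, conc_div _ _ _ (lam := ρ τ / ρ (p.1 + p.2)) (div_pos pτ ps).ne']
        congr 2
        · field_simp
        · field_simp
      rw [hcw, ← hw]
      have h6 := hF.dist_le_mul ((ρ τ / ρ (p.1 + p.2)) • w) w
      rw [Real.dist_eq, NNReal.coe_one, one_mul, dist_eq_norm] at h6
      have h7 : (ρ τ / ρ (p.1 + p.2)) • w - w = (ρ τ / ρ (p.1 + p.2) - 1) • w := by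
        ext u
        show (ρ τ / ρ (p.1 + p.2)) • (w u) - w u = (ρ τ / ρ (p.1 + p.2) - 1) • (w u)
        rw [sub_smul, one_smul]
      rw [h7, norm_smul, Real.norm_eq_abs] at h6
      rw [hGd]
      refine le_min ?_ (h6.trans (mul_le_mul_of_nonneg_right k1 (norm_nonneg _)))
      rw [abs_le]
      have q1 := h0 ((ρ τ / ρ (p.1 + p.2)) • w)
      have q2 := h0 w
      constructor <;> linarith
    have j1 : joint μ ρ r (fun _ => 1) p.1 p.2 = jt μ ρ r (ρ τ) (fun _ => 1) p.1 p.2 := rfl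
    rw [j1]
    have j0 : 0 ≤ jt μ ρ r (ρ τ) (fun _ => 1) p.1 p.2 := jt_nonneg (fun _ => zero_le_one) _ _ _ _
    have e5 : (joint μ ρ r F p.1 p.2 - (∫ γ, F γ ∂(μ (p.1 + p.2))) * jt μ ρ r (ρ τ) (fun _ => 1) p.1 p.2) -
      (jt μ ρ r (ρ τ) F p.1 p.2 - (∫ γ, F γ ∂(μ τ)) * jt μ ρ r (ρ τ) (fun _ => 1) p.1 p.2) =
      (joint μ ρ r F p.1 p.2 - jt μ ρ r (ρ τ) F p.1 p.2) +
        (∫ γ, F γ ∂(μ τ) - ∫ γ, F γ ∂(μ (p.1 + p.2))) * jt μ ρ r (ρ τ) (fun _ => 1) p.1 p.2 := by ring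
    rw [e5]
    refine (abs_add_le _ _).trans (add_le_add c1 ?_)
    rw [abs_mul, abs_of_nonneg j0]
    exact mul_le_mul_of_nonneg_right (hk2.trans e4) j0
  -- integrate
  have iF : IntegrableOn (fun p : ℝ × ℝ => jt μ ρ r (ρ τ) F p.1 p.2) U := by
    rw [hU]
    exact int_rect (hU ▸ mt F h0 hF) (fun p hp => bt F h0 _ p (hU ▸ hp))
  have iG : IntegrableOn (fun p : ℝ × ℝ => jt μ ρ r (ρ τ) G p.1 p.2) U := by
    rw [hU]
    exact int_rect (hU ▸ mt G G0 hGL) (fun p hp => bt G G0 _ p (hU ▸ hp))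
  have i1 : IntegrableOn (fun p : ℝ × ℝ => jt μ ρ r (ρ τ) (fun _ => 1) p.1 p.2) U := by
    rw [hU]
    exact int_rect (hU ▸ mt _ one0 one1) (fun p hp => bt _ one0 _ p (hU ▸ hp))
  have iJ : IntegrableOn (fun p : ℝ × ℝ => joint μ ρ r F p.1 p.2) U := by
    rw [hU]
    exact int_rect (hU ▸ mj F h0 hF) (fun p hp => by
      rw [joint_jt]
      exact bt F h0 _ p (hU ▸ hp))
  have iM : IntegrableOn (fun p : ℝ × ℝ => (∫ γ, F γ ∂(μ (p.1 + p.2))) * joint μ ρ r (fun _ => 1) p.1 p.2) U := by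
    rw [hU]
    refine int_rect (M := 1 * (Real.pi * r ^ 2)) (hU ▸ (mm F h0 hF).mul (mj _ one0 one1)) (fun p hp => ?_)
    have hp' : p ∈ U := hU ▸ hp
    rw [abs_mul, abs_of_nonneg (bm F h0 p hp').1, joint_jt]
    exact mul_le_mul (bm F h0 p hp').2 (bt _ one0 _ p hp') (abs_nonneg _) zero_le_one
  obtain ⟨A, hAd⟩ : ∃ A : ℝ × ℝ → ℝ, A = fun p => joint μ ρ r F p.1 p.2 -
    (∫ γ, F γ ∂(μ (p.1 + p.2))) * joint μ ρ r (fun _ => 1) p.1 p.2 := ⟨_, rfl⟩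
  obtain ⟨B, hBd⟩ : ∃ B : ℝ × ℝ → ℝ, B = fun p => jt μ ρ r (ρ τ) F p.1 p.2 -
    (∫ γ, F γ ∂(μ τ)) * jt μ ρ r (ρ τ) (fun _ => 1) p.1 p.2 := ⟨_, rfl⟩
  have iA : IntegrableOn A U := by
    rw [hAd]
    exact iJ.sub iM
  have iB : IntegrableOn B U := by
    rw [hBd]
    exact iF.sub (i1.const_mul _)
  have hB1' : |∫ p in U, B p| ≤ ε' * RR μ ρ r d x0 y0 (fun _ => 1) := by
    have h5 : ∫ p in U, B p = RR μ ρ r d x0 y0 F - (∫ γ, F γ ∂(μ τ)) * RR μ ρ r d x0 y0 (fun _ => 1) := by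
      rw [hBd, integral_sub iF (i1.const_mul _), integral_const_mul, hRR F h0 hF, hRR _ one0 one1]
    rw [h5, hτd]
    exact g3F
  have hAB : |(∫ p in U, A p) - ∫ p in U, B p| ≤ RR μ ρ r d x0 y0 G + ε / 4 * RR μ ρ r d x0 y0 (fun _ => 1) := by
    rw [← integral_sub iA iB]
    refine (abs_integral_le_integral_abs).trans ?_
    have h5 : RR μ ρ r d x0 y0 G + ε / 4 * RR μ ρ r d x0 y0 (fun _ => 1) =
        ∫ p in U, (jt μ ρ r (ρ τ) G p.1 p.2 + ε / 4 * jt μ ρ r (ρ τ) (fun _ => 1) p.1 p.2) := by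
      rw [integral_add iG (i1.const_mul _), integral_const_mul, hRR G G0 hGL, hRR _ one0 one1]
    rw [h5]
    refine setIntegral_mono_on (iA.sub iB).abs (iG.add (i1.const_mul _)) hUm fun p hp => ?_
    rw [hAd, hBd]
    exact hpt p hp
  have hAA : (∫ p in U, (joint μ ρ r F p.1 p.2 - (∫ γ, F γ ∂(μ (p.1 + p.2))) * joint μ ρ r (fun _ => 1) p.1 p.2)) =
      ∫ p in U, A p := by rw [hAd]
  rw [hAA]
  have t1 := abs_le.1 hB1'
  have t2 := abs_le.1 hAB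
  have t3 := mul_le_mul_of_nonneg_right e'1 hR0
  rw [abs_le]
  constructor <;> linarith [t1.1, t1.2, t2.1, t2.2]

end

end Pool.Agent.RMP
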