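import Pool.Agent.RMP.LimDefs
import Pool.Agent.RMP.DefsK

/-!
# The renormalisation map in the scaling limit: the rows (helper83)

`mind` = distance of the two placed curves, `sm δ` = cut-off (`0` on `x ≤ δ`, `1` on `2 δ ≤ x`), `gint` = smooth area of the gaps,
`cnt` = its lattice form (one class of vertices), `ntsum` = the pairs with a near touch.
-/

set_option autoImplicit false

open MeasureTheory Filter Topology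
open scoped Classical

namespace Pool.Agent.RMP

open Pool.Agent.NTS.Res

/-- the cut-off -/
noncomputable def sm (δ x : ℝ) : ℝ := max 0 (min 1 (x / δ - 1))

/-- the distance of the curve `α a` with its end at `0` and the curve `β b` with its end at `z` -/
noncomputable def mind (α β : ℝ) (a b : C(unitInterval, ℂ)) (z : ℂ) : ℝ :=
  ⨅ p : unitInterval × unitInterval, ‖(α : ℂ) * (a p.1 - a 1) - (z + (β : ℂ) * (b p.2 - b 1))‖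

/-- the smooth area of the gaps -/
noncomputable def gint (δ r α β : ℝ) (a b : C(unitInterval, ℂ)) : ℝ :=
  ∫ z in Metric.closedBall (0 : ℂ) r, sm δ (mind α β a b z)

/-- the vertices of one class per unit of area -/
noncomputable def dens : ℝ := 2 / (3 * Real.sqrt 3)

/-- the term of one place `p` of the second walk -/
noncomputable def term (δ : ℝ) (n : ℕ) {m l : ℕ} (a : Fin m → Fin 3) (b : Fin l → Fin 3) (R σ : ℝ) (p : ℤ × ℤ) : ℝ :=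
  if IsV p ∧ sgv p = (σ : ℂ) ∧ ‖bpos p b l - pos a m‖ ≤ R then
    sm δ (mind (size m / size n) (size l / size n) (curve a) (σ • curve b) ((bpos p b l - pos a m) / size n)) else 0

/-- the lattice form of `gint` -/
noncomputable def cnt (δ : ℝ) (n : ℕ) {m l : ℕ} (a : Fin m → Fin 3) (b : Fin l → Fin 3) (R σ : ℝ) : ℝ :=
  ∑' p : ℤ × ℤ, term δ n a b R σ p

/-- **row CNT** -/
def CNT : Prop := ∀ δ M : ℝ, 0 < δ → 0 < M → ∃ C : ℝ, 0 < C ∧ ∀ (n m l : ℕ) (a : Fin m → Fin 3) (b : Fin l → Fin 3) (R σ : ℝ),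
  1 ≤ n → 0 ≤ R → R ≤ M * size n → (σ = 1 ∨ σ = -1) →
    |cnt δ n a b R σ / size n ^ 2 - dens * gint δ (R / size n) (size m / size n) (size l / size n) (curve a) (σ • curve b)| ≤
      C / size n

/-- the pairs with a near touch -/
noncomputable def ntsum (n k : ℕ) (d R q : ℝ) : ℝ :=
  ∑ m ∈ win d k, ∑ l ∈ win d (n - k), (∑ a ∈ saw m, ∑ b ∈ saw l, ∑' p : ℤ × ℤ,
    if Nears a b p R ∧ ∃ i j : ℕ, i ≤ m ∧ j ≤ l ∧ ‖pos a i - bpos p b j‖ ≤ q then (1 : ℝ) else 0) /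
      (((saw m).card : ℝ) * (saw l).card)

/-- **row NTS** (from `HexObs.RMP.ntpSt`) -/
def NTS : Prop := ∀ ε M : ℝ, 0 < ε → 0 < M → ∃ (q : ℝ) (n0 : ℕ), 0 < q ∧ ∀ (n k : ℕ) (d R : ℝ), n0 ≤ n → ε * n ≤ k →
  (k : ℝ) ≤ (1 - ε) * n → 0 ≤ d → d ≤ 1 → 0 ≤ R → R ≤ M * (n : ℝ) ^ (3 / 4 : ℝ) →
    ntsum n k d R (q * (n : ℝ) ^ (3 / 4 : ℝ)) ≤ ε * (n : ℝ) ^ (7 / 2 : ℝ)

/-- **row WK** (weak convergence, no walks) -/
def WK : Prop := ∀ (P Q : ℕ → Measure C(unitInterval, ℂ)) (μ μ' : Measure C(unitInterval, ℂ)),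
  (∀ i, IsProbabilityMeasure (P i)) → (∀ i, IsProbabilityMeasure (Q i)) → IsProbabilityMeasure μ → IsProbabilityMeasure μ' →
  (∀ f : BoundedContinuousFunction C(unitInterval, ℂ) ℝ, Tendsto (fun i => ∫ γ, f γ ∂(P i)) atTop (𝓝 (∫ γ, f γ ∂μ))) →
  (∀ f : BoundedContinuousFunction C(unitInterval, ℂ) ℝ, Tendsto (fun i => ∫ γ, f γ ∂(Q i)) atTop (𝓝 (∫ γ, f γ ∂μ'))) →
  ∀ (t α β r : ℕ → ℝ) (t0 α0 β0 r0 δ : ℝ), 0 < t0 → t0 < 1 → 0 ≤ r0 → 0 < δ → Tendsto t atTop (𝓝 t0) →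
    Tendsto α atTop (𝓝 α0) → Tendsto β atTop (𝓝 β0) → Tendsto r atTop (𝓝 r0) → ∀ F : C(unitInterval, ℂ) → ℝ,
    (∀ γ, 0 ≤ F γ ∧ F γ ≤ 1) → LipschitzWith 1 F →
      Tendsto (fun i => ∫ a, ∫ b, F (conc (t i) (α i) (β i) a b) * gint δ (r i) (α i) (β i) a b ∂(Q i) ∂(P i)) atTop
        (𝓝 (∫ a, ∫ b, F (conc t0 α0 β0 a b) * gint δ r0 α0 β0 a b ∂μ' ∂μ))

/-- **row GI** (the smooth area, no walks) -/
def GI : Prop := (∀ (δ r α β : ℝ) (a b : C(unitInterval, ℂ)), 0 < δ → 0 ≤ r → 0 ≤ gint δ r α β a b ∧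
    gint δ r α β a b ≤ (volume (gaps r α β a b)).toReal ∧ (volume (gaps r α β a b)).toReal ≤ Real.pi * r ^ 2) ∧
  (∀ (r α β : ℝ) (a b : C(unitInterval, ℂ)), 0 ≤ r → Tendsto (fun j : ℕ => gint (1 / (j + 1)) r α β a b) atTop
    (𝓝 (volume (gaps r α β a b)).toReal)) ∧
  (∀ (δ r α β : ℝ), 0 < δ → 0 ≤ r → Continuous fun p : C(unitInterval, ℂ) × C(unitInterval, ℂ) => gint δ r α β p.1 p.2) ∧
  (∀ r α β : ℝ, Measurable fun p : C(unitInterval, ℂ) × C(unitInterval, ℂ) => (volume (gaps r α β p.1 p.2)).toReal) ∧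
  ∀ (δ r α β : ℝ) (a b : C(unitInterval, ℂ)), gint δ r α β a (-b) = gint δ r α (-β) a b

/-- **row SI** (sums and integrals, no walks) -/
def SI : Prop := ∀ (s d M : ℝ) (φ k : ℕ → ℕ) (A : ℕ → ℕ → ℕ → ℝ) (B : ℝ → ℝ → ℝ), 0 < s → s < 1 → 0 < d →
  Tendsto φ atTop atTop → Tendsto (fun i => (k i : ℝ) / φ i) atTop (𝓝 s) → (∀ i, k i ≤ φ i) → (∀ i m l, |A i m l| ≤ M) →
  (∀ x y : ℝ, s < x → x < (1 + d) * s → 1 - s < y → y < (1 + d) * (1 - s) →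
    Tendsto (fun i => A i ⌊x * φ i⌋₊ ⌊y * φ i⌋₊) atTop (𝓝 (B x y))) →
    Tendsto (fun i => (∑ m ∈ win d (k i), ∑ l ∈ win d (φ i - k i), A i m l) / (φ i : ℝ) ^ 2) atTop
      (𝓝 (∫ x in s..(1 + d) * s, ∫ y in (1 - s)..(1 + d) * (1 - s), B x y))

/-- **row NEG** -/
def NEG : Prop := ∀ ε : ℝ, 0 < ε → ∃ n0 : ℕ, ∀ n : ℕ, n0 ≤ n → ∀ F : C(unitInterval, ℂ) → ℝ, (∀ γ, 0 ≤ F γ ∧ F γ ≤ 1) →
  LipschitzWith 1 F → |∫ γ, F (-γ) ∂(law n) - ∫ γ, F γ ∂(law n)| ≤ ε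

/-- **row LOW** (from `LowPR` of RMP/SepRA) -/
def LOW : Prop := ∀ ε d : ℝ, 0 < ε → 0 < d → d ≤ 1 → ∃ c r0 : ℝ, 0 < c ∧ 0 < r0 ∧ ∀ r : ℝ, 0 < r → r ≤ r0 → ∃ n0 : ℕ,
  ∀ n k : ℕ, n0 ≤ n → ε * n ≤ k → (k : ℝ) ≤ (1 - ε) * n →
    c * r ^ (59 / 24 : ℝ) * (n : ℝ) ^ (7 / 2 : ℝ) ≤ psum n k d (r * (n : ℝ) ^ (3 / 4 : ℝ)) fun _ => 1

/-- **row UPP** (from `T1P`) -/
def UPP : Prop := ∀ ε : ℝ, 0 < ε → ∃ C : ℝ, 0 < C ∧ ∀ r : ℝ, 0 < r → r ≤ 1 → ∃ n0 : ℕ, ∀ (n k : ℕ) (d : ℝ), n0 ≤ n →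
  ε * n ≤ k → (k : ℝ) ≤ (1 - ε) * n → 0 ≤ d → d ≤ 1 →
    psum n k d (r * (n : ℝ) ^ (3 / 4 : ℝ)) (fun _ => 1) ≤ C * r ^ (59 / 24 : ℝ) * (n : ℝ) ^ (7 / 2 : ℝ)

/-- **row SUB** : every sequence has a subsequence with all the limits -/
def SUB : Prop := ∀ φ : ℕ → ℕ, Tendsto φ atTop atTop → ∃ (ψ : ℕ → ℕ) (μ : ℝ → Measure C(unitInterval, ℂ)) (ρ : ℝ → ℝ),
  StrictMono ψ ∧ Fam (φ ∘ ψ) μ ρ

end Pool.Agent.RMP
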