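import Pool.Agent.RMP.LimRows

/-!
# The renormalisation map in the scaling limit, row SUB, part 1 (helper65)

**`LimSub.sub_of`**: every sequence has a subsequence along which the laws of the walks with `⌊x φ k⌋` steps and the ratios of the
sizes converge for all `x ∈ (0, 1]` at once: the rational `x` by compactness (Prokhorov, countable product), the other ones
because neither the law nor the size changes much when the number of steps changes a little.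
-/

set_option autoImplicit false

open MeasureTheory Filter Topology
open scoped Classical

namespace Pool.Agent.RMP

open Pool.Agent.NTS.Res

namespace LimSub

/-- a sequence near convergent sequences converges -/
lemma conv_near {s : ℕ → ℝ} (h : ∀ ε : ℝ, 0 < ε → ∃ t : ℕ → ℝ, (∃ l, Tendsto t atTop (𝓝 l)) ∧
    ∀ᶠ k in atTop, |s k - t k| ≤ ε) : ∃ l, Tendsto s atTop (𝓝 l) := by
  refine cauchySeq_tendsto_of_complete (Metric.cauchySeq_iff'.2 fun ε hε => ?_)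
  obtain ⟨t, ⟨l, hl⟩, ht⟩ := h (ε / 5) (by positivity)
  have h1 : ∀ᶠ k in atTop, |t k - l| < ε / 5 := by
    have := hl.eventually (Metric.ball_mem_nhds l (show 0 < ε / 5 by positivity))
    filter_upwards [this] with k hk
    exact hk
  obtain ⟨N, hN⟩ := eventually_atTop.1 (ht.and h1)
  refine ⟨N, fun k hk => ?_⟩
  obtain ⟨a1, a2⟩ := hN k hk
  obtain ⟨a3, a4⟩ := hN N le_rfl
  rw [Real.dist_eq]
  rw [abs_le] at a1 a3
  rw [abs_lt] at a2 a4 ⊢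
  constructor <;> linarith [a1.1, a1.2, a2.1, a2.2, a3.1, a3.2, a4.1, a4.2]

lemma floor_near {x δ : ℝ} (hx : 0 < x) (hδ : 0 < δ) (n0 : ℕ) : ∃ q : ℚ, 0 < q ∧ (q : ℝ) < x ∧ ∃ n1 : ℕ, ∀ n : ℕ, n1 ≤ n →
    ∃ h : ℕ, ⌊x * n⌋₊ = ⌊(q : ℝ) * n⌋₊ + h ∧ (h : ℝ) ≤ δ * ⌊(q : ℝ) * n⌋₊ ∧ n0 ≤ ⌊(q : ℝ) * n⌋₊ := by
  have h0 : x / (1 + δ / 2) < x := by
    rw [div_lt_iff₀ (by positivity)]
    nlinarith
  obtain ⟨q, h1, h2⟩ := exists_rat_btwn h0
  have hq : (0 : ℝ) < q := lt_trans (by positivity) h1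
  rw [div_lt_iff₀ (by positivity)] at h1
  obtain ⟨n1, hn1⟩ := exists_nat_ge ((2 * (1 + δ) / δ + n0 + 1) / q)
  refine ⟨q, by exact_mod_cast hq, h2, n1, fun n hn => ?_⟩
  have hn' : (2 * (1 + δ) / δ + n0 + 1) / q ≤ n := hn1.trans (by exact_mod_cast hn)
  rw [div_le_iff₀ hq] at hn'
  have b1 : 0 ≤ 2 * (1 + δ) / δ := by positivity
  have b0 : (0 : ℝ) ≤ n0 := Nat.cast_nonneg _
  have hnn : (0 : ℝ) ≤ n := Nat.cast_nonneg n
  have c1 := Nat.lt_floor_add_one ((q : ℝ) * n)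
  have c2 := Nat.floor_le (show 0 ≤ x * (n : ℝ) by positivity)
  have c3 : ⌊(q : ℝ) * n⌋₊ ≤ ⌊x * n⌋₊ := Nat.floor_le_floor (mul_le_mul_of_nonneg_right h2.le hnn)
  obtain ⟨h, hh⟩ := Nat.exists_eq_add_of_le c3
  refine ⟨h, hh, ?_, ?_⟩
  · have d1 : (⌊x * n⌋₊ : ℝ) = ⌊(q : ℝ) * n⌋₊ + h := by
      rw [hh]
      push_cast
      ring
    have d2 : x * n ≤ q * (1 + δ / 2) * n := mul_le_mul_of_nonneg_right h1.le hnn
    have d3 : 2 * (1 + δ) / δ ≤ n * q := by linarith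
    rw [div_le_iff₀ hδ] at d3
    have d4 : (h : ℝ) ≤ q * (1 + δ / 2) * n - ⌊(q : ℝ) * n⌋₊ := by linarith
    nlinarith
  · have d1 : (n0 : ℝ) < ⌊(q : ℝ) * n⌋₊ := by linarith
    exact_mod_cast d1.le

/-- the subsequence for the rational numbers -/
lemma sub_rat {C : ℝ} (hp : ∀ n : ℕ, IsProbabilityMeasure (law n)) (ht : IsTightMeasureSet {μ | ∃ n : ℕ, 1 ≤ n ∧ μ = law n})
    (hC : ∀ i n : ℕ, 1 ≤ i → i ≤ n → 0 ≤ size i / size n ∧ size i / size n ≤ C) {φ : ℕ → ℕ} (hφ : Tendsto φ atTop atTop) :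
    ∃ ψ : ℕ → ℕ, StrictMono ψ ∧ ∀ q : ℚ, 0 < q → q ≤ 1 →
      (∃ l, Tendsto (fun k => size ⌊(q : ℝ) * φ (ψ k)⌋₊ / size (φ (ψ k))) atTop (𝓝 l)) ∧
      ∀ f : BoundedContinuousFunction C(unitInterval, ℂ) ℝ,
        ∃ l, Tendsto (fun k => ∫ γ, f γ ∂(law ⌊(q : ℝ) * φ (ψ k)⌋₊)) atTop (𝓝 l) := by
  obtain ⟨PL, hPL⟩ : ∃ PL : ℕ → ProbabilityMeasure C(unitInterval, ℂ), PL = fun n => ⟨law (max 1 n), hp _⟩ := ⟨_, rfl⟩
  have hK : IsCompact (closure (Set.range PL)) := by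
    refine isCompact_closure_of_isTightMeasureSet (ht.subset ?_)
    rintro μ ⟨p, ⟨n, rfl⟩, rfl⟩
    rw [hPL]
    exact ⟨max 1 n, le_max_left _ _, rfl⟩
  obtain ⟨u, hu⟩ : ∃ u : ℕ → {q : ℚ // 0 < q ∧ q ≤ 1} → ProbabilityMeasure C(unitInterval, ℂ) × ℝ,
      u = fun k (q : {q : ℚ // 0 < q ∧ q ≤ 1}) =>
        (PL ⌊((q.1 : ℚ) : ℝ) * φ k⌋₊, size (max 1 ⌊((q.1 : ℚ) : ℝ) * φ k⌋₊) / size (max 1 (φ k))) := ⟨_, rfl⟩
  have hS : IsCompact (Set.univ.pi fun _ : {q : ℚ // 0 < q ∧ q ≤ 1} => closure (Set.range PL) ×ˢ Set.Icc (0 : ℝ) C) :=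
    isCompact_univ_pi fun _ => hK.prod isCompact_Icc
  have hmem : ∀ k, u k ∈ Set.univ.pi fun _ : {q : ℚ // 0 < q ∧ q ≤ 1} => closure (Set.range PL) ×ˢ Set.Icc (0 : ℝ) C := by
    rintro k ⟨q, hq0, hq1⟩ -
    rw [hu]
    refine ⟨subset_closure ⟨_, rfl⟩, ?_⟩
    refine hC _ _ (le_max_left _ _) (max_le_max le_rfl ?_)
    have h1 : (q : ℝ) ≤ 1 := by exact_mod_cast hq1
    have h2 : (q : ℝ) * φ k ≤ φ k := mul_le_of_le_one_left (Nat.cast_nonneg _) h1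
    exact (Nat.floor_le_floor h2).trans (le_of_eq (Nat.floor_natCast _))
  obtain ⟨a, -, ψ, hψ, hlim⟩ := hS.tendsto_subseq hmem
  refine ⟨ψ, hψ, fun q hq0 hq1 => ?_⟩
  have hθ : Tendsto (fun k => φ (ψ k)) atTop atTop := hφ.comp hψ.tendsto_atTop
  have hq0' : (0 : ℝ) < q := by exact_mod_cast hq0
  have hfl : Tendsto (fun k => ⌊(q : ℝ) * φ (ψ k)⌋₊) atTop atTop :=
    tendsto_nat_floor_atTop.comp (Tendsto.const_mul_atTop hq0' (tendsto_natCast_atTop_atTop.comp hθ))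
  have h1 := (tendsto_pi_nhds.1 hlim) ⟨q, hq0, hq1⟩
  have h2 := (continuous_fst.tendsto _).comp h1
  have h3 := (continuous_snd.tendsto _).comp h1
  have e1 : ∀ᶠ k in atTop, 1 ≤ ⌊(q : ℝ) * φ (ψ k)⌋₊ ∧ 1 ≤ φ (ψ k) :=
    (hfl.eventually (eventually_ge_atTop 1)).and (hθ.eventually (eventually_ge_atTop 1))
  refine ⟨⟨_, h3.congr' ?_⟩, fun f => ?_⟩
  · filter_upwards [e1] with k hk
    show (u (ψ k) ⟨q, hq0, hq1⟩).2 = _
    rw [hu]
    show size (max 1 ⌊(q : ℝ) * φ (ψ k)⌋₊) / size (max 1 (φ (ψ k))) = _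
    rw [max_eq_right hk.1, max_eq_right hk.2]
  · have h4 := (ProbabilityMeasure.tendsto_iff_forall_integral_tendsto.1 h2) f
    refine ⟨_, h4.congr' ?_⟩
    filter_upwards [e1] with k hk
    have h5 : ((u (ψ k) ⟨q, hq0, hq1⟩).1 : Measure C(unitInterval, ℂ)) = law ⌊(q : ℝ) * φ (ψ k)⌋₊ := by
      rw [hu, hPL]
      show law (max 1 ⌊(q : ℝ) * φ (ψ k)⌋₊) = _
      rw [max_eq_right hk.1]
    show ∫ γ, f γ ∂((u (ψ k) ⟨q, hq0, hq1⟩).1 : Measure C(unitInterval, ℂ)) = _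
    rw [h5]

/-- **row SUB** from its inputs -/
theorem sub_of {C : ℝ} (hp : ∀ n : ℕ, IsProbabilityMeasure (law n)) (ht : IsTightMeasureSet {μ | ∃ n : ℕ, 1 ≤ n ∧ μ = law n})
    (hC : ∀ i n : ℕ, 1 ≤ i → i ≤ n → 0 ≤ size i / size n ∧ size i / size n ≤ C)
    (hE : ∀ ε : ℝ, 0 < ε → ∃ δ : ℝ, 0 < δ ∧ ∃ n0 : ℕ, ∀ n h : ℕ, n0 ≤ n → (h : ℝ) ≤ δ * n →
      ∀ G : C(unitInterval, ℂ) → ℝ, (∀ γ, |G γ| ≤ 1) → LipschitzWith 1 G →
        |∫ γ, G γ ∂(law (n + h)) - ∫ γ, G γ ∂(law n)| ≤ ε)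
    (hZ : ∀ ε : ℝ, 0 < ε → ∃ δ : ℝ, 0 < δ ∧ ∃ n0 : ℕ, ∀ n h : ℕ, n0 ≤ n → (h : ℝ) ≤ δ * n →
      |size (n + h) / size n - 1| ≤ ε) : SUB := by
  intro φ hφ
  obtain ⟨ψ, hψ, hrat⟩ := sub_rat hp ht hC hφ
  have hθ : Tendsto (fun k => φ (ψ k)) atTop atTop := hφ.comp hψ.tendsto_atTop
  have hC0 : 0 ≤ C := (hC 1 1 le_rfl le_rfl).1.trans (hC 1 1 le_rfl le_rfl).2
  have hmain : ∀ x : ℝ, ∃ (μ : Measure C(unitInterval, ℂ)) (ρ : ℝ), 0 < x → x ≤ 1 → IsProbabilityMeasure μ ∧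
      LawTo (fun k => ⌊x * φ (ψ k)⌋₊) μ ∧ Tendsto (fun k => size ⌊x * φ (ψ k)⌋₊ / size (φ (ψ k))) atTop (𝓝 ρ) := by
    intro x
    by_cases hx : 0 < x ∧ x ≤ 1
    swap
    · exact ⟨0, 0, fun h1 h2 => absurd ⟨h1, h2⟩ hx⟩
    obtain ⟨hx0, hx1⟩ := hx
    -- the sizes
    obtain ⟨ρ, hρ⟩ : ∃ l, Tendsto (fun k => size ⌊x * φ (ψ k)⌋₊ / size (φ (ψ k))) atTop (𝓝 l) := by
      refine conv_near fun ε hε => ?_
      obtain ⟨δ, hδ, n0, h1⟩ := hZ (ε / (C + 1)) (by positivity)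
      obtain ⟨q, hq0, hqx, n1, h2⟩ := floor_near hx0 hδ (max n0 1)
      have hq1 : (q : ℝ) ≤ 1 := hqx.le.trans hx1
      refine ⟨_, (hrat q hq0 (by exact_mod_cast hq1)).1, ?_⟩
      filter_upwards [hθ.eventually (eventually_ge_atTop n1), hθ.eventually (eventually_ge_atTop 1)] with k hk hk1
      obtain ⟨h, e1, e2, e3⟩ := h2 _ hk
      have e4 := h1 _ h ((le_max_left _ _).trans e3) e2
      have e5 : 1 ≤ ⌊(q : ℝ) * φ (ψ k)⌋₊ := (le_max_right _ _).trans e3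
      have e6 : ⌊(q : ℝ) * φ (ψ k)⌋₊ ≤ φ (ψ k) := by
        have h2 : (q : ℝ) * φ (ψ k) ≤ φ (ψ k) := mul_le_of_le_one_left (Nat.cast_nonneg _) hq1
        exact (Nat.floor_le_floor h2).trans (le_of_eq (Nat.floor_natCast _))
      obtain ⟨e7, e8⟩ := hC _ _ e5 e6
      rw [e1]
      by_cases hz : size ⌊(q : ℝ) * φ (ψ k)⌋₊ = 0
      · rw [hz, div_zero, zero_sub, abs_neg, abs_one] at e4
        have e9 : (0 : ℝ) ≤ size (⌊(q : ℝ) * φ (ψ k)⌋₊ + h) / size (φ (ψ k)) :=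
          div_nonneg (Real.sqrt_nonneg _) (Real.sqrt_nonneg _)
        have e10 : size (⌊(q : ℝ) * φ (ψ k)⌋₊ + h) / size (φ (ψ k)) ≤ C := by
          refine (hC _ _ (by omega) ?_).2
          rw [← e1]
          have h2 : x * φ (ψ k) ≤ φ (ψ k) := mul_le_of_le_one_left (Nat.cast_nonneg _) hx1
          exact (Nat.floor_le_floor h2).trans (le_of_eq (Nat.floor_natCast _))
        rw [hz, zero_div, sub_zero, abs_of_nonneg e9]
        rw [le_div_iff₀ (by positivity)] at e4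
        linarith
      · have e9 : size (⌊(q : ℝ) * φ (ψ k)⌋₊ + h) / size (φ (ψ k)) - size ⌊(q : ℝ) * φ (ψ k)⌋₊ / size (φ (ψ k)) =
            (size (⌊(q : ℝ) * φ (ψ k)⌋₊ + h) / size ⌊(q : ℝ) * φ (ψ k)⌋₊ - 1) *
              (size ⌊(q : ℝ) * φ (ψ k)⌋₊ / size (φ (ψ k))) := by
          by_cases hz2 : size (φ (ψ k)) = 0
          · rw [hz2]
            simp
          · field_simp
        rw [e9, abs_mul, abs_of_nonneg e7]
        calc |size (⌊(q : ℝ) * φ (ψ k)⌋₊ + h) / size ⌊(q : ℝ) * φ (ψ k)⌋₊ - 1| *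
              (size ⌊(q : ℝ) * φ (ψ k)⌋₊ / size (φ (ψ k))) ≤ ε / (C + 1) * (C + 1) :=
              mul_le_mul e4 (e8.trans (by linarith)) e7 (by positivity)
          _ = ε := div_mul_cancel₀ _ (by positivity)
    -- the test functions
    have hG : ∀ G : C(unitInterval, ℂ) → ℝ, (∀ γ, |G γ| ≤ 1) → LipschitzWith 1 G →
        ∃ l, Tendsto (fun k => ∫ γ, G γ ∂(law ⌊x * φ (ψ k)⌋₊)) atTop (𝓝 l) := by
      intro G hG1 hG2
      refine conv_near fun ε hε => ?_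
      obtain ⟨δ, hδ, n0, h1⟩ := hE ε hε
      obtain ⟨q, hq0, hqx, n1, h2⟩ := floor_near hx0 hδ n0
      have hq1 : (q : ℝ) ≤ 1 := hqx.le.trans hx1
      obtain ⟨f, hf⟩ : ∃ f : BoundedContinuousFunction C(unitInterval, ℂ) ℝ, ∀ γ, f γ = G γ :=
        ⟨BoundedContinuousFunction.ofNormedAddCommGroup G hG2.continuous 1 (fun γ => by rw [Real.norm_eq_abs]; exact hG1 γ),
          fun _ => rfl⟩
      obtain ⟨l, hl⟩ := (hrat q hq0 (by exact_mod_cast hq1)).2 f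
      refine ⟨fun k => ∫ γ, G γ ∂(law ⌊(q : ℝ) * φ (ψ k)⌋₊), ⟨l, ?_⟩, ?_⟩
      · simp only [hf] at hl
        exact hl
      · filter_upwards [hθ.eventually (eventually_ge_atTop n1)] with k hk
        obtain ⟨h, e1, e2, e3⟩ := h2 _ hk
        rw [e1]
        exact h1 _ h e3 e2 G hG1 hG2
    -- the limit law
    have hfl : Tendsto (fun k => ⌊x * φ (ψ k)⌋₊) atTop atTop :=
      tendsto_nat_floor_atTop.comp (Tendsto.const_mul_atTop hx0 (tendsto_natCast_atTop_atTop.comp hθ))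
    obtain ⟨P, hP⟩ : ∃ P : ℕ → ProbabilityMeasure C(unitInterval, ℂ), P = fun k => ⟨law (max 1 ⌊x * φ (ψ k)⌋₊), hp _⟩ := ⟨_, rfl⟩
    have hK : IsCompact (closure (Set.range P)) := by
      refine isCompact_closure_of_isTightMeasureSet (ht.subset ?_)
      rintro μ ⟨p, ⟨n, rfl⟩, rfl⟩
      rw [hP]
      exact ⟨_, le_max_left _ _, rfl⟩
    obtain ⟨ν, -, σ, hσ, hν⟩ := hK.tendsto_subseq fun k => subset_closure ⟨k, rfl⟩
    have hPe : ∀ᶠ k in atTop, (P k : Measure C(unitInterval, ℂ)) = law ⌊x * φ (ψ k)⌋₊ := by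
      filter_upwards [hfl.eventually (eventually_ge_atTop 1)] with k hk
      rw [hP]
      show law (max 1 ⌊x * φ (ψ k)⌋₊) = _
      rw [max_eq_right hk]
    have hunit : ∀ G : C(unitInterval, ℂ) → ℝ, (∀ γ, |G γ| ≤ 1) → LipschitzWith 1 G →
        Tendsto (fun k => ∫ γ, G γ ∂(P k : Measure C(unitInterval, ℂ))) atTop (𝓝 (∫ γ, G γ ∂(ν : Measure C(unitInterval, ℂ)))) := by
      intro G hG1 hG2
      obtain ⟨l, hl⟩ := hG G hG1 hG2
      have h1 : Tendsto (fun k => ∫ γ, G γ ∂(P k : Measure C(unitInterval, ℂ))) atTop (𝓝 l) := by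
        refine hl.congr' ?_
        filter_upwards [hPe] with k hk
        rw [hk]
      obtain ⟨f, hf⟩ : ∃ f : BoundedContinuousFunction C(unitInterval, ℂ) ℝ, ∀ γ, f γ = G γ :=
        ⟨BoundedContinuousFunction.ofNormedAddCommGroup G hG2.continuous 1 (fun γ => by rw [Real.norm_eq_abs]; exact hG1 γ),
          fun _ => rfl⟩
      have h2 := (ProbabilityMeasure.tendsto_iff_forall_integral_tendsto.1 hν) f
      simp only [hf] at h2
      have h3 : Tendsto (fun k => ∫ γ, G γ ∂(P (σ k) : Measure C(unitInterval, ℂ))) atTop (𝓝 l) := h1.comp hσ.tendsto_atTop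
      have h4 := tendsto_nhds_unique h3 h2
      rw [← h4]
      exact h1
    have hconv : Tendsto P atTop (𝓝 ν) := by
      rw [tendsto_iff_forall_lipschitz_integral_tendsto]
      rintro f ⟨B, hB⟩ ⟨L, hL⟩
      -- the function is divided by a large number
      obtain ⟨M, hM⟩ : ∃ M : ℝ, M = |f 0| + |B| + L + 1 := ⟨_, rfl⟩
      have hL0 : (0 : ℝ) ≤ L := L.2
      have hM0 : 0 < M := by
        rw [hM]
        positivity
      have hg1 : ∀ γ, |M⁻¹ * f γ| ≤ 1 := by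
        intro γ
        rw [abs_mul, abs_of_pos (inv_pos.2 hM0), inv_mul_le_iff₀ hM0, mul_one]
        have h1 := hB γ 0
        rw [Real.dist_eq] at h1
        have h2 : |f γ| ≤ |f γ - f 0| + |f 0| := by
          have := abs_add_le (f γ - f 0) (f 0)
          rwa [sub_add_cancel] at this
        have h3 := le_abs_self B
        rw [hM]
        linarith
      have hg2 : LipschitzWith 1 fun γ => M⁻¹ * f γ := by
        refine LipschitzWith.of_dist_le_mul fun γ γ' => ?_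
        rw [Real.dist_eq, ← mul_sub, abs_mul, abs_of_pos (inv_pos.2 hM0), inv_mul_le_iff₀ hM0, NNReal.coe_one, one_mul]
        have h1 := hL.dist_le_mul γ γ'
        rw [Real.dist_eq] at h1
        refine h1.trans (mul_le_mul_of_nonneg_right ?_ dist_nonneg)
        rw [hM]
        have := abs_nonneg (f 0)
        have := abs_nonneg B
        linarith
      have h1 := (hunit _ hg1 hg2).const_mul M
      have h2 : ∀ κ : Measure C(unitInterval, ℂ), M * ∫ γ, M⁻¹ * f γ ∂κ = ∫ γ, f γ ∂κ := by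
        intro κ
        rw [integral_const_mul, ← mul_assoc, mul_inv_cancel₀ hM0.ne', one_mul]
      simp only [h2] at h1
      exact h1
    refine ⟨ν, ρ, fun _ _ => ⟨ν.2, fun f => ?_, hρ⟩⟩
    refine ((ProbabilityMeasure.tendsto_iff_forall_integral_tendsto.1 hconv) f).congr' ?_
    filter_upwards [hPe] with k hk
    rw [hk]
  choose μ ρ hμρ using hmain
  exact ⟨ψ, μ, ρ, hψ, hθ, fun x h1 h2 => (hμρ x h1 h2).1, fun x h1 h2 => (hμρ x h1 h2).2.1, fun x h1 h2 => (hμρ x h1 h2).2.2⟩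

end LimSub

end Pool.Agent.RMP
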