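import Pool.Agent.RMP.JnF
import Pool.Agent.RMP.Defs
import Pool.Agent.ARM.PlcA
import Pool.Agent.ARM.Mid

/-!
# (RM), row K7 for pairs (helper76): joinability of a pair is local

Relative coordinates: the tip of the first word at the origin, its direction of exit `up` (`rl T`). Two pairs are near (`NrP t1 t2 w`)
if the second tips have the same relative position and direction, the last `t1` letters of the first words and the last `t2` letters
of the second words are the same and all the other vertices are outside of the ball of radius `2 ^ w` around the first tip; the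
numbers of the letters may be different. Then the pairs have the same vertices in the ball (`NrP.mem`) and are joinable along the
same paths (`NrP.jn`), the paths are given in relative coordinates.
-/

set_option autoImplicit false

namespace HexObs

namespace RMP

open Finset TS SDN HexObs.SIM NTA TIP ARM TIW

open ARM.G3 (rc nrm_rc rt_rc)

open J5

/-! ### 1. Relative coordinates -/

/-- the relative coordinates: the tip of the first word at the origin, its direction of exit `up` -/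
def rl (T : PT) (p : Pt) : Pt := mulE (rc T.1) (p - en T.1)

/-- the vertices of both words in relative coordinates -/
def Vr (T : PT) : Set Pt := rl T '' (vo T.1 ∪ ob T.2.1 T.2.2)

/-- the tip of the second word -/
def zr (T : PT) : Pt := rl T (pe T.2.1 T.2.2)

/-- the direction of exit of the second word -/
def dr (T : PT) : Pt := mulE (rc T.1) (pd T.2.1 T.2.2)

/-- the path in absolute coordinates -/
def fE (T : PT) (E : ℕ → Pt) : ℕ → Pt := fun i => mulE (rt T.1) (E i)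

/-- the base point in absolute coordinates -/
def fP (T : PT) (P : Pt) : Pt := en T.1 + mulE (rt T.1) P

lemma rc_mem (M : List Bool) : rc M ∈ dirs := mem_dirs.2 (nrm_rc M)

lemma rt_mem (M : List Bool) : rt M ∈ dirs := mem_dirs.2 (nrm_rt M)

lemma rc_rt (M : List Bool) (p : Pt) : mulE (rc M) (mulE (rt M) p) = p := by
  have h := nrm_rt M
  refine mulE_inj (nrm_rt M) ?_
  rw [rt_rc]

lemma rt_rl (T : PT) (p : Pt) : en T.1 + mulE (rt T.1) (rl T p) = p := by
  unfold rl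
  rw [rt_rc]
  abel

lemma rl_rt (T : PT) (p : Pt) : rl T (en T.1 + mulE (rt T.1) p) = p := by
  unfold rl
  rw [add_sub_cancel_left, rc_rt]

lemma hn_rl (T : PT) (p : Pt) : hn (rl T p) = hn (p - en T.1) := TIW.hn_mulE (nrm_rc T.1) _

/-- the conditions on a path in relative coordinates; `V` = obstacles, `z`, `d` = the second tip and its direction of exit -/
structure JnR (E : ℕ → Pt) (r : ℕ) (D : ℤ) (k : ℕ) (P : Pt) (V : Set Pt) (z d : Pt) : Prop where
  d0 : up = E 0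
  d1 : d = -E (r - 1)
  ps1 : hn P ≤ 2 ^ k
  ps2 : hn (z - (P + AR.pv E D r)) ≤ 2 ^ k + 2
  mid : ∀ p ∈ V, ∀ j, 1 ≤ j → j + 1 < r → ¬ AR.NS (P + AR.pv E D j) (E j) D (2 ^ (k + 11)) p
  fst : ∀ p ∈ V, AR.NS P (E 0) D (2 ^ (k + 11)) p → ip p (E 0) ≤ 0
  lst : ∀ p ∈ V, AR.NS (P + AR.pv E D (r - 1)) (E (r - 1)) D (2 ^ (k + 11)) p → 0 ≤ ip (p - z) (E (r - 1))

lemma pv_fE (T : PT) (E : ℕ → Pt) (D : ℤ) (j : ℕ) : AR.pv (fE T E) D j = mulE (rt T.1) (AR.pv E D j) := by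
  unfold AR.pv fE
  rw [ps_mulE, J5.mulE_smul]

/-- neighbourhoods of segments in both coordinates -/
lemma ns_rl (T : PT) {q d p : Pt} {D w : ℤ} :
    AR.NS (en T.1 + mulE (rt T.1) q) (mulE (rt T.1) d) D w p ↔ AR.NS q d D w (rl T p) := by
  unfold AR.NS
  refine exists_congr fun t => and_congr_right fun _ => and_congr_right fun _ => ?_
  have h : p - (en T.1 + mulE (rt T.1) q + t • mulE (rt T.1) d) = mulE (rt T.1) (rl T p - (q + t • d)) := by
    rw [mulE_sub, mulE_add, J5.mulE_smul]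
    have h1 := rt_rl T p
    nth_rewrite 1 [← h1]
    abel
  rw [h, TIW.hn_mulE (nrm_rt T.1)]

lemma ip_rt' (T : PT) (p q : Pt) : ip (mulE (rt T.1) p) (mulE (rt T.1) q) = ip p q := ip_mulE' (rt_mem T.1) p q

/-- **joinable pairs in relative coordinates** -/
theorem jnP_rel (T : PT) (E : ℕ → Pt) (r : ℕ) (D : ℤ) (k : ℕ) (P : Pt) :
    JnP (fE T E) r D k (fP T P) T ↔
      (T.1 ∈ SA ∧ T.2.2 ∈ SA ∧ Fr T.2.1 ∧ Av (ob T.2.1 T.2.2) T.1) ∧ JnR E r D k P (Vr T) (zr T) (dr T) := by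
  have e0 : en T.1 - fP T P = -mulE (rt T.1) P := by
    unfold fP
    abel
  have e1 : pe T.2.1 T.2.2 = en T.1 + mulE (rt T.1) (zr T) := (rt_rl T _).symm
  have e2 : pd T.2.1 T.2.2 = mulE (rt T.1) (dr T) := (rt_rc T.1 _).symm
  have e3 : ∀ q, fP T P + mulE (rt T.1) q = en T.1 + mulE (rt T.1) (P + q) := by
    intro q
    unfold fP
    rw [mulE_add]
    abel
  have e4 : pe T.2.1 T.2.2 - (fP T P + AR.pv (fE T E) D r) = mulE (rt T.1) (zr T - (P + AR.pv E D r)) := by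
    rw [pv_fE, e3, e1, mulE_sub]
    abel
  have e5 : ∀ p, p - en T.1 = mulE (rt T.1) (rl T p) := by
    intro p
    have h := rt_rl T p
    nth_rewrite 1 [← h]
    abel
  have e6 : ∀ p, p - pe T.2.1 T.2.2 = mulE (rt T.1) (rl T p - zr T) := by
    intro p
    rw [mulE_sub, ← e5, e1]
    abel
  constructor
  · intro h
    refine ⟨⟨h.sa, h.sb, h.fr, h.av⟩, ?_, ?_, ?_, ?_, ?_, ?_, ?_⟩
    · refine mulE_inj (nrm_rt T.1) ?_
      rw [rt_up]
      exact h.d0
    · refine mulE_inj (nrm_rt T.1) ?_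
      rw [← e2, mulE_neg]
      exact h.d1
    · have h1 := h.ps1
      rw [e0, hn_neg, TIW.hn_mulE (nrm_rt T.1)] at h1
      exact h1
    · have h1 := h.ps2
      rw [e4, TIW.hn_mulE (nrm_rt T.1)] at h1
      exact h1
    · rintro _ ⟨p, hp, rfl⟩ j h1 h2 hn
      refine h.mid p hp j h1 h2 ?_
      rw [pv_fE, e3]
      exact (ns_rl T).2 hn
    · rintro _ ⟨p, hp, rfl⟩ hn
      have h1 := h.fst p hp ((ns_rl T).2 hn)
      rw [e5] at h1
      rw [← ip_rt' T]
      exact h1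
    · rintro _ ⟨p, hp, rfl⟩ hn
      have h1 := h.lst p hp (by
        rw [pv_fE, e3]
        exact (ns_rl T).2 hn)
      rw [e6] at h1
      rw [← ip_rt' T]
      exact h1
  · rintro ⟨⟨h1, h2, h3, h4⟩, h⟩
    refine ⟨h1, h2, h3, h4, ?_, ?_, ?_, ?_, ?_, ?_, ?_⟩
    · show de T.1 = mulE (rt T.1) (E 0)
      rw [← h.d0, rt_up]
    · show pd T.2.1 T.2.2 = -mulE (rt T.1) (E (r - 1))
      rw [e2, h.d1, mulE_neg]
    · rw [e0, hn_neg, TIW.hn_mulE (nrm_rt T.1)]
      exact h.ps1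
    · rw [e4, TIW.hn_mulE (nrm_rt T.1)]
      exact h.ps2
    · intro p hp j h5 h6 hn
      rw [pv_fE, e3] at hn
      exact h.mid _ ⟨p, hp, rfl⟩ j h5 h6 ((ns_rl T).1 hn)
    · intro p hp hn
      rw [e5]
      show ip (mulE (rt T.1) (rl T p)) (mulE (rt T.1) (E 0)) ≤ 0
      rw [ip_rt' T]
      exact h.fst _ ⟨p, hp, rfl⟩ ((ns_rl T).1 hn)
    · intro p hp hn
      rw [pv_fE, e3] at hn
      rw [e6]
      show 0 ≤ ip (mulE (rt T.1) (rl T p - zr T)) (mulE (rt T.1) (E (r - 1)))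
      rw [ip_rt' T]
      exact h.lst _ ⟨p, hp, rfl⟩ ((ns_rl T).1 hn)

/-! ### 2. The relative conditions are local -/

/-- the size of the neighbourhood of the path -/
lemma ns_pv_hn {E : ℕ → Pt} {r : ℕ} {D w : ℤ} {P : Pt} {k : ℕ} (hE : ∀ i, i < r → E i ∈ dirs) (hD : 0 ≤ D) (hP : hn P ≤ 2 ^ k)
    {j : ℕ} (hj : j < r) {y : Pt} (h : AR.NS (P + AR.pv E D j) (E j) D w y) : hn y ≤ 2 * (r + 1) * D + 2 ^ k + w := by
  obtain ⟨t, h1, h2, h3⟩ := h
  have hd2 : ∀ d ∈ dirs, hn d ≤ 2 := by decide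
  have hps : ∀ b : ℕ, b ≤ r → hn (AR.ps E b) ≤ 2 * (b : ℕ) := by
    intro b
    induction b with
    | zero =>
      intro _
      rw [AR.ps]
      simp only [range_zero, sum_empty, Nat.cast_zero, mul_zero]
      decide
    | succ b ih =>
      intro hbr
      rw [AR.ps_succ]
      have h4 := ih (by omega)
      have h5 := hd2 _ (hE b (by omega))
      push_cast
      linarith [TIW.hn_add (AR.ps E b) (E b)]
  have hsm : ∀ (t : ℤ) (v : Pt), 0 ≤ t → hn (t • v) ≤ t * hn v := by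
    intro t v ht
    refine TIW.hn_le fun d hd => ?_
    rw [AR.ip_smul]
    exact mul_le_mul_of_nonneg_left (TIW.ip_le_hn v hd) ht
  have e1 : y = (y - (P + AR.pv E D j + t • E j)) + ((P + AR.pv E D j) + t • E j) := by abel
  have h6 : hn (AR.pv E D j) ≤ D * (2 * r) := by
    unfold AR.pv
    refine (hsm D _ hD).trans (mul_le_mul_of_nonneg_left ((hps j hj.le).trans ?_) hD)
    have : (j : ℤ) ≤ r := by exact_mod_cast hj.le
    linarith
  have h7 : hn (t • E j) ≤ D * 2 := by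
    refine (hsm t _ h1).trans ?_
    have h8 := hd2 _ (hE j hj)
    have h9 := hn_nonneg (E j)
    nlinarith
  have h11 := TIW.hn_add (y - (P + AR.pv E D j + t • E j)) ((P + AR.pv E D j) + t • E j)
  have h12 := TIW.hn_add (P + AR.pv E D j) (t • E j)
  have h13 := TIW.hn_add P (AR.pv E D j)
  rw [← e1] at h11
  linarith

/-- only the obstacles in the ball are seen -/
lemma JnR.loc {E : ℕ → Pt} {r : ℕ} {D : ℤ} {k : ℕ} {P : Pt} {V V' : Set Pt} {z d : Pt} {w : ℕ} (h : JnR E r D k P V z d)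
    (hE : ∀ i, i < r → E i ∈ dirs) (hr : 1 ≤ r) (hD : 0 ≤ D) (hw : 2 * (r + 1) * D + 2 ^ (k + 12) ≤ (2 : ℤ) ^ w)
    (hV : ∀ p, hn p ≤ 2 ^ w → p ∈ V' → p ∈ V) : JnR E r D k P V' z d := by
  have p1 : (2 : ℤ) ^ k + 2 ^ (k + 11) ≤ 2 ^ (k + 12) := by
    have e1 : (2 : ℤ) ^ (k + 12) = 2 ^ (k + 11) + 2048 * 2 ^ k := by ring
    have h0 : (0 : ℤ) < 2 ^ k := by positivity
    linarith
  have key : ∀ {j : ℕ} {p : Pt}, j < r → p ∈ V' → AR.NS (P + AR.pv E D j) (E j) D (2 ^ (k + 11)) p → p ∈ V :=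
    fun {j p} hj hp hn => hV p (by
      have := ns_pv_hn hE hD h.ps1 hj hn
      linarith) hp
  refine ⟨h.d0, h.d1, h.ps1, h.ps2, fun p hp j h1 h2 hn => h.mid p (key (by omega) hp hn) j h1 h2 hn, fun p hp hn => ?_,
    fun p hp hn => h.lst p (key (by omega) hp hn) hn⟩
  refine h.fst p (key (j := 0) (by omega) hp ?_) hn
  have : P + AR.pv E D 0 = P := by
    unfold AR.pv AR.ps
    simp
  rw [this]
  exact hn

/-! ### 3. Near pairs -/

/-- **near pairs** -/
structure NrP (t1 t2 w : ℕ) (T T' : PT) : Prop where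
  sa : T.1 ∈ SA
  sb : T.2.2 ∈ SA
  fr : Fr T.2.1
  av : Av (ob T.2.1 T.2.2) T.1
  sa' : T'.1 ∈ SA
  sb' : T'.2.2 ∈ SA
  fr' : Fr T'.2.1
  av' : Av (ob T'.2.1 T'.2.2) T'.1
  z : zr T = zr T'
  d : dr T = dr T'
  l1 : t1 ≤ T.1.length
  l2 : t2 ≤ T.2.2.length
  l1' : t1 ≤ T'.1.length
  l2' : t2 ≤ T'.2.2.length
  dp1 : T.1.drop (T.1.length - t1) = T'.1.drop (T'.1.length - t1)
  dp2 : T.2.2.drop (T.2.2.length - t2) = T'.2.2.drop (T'.2.2.length - t2)
  far1 : ∀ i, i + t1 ≤ T.1.length → 2 ^ w < hn (rl T (vx oo up T.1 i))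
  far2 : ∀ i, i + t2 ≤ T.2.2.length → 2 ^ w < hn (rl T (pv T.2.1 T.2.2 i))
  far1' : ∀ i, i + t1 ≤ T'.1.length → 2 ^ w < hn (rl T' (vx oo up T'.1 i))
  far2' : ∀ i, i + t2 ≤ T'.2.2.length → 2 ^ w < hn (rl T' (pv T'.2.1 T'.2.2 i))

variable {t1 t2 w : ℕ} {T T' : PT}

lemma NrP.symm (h : NrP t1 t2 w T T') : NrP t1 t2 w T' T where
  sa := h.sa'
  sb := h.sb'
  fr := h.fr'
  av := h.av'
  sa' := h.sa
  sb' := h.sb
  fr' := h.fr
  av' := h.av
  z := h.z.symm
  d := h.d.symm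
  l1 := h.l1'
  l2 := h.l2'
  l1' := h.l1
  l2' := h.l2
  dp1 := h.dp1.symm
  dp2 := h.dp2.symm
  far1 := h.far1'
  far2 := h.far2'
  far1' := h.far1
  far2' := h.far2

/-- a vertex of the last letters, seen from the end of the word -/
lemma vx_last (A B : List Bool) (k : ℕ) :
    vx oo up (A ++ B) (A.length + k) - en (A ++ B) = mulE (rt A) (vx oo up B k - en B) := by
  rw [vx_app, mid_en_app, mulE_sub]
  abel

/-- the rotation of a word with a last part -/
lemma rt_last (A B : List Bool) : rt (A ++ B) = mulE (rt A) (rt B) := by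
  have h : mulE up (rt (A ++ B)) = mulE up (mulE (rt A) (rt B)) := by
    rw [mulE_comm up, mulE_comm up, rt_up, ← mulE_assoc, rt_up]
    exact ARM.de_app A B
  exact mulE_inj (mem_dirs.1 upd') h

lemma rc_last (A B : List Bool) (x : Pt) : mulE (rc (A ++ B)) (mulE (rt A) x) = mulE (rc B) x := by
  refine mulE_inj (nrm_rt (A ++ B)) ?_
  rw [rt_rc, rt_last, ← mulE_assoc, rt_rc]

/-- the relative place of a vertex of the first word near its tip -/
lemma rl_v1 (T : PT) {i t : ℕ} (ht : t ≤ T.1.length) (hi : T.1.length ≤ i + t) :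
    rl T (vx oo up T.1 i) = mulE (rc (T.1.drop (T.1.length - t)))
      (vx oo up (T.1.drop (T.1.length - t)) (i + t - T.1.length) - en (T.1.drop (T.1.length - t))) := by
  have hA : (T.1.take (T.1.length - t)).length = T.1.length - t := by
    rw [List.length_take]
    omega
  obtain ⟨k, hk⟩ : ∃ k, i = T.1.length - t + k := ⟨i - (T.1.length - t), by omega⟩
  have e1 : i + t - T.1.length = k := by omega
  have e2 := List.take_append_drop (T.1.length - t) T.1
  have e3 := vx_last (T.1.take (T.1.length - t)) (T.1.drop (T.1.length - t)) k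
  have e4 := rc_last (T.1.take (T.1.length - t)) (T.1.drop (T.1.length - t))
    (vx oo up (T.1.drop (T.1.length - t)) k - en (T.1.drop (T.1.length - t)))
  rw [← e3, e2, hA, ← hk] at e4
  unfold rl
  rw [e1, e4]

/-- the relative place of a vertex of the second word near its tip -/
lemma rl_v2 (T : PT) {i t : ℕ} (ht : t ≤ T.2.2.length) (hi : T.2.2.length ≤ i + t) :
    rl T (pv T.2.1 T.2.2 i) = zr T + mulE (rotTo up (dr T)) (mulE (rc (T.2.2.drop (T.2.2.length - t)))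
      (vx oo up (T.2.2.drop (T.2.2.length - t)) (i + t - T.2.2.length) - en (T.2.2.drop (T.2.2.length - t)))) := by
  obtain ⟨L, hL⟩ : ∃ L, L = T.2.2 := ⟨_, rfl⟩
  obtain ⟨A, hA0⟩ : ∃ A, A = L.take (L.length - t) := ⟨_, rfl⟩
  obtain ⟨B, hB0⟩ : ∃ B, B = L.drop (L.length - t) := ⟨_, rfl⟩
  rw [← hL] at ht hi ⊢
  rw [← hB0]
  have hA : A.length = L.length - t := by
    rw [hA0, List.length_take]
    omega
  obtain ⟨k, hk⟩ : ∃ k, i = L.length - t + k := ⟨i - (L.length - t), by omega⟩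
  have e1 : i + t - L.length = k := by omega
  have e2 : A ++ B = L := by rw [hA0, hB0, List.take_append_drop]
  have e3 := vx_last A B k
  rw [e2, hA, ← hk] at e3
  have e4 : rl T (pv T.2.1 L i) = zr T + mulE (rc T.1) (mulE T.2.1.2 (vx oo up L i - en L)) := by
    unfold zr rl pe pv
    rw [← hL, ← mulE_add]
    congr 1
    rw [mulE_sub]
    show _ = _ + (mulE T.2.1.2 (vx oo up L i) - mulE T.2.1.2 (vx oo up L L.length))
    abel
  have e5 : rotTo up (dr T) = mulE (rc T.1) (mulE T.2.1.2 (rt L)) := by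
    have h : mulE up (rotTo up (dr T)) = mulE up (mulE (rc T.1) (mulE T.2.1.2 (rt L))) := by
      rw [mulE_comm up, rotTo_apply _ upd', mulE_comm up, ← mulE_assoc, ← mulE_assoc, rt_up]
      unfold dr pd
      rw [hL]
    exact mulE_inj (mem_dirs.1 upd') h
  rw [e4, e1, e3, e5, ← mulE_assoc, ← mulE_assoc]
  have e6 : mulE (rt L) (mulE (rc B) (vx oo up B k - en B)) = mulE (rt A) (vx oo up B k - en B) := by
    rw [← e2, rt_last, ← mulE_assoc, rt_rc]
  rw [e6]

/-- one half of `NrP.mem` -/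
lemma NrP.mem1 (h : NrP t1 t2 w T T') {p : Pt} (hp : hn p ≤ 2 ^ w) (hm : p ∈ Vr T) : p ∈ Vr T' := by
  obtain ⟨q, hq, rfl⟩ := hm
  rcases hq with ⟨i, hi, rfl⟩ | ⟨i, hi, rfl⟩
  · rcases le_or_gt (i + t1) T.1.length with h1 | h1
    · exact absurd (h.far1 i h1) (not_lt.2 hp)
    · have l1 := h.l1
      have l1' := h.l1'
      refine ⟨vx oo up T'.1 (T'.1.length - t1 + (i + t1 - T.1.length)), Or.inl ⟨_, by omega, rfl⟩, ?_⟩
      rw [rl_v1 T h.l1 h1.le, rl_v1 T' h.l1' (by omega), ← h.dp1]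
      congr 3
      omega
  · rcases le_or_gt (i + t2) T.2.2.length with h1 | h1
    · exact absurd (h.far2 i h1) (not_lt.2 hp)
    · have l2 := h.l2
      have l2' := h.l2'
      refine ⟨pv T'.2.1 T'.2.2 (T'.2.2.length - t2 + (i + t2 - T.2.2.length)), Or.inr ⟨_, by omega, rfl⟩, ?_⟩
      rw [rl_v2 T h.l2 h1.le, rl_v2 T' h.l2' (by omega), ← h.dp2, h.z, h.d]
      congr 5
      omega

/-- **near pairs have the same vertices in the ball** -/
lemma NrP.mem (h : NrP t1 t2 w T T') {p : Pt} (hp : hn p ≤ 2 ^ w) : p ∈ Vr T ↔ p ∈ Vr T' :=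
  ⟨h.mem1 hp, h.symm.mem1 hp⟩

/-- **near pairs are joinable along the same paths** -/
theorem NrP.jn (h : NrP t1 t2 w T T') {E : ℕ → Pt} {r : ℕ} {D : ℤ} {k : ℕ} {P : Pt} (hE : ∀ i, i < r → E i ∈ dirs) (hr : 1 ≤ r)
    (hD : 0 ≤ D) (hw : 2 * (r + 1) * D + 2 ^ (k + 12) ≤ (2 : ℤ) ^ w) :
    JnP (fE T E) r D k (fP T P) T ↔ JnP (fE T' E) r D k (fP T' P) T' := by
  rw [jnP_rel, jnP_rel]
  constructor
  · rintro ⟨-, h1⟩
    refine ⟨⟨h.sa', h.sb', h.fr', h.av'⟩, ?_⟩
    rw [← h.z, ← h.d]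
    exact h1.loc hE hr hD hw fun p h2 h3 => (h.mem h2).2 h3
  · rintro ⟨-, h1⟩
    refine ⟨⟨h.sa, h.sb, h.fr, h.av⟩, ?_⟩
    rw [h.z, h.d]
    exact h1.loc hE hr hD hw fun p h2 h3 => (h.mem h2).1 h3

/-- the size of the window -/
def w0P (H Mx : ℕ) : ℕ := 72 * (Mx + 1) * H + 2 ^ 12

lemma w0P_le {H Mx r k j w : ℕ} {D : ℤ} (hkj : k ≤ j) (hD : D ≤ 36 * (H * 2 ^ k)) (hr : r ≤ Mx) (hw : j + w0P H Mx ≤ w) :
    2 * (r + 1) * D + 2 ^ (k + 12) ≤ (2 : ℤ) ^ w := by
  have h2 : (2 : ℤ) ^ k ≤ 2 ^ j := pow_le_pow_right₀ (by norm_num) hkj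
  have hr : (r : ℤ) ≤ Mx := by exact_mod_cast hr
  have hH : (0 : ℤ) ≤ H := by positivity
  have hp : (0 : ℤ) < 2 ^ k := by positivity
  have h3 : (2 : ℤ) * (r + 1) * D ≤ 2 * (Mx + 1) * (36 * (H * 2 ^ k)) := by
    calc (2 : ℤ) * (r + 1) * D ≤ 2 * (r + 1) * (36 * (H * 2 ^ k)) := mul_le_mul_of_nonneg_left hD (by positivity)
      _ ≤ 2 * (Mx + 1) * (36 * (H * 2 ^ k)) := mul_le_mul_of_nonneg_right (by linarith) (by positivity)
  have h4 : (2 : ℤ) * (Mx + 1) * (36 * (H * 2 ^ k)) + 2 ^ (k + 12) = (w0P H Mx : ℕ) * 2 ^ k := by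
    unfold w0P
    push_cast
    ring
  have h5 : ((w0P H Mx : ℕ) : ℤ) ≤ 2 ^ (w0P H Mx) := by
    exact_mod_cast (Nat.lt_two_pow_self (n := w0P H Mx)).le
  calc 2 * (r + 1) * D + 2 ^ (k + 12) ≤ (w0P H Mx : ℕ) * 2 ^ k := by linarith
    _ ≤ 2 ^ (w0P H Mx) * 2 ^ j := mul_le_mul h5 h2 hp.le (by positivity)
    _ = 2 ^ (j + w0P H Mx) := by rw [← pow_add, add_comm]
    _ ≤ 2 ^ w := pow_le_pow_right₀ (by norm_num) hw

end RMP

end HexObs
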