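import Pool.Agent.RMP.KDefs

/-!
# (RM), row K7 for pairs (helper76): canonical paths and fillings of near pairs

`NrP t1 t2 w T T'` with `P.j + w0P P.H P.Mx ≤ w`: the same paths (`pj_iff`), the same canonical path (`pth_loc`), the same fillings
(`fil_loc`).
-/

set_option autoImplicit false

namespace HexObs

namespace RMP

open Finset TS SDN HexObs.SIM NTA TIP ARM ARM.G3 TIW MCP

variable {P : Par} {t1 t2 w : ℕ} {T T' : PT}

lemma okT.Dnn {τ : Pth} (hk : okT P τ) : 0 ≤ τ.D := le_trans (by positivity) hk.D1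

/-- **the paths of a pair are local** -/
theorem pj_iff (hw : P.j + w0P P.H P.Mx ≤ w) (h : NrP t1 t2 w T T') (τ : Pth) : PJ P T τ ↔ PJ P T' τ := by
  unfold PJ
  refine and_congr_right fun hk => ?_
  exact h.jn hk.ip.dir (le_trans (by norm_num) hk.r4) hk.Dnn (w0P_le hk.kj hk.D2 hk.rM hw)

/-- the same, with the literal of the row -/
theorem pj_loc (H Mx : ℕ) : ∃ w0 : ℕ, ∀ P : Par, P.H = H → P.Mx = Mx → ∀ (t1 t2 w : ℕ) (T T' : PT), P.j + w0 ≤ w →
    NrP t1 t2 w T T' → ∀ τ, PJ P T τ → PJ P T' τ := by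
  refine ⟨w0P H Mx, fun P hH hM t1 t2 w T T' hw h τ => ?_⟩
  subst hH hM
  exact (pj_iff hw h τ).1

/-- **the canonical path is local** -/
theorem pth_loc (hw : P.j + w0P P.H P.Mx ≤ w) (h : NrP t1 t2 w T T') : pth P T = pth P T' := pth_congr (pj_iff hw h)

/-- **joinability is local** -/
theorem jbl_loc (hw : P.j + w0P P.H P.Mx ≤ w) (h : NrP t1 t2 w T T') : Jbl P T ↔ Jbl P T' := exists_congr (pj_iff hw h)

/-- **the fillings are local** -/
theorem fil_loc (hw : P.j + w0P P.H P.Mx ≤ w) (h : NrP t1 t2 w T T') : Fil P T = Fil P T' := by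
  unfold Fil
  rw [pth_loc hw h, h.z, h.d]

/-- **the weight of the fillings is local** -/
theorem gF_loc (hw : P.j + w0P P.H P.Mx ≤ w) (h : NrP t1 t2 w T T') : gF P T = gF P T' := by
  have e : ∀ q, (dat P).fil T q ↔ (dat P).fil T' q := fun q => by
    show q.1 ∈ Fil P T ∧ q.2.1 < q.1.length ↔ q.1 ∈ Fil P T' ∧ q.2.1 < q.1.length
    rw [fil_loc hw h]
  unfold gF Pool.Agent.NuG.Dat.gF
  refine tsum_congr fun q => ?_
  by_cases hq : (dat P).fil T q
  · rw [if_pos hq, if_pos ((e q).1 hq)]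
  · rw [if_neg hq, if_neg fun h1 => hq ((e q).2 h1)]

end RMP

end HexObs
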