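import Pool.Agent.RMP.KDefs

/-!
# RMP, locality for pairs (helper84): the number of the admissible pairs of cuts and the weight of the tips

* `nrp_op`, `nrp_cut`, `ex_cut` : near outer parts and near pairs with end parts;
* `adm_loc`, `nn_loc`, `many_loc`, **`th_loc`**, `fil_loc`.
-/

set_option autoImplicit false

namespace HexObs

namespace RMP

open Finset TS SDN HexObs.SIM NTA TIP ARM TIW MCP

open ARM.G3 (rc nrm_rc rt_rc)

open J5 CutI

open scoped ENNReal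

namespace LN

/-! ### 1. Relative coordinates of the pair with end parts -/

lemma rc_app (A B : List Bool) (p : Pt) : mulE (rc (A ++ B)) p = mulE (rc B) (mulE (rc A) p) := by
  have h := rc_last A B (mulE (rc A) p)
  rw [rt_rc] at h
  exact h

lemma rl_op (T : PT) (Y : List Bool × List Bool) (p : Pt) : rl (op T Y) p = mulE (rc Y.1) (rl T p - TIW.en Y.1) := by
  unfold rl op
  show mulE (rc (T.1 ++ Y.1)) (p - TIW.en (T.1 ++ Y.1)) = _
  rw [rc_app, mid_en_app]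
  congr 1
  have e : p - (TIW.en T.1 + mulE (TIW.rt T.1) (TIW.en Y.1)) = (p - TIW.en T.1) - mulE (TIW.rt T.1) (TIW.en Y.1) := by abel
  rw [e, mulE_sub, rc_rt]

lemma zr_op {T : PT} (hg : T.2.1.2 ∈ dirs) (Y : List Bool × List Bool) :
    zr (op T Y) = mulE (rc Y.1) (q2 T (TIW.en Y.2) - TIW.en Y.1) := by
  have e2 : rl T (pe T.2.1 (T.2.2 ++ Y.2)) = q2 T (TIW.en Y.2) := by
    have := rl_op2 hg Y.2 Y.2.length
    unfold pe
    rw [List.length_append]
    exact this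
  unfold zr
  rw [rl_op]
  show mulE (rc Y.1) (rl T (pe T.2.1 (T.2.2 ++ Y.2)) - TIW.en Y.1) = _
  rw [e2]

lemma dr_op {T : PT} (hg : T.2.1.2 ∈ dirs) (Y : List Bool × List Bool) :
    dr (op T Y) = mulE (rc Y.1) (mulE (rotTo up (dr T)) (TIW.de Y.2)) := by
  unfold dr
  show mulE (rc (T.1 ++ Y.1)) (pd T.2.1 (T.2.2 ++ Y.2)) = _
  rw [rc_app]
  congr 1
  have e := rot2 (T := T) hg
  unfold dr at e
  rw [e, ← mulE_assoc, ← mulE_assoc]
  congr 1
  unfold pd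
  rw [ARM.de_app]

/-! ### 2. Near pairs -/

variable {t1 t2 w : ℕ} {T T' : PT} {Y : List Bool × List Bool}

lemma dp_app {A Z : List Bool} {t : ℕ} (_ht : t ≤ A.length) :
    (A ++ Z).drop ((A ++ Z).length - (t + Z.length)) = A.drop (A.length - t) ++ Z := by
  rw [List.length_append, show A.length + Z.length - (t + Z.length) = A.length - t by omega,
    List.drop_append_of_le_length (by omega)]

lemma pv_app {g : Pt × Pt} {B Z : List Bool} {i : ℕ} (hi : i ≤ B.length) : pv g (B ++ Z) i = pv g B i := by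
  unfold pv
  rw [vx_append (by omega)]

lemma hn_rl_op (T : PT) (Y : List Bool × List Bool) (p : Pt) : TIW.hn (rl (op T Y) p) = TIW.hn (rl T p - TIW.en Y.1) := by
  rw [rl_op, TIW.hn_mulE (nrm_rc Y.1)]

lemma far_op {v : ℕ} {ρ : ℤ} (hY : TIW.hn (TIW.en Y.1) ≤ ρ) (hv : (2 : ℤ) ^ v + ρ ≤ 2 ^ w) {p : Pt}
    (h : 2 ^ w < TIW.hn (rl T p)) : 2 ^ v < TIW.hn (rl (op T Y) p) := by
  rw [hn_rl_op]
  have h1 := TIW.hn_add (rl T p - TIW.en Y.1) (TIW.en Y.1)
  rw [sub_add_cancel] at h1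
  linarith

lemma far_cut {v : ℕ} {ρ : ℤ} (hY : TIW.hn (TIW.en Y.1) ≤ ρ) (hv : (2 : ℤ) ^ v + ρ ≤ 2 ^ w) {p : Pt}
    (h : 2 ^ w < TIW.hn (rl (op T Y) p)) : 2 ^ v < TIW.hn (rl T p) := by
  rw [hn_rl_op] at h
  have h1 := TIW.hn_sub (rl T p) (TIW.en Y.1)
  linarith

/-- the pair with end parts is a pair -/
def Ok (T : PT) : Prop := T.1 ∈ SA ∧ T.2.2 ∈ SA ∧ Av (ob T.2.1 T.2.2) T.1

/-- **near outer parts give near pairs** -/
theorem nrp_op (h : NrP t1 t2 w T T') {v : ℕ} {ρ : ℤ} (hY : TIW.hn (TIW.en Y.1) ≤ ρ) (hv : (2 : ℤ) ^ v + ρ ≤ 2 ^ w)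
    (hs : Ok (op T Y)) (hs' : Ok (op T' Y)) : NrP (t1 + Y.1.length) (t2 + Y.2.length) v (op T Y) (op T' Y) where
  sa := hs.1
  sb := hs.2.1
  fr := h.fr
  av := hs.2.2
  sa' := hs'.1
  sb' := hs'.2.1
  fr' := h.fr'
  av' := hs'.2.2
  z := by rw [zr_op h.fr.1, zr_op h.fr'.1, q2_eq h]
  d := by rw [dr_op h.fr.1, dr_op h.fr'.1, h.d]
  l1 := by
    have := h.l1
    show t1 + Y.1.length ≤ (T.1 ++ Y.1).length
    rw [List.length_append]
    omega
  l2 := by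
    have := h.l2
    show t2 + Y.2.length ≤ (T.2.2 ++ Y.2).length
    rw [List.length_append]
    omega
  l1' := by
    have := h.l1'
    show t1 + Y.1.length ≤ (T'.1 ++ Y.1).length
    rw [List.length_append]
    omega
  l2' := by
    have := h.l2'
    show t2 + Y.2.length ≤ (T'.2.2 ++ Y.2).length
    rw [List.length_append]
    omega
  dp1 := by
    show (T.1 ++ Y.1).drop ((T.1 ++ Y.1).length - _) = (T'.1 ++ Y.1).drop ((T'.1 ++ Y.1).length - _)
    rw [dp_app h.l1, dp_app h.l1', h.dp1]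
  dp2 := by
    show (T.2.2 ++ Y.2).drop ((T.2.2 ++ Y.2).length - _) = (T'.2.2 ++ Y.2).drop ((T'.2.2 ++ Y.2).length - _)
    rw [dp_app h.l2, dp_app h.l2', h.dp2]
  far1 := by
    intro i hi
    have hi' : i + (t1 + Y.1.length) ≤ (T.1 ++ Y.1).length := hi
    rw [List.length_append] at hi'
    have e : vx oo up (op T Y).1 i = vx oo up T.1 i := vx_append (by omega)
    rw [e]
    exact far_op hY hv (h.far1 i (by omega))
  far2 := by
    intro i hi
    have hi' : i + (t2 + Y.2.length) ≤ (T.2.2 ++ Y.2).length := hi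
    rw [List.length_append] at hi'
    have e : pv (op T Y).2.1 (op T Y).2.2 i = pv T.2.1 T.2.2 i := pv_app (by omega)
    rw [e]
    exact far_op hY hv (h.far2 i (by omega))
  far1' := by
    intro i hi
    have hi' : i + (t1 + Y.1.length) ≤ (T'.1 ++ Y.1).length := hi
    rw [List.length_append] at hi'
    have e : vx oo up (op T' Y).1 i = vx oo up T'.1 i := vx_append (by omega)
    rw [e]
    exact far_op hY hv (h.far1' i (by omega))
  far2' := by
    intro i hi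
    have hi' : i + (t2 + Y.2.length) ≤ (T'.2.2 ++ Y.2).length := hi
    rw [List.length_append] at hi'
    have e : pv (op T' Y).2.1 (op T' Y).2.2 i = pv T'.2.1 T'.2.2 i := pv_app (by omega)
    rw [e]
    exact far_op hY hv (h.far2' i (by omega))

lemma av_pre (h : Av (ob (op T Y).2.1 (op T Y).2.2) (op T Y).1) : Av (ob T.2.1 T.2.2) T.1 := by
  rintro t ht ⟨s, hs, e⟩
  have e0 : vx oo up (op T Y).1 t = vx oo up T.1 t := vx_append (by omega)
  have l1 : (op T Y).1.length = T.1.length + Y.1.length := List.length_append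
  have l2 : (op T Y).2.2.length = T.2.2.length + Y.2.length := List.length_append
  refine h t (by omega) ⟨s, by omega, ?_⟩
  have e1 : pv (op T Y).2.1 (op T Y).2.2 s = pv T.2.1 T.2.2 s := pv_app hs
  rw [e0, e1, e]

lemma z_cut (hg : T.2.1.2 ∈ dirs) (hg' : T'.2.1.2 ∈ dirs) (hz : zr (op T Y) = zr (op T' Y))
    (hd : dr (op T Y) = dr (op T' Y)) : zr T = zr T' ∧ dr T = dr T' := by
  rw [dr_op hg, dr_op hg'] at hd
  have h1 := mulE_inj (nrm_rc Y.1) hd
  rw [mulE_comm _ (TIW.de Y.2), mulE_comm _ (TIW.de Y.2)] at h1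
  have hde : nrm (TIW.de Y.2) = 1 := mem_dirs.1 (dx_mem upd' _ _)
  have h2 := mulE_inj hde h1
  have h3 : dr T = dr T' := by
    have a1 := rotTo_apply (dr T) upd'
    have a2 := rotTo_apply (dr T') upd'
    rw [h2] at a1
    rw [← a1, a2]
  refine ⟨?_, h3⟩
  rw [zr_op hg, zr_op hg'] at hz
  have h4 := mulE_inj (nrm_rc Y.1) hz
  unfold q2 at h4
  rw [h2] at h4
  exact add_right_cancel (sub_left_injective h4)

lemma dp_cut {A A' Z : List Bool} {s : ℕ} (hs : Z.length ≤ s) (hA : s ≤ (A ++ Z).length) (hA' : s ≤ (A' ++ Z).length)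
    (h : (A ++ Z).drop ((A ++ Z).length - s) = (A' ++ Z).drop ((A' ++ Z).length - s)) :
    A.drop (A.length - (s - Z.length)) = A'.drop (A'.length - (s - Z.length)) := by
  rw [List.length_append] at hA hA'
  obtain ⟨t, rfl⟩ : ∃ t, s = t + Z.length := ⟨s - Z.length, by omega⟩
  rw [dp_app (by omega), dp_app (by omega)] at h
  rw [Nat.add_sub_cancel]
  exact List.append_cancel_right h

/-- **near pairs have near outer parts** -/
theorem nrp_cut (h : NrP t1 t2 w (op T Y) (op T' Y)) (h1 : Y.1.length ≤ t1) (h2 : Y.2.length ≤ t2) {v : ℕ} {ρ : ℤ}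
    (hY : TIW.hn (TIW.en Y.1) ≤ ρ) (hv : (2 : ℤ) ^ v + ρ ≤ 2 ^ w) :
    NrP (t1 - Y.1.length) (t2 - Y.2.length) v T T' := by
  have a1 : t1 ≤ (T.1 ++ Y.1).length := h.l1
  have a2 : t2 ≤ (T.2.2 ++ Y.2).length := h.l2
  have a1' : t1 ≤ (T'.1 ++ Y.1).length := h.l1'
  have a2' : t2 ≤ (T'.2.2 ++ Y.2).length := h.l2'
  have b1 := dp_cut h1 a1 a1' h.dp1
  have b2 := dp_cut h2 a2 a2' h.dp2
  have s1 : T.1 ++ Y.1 ∈ SA := h.sa
  have s2 : T.2.2 ++ Y.2 ∈ SA := h.sb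
  have s1' : T'.1 ++ Y.1 ∈ SA := h.sa'
  have s2' : T'.2.2 ++ Y.2 ∈ SA := h.sb'
  have hz := z_cut (T := T) (T' := T') (Y := Y) h.fr.1 h.fr'.1 h.z h.d
  have v1 := av_pre (T := T) (Y := Y) h.av
  have v2 := av_pre (T := T') (Y := Y) h.av'
  have f1 : ∀ i, i + t1 ≤ (T.1 ++ Y.1).length → 2 ^ w < TIW.hn (rl (op T Y) (vx oo up (T.1 ++ Y.1) i)) := h.far1
  have f2 : ∀ i, i + t2 ≤ (T.2.2 ++ Y.2).length → 2 ^ w < TIW.hn (rl (op T Y) (pv T.2.1 (T.2.2 ++ Y.2) i)) := h.far2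
  have f1' : ∀ i, i + t1 ≤ (T'.1 ++ Y.1).length → 2 ^ w < TIW.hn (rl (op T' Y) (vx oo up (T'.1 ++ Y.1) i)) := h.far1'
  have f2' : ∀ i, i + t2 ≤ (T'.2.2 ++ Y.2).length → 2 ^ w < TIW.hn (rl (op T' Y) (pv T'.2.1 (T'.2.2 ++ Y.2) i)) := h.far2'
  have g := h.fr
  have g' := h.fr'
  clear h
  rw [List.length_append] at a1 a2 a1' a2'
  refine ⟨pre_SA s1, pre_SA s2, g, v1, pre_SA s1', pre_SA s2', g', v2, hz.1, hz.2, by omega,
    by omega, by omega, by omega, b1, b2, fun i hi => ?_, fun i hi => ?_, fun i hi => ?_, fun i hi => ?_⟩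
  · have := f1 i (by rw [List.length_append]; omega)
    rw [vx_append (by omega)] at this
    exact far_cut hY hv this
  · have := f2 i (by rw [List.length_append]; omega)
    rw [pv_app (by omega)] at this
    exact far_cut hY hv this
  · have := f1' i (by rw [List.length_append]; omega)
    rw [vx_append (by omega)] at this
    exact far_cut hY hv this
  · have := f2' i (by rw [List.length_append]; omega)
    rw [pv_app (by omega)] at this
    exact far_cut hY hv this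

lemma ex_suf {A Z L : List Bool} {s : ℕ} (hs : Z.length ≤ s) (hA : s ≤ (A ++ Z).length) (hL : s ≤ L.length)
    (h : (A ++ Z).drop ((A ++ Z).length - s) = L.drop (L.length - s)) : ∃ A', L = A' ++ Z := by
  refine ⟨L.take (L.length - Z.length), ?_⟩
  have e1 : L.drop (L.length - Z.length) = (L.drop (L.length - s)).drop (s - Z.length) := by
    rw [List.drop_drop]
    congr 1
    omega
  have e2 : ((A ++ Z).drop ((A ++ Z).length - s)).drop (s - Z.length) = (A ++ Z).drop A.length := by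
    rw [List.drop_drop]
    congr 1
    rw [List.length_append] at hA ⊢
    omega
  have e3 : L.drop (L.length - Z.length) = Z := by
    rw [e1, ← h, e2, List.drop_left]
  conv_lhs => rw [← List.take_append_drop (L.length - Z.length) L, e3]

/-- the end parts of a near pair -/
theorem ex_cut {L' : PT} (h : NrP t1 t2 w (op T Y) L') (h1 : Y.1.length ≤ t1) (h2 : Y.2.length ≤ t2) :
    ∃ T', L' = op T' Y := by
  obtain ⟨A, hA⟩ := ex_suf h1 h.l1 h.l1' h.dp1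
  obtain ⟨B, hB⟩ := ex_suf h2 h.l2 h.l2' h.dp2
  refine ⟨(A, (L'.2.1, B)), ?_⟩
  unfold op
  rw [← hA, ← hB]

/-! ### 3. The admissible pairs of cuts -/

variable {P : Par}

/-- the size of the window -/
def w0L (P : Par) : ℕ := P.m + 5 + w0P P.H P.Mx

/-- the hypotheses on the set of the differences -/
structure HS (P : Par) : Prop where
  inv : SInv P.S
  sm : ∀ p ∈ P.S, TIW.hn p ≤ 2 ^ P.j

lemma in_hn {D : ℕ} {Z : List Bool} (h : In D Z) {i : ℕ} (hi : i ≤ Z.length) : TIW.hn (vx oo up Z i) ≤ 3 * D := by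
  have h1 := hn_bl (h i hi)
  have e : vx oo up Z i - oo = vx oo up Z i := sub_zero _
  rw [e] at h1
  exact h1

lemma pj_loc (hw : P.j + w0L P ≤ w) (h : NrP t1 t2 w T T') (τ : Pth) : PJ P T τ ↔ PJ P T' τ := by
  refine and_congr_right fun hτ => ?_
  refine h.jn (fun i hi => hτ.ip.dir i hi) (by have := hτ.r4; omega) ?_ (w0P_le hτ.kj hτ.D2 hτ.rM (by unfold w0L at hw; omega))
  refine le_trans ?_ hτ.D1
  positivity

lemma jbl_loc (hw : P.j + w0L P ≤ w) (h : NrP t1 t2 w T T') : Jbl P T ↔ Jbl P T' :=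
  exists_congr fun τ => pj_loc hw h τ

lemma adm_y (ha : Adm P T Y) : (∀ i, i ≤ Y.1.length → TIW.hn (vx oo up Y.1 i) ≤ 3 * 2 ^ (P.j + P.m)) ∧
    ∀ i, i ≤ Y.2.length → TIW.hn (vx oo up Y.2 i) ≤ 3 * 2 ^ (P.j + P.m) := by
  obtain ⟨-, ⟨⟨-, h1, -⟩, -, h2, -⟩, -⟩ := ha
  refine ⟨fun i hi => ?_, fun i hi => ?_⟩
  · have := in_hn h1 hi
    push_cast at this
    exact this
  · have := in_hn h2 hi
    push_cast at this
    exact this

lemma adm_z (H : HS P) (ha : Adm P T Y) : TIW.hn (zr T) ≤ 7 * 2 ^ (P.j + P.m) := by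
  have hy := adm_y ha
  have y1 := hy.1 _ le_rfl
  have y2 := hy.2 _ le_rfl
  obtain ⟨⟨-, -, hF, -, hS⟩, -⟩ := ha
  have hg : T.2.1.2 ∈ dirs := hF.1
  have h1 := H.sm _ hS
  have h2 : TIW.en (op T Y).1 - pe (op T Y).2.1 (op T Y).2.2 = mulE (TIW.rt T.1) (TIW.en Y.1 - q2 T (TIW.en Y.2)) :=
    gap_rel T hg Y.1 Y.2
  rw [h2, TIW.hn_mulE (TIW.nrm_rt T.1)] at h1
  have h3 := TIW.hn_sub (TIW.en Y.1) (TIW.en Y.1 - q2 T (TIW.en Y.2))
  rw [sub_sub_cancel] at h3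
  have h4 := TIW.hn_sub (q2 T (TIW.en Y.2)) (mulE (rotTo up (dr T)) (TIW.en Y.2))
  rw [TIW.hn_mulE (nrm_rotTo upd' (dr_mem hg))] at h4
  have e : q2 T (TIW.en Y.2) - mulE (rotTo up (dr T)) (TIW.en Y.2) = zr T := by
    unfold q2
    rw [add_sub_cancel_right]
  rw [e] at h4
  have y1' : TIW.hn (TIW.en Y.1) ≤ 3 * 2 ^ (P.j + P.m) := y1
  have y2' : TIW.hn (TIW.en Y.2) ≤ 3 * 2 ^ (P.j + P.m) := y2
  have h5 : (2 : ℤ) ^ P.j ≤ 2 ^ (P.j + P.m) := pow_le_pow_right₀ (by norm_num) (by omega)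
  linarith

lemma adm_ok (ha : Adm P T Y) : Ok (op T Y) := ⟨ha.1.1, ha.1.2.1, ha.1.2.2.2.1⟩

/-- **admissible pairs are local** -/
theorem adm_loc (H : HS P) (hw : P.j + w0L P ≤ w) (h : NrP t1 t2 w T T') (ha : Adm P T Y) : Adm P T' Y := by
  have hy := adm_y ha
  have hz := adm_z H ha
  have hok := adm_ok ha
  obtain ⟨hG, hC, hJ, hl⟩ := ha
  have p1 : (16 : ℤ) * 2 ^ (P.j + P.m) ≤ 2 ^ w := by
    have e : (16 : ℤ) * 2 ^ (P.j + P.m) = 2 ^ (P.j + P.m + 4) := by ring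
    rw [e]
    exact pow_le_pow_right₀ (by norm_num) (by unfold w0L at hw; omega)
  have p2 : (2 : ℤ) ^ (P.j - P.a) ≤ 2 ^ (P.j + P.m) := pow_le_pow_right₀ (by norm_num) (by omega)
  have p3 : (0 : ℤ) < 2 ^ (P.j + P.m) := by positivity
  have h1 := sa_locP (Y1 := Y.1) (Y2 := Y.2) h hy.1 hy.2 (by linarith) hok
  refine ⟨⟨h1.1, h1.2.1, h.fr', h1.2.2, ?_⟩, cutPI_loc h (by linarith) hC, (jbl_loc hw h).1 hJ, hl⟩
  exact gap_loc_S (Y1 := Y.1) (Y2 := Y.2) h H.inv hG.2.2.2.2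

/-- the end parts of the admissible pairs of cuts -/
def AX (P : Par) (L : PT) : Set (List Bool × List Bool) := {Y | ∃ T, Adm P T Y ∧ op T Y = L}

lemma op_inj {T T' : PT} (h : op T Y = op T' Y) : T = T' := by
  obtain ⟨A, g, B⟩ := T
  obtain ⟨A', g', B'⟩ := T'
  obtain ⟨h1, h2⟩ := Prod.mk.inj h
  obtain ⟨h3, h4⟩ := Prod.mk.inj h2
  have e1 : A = A' := List.append_cancel_right h1
  have e2 : B = B' := List.append_cancel_right h4
  have e3 : g = g' := h3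
  rw [e1, e2, e3]

lemma nn_ax (L : PT) : NN P L = (AX P L).ncard := by
  have e : AX P L = (fun p : PT × (List Bool × List Bool) => p.2) '' AD P L := by
    ext Y
    constructor
    · rintro ⟨T, h1, h2⟩
      exact ⟨(T, Y), ⟨h1, h2⟩, rfl⟩
    · rintro ⟨q, ⟨h1, h2⟩, rfl⟩
      exact ⟨q.1, h1, h2⟩
  unfold NN
  rw [e, Set.InjOn.ncard_image]
  rintro ⟨T, Y⟩ ⟨-, h1⟩ ⟨T', Y'⟩ ⟨-, h1'⟩ h
  have h2 : Y = Y' := h
  subst h2
  have h3 : T = T' := op_inj (h1.trans h1'.symm)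
  rw [h3]

lemma y_len {t : ℕ} (ht : P.A1 * ml P.j ≤ t) (ha : Adm P T Y) : Y.1.length ≤ t ∧ Y.2.length ≤ t := by
  have h := ha.2.2.2.trans ht
  have h0 : (0 : ℝ) ≤ Y.1.length := Nat.cast_nonneg _
  have h1 : (0 : ℝ) ≤ Y.2.length := Nat.cast_nonneg _
  constructor
  · have : (Y.1.length : ℝ) ≤ t := by linarith
    exact_mod_cast this
  · have : (Y.2.length : ℝ) ≤ t := by linarith
    exact_mod_cast this

lemma pw {v B : ℕ} (hv : B + 3 ≤ v) : (2 : ℤ) ^ (v - 1) + 3 * 2 ^ B ≤ 2 ^ v := by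
  obtain ⟨u, rfl⟩ : ∃ u, v = B + 3 + u := ⟨v - (B + 3), by omega⟩
  have e1 : (2 : ℤ) ^ (B + 3 + u - 1) = 2 ^ (B + 2 + u) := by
    rw [show B + 3 + u - 1 = B + 2 + u by omega]
  have e2 : (2 : ℤ) ^ (B + 2 + u) = 4 * 2 ^ B * 2 ^ u := by
    rw [pow_add, pow_add]
    ring
  have e3 : (2 : ℤ) ^ (B + 3 + u) = 8 * 2 ^ B * 2 ^ u := by
    rw [pow_add, pow_add]
    ring
  have h1 : (1 : ℤ) ≤ 2 ^ u := one_le_pow₀ (by norm_num)
  have h2 : (0 : ℤ) < 2 ^ B := by positivity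
  rw [e1, e2, e3]
  nlinarith

lemma ax_sub (H : HS P) {L L' : PT} (hw : P.j + w0L P + 1 ≤ w) (h : NrP t1 t2 w L L') (h1 : P.A1 * ml P.j ≤ t1)
    (h2 : P.A1 * ml P.j ≤ t2) : AX P L ⊆ AX P L' := by
  rintro Y ⟨T, ha, rfl⟩
  obtain ⟨T', rfl⟩ := ex_cut h (y_len h1 ha).1 (y_len h2 ha).2
  have h3 := nrp_cut h (y_len h1 ha).1 (y_len h2 ha).2 ((adm_y ha).1 _ le_rfl) (pw (by unfold w0L at hw; omega))
  exact ⟨T', adm_loc H (by omega) h3 ha, rfl⟩

/-- **the number of the admissible pairs is local** -/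
theorem nn_loc (H : HS P) {L L' : PT} (hw : P.j + w0L P + 1 ≤ w) (h : NrP t1 t2 w L L') (h1 : P.A1 * ml P.j ≤ t1)
    (h2 : P.A1 * ml P.j ≤ t2) : NN P L = NN P L' := by
  rw [nn_ax, nn_ax, (ax_sub H hw h h1 h2).antisymm (ax_sub H hw h.symm h1 h2)]

theorem many_loc (H : HS P) {w1 : ℕ} (hZ : LocZ P w1) (hA : 0 ≤ P.A) {L L' : PT} (hw : P.j + w0L P + 1 ≤ w)
    (hw1 : P.j + w1 ≤ w) (h : NrP t1 t2 w L L') (h1 : (P.A + P.A1) * ml P.j ≤ t1) (h2 : (P.A + P.A1) * ml P.j ≤ t2) :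
    Many P L ↔ Many P L' := by
  have hml : 0 ≤ P.A * ml P.j := by
    unfold ml
    positivity
  have h3 := hZ t1 t2 w L L' hw1 h h1 h2
  rw [add_mul] at h1 h2
  unfold Many
  rw [nn_loc H hw h (by linarith) (by linarith), h3]

/-! ### 4. The weight of the tips, the fillings -/

/-- **the weight of the tips is local** -/
theorem th_loc (H : HS P) {w1 : ℕ} (hZ : LocZ P w1) (hA : 0 ≤ P.A) (hw : P.j + w0L P + 2 ≤ w) (hw1 : P.j + w1 + 1 ≤ w)
    (h : NrP t1 t2 w T T') (h1 : (P.A + P.A1) * ml P.j ≤ t1) (h2 : (P.A + P.A1) * ml P.j ≤ t2) : th P T = th P T' := by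
  classical
  have hml : 0 ≤ P.A * ml P.j := by
    unfold ml
    positivity
  have hc : ∀ t x : ℕ, (P.A + P.A1) * ml P.j ≤ t → (P.A + P.A1) * ml P.j ≤ ((t + x : ℕ) : ℝ) := by
    intro t x ht
    push_cast
    have : (0 : ℝ) ≤ x := Nat.cast_nonneg _
    linarith
  have hc1 : ∀ t : ℕ, (P.A + P.A1) * ml P.j ≤ t → P.A1 * ml P.j ≤ t := by
    intro t ht
    rw [add_mul] at ht
    linarith
  show (dat P).th T = (dat P).th T'
  unfold Pool.Agent.NuG.Dat.th
  refine tsum_congr fun Y => ?_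
  by_cases ha : Adm P T Y
  · have ha' := adm_loc H (by omega) h ha
    have h3 := nrp_op h ((adm_y ha).1 _ le_rfl) (pw (B := P.j + P.m) (by unfold w0L at hw; omega)) (adm_ok ha) (adm_ok ha')
    have h4 : Many P (op T Y) ↔ Many P (op T' Y) :=
      many_loc H hZ hA (by omega) (by omega) h3 (hc _ _ h1) (hc _ _ h2)
    have h5 : NN P (op T Y) = NN P (op T' Y) := nn_loc H (by omega) h3 (hc1 _ (hc _ _ h1)) (hc1 _ (hc _ _ h2))
    have e1 : (dat P).N ((dat P).op T Y) = (dat P).N ((dat P).op T' Y) := h5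
    by_cases hm : Many P (op T Y)
    · rw [if_pos ⟨ha, hm⟩, if_pos ⟨ha', h4.1 hm⟩, e1]
    · rw [if_neg fun x => hm x.2, if_neg fun x => hm (h4.2 x.2)]
  · have ha' : ¬ Adm P T' Y := fun x => ha (adm_loc H (by omega) h.symm x)
    rw [if_neg fun x => ha x.1, if_neg fun x => ha' x.1]

/-- **the fillings are local** -/
theorem fil_loc (hw : P.j + w0L P ≤ w) (h : NrP t1 t2 w T T') : Fil P T = Fil P T' := by
  have e := pth_congr (P := P) fun τ => pj_loc hw h τ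
  unfold Fil
  rw [e, h.z, h.d]

theorem gF_loc (hw : P.j + w0L P ≤ w) (h : NrP t1 t2 w T T') : gF P T = gF P T' := by
  classical
  have e := fil_loc hw h
  show (dat P).gF T = (dat P).gF T'
  unfold Pool.Agent.NuG.Dat.gF
  refine tsum_congr fun q => ?_
  have e2 : (dat P).fil T q ↔ (dat P).fil T' q := by
    show (q.1 ∈ Fil P T ∧ q.2.1 < q.1.length) ↔ (q.1 ∈ Fil P T' ∧ q.2.1 < q.1.length)
    rw [e]
  by_cases h1 : (dat P).fil T q
  · rw [if_pos h1, if_pos (e2.1 h1)]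
  · rw [if_neg h1, if_neg fun x => h1 (e2.2 x)]

end LN

end RMP

end HexObs
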