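import Pool.Agent.RMP.DefsK
import Pool.Agent.POL.Defs

/-!
# (RM), row P9 (helper10): the mass of the pairs from below. Literals

Plan: marks of the uniform walk with many pairs of good cuts on both sides of the mark (`GM`); the part between the two cuts is
removed (its mass with given ends is at most `C Ub j / 4 ^ j`, `JL.pp_pt`); two tips without a cut are attached (`NcHB`), which is
injective. The good marks come from the roots of the polygons (`T2N`, `T2Qc`, `ConfP`) by the densities (`DenP`, `ExR`).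

* `OutF ρ T` : the half balls of radius ρ in front of both tips are free of both words, the tips are not near each other;
* `CPr` : the pairs of good cuts; `GM` : many pairs of good cuts;
* rows **L1** `TipAdd`, **L2** `MarkP`, **L3** `PolG`, **L4** `TransD`, **L5** `WinGM`.
-/

set_option autoImplicit false

namespace HexObs

namespace RMP

open Finset TS SDN HexObs.SIM NTA TIP ARM TIW

open scoped ENNReal

/-- outer pairs: free half balls of radius ρ in front of both tips, the tips at a distance more than 8 ρ -/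
structure OutF (ρ : ℕ) (T : PT) : Prop where
  sa : T.1 ∈ SA
  sb : T.2.2 ∈ SA
  fr : Fr T.2.1
  av : Av (ob T.2.1 T.2.2) T.1
  fa : FreeT ρ T.1
  fb : FreeT ρ T.2.2
  oa : FreeO ρ (ob T.2.1 T.2.2) T.1
  ob : FreeO ρ (ob (gi T.2.1) T.1) T.2.2
  far : 8 * (ρ : ℤ) < TIW.hn (TIW.en T.1 - pe T.2.1 T.2.2)

/-- **pairs of good cuts** of the pair T: the parts behind the cuts, both with at most w letters -/
def CPr (j a m w : ℕ) (η : ℝ) (T : PT) : Set (List Bool × List Bool) :=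
  {p | rev p.1 ∈ GT j η ∧ rev p.2 ∈ GT j η ∧ In (2 ^ (j + m)) p.1 ∧ In (2 ^ (j + m)) p.2 ∧ p.1.length ≤ w ∧ p.2.length ≤ w ∧
    ∃ A B, T.1 = A ++ p.1 ∧ T.2.2 = B ++ p.2 ∧ OutF (2 ^ (j - a)) (A, (T.2.1, B))}

/-- **good pairs** (marks): many pairs of good cuts -/
def GM (j a m w : ℕ) (η κ : ℝ) (T : PT) : Prop := (κ * Ub j) ^ 2 ≤ ((CPr j a m w η T).ncard : ℝ)

/-- **row L1**: two tips (no cut) are attached to the outer pairs in A; every pair of T comes from at most 36 pairs of A -/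
def TipAdd : Prop := ∀ (a : ℕ) (e : ℝ), 0 < e → ∃ (c : ℝ) (b0 : ℕ), 0 < c ∧ ∀ j : ℕ, b0 ≤ j → ∀ AA TT : Set PT,
  (∀ T ∈ AA, OutF (2 ^ (j - a)) T) →
  (∀ T ∈ AA, ∀ Y1 Y2 : List Bool, (∀ i, i ≤ Y1.length → (TIW.hn (vx oo up Y1 i) : ℝ) ≤ e * 2 ^ j) →
    (∀ i, i ≤ Y2.length → (TIW.hn (vx oo up Y2 i) : ℝ) ≤ e * 2 ^ j) → (Y1.length : ℝ) ≤ e * ml j →
    (Y2.length : ℝ) ≤ e * ml j → T.1 ++ Y1 ∈ SA → T.2.2 ++ Y2 ∈ SA → Av (ob T.2.1 (T.2.2 ++ Y2)) (T.1 ++ Y1) →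
      ((T.1 ++ Y1, (T.2.1, T.2.2 ++ Y2)) : PT) ∈ TT) →
  gp AA * (ENNReal.ofReal c * Xb j ^ 2) ≤ gp TT

/-- **row L2**: the words with good marks, lengths N ∈ J, marks t ∈ I N -/
def MarkP : Prop := ∀ (η : ℝ) (m : ℕ), 0 < η → ∃ (C : ℝ) (b0 : ℕ), 0 < C ∧ ∀ (j a w : ℕ) (κ : ℝ), b0 ≤ j → 0 < κ →
  ∀ (J : Finset ℕ) (I : ℕ → Finset ℕ) (AA : Set PT), (∀ N ∈ J, ∀ t ∈ I N, t < N) →
    (∀ (A B Y1 Y2 : List Bool) (g : Pt × Pt), OutF (2 ^ (j - a)) (A, (g, B)) → In (2 ^ (j + m)) Y1 → In (2 ^ (j + m)) Y2 →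
      Y1.length ≤ w → Y2.length ≤ w → TIW.hn (TIW.en A - pe g B) ≤ 2 ^ (j + m + 4) →
      (∃ N ∈ J, A.length + Y1.length ∈ I N ∧ A.length + Y1.length + (B.length + Y2.length) + 1 = N) →
        ((A, (g, B)) : PT) ∈ AA) →
    (∑ N ∈ J, ∑ t ∈ I N, gf {H | H ∈ SawN N ∧ GM j a m w η κ (cutH t H)}) * ENNReal.ofReal ((κ * Ub j) ^ 2) ≤
      ENNReal.ofReal (C * (Ub j / 4 ^ j * ml j)) * gp AA

/-- the window at the root of a closed word: w letters on both sides -/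
def rwin (w : ℕ) (K : List Bool) : List Bool := K.drop (K.length - w) ++ K.take w

/-- **row L3**: the roots of the polygons are good marks -/
def PolG : Prop := ∀ ε : ℝ, 0 < ε → ∃ (η κ C : ℝ) (a m b0 : ℕ), 0 < η ∧ 0 < κ ∧ 0 < C ∧ ∀ j N w : ℕ, b0 ≤ j →
  2 ^ b0 * ml j ≤ N → C * ml j ≤ w → 2 * w ≤ N →
    gf {K | K ∈ POL.Cy N ∧ ¬ GM j a m w η κ (cutH w (rwin w K))} ≤ ENNReal.ofReal (ε * (N : ℝ) ^ (-(3 / 2) : ℝ))

/-- the window of the word t around its vertex number i: w letters on both sides -/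
def mwin (w i : ℕ) (t : List Bool) : List Bool := (t.drop (i - w)).take (2 * w)

open Classical in
/-- the number of the marks between x and y with a window in S -/
noncomputable def nwin (w : ℕ) (S : Set (List Bool)) (t : List Bool) (x y : ℕ) : ℕ :=
  ((Ico x y).filter fun i => w ≤ i ∧ i + w ≤ t.length ∧ mwin w i t ∈ S).card

/-- **row L4**: what holds at the roots of the polygons holds at most marks of the walks -/
def TransD : Prop := ∀ ε : ℝ, 0 < ε → ∃ (ε' δ : ℝ) (n0 : ℕ), 0 < ε' ∧ 0 < δ ∧ ∀ (n w : ℕ) (S : Set (List Bool)), n0 ≤ n →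
  (w : ℝ) ≤ δ * n →
    (∀ N : ℕ, n ≤ N → N ≤ 2 * n + 2 → gf {K | K ∈ POL.Cy N ∧ rwin w K ∉ S} ≤ ENNReal.ofReal (ε' * (N : ℝ) ^ (-(3 / 2) : ℝ))) →
      TOG.Pn n {t | ¬ ∀ x y : ℕ, x ≤ y → y ≤ n → (y : ℝ) - x - ε * n ≤ nwin w S t x y} ≤ ε

/-- **row L5**: a good window and no vertex near the mark outside of the window: a good mark -/
def WinGM : Prop := ∀ (j a m w t : ℕ) (η κ : ℝ) (H : List Bool), H ∈ SA → a ≤ j → w ≤ t → t + w < H.length →
  GM j a m w η κ (cutH w (mwin w t H)) → (∀ i, i ≤ H.length → (i + w ≤ t ∨ t + w ≤ i) →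
    2 ^ (j + m + 4) < TIW.hn (vx oo up H i - vx oo up H t)) → GM j a m w η κ (cutH t H)

end RMP

end HexObs
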