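import Pool.Agent.RMP.LowDefs
import Pool.Agent.RMP.EsIn
import Pool.Agent.ARM.JLowC
import Pool.Agent.ARM.T2Fin
import Pool.Agent.ARM.T1
import Pool.Agent.ARM.NumB

/-!
# (RM), row P9, L2 (helper10): the count of the pairs of good cuts

* `gE_pv`, `gE_nx`, `Fr_gE` : the frame of the reversed end of a word;
* `low_inner` : the mass of the parts between two cuts with a mark;
* **`markP`** : the literal `MarkP`.
-/

set_option autoImplicit false

namespace HexObs

namespace RMP

open Finset TS SDN HexObs.SIM NTA TIP ARM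

open scoped ENNReal

namespace LowM

/-! ### 1. The reversed end -/

lemma rev_append' (s t : List Bool) : rev (s ++ t) = rev t ++ rev s := by
  unfold rev
  rw [List.map_append, List.reverse_append]

/-- the vertices of the reversed end, one more than the letters -/
lemma gE_pv (P u : List Bool) (x : Bool) {i : ℕ} (hi : i ≤ u.length + 1) :
    (gE (P ++ (u ++ [x]))).1 + mulE (gE (P ++ (u ++ [x]))).2 (vx oo up (rev u) i) =
      vx oo up (P ++ (u ++ [x])) ((P ++ (u ++ [x])).length - i) := by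
  obtain ⟨t, ht⟩ : ∃ t, t = P ++ u := ⟨_, rfl⟩
  have e0 : P ++ (u ++ [x]) = t ++ [x] := by rw [ht, List.append_assoc]
  have hl : (P ++ (u ++ [x])).length = t.length + 1 := by rw [e0, List.length_append]; rfl
  have htl : t.length = P.length + u.length := by rw [ht, List.length_append]
  have h1 := vx_rev oo up t i (by omega)
  have e1 : vx (tip oo up t) (-(dx up t t.length)) (rev t) i = vx (tip oo up t) (-(dx up t t.length)) (rev u) i := by
    rw [ht, rev_append']
    exact vx_append (by rw [rev_length]; exact hi)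
  rw [e1] at h1
  have e2 : dx up (P ++ (u ++ [x])) ((P ++ (u ++ [x])).length - 1) = dx up t t.length := by
    rw [hl, Nat.add_sub_cancel, e0]
    exact dx_append le_rfl
  have e3 : TIW.en (P ++ (u ++ [x])) = tip oo up t := by
    unfold TIW.en
    rw [hl, e0]
    show vx oo up (t ++ [x]) (t.length + 1) = vx oo up t (t.length + 1)
    exact vx_append le_rfl
  have e4 : vx oo up (P ++ (u ++ [x])) (t.length + 1 - i) = vx oo up t (t.length + 1 - i) := by
    rw [e0]
    exact vx_append (by omega)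
  rw [hl, e4, ← h1]
  unfold gE
  simp only
  rw [e2, e3]
  have hd : -(dx up t t.length) ∈ dirs := dirs_neg (dx_mem up_dirs t _)
  conv_rhs => rw [(frame_dir hd).2]
  rw [vx_frameN]

lemma gE_pe (P u : List Bool) (x : Bool) : pe (gE (P ++ (u ++ [x]))) (rev u) = vx oo up (P ++ (u ++ [x])) (P.length + 1) := by
  have h := gE_pv P u x (i := u.length) (by omega)
  unfold pe pv
  rw [rev_length, h]
  congr 1
  simp only [List.length_append, List.length_cons, List.length_nil]
  omega

/-- the place behind the tip of the reversed end -/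
lemma gE_nx (P u : List Bool) (x : Bool) : pe (gE (P ++ (u ++ [x]))) (rev u) + pd (gE (P ++ (u ++ [x]))) (rev u) =
    vx oo up (P ++ (u ++ [x])) P.length := by
  have h := gE_pv P u x (i := u.length + 1) le_rfl
  have e1 : vx oo up (rev u) (u.length + 1) = vx oo up (rev u) (rev u).length + dx up (rev u) (rev u).length := by
    rw [rev_length]
    rfl
  rw [e1, mulE_add, ← add_assoc] at h
  unfold pe pv pd TIW.de
  rw [h]
  congr 1
  simp only [List.length_append, List.length_cons, List.length_nil]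
  omega

/-- the frame at the end of a word -/
lemma Fr_gE {t : List Bool} (ht : 1 ≤ t.length) : Fr (gE t) := by
  have hd : -(dx up t (t.length - 1)) ∈ dirs := dirs_neg (dx_mem up_dirs t _)
  have h1 : mulE (rotTo up (-(dx up t (t.length - 1)))) up = -(dx up t (t.length - 1)) := rotTo_apply _ up_dirs
  have h2 := congrArg cl h1
  rw [cl_mulE] at h2
  have h3 : cl (-(dx up t (t.length - 1))) = -cl (dx up t (t.length - 1)) := by
    unfold cl
    push_cast
    simp only [Prod.fst_neg, Prod.snd_neg]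
    push_cast
    ring
  rw [h3, cl_dx] at h2
  have hup : cl up = 2 := by decide
  refine ⟨(frame_dir hd).1, ?_⟩
  have h4 : cl (TIW.en t) = if Even t.length then 0 else 2 := by
    unfold TIW.en
    rw [cl_vx, hup]
    have h0 : cl oo = 0 := by decide
    rw [h0, zero_add]
  have h5 : cl (gE t).1 = if Even t.length then 0 else 2 := h4
  have h6 : cl (gE t).2 * 2 = -if Even (t.length - 1) then (2 : ZMod 3) else -2 := by
    have : cl (gE t).2 = cl (rotTo up (-(dx up t (t.length - 1)))) := rfl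
    rw [this, ← hup, h2]
  rw [h5, hup]
  generalize cl (gE t).2 = z at h6
  by_cases he : Even t.length
  · have ho : ¬ Even (t.length - 1) := by
      rw [Nat.even_sub ht]
      simp [he]
    rw [if_neg ho] at h6
    left
    refine ⟨if_pos he, ?_⟩
    revert h6
    revert z
    decide
  · have ho : Even (t.length - 1) := by
      rw [Nat.even_sub ht]
      simp [he]
    rw [if_pos ho] at h6
    right
    refine ⟨if_neg he, ?_⟩
    revert h6
    revert z
    decide

/-- the word from its pair -/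
lemma cut_join {t : ℕ} {H A B Y1 Y2 : List Bool} (ht : t < H.length) (h1 : (cutH t H).1 = A ++ Y1)
    (h2 : (cutH t H).2.2 = B ++ Y2) : ∃ x : Bool, H = (A ++ (Y1 ++ rev Y2)) ++ (rev B ++ [x]) := by
  have h1' : H.take t = A ++ Y1 := h1
  have h2' : rev ((H.drop t).dropLast) = B ++ Y2 := h2
  have hne : H.drop t ≠ [] := by
    intro h
    have := congrArg List.length h
    rw [List.length_drop, List.length_nil] at this
    omega
  have h3 : (H.drop t).dropLast = rev Y2 ++ rev B := by
    rw [← rev_rev ((H.drop t).dropLast), h2', rev_append']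
  refine ⟨(H.drop t).getLast hne, ?_⟩
  calc H = H.take t ++ H.drop t := (List.take_append_drop t H).symm
    _ = (A ++ Y1) ++ ((H.drop t).dropLast ++ [(H.drop t).getLast hne]) := by
        rw [List.dropLast_append_getLast, h1']
    _ = _ := by
        rw [h3]
        simp only [List.append_assoc]

/-! ### 2. The inner parts -/

/-- the inner parts Y1 ++ rev Y2 with the mark between Y1 and rev Y2, displacement z -/
def IQ (η : ℝ) (m j : ℕ) (z : Pt) : Set (List Bool × List Bool) :=
  {p | rev p.1 ∈ GT j η ∧ rev p.2 ∈ GT j η ∧ In (2 ^ (j + m)) p.1 ∧ In (2 ^ (j + m)) p.2 ∧ p.1 ++ rev p.2 ∈ SA ∧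
    TIW.en (p.1 ++ rev p.2) = z}

lemma IQ_pp {η : ℝ} {m j : ℕ} {z : Pt} {p : List Bool × List Bool} (h : p ∈ IQ η m j z) :
    p.1 ++ rev p.2 ∈ PM.PP η j (m + 6) := by
  obtain ⟨h1, h2, h3, h4, h5, -⟩ := h
  refine ⟨h5, ?_, p.1, rev p.2, rfl, h1, h2⟩
  have a1 : In (6 * 2 ^ (j + m) + 4) (rev p.2) := by
    intro i hi
    refine Bl_of_hn ?_
    have := G2.near_start (L := rev p.2) (q := (rev p.2).length) (s := i) (by rw [List.take_length, rev_rev]; exact h4) hi
      le_rfl
    push_cast at this ⊢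
    exact this
  have a3 := NPR.In_app h3 a1
  intro i hi
  refine Bl_mono _ ?_ (a3 i hi)
  have e1 : 2 ^ (j + (m + 6)) = 64 * 2 ^ (j + m) := by ring
  have e2 : 1 ≤ 2 ^ (j + m) := Nat.one_le_two_pow
  rw [e1]
  omega

lemma marked (S : Set (List Bool × List Bool)) (R : Set (List Bool)) (h : ∀ p ∈ S, p.1 ++ rev p.2 ∈ R) :
    ∑' p : S, wE (p : List Bool × List Bool).1 * wE (p : List Bool × List Bool).2 ≤
      ∑' Q : R, (((Q : List Bool).length + 1 : ℕ) : ℝ≥0∞) * wE (Q : List Bool) := by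
  obtain ⟨φ, hφ⟩ : ∃ φ : S → (Σ Q : R, Fin ((Q : List Bool).length + 1)), φ = fun p =>
      ⟨⟨(p : List Bool × List Bool).1 ++ rev (p : List Bool × List Bool).2, h p p.2⟩,
        ⟨(p : List Bool × List Bool).1.length, by
          simp only [List.length_append]
          omega⟩⟩ := ⟨_, rfl⟩
  have hinj : Function.Injective φ := by
    intro p p' hpp
    rw [hφ] at hpp
    simp only at hpp
    rw [Sigma.mk.injEq] at hpp
    obtain ⟨h1, h2⟩ := hpp
    have h3 : (p : List Bool × List Bool).1 ++ rev (p : List Bool × List Bool).2 =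
        (p' : List Bool × List Bool).1 ++ rev (p' : List Bool × List Bool).2 := congrArg Subtype.val h1
    have h4 : (p : List Bool × List Bool).1.length = (p' : List Bool × List Bool).1.length := by
      have hlen : ((p : List Bool × List Bool).1 ++ rev (p : List Bool × List Bool).2).length + 1 =
        ((p' : List Bool × List Bool).1 ++ rev (p' : List Bool × List Bool).2).length + 1 := by rw [h3]
      exact (Fin.heq_ext_iff hlen).1 h2
    obtain ⟨h5, h6⟩ := List.append_inj h3 h4
    have h7 : (p : List Bool × List Bool).2 = (p' : List Bool × List Bool).2 := by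
      rw [← rev_rev (p : List Bool × List Bool).2, h6, rev_rev]
    exact Subtype.ext (Prod.ext h5 h7)
  calc ∑' p : S, wE (p : List Bool × List Bool).1 * wE (p : List Bool × List Bool).2
      = ∑' p : S, (fun q : (Σ Q : R, Fin ((Q : List Bool).length + 1)) => wE (q.1 : List Bool)) (φ p) := by
        refine tsum_congr fun p => ?_
        rw [hφ]
        simp only
        rw [wE_append]
        congr 1
        unfold wE
        rw [rev_length]
    _ ≤ ∑' q : (Σ Q : R, Fin ((Q : List Bool).length + 1)), wE (q.1 : List Bool) :=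
        ENNReal.tsum_comp_le_tsum_of_injective hinj (fun q : (Σ Q : R, Fin ((Q : List Bool).length + 1)) => wE (q.1 : List Bool))
    _ = ∑' Q : R, ∑' _ : Fin ((Q : List Bool).length + 1), wE (Q : List Bool) :=
        ENNReal.tsum_sigma' (fun q : (Σ Q : R, Fin ((Q : List Bool).length + 1)) => wE (q.1 : List Bool))
    _ = _ := by
        refine tsum_congr fun Q => ?_
        rw [tsum_fintype, sum_const, card_univ, Fintype.card_fin, nsmul_eq_mul]

/-- **the mass of the inner parts with a mark** -/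
theorem low_inner (η : ℝ) (m : ℕ) (hη : 0 < η) : ∃ (C : ℝ) (b0 : ℕ), 0 < C ∧ ∀ (j : ℕ) (z : Pt), b0 ≤ j →
    ∑' p : IQ η m j z, wE (p : List Bool × List Bool).1 * wE (p : List Bool × List Bool).2 ≤
      ENNReal.ofReal (C * (Ub j / 4 ^ j * ml j)) := by
  obtain ⟨C, b0, hC, h⟩ := JL.pp_pt smL (pm2_of yMassW) η (m + 6) 5 hη
  refine ⟨2 * C, b0, by positivity, fun j z hj => ?_⟩
  have hml := ml_pos j
  have hml1 : 1 ≤ ml j := one_le_ml j
  have hU := Ub_pos j
  obtain ⟨R, hR⟩ : ∃ R : Set (List Bool), R = {P | P ∈ PM.PP η j (m + 6) ∧ TIW.en P = z} := ⟨_, rfl⟩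
  have h1 := marked (IQ η m j z) R (fun p hp => by
    rw [hR]
    exact ⟨IQ_pp hp, hp.2.2.2.2.2⟩)
  refine h1.trans ?_
  have h2 : ∑' Q : R, (((Q : List Bool).length + 1 : ℕ) : ℝ≥0∞) * wE (Q : List Bool) =
      ∑' y : ℕ, ∑' Q : (fun Q : R => (Q : List Bool).length) ⁻¹' {y}, (((Q : R) : List Bool).length + 1 : ℕ) *
        wE ((Q : R) : List Bool) :=
    (ENNReal.tsum_fiberwise (fun Q : R => (((Q : List Bool).length + 1 : ℕ) : ℝ≥0∞) * wE (Q : List Bool))
      (fun Q : R => (Q : List Bool).length)).symm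
  rw [h2]
  have h3 : ∀ y : ℕ, ∑' Q : (fun Q : R => (Q : List Bool).length) ⁻¹' {y}, (((Q : R) : List Bool).length + 1 : ℕ) *
      wE ((Q : R) : List Bool) ≤ ENNReal.ofReal (C * (Ub j / 4 ^ j) * (1 + (y : ℝ) / ml j) ^ (-(4 : ℝ))) := by
    intro y
    obtain ⟨Ry, hRy⟩ : ∃ Ry : Set (List Bool), Ry = {P | P ∈ PM.PP η j (m + 6) ∧ P.length = y ∧ TIW.en P = z} := ⟨_, rfl⟩
    have h4 : ∑' Q : (fun Q : R => (Q : List Bool).length) ⁻¹' {y}, (((Q : R) : List Bool).length + 1 : ℕ) *
        wE ((Q : R) : List Bool) ≤ ∑' Q : Ry, ((y + 1 : ℕ) : ℝ≥0∞) * wE (Q : List Bool) := by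
      obtain ⟨ψ, hψ⟩ : ∃ ψ : (fun Q : R => (Q : List Bool).length) ⁻¹' {y} → Ry, ψ = fun Q => ⟨((Q : R) : List Bool), by
        have hQ := (Set.ext_iff.1 hR _).1 (Q : R).2
        exact (Set.ext_iff.1 hRy _).2 ⟨hQ.1, Q.2, hQ.2⟩⟩ := ⟨_, rfl⟩
      have hinj : Function.Injective ψ := by
        intro a b hab
        rw [hψ] at hab
        have := congrArg Subtype.val hab
        exact Subtype.ext (Subtype.ext this)
      refine le_trans (ENNReal.tsum_le_tsum fun Q => ?_)
        (ENNReal.tsum_comp_le_tsum_of_injective hinj (fun Q : Ry => ((y + 1 : ℕ) : ℝ≥0∞) * wE (Q : List Bool)))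
      have hl : ((Q : R) : List Bool).length = y := Q.2
      rw [hψ]
      simp only
      rw [hl]
    refine h4.trans ?_
    rw [ENNReal.tsum_mul_left]
    have h5 : ∑' Q : Ry, wE (Q : List Bool) ≤ ENNReal.ofReal (C * (Ub j / (4 ^ j * ml j)) * ((1 + (y : ℝ) / ml j) ^ 5)⁻¹) := by
      have := h j y z hj
      rw [← hRy] at this
      exact this
    refine (mul_le_mul' le_rfl h5).trans ?_
    rw [← ENNReal.ofReal_natCast, ← ENNReal.ofReal_mul (by positivity)]
    refine ENNReal.ofReal_le_ofReal ?_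
    obtain ⟨v, hv⟩ : ∃ v : ℝ, v = 1 + (y : ℝ) / ml j := ⟨_, rfl⟩
    have hv1 : 1 ≤ v := by
      rw [hv]
      have : 0 ≤ (y : ℝ) / ml j := by positivity
      linarith
    have hvy : (y : ℝ) + 1 ≤ ml j * v := by
      rw [hv, mul_add, mul_div_cancel₀ _ hml.ne']
      linarith
    have hv0 : 0 < v := by linarith
    rw [← hv]
    have e4 : v ^ (-(4 : ℝ)) = (v ^ 4)⁻¹ := by
      rw [Real.rpow_neg hv0.le]
      norm_cast
    have e5 : (v ^ 5)⁻¹ = (v ^ 4)⁻¹ * v⁻¹ := by
      rw [← mul_inv, ← pow_succ]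
    rw [e4, e5]
    push_cast
    calc ((y : ℝ) + 1) * (C * (Ub j / (4 ^ j * ml j)) * ((v ^ 4)⁻¹ * v⁻¹))
        ≤ (ml j * v) * (C * (Ub j / (4 ^ j * ml j)) * ((v ^ 4)⁻¹ * v⁻¹)) := by gcongr
      _ = C * (Ub j / 4 ^ j) * (v ^ 4)⁻¹ := by
          field_simp
  refine (ENNReal.tsum_le_tsum h3).trans ((tsum_wt4 hml1 (by positivity)).trans (le_of_eq ?_))
  congr 1
  ring

lemma SA_take' {A B : List Bool} (h : A ++ B ∈ SA) : A ∈ SA := by
  refine ⟨fun _ _ _ => Set.mem_univ _, fun i k hik hk he => ?_⟩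
  rw [← vx_append (s := B) (by omega : i ≤ A.length + 1), ← vx_append (s := B) (by omega : k ≤ A.length + 1)] at he
  exact h.inj i k hik (by rw [List.length_append]; omega) he

lemma hn_dir {d : Pt} (hd : d ∈ dirs) : TIW.hn d ≤ 2 := by
  revert d
  decide

/-! ### 3. The count -/

/-- the index: length, mark, word, pair of parts -/
def MI (j a m w : ℕ) (η : ℝ) (J : Finset ℕ) (I : ℕ → Finset ℕ) : Set ((ℕ × ℕ) × (List Bool × (List Bool × List Bool))) :=
  {x | x.1.1 ∈ J ∧ x.1.2 ∈ I x.1.1 ∧ x.2.1 ∈ SawN x.1.1 ∧ x.2.2 ∈ CPr j a m w η (cutH x.1.2 x.2.1)}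

/-- the tip parts cut off -/
def outP (t : ℕ) (H : List Bool) (p : List Bool × List Bool) : PT :=
  (H.take (t - p.1.length), (gE H, (rev ((H.drop t).dropLast)).take ((H.drop t).dropLast.length - p.2.length)))

lemma outP_eq {t : ℕ} {H : List Bool} {p : List Bool × List Bool} {A B : List Bool} (ht : t ≤ H.length)
    (h1 : (cutH t H).1 = A ++ p.1) (h2 : (cutH t H).2.2 = B ++ p.2) : outP t H p = (A, (gE H, B)) := by
  have h1' : H.take t = A ++ p.1 := h1
  have h2' : rev ((H.drop t).dropLast) = B ++ p.2 := h2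
  have l1 := congrArg List.length h1'
  have l2 := congrArg List.length h2'
  rw [List.length_take, List.length_append] at l1
  rw [rev_length, List.length_append] at l2
  unfold outP
  refine Prod.ext ?_ (Prod.ext rfl ?_)
  · show H.take (t - p.1.length) = A
    have e1 : H.take (t - p.1.length) = (H.take t).take A.length := by
      rw [List.take_take]
      congr 1
      omega
    rw [e1, h1', List.take_left]
  · show (rev ((H.drop t).dropLast)).take _ = B
    rw [h2', l2, Nat.add_sub_cancel, List.take_left]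

lemma cutH_mem {t : ℕ} {H : List Bool} (p : PT) (h : p = cutH t H) : p.1 = H.take t := by
  rw [h]
  rfl

/-- the number of the pairs is finite -/
lemma CPr_fin (j a m w : ℕ) (η : ℝ) (T : PT) : (CPr j a m w η T).Finite := by
  have h1 : {Y : List Bool | ∃ A, T.1 = A ++ Y}.Finite := fin_suf (L := T.1) fun Y ⟨A, hA⟩ => ⟨A, hA.symm⟩
  have h2 : {Y : List Bool | ∃ A, T.2.2 = A ++ Y}.Finite := fin_suf (L := T.2.2) fun Y ⟨A, hA⟩ => ⟨A, hA.symm⟩
  refine (h1.prod h2).subset ?_
  rintro ⟨Y1, Y2⟩ ⟨-, -, -, -, -, -, A, B, e1, e2, -⟩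
  exact ⟨⟨A, e1⟩, ⟨B, e2⟩⟩

/-- **row L2** -/
theorem markP : MarkP := by
  classical
  intro η m hη
  obtain ⟨C, b0, hC, hin⟩ := low_inner η m hη
  have hx := xc_pos
  refine ⟨2 * xc * C, b0, by positivity, fun j a w κ hj hκ J I AA hI hAA => ?_⟩
  have hU := Ub_pos j
  have hml := ml_pos j
  -- the left side
  obtain ⟨MS, hMS⟩ : ∃ MS, MS = MI j a m w η J I := ⟨_, rfl⟩
  have h1 : (∑ N ∈ J, ∑ t ∈ I N, gf {H | H ∈ SawN N ∧ GM j a m w η κ (cutH t H)}) * ENNReal.ofReal ((κ * Ub j) ^ 2) ≤
      ∑' x : MS, wE (x : (ℕ × ℕ) × (List Bool × (List Bool × List Bool))).2.1 := by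
    have k1 : ∀ N t, gf {H | H ∈ SawN N ∧ GM j a m w η κ (cutH t H)} * ENNReal.ofReal ((κ * Ub j) ^ 2) ≤
        ∑' H : {H | H ∈ SawN N}, ∑' _ : CPr j a m w η (cutH t (H : List Bool)), wE (H : List Bool) := by
      intro N t
      unfold gf
      rw [← ENNReal.tsum_mul_right]
      obtain ⟨ψ, hψ⟩ : ∃ ψ : {H | H ∈ SawN N ∧ GM j a m w η κ (cutH t H)} → {H | H ∈ SawN N}, ψ = fun H => ⟨H, H.2.1⟩ :=
        ⟨_, rfl⟩
      have hinj : Function.Injective ψ := by
        intro x y hxy
        rw [hψ] at hxy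
        have := congrArg Subtype.val hxy
        exact Subtype.ext this
      refine le_trans (ENNReal.tsum_le_tsum fun H => ?_) (ENNReal.tsum_comp_le_tsum_of_injective hinj
        (fun H : {H | H ∈ SawN N} => ∑' _ : CPr j a m w η (cutH t (H : List Bool)), wE (H : List Bool)))
      rw [hψ]
      simp only
      have hG : (κ * Ub j) ^ 2 ≤ ((CPr j a m w η (cutH t (H : List Bool))).ncard : ℝ) := H.2.2
      have hfin := CPr_fin j a m w η (cutH t (H : List Bool))
      have : Fintype (CPr j a m w η (cutH t (H : List Bool))) := hfin.fintype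
      rw [tsum_fintype, sum_const, card_univ, nsmul_eq_mul, mul_comm]
      refine mul_le_mul' ?_ le_rfl
      have e1 : (CPr j a m w η (cutH t (H : List Bool))).ncard = Fintype.card (CPr j a m w η (cutH t (H : List Bool))) := by
        rw [← Nat.card_coe_set_eq, Nat.card_eq_fintype_card]
      rw [← e1, ← ENNReal.ofReal_natCast]
      exact ENNReal.ofReal_le_ofReal hG
    have k2 : (∑ N ∈ J, ∑ t ∈ I N, gf {H | H ∈ SawN N ∧ GM j a m w η κ (cutH t H)}) * ENNReal.ofReal ((κ * Ub j) ^ 2) ≤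
        ∑ N ∈ J, ∑ t ∈ I N, ∑' H : {H | H ∈ SawN N}, ∑' _ : CPr j a m w η (cutH t (H : List Bool)), wE (H : List Bool) := by
      rw [sum_mul]
      refine sum_le_sum fun N _ => ?_
      rw [sum_mul]
      exact sum_le_sum fun t _ => k1 N t
    refine k2.trans (le_of_eq ?_)
    -- the sums as one sum over the index
    obtain ⟨f, hf⟩ : ∃ f : ((ℕ × ℕ) × (List Bool × (List Bool × List Bool))) → ℝ≥0∞, f = fun x => wE x.2.1 := ⟨_, rfl⟩
    have e1 : ∑' x : MS, wE (x : (ℕ × ℕ) × (List Bool × (List Bool × List Bool))).2.1 = ∑' x, MS.indicator f x := by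
      rw [hf]
      exact tsum_subtype MS (fun x : (ℕ × ℕ) × (List Bool × (List Bool × List Bool)) => wE x.2.1)
    rw [e1, ENNReal.tsum_prod']
    have e2 : ∀ Nt : ℕ × ℕ, ∑' x : List Bool × (List Bool × List Bool), MS.indicator f (Nt, x) =
        if Nt.1 ∈ J ∧ Nt.2 ∈ I Nt.1 then ∑' H : {H | H ∈ SawN Nt.1}, ∑' _ : CPr j a m w η (cutH Nt.2 (H : List Bool)),
          wE (H : List Bool) else 0 := by
      intro Nt
      split_ifs with hNt
      · rw [ENNReal.tsum_prod', tsum_subtype {H | H ∈ SawN Nt.1} (fun H : List Bool =>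
          ∑' _ : CPr j a m w η (cutH Nt.2 H), wE H)]
        refine tsum_congr fun H => ?_
        by_cases hH : H ∈ SawN Nt.1
        · rw [Set.indicator_of_mem (show H ∈ {H | H ∈ SawN Nt.1} from hH),
            tsum_subtype (CPr j a m w η (cutH Nt.2 H)) (fun _ => wE H)]
          refine tsum_congr fun p => ?_
          by_cases hp : p ∈ CPr j a m w η (cutH Nt.2 H)
          · rw [Set.indicator_of_mem hp, Set.indicator_of_mem (by
              rw [hMS]
              exact ⟨hNt.1, hNt.2, hH, hp⟩), hf]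
          · rw [Set.indicator_of_notMem hp, Set.indicator_of_notMem (by
              rw [hMS]
              exact fun h => hp h.2.2.2)]
        · rw [Set.indicator_of_notMem (show H ∉ {H | H ∈ SawN Nt.1} from hH)]
          refine ENNReal.tsum_eq_zero.2 fun p => Set.indicator_of_notMem ?_ _
          rw [hMS]
          exact fun h => hH h.2.2.1
      · refine ENNReal.tsum_eq_zero.2 fun p => Set.indicator_of_notMem ?_ _
        rw [hMS]
        exact fun h => hNt ⟨h.1, h.2.1⟩
    rw [tsum_congr e2, ENNReal.tsum_prod', tsum_eq_sum (s := J) (fun N hN => by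
      refine ENNReal.tsum_eq_zero.2 fun t => if_neg ?_
      exact fun h => hN h.1)]
    refine sum_congr rfl fun N hN => ?_
    rw [tsum_eq_sum (s := I N) (fun t ht => if_neg (fun h => ht h.2))]
    refine sum_congr rfl fun t ht => ?_
    rw [if_pos ⟨hN, ht⟩]
  refine h1.trans ?_
  -- the right side
  obtain ⟨z, hz⟩ : ∃ z : PT → Pt, z = fun T => mulE (conjE (TIW.rt T.1)) (pe T.2.1 T.2.2 + pd T.2.1 T.2.2 - TIW.en T.1) :=
    ⟨_, rfl⟩
  have key : ∀ x ∈ MS, ∃ (A B : List Bool) (c : Bool), (cutH x.1.2 x.2.1).1 = A ++ x.2.2.1 ∧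
      (cutH x.1.2 x.2.1).2.2 = B ++ x.2.2.2 ∧ x.2.1 = (A ++ (x.2.2.1 ++ rev x.2.2.2)) ++ (rev B ++ [c]) ∧
      ((A, (gE x.2.1, B)) : PT) ∈ AA ∧ x.2.2 ∈ IQ η m j (z (A, (gE x.2.1, B))) ∧ A.length + x.2.2.1.length = x.1.2 ∧
      x.2.1.length = x.1.1 := by
    rintro ⟨⟨N, t⟩, H, Y1, Y2⟩ hx
    rw [hMS] at hx
    obtain ⟨hN, ht, hH, g1, g2, g3, g4, g5, g6, A, B, g7, g8, g9⟩ := hx
    simp only at hN ht hH g1 g2 g3 g4 g5 g6 g7 g8 g9 ⊢
    have htN := hI N hN t ht
    have hHl : H.length = N := hH.1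
    obtain ⟨c, hc⟩ := cut_join (by omega) g7 g8
    have l1 : A.length + Y1.length = t := by
      have h1' : H.take t = A ++ Y1 := g7
      have := congrArg List.length h1'
      rw [List.length_take, List.length_append] at this
      omega
    have l2 : A.length + Y1.length + (B.length + Y2.length) + 1 = N := by
      have := congrArg List.length hc
      simp only [List.length_append, rev_length, List.length_cons, List.length_nil] at this
      omega
    have hgE : (cutH t H).2.1 = gE H := rfl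
    rw [hgE] at g9
    -- positions
    have hgc : gE H = gE ((A ++ (Y1 ++ rev Y2)) ++ (rev B ++ [c])) := by rw [← hc]
    have p1 : pe (gE H) B + pd (gE H) B = TIW.en A + mulE (TIW.rt A) (TIW.en (Y1 ++ rev Y2)) := by
      have h2 := gE_nx (A ++ (Y1 ++ rev Y2)) (rev B) c
      rw [rev_rev, ← hgc] at h2
      rw [h2]
      have h3 : vx oo up ((A ++ (Y1 ++ rev Y2)) ++ (rev B ++ [c])) (A ++ (Y1 ++ rev Y2)).length =
          TIW.en (A ++ (Y1 ++ rev Y2)) := vx_append (by omega)
      rw [h3, TIW.en_app]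
    have hSAQ : Y1 ++ rev Y2 ∈ SA := by
      have hHS : H ∈ SA := hH.2
      have h2 : H = A ++ ((Y1 ++ rev Y2) ++ (rev B ++ [c])) := by
        rw [hc, List.append_assoc]
      have h3 : H.drop A.length ∈ SA := SA_drop hHS A.length
      rw [h2, List.drop_left] at h3
      exact SA_take' h3
    refine ⟨A, B, c, g7, g8, hc, ?_, ⟨g1, g2, g3, g4, hSAQ, ?_⟩, l1, hHl⟩
    · refine hAA A B Y1 Y2 (gE H) g9 g3 g4 g5 g6 ?_ ⟨N, hN, by rw [l1]; exact ht, l2⟩
      have h2 := gE_pe (A ++ (Y1 ++ rev Y2)) (rev B) c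
      rw [rev_rev, ← hgc] at h2
      have h3 : vx oo up H ((A ++ (Y1 ++ rev Y2)).length + 1) = TIW.en (A ++ (Y1 ++ rev Y2)) +
          dx up H (A ++ (Y1 ++ rev Y2)).length := by
        have h5 : vx oo up H (A ++ (Y1 ++ rev Y2)).length = TIW.en (A ++ (Y1 ++ rev Y2)) := by
          rw [hc]
          exact vx_append (by omega)
        rw [← h5]
        rfl
      have h6 : pe (gE H) B = TIW.en A + (mulE (TIW.rt A) (TIW.en Y1 + mulE (TIW.rt Y1) (TIW.en (rev Y2))) +
          dx up H (A ++ (Y1 ++ rev Y2)).length) := by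
        rw [h2, hc, ← hc, h3, TIW.en_app, TIW.en_app, add_assoc]
      have h7 : TIW.hn (dx up H (A ++ (Y1 ++ rev Y2)).length) ≤ 2 := hn_dir (dx_mem up_dirs H _)
      have h8 : TIW.hn (TIW.en Y1) ≤ 3 * 2 ^ (j + m) := by
        have := hn_box g3 (k := Y1.length) le_rfl
        push_cast at this
        exact this
      have h9 : TIW.hn (TIW.en (rev Y2)) ≤ 6 * 2 ^ (j + m) + 4 := by
        have := G2.near_start (L := rev Y2) (q := (rev Y2).length) (s := (rev Y2).length)
          (by rw [List.take_length, rev_rev]; exact g4) le_rfl le_rfl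
        push_cast at this
        exact this
      have h10 : TIW.hn (TIW.en A - pe (gE H) B) ≤ TIW.hn (TIW.en Y1) + TIW.hn (TIW.en (rev Y2)) +
          TIW.hn (dx up H (A ++ (Y1 ++ rev Y2)).length) := by
        rw [h6, TIW.hn_sub_comm, add_sub_cancel_left]
        have k1 := TIW.hn_add (mulE (TIW.rt A) (TIW.en Y1 + mulE (TIW.rt Y1) (TIW.en (rev Y2))))
          (dx up H (A ++ (Y1 ++ rev Y2)).length)
        rw [TIW.hn_mulE (TIW.nrm_rt A)] at k1
        have k2 := TIW.hn_add (TIW.en Y1) (mulE (TIW.rt Y1) (TIW.en (rev Y2)))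
        rw [TIW.hn_mulE (TIW.nrm_rt Y1)] at k2
        linarith
      have h11 : (1 : ℤ) ≤ 2 ^ (j + m) := one_le_pow₀ (by norm_num)
      have h12 : (2 : ℤ) ^ (j + m + 4) = 16 * 2 ^ (j + m) := by ring
      rw [h12]
      linarith
    · rw [hz]
      simp only
      rw [p1, add_sub_cancel_left]
      have hn := TIW.nrm_rt A
      rw [mulE_assoc, mulE_comm (conjE _) _, mulE_conjE, hn, mulE_one]
  choose! fA fB fc hk1 hk2 hk3 hk4 hk5 hk6 hk7 using key
  obtain ⟨TG, hTG⟩ : ∃ TG : Set (PT × ((List Bool × List Bool) × Bool)), TG = {y | y.1 ∈ AA ∧ y.2.1 ∈ IQ η m j (z y.1)} :=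
    ⟨_, rfl⟩
  obtain ⟨φ, hφ⟩ : ∃ φ : MS → TG, φ = fun x => ⟨((fA x, (gE (x : (ℕ × ℕ) × (List Bool × (List Bool × List Bool))).2.1, fB x)),
    ((x : (ℕ × ℕ) × (List Bool × (List Bool × List Bool))).2.2, fc x)), by
      rw [hTG]
      exact ⟨hk4 x x.2, hk5 x x.2⟩⟩ := ⟨_, rfl⟩
  have hinj : Function.Injective φ := by
    intro x y hxy
    rw [hφ] at hxy
    have h2 := congrArg Subtype.val hxy
    simp only [Prod.mk.injEq] at h2
    obtain ⟨⟨e1, e2, e3⟩, e4, e5⟩ := h2
    have hH : (x : (ℕ × ℕ) × (List Bool × (List Bool × List Bool))).2.1 =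
        (y : (ℕ × ℕ) × (List Bool × (List Bool × List Bool))).2.1 := by
      rw [hk3 x x.2, hk3 y y.2, e1, e3, e4, e5]
    have ht : (x : (ℕ × ℕ) × (List Bool × (List Bool × List Bool))).1.2 =
        (y : (ℕ × ℕ) × (List Bool × (List Bool × List Bool))).1.2 := by
      rw [← hk6 x x.2, ← hk6 y y.2, e1, e4]
    have hN : (x : (ℕ × ℕ) × (List Bool × (List Bool × List Bool))).1.1 =
        (y : (ℕ × ℕ) × (List Bool × (List Bool × List Bool))).1.1 := by
      rw [← hk7 x x.2, ← hk7 y y.2, hH]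
    exact Subtype.ext (Prod.ext (Prod.ext hN ht) (Prod.ext hH e4))
  obtain ⟨F, hF⟩ : ∃ F : PT × ((List Bool × List Bool) × Bool) → ℝ≥0∞, F = fun y =>
    wE y.1.1 * wE y.1.2.2 * (ENNReal.ofReal xc * (wE y.2.1.1 * wE y.2.1.2)) := ⟨_, rfl⟩
  have h2 : ∑' x : MS, wE (x : (ℕ × ℕ) × (List Bool × (List Bool × List Bool))).2.1 ≤ ∑' y : TG, F y := by
    refine le_trans (le_of_eq (tsum_congr fun x => ?_)) (ENNReal.tsum_comp_le_tsum_of_injective hinj (fun y : TG => F y))
    rw [hφ, hF]
    simp only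
    conv_lhs => rw [hk3 x x.2]
    have e1 : ∀ c : Bool, wE [c] = ENNReal.ofReal xc := by
      intro c
      unfold wE
      rw [List.length_singleton, pow_one]
    have e2 : ∀ u : List Bool, wE (rev u) = wE u := by
      intro u
      unfold wE
      rw [rev_length]
    rw [wE_append, wE_append, wE_append, wE_append, e1, e2, e2]
    ring
  refine h2.trans ?_
  have h3 : ∑' y : TG, F y = ∑' T : AA, wE (T : PT).1 * wE (T : PT).2.2 * (2 * (ENNReal.ofReal xc *
      ∑' p : IQ η m j (z T), wE (p : List Bool × List Bool).1 * wE (p : List Bool × List Bool).2)) := by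
    rw [tsum_subtype TG F, ENNReal.tsum_prod', tsum_subtype AA (fun T : PT => wE T.1 * wE T.2.2 * (2 * (ENNReal.ofReal xc *
      ∑' p : IQ η m j (z T), wE (p : List Bool × List Bool).1 * wE (p : List Bool × List Bool).2)))]
    refine tsum_congr fun T => ?_
    by_cases hT : T ∈ AA
    · rw [Set.indicator_of_mem hT, ENNReal.tsum_prod', tsum_subtype (IQ η m j (z T))
        (fun p : List Bool × List Bool => wE p.1 * wE p.2), ← ENNReal.tsum_mul_left, ← ENNReal.tsum_mul_left,
        ← ENNReal.tsum_mul_left]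
      refine tsum_congr fun p => ?_
      by_cases hp : p ∈ IQ η m j (z T)
      · have e1 : ∀ c : Bool, TG.indicator F (T, (p, c)) = F (T, (p, c)) := fun c =>
          Set.indicator_of_mem (by
            rw [hTG]
            exact ⟨hT, hp⟩) _
        rw [tsum_congr e1, Set.indicator_of_mem hp, tsum_fintype, Fintype.sum_bool, hF]
        ring
      · have e1 : ∀ c : Bool, TG.indicator F (T, (p, c)) = 0 := fun c =>
          Set.indicator_of_notMem (by
            rw [hTG]
            exact fun h => hp h.2) _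
        rw [tsum_congr e1, Set.indicator_of_notMem hp]
        simp
    · rw [Set.indicator_of_notMem hT]
      refine ENNReal.tsum_eq_zero.2 fun p => Set.indicator_of_notMem ?_ _
      rw [hTG]
      exact fun h => hT h.1
  rw [h3]
  have h4 : ∀ T : AA, wE (T : PT).1 * wE (T : PT).2.2 * (2 * (ENNReal.ofReal xc *
      ∑' p : IQ η m j (z T), wE (p : List Bool × List Bool).1 * wE (p : List Bool × List Bool).2)) ≤
      ENNReal.ofReal (2 * xc * C * (Ub j / 4 ^ j * ml j)) * (wE (T : PT).1 * wE (T : PT).2.2) := by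
    intro T
    rw [mul_comm]
    refine mul_le_mul' ?_ le_rfl
    have e1 : ENNReal.ofReal (2 * xc * C * (Ub j / 4 ^ j * ml j)) = 2 * (ENNReal.ofReal xc *
        ENNReal.ofReal (C * (Ub j / 4 ^ j * ml j))) := by
      rw [show 2 * xc * C * (Ub j / 4 ^ j * ml j) = 2 * (xc * (C * (Ub j / 4 ^ j * ml j))) by ring,
        ENNReal.ofReal_mul (by norm_num), ENNReal.ofReal_mul hx.le]
      norm_num
    rw [e1]
    exact mul_le_mul' le_rfl (mul_le_mul' le_rfl (hin j (z T) hj))
  refine (ENNReal.tsum_le_tsum h4).trans (le_of_eq ?_)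
  rw [ENNReal.tsum_mul_left]
  rfl

end LowM

end RMP

end HexObs
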