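import Pool.Agent.RMP.LowDefs
import Pool.Agent.ARM.NcBG
import Pool.Agent.ARM.NtG
import Pool.Agent.TIW.ZBu

/-!
# RM, row L1 of P9 (helper44): two tips are attached

* **`tipAdd : TipAdd`**.

The tips are half plane words without a cut (`ncHB`) of size less than a quarter of the radius of the free half balls. For given
directions of exit of the two outer words the decomposition of a word is unique: two decompositions differ by a bridge
(`TIW.zbu`), and this would be a cut of the longer tip.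
-/

set_option autoImplicit false

namespace HexObs

namespace RMP

namespace TAd

open Finset TS SDN HexObs.SIM NTA TIP ARM

open scoped ENNReal

/-- a free half ball, both versions -/
lemma fe_of {ρ : ℕ} {A : List Bool} (h : FreeT ρ A) : A ∈ TIW.Fe ρ := by
  intro i hi h0
  by_contra hc
  refine h i hi h0 (ARM.Bl_of_hn' ?_)
  have h1 : TIW.hn (vx oo up A i - TIW.en A) < ρ := not_le.1 hc
  exact h1.le

lemma fe_mono {r ρ : ℕ} (h : r ≤ ρ) {A : List Bool} (hA : A ∈ TIW.Fe ρ) : A ∈ TIW.Fe r := fun i hi h0 =>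
  le_trans (by exact_mod_cast h) (hA i hi h0)

/-- a bridge in front of a half plane word gives a cut -/
lemma cut_of {Z E : List Bool} (hZ : Z ∈ BU) (h0 : Z ≠ []) (hE : BAR.Pos E) : (BAR.cuts (Z ++ E)).Nonempty := by
  obtain ⟨c1, c2, c3, c4⟩ := mem_Brd.1 (TIP.BU_hgt hZ)
  refine ⟨Z.length, BAR.mem_cuts.2 ⟨?_, by rw [List.length_append]; omega, ?_, ?_, ?_⟩⟩
  · exact List.length_pos_iff.2 h0
  · rw [dx_append le_rfl]
    exact c3
  · intro i hi
    rw [lev_append (by omega), lev_append (by omega), c4]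
    rcases Nat.eq_zero_or_pos i with h1 | h1
    · rw [h1, lev_zero]
      positivity
    · exact (c1 i h1 hi).2
  · intro i hi hil
    rw [List.length_append] at hil
    obtain ⟨j, rfl⟩ : ∃ j, i = Z.length + j := ⟨i - Z.length, by omega⟩
    rw [lev_cat c3, lev_append (by omega)]
    have := hE j (by omega) (by omega)
    linarith

/-- the tips: half plane words without a cut of size less than r -/
def Tp (r : ℕ) : Set (List Bool) := {F | F ∈ TIW.Hp r ∧ BAR.cuts F = ∅}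

lemma Tp_pos {r : ℕ} {F : List Bool} (h : F ∈ Tp r) : BAR.Pos F := fun i h1 h2 => h.1.1.mem i h1 h2

/-- **the decomposition is unique**, one of the words is longer -/
lemma uniq1 {r : ℕ} {A A' F F' : List Bool} (hA' : A' ∈ TIW.Fe (2 * r)) (hF : F ∈ Tp r) (hF' : F' ∈ Tp r)
    (h : A ++ F = A' ++ F') (hd : TIW.de A = TIW.de A') (hl : A.length ≤ A'.length) : A = A' ∧ F = F' := by
  have h1 : A <+: A' := List.prefix_of_prefix_length_le (List.prefix_append A F) (h ▸ List.prefix_append A' F') hl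
  obtain ⟨Z, rfl⟩ := h1
  rw [List.append_assoc] at h
  have h2 : F = Z ++ F' := List.append_cancel_left h
  by_cases hZ : Z = []
  · subst hZ
    exact ⟨by simp, by simpa using h2⟩
  · exfalso
    have h3 := (TIW.zbu r A Z F' hA' (h2 ▸ hF.1) hd.symm).1
    have h4 := cut_of h3 hZ (Tp_pos hF')
    rw [← h2, hF.2] at h4
    exact Finset.not_nonempty_empty h4

lemma uniq {r : ℕ} {A A' F F' : List Bool} (hA : A ∈ TIW.Fe (2 * r)) (hA' : A' ∈ TIW.Fe (2 * r)) (hF : F ∈ Tp r)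
    (hF' : F' ∈ Tp r) (h : A ++ F = A' ++ F') (hd : TIW.de A = TIW.de A') : A = A' ∧ F = F' := by
  rcases le_total A.length A'.length with hl | hl
  · exact uniq1 hA' hF hF' h hd hl
  · obtain ⟨h1, h2⟩ := uniq1 hA hF' hF h.symm hd.symm hl
    exact ⟨h1.symm, h2.symm⟩

/-- **the mass** -/
lemma mass36 {r : ℕ} {S : Set (List Bool)} (hS : S ⊆ Tp r) {AA TT : Set PT}
    (hA : ∀ T ∈ AA, T.1 ∈ TIW.Fe (2 * r) ∧ T.2.2 ∈ TIW.Fe (2 * r))
    (hT : ∀ T ∈ AA, ∀ F1 ∈ S, ∀ F2 ∈ S, ((T.1 ++ F1, (T.2.1, T.2.2 ++ F2)) : PT) ∈ TT) :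
    gp AA * (gf S * gf S) ≤ 36 * gp TT := by
  classical
  obtain ⟨f, hf⟩ : ∃ f : AA × (S × S) → TT × ({d // d ∈ dirs} × {d // d ∈ dirs}), f = fun x =>
    (⟨((x.1 : PT).1 ++ x.2.1, ((x.1 : PT).2.1, (x.1 : PT).2.2 ++ x.2.2)), hT _ x.1.2 _ x.2.1.2 _ x.2.2.2⟩,
      (⟨TIW.de (x.1 : PT).1, TIW.de_mem _⟩, ⟨TIW.de (x.1 : PT).2.2, TIW.de_mem _⟩)) := ⟨_, rfl⟩
  have hinj : Function.Injective f := by
    rintro ⟨T, F1, F2⟩ ⟨T', F1', F2'⟩ h
    rw [hf] at h
    have h1 : (T : PT).1 ++ (F1 : List Bool) = (T' : PT).1 ++ F1' := congrArg (fun x => (x.1 : PT).1) h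
    have h2 : (T : PT).2.1 = (T' : PT).2.1 := congrArg (fun x => (x.1 : PT).2.1) h
    have h3 : (T : PT).2.2 ++ (F2 : List Bool) = (T' : PT).2.2 ++ F2' := congrArg (fun x => (x.1 : PT).2.2) h
    have h4 : TIW.de (T : PT).1 = TIW.de (T' : PT).1 := congrArg (fun x => (x.2.1 : Pt)) h
    have h5 : TIW.de (T : PT).2.2 = TIW.de (T' : PT).2.2 := congrArg (fun x => (x.2.2 : Pt)) h
    obtain ⟨a1, a2⟩ := uniq (hA _ T.2).1 (hA _ T'.2).1 (hS F1.2) (hS F1'.2) h1 h4
    obtain ⟨b1, b2⟩ := uniq (hA _ T.2).2 (hA _ T'.2).2 (hS F2.2) (hS F2'.2) h3 h5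
    have e1 : T = T' := Subtype.ext (Prod.ext a1 (Prod.ext h2 b1))
    exact Prod.ext e1 (Prod.ext (Subtype.ext a2) (Subtype.ext b2))
  have hleft : gp AA * (gf S * gf S) = ∑' x : AA × (S × S),
      wE (x.1 : PT).1 * wE (x.1 : PT).2.2 * (wE (x.2.1 : List Bool) * wE (x.2.2 : List Bool)) := by
    have e2 : ∀ T : AA, ∑' y : S × S, wE (T : PT).1 * wE (T : PT).2.2 * (wE (y.1 : List Bool) * wE (y.2 : List Bool)) =
        wE (T : PT).1 * wE (T : PT).2.2 * (gf S * gf S) := by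
      intro T
      rw [ENNReal.tsum_mul_left, ENNReal.tsum_prod']
      congr 1
      calc ∑' a : S, ∑' b : S, wE (a : List Bool) * wE (b : List Bool)
          = ∑' a : S, wE (a : List Bool) * gf S := tsum_congr fun a => ENNReal.tsum_mul_left
        _ = gf S * gf S := ENNReal.tsum_mul_right
    rw [ENNReal.tsum_prod']
    calc gp AA * (gf S * gf S) = ∑' T : AA, wE (T : PT).1 * wE (T : PT).2.2 * (gf S * gf S) :=
          ENNReal.tsum_mul_right.symm
      _ = _ := (tsum_congr e2).symm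
  have hright : ∑' y : TT × ({d // d ∈ dirs} × {d // d ∈ dirs}), wE (y.1 : PT).1 * wE (y.1 : PT).2.2 = 36 * gp TT := by
    have e3 : ∀ T : TT, ∑' _ : {d // d ∈ dirs} × {d // d ∈ dirs}, wE (T : PT).1 * wE (T : PT).2.2 =
        36 * (wE (T : PT).1 * wE (T : PT).2.2) := by
      intro T
      rw [tsum_fintype, Finset.sum_const, Finset.card_univ, nsmul_eq_mul]
      have : Fintype.card ({d // d ∈ dirs} × {d // d ∈ dirs}) = 36 := by
        rw [Fintype.card_prod, Fintype.card_coe]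
        decide
      rw [this]
      norm_num
    rw [ENNReal.tsum_prod']
    calc ∑' T : TT, ∑' _ : {d // d ∈ dirs} × {d // d ∈ dirs}, wE (T : PT).1 * wE (T : PT).2.2
        = ∑' T : TT, 36 * (wE (T : PT).1 * wE (T : PT).2.2) := tsum_congr e3
      _ = _ := ENNReal.tsum_mul_left
  rw [hleft, ← hright]
  refine le_trans (le_of_eq (tsum_congr fun x => ?_)) (ENNReal.tsum_comp_le_tsum_of_injective hinj
    fun y : TT × ({d // d ∈ dirs} × {d // d ∈ dirs}) => wE (y.1 : PT).1 * wE (y.1 : PT).2.2)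
  rw [hf]
  show _ = wE ((x.1 : PT).1 ++ (x.2.1 : List Bool)) * wE ((x.1 : PT).2.2 ++ (x.2.2 : List Bool))
  rw [wE_append, wE_append]
  ring

/-- the tips are disjoint from the outer words and from each other -/
lemma av_add {r ρ : ℕ} (hr : 2 * r ≤ ρ) {T : PT} (h : OutF ρ T) {F1 F2 : List Bool} (h1 : F1 ∈ TIW.Hp r)
    (h2 : F2 ∈ TIW.Hp r) : Av (ob T.2.1 (T.2.2 ++ F2)) (T.1 ++ F1) := by
  obtain ⟨A, ⟨g, B⟩⟩ := T
  have hr' : (2 * r : ℤ) ≤ ρ := by exact_mod_cast hr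
  have hg : nrm g.2 = 1 := mem_dirs.1 h.fr.1
  rintro t ht ⟨s, hs, he⟩
  simp only at ht hs he
  rw [List.length_append] at ht hs
  unfold pv at he
  by_cases ht' : t ≤ A.length
  · rw [vx_append (by omega)] at he
    by_cases hs' : s ≤ B.length
    · rw [vx_append (by omega)] at he
      exact h.av t ht' ⟨s, hs', he⟩
    · obtain ⟨s', rfl⟩ : ∃ s', s = B.length + s' := ⟨s - B.length, by omega⟩
      rw [TIW.vx_app] at he
      have e1 : pv (gi g) A t = TIW.en B + mulE (TIW.rt B) (vx oo up F2 s') := by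
        unfold pv gi
        show -(mulE (conjE g.2) g.1) + mulE (conjE g.2) (vx oo up A t) = _
        rw [he, mulE_add, mulE_assoc, mulE_comm (conjE g.2) g.2, mulE_conjE, hg, mulE_one]
        abel
      have e2 : pv (gi g) A t - tipv B = mulE (TIW.rt B) (vx oo up F2 s') := by
        rw [e1]
        exact add_sub_cancel_left _ _
      refine h.ob (pv (gi g) A t) ⟨t, ht', rfl⟩ ?_ ?_
      · show 0 < ip (pv (gi g) A t - tipv B) (tipd B)
        rw [e2]
        show 0 < ip (mulE (TIW.rt B) (vx oo up F2 s')) (TIW.de B)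
        rw [← TIW.rt_up, ip_mulE, TIW.nrm_rt, one_mul]
        exact h2.1.mem s' (by omega) (by omega)
      · refine ARM.Bl_of_hn' ?_
        show TIW.hn (pv (gi g) A t - tipv B) ≤ ρ
        rw [e2, TIW.hn_mulE (TIW.nrm_rt B)]
        have := h2.2 s' (by omega)
        linarith [TIW.hn_nonneg (vx oo up F2 s')]
  · obtain ⟨t', rfl⟩ : ∃ t', t = A.length + t' := ⟨t - A.length, by omega⟩
    rw [TIW.vx_app] at he
    have n1 := h1.2 t' (by omega)
    by_cases hs' : s ≤ B.length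
    · rw [vx_append (by omega)] at he
      refine h.oa (TIW.en A + mulE (TIW.rt A) (vx oo up F1 t')) ⟨s, hs', he⟩ ?_ ?_
      · show 0 < ip (TIW.en A + mulE (TIW.rt A) (vx oo up F1 t') - TIW.en A) (TIW.de A)
        rw [add_sub_cancel_left, ← TIW.rt_up, ip_mulE, TIW.nrm_rt, one_mul]
        exact h1.1.mem t' (by omega) (by omega)
      · refine ARM.Bl_of_hn' ?_
        show TIW.hn (TIW.en A + mulE (TIW.rt A) (vx oo up F1 t') - TIW.en A) ≤ ρ
        rw [add_sub_cancel_left, TIW.hn_mulE (TIW.nrm_rt A)]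
        linarith [TIW.hn_nonneg (vx oo up F1 t')]
    · obtain ⟨s', rfl⟩ : ∃ s', s = B.length + s' := ⟨s - B.length, by omega⟩
      rw [TIW.vx_app] at he
      have n2 := h2.2 s' (by omega)
      have e1 : TIW.en A - pe g B = mulE g.2 (mulE (TIW.rt B) (vx oo up F2 s')) - mulE (TIW.rt A) (vx oo up F1 t') := by
        unfold pe pv
        rw [eq_sub_iff_add_eq, sub_add_eq_add_sub, he, mulE_add]
        unfold TIW.en
        abel
      have h5 := h.far
      simp only at h5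
      rw [e1] at h5
      have h6 := TIW.hn_sub (mulE g.2 (mulE (TIW.rt B) (vx oo up F2 s'))) (mulE (TIW.rt A) (vx oo up F1 t'))
      rw [TIW.hn_mulE hg, TIW.hn_mulE (TIW.nrm_rt B), TIW.hn_mulE (TIW.nrm_rt A)] at h6
      have h7 := TIW.hn_nonneg (vx oo up F1 t')
      linarith

end TAd

open Finset TS SDN HexObs.SIM NTA TIP ARM

open scoped ENNReal

/-- **row L1** -/
theorem tipAdd : TipAdd := by
  intro a e he
  obtain ⟨e', he'⟩ : ∃ e' : ℝ, e' = min e (1 / 2 ^ (a + 2)) := ⟨_, rfl⟩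
  have he0 : 0 < e' := by
    rw [he']
    exact lt_min he (by positivity)
  have he1 : e' ≤ e := he' ▸ min_le_left _ _
  have he2 : e' ≤ 1 / 2 ^ (a + 2) := he' ▸ min_le_right _ _
  obtain ⟨c, k0, hc, hN⟩ := ncHB e' 1 he0 one_pos
  refine ⟨c ^ 2 / 36, max k0 (a + 2), by positivity, fun j hj AA TT hA hT => ?_⟩
  have hj1 : k0 ≤ j := (le_max_left _ _).trans hj
  have hj2 : a + 2 ≤ j := (le_max_right _ _).trans hj
  obtain ⟨r, hr⟩ : ∃ r : ℕ, r = 2 ^ (j - a - 1) := ⟨_, rfl⟩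
  have hr2 : 2 * r = 2 ^ (j - a) := by
    rw [hr, ← pow_succ']
    congr 1
    omega
  have hrR : (2 : ℝ) ^ j / 2 ^ (a + 2) < r := by
    have h1 : (2 : ℝ) ^ j = 2 ^ (a + 1) * 2 ^ (j - a - 1) := by
      rw [← pow_add]
      congr 1
      omega
    rw [hr]
    push_cast
    rw [h1, div_lt_iff₀ (by positivity)]
    have h2 : (0 : ℝ) < 2 ^ (j - a - 1) := by positivity
    have h3 : (0 : ℝ) < 2 ^ (a + 1) := by positivity
    have h4 : (2 : ℝ) ^ (a + 2) = 2 * 2 ^ (a + 1) := by ring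
    rw [h4]
    nlinarith [mul_pos h2 h3]
  have hsmall : e' * 2 ^ j < r := by
    refine lt_of_le_of_lt ?_ hrR
    have h1 : (0 : ℝ) < 2 ^ j := by positivity
    calc e' * 2 ^ j ≤ 1 / 2 ^ (a + 2) * 2 ^ j := mul_le_mul_of_nonneg_right he2 h1.le
      _ = _ := by ring
  -- the tips
  obtain ⟨S, hS⟩ : ∃ S : Set (List Bool), S = {F | F ∈ BAR.HiN F.length ∧ F.length % 2 = 0 ∧
    0 ≤ F.length ∧ (F.length : ℝ) ≤ (0 : ℕ) + e' * ml j ∧ ∀ i, i ≤ F.length → TIW.hn (vx oo up F i) ≤ ⌊e' * 2 ^ j⌋} := ⟨_, rfl⟩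
  have hSm : ENNReal.ofReal c * Xb j ≤ gf S := by
    rw [hS]
    refine hN j 0 0 hj1 (by norm_num) ?_
    rw [Nat.cast_zero, one_mul]
    exact (ml_pos j).le
  have hST : S ⊆ TAd.Tp r := by
    rw [hS]
    rintro F ⟨f1, -, -, -, f5⟩
    refine ⟨⟨f1.1.2, fun i hi => ?_⟩, f1.2⟩
    have h1 := f5 i hi
    have h2 : ((⌊e' * 2 ^ j⌋ : ℤ) : ℝ) < r := lt_of_le_of_lt (Int.floor_le _) hsmall
    exact lt_of_le_of_lt h1 (by exact_mod_cast h2)
  have hSn : ∀ F ∈ S, (∀ i, i ≤ F.length → (TIW.hn (vx oo up F i) : ℝ) ≤ e * 2 ^ j) ∧ (F.length : ℝ) ≤ e * ml j := by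
    rw [hS]
    rintro F ⟨-, -, -, f4, f5⟩
    refine ⟨fun i hi => ?_, ?_⟩
    · have h1 : ((TIW.hn (vx oo up F i) : ℤ) : ℝ) ≤ ((⌊e' * 2 ^ j⌋ : ℤ) : ℝ) := by exact_mod_cast f5 i hi
      have h2 : (0 : ℝ) < 2 ^ j := by positivity
      calc ((TIW.hn (vx oo up F i) : ℤ) : ℝ) ≤ e' * 2 ^ j := h1.trans (Int.floor_le _)
        _ ≤ e * 2 ^ j := mul_le_mul_of_nonneg_right he1 h2.le
    · rw [Nat.cast_zero, zero_add] at f4
      exact f4.trans (mul_le_mul_of_nonneg_right he1 (ml_pos j).le)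
  have hFe : ∀ T ∈ AA, T.1 ∈ TIW.Fe (2 * r) ∧ T.2.2 ∈ TIW.Fe (2 * r) := by
    intro T hT'
    rw [hr2]
    exact ⟨TAd.fe_of (hA T hT').fa, TAd.fe_of (hA T hT').fb⟩
  have hmem : ∀ T ∈ AA, ∀ F1 ∈ S, ∀ F2 ∈ S, ((T.1 ++ F1, (T.2.1, T.2.2 ++ F2)) : PT) ∈ TT := by
    intro T hT' F1 h1 F2 h2
    refine hT T hT' F1 F2 (hSn F1 h1).1 (hSn F2 h2).1 (hSn F1 h1).2 (hSn F2 h2).2 ?_ ?_ ?_
    · exact TIW.fe_app (hA T hT').sa (hFe T hT').1 (hST h1).1
    · exact TIW.fe_app (hA T hT').sb (hFe T hT').2 (hST h2).1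
    · exact TAd.av_add hr2.le (hA T hT') (hST h1).1 (hST h2).1
  have hfin := TAd.mass36 hST hFe hmem
  have h36 : gp AA * ((ENNReal.ofReal c * Xb j) * (ENNReal.ofReal c * Xb j)) ≤ 36 * gp TT :=
    (mul_le_mul' le_rfl (mul_le_mul' hSm hSm)).trans hfin
  have e1 : ENNReal.ofReal (c ^ 2 / 36) = ENNReal.ofReal c * ENNReal.ofReal c * (36 : ℝ≥0∞)⁻¹ := by
    rw [div_eq_mul_inv, ENNReal.ofReal_mul (by positivity), pow_two, ENNReal.ofReal_mul hc.le,
      ENNReal.ofReal_inv_of_pos (by norm_num)]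
    norm_num
  calc gp AA * (ENNReal.ofReal (c ^ 2 / 36) * Xb j ^ 2)
      = (36 : ℝ≥0∞)⁻¹ * (gp AA * ((ENNReal.ofReal c * Xb j) * (ENNReal.ofReal c * Xb j))) := by
        rw [e1]
        ring
    _ ≤ (36 : ℝ≥0∞)⁻¹ * (36 * gp TT) := mul_le_mul' le_rfl h36
    _ = gp TT := by
        rw [← mul_assoc, ENNReal.inv_mul_cancel (by norm_num) (by norm_num), one_mul]

end RMP

end HexObs
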