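import Pool.Agent.RMP.LowDefs
import Pool.Agent.PMA.DenW
import Pool.Agent.POL.Root
import Pool.Agent.POL.LowH

/-!
# (RM), row P9, part L4 (helper28): what holds at the roots of the polygons holds at most marks of the walks

* `bw w S` : the weight of the windows outside of `S`; `rwin_rot`, `mwin_eq` : windows of the rotated closed words;
* **`cy_count`** : the mean number of bad windows in the first `y` letters of a closed word;
* **`transD_of`** : `ExR → T1 → TransD`.
-/

set_option autoImplicit false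

open Finset

open scoped ENNReal

namespace HexObs

namespace RMP

open TS SDN HexObs.SIM NTA TIP ARM TIW HexObs.NPR
open Pool.Agent.TSW (VW)

open Classical in
/-- the weight of the windows outside of S -/
noncomputable def bw (w : ℕ) (S : Set (List Bool)) : (Fin (2 * w) → Bool) → ℝ := fun f => if List.ofFn f ∈ S then 0 else 1

lemma bw_bd (w : ℕ) (S : Set (List Bool)) (f : Fin (2 * w) → Bool) : 0 ≤ bw w S f ∧ bw w S f ≤ 1 := by
  unfold bw
  split_ifs
  · exact ⟨le_rfl, zero_le_one⟩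
  · exact ⟨zero_le_one, le_rfl⟩

lemma ofFn_win {u : List Bool} {m x : ℕ} (h : x + m ≤ u.length) :
    List.ofFn (fun j : Fin m => tf u (x + j)) = (u.drop x).take m := by
  refine List.ext_getElem ?_ fun i h1 h2 => ?_
  · rw [List.length_ofFn, List.length_take, List.length_drop]
    omega
  · rw [List.getElem_ofFn, List.getElem_take, List.getElem_drop]
    simp only [List.length_ofFn] at h1
    unfold tf
    rw [List.getD_eq_getElem _ _ (by omega)]

/-- the window at the root of a rotated closed word -/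
lemma rwin_rot {K : List Bool} {w a : ℕ} (h1 : w ≤ a) (h2 : a + w ≤ K.length) :
    rwin w (K.rotate a) = (K.drop (a - w)).take (2 * w) := by
  unfold rwin
  rw [List.length_rotate, List.rotate_eq_drop_append_take (by omega)]
  have e1 : (K.drop a ++ K.take a).drop (K.length - w) = (K.take a).drop (a - w) := by
    have h3 : K.length - w = (K.drop a).length + (a - w) := by
      rw [List.length_drop]
      omega
    rw [h3, List.drop_length_add_append]
  have e2 : (K.drop a ++ K.take a).take w = (K.drop a).take w := by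
    rw [List.take_append_of_le_length (by rw [List.length_drop]; omega)]
  rw [e1, e2]
  obtain ⟨P, hP⟩ : ∃ P, P = K.take (a - w) := ⟨_, rfl⟩
  have e3 : (K.drop (a - w)).take (2 * w) = (K.drop (a - w)).take w ++ ((K.drop (a - w)).drop w).take w := by
    rw [two_mul, List.take_add]
  rw [e3, List.drop_drop, show a - w + w = a by omega]
  congr 1
  rw [List.drop_take, show a - (a - w) = w by omega]

open Classical in
/-- the number of bad windows -/
lemma VW_bw {w : ℕ} {S : Set (List Bool)} {u : List Bool} :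
    VW (bw w S) u = (((range u.length).filter fun x => x + 2 * w ≤ u.length ∧ (u.drop x).take (2 * w) ∉ S).card : ℝ) := by
  unfold VW
  rw [Finset.card_filter]
  push_cast
  refine sum_congr rfl fun x _ => ?_
  by_cases h : x + 2 * w ≤ u.length
  · rw [if_pos h]
    unfold bw
    rw [ofFn_win h]
    by_cases h2 : (u.drop x).take (2 * w) ∈ S
    · rw [if_pos h2, if_neg fun h3 => h3.2 h2]
    · rw [if_neg h2, if_pos ⟨h, h2⟩]
  · rw [if_neg h, if_neg fun h3 => h h3.1]

/-- the last letter of a closed word -/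
lemma cy_last {N : ℕ} (E : Set (List Bool)) : gf {K | K ∈ POL.Cy (N + 1) ∧ K.dropLast ∈ E} ≤ 2 * gf E := by
  have hxc := xc_pos
  have h4 : gf {K : List Bool | K ∈ POL.Cy (N + 1) ∧ K.dropLast ∈ E} ≤
      gf E * gf (({[true], [false]} : Finset (List Bool)) : Set (List Bool)) := by
    refine gf_le_mul fun s hs => ?_
    obtain ⟨hl, hs⟩ := hs
    have hne : s ≠ [] := by
      rintro rfl
      have := hl.1
      simp at this
    refine ⟨s.dropLast, hs, [s.getLast hne], ?_, (List.dropLast_append_getLast hne).symm⟩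
    cases s.getLast hne <;> simp
  rw [PMA.gf_two_letters] at h4
  refine h4.trans ?_
  rw [mul_comm (gf E)]
  refine mul_le_mul' ?_ le_rfl
  have hx1 : xc ≤ 1 := HexObs.TH.xc_le_one
  calc ENNReal.ofReal (2 * xc) ≤ ENNReal.ofReal 2 := ENNReal.ofReal_le_ofReal (by linarith)
    _ = 2 := by norm_num

lemma dropLast_C0 {N : ℕ} {K : List Bool} (h : K ∈ POL.Cy (N + 1)) : K.dropLast ∈ C0 N := by
  have hne : K ≠ [] := by
    rintro rfl
    have := h.1
    simp at this
  exact ⟨K.getLast hne, by rwa [List.dropLast_append_getLast]⟩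

open Classical in
/-- **the mean number of bad windows in the first y letters of a closed word** -/
theorem cy_count {N w y : ℕ} {S : Set (List Bool)} {x : ℝ≥0∞} (hy : y ≤ N)
    (h : gf {K | K ∈ POL.Cy N ∧ rwin w K ∉ S} ≤ x) :
    ∑' K : POL.Cy N, wE (K : List Bool) * ENNReal.ofReal (VW (bw w S) ((K : List Bool).take y)) ≤ (y : ℝ≥0∞) * x := by
  obtain ⟨g, hg⟩ : ∃ g : List Bool → ℝ≥0∞, g = fun K => if rwin w K ∉ S then 1 else 0 := ⟨_, rfl⟩
  have hgx : ∑' K : POL.Cy N, wE (K : List Bool) * g K ≤ x := by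
    refine le_trans (le_of_eq ?_) h
    unfold gf
    rw [_root_.tsum_subtype (POL.Cy N) (fun K => wE K * g K), _root_.tsum_subtype _ (fun K => wE K)]
    refine tsum_congr fun K => ?_
    by_cases hK : K ∈ POL.Cy N
    · rw [Set.indicator_of_mem hK, hg]
      simp only
      by_cases h1 : rwin w K ∉ S
      · rw [if_pos h1, mul_one, Set.indicator_of_mem (show K ∈ {K | K ∈ POL.Cy N ∧ rwin w K ∉ S} from ⟨hK, h1⟩)]
      · rw [if_neg h1, mul_zero, Set.indicator_of_notMem (show K ∉ {K | K ∈ POL.Cy N ∧ rwin w K ∉ S} from fun h2 => h1 h2.2)]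
    · rw [Set.indicator_of_notMem hK, Set.indicator_of_notMem (show K ∉ {K | K ∈ POL.Cy N ∧ rwin w K ∉ S} from fun h2 => hK h2.1)]
  have h1 : ∀ K : POL.Cy N, ENNReal.ofReal (VW (bw w S) ((K : List Bool).take y)) ≤
      ∑ x ∈ range y, g ((K : List Bool).rotate (x + w)) := by
    rintro ⟨K, hK⟩
    have hlen := hK.1
    simp only
    rw [VW_bw, ENNReal.ofReal_natCast, Finset.card_filter]
    push_cast
    have hl : (K.take y).length = y := by
      rw [List.length_take]
      omega
    rw [hl]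
    refine sum_le_sum fun x hx => ?_
    split_ifs with h2
    · obtain ⟨h3, h4⟩ := h2
      rw [hg]
      simp only
      rw [rwin_rot (by omega) (by omega), show x + w - w = x by omega]
      rw [List.drop_take, List.take_take, min_eq_left (by omega)] at h4
      rw [if_pos h4]
    · exact zero_le
  calc ∑' K : POL.Cy N, wE (K : List Bool) * ENNReal.ofReal (VW (bw w S) ((K : List Bool).take y))
      ≤ ∑' K : POL.Cy N, ∑ x ∈ range y, wE (K : List Bool) * g ((K : List Bool).rotate (x + w)) := by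
        refine ENNReal.tsum_le_tsum fun K => ?_
        rw [← Finset.mul_sum]
        exact mul_le_mul' le_rfl (h1 K)
    _ = ∑ x ∈ range y, ∑' K : POL.Cy N, wE (K : List Bool) * g ((K : List Bool).rotate (x + w)) := by
        rw [Summable.tsum_finsetSum fun _ _ => ENNReal.summable]
    _ ≤ ∑ x' ∈ range y, x := sum_le_sum fun a _ => (POL.shift_le (a + w) g).trans hgx
    _ = _ := by
        rw [Finset.sum_const, Finset.card_range, nsmul_eq_mul]

open Classical in
/-- the bad marks and the bad windows -/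
lemma nwin_ge {w n x y : ℕ} {S : Set (List Bool)} {t : List Bool} (ht : t.length = n) (hxy : x ≤ y) (hy : y ≤ n) (hw : 2 * w ≤ n) :
    (y : ℝ) - x - 2 * w - VW (bw w S) (wd t (x - w) (min (y + w) n)) ≤ nwin w S t x y := by
  obtain ⟨x1, hx1⟩ : ∃ x1, x1 = x - w := ⟨_, rfl⟩
  obtain ⟨y1, hy1⟩ : ∃ y1, y1 = min (y + w) n := ⟨_, rfl⟩
  have hy1' : y1 ≤ y + w ∧ y1 ≤ n := ⟨by omega, by omega⟩
  have hlen : (wd t x1 y1).length = y1 - x1 := by
    unfold wd
    rw [List.length_drop, List.length_take, ht, min_eq_left hy1'.2]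
  obtain ⟨B, hB⟩ : ∃ B : Finset ℕ, B = (range (y1 - x1)).filter fun z => z + 2 * w ≤ y1 - x1 ∧
    ((wd t x1 y1).drop z).take (2 * w) ∉ S := ⟨_, rfl⟩
  obtain ⟨G, hG⟩ : ∃ G : Finset ℕ, G = (Ico x y).filter fun i => w ≤ i ∧ i + w ≤ t.length ∧ mwin w i t ∈ S := ⟨_, rfl⟩
  have hV : VW (bw w S) (wd t x1 y1) = (B.card : ℝ) := by
    rw [VW_bw, hlen, hB]
  have hN : nwin w S t x y = G.card := by
    rw [hG]
    unfold nwin
    congr
  -- the cover
  have hcov : Ico x y ⊆ G ∪ (Ico x (min y w) ∪ (Ico (max x (n - w + 1)) y ∪ B.image fun z => z + x1 + w)) := by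
    intro i hi
    rw [mem_Ico] at hi
    rw [mem_union, mem_union, mem_union, mem_Ico, mem_Ico, mem_image, hG, mem_filter, mem_Ico]
    by_cases h1 : w ≤ i
    · by_cases h2 : i + w ≤ n
      · by_cases h3 : mwin w i t ∈ S
        · exact Or.inl ⟨hi, h1, by omega, h3⟩
        · right; right; right
          refine ⟨i - w - x1, ?_, by omega⟩
          rw [hB, mem_filter, mem_range]
          have h4 : i - w - x1 + 2 * w ≤ y1 - x1 := by omega
          have hy2 : i + w ≤ y1 := by omega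
          refine ⟨?_, h4, ?_⟩
          · rcases Nat.eq_zero_or_pos w with h0 | h0
            · omega
            · omega
          · intro h5
            apply h3
            unfold wd at h5
            rw [List.drop_drop, show x1 + (i - w - x1) = i - w by omega, List.drop_take, List.take_take,
              min_eq_left (by omega)] at h5
            exact h5
      · right; right; left
        omega
    · right; left
      omega
  have h5 := card_le_card hcov
  rw [Nat.card_Ico] at h5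
  have h6 := card_union_le G (Ico x (min y w) ∪ (Ico (max x (n - w + 1)) y ∪ B.image fun z => z + x1 + w))
  have h7 := card_union_le (Ico x (min y w)) (Ico (max x (n - w + 1)) y ∪ B.image fun z => z + x1 + w)
  have h8 := card_union_le (Ico (max x (n - w + 1)) y) (B.image fun z => z + x1 + w)
  have h9 : (B.image fun z => z + x1 + w).card ≤ B.card := card_image_le
  rw [Nat.card_Ico] at h7 h8
  have h10 : y - x ≤ G.card + (2 * w + B.card) := by omega
  have h11 : ((y - x : ℕ) : ℝ) ≤ G.card + (2 * w + B.card) := by exact_mod_cast h10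
  rw [Nat.cast_sub hxy] at h11
  rw [← hx1, ← hy1, hV, hN]
  linarith

/-- **row L4** -/
theorem transD_of (hX : ExR) (hT : T1) : TransD := by
  intro ε hε
  obtain ⟨ρ, hρ, hwalk, hpol⟩ := PMA.denW hX hT
  obtain ⟨c0, N0, hc0, hlow⟩ := POL.lowH
  obtain ⟨η0, hη0, hpol⟩ := hpol (c0 / 16) (by positivity)
  obtain ⟨R1, hpol⟩ := hpol (ε * (min η0 1) / 16) (by have := lt_min hη0 one_pos; positivity)
  obtain ⟨R2, hwalk⟩ := hwalk (ε / 4) (by positivity)
  obtain ⟨η, hη⟩ : ∃ η, η = min η0 1 := ⟨_, rfl⟩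
  have hη0' : 0 < η := by rw [hη]; exact lt_min hη0 one_pos
  have hη1 : η ≤ 1 := by rw [hη]; exact min_le_right _ _
  have hηle : η ≤ η0 := by rw [hη]; exact min_le_left _ _
  rw [← hη] at hpol
  obtain ⟨R, hR⟩ : ∃ R : ℕ, R = R1 + R2 + 1 := ⟨_, rfl⟩
  obtain ⟨n1, hn1⟩ := exists_nat_ge (2 / η)
  refine ⟨ε * c0 / 16, min (ε / 8) (1 / (8 * R)), N0 + 4 * R + n1 + 4, by positivity,
    lt_min (by positivity) (by rw [hR]; positivity), fun n w S hn hw hS => ?_⟩
  have hRp : (0 : ℝ) < R := by rw [hR]; positivity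
  have hnp : (0 : ℝ) < n := by exact_mod_cast (show 0 < n by omega)
  have hw1 : (w : ℝ) ≤ ε / 8 * n := hw.trans (mul_le_mul_of_nonneg_right (min_le_left _ _) hnp.le)
  have hw2 : (w : ℝ) ≤ 1 / (8 * R) * n := hw.trans (mul_le_mul_of_nonneg_right (min_le_right _ _) hnp.le)
  have hw3 : 8 * R * w ≤ n := by
    have h1 : 8 * R * (w : ℝ) ≤ n := by
      calc 8 * R * (w : ℝ) ≤ 8 * R * (1 / (8 * R) * n) := mul_le_mul_of_nonneg_left hw2 (by positivity)
        _ = n := by field_simp
    exact_mod_cast h1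
  have hRw : R * (2 * w + 1) ≤ n := by
    have h1 : R * (2 * w + 1) = 2 * R * w + R := by ring
    have h2 : 8 * R * w = 4 * (2 * R * w) := by ring
    omega
  have hR1 : R1 * (2 * w + 1) ≤ n := (Nat.mul_le_mul_right _ (by omega)).trans hRw
  have hR2 : R2 * (2 * w + 1) ≤ n := (Nat.mul_le_mul_right _ (by omega)).trans hRw
  have h2w : 2 * w ≤ n := by
    have h1 : 1 * (2 * w + 1) ≤ R * (2 * w + 1) := Nat.mul_le_mul_right _ (by omega)
    omega
  -- the density
  have hden : ρ (2 * w) (bw w S) ≤ ε / 4 := by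
    obtain ⟨n', hn', hev⟩ : ∃ n' : ℕ, (n' = n ∨ n' = n + 1) ∧ Even (n' + 1) := by
      rcases Nat.even_or_odd n with h | h
      · exact ⟨n + 1, Or.inr rfl, by rw [add_assoc]; exact h.add (by decide)⟩
      · exact ⟨n, Or.inl rfl, h.add_one⟩
    have hn'p : (0 : ℝ) < n' := by exact_mod_cast (show 0 < n' by omega)
    obtain ⟨r, hr⟩ : ∃ r, r = ρ (2 * w) (bw w S) := ⟨_, rfl⟩
    have hr0 := (hρ (2 * w) (bw w S) (bw_bd w S)).1
    rw [← hr] at hr0
    have h1 := hpol (2 * w) (bw w S) (bw_bd w S) n' (by omega)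
    rw [← hr] at h1 ⊢
    obtain ⟨E, hE⟩ : ∃ E : Set (List Bool), E = {L | L ∈ C0 n' ∧ ∃ x y : ℕ, x ≤ y ∧ (y : ℝ) ≤ η0 * n' ∧
      ε * η / 16 * n' < |VW (bw w S) (wd L x y) - r * ((y : ℝ) - x)|} := ⟨_, rfl⟩
    rw [← hE] at h1
    obtain ⟨y, hy⟩ : ∃ y, y = ⌊η * n'⌋₊ := ⟨_, rfl⟩
    have hy1 : (y : ℝ) ≤ η * n' := by rw [hy]; exact Nat.floor_le (by positivity)
    have hy2 : η * n' / 2 ≤ (y : ℝ) := by
      have h2 := Nat.lt_floor_add_one (η * n')
      rw [← hy] at h2
      have h3 : 2 ≤ η * n' := by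
        have h4 : (n1 : ℝ) ≤ n' := by exact_mod_cast (show n1 ≤ n' by omega)
        have h5 := hn1.trans h4
        rwa [div_le_iff₀ hη0', mul_comm] at h5
      linarith
    have hyn : y ≤ n' := by
      have h2 : (y : ℝ) ≤ 1 * n' := hy1.trans (mul_le_mul_of_nonneg_right hη1 hn'p.le)
      rw [one_mul] at h2
      exact_mod_cast h2
    have hyp : (0 : ℝ) < y := lt_of_lt_of_le (by positivity) hy2
    obtain ⟨q, hq⟩ : ∃ q, q = r * y - ε * η / 16 * n' := ⟨_, rfl⟩
    -- the lower bound of the number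
    have hcard : ∀ K ∈ POL.Cy (n' + 1), K.dropLast ∉ E → q ≤ VW (bw w S) (K.take y) := by
      intro K hK hKE
      by_contra hcon
      push Not at hcon
      refine hKE ?_
      rw [hE]
      refine ⟨dropLast_C0 hK, 0, y, Nat.zero_le _, hy1.trans (mul_le_mul_of_nonneg_right hηle hn'p.le), ?_⟩
      have h2 : wd K.dropLast 0 y = K.take y := by
        unfold wd
        rw [List.drop_zero, List.dropLast_eq_take, List.take_take, hK.1, min_eq_left (by omega)]
      rw [h2, Nat.cast_zero, sub_zero, lt_abs]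
      right
      linarith
    have hmass : ENNReal.ofReal (c0 * ((n' + 1 : ℕ) : ℝ) ^ (-(3 / 2) : ℝ)) ≤ gf (POL.Cy (n' + 1)) := by
      obtain ⟨G, hG1, hG2, -⟩ := hlow (n' + 1) (by omega) hev
      exact hG2.trans (gf_mono hG1)
    have hν : (n' : ℝ) ^ (-(3 / 2) : ℝ) ≤ 4 * ((n' + 1 : ℕ) : ℝ) ^ (-(3 / 2) : ℝ) := by
      have h2 : (n' : ℝ) = ((n' : ℝ) * 2) / 2 := by ring
      have h3 : ((n' + 1 : ℕ) : ℝ) / 2 ≤ n' := by
        push_cast
        have : (1 : ℝ) ≤ n' := by exact_mod_cast (show 1 ≤ n' by omega)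
        linarith
      calc (n' : ℝ) ^ (-(3 / 2) : ℝ) ≤ (((n' + 1 : ℕ) : ℝ) / 2) ^ (-(3 / 2) : ℝ) :=
            Real.rpow_le_rpow_of_nonpos (by positivity) h3 (by norm_num)
        _ = ((n' + 1 : ℕ) : ℝ) ^ (-(3 / 2) : ℝ) * (2 : ℝ) ^ (3 / 2 : ℝ) := by
            rw [Real.div_rpow (by positivity) (by norm_num), Real.rpow_neg (by norm_num : (0 : ℝ) ≤ 2), div_inv_eq_mul]
        _ ≤ ((n' + 1 : ℕ) : ℝ) ^ (-(3 / 2) : ℝ) * 4 := by
            refine mul_le_mul_of_nonneg_left ?_ (by positivity)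
            calc (2 : ℝ) ^ (3 / 2 : ℝ) ≤ (2 : ℝ) ^ (2 : ℝ) := Real.rpow_le_rpow_of_exponent_le (by norm_num) (by norm_num)
              _ = 4 := by norm_num
        _ = _ := by ring
    obtain ⟨ν, hν0⟩ : ∃ ν : ℝ, ν = ((n' + 1 : ℕ) : ℝ) ^ (-(3 / 2) : ℝ) := ⟨_, rfl⟩
    have hνp : 0 < ν := by rw [hν0]; positivity
    rw [← hν0] at hmass hν
    have hbadm : gf {K | K ∈ POL.Cy (n' + 1) ∧ K.dropLast ∈ E} ≤ ENNReal.ofReal (c0 / 2 * ν) := by
      refine (cy_last E).trans ((mul_le_mul' le_rfl h1).trans ?_)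
      have e2 : (2 : ℝ≥0∞) = ENNReal.ofReal 2 := by norm_num
      rw [e2, ← ENNReal.ofReal_mul (by norm_num)]
      refine ENNReal.ofReal_le_ofReal ?_
      have := mul_le_mul_of_nonneg_left hν (show 0 ≤ 2 * (c0 / 16) by positivity)
      linarith
    have hgood : ENNReal.ofReal (c0 / 2 * ν) ≤ gf {K | K ∈ POL.Cy (n' + 1) ∧ K.dropLast ∉ E} := by
      have h2 : POL.Cy (n' + 1) ⊆ {K | K ∈ POL.Cy (n' + 1) ∧ K.dropLast ∈ E} ∪ {K | K ∈ POL.Cy (n' + 1) ∧ K.dropLast ∉ E} := by
        intro K hK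
        by_cases h3 : K.dropLast ∈ E
        · exact Or.inl ⟨hK, h3⟩
        · exact Or.inr ⟨hK, h3⟩
      have h4 := (hmass.trans (gf_mono h2)).trans ((gf_union_le _ _).trans (add_le_add hbadm le_rfl))
      have h5 : ENNReal.ofReal (c0 * ν) = ENNReal.ofReal (c0 / 2 * ν) + ENNReal.ofReal (c0 / 2 * ν) := by
        rw [← ENNReal.ofReal_add (by positivity) (by positivity)]
        congr 1
        ring
      rw [h5] at h4
      exact (ENNReal.add_le_add_iff_left ENNReal.ofReal_ne_top).1 h4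
    have hcnt := cy_count (y := y) (show y ≤ n' + 1 by omega) (hS (n' + 1) (by omega) (by omega))
    rw [← hν0] at hcnt
    -- the comparison
    have hmain : ENNReal.ofReal q * ENNReal.ofReal (c0 / 2 * ν) ≤ (y : ℝ≥0∞) * ENNReal.ofReal (ε * c0 / 16 * ν) := by
      refine le_trans ?_ hcnt
      calc ENNReal.ofReal q * ENNReal.ofReal (c0 / 2 * ν)
          ≤ ENNReal.ofReal q * gf {K | K ∈ POL.Cy (n' + 1) ∧ K.dropLast ∉ E} := mul_le_mul' le_rfl hgood
        _ = ∑' K : {K | K ∈ POL.Cy (n' + 1) ∧ K.dropLast ∉ E}, wE (K : List Bool) * ENNReal.ofReal q := by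
            unfold gf
            rw [ENNReal.tsum_mul_right, mul_comm]
        _ ≤ ∑' K : {K | K ∈ POL.Cy (n' + 1) ∧ K.dropLast ∉ E}, wE (K : List Bool) *
              ENNReal.ofReal (VW (bw w S) ((K : List Bool).take y)) :=
            ENNReal.tsum_le_tsum fun K => mul_le_mul' le_rfl (ENNReal.ofReal_le_ofReal (hcard _ K.2.1 K.2.2))
        _ ≤ _ := by
            refine ENNReal.tsum_comp_le_tsum_of_injective
              (f := fun K : {K | K ∈ POL.Cy (n' + 1) ∧ K.dropLast ∉ E} => (⟨K, K.2.1⟩ : POL.Cy (n' + 1))) ?_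
              (fun K : POL.Cy (n' + 1) => wE (K : List Bool) * ENNReal.ofReal (VW (bw w S) ((K : List Bool).take y)))
            intro K K' he
            exact Subtype.ext (congrArg (fun z : POL.Cy (n' + 1) => (z : List Bool)) he)
    have hq2 : q ≤ ε / 8 * y := by
      rcases le_or_gt q 0 with h2 | h2
      · exact h2.trans (by positivity)
      · rw [← ENNReal.ofReal_natCast, ← ENNReal.ofReal_mul h2.le, ← ENNReal.ofReal_mul (Nat.cast_nonneg _),
          ENNReal.ofReal_le_ofReal_iff (by positivity)] at hmain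
        have h3 : q * (c0 / 2 * ν) ≤ ε / 8 * y * (c0 / 2 * ν) := by
          refine hmain.trans (le_of_eq ?_)
          ring
        exact le_of_mul_le_mul_right h3 (by positivity)
    have h6 : r * y ≤ ε / 4 * y := by
      have h7 : ε * η / 16 * n' ≤ ε / 8 * y := by
        have := mul_le_mul_of_nonneg_left hy2 (show 0 ≤ ε / 8 by positivity)
        linarith
      linarith
    exact le_of_mul_le_mul_right h6 hyp
  -- the walks
  have h8 := hwalk (2 * w) (bw w S) (bw_bd w S) n hR2
  refine (Pn_mono fun t ht hbad => ?_).trans (h8.trans (by linarith))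
  have hbad' : ¬ ∀ x y : ℕ, x ≤ y → y ≤ n → (y : ℝ) - x - ε * n ≤ nwin w S t x y := hbad
  push Not at hbad'
  obtain ⟨x, y, hxy, hy, hlt⟩ := hbad'
  refine ⟨x - w, min (y + w) n, by omega, min_le_right _ _, ?_⟩
  have h9 := nwin_ge (S := S) ht.1 hxy hy h2w
  obtain ⟨v, hv⟩ : ∃ v, v = VW (bw w S) (wd t (x - w) (min (y + w) n)) := ⟨_, rfl⟩
  rw [← hv] at h9 ⊢
  obtain ⟨r, hr⟩ : ∃ r, r = ρ (2 * w) (bw w S) := ⟨_, rfl⟩
  rw [← hr] at hden ⊢
  have hr0 := (hρ (2 * w) (bw w S) (bw_bd w S)).1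
  rw [← hr] at hr0
  have h10 : r * (((min (y + w) n : ℕ) : ℝ) - ((x - w : ℕ) : ℝ)) ≤ ε / 4 * n := by
    have h11 : ((min (y + w) n : ℕ) : ℝ) ≤ n := by exact_mod_cast min_le_right _ _
    have h12 : (0 : ℝ) ≤ ((x - w : ℕ) : ℝ) := Nat.cast_nonneg _
    calc r * (((min (y + w) n : ℕ) : ℝ) - ((x - w : ℕ) : ℝ)) ≤ r * n := mul_le_mul_of_nonneg_left (by linarith) hr0
      _ ≤ _ := mul_le_mul_of_nonneg_right hden hnp.le
  have h13 : 3 * (ε / 4) * n < v := by linarith
  rw [lt_abs]
  left
  linarith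

end RMP

end HexObs
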