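import Pool.Agent.TIP.HitB
import Pool.Agent.TIP.Ua
import Pool.Agent.TIP.UaZ
import Pool.Agent.TIW.Base

/-!
RMP (renormalisation map), row P1 (helper73), part 1: **uniform avoidance with a spectator**: E is a set of vertices such that
every point of E is joined inside E to a point at a distance more than D. The words avoid E, and the free cuts are far from
the past and from E. The proof is that of `TIP.ua` (helper69).
-/

set_option autoImplicit false

namespace HexObs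

namespace RMP

open Finset TS SDN HexObs.SIM TIP EN EN.LB

open scoped ENNReal

/-- every point of E is joined inside E to a point at a distance more than D -/
def Obs (D : ℤ) (E : Set Pt) : Prop := ∀ q ∈ E, ∃ (g : ℕ → Pt) (n : ℕ), Pth g n ∧ g 0 = q ∧ (∀ k, k ≤ n → g k ∈ E) ∧
  D < TIW.hn (g n - q)

lemma Obs.mono {D D' : ℤ} {E : Set Pt} (h : Obs D E) (hD : D' ≤ D) : Obs D' E := by
  intro q hq
  obtain ⟨g, n, h1, h2, h3, h4⟩ := h q hq
  exact ⟨g, n, h1, h2, h3, by omega⟩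

/-- the vertices of a word -/
def vs (A : List Bool) : Set Pt := {q | ∃ i, i ≤ A.length ∧ q = vx oo up A i}

/-- the self-avoiding words that avoid E -/
def SAE (E : Set Pt) : Set (List Bool) := {L | L ∈ SA ∧ ∀ i, i ≤ L.length → vx oo up L i ∉ E}

/-- the steps in the frame -/
lemma fr_step (L : List Bool) {p q : Pt} (h : AdP p q) : HN (TIP.fr L p) (TIP.fr L q) := by
  have hu := rot_unit _ (tipd_mem L)
  have hul := fun {e : Pt} (he : e ∈ dirs) => (show mulE (rotTo (tipd L) up) e ∈ dirs from by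
    have : ∀ u ∈ dirs, ∀ e ∈ dirs, mulE u e ∈ dirs := by decide
    exact this _ hu e he)
  have h1 : cl (tipd L) = if Even L.length then cl up else - cl up := cl_dx up L L.length
  have h2 : cl (tipv L) = if Even L.length then cl oo else cl oo + cl up := cl_vx oo up L L.length
  have h3 : cl (rotTo (tipd L) up) * cl (tipd L) = cl up := by
    rw [← cl_mulE, rotTo_apply up (tipd_mem L)]
  have h4 : ∀ x : Pt, cl (TIP.fr L x) = cl (rotTo (tipd L) up) * (cl x - cl (tipv L)) := by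
    intro x
    unfold TIP.fr
    rw [cl_mulE, cl_sub]
  have e1 : cl up = -1 := by decide
  have e2 : cl oo = 0 := by decide
  rw [e1] at h1 h3
  rw [e1, e2] at h2
  have key : ∀ x y : Pt, cl x = 0 → y - x ∈ dirs → cl (y - x) = 2 → HN (TIP.fr L x) (TIP.fr L y) := by
    intro x y hx hd hc
    have e3 : TIP.fr L y = TIP.fr L x + mulE (rotTo (tipd L) up) (y - x) := by
      unfold TIP.fr
      rw [← mulE_add]
      congr 1
      abel
    have hy : cl y = -1 := by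
      have h5 : cl y = cl x + cl (y - x) := by
        rw [cl_sub]
        ring
      rw [h5, hx, hc]
      decide
    have h6 := h4 x
    have h7 := h4 y
    rw [hx] at h6
    rw [hy] at h7
    rw [e3] at h7 ⊢
    refine HN_of_dirs (hul hd) ?_
    rw [h6, h7]
    obtain ⟨z, hz⟩ : ∃ z, z = cl (rotTo (tipd L) up) := ⟨_, rfl⟩
    rw [← hz] at h3 ⊢
    by_cases hev : Even L.length
    · rw [if_pos hev] at h1 h2
      rw [h1] at h3
      rw [h2]
      left
      have key : ∀ z : ZMod 3, z * -1 = -1 → z * (0 - 0) = 0 ∧ z * (-1 - 0) = -1 := by decide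
      exact key z h3
    · rw [if_neg hev] at h1 h2
      rw [h1] at h3
      rw [h2]
      right
      have key : ∀ z : ZMod 3, z * - -1 = -1 → z * (0 - (0 + -1)) = -1 ∧ z * (-1 - (0 + -1)) = 0 := by decide
      exact key z h3
  rcases h with ⟨a1, a2, a3⟩ | ⟨a1, a2, a3⟩
  · exact key p q a1 a2 a3
  · exact (key q p a1 a2 a3).symm

lemma hn_fr (L : List Bool) (p q : Pt) : TIW.hn (TIP.fr L p - TIP.fr L q) = TIW.hn (p - q) := by
  have h1 : TIP.fr L p - TIP.fr L q = mulE (rotTo (tipd L) up) (p - q) := by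
    unfold TIP.fr
    rw [← mulE_sub]
    congr 1
    abel
  rw [h1, TIW.hn_mulE]
  exact nrm_rotTo (tipd_mem L) upd

/-! ### the hit -/

/-- the word W behind L hits F -/
def HitO (L : List Bool) (F : Set Pt) (W : List Bool) : Prop :=
  ∃ q ∈ F, ∃ k, 1 ≤ k ∧ k ≤ W.length ∧ TIP.fr L q = vx oo up W k

lemma hitO_not {A Y W X : List Bool} {E : Set Pt} (h : HitO (A ++ Y) (vs A ∪ E) W) : A ++ (Y ++ (W ++ X)) ∉ SAE E := by
  obtain ⟨q, hq, k, hk1, hk, he⟩ := h
  rcases hq with ⟨i, hi, rfl⟩ | hq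
  · intro hS
    exact hit_notSA (X := X) (⟨i, hi, k, hk1, hk, he⟩ : HitW (A ++ Y) A W) hS.1
  · intro hS
    have h1 : TIP.fr (A ++ Y) (vx oo up ((A ++ Y) ++ (W ++ X)) ((A ++ Y).length + k)) = vx oo up W k := by
      rw [fr_front, vx_append (by omega)]
    have h2 := fr_inj (he.trans h1.symm)
    rw [← List.append_assoc] at hS
    refine hS.2 ((A ++ Y).length + k) ?_ (by rw [← h2]; exact hq)
    rw [List.length_append (as := A ++ Y), List.length_append (as := W)]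
    omega

/-- the result of the two cases -/
def HitCO (r w : ℕ) (L : List Bool) (F : Set Pt) : Prop := ∃ (t1 t2 : ℕ) (x1 x2 : ℤ), r ≤ t1 ∧ t1 ≤ 9 * r ∧ |x1| ≤ 5 * r ∧
  w ≤ t2 ∧ t2 ≤ 80 * w ∧ |x2| ≤ 80 * w ∧ t1 + w + (t2 + w) ≤ 10 * r ∧ ∀ V1 ∈ TIP.Tb t1 x1 w, ∀ V2 ∈ TIP.Tb t2 x2 w, HitO L F (V1 ++ V2)

/-- the past has a large extent in the direction of the levels -/
lemma hitVO {L : List Bool} {F : Set Pt} {P : ℕ → Pt} {n r w : ℕ} {y : Pt} (hP : ∀ k, k < n → HN (P k) (P (k + 1)))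
    (hPA : ∀ k, k ≤ n → ∃ q ∈ F, P k = TIP.fr L q) (hball : ∀ k, k ≤ n → P k ∈ Bl y (20 * w + 1))
    (hlv : lv (P 0) + 20 * w ≤ lv (P n)) (hy1 : 6 * (r : ℤ) ≤ lv y) (hy2 : lv y ≤ 24 * r) (hy3 : |y.1| ≤ 4 * r)
    (hw : 1 ≤ w) (h200 : 200 * w ≤ r) : HitCO r w L F := by
  have hb : ∀ k, k ≤ n → (y.1 - (20 * w + 1) ≤ (P k).1 ∧ (P k).1 ≤ y.1 + (20 * w + 1)) ∧
      (lv y - 3 * (20 * w + 1) ≤ lv (P k) ∧ lv (P k) ≤ lv y + 3 * (20 * w + 1)) := by
    intro k hk
    obtain ⟨⟨a1, a2⟩, a3, a4⟩ := mem_Bl.1 (hball k hk)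
    unfold lv
    push_cast at a1 a2 a3 a4
    exact ⟨⟨a1, a2⟩, by linarith, by linarith⟩
  have hb0 := hb 0 (Nat.zero_le _)
  have hbn := hb n le_rfl
  obtain ⟨t1, ht1⟩ : ∃ t1 : ℕ, (t1 : ℤ) = (lv (P 0) + 5) / 3 := ⟨((lv (P 0) + 5) / 3).toNat, by
    rw [Int.toNat_of_nonneg]
    omega⟩
  rw [abs_le] at hy3
  refine ⟨t1, w, y.1 - 40 * w, 80 * w, by omega, by omega, ?_, le_rfl, by omega, ?_, by omega, ?_⟩
  · rw [abs_le]
    constructor <;> omega
  · rw [abs_le]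
    constructor <;> omega
  · intro V1 hV1 V2 hV2
    obtain ⟨b1, h11, h12, h13, h14⟩ := hV1
    obtain ⟨b2, h21, h22, h23, h24⟩ := hV2
    rw [abs_le] at h13 h23
    have l1 := len_pos b1 (by omega)
    have l2 := len_pos b2 (by omega)
    have hn : 1 ≤ n := by
      by_contra hc
      have : n = 0 := by omega
      rw [this] at hlv
      omega
    obtain ⟨i, hi, j, hj, he⟩ := hex_cross (P := P) (Q := fun j => vx oo up (V1 ++ V2) (V1.length + j)) (n := n)
      (m := V2.length) hP (fun j _ => HN_vx upd (Or.inl ⟨by decide, by decide⟩) (V1 ++ V2) (V1.length + j)) hn l2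
      (fun j hj => by
        rw [(co2 b1 j).1]
        have := (lev_BU b2 hj).1
        omega)
      (fun j hj => by
        rw [(co2 b1 j).1]
        have := (lev_BU b2 hj).2
        omega)
      (fun i hi => by
        have h1 := (hb i hi).1.1
        show (vx oo up (V1 ++ V2) (V1.length + 0)).1 ≤ (P i).1
        rw [(co2 b1 0).2, lat_zero]
        omega)
      (fun i hi => by
        have h1 := (hb i hi).1.2
        show (P i).1 < (vx oo up (V1 ++ V2) (V1.length + V2.length)).1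
        rw [(co2 b1 V2.length).2]
        have : lat V2 V2.length = latE V2 := rfl
        rw [this]
        omega)
    obtain ⟨q, hq, he'⟩ := hPA i hi
    refine ⟨q, hq, V1.length + j, by omega, by rw [List.length_append]; omega, ?_⟩
    rw [← he', he]

/-- the past has a large lateral extent -/
lemma hitHO {L : List Bool} {F : Set Pt} {Q : ℕ → Pt} {m r w : ℕ} {y : Pt} (hQ : ∀ k, k < m → HN (Q k) (Q (k + 1)))
    (hQA : ∀ k, k ≤ m → ∃ q ∈ F, Q k = TIP.fr L q) (hball : ∀ k, k ≤ m → Q k ∈ Bl y (20 * w + 1))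
    (hlat : (Q 0).1 + 20 * w + 1 ≤ (Q m).1) (hy1 : 6 * (r : ℤ) ≤ lv y) (hy2 : lv y ≤ 24 * r) (hy3 : |y.1| ≤ 4 * r)
    (hw : 1 ≤ w) (h200 : 200 * w ≤ r) : HitCO r w L F := by
  have hb : ∀ k, k ≤ m → (y.1 - (20 * w + 1) ≤ (Q k).1 ∧ (Q k).1 ≤ y.1 + (20 * w + 1)) ∧
      (lv y - 3 * (20 * w + 1) ≤ lv (Q k) ∧ lv (Q k) ≤ lv y + 3 * (20 * w + 1)) := by
    intro k hk
    obtain ⟨⟨a1, a2⟩, a3, a4⟩ := mem_Bl.1 (hball k hk)
    unfold lv
    push_cast at a1 a2 a3 a4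
    exact ⟨⟨a1, a2⟩, by linarith, by linarith⟩
  have hb0 := hb 0 (Nat.zero_le _)
  obtain ⟨t1, ht1⟩ : ∃ t1 : ℕ, (t1 : ℤ) = lv y / 3 - 40 * w := ⟨(lv y / 3 - 40 * w).toNat, by
    rw [Int.toNat_of_nonneg]
    omega⟩
  rw [abs_le] at hy3
  refine ⟨t1, 80 * w, (Q 0).1 + 10 * w, 0, by omega, by omega, ?_, by omega, le_rfl, ?_, by omega, ?_⟩
  · rw [abs_le]
    constructor <;> omega
  · rw [abs_zero]
    positivity
  · intro V1 hV1 V2 hV2
    obtain ⟨b1, h11, h12, h13, h14⟩ := hV1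
    obtain ⟨b2, h21, h22, h23, h24⟩ := hV2
    rw [abs_le] at h13 h23
    have l1 := len_pos b1 (by omega)
    have l2 := len_pos b2 (by omega)
    have hm : 1 ≤ m := by
      by_contra hc
      have : m = 0 := by omega
      rw [this] at hlat
      omega
    obtain ⟨i, hi, j, hj, he⟩ := hex_cross (P := fun j => vx oo up (V1 ++ V2) (V1.length + j)) (Q := Q)
      (n := V2.length) (m := m) (fun j _ => HN_vx upd (Or.inl ⟨by decide, by decide⟩) (V1 ++ V2) (V1.length + j)) hQ l2 hm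
      (fun j hj => by
        have h1 := (hb j hj).2.1
        show lv (vx oo up (V1 ++ V2) (V1.length + 0)) + 3 ≤ lv (Q j)
        rw [(co2 b1 0).1]
        have e0 : lev V2 0 = 0 := by
          show ip oo up = 0
          decide
        rw [e0]
        omega)
      (fun j hj => by
        have h1 := (hb j hj).2.2
        show lv (Q j) + 3 ≤ lv (vx oo up (V1 ++ V2) (V1.length + V2.length))
        rw [(co2 b1 V2.length).1, levE_BU b2]
        omega)
      (fun i hi => by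
        show (Q 0).1 ≤ (vx oo up (V1 ++ V2) (V1.length + i)).1
        rw [(co2 b1 i).2]
        have := (h24 i hi).1
        rw [min_self] at this
        omega)
      (fun i hi => by
        show (vx oo up (V1 ++ V2) (V1.length + i)).1 < (Q m).1
        rw [(co2 b1 i).2]
        have := (h24 i hi).2
        rw [max_self] at this
        omega)
    obtain ⟨q, hq, he'⟩ := hQA j hj
    refine ⟨q, hq, V1.length + i, by omega, by rw [List.length_append]; omega, ?_⟩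
    rw [← he', ← he]

/-- **the hit** -/
theorem hit_detO {L : List Bool} {F : Set Pt} {g : ℕ → Pt} {M r w : ℕ} (hgs : ∀ k, k < M → HN (g k) (g (k + 1)))
    (hgF : ∀ k, k ≤ M → ∃ q ∈ F, g k = TIP.fr L q) (hy1 : 6 * (r : ℤ) ≤ lv (g 0))
    (hy2 : lv (g 0) ≤ 24 * r) (hy3 : |(g 0).1| ≤ 4 * r)
    (hout : g M ∉ Bl (g 0) (20 * w)) (hw : 1 ≤ w) (h200 : 200 * w ≤ r) : HitCO r w L F := by
  classical
  have hex : ∃ k, g k ∉ Bl (g 0) (20 * w) := ⟨_, hout⟩
  obtain ⟨τ, hτ⟩ : ∃ τ, τ = Nat.find hex := ⟨_, rfl⟩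
  have hτM : τ ≤ M := by
    rw [hτ]
    exact Nat.find_min' hex hout
  have hτs : g τ ∉ Bl (g 0) (20 * w) := by
    rw [hτ]
    exact Nat.find_spec hex
  have hτm : ∀ k, k < τ → g k ∈ Bl (g 0) (20 * w) := by
    intro k hk
    rw [hτ] at hk
    exact not_not.1 (Nat.find_min hex hk)
  have hτ0 : τ ≠ 0 := by
    intro h0
    rw [h0] at hτs
    exact hτs ⟨by simp, by simp⟩
  have hball : ∀ k, k ≤ τ → g k ∈ Bl (g 0) (20 * w + 1) := by
    intro k hk
    rcases Nat.lt_or_ge k τ with h1 | h1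
    · exact Bl_mono _ (by omega) (hτm k h1)
    · have e : k = (τ - 1) + 1 := by omega
      have h2 := HN_le (hgs (τ - 1) (by omega))
      obtain ⟨⟨a1, a2⟩, a3, a4⟩ := mem_Bl.1 (hτm (τ - 1) (by omega))
      rw [← e, abs_le, abs_le] at h2
      rw [mem_Bl]
      push_cast at a1 a2 a3 a4 ⊢
      refine ⟨⟨?_, ?_⟩, ?_, ?_⟩ <;> omega
  have hA : ∀ k, k ≤ τ → ∃ q ∈ F, g k = TIP.fr L q := fun k hk => hgF k (by omega)
  have hA' : ∀ k, k ≤ τ → ∃ q ∈ F, g (τ - k) = TIP.fr L q := fun k _ => hA (τ - k) (by omega)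
  have hrev : ∀ k, k < τ → HN (g (τ - k)) (g (τ - (k + 1))) := by
    intro k hk
    have := hgs (τ - (k + 1)) (by omega)
    rw [show τ - (k + 1) + 1 = τ - k by omega] at this
    exact this.symm
  have e0 : g (τ - τ) = g 0 := by rw [Nat.sub_self]
  rcases le_or_gt (20 * (w : ℤ)) (lv (g τ) - lv (g 0)) with hc | hc
  · exact hitVO (P := g) (n := τ) (y := g 0) (fun k hk => hgs k (by omega)) hA hball (by linarith) hy1 hy2 hy3 hw h200
  rcases le_or_gt (20 * (w : ℤ)) (lv (g 0) - lv (g τ)) with hc2 | hc2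
  · refine hitVO (P := fun k => g (τ - k)) (n := τ) (y := g 0) hrev hA' (fun k _ => hball _ (by omega)) ?_ hy1 hy2 hy3 hw
      h200
    show lv (g (τ - 0)) + 20 * w ≤ lv (g (τ - τ))
    rw [e0, Nat.sub_zero]
    linarith
  have hlat : (g 0).1 + 20 * w + 1 ≤ (g τ).1 ∨ (g τ).1 + 20 * w + 1 ≤ (g 0).1 := by
    by_contra hcon
    push Not at hcon
    apply hτs
    rw [mem_Bl]
    unfold lv at hc hc2
    push_cast
    refine ⟨⟨?_, ?_⟩, ?_, ?_⟩ <;> omega
  rcases hlat with h1 | h1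
  · exact hitHO (Q := g) (m := τ) (y := g 0) (fun k hk => hgs k (by omega)) hA hball h1 hy1 hy2 hy3 hw h200
  · refine hitHO (Q := fun k => g (τ - k)) (m := τ) (y := g 0) hrev hA' (fun k _ => hball _ (by omega)) ?_ hy1 hy2 hy3 hw
      h200
    show (g (τ - 0)).1 + 20 * w + 1 ≤ (g (τ - τ)).1
    rw [e0, Nat.sub_zero]
    exact h1

/-! ### the free cuts -/

/-- no point of F within distance r of the tip of A ++ Z1 -/
def FreO (r : ℕ) (F : Set Pt) (A Z1 : List Bool) : Prop := ∀ q ∈ F, q ∉ Bl (tipv (A ++ Z1)) r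

/-- the parts behind the free cuts of the bridge Z behind A -/
def freeSO (r : ℕ) (F : Set Pt) (A Z : List Bool) : Set (List Bool) :=
  {Z2 | Z2 ∈ BU ∧ ∃ Z1 ∈ BU, Z = Z1 ++ Z2 ∧ FreO r F A Z1}

/-- number of the free cuts -/
noncomputable def freeNO (r : ℕ) (F : Set Pt) (A Z : List Bool) : ℕ := (freeSO r F A Z).ncard

lemma freeSO_fin (r : ℕ) (F : Set Pt) (A Z : List Bool) : (freeSO r F A Z).Finite :=
  fin_suf fun Z2 h => by
    obtain ⟨-, Z1, -, h, -⟩ := h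
    exact ⟨Z1, h.symm⟩

/-- the box in front of the tip is free: all cuts of the second bridge are free -/
lemma free_cutsO {A Y V1 V2 X : List Bool} {F : Set Pt} {r w m : ℕ} (hY : Y ∈ BU) (hX : X ∈ BU)
    (hfree : ∀ q ∈ F, 6 * (r : ℤ) ≤ lv (TIP.fr (A ++ Y) q) →
      lv (TIP.fr (A ++ Y) q) ≤ 24 * r → ¬ |(TIP.fr (A ++ Y) q).1| ≤ 4 * r)
    (h200 : 200 * w ≤ r) (hV1 : V1 ∈ TIP.Tb (4 * r) 0 w) (hV2 : V2 ∈ Um m r) :
    m + 1 ≤ freeNO r F A (Y ++ (V1 ++ (V2 ++ X))) := by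
  obtain ⟨b1, h11, h12, h13, -⟩ := hV1
  obtain ⟨hI, h22, h23⟩ := hV2
  have hsub : (fun U2 => U2 ++ X) '' cuts V2 ⊆ freeSO r F A (Y ++ (V1 ++ (V2 ++ X))) := by
    rintro _ ⟨U2, ⟨hU2, U1, hU1, he⟩, rfl⟩
    refine ⟨TIP.BU_app hU2 hX, Y ++ (V1 ++ U1), TIP.BU_app hY (TIP.BU_app b1 hU1), ?_, ?_⟩
    · rw [he]
      simp only [List.append_assoc]
    · intro q hqF hc
      have h1 := fr_Bl (A ++ Y) hc
      have h2 : TIP.fr (A ++ Y) (tipv (A ++ (Y ++ (V1 ++ U1)))) = vx oo up (V1 ++ U1) (V1.length + U1.length) := by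
        have h3 := fr_front (A ++ Y) (V1 ++ U1) (V1.length + U1.length)
        have el : (A ++ (Y ++ (V1 ++ U1))).length = (A ++ Y).length + (V1.length + U1.length) := by
          simp only [List.length_append]
          omega
        have e : A ++ (Y ++ (V1 ++ U1)) = (A ++ Y) ++ (V1 ++ U1) := (List.append_assoc _ _ _).symm
        rw [← h3]
        unfold tipv
        rw [el, e]
      rw [h2] at h1
      obtain ⟨h4, h5⟩ := co2 (V2 := U1) b1 U1.length
      have h6 := levE_BU hU1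
      have h7 : hgt V2 = hgt U1 + hgt U2 := by rw [he, hgt_app hU1 hU2]
      have h8 := h23 U1.length (by rw [he, List.length_append]; omega)
      rw [he, lat_append (by omega)] at h8
      obtain ⟨p, hp⟩ : ∃ p, p = vx oo up (V1 ++ U1) (V1.length + U1.length) := ⟨_, rfl⟩
      have hfr := hfree q hqF
      obtain ⟨x, hx⟩ : ∃ x, x = TIP.fr (A ++ Y) q := ⟨_, rfl⟩
      rw [← hp] at h1 h4 h5
      rw [← hx] at h1 hfr
      obtain ⟨⟨a1, a2⟩, a3, a4⟩ := mem_Bl.1 h1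
      rw [h6] at h4
      rw [sub_zero, abs_le] at h13
      rw [abs_le] at h8
      push_cast at a1 a2 a3 a4
      have hlq : lv x = 2 * x.2 + x.1 := rfl
      have hlp : lv p = 2 * p.2 + p.1 := rfl
      refine hfr ?_ ?_ ?_
      · omega
      · omega
      · rw [abs_le]
        constructor <;> omega
  have h1 := Ir_cuts hI
  have h2 : ((fun U2 => U2 ++ X) '' cuts V2).ncard = (cuts V2).ncard :=
    Set.ncard_image_of_injective _ fun a b h => List.append_cancel_right h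
  have h3 := Set.ncard_le_ncard hsub (freeSO_fin r F A _)
  unfold freeNO
  omega

/-- few free cuts -/
def BadO (κ : ℝ) (E : Set Pt) (A : List Bool) (r H : ℕ) : Set (List Bool) :=
  {Z | Z ∈ BU ∧ hgt Z ≤ H ∧ A ++ Z ∈ SAE E ∧ (freeNO r (vs A ∪ E) A Z : ℝ) < κ * UU r}

/-- **the forbidden blocks** -/
theorem forbO : ∃ (c κ : ℝ) (r0 : ℕ), 0 < c ∧ c ≤ 1 ∧ 0 < κ ∧ ∀ (E : Set Pt) (A Y : List Bool) (r H : ℕ), r0 ≤ r →
    Obs r E → Y ∈ BU → ENNReal.ofReal c ≤ gf {B | B ∈ LB.Bk (10 * r) ∧ ∀ X ∈ BU, Y ++ (B ++ X) ∉ BadO κ E A r H} := by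
  obtain ⟨c1, t0, hc1, hV⟩ := Vb_mass 80 3600
  obtain ⟨c2, κ, r1, hc2, hκ, hU⟩ := Um_mass
  obtain ⟨c, hc⟩ : ∃ c, c = min 1 (min (c1 * c1) (c1 * c2)) := ⟨_, rfl⟩
  have hc0 : 0 < c := by
    rw [hc]
    exact lt_min one_pos (lt_min (by positivity) (by positivity))
  have hcc1 : c ≤ c1 * c1 := by
    rw [hc]
    exact (min_le_right _ _).trans (min_le_left _ _)
  have hcc2 : c ≤ c1 * c2 := by
    rw [hc]
    exact (min_le_right _ _).trans (min_le_right _ _)
  refine ⟨c, κ, 200 * (t0 + 1) + r1, hc0, by rw [hc]; exact min_le_left _ _, hκ, fun E A Y r H hr hE hY => ?_⟩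
  obtain ⟨w, hw⟩ : ∃ w, w = r / 200 := ⟨_, rfl⟩
  have hw1 : 1 ≤ w := by omega
  have hwt : t0 ≤ w := by omega
  have h200 : 200 * w ≤ r := by omega
  have hr400 : r ≤ 400 * w := by omega
  by_cases hbox : ∃ q ∈ vs A ∪ E, 6 * (r : ℤ) ≤ lv (TIP.fr (A ++ Y) q) ∧
      lv (TIP.fr (A ++ Y) q) ≤ 24 * r ∧ |(TIP.fr (A ++ Y) q).1| ≤ 4 * r
  · obtain ⟨q, hq, hy1, hy2, hy3⟩ := hbox
    have hpath : ∃ (g : ℕ → Pt) (M : ℕ), (∀ k, k < M → HN (g k) (g (k + 1))) ∧
        (∀ k, k ≤ M → ∃ q' ∈ vs A ∪ E, g k = TIP.fr (A ++ Y) q') ∧ g 0 = TIP.fr (A ++ Y) q ∧ g M ∉ Bl (g 0) (20 * w) := by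
      rcases hq with ⟨i, hi, rfl⟩ | hq
      · refine ⟨fun k => TIP.fr (A ++ Y) (vx oo up A (i + k)), A.length - i, fun k _ => fr_HN (A ++ Y) A (i + k),
          fun k hk => ⟨_, Or.inl ⟨i + k, by omega, rfl⟩, rfl⟩, rfl, ?_⟩
        show TIP.fr (A ++ Y) (vx oo up A (i + (A.length - i))) ∉ Bl (TIP.fr (A ++ Y) (vx oo up A i)) (20 * w)
        rw [show i + (A.length - i) = A.length by omega]
        intro hc
        have htip := lv_tip (A := A) hY
        obtain ⟨⟨a1, a2⟩, a3, a4⟩ := mem_Bl.1 hc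
        unfold lv at htip hy1
        push_cast at a1 a2 a3 a4
        omega
      · obtain ⟨g, M, g1, g2, g3, g4⟩ := hE q hq
        refine ⟨fun k => TIP.fr (A ++ Y) (g k), M, fun k hk => fr_step (A ++ Y) (g1 k hk),
          fun k hk => ⟨_, Or.inr (g3 k hk), rfl⟩, by show TIP.fr (A ++ Y) (g 0) = _; rw [g2], ?_⟩
        show TIP.fr (A ++ Y) (g M) ∉ Bl (TIP.fr (A ++ Y) (g 0)) (20 * w)
        intro hc
        have h1 : TIW.hn (TIP.fr (A ++ Y) (g M) - TIP.fr (A ++ Y) (g 0)) ≤ 3 * ((20 * w : ℕ) : ℤ) := by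
          obtain ⟨⟨a1, a2⟩, a3, a4⟩ := mem_Bl.1 hc
          generalize TIP.fr (A ++ Y) (g M) = x at a1 a2 a3 a4 ⊢
          generalize TIP.fr (A ++ Y) (g 0) = y at a1 a2 a3 a4 ⊢
          unfold TIW.hn
          simp only [ip, up, rotL, rotR, Prod.fst_sub, Prod.snd_sub] at a1 a2 a3 a4 ⊢
          refine max_le ?_ (max_le ?_ ?_) <;> rw [abs_le] <;> constructor <;> omega
        rw [hn_fr, g2] at h1
        push_cast at h1
        omega
    obtain ⟨g, M, g1, g2, g3, g4⟩ := hpath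
    rw [← g3] at hy1 hy2 hy3
    obtain ⟨t1, t2, x1, x2, a1, a2, a3, a4, a5, a6, a7, a8⟩ := hit_detO g1 g2 hy1 hy2 hy3 g4 hw1 h200
    have m1 := hV t1 w x1 (by omega) (by rw [abs_le] at a3 ⊢; omega) (by omega) (by omega)
    have m2 := hV t2 w x2 (by omega) (by rw [abs_le] at a6 ⊢; omega) (by omega) (by omega)
    have m3 := blk_mass (S1 := Vb t1 x1 w) (S2 := Vb t2 x2 w) (N := 10 * r) (fun V h => h.1.1) (fun V h => h.1.1)
      (fun V h V' h' X hX X' hX' he => Vb_pf h h' hX hX' he) (fun V h V' h' X hX X' hX' he => Vb_pf h h' hX hX' he)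
      (fun V1 h1 V2 h2 => by
        have := h1.1.2.2.1
        have := h2.1.2.2.1
        omega)
    calc ENNReal.ofReal c ≤ ENNReal.ofReal c1 * ENNReal.ofReal c1 := by
          rw [← ENNReal.ofReal_mul hc1.le]
          exact ENNReal.ofReal_le_ofReal hcc1
      _ ≤ gf (Vb t1 x1 w) * gf (Vb t2 x2 w) := mul_le_mul' m1 m2
      _ ≤ _ := m3
      _ ≤ _ := by
          refine gf_mono ?_
          rintro B ⟨hB, V1, hV1, V2, hV2, X0, hX0, rfl⟩
          refine ⟨hB, fun X hX hbad => ?_⟩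
          have h1 := hitO_not (X := X0 ++ X) (a8 V1 hV1.1 V2 hV2.1)
          apply h1
          have h2 := hbad.2.2.1
          simp only [List.append_assoc] at h2 ⊢
          exact h2
  · push Not at hbox
    obtain ⟨m, hm⟩ : ∃ m : ℕ, m = ⌈κ * UU r⌉₊ := ⟨_, rfl⟩
    have hUr := Num2Aux.UU_pos r
    have hm1 : (m : ℝ) ≤ κ * UU r + 1 := by
      rw [hm]
      exact (Nat.ceil_lt_add_one (by positivity)).le
    have hm2 : κ * UU r ≤ m := by
      rw [hm]
      exact Nat.le_ceil _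
    have m1 := hV (4 * r) w 0 (by omega) (by simp) (by omega) (by omega)
    have m2 := hU m r (by omega) hm1
    have m3 := blk_mass (S1 := Vb (4 * r) 0 w) (S2 := Um m r) (N := 10 * r) (fun V h => h.1.1) (fun V h => Ir_BU h.1)
      (fun V h V' h' X hX X' hX' he => Vb_pf h h' hX hX' he) (fun V h V' h' X hX X' hX' he => Ir_pf h.1 h'.1 hX hX' he)
      (fun V1 h1 V2 h2 => by
        have := h1.1.2.2.1
        have := h2.2.1
        omega)
    calc ENNReal.ofReal c ≤ ENNReal.ofReal c1 * ENNReal.ofReal c2 := by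
          rw [← ENNReal.ofReal_mul hc1.le]
          exact ENNReal.ofReal_le_ofReal hcc2
      _ ≤ gf (Vb (4 * r) 0 w) * gf (Um m r) := mul_le_mul' m1 m2
      _ ≤ _ := m3
      _ ≤ _ := by
          refine gf_mono ?_
          rintro B ⟨hB, V1, hV1, V2, hV2, X0, hX0, rfl⟩
          refine ⟨hB, fun X hX hbad => ?_⟩
          have h1 := free_cutsO (X := X0 ++ X) (F := vs A ∪ E) hY (TIP.BU_app hX0 hX)
            (fun q hq e1 e2 e3 => absurd e3 (not_le.2 (hbox q hq e1 e2))) h200 hV1.1 hV2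
          have h2 := hbad.2.2.2
          simp only [List.append_assoc] at h2 h1
          have h3 : ((m + 1 : ℕ) : ℝ) ≤ freeNO r (vs A ∪ E) A (Y ++ (V1 ++ (V2 ++ (X0 ++ X)))) := by exact_mod_cast h1
          push_cast at h3
          linarith

/-- **(UA) with a spectator** -/
theorem uaE : ∃ κ C : ℝ, ∃ r0 : ℕ, 0 < κ ∧ 0 < C ∧ ∀ (E : Set Pt) (A : List Bool) (r H : ℕ), r0 ≤ r → Obs r E →
    gf {Z | Z ∈ BU ∧ hgt Z ≤ H ∧ A ++ Z ∈ SAE E ∧ (freeNO r (vs A ∪ E) A Z : ℝ) < κ * UU r} ≤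
      ENNReal.ofReal (C * UU r) := by
  obtain ⟨c, κ, r0, hc, hc1, hκ, hF⟩ := forbO
  refine ⟨κ, 16 / c, r0 + 1, hκ, by positivity, fun E A r H hr hE => ?_⟩
  obtain ⟨N, hN⟩ : ∃ N, N = 10 * r := ⟨_, rfl⟩
  obtain ⟨S, hS⟩ : ∃ S : List Bool → Set (List Bool), S = fun Y => {Z | Z ∈ BU ∧ Y ++ Z ∈ BadO κ E A r H} := ⟨_, rfl⟩
  obtain ⟨Φ, hΦ⟩ : ∃ Φ : ℝ≥0∞, Φ = ⨆ Y : {Y : List Bool // Y ∈ BU}, gf (S Y.1) := ⟨_, rfl⟩
  have hSΦ : ∀ Y ∈ BU, gf (S Y) ≤ Φ := by
    intro Y hY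
    rw [hΦ]
    exact le_iSup (fun Y : {Y : List Bool // Y ∈ BU} => gf (S Y.1)) ⟨Y, hY⟩
  have hUN := Num2Aux.UU_pos N
  have hstep : ∀ Y ∈ BU, gf (S Y) ≤ ENNReal.ofReal (UU N) + (1 - ENNReal.ofReal c) * Φ := by
    intro Y hY
    obtain ⟨Al, hAl⟩ : ∃ Al : Set (List Bool), Al = {B | B ∈ LB.Bk N ∧ ∃ X ∈ BU, Y ++ (B ++ X) ∈ BadO κ E A r H} :=
      ⟨_, rfl⟩
    have h1 : gf Al ≤ 1 - ENNReal.ofReal c := by
      refine ENNReal.le_sub_of_add_le_right ENNReal.ofReal_ne_top ?_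
      refine (add_le_add le_rfl (hF E A Y r H (by omega) hE hY)).trans ?_
      rw [← gf_union]
      · refine (gf_mono ?_).trans (gf_Bk N)
        rw [hAl, hN]
        rintro B (hB | hB)
        · exact hB.1
        · exact hB.1
      · rw [Set.disjoint_left, hAl]
        rintro B ⟨-, X, hX, h2⟩ ⟨-, h3⟩
        exact h3 X hX h2
    have hsub : S Y ⊆ {Z | Z ∈ BU ∧ hgt Z ≤ N} ∪ {Z | ∃ B ∈ Al, ∃ Z' ∈ S (Y ++ B), Z = B ++ Z'} := by
      intro Z hZ
      rw [hS] at hZ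
      rcases Nat.lt_or_ge N (hgt Z) with h2 | h2
      · obtain ⟨B, hB, X', hX', he⟩ := first_Bk (hgt Z) N Z (TIP.BU_hgt hZ.1) h2
        have h3 := hZ.2
        rw [he] at h3
        refine Or.inr ⟨B, ?_, X', ?_, he⟩
        · rw [hAl]
          exact ⟨hB, X', hX', h3⟩
        · rw [hS]
          refine ⟨hX', ?_⟩
          show (Y ++ B) ++ X' ∈ BadO κ E A r H
          rw [List.append_assoc]
          exact h3
      · exact Or.inl ⟨hZ.1, h2⟩
    refine (gf_mono hsub).trans ((gf_union_le _ _).trans (add_le_add (gf_lowBU N) ?_))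
    refine (gf_dep (A := Al) (Q := fun B => S (Y ++ B)) (c := Φ) (fun t ht => ht) fun B hB => ?_).trans
      (mul_le_mul_left h1 _)
    rw [hAl] at hB
    exact hSΦ _ (TIP.BU_app hY (Bk_BU hB.1))
  have hfin : Φ ≤ ENNReal.ofReal (UU H) := by
    rw [hΦ]
    refine iSup_le fun Y => ?_
    refine (gf_mono ?_).trans (gf_lowBU H)
    intro Z hZ
    rw [hS] at hZ
    refine ⟨hZ.1, ?_⟩
    have h1 := hZ.2.2.1
    rw [hgt_app Y.2 hZ.1] at h1
    omega
  have hΦt : Φ ≠ ∞ := ne_top_of_le_ne_top ENNReal.ofReal_ne_top hfin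
  have hrec : Φ ≤ ENNReal.ofReal (UU N) + (1 - ENNReal.ofReal c) * Φ := by
    conv_lhs => rw [hΦ]
    exact iSup_le fun Y => hstep Y.1 Y.2
  obtain ⟨φ, hφ0, hφ⟩ : ∃ φ : ℝ, 0 ≤ φ ∧ Φ = ENNReal.ofReal φ := ⟨Φ.toReal, ENNReal.toReal_nonneg,
    (ENNReal.ofReal_toReal hΦt).symm⟩
  have hr2 : φ ≤ UU N + (1 - c) * φ := by
    rw [hφ, ← ENNReal.ofReal_one, ← ENNReal.ofReal_sub _ hc.le, ← ENNReal.ofReal_mul (by linarith),
      ← ENNReal.ofReal_add hUN.le (mul_nonneg (by linarith) hφ0),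
      ENNReal.ofReal_le_ofReal_iff (add_nonneg hUN.le (mul_nonneg (by linarith) hφ0))] at hrec
    exact hrec
  have hφ2 : φ ≤ UU N / c := by
    rw [le_div_iff₀ hc]
    nlinarith
  have hUN2 : UU N ≤ 16 * UU r := by
    have h1 := UU_double r
    have h2 := UU_double (2 * r)
    have h3 := UU_double (2 * (2 * r))
    have h4 := UU_double (2 * (2 * (2 * r)))
    have h5 := UU_mono (show N ≤ 2 * (2 * (2 * (2 * r))) by omega)
    linarith
  have hmain : gf (S []) ≤ ENNReal.ofReal (16 / c * UU r) := by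
    refine (hSΦ [] nil_BU).trans ?_
    rw [hφ]
    refine ENNReal.ofReal_le_ofReal (hφ2.trans ?_)
    rw [div_mul_eq_mul_div]
    exact div_le_div_of_nonneg_right hUN2 hc.le
  refine le_trans (gf_mono ?_) hmain
  intro Z hZ
  rw [hS]
  exact ⟨hZ.1, hZ⟩

/-! ### the hexagonal box -/

/-- no vertex of A and no point of E in the hexagonal box of radius r around the tip of A ++ Z1 -/
def FarO (E : Set Pt) (r : ℕ) (A Z1 : List Bool) : Prop := ∀ q ∈ vs A ∪ E, ¬ Bx6 r (q - tp (A ++ Z1))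

lemma le_frNO (E : Set Pt) (r : ℕ) (A Z : List Bool) : freeNO (3 * r + 2) (vs A ∪ E) A Z ≤ frN (FarO E r) A Z := by
  classical
  unfold frN freeNO
  obtain ⟨F, hF⟩ : ∃ F : Finset ℕ, F = (range (Z.length + 1)).filter fun j =>
    Z.take j ∈ BU ∧ Z.drop j ∈ BU ∧ FarO E r A (Z.take j) := ⟨_, rfl⟩
  have h2 : freeSO (3 * r + 2) (vs A ∪ E) A Z ⊆ ((F.image fun j => Z.drop j : Finset (List Bool)) : Set (List Bool)) := by
    rintro Z2 ⟨h1, Z1, h2, h3, h4⟩
    rw [mem_coe, mem_image]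
    refine ⟨Z1.length, ?_, ?_⟩
    · rw [hF, mem_filter, mem_range, h3, List.length_append, List.take_left, List.drop_left]
      exact ⟨by omega, h2, h1, fun q hq hB => h4 q hq (UaZ.Bx6_Bl hB)⟩
    · rw [h3, List.drop_left]
  have h3 := Set.ncard_le_ncard h2 (finite_toSet _)
  rw [Set.ncard_coe_finset] at h3
  refine h3.trans (card_image_le.trans (le_of_eq ?_))
  rw [hF]

/-- **(UA) with a spectator and the hexagonal box** -/
theorem uaO : ∃ (C κ : ℝ) (r0 : ℕ), 0 < C ∧ 0 < κ ∧ ∀ r, r0 ≤ r → ∀ (E : Set Pt), Obs (3 * (r : ℤ) + 2) E →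
    ∀ (H : ℕ) (A : List Bool), gf {Z | Z ∈ BU ∧ hgt Z ≤ H ∧ A ++ Z ∈ SAE E ∧ (frN (FarO E r) A Z : ℝ) < κ * UU r} ≤
      ENNReal.ofReal (C * UU r) := by
  obtain ⟨κ, C, r0, hκ, hC, h⟩ := uaE
  refine ⟨8 * C, κ, r0 + 1, by positivity, hκ, fun r hr E hE H A => ?_⟩
  have h1 := h E A (3 * r + 2) H (by omega) (by push_cast; exact hE)
  have hU := UU_mono (show r ≤ 3 * r + 2 by omega)
  refine (gf_mono ?_).trans (h1.trans (ENNReal.ofReal_le_ofReal ?_))
  · rintro Z ⟨a1, a2, a3, a4⟩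
    refine ⟨a1, a2, a3, ?_⟩
    have h2 : (freeNO (3 * r + 2) (vs A ∪ E) A Z : ℝ) ≤ frN (FarO E r) A Z := by exact_mod_cast le_frNO E r A Z
    have h3 : κ * UU r ≤ κ * UU (3 * r + 2) := mul_le_mul_of_nonneg_left hU hκ.le
    linarith
  · have h2 := UU_double r
    have h3 := UU_double (2 * r)
    have h4 := UU_double (2 * (2 * r))
    have h5 := UU_mono (show 3 * r + 2 ≤ 2 * (2 * (2 * r)) by omega)
    have h6 : UU (3 * r + 2) ≤ 8 * UU r := by linarith
    calc C * UU (3 * r + 2) ≤ C * (8 * UU r) := mul_le_mul_of_nonneg_left h6 hC.le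
      _ = 8 * C * UU r := by ring

end RMP

end HexObs
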