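import Pool.Agent.ARM.TipT
import Pool.Agent.RMP.UaO

/-!
RMP, row P1 (helper73), part 2: **the tip lemma for families of classes with a spectator E** (the words avoid E).
The proof is that of `ARM.tipT`.
-/

set_option autoImplicit false

namespace HexObs

namespace RMP

open Finset TS SDN NTW NTA HexObs.SIM TIP TIW ARM

open scoped ENNReal

open Classical in
/-- **one step of the recursion**, for an arbitrary class S of words; Big: the ends that are too large; X 0: the words before a small end; X i, Wd i, i >= 1: the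
classes of the large ends; P': the words that are left if the end Z2 of a small bridge Z1 ++ Z2 is cut off -/
theorem stepO (Fr : List Bool → List Bool → Prop) {S P P' Big : Set (List Bool)} {X Wd : ℕ → Set (List Bool)} {b : ℕ}
    {η κ : ℝ} {E : ℝ≥0∞} {w : ℕ → ℝ≥0∞} (hsa : P ⊆ S)
    (h0 : ∀ A Z, A ++ Z ∈ P → Z ∈ BU → hgt Z ≤ 2 ^ (b + 1) → Z ∉ Big → A ∈ X 0)
    (h1 : ∀ A Z1 Z2, A ++ (Z1 ++ Z2) ∈ P → Z1 ∈ BU → Z2 ∈ BU → hgt (Z1 ++ Z2) ≤ 2 ^ (b + 1) → Z1 ++ Z2 ∉ Big →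
      A ++ Z1 ∈ P')
    (h2 : ∀ A Z, A ++ Z ∈ P → Z ∈ BU → hgt Z ≤ 2 ^ (b + 1) → Z ∈ Big → ∃ i, A ∈ X (i + 1) ∧ Z ∈ Wd (i + 1))
    (hη : 0 < η) (hκ : 0 < κ)
    (hUA : ∀ A, gf {Z | Z ∈ BU ∧ hgt Z ≤ 2 ^ (b + 1) ∧ A ++ Z ∈ S ∧ (frN Fr A Z : ℝ) < κ} ≤ E)
    (hw : ∀ i, gf {Z | Z ∈ BU ∧ hgt Z ≤ 2 ^ (b + 1) ∧ Z ∈ Wd (i + 1)} ≤ w (i + 1)) :
    gf (P ∩ GT (b + 1) η) ≤ ENNReal.ofReal (4 / (η * Ub (b + 1))) * (gf (X 0 ∩ GT b (η / 8)) * E +
      ∑' i, gf (X (i + 1) ∩ GT b (η / 8)) * w (i + 1)) +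
      ENNReal.ofReal (Ub (b + 1) / κ) * gf (FT Fr P' (b + 1)) := by
  have hU : (0 : ℝ) < Ub (b + 1) := Ub_pos (b + 1)
  -- exceptional rich cuts
  obtain ⟨Ex, hEx⟩ : ∃ Ex : List Bool → ℕ → Prop, Ex = fun L j => L.take j ∈ GT b (η / 8) ∧
    ((frN Fr (L.take j) (L.drop j) : ℝ) < κ ∨ L.drop j ∈ Big) := ⟨_, rfl⟩
  obtain ⟨G1, hG1⟩ : ∃ G1 : Set (List Bool), G1 = {L | L ∈ P ∧ L ∈ GT (b + 1) η ∧
    η / 4 * Ub (b + 1) ≤ (((cs (b + 1) L).filter (Ex L)).card : ℝ)} := ⟨_, rfl⟩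
  obtain ⟨G2, hG2⟩ : ∃ G2 : Set (List Bool), G2 = {L | L ∈ P ∧ L ∈ GT (b + 1) η ∧
    ¬ η / 4 * Ub (b + 1) ≤ (((cs (b + 1) L).filter (Ex L)).card : ℝ)} := ⟨_, rfl⟩
  have hcov : P ∩ GT (b + 1) η ⊆ G1 ∪ G2 := by
    rintro L ⟨hL1, hL2⟩
    by_cases h : η / 4 * Ub (b + 1) ≤ (((cs (b + 1) L).filter (Ex L)).card : ℝ)
    · exact Or.inl (by rw [hG1]; exact ⟨hL1, hL2, h⟩)
    · exact Or.inr (by rw [hG2]; exact ⟨hL1, hL2, h⟩)
  -- the first part
  have k0 : ENNReal.ofReal (η / 4 * Ub (b + 1)) * gf G1 ≤ gf (X 0 ∩ GT b (η / 8)) * E +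
      ∑' i, gf (X (i + 1) ∩ GT b (η / 8)) * w (i + 1) := by
    obtain ⟨Y, hY⟩ : ∃ Y : ℕ → List Bool → Set (List Bool), Y = fun i A => if i = 0 then
      {Z | Z ∈ BU ∧ hgt Z ≤ 2 ^ (b + 1) ∧ A ++ Z ∈ S ∧ (frN Fr A Z : ℝ) < κ} else
      {Z | Z ∈ BU ∧ hgt Z ≤ 2 ^ (b + 1) ∧ Z ∈ Wd i} := ⟨_, rfl⟩
    obtain ⟨m, hm⟩ : ∃ m : ℕ → ℝ≥0∞, m = fun i => if i = 0 then E else w i := ⟨_, rfl⟩
    have key := dcI (G := G1) (X := fun i => X i ∩ GT b (η / 8)) (Y := Y) (M := m)
      (c := ENNReal.ofReal (η / 4 * Ub (b + 1))) (fun i A _ => by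
        rw [hY, hm]
        rcases i with _ | i
        · exact hUA A
        · exact hw i) (fun L hL => by
        rw [hG1] at hL
        obtain ⟨hL1, -, hL3⟩ := hL
        refine ⟨(cs (b + 1) L).filter (Ex L), ?_, fun q hq => ?_⟩
        · rw [← ENNReal.ofReal_natCast]
          exact ENNReal.ofReal_le_ofReal hL3
        · rw [mem_filter] at hq
          obtain ⟨hq1, hq2⟩ := hq
          rw [hEx] at hq2
          obtain ⟨hq3, hq4⟩ := hq2
          obtain ⟨c1, c2, c3, -⟩ := mem_cs.1 hq1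
          have hL4 : L.take q ++ L.drop q ∈ P := by rwa [List.take_append_drop]
          refine ⟨c1, ?_⟩
          by_cases hbig : L.drop q ∈ Big
          · obtain ⟨i, hi1, hi2⟩ := h2 _ _ hL4 c2 c3 hbig
            refine ⟨i + 1, ⟨hi1, hq3⟩, ?_⟩
            rw [hY]
            exact ⟨c2, c3, hi2⟩
          · refine ⟨0, ⟨h0 _ _ hL4 c2 c3 hbig, hq3⟩, ?_⟩
            rw [hY]
            exact ⟨c2, c3, hsa hL4, hq4.resolve_right hbig⟩)
    refine key.trans (le_of_eq ?_)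
    rw [tsum_eq_zero_add' ENNReal.summable]
    rw [hm]
    rfl
  -- the second part
  have h3 : ENNReal.ofReal κ * gf G2 ≤ gf (FT Fr P' (b + 1)) * ENNReal.ofReal (Ub (b + 1)) := by
    refine dc (Y := fun _ => {Z | ∃ n, n ≤ 2 ^ (b + 1) ∧ Z ∈ Brd n}) (fun A _ => gf_BU_le _) fun L hL => ?_
    rw [hG2] at hL
    obtain ⟨hL1, hL2, hL3⟩ := hL
    -- a rich cut with many free cuts
    obtain ⟨j, hj, hjw, hjk⟩ : ∃ j ∈ cs (b + 1) L, L.drop j ∉ Big ∧ κ ≤ (frN Fr (L.take j) (L.drop j) : ℝ) := by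
      by_contra hcon
      have hsub : cs (b + 1) L ⊆ ((cs (b + 1) L).filter fun j => L.take j ∉ GT b (η / 8)) ∪
          (cs (b + 1) L).filter (Ex L) := by
        intro j hj
        rw [mem_union, mem_filter, mem_filter]
        by_cases hr : L.take j ∈ GT b (η / 8)
        · refine Or.inr ⟨hj, ?_⟩
          rw [hEx]
          refine ⟨hr, ?_⟩
          by_contra h3
          obtain ⟨h4, h5⟩ := not_or.1 h3
          exact hcon ⟨j, hj, h5, not_lt.1 h4⟩
        · exact Or.inl ⟨hj, hr⟩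
      have h3 := (card_le_card hsub).trans (card_union_le _ _)
      have h4 : ((cs (b + 1) L).card : ℝ) ≤ (((cs (b + 1) L).filter fun j => L.take j ∉ GT b (η / 8)).card : ℝ) +
          (((cs (b + 1) L).filter (Ex L)).card : ℝ) := by exact_mod_cast h3
      have h5 : η * Ub (b + 1) ≤ ((cs (b + 1) L).card : ℝ) := hL2
      have h6 := rich' b η L hη
      have h7 : 0 < η * Ub (b + 1) := by positivity
      have h8 := not_le.1 hL3
      linarith
    obtain ⟨c1, c2, c3, c4⟩ := mem_cs.1 hj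
    -- the free cuts as cuts of L
    refine ⟨(((range ((L.drop j).length + 1)).filter fun i => (L.drop j).take i ∈ BU ∧ (L.drop j).drop i ∈ BU ∧
      Fr (L.take j) ((L.drop j).take i)).image fun i => j + i), ?_, fun q hq => ?_⟩
    · rw [card_image_of_injective _ (fun x y h => Nat.add_left_cancel h), ← ENNReal.ofReal_natCast]
      exact ENNReal.ofReal_le_ofReal hjk
    · obtain ⟨i, hi, rfl⟩ := mem_image.1 hq
      rw [mem_filter, mem_range, List.length_drop] at hi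
      obtain ⟨i1, i2, i3, i4⟩ := hi
      have e1 : L.take (j + i) = L.take j ++ (L.drop j).take i := by rw [List.take_add]
      have e2 : L.drop (j + i) = (L.drop j).drop i := by rw [List.drop_drop]
      have e3 : hgt (L.drop j) = hgt ((L.drop j).take i) + hgt ((L.drop j).drop i) := by
        have := hgt_eq (Brd_append (TIP.BU_hgt i2) (TIP.BU_hgt i3))
        rwa [List.take_append_drop] at this
      have e4 : L.take (j + i) ∈ P' := by
        rw [e1]
        refine h1 (L.take j) ((L.drop j).take i) ((L.drop j).drop i) ?_ i2 i3 ?_ ?_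
        · rw [List.take_append_drop, List.take_append_drop]
          exact hL1
        · rw [List.take_append_drop]
          exact c3
        · rw [List.take_append_drop]
          exact hjw
      refine ⟨by omega, ⟨e4, L.take j, (L.drop j).take i, e1, c4, i2, by omega, i4⟩, ?_⟩
      rw [e2]
      exact ⟨_, by omega, TIP.BU_hgt i3⟩
  -- the sum
  have k1 : gf G1 ≤ ENNReal.ofReal (4 / (η * Ub (b + 1))) * (gf (X 0 ∩ GT b (η / 8)) * E +
      ∑' i, gf (X (i + 1) ∩ GT b (η / 8)) * w (i + 1)) := by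
    have e : ENNReal.ofReal (4 / (η * Ub (b + 1))) * ENNReal.ofReal (η / 4 * Ub (b + 1)) = 1 := by
      rw [← ENNReal.ofReal_mul (by positivity), ← ENNReal.ofReal_one]
      congr 1
      field_simp
    calc gf G1 = ENNReal.ofReal (4 / (η * Ub (b + 1))) * (ENNReal.ofReal (η / 4 * Ub (b + 1)) * gf G1) := by
          rw [← mul_assoc, e, one_mul]
      _ ≤ _ := mul_le_mul_right k0 _
  have k2 : gf G2 ≤ ENNReal.ofReal (Ub (b + 1) / κ) * gf (FT Fr P' (b + 1)) := by
    have e : ENNReal.ofReal κ⁻¹ * ENNReal.ofReal κ = 1 := by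
      rw [← ENNReal.ofReal_mul (by positivity), ← ENNReal.ofReal_one]
      congr 1
      field_simp
    calc gf G2 = ENNReal.ofReal κ⁻¹ * (ENNReal.ofReal κ * gf G2) := by rw [← mul_assoc, e, one_mul]
      _ ≤ ENNReal.ofReal κ⁻¹ * (gf (FT Fr P' (b + 1)) * ENNReal.ofReal (Ub (b + 1))) := mul_le_mul_right h3 _
      _ = _ := by
          rw [mul_comm (gf (FT Fr P' (b + 1))), ← mul_assoc, ← ENNReal.ofReal_mul (by positivity)]
          congr 2
          rw [div_eq_mul_inv, mul_comm]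
  exact (gf_mono hcov).trans ((gf_union_le _ _).trans (add_le_add k1 k2))

/-! ### the gluing -/

/-- the glued word avoids E -/
lemma glue_SAE {E : Set Pt} {r R N : ℕ} {A Z e : List Bool} (hL : A ++ Z ∈ SAE E) (hZ : Z ∈ BU) (hF : FarO E r A Z)
    (he : e ∈ BAR.NA N) (hb : BX R e) (hR : 2 * R + 1 ≤ r) : (A ++ Z) ++ e ∈ SAE E := by
  refine ⟨M3a.glue_SA hL.1 hZ (fun i hi => hF _ (Or.inl ⟨i, hi, rfl⟩)) he hb hR, fun k hk => ?_⟩
  rw [List.length_append] at hk
  rcases Nat.lt_or_ge (A ++ Z).length k with h1 | h1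
  · obtain ⟨j, rfl⟩ : ∃ j, k = (A ++ Z).length + j := ⟨k - (A ++ Z).length, by omega⟩
    intro h
    refine hF _ (Or.inr h) ?_
    have h4 : vx oo up ((A ++ Z) ++ e) ((A ++ Z).length + j) = tp (A ++ Z) + mulE (UaA.uA (A ++ Z)) (vx oo up e j) := by
      rw [vx_general]
      rfl
    rw [h4, add_sub_cancel_left]
    exact M3a.bx6_of (UaA.nrm_uA _) hR (fun dir => hb j (by omega) dir)
  · rw [vx_append (by omega)]
    exact hL.2 k h1

/-- **the gluing**: only short narrow words -/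
theorem glueO : ∃ (C : ℝ) (k0 : ℕ), 0 < C ∧ ∀ (E : Set Pt) (P : Set (List Bool)) (M : ℝ≥0∞) (b k r : ℕ), P ⊆ SAE E →
    gf {t | t ∈ SAE E ∧ ∃ L ∈ P, ∃ e, ShE k e ∧ t = L ++ e} ≤ M → k0 ≤ k → 2 ^ (k + 1) + 1 ≤ r → 4 * r ≤ 2 ^ b →
      gf (FT (FarO E r) P b) * Xb k ≤ ENNReal.ofReal C * M := by
  obtain ⟨c, k0, hc, hmass⟩ := shE_mass
  refine ⟨6 / c, k0, by positivity, fun E P M b k r hsa hgl hk0 hr1 hr => ?_⟩
  have h0 : 2 ^ (k + 1) = 2 * 2 ^ k := by
    rw [pow_succ]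
    ring
  have hkb : k + 1 ≤ b := by
    by_contra hcon
    have h1 : 2 ^ b ≤ 2 ^ k := Nat.pow_le_pow_right (by norm_num) (by omega)
    omega
  obtain ⟨T, hT⟩ : ∃ T : Set (List Bool), T = {e | ShE k e} := ⟨_, rfl⟩
  have hsub : FT (FarO E r) P b ⊆ ⋃ d ∈ dirs, {L | L ∈ FT (FarO E r) P b ∧ tipd L = d} := by
    intro L hL
    rw [Set.mem_iUnion₂]
    exact ⟨tipd L, tipd_mem L, hL, rfl⟩
  have hone : ∀ d ∈ dirs, gf {L | L ∈ FT (FarO E r) P b ∧ tipd L = d} * gf T ≤ M := by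
    intro d _
    refine le_trans (M3a.gf_mul_inj ?_ ?_) hgl
    · rintro L ⟨⟨hLP, A, Z, rfl, -, hZ, -, hF⟩, -⟩ e he
      rw [hT] at he
      exact ⟨glue_SAE (hsa hLP) hZ hF he.1 he.2.1 (by omega), A ++ Z, hLP, e, he, rfl⟩
    · rintro L ⟨hL, hLd⟩ L' ⟨hL', hLd'⟩ e he e' he' h
      rw [hT] at he he'
      have q : ∀ {L : List Bool}, L ∈ FT (FarO E r) P b → ∃ A Z, L = A ++ Z ∧ OnB b A ∧ Z ∈ BU := by
        rintro L ⟨-, A, Z, h1, h2, h3, -⟩
        exact ⟨A, Z, h1, h2, h3⟩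
      rcases Nat.le_total L.length L'.length with hle | hle
      · exact M3a.uniq hkb (q hL') he.1 (BAR.pos_SSt he'.1.1) (hLd.trans hLd'.symm) h hle
      · exact (M3a.uniq hkb (q hL) he'.1 (BAR.pos_SSt he.1.1) (hLd'.trans hLd.symm) h.symm hle).symm
  have h3 : gf (FT (FarO E r) P b) * gf T ≤ 6 * M := by
    calc gf (FT (FarO E r) P b) * gf T ≤ (∑ d ∈ dirs, gf {L | L ∈ FT (FarO E r) P b ∧ tipd L = d}) * gf T :=
          mul_le_mul' ((gf_mono hsub).trans (BAR.gf_bi_le _ _)) le_rfl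
      _ = ∑ d ∈ dirs, gf {L | L ∈ FT (FarO E r) P b ∧ tipd L = d} * gf T := sum_mul _ _ _
      _ ≤ ∑ _d ∈ dirs, M := sum_le_sum hone
      _ = 6 * M := by
          rw [sum_const, nsmul_eq_mul]
          rfl
  have h6 : Xb k ≤ ENNReal.ofReal (1 / c) * gf T := by
    calc Xb k = ENNReal.ofReal (1 / c) * (ENNReal.ofReal c * Xb k) := by
          rw [← mul_assoc, ← ENNReal.ofReal_mul (by positivity), one_div, inv_mul_cancel₀ hc.ne', ENNReal.ofReal_one, one_mul]
      _ ≤ _ := mul_le_mul' le_rfl (by rw [hT]; exact hmass k hk0)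
  calc gf (FT (FarO E r) P b) * Xb k ≤ gf (FT (FarO E r) P b) * (ENNReal.ofReal (1 / c) * gf T) := mul_le_mul' le_rfl h6
    _ = ENNReal.ofReal (1 / c) * (gf (FT (FarO E r) P b) * gf T) := by ring
    _ ≤ ENNReal.ofReal (1 / c) * (6 * M) := mul_le_mul' le_rfl h3
    _ = ENNReal.ofReal (6 / c) * M := by
        rw [← mul_assoc]
        congr 1
        rw [show (6 : ℝ) / c = 1 / c * 6 by ring, ENNReal.ofReal_mul (by positivity)]
        norm_num

/-! ### the tip lemma -/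

/-- families of classes with a spectator E: t = the size of what has been removed, in units of the scale m -/
structure EnsO (E : Set Pt) (P : ℕ → Set (List Bool)) (M : ℕ → ℝ≥0∞) (m : ℕ) (B : ℝ) : Prop where
  sa : ∀ t, P t ⊆ SAE E
  pre : ∀ t s A Z, A ++ Z ∈ P t → Z ∈ BU → hgt Z ≤ 2 ^ m → Sz m (2 ^ s) Z → A ∈ P (t + 2 ^ s)
  tot : ∀ t, gf (P t) ≤ M t
  glue : ∀ t k, k ≤ m → gf {T | T ∈ SAE E ∧ ∃ L ∈ P t, ∃ e, ShE k e ∧ T = L ++ e} ≤ M t
  grow : ∀ t s, M (t + 2 ^ s) ≤ ENNReal.ofReal (B ^ (s + 1)) * M t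

/-- **the tip lemma for families with sizes and a spectator** -/
theorem tipO (η0 B : ℝ) (hη0 : 0 < η0) (hB : 1 ≤ B) : ∃ C : ℝ, 0 < C ∧ ∀ (E : Set Pt) (P : ℕ → Set (List Bool))
    (M : ℕ → ℝ≥0∞) (m b0 : ℕ), EnsO E P M m B → Obs (2 ^ b0) E → ∀ b t : ℕ, b ≤ m → b ≤ b0 →
    gf (P t ∩ GT b η0) * Xb b ≤ ENNReal.ofReal C * M t := by
  obtain ⟨η, hη, hη1, hηle⟩ : ∃ η : ℝ, 0 < η ∧ η ≤ 1 ∧ η ≤ η0 := ⟨min η0 1, lt_min hη0 one_pos, min_le_right _ _, min_le_left _ _⟩
  obtain ⟨CU, κ0, r0, hCU, hκ0, hUA⟩ := uaO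
  obtain ⟨C0, k0, hC0, hM3⟩ := glueO
  obtain ⟨CX, hCX, hX⟩ := XDbl.pow xDbl
  obtain ⟨X0, hX0, hX0'⟩ : ∃ X0 : ℝ, 0 ≤ X0 ∧ Xb 0 = ENNReal.ofReal X0 :=
    ⟨(Xb 0).toReal, ENNReal.toReal_nonneg, (ENNReal.ofReal_toReal (Xb_ne_top 0)).symm⟩
  obtain ⟨Bu, hBu⟩ := Ub_big
  obtain ⟨Q, hQ⟩ := pow_unbounded_of_one_lt (4 * B) (one_lt_two (α := ℝ))
  obtain ⟨A1, hA1, hsz⟩ := sz_tail Q
  have hB0 : 0 < B := by linarith
  obtain ⟨lam0, hlam0⟩ : ∃ lam0 : ℝ, lam0 = (2 : ℝ) ^ kap0 := ⟨_, rfl⟩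
  have hlam01 : 1 < lam0 := by
    rw [hlam0]
    exact Real.one_lt_rpow (by norm_num) kap0_pos
  obtain ⟨p, hp⟩ := pow_unbounded_of_one_lt (2 * B) hlam01
  obtain ⟨C1, hC1⟩ : ∃ C1 : ℝ, C1 = CX + X0 + 1 := ⟨_, rfl⟩
  obtain ⟨e0, he0⟩ : ∃ e0 : ℕ, e0 = r0 + k0 + 3 := ⟨_, rfl⟩
  obtain ⟨Y, hY⟩ : ∃ Y : ℝ, Y = 4 / κ0 * CX ^ 4 * C0 * B ^ 2 := ⟨_, rfl⟩
  obtain ⟨Cc, hCc⟩ : ∃ Cc : ℝ, Cc = C1 ^ (p + e0 + 3) + (8 * CU * CX * B + 8 * B ^ 2 * A1 * CX) +
    (Y + 1) * ((2 * CX) ^ p * B) + C1 := ⟨_, rfl⟩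
  have hC11 : 1 ≤ C1 := by linarith
  have hY0 : 0 ≤ Y := by rw [hY]; positivity
  have q0 : 0 ≤ (2 * CX) ^ p * B := by positivity
  have q1 : 0 ≤ C1 ^ (p + e0 + 3) := by positivity
  have q2 : 0 ≤ 8 * CU * CX * B + 8 * B ^ 2 * A1 * CX := by positivity
  have q3 : 0 ≤ (Y + 1) * ((2 * CX) ^ p * B) := by positivity
  have hCc1 : 1 ≤ Cc := by linarith
  have p1 : C1 ^ (p + e0 + 3) ≤ Cc := by linarith
  have p2 : 8 * CU * CX * B + 8 * B ^ 2 * A1 * CX ≤ Cc := by linarith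
  have p3 : (Y + 1) * ((2 * CX) ^ p * B) ≤ Cc := by linarith
  have p4 : C1 ≤ Cc := by linarith
  obtain ⟨A, hA, hiter⟩ := iter hCc1 (one_lt_two (α := ℝ)) Bu hη hη1
  refine ⟨A + 1, by linarith, fun E P M m b0 hP hE b t hbm0 hbb0 => ?_⟩
  obtain ⟨m', hm'1, hm'2, hb⟩ : ∃ m' : ℕ, m' ≤ m ∧ m' ≤ b0 ∧ b ≤ m' := ⟨min m b0, min_le_left _ _, min_le_right _ _,
    le_min hbm0 hbb0⟩
  have hXall : ∀ b, Xb b ≤ ENNReal.ofReal (C1 ^ (b + 1)) := by
    intro b
    have h1 := hX 0 b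
    rw [zero_add, hX0', ← ENNReal.ofReal_mul (by positivity)] at h1
    refine h1.trans (ENNReal.ofReal_le_ofReal ?_)
    rw [pow_succ]
    have h2 : CX ^ b ≤ C1 ^ b := pow_le_pow_left₀ (by linarith) (by linarith) _
    have h3 : X0 ≤ C1 := by linarith
    exact mul_le_mul h2 h3 hX0 (by positivity)
  obtain ⟨D, hD⟩ : ∃ D : ℕ → ℝ → ℝ≥0∞, D = fun b η' => if b ≤ m' then ⨆ t, gf (P t ∩ GT b η') * Xb b * (M t)⁻¹ else 0 :=
    ⟨_, rfl⟩
  have hDle : ∀ (b : ℕ) (η' : ℝ) (t : ℕ), b ≤ m' → M t ≠ ⊤ → gf (P t ∩ GT b η') * Xb b ≤ D b η' * M t := by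
    intro b η' t hb hMt
    rcases eq_or_ne (M t) 0 with hM0 | hM0
    · have h1 : gf (P t ∩ GT b η') = 0 :=
        le_antisymm ((gf_mono Set.inter_subset_left).trans ((hP.tot t).trans hM0.le)) zero_le
      rw [h1, zero_mul]
      exact zero_le
    · have h1 : gf (P t ∩ GT b η') * Xb b * (M t)⁻¹ ≤ D b η' := by
        rw [hD]
        show _ ≤ if b ≤ m' then _ else _
        rw [if_pos hb]
        exact le_iSup (fun t => gf (P t ∩ GT b η') * Xb b * (M t)⁻¹) t
      calc gf (P t ∩ GT b η') * Xb b = gf (P t ∩ GT b η') * Xb b * (M t)⁻¹ * M t := by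
            rw [mul_assoc _ (M t)⁻¹, ENNReal.inv_mul_cancel hM0 hMt, mul_one]
        _ ≤ _ := mul_le_mul_left h1 _
  have hcr : ∀ (b : ℕ) (η' : ℝ), D b η' ≤ ENNReal.ofReal (C1 ^ (b + 1)) := by
    intro b η'
    rw [hD]
    by_cases h : b ≤ m'
    · show (if b ≤ m' then _ else _) ≤ _
      rw [if_pos h]
      refine iSup_le fun t => ?_
      calc gf (P t ∩ GT b η') * Xb b * (M t)⁻¹ ≤ M t * ENNReal.ofReal (C1 ^ (b + 1)) * (M t)⁻¹ := by
            gcongr
            · exact (gf_mono Set.inter_subset_left).trans (hP.tot t)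
            · exact hXall b
        _ = ENNReal.ofReal (C1 ^ (b + 1)) * (M t * (M t)⁻¹) := by ring
        _ ≤ ENNReal.ofReal (C1 ^ (b + 1)) * 1 := mul_le_mul' le_rfl (ENNReal.mul_inv_le_one _)
        _ = _ := mul_one _
    · show (if b ≤ m' then _ else _) ≤ _
      rw [if_neg h]
      exact zero_le
  have hfin : D b η ≤ ENNReal.ofReal A := by
    refine hiter Ub D hBu (fun b η' _ => ?_) (fun b η' j hη' hη'1 _ hj hjb => ?_) b
    · exact (hcr b η').trans (ENNReal.ofReal_le_ofReal (pow_le_pow_left₀ (by linarith) p4 _))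
    · by_cases hbm : b ≤ m'
      swap
      · rw [hD]
        show (if b ≤ m' then _ else _) ≤ _
        rw [if_neg hbm]
        exact zero_le
      by_cases hbj : b < p * j + 2 + e0
      · -- few scales
        refine le_trans ?_ le_add_self
        refine (hcr b η').trans (ENNReal.ofReal_le_ofReal ?_)
        have h1 : C1 ^ (b + 1) ≤ (C1 ^ (p + e0 + 3)) ^ j := by
          rw [← pow_mul]
          refine pow_le_pow_right₀ hC11 ?_
          nlinarith
        have h2 : (C1 ^ (p + e0 + 3)) ^ j ≤ Cc ^ j := pow_le_pow_left₀ q1 p1 _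
        have h3 : Cc ^ j ≤ Cc ^ j / η' := by
          rw [le_div_iff₀ hη']
          have : 0 ≤ Cc ^ j := by positivity
          nlinarith
        linarith
      · -- the main case
        obtain ⟨e, he⟩ : ∃ e, b = e + (p * j + 2) := ⟨b - (p * j + 2), by omega⟩
        obtain ⟨k, hk⟩ : ∃ k, e = k + 2 := ⟨e - 2, by omega⟩
        obtain ⟨b', hb'⟩ : ∃ b', b = b' + 1 := ⟨b - 1, by omega⟩
        have hr0 : r0 ≤ 2 ^ e := by
          have h1 : r0 < 2 ^ r0 := Nat.lt_two_pow_self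
          have h2 : (2 : ℕ) ^ r0 ≤ 2 ^ e := Nat.pow_le_pow_right (by norm_num) (by omega)
          omega
        have hUe : (0 : ℝ) < Ub e := Ub_pos e
        have hUe' : (0 : ℝ) < UU (2 ^ e) := hUe
        have hUbb : (0 : ℝ) < Ub b := Ub_pos b
        have hXb1 : Xb b ≤ ENNReal.ofReal CX * Xb b' := by
          have := hX b' 1
          rwa [← hb', pow_one] at this
        have hXb2 : Xb b ≤ ENNReal.ofReal (CX ^ (p * j + 4)) * Xb k := by
          have := hX k (p * j + 4)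
          rwa [show k + (p * j + 4) = b by omega] at this
        have hpj : lam0 ^ (p * j) = (lam0 ^ p) ^ j := pow_mul _ _ _
        have hrat0 : Ub e / Ub b ≤ 2 * ((2 * B) ^ j)⁻¹ := by
          have hrat := GB.Ub_ratio_down (show e ≤ b by omega)
          have h1 : (2 : ℝ) ^ (-(kap0 * ((b : ℝ) - e))) ≤ ((2 * B) ^ j)⁻¹ := by
            have h2 : (2 : ℝ) ^ (-(kap0 * ((b : ℝ) - e))) ≤ (lam0 ^ (p * j))⁻¹ := by
              rw [hlam0, ← Real.rpow_natCast, ← Real.rpow_mul (by norm_num), ← Real.rpow_neg (by norm_num)]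
              refine Real.rpow_le_rpow_of_exponent_le (by norm_num) ?_
              have : (b : ℝ) = e + (((p * j : ℕ) : ℝ) + 2) := by rw [he]; push_cast; ring
              have := kap0_pos
              nlinarith
            refine h2.trans ?_
            rw [hpj]
            gcongr
          linarith
        rw [show D b η' = ⨆ t, gf (P t ∩ GT b η') * Xb b * (M t)⁻¹ by rw [hD]; exact if_pos hbm]
        refine iSup_le fun t => ?_
        rcases eq_or_ne (M t) ⊤ with hMt | hMt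
        · rw [hMt, ENNReal.inv_top, mul_zero]
          exact zero_le
        rcases eq_or_ne (M t) 0 with hM0 | hM0
        · have h1 : gf (P t ∩ GT b η') = 0 :=
            le_antisymm ((gf_mono Set.inter_subset_left).trans ((hP.tot t).trans hM0.le)) zero_le
          rw [h1, zero_mul, zero_mul]
          exact zero_le
        have hMI : M t * (M t)⁻¹ = 1 := ENNReal.mul_inv_cancel hM0 hMt
        have hMgt : ∀ s, M (t + 2 ^ s) ≠ ⊤ := fun s =>
          ne_top_of_le_ne_top (ENNReal.mul_ne_top ENNReal.ofReal_ne_top hMt) (hP.grow t s)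
        have hpowb : (2 : ℕ) ^ b ≤ 2 ^ m := Nat.pow_le_pow_right (by norm_num) (hbm.trans hm'1)
        have hEe : Obs (3 * ((2 ^ e : ℕ) : ℤ) + 2) E := by
          refine hE.mono ?_
          have h1 : (2 : ℤ) ^ (e + 2) ≤ 2 ^ b0 := pow_le_pow_right₀ (by norm_num) (by omega)
          have h2 : (2 : ℤ) ^ 1 ≤ 2 ^ e := pow_le_pow_right₀ (by norm_num) (by omega)
          rw [pow_add] at h1
          push_cast
          linarith
        have hst := stepO (FarO E (2 ^ e)) (S := SAE E) (P := P t) (P' := P (t + 2 ^ (j + 1))) (Big := {Z | ¬ Sz m (2 ^ j) Z})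
          (X := fun i => P (t + 2 ^ (j + i))) (Wd := fun i => {Z | ¬ Sz m (2 ^ (j + i - 1)) Z}) (b := b') (η := η')
          (κ := κ0 * UU (2 ^ e)) (E := ENNReal.ofReal (CU * UU (2 ^ e)))
          (w := fun i => ENNReal.ofReal (A1 / ((2 : ℝ) ^ (j + i - 1)) ^ Q * Ub b)) (hP.sa t)
          (fun A Z h1 h2 h3 h4 => hP.pre t j A Z h1 h2 (by rw [← hb'] at h3; exact h3.trans hpowb) (not_not.1 h4))
          (fun A Z1 Z2 h1 h2 h3 h4 h5 => by
            refine hP.pre t (j + 1) (A ++ Z1) Z2 (by rwa [List.append_assoc]) h3 ?_ ?_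
            · rw [hgt_eq (Brd_append (TIP.BU_hgt h2) (TIP.BU_hgt h3)), ← hb'] at h4
              omega
            · have h6 := sz_drop (not_not.1 h5)
              rw [pow_succ, mul_comm]
              exact h6)
          (fun A Z h1 h2 h3 h4 => by
            classical
            have hex := sz_ex m Z
            obtain ⟨s, hs1, hs2⟩ : ∃ s, Sz m (2 ^ s) Z ∧ ∀ s', s' < s → ¬ Sz m (2 ^ s') Z :=
              ⟨Nat.find hex, Nat.find_spec hex, fun s' hs' => Nat.find_min hex hs'⟩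
            have hs3 : j < s := by
              by_contra hcon
              exact h4 (hs1.mono (pow_le_pow_right₀ (by norm_num) (by omega)))
            refine ⟨s - (j + 1), ?_, ?_⟩
            · show A ∈ P (t + 2 ^ (j + (s - (j + 1) + 1)))
              rw [show j + (s - (j + 1) + 1) = s by omega]
              exact hP.pre t s A Z h1 h2 (by rw [← hb'] at h3; exact h3.trans hpowb) hs1
            · show ¬ Sz m (2 ^ (j + (s - (j + 1) + 1) - 1)) Z
              exact hs2 _ (by omega))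
          hη' (mul_pos hκ0 hUe') (fun A => hUA (2 ^ e) hr0 E hEe (2 ^ (b' + 1)) A)
          (fun i => by
            rw [← hb']
            exact hsz b m _ (hbm.trans hm'1) (one_le_pow₀ (by norm_num)))
        rw [← hb'] at hst
        have hgl := hM3 E (P (t + 2 ^ (j + 1))) (M (t + 2 ^ (j + 1))) b k (2 ^ e) (hP.sa _) (hP.glue _ k (by omega))
          (by omega) (by
            rw [hk, show k + 2 = (k + 1) + 1 by ring, pow_succ 2 (k + 1)]
            have : 1 ≤ 2 ^ (k + 1) := Nat.one_le_two_pow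
            omega) (by
            have h1 : (4 : ℕ) * 2 ^ e = 2 ^ (e + 2) := by ring
            rw [h1]
            exact Nat.pow_le_pow_right (by norm_num) (by omega))
        -- the masses of the classes
        have hXi : ∀ i, gf (P (t + 2 ^ (j + i)) ∩ GT b' (η' / 8)) * Xb b' ≤
            D (b - 1) (η' / 8) * (ENNReal.ofReal (B ^ (j + i + 1)) * M t) := by
          intro i
          rw [show b - 1 = b' by omega]
          exact (hDle b' (η' / 8) _ (by omega) (hMgt _)).trans (mul_le_mul_right (hP.grow t (j + i)) _)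
        -- the first part
        have hfirst : (gf (P (t + 2 ^ (j + 0)) ∩ GT b' (η' / 8)) * ENNReal.ofReal (CU * UU (2 ^ e)) +
            ∑' i, gf (P (t + 2 ^ (j + (i + 1))) ∩ GT b' (η' / 8)) *
              ENNReal.ofReal (A1 / ((2 : ℝ) ^ (j + (i + 1) - 1)) ^ Q * Ub b)) * Xb b' ≤
            D (b - 1) (η' / 8) * M t * ENNReal.ofReal ((CU * B * (2 / 2 ^ j) + 2 * B ^ 2 * A1 / 4 ^ j) * Ub b) := by
          rw [add_mul, ← ENNReal.tsum_mul_right]
          have g1 : gf (P (t + 2 ^ (j + 0)) ∩ GT b' (η' / 8)) * ENNReal.ofReal (CU * UU (2 ^ e)) * Xb b' ≤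
              D (b - 1) (η' / 8) * M t * ENNReal.ofReal (CU * B * (2 / 2 ^ j) * Ub b) := by
            calc gf (P (t + 2 ^ (j + 0)) ∩ GT b' (η' / 8)) * ENNReal.ofReal (CU * UU (2 ^ e)) * Xb b'
                = (gf (P (t + 2 ^ (j + 0)) ∩ GT b' (η' / 8)) * Xb b') * ENNReal.ofReal (CU * UU (2 ^ e)) := by ring
              _ ≤ D (b - 1) (η' / 8) * (ENNReal.ofReal (B ^ (j + 0 + 1)) * M t) * ENNReal.ofReal (CU * UU (2 ^ e)) :=
                  mul_le_mul_left (hXi 0) _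
              _ = D (b - 1) (η' / 8) * M t * ENNReal.ofReal (B ^ (j + 1) * (CU * UU (2 ^ e))) := by
                  rw [ENNReal.ofReal_mul (show 0 ≤ B ^ (j + 1) by positivity), add_zero]
                  ring
              _ ≤ _ := by
                  refine mul_le_mul_right (ENNReal.ofReal_le_ofReal ?_) _
                  have h2 : Ub e ≤ 2 * ((2 * B) ^ j)⁻¹ * Ub b := by
                    rwa [div_le_iff₀ hUbb] at hrat0
                  show B ^ (j + 1) * (CU * Ub e) ≤ _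
                  calc B ^ (j + 1) * (CU * Ub e) ≤ B ^ (j + 1) * (CU * (2 * ((2 * B) ^ j)⁻¹ * Ub b)) := by gcongr
                    _ = CU * B * (2 / 2 ^ j) * Ub b := by
                        rw [mul_pow, pow_succ]
                        field_simp
          have g2 : ∑' i, gf (P (t + 2 ^ (j + (i + 1))) ∩ GT b' (η' / 8)) *
              ENNReal.ofReal (A1 / ((2 : ℝ) ^ (j + (i + 1) - 1)) ^ Q * Ub b) * Xb b' ≤
              D (b - 1) (η' / 8) * M t * ENNReal.ofReal (2 * B ^ 2 * A1 / 4 ^ j * Ub b) := by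
            have g3 : ∀ i, gf (P (t + 2 ^ (j + (i + 1))) ∩ GT b' (η' / 8)) *
                ENNReal.ofReal (A1 / ((2 : ℝ) ^ (j + (i + 1) - 1)) ^ Q * Ub b) * Xb b' ≤
                D (b - 1) (η' / 8) * M t * ENNReal.ofReal (Ub b) *
                  (ENNReal.ofReal (B ^ (j + i + 2)) * ENNReal.ofReal (A1 / ((2 : ℝ) ^ (j + i)) ^ Q)) := by
              intro i
              rw [show j + (i + 1) - 1 = j + i by omega, ENNReal.ofReal_mul (by positivity)]
              calc gf (P (t + 2 ^ (j + (i + 1))) ∩ GT b' (η' / 8)) *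
                    (ENNReal.ofReal (A1 / ((2 : ℝ) ^ (j + i)) ^ Q) * ENNReal.ofReal (Ub b)) * Xb b'
                  = (gf (P (t + 2 ^ (j + (i + 1))) ∩ GT b' (η' / 8)) * Xb b') *
                    (ENNReal.ofReal (A1 / ((2 : ℝ) ^ (j + i)) ^ Q) * ENNReal.ofReal (Ub b)) := by ring
                _ ≤ D (b - 1) (η' / 8) * (ENNReal.ofReal (B ^ (j + (i + 1) + 1)) * M t) *
                    (ENNReal.ofReal (A1 / ((2 : ℝ) ^ (j + i)) ^ Q) * ENNReal.ofReal (Ub b)) :=
                    mul_le_mul_left (hXi (i + 1)) _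
                _ = _ := by
                    rw [show j + (i + 1) + 1 = j + i + 2 by ring]
                    ring
            refine (ENNReal.tsum_le_tsum g3).trans ?_
            rw [ENNReal.tsum_mul_left]
            refine (mul_le_mul_right (geo_sum hB (by linarith) hQ.le) _).trans (le_of_eq ?_)
            rw [ENNReal.ofReal_mul (by positivity)]
            ring
          refine (add_le_add g1 g2).trans (le_of_eq ?_)
          rw [← mul_add, ← ENNReal.ofReal_add (by positivity) (by positivity), ← add_mul]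
        -- the numbers
        have n1 : 4 / (η' * Ub b) * CX * ((CU * B * (2 / 2 ^ j) + 2 * B ^ 2 * A1 / 4 ^ j) * Ub b) ≤ Cc / (η' * 2 ^ j) := by
          have h1 : 2 * B ^ 2 * A1 / 4 ^ j ≤ 2 * B ^ 2 * A1 / 2 ^ j := by
            have : (2 : ℝ) ^ j ≤ 4 ^ j := pow_le_pow_left₀ (by norm_num) (by norm_num) _
            gcongr
          calc 4 / (η' * Ub b) * CX * ((CU * B * (2 / 2 ^ j) + 2 * B ^ 2 * A1 / 4 ^ j) * Ub b)
              ≤ 4 / (η' * Ub b) * CX * ((CU * B * (2 / 2 ^ j) + 2 * B ^ 2 * A1 / 2 ^ j) * Ub b) := by gcongr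
            _ = (8 * CU * CX * B + 8 * B ^ 2 * A1 * CX) / (η' * 2 ^ j) := by
                field_simp
                ring
            _ ≤ _ := by gcongr
        have n2 : Ub b / (κ0 * UU (2 ^ e)) * (CX ^ (p * j + 4) * (C0 * B ^ (j + 2))) ≤ Cc ^ j / η' := by
          have h1 : Ub b ≤ 2 ^ (p * j + 2) * Ub e := by
            rw [he]
            exact Ub_steps e (p * j + 2)
          have h2 : Ub b / (κ0 * UU (2 ^ e)) ≤ 2 ^ (p * j + 2) / κ0 := by
            show Ub b / (κ0 * Ub e) ≤ _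
            rw [div_le_div_iff₀ (by positivity) hκ0]
            nlinarith
          have h3 : 2 ^ (p * j + 2) / κ0 * (CX ^ (p * j + 4) * (C0 * B ^ (j + 2))) = Y * ((2 * CX) ^ p * B) ^ j := by
            rw [hY, mul_pow ((2 * CX) ^ p) B j, ← pow_mul, mul_pow 2 CX (p * j), pow_add 2 (p * j) 2, pow_add CX (p * j) 4,
              pow_add B j 2]
            ring
          have h4 : Y * ((2 * CX) ^ p * B) ^ j ≤ ((Y + 1) * ((2 * CX) ^ p * B)) ^ j := by
            rw [mul_pow (Y + 1)]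
            have h5 : Y ≤ (Y + 1) ^ j := by
              calc Y ≤ (Y + 1) ^ 1 := by linarith
                _ ≤ (Y + 1) ^ j := pow_le_pow_right₀ (by linarith) hj
            exact mul_le_mul_of_nonneg_right h5 (by positivity)
          have h5 : ((Y + 1) * ((2 * CX) ^ p * B)) ^ j ≤ Cc ^ j := pow_le_pow_left₀ q3 p3 _
          have h6 : Cc ^ j ≤ Cc ^ j / η' := by
            rw [le_div_iff₀ hη']
            have : 0 ≤ Cc ^ j := by positivity
            nlinarith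
          calc Ub b / (κ0 * UU (2 ^ e)) * (CX ^ (p * j + 4) * (C0 * B ^ (j + 2)))
              ≤ 2 ^ (p * j + 2) / κ0 * (CX ^ (p * j + 4) * (C0 * B ^ (j + 2))) :=
                mul_le_mul_of_nonneg_right h2 (by positivity)
            _ ≤ _ := by
                rw [h3]
                linarith
        -- the sum
        calc gf (P t ∩ GT b η') * Xb b * (M t)⁻¹
            ≤ (ENNReal.ofReal (4 / (η' * Ub b)) * (gf (P (t + 2 ^ (j + 0)) ∩ GT b' (η' / 8)) *
                ENNReal.ofReal (CU * UU (2 ^ e)) + ∑' i, gf (P (t + 2 ^ (j + (i + 1))) ∩ GT b' (η' / 8)) *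
                ENNReal.ofReal (A1 / ((2 : ℝ) ^ (j + (i + 1) - 1)) ^ Q * Ub b)) +
              ENNReal.ofReal (Ub b / (κ0 * UU (2 ^ e))) * gf (FT (FarO E (2 ^ e)) (P (t + 2 ^ (j + 1))) b)) * Xb b *
                (M t)⁻¹ := by gcongr
          _ = ENNReal.ofReal (4 / (η' * Ub b)) * (gf (P (t + 2 ^ (j + 0)) ∩ GT b' (η' / 8)) *
                ENNReal.ofReal (CU * UU (2 ^ e)) + ∑' i, gf (P (t + 2 ^ (j + (i + 1))) ∩ GT b' (η' / 8)) *
                ENNReal.ofReal (A1 / ((2 : ℝ) ^ (j + (i + 1) - 1)) ^ Q * Ub b)) * Xb b * (M t)⁻¹ +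
              ENNReal.ofReal (Ub b / (κ0 * UU (2 ^ e))) * gf (FT (FarO E (2 ^ e)) (P (t + 2 ^ (j + 1))) b) * Xb b *
                (M t)⁻¹ := by rw [add_mul, add_mul]
          _ ≤ ENNReal.ofReal (Cc / (η' * 2 ^ j)) * D (b - 1) (η' / 8) + ENNReal.ofReal (Cc ^ j / η') := by
              refine add_le_add ?_ ?_
              · calc _ ≤ ENNReal.ofReal (4 / (η' * Ub b)) * (gf (P (t + 2 ^ (j + 0)) ∩ GT b' (η' / 8)) *
                      ENNReal.ofReal (CU * UU (2 ^ e)) + ∑' i, gf (P (t + 2 ^ (j + (i + 1))) ∩ GT b' (η' / 8)) *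
                      ENNReal.ofReal (A1 / ((2 : ℝ) ^ (j + (i + 1) - 1)) ^ Q * Ub b)) * (ENNReal.ofReal CX * Xb b') *
                      (M t)⁻¹ := by gcongr
                  _ = ENNReal.ofReal (4 / (η' * Ub b)) * ENNReal.ofReal CX * ((gf (P (t + 2 ^ (j + 0)) ∩ GT b' (η' / 8)) *
                      ENNReal.ofReal (CU * UU (2 ^ e)) + ∑' i, gf (P (t + 2 ^ (j + (i + 1))) ∩ GT b' (η' / 8)) *
                      ENNReal.ofReal (A1 / ((2 : ℝ) ^ (j + (i + 1) - 1)) ^ Q * Ub b)) * Xb b') * (M t)⁻¹ := by ring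
                  _ ≤ ENNReal.ofReal (4 / (η' * Ub b)) * ENNReal.ofReal CX * (D (b - 1) (η' / 8) * M t *
                      ENNReal.ofReal ((CU * B * (2 / 2 ^ j) + 2 * B ^ 2 * A1 / 4 ^ j) * Ub b)) * (M t)⁻¹ := by
                      gcongr
                  _ = ENNReal.ofReal (4 / (η' * Ub b)) * ENNReal.ofReal CX *
                      ENNReal.ofReal ((CU * B * (2 / 2 ^ j) + 2 * B ^ 2 * A1 / 4 ^ j) * Ub b) *
                      D (b - 1) (η' / 8) * (M t * (M t)⁻¹) := by ring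
                  _ = ENNReal.ofReal (4 / (η' * Ub b) * CX * ((CU * B * (2 / 2 ^ j) + 2 * B ^ 2 * A1 / 4 ^ j) * Ub b)) *
                      D (b - 1) (η' / 8) := by
                      rw [hMI, mul_one, ← ENNReal.ofReal_mul (by positivity), ← ENNReal.ofReal_mul (by positivity)]
                  _ ≤ _ := mul_le_mul_left (ENNReal.ofReal_le_ofReal n1) _
              · calc _ ≤ ENNReal.ofReal (Ub b / (κ0 * UU (2 ^ e))) * gf (FT (FarO E (2 ^ e)) (P (t + 2 ^ (j + 1))) b) *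
                      (ENNReal.ofReal (CX ^ (p * j + 4)) * Xb k) * (M t)⁻¹ := by gcongr
                  _ = ENNReal.ofReal (Ub b / (κ0 * UU (2 ^ e))) * ENNReal.ofReal (CX ^ (p * j + 4)) *
                      (gf (FT (FarO E (2 ^ e)) (P (t + 2 ^ (j + 1))) b) * Xb k) * (M t)⁻¹ := by ring
                  _ ≤ ENNReal.ofReal (Ub b / (κ0 * UU (2 ^ e))) * ENNReal.ofReal (CX ^ (p * j + 4)) *
                      (ENNReal.ofReal C0 * (ENNReal.ofReal (B ^ (j + 2)) * M t)) * (M t)⁻¹ := by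
                      refine mul_le_mul_left (mul_le_mul_right ?_ _) _
                      exact hgl.trans (mul_le_mul_right (hP.grow t (j + 1)) _)
                  _ = ENNReal.ofReal (Ub b / (κ0 * UU (2 ^ e))) * (ENNReal.ofReal (CX ^ (p * j + 4)) *
                      (ENNReal.ofReal C0 * ENNReal.ofReal (B ^ (j + 2)))) * (M t * (M t)⁻¹) := by ring
                  _ = ENNReal.ofReal (Ub b / (κ0 * UU (2 ^ e)) * (CX ^ (p * j + 4) * (C0 * B ^ (j + 2)))) := by
                      rw [hMI, mul_one, ← ENNReal.ofReal_mul (by positivity), ← ENNReal.ofReal_mul (by positivity),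
                        ← ENNReal.ofReal_mul (by positivity)]
                  _ ≤ _ := ENNReal.ofReal_le_ofReal n2
  -- the conclusion
  rcases eq_or_ne (M t) ⊤ with hMt | hMt
  · rw [hMt, ENNReal.mul_top (by simpa using (by linarith : (0 : ℝ) < A + 1))]
    exact le_top
  have h2 : P t ∩ GT b η0 ⊆ P t ∩ GT b η := by
    rintro L ⟨a1, a2⟩
    refine ⟨a1, ?_⟩
    have a3 : η0 * Ub b ≤ ((cs b L).card : ℝ) := a2
    have a4 : (0 : ℝ) < Ub b := Ub_pos b
    show η * Ub b ≤ ((cs b L).card : ℝ)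
    nlinarith
  calc gf (P t ∩ GT b η0) * Xb b ≤ gf (P t ∩ GT b η) * Xb b := mul_le_mul_left (gf_mono h2) _
    _ ≤ D b η * M t := hDle b η t hb hMt
    _ ≤ ENNReal.ofReal A * M t := mul_le_mul_left hfin _
    _ ≤ _ := mul_le_mul_left (ENNReal.ofReal_le_ofReal (by linarith)) _

end RMP

end HexObs
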