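import Pool.Agent.RMP.Defs
import Pool.Agent.RMP.TipO
import Pool.Agent.ARM.TipG
import Pool.Agent.ARM.NumB
import Pool.Agent.ARM.Conf

/-!
RMP, row P1 (helper73), part 3: the ensemble of the first word for a fixed second word; the one-arm class with spatial
cut-offs; the spectator of a large second word.
-/

set_option autoImplicit false

namespace HexObs

namespace RMP

open Finset TS SDN NTW NTA HexObs.SIM TIP ARM

open scoped ENNReal

/-! ### removal and gluing -/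

lemma SA_pre {A Z : List Bool} (h : A ++ Z ∈ SA) : A ∈ SA := by
  have := SA_take h A.length
  rwa [List.take_left' rfl] at this

lemma SAE_pre {E : Set Pt} {A Z : List Bool} (h : A ++ Z ∈ SAE E) : A ∈ SAE E := by
  refine ⟨SA_pre h.1, fun i hi => ?_⟩
  have := h.2 i (by rw [List.length_append]; omega)
  rwa [vx_append (by omega)] at this

lemma hn_en_pre (A Z : List Bool) (z : Pt) : TIW.hn (TIW.en A - z) ≤ TIW.hn (TIW.en (A ++ Z) - z) + TIW.hn (TIW.en Z) := by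
  have e : TIW.en A - z = (TIW.en (A ++ Z) - z) - mulE (TIW.rt A) (TIW.en Z) := by
    rw [en_append A Z]
    abel
  have h6 := TIW.hn_sub (TIW.en (A ++ Z) - z) (mulE (TIW.rt A) (TIW.en Z))
  rw [← e, TIW.hn_mulE (TIW.nrm_rt A)] at h6
  exact h6

lemma hn_en_glue (A Z : List Bool) (z : Pt) : TIW.hn (TIW.en (A ++ Z) - z) ≤ TIW.hn (TIW.en A - z) + TIW.hn (TIW.en Z) := by
  have e : TIW.en (A ++ Z) - z = (TIW.en A - z) + mulE (TIW.rt A) (TIW.en Z) := by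
    rw [en_append A Z]
    abel
  have h6 := TIW.hn_add (TIW.en A - z) (mulE (TIW.rt A) (TIW.en Z))
  rw [← e, TIW.hn_mulE (TIW.nrm_rt A)] at h6
  exact h6

lemma dz_pre {A Z : List Bool} {v : ℕ} (hv : v ≤ A.length) : dz A v ≤ dz (A ++ Z) v + TIW.hn (TIW.en Z) := by
  unfold dz
  have h := hn_en_pre A Z (vx oo up A v)
  rw [vx_append (by omega)]
  rw [← TIW.hn_neg (vx oo up A v - TIW.en A), ← TIW.hn_neg (vx oo up A v - TIW.en (A ++ Z)), neg_sub, neg_sub]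
  exact h

lemma dz_glue {A Z : List Bool} {v : ℕ} (hv : v ≤ A.length) : dz (A ++ Z) v ≤ dz A v + TIW.hn (TIW.en Z) := by
  unfold dz
  have h := hn_en_glue A Z (vx oo up A v)
  rw [vx_append (by omega)]
  rw [← TIW.hn_neg (vx oo up A v - TIW.en A), ← TIW.hn_neg (vx oo up A v - TIW.en (A ++ Z)), neg_sub, neg_sub]
  exact h

/-- short narrow words stay close -/
lemma shE_vx {k i : ℕ} (hk : k ≤ i) {e : List Bool} (he : ShE k e) {v : ℕ} (hv : v ≤ e.length) :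
    TIW.hn (vx oo up e v) ≤ 10 * 2 ^ i := by
  have h1 := he.2.1 v hv
  have h2 : (2 : ℤ) ^ k ≤ 2 ^ i := pow_le_pow_right₀ (by norm_num) hk
  have h3 : (1 : ℤ) ≤ 2 ^ k := one_le_pow₀ (by norm_num)
  have hf := h1 false
  have ht := h1 true
  push_cast at hf ht
  unfold row at hf ht
  have h4 : |lvl false (vx oo up e v)| ≤ 3 * 2 ^ k + 2 := by
    rw [abs_le] at hf ⊢
    constructor <;> omega
  have h5 : |lvl true (vx oo up e v)| ≤ 3 * 2 ^ k + 2 := by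
    rw [abs_le] at ht ⊢
    constructor <;> omega
  have h6 : TIW.hn (vx oo up e v) ≤ (3 * 2 ^ k + 2) + (3 * 2 ^ k + 2) := by
    have e1 : ∀ p : Pt, lvl false p = ip p up := fun _ => rfl
    have e2 : ∀ p : Pt, lvl true p = ip p (-1, 0) := fun _ => rfl
    rw [e1] at h4
    rw [e2] at h5
    clear hf ht h1
    unfold TIW.hn
    generalize vx oo up e v = q at h4 h5 ⊢
    obtain ⟨x, y⟩ := q
    simp only [ip, up, rotL, rotR] at h4 h5 ⊢
    rw [abs_le] at h4 h5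
    refine max_le ?_ (max_le ?_ ?_) <;> rw [abs_le] <;> constructor <;> omega
  omega

lemma sz_en {i s : ℕ} {Z : List Bool} (h : Sz i (2 ^ s) Z) : TIW.hn (TIW.en Z) ≤ 2 ^ s * 2 ^ i := by
  have h1 := h.2 Z.length le_rfl
  have h2 : ((TIW.hn (TIW.en Z) : ℤ) : ℝ) ≤ 2 ^ s * 2 ^ i := h1
  exact_mod_cast h2

/-! ### the ensemble of the first word -/

/-- the first words for the spectator E with the tip z; at most t units of the level i have been removed -/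
def PE (R i : ℕ) (E : Set Pt) (z : Pt) (t : ℕ) : Set (List Bool) :=
  {L | L ∈ SAE E ∧ TIW.hn (TIW.en L - z) ≤ ((t : ℤ) + 1) * 2 ^ i ∧ ∀ s, s ≤ L.length → dz L s ≤ R + ((t : ℤ) + 1) * 2 ^ i}

lemma PE_mono (R i : ℕ) (E : Set Pt) (z : Pt) {t t' : ℕ} (h : t ≤ t') : PE R i E z t ⊆ PE R i E z t' := by
  rintro L ⟨h1, h2, h3⟩
  have ht : ((t : ℤ) + 1) * 2 ^ i ≤ ((t' : ℤ) + 1) * 2 ^ i :=
    mul_le_mul_of_nonneg_right (by exact_mod_cast Nat.succ_le_succ h) (by positivity)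
  exact ⟨h1, h2.trans ht, fun s hs => (h3 s hs).trans (by linarith)⟩

lemma PE_pre {R i t s : ℕ} {E : Set Pt} {z : Pt} {A Z : List Bool} (hAZ : A ++ Z ∈ PE R i E z t) (hs : Sz i (2 ^ s) Z) :
    A ∈ PE R i E z (t + 2 ^ s) := by
  obtain ⟨h1, h2, h3⟩ := hAZ
  have h4 := sz_en hs
  have e : (((t + 2 ^ s : ℕ) : ℤ) + 1) * 2 ^ i = ((t : ℤ) + 1) * 2 ^ i + 2 ^ s * 2 ^ i := by
    push_cast
    ring
  refine ⟨SAE_pre h1, ?_, fun v hv => ?_⟩
  · rw [e]
    exact (hn_en_pre A Z z).trans (add_le_add h2 h4)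
  · rw [e]
    have h5 := h3 v (by rw [List.length_append]; omega)
    have h6 := dz_pre (Z := Z) hv
    linarith

lemma PE_glue {R i t k : ℕ} {E : Set Pt} {z : Pt} (hk : k ≤ i) {L e : List Bool} (hL : L ∈ PE R i E z t) (he : ShE k e)
    (hT : L ++ e ∈ SAE E) : L ++ e ∈ PE R i E z (t + 20) := by
  obtain ⟨h1, h2, h3⟩ := hL
  have h4 := shE_end hk he
  have e1 : (((t + 20 : ℕ) : ℤ) + 1) * 2 ^ i = ((t : ℤ) + 1) * 2 ^ i + 20 * 2 ^ i := by
    push_cast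
    ring
  have hp : (0 : ℤ) < 2 ^ i := by positivity
  refine ⟨hT, ?_, fun v hv => ?_⟩
  · rw [e1]
    have := hn_en_glue L e z
    linarith
  · rw [e1]
    rcases Nat.lt_or_ge L.length v with h5 | h5
    · obtain ⟨j, rfl⟩ : ∃ j, v = L.length + j := ⟨v - L.length, by omega⟩
      rw [List.length_append] at hv
      rw [dz_app]
      have h6 : dz e j ≤ TIW.hn (vx oo up e j) + TIW.hn (TIW.en e) := TIW.hn_sub _ _
      have h7 := shE_vx hk he (v := j) (by omega)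
      have h8 : (0 : ℤ) ≤ (t : ℤ) := by positivity
      have h9 : (0 : ℤ) ≤ (R : ℤ) := by positivity
      nlinarith
    · have h6 := dz_glue (A := L) (Z := e) h5
      have h7 := h3 v h5
      linarith

/-! ### the masses -/

/-- the masses of the ensemble -/
noncomputable def ME (R i : ℕ) (E : Set Pt) (z : Pt) (t : ℕ) : ℝ≥0∞ :=
  ∑' u : ℕ, ENNReal.ofReal (1 / ((u : ℝ) + 1) ^ 8) * gf (PE R i E z (t + u + 20))

lemma ME_ge (R i : ℕ) (E : Set Pt) (z : Pt) (t : ℕ) : gf (PE R i E z (t + 20)) ≤ ME R i E z t := by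
  unfold ME
  refine le_trans (le_of_eq ?_) (ENNReal.le_tsum 0)
  rw [Nat.cast_zero, zero_add, one_pow, div_one, ENNReal.ofReal_one, one_mul, Nat.add_zero]

lemma ME_grow (R i : ℕ) (E : Set Pt) (z : Pt) (t s : ℕ) :
    ME R i E z (t + 2 ^ s) ≤ ENNReal.ofReal (((2 : ℝ) ^ 8) ^ (s + 1)) * ME R i E z t := by
  unfold ME
  obtain ⟨f, hf⟩ : ∃ f : ℕ → ℝ≥0∞, f = fun u : ℕ => ENNReal.ofReal (1 / ((u : ℝ) + 1) ^ 8) * gf (PE R i E z (t + u + 20)) :=
    ⟨_, rfl⟩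
  have h1 : ∀ u : ℕ, ENNReal.ofReal (1 / ((u : ℝ) + 1) ^ 8) * gf (PE R i E z (t + 2 ^ s + u + 20)) ≤
      ENNReal.ofReal (((2 : ℝ) ^ 8) ^ (s + 1)) * f (u + 2 ^ s) := by
    intro u
    rw [hf]
    show _ ≤ _ * (ENNReal.ofReal _ * gf _)
    rw [← mul_assoc, ← ENNReal.ofReal_mul (by positivity), show t + 2 ^ s + u + 20 = t + (u + 2 ^ s) + 20 by ring]
    refine mul_le_mul_left (ENNReal.ofReal_le_ofReal ?_) _
    push_cast
    have hu : (0 : ℝ) ≤ u := Nat.cast_nonneg u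
    have h2 : (1 : ℝ) ≤ 2 ^ s := one_le_pow₀ (by norm_num)
    have h3 : (u : ℝ) + 2 ^ s + 1 ≤ 2 ^ (s + 1) * (u + 1) := by
      rw [pow_succ]
      nlinarith
    have h4 : ((u : ℝ) + 2 ^ s + 1) ^ 8 ≤ ((2 : ℝ) ^ 8) ^ (s + 1) * (u + 1) ^ 8 := by
      calc ((u : ℝ) + 2 ^ s + 1) ^ 8 ≤ (2 ^ (s + 1) * (u + 1)) ^ 8 := pow_le_pow_left₀ (by positivity) h3 _
        _ = ((2 : ℝ) ^ 8) ^ (s + 1) * (u + 1) ^ 8 := by
            rw [mul_pow ((2 : ℝ) ^ (s + 1)), ← pow_mul, ← pow_mul, mul_comm (s + 1) 8]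
    rw [mul_one_div, div_le_div_iff₀ (by positivity) (by positivity), one_mul]
    exact h4
  refine (ENNReal.tsum_le_tsum h1).trans ?_
  rw [ENNReal.tsum_mul_left]
  refine mul_le_mul_right ?_ _
  rw [hf]
  exact ENNReal.tsum_comp_le_tsum_of_injective (fun a b h => Nat.add_right_cancel h)
    (fun u : ℕ => ENNReal.ofReal (1 / ((u : ℝ) + 1) ^ 8) * gf (PE R i E z (t + u + 20)))

lemma ensPE (R i : ℕ) (E : Set Pt) (z : Pt) : EnsO E (PE R i E z) (ME R i E z) i ((2 : ℝ) ^ 8) := by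
  refine ⟨fun t L hL => hL.1, fun t s A Z hAZ hZ hZh hs => PE_pre hAZ hs, fun t => ?_, fun t k hk => ?_,
    fun t s => ME_grow R i E z t s⟩
  · exact (gf_mono (PE_mono R i E z (by omega))).trans (ME_ge R i E z t)
  · refine (gf_mono ?_).trans (ME_ge R i E z t)
    rintro T ⟨hT1, L, hL, e, he, rfl⟩
    exact PE_glue hk hL he hT1

/-- **the tip lemma for the first word, the second one fixed** -/
theorem tipPE {η : ℝ} (hη : 0 < η) : ∃ C : ℝ, 0 < C ∧ ∀ (R i b : ℕ) (E : Set Pt) (z : Pt), b ≤ i → Obs (2 ^ b) E →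
    gf (PE R i E z 0 ∩ GT b η) * Xb b ≤ ENNReal.ofReal C * ME R i E z 0 := by
  obtain ⟨C, hC, hT⟩ := tipO η ((2 : ℝ) ^ 8) hη (by norm_num)
  exact ⟨C, hC, fun R i b E z hb hE => hT E (PE R i E z) (ME R i E z) i b (ensPE R i E z) hE b 0 hb le_rfl⟩

/-! ### one arm -/

/-- one word, spatial cut-off -/
def PD (R i t : ℕ) : Set (List Bool) := {L | L ∈ SA ∧ ∀ s, s ≤ L.length → dz L s ≤ R + ((t : ℤ) + 1) * 2 ^ i}

lemma PD_mono (R i : ℕ) {t t' : ℕ} (h : t ≤ t') : PD R i t ⊆ PD R i t' := by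
  rintro L ⟨h1, h3⟩
  have ht : ((t : ℤ) + 1) * 2 ^ i ≤ ((t' : ℤ) + 1) * 2 ^ i :=
    mul_le_mul_of_nonneg_right (by exact_mod_cast Nat.succ_le_succ h) (by positivity)
  exact ⟨h1, fun s hs => (h3 s hs).trans (by linarith)⟩

/-- every size is at most a power of two, at most twice as large -/
lemma pow_near (t : ℕ) : ∃ s : ℕ, t + 1 ≤ 2 ^ s ∧ 2 ^ s ≤ 2 * (t + 1) := by
  classical
  have hex : ∃ s : ℕ, t + 1 ≤ 2 ^ s := ⟨t + 1, Nat.lt_two_pow_self.le⟩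
  refine ⟨Nat.find hex, Nat.find_spec hex, ?_⟩
  rcases Nat.eq_zero_or_pos (Nat.find hex) with h | h
  · rw [h, pow_zero]
    omega
  · have h1 := Nat.find_min hex (show Nat.find hex - 1 < Nat.find hex by omega)
    have h2 : 2 ^ Nat.find hex = 2 * 2 ^ (Nat.find hex - 1) := by
      rw [← pow_succ']
      congr 1
      omega
    omega

/-- the mass of the words in a ball around their tip -/
lemma conf_ball : ∃ C : ℝ, 0 < C ∧ ∀ N : ℕ, 1 ≤ N → gf {L | L ∈ SA ∧ ∀ s, s ≤ L.length → dz L s ≤ (N : ℤ)} ≤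
    ENNReal.ofReal (C * (N : ℝ) ^ (43 / 24 : ℝ)) := by
  obtain ⟨C, hC, h⟩ := confSt
  refine ⟨C * 4, by positivity, fun N hN => ?_⟩
  obtain ⟨n, rfl⟩ : ∃ n, N = n + 1 := ⟨N - 1, by omega⟩
  obtain ⟨s, hs1, hs2⟩ := pow_near n
  refine (gf_mono ?_).trans ((h 0 s).trans (ENNReal.ofReal_le_ofReal ?_))
  · rintro L ⟨h1, h2⟩
    refine ⟨h1, Nat.zero_le _, fun v hv => (h2 v hv).trans ?_⟩
    exact_mod_cast hs1
  · have hm := ml_pos s
    have e1 : ml s / max ((0 : ℕ) : ℝ) (ml s) = 1 := by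
      rw [Nat.cast_zero, max_eq_right hm.le, div_self hm.ne']
    rw [e1, one_pow, mul_one, mul_assoc]
    refine mul_le_mul_of_nonneg_left ?_ hC.le
    have e2 : (2 : ℝ) ^ ((43 / 24 : ℝ) * (s : ℝ)) = (((2 ^ s : ℕ) : ℝ)) ^ (43 / 24 : ℝ) := by
      push_cast
      rw [← Real.rpow_natCast, ← Real.rpow_mul (by norm_num), mul_comm]
    have h3 : (((2 ^ s : ℕ) : ℝ)) ≤ 2 * ((n + 1 : ℕ) : ℝ) := by exact_mod_cast hs2
    have h4 : (2 : ℝ) ^ (43 / 24 : ℝ) ≤ 4 := by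
      calc (2 : ℝ) ^ (43 / 24 : ℝ) ≤ (2 : ℝ) ^ (2 : ℝ) := Real.rpow_le_rpow_of_exponent_le (by norm_num) (by norm_num)
        _ = 4 := by
            rw [show (2 : ℝ) = ((2 : ℕ) : ℝ) by norm_num, Real.rpow_natCast]
            norm_num
    calc (2 : ℝ) ^ ((43 / 24 : ℝ) * (s : ℝ)) = (((2 ^ s : ℕ) : ℝ)) ^ (43 / 24 : ℝ) := e2
      _ ≤ (2 * ((n + 1 : ℕ) : ℝ)) ^ (43 / 24 : ℝ) := Real.rpow_le_rpow (by positivity) h3 (by norm_num)
      _ = (2 : ℝ) ^ (43 / 24 : ℝ) * ((n + 1 : ℕ) : ℝ) ^ (43 / 24 : ℝ) := Real.mul_rpow (by norm_num) (by positivity)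
      _ ≤ 4 * ((n + 1 : ℕ) : ℝ) ^ (43 / 24 : ℝ) := mul_le_mul_of_nonneg_right h4 (by positivity)

/-- **the one-arm tip lemma**, spatial cut-off -/
theorem tipD {η : ℝ} (hη : 0 < η) : ∃ C : ℝ, 0 < C ∧ ∀ R i b : ℕ, b ≤ i →
    gf {L | (L ∈ SA ∧ ∀ s, s ≤ L.length → dz L s ≤ R + 2 ^ i) ∧ L ∈ GT b η} * Xb b ≤
      ENNReal.ofReal (C * (max (R : ℝ) (2 ^ i)) ^ (43 / 24 : ℝ)) := by
  obtain ⟨C, hC, hT⟩ := tipT η ((2 : ℝ) ^ 2) hη (by norm_num)
  obtain ⟨C1, hC1, hB⟩ := conf_ball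
  refine ⟨C * (C1 * 22 ^ 2), by positivity, fun R i b hb => ?_⟩
  obtain ⟨X, hX⟩ : ∃ X : ℝ, X = max (R : ℝ) (2 ^ i) := ⟨_, rfl⟩
  have hX1 : (1 : ℝ) ≤ X := by
    rw [hX]
    exact le_max_of_le_right (one_le_pow₀ (by norm_num))
  have hX2 : (2 : ℝ) ^ i ≤ X := by
    rw [hX]
    exact le_max_right _ _
  have hX3 : (R : ℝ) ≤ X := by
    rw [hX]
    exact le_max_left _ _
  obtain ⟨M, hM⟩ : ∃ M : ℕ → ℝ≥0∞, M = fun t : ℕ => ENNReal.ofReal (C1 * ((t : ℝ) + 22) ^ 2 * X ^ (43 / 24 : ℝ)) := ⟨_, rfl⟩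
  have hbound : ∀ t, gf (PD R i (t + 20)) ≤ M t := by
    intro t
    have h1 := hB (R + (t + 21) * 2 ^ i) (by
      have : 1 ≤ 2 ^ i := Nat.one_le_two_pow
      nlinarith)
    rw [hM]
    refine (gf_mono ?_).trans (h1.trans (ENNReal.ofReal_le_ofReal ?_))
    · rintro L ⟨g1, g2⟩
      refine ⟨g1, fun s hs => (g2 s hs).trans (le_of_eq ?_)⟩
      push_cast
      ring
    · rw [mul_assoc]
      refine mul_le_mul_of_nonneg_left ?_ hC1.le
      have ht : (0 : ℝ) ≤ t := Nat.cast_nonneg t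
      have h2 : ((R + (t + 21) * 2 ^ i : ℕ) : ℝ) ≤ ((t : ℝ) + 22) * X := by
        push_cast
        nlinarith
      have h3 : ((t : ℝ) + 22) ^ (43 / 24 : ℝ) ≤ ((t : ℝ) + 22) ^ 2 := by
        have : ((t : ℝ) + 22) ^ (43 / 24 : ℝ) ≤ ((t : ℝ) + 22) ^ (2 : ℝ) :=
          Real.rpow_le_rpow_of_exponent_le (by linarith) (by norm_num)
        rwa [Real.rpow_two] at this
      calc ((R + (t + 21) * 2 ^ i : ℕ) : ℝ) ^ (43 / 24 : ℝ) ≤ (((t : ℝ) + 22) * X) ^ (43 / 24 : ℝ) :=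
            Real.rpow_le_rpow (by positivity) h2 (by norm_num)
        _ = ((t : ℝ) + 22) ^ (43 / 24 : ℝ) * X ^ (43 / 24 : ℝ) := Real.mul_rpow (by positivity) (by positivity)
        _ ≤ _ := mul_le_mul_of_nonneg_right h3 (by positivity)
  have hens : EnsT (PD R i) M i ((2 : ℝ) ^ 2) := by
    refine ⟨fun t L hL => hL.1, fun t s A Z hAZ hZ hZh hs => ?_, fun t => ?_, fun t k hk => ?_, fun t s => ?_⟩
    · obtain ⟨h1, h3⟩ := hAZ
      have h4 := sz_en hs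
      have e : (((t + 2 ^ s : ℕ) : ℤ) + 1) * 2 ^ i = ((t : ℤ) + 1) * 2 ^ i + 2 ^ s * 2 ^ i := by
        push_cast
        ring
      refine ⟨SA_pre h1, fun v hv => ?_⟩
      rw [e]
      have h5 := h3 v (by rw [List.length_append]; omega)
      have h6 := dz_pre (Z := Z) hv
      linarith
    · exact (gf_mono (PD_mono R i (by omega))).trans (hbound t)
    · refine (gf_mono ?_).trans (hbound t)
      rintro T ⟨hT1, L, ⟨h1, h3⟩, e, he, rfl⟩
      refine ⟨hT1, fun v hv => ?_⟩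
      have h4 := shE_end hk he
      have e1 : (((t + 20 : ℕ) : ℤ) + 1) * 2 ^ i = ((t : ℤ) + 1) * 2 ^ i + 20 * 2 ^ i := by
        push_cast
        ring
      rw [e1]
      rcases Nat.lt_or_ge L.length v with h5 | h5
      · obtain ⟨j, rfl⟩ : ∃ j, v = L.length + j := ⟨v - L.length, by omega⟩
        rw [List.length_append] at hv
        rw [dz_app]
        have h6 : dz e j ≤ TIW.hn (vx oo up e j) + TIW.hn (TIW.en e) := TIW.hn_sub _ _
        have h7 := shE_vx hk he (v := j) (by omega)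
        have h8 : (0 : ℤ) ≤ (t : ℤ) := by positivity
        have h9 : (0 : ℤ) ≤ (R : ℤ) := by positivity
        have h10 : (0 : ℤ) < 2 ^ i := by positivity
        nlinarith
      · have h6 := dz_glue (A := L) (Z := e) h5
        have h7 := h3 v h5
        have h10 : (0 : ℤ) < 2 ^ i := by positivity
        linarith
    · rw [hM]
      simp only
      rw [← ENNReal.ofReal_mul (by positivity)]
      refine ENNReal.ofReal_le_ofReal ?_
      push_cast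
      have h1 : (t : ℝ) + 2 ^ s + 22 ≤ 2 ^ (s + 1) * (t + 22) := by
        have h2 : (1 : ℝ) ≤ 2 ^ s := one_le_pow₀ (by norm_num)
        have h3 : (0 : ℝ) ≤ t := Nat.cast_nonneg t
        rw [pow_succ]
        nlinarith
      have h2 : ((t : ℝ) + 2 ^ s + 22) ^ 2 ≤ (2 ^ (s + 1) * (t + 22)) ^ 2 := pow_le_pow_left₀ (by positivity) h1 _
      calc C1 * ((t : ℝ) + 2 ^ s + 22) ^ 2 * X ^ (43 / 24 : ℝ) ≤ C1 * (2 ^ (s + 1) * (t + 22)) ^ 2 * X ^ (43 / 24 : ℝ) := by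
            gcongr
        _ = ((2 : ℝ) ^ 2) ^ (s + 1) * (C1 * ((t : ℝ) + 22) ^ 2 * X ^ (43 / 24 : ℝ)) := by
            rw [mul_pow ((2 : ℝ) ^ (s + 1)) _ 2, ← pow_mul, ← pow_mul, mul_comm (s + 1) 2]
            ring
  have key := hT (PD R i) M i hens b 0 hb
  refine (mul_le_mul_left (gf_mono ?_) _).trans (key.trans (le_of_eq ?_))
  · rintro L ⟨⟨h1, h2⟩, h3⟩
    refine ⟨⟨h1, fun s hs => (h2 s hs).trans (le_of_eq ?_)⟩, h3⟩
    push_cast
    ring
  · rw [hM]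
    simp only
    rw [← ENNReal.ofReal_mul hC.le, ← hX]
    congr 1
    push_cast
    ring

end RMP

end HexObs
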