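import Pool.Agent.RMP.LowDefs
import Pool.Agent.RMP.Num
import Pool.Agent.RMP.TipPA
import Pool.Agent.ARM.NtG

/-!
# RMP, row P9 (helper10), L5: good marks from good windows (helper58)

`FreeT` and `FreeO` use the box `Bl` in absolute coordinates, and the window of a word is seen in a rotated frame: the radius of
the free half balls changes by a factor (one factor 4: `{hn ≤ r} ⊂ Bl r ⊂ {hn ≤ 3 r}`). Hence `a + 2` in the conclusion.

* `pv_gE` : the vertices of the backward word in the frame `gE H`; `Fr_gE` : it is a frame of the lattice;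
* `freeT_app`, `freeO_tr` : free half balls behind a past;
* `key_frame` : the frames of the window and of the word; `outF_win` : the outer pair of the window and of the word;
* **`winGM2`**.
-/

set_option autoImplicit false

namespace HexObs

namespace RMP

open Finset TS SDN HexObs.SIM NTA TIP ARM TIW

open scoped ENNReal

/-- **row L5** (with a + 2): a good window and no vertex near the mark outside of the window: a good mark -/
def WinGM2 : Prop := ∀ (j a m w t : ℕ) (η κ : ℝ) (H : List Bool), H ∈ SA → a + 2 ≤ j → w ≤ t → t + w < H.length →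
  GM j a m w η κ (cutH w (mwin w t H)) → (∀ i, i ≤ H.length → (i + w ≤ t ∨ t + w ≤ i) →
    2 ^ (j + m + 4) < TIW.hn (vx oo up H i - vx oo up H t)) → GM j (a + 2) m w η κ (cutH t H)

/-! ### the frame at the end, backwards -/

lemma gE_dir (H : List Bool) : -(dx up H (H.length - 1)) ∈ dirs := neg_mem_dirs (dx_mem upd' H _)

lemma gE_nrm (H : List Bool) : nrm (gE H).2 = 1 := nrm_rotTo upd' (gE_dir H)

lemma dirF {d : Pt} (hd : d ∈ dirs) (v : Pt) (t : List Bool) (i : ℕ) :
    vx v d t i = v + mulE (rotTo up d) (vx oo up t i) := by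
  obtain ⟨-, h2⟩ := frame_dir hd
  conv_lhs => rw [h2]
  exact vx_frameN _ _ _ _

/-- **the vertices of the backward word in the frame at the end** -/
lemma pv_gE {H : List Bool} (h : 1 ≤ H.length) {s : ℕ} (hs : s ≤ H.length) :
    pv (gE H) (rev H.dropLast) s = vx oo up H (H.length - s) := by
  have hne : H ≠ [] := by
    rintro rfl
    simp at h
  obtain ⟨X, l, rfl⟩ : ∃ (X : List Bool) (l : Bool), H = X ++ [l] :=
    ⟨H.dropLast, H.getLast hne, (List.dropLast_append_getLast hne).symm⟩
  have hl : (X ++ [l]).length = X.length + 1 := by simp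
  rw [List.dropLast_concat]
  have h3 := vx_rev oo up X s (by omega)
  rw [dirF (neg_mem_dirs (dx_mem upd' X _))] at h3
  have e1 : tip oo up X = (gE (X ++ [l])).1 := by
    show tip oo up X = vx oo up (X ++ [l]) (X ++ [l]).length
    rw [hl, vx_append (by omega)]
    rfl
  have e2 : rotTo up (-(dx up X X.length)) = (gE (X ++ [l])).2 := by
    show _ = rotTo up (-(dx up (X ++ [l]) ((X ++ [l]).length - 1)))
    rw [hl, Nat.add_sub_cancel, dx_append le_rfl]
  rw [e1, e2] at h3
  rw [hl, vx_append (by omega)]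
  exact h3

/-- the frame at the end is a frame of the lattice -/
lemma Fr_gE {H : List Bool} (h : 1 ≤ H.length) : Fr (gE H) := by
  obtain ⟨n, hn⟩ : ∃ n, H.length = n + 1 := ⟨H.length - 1, by omega⟩
  have e1 : cl (-(dx up H (H.length - 1))) = cl (gE H).2 * cl up := by
    rw [← cl_mulE]
    congr 1
    exact (rotTo_apply _ upd').symm
  have e2 : cl (dx up H n) = if Even n then cl up else - cl up := cl_dx up H n
  have e3 : cl (TIW.en H) = if Even H.length then cl oo else cl oo + cl up := cl_vx oo up H H.length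
  rw [hn, Nat.add_sub_cancel, cl_neg, e2, cl_up'] at e1
  rw [hn] at e3
  refine ⟨mem_dirs.2 (gE_nrm H), ?_⟩
  show (cl (TIW.en H) = 0 ∧ cl (gE H).2 = 1) ∨ (cl (TIW.en H) = cl up ∧ cl (gE H).2 = -1)
  rw [e3]
  by_cases he : Even n
  · right
    have h1 : ¬ Even (n + 1) := by
      rw [Nat.even_add_one, not_not]
      exact he
    rw [if_pos he] at e1
    rw [if_neg h1, cl_oo, zero_add]
    exact ⟨rfl, by linear_combination e1⟩
  · left
    have h1 : Even (n + 1) := Nat.even_add_one.2 he
    rw [if_neg he] at e1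
    rw [if_pos h1, cl_oo]
    exact ⟨rfl, by linear_combination e1⟩

/-! ### free half balls behind a past -/

lemma en_app2 (P A : List Bool) : TIW.en (P ++ A) = TIW.en P + mulE (rt P) (TIW.en A) := by
  have h := vx_app P A A.length
  rw [← List.length_append] at h
  exact h

lemma tipd_app2 (P A : List Bool) : tipd (P ++ A) = mulE (rt P) (tipd A) := by
  have h := dx_app P A A.length
  rw [← List.length_append] at h
  exact h

lemma freeO_tr {r r' : ℕ} (hr : 3 * r ≤ r') {P A : List Bool} {E E' : Set Pt} (hA : FreeO r' E A)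
    (hE : ∀ p ∈ E', 3 * (r : ℤ) < hn (p - TIW.en (P ++ A)) ∨ ∃ q ∈ E, p = TIW.en P + mulE (rt P) q) :
    FreeO r E' (P ++ A) := by
  intro p hp hip hB
  have h3 := hn_of_Bl hB
  rcases hE p hp with h | ⟨q, hq, rfl⟩
  · exact absurd h3 (not_le.2 h)
  · have e1 : TIW.en P + mulE (rt P) q - tipv (P ++ A) = mulE (rt P) (q - tipv A) := by
      show TIW.en P + mulE (rt P) q - TIW.en (P ++ A) = mulE (rt P) (q - TIW.en A)
      rw [en_app2, mulE_sub]
      abel
    rw [e1, tipd_app2, ip_mulE, nrm_rt, one_mul] at hip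
    rw [e1, TIW.hn_mulE (nrm_rt P)] at h3
    refine hA q hq hip (Bl_of_hn' (h3.trans ?_))
    exact_mod_cast hr

lemma freeT_app {r r' : ℕ} (hr : 3 * r ≤ r') {P A : List Bool} (hA : FreeT r' A)
    (hP : ∀ i, i < P.length → 3 * (r : ℤ) < hn (vx oo up (P ++ A) i - TIW.en (P ++ A))) : FreeT r (P ++ A) := by
  have hO : FreeO r' {p | ∃ i, i ≤ A.length ∧ p = vx oo up A i} A := by
    rintro p ⟨i, hi, rfl⟩ hip
    exact hA i hi hip
  have h := freeO_tr (P := P) (E' := {p | ∃ i, i ≤ (P ++ A).length ∧ p = vx oo up (P ++ A) i}) hr hO (by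
    rintro p ⟨i, hi, rfl⟩
    rcases lt_or_ge i P.length with h | h
    · exact Or.inl (hP i h)
    · obtain ⟨i', rfl⟩ := Nat.exists_eq_add_of_le h
      rw [List.length_append] at hi
      exact Or.inr ⟨_, ⟨i', by omega, rfl⟩, vx_app P A i'⟩)
  intro i hi hip
  exact h _ ⟨i, hi, rfl⟩ hip

/-! ### the frames of the window and of the word -/

/-- the placed vertices of a word behind a past, in the frame of the past -/
lemma pv_app (g : Pt × Pt) (R B : List Bool) (s : ℕ) :
    pv g (R ++ B) (R.length + s) = g.1 + mulE g.2 (TIW.en R + mulE (rt R) (vx oo up B s)) := by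
  unfold pv
  rw [vx_app]

/-- **the frames of the window and of the word** -/
lemma key_frame {P W F : List Bool} {l l' : Bool} (q : Pt) :
    (gE (P ++ (W ++ [l]) ++ (F ++ [l']))).1 + mulE (gE (P ++ (W ++ [l]) ++ (F ++ [l']))).2
      (TIW.en (rev (l :: F)) + mulE (rt (rev (l :: F))) q) =
    TIW.en P + mulE (rt P) ((gE (W ++ [l])).1 + mulE (gE (W ++ [l])).2 q) := by
  obtain ⟨H, hH⟩ : ∃ H, H = P ++ (W ++ [l]) ++ (F ++ [l']) := ⟨_, rfl⟩
  rw [← hH]
  have hlen : H.length = P.length + (W.length + 1) + (F.length + 1) := by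
    rw [hH]
    simp only [List.length_append, List.length_cons, List.length_nil]
  have hdl : rev H.dropLast = rev (l :: F) ++ (rev W ++ rev P) := by
    rw [hH, ← List.append_assoc, List.dropLast_concat]
    unfold rev
    simp
  have hR : (rev (l :: F)).length = F.length + 1 := by
    rw [rev_length, List.length_cons]
  have hw : ∀ s, s ≤ W.length + 1 → pv (gE (W ++ [l])) (rev W) s = vx oo up (W ++ [l]) (W.length + 1 - s) := by
    intro s hs
    have h := pv_gE (H := W ++ [l]) (by simp) (s := s) (by simpa using hs)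
    rw [List.dropLast_concat] at h
    rw [h]
    simp
  have hv : ∀ i, i ≤ W.length + 1 → vx oo up H (P.length + i) = TIW.en P + mulE (rt P) (vx oo up (W ++ [l]) i) := by
    intro i hi
    rw [← vx_app P (W ++ [l]) i, hH, vx_append]
    simp only [List.length_append, List.length_cons, List.length_nil]
    omega
  -- the value at the start
  have k0 : (gE H).1 + mulE (gE H).2 (TIW.en (rev (l :: F))) = TIW.en P + mulE (rt P) (gE (W ++ [l])).1 := by
    have h1 := pv_gE (H := H) (by omega) (s := F.length + 1) (by omega)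
    rw [hdl, show H.length - (F.length + 1) = P.length + (W.length + 1) by omega, hv _ le_rfl] at h1
    unfold pv at h1
    rw [vx_append (by omega), ← hR] at h1
    have e : vx oo up (W ++ [l]) (W.length + 1) = (gE (W ++ [l])).1 := by
      show _ = vx oo up (W ++ [l]) (W ++ [l]).length
      simp
    rw [e] at h1
    exact h1
  -- the direction at the start
  have k1 : (gE H).1 + mulE (gE H).2 (TIW.en (rev (l :: F)) + mulE (rt (rev (l :: F))) up) =
      TIW.en P + mulE (rt P) ((gE (W ++ [l])).1 + mulE (gE (W ++ [l])).2 up) := by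
    have h1 := pv_gE (H := H) (by omega) (s := F.length + 1 + 1) (by omega)
    rw [hdl, show H.length - (F.length + 1 + 1) = P.length + W.length by omega, hv _ (by omega)] at h1
    unfold pv at h1
    rw [vx_append (by omega), ← hR] at h1
    have e1 : vx oo up (rev (l :: F)) ((rev (l :: F)).length + 1) = TIW.en (rev (l :: F)) + mulE (rt (rev (l :: F))) up := by
      rw [rt_up]
      rfl
    have e2 : (gE (W ++ [l])).1 + mulE (gE (W ++ [l])).2 up = vx oo up (W ++ [l]) W.length := by
      have h2 := hw 1 (by omega)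
      rw [Nat.add_sub_cancel] at h2
      rw [← h2]
      unfold pv
      have e3 : vx oo up (rev W) 1 = up := by
        show oo + up = up
        decide
      rw [e3]
    rw [e1] at h1
    rw [h1, e2]
  -- the rotations are equal
  have k2 : mulE (gE H).2 (rt (rev (l :: F))) = mulE (rt P) (gE (W ++ [l])).2 := by
    rw [mulE_add, mulE_add, ← add_assoc, ← add_assoc, k0] at k1
    have k3 := add_left_cancel k1
    rw [mulE_assoc, mulE_assoc, mulE_comm _ up, mulE_comm _ up] at k3
    exact mulE_inj (by decide) k3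
  rw [mulE_add, mulE_add, ← add_assoc, ← add_assoc, k0, mulE_assoc, mulE_assoc, k2]

lemma rev_app (x y : List Bool) : rev (x ++ y) = rev y ++ rev x := by
  unfold rev
  simp

/-- **the outer pair of the window and of the word** -/
theorem outF_win {r r' : ℕ} {D : ℤ} (hr : 3 * r ≤ r') {P A Y1 B Y2 F H : List Bool} {l l' : Bool}
    (hH : H = P ++ (((A ++ Y1) ++ rev (B ++ Y2)) ++ [l]) ++ (F ++ [l'])) (hSA : H ∈ SA)
    (hl : (A ++ Y1).length = (B ++ Y2).length + 1) (h1 : hn (TIW.en Y1) ≤ D) (h2 : hn (TIW.en Y2) ≤ D)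
    (hfar : ∀ i, i ≤ H.length → (i ≤ P.length ∨ P.length + 2 * (A ++ Y1).length ≤ i) →
      3 * (r : ℤ) + D + 2 < hn (vx oo up H i - vx oo up H (P.length + (A ++ Y1).length)))
    (hO : OutF r' (A, (gE (((A ++ Y1) ++ rev (B ++ Y2)) ++ [l]), B))) :
    OutF r (P ++ A, (gE H, rev (l :: F) ++ B)) := by
  obtain ⟨W, hW⟩ : ∃ W, W = (A ++ Y1) ++ rev (B ++ Y2) := ⟨_, rfl⟩
  rw [← hW] at hH hO
  have key : ∀ q : Pt, (gE H).1 + mulE (gE H).2 (TIW.en (rev (l :: F)) + mulE (rt (rev (l :: F))) q) =
      TIW.en P + mulE (rt P) ((gE (W ++ [l])).1 + mulE (gE (W ++ [l])).2 q) := by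
    intro q
    rw [hH]
    exact key_frame q
  obtain ⟨R, hR⟩ : ∃ R, R = rev (l :: F) := ⟨_, rfl⟩
  have hdl : rev H.dropLast = (R ++ B) ++ (Y2 ++ (rev (A ++ Y1) ++ rev P)) := by
    rw [hH, ← List.append_assoc, List.dropLast_concat, rev_app, rev_app, rev_app, hW, rev_app, rev_rev, hR]
    have e : rev F ++ rev [l] = rev (l :: F) := by
      rw [← rev_app]
      rfl
    rw [← e]
    simp only [List.append_assoc]
  have hRl : R.length = F.length + 1 := by
    rw [hR, rev_length, List.length_cons]
  rw [← hR] at key ⊢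
  have hWl : W.length + 1 = 2 * (A ++ Y1).length := by
    rw [hW, List.length_append, rev_length]
    omega
  have hHl : H.length = P.length + 2 * (A ++ Y1).length + R.length := by
    rw [hH, hRl, ← hWl]
    simp only [List.length_append, List.length_cons, List.length_nil]
  have lA : (A ++ Y1).length = A.length + Y1.length := List.length_append
  have lB : (B ++ Y2).length = B.length + Y2.length := List.length_append
  have lPA : (P ++ A).length = P.length + A.length := List.length_append
  have lRB : (R ++ B).length = R.length + B.length := List.length_append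
  have hFr : Fr (gE H) := Fr_gE (by omega)
  have hFW : Fr (gE (W ++ [l])) := Fr_gE (by simp)
  -- the vertices
  have v1 : ∀ i, i ≤ (P ++ A).length → vx oo up (P ++ A) i = vx oo up H i := by
    intro i hi
    have e : H = (P ++ A) ++ (Y1 ++ (rev (B ++ Y2) ++ ([l] ++ (F ++ [l'])))) := by
      rw [hH, hW]
      simp only [List.append_assoc]
    rw [e]
    exact (vx_append (by omega)).symm
  have v2 : ∀ s, s ≤ (R ++ B).length → pv (gE H) (R ++ B) s = vx oo up H (H.length - s) := by
    intro s hs
    rw [← pv_gE (by omega) (by omega), hdl]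
    unfold pv
    rw [vx_append (t := R ++ B) (s := Y2 ++ (rev (A ++ Y1) ++ rev P)) (by omega)]
  have t1 : hn (vx oo up H (P.length + (A ++ Y1).length) - TIW.en (P ++ A)) ≤ D := by
    have e : H = ((P ++ A) ++ Y1) ++ (rev (B ++ Y2) ++ ([l] ++ (F ++ [l']))) := by
      rw [hH, hW]
      simp only [List.append_assoc]
    have e2 : vx oo up H (P.length + (A ++ Y1).length) = TIW.en ((P ++ A) ++ Y1) := by
      rw [e, vx_append (by simp only [List.length_append]; omega)]
      unfold TIW.en
      congr 1
      simp only [List.length_append]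
      omega
    rw [e2, en_app2, add_sub_cancel_left, TIW.hn_mulE (nrm_rt _)]
    exact h1
  have t2 : hn (vx oo up H (P.length + (A ++ Y1).length + 1) - pe (gE H) (R ++ B)) ≤ D := by
    have e1 : rev H.dropLast = ((R ++ B) ++ Y2) ++ (rev (A ++ Y1) ++ rev P) := by
      rw [hdl]
      simp only [List.append_assoc]
    have e2 := pv_gE (H := H) (by omega) (s := (R ++ B).length + Y2.length) (by omega)
    rw [e1] at e2
    have e3 : pv (gE H) (((R ++ B) ++ Y2) ++ (rev (A ++ Y1) ++ rev P)) ((R ++ B).length + Y2.length) =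
        pv (gE H) ((R ++ B) ++ Y2) ((R ++ B).length + Y2.length) := by
      unfold pv
      rw [vx_append (t := (R ++ B) ++ Y2) (s := rev (A ++ Y1) ++ rev P)
        (by rw [List.length_append (as := R ++ B) (bs := Y2)]; omega)]
    rw [e3, pv_app] at e2
    rw [show P.length + (A ++ Y1).length + 1 = H.length - ((R ++ B).length + Y2.length) by omega, ← e2, mulE_add,
      ← add_assoc]
    show hn ((gE H).1 + mulE (gE H).2 (TIW.en (R ++ B)) + mulE (gE H).2 (mulE (rt (R ++ B)) (vx oo up Y2 Y2.length)) -
      ((gE H).1 + mulE (gE H).2 (TIW.en (R ++ B)))) ≤ D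
    rw [add_sub_cancel_left, TIW.hn_mulE hFr.nrm, TIW.hn_mulE (nrm_rt _)]
    exact h2
  have t3 := hn_stepN H (P.length + (A ++ Y1).length)
  -- far vertices
  have far1 : ∀ i, i ≤ H.length → (i ≤ P.length ∨ P.length + 2 * (A ++ Y1).length ≤ i) →
      3 * (r : ℤ) < hn (vx oo up H i - TIW.en (P ++ A)) := by
    intro i hi hc
    have a1 := hfar i hi hc
    have a2 := TIW.hn_tri (vx oo up H i) (TIW.en (P ++ A)) (vx oo up H (P.length + (A ++ Y1).length))
    have a3 := TIW.hn_sub_comm (TIW.en (P ++ A)) (vx oo up H (P.length + (A ++ Y1).length))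
    linarith
  have far2 : ∀ i, i ≤ H.length → (i ≤ P.length ∨ P.length + 2 * (A ++ Y1).length ≤ i) →
      3 * (r : ℤ) < hn (vx oo up H i - pe (gE H) (R ++ B)) := by
    intro i hi hc
    have a1 := hfar i hi hc
    have a2 := TIW.hn_tri (vx oo up H i) (pe (gE H) (R ++ B)) (vx oo up H (P.length + (A ++ Y1).length))
    have a3 := TIW.hn_tri (pe (gE H) (R ++ B)) (vx oo up H (P.length + (A ++ Y1).length + 1))
      (vx oo up H (P.length + (A ++ Y1).length))
    have a4 := TIW.hn_sub_comm (pe (gE H) (R ++ B)) (vx oo up H (P.length + (A ++ Y1).length + 1))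
    have a5 := TIW.hn_sub_comm (vx oo up H (P.length + (A ++ Y1).length + 1)) (vx oo up H (P.length + (A ++ Y1).length))
    linarith
  refine ⟨?_, ?_, hFr, ?_, ?_, ?_, ?_, ?_, ?_⟩
  · refine SA_pre (Z := Y1 ++ (rev (B ++ Y2) ++ ([l] ++ (F ++ [l'])))) ?_
    have e : H = (P ++ A) ++ (Y1 ++ (rev (B ++ Y2) ++ ([l] ++ (F ++ [l'])))) := by
      rw [hH, hW]
      simp only [List.append_assoc]
    rw [← e]
    exact hSA
  · refine ⟨fun _ _ _ => Set.mem_univ _, fun i k hik hk he => ?_⟩
    have hk' : k ≤ (R ++ B).length := hk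
    refine hSA.inj (H.length - k) (H.length - i) (by omega) (by omega) ?_
    rw [← v2 k hk', ← v2 i (by omega)]
    unfold pv
    have he' : vx oo up (R ++ B) i = vx oo up (R ++ B) k := he
    rw [he']
  · rintro i hi ⟨s, hs, he⟩
    have hi' : i ≤ (P ++ A).length := hi
    have hs' : s ≤ (R ++ B).length := hs
    have he' : vx oo up (P ++ A) i = pv (gE H) (R ++ B) s := he
    rw [v1 i hi', v2 s hs'] at he'
    exact hSA.inj i (H.length - s) (by omega) (by omega) he'
  · refine freeT_app hr hO.fa fun i hi => ?_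
    rw [v1 i (by omega)]
    exact far1 i (by omega) (Or.inl hi.le)
  · refine freeT_app hr hO.fb fun i hi => ?_
    have e : hn (vx oo up (R ++ B) i - TIW.en (R ++ B)) = hn (pv (gE H) (R ++ B) i - pe (gE H) (R ++ B)) :=
      (hn_pv_self hFr (R ++ B) i (R ++ B).length).symm
    rw [e, v2 i (by omega)]
    exact far2 _ (by omega) (Or.inr (by omega))
  · refine freeO_tr hr hO.oa ?_
    rintro p ⟨s, hs, rfl⟩
    have hs' : s ≤ (R ++ B).length := hs
    rcases lt_or_ge s R.length with h | h
    · left
      show 3 * (r : ℤ) < hn (pv (gE H) (R ++ B) s - TIW.en (P ++ A))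
      rw [v2 s hs']
      exact far1 _ (by omega) (Or.inr (by omega))
    · right
      obtain ⟨s', rfl⟩ := Nat.exists_eq_add_of_le h
      refine ⟨pv (gE (W ++ [l])) B s', ⟨s', (by omega : s' ≤ B.length), rfl⟩, ?_⟩
      show pv (gE H) (R ++ B) (R.length + s') = _
      rw [pv_app, key]
      rfl
  · refine freeO_tr hr hO.ob ?_
    rintro p ⟨i, hi, rfl⟩
    have hi' : i ≤ (P ++ A).length := hi
    rcases lt_or_ge i P.length with h | h
    · left
      show 3 * (r : ℤ) < hn (pv (gi (gE H)) (P ++ A) i - TIW.en (R ++ B))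
      have e := hn_pv hFr (R ++ B) (P ++ A) (R ++ B).length i
      rw [TIW.hn_sub_comm] at e
      have e' : hn (pv (gi (gE H)) (P ++ A) i - TIW.en (R ++ B)) = hn (vx oo up (P ++ A) i - pe (gE H) (R ++ B)) := e
      rw [e', v1 i hi']
      exact far2 _ (by omega) (Or.inl h.le)
    · right
      obtain ⟨i', rfl⟩ := Nat.exists_eq_add_of_le h
      refine ⟨pv (gi (gE (W ++ [l]))) A i', ⟨i', (by omega : i' ≤ A.length), rfl⟩, ?_⟩
      show pv (gi (gE H)) (P ++ A) (P.length + i') = _
      have e1 := pv_gi hFr (P ++ A) (P.length + i')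
      rw [vx_app, pv_gi hFW A i', ← key] at e1
      exact (mulE_inj hFr.nrm (add_left_cancel e1)).symm
  · have e : TIW.en (P ++ A) - pe (gE H) (R ++ B) = mulE (rt P) (TIW.en A - pe (gE (W ++ [l])) B) := by
      have e1 : pe (gE H) (R ++ B) = TIW.en P + mulE (rt P) (pe (gE (W ++ [l])) B) := by
        unfold pe
        rw [lRB, pv_app, key]
        rfl
      rw [e1, en_app2, mulE_sub]
      abel
    show 8 * (r : ℤ) < hn (TIW.en (P ++ A) - pe (gE H) (R ++ B))
    rw [e, TIW.hn_mulE (nrm_rt P)]
    have h8 : 8 * (r' : ℤ) < hn (TIW.en A - pe (gE (W ++ [l])) B) := hO.far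
    have : (3 * r : ℤ) ≤ r' := by exact_mod_cast hr
    have h9 : (0 : ℤ) ≤ r := Int.natCast_nonneg r
    linarith

/-! ### the row -/

lemma CPr_fin (j a m w : ℕ) (η : ℝ) (T : PT) : (CPr j a m w η T).Finite := by
  refine ((List.finite_length_le Bool w).prod (List.finite_length_le Bool w)).subset ?_
  rintro p ⟨-, -, -, -, h1, h2, -⟩
  exact ⟨h1, h2⟩

/-- **row L5** -/
theorem winGM2 : WinGM2 := by
  intro j a m w t η κ H hSA haj hwt htw hG hfar
  rcases Nat.eq_zero_or_pos w with h0 | hw
  · subst h0
    refine hG.trans ?_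
    have he : CPr j a m 0 η (cutH 0 (mwin 0 t H)) = ∅ := by
      rw [Set.eq_empty_iff_forall_notMem]
      rintro ⟨Y1, Y2⟩ ⟨-, -, -, -, l1, l2, A, B, e1, e2, hO⟩
      have hm : mwin 0 t H = [] := by
        unfold mwin
        simp
      rw [hm] at e1 e2 hO
      have e3 : A = [] := by
        have : ([] : List Bool) = A ++ Y1 := e1
        exact (List.append_eq_nil_iff.1 this.symm).1
      have e4 : B = [] := by
        have : rev (([] : List Bool).drop 0).dropLast = B ++ Y2 := e2
        have h : ([] : List Bool) = B ++ Y2 := this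
        exact (List.append_eq_nil_iff.1 h.symm).1
      subst e3 e4
      have h8 := hO.far
      have h9 : TIW.en ([] : List Bool) - pe (gE ([] : List Bool)) [] = 0 := by
        show oo - ((gE ([] : List Bool)).1 + mulE (gE ([] : List Bool)).2 oo) = 0
        have : (gE ([] : List Bool)).1 = oo := rfl
        rw [this]
        have e : ∀ c : Pt, mulE c oo = oo := by
          intro c
          unfold mulE oo
          simp
        rw [e]
        decide
      have h10 : 8 * ((2 ^ (j - a) : ℕ) : ℤ) < hn (TIW.en ([] : List Bool) - pe (gE ([] : List Bool)) []) := h8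
      rw [h9] at h10
      have h11 : hn (0 : Pt) = 0 := by decide
      rw [h11] at h10
      have : (0 : ℤ) ≤ ((2 ^ (j - a) : ℕ) : ℤ) := Int.natCast_nonneg _
      omega
    rw [he, Set.ncard_empty]
    simp
  -- the decomposition
  obtain ⟨P, hP⟩ : ∃ P, P = H.take (t - w) := ⟨_, rfl⟩
  obtain ⟨V, hV⟩ : ∃ V, V = mwin w t H := ⟨_, rfl⟩
  obtain ⟨G, hG'⟩ : ∃ G, G = H.drop (t + w) := ⟨_, rfl⟩
  have hPl : P.length = t - w := by
    rw [hP, List.length_take]
    omega
  have hVl : V.length = 2 * w := by
    rw [hV]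
    unfold mwin
    rw [List.length_take, List.length_drop]
    omega
  have hGl : G.length = H.length - (t + w) := by
    rw [hG', List.length_drop]
  have hH : H = P ++ V ++ G := by
    rw [hP, hV, hG']
    unfold mwin
    have e1 : H.drop (t + w) = (H.drop (t - w)).drop (2 * w) := by
      rw [List.drop_drop]
      congr 1
      omega
    rw [e1, List.append_assoc, List.take_append_drop, List.take_append_drop]
  obtain ⟨F, l', hF⟩ : ∃ (F : List Bool) (l' : Bool), G = F ++ [l'] := by
    have hne : G ≠ [] := by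
      intro h
      rw [h] at hGl
      simp only [List.length_nil] at hGl
      omega
    exact ⟨G.dropLast, G.getLast hne, (List.dropLast_append_getLast hne).symm⟩
  obtain ⟨V1, hV1⟩ : ∃ V1, V1 = V.take w := ⟨_, rfl⟩
  obtain ⟨V2, l, hV2⟩ : ∃ (V2 : List Bool) (l : Bool), V.drop w = V2 ++ [l] := by
    have hne : V.drop w ≠ [] := by
      intro h
      have h2 := congrArg List.length h
      rw [List.length_drop, hVl] at h2
      simp only [List.length_nil] at h2
      omega
    exact ⟨(V.drop w).dropLast, (V.drop w).getLast hne, (List.dropLast_append_getLast hne).symm⟩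
  have hVe : V = V1 ++ (V2 ++ [l]) := by
    rw [hV1, ← hV2, List.take_append_drop]
  have hV1l : V1.length = w := by
    rw [hV1, List.length_take]
    omega
  have hV2l : V2.length + 1 = w := by
    have h2 := congrArg List.length hV2
    rw [List.length_drop, hVl, List.length_append, List.length_cons, List.length_nil] at h2
    omega
  -- the two cut words
  have c1 : cutH w V = (V1, (gE V, rev V2)) := by
    unfold cutH
    rw [hV2, List.dropLast_concat, ← hV1]
  have c2 : cutH t H = (P ++ V1, (gE H, rev (l :: F) ++ rev V2)) := by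
    unfold cutH
    have e1 : H.take t = P ++ V1 := by
      have e : H = (P ++ V1) ++ (V2 ++ [l] ++ G) := by
        rw [hH, hVe]
        simp only [List.append_assoc]
      rw [e]
      exact List.take_left' (by rw [List.length_append]; omega)
    have e2 : H.drop t = (V2 ++ [l] ++ F) ++ [l'] := by
      have e : H = (P ++ V1) ++ ((V2 ++ [l] ++ F) ++ [l']) := by
        rw [hH, hVe, hF]
        simp only [List.append_assoc]
      rw [e]
      exact List.drop_left' (by rw [List.length_append]; omega)
    rw [e1, e2, List.dropLast_concat]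
    have e3 : rev (V2 ++ [l] ++ F) = rev (l :: F) ++ rev V2 := by
      rw [List.append_assoc, rev_app]
      rfl
    rw [e3]
  rw [← hV, c1] at hG
  rw [c2]
  refine hG.trans ?_
  have hD : (0 : ℤ) < 2 ^ (j + m) := by positivity
  have h16 : (2 : ℤ) ^ (j + m + 4) = 16 * 2 ^ (j + m) := by ring
  have hr4 : 4 * 2 ^ (j - (a + 2)) = 2 ^ (j - a) := by
    rw [show j - a = j - (a + 2) + 2 by omega, pow_add]
    ring
  have hrD : (4 : ℤ) * 2 ^ (j - (a + 2)) ≤ 2 ^ (j + m) := by
    have h1 : 4 * 2 ^ (j - (a + 2)) ≤ 2 ^ (j + m) := by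
      rw [hr4]
      exact Nat.pow_le_pow_right (by norm_num) (by omega)
    exact_mod_cast h1
  have hsub : CPr j a m w η ((V1, (gE V, rev V2)) : PT) ⊆
      CPr j (a + 2) m w η ((P ++ V1, (gE H, rev (l :: F) ++ rev V2)) : PT) := by
    rintro ⟨Y1, Y2⟩ ⟨g1, g2, i1, i2, l1, l2, A, B, e1, e2, hO⟩
    have e1' : V1 = A ++ Y1 := e1
    have e2' : rev V2 = B ++ Y2 := e2
    have e3 : V2 = rev (B ++ Y2) := by rw [← e2', rev_rev]
    refine ⟨g1, g2, i1, i2, l1, l2, P ++ A, rev (l :: F) ++ B, ?_, ?_, ?_⟩
    · show P ++ V1 = P ++ A ++ Y1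
      rw [e1', List.append_assoc]
    · show rev (l :: F) ++ rev V2 = rev (l :: F) ++ B ++ Y2
      rw [e2', List.append_assoc]
    · have q1 : hn (TIW.en Y1) ≤ 3 * 2 ^ (j + m) := by
        have := hn_In i1
        push_cast at this
        exact this
      have q2 : hn (TIW.en Y2) ≤ 3 * 2 ^ (j + m) := by
        have := hn_In i2
        push_cast at this
        exact this
      have hV3 : V = ((A ++ Y1) ++ rev (B ++ Y2)) ++ [l] := by
        rw [hVe, e1', e3]
        simp only [List.append_assoc]
      have l1' : (A ++ Y1).length = w := by rw [← e1', hV1l]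
      have l2' : (B ++ Y2).length + 1 = w := by rw [← e2', rev_length, hV2l]
      refine outF_win (r' := 2 ^ (j - a)) (D := 3 * 2 ^ (j + m)) (Y1 := Y1) (Y2 := Y2) (l' := l') (by omega) ?_ hSA
        (by omega) q1 q2 ?_ ?_
      · rw [← hV3, ← hF]
        exact hH
      · intro i hi hc
        rw [l1', hPl] at hc ⊢
        rw [show t - w + w = t by omega]
        have h := hfar i hi (by omega)
        push_cast
        rw [h16] at h
        linarith
      · rw [← hV3]
        exact hO
  exact_mod_cast Set.ncard_le_ncard hsub (CPr_fin _ _ _ _ _ _)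

end RMP

end HexObs
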