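import Pool.Agent.RMP.LowM
import Pool.Agent.RMP.FarN
import Pool.Agent.RMP.Num
import Pool.Agent.RMP.TipAdd
import Pool.Agent.RMP.WinGM
import Pool.Agent.RMP.TransD
import Pool.Agent.TSW.LayB
import Pool.Agent.ARM.Low
import Pool.Agent.NTA.C1Of

/-!
# (RM), row P9, assembly (helper10): the mass of the pairs from below

* `mark_sum`, `good_mass` : the marks of one length;
* `gap_tips`, `tips_PR` : two short tips do not change the gap and the numbers of letters too much;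
* **`lowPR_of`** : the literal `LowPR` of row P9 from `TipAdd` (L1), `PolG2` (L3), `TransD` (L4) and `WinGM2` (L5);
* **`lowPR_pol`** : the same from `PolG2` only.
-/

set_option autoImplicit false

namespace HexObs

namespace RMP

open Finset TS SDN HexObs.SIM NTA TIP ARM

open scoped ENNReal

/-- **row L3** with `2 * w < N`: the roots of the polygons are good marks -/
def PolG2 : Prop := ∀ ε : ℝ, 0 < ε → ∃ (η κ C : ℝ) (a m b0 : ℕ), 0 < η ∧ 0 < κ ∧ 0 < C ∧ ∀ j N w : ℕ, b0 ≤ j →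
  2 ^ b0 * ml j ≤ N → C * ml j ≤ w → 2 * w < N →
    gf {K | K ∈ POL.Cy N ∧ ¬ GM j a m w η κ (cutH w (rwin w K))} ≤ ENNReal.ofReal (ε * (N : ℝ) ^ (-(3 / 2) : ℝ))

/-- **row P9**: the literal -/
def LowPR : Prop := ∀ t0 d : ℝ, 0 < t0 → 0 < d → ∃ (c : ℝ) (b0 : ℕ), 0 < c ∧ ∀ n k j : ℕ, b0 ≤ j → 2 ^ b0 * ml j ≤ n →
  t0 * n ≤ k → (k : ℝ) ≤ (1 - t0) * n → ∀ S : Set Pt, (∀ p : Pt, TIW.hn p ≤ 2 ^ j → p ∈ S) →
    ENNReal.ofReal (c * ((2 : ℝ) ^ ((59 / 24 : ℝ) * j) * (n : ℝ) ^ (75 / 32 : ℝ))) ≤ gp (PR n k d S)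

namespace LowP

open scoped Classical in
/-- the marks of one length -/
lemma mark_sum {N : ℕ} (I : Finset ℕ) (P : ℕ → List Bool → Prop) (G : Set (List Bool)) {K : ℝ}
    (h : ∀ H, H ∈ SawN N → H ∈ G → K ≤ ((I.filter fun t => P t H).card : ℝ)) :
    ENNReal.ofReal K * gf {H | H ∈ SawN N ∧ H ∈ G} ≤ ∑ t ∈ I, gf {H | H ∈ SawN N ∧ P t H} := by
  have e1 : ∀ S : Set (List Bool), gf S = ∑' H, S.indicator wE H := fun S => tsum_subtype S wE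
  simp_rw [e1]
  rw [← ENNReal.tsum_mul_left, ← Summable.tsum_finsetSum (fun _ _ => ENNReal.summable)]
  refine ENNReal.tsum_le_tsum fun H => ?_
  by_cases hH : H ∈ SawN N ∧ H ∈ G
  · rw [Set.indicator_of_mem (show H ∈ {H | H ∈ SawN N ∧ H ∈ G} from hH)]
    have e2 : ∑ t ∈ I, ({H | H ∈ SawN N ∧ P t H} : Set (List Bool)).indicator wE H =
        ∑ t ∈ I.filter (fun t => P t H), wE H := by
      rw [sum_filter]
      refine sum_congr rfl fun t _ => ?_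
      by_cases hp : P t H
      · rw [if_pos hp, Set.indicator_of_mem (show H ∈ {H | H ∈ SawN N ∧ P t H} from ⟨hH.1, hp⟩)]
      · rw [if_neg hp, Set.indicator_of_notMem (fun hc : H ∈ {H | H ∈ SawN N ∧ P t H} => hp hc.2)]
    rw [e2, sum_const, nsmul_eq_mul]
    refine mul_le_mul' ?_ le_rfl
    rw [← ENNReal.ofReal_natCast]
    exact ENNReal.ofReal_le_ofReal (h H hH.1 hH.2)
  · rw [Set.indicator_of_notMem (show H ∉ {H | H ∈ SawN N ∧ H ∈ G} from hH), mul_zero]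
    exact zero_le

/-- the words outside of two small sets -/
lemma good_mass {N : ℕ} {B1 B2 : Set (List Bool)} (h1 : TOG.Pn N B1 ≤ 1 / 4) (h2 : TOG.Pn N B2 ≤ 1 / 4) :
    ENNReal.ofReal (1 / 2) * gf (SawN N) ≤ gf {H | H ∈ SawN N ∧ H ∈ {H | H ∉ B1 ∧ H ∉ B2}} := by
  have m1 := NgA.Pn_mul N B1
  have m2 := NgA.Pn_mul N B2
  obtain ⟨g, hg⟩ : ∃ g : ℝ≥0∞, g = gf (SawN N) := ⟨_, rfl⟩
  have hgt : g ≠ ⊤ := hg ▸ (NgA.saw_ne N).2
  have h3 : g ≤ gf {H | H ∈ SawN N ∧ H ∈ {H | H ∉ B1 ∧ H ∉ B2}} +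
      (gf {H | H ∈ SawN N ∧ H ∈ B1} + gf {H | H ∈ SawN N ∧ H ∈ B2}) := by
    rw [hg]
    refine (gf_mono fun t ht => ?_).trans ((gf_union_le _ _).trans (add_le_add le_rfl (gf_union_le _ _)))
    by_cases hb1 : t ∈ B1
    · exact Or.inr (Or.inl ⟨ht, hb1⟩)
    · by_cases hb2 : t ∈ B2
      · exact Or.inr (Or.inr ⟨ht, hb2⟩)
      · exact Or.inl ⟨ht, hb1, hb2⟩
  have q1 : gf {H | H ∈ SawN N ∧ H ∈ B1} ≤ g * ENNReal.ofReal (1 / 4) := by
    rw [← m1, hg]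
    exact mul_le_mul' le_rfl (ENNReal.ofReal_le_ofReal h1)
  have q2 : gf {H | H ∈ SawN N ∧ H ∈ B2} ≤ g * ENNReal.ofReal (1 / 4) := by
    rw [← m2, hg]
    exact mul_le_mul' le_rfl (ENNReal.ofReal_le_ofReal h2)
  have q3 : ENNReal.ofReal (1 / 2) * g + (g * ENNReal.ofReal (1 / 4) + g * ENNReal.ofReal (1 / 4)) = g := by
    rw [mul_comm (ENNReal.ofReal (1 / 2)) g, ← mul_add, ← mul_add, ← ENNReal.ofReal_add (by norm_num) (by norm_num),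
      ← ENNReal.ofReal_add (by norm_num) (by norm_num)]
    norm_num
  rw [← hg]
  have q4 : ENNReal.ofReal (1 / 2) * g + (g * ENNReal.ofReal (1 / 4) + g * ENNReal.ofReal (1 / 4)) ≤
      gf {H | H ∈ SawN N ∧ H ∈ {H | H ∉ B1 ∧ H ∉ B2}} + (g * ENNReal.ofReal (1 / 4) + g * ENNReal.ofReal (1 / 4)) := by
    rw [q3]
    exact h3.trans (add_le_add le_rfl (add_le_add q1 q2))
  have hf : g * ENNReal.ofReal (1 / 4) + g * ENNReal.ofReal (1 / 4) ≠ ⊤ :=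
    ENNReal.add_ne_top.2 ⟨ENNReal.mul_ne_top hgt ENNReal.ofReal_ne_top, ENNReal.mul_ne_top hgt ENNReal.ofReal_ne_top⟩
  exact (ENNReal.add_le_add_iff_right hf).1 q4

/-- the gap after two tips -/
lemma gap_tips {A B Y1 Y2 : List Bool} {g : Pt × Pt} {r ρ : ℤ} (hg : Fr g) (h : TIW.hn (TIW.en A - pe g B) ≤ ρ)
    (h1 : TIW.hn (TIW.en Y1) ≤ r) (h2 : TIW.hn (TIW.en Y2) ≤ r) :
    TIW.hn (TIW.en (A ++ Y1) - pe g (B ++ Y2)) ≤ ρ + 2 * r := by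
  have hgn : nrm g.2 = 1 := mem_dirs.1 hg.1
  have e0 : ∀ B : List Bool, pe g B = g.1 + mulE g.2 (TIW.en B) := fun _ => rfl
  have e1 : TIW.en (A ++ Y1) - pe g (B ++ Y2) = (TIW.en A - pe g B) + (mulE (TIW.rt A) (TIW.en Y1) -
      mulE g.2 (mulE (TIW.rt B) (TIW.en Y2))) := by
    rw [e0, e0, TIW.en_app, TIW.en_app, mulE_add]
    abel
  rw [e1]
  have h3 := TIW.hn_add (TIW.en A - pe g B) (mulE (TIW.rt A) (TIW.en Y1) - mulE g.2 (mulE (TIW.rt B) (TIW.en Y2)))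
  have h4 := TIW.hn_sub (mulE (TIW.rt A) (TIW.en Y1)) (mulE g.2 (mulE (TIW.rt B) (TIW.en Y2)))
  rw [TIW.hn_mulE (TIW.nrm_rt A), TIW.hn_mulE hgn, TIW.hn_mulE (TIW.nrm_rt B)] at h4
  linarith


open scoped Classical in
/-- the marks of one length: all words outside of two small sets have many good marks -/
lemma marks_one {j a m w x y N : ℕ} {η κ δ r e K : ℝ} (hW : WinGM2) (haj : a + 2 ≤ j) (hxy : x ≤ y) (hyN : y + w ≤ N)
    (hw : δ * N ≤ w) (hρ : (2 : ℝ) ^ (j + m + 4) ≤ r * (N : ℝ) ^ (3 / 4 : ℝ)) (he : e ≤ 1 / 4)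
    (h1 : TOG.Pn N {t | ¬ ∀ x y : ℕ, x ≤ y → y ≤ N →
      (y : ℝ) - x - e * N ≤ nwin w {W | GM j a m w η κ (cutH w W)} t x y} ≤ e)
    (h2 : MCP.Eu N (fun t => if FarN.NearW δ r N t then 1 else 0) ≤ e) (hK : K ≤ (y : ℝ) - x - e * N) :
    ENNReal.ofReal K * (ENNReal.ofReal (1 / 2) * gf (SawN N)) ≤
      ∑ t ∈ Ico x y, gf {H | H ∈ SawN N ∧ GM j (a + 2) m w η κ (cutH t H)} := by
  obtain ⟨S, hS⟩ : ∃ S : Set (List Bool), S = {W | GM j a m w η κ (cutH w W)} := ⟨_, rfl⟩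
  obtain ⟨B1, hB1⟩ : ∃ B1 : Set (List Bool), B1 = {t | ¬ ∀ x y : ℕ, x ≤ y → y ≤ N →
      (y : ℝ) - x - e * N ≤ nwin w {W | GM j a m w η κ (cutH w W)} t x y} := ⟨_, rfl⟩
  obtain ⟨B2, hB2⟩ : ∃ B2 : Set (List Bool), B2 = {t | FarN.NearW δ r N t} := ⟨_, rfl⟩
  have h2' : TOG.Pn N B2 ≤ e := by
    rw [MCP.Pn_Eu]
    refine le_of_eq_of_le ?_ h2
    congr 1
    funext t
    unfold TIP.ind
    rw [hB2]
    exact if_congr Iff.rfl rfl rfl
  rw [← hB1] at h1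
  refine (mul_le_mul' le_rfl (good_mass (h1.trans he) (h2'.trans he))).trans ?_
  refine mark_sum (Ico x y) (fun t H => GM j (a + 2) m w η κ (cutH t H)) {H | H ∉ B1 ∧ H ∉ B2} ?_
  rintro H hH ⟨hb1, hb2⟩
  have hl : H.length = N := hH.1
  have hg1 : ∀ x y : ℕ, x ≤ y → y ≤ N → (y : ℝ) - x - e * N ≤ nwin w S H x y := by
    by_contra hc
    refine hb1 ?_
    rw [hB1, ← hS]
    exact hc
  have hg2 : ¬ FarN.NearW δ r N H := by
    intro hc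
    refine hb2 ?_
    rw [hB2]
    exact hc
  refine hK.trans ((hg1 x y hxy (by omega)).trans ?_)
  unfold nwin
  have hcard : ((Ico x y).filter fun i => w ≤ i ∧ i + w ≤ H.length ∧ mwin w i H ∈ S).card ≤
      ((Ico x y).filter fun t => GM j (a + 2) m w η κ (cutH t H)).card := by
    refine card_le_card fun t ht => ?_
    rw [mem_filter, mem_Ico] at ht ⊢
    obtain ⟨⟨t1, t2⟩, t3, t4, t5⟩ := ht
    refine ⟨⟨t1, t2⟩, ?_⟩
    rw [hS] at t5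
    refine hW j a m w t η κ H hH.2 haj t3 (by omega) t5 fun i hi hit => ?_
    have hfar : ∀ i k : ℕ, k ≤ N → (i : ℝ) + δ * N ≤ k →
        r * (N : ℝ) ^ (3 / 4 : ℝ) < (TIW.hn (vx oo up H i - vx oo up H k) : ℝ) := by
      intro i k hk hik
      by_contra hc
      exact hg2 ⟨i, k, hk, hik, not_lt.1 hc⟩
    have hcast : ∀ z : ℤ, (2 : ℝ) ^ (j + m + 4) < (z : ℝ) → (2 : ℤ) ^ (j + m + 4) < z := by
      intro z hz
      exact_mod_cast hz
    rcases hit with hit | hit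
    · refine hcast _ (hρ.trans_lt (hfar i t (by omega) ?_))
      have : ((i + w : ℕ) : ℝ) ≤ t := by exact_mod_cast hit
      push_cast at this
      linarith
    · rw [TIW.hn_sub_comm]
      refine hcast _ (hρ.trans_lt (hfar t i (by omega) ?_))
      have : ((t + w : ℕ) : ℝ) ≤ i := by exact_mod_cast hit
      push_cast at this
      linarith
  exact_mod_cast hcard

/-- the powers -/
lemma pow_num {c1 κ C2 c3 cX CU s0 : ℝ} (h1 : 0 < c1) (h2 : 0 < κ) (h3 : 0 < C2) (h4 : 0 < c3) (h5 : 0 < cX) (h6 : 0 < CU)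
    {n j : ℕ} (hn : 1 ≤ n) (hU : (2 : ℝ) ^ j * (2 : ℝ) ^ (-((j : ℝ) / 4)) ≤ CU * Ub j) :
    s0 ^ 2 * c1 * κ ^ 2 * c3 * cX / (512 * C2 * CU) * ((2 : ℝ) ^ ((59 / 24 : ℝ) * j) * (n : ℝ) ^ (75 / 32 : ℝ)) ≤
      (s0 * n) ^ 2 / 512 * (c1 * (n : ℝ) ^ (11 / 32 : ℝ)) * (κ * Ub j) ^ 2 / (C2 * (Ub j / 4 ^ j * ml j)) *
        (c3 * (cX * (2 : ℝ) ^ (25 / 24 * (j : ℝ)))) := by
  have hUp := Ub_pos j
  have hml := ml_pos j
  have hn0 : (0 : ℝ) < n := by exact_mod_cast hn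
  have e1 : (n : ℝ) ^ (75 / 32 : ℝ) = (n : ℝ) ^ 2 * (n : ℝ) ^ (11 / 32 : ℝ) := by
    rw [← Real.rpow_natCast, ← Real.rpow_add hn0]
    norm_num
  have e2 : (2 : ℝ) ^ ((59 / 24 : ℝ) * j) = (2 : ℝ) ^ j * (2 : ℝ) ^ (-((j : ℝ) / 4)) * (4 ^ j / ml j) *
      (2 : ℝ) ^ (25 / 24 * (j : ℝ)) := by
    have k1 : (4 : ℝ) ^ j = (2 : ℝ) ^ (2 * (j : ℝ)) := by
      rw [Real.rpow_mul (by norm_num), Real.rpow_natCast]
      norm_num
    have k2 : (2 : ℝ) ^ j = (2 : ℝ) ^ (j : ℝ) := (Real.rpow_natCast _ _).symm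
    rw [k1, k2]
    unfold ml
    rw [← Real.rpow_sub (by norm_num), ← Real.rpow_add (by norm_num), ← Real.rpow_add (by norm_num),
      ← Real.rpow_add (by norm_num)]
    congr 1
    ring
  have e3 : (s0 * n) ^ 2 / 512 * (c1 * (n : ℝ) ^ (11 / 32 : ℝ)) * (κ * Ub j) ^ 2 / (C2 * (Ub j / 4 ^ j * ml j)) *
        (c3 * (cX * (2 : ℝ) ^ (25 / 24 * (j : ℝ)))) =
      s0 ^ 2 * c1 * κ ^ 2 * c3 * cX / (512 * C2 * CU) * ((CU * Ub j) * (4 ^ j / ml j) * (2 : ℝ) ^ (25 / 24 * (j : ℝ)) *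
        ((n : ℝ) ^ 2 * (n : ℝ) ^ (11 / 32 : ℝ))) := by
    field_simp
  rw [e3, e1, e2]
  have h0 : 0 ≤ s0 ^ 2 * c1 * κ ^ 2 * c3 * cX / (512 * C2 * CU) := by positivity
  refine mul_le_mul_of_nonneg_left ?_ h0
  refine mul_le_mul_of_nonneg_right ?_ (by positivity)
  refine mul_le_mul_of_nonneg_right ?_ (by positivity)
  exact mul_le_mul_of_nonneg_right hU (by positivity)


lemma ml_34 (j : ℕ) : ml j ^ (3 / 4 : ℝ) = 2 ^ j := by
  unfold ml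
  rw [← Real.rpow_mul (by norm_num), ← Real.rpow_natCast]
  congr 1
  ring

/-- the construction at the level j, gap at most 2 ^ (j + m + 5) -/
theorem core (hT : TipAdd) (hP : PolG2) (hD : TransD) (hW : WinGM2) {t0 d : ℝ} (ht0 : 0 < t0) (ht1 : t0 ≤ 1 / 2)
    (hd : 0 < d) (hd1 : d ≤ 1) : ∃ (c : ℝ) (b0 m : ℕ), 0 < c ∧ ∀ n k j : ℕ, b0 ≤ j → 2 ^ b0 * ml j ≤ n →
      t0 * n ≤ k → (k : ℝ) ≤ (1 - t0) * n → ∀ S : Set Pt, (∀ p : Pt, TIW.hn p ≤ 2 ^ (j + m + 5) → p ∈ S) →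
        ENNReal.ofReal (c * ((2 : ℝ) ^ ((59 / 24 : ℝ) * j) * (n : ℝ) ^ (75 / 32 : ℝ))) ≤ gp (PR n k d S) := by
  classical
  obtain ⟨s0, hs0⟩ : ∃ s0 : ℝ, s0 = d * t0 := ⟨_, rfl⟩
  have hs00 : 0 < s0 := by rw [hs0]; positivity
  have hs01 : s0 ≤ t0 := by rw [hs0]; exact mul_le_of_le_one_left ht0.le hd1
  have hs02 : s0 ≤ 1 / 2 := hs01.trans ht1
  obtain ⟨ε', δ, n0, hε', hδ, hD⟩ := hD (s0 / 64) (by positivity)
  obtain ⟨η, κ, C, a, m, b1, hη, hκ, hC, hP⟩ := hP ε' hε'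
  obtain ⟨δ', hδ'⟩ : ∃ δ' : ℝ, δ' = min δ (s0 / 16) := ⟨_, rfl⟩
  have hδ0 : 0 < δ' := by rw [hδ']; exact lt_min hδ (by positivity)
  have hδ1 : δ' ≤ δ := hδ' ▸ min_le_left _ _
  have hδ2 : δ' ≤ s0 / 16 := hδ' ▸ min_le_right _ _
  obtain ⟨r, hr, n1, hF⟩ := farN (d := δ' / 4) (ε := s0 / 64) (by positivity) (by positivity)
  obtain ⟨C2, b2, hC2, hM⟩ := LowM.markP η m hη
  obtain ⟨c3, b3, hc3, hT⟩ := hT (a + 2) 1 one_pos
  obtain ⟨c1, hc1, hlow⟩ := gfN_low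
  obtain ⟨CU, hCU, hUlow⟩ := C1.Ub_low34
  obtain ⟨cX, hcX, hX⟩ := TPC.xLow
  obtain ⟨Y, hY⟩ : ∃ Y : ℝ, Y = 2 ^ (m + 4) / r := ⟨_, rfl⟩
  have hY0 : 0 < Y := by rw [hY]; positivity
  obtain ⟨b4, hb4⟩ := pow_unbounded_of_one_lt ((C + 5) / δ' + 64 / s0 + Y ^ (4 / 3 : ℝ) + n0 + n1)
    (one_lt_two : (1 : ℝ) < 2)
  have hCU0 : 0 < CU := by linarith
  refine ⟨s0 ^ 2 * c1 * κ ^ 2 * c3 * cX / (512 * C2 * CU), b1 + b2 + b3 + b4 + a + 2, m, by positivity, ?_⟩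
  intro n k j hj hn hk1 hk2 S hS
  -- numbers
  have hM1 : 1 ≤ ml j := one_le_ml j
  have hM0 := ml_pos j
  have hU := Ub_pos j
  have hbig : ((C + 5) / δ' + 64 / s0 + Y ^ (4 / 3 : ℝ) + n0 + n1) * ml j ≤ n := by
    refine le_trans (mul_le_mul_of_nonneg_right (hb4.le.trans ?_) hM0.le) hn
    exact pow_le_pow_right₀ (by norm_num) (by omega)
  have p1 : 0 ≤ (C + 5) / δ' := by positivity
  have p2 : 0 ≤ 64 / s0 := by positivity
  have p3 : 0 ≤ Y ^ (4 / 3 : ℝ) := by positivity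
  have p4 : (0 : ℝ) ≤ n0 := Nat.cast_nonneg _
  have p5 : (0 : ℝ) ≤ n1 := Nat.cast_nonneg _
  have q1 : (C + 5) * ml j ≤ δ' * n := by
    have h1 : (C + 5) / δ' * ml j ≤ n := le_trans (mul_le_mul_of_nonneg_right (by linarith) hM0.le) hbig
    rw [div_mul_eq_mul_div, div_le_iff₀ hδ0] at h1
    linarith
  have q2 : 64 * ml j ≤ s0 * n := by
    have h1 : 64 / s0 * ml j ≤ n := le_trans (mul_le_mul_of_nonneg_right (by linarith) hM0.le) hbig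
    rw [div_mul_eq_mul_div, div_le_iff₀ hs00] at h1
    linarith
  have q3 : Y ^ (4 / 3 : ℝ) * ml j ≤ n := le_trans (mul_le_mul_of_nonneg_right (by linarith) hM0.le) hbig
  have q4 : n0 ≤ n := by
    have h1 : (n0 : ℝ) * ml j ≤ n := le_trans (mul_le_mul_of_nonneg_right (by linarith) hM0.le) hbig
    have h2 : (n0 : ℝ) ≤ n := (le_mul_of_one_le_right p4 hM1).trans h1
    exact_mod_cast h2
  have q5 : n1 ≤ n := by
    have h1 : (n1 : ℝ) * ml j ≤ n := le_trans (mul_le_mul_of_nonneg_right (by linarith) hM0.le) hbig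
    have h2 : (n1 : ℝ) ≤ n := (le_mul_of_one_le_right p5 hM1).trans h1
    exact_mod_cast h2
  have q6 : (2 : ℝ) ^ (j + m + 4) ≤ r * (n : ℝ) ^ (3 / 4 : ℝ) := by
    calc (2 : ℝ) ^ (j + m + 4) = r * (Y * 2 ^ j) := by
          rw [hY, show j + m + 4 = (m + 4) + j by ring, pow_add (2 : ℝ) (m + 4) j]
          field_simp
      _ = r * (Y ^ (4 / 3 : ℝ) * ml j) ^ (3 / 4 : ℝ) := by
          rw [Real.mul_rpow p3 hM0.le, ml_34, ← Real.rpow_mul hY0.le]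
          norm_num
      _ ≤ r * (n : ℝ) ^ (3 / 4 : ℝ) :=
          mul_le_mul_of_nonneg_left (Real.rpow_le_rpow (by positivity) q3 (by norm_num)) hr.le
  have hn0 : (0 : ℝ) ≤ n := Nat.cast_nonneg n
  have hn1 : 1 ≤ n := by
    by_contra h0
    have h1 : n = 0 := by omega
    rw [h1, Nat.cast_zero, mul_zero] at q2
    linarith
  obtain ⟨s, hs⟩ : ∃ s : ℝ, s = s0 * n := ⟨_, rfl⟩
  rw [← hs] at q2
  have hs64 : 64 ≤ s := by linarith
  have hsn : s ≤ n / 2 := by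
    rw [hs]
    have := mul_le_mul_of_nonneg_right hs02 hn0
    linarith
  have hδn : 5 ≤ δ' * n := by
    have : (5 : ℝ) * 1 ≤ (C + 5) * ml j := mul_le_mul (by linarith) hM1 zero_le_one (by positivity)
    linarith
  have hst : s ≤ t0 * n := by rw [hs]; exact mul_le_mul_of_nonneg_right hs01 hn0
  have hdk : s ≤ d * k := by
    rw [hs, hs0, mul_assoc]
    exact mul_le_mul_of_nonneg_left hk1 hd.le
  have hdn : s ≤ d * (n - k) := by
    rw [hs, hs0, mul_assoc]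
    refine mul_le_mul_of_nonneg_left ?_ hd.le
    linarith
  have hδs : δ' * n ≤ s / 16 := by
    rw [hs]
    have := mul_le_mul_of_nonneg_right hδ2 hn0
    linarith
  obtain ⟨w, hwd⟩ : ∃ w : ℕ, w = ⌊δ' * n⌋₊ := ⟨_, rfl⟩
  have hw1 : (w : ℝ) ≤ δ' * n := by rw [hwd]; exact Nat.floor_le (by positivity)
  have hw2 : δ' * n < w + 1 := by rw [hwd]; exact Nat.lt_floor_add_one _
  have hk0 : (0 : ℝ) ≤ k := Nat.cast_nonneg k
  obtain ⟨x, hx⟩ : ∃ x : ℕ, x = ⌈(k : ℝ) + 5 * s / 16⌉₊ := ⟨_, rfl⟩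
  obtain ⟨y, hy⟩ : ∃ y : ℕ, y = ⌈(k : ℝ) + 7 * s / 16⌉₊ := ⟨_, rfl⟩
  obtain ⟨u, hu⟩ : ∃ u : ℕ, u = ⌈(n : ℝ) + 11 * s / 16⌉₊ := ⟨_, rfl⟩
  obtain ⟨v, hv⟩ : ∃ v : ℕ, v = ⌈(n : ℝ) + 13 * s / 16⌉₊ := ⟨_, rfl⟩
  have hx1 : (k : ℝ) + 5 * s / 16 ≤ x := by rw [hx]; exact Nat.le_ceil _
  have hx2 : (x : ℝ) < k + 5 * s / 16 + 1 := by rw [hx]; exact Nat.ceil_lt_add_one (by positivity)
  have hy1 : (k : ℝ) + 7 * s / 16 ≤ y := by rw [hy]; exact Nat.le_ceil _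
  have hy2 : (y : ℝ) < k + 7 * s / 16 + 1 := by rw [hy]; exact Nat.ceil_lt_add_one (by positivity)
  have hu1 : (n : ℝ) + 11 * s / 16 ≤ u := by rw [hu]; exact Nat.le_ceil _
  have hu2 : (u : ℝ) < n + 11 * s / 16 + 1 := by rw [hu]; exact Nat.ceil_lt_add_one (by positivity)
  have hv1 : (n : ℝ) + 13 * s / 16 ≤ v := by rw [hv]; exact Nat.le_ceil _
  have hxy : x ≤ y := by
    rw [hx, hy]
    exact Nat.ceil_le_ceil (by linarith)
  have huv : u ≤ v := by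
    rw [hu, hv]
    exact Nat.ceil_le_ceil (by linarith)
  have hJN : ∀ N ∈ Ico u v, (n : ℝ) + 11 * s / 16 ≤ N ∧ (N : ℝ) < n + 13 * s / 16 := by
    intro N hN
    rw [mem_Ico] at hN
    refine ⟨hu1.trans (by exact_mod_cast hN.1), ?_⟩
    rw [hv] at hN
    exact Nat.lt_ceil.1 hN.2
  have hIt : ∀ t ∈ Ico x y, (k : ℝ) + 5 * s / 16 ≤ t ∧ (t : ℝ) < k + 7 * s / 16 := by
    intro t ht
    rw [mem_Ico] at ht
    refine ⟨hx1.trans (by exact_mod_cast ht.1), ?_⟩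
    rw [hy] at ht
    exact Nat.lt_ceil.1 ht.2
  have hkn : (k : ℝ) + s ≤ n := by linarith
  -- the marks
  have hone : ∀ N ∈ Ico u v, ENNReal.ofReal (s / 32 * (c1 * (n : ℝ) ^ (11 / 32 : ℝ))) ≤
      ∑ t ∈ Ico x y, gf {H | H ∈ SawN N ∧ GM j (a + 2) m w η κ (cutH t H)} := by
    intro N hN
    obtain ⟨hN1, hN2⟩ := hJN N hN
    have hNn' : (n : ℝ) ≤ N := by linarith
    have hNn : n ≤ N := by exact_mod_cast hNn'
    have hN3 : (N : ℝ) ≤ 2 * n := by linarith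
    have hyN : y + w ≤ N := by
      have : (y : ℝ) + w ≤ N := by linarith
      exact_mod_cast this
    have hwN : δ' / 4 * N ≤ w := by
      have h1 : δ' / 4 * N ≤ δ' / 4 * (2 * n) := mul_le_mul_of_nonneg_left hN3 (by positivity)
      linarith
    have hρ : (2 : ℝ) ^ (j + m + 4) ≤ r * (N : ℝ) ^ (3 / 4 : ℝ) :=
      q6.trans (mul_le_mul_of_nonneg_left (Real.rpow_le_rpow hn0 hNn' (by norm_num)) hr.le)
    have heN : s0 / 64 * N ≤ s / 32 := by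
      have h1 := mul_le_mul_of_nonneg_left hN3 (show (0 : ℝ) ≤ s0 / 64 by positivity)
      rw [hs]
      linarith
    have hTD : TOG.Pn N {t | ¬ ∀ x y : ℕ, x ≤ y → y ≤ N →
        (y : ℝ) - x - s0 / 64 * N ≤ nwin w {W | GM j a m w η κ (cutH w W)} t x y} ≤ s0 / 64 := by
      refine hD N w {W | GM j a m w η κ (cutH w W)} (q4.trans hNn) ?_ ?_
      · have h1 : δ' * n ≤ δ * N := mul_le_mul hδ1 hNn' hn0 hδ.le
        linarith
      · intro M hM1' hM2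
        refine hP j M w (by omega) ?_ ?_ ?_
        · have h1 : (2 : ℝ) ^ b1 ≤ 2 ^ (b1 + b2 + b3 + b4 + a + 2) := pow_le_pow_right₀ (by norm_num) (by omega)
          have h2 := mul_le_mul_of_nonneg_right h1 hM0.le
          have h3 : (N : ℝ) ≤ M := by exact_mod_cast hM1'
          linarith
        · linarith
        · have h3 : (N : ℝ) ≤ M := by exact_mod_cast hM1'
          have h4 : 2 * (w : ℝ) < M := by linarith
          exact_mod_cast h4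
    have hres := marks_one (K := s / 16) hW (by omega) hxy hyN hwN hρ (by linarith) hTD (hF N (q5.trans hNn)) (by linarith)
    refine le_trans ?_ hres
    refine le_trans ?_ (mul_le_mul' le_rfl (mul_le_mul' le_rfl (hlow N (hn1.trans hNn))))
    rw [← ENNReal.ofReal_mul (by norm_num), ← ENNReal.ofReal_mul (by positivity)]
    refine ENNReal.ofReal_le_ofReal ?_
    have h1 : (n : ℝ) ^ (11 / 32 : ℝ) ≤ (N : ℝ) ^ (11 / 32 : ℝ) := Real.rpow_le_rpow hn0 hNn' (by norm_num)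
    calc s / 32 * (c1 * (n : ℝ) ^ (11 / 32 : ℝ)) ≤ s / 32 * (c1 * (N : ℝ) ^ (11 / 32 : ℝ)) := by gcongr
      _ = _ := by ring
  have hL : ENNReal.ofReal (s ^ 2 / 512 * (c1 * (n : ℝ) ^ (11 / 32 : ℝ))) ≤
      ∑ N ∈ Ico u v, ∑ t ∈ Ico x y, gf {H | H ∈ SawN N ∧ GM j (a + 2) m w η κ (cutH t H)} := by
    refine le_trans ?_ (sum_le_sum hone)
    rw [sum_const, Nat.card_Ico, nsmul_eq_mul, ← ENNReal.ofReal_natCast, ← ENNReal.ofReal_mul (Nat.cast_nonneg _)]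
    refine ENNReal.ofReal_le_ofReal ?_
    have h1 : s / 16 ≤ ((v - u : ℕ) : ℝ) := by
      rw [Nat.cast_sub huv]
      linarith
    have h0 : 0 ≤ s / 32 * (c1 * (n : ℝ) ^ (11 / 32 : ℝ)) := by positivity
    calc s ^ 2 / 512 * (c1 * (n : ℝ) ^ (11 / 32 : ℝ)) = s / 16 * (s / 32 * (c1 * (n : ℝ) ^ (11 / 32 : ℝ))) := by ring
      _ ≤ _ := mul_le_mul_of_nonneg_right h1 h0
  -- the outer pairs
  obtain ⟨AA, hAA⟩ : ∃ AA : Set PT, AA = {T : PT | OutF (2 ^ (j - (a + 2))) T ∧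
      TIW.hn (TIW.en T.1 - pe T.2.1 T.2.2) ≤ 2 ^ (j + m + 4) ∧ (k : ℝ) + s / 4 ≤ T.1.length ∧
      (T.1.length : ℝ) ≤ k + 7 * s / 16 ∧ (n : ℝ) - k + s / 8 ≤ T.2.2.length ∧
      (T.2.2.length : ℝ) ≤ n - k + s / 2} := ⟨_, rfl⟩
  have hmark := hM j (a + 2) w κ (by omega) hκ (Ico u v) (fun _ => Ico x y) AA (by
    intro N hN t ht
    have h1 := hJN N hN
    have h2 := hIt t ht
    have h3 : (t : ℝ) < N := by linarith
    exact_mod_cast h3) (by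
    rintro A B Y1 Y2 g hO - - hY1 hY2 hgap ⟨N, hN, ht, hlen⟩
    rw [hAA]
    have h1 := hJN N hN
    have h2 := hIt _ ht
    have h3 : ((A.length + Y1.length + (B.length + Y2.length) + 1 : ℕ) : ℝ) = N := by exact_mod_cast hlen
    have h4 : (Y1.length : ℝ) ≤ w := by exact_mod_cast hY1
    have h5 : (Y2.length : ℝ) ≤ w := by exact_mod_cast hY2
    have h6 : (0 : ℝ) ≤ Y1.length := Nat.cast_nonneg _
    have h7 : (0 : ℝ) ≤ Y2.length := Nat.cast_nonneg _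
    push_cast at h2 h3
    refine ⟨hO, hgap, ?_, ?_, ?_, ?_⟩ <;> simp only <;> linarith)
  -- the constant
  have hP0 : 0 < C2 * (Ub j / 4 ^ j * ml j) := by positivity
  have hAAm : ENNReal.ofReal (s ^ 2 / 512 * (c1 * (n : ℝ) ^ (11 / 32 : ℝ)) * (κ * Ub j) ^ 2 /
      (C2 * (Ub j / 4 ^ j * ml j))) ≤ gp AA := by
    rw [ENNReal.ofReal_div_of_pos hP0]
    refine ENNReal.div_le_of_le_mul' ?_
    rw [ENNReal.ofReal_mul (by positivity)]
    exact (mul_le_mul' hL le_rfl).trans hmark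
  -- the tips
  have htips := hT j (by omega) AA (PR n k d S) (by
    intro T hT'
    rw [hAA] at hT'
    exact hT'.1) (by
    intro T hT' Y1 Y2 hy1' hy2' hl1 hl2 hsa hsb hav
    rw [hAA] at hT'
    obtain ⟨hO, hgap, g1, g2, g3, g4⟩ := hT'
    rw [one_mul] at hl1 hl2
    have h6 : (0 : ℝ) ≤ Y1.length := Nat.cast_nonneg _
    have h7 : (0 : ℝ) ≤ Y2.length := Nat.cast_nonneg _
    have z1 : TIW.hn (TIW.en Y1) ≤ 2 ^ j := by
      have := hy1' Y1.length le_rfl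
      rw [one_mul] at this
      exact_mod_cast this
    have z2 : TIW.hn (TIW.en Y2) ≤ 2 ^ j := by
      have := hy2' Y2.length le_rfl
      rw [one_mul] at this
      exact_mod_cast this
    refine ⟨hsa, hsb, hO.fr, hav, hS _ ((gap_tips hO.fr hgap z1 z2).trans ?_), ?_, ?_, ?_, ?_⟩
    · have e1 : (2 : ℤ) ^ (j + m + 5) = 2 * 2 ^ (j + m + 4) := by ring
      have e2 : (2 : ℤ) ^ (j + m + 4) = 2 ^ (m + 4) * 2 ^ j := by ring
      have e3 : (2 : ℤ) ≤ 2 ^ (m + 4) := by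
        have := Nat.pow_le_pow_right (show 0 < 2 by norm_num) (show 1 ≤ m + 4 by omega)
        exact_mod_cast this
      have e4 : (0 : ℤ) < 2 ^ j := by positivity
      have e5 : (2 : ℤ) * 2 ^ j ≤ 2 ^ (m + 4) * 2 ^ j := mul_le_mul_of_nonneg_right e3 e4.le
      rw [e1]
      linarith
    · have h1 : (k : ℝ) ≤ ((T.1 ++ Y1).length : ℝ) := by
        rw [List.length_append]
        push_cast
        linarith
      exact_mod_cast h1
    · rw [List.length_append]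
      push_cast
      linarith
    · have h1 : (n : ℝ) ≤ ((T.2.2 ++ Y2).length : ℝ) + k := by
        rw [List.length_append]
        push_cast
        linarith
      exact_mod_cast h1
    · rw [List.length_append]
      push_cast
      linarith)
  refine le_trans ?_ htips
  refine le_trans ?_ (mul_le_mul' hAAm (mul_le_mul' le_rfl (hX j)))
  rw [← ENNReal.ofReal_mul hc3.le, ← ENNReal.ofReal_mul (by positivity)]
  refine ENNReal.ofReal_le_ofReal ?_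
  rw [hs]
  exact pow_num hc1 hκ hC2 hc3 hcX hCU0 hn1 (hUlow j)

end LowP

open LowP in
/-- **row P9**: the literal from the rows L1, L3, L4, L5 -/
theorem lowPR_of (hT : TipAdd) (hP : PolG2) (hD : TransD) (hW : WinGM2) : LowPR := by
  intro t0 d ht0 hd
  obtain ⟨t1, ht1⟩ : ∃ t1 : ℝ, t1 = min t0 (1 / 2) := ⟨_, rfl⟩
  obtain ⟨d1, hd1⟩ : ∃ d1 : ℝ, d1 = min d 1 := ⟨_, rfl⟩
  have a1 : 0 < t1 := by rw [ht1]; exact lt_min ht0 (by norm_num)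
  have a2 : t1 ≤ t0 := ht1 ▸ min_le_left _ _
  have a3 : t1 ≤ 1 / 2 := ht1 ▸ min_le_right _ _
  have a4 : 0 < d1 := by rw [hd1]; exact lt_min hd (by norm_num)
  have a5 : d1 ≤ d := hd1 ▸ min_le_left _ _
  have a6 : d1 ≤ 1 := hd1 ▸ min_le_right _ _
  obtain ⟨c, b0, m, hc, h⟩ := core hT hP hD hW a1 a3 a4 a6
  refine ⟨c * (2 : ℝ) ^ (-((59 / 24 : ℝ) * ((m + 5 : ℕ) : ℝ))), b0 + (m + 5), by positivity, fun n k j hj hn hk1 hk2 S hS => ?_⟩
  obtain ⟨i, rfl⟩ : ∃ i, j = i + (m + 5) := ⟨j - (m + 5), by omega⟩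
  have hn0 : (0 : ℝ) ≤ n := Nat.cast_nonneg n
  have hm1 : ml i ≤ ml (i + (m + 5)) := by
    unfold ml
    refine Real.rpow_le_rpow_of_exponent_le (by norm_num) ?_
    push_cast
    have : (0 : ℝ) ≤ (m : ℝ) := Nat.cast_nonneg _
    linarith
  have hm0 := ml_pos i
  have h2 : (2 : ℝ) ^ b0 * ml i ≤ n := by
    refine le_trans (mul_le_mul ?_ hm1 hm0.le (by positivity)) hn
    exact pow_le_pow_right₀ (by norm_num) (by omega)
  have h3 := h n k i (by omega) h2 (le_trans (mul_le_mul_of_nonneg_right a2 hn0) hk1)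
    (hk2.trans (mul_le_mul_of_nonneg_right (by linarith) hn0)) S (fun p hp => hS p hp)
  have hk3 : (k : ℝ) ≤ n := by nlinarith
  have hk4 : (0 : ℝ) ≤ k := Nat.cast_nonneg k
  refine le_trans (le_of_eq ?_) (h3.trans (gp_mono ?_))
  · congr 1
    have e1 : (2 : ℝ) ^ ((59 / 24 : ℝ) * ((i + (m + 5) : ℕ) : ℝ)) =
        (2 : ℝ) ^ ((59 / 24 : ℝ) * ((m + 5 : ℕ) : ℝ)) * (2 : ℝ) ^ ((59 / 24 : ℝ) * i) := by
      rw [← Real.rpow_add (by norm_num)]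
      congr 1
      push_cast
      ring
    have e2 : (2 : ℝ) ^ (-((59 / 24 : ℝ) * ((m + 5 : ℕ) : ℝ))) * (2 : ℝ) ^ ((59 / 24 : ℝ) * ((m + 5 : ℕ) : ℝ)) = 1 := by
      rw [← Real.rpow_add (by norm_num), neg_add_cancel, Real.rpow_zero]
    rw [e1]
    calc c * (2 : ℝ) ^ (-((59 / 24 : ℝ) * ((m + 5 : ℕ) : ℝ))) * ((2 : ℝ) ^ ((59 / 24 : ℝ) * ((m + 5 : ℕ) : ℝ)) *
          (2 : ℝ) ^ ((59 / 24 : ℝ) * i) * (n : ℝ) ^ (75 / 32 : ℝ))
        = c * (((2 : ℝ) ^ (-((59 / 24 : ℝ) * ((m + 5 : ℕ) : ℝ))) * (2 : ℝ) ^ ((59 / 24 : ℝ) * ((m + 5 : ℕ) : ℝ))) *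
          ((2 : ℝ) ^ ((59 / 24 : ℝ) * i) * (n : ℝ) ^ (75 / 32 : ℝ))) := by ring
      _ = _ := by rw [e2, one_mul]
  · rintro T ⟨b1, b2, b3, b4, b5, b6, b7, b8, b9⟩
    refine ⟨b1, b2, b3, b4, b5, b6, b7.trans ?_, b8, b9.trans ?_⟩
    · exact mul_le_mul_of_nonneg_right (by linarith) hk4
    · exact mul_le_mul_of_nonneg_right (by linarith) (by linarith)

/-- **row P9** from row L3 -/
theorem lowPR_pol (hP : PolG2) : LowPR := lowPR_of tipAdd hP (transD_of Pool.Agent.TSW.exR t1) winGM2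

end RMP

end HexObs
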