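import Pool.Agent.RMP.Num
import Pool.Agent.RMP.TipO
import Pool.Agent.TIP.NfB

/-!
# RM, row P2b, part A (helper29): one word with a good factor near the tip and a spectator E

* `FwO`, `RAO` : many bridges with few cuts free of the past and of E;
* `fwO_mass` : their mass;
* **`caseAO`** : few good cuts near the tip (free half ball, free of the word and of E) give many splittings in `RAO`.
-/

set_option autoImplicit false

namespace HexObs

namespace RMP

open Finset TS SDN HexObs.SIM NTA TIP TIP.Nf ARM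

open scoped ENNReal

variable {E : Set Pt}

/-- the ends that start with many bridges with few free cuts, with a spectator -/
def FwO (E : Set Pt) (κ0 : ℝ) (r b E0 D : ℕ) (η q : ℝ) (A Y : List Bool) : Prop :=
  ∃ S : Finset ℕ, q ≤ (S.card : ℝ) ∧ ∀ k ∈ S, k ≤ Y.length ∧
    (Y.take k ∈ BU ∧ hgt (Y.take k) ≤ 2 ^ b ∧ A ++ Y.take k ∈ SAE E ∧ (frN (FarO E r) A (Y.take k) : ℝ) < κ0) ∧
    In E0 (Y.take k) ∧ Y.drop k ∈ SA ∧ rev (Y.drop k) ∈ GT b η ∧ In D (Y.drop k)

/-- the relation of the case A, with a spectator -/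
def RAO (E : Set Pt) (κ0 : ℝ) (r b E0 D : ℕ) (η q : ℝ) (A Y : List Bool) : Prop :=
  Lt b E0 η A ∧ FwO E κ0 r b (2 * E0) D η q A Y

lemma fwO_mass {κ0 η q : ℝ} {r b E0 D : ℕ} {x y : ℝ≥0∞} {A : List Bool}
    (h1 : gf {Z | Z ∈ BU ∧ hgt Z ≤ 2 ^ b ∧ A ++ Z ∈ SAE E ∧ (frN (FarO E r) A Z : ℝ) < κ0} ≤ x)
    (h2 : gf {Y | Y ∈ SA ∧ rev Y ∈ GT b η ∧ In D Y} ≤ y) :
    ENNReal.ofReal q * gf {Y | FwO E κ0 r b E0 D η q A Y} ≤ x * y := by
  refine le_trans (dc (X := {Z | Z ∈ BU ∧ hgt Z ≤ 2 ^ b ∧ A ++ Z ∈ SAE E ∧ (frN (FarO E r) A Z : ℝ) < κ0})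
    (Y := fun _ => {Y | Y ∈ SA ∧ rev Y ∈ GT b η ∧ In D Y}) (M := y) (fun _ _ => h2) fun Y hY => ?_) (mul_le_mul' h1 le_rfl)
  obtain ⟨S, hS, hk⟩ := hY
  refine ⟨S, ?_, fun k hkS => ?_⟩
  · rw [← ENNReal.ofReal_natCast]
    exact ENNReal.ofReal_le_ofReal hS
  · obtain ⟨a1, a2, -, a4, a5, a6⟩ := hk k hkS
    exact ⟨a1, a2, a4, a5, a6⟩

lemma SAE_take {t : List Bool} (h : t ∈ SAE E) (k : ℕ) : t.take k ∈ SAE E := by
  refine ⟨SA_take h.1 k, fun i hi => ?_⟩
  rw [List.length_take] at hi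
  have h1 := h.2 i (by omega)
  rw [← List.take_append_drop k t, vx_append (by rw [List.length_take]; omega)] at h1
  exact h1

lemma far6_of {r : ℕ} {A Z : List Bool} (h : FarO E r A Z) : Far6 r A Z := fun i hi hB => h _ (Or.inl ⟨i, hi, rfl⟩) hB

/-- a free cut has a half ball in front of the tip that is free of E -/
lemma freeO_of {r r' : ℕ} {A Z : List Bool} (hF : FarO E r A Z) (hr : r' ≤ r) : FreeO r' E (A ++ Z) := by
  intro p hp _ hb
  refine hF p (Or.inr hp) ?_
  obtain ⟨b1, b2⟩ := hb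
  have hrz : (r' : ℤ) ≤ r := by exact_mod_cast hr
  exact bx6_of_bl (b1.trans hrz) (b2.trans hrz)

lemma ncp_ge {b a D : ℕ} {η : ℝ} {t : List Bool} {S : Finset ℕ}
    (h : ∀ c ∈ S, c ≤ t.length ∧ rev (t.drop c) ∈ GT b η ∧ In D (t.drop c) ∧ FreeT (2 ^ a) (t.take c) ∧
      FreeO (2 ^ a) E (t.take c)) : S.card ≤ (NCp b a D η E t).ncard := by
  classical
  have hfin : (NCp b a D η E t).Finite := fin_suf fun Y hY => by
    obtain ⟨-, -, A, hA, -⟩ := hY
    exact ⟨A, hA.symm⟩
  have hinj : Set.InjOn (fun c : ℕ => t.drop c) (S : Set ℕ) := by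
    intro c hc c' hc' he
    have h1 := congrArg List.length he
    simp only [List.length_drop] at h1
    have := (h c hc).1
    have := (h c' hc').1
    omega
  rw [← card_image_of_injOn hinj, ← Set.ncard_coe_finset]
  refine Set.ncard_le_ncard (fun Y hY => ?_) hfin
  obtain ⟨c, hc, rfl⟩ := mem_image.1 (mem_coe.1 hY)
  obtain ⟨-, h2, h3, h4, h5⟩ := h c hc
  exact ⟨h2, h3, t.take c, (List.take_append_drop c t).symm, h4, h5⟩

variable {κ : ℝ} {C b : ℕ} {t X Z1 Z2 Z3 Y0 : List Bool}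

open Classical in
/-- **case A with a spectator**: the rest behind the last good factor is short, and few good cuts -/
theorem caseAO (hW : NeW) (hd : Dt κ C b t X Z1 Z2 Z3 Y0) (htE : t ∈ SAE E) {η κ0 κ' : ℝ} {h m r a : ℕ} (hh : 1 ≤ h)
    (hη : η * Ub b ≤ (h : ℝ)) (h4 : 4 * h ≤ nc Z2) (hE : In (2 ^ (b + m)) Y0) (hC : 2 * C ≤ 2 ^ m) (ha : 2 ^ a ≤ r)
    (hκ : κ' * Ub b ≤ κ0) (hN : ((NCp b a (2 ^ (b + (m + 1))) η E t).ncard : ℝ) < κ' * Ub b) :
    h ≤ nD (2 ^ (b + (m + 1))) (RAO E κ0 r b (C * 2 ^ b) (2 ^ (b + (m + 1))) η h) t := by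
  have hpow : 2 * (C * 2 ^ b) + 2 ^ (b + m) ≤ 2 ^ (b + (m + 1)) := by
    have e1 : 2 ^ (b + (m + 1)) = 2 ^ m * 2 ^ b + 2 ^ (b + m) := by
      rw [← add_assoc, pow_succ, pow_add]
      ring
    have e2 := Nat.mul_le_mul_right (2 ^ b) hC
    rw [e1]
    nlinarith
  have h1 := card_rank hW (Z := Z2) (lo := h) (hi := 2 * h) hh (by omega)
  have h2 : 2 * h - h = h := by omega
  rw [h2] at h1
  have h3 := card_rank hW (Z := Z2) (lo := 2 * h) (hi := 3 * h) (by omega) (by omega)
  have h3' : 3 * h - 2 * h = h := by omega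
  rw [h3'] at h3
  conv_lhs => rw [← h1, ← card_image_of_injective _ (fun x y h => Nat.add_left_cancel h :
    Function.Injective fun c => (X ++ Z1).length + c)]
  refine nD_ge fun q hq => ?_
  obtain ⟨c, hc, rfl⟩ := mem_image.1 hq
  rw [mem_filter] at hc
  obtain ⟨hc1, hc2, hc3⟩ := hc
  obtain ⟨a1, a2, a3⟩ := mem_cz.1 hc1
  obtain ⟨f1, f2, f3⟩ := hd.cut a1
  obtain ⟨g1, g2⟩ := hd.gt hW hη h4 hc1 hc2 (by omega)
  refine ⟨f1, ⟨hd.lt hW hη hc1 hc2, ?_⟩, hd.inD hE hpow hc1⟩
  have hlt : ∀ c' ∈ (cz Z2).filter (fun c => 2 * h ≤ nc (Z2.take c) ∧ nc (Z2.take c) < 3 * h), c < c' := by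
    intro c' hc'
    rw [mem_filter] at hc'
    by_contra hcon
    rcases Nat.eq_or_lt_of_le (not_lt.1 hcon) with he | he
    · rw [he] at hc'
      omega
    · have := rank_lt hW hc'.1 hc1 he
      omega
  refine ⟨((cz Z2).filter (fun c => 2 * h ≤ nc (Z2.take c) ∧ nc (Z2.take c) < 3 * h)).image (fun c' => c' - c), ?_,
    fun k hk => ?_⟩
  · rw [card_image_of_injOn, h3]
    intro x hx y hy hxy
    have := hlt x (mem_coe.1 hx)
    have := hlt y (mem_coe.1 hy)
    simp only at hxy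
    omega
  · obtain ⟨c', hc', rfl⟩ := mem_image.1 hk
    have hcc := hlt c' hc'
    rw [mem_filter] at hc'
    obtain ⟨d1, d2, d3⟩ := hc'
    obtain ⟨P, M, R, p1, p2, p3, p4, p5, p6, p7, p8, p9, p10⟩ := cz_split hc1 d1 hcc.le
    obtain ⟨b1, b2, b3⟩ := mem_cz.1 d1
    obtain ⟨k1, k2, k3⟩ := hd.cut b1
    obtain ⟨l1, l2⟩ := hd.gt hW hη h4 d1 (by omega) (by omega)
    have hMl : M.length = c' - c := by omega
    have e1 : t.drop ((X ++ Z1).length + c) = M ++ (R ++ (Z3 ++ Y0)) := by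
      rw [f3, p8, List.append_assoc]
    have e2 : (t.drop ((X ++ Z1).length + c)).take (c' - c) = M := by
      rw [e1]
      exact List.take_left' hMl
    have e3 : (t.drop ((X ++ Z1).length + c)).drop (c' - c) = t.drop ((X ++ Z1).length + c') := by
      rw [List.drop_drop]
      congr 1
      omega
    have e4 : t.take ((X ++ Z1).length + c) ++ M = t.take ((X ++ Z1).length + c') := by
      rw [f2, k2, p7, p9]
      simp only [List.append_assoc]
    rw [e2, e3]
    have hhM : hgt P + (hgt M + hgt R) = hgt Z2 := by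
      rw [← hgt_app p2 p3, ← hgt_app p1 (BU_app p2 p3), ← p4]
    have hh2 := hd.h2
    refine ⟨?_, ⟨p2, by omega, ?_, ?_⟩, ?_, SA_drop hd.sa _, l2, hd.inD hE hpow d1⟩
    · rw [e1, List.length_append]
      omega
    · rw [e4]
      exact SAE_take htE _
    · -- few free cuts
      by_contra hcon
      rw [not_lt] at hcon
      have key : frN (FarO E r) (t.take ((X ++ Z1).length + c)) M ≤ (NCp b a (2 ^ (b + (m + 1))) η E t).ncard := by
        unfold frN
        rw [← card_image_of_injective _ (fun x y h => Nat.add_left_cancel h :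
          Function.Injective fun i => ((X ++ Z1).length + c) + i)]
        refine ncp_ge fun q hq => ?_
        obtain ⟨i, hi, rfl⟩ := mem_image.1 hq
        rw [mem_filter, mem_range] at hi
        obtain ⟨i1, i2, i3, i4⟩ := hi
        have m1 : Z2.take (c + i) = P ++ M.take i := by
          rw [p4, ← p5, List.take_length_add_append, List.take_append_of_le_length (by omega)]
        have m2 : Z2.drop (c + i) = M.drop i ++ R := by
          rw [p4, ← p5, List.drop_length_add_append, List.drop_append_of_le_length (by omega)]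
        have m3 : c + i ∈ cz Z2 := by
          rw [mem_cz, m1, m2]
          exact ⟨by omega, BU_app p1 i2, BU_app i3 p3⟩
        have m4 : nc (Z2.take c) ≤ nc (Z2.take (c + i)) := by
          rcases Nat.eq_zero_or_pos i with h0 | h0
          · rw [h0, add_zero]
          · exact (rank_lt hW hc1 m3 (by omega)).le
        have m5 : nc (Z2.take (c + i)) ≤ nc (Z2.take c') := by
          rcases Nat.eq_or_lt_of_le (show c + i ≤ c' by omega) with h0 | h0
          · rw [h0]
          · exact (rank_lt hW m3 d1 h0).le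
        obtain ⟨n1, n2, n3⟩ := hd.cut (mem_cz.1 m3).1
        obtain ⟨o1, o2⟩ := hd.gt hW hη h4 m3 (by omega) (by omega)
        rw [← add_assoc] at n1 n2 n3 o1 o2
        have n4 : t.take ((X ++ Z1).length + c + i) = t.take ((X ++ Z1).length + c) ++ M.take i := by
          rw [n2, f2, m1, p7]
          simp only [List.append_assoc]
        refine ⟨n1, o2, ?_, ?_, ?_⟩
        · have := hd.inD hE hpow m3
          rwa [← add_assoc (X ++ Z1).length c i] at this
        · rw [n4]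
          exact free_of i2 (far6_of i4) ha
        · rw [n4]
          exact freeO_of i4 ha
      have key' : (frN (FarO E r) (t.take ((X ++ Z1).length + c)) M : ℝ) ≤
          ((NCp b a (2 ^ (b + (m + 1))) η E t).ncard : ℝ) := by
        exact_mod_cast key
      linarith
    · refine in_mid (X := Z1 ++ P) (R := R ++ Z3) (BU_dx (BU_app hd.b1 p1)) ?_
      have : (Z1 ++ P) ++ (M ++ (R ++ Z3)) = Z1 ++ (Z2 ++ Z3) := by
        rw [p4]
        simp only [List.append_assoc]
      rw [this]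
      exact hd.inn

end RMP

end HexObs
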