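import Pool.Agent.ARM.NtE
import Pool.Agent.RMP.NWinP

/-!
# RM, row P4 (helper65): windows near the tip of the first word of a pair, the mass of the end events

* `winP_of` : most pairs have a window near the tip of the first word;
* `efP_mass` : double counting of small classes of parts;
* **`endEvP_mass`** : pairs whose first word has a window and an end part with a word in VV.
-/

set_option autoImplicit false

namespace HexObs

namespace RMP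

open Finset TS SDN NTW NTA HexObs.SIM TIP TIP.Nf TIW ARM

open scoped ENNReal

/-- **most pairs have a window** -/
theorem winP_of {κ : ℝ} {C : ℕ} (hκ : 0 < κ) (hN : NWinP κ C) : ∀ ε : ℝ, 0 < ε → ∃ J0 : ℕ, ∀ J w : ℕ, J0 ≤ J → ∃ b0 : ℕ,
    ∀ (D : ℝ) (R j : ℕ), 1 ≤ D → HF3 D R j → b0 ≤ j → 2 ^ (b0 + j) ≤ R →
      gp {T | T ∈ P3 R j ∧ T.1 ∉ Win (κ / 2) (2 * C) (j + w) J} ≤ ENNReal.ofReal (ε * D * pr3 R (j + w + 1)) := by
  intro ε hε
  obtain ⟨m, b1, h⟩ := hN ε hε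
  refine ⟨m + 1, fun J w hJ => ⟨b1 + w + 1, fun D R j hD hF hj hn => ?_⟩⟩
  have h1 := h D R (j + w + 1) hD (hF.mono (by omega)) (by omega)
    ((Nat.pow_le_pow_right (by norm_num) (by omega)).trans hn)
  refine (gp_mono ?_).trans h1
  rintro T ⟨hL, hW⟩
  refine ⟨P3_mono le_rfl (by omega) hL, fun hcon => hW ?_⟩
  obtain ⟨X, Z, Y, e, hY, ⟨Z1, Z2, Z3, rfl, c1, c2, c3, c4, c5, c6, c7, c8⟩, hin⟩ := hcon
  obtain ⟨P, W, R', p1, p2, p3, p4, p5, p6⟩ := half_rich (H := 2 ^ (j + w)) c2 (by rw [← pow_succ']; exact c6)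
  have hU : Ub (j + w) ≤ Ub (j + w + 1) := Ub_mono (by omega)
  refine ⟨X, Z1 ++ P, W, R' ++ Z3, Y, ?_, TIP.BU_app c1 p1, p2, TIP.BU_app p3 c3, ?_, ?_, p5, ?_, ?_, hY, ?_⟩
  · rw [e, p4]
    simp only [List.append_assoc]
  · rw [TIP.hgt_app c1 p1]
    have : 2 ^ (j + w + 1 + 1) = 2 ^ (j + w + 2) := rfl
    omega
  · rw [TIP.hgt_app p3 c3]
    have : 2 ^ (j + w + 1 + 1) = 2 ^ (j + w + 2) := rfl
    omega
  · have h2 : (nc Z2 : ℝ) ≤ 2 * nc W := by exact_mod_cast p6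
    have h3 : κ * Ub (j + w) ≤ κ * Ub (j + w + 1) := mul_le_mul_of_nonneg_left hU hκ.le
    linarith
  · have e2 : (Z1 ++ P) ++ (W ++ (R' ++ Z3)) = Z1 ++ (Z2 ++ Z3) := by
      rw [p4]
      simp only [List.append_assoc]
    rw [e2]
    refine in_mono c8 (le_of_eq ?_)
    rw [pow_succ]
    ring
  · exact in_mono hin (Nat.pow_le_pow_right (by norm_num) (by omega))

/-- **double counting of small classes of parts behind good tips** -/
theorem efP_mass (hE : ExP) {η : ℝ} (hη : 0 < η) : ∃ C : ℝ, 1 ≤ C ∧ ∀ (D : ℝ) (R j b J : ℕ), 1 ≤ D →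
    HF3 D R j → j ≤ b → ∀ (ρ : (Pt × Pt) × List Bool → List Bool → List Bool → Prop) (δ q : ℝ), 0 ≤ δ → 0 < q →
    (∀ G A Y, ρ G A Y → A ∈ GT b η) →
    (∀ G A, gf {Y | ρ G A Y ∧ In (2 ^ (b + J)) Y} ≤ ENNReal.ofReal (δ * Ub b) * Xb b) →
    gp {T | T ∈ P3 R j ∧ q * Ub b ≤ (nD (2 ^ (b + J)) (ρ T.2) T.1 : ℝ)} ≤
      ENNReal.ofReal (C * δ / q * (D * pr3 R (b + J))) := by
  obtain ⟨C1, hC1, hE⟩ := hE η 0 hη
  refine ⟨C1 + 1, by linarith, fun D R j b J hD hF hjb ρ δ q hδ hq hρ hx => ?_⟩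
  have hU := Ub_pos b
  have hp := (pr3_pos R (b + J)).le
  have hD0 : 0 ≤ D := by linarith
  have h1 := hE D R j (b + J) b hD (hF.mono (by omega)) (by omega) (by omega) ρ
    (ENNReal.ofReal (δ * Ub b) * Xb b) (q * Ub b) hρ (fun G A => by
      refine le_trans (gf_mono ?_) (hx G A)
      rintro Y ⟨y1, y2, -⟩
      exact ⟨y1, by rwa [add_zero] at y2⟩) (by positivity)
  rw [add_zero] at h1
  refine (cancelF (by positivity) (by positivity) h1).trans (ENNReal.ofReal_le_ofReal ?_)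
  have e : C1 * D * pr3 R (b + J) * (δ * Ub b) / (q * Ub b) = C1 * δ / q * (D * pr3 R (b + J)) := by
    field_simp
  rw [e]
  have h3 : 0 ≤ D * pr3 R (b + J) := by positivity
  refine mul_le_mul_of_nonneg_right ?_ h3
  gcongr
  linarith

/-- **pairs with a window whose first word has an end part with a word in VV** -/
theorem endEvP_mass (hE : ExP) {κ : ℝ} (hκ : 0 < κ) : ∃ (K1 : ℝ) (b0 : ℕ), 1 ≤ K1 ∧
    ∀ (VV : Set (List Bool)) (C b J R j : ℕ) (D δ : ℝ) (ρ : ℤ), b0 ≤ b → 2 * C ≤ 2 ^ J → 1 ≤ D → HF3 D R j → j ≤ b →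
    0 ≤ δ → 2 * ρ + 2 ≤ 3 * 2 ^ (b + 1) →
    gf {w | w ∈ WL (b + (J + 1) + 6) ∧ ∃ V ∈ VV, ∃ R, w = V ++ R} ≤
      ENNReal.ofReal (δ * Ub (b + (J + 1) + 6)) * Xb (b + (J + 1) + 6) ^ 2 →
    gp {T | T ∈ P3 R j ∧ T.1 ∈ Win κ C b J ∧ T.1 ∈ EndEv VV ρ} ≤
      ENNReal.ofReal (K1 ^ (J + 3) * δ * (D * pr3 R (b + (J + 1)))) := by
  obtain ⟨η, hηd⟩ : ∃ η : ℝ, η = κ / 8 := ⟨_, rfl⟩
  have hη : 0 < η := by rw [hηd]; positivity
  obtain ⟨C1, hC1, h1⟩ := yv_mass hη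
  obtain ⟨C2, hC2, h2⟩ := efP_mass hE hη
  obtain ⟨b0, hb0⟩ := kU_big hκ
  have hC10 : 0 < C1 := by linarith
  have hC20 : 0 < C2 := by linarith
  refine ⟨max (C2 / η) C1, b0, le_max_of_le_right hC1, fun VV C b J R j D δ ρ hb hCJ hD hF hjb hδ hρ hVV => ?_⟩
  have h8 := hb0 b hb
  have hU := Ub_pos b
  have hp := (pr3_pos R (b + (J + 1))).le
  have hD0 : 0 ≤ D := by linarith
  obtain ⟨h, hh1, hh2, hh4⟩ := h_num h8
  have hηh : η * Ub b ≤ (h : ℝ) := by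
    rw [hηd]
    calc κ / 8 * Ub b = κ * Ub b / 8 := by ring
      _ ≤ h := hh2
  have key := h2 D R j b (J + 1) hD hF hjb (fun _ A B => A ∈ GT b η ∧ B ∈ YV VV η b (J + 1)) (C1 ^ (J + 2) * δ) η
    (by positivity) hη (fun _ A B hAB => hAB.1) (fun _ A => by
      refine le_trans (gf_mono ?_) (h1 VV b (J + 1) δ hδ hVV)
      rintro B ⟨⟨-, hB⟩, -⟩
      exact hB)
  refine (gp_mono ?_).trans (key.trans (ENNReal.ofReal_le_ofReal ?_))
  · rintro T ⟨hLF, ⟨X, Z1, Z2, Z3, Y, hw⟩, hEv⟩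
    refine ⟨hLF, ?_⟩
    obtain ⟨S, hS, hcut⟩ := slots hw hh1 (hh4 _ hw.n2)
    have h5 : S.card ≤ nD (2 ^ (b + (J + 1))) (fun A B => A ∈ GT b η ∧ B ∈ YV VV η b (J + 1)) T.1 := by
      refine nD_ge fun c hc => ?_
      obtain ⟨c1, M, N, c2, c3, c4, c5, c6, c7, c8, -⟩ := hcut c hc
      have hhM : hgt M + hgt N = hgt Z2 := by rw [← TIP.hgt_app c3 c4, ← c2]
      have hh2' := hw.h2
      have hnN : η * Ub b ≤ (nc N : ℝ) := hηh.trans (by exact_mod_cast c8)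
      have hnM : η * Ub b ≤ (nc M : ℝ) := hηh.trans (by exact_mod_cast c7)
      have hYC : YCp η b (T.1.drop c) N Z3 Y := ⟨c6, hw.ne, c4, hw.b3, by omega, hw.h3, hnN⟩
      have hin : In (2 ^ (b + (J + 1))) (T.1.drop c) := by
        rw [c6]
        exact hw.inB c2 c3 c4 hCJ
      have hp1 : 2 ^ (b + 1) ≤ 2 ^ (b + 2) := Nat.pow_le_pow_right (by norm_num) (by omega)
      refine ⟨c1, ⟨?_, ?_⟩, hin⟩
      · rw [c5]
        exact ne_A hw.b1 (hp1.trans hw.h1) c3 (by omega) hnM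
      · have e : T.1.take c ++ T.1.drop c = T.1 := List.take_append_drop c T.1
        exact end_YV (A := T.1.take c) hYC (by rw [e]; exact hLF.1) hin hρ (by rw [e]; exact hEv)
    have h6 : (h : ℝ) ≤ (nD (2 ^ (b + (J + 1))) (fun A B => A ∈ GT b η ∧ B ∈ YV VV η b (J + 1)) T.1 : ℝ) := by
      exact_mod_cast hS.trans h5
    exact hηh.trans h6
  · have h5 : 0 ≤ D * pr3 R (b + (J + 1)) := by positivity
    refine mul_le_mul_of_nonneg_right ?_ h5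
    obtain ⟨K1, hK1⟩ : ∃ K1 : ℝ, K1 = max (C2 / η) C1 := ⟨_, rfl⟩
    rw [← hK1]
    have h6 : C2 / η ≤ K1 := by rw [hK1]; exact le_max_left _ _
    have h7 : C1 ≤ K1 := by rw [hK1]; exact le_max_right _ _
    have h9 : 0 ≤ K1 := by linarith
    calc C2 * (C1 ^ (J + 2) * δ) / η = C2 / η * (C1 ^ (J + 2) * δ) := by ring
      _ ≤ K1 * (K1 ^ (J + 2) * δ) := by gcongr
      _ = K1 ^ (J + 3) * δ := by ring

end RMP

end HexObs
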