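import Pool.Agent.RMP.PlPS
import Pool.Agent.ARM.JMassA

/-!
# RMP, row P6a (helper87): `jMassP_of0 : TubeSt -> ConfMom -> JMassP`
-/

set_option autoImplicit false

namespace HexObs

namespace RMP

namespace G4

open Finset TS SDN SIM NTA TIP ARM ARM.G3

open scoped ENNReal

/-- the first moment of the length of the words in a ball -/
def ConfMom : Prop := ∃ C : ℝ, 0 < C ∧ ∀ i : ℕ, ∑' L : {L : List Bool | L ∈ SA ∧ ∀ s, s ≤ L.length → dz L s ≤ 2 ^ i},
  wE (L : List Bool) * (((L : List Bool).length + 1 : ℕ) : ℝ≥0∞) ≤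
    ENNReal.ofReal (C * (ml i * (2 : ℝ) ^ ((43 / 24 : ℝ) * (i : ℝ))))

variable {E : ℕ → Pt} {r : ℕ} {D : ℤ} {k : ℕ} {P s : Pt} {M R : List Bool}

/-! ### 1. The mass of the tubes -/

/-- **the tubes of a placed pair** -/
lemma tube_mass2 {H Mx k0 : ℕ} {c : ℝ} (hc : 0 < c)
    (hT : ∀ (k r b : ℕ) (D : ℤ) (e : ℕ → Pt) (z : Pt), k0 ≤ k →
    18 * (H * 2 ^ k) ≤ D → D ≤ 36 * (H * 2 ^ k) → 1 ≤ r → r ≤ Mx → IPg e r → e 0 = up →
    TIW.hn (z - AR.pv e D r) ≤ 2 ^ (k + 2) → cl z = (if Even b then 0 else 2) →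
    cl (e (r - 1)) = (if Even b then 2 else 1) → 1 * ml k ≤ b → (b : ℝ) ≤ 3 * ml k →
    ENNReal.ofReal (c * (Ub k / (4 ^ k * ml k))) ≤ gf {Q | TubeQ e D (2 ^ (k + 9)) r z Q ∧ Q.length = b})
    (hk : k0 ≤ k) (hD1 : 18 * (H * 2 ^ k) ≤ D) (hD2 : D ≤ 36 * (H * 2 ^ k)) (hr : 1 ≤ r) (hr' : r ≤ Mx)
    (hE : IPg E r) (hP : PP E r D k P M s R) (hm : 4 ≤ ml k) :
    ENNReal.ofReal (c / 4 * (Ub k / 4 ^ k)) ≤ gf (QQ2 E r D k ⌈ml k⌉₊ ⌊3 * ml k⌋₊ M s) := by
  classical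
  have hU : 0 < Ub k := Num2Aux.UU_pos _
  have hml := ml_pos k
  obtain ⟨σ, hσ⟩ : ∃ σ : ℕ, σ = if cl s = 0 then M.length else M.length + 1 := ⟨_, rfl⟩
  obtain ⟨B, hB⟩ : ∃ B : Finset ℕ, B = (Icc ⌈ml k⌉₊ ⌊3 * ml k⌋₊).filter fun b => b % 2 = σ % 2 := ⟨_, rfl⟩
  have hcard : ml k / 4 ≤ (B.card : ℝ) := by
    have h1 := par_card ⌈ml k⌉₊ ⌊3 * ml k⌋₊ σ
    rw [← hB] at h1
    have h2 : (⌈ml k⌉₊ : ℝ) < ml k + 1 := Nat.ceil_lt_add_one hml.le
    have h3 : 3 * ml k < ⌊3 * ml k⌋₊ + 1 := Nat.lt_floor_add_one _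
    have h4 : ⌊3 * ml k⌋₊ ≤ 2 * B.card + 1 + ⌈ml k⌉₊ := by omega
    have h5 : (⌊3 * ml k⌋₊ : ℝ) ≤ 2 * B.card + 1 + ⌈ml k⌉₊ := by exact_mod_cast h4
    linarith
  have hsub : (⋃ b ∈ B, {Q | TW E r D k M s Q ∧ Q.length = b}) ⊆ QQ2 E r D k ⌈ml k⌉₊ ⌊3 * ml k⌋₊ M s := by
    intro Q hQ
    rw [Set.mem_iUnion₂] at hQ
    obtain ⟨b, hb, hQ1, hQ2⟩ := hQ
    rw [hB, mem_filter, mem_Icc] at hb
    exact ⟨hQ1, by omega, by omega⟩
  refine le_trans ?_ (gf_mono hsub)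
  have hdis : ∀ i ∈ B, ∀ j ∈ B, i ≠ j → Disjoint {Q | TW E r D k M s Q ∧ Q.length = i} {Q | TW E r D k M s Q ∧ Q.length = j} := by
    intro i _ j _ hij
    rw [Set.disjoint_left]
    rintro Q ⟨-, h1⟩ ⟨-, h2⟩
    exact hij (h1.symm.trans h2)
  rw [gf_biUnion _ _ hdis]
  -- the classes
  have g1 := cl_rc M
  have g2 : cl (TIW.de M) = if Even M.length then cl up else -cl up := cl_dx up M M.length
  have g3 : cl (TIW.en M) = if Even M.length then cl oo else cl oo + cl up := cl_vx oo up M M.length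
  have g4 : cl up = 2 := by decide
  have g5 : cl oo = 0 := by decide
  rw [g4] at g1 g2 g3
  rw [g5] at g3
  have gx : cl (rc M) = if Even M.length then 1 else 2 := by
    by_cases he : Even M.length
    · rw [if_pos he] at g2 ⊢
      rw [g2] at g1
      have key : ∀ x : ZMod 3, x * 2 = 2 → x = 1 := by decide
      exact key _ g1
    · rw [if_neg he] at g2 ⊢
      rw [g2] at g1
      have key : ∀ x : ZMod 3, x * -2 = 2 → x = 2 := by decide
      exact key _ g1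
  have key : ∀ b ∈ B, ENNReal.ofReal (c * (Ub k / (4 ^ k * ml k))) ≤ gf {Q | TW E r D k M s Q ∧ Q.length = b} := by
    intro b hb
    rw [hB, mem_filter, mem_Icc] at hb
    obtain ⟨⟨hb1, hb2⟩, hb3⟩ := hb
    have hcls : cl (mulE (rc M) (s - TIW.en M)) = (if Even b then 0 else 2) ∧
        cl (mulE (rc M) (E (r - 1))) = (if Even b then 2 else 1) := by
      rw [cl_mulE, cl_mulE, cl_sub, gx, g3]
      rcases hP.cls with ⟨h1, h2⟩ | ⟨h1, h2⟩
      · rw [h1, h2]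
        rw [if_pos h1] at hσ
        by_cases he : Even M.length
        · have hb4 : Even b := by
            rw [Nat.even_iff] at he ⊢
            omega
          rw [if_pos he, if_pos he, if_pos hb4, if_pos hb4]
          decide
        · have hb4 : ¬ Even b := by
            rw [Nat.even_iff] at he ⊢
            omega
          rw [if_neg he, if_neg he, if_neg hb4, if_neg hb4]
          decide
      · rw [h1, h2]
        have h3 : ¬ cl s = 0 := by
          rw [h1]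
          decide
        rw [if_neg h3] at hσ
        by_cases he : Even M.length
        · have hb4 : ¬ Even b := by
            rw [Nat.even_iff] at he ⊢
            omega
          rw [if_pos he, if_pos he, if_neg hb4, if_neg hb4]
          decide
        · have hb4 : Even b := by
            rw [Nat.even_iff] at he ⊢
            omega
          rw [if_neg he, if_neg he, if_pos hb4, if_pos hb4]
          decide
    refine hT k r b D (fun i => mulE (rc M) (E i)) (mulE (rc M) (s - TIW.en M)) hk hD1 hD2 hr hr' (ipg_rot hE (nrm_rc M))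
      ?_ ?_ hcls.1 hcls.2 ?_ ?_
    · show mulE (rc M) (E 0) = up
      rw [← hP.de, ← TIW.rt_up M, rc_rt]
    · have e1 : mulE (rc M) (s - TIW.en M) - AR.pv (fun i => mulE (rc M) (E i)) D r =
          mulE (rc M) ((s - (P + AR.pv E D r)) - (TIW.en M - P)) := by
        unfold AR.pv
        rw [ps_rot, ← mulE_smul, ← mulE_sub]
        congr 1
        abel
      rw [e1, TIW.hn_mulE (nrm_rc M)]
      have e3 : (2 : ℤ) ^ (k + 2) = 2 ^ (k + 1) + 2 ^ (k + 1) := by ring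
      rw [e3]
      exact (TIW.hn_sub _ _).trans (add_le_add hP.ps2 hP.ps1)
    · rw [one_mul]
      exact (Nat.le_ceil _).trans (by exact_mod_cast hb1)
    · exact (by exact_mod_cast hb2 : (b : ℝ) ≤ ⌊3 * ml k⌋₊).trans (Nat.floor_le (by positivity))
  refine le_trans ?_ (sum_le_sum key)
  rw [sum_const, nsmul_eq_mul]
  have h6 : (B.card : ℝ≥0∞) = ENNReal.ofReal (B.card : ℝ) := (ENNReal.ofReal_natCast _).symm
  rw [h6, ← ENNReal.ofReal_mul (Nat.cast_nonneg _)]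
  refine ENNReal.ofReal_le_ofReal ?_
  have h7 : c / 4 * (Ub k / 4 ^ k) = ml k / 4 * (c * (Ub k / (4 ^ k * ml k))) := by
    field_simp
  rw [h7]
  exact mul_le_mul_of_nonneg_right hcard (by positivity)

/-! ### 2. The placements -/

lemma hn_pe (g : Pt × Pt) (hg : nrm g.2 = 1) (B : List Bool) (t : ℕ) : TIW.hn (pv g B t - pe g B) = dz B t := by
  have e1 : pv g B t - pe g B = mulE g.2 (vx oo up B t - TIW.en B) := by
    unfold pe pv TIW.en
    rw [mulE_sub]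
    abel
  rw [e1, TIW.hn_mulE hg]
  rfl

/-- **the placements** -/
lemma place (hk : 3 ≤ k) (hr : 1 ≤ r) (hD : 0 ≤ D) (hE : IPg E r) {ρ : ℕ} (S : Finset Pt)
    (hS : ∀ s ∈ S, 2 * TIW.hn s ≤ 2 ^ k) :
    (S.card : ℝ≥0∞) * gp {T | (∃ P, JnP E r D k P T) ∧ (∀ s, s ≤ T.1.length → dz T.1 s ≤ ρ) ∧
      ∀ s, s ≤ T.2.2.length → dz T.2.2 s ≤ ρ} ≤ ∑' x : PLX E r D k ((ρ : ℤ) + 2), wX x := by
  classical
  obtain ⟨W, hW⟩ : ∃ W : Set PT, W = {T | (∃ P, JnP E r D k P T) ∧ (∀ s, s ≤ T.1.length → dz T.1 s ≤ ρ) ∧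
      ∀ s, s ≤ T.2.2.length → dz T.2.2 s ≤ ρ} := ⟨_, rfl⟩
  rw [← hW]
  have hEx : ∀ T ∈ W, ∃ P, JnP E r D k P T := by
    intro T hT
    rw [hW] at hT
    exact hT.1
  choose! pf hpf using hEx
  have h1 : (S.card : ℝ≥0∞) * gp W = ∑' x : ((S : Set Pt) ×ˢ W : Set (Pt × PT)),
      (fun _ : Pt => (1 : ℝ≥0∞)) (x : Pt × PT).1 * (fun T : PT => wE T.1 * wE T.2.2) (x : Pt × PT).2 := by
    rw [tsum_prodS (S : Set Pt) W (fun _ : Pt => (1 : ℝ≥0∞)) (fun T : PT => wE T.1 * wE T.2.2)]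
    have h7 := Finset.tsum_subtype S (fun _ : Pt => (1 : ℝ≥0∞))
    rw [sum_const, nsmul_eq_mul, mul_one] at h7
    have h8 : ∑' _ : (S : Set Pt), (1 : ℝ≥0∞) = (S.card : ℝ≥0∞) := h7
    rw [h8]
    rfl
  rw [h1]
  have hd1 : ∀ T ∈ W, -(pd T.2.1 T.2.2) = E (r - 1) := by
    intro T hT
    rw [(hpf T hT).d1, neg_neg]
  refine inj_sum (f := fun x : Pt × PT => (fun _ : Pt => (1 : ℝ≥0∞)) x.1 * (fun T : PT => wE T.1 * wE T.2.2) x.2) (g := wX)
    (fun x => (pf x.2 + x.1, (x.2.1, (pe x.2.2.1 x.2.2.2 + pd x.2.2.1 x.2.2.2, rev x.2.2.2)))) ?_ ?_ ?_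
  · rintro ⟨s, A, g, B⟩ ⟨hs, hT⟩
    have hJ := hpf _ hT
    have hd := hd1 _ hT
    simp only at hs hJ hd ⊢
    have hg : nrm g.2 = 1 := mem_dirs.1 hJ.fr.1
    have hsS : s ∈ S := hs
    refine ⟨jn_pp hk hr hD hE hJ (hS s hsS), ?_, ?_⟩
    · intro i hi
      have h2 : dz A i ≤ ρ := by
        rw [hW] at hT
        exact hT.2.1 i hi
      have h3 : TIW.hn (vx oo up A i - TIW.en A) ≤ ρ := h2
      show TIW.hn (vx oo up A i - TIW.en A) ≤ (ρ : ℤ) + 2
      linarith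
    · intro i hi
      show TIW.hn (vx (pe g B + pd g B) (E (r - 1)) (rev B) i - (pe g B + pd g B)) ≤ (ρ : ℤ) + 2
      have hi' : i ≤ B.length := by
        have h2 : i ≤ (rev B).length := hi
        rw [rev_length] at h2
        exact h2
      rcases Nat.eq_zero_or_pos i with h0 | h0
      · rw [h0]
        show TIW.hn (pe g B + pd g B - (pe g B + pd g B)) ≤ (ρ : ℤ) + 2
        rw [sub_self]
        have h4 : TIW.hn (0 : Pt) = 0 := by decide
        rw [h4]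
        positivity
      · rw [← hd, vx_revB g B (by omega)]
        have h2 : dz B (B.length + 1 - i) ≤ ρ := by
          rw [hW] at hT
          exact hT.2.2 _ (show B.length + 1 - i ≤ B.length by omega)
        rw [← hn_pe g hg] at h2
        have h3 : TIW.hn (pd g B) ≤ 2 := by
          have hdd : pd g B ∈ dirs := by
            rw [← neg_neg (pd g B), hd]
            exact neg_mem_dirs (hE.dir _ (by omega))
          have key : ∀ d ∈ dirs, TIW.hn d ≤ 2 := by decide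
          exact key _ hdd
        have e1 : pv g B (B.length + 1 - i) - (pe g B + pd g B) = (pv g B (B.length + 1 - i) - pe g B) - pd g B := by abel
        rw [e1]
        linarith [TIW.hn_sub (pv g B (B.length + 1 - i) - pe g B) (pd g B)]
  · rintro ⟨s, A, g, B⟩ ⟨_, hT⟩ ⟨s', A', g', B'⟩ ⟨_, hT'⟩ he
    have hd := hd1 _ hT
    have hd' := hd1 _ hT'
    simp only [Prod.mk.injEq] at he hd hd'
    obtain ⟨e1, e2, e3, e4⟩ := he
    have hB : B = B' := by rw [← rev_rev B, ← rev_rev B', e4]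
    subst hB
    have hpd : pd g B = pd g' B := neg_injective (hd.trans hd'.symm)
    have hg2 : g.2 = g'.2 := by
      unfold pd at hpd
      rw [mulE_comm g.2, mulE_comm g'.2] at hpd
      exact mulE_inj (mem_dirs.1 (TIW.de_mem B)) hpd
    have hg1 : g.1 = g'.1 := by
      rw [hpd] at e3
      have h3 := add_right_cancel e3
      unfold pe pv at h3
      rw [hg2] at h3
      exact add_right_cancel h3
    have hg : g = g' := Prod.ext hg1 hg2
    subst hg e2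
    rw [add_left_cancel e1]
  · rintro ⟨s, A, g, B⟩ _
    show 1 * (wE A * wE B) ≤ wE A * wE (rev B)
    rw [one_mul, wE_rev]

/-! ### 3. The result -/

/-- **row P6a, from the tubes and the words in a ball** -/
theorem jMassP_of0 (hT : TubeSt) (hCM : ConfMom) : JMassP := by
  classical
  obtain ⟨C1, hC1, hcm⟩ := hCM
  obtain ⟨C2, hC2, hmom⟩ := low_mom
  have hBL : ∀ k : ℕ, gf (G3.BL k) ≤ ENNReal.ofReal (C2 * Ub k) := by
    intro k
    refine le_trans ?_ (hmom k)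
    refine ENNReal.tsum_le_tsum fun Z => ?_
    have h1 : (1 : ℝ≥0∞) ≤ ENNReal.ofReal ((1 + ((Z : List Bool).length : ℝ) / ml k) ^ 2) := by
      rw [← ENNReal.ofReal_one]
      refine ENNReal.ofReal_le_ofReal ?_
      have h2 : 0 ≤ ((Z : List Bool).length : ℝ) / ml k := by
        have := ml_pos k
        positivity
      nlinarith
    calc wE (Z : List Bool) = wE (Z : List Bool) * 1 := (mul_one _).symm
      _ ≤ _ := mul_le_mul' le_rfl h1
  obtain ⟨H0, hH0, hT⟩ := hT 1 3 (by norm_num) (by norm_num)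
  refine ⟨H0, hH0, fun H hH Mx => ?_⟩
  obtain ⟨c, k0, hc, hT⟩ := hT H hH Mx
  obtain ⟨K1, hK1⟩ : ∃ K1 : ℕ, K1 = 2 * (Mx + 1) * (36 * H) + 1024 := ⟨_, rfl⟩
  obtain ⟨K3, hK3⟩ : ∃ K3 : ℕ, K3 = 2 * K1 + 12 := ⟨_, rfl⟩
  obtain ⟨K4, hK4⟩ : ∃ K4 : ℝ, K4 = C1 * (2 * K3 : ℝ) ^ (25 / 8 : ℝ) := ⟨_, rfl⟩
  obtain ⟨K2, hK2⟩ : ∃ K2 : ℝ, K2 = 100 * K1 ^ 2 * K4 / c := ⟨_, rfl⟩
  have hK1p : 0 < K1 := by omega
  have hK3p : 0 < K3 := by omega
  have hK4p : 0 < K4 := by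
    rw [hK4]
    have : (0 : ℝ) < K3 := by exact_mod_cast hK3p
    positivity
  have hK2p : 0 < K2 := by
    rw [hK2]
    have : (0 : ℝ) < K1 := by exact_mod_cast hK1p
    positivity
  refine ⟨144 * K2 * C2 ^ 2, max k0 3, by positivity, ?_⟩
  intro k r R D E hk hR hD1 hD2 hr hr' hE
  have hk0 : k0 ≤ k := (le_max_left _ _).trans hk
  have hk3 : 3 ≤ k := (le_max_right _ _).trans hk
  have hU : 0 < Ub k := Num2Aux.UU_pos _
  have hml := ml_pos k
  have h4k : (0 : ℝ) < 4 ^ k := by positivity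
  have hR1 : 1 ≤ R := le_trans Nat.one_le_two_pow hR
  have hm4 : 4 ≤ ml k := by
    unfold ml
    have h1 : (4 : ℝ) = (2 : ℝ) ^ (2 : ℝ) := by norm_num
    rw [h1]
    refine Real.rpow_le_rpow_of_exponent_le (by norm_num) ?_
    have h2 : (3 : ℝ) ≤ k := by exact_mod_cast hk3
    linarith
  have hH13 : 2 ^ 13 ≤ H := hH0.trans hH
  have hDD : (2 : ℤ) ^ (k + 12) ≤ D := by
    refine le_trans ?_ hD1
    have h1 : (2 : ℤ) ^ 13 ≤ H := by exact_mod_cast hH13
    have h2 : (0 : ℤ) < 2 ^ k := by positivity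
    have h3 : (2 : ℤ) ^ (k + 12) = 2 ^ 12 * 2 ^ k := by ring
    rw [h3]
    nlinarith
  have hD0 : 0 ≤ D := le_trans (by positivity) hDD
  -- the ball
  obtain ⟨i0, hi1, hi2⟩ : ∃ i0 : ℕ, K3 * R ≤ 2 ^ i0 ∧ 2 ^ i0 ≤ 2 * (K3 * R) := by
    have h1 : 1 < K3 * R := by nlinarith
    refine ⟨Nat.clog 2 (K3 * R), Nat.le_pow_clog (by norm_num) _, ?_⟩
    have h2 := Nat.pow_pred_clog_lt_self (by norm_num : 1 < 2) h1
    have h3 : 0 < Nat.clog 2 (K3 * R) := Nat.clog_pos (by norm_num) h1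
    have h4 : Nat.clog 2 (K3 * R) = (Nat.clog 2 (K3 * R)).pred + 1 := (Nat.succ_pred_eq_of_pos h3).symm
    rw [h4, pow_succ]
    omega
  obtain ⟨X, hX⟩ : ∃ X : ℝ, X = (R : ℝ) ^ (25 / 8 : ℝ) := ⟨_, rfl⟩
  have hX0 : 0 ≤ X := by
    rw [hX]
    positivity
  rw [← hX]
  have hball : ∑' L : CH i0, wE (L : List Bool) * (((L : List Bool).length + 1 : ℕ) : ℝ≥0∞) ≤ ENNReal.ofReal (K4 * X) := by
    refine (hcm i0).trans (ENNReal.ofReal_le_ofReal ?_)
    have h1 : ml i0 * (2 : ℝ) ^ ((43 / 24 : ℝ) * (i0 : ℝ)) = ((2 : ℝ) ^ i0) ^ (25 / 8 : ℝ) := by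
      unfold ml
      rw [← Real.rpow_add (by norm_num : (0 : ℝ) < 2), ← Real.rpow_natCast 2 i0, ← Real.rpow_mul (by norm_num)]
      congr 1
      ring
    rw [h1, hK4, hX, mul_assoc]
    refine mul_le_mul_of_nonneg_left ?_ hC1.le
    rw [← Real.mul_rpow (by positivity) (by positivity)]
    refine Real.rpow_le_rpow (by positivity) ?_ (by norm_num)
    have h2 : ((2 ^ i0 : ℕ) : ℝ) ≤ ((2 * (K3 * R) : ℕ) : ℝ) := by exact_mod_cast hi2
    push_cast at h2
    linarith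
  -- the minimal pairs
  have hG : ∑' y : MX E r D k (2 * ((R : ℤ) + 2)), wX y ≤ ENNReal.ofReal (K2 * (4 ^ k * (4 ^ k / (Ub k * ml k))) * X) := by
    obtain ⟨q0, hq0⟩ : ∃ q0, q0 = ⌈ml k⌉₊ := ⟨_, rfl⟩
    obtain ⟨q1, hq1⟩ : ∃ q1, q1 = ⌊3 * ml k⌋₊ := ⟨_, rfl⟩
    have hq0m : ml k ≤ q0 := by
      rw [hq0]
      exact Nat.le_ceil _
    have hroot := sum_root2 hE hr hDD (ρ := 2 * ((R : ℤ) + 2)) (B := K1 * 2 ^ k) (i0 := i0) (q0 := q0) (q1 := q1) (by
      rw [hK1]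
      push_cast
      have h1 : (2 : ℤ) ^ (k + 10) = 1024 * 2 ^ k := by ring
      rw [h1]
      have h2 : (r : ℤ) ≤ Mx := by exact_mod_cast hr'
      have h4 : 2 * ((r : ℤ) + 1) * D ≤ 2 * ((Mx : ℤ) + 1) * D := by
        refine mul_le_mul_of_nonneg_right ?_ hD0
        linarith
      have h5 : 2 * ((Mx : ℤ) + 1) * D ≤ 2 * ((Mx : ℤ) + 1) * (36 * (H * 2 ^ k)) := by
        refine mul_le_mul_of_nonneg_left hD2 (by positivity)
      have h6 : (2 * ((Mx : ℤ) + 1) * (36 * H) + 1024) * 2 ^ k = 2 * ((Mx : ℤ) + 1) * (36 * (H * 2 ^ k)) + 1024 * 2 ^ k := by ring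
      rw [h6]
      linarith) (by
      have h1 : ((K3 * R : ℕ) : ℤ) ≤ ((2 ^ i0 : ℕ) : ℤ) := by exact_mod_cast hi1
      rw [hK3] at h1
      push_cast at h1
      push_cast
      refine le_trans ?_ h1
      have h2 : ((2 ^ k : ℕ) : ℤ) ≤ R := by exact_mod_cast hR
      push_cast at h2
      have h3 : (1 : ℤ) ≤ R := by exact_mod_cast hR1
      have h4 : (0 : ℤ) ≤ K1 := by positivity
      nlinarith [mul_le_mul_of_nonneg_left h2 h4]) (by positivity) (ENNReal.ofReal (c / 4 * (Ub k / 4 ^ k))) (fun x hx => by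
      rw [hq0, hq1]
      exact tube_mass2 hc hT hk0 hD1 hD2 (by omega) hr' hE hx.1.1 hm4)
    have h1 : (∑' y : MX E r D k (2 * ((R : ℤ) + 2)), wX y) * ENNReal.ofReal (c / 4 * (Ub k / 4 ^ k) * ml k) ≤
        ENNReal.ofReal (25 * K1 ^ 2 * 4 ^ k * (K4 * X)) := by
      calc (∑' y : MX E r D k (2 * ((R : ℤ) + 2)), wX y) * ENNReal.ofReal (c / 4 * (Ub k / 4 ^ k) * ml k) ≤
          (∑' y : MX E r D k (2 * ((R : ℤ) + 2)), wX y) * (ENNReal.ofReal (c / 4 * (Ub k / 4 ^ k)) * q0) := by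
            refine mul_le_mul' le_rfl ?_
            rw [ENNReal.ofReal_mul (by positivity)]
            refine mul_le_mul' le_rfl ?_
            rw [← ENNReal.ofReal_natCast]
            exact ENNReal.ofReal_le_ofReal hq0m
        _ ≤ _ := hroot
        _ ≤ ENNReal.ofReal (25 * K1 ^ 2 * 4 ^ k) * ENNReal.ofReal (K4 * X) := by
            refine mul_le_mul' ?_ hball
            rw [← ENNReal.ofReal_natCast]
            refine ENNReal.ofReal_le_ofReal ?_
            push_cast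
            have h2 : (1 : ℝ) ≤ K1 * 2 ^ k := by
              have : (1 : ℝ) ≤ K1 := by exact_mod_cast hK1p
              have h3 : (1 : ℝ) ≤ 2 ^ k := one_le_pow₀ (by norm_num)
              nlinarith
            have h3 : (4 : ℝ) ^ k = (2 ^ k) ^ 2 := by
              rw [← pow_mul, mul_comm, pow_mul]
              norm_num
            rw [h3]
            nlinarith
        _ = _ := by
            rw [← ENNReal.ofReal_mul (by positivity)]
    have hpos : 0 < c / 4 * (Ub k / 4 ^ k) * ml k := by positivity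
    have h2 : ∑' y : MX E r D k (2 * ((R : ℤ) + 2)), wX y ≤
        ENNReal.ofReal (25 * K1 ^ 2 * 4 ^ k * (K4 * X)) / ENNReal.ofReal (c / 4 * (Ub k / 4 ^ k) * ml k) := by
      rw [ENNReal.le_div_iff_mul_le (Or.inl (by simpa using hpos)) (Or.inl ENNReal.ofReal_ne_top)]
      exact h1
    refine h2.trans ?_
    rw [← ENNReal.ofReal_div_of_pos hpos]
    refine ENNReal.ofReal_le_ofReal (le_of_eq ?_)
    rw [hK2]
    field_simp
    ring
  -- all placed pairs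
  have hall : ∑' x : PLX E r D k ((R : ℤ) + 2), wX x ≤
      ENNReal.ofReal (K2 * (4 ^ k * (4 ^ k / (Ub k * ml k))) * X * (C2 * Ub k) ^ 2) := by
    refine (sum_dec2 (by omega) hE _).trans ?_
    refine (mul_le_mul' (mul_le_mul' (hBL k) (hBL k)) hG).trans (le_of_eq ?_)
    rw [← ENNReal.ofReal_mul (by positivity), ← ENNReal.ofReal_mul (by positivity)]
    congr 1
    ring
  -- the placements
  obtain ⟨k', hk'⟩ : ∃ k', k = k' + 1 := ⟨k - 1, by omega⟩
  obtain ⟨S, hS1, hS2⟩ := small_pts k'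
  have hS3 : ∀ s ∈ S, 2 * TIW.hn s ≤ 2 ^ k := by
    intro s hs
    have h1 := hS1 s hs
    rw [hk', pow_succ]
    linarith
  have hpl := place (ρ := R) hk3 (by omega) hD0 hE S hS3
  obtain ⟨G, hG'⟩ : ∃ G : ℝ≥0∞, G = gp {T | (∃ P, JnP E r D k P T) ∧ (∀ s, s ≤ T.1.length → dz T.1 s ≤ R) ∧
      ∀ s, s ≤ T.2.2.length → dz T.2.2 s ≤ R} := ⟨_, rfl⟩
  rw [← hG'] at hpl ⊢
  have hS4 : (4 : ℝ) ^ k / 144 ≤ (S.card : ℝ) := by
    refine le_trans (le_of_eq ?_) hS2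
    rw [hk', pow_succ]
    ring
  have h2 : G ≤ ENNReal.ofReal (K2 * (4 ^ k * (4 ^ k / (Ub k * ml k))) * X * (C2 * Ub k) ^ 2) / ENNReal.ofReal (4 ^ k / 144) := by
    rw [ENNReal.le_div_iff_mul_le (Or.inl (by simp)) (Or.inl ENNReal.ofReal_ne_top), mul_comm]
    refine le_trans ?_ (hpl.trans hall)
    refine mul_le_mul' ?_ le_rfl
    rw [← ENNReal.ofReal_natCast]
    exact ENNReal.ofReal_le_ofReal hS4
  refine h2.trans ?_
  rw [← ENNReal.ofReal_div_of_pos (by positivity)]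
  refine ENNReal.ofReal_le_ofReal (le_of_eq ?_)
  field_simp

end G4

end RMP

end HexObs
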