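import Pool.Agent.RMP.PlPU

/-!
# RMP, row P6a (helper87), part S: the sums

* `min_dec2`: a placed pair is a minimal placed pair with two low bridges at the two tips;
* `sum_dec2`: the mass of the placed pairs from the mass of the minimal ones;
* `sum_root2`: the mass of the minimal placed pairs from the self-avoiding words in a ball.
-/

set_option autoImplicit false

namespace HexObs

namespace RMP

namespace G4

open Finset TS SDN SIM NTA TIP ARM ARM.G3

open scoped ENNReal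

variable {E : ℕ → Pt} {r : ℕ} {D : ℤ} {k : ℕ}

/-- sums over product sets -/
lemma tsum_prodS {α β : Type*} (A : Set α) (B : Set β) (f : α → ℝ≥0∞) (g : β → ℝ≥0∞) :
    ∑' p : (A ×ˢ B : Set (α × β)), f (p : α × β).1 * g (p : α × β).2 = (∑' a : A, f a) * ∑' b : B, g b := by
  classical
  rw [tsum_subtype (A ×ˢ B) (fun p : α × β => f p.1 * g p.2), ENNReal.tsum_prod', tsum_subtype A f, tsum_subtype B g,
    ← ENNReal.tsum_mul_right]
  refine tsum_congr fun a => ?_
  rw [← ENNReal.tsum_mul_left]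
  refine tsum_congr fun b => ?_
  by_cases ha : a ∈ A
  · by_cases hb : b ∈ B
    · rw [Set.indicator_of_mem ha, Set.indicator_of_mem hb, Set.indicator_of_mem (show (a, b) ∈ A ×ˢ B from ⟨ha, hb⟩)]
    · rw [Set.indicator_of_notMem hb, mul_zero, Set.indicator_of_notMem (fun h => hb h.2)]
  · rw [Set.indicator_of_notMem ha, zero_mul, Set.indicator_of_notMem (fun h => ha h.1)]

/-! ### 1. Minimal decomposition -/

lemma sh_nil (E : ℕ → Pt) (r : ℕ) (s : Pt) : sh E r s [] = s := by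
  unfold sh
  have : TIW.en ([] : List Bool) = 0 := rfl
  rw [this, mulE_zero, add_zero]

lemma sh_app {Z : List Bool} (hZ : Z ∈ BU) (E : ℕ → Pt) (r : ℕ) (s : Pt) (Z' : List Bool) :
    sh E r s (Z ++ Z') = sh E r (sh E r s Z) Z' := by
  unfold sh
  rw [en_bu hZ, mulE_add, add_assoc]

/-- **minimal decomposition** -/
lemma min_dec2 : ∀ (n : ℕ) (P : Pt) (M : List Bool) (s : Pt) (R : List Bool), M.length + R.length = n →
    PP E r D k P M s R → ∃ I Z Z' J : List Bool, Z ∈ BU ∧ Z' ∈ BU ∧ M = I ++ Z ∧ R = Z' ++ J ∧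
      Wm2 E r D k P I (sh E r s Z') J := by
  intro n
  induction n using Nat.strong_induction_on with
  | _ n ih =>
    intro P M s R hn hP
    by_cases hm : Wm2 E r D k P M s R
    · refine ⟨M, [], [], R, nil_BU, nil_BU, by simp, by simp, ?_⟩
      rw [sh_nil]
      exact hm
    · have h1 : ¬ ∀ I Z Z' J : List Bool, Z ∈ BU → Z' ∈ BU → M = I ++ Z → R = Z' ++ J →
          PP E r D k P I (sh E r s Z') J → Z = [] ∧ Z' = [] := fun h => hm ⟨hP, h⟩
      push Not at h1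
      obtain ⟨I, Z, Z', J, z1, z2, he, he', hI, h2⟩ := h1
      have hlt : I.length + J.length < n := by
        have h3 := congrArg List.length he
        have h3' := congrArg List.length he'
        rw [List.length_append] at h3 h3'
        rcases Nat.eq_zero_or_pos Z.length with h4 | h4
        · have h5 := h2 (List.length_eq_zero_iff.1 h4)
          have h6 : 0 < Z'.length := List.length_pos_iff.2 h5
          omega
        · omega
      obtain ⟨I1, Z1, Z1', J1, y1, y2, e1, e2, hJ⟩ := ih _ hlt P I (sh E r s Z') J rfl hI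
      refine ⟨I1, Z1 ++ Z, Z' ++ Z1', J1, BU_app y1 z1, BU_app z2 y2, ?_, ?_, ?_⟩
      · rw [he, e1, List.append_assoc]
      · rw [he', e2, List.append_assoc]
      · rw [sh_app z2]
        exact hJ

/-- the heights of the two bridges -/
lemma dec_hgt2 (hr : 1 ≤ r) (hE : IPg E r) {P s : Pt} {I Z Z' J : List Bool} (z1 : Z ∈ BU) (z2 : Z' ∈ BU)
    (hP : PP E r D k P (I ++ Z) s (Z' ++ J)) (hI : PP E r D k P I (sh E r s Z') J) :
    hgt Z ≤ 2 ^ (k + 2) ∧ hgt Z' ≤ 2 ^ (k + 2) := by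
  have e2 : (2 : ℤ) ^ (k + 2) = 2 ^ (k + 1) + 2 ^ (k + 1) := by ring
  constructor
  · have h1 := (AR.BU_facts z1).2.2.1
    have h2 := TIW.ip_le_hn (TIW.en Z) TIW.upd'
    have h3 : TIW.hn (TIW.en Z) ≤ 2 ^ (k + 1) + 2 ^ (k + 1) := by
      rw [← TIW.hn_mulE (TIW.nrm_rt I)]
      have h6 := hP.ps1
      rw [TIW.en_app] at h6
      have e1 : mulE (TIW.rt I) (TIW.en Z) = (TIW.en I + mulE (TIW.rt I) (TIW.en Z) - P) - (TIW.en I - P) := by abel
      rw [e1]
      exact (TIW.hn_sub _ _).trans (add_le_add h6 hI.ps1)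
    have h4 : ((hgt Z : ℕ) : ℤ) ≤ ((2 ^ (k + 2) : ℕ) : ℤ) := by
      push_cast
      have h5 : (0 : ℤ) ≤ hgt Z := by positivity
      linarith
    exact_mod_cast h4
  · have h1 := (AR.BU_facts z2).2.2.1
    have h2 := TIW.ip_le_hn (TIW.en Z') TIW.upd'
    have h3 : TIW.hn (TIW.en Z') ≤ 2 ^ (k + 1) + 2 ^ (k + 1) := by
      have hn1 : nrm (rotTo up (E (r - 1))) = 1 := mem_dirs.1 (frame_dir (hE.dir _ (by omega))).1
      rw [← TIW.hn_mulE hn1]
      have e1 : mulE (rotTo up (E (r - 1))) (TIW.en Z') = (sh E r s Z' - (P + AR.pv E D r)) - (s - (P + AR.pv E D r)) := by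
        unfold sh
        abel
      rw [e1]
      exact (TIW.hn_sub _ _).trans (add_le_add hI.ps2 hP.ps2)
    have h4 : ((hgt Z' : ℕ) : ℤ) ≤ ((2 ^ (k + 2) : ℕ) : ℤ) := by
      push_cast
      have h5 : (0 : ℤ) ≤ hgt Z' := by positivity
      linarith
    exact_mod_cast h4

/-- placed pairs: base point, first word, start of the second word, second word -/
abbrev PX : Type := Pt × (List Bool × (Pt × List Bool))

/-- spatial cut-offs -/
def CO (E : ℕ → Pt) (r : ℕ) (ρ : ℤ) (x : PX) : Prop :=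
  (∀ i, i ≤ x.2.1.length → TIW.hn (vx oo up x.2.1 i - TIW.en x.2.1) ≤ ρ) ∧
    ∀ i, i ≤ x.2.2.2.length → TIW.hn (vx x.2.2.1 (E (r - 1)) x.2.2.2 i - x.2.2.1) ≤ ρ

/-- the placed pairs with cut-offs -/
def PLX (E : ℕ → Pt) (r : ℕ) (D : ℤ) (k : ℕ) (ρ : ℤ) : Set PX := {x | PP E r D k x.1 x.2.1 x.2.2.1 x.2.2.2 ∧ CO E r ρ x}

/-- the minimal placed pairs with cut-offs -/
def MX (E : ℕ → Pt) (r : ℕ) (D : ℤ) (k : ℕ) (ρ : ℤ) : Set PX := {x | Wm2 E r D k x.1 x.2.1 x.2.2.1 x.2.2.2 ∧ CO E r ρ x}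

/-- the weight -/
noncomputable def wX (x : PX) : ℝ≥0∞ := wE x.2.1 * wE x.2.2.2

/-- the second part of the second word -/
lemma vx_sh (hE : E (r - 1) ∈ dirs) {Z : List Bool} (hZ : Z ∈ BU) (s : Pt) (J : List Bool) (i : ℕ) :
    vx s (E (r - 1)) (Z ++ J) (Z.length + i) = vx (sh E r s Z) (E (r - 1)) J i := by
  rw [dir_frame hE, dir_frame hE, TIW.vx_app, rt_bu hZ, mulE_one, mulE_add, ← add_assoc]
  rfl

lemma co_dec (hE : E (r - 1) ∈ dirs) {ρ : ℤ} {P s : Pt} {I Z Z' J : List Bool} (z2 : Z' ∈ BU)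
    (h : CO E r ρ (P, (I ++ Z, (s, Z' ++ J)))) : CO E r (2 * ρ) (P, (I, (sh E r s Z', J))) := by
  obtain ⟨h1, h2⟩ := h
  simp only at h1 h2
  constructor
  · intro i hi
    simp only at hi ⊢
    have h3 := h1 i (by rw [List.length_append]; omega)
    have h4 := h1 I.length (by rw [List.length_append]; omega)
    rw [vx_append (by omega : i ≤ I.length + 1)] at h3
    rw [vx_append (by omega : I.length ≤ I.length + 1)] at h4
    have e1 : vx oo up I i - TIW.en I = (vx oo up I i - TIW.en (I ++ Z)) - (vx oo up I I.length - TIW.en (I ++ Z)) := by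
      unfold TIW.en
      abel
    rw [e1]
    linarith [TIW.hn_sub (vx oo up I i - TIW.en (I ++ Z)) (vx oo up I I.length - TIW.en (I ++ Z))]
  · intro i hi
    simp only at hi ⊢
    have h3 := h2 (Z'.length + i) (by rw [List.length_append]; omega)
    have h4 := h2 (Z'.length + 0) (by rw [List.length_append]; omega)
    rw [vx_sh hE z2] at h3 h4
    have e0 : vx (sh E r s Z') (E (r - 1)) J 0 = sh E r s Z' := rfl
    rw [e0] at h4
    have e1 : vx (sh E r s Z') (E (r - 1)) J i - sh E r s Z' =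
        (vx (sh E r s Z') (E (r - 1)) J i - s) - (sh E r s Z' - s) := by abel
    rw [e1]
    linarith [TIW.hn_sub (vx (sh E r s Z') (E (r - 1)) J i - s) (sh E r s Z' - s)]

/-- **the placed pairs from the minimal ones** -/
theorem sum_dec2 (hr : 1 ≤ r) (hE : IPg E r) (ρ : ℤ) :
    ∑' x : PLX E r D k ρ, wX x ≤ gf (G3.BL k) * gf (G3.BL k) * ∑' y : MX E r D k (2 * ρ), wX y := by
  classical
  have hEd : E (r - 1) ∈ dirs := hE.dir _ (by omega)
  have key : ∀ x ∈ PLX E r D k ρ, ∃ I Z Z' J : List Bool, Z ∈ BU ∧ Z' ∈ BU ∧ x.2.1 = I ++ Z ∧ x.2.2.2 = Z' ++ J ∧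
      Wm2 E r D k x.1 I (sh E r x.2.2.1 Z') J := fun x hx => min_dec2 _ x.1 x.2.1 x.2.2.1 x.2.2.2 rfl hx.1
  choose! f g h q hf using key
  have e1 : gf (G3.BL k) * gf (G3.BL k) * ∑' y : MX E r D k (2 * ρ), wX y =
      ∑' p : ((G3.BL k ×ˢ G3.BL k) ×ˢ MX E r D k (2 * ρ) : Set ((List Bool × List Bool) × PX)),
        (fun z : List Bool × List Bool => wE z.1 * wE z.2) (p : (List Bool × List Bool) × PX).1 *
          wX (p : (List Bool × List Bool) × PX).2 := by
    rw [tsum_prodS (G3.BL k ×ˢ G3.BL k) (MX E r D k (2 * ρ)) (fun z : List Bool × List Bool => wE z.1 * wE z.2) wX,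
      tsum_prodS (G3.BL k) (G3.BL k) wE wE]
    rfl
  rw [e1]
  refine inj_sum (f := wX) (g := fun p : (List Bool × List Bool) × PX => wE p.1.1 * wE p.1.2 * wX p.2)
    (fun x => ((g x, h x), (x.1, (f x, (sh E r x.2.2.1 (h x), q x))))) ?_ ?_ ?_
  · intro x hx
    obtain ⟨h1, h2, h3, h4, h5⟩ := hf x hx
    have hP := hx.1
    rw [h3, h4] at hP
    obtain ⟨h6, h7⟩ := dec_hgt2 hr hE h1 h2 hP h5.1
    refine ⟨⟨⟨h1, h6⟩, h2, h7⟩, h5, ?_⟩
    refine co_dec hEd (Z := g x) h2 ?_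
    have h8 := hx.2
    have h9 : x = (x.1, (f x ++ g x, (x.2.2.1, h x ++ q x))) := by
      rw [← h3, ← h4]
    rw [← h9]
    exact h8
  · intro x hx y hy hxy
    simp only [Prod.mk.injEq] at hxy
    obtain ⟨⟨a1, a2⟩, a3, a4, a5, a6⟩ := hxy
    obtain ⟨-, -, h3, h4, -⟩ := hf x hx
    obtain ⟨-, -, k3, k4, -⟩ := hf y hy
    refine Prod.ext a3 (Prod.ext ?_ (Prod.ext ?_ ?_))
    · rw [h3, k3, a1, a4]
    · rw [a2] at a5
      unfold sh at a5
      exact add_right_cancel a5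
    · rw [h4, k4, a2, a6]
  · intro x hx
    obtain ⟨-, -, h3, h4, -⟩ := hf x hx
    show wE x.2.1 * wE x.2.2.2 ≤ wE (g x) * wE (h x) * (wE (f x) * wE (q x))
    rw [h3, h4, wE_append, wE_append]
    refine le_of_eq ?_
    ring

/-! ### 2. The sum over the roots -/

/-- the tube words with at least q0 and at most q1 letters -/
def QQ2 (E : ℕ → Pt) (r : ℕ) (D : ℤ) (k : ℕ) (q0 q1 : ℕ) (M : List Bool) (s : Pt) : Set (List Bool) :=
  {Q | TW E r D k M s Q ∧ q0 ≤ Q.length ∧ Q.length ≤ q1}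

/-- the words in a ball around their end -/
def CH (i : ℕ) : Set (List Bool) := {L : List Bool | L ∈ SA ∧ ∀ s, s ≤ L.length → dz L s ≤ 2 ^ i}

/-- the marked triples -/
def X5 (E : ℕ → Pt) (r : ℕ) (D : ℤ) (k : ℕ) (ρ : ℤ) (q0 q1 : ℕ) : Set (PX × (List Bool × ℕ)) :=
  {x | x.1 ∈ MX E r D k ρ ∧ x.2.1 ∈ QQ2 E r D k q0 q1 x.1.2.1 x.1.2.2.1 ∧ 1 ≤ x.2.2 ∧ x.2.2 ≤ x.2.1.length}

/-- the joined word -/
def jw (x : PX) (Q : List Bool) : List Bool := x.2.1 ++ (Q ++ x.2.2.2)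

/-- the joined word with the root, and the base point from the root -/
def rtm2 (x : PX × (List Bool × ℕ)) : Pt × (List Bool × ℕ) :=
  (x.1.1 - vx oo up (jw x.1 x.2.1) (x.1.2.1.length + x.2.2), (jw x.1 x.2.1, x.1.2.1.length + x.2.2))

/-- **the roots determine the triple** -/
theorem rtm2_inj (hE : IPg E r) (hr : 3 ≤ r) (hD : 2 ^ (k + 12) ≤ D) {ρ : ℤ} {q0 q1 : ℕ} :
    Set.InjOn rtm2 (X5 E r D k ρ q0 q1) := by
  rintro ⟨⟨P, M, s, R⟩, Q, i⟩ ⟨⟨hM, -⟩, ⟨hQ, -, -⟩, hi1, hi2⟩ ⟨⟨P', M', s', R'⟩, Q', i'⟩ ⟨⟨hM', -⟩, ⟨hQ', -, -⟩, hi1', hi2'⟩ he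
  simp only [rtm2, jw, Prod.mk.injEq] at he
  simp only at hM hM' hQ hQ' hi1 hi2 hi1' hi2'
  obtain ⟨e1, e2, e3⟩ := he
  obtain ⟨w, hw⟩ : ∃ w, w = M ++ (Q ++ R) := ⟨_, rfl⟩
  have hw' : w = M' ++ (Q' ++ R') := by rw [hw, e2]
  have hPP : P = P' := by
    rw [e2, e3] at e1
    exact sub_left_inj.1 e1
  have hsa : w ∈ SA := by
    rw [hw]
    exact sa_of hE hr hD hM.1 hQ
  have t1 := tr2_of hM.1 hQ
  have t2 := tr2_of hM'.1 hQ'
  rw [← hw] at t1
  rw [← hw', ← hPP] at t2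
  have hsub : ∀ {M Q R : List Bool} {s : Pt}, TW E r D k M s Q → w = M ++ (Q ++ R) →
      w.take M.length = M ∧ vx oo up w (M.length + Q.length) = s ∧ w.drop (M.length + Q.length) = R := by
    intro M Q R s hQ hw
    refine ⟨?_, ?_, ?_⟩
    · rw [hw]
      exact List.take_left' rfl
    · rw [hw, hv2 M Q R le_rfl, hQ.last]
    · rw [hw, ← List.append_assoc]
      exact List.drop_left' (by rw [List.length_append])
  obtain ⟨a1, a2, a3⟩ := hsub hQ hw
  obtain ⟨b1, b2, b3⟩ := hsub hQ' hw'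
  obtain ⟨u1, u2⟩ := mark_eq2 hE hr hD hsa t1 t2 (by omega) (by omega) (by rw [a1, a2, a3]; exact hM)
    (by rw [b1, b2, b3, hPP]; exact hM')
  have hMM : M = M' := by rw [← a1, ← b1, u1]
  have hss : s = s' := by rw [← a2, ← b2, u2]
  have hRR : R = R' := by rw [← a3, ← b3, u2]
  have hQQ : Q = Q' := by
    have h3 : M ++ (Q ++ R) = M' ++ (Q' ++ R') := by rw [← hw, ← hw']
    rw [hMM, hRR] at h3
    exact List.append_cancel_right (List.append_cancel_left h3)
  have hii : i = i' := by omega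
  rw [hPP, hMM, hss, hRR, hQQ, hii]

/-- the size of the region of the path -/
lemma np_pos (hE : IPg E r) (hD : 0 ≤ D) {P p : Pt} {j : ℕ} (hj : j < r) (h : NP E D P k j p) :
    TIW.hn (p - P) ≤ 2 * (r + 1) * D + 2 ^ (k + 10) := by
  obtain ⟨t, h1, h2, h3⟩ := h
  have hd2 : ∀ d ∈ dirs, TIW.hn d ≤ 2 := by decide
  have hps : ∀ b : ℕ, b ≤ r → TIW.hn (AR.ps E b) ≤ 2 * b := by
    intro b
    induction b with
    | zero =>
      intro _
      rw [ps_zero]
      decide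
    | succ b ih =>
      intro hbr
      rw [AR.ps_succ]
      push_cast
      have h4 := ih (by omega)
      have h5 := hd2 _ (hE.dir b (by omega))
      linarith [TIW.hn_add (AR.ps E b) (E b)]
  have hsm : ∀ (t : ℤ) (v : Pt), 0 ≤ t → TIW.hn (t • v) ≤ t * TIW.hn v := by
    intro t v ht
    refine TIW.hn_le fun d hd => ?_
    rw [AR.ip_smul]
    exact mul_le_mul_of_nonneg_left (TIW.ip_le_hn v hd) ht
  have e1 : p - P = (p - (P + AR.pv E D j + t • E j)) + (AR.pv E D j + t • E j) := by abel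
  rw [e1]
  have h6 : TIW.hn (AR.pv E D j) ≤ D * (2 * j) := (hsm D _ hD).trans (mul_le_mul_of_nonneg_left (hps j hj.le) hD)
  have h7 : TIW.hn (t • E j) ≤ D * 2 := by
    refine (hsm t _ h1).trans ?_
    have h8 := hd2 _ (hE.dir j hj)
    have h9 := TIW.hn_nonneg (E j)
    nlinarith
  have h10 : D * (2 * (j : ℤ)) ≤ D * (2 * r) := by
    refine mul_le_mul_of_nonneg_left ?_ hD
    have : (j : ℤ) ≤ r := by exact_mod_cast hj.le
    linarith
  have h11 := TIW.hn_add (p - (P + AR.pv E D j + t • E j)) (AR.pv E D j + t • E j)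
  have h12 := TIW.hn_add (AR.pv E D j) (t • E j)
  linarith

/-- the joined word is in a ball -/
lemma jw_ball (hE : IPg E r) (hr : 3 ≤ r) (hD : 2 ^ (k + 12) ≤ D) {ρ : ℤ} {B i0 : ℕ}
    (hB : 2 * (r + 1) * D + 2 ^ (k + 10) ≤ B) (hi0 : 2 * (ρ + B) ≤ 2 ^ i0) (hρ : 0 ≤ ρ) {x : PX} {Q : List Bool}
    (hx : x ∈ PLX E r D k ρ) (hQ : TW E r D k x.2.1 x.2.2.1 Q) : jw x Q ∈ CH i0 := by
  obtain ⟨P, M, s, R⟩ := x
  obtain ⟨hP, hc1, hc2⟩ := hx
  simp only at hP hc1 hc2 hQ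
  have hD0 : 0 ≤ D := le_trans (by positivity) hD
  have hl : (M ++ (Q ++ R)).length = M.length + (Q.length + R.length) := by
    rw [List.length_append, List.length_append]
  have ht : ∀ i, i ≤ Q.length → TIW.hn (vq M Q i - P) ≤ B := by
    intro i hi
    obtain ⟨j, hj, hn⟩ := hQ.rgA hP.ps1 hi
    exact (np_pos hE hD0 hj hn).trans hB
  have hall : ∀ i, i ≤ (M ++ (Q ++ R)).length → TIW.hn (vx oo up (M ++ (Q ++ R)) i - P) ≤ ρ + B := by
    intro i hi
    rcases Nat.lt_or_ge M.length i with h1 | h1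
    · rcases Nat.lt_or_ge (M.length + Q.length) i with h2 | h2
      · obtain ⟨q, rfl⟩ : ∃ q, i = M.length + Q.length + q := ⟨i - (M.length + Q.length), by omega⟩
        rw [hv3 hQ R q]
        have h3 := hc2 q (by omega)
        have h4 := ht Q.length le_rfl
        rw [hQ.last] at h4
        linarith [TIW.hn_tri (vx s (E (r - 1)) R q) s P]
      · obtain ⟨q, rfl⟩ : ∃ q, i = M.length + q := ⟨i - M.length, by omega⟩
        rw [hv2 M Q R (by omega)]
        linarith [ht q (by omega)]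
    · rw [hv1 M Q R h1]
      have h3 := hc1 i h1
      have h4 := ht 0 (Nat.zero_le _)
      have h5 : vq M Q 0 = TIW.en M := by
        unfold vq
        have : vx oo up Q 0 = 0 := rfl
        rw [this, mulE_zero, add_zero]
      rw [h5] at h4
      linarith [TIW.hn_tri (vx oo up M i) (TIW.en M) P]
  refine ⟨sa_of hE hr hD hP hQ, fun i hi => ?_⟩
  unfold dz
  have h1 := hall i hi
  have h2 := hall _ le_rfl
  have h3 := TIW.hn_tri (vx oo up (M ++ (Q ++ R)) i) P (TIW.en (M ++ (Q ++ R)))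
  rw [TIW.hn_sub_comm P] at h3
  unfold TIW.en at h3 ⊢
  show TIW.hn (vx oo up (M ++ (Q ++ R)) i - vx oo up (M ++ (Q ++ R)) (M ++ (Q ++ R)).length) ≤ 2 ^ i0
  linarith

/-- **the sum over the roots** -/
theorem sum_root2 (hE : IPg E r) (hr : 3 ≤ r) (hD : 2 ^ (k + 12) ≤ D) {ρ : ℤ} {B i0 q0 q1 : ℕ}
    (hB : 2 * (r + 1) * D + 2 ^ (k + 10) ≤ B) (hi0 : 2 * (ρ + B) ≤ 2 ^ i0) (hρ : 0 ≤ ρ) (v : ℝ≥0∞)
    (hv : ∀ x ∈ MX E r D k ρ, v ≤ gf (QQ2 E r D k q0 q1 x.2.1 x.2.2.1)) :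
    (∑' x : MX E r D k ρ, wX x) * (v * q0) ≤
      (((4 * B + 1) ^ 2 : ℕ) : ℝ≥0∞) * ∑' L : CH i0, wE (L : List Bool) * (((L : List Bool).length + 1 : ℕ) : ℝ≥0∞) := by
  classical
  have hD0 : 0 ≤ D := le_trans (by positivity) hD
  -- lower bound for the sum over the triples
  have h1 : (∑' x : MX E r D k ρ, wX x) * (v * q0) ≤
      ∑' x : X5 E r D k ρ q0 q1, wX (x : PX × (List Bool × ℕ)).1 * wE (x : PX × (List Bool × ℕ)).2.1 := by
    rw [tsum_subtype (X5 E r D k ρ q0 q1) (fun x : PX × (List Bool × ℕ) => wX x.1 * wE x.2.1), ENNReal.tsum_prod',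
      ← ENNReal.tsum_mul_right, tsum_subtype (MX E r D k ρ) (fun x : PX => wX x * (v * q0))]
    refine ENNReal.tsum_le_tsum fun y => ?_
    by_cases hy : y ∈ MX E r D k ρ
    · rw [Set.indicator_of_mem hy, ENNReal.tsum_prod']
      have h2 : wX y * (gf (QQ2 E r D k q0 q1 y.2.1 y.2.2.1) * q0) ≤ ∑' Q : List Bool, ∑' i : ℕ,
          (X5 E r D k ρ q0 q1).indicator (fun x : PX × (List Bool × ℕ) => wX x.1 * wE x.2.1) (y, (Q, i)) := by
        rw [AR.gf_ite, ← ENNReal.tsum_mul_right, ← ENNReal.tsum_mul_left]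
        refine ENNReal.tsum_le_tsum fun Q => ?_
        by_cases hQ : Q ∈ QQ2 E r D k q0 q1 y.2.1 y.2.2.1
        · rw [if_pos hQ]
          have h3 : ∑ i ∈ Icc 1 Q.length, (X5 E r D k ρ q0 q1).indicator
              (fun x : PX × (List Bool × ℕ) => wX x.1 * wE x.2.1) (y, (Q, i)) =
              (Q.length : ℝ≥0∞) * (wX y * wE Q) := by
            rw [sum_congr rfl (g := fun _ => wX y * wE Q) (fun i hi => ?_), sum_const, Nat.card_Icc, nsmul_eq_mul]
            · rw [Nat.add_sub_cancel]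
            · rw [mem_Icc] at hi
              rw [Set.indicator_of_mem]
              exact ⟨hy, hQ, hi.1, hi.2⟩
          refine le_trans ?_ (ENNReal.sum_le_tsum (Icc 1 Q.length))
          rw [h3]
          have h4 : (q0 : ℝ≥0∞) ≤ Q.length := by exact_mod_cast hQ.2.1
          calc wX y * (wE Q * q0) = q0 * (wX y * wE Q) := by ring
            _ ≤ _ := mul_le_mul' h4 le_rfl
        · rw [if_neg hQ, zero_mul, mul_zero]
          exact zero_le
      refine le_trans ?_ h2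
      exact mul_le_mul' le_rfl (mul_le_mul' (hv y hy) le_rfl)
    · rw [Set.indicator_of_notMem hy]
      exact zero_le
  -- the map to the joined words
  refine h1.trans ?_
  obtain ⟨TT, hTT⟩ : ∃ TT : Set (List Bool × ℕ), TT = {y | y.1 ∈ CH i0 ∧ y.2 ≤ y.1.length} := ⟨_, rfl⟩
  have h5 : ∑' x : X5 E r D k ρ q0 q1, wX (x : PX × (List Bool × ℕ)).1 * wE (x : PX × (List Bool × ℕ)).2.1 ≤
      ∑' y : ((bx B : Set Pt) ×ˢ TT : Set (Pt × (List Bool × ℕ))), (fun _ : Pt => (1 : ℝ≥0∞)) (y : Pt × (List Bool × ℕ)).1 *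
        (fun z : List Bool × ℕ => wE z.1) (y : Pt × (List Bool × ℕ)).2 := by
    refine inj_sum (f := fun x : PX × (List Bool × ℕ) => wX x.1 * wE x.2.1)
      (g := fun y : Pt × (List Bool × ℕ) => (fun _ : Pt => (1 : ℝ≥0∞)) y.1 * (fun z : List Bool × ℕ => wE z.1) y.2)
      rtm2 ?_ (rtm2_inj hE hr hD) ?_
    · rintro ⟨x, Q, i⟩ ⟨⟨hM, hM1⟩, ⟨hQ, hq0, hq1⟩, hi1, hi2⟩
      simp only at hM hM1 hQ hq0 hq1 hi1 hi2
      have hPL : x ∈ PLX E r D k ρ := ⟨hM.1, hM1⟩
      refine ⟨?_, ?_⟩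
      · show _ ∈ (bx B : Set Pt)
        rw [mem_coe]
        refine mem_bx ?_
        show TIW.hn (x.1 - vx oo up (jw x Q) (x.2.1.length + i)) ≤ B
        rw [TIW.hn_sub_comm]
        unfold jw
        rw [hv2 _ _ _ hi2]
        obtain ⟨j, hj, hn⟩ := hQ.rgA hM.1.ps1 hi2
        exact (np_pos hE hD0 hj hn).trans hB
      · rw [hTT]
        refine ⟨jw_ball hE hr hD hB hi0 hρ hPL hQ, ?_⟩
        show x.2.1.length + i ≤ (jw x Q).length
        unfold jw
        rw [List.length_append, List.length_append]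
        omega
    · rintro ⟨x, Q, i⟩ _
      show wE x.2.1 * wE x.2.2.2 * wE Q ≤ 1 * wE (jw x Q)
      unfold jw
      rw [wE_append, wE_append, one_mul]
      refine le_of_eq ?_
      ring
  refine h5.trans ?_
  rw [tsum_prodS (bx B : Set Pt) TT (fun _ : Pt => (1 : ℝ≥0∞)) (fun z : List Bool × ℕ => wE z.1)]
  have h6 : ∑' _ : (bx B : Set Pt), (1 : ℝ≥0∞) = (((4 * B + 1) ^ 2 : ℕ) : ℝ≥0∞) := by
    rw [← card_bx B]
    have h7 := Finset.tsum_subtype (bx B) (fun _ : Pt => (1 : ℝ≥0∞))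
    rw [sum_const, nsmul_eq_mul, mul_one] at h7
    exact h7
  have h8 : ∑' z : TT, wE (z : List Bool × ℕ).1 =
      ∑' L : CH i0, wE (L : List Bool) * (((L : List Bool).length + 1 : ℕ) : ℝ≥0∞) := by
    rw [tsum_subtype TT (fun z : List Bool × ℕ => wE z.1), ENNReal.tsum_prod',
      tsum_subtype (CH i0) (fun L : List Bool => wE L * ((L.length + 1 : ℕ) : ℝ≥0∞))]
    refine tsum_congr fun L => ?_
    by_cases hL : L ∈ CH i0
    · rw [Set.indicator_of_mem hL, tsum_eq_sum (s := range (L.length + 1)) (fun i hi => ?_),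
        sum_congr rfl (g := fun _ => wE L) (fun i hi => ?_), sum_const, card_range, nsmul_eq_mul, mul_comm]
      · rw [mem_range] at hi
        rw [Set.indicator_of_mem]
        rw [hTT]
        exact ⟨hL, by show i ≤ L.length; omega⟩
      · rw [mem_range] at hi
        rw [Set.indicator_of_notMem]
        rw [hTT]
        rintro ⟨-, h9⟩
        have h10 : i ≤ L.length := h9
        omega
    · rw [Set.indicator_of_notMem hL, ENNReal.tsum_eq_zero]
      intro i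
      rw [Set.indicator_of_notMem]
      rw [hTT]
      exact fun h => hL h.1
  rw [h6, h8]

end G4

end RMP

end HexObs
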