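import Pool.Agent.RMP.PlPA

/-!
# RMP, row P6a (helper87), part U: two markings of one self-avoiding word

`V i`, `U i`: vertex and direction number i. `Tr2 V U N a b`: the part from a to b is a tube word along the path from P, the parts
[0, a] and [b, N] keep away from the path.
-/

set_option autoImplicit false

namespace HexObs

namespace RMP

namespace G4

open Finset TS SDN SIM NTA TIP ARM ARM.G3

open scoped ENNReal

variable {E : ℕ → Pt} {r : ℕ} {D : ℤ} {k : ℕ} {P : Pt} {V U : ℕ → Pt} {N a b a' b' : ℕ}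

/-- the outer parts -/
structure Pl2 (E : ℕ → Pt) (r : ℕ) (D : ℤ) (k : ℕ) (P : Pt) (V U : ℕ → Pt) (N a b : ℕ) : Prop where
  ua : U a = E 0
  ub : U b = E (r - 1)
  cls : (cl (V b) = 0 ∧ cl (E (r - 1)) = 2) ∨ (cl (V b) = 2 ∧ cl (E (r - 1)) = 1)
  ps1 : TIW.hn (V a - P) ≤ 2 ^ (k + 1)
  ps2 : TIW.hn (V b - (P + AR.pv E D r)) ≤ 2 ^ (k + 1)
  mid : ∀ i, (i ≤ a ∨ (b ≤ i ∧ i ≤ N)) → ∀ j, 1 ≤ j → j + 1 < r → ¬ NP E D P k j (V i)
  fst : ∀ i, (i ≤ a ∨ (b < i ∧ i ≤ N)) → NP E D P k 0 (V i) → ip (V i - V a) (E 0) ≤ 0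
  lst : ∀ i, (i ≤ a ∨ (b < i ∧ i ≤ N)) → NP E D P k (r - 1) (V i) → 0 < ip (V i - V b) (E (r - 1))

/-- **a marking** -/
structure Tr2 (E : ℕ → Pt) (r : ℕ) (D : ℤ) (k : ℕ) (P : Pt) (V U : ℕ → Pt) (N a b : ℕ) : Prop
    extends Pl2 E r D k P V U N a b where
  ab : a ≤ b
  bN : b ≤ N
  rg : ∀ i, a ≤ i → i ≤ b → ∃ j, j < r ∧ NP E D P k j (V i)
  st : ∀ i, a < i → i ≤ b → 0 < ip (V i - V a) (E 0) ∨ ∃ j, 1 ≤ j ∧ j < r ∧ NP E D P k j (V i)
  bd : ∀ i, a ≤ i → i ≤ b → ip (V i - V b) (E (r - 1)) ≤ 0 ∨ ∃ j, j + 1 < r ∧ NP E D P k j (V i)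

lemma Pl2.near0 (hD : 0 ≤ D) (h : Pl2 E r D k P V U N a b) : NP E D P k 0 (V a) :=
  near_fst hD (h.ps1.trans (pw_one k))

lemma Pl2.nearL (hD : 0 ≤ D) (hr : 1 ≤ r) (h : Pl2 E r D k P V U N a b) : NP E D P k (r - 1) (V b) :=
  near_lst hD hr (h.ps2.trans (pw_one k))

/-- the intersection -/
theorem Tr2.inter (h : Tr2 E r D k P V U N a b) (h' : Tr2 E r D k P V U N a' b') :
    Pl2 E r D k P V U N (min a a') (max b b') := by
  have hua : U (min a a') = E 0 := by
    rcases min_choice a a' with e | e <;> rw [e]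
    · exact h.ua
    · exact h'.ua
  have hub : U (max b b') = E (r - 1) := by
    rcases max_choice b b' with e | e <;> rw [e]
    · exact h.ub
    · exact h'.ub
  have hcl : (cl (V (max b b')) = 0 ∧ cl (E (r - 1)) = 2) ∨ (cl (V (max b b')) = 2 ∧ cl (E (r - 1)) = 1) := by
    rcases max_choice b b' with e | e <;> rw [e]
    · exact h.cls
    · exact h'.cls
  have hps1 : TIW.hn (V (min a a') - P) ≤ 2 ^ (k + 1) := by
    rcases min_choice a a' with e | e <;> rw [e]
    · exact h.ps1
    · exact h'.ps1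
  have hps2 : TIW.hn (V (max b b') - (P + AR.pv E D r)) ≤ 2 ^ (k + 1) := by
    rcases max_choice b b' with e | e <;> rw [e]
    · exact h.ps2
    · exact h'.ps2
  refine ⟨hua, hub, hcl, hps1, hps2, fun i hi => h.mid i (by omega), fun i hi hn => ?_, fun i hi hn => ?_⟩
  · rcases min_choice a a' with e | e <;> rw [e]
    · exact h.fst i (by omega) hn
    · exact h'.fst i (by omega) hn
  · rcases max_choice b b' with e | e <;> rw [e]
    · exact h.lst i (by omega) hn
    · exact h'.lst i (by omega) hn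

/-- **the difference at the end of the first part** -/
theorem Tr2.dif1 (hE : IPg E r) (hr : 3 ≤ r) (hD : 2 ^ (k + 12) ≤ D) (hst : ∀ i, i < N → TIW.hn (V (i + 1) - V i) ≤ 2)
    (h : Tr2 E r D k P V U N a b) (h' : Tr2 E r D k P V U N a' b') (hab : a' ≤ b) :
    ∀ i, a ≤ i → i ≤ a' → (a < i → 0 < ip (V i - V a) (E 0)) ∧ ip (V i - V a') (E 0) ≤ 0 := by
  have hD0 : 0 ≤ D := le_trans (by positivity) hD
  have h0N := h.bN
  have key : ∀ i, a ≤ i → i ≤ a' → NP E D P k 0 (V i) := by
    intro i hi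
    induction i, hi using Nat.le_induction with
    | base => exact fun _ => h.near0 hD0
    | succ i hi ih =>
      intro hb
      have h1 := ih (by omega)
      obtain ⟨j, hj, hn⟩ := h.rg (i + 1) (by omega) (by omega)
      rcases Nat.eq_zero_or_pos j with h0 | h0
      · rw [h0] at hn
        exact hn
      · exfalso
        rcases Nat.lt_or_ge (j + 1) r with h5 | h5
        · exact h'.mid (i + 1) (Or.inl hb) j h0 h5 hn
        · have h6 : j = r - 1 := by omega
          rw [h6] at hn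
          have h2 := far2 hE hr hD h1 hn
          have h3 := hst i (by omega)
          omega
  intro i hi hi'
  have hn := key i hi hi'
  refine ⟨fun hlt => ?_, h'.fst i (Or.inl hi') hn⟩
  rcases h.st i hlt (by omega) with h1 | ⟨j, h1, h2, h3⟩
  · exact h1
  · exfalso
    rcases Nat.lt_or_ge (j + 1) r with h5 | h5
    · exact h'.mid i (Or.inl hi') j h1 h5 h3
    · have h6 : j = r - 1 := by omega
      rw [h6] at h3
      exact far2' hE hr hD hn h3

/-- **the difference at the start of the second part** -/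
theorem Tr2.dif2 (hE : IPg E r) (hr : 3 ≤ r) (hD : 2 ^ (k + 12) ≤ D) (hst : ∀ i, i < N → TIW.hn (V (i + 1) - V i) ≤ 2)
    (h : Tr2 E r D k P V U N a b) (h' : Tr2 E r D k P V U N a' b') (hab : a' ≤ b) :
    ∀ i, b ≤ i → i ≤ b' → (b < i → 0 < ip (V i - V b) (E (r - 1))) ∧ ip (V i - V b') (E (r - 1)) ≤ 0 := by
  have hD0 : 0 ≤ D := le_trans (by positivity) hD
  have h0N := h'.bN
  have key : ∀ i, b ≤ i → i ≤ b' → NP E D P k (r - 1) (V i) := by
    intro i hi
    induction i, hi using Nat.le_induction with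
    | base => exact fun _ => h.nearL hD0 (by omega)
    | succ i hi ih =>
      intro hb
      have h1 := ih (by omega)
      obtain ⟨j, hj, hn⟩ := h'.rg (i + 1) (by omega) hb
      rcases Nat.eq_zero_or_pos j with h0 | h0
      · exfalso
        rw [h0] at hn
        have h2 := far2 hE hr hD hn h1
        have h3 := hst i (by omega)
        rw [TIW.hn_sub_comm] at h3
        omega
      · rcases Nat.lt_or_ge (j + 1) r with h5 | h5
        · exact absurd hn (h.mid (i + 1) (Or.inr ⟨by omega, by omega⟩) j h0 h5)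
        · have h6 : j = r - 1 := by omega
          rw [h6] at hn
          exact hn
  intro i hi hi'
  have hn := key i hi hi'
  refine ⟨fun hlt => h.lst i (Or.inr ⟨hlt, by omega⟩) hn, ?_⟩
  rcases h'.bd i (by omega) hi' with h1 | ⟨j, h1, h2⟩
  · exact h1
  · exfalso
    rcases Nat.eq_zero_or_pos j with h0 | h0
    · rw [h0] at h2
      exact far2' hE hr hD h2 hn
    · exact h.mid i (Or.inr ⟨hi, by omega⟩) j h0 h1 h2

/-! ### The parts of a self-avoiding word -/

variable {w M Q R Z : List Bool} {s : Pt}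

lemma vstep (w : List Bool) (i : ℕ) : TIW.hn (vx oo up w (i + 1) - vx oo up w i) ≤ 2 := by
  have e1 : vx oo up w (i + 1) - vx oo up w i = dx up w i := by
    rw [vx_step]
    abel
  rw [e1]
  have h1 : dx up w i ∈ dirs := dx_mem up_dirs w i
  have key : ∀ d ∈ dirs, TIW.hn d ≤ 2 := by decide
  exact key _ h1

/-- **the outer parts of a word are a placed pair** -/
lemma Pl2.pp (hw : w ∈ SA) (hab : a ≤ b) (hb : b ≤ w.length)
    (h : Pl2 E r D k P (vx oo up w) (dx up w) w.length a b) : PP E r D k P (w.take a) (vx oo up w b) (w.drop b) := by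
  have hla : (w.take a).length = a := by
    rw [List.length_take]
    omega
  have hlb : (w.drop b).length = w.length - b := List.length_drop
  have hv1 : ∀ i, i ≤ a → vx oo up (w.take a) i = vx oo up w i := by
    intro i hi
    have h4 := vx_append (v0 := oo) (d0 := up) (t := w.take a) (s := w.drop a) (i := i) (by omega)
    rw [List.take_append_drop] at h4
    exact h4.symm
  have hd1 : dx up (w.take a) a = dx up w a := by
    have h4 := dx_append (d0 := up) (t := w.take a) (s := w.drop a) (i := a) (by omega)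
    rw [List.take_append_drop] at h4
    exact h4.symm
  have hv2 : ∀ j, vx (vx oo up w b) (E (r - 1)) (w.drop b) j = vx oo up w (b + j) := by
    intro j
    rw [← h.ub]
    exact vx_dropN oo up w b j
  have hou : ∀ {l : ℕ} {p : Pt}, Ou (w.take a) (w.drop b) (vx oo up w b) (E (r - 1)) l p →
      ∃ i, (i ≤ a ∨ (b + l ≤ i ∧ i ≤ w.length)) ∧ p = vx oo up w i := by
    rintro l p (⟨i, hi, rfl⟩ | ⟨i, hi1, hi2, rfl⟩)
    · rw [hla] at hi
      exact ⟨i, Or.inl hi, hv1 i hi⟩
    · rw [hlb] at hi2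
      exact ⟨b + i, Or.inr ⟨by omega, by omega⟩, hv2 i⟩
  have hen : TIW.en (w.take a) = vx oo up w a := by
    unfold TIW.en
    rw [hla, hv1 a le_rfl]
  refine ⟨?_, SA_drop hw b, h.cls, ?_, ?_, h.ps2, ?_, ?_, ?_, ?_⟩
  · refine ⟨fun _ _ _ => Set.mem_univ _, fun i j hij hj he => ?_⟩
    rw [hla] at hj
    rw [hv1 i (by omega), hv1 j hj] at he
    exact hw.inj i j hij (by omega) he
  · unfold TIW.de
    rw [hla, hd1]
    exact h.ua
  · rw [hen]
    exact h.ps1
  · intro i hi j hj1 hj2 he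
    rw [hla] at hi
    rw [hlb] at hj2
    rw [hv1 i hi, hv2 j] at he
    exact hw.inj i (b + j) (by omega) (by omega) he
  · intro p hp j hj hj' hn
    obtain ⟨i, hi, rfl⟩ := hou hp
    exact h.mid i (by omega) j hj hj' hn
  · intro p hp hn
    obtain ⟨i, hi, rfl⟩ := hou hp
    rw [hen]
    exact h.fst i (by omega) hn
  · intro p hp hn
    obtain ⟨i, hi, rfl⟩ := hou hp
    exact h.lst i (by omega) hn

/-- **the difference of two markings is a bridge** -/
lemma part_bu2 {d : Pt} (hd : d ∈ dirs) (hw : w ∈ SA) (hab : a ≤ b) (hb : b ≤ w.length)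
    (hua : dx up w a = d) (hub : dx up w b = d)
    (h : ∀ i, a ≤ i → i ≤ b → (a < i → 0 < ip (vx oo up w i - vx oo up w a) d) ∧ ip (vx oo up w i - vx oo up w b) d ≤ 0) :
    sl w a b ∈ BU := by
  have hl : (sl w a b).length = b - a := sl_len hb
  obtain ⟨h1, h2⟩ := frame_dir hd
  obtain ⟨u, hu⟩ : ∃ u, u = rotTo up d := ⟨_, rfl⟩
  rw [← hu] at h1 h2
  have hun : nrm u = 1 := mem_dirs.1 h1
  have hv : ∀ i, i ≤ b - a → mulE u (vx oo up (sl w a b) i) = vx oo up w (a + i) - vx oo up w a ∧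
      mulE u (dx up (sl w a b) i) = dx up w (a + i) := by
    intro i hi
    have h3 := part_vx (w := w) (p := 0) (c := (1, 0)) (a := a) (u := u) (by
      unfold Up
      rw [mulE_one, ← h2, hua]) hun hi (by omega)
    unfold Vp Up at h3
    rw [mulE_one, mulE_one, mulE_one, zero_add, zero_add] at h3
    exact h3
  have hlev : ∀ i, i ≤ b - a → lev (sl w a b) i = ip (vx oo up w (a + i) - vx oo up w a) d := by
    intro i hi
    rw [← (hv i hi).1, h2, ip_mulE, hun, one_mul]
    rfl
  have hsa : sl w a b ∈ SA := by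
    unfold sl
    exact SA_take (SA_drop hw a) (b - a)
  refine bu_of hsa ?_ (fun i h3 h4 => ?_) (fun i h4 => ?_)
  · rw [hl]
    have h5 := (hv (b - a) le_rfl).2
    rw [show a + (b - a) = b by omega, hub, h2] at h5
    exact mulE_inj hun h5
  · rw [hl] at h4
    rw [hlev i h4]
    exact (h (a + i) (by omega) (by omega)).1 (by omega)
  · rw [hl] at h4 ⊢
    rw [hlev i h4, hlev (b - a) le_rfl, show a + (b - a) = b by omega]
    have h5 := (h (a + i) (by omega) (by omega)).2
    have e1 : vx oo up w (a + i) - vx oo up w b = (vx oo up w (a + i) - vx oo up w a) - (vx oo up w b - vx oo up w a) := by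
      abel
    rw [e1, AR.ip_sub_left] at h5
    linarith

/-! ### Minimal placed pairs -/

/-- the start behind the bridge Z -/
noncomputable def sh (E : ℕ → Pt) (r : ℕ) (s : Pt) (Z : List Bool) : Pt := s + mulE (rotTo up (E (r - 1))) (TIW.en Z)

/-- **minimal placed pairs** -/
def Wm2 (E : ℕ → Pt) (r : ℕ) (D : ℤ) (k : ℕ) (P : Pt) (M : List Bool) (s : Pt) (R : List Bool) : Prop :=
  PP E r D k P M s R ∧ ∀ I Z Z' J : List Bool, Z ∈ BU → Z' ∈ BU → M = I ++ Z → R = Z' ++ J →
    PP E r D k P I (sh E r s Z') J → Z = [] ∧ Z' = []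

/-- one of two markings, minimal -/
lemma mark_le2 (hE : IPg E r) (hr : 3 ≤ r) (hD : 2 ^ (k + 12) ≤ D) (hw : w ∈ SA)
    (h : Tr2 E r D k P (vx oo up w) (dx up w) w.length a b) (h' : Tr2 E r D k P (vx oo up w) (dx up w) w.length a' b')
    (h1 : a' ≤ b) (h2 : a ≤ b') (hm : Wm2 E r D k P (w.take a) (vx oo up w b) (w.drop b)) : a ≤ a' ∧ b' ≤ b := by
  have hst : ∀ i, i < w.length → TIW.hn (vx oo up w (i + 1) - vx oo up w i) ≤ 2 := fun i _ => vstep w i
  have hab := h.ab
  have hab' := h'.ab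
  have hbN := h.bN
  have hbN' := h'.bN
  have hI := (h.inter h').pp hw (by omega) (by omega)
  have z1 : sl w (min a a') a ∈ BU := by
    rcases Nat.lt_or_ge a' a with h3 | h3
    · rw [min_eq_right h3.le]
      exact part_bu2 (hE.dir 0 (by omega)) hw h3.le (by omega) h'.ua h.ua (h'.dif1 hE hr hD hst h h2)
    · rw [min_eq_left h3]
      unfold sl
      rw [Nat.sub_self, List.take_zero]
      exact nil_BU
  have z2 : sl w b (max b b') ∈ BU := by
    rcases Nat.lt_or_ge b b' with h3 | h3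
    · rw [max_eq_right h3.le]
      exact part_bu2 (hE.dir _ (by omega)) hw h3.le (by omega) h.ub h'.ub (h.dif2 hE hr hD hst h' h1)
    · rw [max_eq_left h3]
      unfold sl
      rw [Nat.sub_self, List.take_zero]
      exact nil_BU
  have c1 : w.take a = w.take (min a a') ++ sl w (min a a') a := by
    unfold sl
    have e1 : a = min a a' + (a - min a a') := by omega
    conv_lhs => rw [e1, List.take_add]
  have c2 : w.drop b = sl w b (max b b') ++ w.drop (max b b') := by
    unfold sl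
    have e1 : max b b' = b + (max b b' - b) := by omega
    conv_rhs => rw [e1]
    rw [Nat.add_sub_cancel_left, ← List.drop_drop, List.take_append_drop]
  have c3 : sh E r (vx oo up w b) (sl w b (max b b')) = vx oo up w (max b b') := by
    have h3 : vx (vx oo up w b) (E (r - 1)) (sl w b (max b b')) (max b b' - b) = vx oo up w (max b b') := by
      have h4 := vx_append (v0 := vx oo up w b) (d0 := E (r - 1)) (t := sl w b (max b b')) (s := w.drop (max b b'))
        (i := max b b' - b) (by rw [sl_len (by omega)]; omega)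
      rw [← h4, ← c2, ← h.ub, vx_dropN, show b + (max b b' - b) = max b b' by omega]
    unfold sh TIW.en
    rw [sl_len (by omega), ← h3, dir_frame (hE.dir _ (by omega))]
  obtain ⟨e1, e2⟩ := hm.2 _ _ _ _ z1 z2 c1 c2 (by rw [c3]; exact hI)
  have e3 := congrArg List.length e1
  have e4 := congrArg List.length e2
  rw [sl_len (by omega)] at e3 e4
  simp only [List.length_nil] at e3 e4
  omega

/-- **uniqueness** -/
theorem mark_eq2 (hE : IPg E r) (hr : 3 ≤ r) (hD : 2 ^ (k + 12) ≤ D) (hw : w ∈ SA)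
    (h : Tr2 E r D k P (vx oo up w) (dx up w) w.length a b) (h' : Tr2 E r D k P (vx oo up w) (dx up w) w.length a' b')
    (h1 : a' ≤ b) (h2 : a ≤ b') (hm : Wm2 E r D k P (w.take a) (vx oo up w b) (w.drop b))
    (hm' : Wm2 E r D k P (w.take a') (vx oo up w b') (w.drop b')) : a = a' ∧ b = b' := by
  have h3 := mark_le2 hE hr hD hw h h' h1 h2 hm
  have h4 := mark_le2 hE hr hD hw h' h h2 h1 hm'
  omega

/-- **the marking of the joined word** -/
theorem tr2_of (hP : PP E r D k P M s R) (hQ : TW E r D k M s Q) :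
    Tr2 E r D k P (vx oo up (M ++ (Q ++ R))) (dx up (M ++ (Q ++ R))) (M ++ (Q ++ R)).length M.length
      (M.length + Q.length) := by
  have hl : (M ++ (Q ++ R)).length = M.length + (Q.length + R.length) := by
    rw [List.length_append, List.length_append]
  have va : vx oo up (M ++ (Q ++ R)) M.length = TIW.en M := hv1 M Q R le_rfl
  have vb : vx oo up (M ++ (Q ++ R)) (M.length + Q.length) = s := by
    rw [hv2 M Q R le_rfl, hQ.last]
  have hou : ∀ {l i : ℕ}, (i ≤ M.length ∨ (M.length + Q.length + l ≤ i ∧ i ≤ (M ++ (Q ++ R)).length)) →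
      Ou M R s (E (r - 1)) l (vx oo up (M ++ (Q ++ R)) i) := by
    rintro l i (hi | ⟨hi, hi'⟩)
    · rw [hv1 M Q R hi]
      exact Or.inl ⟨i, hi, rfl⟩
    · obtain ⟨q, rfl⟩ : ∃ q, i = M.length + Q.length + q := ⟨i - (M.length + Q.length), by omega⟩
      rw [hv3 hQ R q]
      exact Or.inr ⟨q, by omega, by omega, rfl⟩
  have hq : ∀ i, M.length ≤ i → i ≤ M.length + Q.length → ∃ q, q ≤ Q.length ∧ i = M.length + q ∧
      vx oo up (M ++ (Q ++ R)) i = vq M Q q := by
    intro i h1 h2
    obtain ⟨q, rfl⟩ : ∃ q, i = M.length + q := ⟨i - M.length, by omega⟩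
    exact ⟨q, by omega, rfl, hv2 M Q R (by omega)⟩
  refine ⟨⟨hd1 hP.de Q R, hd2 hQ R, ?_, ?_, ?_, fun i hi j hj hj' hn => ?_, fun i hi hn => ?_, fun i hi hn => ?_⟩,
    by omega, by omega, fun i h1 h2 => ?_, fun i h1 h2 => ?_, fun i h1 h2 => ?_⟩
  · rw [vb]
    exact hP.cls
  · rw [va]
    exact hP.ps1
  · rw [vb]
    exact hP.ps2
  · exact hP.mid _ (hou (l := 0) hi) j hj hj' hn
  · rw [va]
    exact hP.fst _ (hou (l := 1) hi) hn
  · rw [vb]
    exact hP.lst _ (hou (l := 1) hi) hn
  · obtain ⟨q, hq1, -, hv⟩ := hq i h1 h2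
    rw [hv]
    exact hQ.rgA hP.ps1 hq1
  · obtain ⟨q, hq1, hi, hv⟩ := hq i h1.le h2
    rw [hv, va]
    exact hQ.stA hP.de hP.ps1 (by omega) hq1
  · obtain ⟨q, hq1, -, hv⟩ := hq i h1 h2
    rw [hv, vb]
    exact hQ.bdA hP.ps1 hq1

end G4

end RMP

end HexObs
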