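import Pool.Agent.RMP.LowM
import Pool.Agent.RMP.TipP
import Pool.Agent.RMP.NtMP

/-!
# (RM), row P9, L3 (helper65), part 1: the pairs of good cuts at the root of a closed word. Geometry

`FK K r p q I` : the half ball of radius r in front of the vertex p of K (towards the vertex q) is free of the vertices in I.

* `win_vx` : the vertices of the window at the root;
* **`outF_cut`** : the outer pair of two cuts at the root, from `FK`;
* `fk_left`, `fk_right` : `FK` from the cuts of `K.dropLast` and of its reversed walk.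
-/

set_option autoImplicit false

namespace HexObs

namespace RMP

namespace PG

open Finset TS SDN HexObs.SIM NTA TIP ARM TIW

open scoped ENNReal

/-- a free half ball -/
def FK (K : List Bool) (r : ℤ) (p q : ℕ) (I : ℕ → Prop) : Prop :=
  ∀ i, I i → 0 < ip (vx oo up K i - vx oo up K p) (vx oo up K q - vx oo up K p) → r < hn (vx oo up K i - vx oo up K p)

lemma nb {c b x y z X Y Z : Pt} (hc : nrm c = 1) (hX : b + mulE c x = X) (hY : b + mulE c y = Y) (hZ : b + mulE c z = Z)
    {r r' : ℕ} (h3 : 3 * r ≤ r') (h : 0 < ip (X - Y) (Z - Y) → (r' : ℤ) < hn (X - Y)) (hip : 0 < ip (x - y) (z - y)) :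
    x ∉ Bl y r := by
  intro hcon
  have h1 := hn_of_Bl hcon
  have e1 : X - Y = mulE c (x - y) := by rw [← hX, ← hY, mulE_sub']; abel
  have e2 : Z - Y = mulE c (z - y) := by rw [← hZ, ← hY, mulE_sub']; abel
  rw [e1, e2, ip_mulE, hc, one_mul, TIW.hn_mulE hc] at h
  have h2 := h hip
  have h4 : ((3 * r : ℕ) : ℤ) ≤ r' := by exact_mod_cast h3
  push_cast at h4
  linarith

lemma rt_one {K : List Bool} (h : TIW.de K = up) (p : Pt) : mulE (rt K) p = p := by
  have : rt K = ((1, 0) : Pt) := by
    unfold rt
    rw [h]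
    decide
  rw [this, mulE_one]

/-- behind a closed word -/
lemma cy_app {N : ℕ} {K : List Bool} (hK : K ∈ POL.Cy N) (X : List Bool) (i : ℕ) :
    vx oo up (K ++ X) (N + i) = vx oo up X i := by
  obtain ⟨h1, h2, h3, -⟩ := hK
  have h := vx_app K X i
  rw [h1] at h
  have e1 : TIW.en K = 0 := by
    unfold TIW.en
    rw [h1, h2]
    decide
  have e2 : TIW.de K = up := by
    unfold TIW.de
    rw [h1, h3]
  rw [h, e1, rt_one e2, zero_add]

lemma rwin_len {N w : ℕ} {K : List Bool} (hK : K.length = N) (hw : w ≤ N) : (rwin w K).length = 2 * w := by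
  unfold rwin
  rw [List.length_append, List.length_drop, List.length_take]
  omega

/-- the vertices of the window -/
lemma win_vx {N w : ℕ} {K : List Bool} (hK : K ∈ POL.Cy N) (hw : w ≤ N) :
    (∀ i, i ≤ w → TIW.en (K.take (N - w)) + mulE (rt (K.take (N - w))) (vx oo up (rwin w K) i) = vx oo up K (N - w + i)) ∧
      ∀ i, i ≤ w → TIW.en (K.take (N - w)) + mulE (rt (K.take (N - w))) (vx oo up (rwin w K) (w + i)) = vx oo up K i := by
  have hl := hK.1
  have hP : (K.take (N - w)).length = N - w := by
    rw [List.length_take]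
    omega
  have e : K.take (N - w) ++ rwin w K = K ++ K.take w := by
    unfold rwin
    rw [hl, ← List.append_assoc, List.take_append_drop]
  refine ⟨fun i hi => ?_, fun i hi => ?_⟩
  · rw [← vx_app, hP, e, vx_append (by omega)]
  · rw [← vx_app, hP, e, show N - w + (w + i) = N + i by omega, cy_app hK]
    have h2 : vx oo up (K.take w ++ K.drop w) i = vx oo up (K.take w) i := vx_append (by
      rw [List.length_take]
      omega)
    rw [List.take_append_drop] at h2
    exact h2.symm

lemma tip_dir (A : List Bool) : tipd A = vx oo up A (A.length + 1) - vx oo up A A.length := by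
  rw [vx_succ, add_sub_cancel_left]
  rfl

/-- **the outer pair of two cuts at the root** -/
theorem outF_cut {N w r r' : ℕ} {K A Y1 B Y2 : List Bool} (hK : K ∈ POL.Cy N) (hw : 2 * w < N) (h3 : 3 * r ≤ r')
    (h1 : K.drop (N - w) = A ++ Y1) (h2 : rev ((K.take w).dropLast) = B ++ Y2) (hy1 : 1 ≤ Y1.length) (hy2 : 1 ≤ Y2.length)
    (f1 : FK K r' (N - Y1.length) (N - Y1.length + 1) (fun i => i ≤ N - Y1.length))
    (f2 : FK K r' (Y2.length + 1) Y2.length (fun i => Y2.length + 1 ≤ i ∧ i + 1 ≤ N))
    (hf : 8 * (r : ℤ) < hn (vx oo up K (N - Y1.length) - vx oo up K (Y2.length + 1))) :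
    OutF r (A, (gE (rwin w K), B)) := by
  have hl := hK.1
  have l1 : A.length + Y1.length = w := by
    have := congrArg List.length h1
    rw [List.length_drop, List.length_append] at this
    omega
  have l2 : B.length + Y2.length = w - 1 := by
    have := congrArg List.length h2
    rw [rev_length, List.length_dropLast, List.length_take, List.length_append] at this
    omega
  have hw1 : 1 ≤ w := by omega
  obtain ⟨F1, F2⟩ := win_vx hK (w := w) (by omega)
  obtain ⟨t, ht⟩ : ∃ t, t = rwin w K := ⟨_, rfl⟩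
  rw [← ht] at F1 F2 ⊢
  obtain ⟨b, hb⟩ : ∃ b, b = TIW.en (K.take (N - w)) := ⟨_, rfl⟩
  obtain ⟨c, hc⟩ : ∃ c, c = rt (K.take (N - w)) := ⟨_, rfl⟩
  rw [← hb, ← hc] at F1 F2
  have hcn : nrm c = 1 := by rw [hc]; exact nrm_rt _
  have htl : t.length = 2 * w := by rw [ht]; exact rwin_len hl (by omega)
  -- the second word
  obtain ⟨u, hu⟩ : ∃ u, u = (K.take w).dropLast := ⟨_, rfl⟩
  have hul : u.length = w - 1 := by
    rw [hu, List.length_dropLast, List.length_take]
    omega
  have hne : K.take w ≠ [] := by
    intro h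
    have := congrArg List.length h
    rw [List.length_take, List.length_nil] at this
    omega
  have hut : u ++ [(K.take w).getLast hne] = K.take w := by rw [hu]; exact List.dropLast_append_getLast hne
  have htu : t = K.drop (N - w) ++ (u ++ [(K.take w).getLast hne]) := by
    rw [ht, hut]
    unfold rwin
    rw [hl]
  have hg : Fr (gE t) := LowM.Fr_gE (by omega)
  have hBv : ∀ i, i ≤ B.length + 1 → (gE t).1 + mulE (gE t).2 (vx oo up B i) = vx oo up t (2 * w - i) := by
    intro i hi
    have e1 := LowM.gE_pv (K.drop (N - w)) u ((K.take w).getLast hne) (i := i) (by omega)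
    rw [← htu, htl] at e1
    rw [hu, h2, vx_append hi] at e1
    exact e1
  have hAv : ∀ i, i ≤ A.length + 1 → vx oo up A i = vx oo up t i := by
    intro i hi
    have e1 : t = A ++ (Y1 ++ (u ++ [(K.take w).getLast hne])) := by
      rw [htu, h1, List.append_assoc]
    rw [e1, vx_append hi]
  -- the vertices of both words in K
  have hAK : ∀ i, i ≤ A.length + 1 → b + mulE c (vx oo up A i) = vx oo up K (N - w + i) := by
    intro i hi
    rw [hAv i hi]
    exact F1 i (by omega)
  have hBK : ∀ i, i ≤ B.length + 1 → b + mulE c ((gE t).1 + mulE (gE t).2 (vx oo up B i)) = vx oo up K (w - i) := by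
    intro i hi
    rw [hBv i hi, show 2 * w - i = w + (w - i) by omega]
    exact F2 (w - i) (by omega)
  have hBK' : ∀ i, i ≤ B.length + 1 → (b + mulE c (gE t).1) + mulE (mulE c (gE t).2) (vx oo up B i) = vx oo up K (w - i) := by
    intro i hi
    rw [← hBK i hi, mulE_add, mulE_assoc]
    abel
  have hcn2 : nrm (mulE c (gE t).2) = 1 := by rw [nrm_mulE, hcn, hg.nrm, one_mul]
  have einj : ∀ {x y : Pt}, b + mulE c x = b + mulE c y → x = y := fun {x y} h => mulE_inj hcn (add_left_cancel h)
  have hinj : ∀ i k, i < N → k < N → vx oo up K i = vx oo up K k → i = k := hK.2.2.2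
  have eA : N - w + A.length = N - Y1.length := by omega
  have eA1 : N - w + (A.length + 1) = N - Y1.length + 1 := by omega
  have eB : w - B.length = Y2.length + 1 := by omega
  have eB1 : w - (B.length + 1) = Y2.length := by omega
  have iA : b + mulE c (tipv A) = vx oo up K (N - Y1.length) := by rw [← eA]; exact hAK _ (by omega)
  have iB : (b + mulE c (gE t).1) + mulE (mulE c (gE t).2) (tipv B) = vx oo up K (Y2.length + 1) := by
    rw [← eB]; exact hBK' _ (by omega)
  have iA1 : b + mulE c (vx oo up A (A.length + 1)) = vx oo up K (N - Y1.length + 1) := by rw [← eA1]; exact hAK _ le_rfl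
  have iB1 : (b + mulE c (gE t).1) + mulE (mulE c (gE t).2) (vx oo up B (B.length + 1)) = vx oo up K Y2.length := by
    rw [← eB1]; exact hBK' _ le_rfl
  have dA : tipd A = vx oo up A (A.length + 1) - tipv A := tip_dir A
  have dB : tipd B = vx oo up B (B.length + 1) - tipv B := tip_dir B
  refine ⟨⟨fun _ _ _ => Set.mem_univ _, fun i k hik hk he => ?_⟩, ⟨fun _ _ _ => Set.mem_univ _, fun i k hik hk he => ?_⟩, hg,
    ?_, ?_, ?_, ?_, ?_, ?_⟩
  · have hk' : k ≤ A.length := hk
    have e1 := hAK i (by omega)
    have e2 := hAK k (by omega)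
    rw [he] at e1
    have := hinj _ _ (by omega) (by omega) (e1.symm.trans e2)
    omega
  · have hk' : k ≤ B.length := hk
    have e1 := hBK' i (by omega)
    have e2 := hBK' k (by omega)
    rw [he] at e1
    have := hinj _ _ (by omega) (by omega) (e1.symm.trans e2)
    omega
  · rintro s hs ⟨i, hi, he⟩
    have hs' : s ≤ A.length := hs
    have hi' : i ≤ B.length := hi
    have he' : vx oo up A s = (gE t).1 + mulE (gE t).2 (vx oo up B i) := he
    have e1 := hAK s (by omega)
    have e2 := hBK i (by omega)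
    rw [← he'] at e2
    have := hinj _ _ (by omega) (by omega) (e1.symm.trans e2)
    omega
  · intro i hi hip
    have hi' : i ≤ A.length := hi
    rw [dA] at hip
    exact nb hcn (hAK i (by omega)) iA iA1 h3 (f1 (N - w + i) (show N - w + i ≤ N - Y1.length by omega)) hip
  · intro i hi hip
    have hi' : i ≤ B.length := hi
    rw [dB] at hip
    exact nb hcn2 (hBK' i (by omega)) iB iB1 h3 (f2 (w - i) ⟨by omega, by omega⟩) hip
  · rintro p ⟨i, hi, rfl⟩ hip
    have hi' : i ≤ B.length := hi
    rw [dA] at hip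
    exact nb hcn (hBK i (by omega)) iA iA1 h3 (f1 (w - i) (show w - i ≤ N - Y1.length by omega)) hip
  · rintro p ⟨i, hi, rfl⟩ hip
    have hi' : i ≤ A.length := hi
    rw [dB] at hip
    have e1 : (b + mulE c (gE t).1) + mulE (mulE c (gE t).2) (pv (gi (gE t)) A i) = vx oo up K (N - w + i) := by
      rw [← hAK i (by omega), pv_gi hg A i, mulE_add, mulE_assoc]
      abel
    exact nb hcn2 e1 iB iB1 h3 (f2 (N - w + i) ⟨by omega, by omega⟩) hip
  · have e1 : TIW.en A - pe (gE t) B = vx oo up A A.length - ((gE t).1 + mulE (gE t).2 (vx oo up B B.length)) := rfl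
    show 8 * (r : ℤ) < hn (TIW.en A - pe (gE t) B)
    rw [e1, ← TIW.hn_mulE hcn, mulE_sub']
    have e2 := hAK A.length (by omega)
    have e3 := hBK B.length (by omega)
    rw [eA] at e2
    rw [eB] at e3
    rw [← e2, ← e3, add_sub_add_left_eq_sub] at hf
    exact hf

/-! ### from the cuts of the word without its last letter -/

/-- the cut on the side of the end -/
lemma fk_left {N r : ℕ} {K A Y : List Bool} (hl : K.length = N) (e : K = A ++ Y) (hy : 1 ≤ Y.length) (h : FreeT r A) :
    FK K r (N - Y.length) (N - Y.length + 1) (fun i => i ≤ N - Y.length) := by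
  have hA : A.length = N - Y.length := by
    rw [← hl, e, List.length_append]
    omega
  intro i hi hip
  have hx : ∀ k, k ≤ A.length + 1 → vx oo up K k = vx oo up A k := fun k hk => by rw [e, vx_append hk]
  rw [← hA] at hi hip ⊢
  have hi' : i ≤ A.length := hi
  rw [hx i (by omega), hx A.length (by omega)] at hip ⊢
  rw [hx (A.length + 1) le_rfl, ← tip_dir A] at hip
  by_contra hcon
  exact h i hi hip (Bl_of_hn' (not_lt.1 hcon))

/-- the cut on the side of the start -/
lemma fk_right {N r : ℕ} {K L A Y : List Bool} {x : Bool} (hl : K.length = N) (eL : K = L ++ [x]) (e : rv L = A ++ Y)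
    (hy : 1 ≤ Y.length) (h : FreeT r A) :
    FK K r (Y.length + 1) Y.length (fun i => Y.length + 1 ≤ i ∧ i + 1 ≤ N) := by
  have hL : L.length + 1 = N := by
    rw [← hl, eL, List.length_append]
    rfl
  have hA : A.length + Y.length = L.length - 1 := by
    have := congrArg List.length e
    rw [rv_length, List.length_append] at this
    omega
  have key : ∀ k, Y.length ≤ k → k ≤ L.length → vx oo up K k = TIW.en L + mulE (rvc L) (vx oo up A (L.length - k)) := by
    intro k h1 h2
    have h3 := rvc_vx (L := L) (i := L.length - k) (by omega)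
    rw [show L.length - (L.length - k) = k by omega, e, vx_append (by omega)] at h3
    rw [eL, vx_append (by omega), h3]
  rintro i ⟨h1, h2⟩ hip
  have e1 := key i (by omega) (by omega)
  have e2 := key (Y.length + 1) (by omega) (by omega)
  have e3 := key Y.length le_rfl (by omega)
  rw [show L.length - (Y.length + 1) = A.length by omega] at e2
  rw [show L.length - Y.length = A.length + 1 by omega] at e3
  have hc := mem_dirs.1 (rvc_mem L)
  have d1 : vx oo up K i - vx oo up K (Y.length + 1) = mulE (rvc L) (vx oo up A (L.length - i) - tipv A) := by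
    rw [e1, e2, add_sub_add_left_eq_sub, ← mulE_sub']
    rfl
  have d2 : vx oo up K Y.length - vx oo up K (Y.length + 1) = mulE (rvc L) (tipd A) := by
    rw [e3, e2, add_sub_add_left_eq_sub, ← mulE_sub', ← tip_dir A]
  rw [d1, d2, ip_mulE, hc, one_mul] at hip
  rw [d1, TIW.hn_mulE hc]
  by_contra hcon
  exact h (L.length - i) (by omega) hip (Bl_of_hn' (not_lt.1 hcon))

/-! ### distances from the end -/

lemma dz_Y {Y : List Bool} {D : ℕ} (h : In D Y) {k : ℕ} (hk : k ≤ Y.length) : dz Y k ≤ 6 * D := by
  have h1 := TIW.hn_le_Bl (h k hk)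
  have h2 := TIW.hn_le_Bl (h Y.length le_rfl)
  have h3 := TIW.hn_sub (vx oo up Y k) (TIW.en Y)
  have h4 : dz Y k = hn (vx oo up Y k - TIW.en Y) := rfl
  have h5 : hn (TIW.en Y) ≤ 3 * D := h2
  rw [h4]
  linarith

lemma dz_left {L A Y : List Bool} {D : ℕ} (e : L = A ++ Y) (h : In D Y) {i : ℕ} (h1 : A.length ≤ i) (h2 : i ≤ L.length) :
    dz L i ≤ 6 * D := by
  obtain ⟨k, rfl⟩ : ∃ k, i = A.length + k := ⟨i - A.length, by omega⟩
  rw [e, List.length_append] at h2
  rw [e, dz_app]
  exact dz_Y h (by omega)

lemma dz_right {L A Y : List Bool} {D : ℕ} (hc : hn (TIW.en L) ≤ 2) (hL : 1 ≤ L.length) (e : rv L = A ++ Y) (h : In D Y)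
    {i : ℕ} (hi : i ≤ Y.length + 1) (hi' : i ≤ L.length) : dz L i ≤ 6 * D + 4 := by
  have hA : A.length + Y.length = L.length - 1 := by
    have := congrArg List.length e
    rw [rv_length, List.length_append] at this
    omega
  rcases Nat.eq_zero_or_pos i with h0 | h0
  · subst h0
    have h1 : dz L 0 = hn (TIW.en L) := by
      unfold dz
      rw [show vx oo up L 0 = 0 from rfl, zero_sub, TIW.hn_neg]
    rw [h1]
    have : (0 : ℤ) ≤ D := Nat.cast_nonneg D
    linarith
  · have h1 := dz_rv (L := L) (i := L.length - i) (by omega)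
    rw [show L.length - (L.length - i) = i by omega] at h1
    obtain ⟨k, hk⟩ : ∃ k, L.length - i = A.length + k := ⟨L.length - i - A.length, by omega⟩
    have h2 := dz_Y h (k := k) (by omega)
    have h3 : dz (rv L) (L.length - i) = dz Y k := by rw [e, hk, dz_app]
    have h4 := TIW.hn_tri (vx oo up (rv L) (L.length - i)) (TIW.en (rv L)) 0
    rw [sub_zero, sub_zero] at h4
    have h5 := hn_en_rv hL
    have h6 : dz (rv L) (L.length - i) = hn (vx oo up (rv L) (L.length - i) - TIW.en (rv L)) := rfl
    rw [← h1]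
    linarith

/-- **an excursion behind a cut with a good part** -/
lemma exc {j : ℕ} {η : ℝ} {L A Y : List Bool} (hη : 0 < η) (hj : 2 ≤ j) (e : L = A ++ Y) (h : rev Y ∈ GT j η) (p : Pt) :
    ∃ s, A.length ≤ s ∧ s ≤ L.length ∧ 2 ^ (j - 1) ≤ hn (p - vx oo up L s) := by
  obtain ⟨s, t, hs, ht, hst⟩ := GT_big hη h
  rw [rev_length] at hs ht
  obtain ⟨c, hc, hf⟩ := RevM.rev_frame Y
  have hl : L.length = A.length + Y.length := by rw [e, List.length_append]
  have hp : (2 : ℤ) ^ j = 2 * 2 ^ (j - 1) := by
    rw [← pow_succ']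
    congr 1
    omega
  have hp1 : (2 : ℤ) ≤ 2 ^ (j - 1) := by
    calc (2 : ℤ) = 2 ^ 1 := by norm_num
      _ ≤ 2 ^ (j - 1) := pow_le_pow_right₀ (by norm_num) (by omega)
  have h1 : 2 * (2 : ℤ) ^ j < hn (vx oo up L (A.length + (Y.length + 1 - s)) - vx oo up L (A.length + (Y.length + 1 - t))) := by
    rw [e, vx_app, vx_app, add_sub_add_left_eq_sub, ← mulE_sub', TIW.hn_mulE (nrm_rt A), hf s (by omega), hf t (by omega),
      add_sub_add_left_eq_sub, ← mulE_sub', TIW.hn_mulE (mem_dirs.1 hc)]
    exact hst
  -- the exit vertex is replaced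
  have h2 : ∀ k, k ≤ Y.length → (2 : ℤ) ^ j < hn (p - vx oo up L (A.length + (Y.length + 1 - k))) →
      ∃ s, A.length ≤ s ∧ s ≤ L.length ∧ 2 ^ (j - 1) ≤ hn (p - vx oo up L s) := by
    intro k hk hkp
    rcases Nat.eq_zero_or_pos k with h0 | h0
    · subst h0
      refine ⟨L.length, by omega, le_rfl, ?_⟩
      have h3 := hn_stepN L L.length
      have h4 := TIW.hn_tri p (vx oo up L L.length) (vx oo up L (L.length + 1))
      rw [show A.length + (Y.length + 1 - 0) = L.length + 1 by omega] at hkp
      linarith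
    · exact ⟨A.length + (Y.length + 1 - k), by omega, by omega, by linarith⟩
  by_cases h3 : (2 : ℤ) ^ j < hn (p - vx oo up L (A.length + (Y.length + 1 - s)))
  · exact h2 s hs h3
  · refine h2 t ht ?_
    have h4 := TIW.hn_tri (vx oo up L (A.length + (Y.length + 1 - s))) p (vx oo up L (A.length + (Y.length + 1 - t)))
    rw [TIW.hn_sub_comm (vx oo up L (A.length + (Y.length + 1 - s))) p] at h4
    linarith

end PG

end RMP

end HexObs
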