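import Pool.Agent.RMP.DefsK
import Pool.Agent.RMP.Num
import Pool.Agent.TSW.BC1Pub

/-!
# The renormalisation map, public part 1 (helper83): the functionals of the pairs

* `poly_time`: two polygons with almost the same time;
* `osd h t`: the greatest displacement of `t` in at most `h` steps;
* `gTw`: the curve of a pair (the first word, then the second one backwards), `own`: the curve of a word;
* **`lnk_close`**: the curve of a pair and the curve of the joined word are close.
-/

set_option autoImplicit false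

namespace Pool.Agent.RMP

open Finset MeasureTheory Filter Topology

open HexObs hiding pos

open HexObs.TOG HexObs.OneS HexObs.SDN HexObs.TS HexObs.TIW HexObs.MCP HexObs.RMP

open Pool.Agent.NTS.Res

open NTSF NTSF.Mg

open NTF (sw JJ)

open scoped Classical

/-! ### 1. Polygons with almost the same time -/

/-- a convex combination of two differences -/
lemma conv_le {a b x : ℂ} {w W : ℝ} (h0 : 0 ≤ w) (h1 : w ≤ 1) (ha : ‖a - x‖ ≤ W) (hb : ‖b - x‖ ≤ W) :
    ‖a + ((w : ℝ) : ℂ) * (b - a) - x‖ ≤ W := by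
  have e : a + ((w : ℝ) : ℂ) * (b - a) - x = ((1 - w : ℝ) : ℂ) * (a - x) + ((w : ℝ) : ℂ) * (b - x) := by
    push_cast
    ring
  rw [e]
  refine (norm_add_le _ _).trans ?_
  rw [norm_mul, norm_mul, Complex.norm_of_nonneg (by linarith : (0 : ℝ) ≤ 1 - w), Complex.norm_of_nonneg h0]
  have a1 := mul_le_mul_of_nonneg_left ha (by linarith : (0 : ℝ) ≤ 1 - w)
  have a2 := mul_le_mul_of_nonneg_left hb h0
  linarith

lemma poly_time {z y : ℕ → ℂ} {n N D : ℕ} {W : ℝ} (hn : 1 ≤ n) (hN1 : 1 ≤ N) (hN : n ≤ N + D) (hD : N ≤ n + D)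
    (h : ∀ i j, i ≤ n → j ≤ N → i ≤ j + (D + 2) → j ≤ i + (D + 2) → ‖z i - y j‖ ≤ W) (u : unitInterval) :
    ‖Tight.poly z n u - Tight.poly y N u‖ ≤ W := by
  have hu0 := u.2.1
  have hu1 := u.2.2
  obtain ⟨i, hi, a1, a2⟩ := Tight.th2_idx hn u
  obtain ⟨j, hj, b1, b2⟩ := Tight.th2_idx hN1 u
  have c0 : ((u : unitInterval) : ℝ) * D ≤ 1 * D := mul_le_mul_of_nonneg_right hu1 (Nat.cast_nonneg _)
  have c1 : ((u : unitInterval) : ℝ) * n ≤ u * N + D := by
    have : ((n : ℕ) : ℝ) ≤ N + D := by exact_mod_cast hN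
    have h1 : ((u : unitInterval) : ℝ) * n ≤ u * (N + D) := mul_le_mul_of_nonneg_left this hu0
    linarith
  have c2 : ((u : unitInterval) : ℝ) * N ≤ u * n + D := by
    have : ((N : ℕ) : ℝ) ≤ n + D := by exact_mod_cast hD
    have h1 : ((u : unitInterval) : ℝ) * N ≤ u * (n + D) := mul_le_mul_of_nonneg_left this hu0
    linarith
  have d1 : i ≤ j + 1 + D := by
    have : ((i : ℕ) : ℝ) ≤ j + 1 + D := by linarith
    exact_mod_cast this
  have d2 : j ≤ i + 1 + D := by
    have : ((j : ℕ) : ℝ) ≤ i + 1 + D := by linarith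
    exact_mod_cast this
  rw [Tight.poly_apply hi a1 a2, Tight.poly_apply hj b1 b2]
  have w0 : 0 ≤ ((u : unitInterval) : ℝ) * n - i := by linarith
  have w1 : ((u : unitInterval) : ℝ) * n - i ≤ 1 := by linarith
  have v0 : 0 ≤ ((u : unitInterval) : ℝ) * N - j := by linarith
  have v1 : ((u : unitInterval) : ℝ) * N - j ≤ 1 := by linarith
  have k1 : ∀ i', i' = i ∨ i' = i + 1 → ‖z i' - (y j + (((u : unitInterval) * N - j : ℝ) : ℂ) * (y (j + 1) - y j))‖ ≤ W := by
    intro i' hi'
    rw [norm_sub_rev]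
    refine conv_le v0 v1 ?_ ?_
    · rw [norm_sub_rev]
      exact h i' j (by omega) (by omega) (by omega) (by omega)
    · rw [norm_sub_rev]
      exact h i' (j + 1) (by omega) (by omega) (by omega) (by omega)
  have k2 := conv_le (a := z i) (b := z (i + 1))
    (x := y j + (((u : unitInterval) * N - j : ℝ) : ℂ) * (y (j + 1) - y j)) w0 w1 (k1 i (Or.inl rfl)) (k1 (i + 1) (Or.inr rfl))
  push_cast at k2 ⊢
  exact k2

/-! ### 2. The greatest displacement in h steps -/

/-- the greatest displacement of the word in at most h steps -/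
noncomputable def osd (h : ℕ) (t : List Bool) : ℝ :=
  (((range (t.length + 1) ×ˢ range (t.length + 1)).filter fun p : ℕ × ℕ => p.1 ≤ p.2 ∧ p.2 ≤ p.1 + h).sup
    fun p => ‖JJ (vx oo up t p.1) - JJ (vx oo up t p.2)‖₊ : NNReal)

lemma osd_nonneg (h : ℕ) (t : List Bool) : 0 ≤ osd h t := NNReal.coe_nonneg _

lemma le_osd {h : ℕ} {t : List Bool} {i j : ℕ} (hij : i ≤ j + h) (hji : j ≤ i + h) (hi : i ≤ t.length) (hj : j ≤ t.length) :
    ‖JJ (vx oo up t i) - JJ (vx oo up t j)‖ ≤ osd h t := by
  have key : ∀ a b : ℕ, a ≤ b → b ≤ a + h → b ≤ t.length → ‖JJ (vx oo up t a) - JJ (vx oo up t b)‖ ≤ osd h t := by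
    intro a b h1 h2 h3
    have hm : (a, b) ∈ (range (t.length + 1) ×ˢ range (t.length + 1)).filter fun p : ℕ × ℕ => p.1 ≤ p.2 ∧ p.2 ≤ p.1 + h := by
      rw [Finset.mem_filter, Finset.mem_product, Finset.mem_range, Finset.mem_range]
      exact ⟨⟨by omega, by omega⟩, h1, h2⟩
    have := Finset.le_sup (f := fun p : ℕ × ℕ => ‖JJ (vx oo up t p.1) - JJ (vx oo up t p.2)‖₊) hm
    exact_mod_cast this
  rcases le_total i j with h1 | h1
  · exact key i j h1 hji hj
  · rw [norm_sub_rev]
    exact key j i h1 hij hi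

lemma osd_le {h : ℕ} {t : List Bool} {W : ℝ} (hW : 0 ≤ W)
    (H : ∀ i j, i ≤ j → j ≤ i + h → j ≤ t.length → ‖JJ (vx oo up t i) - JJ (vx oo up t j)‖ ≤ W) : osd h t ≤ W := by
  unfold osd
  have h1 : ((range (t.length + 1) ×ˢ range (t.length + 1)).filter fun p : ℕ × ℕ => p.1 ≤ p.2 ∧ p.2 ≤ p.1 + h).sup
      (fun p => ‖JJ (vx oo up t p.1) - JJ (vx oo up t p.2)‖₊) ≤ (⟨W, hW⟩ : NNReal) := by
    refine Finset.sup_le fun p hp => ?_
    rw [Finset.mem_filter, Finset.mem_product, Finset.mem_range, Finset.mem_range] at hp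
    have := H p.1 p.2 hp.2.1 hp.2.2 (by omega)
    exact this
  exact_mod_cast h1

/-- a word and its beginning -/
lemma osd_app_ge (h : ℕ) (A Y : List Bool) : osd h A ≤ osd h (A ++ Y) := by
  refine osd_le (osd_nonneg _ _) fun i j hij hji hj => ?_
  have hl : (A ++ Y).length = A.length + Y.length := List.length_append
  have := le_osd (h := h) (t := A ++ Y) (i := i) (j := j) (by omega) hji (by omega) (by omega)
  rwa [vx_append (by omega), vx_append (by omega)] at this

lemma vx_end_le {A Y : List Bool} {R : ℝ} (hY : ∀ i, i ≤ Y.length → (hn (vx oo up Y i) : ℝ) < R) {i : ℕ} (hi : i ≤ Y.length) :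
    ‖JJ (vx oo up (A ++ Y) (A.length + i)) - JJ (vx oo up (A ++ Y) A.length)‖ ≤ R := by
  have e0 : vx oo up (A ++ Y) A.length = en A := vx_append (by omega)
  rw [← NTF.JJ_sub, vx_app, e0, add_sub_cancel_left]
  refine (NTSF.Mg.JJ_le_hn _).trans ?_
  rw [hn_mulE (nrm_rt A)]
  exact (hY i hi).le

lemma osd_app_le {h : ℕ} {A Y : List Bool} {R : ℝ} (hR : 0 ≤ R) (hY : ∀ i, i ≤ Y.length → (hn (vx oo up Y i) : ℝ) < R) :
    osd h (A ++ Y) ≤ osd h A + 2 * R := by
  have hl : (A ++ Y).length = A.length + Y.length := List.length_append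
  have hA0 := osd_nonneg h A
  refine osd_le (by linarith) fun i j hij hji hj => ?_
  rcases le_or_gt j A.length with h1 | h1
  · rw [vx_append (by omega), vx_append (by omega)]
    have := le_osd (h := h) (t := A) (i := i) (j := j) (by omega) hji (by omega) (by omega)
    linarith
  · obtain ⟨j', rfl⟩ := Nat.exists_eq_add_of_lt h1
    have hj' : j' + 1 ≤ Y.length := by omega
    have k1 := vx_end_le (A := A) hY hj'
    rw [← add_assoc] at k1
    rcases le_or_gt i A.length with h2 | h2
    · have k2 := le_osd (h := h) (t := A) (i := i) (j := A.length) (by omega) (by omega) (by omega) (by omega)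
      have e1 : vx oo up (A ++ Y) i = vx oo up A i := vx_append (by omega)
      have e2 : vx oo up (A ++ Y) A.length = vx oo up A A.length := vx_append (by omega)
      rw [e2] at k1
      rw [e1]
      have := norm_sub_le_norm_sub_add_norm_sub (JJ (vx oo up A i)) (JJ (vx oo up A A.length))
        (JJ (vx oo up (A ++ Y) (A.length + j' + 1)))
      rw [norm_sub_rev (JJ (vx oo up A A.length))] at this
      linarith
    · obtain ⟨i', rfl⟩ := Nat.exists_eq_add_of_lt h2
      have k2 := vx_end_le (A := A) hY (i := i' + 1) (by omega)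
      rw [← add_assoc] at k2
      have := norm_sub_le_norm_sub_add_norm_sub (JJ (vx oo up (A ++ Y) (A.length + i' + 1))) (JJ (vx oo up (A ++ Y) A.length))
        (JJ (vx oo up (A ++ Y) (A.length + j' + 1)))
      rw [norm_sub_rev (JJ (vx oo up (A ++ Y) A.length)) (JJ (vx oo up (A ++ Y) (A.length + j' + 1)))] at this
      linarith

/-! ### 3. The pair as one curve -/

lemma JJ_mulE_norm {u : Pt} (hu : nrm u = 1) (p : Pt) : ‖JJ (mulE u p)‖ = ‖JJ p‖ := by
  have h1 := NTF.JJ_norm (mulE u p)
  have h2 := NTF.JJ_norm p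
  rw [nrm_mulE, hu, one_mul] at h1
  have h3 : ‖JJ (mulE u p)‖ ^ 2 = ‖JJ p‖ ^ 2 := by rw [h1, h2]
  exact (sq_eq_sq₀ (norm_nonneg _) (norm_nonneg _)).1 h3

lemma pv_app {g : Pt × Pt} {B Y : List Bool} {i : ℕ} (h : i ≤ B.length + 1) : pv g (B ++ Y) i = pv g B i := by
  unfold pv
  rw [vx_append h]

lemma pv_sub_norm {g : Pt × Pt} (hg : nrm g.2 = 1) (B : List Bool) (i j : ℕ) :
    ‖JJ (pv g B i) - JJ (pv g B j)‖ = ‖JJ (vx oo up B i) - JJ (vx oo up B j)‖ := by
  unfold pv
  rw [← NTF.JJ_sub, ← NTF.JJ_sub, add_sub_add_left_eq_sub, ← mulE_sub, JJ_mulE_norm hg]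

/-! ### 4. The joined word -/

lemma gE_nrm (t : List Bool) : nrm (gE t).2 = 1 :=
  nrm_rotTo upd' (neg_mem_dirs (dx_mem upd' t _))

/-- the placed second word in the joined word -/
lemma pv_join {V B : List Bool} {x : Bool} {s : ℕ} (hs : s ≤ B.length) :
    pv (gE (V ++ (rev B ++ [x]))) B s = vx oo up (V ++ (rev B ++ [x])) (V.length + B.length + 1 - s) := by
  obtain ⟨W, hW⟩ : ∃ W, W = V ++ rev B := ⟨_, rfl⟩
  have hlB : (rev B).length = B.length := rev_length B
  have hWl : W.length = V.length + B.length := by rw [hW, List.length_append, hlB]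
  have hH : V ++ (rev B ++ [x]) = W ++ [x] := by rw [hW, List.append_assoc]
  have hl : (W ++ [x]).length = W.length + 1 := by simp
  have hrev : rev W = B ++ rev V := by
    have h1 : ∀ L : List Bool, HexObs.rev L = (L.map not).reverse := fun _ => rfl
    rw [hW, h1 (V ++ rev B), List.map_append, List.reverse_append, ← h1, ← h1, rev_rev]
  rw [hH]
  have hb : en (W ++ [x]) = tip oo up W := by
    unfold en tip
    rw [hl]
    exact vx_append (by omega)
  have hd : dx up (W ++ [x]) ((W ++ [x]).length - 1) = dx up W W.length := by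
    rw [hl, Nat.add_sub_cancel]
    exact dx_append (by omega)
  have e4 := vx_rev oo up W s (by omega)
  have e5 : vx (tip oo up W) (-(dx up W W.length)) (rev W) s =
      tip oo up W + mulE (rotTo up (-(dx up W W.length))) (vx oo up (rev W) s) := by
    have h1 := vx_mulE (rotTo up (-(dx up W W.length))) oo (tip oo up W) up (rev W) s
    have h2 : vx oo up (rev W) s - oo = vx oo up (rev W) s := sub_zero _
    rw [rotTo_apply _ upd', h2] at h1
    exact h1
  have e6 : vx oo up (rev W) s = vx oo up B s := by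
    rw [hrev]
    exact vx_append (by omega)
  unfold pv gE
  show en (W ++ [x]) + mulE (rotTo up (-(dx up (W ++ [x]) ((W ++ [x]).length - 1)))) (vx oo up B s) = _
  rw [hb, hd, ← e6, ← e5, e4, hWl, vx_append (by omega)]

/-- the curve of a word, with its own time, divided by size n -/
noncomputable def own (c : ℂ) (n : ℕ) (t : List Bool) : C(unitInterval, ℂ) := ((size n)⁻¹ : ℝ) • Tight.poly (cz c t) t.length

lemma dist_scale {n a b : ℕ} {z y : ℕ → ℂ} {W : ℝ} (hW : 0 ≤ W) (h : ∀ u, ‖Tight.poly z a u - Tight.poly y b u‖ ≤ W) :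
    dist (((size n)⁻¹ : ℝ) • Tight.poly z a) (((size n)⁻¹ : ℝ) • Tight.poly y b) ≤ W / size n := by
  have hs : 0 ≤ size n := Real.sqrt_nonneg _
  rw [ContinuousMap.dist_le (by positivity)]
  intro u
  rw [dist_eq_norm]
  show ‖((size n)⁻¹ : ℝ) • Tight.poly z a u - ((size n)⁻¹ : ℝ) • Tight.poly y b u‖ ≤ _
  rw [← smul_sub, norm_smul, Real.norm_eq_abs, abs_of_nonneg (inv_nonneg.2 hs), div_eq_inv_mul]
  exact mul_le_mul_of_nonneg_left (h u) (inv_nonneg.2 hs)

/-! ### 5. The pair with its own time -/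

/-- the points of the pair, the first word and then the second one backwards -/
noncomputable def yT (c : ℂ) (T : PT) (i : ℕ) : ℂ :=
  if i ≤ T.1.length then cz c T.1 i else c * JJ (pv T.2.1 T.2.2 (T.1.length + T.2.2.length + 1 - i))

/-- the curve of the pair with its own time, divided by size n -/
noncomputable def gTw (c : ℂ) (n : ℕ) (T : PT) : C(unitInterval, ℂ) :=
  ((size n)⁻¹ : ℝ) • Tight.poly (yT c T) (T.1.length + T.2.2.length + 1)

/-- **the curve of a pair and the curve of the joined word** -/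
theorem lnk_close {c : ℂ} (hc : ‖c‖ = 1) {ρ : ℝ} {n : ℕ} (hρ : 0 < ρ) {T : PT} {H : List Bool} (h : Lnk ρ n T H) {h0 : ℕ}
    (hh : 2 * (ρ * n) + 2 ≤ h0) :
    dist (gTw c n T) (own c n H) ≤ (osd h0 H + ρ * (n : ℝ) ^ (3 / 4 : ℝ)) / size n := by
  obtain ⟨A, Y1, g, B, Y2, Q, x, rfl, hH, hg, hD, h1, h2, h3⟩ := h
  obtain ⟨R, hR⟩ : ∃ R : ℝ, R = ρ * (n : ℝ) ^ (3 / 4 : ℝ) := ⟨_, rfl⟩
  have hR0 : 0 ≤ R := by
    rw [hR]
    positivity
  rw [← hR] at h1 h2 ⊢
  obtain ⟨D, hDd⟩ : ∃ D : ℕ, D = Y1.length + Y2.length + Q.length := ⟨_, rfl⟩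
  rw [← hDd] at hD
  have hD2 : 2 * D + 2 ≤ h0 := by
    have : ((2 * D + 2 : ℕ) : ℝ) ≤ h0 := by
      push_cast
      linarith
    exact_mod_cast this
  have hH2 : H = (A ++ Q) ++ (rev B ++ [x]) := by rw [hH, List.append_assoc]
  have hHl : H.length = A.length + Q.length + B.length + 1 := by
    rw [hH2, List.length_append, List.length_append, List.length_append, rev_length, List.length_singleton]
    ring
  have hgn : nrm g.2 = 1 := by
    rw [hg]
    exact gE_nrm H
  have hB : ∀ s, s ≤ B.length → pv g B s = vx oo up H (A.length + Q.length + B.length + 1 - s) := by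
    intro s hs
    have := pv_join (V := A ++ Q) (x := x) hs
    rw [← hH2, List.length_append, ← hg] at this
    exact this
  have hA : ∀ s, s ≤ A.length → vx oo up A s = vx oo up H s := by
    intro s hs
    rw [hH]
    exact (vx_append (by omega)).symm
  have hl1 : (A ++ Y1).length = A.length + Y1.length := List.length_append
  have hl2 : (B ++ Y2).length = B.length + Y2.length := List.length_append
  have oH := osd_nonneg h0 H
  -- differences inside the joined word
  have kH : ∀ a b : ℕ, a ≤ b + h0 → b ≤ a + h0 → a ≤ H.length → b ≤ H.length →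
      ‖c * JJ (vx oo up H a) - c * JJ (vx oo up H b)‖ ≤ osd h0 H := by
    intro a b g1 g2 g3 g4
    rw [← mul_sub, norm_mul, hc, one_mul]
    exact le_osd g1 g2 g3 g4
  show dist (((size n)⁻¹ : ℝ) • Tight.poly (yT c (A ++ Y1, (g, B ++ Y2))) ((A ++ Y1).length + (B ++ Y2).length + 1))
    (((size n)⁻¹ : ℝ) • Tight.poly (cz c H) H.length) ≤ _
  refine dist_scale (by linarith) (poly_time (D := D) (by omega) (by omega) (by omega) (by omega)
    fun i j hi hj hij hji => ?_)
  rw [hl1, hl2] at hi
  unfold yT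
  simp only
  rw [hl1, hl2]
  rcases le_or_gt i (A.length + Y1.length) with h5 | h5
  · rw [if_pos h5]
    unfold cz
    rcases le_or_gt i A.length with h6 | h6
    · rw [vx_append (by omega), hA i h6]
      have := kH i j (by omega) (by omega) (by omega) hj
      linarith
    · obtain ⟨i', rfl⟩ := Nat.exists_eq_add_of_lt h6
      have k1 := vx_end_le (A := A) h1 (i := i' + 1) (by omega)
      rw [← add_assoc, vx_append (t := A) (s := Y1) (i := A.length) (by omega), hA _ le_rfl] at k1
      have k2 := kH A.length j (by omega) (by omega) (by omega) hj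
      have e : c * JJ (vx oo up (A ++ Y1) (A.length + i' + 1)) - c * JJ (vx oo up H j) =
          c * (JJ (vx oo up (A ++ Y1) (A.length + i' + 1)) - JJ (vx oo up H A.length)) +
            (c * JJ (vx oo up H A.length) - c * JJ (vx oo up H j)) := by ring
      rw [e]
      refine (norm_add_le _ _).trans ?_
      rw [norm_mul, hc, one_mul]
      linarith
  · rw [if_neg (by omega)]
    unfold cz
    obtain ⟨s, hs⟩ : ∃ s, s = A.length + Y1.length + (B.length + Y2.length) + 1 - i := ⟨_, rfl⟩
    rw [← hs]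
    rcases le_or_gt s B.length with h6 | h6
    · rw [pv_app (by omega), hB s h6]
      have := kH (A.length + Q.length + B.length + 1 - s) j (by omega) (by omega) (by omega) hj
      linarith
    · obtain ⟨s', hs'⟩ := Nat.exists_eq_add_of_lt h6
      have k1 := vx_end_le (A := B) h2 (i := s' + 1) (by omega)
      rw [← pv_sub_norm hgn, ← add_assoc, pv_app (g := g) (B := B) (Y := Y2) (i := B.length) (by omega), hB _ le_rfl] at k1
      have k2 := kH (A.length + Q.length + B.length + 1 - B.length) j (by omega) (by omega) (by omega) hj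
      have e : c * JJ (pv g (B ++ Y2) s) - c * JJ (vx oo up H j) =
          c * (JJ (pv g (B ++ Y2) (B.length + s' + 1)) - JJ (vx oo up H (A.length + Q.length + B.length + 1 - B.length))) +
            (c * JJ (vx oo up H (A.length + Q.length + B.length + 1 - B.length)) - c * JJ (vx oo up H j)) := by
        rw [← hs']
        ring
      rw [e]
      refine (norm_add_le _ _).trans ?_
      rw [norm_mul, hc, one_mul]
      linarith

end Pool.Agent.RMP
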