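import Pool.Agent.ARM.VisS

/-!
# RMP, rows EsP, EsA (helper63): words that come back near their start, the constant explicit in the box

* **`retJ : RetJ`** : as `ARM.retW` (same proof), with the constant `A ^ (c + 1)`.
-/

set_option autoImplicit false

namespace HexObs

namespace RMP

open Finset TS SDN NTW NTA HexObs.SIM TIP TIW NPR ARM

open scoped ENNReal

/-- **words that come back near their start, explicit in the box** -/
def RetJ : Prop := ∀ θ : ℝ, 0 < θ → ∃ (A : ℝ) (b0 : ℕ), 1 ≤ A ∧ ∀ l i c : ℕ, b0 ≤ l → l ≤ i →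
  gf (Rt l i c) ≤ ENNReal.ofReal (A ^ (c + 1) * (2 : ℝ) ^ ((θ - 2 / 3) * ((i : ℝ) - l))) * FK i

/-- **words that come back near their start, explicit in the box** -/
theorem retJ_of {κ : ℝ} {Cz : ℕ} (hκ : 0 < κ) (hR : RegZ κ Cz) (hV : VisS) : RetJ := by
  intro θ hθ
  obtain ⟨C', cR, bR, JR, nR, hC', hcR, hRZ⟩ := hR
  obtain ⟨C1, hC1, hG⟩ := gr_mass hκ
  obtain ⟨E, hE, hF⟩ := FK_addZ
  obtain ⟨CV, bV, hCV, hS⟩ := hV (θ / 2) (by positivity)
  obtain ⟨cH, ρH, hcH, hρH, hH⟩ := Hm_dec hκ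
  obtain ⟨BU0, hBU0⟩ := Ub_big
  have hE0 : (0 : ℝ) < E := by linarith
  -- the speed
  obtain ⟨q, hq2, hq⟩ : ∃ q : ℕ, 2 ≤ q ∧ 16 * E ≤ (2 : ℝ) ^ ((q : ℝ) * (θ / 2)) := by
    obtain ⟨w, hw⟩ := pow_unbounded_of_one_lt (16 * E) (one_lt_two (α := ℝ))
    obtain ⟨q0, hq0⟩ := exists_nat_ge ((w : ℝ) / (θ / 2))
    refine ⟨q0 + 2, by omega, hw.le.trans ?_⟩
    rw [← Real.rpow_natCast]
    refine Real.rpow_le_rpow_of_exponent_le (by norm_num) ?_
    rw [div_le_iff₀ (by positivity)] at hq0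
    push_cast
    nlinarith
  obtain ⟨M1, hM1, hb1⟩ := pow_beats (A := C' * 2 ^ q) (ρ := 2) (c := cR / 16) (one_le_mul_of_one_le_of_one_le hC'
    (one_le_pow₀ (by norm_num))) (by norm_num) (by positivity)
  obtain ⟨M2, hM2, hb2⟩ := pow_beats (A := E * 2 ^ q) (ρ := ρH) (c := cH) (one_le_mul_of_one_le_of_one_le hE
    (one_le_pow₀ (by norm_num))) hρH hcH
  obtain ⟨nU, hnU⟩ := pow_unbounded_of_one_lt (16 / κ) (by norm_num : (1 : ℝ) < 8)
  obtain ⟨m1, hm1⟩ : ∃ m1 : ℕ, m1 = 5 + JR + nR := ⟨_, rfl⟩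
  obtain ⟨om, hom⟩ : ∃ om : ℝ, om = (2 : ℝ) ^ (θ / 2 + 4 / 3) := ⟨_, rfl⟩
  have hom1 : 1 ≤ om := by
    rw [hom]
    exact Real.one_le_rpow (by norm_num) (by positivity)
  have hom0 : 0 < om := by linarith
  obtain ⟨G, hGd⟩ : ∃ G : ℝ, G = 1 + M1 + C1 * (E ^ 6 * (2 * M2)) + C1 * (CV * om ^ 4 * 16 * E ^ 6) * (16 * E) ^ m1 := ⟨_, rfl⟩
  have hG1 : 1 ≤ G := by
    rw [hGd]
    have : 0 ≤ C1 * (E ^ 6 * (2 * M2)) + C1 * (CV * om ^ 4 * 16 * E ^ 6) * (16 * E) ^ m1 := by positivity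
    linarith
  obtain ⟨R, hRd⟩ : ∃ R : ℝ, R = C' * E ^ 2 * om := ⟨_, rfl⟩
  have hR1 : 1 ≤ R := by
    rw [hRd]
    exact one_le_mul_of_one_le_of_one_le (one_le_mul_of_one_le_of_one_le hC' (one_le_pow₀ hE)) hom1
  refine ⟨R * G, 2 * m1 + bR + bV + BU0 * nU, one_le_mul_of_one_le_of_one_le hR1 hG1, fun l i c hl hli => ?_⟩
  obtain ⟨A1, hA1⟩ : ∃ A1 : ℝ, A1 = C' ^ c * E ^ c * M1 := ⟨_, rfl⟩
  obtain ⟨A2, hA2⟩ : ∃ A2 : ℝ, A2 = C1 * (E ^ (c + 3) * E ^ (c + 3) * (2 * M2)) := ⟨_, rfl⟩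
  obtain ⟨A3, hA3⟩ : ∃ A3 : ℝ, A3 = C1 * (E ^ c * (CV * (2 : ℝ) ^ ((θ / 2 + 4 / 3) * ((c : ℝ) + 4)) * 16 * E ^ (c + 6)) *
    (16 * E) ^ m1) := ⟨_, rfl⟩
  have hA1' : 0 < A1 := by rw [hA1]; positivity
  have hA2' : 0 < A2 := by rw [hA2]; positivity
  have hA3' : 0 < A3 := by rw [hA3]; positivity
  have hfin : A1 + A2 + A3 ≤ (R * G) ^ (c + 1) := by
    have hEc : 1 ≤ E ^ c := one_le_pow₀ hE
    have hC'c : 1 ≤ C' ^ c := one_le_pow₀ hC'
    have homc : 1 ≤ om ^ c := one_le_pow₀ hom1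
    have hRc : R ^ c = C' ^ c * (E ^ c * E ^ c) * om ^ c := by
      rw [hRd, mul_pow, mul_pow, ← pow_mul, mul_comm 2 c, pow_mul, pow_two]
    have e3 : (2 : ℝ) ^ ((θ / 2 + 4 / 3) * ((c : ℝ) + 4)) = om ^ c * om ^ 4 := by
      rw [hom, ← pow_add, ← Real.rpow_natCast, ← Real.rpow_mul (by norm_num)]
      congr 1
      push_cast
      ring
    have h1 : A1 ≤ R ^ c * M1 := by
      rw [hA1, hRc]
      refine mul_le_mul_of_nonneg_right ?_ (by linarith)
      calc C' ^ c * E ^ c = C' ^ c * (E ^ c * 1) * 1 := by ring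
        _ ≤ C' ^ c * (E ^ c * E ^ c) * om ^ c := by gcongr
    have h2 : A2 ≤ R ^ c * (C1 * (E ^ 6 * (2 * M2))) := by
      rw [hA2, hRc]
      calc C1 * (E ^ (c + 3) * E ^ (c + 3) * (2 * M2)) = 1 * (E ^ c * E ^ c) * 1 * (C1 * (E ^ 6 * (2 * M2))) := by ring
        _ ≤ C' ^ c * (E ^ c * E ^ c) * om ^ c * (C1 * (E ^ 6 * (2 * M2))) := by gcongr
    have h3 : A3 ≤ R ^ c * (C1 * (CV * om ^ 4 * 16 * E ^ 6) * (16 * E) ^ m1) := by
      rw [hA3, hRc, e3]
      calc C1 * (E ^ c * (CV * (om ^ c * om ^ 4) * 16 * E ^ (c + 6)) * (16 * E) ^ m1)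
          = 1 * (E ^ c * E ^ c) * om ^ c * (C1 * (CV * om ^ 4 * 16 * E ^ 6) * (16 * E) ^ m1) := by ring
        _ ≤ C' ^ c * (E ^ c * E ^ c) * om ^ c * (C1 * (CV * om ^ 4 * 16 * E ^ 6) * (16 * E) ^ m1) := by gcongr
    have hRc1 : 0 < R ^ c := by positivity
    have h4 : A1 + A2 + A3 ≤ R ^ c * G := by
      rw [hGd]
      nlinarith
    refine h4.trans ?_
    rw [mul_pow]
    have h5 : R ^ c ≤ R ^ (c + 1) := pow_le_pow_right₀ hR1 (by omega)
    have h6 : G ≤ G ^ (c + 1) := by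
      calc G = G ^ 1 := (pow_one G).symm
        _ ≤ G ^ (c + 1) := pow_le_pow_right₀ hG1 (by omega)
    exact mul_le_mul h5 h6 (by linarith) (by positivity)
  obtain ⟨x, rfl⟩ := Nat.exists_eq_add_of_le hli
  obtain ⟨m, hm⟩ : ∃ m, m = x / q + m1 := ⟨_, rfl⟩
  have hxq : x / q * 2 ≤ x := (Nat.mul_le_mul_left _ hq2).trans (Nat.div_mul_le_self x q)
  obtain ⟨b, hb⟩ : ∃ b, l + x = b + m := ⟨l + x - m, by omega⟩
  obtain ⟨r, hr⟩ : ∃ r, b = r + m := ⟨b - m, by omega⟩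
  have hx1 : x ≤ q * m := by
    have h0 : x < x / q * q + q := Nat.lt_div_mul_add (by omega)
    rw [hm]
    have h1 : x / q * q + q ≤ q * (x / q + m1) := by
      have : q ≤ q * m1 := Nat.le_mul_of_pos_right _ (by omega)
      rw [mul_add, mul_comm q]
      omega
    omega
  have hUbb : 16 ≤ κ * Ub b := by
    have h1 := hBU0 b nU (by omega)
    have h2 : 16 / κ ≤ Ub b := hnU.le.trans h1
    rw [div_le_iff₀ hκ] at h2
    linarith
  have hxr : (((l + x : ℕ) : ℝ) - l) = x := by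
    push_cast
    ring
  rw [hxr]
  obtain ⟨T, hT⟩ : ∃ T : ℝ, T = (2 : ℝ) ^ ((θ - 2 / 3) * (x : ℝ)) := ⟨_, rfl⟩
  rw [← hT]
  have hT0 : 0 < T := by rw [hT]; positivity
  have hTq : 1 ≤ (2 ^ q) ^ m * T := by
    have e : ((2 : ℝ) ^ q) ^ m = (2 : ℝ) ^ ((q * m : ℕ) : ℝ) := by rw [← pow_mul, Real.rpow_natCast]
    rw [e, hT, ← Real.rpow_add (by norm_num)]
    refine Real.one_le_rpow (by norm_num) ?_
    have h1 : (x : ℝ) ≤ ((q * m : ℕ) : ℝ) := by exact_mod_cast hx1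
    have h2 : (0 : ℝ) ≤ x := Nat.cast_nonneg x
    nlinarith
  -- FK
  have f1 : FK (l + x + c) ≤ ENNReal.ofReal (E ^ c) * FK (l + x) := hF _ _
  have f2 : FK (l + x + c + 3) ≤ ENNReal.ofReal (E ^ (c + 3)) * FK (l + x) := hF (l + x) (c + 3)
  have f3 : FK (l + x + c + 6) ≤ ENNReal.ofReal (E ^ (c + 6)) * FK (l + x) := hF (l + x) (c + 6)
  have f4 : FK (l + x) ≤ ENNReal.ofReal (E ^ m) * FK b := by
    rw [hb]
    exact hF b m
  have hFb0 : FK b ≠ 0 := by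
    unfold FK
    exact mul_ne_zero (by simpa using Ub_pos b) (pow_ne_zero _ (Xb_ne_zero b))
  have hFbt : FK b ≠ ⊤ := by
    unfold FK
    exact ENNReal.mul_ne_top ENNReal.ofReal_ne_top (ENNReal.pow_ne_top (Xb_ne_top b))
  -- part 1
  have p1 : gf {t | t ∈ WL (b + (m + c)) ∧ t ∈ Lz κ Cz b (2 ^ (m - 4))} ≤ ENNReal.ofReal (A1 * T) * FK (l + x) := by
    have hn : nR ≤ 2 ^ (m - 4) := by
      have h1 : nR < 2 ^ nR := Nat.lt_two_pow_self
      have h2 : (2 : ℕ) ^ nR ≤ 2 ^ (m - 4) := Nat.pow_le_pow_right (by norm_num) (by omega)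
      omega
    have r1 := hRZ b (m + c) (2 ^ (m - 4)) (by omega) (by omega) hn
    refine r1.trans ?_
    rw [show b + (m + c) = l + x + c by omega, ENNReal.ofReal_mul (by positivity), mul_assoc]
    show _ * FK (l + x + c) ≤ _
    refine (mul_le_mul_right f1 _).trans ?_
    rw [← mul_assoc, ← ENNReal.ofReal_mul (by positivity)]
    refine mul_le_mul_left (ENNReal.ofReal_le_ofReal ?_) _
    have e1 : cR * ((2 ^ (m - 4) : ℕ) : ℝ) = cR / 16 * 2 ^ m := by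
      have : (2 : ℝ) ^ m = 2 ^ (m - 4) * 16 := by
        rw [show (16 : ℝ) = 2 ^ 4 by norm_num, ← pow_add]
        congr 1
        omega
      rw [this]
      push_cast
      ring
    rw [e1]
    have h1 := hb1 m
    rw [mul_pow] at h1
    calc C' ^ (m + c) * (2 : ℝ) ^ (-(cR / 16 * 2 ^ m)) * E ^ c
        ≤ C' ^ (m + c) * (2 : ℝ) ^ (-(cR / 16 * 2 ^ m)) * E ^ c * ((2 ^ q) ^ m * T) := le_mul_of_one_le_right (by positivity) hTq
      _ = C' ^ c * E ^ c * (C' ^ m * (2 ^ q) ^ m * (2 : ℝ) ^ (-(cR / 16 * 2 ^ m))) * T := by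
          rw [pow_add]
          ring
      _ ≤ C' ^ c * E ^ c * M1 * T := by gcongr
      _ = A1 * T := by rw [hA1]
  -- part 2
  have p2 : gf (Gr κ Cz b (l + x + c) (2 ^ (l + 2))) ≤ ENNReal.ofReal ((A2 + A3) * T) * FK (l + x) := by
    have g1 := hG Cz b (l + x + c) (2 ^ (l + 2)) r (by omega) (by omega) hUbb
    have g2 := hH b r (by omega)
    rw [show b - r = m by omega] at g2
    have g3 := hS (l + 2) (l + x + c + 6) (by omega) (by omega)
    refine (ENNReal.mul_le_mul_iff_left hFb0 hFbt).1 (g1.trans ?_)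
    have q1 : FK (l + x + c + 3) ^ 2 * gf (Hm ⌈κ / 8 * Ub b⌉₊ r) ≤
        ENNReal.ofReal (E ^ (c + 3) * E ^ (c + 3) * (2 * M2) * T) * FK (l + x) * FK b := by
      calc FK (l + x + c + 3) ^ 2 * gf (Hm ⌈κ / 8 * Ub b⌉₊ r)
          ≤ ((ENNReal.ofReal (E ^ (c + 3)) * FK (l + x)) * (ENNReal.ofReal (E ^ (c + 3)) * (ENNReal.ofReal (E ^ m) * FK b))) *
              ENNReal.ofReal (2 * (2 : ℝ) ^ (-(cH * ρH ^ m))) := by
            rw [pow_two]
            refine mul_le_mul' (mul_le_mul' f2 (f2.trans (mul_le_mul_right f4 _))) g2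
        _ = ENNReal.ofReal (E ^ (c + 3) * E ^ (c + 3) * E ^ m * (2 * (2 : ℝ) ^ (-(cH * ρH ^ m)))) * FK (l + x) * FK b := by
            rw [ENNReal.ofReal_mul (p := E ^ (c + 3) * E ^ (c + 3) * E ^ m) (by positivity),
              ENNReal.ofReal_mul (p := E ^ (c + 3) * E ^ (c + 3)) (by positivity),
              ENNReal.ofReal_mul (p := E ^ (c + 3)) (by positivity)]
            ring
        _ ≤ _ := by
            refine mul_le_mul_left (mul_le_mul_left (ENNReal.ofReal_le_ofReal ?_) _) _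
            have h1 := hb2 m
            rw [mul_pow] at h1
            calc E ^ (c + 3) * E ^ (c + 3) * E ^ m * (2 * (2 : ℝ) ^ (-(cH * ρH ^ m)))
                ≤ E ^ (c + 3) * E ^ (c + 3) * E ^ m * (2 * (2 : ℝ) ^ (-(cH * ρH ^ m))) * ((2 ^ q) ^ m * T) :=
                  le_mul_of_one_le_right (by positivity) hTq
              _ = E ^ (c + 3) * E ^ (c + 3) * (2 * (E ^ m * (2 ^ q) ^ m * (2 : ℝ) ^ (-(cH * ρH ^ m)))) * T := by ring
              _ ≤ _ := by gcongr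
    have q2 : FK (l + x + c) * (ENNReal.ofReal (1 / 4 ^ r) * SS (l + x + c + 6) (2 ^ (l + 2))) ≤
        ENNReal.ofReal (E ^ c * (CV * (2 : ℝ) ^ ((θ / 2 + 4 / 3) * ((c : ℝ) + 4)) * 16 * E ^ (c + 6)) *
          (16 * E) ^ m1 * T) * FK (l + x) * FK b := by
      obtain ⟨W, hW⟩ : ∃ W : ℝ, W = CV * ((2 : ℝ) ^ (θ / 2 * (((l + x + c + 6 : ℕ) : ℝ) - ((l + 2 : ℕ) : ℝ))) * 4 ^ (l + 2) *
        (2 : ℝ) ^ ((4 / 3 : ℝ) * (((l + x + c + 6 : ℕ) : ℝ) - ((l + 2 : ℕ) : ℝ)))) := ⟨_, rfl⟩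
      rw [← hW] at g3
      have hW0 : 0 < W := by rw [hW]; positivity
      calc FK (l + x + c) * (ENNReal.ofReal (1 / 4 ^ r) * SS (l + x + c + 6) (2 ^ (l + 2)))
          ≤ (ENNReal.ofReal (E ^ c) * (ENNReal.ofReal (E ^ m) * FK b)) * (ENNReal.ofReal (1 / 4 ^ r) *
              (ENNReal.ofReal W * (ENNReal.ofReal (E ^ (c + 6)) * FK (l + x)))) := by
            refine mul_le_mul' (f1.trans (mul_le_mul_right f4 _)) (mul_le_mul_right (g3.trans (mul_le_mul_right f3 _)) _)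
        _ = ENNReal.ofReal (E ^ c * E ^ m * (1 / 4 ^ r) * W * E ^ (c + 6)) * FK (l + x) * FK b := by
            rw [ENNReal.ofReal_mul (by positivity), ENNReal.ofReal_mul (by positivity), ENNReal.ofReal_mul (by positivity),
              ENNReal.ofReal_mul (by positivity)]
            ring
        _ ≤ _ := by
            refine mul_le_mul_left (mul_le_mul_left (ENNReal.ofReal_le_ofReal ?_) _) _
            have e1 : W = CV * (2 : ℝ) ^ ((θ / 2 + 4 / 3) * ((c : ℝ) + 4)) * 16 * (4 ^ l * (2 : ℝ) ^ ((θ / 2 + 4 / 3) * (x : ℝ))) := by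
              rw [hW, show (((l + x + c + 6 : ℕ) : ℝ) - ((l + 2 : ℕ) : ℝ)) = (c : ℝ) + 4 + x by push_cast; ring,
                show θ / 2 * ((c : ℝ) + 4 + x) = θ / 2 * (c + 4) + θ / 2 * x by ring,
                show (4 / 3 : ℝ) * ((c : ℝ) + 4 + x) = 4 / 3 * (c + 4) + 4 / 3 * x by ring,
                show (θ / 2 + 4 / 3) * ((c : ℝ) + 4) = θ / 2 * (c + 4) + 4 / 3 * (c + 4) by ring,
                show (θ / 2 + 4 / 3) * (x : ℝ) = θ / 2 * x + 4 / 3 * x by ring]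
              simp only [Real.rpow_add (show (0 : ℝ) < 2 by norm_num)]
              rw [pow_add (4 : ℝ) l 2]
              ring
            have e2 : (1 / 4 ^ r : ℝ) * (4 ^ l * (2 : ℝ) ^ ((θ / 2 + 4 / 3) * (x : ℝ))) =
                16 ^ m * (2 : ℝ) ^ ((θ / 2 - 2 / 3) * (x : ℝ)) := by
              have e3 : (4 : ℝ) ^ l * 4 ^ x = 4 ^ r * 16 ^ m := by
                rw [show (16 : ℝ) = 4 ^ 2 by norm_num, ← pow_mul, ← pow_add, ← pow_add]
                congr 1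
                omega
              have e4 : (2 : ℝ) ^ ((θ / 2 + 4 / 3) * (x : ℝ)) = 4 ^ x * (2 : ℝ) ^ ((θ / 2 - 2 / 3) * (x : ℝ)) := by
                rw [show (4 : ℝ) = 2 ^ (2 : ℕ) by norm_num, ← pow_mul, ← Real.rpow_natCast 2 (2 * x), ← Real.rpow_add (by norm_num)]
                congr 1
                push_cast
                ring
              rw [e4, ← mul_assoc ((4 : ℝ) ^ l), e3]
              have : (4 : ℝ) ^ r ≠ 0 := by positivity
              field_simp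
            have e5 : (16 * E) ^ m * (2 : ℝ) ^ ((θ / 2 - 2 / 3) * (x : ℝ)) ≤ (16 * E) ^ m1 * T := by
              have h1 : (16 * E) ^ (x / q) ≤ (2 : ℝ) ^ (θ / 2 * (x : ℝ)) := by
                calc (16 * E) ^ (x / q) ≤ ((2 : ℝ) ^ ((q : ℝ) * (θ / 2))) ^ (x / q) := by gcongr
                  _ = (2 : ℝ) ^ (((x / q * q : ℕ) : ℝ) * (θ / 2)) := by
                      rw [← Real.rpow_natCast, ← Real.rpow_mul (by norm_num)]
                      congr 1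
                      push_cast
                      ring
                  _ ≤ _ := by
                      refine Real.rpow_le_rpow_of_exponent_le (by norm_num) ?_
                      have : ((x / q * q : ℕ) : ℝ) ≤ x := by exact_mod_cast Nat.div_mul_le_self x q
                      nlinarith
              rw [hm, pow_add, hT, show (θ - 2 / 3) * (x : ℝ) = θ / 2 * x + (θ / 2 - 2 / 3) * x by ring,
                Real.rpow_add (by norm_num)]
              have : (0 : ℝ) < (16 * E) ^ m1 := by positivity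
              calc (16 * E) ^ (x / q) * (16 * E) ^ m1 * (2 : ℝ) ^ ((θ / 2 - 2 / 3) * (x : ℝ))
                  ≤ (2 : ℝ) ^ (θ / 2 * (x : ℝ)) * (16 * E) ^ m1 * (2 : ℝ) ^ ((θ / 2 - 2 / 3) * (x : ℝ)) := by gcongr
                _ = _ := by ring
            calc E ^ c * E ^ m * (1 / 4 ^ r) * W * E ^ (c + 6)
                = E ^ c * (CV * (2 : ℝ) ^ ((θ / 2 + 4 / 3) * ((c : ℝ) + 4)) * 16 * E ^ (c + 6)) *
                    (E ^ m * (1 / 4 ^ r * (4 ^ l * (2 : ℝ) ^ ((θ / 2 + 4 / 3) * (x : ℝ))))) := by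
                  rw [e1]
                  ring
              _ = E ^ c * (CV * (2 : ℝ) ^ ((θ / 2 + 4 / 3) * ((c : ℝ) + 4)) * 16 * E ^ (c + 6)) *
                    ((16 * E) ^ m * (2 : ℝ) ^ ((θ / 2 - 2 / 3) * (x : ℝ))) := by
                  rw [e2, mul_pow]
                  ring
              _ ≤ E ^ c * (CV * (2 : ℝ) ^ ((θ / 2 + 4 / 3) * ((c : ℝ) + 4)) * 16 * E ^ (c + 6)) * ((16 * E) ^ m1 * T) := by gcongr
              _ = _ := by ring
    calc ENNReal.ofReal C1 * (FK (l + x + c + 3) ^ 2 * gf (Hm ⌈κ / 8 * Ub b⌉₊ r) +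
          FK (l + x + c) * (ENNReal.ofReal (1 / 4 ^ r) * SS (l + x + c + 6) (2 ^ (l + 2))))
        ≤ ENNReal.ofReal C1 * (ENNReal.ofReal (E ^ (c + 3) * E ^ (c + 3) * (2 * M2) * T) * FK (l + x) * FK b +
            ENNReal.ofReal (E ^ c * (CV * (2 : ℝ) ^ ((θ / 2 + 4 / 3) * ((c : ℝ) + 4)) * 16 * E ^ (c + 6)) *
              (16 * E) ^ m1 * T) * FK (l + x) * FK b) := mul_le_mul_right (add_le_add q1 q2) _
      _ = ENNReal.ofReal ((A2 + A3) * T) * FK (l + x) * FK b := by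
          rw [← add_mul, ← add_mul, ← ENNReal.ofReal_add (by positivity) (by positivity), ← mul_assoc, ← mul_assoc,
            ← ENNReal.ofReal_mul (by positivity), hA2, hA3]
          congr 3
          ring
  refine (gf_mono (Rt_split (κ := κ) (Cz := Cz) (b := b) (m := m) hb (by omega))).trans ((gf_union_le _ _).trans
    ((add_le_add p1 p2).trans ?_))
  rw [← add_mul, ← ENNReal.ofReal_add (by positivity) (by positivity)]
  refine mul_le_mul_left (ENNReal.ofReal_le_ofReal ?_) _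
  calc A1 * T + (A2 + A3) * T = (A1 + A2 + A3) * T := by ring
    _ ≤ (R * G) ^ (c + 1) * T := by gcongr

/-- **no hypothesis** -/
theorem retJ : RetJ := by
  obtain ⟨κ, hκ, C, -, hR⟩ := TIP.regZ_all
  exact retJ_of hκ hR visS

end RMP

end HexObs
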