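import Pool.Agent.RMP.SepP
import Pool.Agent.RMP.Base

/-!
# RMP, row P7 (helper15): the sandwich for pairs

**`t1P_of`** : (T1P) from the rows OutP, NFP, EsP, EaP, NtP (the bad pairs, `badP_of`), GoodP and the product bound `baseP`.
For R fixed every level has a finite constant (`P3_fin`); the bad pairs are half of it, the good pairs have a constant of their own.
-/

set_option autoImplicit false

namespace HexObs

namespace RMP

open Finset TS SDN NTA TIP ARM

open scoped ENNReal

/-- **one step of the sandwich** for one R -/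
lemma sandStep {K C : ℝ} (hK : 1 ≤ K) (hKC : 4 * C ≤ K) {b R : ℕ}
    (h : ∀ D : ℝ, 1 ≤ D → HF3 D R b → HF3 (max K (D / 2 + C)) R b) {D : ℝ} (hD : 1 ≤ D) (h0 : HF3 D R b) : HF3 K R b := by
  have hall : ∀ n : ℕ, HF3 (max K ((3 / 4) ^ n * D)) R b := by
    intro n
    induction n with
    | zero =>
      refine HF3.le h0 ?_
      rw [pow_zero, one_mul]
      exact le_max_right _ _
    | succ n ih =>
      refine HF3.le (h _ (hK.trans (le_max_left _ _)) ih) ?_
      rcases le_total K ((3 / 4 : ℝ) ^ n * D) with h1 | h1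
      · rw [max_eq_right h1]
        refine max_le (le_max_left _ _) (le_trans ?_ (le_max_right _ _))
        rw [pow_succ]
        nlinarith
      · rw [max_eq_left h1]
        refine max_le (le_max_left _ _) (le_trans ?_ (le_max_left _ _))
        linarith
  have hD0 : 0 < D := by linarith
  obtain ⟨n, hn⟩ := exists_pow_lt_of_lt_one (show (0 : ℝ) < K / D by positivity) (show (3 / 4 : ℝ) < 1 by norm_num)
  have h2 := hall n
  rwa [max_eq_left ((lt_div_iff₀ hD0).1 hn).le] at h2

/-- **(T1P), from the rows** -/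
theorem t1P_of (hO : OutP) (hN : NFP) (hE : EsP) (hA : EaP) (hQ : NtP) (hG : GoodP) : T1P := by
  obtain ⟨η, κ, a, m, hη, hκ, hb⟩ := badP_of hO hN hE hA hQ (1 / 2) (by norm_num)
  obtain ⟨k, c0, hg⟩ := hG η κ a m hη hκ
  obtain ⟨c, u, e, b0, hc0, -, hcu, hke, -, -, hb⟩ := hb k c0
  obtain ⟨C, b1, hC, hg⟩ := hg c u e hc0 hcu hke
  obtain ⟨b, hbb⟩ : ∃ b : ℕ, b = b0 + b1 := ⟨_, rfl⟩
  have l0 : b0 ≤ b := by omega
  have l1 : b1 ≤ b := by omega
  obtain ⟨CB, hCB, hB⟩ := baseP (2 ^ b) (by positivity)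
  obtain ⟨K, hK⟩ : ∃ K : ℝ, K = max 1 (max CB (4 * C)) := ⟨_, rfl⟩
  have hK1 : 1 ≤ K := by rw [hK]; exact le_max_left _ _
  have hKB : CB ≤ K := by rw [hK]; exact (le_max_left _ _).trans (le_max_right _ _)
  have hKC : 4 * C ≤ K := by rw [hK]; exact (le_max_right _ _).trans (le_max_right _ _)
  -- the bound at the levels at least b
  have main : ∀ R : ℕ, HF3 K R b := by
    intro R
    obtain ⟨D, hD, h0⟩ := P3_fin R
    refine sandStep hK1 hKC (D := max 1 D) (fun D hD hH i hi => ?_) (le_max_left _ _)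
      (fun i _ => (h0 i).trans (ENNReal.ofReal_le_ofReal (mul_le_mul_of_nonneg_right (le_max_right _ _) (pr3_pos R i).le)))
    have hp := pr3_pos R i
    rcases le_or_gt (2 ^ (b + i)) R with h1 | h1
    · have r1 := hb D R i hD (hH.mono hi) (l0.trans hi) (le_trans (Nat.pow_le_pow_right (by norm_num) (by omega)) h1)
      have r2 := hg R i (l1.trans hi) (le_trans (Nat.pow_le_pow_right (by norm_num) (by omega)) h1)
      refine gp_two (A := P3 R i \ GP R i η κ a m c u e k) (B := GP R i η κ a m c u e k) ?_ (by positivity) (by positivity)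
        ?_ r1 r2
      · intro T hT
        by_cases h2 : T ∈ GP R i η κ a m c u e k
        · exact Or.inr h2
        · exact Or.inl ⟨hT, h2⟩
      · have h2 : D / 2 + C ≤ max K (D / 2 + C) := le_max_right _ _
        nlinarith
    · refine (hB R i ?_).trans (ENNReal.ofReal_le_ofReal (mul_le_mul_of_nonneg_right (hKB.trans (le_max_left _ _)) hp.le))
      have h2 : (R : ℝ) < 2 ^ (b + i) := by exact_mod_cast h1
      rw [pow_add] at h2
      exact h2.le
  -- all levels
  refine ⟨K * (2 : ℝ) ^ ((67 / 12 : ℝ) * (b : ℝ)), by positivity, fun R i => ?_⟩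
  have h1 : P3 R i ⊆ P3 R (i + b) := P3_mono le_rfl (by omega)
  refine (gp_mono h1).trans ((main R (i + b) (by omega)).trans (ENNReal.ofReal_le_ofReal ?_))
  rw [mul_assoc]
  exact mul_le_mul_of_nonneg_left (pr3_up R i b) (by linarith)

end RMP

end HexObs
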