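import Pool.Agent.RMP.Num
import Pool.Agent.ARM.Sand

/-!
# RMP, row P8 (helper47): the pairs which are not good

`badP` : under HF3 the pairs of P3 R j which are not good have mass ≤ ε D pr3 R j (the constants of GP depend on ε); it serves
the sandwich (P7, ε = 1 / 2) and, with (T1P), row P8 (`sepP_of`).
-/

set_option autoImplicit false

namespace HexObs

namespace RMP

open Finset TS SDN HexObs.SIM NTA TIP ARM

open scoped ENNReal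

/-- one union bound -/
lemma gp_two {A B S : Set PT} {x y z : ℝ} (hS : S ⊆ A ∪ B) (hx : 0 ≤ x) (hy : 0 ≤ y) (hz : x + y ≤ z)
    (hA : gp A ≤ ENNReal.ofReal x) (hB : gp B ≤ ENNReal.ofReal y) : gp S ≤ ENNReal.ofReal z :=
  (gp_mono hS).trans ((gp_union_le A B).trans ((add_le_add hA hB).trans ((ENNReal.ofReal_add hx hy).symm.le.trans
    (ENNReal.ofReal_le_ofReal hz))))

/-- the extra strands from all levels at least i0 -/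
theorem esP_sum (hS : EsP) : ∃ (C : ℝ) (b0 : ℕ), 0 < C ∧ ∀ (D : ℝ) (R j l i0 : ℕ), 1 ≤ D → HF3 D R j → b0 ≤ j → j ≤ l →
    l ≤ i0 → gp {T | T ∈ P3 R j ∧ ∃ i, i0 ≤ i ∧ T.1 ∈ ESe l i} ≤
      ENNReal.ofReal (C * (2 : ℝ) ^ (2 / 3 * ((l : ℝ) - j) - 1 / 6 * ((i0 : ℝ) - j)) * D * pr3 R j) := by
  obtain ⟨C, b0, hC, h⟩ := hS (1 / 24) (by norm_num)
  refine ⟨10 * C, b0, by linarith, fun D R j l i0 hD hH hj hjl hli => ?_⟩
  have hp := pr3_pos R j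
  have hsub : {T : PT | T ∈ P3 R j ∧ ∃ i, i0 ≤ i ∧ T.1 ∈ ESe l i} ⊆ ⋃ s : ℕ, {T | T ∈ P3 R j ∧ T.1 ∈ ESe l (i0 + s)} := by
    rintro T ⟨h1, i, h2, h3⟩
    refine Set.mem_iUnion.2 ⟨i - i0, h1, ?_⟩
    rwa [show i0 + (i - i0) = i by omega]
  obtain ⟨A, hA⟩ : ∃ A : ℝ, A = C * D * (2 : ℝ) ^ (2 / 3 * ((l : ℝ) - j) - 1 / 6 * ((i0 : ℝ) - j)) * pr3 R j := ⟨_, rfl⟩
  have hA0 : 0 ≤ A := by rw [hA]; positivity
  refine (gp_mono hsub).trans ((gp_iUnion_le _).trans ?_)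
  have hb : ∀ s : ℕ, gp {T : PT | T ∈ P3 R j ∧ T.1 ∈ ESe l (i0 + s)} ≤
      ENNReal.ofReal (A * (2 : ℝ) ^ (-(1 / 6 : ℝ) * (s : ℝ))) := by
    intro s
    refine (h D R j l (i0 + s) hD hH hj hjl (by omega)).trans (ENNReal.ofReal_le_ofReal (le_of_eq ?_))
    have e : (11 / 24 + 1 / 24 : ℝ) * (((i0 + s : ℕ) : ℝ) - j) - 2 / 3 * (((i0 + s : ℕ) : ℝ) - l) =
        (2 / 3 * ((l : ℝ) - j) - 1 / 6 * ((i0 : ℝ) - j)) + (-(1 / 6 : ℝ) * (s : ℝ)) := by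
      push_cast
      ring
    rw [e, Real.rpow_add (by norm_num), hA]
    ring
  refine (ENNReal.tsum_le_tsum hb).trans ((geo6 A hA0).trans (ENNReal.ofReal_le_ofReal (le_of_eq ?_)))
  rw [hA]
  ring

/-- the bad pairs, first word -/
def BadPh (R j : ℕ) (η κ : ℝ) (a m c u e k : ℕ) : Set PT :=
  {T | T ∈ P3 R j ∧ ¬ GPh j η κ a m c u e k T}

lemma not_goodP {R j : ℕ} {η κ : ℝ} {a m c u e k : ℕ} : P3 R j \ GP R j η κ a m c u e k ⊆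
    (BadPh R j η κ a m c u e k ∪ {T | T ∈ P3 R j ∧ ¬ GPh j η κ a m c u e k (sw T)}) ∪
      {T | T ∈ P3 R j ∧ T ∈ NTx (j + c) (j + u) (2 ^ (j - e))} := by
  rintro T ⟨h1, h2⟩
  by_cases h3 : GPh j η κ a m c u e k T
  · by_cases h4 : GPh j η κ a m c u e k (sw T)
    · refine Or.inr ⟨h1, ?_⟩
      by_contra h5
      exact h2 ⟨h1, h3, h4, h5⟩
    · exact Or.inl (Or.inr ⟨h1, h4⟩)
  · exact Or.inl (Or.inl ⟨h1, h3⟩)

/-- **the pairs which are not good, under HF3** -/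
theorem badP_of (hO : OutP) (hN : NFP) (hE : EsP) (hA : EaP) (hQ : NtP) : ∀ ε : ℝ, 0 < ε →
    ∃ (η κ : ℝ) (a m : ℕ), 0 < η ∧ 0 < κ ∧ ∀ k c0 : ℕ,
    ∃ c u e b0 : ℕ, c0 ≤ c ∧ m + 5 ≤ c ∧ c ≤ u ∧ k ≤ e ∧ a ≤ b0 ∧ e ≤ b0 ∧ ∀ (D : ℝ) (R j : ℕ), 1 ≤ D → HF3 D R j →
      b0 ≤ j → 2 ^ (b0 + j) ≤ R → gp (P3 R j \ GP R j η κ a m c u e k) ≤ ENNReal.ofReal (ε * D * pr3 R j) := by
  intro ε hε
  obtain ⟨η, κ, a, m, b1, hη, hκ, hab, hN⟩ := hN (ε / 16) (by positivity)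
  refine ⟨η, κ, a, m, hη, hκ, fun k c0 => ?_⟩
  obtain ⟨C2, b2, hC2, hS⟩ := esP_sum hE
  -- the choice of c
  obtain ⟨c, hc0, hcm, hcε⟩ : ∃ c : ℕ, c0 ≤ c ∧ m + 5 ≤ c ∧
      C2 * (2 : ℝ) ^ (2 / 3 * ((m : ℝ) + 4) - 1 / 6 * ((c : ℝ) - 1)) ≤ ε / 16 := by
    obtain ⟨u0, hu0⟩ := ex_exp (C2 * (2 : ℝ) ^ (2 / 3 * ((m : ℝ) + 4) + 1 / 6)) (ε := ε / 16) (by positivity)
    obtain ⟨c, hcc⟩ : ∃ c : ℕ, c = max u0 (max c0 (m + 5)) := ⟨_, rfl⟩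
    have w1 : u0 ≤ c := by omega
    refine ⟨c, by omega, by omega, ?_⟩
    refine le_trans (le_of_eq ?_) (hu0 c w1)
    rw [mul_assoc, ← Real.rpow_add (by norm_num)]
    congr 2
    ring
  -- the choice of u
  obtain ⟨u, hcu, huε⟩ : ∃ u : ℕ, c ≤ u ∧ C2 * (2 : ℝ) ^ (2 / 3 * (c : ℝ) - 1 / 6 * (u : ℝ)) ≤ ε / 16 := by
    obtain ⟨u0, hu0⟩ := ex_exp (C2 * (2 : ℝ) ^ (2 / 3 * (c : ℝ))) (ε := ε / 16) (by positivity)
    obtain ⟨u, hcc⟩ : ∃ u : ℕ, u = max u0 c := ⟨_, rfl⟩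
    have w1 : u0 ≤ u := by omega
    refine ⟨u, by omega, ?_⟩
    refine le_trans (le_of_eq ?_) (hu0 u w1)
    rw [mul_assoc, ← Real.rpow_add (by norm_num)]
    congr 2
    ring
  obtain ⟨e, b3, hke, heb, hQ⟩ := hQ u c k (ε / 16) hcu (by positivity)
  obtain ⟨b4, hO⟩ := hO u (ε / 16) (by positivity)
  obtain ⟨b5, hA1⟩ := hA (m + 4) (ε / 16) (by positivity)
  obtain ⟨b6, hA2⟩ := hA c (ε / 16) (by positivity)
  obtain ⟨bb, hbb⟩ : ∃ bb : ℕ, bb = b1 + b2 + b3 + b4 + b5 + b6 := ⟨_, rfl⟩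
  have l1 : b1 ≤ bb := by omega
  have l2 : b2 ≤ bb := by omega
  have l3 : b3 ≤ bb := by omega
  have l4 : b4 ≤ bb := by omega
  have l5 : b5 ≤ bb := by omega
  have l6 : b6 ≤ bb := by omega
  refine ⟨c, u, e, bb, hc0, hcm, hcu, hke, hab.trans l1, heb.trans l3, fun D R j hD hH hj hR => ?_⟩
  have hp := pr3_pos R j
  have hD0 : (0 : ℝ) ≤ D := by linarith
  have hR' : ∀ b, b ≤ bb → 2 ^ (b + j) ≤ R := fun b hb => (Nat.pow_le_pow_right (by norm_num) (by omega)).trans hR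
  obtain ⟨x, hx⟩ : ∃ x : ℝ, x = ε / 16 * D * pr3 R j := ⟨_, rfl⟩
  have hx0 : 0 ≤ x := by rw [hx]; positivity
  -- the rows
  have r1 := hN D R j hD hH (l1.trans hj) (hR' _ l1)
  have r2 := hS D R j (j + m + 4) (j + c - 1) hD hH (l2.trans hj) (by omega) (by omega)
  have r3 := hS D R j (j + c) (j + u) hD hH (l2.trans hj) (by omega) (by omega)
  have r4 := hQ D R j hD hH (l3.trans hj) (hR' _ l3)
  have r5 := hO D R j hD hH (l4.trans hj) (hR' _ l4)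
  have r6 := hA1 R j (l5.trans hj) (hR' _ l5)
  have r7 := hA2 R j (l6.trans hj) (hR' _ l6)
  have hx6 : ε / 16 * pr3 R j ≤ x := by
    rw [hx]
    have h1 : ε / 16 * 1 ≤ ε / 16 * D := mul_le_mul_of_nonneg_left hD (by positivity)
    rw [mul_one] at h1
    exact mul_le_mul_of_nonneg_right h1 hp.le
  have r6' := r6.trans (ENNReal.ofReal_le_ofReal hx6)
  have r7' := r7.trans (ENNReal.ofReal_le_ofReal hx6)
  rw [← hx] at r1 r4 r5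
  have r2' : gp {T : PT | T ∈ P3 R j ∧ ∃ i, j + c - 1 ≤ i ∧ T.1 ∈ ESe (j + m + 4) i} ≤ ENNReal.ofReal x := by
    refine r2.trans (ENNReal.ofReal_le_ofReal ?_)
    have e1 : ((j + m + 4 : ℕ) : ℝ) - j = m + 4 := by push_cast; ring
    have e2 : ((j + c - 1 : ℕ) : ℝ) - j = c - 1 := by
      rw [Nat.cast_sub (by omega)]
      push_cast
      ring
    rw [e1, e2, hx]
    have := mul_le_mul_of_nonneg_right hcε (mul_nonneg hD0 hp.le)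
    nlinarith
  have r3' : gp {T : PT | T ∈ P3 R j ∧ ∃ i, j + u ≤ i ∧ T.1 ∈ ESe (j + c) i} ≤ ENNReal.ofReal x := by
    refine r3.trans (ENNReal.ofReal_le_ofReal ?_)
    have e1 : ((j + c : ℕ) : ℝ) - j = c := by push_cast; ring
    have e2 : ((j + u : ℕ) : ℝ) - j = u := by push_cast; ring
    rw [e1, e2, hx]
    have := mul_le_mul_of_nonneg_right huε (mul_nonneg hD0 hp.le)
    nlinarith
  have h1 : gp (BadPh R j η κ a m c u e k) ≤ ENNReal.ofReal (7 * x) := by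
    refine gp_two (A := {T | T ∈ P3 R j ∧ gcp j a m η (ob T.2.1 T.2.2) T.1 < κ * Ub j})
      (B := {T | T ∈ P3 R j ∧ dz T.1 0 ≤ 2 ^ (j + u)} ∪ ({T | T ∈ P3 R j ∧ ∃ i, j + c - 1 ≤ i ∧ T.1 ∈ ESe (j + m + 4) i} ∪
        ({T | T ∈ P3 R j ∧ ∃ i, j + u ≤ i ∧ T.1 ∈ ESe (j + c) i} ∪
        ({T | T ∈ P3 R j ∧ ∃ i, j + (m + 4) ≤ i ∧ T.1 ∈ ESa (j + (m + 4)) i} ∪
        ({T | T ∈ P3 R j ∧ ∃ i, j + c ≤ i ∧ T.1 ∈ ESa (j + c) i} ∪
        {T | T ∈ P3 R j ∧ (T.1 ∈ NTs (j + c) (j + u) (2 ^ (j - e)) (2 ^ (j - k)) ∨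
          T ∈ NTx (j + c) (j + u) (2 ^ (j - e)))})))))
      (x := x) (y := 6 * x) ?_ hx0 (by linarith) (by linarith) r1 ?_
    · rintro T ⟨g1, g2⟩
      by_cases q1 : gcp j a m η (ob T.2.1 T.2.2) T.1 < κ * Ub j
      · exact Or.inl ⟨g1, q1⟩
      by_cases q2 : dz T.1 0 ≤ 2 ^ (j + u)
      · exact Or.inr (Or.inl ⟨g1, q2⟩)
      by_cases q3 : ∃ i, j + c - 1 ≤ i ∧ T.1 ∈ ESe (j + m + 4) i
      · exact Or.inr (Or.inr (Or.inl ⟨g1, q3⟩))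
      by_cases q4 : ∃ i, j + u ≤ i ∧ T.1 ∈ ESe (j + c) i
      · exact Or.inr (Or.inr (Or.inr (Or.inl ⟨g1, q4⟩)))
      by_cases q6 : ∃ i, j + (m + 4) ≤ i ∧ T.1 ∈ ESa (j + (m + 4)) i
      · exact Or.inr (Or.inr (Or.inr (Or.inr (Or.inl ⟨g1, q6⟩))))
      by_cases q7 : ∃ i, j + c ≤ i ∧ T.1 ∈ ESa (j + c) i
      · exact Or.inr (Or.inr (Or.inr (Or.inr (Or.inr (Or.inl ⟨g1, q7⟩)))))
      by_cases q5 : T.1 ∈ NTs (j + c) (j + u) (2 ^ (j - e)) (2 ^ (j - k))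
      · exact Or.inr (Or.inr (Or.inr (Or.inr (Or.inr (Or.inr ⟨g1, Or.inl q5⟩)))))
      exfalso
      apply g2
      exact ⟨not_le.1 q2, not_lt.1 q1, fun i hi hc => q3 ⟨i, by omega, hc⟩, fun i hi hc => q4 ⟨i, hi, hc⟩,
        fun i hi hc => q6 ⟨i, by omega, hc⟩, fun i hi hc => q7 ⟨i, by omega, hc⟩, q5⟩
    · refine gp_two subset_rfl hx0 (y := 5 * x) (by linarith) (by linarith) r5 ?_
      refine gp_two subset_rfl hx0 (y := 4 * x) (by linarith) (by linarith) r2' ?_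
      refine gp_two subset_rfl hx0 (y := 3 * x) (by linarith) (by linarith) r3' ?_
      refine gp_two subset_rfl hx0 (y := 2 * x) (by linarith) (by linarith) r6' ?_
      exact gp_two subset_rfl hx0 hx0 (by linarith) r7' r4
  have h2 : gp {T : PT | T ∈ P3 R j ∧ ¬ GPh j η κ a m c u e k (sw T)} ≤ ENNReal.ofReal (7 * x) := by
    rw [gp_sw_P3 fun T => ¬ GPh j η κ a m c u e k T]
    exact h1
  have h3 : gp {T : PT | T ∈ P3 R j ∧ T ∈ NTx (j + c) (j + u) (2 ^ (j - e))} ≤ ENNReal.ofReal x :=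
    (gp_mono (S' := {T | T ∈ P3 R j ∧ (T.1 ∈ NTs (j + c) (j + u) (2 ^ (j - e)) (2 ^ (j - k)) ∨
      T ∈ NTx (j + c) (j + u) (2 ^ (j - e)))}) fun T hT => ⟨hT.1, Or.inr hT.2⟩).trans r4
  refine gp_two not_goodP (x := 14 * x) (y := x) (by linarith) hx0 ?_ ?_ h3
  · rw [hx]
    have : 0 ≤ ε * D * pr3 R j := by positivity
    nlinarith
  · exact gp_two subset_rfl (x := 7 * x) (y := 7 * x) (by linarith) (by linarith) (by linarith) h1 h2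

/-- **row P8** -/
theorem sepP_of (hT : T1P) (hO : OutP) (hN : NFP) (hE : EsP) (hA : EaP) (hQ : NtP) : SepP := by
  obtain ⟨D, hD, hT⟩ := hT
  obtain ⟨D1, hD1⟩ : ∃ D1 : ℝ, D1 = max D 1 := ⟨_, rfl⟩
  have h1 : 1 ≤ D1 := hD1 ▸ le_max_right _ _
  intro ε hε
  obtain ⟨η, κ, a, m, hη, hκ, h⟩ := badP_of hO hN hE hA hQ (ε / D1) (by positivity)
  refine ⟨η, κ, a, m, hη, hκ, fun k c0 => ?_⟩
  obtain ⟨c, u, e, b0, g1, g2, g3, g4, g5, g6, h⟩ := h k c0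
  refine ⟨c, u, e, b0, g1, g2, g3, g4, g5, g6, fun R j hj hR => ?_⟩
  have hp := pr3_pos R j
  refine (h D1 R j h1 ?_ hj hR).trans (ENNReal.ofReal_le_ofReal (le_of_eq ?_))
  · intro i hi
    refine (hT R i).trans (ENNReal.ofReal_le_ofReal ?_)
    exact mul_le_mul_of_nonneg_right (hD1 ▸ le_max_left _ _) (pr3_pos R i).le
  · field_simp

end RMP

end HexObs
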