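import Pool.Agent.RMP.PlPS

/-!
# RMP, row SplP (helper87), part A: the splittings of one word with the same path

`Tr2 .. a b` and `Tr2 .. a' b'` of one word w with a common root t: the parts between a and a', b and b' are bridges of height at
most `2 ^ (k + 2)`. So the number of the markings is at most (number of the bridges at the end of the innermost first word) times
(number of the bridges at the end of the innermost second word).
-/

set_option autoImplicit false

namespace HexObs

namespace RMP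

namespace SP

open Finset TS SDN SIM NTA TIP ARM ARM.G3 G4

open scoped ENNReal

variable {E : ℕ → Pt} {r : ℕ} {D : ℤ} {k : ℕ} {P : Pt} {w : List Bool} {a b : ℕ}

/-- the height of a part of a word -/
lemma sl_hgt (hab : a ≤ b) (hb : b ≤ w.length) (hZ : sl w a b ∈ BU) :
    ((hgt (sl w a b) : ℕ) : ℤ) ≤ TIW.hn (vx oo up w b - vx oo up w a) := by
  have hl : (sl w a b).length = b - a := sl_len hb
  obtain ⟨h1, h2⟩ := frame_dir (dx_mem up_dirs w a)
  have hun : nrm (rotTo up (dx up w a)) = 1 := mem_dirs.1 h1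
  have h3 := (part_vx (w := w) (p := 0) (c := (1, 0)) (a := a) (u := rotTo up (dx up w a)) (m := b - a) (i := b - a) (by
      unfold Up
      rw [mulE_one, ← h2]) hun le_rfl (by omega)).1
  unfold Vp at h3
  rw [mulE_one, mulE_one, zero_add, zero_add, show a + (b - a) = b by omega] at h3
  have h4 : mulE (rotTo up (dx up w a)) (TIW.en (sl w a b)) = vx oo up w b - vx oo up w a := by
    unfold TIW.en
    rw [hl]
    exact h3
  rw [← h4, TIW.hn_mulE hun]
  have h5 := (AR.BU_facts hZ).2.2.1
  have h6 := TIW.ip_le_hn (TIW.en (sl w a b)) TIW.upd'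
  have h7 : (0 : ℤ) ≤ hgt (sl w a b) := by positivity
  linarith

/-- **the differences to the innermost marking** -/
theorem spl_cls (hE : IPg E r) (hr : 3 ≤ r) (hD : 2 ^ (k + 12) ≤ D) (hw : w ∈ SA) {t : ℕ} {a b a' b' : ℕ}
    (h : Tr2 E r D k P (vx oo up w) (dx up w) w.length a b) (h' : Tr2 E r D k P (vx oo up w) (dx up w) w.length a' b')
    (ht : a' ≤ t) (ht' : t ≤ b) :
    (a ≤ a' → sl w a a' ∈ BU ∧ hgt (sl w a a') ≤ 2 ^ (k + 2)) ∧
      (b ≤ b' → sl w b b' ∈ BU ∧ hgt (sl w b b') ≤ 2 ^ (k + 2)) := by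
  have hst : ∀ i, i < w.length → TIW.hn (vx oo up w (i + 1) - vx oo up w i) ≤ 2 := fun i _ => vstep w i
  have hb := h.bN
  have hb' := h'.bN
  have hab' := h'.ab
  have e2 : ((2 ^ (k + 2) : ℕ) : ℤ) = 2 ^ (k + 1) + 2 ^ (k + 1) := by
    push_cast
    ring
  constructor
  · intro hh
    have z1 : sl w a a' ∈ BU :=
      part_bu2 (hE.dir 0 (by omega)) hw hh (by omega) h.ua h'.ua (h.dif1 hE hr hD hst h' (by omega))
    refine ⟨z1, ?_⟩
    have h1 := sl_hgt hh (by omega) z1
    have h2 : TIW.hn (vx oo up w a' - vx oo up w a) ≤ 2 ^ (k + 1) + 2 ^ (k + 1) := by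
      have e1 : vx oo up w a' - vx oo up w a = (vx oo up w a' - P) - (vx oo up w a - P) := by abel
      rw [e1]
      exact (TIW.hn_sub _ _).trans (add_le_add h'.ps1 h.ps1)
    have h3 : ((hgt (sl w a a') : ℕ) : ℤ) ≤ ((2 ^ (k + 2) : ℕ) : ℤ) := by
      rw [e2]
      linarith
    exact_mod_cast h3
  · intro hh
    have z1 : sl w b b' ∈ BU :=
      part_bu2 (hE.dir _ (by omega)) hw hh (by omega) h.ub h'.ub (h.dif2 hE hr hD hst h' (by omega))
    refine ⟨z1, ?_⟩
    have h1 := sl_hgt hh (by omega) z1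
    have h2 : TIW.hn (vx oo up w b' - vx oo up w b) ≤ 2 ^ (k + 1) + 2 ^ (k + 1) := by
      have e1 : vx oo up w b' - vx oo up w b = (vx oo up w b' - (P + AR.pv E D r)) - (vx oo up w b - (P + AR.pv E D r)) := by
        abel
      rw [e1]
      exact (TIW.hn_sub _ _).trans (add_le_add h'.ps2 h.ps2)
    have h3 : ((hgt (sl w b b') : ℕ) : ℤ) ≤ ((2 ^ (k + 2) : ℕ) : ℤ) := by
      rw [e2]
      linarith
    exact_mod_cast h3

/-- the second word behind b (without the last letter) -/
def Bw (w : List Bool) (b : ℕ) : List Bool := rev ((w.drop b).dropLast)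

lemma Bw_len (w : List Bool) (b : ℕ) : (Bw w b).length = w.length - b - 1 := by
  unfold Bw
  rw [rev_length, List.length_dropLast, List.length_drop]

lemma Bw_eq {A Q B : List Bool} {x : Bool} (hw : w = A ++ (Q ++ (rev B ++ [x]))) : Bw w (A.length + Q.length) = B := by
  unfold Bw
  have h1 : w.drop (A.length + Q.length) = rev B ++ [x] := by
    rw [hw, ← List.append_assoc]
    exact List.drop_left' (by rw [List.length_append])
  rw [h1, List.dropLast_concat, rev_rev]

/-- the part behind a later b -/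
lemma rev_drop (B : List Bool) (m : ℕ) (hm : m ≤ B.length) : rev (B.drop m) = (rev B).take (B.length - m) := by
  unfold rev
  rw [List.map_drop, List.reverse_drop]
  congr 1
  rw [List.length_map]

lemma rev_take' (B : List Bool) (m : ℕ) (hm : m ≤ B.length) : rev (B.take m) = (rev B).drop (B.length - m) := by
  unfold rev
  rw [List.map_take, List.reverse_take, List.length_map]

lemma Bw_sub {b b' : ℕ} (hb : b ≤ b') (hb' : b' + 1 ≤ w.length) :
    (Bw w b).take (Bw w b').length = Bw w b' ∧ (Bw w b).drop (Bw w b').length = rev (sl w b b') := by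
  have l1 := Bw_len w b
  have l2 := Bw_len w b'
  have hdl : (w.drop b).dropLast = (w.drop b).take (w.length - b - 1) := by
    rw [List.dropLast_eq_take, List.length_drop]
  have hdl' : (w.drop b').dropLast = (w.drop b').take (w.length - b' - 1) := by
    rw [List.dropLast_eq_take, List.length_drop]
  have hr1 : rev (Bw w b) = (w.drop b).take (w.length - b - 1) := by
    unfold Bw
    rw [rev_rev, hdl]
  have hr2 : rev (Bw w b') = (w.drop b').take (w.length - b' - 1) := by
    unfold Bw
    rw [rev_rev, hdl']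
  constructor
  · rw [← rev_rev ((Bw w b).take (Bw w b').length), ← rev_rev (Bw w b')]
    congr 1
    rw [rev_rev, rev_take' _ _ (by omega), hr1, hr2, l1, l2, List.drop_take, List.drop_drop]
    congr 1
    · omega
    · congr 1
      omega
  · rw [← rev_rev ((Bw w b).drop (Bw w b').length)]
    congr 1
    rw [rev_drop _ _ (by omega), hr1, l1, l2]
    unfold sl
    rw [List.take_take]
    congr 1
    omega

/-- the bridges of height at most h at the end of A, in front of them a word with the property F -/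
def BE (h : ℕ) (F : List Bool → Prop) (A : List Bool) : Set ℕ :=
  {q | q ≤ A.length ∧ A.drop q ∈ BU ∧ hgt (A.drop q) ≤ h ∧ F (A.take q)}

lemma BE_fin (h : ℕ) (F : List Bool → Prop) (A : List Bool) : (BE h F A).Finite :=
  (Set.finite_Iic A.length).subset fun q hq => hq.1

/-- **the number of the markings with the same path** -/
theorem spl_count1 (hE : IPg E r) (hr : 3 ≤ r) (hD : 2 ^ (k + 12) ≤ D) (hw : w ∈ SA) {t N1 N2 : ℕ} (F1 F2 : List Bool → Prop)
    (S : Finset (ℕ × ℕ)) (hS : ∀ p ∈ S, Tr2 E r D k P (vx oo up w) (dx up w) w.length p.1 p.2 ∧ p.1 ≤ t ∧ t ≤ p.2 ∧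
      p.2 + 1 ≤ w.length ∧ F1 (w.take p.1) ∧ F2 (Bw w p.2) ∧ (BE (2 ^ (k + 2)) F1 (w.take p.1)).ncard ≤ N1 ∧
      (BE (2 ^ (k + 2)) F2 (Bw w p.2)).ncard ≤ N2) : S.card ≤ N1 * N2 := by
  classical
  rcases S.eq_empty_or_nonempty with h0 | h0
  · rw [h0]
    simp
  obtain ⟨p1, hp1, hm1⟩ := S.exists_max_image (fun p => p.1) h0
  obtain ⟨p2, hp2, hm2⟩ := S.exists_min_image (fun p => p.2) h0
  obtain ⟨t1, t2, t3, t4, t5, t6, t7, t8⟩ := hS p1 hp1
  obtain ⟨s1, s2, s3, s4, s5, s6, s7, s8⟩ := hS p2 hp2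
  have hf1 := BE_fin (2 ^ (k + 2)) F1 (w.take p1.1)
  have hf2 := BE_fin (2 ^ (k + 2)) F2 (Bw w p2.2)
  have hmap : ∀ p ∈ S, (p.1, (Bw w p.2).length) ∈ hf1.toFinset ×ˢ hf2.toFinset := by
    intro p hp
    obtain ⟨u1, u2, u3, u4, u5, u6, u7, u8⟩ := hS p hp
    have hle1 : p.1 ≤ p1.1 := hm1 p hp
    have hle2 : p2.2 ≤ p.2 := hm2 p hp
    have hp1l : p1.1 ≤ w.length := by omega
    obtain ⟨v1, -⟩ := spl_cls hE hr hD hw u1 t1 t2 u3
    obtain ⟨-, v2⟩ := spl_cls hE hr hD hw s1 u1 u2 s3
    obtain ⟨v3, v4⟩ := v1 hle1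
    obtain ⟨v5, v6⟩ := v2 hle2
    rw [mem_product, Set.Finite.mem_toFinset, Set.Finite.mem_toFinset]
    constructor
    · have e1 : (w.take p1.1).drop p.1 = sl w p.1 p1.1 := by
        unfold sl
        rw [List.drop_take]
      have e2 : (w.take p1.1).take p.1 = w.take p.1 := by
        rw [List.take_take]
        congr 1
        omega
      refine ⟨?_, ?_, ?_, ?_⟩
      · rw [List.length_take]
        show p.1 ≤ _
        omega
      · rw [e1]
        exact v3
      · rw [e1]
        exact v4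
      · rw [e2]
        exact u5
    · obtain ⟨e1, e2⟩ := Bw_sub (w := w) hle2 (by omega)
      have l1 := Bw_len w p2.2
      have l2 := Bw_len w p.2
      refine ⟨?_, ?_, ?_, ?_⟩
      · show (Bw w p.2).length ≤ _
        omega
      · rw [e2]
        exact BU_rev v5
      · rw [e2]
        have h3 : hgt (rev (sl w p2.2 p.2)) = hgt (sl w p2.2 p.2) := hgt_eq (Brd_rev (TIP.BU_hgt v5))
        rw [h3]
        exact v6
      · rw [e1]
        exact u6
  have hinj : Set.InjOn (fun p : ℕ × ℕ => (p.1, (Bw w p.2).length)) (S : Set (ℕ × ℕ)) := by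
    intro p hp q hq hpq
    have hp4 := (hS p hp).2.2.2.1
    have hq4 := (hS q hq).2.2.2.1
    simp only [Prod.mk.injEq] at hpq
    have l1 := Bw_len w p.2
    have l2 := Bw_len w q.2
    refine Prod.ext hpq.1 ?_
    omega
  refine (card_le_card_of_injOn _ hmap hinj).trans ?_
  rw [card_product]
  refine Nat.mul_le_mul ?_ ?_
  · rw [← Set.ncard_eq_toFinset_card _ hf1]
    exact t7
  · rw [← Set.ncard_eq_toFinset_card _ hf2]
    exact s8

end SP

end RMP

end HexObs
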