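import Pool.Agent.RMP.SplA
import Pool.Agent.RMP.K3PA
import Pool.Agent.ARM.JMassA

/-!
# RMP, row SplP (helper87): the number of the splittings

`Sd E r D k P w t a b` : the word w with the root t is split at a and b: `w = A ++ (Q ++ (rev B ++ [x]))`, `a = |A|`,
`b = |A| + |Q|`, `a ≤ t ≤ b`, the outer pair (A, g, B) is joinable along the path from P, Q is a tube word of this path.
**`spl_count`**: the number of the splittings is at most (number of the paths) (64 K + 2) ^ 2 N1 N2 if every first word has at most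
N1 and every second word at most N2 bridges at its end.
-/

set_option autoImplicit false

namespace HexObs

namespace RMP

namespace SP

open Finset TS SDN SIM NTA TIP ARM ARM.G3 G4

open scoped ENNReal

/-- **splittings** -/
def Sd (E : ℕ → Pt) (r : ℕ) (D : ℤ) (k : ℕ) (P : Pt) (w : List Bool) (t a b : ℕ) : Prop :=
  ∃ (A : List Bool) (g : Pt × Pt) (B Q : List Bool) (x : Bool), w = A ++ (Q ++ (rev B ++ [x])) ∧ a = A.length ∧
    b = A.length + Q.length ∧ a ≤ t ∧ t ≤ b ∧ JnP E r D k P (A, (g, B)) ∧ TW E r D k A (pe g B + pd g B) Q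

variable {E : ℕ → Pt} {r : ℕ} {D : ℤ} {k : ℕ} {P : Pt} {w : List Bool} {t a b : ℕ}

/-- the marking of a splitting, the base point may be moved -/
lemma sd_tr2 (hk : 3 ≤ k) (hr : 1 ≤ r) (hD : 0 ≤ D) (hE : IPg E r) (h : Sd E r D k P w t a b) {y : Pt}
    (hy : 2 * TIW.hn y ≤ 2 ^ k) : Tr2 E r D k (P + y) (vx oo up w) (dx up w) w.length a b ∧ a ≤ t ∧ t ≤ b ∧
      b + 1 ≤ w.length := by
  obtain ⟨A, g, B, Q, x, hw, ha, hb, h1, h2, hJ, hQ⟩ := h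
  have hP := K3P.jn_ppx x hk hr hD hE hJ hy
  have h3 := tr2_of hP hQ
  rw [← hw, ← ha] at h3
  have e1 : a + Q.length = b := by omega
  rw [e1] at h3
  refine ⟨h3, h1, h2, ?_⟩
  rw [hw, List.length_append, List.length_append, List.length_append, rev_length, List.length_singleton]
  omega

/-- the joined word is self-avoiding -/
lemma sd_sa (hk : 3 ≤ k) (hr : 3 ≤ r) (hD : 2 ^ (k + 12) ≤ D) (hE : IPg E r) (h : Sd E r D k P w t a b) : w ∈ SA := by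
  obtain ⟨A, g, B, Q, x, hw, ha, hb, h1, h2, hJ, hQ⟩ := h
  have hD0 : 0 ≤ D := le_trans (by positivity) hD
  have hP := K3P.jn_ppx x hk (by omega) hD0 hE hJ (x := 0) (by
    have h4 : TIW.hn (0 : Pt) = 0 := by decide
    rw [h4]
    positivity)
  rw [hw]
  exact sa_of hE hr hD hP hQ

/-- the root is near the base point -/
lemma sd_pos (hr : 1 ≤ r) (hD : 0 ≤ D) (hE : IPg E r) (h : Sd E r D k P w t a b) :
    TIW.hn (vx oo up w t - P) ≤ 2 * (r + 1) * D + 2 ^ (k + 10) := by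
  obtain ⟨A, g, B, Q, x, hw, ha, hb, h1, h2, hJ, hQ⟩ := h
  obtain ⟨q, rfl⟩ : ∃ q, t = A.length + q := ⟨t - A.length, by omega⟩
  rw [hw, hv2 A Q _ (by omega)]
  have h3 : TIW.hn (TIW.en A - P) ≤ 2 ^ (k + 1) := by
    have h4 : TIW.hn (TIW.en A - P) ≤ 2 ^ k := hJ.ps1
    exact h4.trans (pow_le_pow_right₀ (by norm_num) (by omega))
  obtain ⟨j, hj, hn⟩ := hQ.rgA h3 (i := q) (by omega)
  exact np_pos hE hD hj hn

/-- the rounded base point -/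
def lab (k : ℕ) (P : Pt) : ℤ × ℤ := (P.1 / 2 ^ (k - 4), P.2 / 2 ^ (k - 4))

/-- the centre of the class -/
def cen (k : ℕ) (l : ℤ × ℤ) : Pt := (2 ^ (k - 4) * l.1, 2 ^ (k - 4) * l.2)

lemma cen_near (hk : 4 ≤ k) (P : Pt) : 2 * TIW.hn (cen k (lab k P) - P) ≤ 2 ^ k := by
  have hm : (0 : ℤ) < 2 ^ (k - 4) := by positivity
  have e1 := Int.emod_add_mul_ediv P.1 (2 ^ (k - 4))
  have e2 := Int.emod_add_mul_ediv P.2 (2 ^ (k - 4))
  have f1 := Int.emod_nonneg P.1 hm.ne'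
  have f2 := Int.emod_nonneg P.2 hm.ne'
  have f3 := Int.emod_lt_of_pos P.1 hm
  have f4 := Int.emod_lt_of_pos P.2 hm
  have e3 : cen k (lab k P) - P = (-(P.1 % 2 ^ (k - 4)), -(P.2 % 2 ^ (k - 4))) := by
    refine Prod.ext ?_ ?_
    · show 2 ^ (k - 4) * (P.1 / 2 ^ (k - 4)) - P.1 = -(P.1 % 2 ^ (k - 4))
      linarith
    · show 2 ^ (k - 4) * (P.2 / 2 ^ (k - 4)) - P.2 = -(P.2 % 2 ^ (k - 4))
      linarith
  have e4 : (2 : ℤ) ^ k = 16 * 2 ^ (k - 4) := by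
    have h1 : k = (k - 4) + 4 := by omega
    conv_lhs => rw [h1, pow_add]
    ring
  have h5 : TIW.hn (cen k (lab k P) - P) ≤ 6 * 2 ^ (k - 4) := by
    rw [e3]
    refine TIW.hn_le fun d hd => ?_
    have h7 := dir_bound hd
    unfold ip
    nlinarith [h7.1, h7.2.1, h7.2.2.1, h7.2.2.2]
  rw [e4]
  linarith

/-- the classes of the base points near v -/
noncomputable def Lb (k B : ℕ) (v : Pt) : Finset (ℤ × ℤ) :=
  Icc ((v.1 - 2 * B) / 2 ^ (k - 4)) ((v.1 + 2 * B) / 2 ^ (k - 4)) ×ˢ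
    Icc ((v.2 - 2 * B) / 2 ^ (k - 4)) ((v.2 + 2 * B) / 2 ^ (k - 4))

lemma mem_Lb {B : ℕ} {v : Pt} (h : TIW.hn (v - P) ≤ B) : lab k P ∈ Lb k B v := by
  have h1 := mem_bx h
  unfold bx at h1
  rw [mem_product, mem_Icc, mem_Icc] at h1
  obtain ⟨⟨h2, h3⟩, h4, h5⟩ := h1
  have a1 : (v - P).1 = v.1 - P.1 := rfl
  have a2 : (v - P).2 = v.2 - P.2 := rfl
  rw [a1] at h2 h3
  rw [a2] at h4 h5
  have hm : (0 : ℤ) ≤ 2 ^ (k - 4) := by positivity
  unfold Lb lab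
  rw [mem_product, mem_Icc, mem_Icc]
  exact ⟨⟨Int.ediv_le_ediv (by positivity) (by linarith), Int.ediv_le_ediv (by positivity) (by linarith)⟩,
    Int.ediv_le_ediv (by positivity) (by linarith), Int.ediv_le_ediv (by positivity) (by linarith)⟩

lemma card_side (hk : 4 ≤ k) {K : ℕ} (u : ℤ) :
    (Icc ((u - 2 * ((K * 2 ^ k : ℕ) : ℤ)) / 2 ^ (k - 4)) ((u + 2 * ((K * 2 ^ k : ℕ) : ℤ)) / 2 ^ (k - 4))).card = 64 * K + 1 := by
  have e4 : (2 : ℤ) ^ k = 16 * 2 ^ (k - 4) := by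
    have h1 : k = (k - 4) + 4 := by omega
    conv_lhs => rw [h1, pow_add]
    ring
  have hm : (2 : ℤ) ^ (k - 4) ≠ 0 := by positivity
  have e5 : u - 2 * ((K * 2 ^ k : ℕ) : ℤ) = u + (-(32 * K)) * 2 ^ (k - 4) := by
    push_cast
    rw [e4]
    ring
  have e6 : u + 2 * ((K * 2 ^ k : ℕ) : ℤ) = u + (32 * K) * 2 ^ (k - 4) := by
    push_cast
    rw [e4]
    ring
  rw [e5, e6, Int.add_mul_ediv_right _ _ hm, Int.add_mul_ediv_right _ _ hm, Int.card_Icc]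
  have e7 : u / 2 ^ (k - 4) + 32 * (K : ℤ) + 1 - (u / 2 ^ (k - 4) + -(32 * (K : ℤ))) = ((64 * K + 1 : ℕ) : ℤ) := by
    push_cast
    ring
  rw [e7, Int.toNat_natCast]

lemma card_Lb (hk : 4 ≤ k) (K : ℕ) (v : Pt) : (Lb k (K * 2 ^ k) v).card = (64 * K + 1) ^ 2 := by
  unfold Lb
  rw [card_product, card_side hk, card_side hk, sq]

lemma BE_mono {h h' : ℕ} (hh : h ≤ h') (F : List Bool → Prop) (A : List Bool) : (BE h F A).ncard ≤ (BE h' F A).ncard :=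
  Set.ncard_le_ncard (fun _ hq => ⟨hq.1, hq.2.1, hq.2.2.1.trans hh, hq.2.2.2⟩) (BE_fin _ _ _)

/-- **the number of the splittings** -/
theorem spl_count {ι : Type*} (CC : Finset ι) (kk rr : ι → ℕ) (DD : ι → ℤ) (EE : ι → ℕ → Pt) {H Mx j t N1 N2 : ℕ}
    (hH : 2 ^ 13 ≤ H) (hC : ∀ c ∈ CC, 4 ≤ kk c ∧ kk c ≤ j ∧ 18 * (H * 2 ^ kk c) ≤ DD c ∧ DD c ≤ 36 * (H * 2 ^ kk c) ∧
      3 ≤ rr c ∧ rr c ≤ Mx ∧ IPg (EE c) (rr c)) {w : List Bool} (F1 F2 : List Bool → Prop) (S : Finset (ℕ × ℕ))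
    (hS : ∀ p ∈ S, (∃ c ∈ CC, ∃ P, Sd (EE c) (rr c) (DD c) (kk c) P w t p.1 p.2) ∧ F1 (w.take p.1) ∧ F2 (Bw w p.2) ∧
      (BE (2 ^ (j + 2)) F1 (w.take p.1)).ncard ≤ N1 ∧ (BE (2 ^ (j + 2)) F2 (Bw w p.2)).ncard ≤ N2) :
    S.card ≤ CC.card * ((64 * (2 * (Mx + 1) * (36 * H) + 1024) + 1) ^ 2 * (N1 * N2)) := by
  classical
  obtain ⟨K, hK⟩ : ∃ K : ℕ, K = 2 * (Mx + 1) * (36 * H) + 1024 := ⟨_, rfl⟩
  rw [← hK]
  have hcov : S ⊆ CC.biUnion fun c => (Lb (kk c) (K * 2 ^ kk c) (vx oo up w t)).biUnion fun l =>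
      S.filter fun p => ∃ P, Sd (EE c) (rr c) (DD c) (kk c) P w t p.1 p.2 ∧ lab (kk c) P = l := by
    intro p hp
    obtain ⟨⟨c, hc, P, hP⟩, -⟩ := hS p hp
    obtain ⟨h1, h2, h3, h4, h5, h6, h7⟩ := hC c hc
    rw [mem_biUnion]
    refine ⟨c, hc, ?_⟩
    rw [mem_biUnion]
    refine ⟨lab (kk c) P, mem_Lb ?_, ?_⟩
    · have hD0 : 0 ≤ DD c := le_trans (by positivity) h3
      refine (sd_pos (by omega) hD0 h7 hP).trans ?_
      rw [hK]
      push_cast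
      have g1 : (2 : ℤ) ^ (kk c + 10) = 1024 * 2 ^ kk c := by ring
      rw [g1]
      have g2 : (rr c : ℤ) ≤ Mx := by exact_mod_cast h6
      have g4 : 2 * ((rr c : ℤ) + 1) * DD c ≤ 2 * ((Mx : ℤ) + 1) * DD c := by
        refine mul_le_mul_of_nonneg_right ?_ hD0
        linarith
      have g5 : 2 * ((Mx : ℤ) + 1) * DD c ≤ 2 * ((Mx : ℤ) + 1) * (36 * (H * 2 ^ kk c)) := by
        refine mul_le_mul_of_nonneg_left h4 (by positivity)
      have g6 : (2 * ((Mx : ℤ) + 1) * (36 * H) + 1024) * 2 ^ kk c =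
          2 * ((Mx : ℤ) + 1) * (36 * (H * 2 ^ kk c)) + 1024 * 2 ^ kk c := by ring
      rw [g6]
      linarith
    · rw [mem_filter]
      exact ⟨hp, P, hP, rfl⟩
  refine (card_le_card hcov).trans ?_
  refine card_biUnion_le_card_mul _ _ _ fun c hc => ?_
  obtain ⟨h1, h2, h3, h4, h5, h6, h7⟩ := hC c hc
  rw [← card_Lb h1 K (vx oo up w t)]
  refine card_biUnion_le_card_mul _ _ _ fun l _ => ?_
  have hD0 : 0 ≤ DD c := le_trans (by positivity) h3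
  have hDD : (2 : ℤ) ^ (kk c + 12) ≤ DD c := by
    refine le_trans ?_ h3
    have g1 : (2 : ℤ) ^ 13 ≤ H := by exact_mod_cast hH
    have g2 : (0 : ℤ) < 2 ^ kk c := by positivity
    have g3 : (2 : ℤ) ^ (kk c + 12) = 2 ^ 12 * 2 ^ kk c := by ring
    rw [g3]
    nlinarith
  obtain ⟨S', hS'⟩ : ∃ S', S' = S.filter fun p => ∃ P, Sd (EE c) (rr c) (DD c) (kk c) P w t p.1 p.2 ∧ lab (kk c) P = l :=
    ⟨_, rfl⟩
  rw [← hS']
  rcases S'.eq_empty_or_nonempty with h0 | h0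
  · rw [h0]
    simp
  obtain ⟨p0, hp0⟩ := h0
  rw [hS', mem_filter] at hp0
  obtain ⟨hp0, P0, hP0, -⟩ := hp0
  have hw : w ∈ SA := sd_sa (by omega) (by omega) hDD h7 hP0
  refine spl_count1 (E := EE c) (r := rr c) (D := DD c) (k := kk c) (P := cen (kk c) l) h7 h5 hDD hw (t := t) F1 F2 S' ?_
  intro p hp
  rw [hS', mem_filter] at hp
  obtain ⟨hp1, P, hP, hl⟩ := hp
  obtain ⟨-, g1, g2, g3, g4⟩ := hS p hp1
  have h8 := cen_near h1 P
  rw [hl] at h8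
  obtain ⟨u1, u2, u3, u4⟩ := sd_tr2 (by omega) (by omega) hD0 h7 hP h8
  rw [add_sub_cancel] at u1
  have hh : 2 ^ (kk c + 2) ≤ 2 ^ (j + 2) := Nat.pow_le_pow_right (by norm_num) (by omega)
  exact ⟨u1, u2, u3, u4, g1, g2, (BE_mono hh _ _).trans g3, (BE_mono hh _ _).trans g4⟩

end SP

end RMP

end HexObs
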