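import Pool.Agent.RMP.SplC
import Pool.Agent.PMA.TrDef
import Pool.Agent.ARM.NumB
import Pool.Agent.TIP.RevM

/-!
# RMP, row SplP (helper87): the number of the splittings of a word without too many cuts behind its good cuts

`spl_countT`: as `SP.spl_count`, the hypothesis is 70's property `¬ PMA.TrB` of the two outer words with their end parts: between the
outermost and the innermost marking of a class there is a bridge, and all markings of the class are cuts of it.
-/

set_option autoImplicit false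

namespace HexObs

namespace RMP

namespace SP

open Finset TS SDN SIM NTA TIP ARM ARM.G3 G4

open scoped ENNReal

variable {E : ℕ → Pt} {r : ℕ} {D : ℤ} {k : ℕ} {P : Pt} {w : List Bool} {t a b : ℕ}

/-- the vertices of a part of a word -/
lemma sl_vx (hab : a ≤ b) (hb : b ≤ w.length) {i : ℕ} (hi : i ≤ b - a) :
    mulE (rotTo up (dx up w a)) (vx oo up (sl w a b) i) = vx oo up w (a + i) - vx oo up w a := by
  obtain ⟨h1, h2⟩ := frame_dir (dx_mem up_dirs w a)
  have hun : nrm (rotTo up (dx up w a)) = 1 := mem_dirs.1 h1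
  have h3 := (part_vx (w := w) (p := 0) (c := (1, 0)) (a := a) (u := rotTo up (dx up w a)) (m := b - a) (i := i) (by
      unfold Up
      rw [mulE_one, ← h2]) hun hi (by omega)).1
  unfold Vp at h3
  rw [mulE_one, mulE_one, zero_add, zero_add] at h3
  exact h3

lemma sl_hn (hab : a ≤ b) (hb : b ≤ w.length) {i i' : ℕ} (hi : i ≤ b - a) (hi' : i' ≤ b - a) :
    TIW.hn (vx oo up (sl w a b) i - vx oo up (sl w a b) i') = TIW.hn (vx oo up w (a + i) - vx oo up w (a + i')) := by
  have hun : nrm (rotTo up (dx up w a)) = 1 := mem_dirs.1 (frame_dir (dx_mem up_dirs w a)).1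
  rw [← TIW.hn_mulE hun, mulE_sub, sl_vx hab hb hi, sl_vx hab hb hi']
  congr 1
  abel

lemma two_pt {v p q : Pt} {R : ℤ} (hp : TIW.hn (p - v) ≤ R) (hq : TIW.hn (q - v) ≤ R) : TIW.hn (p - q) ≤ 2 * R := by
  have e1 : p - q = (p - v) - (q - v) := by abel
  rw [e1]
  linarith [TIW.hn_sub (p - v) (q - v)]

/-- the diameter of a part of a word -/
lemma sl_In (hab : a ≤ b) (hb : b ≤ w.length) {v : Pt} {R : ℤ} {Dm : ℕ}
    (h : ∀ i, a ≤ i → i ≤ b → TIW.hn (vx oo up w i - v) ≤ R) (hR : 2 * R ≤ Dm) : In Dm (sl w a b) := by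
  intro i hi
  rw [sl_len hb] at hi
  refine Bl_of_hn ?_
  have h1 := sl_hn (w := w) hab hb hi (Nat.zero_le _)
  have e1 : vx oo up (sl w a b) i - vx oo up (sl w a b) 0 = vx oo up (sl w a b) i := sub_zero _
  rw [e1] at h1
  rw [h1]
  exact (two_pt (h (a + i) (by omega) (by omega)) (h (a + 0) (by omega) (by omega))).trans hR

/-- the diameter of the reversed part -/
lemma sl_InR (hab : a ≤ b) (hb : b ≤ w.length) {v : Pt} {R : ℤ} {Dm : ℕ}
    (h : ∀ i, a ≤ i → i ≤ b → TIW.hn (vx oo up w i - v) ≤ R) (hR : 2 * R + 2 ≤ Dm) : In Dm (rev (sl w a b)) := by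
  intro i hi
  have hl : (sl w a b).length = b - a := sl_len hb
  rw [rev_length, hl] at hi
  refine Bl_of_hn ?_
  rcases Nat.eq_zero_or_pos i with h0 | h0
  · rw [h0]
    have e1 : vx oo up (rev (sl w a b)) 0 = 0 := rfl
    have e2 : TIW.hn (0 : Pt) = 0 := by decide
    rw [e1, e2]
    positivity
  obtain ⟨c, hc, hfr⟩ := TIP.RevM.rev_frame (sl w a b)
  have h9 := hfr i (by omega)
  rw [hl] at h9
  have h10 : TIW.hn (vx oo up (rev (sl w a b)) i) =
      TIW.hn (vx oo up (sl w a b) (b - a + 1) - vx oo up (sl w a b) (b - a + 1 - i)) := by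
    rw [h9, ← TIW.hn_mulE (mem_dirs.1 hc) (vx oo up (rev (sl w a b)) i), ← TIW.hn_neg]
    congr 1
    abel
  rw [h10]
  have h5 := sl_hn (w := w) hab hb (i := b - a) (i' := b - a + 1 - i) le_rfl (by omega)
  have h6 := two_pt (h (a + (b - a)) (by omega) (by omega)) (h (a + (b - a + 1 - i)) (by omega) (by omega))
  have h7 := vstep (sl w a b) (b - a)
  have e4 : vx oo up (sl w a b) (b - a + 1) - vx oo up (sl w a b) (b - a + 1 - i) =
      (vx oo up (sl w a b) (b - a + 1) - vx oo up (sl w a b) (b - a)) +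
        (vx oo up (sl w a b) (b - a) - vx oo up (sl w a b) (b - a + 1 - i)) := by abel
  rw [e4]
  have h8 := TIW.hn_add (vx oo up (sl w a b) (b - a + 1) - vx oo up (sl w a b) (b - a))
    (vx oo up (sl w a b) (b - a) - vx oo up (sl w a b) (b - a + 1 - i))
  linarith

open Classical in
/-- cuts -/
lemma le_nc {Z : List Bool} (S : Finset ℕ) (h : ∀ x ∈ S, x ≤ Z.length ∧ Z.take x ∈ BU ∧ Z.drop x ∈ BU) : S.card ≤ nc Z := by
  unfold nc
  refine card_le_card fun x hx => ?_
  obtain ⟨h1, h2, h3⟩ := h x hx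
  rw [mem_filter, mem_range]
  exact ⟨by omega, h2, h3⟩

lemma sl_take {x : ℕ} (hx : x + a ≤ b) : (sl w a b).take x = sl w a (a + x) := by
  unfold sl
  rw [List.take_take]
  congr 1
  omega

lemma sl_drop {x : ℕ} (hx : x + a ≤ b) : (sl w a b).drop x = sl w (a + x) b := by
  unfold sl
  rw [List.drop_take, List.drop_drop]
  congr 1
  omega

/-- an end part behind the word A -/
def EPr (j m c : ℕ) (η K tt q : ℝ) (A : List Bool) : Prop :=
  ∃ Y : List Bool, rev Y ∈ GT j η ∧ In (2 ^ (j + m)) Y ∧ (Y.length : ℝ) + q ≤ tt ∧ ¬ PMA.TrB j m c η K tt (A ++ Y)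

/-- **the number of the markings with the same path** -/
theorem spl_countT1 (hE : IPg E r) (hr : 3 ≤ r) (hD : 2 ^ (k + 12) ≤ D) (hw : w ∈ SA) {t j m c : ℕ} {η K tt q : ℝ}
    (hkj : k ≤ j) {R : ℤ} (hR : 2 * R + 2 ≤ 2 ^ (j + c)) (S : Finset (ℕ × ℕ))
    (hS : ∀ p ∈ S, Tr2 E r D k P (vx oo up w) (dx up w) w.length p.1 p.2 ∧ p.1 ≤ t ∧ t ≤ p.2 ∧ p.2 + 1 ≤ w.length ∧
      (∃ v : Pt, ∀ i, p.1 ≤ i → i ≤ p.2 → TIW.hn (vx oo up w i - v) ≤ R) ∧ (p.2 : ℝ) ≤ p.1 + q ∧
      EPr j m c η K tt q (w.take p.1) ∧ EPr j m c η K tt q (Bw w p.2)) : (S.card : ℝ) ≤ (K * Ub j) ^ 2 := by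
  classical
  rcases S.eq_empty_or_nonempty with h0 | h0
  · rw [h0]
    simp only [card_empty, Nat.cast_zero]
    positivity
  have hh : 2 ^ (k + 2) ≤ 2 ^ (j + 2) := Nat.pow_le_pow_right (by norm_num) (by omega)
  have hR' : 2 * R ≤ ((2 ^ (j + c) : ℕ) : ℤ) := by
    push_cast
    linarith
  have hR'' : 2 * R + 2 ≤ ((2 ^ (j + c) : ℕ) : ℤ) := by
    push_cast
    linarith
  -- the first words
  have hA : ((S.image Prod.fst).card : ℝ) ≤ K * Ub j := by
    obtain ⟨p0, hp0, hm0⟩ := S.exists_min_image (fun p => p.1) h0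
    obtain ⟨p1, hp1, hm1⟩ := S.exists_max_image (fun p => p.1) h0
    obtain ⟨s1, s2, s3, s4, ⟨v, s5⟩, s6, -, -⟩ := hS p0 hp0
    obtain ⟨t1, t2, t3, t4, -, -, ⟨Y, y1, y2, y3, y4⟩, -⟩ := hS p1 hp1
    have h01 : p0.1 ≤ p1.1 := hm0 p1 hp1
    obtain ⟨z1, z2⟩ := (spl_cls hE hr hD hw s1 t1 t2 s3).1 h01
    by_contra hcon
    push Not at hcon
    refine y4 ⟨w.take p0.1, sl w p0.1 p1.1, Y, ?_, y1, y2, z1, z2.trans hh, ?_, ?_, ?_⟩
    · rw [← List.append_assoc]
      congr 1
      unfold sl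
      rw [← List.take_add]
      congr 1
      omega
    · exact sl_In h01 (by omega) (fun i h1 h2 => s5 i h1 (by omega)) hR'
    · refine hcon.trans_le ?_
      have h5 : (S.image Prod.fst).card ≤ nc (sl w p0.1 p1.1) := by
        have h6 : ((S.image Prod.fst).image fun x => x - p0.1).card = (S.image Prod.fst).card := by
          refine card_image_of_injOn ?_
          intro x hx y hy hxy
          rw [mem_coe, mem_image] at hx hy
          obtain ⟨p, hp, rfl⟩ := hx
          obtain ⟨p', hp', rfl⟩ := hy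
          have g1 := hm0 p hp
          have g2 := hm0 p' hp'
          simp only at hxy g1 g2
          omega
        rw [← h6]
        refine le_nc _ fun x hx => ?_
        rw [mem_image] at hx
        obtain ⟨y, hy, rfl⟩ := hx
        rw [mem_image] at hy
        obtain ⟨p, hp, rfl⟩ := hy
        obtain ⟨u1, u2, u3, u4, -, -, -, -⟩ := hS p hp
        have g1 : p0.1 ≤ p.1 := hm0 p hp
        have g2 : p.1 ≤ p1.1 := hm1 p hp
        refine ⟨?_, ?_, ?_⟩
        · rw [sl_len (by omega)]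
          omega
        · rw [sl_take (by omega), Nat.add_sub_cancel' g1]
          exact ((spl_cls hE hr hD hw s1 u1 u2 s3).1 g1).1
        · rw [sl_drop (by omega), Nat.add_sub_cancel' g1]
          exact ((spl_cls hE hr hD hw u1 t1 t2 u3).1 g2).1
      exact_mod_cast h5
    · have h5 : (sl w p0.1 p1.1).length ≤ p0.2 - p0.1 := by
        rw [sl_len (by omega)]
        omega
      have h6 : ((sl w p0.1 p1.1).length : ℝ) ≤ q := by
        have h7 : ((sl w p0.1 p1.1).length : ℝ) + p0.1 ≤ p0.2 := by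
          exact_mod_cast (by omega : (sl w p0.1 p1.1).length + p0.1 ≤ p0.2)
        linarith
      linarith
  -- the second words
  have hB : ((S.image Prod.snd).card : ℝ) ≤ K * Ub j := by
    obtain ⟨p0, hp0, hm0⟩ := S.exists_min_image (fun p => p.2) h0
    obtain ⟨p1, hp1, hm1⟩ := S.exists_max_image (fun p => p.2) h0
    obtain ⟨s1, s2, s3, s4, -, -, -, ⟨Y, y1, y2, y3, y4⟩⟩ := hS p0 hp0
    obtain ⟨t1, t2, t3, t4, ⟨v, t5⟩, t6, -, -⟩ := hS p1 hp1
    have h01 : p0.2 ≤ p1.2 := hm0 p1 hp1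
    obtain ⟨z1, z2⟩ := (spl_cls hE hr hD hw s1 t1 t2 s3).2 h01
    obtain ⟨e1, e2⟩ := Bw_sub (w := w) h01 (by omega)
    have hl : (sl w p0.2 p1.2).length = p1.2 - p0.2 := sl_len (by omega)
    by_contra hcon
    push Not at hcon
    refine y4 ⟨Bw w p1.2, rev (sl w p0.2 p1.2), Y, ?_, y1, y2, BU_rev z1, ?_, ?_, ?_, ?_⟩
    · rw [← List.append_assoc]
      congr 1
      nth_rewrite 1 [← List.take_append_drop (Bw w p1.2).length (Bw w p0.2)]
      rw [e1, e2]
    · have h3 : hgt (rev (sl w p0.2 p1.2)) = hgt (sl w p0.2 p1.2) := hgt_eq (Brd_rev (TIP.BU_hgt z1))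
      rw [h3]
      exact z2.trans hh
    · exact sl_InR h01 (by omega) (fun i h1 h2 => t5 i (by omega) h2) hR''
    · refine hcon.trans_le ?_
      have h5 : (S.image Prod.snd).card ≤ nc (rev (sl w p0.2 p1.2)) := by
        have h6 : ((S.image Prod.snd).image fun x => p1.2 - x).card = (S.image Prod.snd).card := by
          refine card_image_of_injOn ?_
          intro x hx y hy hxy
          rw [mem_coe, mem_image] at hx hy
          obtain ⟨p, hp, rfl⟩ := hx
          obtain ⟨p', hp', rfl⟩ := hy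
          have g1 := hm1 p hp
          have g2 := hm1 p' hp'
          simp only at hxy g1 g2
          omega
        rw [← h6]
        refine le_nc _ fun x hx => ?_
        rw [mem_image] at hx
        obtain ⟨y, hy, rfl⟩ := hx
        rw [mem_image] at hy
        obtain ⟨p, hp, rfl⟩ := hy
        obtain ⟨u1, u2, u3, u4, -, -, -, -⟩ := hS p hp
        have g1 : p0.2 ≤ p.2 := hm0 p hp
        have g2 : p.2 ≤ p1.2 := hm1 p hp
        have f1 : rev (sl w p.2 p1.2) = (rev (sl w p0.2 p1.2)).take (p1.2 - p.2) := by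
          have f2 : sl w p.2 p1.2 = (sl w p0.2 p1.2).drop (p.2 - p0.2) := by
            rw [sl_drop (by omega), Nat.add_sub_cancel' g1]
          rw [f2, rev_drop _ _ (by omega), hl]
          congr 1
          omega
        have f3 : rev (sl w p0.2 p.2) = (rev (sl w p0.2 p1.2)).drop (p1.2 - p.2) := by
          have f2 : sl w p0.2 p.2 = (sl w p0.2 p1.2).take (p.2 - p0.2) := by
            rw [sl_take (by omega), Nat.add_sub_cancel' g1]
          rw [f2, rev_take' _ _ (by omega), hl]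
          congr 1
          omega
        refine ⟨?_, ?_, ?_⟩
        · rw [rev_length, hl]
          omega
        · rw [← f1]
          exact BU_rev ((spl_cls hE hr hD hw u1 t1 t2 u3).2 g2).1
        · rw [← f3]
          exact BU_rev ((spl_cls hE hr hD hw s1 u1 u2 s3).2 g1).1
      exact_mod_cast h5
    · have h5 : (rev (sl w p0.2 p1.2)).length + p1.1 ≤ p1.2 := by
        rw [rev_length, hl]
        omega
      have h6 : ((rev (sl w p0.2 p1.2)).length : ℝ) ≤ q := by
        have h7 : ((rev (sl w p0.2 p1.2)).length : ℝ) + p1.1 ≤ p1.2 := by exact_mod_cast h5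
        linarith
      linarith
  have hsub : S ⊆ (S.image Prod.fst) ×ˢ (S.image Prod.snd) := by
    intro p hp
    rw [mem_product]
    exact ⟨mem_image_of_mem _ hp, mem_image_of_mem _ hp⟩
  have h1 : (S.card : ℝ) ≤ ((S.image Prod.fst).card : ℝ) * ((S.image Prod.snd).card : ℝ) := by
    have h2 := card_le_card hsub
    rw [card_product] at h2
    exact_mod_cast h2
  refine h1.trans ?_
  rw [sq]
  refine mul_le_mul hA hB (Nat.cast_nonneg _) ((Nat.cast_nonneg _).trans hA)

end SP

end RMP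

end HexObs
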