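import Pool.Agent.RMP.TipP

/-!
RMP, row P1 (helper73), part 6: the pair seen from the tip of the first word: the reversed first word `rv T.1` starts at the
origin, the second word is placed in the relative frame.
-/

set_option autoImplicit false

namespace HexObs

namespace RMP

open Finset TS SDN NTW NTA HexObs.SIM TIP ARM

open scoped ENNReal

/-! ### relative frames -/

/-- the frame g seen from the frame f -/
def rel (f g : Pt × Pt) : Pt × Pt := (mulE (conjE f.2) (g.1 - f.1), mulE (conjE f.2) g.2)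

lemma pv_rel {f : Pt × Pt} (hf : Fr f) (g : Pt × Pt) (B : List Bool) (t : ℕ) :
    f.1 + mulE f.2 (pv (rel f g) B t) = pv g B t := by
  unfold pv rel
  simp only
  rw [mulE_add, mul_conj hf.nrm, mulE_assoc, mulE_assoc, mulE_conjE, hf.nrm, mulE_one]
  abel

lemma Fr_rel {f g : Pt × Pt} (hf : Fr f) (hg : Fr g) : Fr (rel f g) := by
  have hn : nrm (conjE f.2) = 1 := by rw [nrm_conjE, hf.nrm]
  have e1 : cl (rel f g).1 = cl f.2 * (cl g.1 - cl f.1) := by
    unfold rel
    simp only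
    rw [cl_mulE, cl_conjE, cl_sub]
  have e2 : cl (rel f g).2 = cl f.2 * cl g.2 := by
    unfold rel
    simp only
    rw [cl_mulE, cl_conjE]
  refine ⟨?_, ?_⟩
  · rw [mem_dirs]
    unfold rel
    simp only
    rw [nrm_mulE, hn, hg.nrm, one_mul]
  · rw [e1, e2]
    have c1 : cl up = -1 := cl_up'
    rcases hf.2 with ⟨h1, h2⟩ | ⟨h1, h2⟩ <;> rcases hg.2 with ⟨h3, h4⟩ | ⟨h3, h4⟩ <;> rw [h1, h2, h3, h4, c1] <;> decide

lemma rel_inj {f g g' : Pt × Pt} (hf : Fr f) (h : rel f g = rel f g') : g = g' := by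
  have hn : nrm (conjE f.2) = 1 := by rw [nrm_conjE, hf.nrm]
  have h1 := congrArg Prod.fst h
  have h2 := congrArg Prod.snd h
  unfold rel at h1 h2
  simp only at h1 h2
  have h3 := mulE_inj hn h1
  have h4 := mulE_inj hn h2
  exact Prod.ext (sub_left_injective h3) h4

/-! ### the frame of the reversed word -/

lemma rvT_fr (L : List Bool) (h : 1 ≤ L.length) : ∃ c : Pt, Fr (TIW.en L, c) ∧
    ∀ i, i ≤ L.length → vx oo up L (L.length - i) = TIW.en L + mulE c (vx oo up (rv L) i) := by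
  obtain ⟨c, hc, hf⟩ := RevM.rev_frame1 L
  refine ⟨c, ⟨hc, ?_⟩, hf⟩
  have h1 := hf 1 h
  have e1 : vx oo up ((rev L).drop 1) 1 = up := by
    have : vx oo up ((rev L).drop 1) 1 = oo + up := rfl
    rw [this]
    decide
  rw [e1] at h1
  have h2 := congrArg cl h1
  rw [cl_add, cl_mulE, cl_vx, cl_vx, cl_up', cl_oo] at h2
  show (cl (vx oo up L L.length) = 0 ∧ cl c = 1) ∨ (cl (vx oo up L L.length) = cl up ∧ cl c = -1)
  rw [cl_vx, cl_up', cl_oo]
  obtain ⟨n, hn⟩ : ∃ n, L.length = n + 1 := ⟨L.length - 1, by omega⟩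
  rw [hn] at h2 ⊢
  rw [show n + 1 - 1 = n by omega] at h2
  generalize cl c = z at h2 ⊢
  by_cases hev : Even n
  · have ho : ¬ Even (n + 1) := by
      rw [Nat.even_add_one]
      exact not_not.2 hev
    rw [if_pos hev, if_neg ho] at h2
    rw [if_neg ho]
    right
    revert z
    decide
  · have ho : Even (n + 1) := Nat.even_add_one.2 hev
    rw [if_neg hev, if_pos ho] at h2
    rw [if_pos ho]
    left
    revert z
    decide

open Classical in
/-- the rotation of the reversed word -/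
noncomputable def rvcT (L : List Bool) : Pt := if h : 1 ≤ L.length then (rvT_fr L h).choose else (1, 0)

lemma rvcT_fr {L : List Bool} (h : 1 ≤ L.length) : Fr (TIW.en L, rvcT L) := by
  unfold rvcT
  rw [dif_pos h]
  exact (rvT_fr L h).choose_spec.1

lemma rvcT_vx {L : List Bool} (h : 1 ≤ L.length) {i : ℕ} (hi : i ≤ L.length) :
    vx oo up L (L.length - i) = TIW.en L + mulE (rvcT L) (vx oo up (rv L) i) := by
  unfold rvcT
  rw [dif_pos h]
  exact (rvT_fr L h).choose_spec.2 i hi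

/-- **the pair seen from the tip of the first word** -/
noncomputable def rp (T : PT) : PT := (rv T.1, (rel (TIW.en T.1, rvcT T.1) T.2.1, T.2.2))

lemma rp_vv {L : List Bool} (h : 1 ≤ L.length) {i j : ℕ} (hi : i ≤ L.length) (hj : j ≤ L.length) :
    TIW.hn (vx oo up (rv L) i - vx oo up (rv L) j) = TIW.hn (vx oo up L (L.length - i) - vx oo up L (L.length - j)) := by
  have e : vx oo up L (L.length - i) - vx oo up L (L.length - j) =
      mulE (rvcT L) (vx oo up (rv L) i - vx oo up (rv L) j) := by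
    rw [rvcT_vx h hi, rvcT_vx h hj, mulE_sub']
    abel
  rw [e, TIW.hn_mulE (rvcT_fr h).nrm]

lemma rp_vp {T : PT} (h : 1 ≤ T.1.length) {i : ℕ} (hi : i ≤ T.1.length) (t : ℕ) :
    TIW.hn (vx oo up (rp T).1 i - pv (rp T).2.1 (rp T).2.2 t) =
      TIW.hn (vx oo up T.1 (T.1.length - i) - pv T.2.1 T.2.2 t) := by
  have e1 := pv_rel (rvcT_fr h) T.2.1 T.2.2 t
  have e : vx oo up T.1 (T.1.length - i) - pv T.2.1 T.2.2 t =
      mulE (rvcT T.1) (vx oo up (rp T).1 i - pv (rp T).2.1 (rp T).2.2 t) := by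
    rw [rvcT_vx h hi, ← e1, mulE_sub']
    show TIW.en T.1 + mulE (rvcT T.1) (vx oo up (rv T.1) i) - (TIW.en T.1 +
      mulE (rvcT T.1) (pv (rel (TIW.en T.1, rvcT T.1) T.2.1) T.2.2 t)) = _
    rw [add_sub_add_left_eq_sub]
    rfl
  rw [e, TIW.hn_mulE (rvcT_fr h).nrm]

lemma rp_av {T : PT} (h : 1 ≤ T.1.length) (hA : Av (ob T.2.1 T.2.2) T.1) :
    Av (ob (rp T).2.1 (rp T).2.2) (rp T).1 := by
  rintro i hi ⟨t, ht, he⟩
  have hi' : i ≤ T.1.length := by
    have : (rp T).1.length = T.1.length - 1 := rv_length T.1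
    omega
  refine hA (T.1.length - i) (by omega) ⟨t, ht, ?_⟩
  rw [rvcT_vx h hi', ← pv_rel (rvcT_fr h) T.2.1 T.2.2 t]
  show TIW.en T.1 + mulE (rvcT T.1) (vx oo up (rv T.1) i) = TIW.en T.1 +
    mulE (rvcT T.1) (pv (rel (TIW.en T.1, rvcT T.1) T.2.1) T.2.2 t)
  congr 2

lemma rp_inj {T T' : PT} (h : 1 ≤ T.1.length) (h' : 1 ≤ T'.1.length) (he : rp T = rp T')
    (hd : (rev T.1).headD true = (rev T'.1).headD true) : T = T' := by
  obtain ⟨L, g, B⟩ := T
  obtain ⟨L', g', B'⟩ := T'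
  have h1 : rv L = rv L' := congrArg Prod.fst he
  have h2 : L = L' := rv_inj h h' h1 hd
  subst h2
  have h3 : B = B' := congrArg (fun T : PT => T.2.2) he
  subst h3
  have h4 : rel (TIW.en L, rvcT L) g = rel (TIW.en L, rvcT L) g' := congrArg (fun T : PT => T.2.1) he
  have h5 : g = g' := rel_inj (rvcT_fr h) h4
  rw [h5]

/-- **the mass of the pairs seen from the tip** -/
theorem gp_rp {S S' : Set PT} (hS : ∀ T ∈ S, 1 ≤ T.1.length) (h : ∀ T ∈ S, rp T ∈ S') : gp S ≤ 2 * gp S' := by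
  have hsub : S ⊆ {T | T ∈ S ∧ (rev T.1).headD true = true} ∪ {T | T ∈ S ∧ (rev T.1).headD true = false} := by
    intro T hT
    cases hb : (rev T.1).headD true with
    | true => exact Or.inl ⟨hT, hb⟩
    | false => exact Or.inr ⟨hT, hb⟩
  have hb : ∀ b : Bool, gp {T | T ∈ S ∧ (rev T.1).headD true = b} ≤ gp S' := by
    intro b
    unfold gp
    have hinj : Function.Injective (fun T : {T : PT | T ∈ S ∧ (rev T.1).headD true = b} => (⟨rp T, h T T.2.1⟩ : S')) := by
      intro T T' hTT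
      exact Subtype.ext (rp_inj (hS T T.2.1) (hS T' T'.2.1) (congrArg Subtype.val hTT) (T.2.2.trans T'.2.2.symm))
    calc ∑' T : {T : PT | T ∈ S ∧ (rev T.1).headD true = b}, wE (T : PT).1 * wE (T : PT).2.2
        ≤ ∑' T : {T : PT | T ∈ S ∧ (rev T.1).headD true = b},
          (fun T' : S' => wE (T' : PT).1 * wE (T' : PT).2.2) ⟨rp T, h T T.2.1⟩ :=
          ENNReal.tsum_le_tsum fun T => mul_le_mul_left (wE_rv (hS T T.2.1)) _
      _ ≤ ∑' T' : S', wE (T' : PT).1 * wE (T' : PT).2.2 := ENNReal.tsum_comp_le_tsum_of_injective hinj _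
  calc gp S ≤ _ := gp_mono hsub
    _ ≤ _ := gp_union_le _ _
    _ ≤ gp S' + gp S' := add_le_add (hb true) (hb false)
    _ = _ := (two_mul _).symm

/-! ### the class of the pairs with the first word from the gap -/

/-- the first word starts at the gap; all the vertices in the ball of radius N -/
def PO (N j : ℕ) : Set PT :=
  {T | T.1 ∈ SA ∧ T.2.2 ∈ SA ∧ Fr T.2.1 ∧ Av (ob T.2.1 T.2.2) T.1 ∧ TIW.hn (pe T.2.1 T.2.2) ≤ 2 ^ j ∧
    (∀ s, s ≤ T.1.length → TIW.hn (vx oo up T.1 s) ≤ N) ∧ ∀ s, s ≤ T.2.2.length → dz T.2.2 s ≤ N}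

lemma hn_oo_sub (p : Pt) : TIW.hn (vx oo up ([] : List Bool) 0 - p) = TIW.hn p := by
  have e : vx oo up ([] : List Bool) 0 - p = -p := by
    show oo - p = -p
    rw [oo_zero, zero_sub]
  rw [e, TIW.hn_neg]

lemma vx_zero (L : List Bool) : vx oo up L 0 = 0 := rfl

lemma rp_PO {R N j : ℕ} {T : PT} (hT : T ∈ P3 R j) (h : 1 ≤ T.1.length) (hN : R + 2 ^ j ≤ N) : rp T ∈ PO N j := by
  obtain ⟨h1, h2, h3, h4, h5, h6, h7⟩ := hT
  have hN' : (R : ℤ) + 2 ^ j ≤ N := by exact_mod_cast hN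
  have hl : (rp T).1.length = T.1.length - 1 := rv_length T.1
  refine ⟨rv_SA h1, h2, Fr_rel (rvcT_fr h) h3, rp_av h h4, ?_, fun s hs => ?_, fun s hs => (h7 s hs).trans hN'⟩
  · have e := rp_vp h (Nat.zero_le _) T.2.2.length (T := T)
    rw [vx_zero, zero_sub, TIW.hn_neg, Nat.sub_zero] at e
    exact e.le.trans h5
  · have e := rp_vv h (i := s) (j := 0) (by omega) (Nat.zero_le _)
    rw [vx_zero, sub_zero, Nat.sub_zero] at e
    exact e.le.trans ((h6 (T.1.length - s) (by omega)).trans hN')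

lemma rp_P3 {N j : ℕ} {T : PT} (hT : T ∈ PO N j) (h : 1 ≤ T.1.length) : rp T ∈ P3 N (j + 2) := by
  obtain ⟨h1, h2, h3, h4, h5, h6, h7⟩ := hT
  have hl : (rp T).1.length = T.1.length - 1 := rv_length T.1
  have hj : (1 : ℤ) ≤ 2 ^ j := one_le_pow₀ (by norm_num)
  have e4 : (2 : ℤ) ^ (j + 2) = 4 * 2 ^ j := by
    rw [pow_add]
    ring
  have hup : TIW.hn (vx oo up T.1 1) ≤ 2 := hn_vx_one T.1
  refine ⟨rv_SA h1, h2, Fr_rel (rvcT_fr h) h3, rp_av h h4, ?_, fun s hs => ?_, fun s hs => (h7 s hs).trans (by linarith)⟩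
  · have e := rp_vp h (i := (rp T).1.length) (by omega) T.2.2.length (T := T)
    rw [hl, show T.1.length - (T.1.length - 1) = 1 by omega] at e
    have e1 : TIW.hn (TIW.en (rp T).1 - pe (rp T).2.1 (rp T).2.2) = TIW.hn (vx oo up T.1 1 - pv T.2.1 T.2.2 T.2.2.length) := by
      rw [← e, ← hl]
      rfl
    rw [e1]
    refine (TIW.hn_sub _ _).trans ?_
    have h8 : TIW.hn (pv T.2.1 T.2.2 T.2.2.length) ≤ 2 ^ j := h5
    rw [e4]
    linarith
  · have e := rp_vv h (i := s) (j := (rp T).1.length) (by omega) (by omega)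
    rw [hl, show T.1.length - (T.1.length - 1) = 1 by omega] at e
    have e1 : dz (rp T).1 s = TIW.hn (vx oo up T.1 (T.1.length - s) - vx oo up T.1 1) := by
      rw [← e, ← hl]
      rfl
    rw [e1]
    refine (TIW.hn_sub _ _).trans ?_
    have h8 := h6 (T.1.length - s) (by omega)
    rw [e4]
    linarith

end RMP

end HexObs
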