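import Pool.Agent.RMP.KDefs
import Pool.Agent.PMA.TrDef

/-!
# RM (pairs), row TrZ (helper70): the property `Zp`, too many cuts behind a good cut for one of the two words; it is local
-/

set_option autoImplicit false

namespace HexObs

namespace RMP

open Finset TS SDN HexObs.SIM NTA TIP ARM

/-- the good pairs: not too many cuts behind the good cuts of both words -/
def Zp (j m c : ℕ) (η K t : ℝ) (T : PT) : Prop := ¬ PMA.TrB j m c η K t T.1 ∧ ¬ PMA.TrB j m c η K t T.2.2

/-- **`Zp` is local** -/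
theorem locZ_Zp {P : Par} {m c : ℕ} {η K : ℝ} (hZ : P.Z = Zp P.j m c η K ((P.A + P.A1) * ml P.j)) (w1 : ℕ) :
    LocZ P w1 := by
  intro t1 t2 w L L' _ h h1 h2
  rw [hZ]
  exact ⟨fun g => ⟨fun g1 => g.1 (g1.suffix h1 h.dp1.symm), fun g1 => g.2 (g1.suffix h2 h.dp2.symm)⟩,
    fun g => ⟨fun g1 => g.1 (g1.suffix h1 h.dp1), fun g1 => g.2 (g1.suffix h2 h.dp2)⟩⟩

end RMP

end HexObs
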