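import Pool.Agent.RMP.KaFin
import Pool.Agent.RMP.NuP
import Pool.Agent.RMP.K3P
import Pool.Agent.ARM.Mid

/-!
# (RM), the ways of the transport (helper39)

**`way_of`**: a positive transport comes from a way: short tips, short fillings, the joined word is self-avoiding.
-/

set_option autoImplicit false

namespace HexObs

namespace RMP

open Finset TS SDN HexObs.SIM NTA TIP ARM ARM.G3 TIW K3P KA NP

open scoped ENNReal

/-- **the ways of the transport** -/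
theorem way_of {P : Par} (hH : 2 ^ 13 ≤ P.H) (hj : P.sx + 3 ≤ P.j) {L : PT} {K : List Bool × ℕ} (h : nu P L K ≠ 0) :
    Way P.S ((P.A + P.A1) * ml P.j) ((3 * 2 ^ P.m + 2048 + 72 * P.H * P.Mx : ℕ) * 2 ^ P.j) L K := by
  obtain ⟨T, y, q, hA, -, hQ, hu, hop, hjo⟩ := nu_ne' h
  obtain ⟨hG, hC, hJ, hl⟩ := hA
  have hD : (2 : ℝ) ^ (P.j + P.m) = 2 ^ P.j * 2 ^ P.m := pow_add _ _ _
  have hin : ∀ Y : List Bool, In (2 ^ (P.j + P.m)) Y → ∀ i, i ≤ Y.length →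
      (TIW.hn (vx oo up Y i) : ℝ) ≤ (3 * 2 ^ P.m + 2048 + 72 * P.H * P.Mx : ℕ) * 2 ^ P.j := fun Y hY i hi => by
    have h1 := mid_hn_In hY hi
    have h2 : ((TIW.hn (vx oo up Y i) : ℤ) : ℝ) ≤ ((3 * (2 ^ (P.j + P.m) : ℕ) : ℤ) : ℝ) := by exact_mod_cast h1
    refine h2.trans ?_
    push_cast
    rw [hD]
    have h3 : (0 : ℝ) < 2 ^ P.j := by positivity
    have h4 : (0 : ℝ) ≤ 72 * P.H * P.Mx := by positivity
    nlinarith [mul_nonneg h4 h3.le]
  refine ⟨T, y, q, hop, hjo, ?_, ?_, ?_, hu.le, ?_, hin _ hC.1.2.1, hin _ hC.2.2.1, fun i hi => ?_⟩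
  · rw [← hjo]
    exact (gE_jo hJ hQ).symm
  · rw [← hjo]
    exact jo_sa hH hj hJ hQ q.2.1 q.2.2
  · rw [← hop]
    exact hG
  · have h1 := hQ.2.2.1
    push_cast
    linarith
  · have h1 := fil_near hJ hQ hi
    have h2 : ((TIW.hn (vx oo up q.1 i) : ℤ) : ℝ) ≤ (((2048 + 72 * P.H * P.Mx : ℕ) * 2 ^ P.j : ℤ) : ℝ) := by exact_mod_cast h1
    refine h2.trans ?_
    push_cast
    have h3 : (0 : ℝ) < 2 ^ P.j := by positivity
    have h4 : (0 : ℝ) ≤ 3 * 2 ^ P.m := by positivity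
    nlinarith [mul_nonneg h4 h3.le]

end RMP

end HexObs
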